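import Mathlib

/-!
Holomorphic functions of several variables: estimates, limits, power series.
-/

namespace Pool.Agent.P.MP_f17f76_ag.E

open Set Filter Topology Metric
open scoped Nat

set_option linter.unusedSectionVars false

variable {E F : Type} [NormedAddCommGroup E] [NormedSpace ℂ E] [NormedAddCommGroup F]
  [NormedSpace ℂ F] {f : E → F} {c z : E} {R C : ℝ} {U : Set E}

theorem maps_two (hC : ∀ z ∈ ball c R, ‖f z‖ ≤ C) (hR : 0 < R) :
    MapsTo f (ball c R) (closedBall (f c) (2 * C)) := fun z hz => by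
  rw [mem_closedBall, dist_eq_norm]
  linarith [norm_sub_le (f z) (f c), hC z hz, hC c (mem_ball_self hR)]

/-- The estimate of Cauchy. -/
theorem norm_fderiv_le (hd : DifferentiableOn ℂ f (ball c R)) (hC : ∀ z ∈ ball c R, ‖f z‖ ≤ C)
    (hR : 0 < R) : ‖fderiv ℂ f c‖ ≤ 2 * C / R :=
  Complex.norm_fderiv_le_div_of_mapsTo_ball hd (maps_two hC hR) hR

/-- The lemma of Schwarz. -/
theorem norm_sub_le_schwarz (hd : DifferentiableOn ℂ f (ball c R))
    (hC : ∀ z ∈ ball c R, ‖f z‖ ≤ C) (hz : z ∈ ball c R) :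
    ‖f z - f c‖ ≤ 2 * C / R * ‖z - c‖ := by
  simpa [dist_eq_norm] using Complex.dist_le_div_mul_dist_of_mapsTo_ball hd
    (maps_two hC (pos_of_mem_ball hz)) hz

theorem norm_second_le (hd : DifferentiableOn ℂ f (ball c R)) (hC : ∀ z ∈ ball c R, ‖f z‖ ≤ C)
    (hz : z ∈ ball c R) : ‖f z - f c - fderiv ℂ f c (z - c)‖ ≤ 4 * C * (‖z - c‖ / R) ^ 2 := by
  have hR := pos_of_mem_ball hz
  have h1 := norm_fderiv_le hd hC hR
  have := Complex.dist_le_mul_div_pow_of_mapsTo_ball_of_isLittleO (n := 1) (R₂ := 4 * C)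
    (f := fun z => f z - fderiv ℂ f c (z - c)) (hd.sub (by fun_prop)) (fun y hy => ?_) ?_ hz
  · simpa [dist_eq_norm, sub_right_comm] using this
  · have h2 := maps_two hC hR hy
    have h3 := (fderiv ℂ f c).le_opNorm (y - c)
    rw [mem_closedBall, dist_eq_norm] at h2 ⊢
    rw [mem_ball, dist_eq_norm] at hy
    have h4 : ‖fderiv ℂ f c‖ * ‖y - c‖ ≤ 2 * C / R * R :=
      mul_le_mul h1 hy.le (norm_nonneg _) ((norm_nonneg _).trans h1)
    rw [div_mul_cancel₀ _ hR.ne'] at h4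
    simp only [sub_self, map_zero, sub_zero]
    rw [sub_right_comm]
    linarith [norm_sub_le (f y - f c) (fderiv ℂ f c (y - c))]
  · have := ((hd c (mem_ball_self hR)).differentiableAt (ball_mem_nhds c hR)).hasFDerivAt.isLittleO
    simpa [sub_right_comm] using this.norm_right

theorem exists_ball_bound (hU : IsOpen U) (hd : ContinuousOn f U) (hc : c ∈ U) :
    ∃ r > 0, ∃ C, ball c r ⊆ U ∧ ∀ z ∈ ball c r, ‖f z‖ ≤ C := by
  have h := ((hd.continuousAt (hU.mem_nhds hc)).norm.eventually_lt_const (lt_add_one _)).and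
    (hU.mem_nhds hc)
  obtain ⟨r, hr, h⟩ := Metric.eventually_nhds_iff_ball.1 h
  exact ⟨r, hr, _, fun z hz => (h z hz).2, fun z hz => (h z hz).1.le⟩

theorem ball_sub (z c : E) (R : ℝ) : ball z (R - ‖z - c‖) ⊆ ball c R :=
  ball_subset_ball' (by rw [dist_eq_norm]; linarith)

variable [FiniteDimensional ℂ E] [FiniteDimensional ℂ F]

theorem lim_fderiv {α : Type} (l : Ultrafilter α) {g : α → E → F} (hR : 0 < R)
    (hg : ∀ᶠ n in l, DifferentiableOn ℂ (g n) (ball c R) ∧ ∀ z ∈ ball c R, ‖g n z‖ ≤ C)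
    (h : ∀ z ∈ ball c R, Tendsto (g · z) l (𝓝 (f z))) :
    DifferentiableAt ℂ f c ∧ Tendsto (fun n => fderiv ℂ (g n) c) l (𝓝 (fderiv ℂ f c)) := by
  have : ProperSpace (E →L[ℂ] F) := FiniteDimensional.proper ℂ _
  obtain ⟨L, -, hL⟩ := (isCompact_closedBall (0 : E →L[ℂ] F) (2 * C / R)).ultrafilter_le_nhds
    (l.map fun n => fderiv ℂ (g n) c) (le_principal_iff.2 (hg.mono fun n hn =>
      mem_closedBall_zero_iff.2 (norm_fderiv_le hn.1 hn.2 hR)))
  have hL : Tendsto (fun n => fderiv ℂ (g n) c) l (𝓝 L) := hL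
  have : HasFDerivAt f L c := by
    refine .of_isLittleO (Asymptotics.IsBigO.trans_isLittleO (g := fun z => ‖z - c‖ ^ 2)
      (Asymptotics.IsBigO.of_bound (4 * C / R ^ 2) ?_) ?_)
    · filter_upwards [ball_mem_nhds c hR] with z hz
      refine le_of_tendsto (((h z hz).sub (h c (mem_ball_self hR))).sub
        (((ContinuousLinearMap.apply ℂ F (z - c)).continuous.tendsto L).comp hL)).norm
        (hg.mono fun n hn => (norm_second_le hn.1 hn.2 hz).trans_eq ?_)
      rw [Real.norm_of_nonneg (by positivity)]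
      ring
    · exact Asymptotics.isLittleO_pow_sub_sub c one_lt_two
  exact ⟨this.differentiableAt, this.fderiv ▸ hL⟩

/-- The theorem of Vitali: bounded pointwise limits are holomorphic. -/
theorem diffOn_lim {α : Type} {l : Filter α} [l.NeBot] {g : α → E → F}
    (hg : ∀ᶠ n in l, DifferentiableOn ℂ (g n) (ball c R) ∧ ∀ z ∈ ball c R, ‖g n z‖ ≤ C)
    (h : ∀ z ∈ ball c R, Tendsto (g · z) l (𝓝 (f z))) : DifferentiableOn ℂ f (ball c R) :=
  fun _ hz => (lim_fderiv (Ultrafilter.of l) (sub_pos.2 (mem_ball_iff_norm.1 hz))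
    ((hg.filter_mono (Ultrafilter.of_le l)).mono fun _ hn =>
      ⟨hn.1.mono (ball_sub _ _ _), fun y hy => hn.2 y (ball_sub _ _ _ hy)⟩)
    fun y hy => (h y (ball_sub _ _ _ hy)).mono_left (Ultrafilter.of_le l)).1.differentiableWithinAt

theorem diffOn_fderiv_apply (hU : IsOpen U) (hd : DifferentiableOn ℂ f U) (v : E) :
    DifferentiableOn ℂ (fun x => fderiv ℂ f x v) U := fun c hc => by
  obtain ⟨r, hr, C, h1, h2⟩ := exists_ball_bound hU hd.continuousOn hc
  have h3 : ∀ x ∈ ball c (r / 2), ball x (r / 2) ⊆ ball c r := fun x hx =>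
    ball_subset_ball' (by linarith [mem_ball.1 hx])
  refine ((diffOn_lim (l := 𝓝[≠] (0 : ℂ)) (g := fun t x => t⁻¹ • (f (x + t • v) - f x))
    (R := r / 2) (C := 2 * C / (r / 2) * ‖v‖) ?_ fun x hx => ?_).differentiableAt
    (ball_mem_nhds c (half_pos hr))).differentiableWithinAt
  · have : ∀ᶠ t in 𝓝 (0 : ℂ), ‖t • v‖ < r / 2 :=
      (show ContinuousAt (fun t : ℂ => ‖t • v‖) 0 by fun_prop).eventually_lt_const (by simpa)
    filter_upwards [this.filter_mono nhdsWithin_le_nhds, self_mem_nhdsWithin] with t ht ht0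
    have h4 : ∀ x, x + t • v ∈ ball x (r / 2) := fun x => by simpa using ht
    refine ⟨((hd.comp (by fun_prop) fun x hx => h1 (h3 x hx (h4 x))).sub
      (hd.mono fun x hx => h1 (h3 x hx (mem_ball_self (half_pos hr))))).const_smul _,
      fun x hx => ?_⟩
    have := norm_sub_le_schwarz (hd.mono ((h3 x hx).trans h1)) (fun y hy => h2 y (h3 x hx hy)) (h4 x)
    have h0 : 0 < ‖t‖ := norm_pos_iff.2 ht0
    rw [norm_smul, norm_inv, inv_mul_le_iff₀ h0]
    rw [add_sub_cancel_left, norm_smul] at this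
    linarith
  · have := ((hd.differentiableAt (hU.mem_nhds
      (h1 (h3 x hx (mem_ball_self (half_pos hr)))))).hasFDerivAt.hasLineDerivAt v).tendsto_slope_zero
    exact this

theorem contDiffOn_of_diffOn (hU : IsOpen U) (n : ℕ) :
    ∀ {f : E → F}, DifferentiableOn ℂ f U → ContDiffOn ℂ n f U := by
  induction n with
  | zero => exact fun h => contDiffOn_zero.2 h.continuousOn
  | succ n ih =>
    exact fun h => (contDiffOn_succ_iff_fderiv_of_isOpen hU).2
      ⟨h, by simp, contDiffOn_clm_apply.2 fun v => ih (diffOn_fderiv_apply hU h v)⟩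

theorem diffOn_fderiv (hU : IsOpen U) (hd : DifferentiableOn ℂ f U) :
    DifferentiableOn ℂ (fderiv ℂ f) U :=
  ((contDiffOn_succ_iff_fderiv_of_isOpen hU).1
    (contDiffOn_of_diffOn hU 2 hd : ContDiffOn ℂ (1 + 1) f U)).2.2.differentiableOn one_ne_zero

theorem norm_iter_le (k : ℕ) {δ : ℝ} (hδ : 0 < δ) : ∀ {F : Type} [NormedAddCommGroup F]
    [NormedSpace ℂ F] [FiniteDimensional ℂ F] {f : E → F} {C : ℝ},
    DifferentiableOn ℂ f (ball c ((k + 1) * δ)) → (∀ z ∈ ball c ((k + 1) * δ), ‖f z‖ ≤ C) →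
    ‖iteratedFDeriv ℂ k f c‖ ≤ (2 / δ) ^ k * C := by
  induction k with
  | zero => exact fun _ h => by simpa using h c (mem_ball_self (by positivity))
  | succ k ih =>
    intro F _ _ _ f C hd hC
    have h1 : ∀ x ∈ ball c ((k + 1) * δ), ball x δ ⊆ ball c ((↑(k + 1) + 1) * δ) := fun x hx =>
      ball_subset_ball' (by push_cast; linarith [mem_ball.1 hx])
    rw [← norm_iteratedFDeriv_fderiv]
    refine (ih ((diffOn_fderiv isOpen_ball hd).mono fun x hx => h1 x hx (mem_ball_self hδ))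
      fun x hx => norm_fderiv_le (hd.mono (h1 x hx)) (fun y hy => hC y (h1 x hx hy)) hδ).trans_eq ?_
    ring

/-- The Taylor series at the origin. -/
noncomputable def tser (f : E → F) : FormalMultilinearSeries ℂ E F :=
  fun k => (k ! : ℂ)⁻¹ • iteratedFDeriv ℂ k f 0

theorem norm_tser_le (hd : DifferentiableOn ℂ f (ball 0 R)) (hC : ∀ z ∈ ball 0 R, ‖f z‖ ≤ C)
    (hR : 0 < R) (k : ℕ) : ‖tser f k‖ ≤ 3 * C * (6 / R) ^ k := by
  have h0 : 0 ≤ C := (norm_nonneg _).trans (hC 0 (mem_ball_self hR))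
  have e : ((k : ℝ) + 1) * (R / (k + 1)) = R := by field_simp
  have h1 := norm_iter_le (c := (0 : E)) (f := f) (C := C) k (δ := R / (k + 1)) (by positivity)
    (by rwa [e]) (by rwa [e])
  have h2 := Real.pow_div_factorial_le_exp (x := k + 1) (by positivity) k
  have h3 : Real.exp (k + 1) ≤ 3 ^ (k + 1) := by
    rw [← Nat.cast_succ, ← mul_one ((k.succ : ℕ) : ℝ), Real.exp_nat_mul]
    exact pow_le_pow_left₀ (by positivity) (by linarith [Real.exp_one_lt_d9]) _
  rw [tser, norm_smul, norm_inv, Complex.norm_natCast]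
  calc _ ≤ (k ! : ℝ)⁻¹ * ((2 / (R / (k + 1))) ^ k * C) := by gcongr
    _ = (k + 1) ^ k / k ! * (2 / R) ^ k * C := by
      rw [show 2 / (R / (k + 1)) = (k + 1) * (2 / R) by field_simp, mul_pow]
      ring
    _ ≤ 3 ^ (k + 1) * (2 / R) ^ k * C := by gcongr; exact h2.trans h3
    _ = _ := by
      rw [show 6 / R = 3 * (2 / R) by ring, mul_pow]
      ring

theorem hasSum_tser (hd : DifferentiableOn ℂ f (ball 0 R)) (hz : ‖z‖ < R) :
    HasSum (fun k => tser f k fun _ => z) (f z) := by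
  have : CompleteSpace F := FiniteDimensional.complete ℂ F
  let L : ℂ →L[ℂ] E := ContinuousLinearMap.toSpanSingleton ℂ z
  have hL : ∀ t, L t = t • z := fun t => rfl
  have ho : IsOpen (L ⁻¹' ball 0 R) := isOpen_ball.preimage L.continuous
  have hR : 0 < R := (norm_nonneg z).trans_lt hz
  obtain ⟨r, hr, h1⟩ : ∃ r > 1, r * ‖z‖ < R := by
    have : ∀ᶠ r in 𝓝[>] (1 : ℝ), r * ‖z‖ < R := eventually_nhdsWithin_of_eventually_nhds
      ((show ContinuousAt (fun r : ℝ => r * ‖z‖) 1 by fun_prop).eventually_lt_const (by simpa))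
    exact (eventually_mem_nhdsWithin.and this).exists
  have h2 : ball 0 r ⊆ L ⁻¹' ball 0 R := fun t ht => by
    rw [mem_preimage, mem_ball_zero_iff, hL, norm_smul]
    exact (mul_le_mul_of_nonneg_right (mem_ball_zero_iff.1 ht).le (norm_nonneg z)).trans_lt h1
  have := Complex.hasSum_taylorSeries_on_ball (f := f ∘ L) (c := 0) (z := 1) (r := r)
    (hd.comp L.differentiableOn fun t ht => h2 ht) (by simpa)
  convert this using 2 with k
  · have h0 : L 0 ∈ ball (0 : E) R := by simpa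
    have := L.iteratedFDerivWithin_comp_right (contDiffOn_of_diffOn isOpen_ball k hd)
      isOpen_ball.uniqueDiffOn ho.uniqueDiffOn h0 le_rfl
    rw [iteratedFDerivWithin_of_isOpen k ho h0, iteratedFDerivWithin_of_isOpen k isOpen_ball h0]
      at this
    simp [tser, iteratedDeriv_eq_iteratedFDeriv, this, hL]
  · simp [hL]

/-- The remainder of the Taylor expansion. -/
theorem norm_sub_tser_le (hd : DifferentiableOn ℂ f (ball 0 R))
    (hC : ∀ z ∈ ball 0 R, ‖f z‖ ≤ C) (hR : 0 < R) (hz : ‖z‖ ≤ R / 12) (d : ℕ) :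
    ‖f z - ∑ k ∈ Finset.range d, tser f k fun _ => z‖ ≤ 6 * C * (6 * ‖z‖ / R) ^ d := by
  have h0 : 0 ≤ C := (norm_nonneg _).trans (hC 0 (mem_ball_self hR))
  have h1 := (hasSum_nat_add_iff' d).2 (hasSum_tser hd (show ‖z‖ < R by linarith))
  have h2 : 6 * ‖z‖ / R ≤ 1 / 2 := by rw [div_le_iff₀ hR]; linarith
  refine (h1.norm_le_of_bounded (hasSum_geometric_two.mul_left (3 * C * (6 * ‖z‖ / R) ^ d))
    fun k => ?_).trans_eq (by ring)
  calc _ ≤ ‖tser f (k + d)‖ * ∏ _i : Fin (k + d), ‖z‖ := ContinuousMultilinearMap.le_opNorm _ _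
    _ ≤ 3 * C * (6 / R) ^ (k + d) * ‖z‖ ^ (k + d) := by
      rw [Finset.prod_const, Finset.card_fin]
      gcongr
      exact norm_tser_le hd hC hR _
    _ = 3 * C * (6 * ‖z‖ / R) ^ d * (6 * ‖z‖ / R) ^ k := by
      rw [mul_assoc, ← mul_pow, pow_add]
      ring
    _ ≤ _ := by gcongr

/-- The lemma of Osgood. -/
theorem analyticOnNhd_of_diffOn (hU : IsOpen U) (hd : DifferentiableOn ℂ f U) :
    AnalyticOnNhd ℂ f U := fun c hc => by
  obtain ⟨r, hr, C, h1, h2⟩ := exists_ball_bound hU hd.continuousOn hc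
  have h3 : ∀ y ∈ ball 0 r, c + y ∈ ball c r := fun y hy => by simpa using hy
  have h4 : DifferentiableOn ℂ (fun y => f (c + y)) (ball 0 r) :=
    hd.comp (by fun_prop) fun y hy => h1 (h3 y hy)
  let ρ : NNReal := ⟨r / 6, by positivity⟩
  refine ⟨tser fun y => f (c + y), ρ, FormalMultilinearSeries.le_radius_of_bound _ (3 * C)
    fun k => ?_, ENNReal.coe_pos.2 (show 0 < r / 6 by positivity), fun {y} hy => ?_⟩
  · refine (mul_le_mul_of_nonneg_right (norm_tser_le h4 (fun y hy => h2 _ (h3 y hy)) hr k)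
      (by positivity)).trans_eq ?_
    rw [mul_assoc, ← mul_pow, show 6 / r * (ρ : ℝ) = 1 by change 6 / r * (r / 6) = 1; field_simp]
    simp
  · rw [Metric.eball_coe, mem_ball_zero_iff] at hy
    exact hasSum_tser h4 (hy.trans (show r / 6 < r by linarith))

/-- The identity theorem on a ball. -/
theorem eqOn_zero_of_eventually (hd : DifferentiableOn ℂ f (ball c R)) (hz : z ∈ ball c R)
    (h : ∀ᶠ y in 𝓝 z, f y = 0) : ∀ y ∈ ball c R, f y = 0 :=
  (analyticOnNhd_of_diffOn isOpen_ball hd).eqOn_zero_of_preconnected_of_eventuallyEq_zero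
    (convex_ball c R).isPreconnected hz h

end Pool.Agent.P.MP_f17f76_ag.E
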