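import Pool.Agent.P.MP_f17f76_ag.E.An1

/-! Holomorphic branches of simple roots. -/

namespace Pool.Agent.P.MP_f17f76_ag.E

open Set Filter Topology Metric

namespace AnRootx

theorem bound {d : ℕ} (hd : d ≠ 0) (c : Fin d → ℂ) (y : ℂ) :
    ‖y‖ ≤ 1 + ∑ i, ‖c i‖ + ‖y ^ d + ∑ i, c i * y ^ (i : ℕ)‖ := by
  obtain ⟨m, rfl⟩ := Nat.exists_eq_succ_of_ne_zero hd
  have h0 : 0 ≤ ∑ i, ‖c i‖ := by positivity
  have h1 := norm_nonneg (y ^ m.succ + ∑ i, c i * y ^ (i : ℕ))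
  rcases le_total ‖y‖ 1 with h | h
  · linarith
  have h2 : ‖∑ i, c i * y ^ (i : ℕ)‖ ≤ (∑ i, ‖c i‖) * ‖y‖ ^ m := by
    rw [Finset.sum_mul]
    refine (norm_sum_le _ _).trans (Finset.sum_le_sum fun i _ => ?_)
    rw [norm_mul, norm_pow]
    gcongr
    exact Nat.lt_succ_iff.1 i.2
  have h3 := norm_sub_le (y ^ m.succ + ∑ i, c i * y ^ (i : ℕ)) (∑ i, c i * y ^ (i : ℕ))
  rw [add_sub_cancel_right, norm_pow, pow_succ] at h3
  have h4 : 1 ≤ ‖y‖ ^ m := one_le_pow₀ h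
  refine le_of_mul_le_mul_left (a := ‖y‖ ^ m) ?_ (by linarith)
  nlinarith

variable {E : Type} [NormedAddCommGroup E] [NormedSpace ℂ E] [FiniteDimensional ℂ E] {d : ℕ}

/-- the polynomial together with the base point -/
noncomputable def ps (a : Fin d → E → ℂ) (u : E × ℂ) : E × ℂ :=
  (u.1, u.2 ^ d + ∑ i, a i u.1 * u.2 ^ (i : ℕ))

theorem strict {a : Fin d → E → ℂ} (ha : ∀ i, DifferentiableOn ℂ (a i) (ball 0 1)) {z : E}
    (hz : z ∈ ball (0 : E) 1) {y : ℂ}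
    (h : d * y ^ (d - 1) + ∑ i, a i z * ((i : ℕ) * y ^ ((i : ℕ) - 1)) ≠ 0) :
    ∃ L : (E × ℂ) ≃L[ℂ] E × ℂ, HasStrictFDerivAt (ps a) (L : E × ℂ →L[ℂ] E × ℂ) (z, y) := by
  have h1 : ∀ i, ContDiffAt ℂ 1 (fun u : E × ℂ => a i u.1) (z, y) := fun i =>
    ContDiffAt.comp (z, y) (g := a i) ((contDiffOn_of_diffOn isOpen_ball 1 (ha i)).contDiffAt
      (isOpen_ball.mem_nhds hz)) contDiffAt_fst
  have h2 : ContDiffAt ℂ 1 (fun u : E × ℂ => u.2 ^ d + ∑ i, a i u.1 * u.2 ^ (i : ℕ)) (z, y) :=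
    (contDiffAt_snd.pow d).add (ContDiffAt.sum fun i _ => (h1 i).mul (contDiffAt_snd.pow _))
  obtain ⟨D, hD⟩ : ∃ D, HasStrictFDerivAt
      (fun u : E × ℂ => u.2 ^ d + ∑ i, a i u.1 * u.2 ^ (i : ℕ)) D (z, y) :=
    ⟨_, h2.hasStrictFDerivAt one_ne_zero⟩
  have h3 := (hD.hasFDerivAt.comp_hasDerivAt y
    ((hasDerivAt_const y z).prodMk (hasDerivAt_id y))).unique ((hasDerivAt_pow d y).fun_add
      (HasDerivAt.fun_sum fun i _ => (hasDerivAt_pow (i : ℕ) y).const_mul (a i z)))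
  have h4 : Function.Injective ((ContinuousLinearMap.fst ℂ E ℂ).prod D).toLinearMap := by
    refine (injective_iff_map_eq_zero _).2 fun ⟨v, t⟩ e => ?_
    obtain ⟨rfl, e2⟩ : v = 0 ∧ D (v, t) = 0 := Prod.mk.inj e
    rw [show ((0 : E), t) = t • ((0 : E), (1 : ℂ)) by simp, map_smul, h3] at e2
    rw [(smul_eq_zero.1 e2).resolve_right h]
    rfl
  exact ⟨(LinearEquiv.ofInjectiveEndo _ h4).toContinuousLinearEquiv,
    hasStrictFDerivAt_fst.prodMk hD⟩

end AnRootx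

open AnRootx in
theorem root_branch {E : Type} [NormedAddCommGroup E] [NormedSpace ℂ E] [FiniteDimensional ℂ E]
    {d : ℕ} (a : Fin d → E → ℂ) (ha : ∀ i, DifferentiableOn ℂ (a i) (ball 0 1))
    (hs : ∀ z ∈ ball (0 : E) 1, ∀ y : ℂ, y ^ d + ∑ i, a i z * y ^ (i : ℕ) = 0 →
      d * y ^ (d - 1) + ∑ i, a i z * ((i : ℕ) * y ^ ((i : ℕ) - 1)) ≠ 0) {y₀ : ℂ}
    (h0 : y₀ ^ d + ∑ i, a i 0 * y₀ ^ (i : ℕ) = 0) :
    ∃ b : E → ℂ, DifferentiableOn ℂ b (ball 0 1) ∧ b 0 = y₀ ∧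
      ∀ z ∈ ball (0 : E) 1, b z ^ d + ∑ i, a i z * b z ^ (i : ℕ) = 0 := by
  classical
  have : CompleteSpace E := FiniteDimensional.complete ℂ E
  have hd : d ≠ 0 := by rintro rfl; simp at h0
  let Φ : ball (0 : E) 1 × ℂ → ball (0 : E) 1 × ℂ := fun u => (u.1, (ps a (u.1, u.2)).2)
  have hc : ∀ i, Continuous fun u : ball (0 : E) 1 => a i u := fun i =>
    (ha i).continuousOn.comp_continuous continuous_subtype_val fun u => u.2
  have hΦ : Continuous Φ := continuous_fst.prodMk ((continuous_snd.pow d).add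
    (continuous_finsetSum _ fun i _ => ((hc i).comp continuous_fst).mul (continuous_snd.pow _)))
  have hp : IsProperMap Φ := by
    refine isProperMap_iff_ultrafilter_of_t2.2 ⟨hΦ, fun 𝒰 ⟨z, w⟩ h => ?_⟩
    have h1 : Tendsto (fun u : ball (0 : E) 1 × ℂ => u.1) 𝒰 (𝓝 z) := h.fst_nhds
    have h2 := ((show Continuous fun u : ball (0 : E) 1 × ℂ => 1 + ∑ i, ‖a i u.1‖ + ‖u.2‖ from
      (continuous_const.add (continuous_finsetSum _ fun i _ =>
        ((hc i).comp continuous_fst).norm)).add continuous_snd.norm).tendsto _).comp h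
    obtain ⟨y, -, hy⟩ := (isCompact_closedBall (0 : ℂ) _).ultrafilter_le_nhds (𝒰.map Prod.snd)
      (le_principal_iff.2 ((h2.eventually_lt_const (lt_add_one _)).mono fun u hu =>
        mem_closedBall_zero_iff.2 ((bound hd (fun i => a i u.1) u.2).trans hu.le)))
    exact ⟨(z, y), h1.prodMk_nhds hy⟩
  have hι : IsLocalHomeomorph (Prod.map Subtype.val id : ball (0 : E) 1 × ℂ → E × ℂ) :=
    (isOpen_ball.isOpenEmbedding_subtypeVal.prodMap IsOpenEmbedding.id).isLocalHomeomorph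
  have hl : IsLocalHomeomorphOn Φ (Φ ⁻¹' {u | u.2 = 0}) := by
    refine IsLocalHomeomorphOn.of_comp_left ?_ hι.isLocalHomeomorphOn fun _ _ => hΦ.continuousAt
    refine IsLocalHomeomorphOn.comp (g := ps a) (t := {u | u.1 ∈ ball (0 : E) 1 ∧ (ps a u).2 = 0})
      (fun u hu => ?_) hι.isLocalHomeomorphOn fun u hu => ⟨u.1.2, hu⟩
    obtain ⟨L, hL⟩ := strict ha hu.1 (hs _ hu.1 _ hu.2)
    exact ⟨_, hL.mem_toOpenPartialHomeomorph_source, rfl⟩
  have hcov := hp.isClosedMap.isCoveringMapOn_of_isLocalHomeomorphOn (fun x hx =>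
    (hp.isCompact_preimage isCompact_singleton).finite
      ((hl.mono (preimage_mono (singleton_subset_iff.2 hx))).isDiscrete_of_image
        ((finite_singleton x).subset (image_preimage_subset _ _)).isDiscrete)) hl
  have := (convex_ball (0 : E) 1).contractibleSpace ⟨0, mem_ball_self one_pos⟩
  have := (isOpen_ball (x := (0 : E)) (ε := 1)).locallyPathConnectedSpace
  obtain ⟨F, ⟨F0, hF⟩, -⟩ := hcov.existsUnique_continuousMap_lifts
    (⟨fun z : ball (0 : E) 1 => (z, 0), by fun_prop⟩) (a₀ := ⟨0, mem_ball_self one_pos⟩)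
    (e₀ := (⟨0, mem_ball_self one_pos⟩, y₀)) (Prod.ext rfl h0) fun _ => rfl
  obtain ⟨b, hb⟩ : ∃ b : E → ℂ, ∀ z : ball (0 : E) 1, b z = (F z).2 :=
    ⟨fun z => if hz : z ∈ ball (0 : E) 1 then (F ⟨z, hz⟩).2 else 0, fun z => dif_pos z.2⟩
  have h1 : ∀ z ∈ ball (0 : E) 1, ps a (z, b z) = (z, 0) := fun z hz => by
    obtain ⟨e1, e2⟩ := Prod.mk.inj (congrFun hF ⟨z, hz⟩)
    rw [e1, ← hb] at e2
    exact Prod.ext rfl e2
  have h2 : ContinuousOn b (ball 0 1) := continuousOn_iff_continuous_domRestrict.2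
    ((continuous_snd.comp F.continuous).congr fun z => (hb z).symm)
  refine ⟨b, fun z hz => ?_, (hb ⟨0, mem_ball_self one_pos⟩).trans (congrArg Prod.snd F0),
    fun z hz => congrArg Prod.snd (h1 z hz)⟩
  obtain ⟨L, hL⟩ := strict ha hz (hs _ hz _ (congrArg Prod.snd (h1 z hz)))
  have h3 := hL.to_localInverse.differentiableAt
  rw [h1 z hz] at h3
  refine ((h3.comp z (f := fun x => (x, (0 : ℂ))) (by fun_prop)).snd.congr_of_eventuallyEq
    ?_).differentiableWithinAt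
  filter_upwards [(continuousAt_id.prodMk (h2.continuousAt (isOpen_ball.mem_nhds hz))).eventually
    hL.eventually_left_inverse, isOpen_ball.mem_nhds hz] with x hx hx'
  rw [Function.comp_apply, ← h1 x hx']
  exact (congrArg Prod.snd hx).symm

end Pool.Agent.P.MP_f17f76_ag.E
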