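import Pool.Agent.P.MP_f17f76_ag.E.Der

/-!
Embeddings and automorphisms of large algebraically closed fields, fresh copies, linear
disjointness and amalgamation.
-/

namespace Pool.Agent.P.MP_f17f76_ag.E

open Set Cardinal

variable {K K' : Type} [Field K] [Field K'] {F F' S T : Set K} {x : K}

instance countable_mvPolynomial {ι R : Type} [Countable ι] [CommSemiring R] [Countable R] :
    Countable (MvPolynomial ι R) := AddMonoidAlgebra.coeff_injective.countable

open TensorProduct in
instance countable_tensor {k A B : Type} [CommSemiring k] [AddCommMonoid A] [AddCommMonoid B]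
    [Module k A] [Module k B] [Countable A] [Countable B] : Countable (A ⊗[k] B) :=
  Function.Surjective.countable (f := fun s : Finset (A × B) => ∑ p ∈ s, p.1 ⊗ₜ[k] p.2) fun x =>
    (TensorProduct.exists_finset x).imp fun _ h => h.symm

section master

variable {R : Type} [CommRing R] [Countable R]

theorem exists_algHom [Algebra R K] [Algebra R K'] [FaithfulSMul R K] [FaithfulSMul R K']
    [IsAlgClosed K'] [Uncountable K'] (hc : #K ≤ #K') : Nonempty (K →ₐ[R] K') := by
  have := (algebraMap R K).domain_nontrivial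
  obtain ⟨s, hs⟩ := exists_isTranscendenceBasis R K
  obtain ⟨t, ht⟩ := exists_isTranscendenceBasis R K'
  obtain ⟨e⟩ : Nonempty (s ↪ t) := (Cardinal.le_def _ _).1 (((mk_set_le s).trans hc).trans_eq
    (IsAlgClosed.cardinal_eq_cardinal_transcendence_basis_of_aleph0_lt' _ ht mk_le_aleph0
      aleph0_lt_mk))
  let φ : Algebra.adjoin R (range ((↑) : s → K)) →ₐ[R] K' :=
    (MvPolynomial.aeval fun i => (e i : K')).comp hs.1.aevalEquiv.symm.toAlgHom
  let _ := φ.toRingHom.toAlgebra
  have : FaithfulSMul (Algebra.adjoin R (range ((↑) : s → K))) K' :=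
    (faithfulSMul_iff_algebraMap_injective _ _).2
      fun _ _ h => hs.1.aevalEquiv.symm.injective (ht.1.comp e e.injective h)
  have := hs.isAlgebraic
  let l : K →ₐ[Algebra.adjoin R (range ((↑) : s → K))] K' := IsAlgClosed.lift
  exact ⟨{ l.toRingHom with
    commutes' := fun r => (l.commutes (algebraMap R _ r)).trans (φ.commutes r) }⟩

theorem exists_algEquiv [Algebra R K] [Algebra R K'] [FaithfulSMul R K] [FaithfulSMul R K']
    [IsAlgClosed K] [IsAlgClosed K'] [Uncountable K] (hc : #K = #K') : Nonempty (K ≃ₐ[R] K') := by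
  have := (algebraMap R K).domain_nontrivial
  obtain ⟨s, hs⟩ := exists_isTranscendenceBasis R K
  obtain ⟨t, ht⟩ := exists_isTranscendenceBasis R K'
  obtain ⟨e⟩ : Nonempty (s ≃ t) := Cardinal.eq.1
    ((IsAlgClosed.cardinal_eq_cardinal_transcendence_basis_of_aleph0_lt' _ hs mk_le_aleph0
      aleph0_lt_mk).symm.trans (hc.trans
      (IsAlgClosed.cardinal_eq_cardinal_transcendence_basis_of_aleph0_lt' _ ht mk_le_aleph0
        (hc ▸ aleph0_lt_mk))))
  have := IsAlgClosed.isAlgClosure_of_transcendence_basis _ hs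
  have := IsAlgClosed.isAlgClosure_of_transcendence_basis _ ht
  let φ := hs.1.aevalEquiv.symm.trans ((MvPolynomial.renameEquiv R e).trans ht.1.aevalEquiv)
  exact ⟨AlgEquiv.ofRingEquiv (f := IsAlgClosure.equivOfEquiv K K' φ.toRingEquiv) fun r =>
    (IsAlgClosure.equivOfEquiv_algebraMap K K' φ.toRingEquiv (algebraMap R _ r)).trans
      (congrArg Subtype.val (φ.commutes r))⟩

/-- Two maps of a countable ring with the same kernel differ by an embedding. -/
theorem exists_hom_of_ker [IsAlgClosed K'] [Uncountable K'] (hc : #K ≤ #K') (f : R →+* K)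
    (g : R →+* K') (h : ∀ r, f r = 0 ↔ g r = 0) : ∃ ψ : K →+* K', ∀ r, ψ (f r) = g r := by
  let _ := f.kerLift.toAlgebra
  let _ := (Ideal.Quotient.lift (RingHom.ker f) g fun r => (h r).1).toAlgebra
  have : Countable (R ⧸ RingHom.ker f) := Ideal.Quotient.mk_surjective.countable
  have : FaithfulSMul (R ⧸ RingHom.ker f) K :=
    (faithfulSMul_iff_algebraMap_injective _ _).2 f.kerLift_injective
  have : FaithfulSMul (R ⧸ RingHom.ker f) K' := (faithfulSMul_iff_algebraMap_injective _ _).2
    ((Ideal.injective_lift_iff _).2 (Ideal.ext fun r => (h r).symm))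
  obtain ⟨ψ⟩ := exists_algHom (R := R ⧸ RingHom.ker f) hc
  exact ⟨ψ, fun r => ψ.commutes (Ideal.Quotient.mk _ r)⟩

/-- Two maps of a countable ring with the same kernel differ by an isomorphism. -/
theorem exists_equiv_of_ker [IsAlgClosed K] [IsAlgClosed K'] [Uncountable K] (hc : #K = #K')
    (f : R →+* K) (g : R →+* K') (h : ∀ r, f r = 0 ↔ g r = 0) :
    ∃ σ : K ≃+* K', ∀ r, σ (f r) = g r := by
  let _ := f.kerLift.toAlgebra
  let _ := (Ideal.Quotient.lift (RingHom.ker f) g fun r => (h r).1).toAlgebra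
  have : Countable (R ⧸ RingHom.ker f) := Ideal.Quotient.mk_surjective.countable
  have : FaithfulSMul (R ⧸ RingHom.ker f) K :=
    (faithfulSMul_iff_algebraMap_injective _ _).2 f.kerLift_injective
  have : FaithfulSMul (R ⧸ RingHom.ker f) K' := (faithfulSMul_iff_algebraMap_injective _ _).2
    ((Ideal.injective_lift_iff _).2 (Ideal.ext fun r => (h r).symm))
  obtain ⟨ψ⟩ := exists_algEquiv (R := R ⧸ RingHom.ker f) hc
  exact ⟨ψ, fun r => ψ.commutes (Ideal.Quotient.mk _ r)⟩

end master

/-! ### independent families -/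

/-- The family `v` is algebraically independent over the field generated by `F`. -/
abbrev Ind {ι : Type} (F : Set K) (v : ι → K) : Prop := AlgebraicIndependent (Subfield.closure F) v

section ind

open MvPolynomial

variable {ι : Type} {v : ι → K}

theorem exists_map_eq {R : Type} [CommRing R] (A : Subring R) {p : MvPolynomial ι R}
    (hp : ∀ m, p.coeff m ∈ A) : ∃ q : MvPolynomial ι A, MvPolynomial.map A.subtype q = p :=
  mem_range_map_iff_coeffs_subset.2 fun c hc => by
    obtain ⟨m, -, rfl⟩ := mem_coeffs_iff.1 hc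
    exact ⟨⟨_, hp m⟩, rfl⟩

theorem algInd_iff {A : Subfield K} : AlgebraicIndependent A v ↔
    ∀ p : MvPolynomial ι K, (∀ m, p.coeff m ∈ A) → eval v p = 0 → p = 0 := by
  rw [algebraicIndependent_iff]
  refine ⟨fun h p hp e => ?_, fun h q e => map_injective A.subtype A.subtype.injective
    ((h _ (fun m => by rw [coeff_map]; exact (q.coeff m).2) (by rwa [eval_map])).trans
      (map_zero _).symm)⟩
  obtain ⟨q, rfl⟩ := exists_map_eq A.toSubring hp
  rw [h q (by rwa [eval_map] at e), map_zero]

theorem ind_iff : Ind F v ↔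
    ∀ p : MvPolynomial ι K, (∀ m, p.coeff m ∈ acl F) → eval v p = 0 → p = 0 :=
  ⟨fun h => algInd_iff.1 (show AlgebraicIndependent (acl F) v from h.algebraicClosure),
    fun h => algInd_iff.2 fun p hp => h p fun m => closure_le_acl F (hp m)⟩

theorem Ind.anti (h : Ind F' v) (hF : F ⊆ acl F') : Ind F v :=
  ind_iff.2 fun p hp => ind_iff.1 h p fun m => acl_le hF (hp m)

theorem Ind.acl (h : Ind F v) : Ind (acl F : Set K) v := h.anti subset_rfl

theorem ind_iff_indep : Ind F v ↔ Function.Injective v ∧ (mt F).Indep (range v) :=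
  ⟨fun h => ⟨h.injective, h.to_subtype_range⟩,
    fun h => (algebraicIndependent_subtype_range h.1).1 h.2⟩

theorem indep_iff_trd : (mt F).Indep S ↔ ∀ s ⊆ S, s.Finite → trd F s = s.ncard := by
  rw [Matroid.indep_iff_forall_finite_subset_indep]
  refine forall₃_congr fun s _ hs => ?_
  rw [(mt F).indep_iff_eRk_eq_encard_of_finite hs, ← coe_trd hs, ← hs.cast_ncard_eq, Nat.cast_inj]

theorem Free.acl_base (h : Free F S T) : Free (acl F) S T := fun s hs hf => by
  rw [trd_acl_base hf, ← h s hs hf, ← trd_acl_base hf, acl_acl_union, trd_acl_base hf]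

theorem Free.indep (h : Free F S T) {B : Set K} (hB : B ⊆ acl (F ∪ S)) (hi : (mt F).Indep B) :
    (mt (F ∪ T)).Indep B :=
  indep_iff_trd.2 fun s hs hf => (h.acl_left s (hs.trans hB) hf).trans (indep_iff_trd.1 hi s hs hf)

theorem Free.ind (h : Free F S T) (hv : ∀ i, v i ∈ acl (F ∪ S)) (hi : Ind F v) : Ind (F ∪ T) v :=
  ind_iff_indep.2 ⟨hi.injective, h.indep (range_subset_iff.2 hv) (ind_iff_indep.1 hi).2⟩

theorem Ind.free (h : Ind (F ∪ T) v) : Free F (range v) T := fun s hs hf =>
  (indep_iff_trd.1 (ind_iff_indep.1 h).2 s hs hf).trans (indep_iff_trd.1 (ind_iff_indep.1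
    (h.anti (subset_union_left.trans (subset_acl _)))).2 s hs hf).symm

/-- A transcendence basis of `S` over `F` that contains the independent set `I`. -/
theorem exists_basis (hI : (mt F).Indep T) (h : T ⊆ S) :
    ∃ B, T ⊆ B ∧ B ⊆ S ∧ Ind F ((↑) : B → K) ∧ S ⊆ acl (F ∪ B) := by
  obtain ⟨B, hB, h1⟩ := hI.subset_isBasis_of_subset h
  exact ⟨B, h1, hB.subset, hB.indep, by rw [← mt_closure]; exact hB.subset_closure⟩

theorem indep_singleton (h : x ∉ acl F) : (mt F).Indep {x} := by
  refine indep_iff_trd.2 fun s hs _ => ?_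
  rcases subset_singleton_iff_eq.1 hs with rfl | rfl
  · simp
  · simpa using trd_insert_of_notMem (F := F) (x := x) finite_empty (by rwa [union_empty])

theorem exists_ind [IsAlgClosed K] [Uncountable K] (hT : T.Countable) (ι : Type) [Countable ι] :
    ∃ w : ι → K, Ind T w := by
  have : Countable (Subfield.closure T) := countable_closure hT
  obtain ⟨t, ht⟩ := exists_isTranscendenceBasis (Subfield.closure T) K
  obtain ⟨e⟩ : Nonempty (ι ↪ t) := (Cardinal.le_def _ _).1 ((mk_le_aleph0.trans
    aleph0_lt_mk.le).trans_eq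
    (IsAlgClosed.cardinal_eq_cardinal_transcendence_basis_of_aleph0_lt' _ ht mk_le_aleph0
      aleph0_lt_mk))
  exact ⟨_, ht.1.comp e e.injective⟩

variable (φ : K →+* K')

theorem map_acl [IsAlgClosed K] (S : Set K) : φ '' acl S = acl (φ '' S) := by
  refine (map_acl_le φ S).antisymm fun y hy => ?_
  obtain ⟨x, rfl⟩ : y ∈ φ.fieldRange := by
    let _ := φ.toAlgebra
    have h1 : IsAlgebraic φ.fieldRange y :=
      isAlg_mono (Subfield.closure_le.2 (image_subset_range _ _)) (mem_acl.1 hy)
    have h2 : IsAlgebraic K y := (isAlgebraic_ringHom_iff_of_comp_eq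
      φ.rangeRestrictFieldEquiv (RingHom.id K') Function.injective_id rfl).1 h1
    exact minpoly.mem_range_of_degree_eq_one K y
      (IsAlgClosed.degree_eq_one_of_irreducible K (minpoly.irreducible h2.isIntegral))
  exact mem_image_of_mem _ ((mem_acl_map φ).1 hy)

theorem ind_map : Ind (φ '' F) (φ ∘ v) ↔ Ind F v := by
  rw [ind_iff_indep, ind_iff_indep, φ.injective.of_comp_iff, range_comp, indep_iff_trd,
    indep_iff_trd, forall_subset_image_iff]
  refine and_congr_right fun _ => forall₂_congr fun s _ => ?_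
  rw [finite_image_iff φ.injective.injOn, ncard_image_of_injective _ φ.injective]
  exact forall_congr' fun hs => by rw [trd_map φ hs]

theorem free_map : Free (φ '' F) (φ '' S) (φ '' T) ↔ Free F S T := by
  rw [Free, Free, forall_subset_image_iff]
  refine forall₂_congr fun s _ => ?_
  rw [finite_image_iff φ.injective.injOn, ← image_union]
  exact forall_congr' fun hs => by rw [trd_map φ hs, trd_map φ hs]

end ind

section aut

variable [IsAlgClosed K] [IsAlgClosed K'] [Uncountable K] (hc : #K = #K')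
include hc

/-- An embedding of a countable subfield extends to an isomorphism. -/
theorem exists_equiv_sub (A : Subfield K) (hA : (A : Set K).Countable) (φ : A →+* K') :
    ∃ σ : K ≃+* K', ∀ a : A, σ a = φ a :=
  have : Countable A := hA
  exists_equiv_of_ker hc A.subtype φ fun r => by simp

/-- Independent families can be sent to independent families. -/
theorem exists_equiv_ind (φ : K →+* K') (hF : F.Countable) {ι : Type} [Countable ι] {v : ι → K}
    {w : ι → K'} (hv : Ind F v) (hw : Ind (φ '' F) w) :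
    ∃ σ : K ≃+* K', (∀ x ∈ acl F, σ x = φ x) ∧ ∀ i, σ (v i) = w i := by
  have : Countable (acl F) := countable_acl hF
  have key : ∀ {L : Type} [Field L] (f : acl F →+* L) (G : Set L) (u : ι → L), Ind G u →
      (∀ a, f a ∈ acl G) → ∀ p, MvPolynomial.eval₂Hom f u p = 0 ↔ p = 0 := by
    refine fun f G u hu hf p => ⟨fun h => MvPolynomial.map_injective f f.injective
      ((ind_iff.1 hu _ (fun m => ?_) ?_).trans (map_zero _).symm), fun h => by simp [h]⟩
    · rw [MvPolynomial.coeff_map]
      exact hf _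
    · rwa [MvPolynomial.eval_map]
  obtain ⟨σ, h⟩ := exists_equiv_of_ker hc (MvPolynomial.eval₂Hom (acl F).subtype v)
    (MvPolynomial.eval₂Hom (φ.comp (acl F).subtype) w) fun p => by
      rw [key _ F v hv fun a => a.2, key _ _ w hw fun a => (mem_acl_map φ).2 a.2]
  exact ⟨σ, fun x hx => by simpa using h (.C ⟨x, hx⟩), fun i => by simpa using h (.X i)⟩

/-- Fresh copies. -/
theorem exists_fresh' (φ : K →+* K') {T : Set K'} (hF : F.Countable) (hS : S.Countable)
    (hT : T.Countable) :
    ∃ σ : K ≃+* K', (∀ x ∈ acl F, σ x = φ x) ∧ Free (φ '' F) (σ '' S) T := by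
  obtain ⟨B, -, h1, h2, h3⟩ := exists_basis (mt F).empty_indep (empty_subset S)
  have : Countable B := hS.mono h1
  have : Uncountable K' := aleph0_lt_mk_iff.1 (hc ▸ aleph0_lt_mk)
  obtain ⟨w, hw⟩ := exists_ind ((hF.image φ).union hT) B
  obtain ⟨σ, h4, h5⟩ := exists_equiv_ind hc φ hF h2 (hw.anti (subset_union_left.trans (subset_acl _)))
  refine ⟨σ, h4, hw.free.acl_left.mono ?_ (subset_union_right.trans (subset_acl _))⟩
  refine (image_mono h3).trans ((map_acl_le (σ : K →+* K') _).trans (acl_mono ?_))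
  rintro _ ⟨y, hy | hy, rfl⟩
  · exact Or.inl ⟨y, hy, (h4 y (subset_acl _ hy)).symm⟩
  · exact Or.inr ⟨⟨y, hy⟩, (h5 ⟨y, hy⟩).symm⟩

omit hc in
theorem exists_fresh (hF : F.Countable) (hS : S.Countable) (hT : T.Countable) :
    ∃ σ : K ≃+* K, (∀ x ∈ acl F, σ x = x) ∧ Free F (σ '' S) T := by
  simpa using exists_fresh' rfl (RingHom.id K) hF hS hT

end aut

/-! ### linear disjointness -/

section ld

open Polynomial in
/-- The chain rule for a polynomial with arbitrary coefficients. -/
theorem der_poly (D : Der K) (p : K[X]) (x : K) : D (p.eval x) =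
    ∑ i ∈ p.support, D (p.coeff i) * x ^ i + p.derivative.eval x * D x := by
  rw [D.apply_eval_eq, smul_eq_mul, PolynomialModule.eval_apply,
    Finsupp.sum_of_support_subset _ (s := p.support) (fun i hi => mem_support_iff.2 fun h =>
      Finsupp.mem_support_iff.1 hi (by simp [h])) _ (by simp)]
  simp [mul_comm]

variable [CharZero K]

/-- A derivation that maps `S` into `acl T` maps `acl S` into `acl T`. -/
theorem der_mem_acl {D : Der K} (hS : S ⊆ acl T) (hD : ∀ x ∈ S, D x ∈ acl T) (hx : x ∈ acl S) :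
    D x ∈ acl T := by
  let L : Subfield K :=
    { carrier := {x | x ∈ acl T ∧ D x ∈ acl T}
      mul_mem' := fun {a b} ha hb => ⟨mul_mem ha.1 hb.1, by
        rw [D.leibniz]; exact add_mem (mul_mem ha.1 hb.2) (mul_mem hb.1 ha.2)⟩
      one_mem' := ⟨one_mem _, by simp⟩
      add_mem' := fun {a b} ha hb => ⟨add_mem ha.1 hb.1, by rw [map_add]; exact add_mem ha.2 hb.2⟩
      zero_mem' := ⟨zero_mem _, by simp⟩
      neg_mem' := fun {a} ha => ⟨neg_mem ha.1, by rw [map_neg]; exact neg_mem ha.2⟩
      inv_mem' := fun a ha => ⟨inv_mem ha.1, by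
        rw [D.leibniz_inv]; exact mul_mem (neg_mem (pow_mem (inv_mem ha.1) 2)) ha.2⟩ }
  have hx' : IsIntegral L x := (isAlg_mono (Subfield.closure_le.2 fun y hy =>
    show y ∈ L from ⟨hS hy, hD y hy⟩) (mem_acl.1 hx)).isIntegral
  have h0 := acl_le hS hx
  have h1 := der_poly D ((minpoly L x).map L.subtype) x
  have h2 := (minpoly.irreducible hx').separable.aeval_derivative_ne_zero (minpoly.aeval L x)
  rw [Polynomial.derivative_map, Polynomial.eval_map, Polynomial.eval_map] at h1
  change D (Polynomial.aeval x _) = _ + Polynomial.aeval x _ * _ at h1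
  rw [minpoly.aeval, map_zero, eq_comm, add_eq_zero_iff_eq_neg', mul_comm, ← eq_div_iff h2] at h1
  rw [h1, Polynomial.aeval_eq_sum_range]
  refine div_mem (neg_mem (sum_mem fun i _ => mul_mem ?_ (pow_mem h0 _)))
    (sum_mem fun i _ => mul_mem ((minpoly L x).derivative.coeff i).2.1 (pow_mem h0 _))
  rw [Polynomial.coeff_map]
  exact ((minpoly L x).coeff i).2.2

theorem Free.exists_der_one (h : Free F S T) (hx : x ∈ acl (F ∪ S)) (hx' : x ∉ acl F) :
    ∃ D ∈ kil (F ∪ T), D x = 1 ∧ ∀ y ∈ acl (F ∪ S), D y ∈ acl (F ∪ S) := by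
  classical
  obtain ⟨B, h1, h2, h3, h4⟩ := exists_basis (indep_singleton hx') (singleton_subset_iff.2 hx)
  obtain ⟨D, hD, h5⟩ := exists_der (h.ind (fun i : B => h2 i.2) h3) fun i => if i.1 = x then 1 else 0
  refine ⟨D, hD, by simpa using h5 ⟨x, h1 rfl⟩, fun y hy => der_mem_acl
    (union_subset (subset_union_left.trans (subset_acl _)) h2) (fun z hz => ?_) (h4 hy)⟩
  rcases hz with hz | hz
  · rw [hD z (Or.inl hz)]
    exact zero_mem _
  · rw [h5 ⟨z, hz⟩]
    split_ifs
    exacts [one_mem _, zero_mem _]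

/-- Free fields are linearly disjoint over an algebraically closed base. -/
theorem Free.linInd (h : Free F S T) {ι : Type} {b : ι → K} (hb : ∀ i, b i ∈ acl (F ∪ T))
    (hi : LinearIndependent (acl F) b) : LinearIndependent (acl (F ∪ S)) b := by
  classical
  suffices H : ∀ (s : Finset ι) (g : ι → K), (∀ i, g i ∈ acl (F ∪ S)) → ∑ i ∈ s, g i * b i = 0 →
      ∀ i ∈ s, g i = 0 from linearIndependent_iff'.2 fun s g e i hi =>
    Subtype.ext (H s (fun i => g i) (fun i => (g i).2) e i hi)
  intro s
  induction s using Finset.induction_on with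
  | empty => simp
  | insert j s hj ih =>
    intro g hg e
    suffices h0 : g j = 0 by
      rw [Finset.sum_insert hj, h0, zero_mul, zero_add] at e
      exact Finset.forall_mem_insert _ _ _ |>.2 ⟨h0, ih g hg e⟩
    by_contra h0
    have e' : ∑ i ∈ insert j s, g i / g j * b i = 0 := by
      simp only [div_mul_eq_mul_div, ← Finset.sum_div, e, zero_div]
    have h1 : ∀ i ∈ insert j s, g i / g j ∈ acl F := fun i hi => by_contra fun h1 => by
      obtain ⟨D, hD, h2, h3⟩ := h.exists_der_one (div_mem (hg i) (hg j)) h1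
      have h4 := congrArg D e'
      rw [Finset.sum_insert hj, div_self h0, one_mul, map_add, map_sum, map_zero,
        acl_le_cst hD (hb j), zero_add, Finset.sum_congr rfl fun l _ => by
          rw [D.leibniz, acl_le_cst hD (hb l), smul_zero, zero_add, smul_eq_mul, mul_comm]] at h4
      rcases Finset.mem_insert.1 hi with rfl | hi
      · exact h1 (by rw [div_self h0]; exact one_mem _)
      · exact one_ne_zero (h2.symm.trans
          (ih (fun l => D (g l / g j)) (fun l => h3 _ (div_mem (hg l) (hg j))) h4 i hi))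
    have h2 := linearIndependent_iff'.1 hi (insert j s)
      (fun i => if h : i ∈ insert j s then ⟨_, h1 i h⟩ else 0)
      (e' ▸ Finset.sum_congr rfl fun i hi => by rw [dif_pos hi]; rfl) j (Finset.mem_insert_self _ _)
    rw [dif_pos (Finset.mem_insert_self _ _), Subtype.ext_iff] at h2
    exact div_ne_zero h0 h0 h2

open TensorProduct in
theorem lift_injective {k A B : Type} [Field k] [IsAlgClosed k] [CommRing A] [CommRing B]
    [Algebra k A] [Algebra k B] [Algebra k K] (α : A →ₐ[k] K) (β : B →ₐ[k] K)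
    (hα : Function.Injective α) (hβ : Function.Injective β)
    (h : Free (range (algebraMap k K)) (range α) (range β)) :
    Function.Injective (Algebra.TensorProduct.lift α β fun _ _ => Commute.all _ _) := by
  let b := Module.Free.chooseBasis k B
  have h0 : ∀ y, y ∈ acl (range (algebraMap k K)) ↔ ∃ c, algebraMap k K c = y := fun y => by
    rw [← image_univ, ← SetLike.mem_coe, ← map_acl]
    exact ⟨fun ⟨c, _, e⟩ => ⟨c, e⟩, fun ⟨c, e⟩ => ⟨c, subset_acl _ trivial, e⟩⟩
  have h1 : LinearIndependent (acl (range (algebraMap k K))) (β ∘ b) :=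
    b.linearIndependent.map_of_surjective_injectiveₛ (fun c => ⟨_, (h0 _).2 ⟨c, rfl⟩⟩)
      β.toRingHom.toAddMonoidHom (fun y => ((h0 y).1 y.2).imp fun c e => Subtype.ext e) hβ
      fun c y => (map_smul β c y).trans (Algebra.smul_def _ _)
  have h2 := h.linInd (fun i => subset_acl _ (Or.inr ⟨b i, rfl⟩)) h1
  refine (injective_iff_map_eq_zero _).2 fun x hx => ?_
  obtain ⟨c, rfl⟩ := (Algebra.TensorProduct.basis A b).repr.symm.surjective x
  rw [Module.Basis.repr_symm_apply, Finsupp.linearCombination_apply, Finsupp.sum, map_sum] at hx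
  simp only [Algebra.TensorProduct.basis_repr_symm_apply', Algebra.TensorProduct.lift_tmul] at hx
  rw [map_eq_zero_iff _ (LinearEquiv.injective _)]
  refine Finsupp.ext fun i => by_contra fun hi => hi (hα ?_)
  exact (congrArg Subtype.val (linearIndependent_iff'.1 h2 c.support
    (fun i => ⟨α (c i), subset_acl _ (Or.inr ⟨_, rfl⟩)⟩) hx i
    (Finsupp.mem_support_iff.2 hi))).trans (map_zero α).symm

open TensorProduct in
/-- Two maps on free subrings that agree on the base have a common extension. -/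
theorem Free.glue [IsAlgClosed K] (h : Free F S T) (A B : Subring K)
    (hA : (acl F).toSubring ≤ A) (hA' : A ≤ (acl (F ∪ S)).toSubring)
    (hB : (acl F).toSubring ≤ B) (hB' : B ≤ (acl (F ∪ T)).toSubring) {C : Type} [CommRing C]
    (α : A →+* C) (β : B →+* C) (e : ∀ x (hx : x ∈ acl F), α ⟨x, hA hx⟩ = β ⟨x, hB hx⟩) :
    ∃ γ : (A ⊔ B : Subring K) →+* C, (∀ a : A, γ ⟨a, (le_sup_left : A ≤ A ⊔ B) a.2⟩ = α a) ∧
      ∀ b : B, γ ⟨b, (le_sup_right : B ≤ A ⊔ B) b.2⟩ = β b := by
  let _ : Algebra (acl F) A := (Subring.inclusion hA).toAlgebra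
  let _ : Algebra (acl F) B := (Subring.inclusion hB).toAlgebra
  let _ : Algebra (acl F) C := (α.comp (Subring.inclusion hA)).toAlgebra
  let f : A ⊗[acl F] B →ₐ[acl F] K := Algebra.TensorProduct.lift ⟨A.subtype, fun _ => rfl⟩
    ⟨B.subtype, fun _ => rfl⟩ fun _ _ => Commute.all _ _
  let g : A ⊗[acl F] B →ₐ[acl F] C := Algebra.TensorProduct.lift ⟨α, fun _ => rfl⟩
    ⟨β, fun x => (e x x.2).symm⟩ fun _ _ => Commute.all _ _
  have hf : Function.Injective f := by
    refine lift_injective _ _ Subtype.val_injective Subtype.val_injective ?_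
    rw [show range (algebraMap (acl F) K) = acl F from Subtype.range_coe]
    refine h.acl_base.acl_left.mono ?_ ?_
    · rintro _ ⟨a, rfl⟩
      rw [acl_acl_union]
      exact hA' a.2
    · rintro _ ⟨a, rfl⟩
      rw [acl_acl_union]
      exact hB' a.2
  have ha : ∀ a : A, f (a ⊗ₜ 1) = a := fun a => mul_one (a : K)
  have hb : ∀ a : B, f (1 ⊗ₜ a) = a := fun a => one_mul (a : K)
  have hle : A ⊔ B ≤ f.toRingHom.range :=
    sup_le (fun a h => ⟨_, ha ⟨a, h⟩⟩) fun a h => ⟨_, hb ⟨a, h⟩⟩
  let r := (AlgEquiv.ofInjective f hf).symm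
  refine ⟨(g.toRingHom.comp r.toRingEquiv.toRingHom).comp (Subring.inclusion hle), fun a => ?_,
    fun a => ?_⟩
  · refine (congrArg g ((AlgEquiv.symm_apply_eq _).2 (Subtype.ext (ha a).symm))).trans ?_
    exact (congrArg (α a * ·) (map_one β)).trans (mul_one _)
  · refine (congrArg g ((AlgEquiv.symm_apply_eq _).2 (Subtype.ext (hb a).symm))).trans ?_
    exact (congrArg (· * β a) (map_one α)).trans (one_mul _)

omit [CharZero K] in
open TensorProduct in
theorem amalg_aux {L : Type} [Field L] [CharZero L] {k A B : Subfield K}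
    [Algebra k A] [Algebra k B] (hA : ∀ x : k, (algebraMap k A x : K) = x)
    (hB : ∀ x : k, (algebraMap k B x : K) = x) [IsAlgClosed k] (σ τ : K →+* L)
    (h : Free (σ '' k) (σ '' A) (τ '' B)) (e : ∀ x ∈ k, σ x = τ x) :
    ∃ f : A ⊗[k] B →+* L, Function.Injective f ∧ ∀ a b, f (a ⊗ₜ b) = σ a * τ b := by
  let _ : Algebra k L := (σ.comp k.subtype).toAlgebra
  let α : A →ₐ[k] L := ⟨σ.comp A.subtype, fun x => congrArg σ (hA x)⟩
  let β : B →ₐ[k] L := ⟨τ.comp B.subtype, fun x => (congrArg τ (hB x)).trans (e x x.2).symm⟩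
  refine ⟨(Algebra.TensorProduct.lift α β fun _ _ => Commute.all _ _).toRingHom,
    lift_injective α β α.injective β.injective ?_,
    fun a b => Algebra.TensorProduct.lift_tmul α β _ a b⟩
  rwa [show range (algebraMap k L) = σ '' k from (image_eq_range _ _).symm,
    show range α = σ '' A from (image_eq_range _ _).symm,
    show range β = τ '' B from (image_eq_range _ _).symm]

omit [CharZero K] in
theorem Free.acl_all (h : Free F S T) :
    Free (acl F : Set K) (acl (F ∪ S) : Set K) (acl (F ∪ T) : Set K) :=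
  h.acl_base.acl_left.mono (acl_acl_union F S).ge (acl_acl_union F T).ge

variable [IsAlgClosed K] [IsAlgClosed K'] [CharZero K'] [Uncountable K] (hc : #K = #K')
  (σ τ : K →+* K')
include hc

open TensorProduct in
theorem amalg_sub {k A B : Subfield K} [IsAlgClosed k] (hA : k ≤ A) (hB : k ≤ B) [Countable A]
    [Countable B] (h : Free (k : Set K) A B) (h' : Free (σ '' k) (σ '' A) (τ '' B))
    (e : ∀ x ∈ k, σ x = τ x) : ∃ ω : K ≃+* K', (∀ x ∈ A, ω x = σ x) ∧ ∀ x ∈ B, ω x = τ x := by
  let _ : Algebra k A := (Subfield.inclusion hA).toAlgebra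
  let _ : Algebra k B := (Subfield.inclusion hB).toAlgebra
  obtain ⟨f, hf, f1⟩ := amalg_aux (k := k) (A := A) (B := B) (fun _ => rfl) (fun _ => rfl)
    (RingHom.id K) (RingHom.id K) ((free_map _).2 h) fun _ _ => rfl
  obtain ⟨g, hg, g1⟩ := amalg_aux (k := k) (A := A) (B := B) (fun _ => rfl) (fun _ => rfl) σ τ h' e
  obtain ⟨ω, hω⟩ := exists_equiv_of_ker hc f g fun r => by
    rw [map_eq_zero_iff _ hf, map_eq_zero_iff _ hg]
  exact ⟨ω, fun x hx => by simpa [f1, g1] using hω (⟨x, hx⟩ ⊗ₜ 1),
    fun x hx => by simpa [f1, g1] using hω (1 ⊗ₜ ⟨x, hx⟩)⟩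

/-- Amalgamation of two embeddings over an algebraically closed base. -/
theorem amalg (hF : F.Countable) (hS : S.Countable) (hT : T.Countable) (h : Free F S T)
    (h' : Free (σ '' F) (σ '' S) (τ '' T)) (e : ∀ x ∈ acl F, σ x = τ x) :
    ∃ ω : K ≃+* K', (∀ x ∈ acl (F ∪ S), ω x = σ x) ∧ ∀ x ∈ acl (F ∪ T), ω x = τ x := by
  have : Countable (acl (F ∪ S)) := countable_acl (hF.union hS)
  have : Countable (acl (F ∪ T)) := countable_acl (hF.union hT)
  refine amalg_sub hc σ τ (acl_mono subset_union_left) (acl_mono subset_union_left) h.acl_all ?_ e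
  rw [map_acl, map_acl, map_acl, image_union, image_union,
    ← image_congr (s := F) fun x hx => e x (subset_acl _ hx)]
  exact h'.acl_all

end ld

end Pool.Agent.P.MP_f17f76_ag.E
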