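import Pool.Agent.P.MP_f17f76_ag.E.PlcB

/-!
Places: contractive derivations.
-/

namespace Pool.Agent.P.MP_f17f76_ag.E

open Set Cardinal

namespace Plc

variable {K R : Type} [Field K] [Field R] {P : Plc K R}
  {x y τ : K} {F L M : Subfield K} {S : Set K} {ι : Type} {Y : ι → K} {D : Der K}

/-- The elements on which `D` is contractive form a monoid. -/
def ctrM (P : Plc K R) (D : Der K) : Submonoid K where
  carrier := {x | P.v (D x) ≤ P.v x}
  one_mem' := by simp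
  mul_mem' {a b} ha hb := by
    rw [mem_ofPred_eq, D.leibniz, smul_eq_mul, smul_eq_mul]
    refine P.v.map_add_le ?_ ?_ <;> rw [map_mul, map_mul]
    exacts [mul_le_mul_right hb _, mul_comm (P.v a) _ ▸ mul_le_mul_right ha _]

theorem mem_ctrM : x ∈ P.ctrM D ↔ P.v (D x) ≤ P.v x := Iff.rfl

theorem inv_mem_ctrM (h : x ∈ P.ctrM D) : x⁻¹ ∈ P.ctrM D := by
  rcases eq_or_ne x 0 with rfl | h0
  · simpa using h
  rw [mem_ctrM, D.leibniz_inv, smul_eq_mul, map_mul, P.v.map_neg, map_pow, sq, mul_assoc]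
  refine mul_le_of_le_one_right' ?_
  rwa [← map_mul, ← div_eq_inv_mul, P.v_div_le_one h0]

theorem v_logder_le (h : P.v (D x) ≤ P.v x) : P.v (D x / x) ≤ 1 := by
  rcases eq_or_ne x 0 with rfl | h0
  exacts [by simp, (P.v_div_le_one h0).2 h]

theorem Ctr.field {A : Subring K} (h : P.Ctr D A) :
    P.Ctr D (Subfield.closure (A : Set K)) := fun x hx => by
  obtain ⟨a, ha, b, hb, rfl⟩ := Subfield.mem_closure_iff.1 hx
  rw [Subring.closure_eq] at ha hb
  rw [div_eq_mul_inv]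
  exact mul_mem (s := P.ctrM D) (h a ha) (inv_mem_ctrM (h b hb))

theorem Ctr.closure (h : P.Ctr D (Subring.closure S)) : P.Ctr D (Subfield.closure S) :=
  h.field.mono (Subfield.closure_mono Subring.subset_closure)

theorem v_der_sum_le {s : Finset ι} {f : ι → K} {c : P.O.ValueGroup}
    (h : ∀ i ∈ s, f i ∈ P.ctrM D) (h' : ∀ i ∈ s, P.v (f i) ≤ c) : P.v (D (∑ i ∈ s, f i)) ≤ c := by
  rw [map_sum]
  exact P.v.map_sum_le fun i hi => le_trans (h i hi) (h' i hi)

theorem Gauss.ctr (h : P.Gauss F Y) (h1 : P.Ctr D F) (h2 : ∀ i, P.v (D (Y i)) ≤ 1) :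
    P.Ctr D (Subfield.closure (F ∪ Set.range Y)) := Ctr.closure fun x hx => by
  obtain ⟨p, hp, rfl⟩ := exists_mpoly hx
  conv_lhs => rw [MvPolynomial.eval_eq]
  refine v_der_sum_le (fun m _ => mul_mem (h1 _ (hp m)) (prod_mem fun i _ =>
    pow_mem ((h2 i).trans (h.v_eq i).ge) _)) fun m _ => ?_
  rw [map_mul]
  exact (mul_le_of_le_one_right' (v_prod_le fun i _ => v_pow_le (h.1 i) _)).trans (h.v_eval hp m)

open Polynomial

theorem Tr.ctr (h : P.Tr F τ) (h1 : P.Ctr D F) (h2 : P.v (D τ) ≤ P.v τ) :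
    P.Ctr D (Subfield.closure (F ∪ {τ})) := Ctr.closure fun x hx => by
  obtain ⟨p, hp, rfl⟩ := exists_upoly hx
  conv_lhs => rw [eval_eq_sum_range]
  exact v_der_sum_le (fun n _ => mul_mem (h1 _ (hp n)) (pow_mem h2 _)) fun n _ => h.v_eval hp n

theorem v_coeff_le [IsAlgClosed K] {g : K[X]} (h0 : g ≠ 0)
    (h : ∀ b, g.eval b = 0 → P.v y ≤ P.v (y - b)) (n : ℕ) :
    P.v (g.coeff n * y ^ n) ≤ P.v (g.eval y) := by
  have key : ∀ s : Multiset K, (∀ b ∈ s, P.v y ≤ P.v (y - b)) → ∀ n,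
      P.v ((s.map (X - C ·)).prod.coeff n * y ^ n) ≤ P.v ((s.map (X - C ·)).prod.eval y) := by
    intro s
    induction s using Multiset.induction_on with
    | empty =>
      rintro - (_ | n) <;> simp [coeff_one]
    | cons b s ih =>
      intro hs n
      rw [Multiset.forall_mem_cons] at hs
      have h1 : P.v b ≤ P.v (y - b) := by simpa using P.v.map_sub_le hs.1 (le_refl (P.v (y - b)))
      rw [Multiset.map_cons, Multiset.prod_cons, eval_mul, eval_sub, eval_X, eval_C, map_mul _ (y - b)]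
      cases n with
      | zero =>
        rw [mul_coeff_zero, mul_assoc, map_mul]
        exact mul_le_mul' (by simpa using h1) (ih hs.2 0)
      | succ n =>
        rw [coeff_X_sub_C_mul, sub_mul, pow_succ', mul_left_comm, mul_assoc, ← pow_succ']
        refine P.v.map_sub_le ?_ ?_ <;> rw [map_mul]
        exacts [mul_le_mul' hs.1 (ih hs.2 n), mul_le_mul' h1 (ih hs.2 _)]
  have h1 := key g.roots (fun b hb => h b ((mem_roots h0).1 hb)) n
  rw [(IsAlgClosed.splits g).eq_prod_roots, coeff_C_mul, eval_mul, eval_C, mul_assoc, map_mul,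
    map_mul _ g.leadingCoeff]
  exact mul_le_mul_right h1 _

variable [CharZero R]

theorem ctr_root [IsAlgClosed K] (hM : P.Ctr D M) {p : K[X]} (hp : ∀ n, p.coeff n ∈ M)
    (h0 : p.eval y = 0) (h1 : p.derivative.eval y ≠ 0)
    (h2 : ∀ b, p.derivative.eval b = 0 → P.v y ≤ P.v (y - b)) : P.v (D y) ≤ P.v y := by
  have h3 : ∀ n, P.v (p.coeff (n + 1) * y ^ (n + 1)) ≤ P.v (p.derivative.eval y) * P.v y := by
    intro n
    have h4 := v_coeff_le (fun e => h1 (by simp [e])) h2 n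
    rw [coeff_derivative, mul_right_comm, map_mul, ← Nat.cast_succ, v_nat n.succ_ne_zero,
      mul_one] at h4
    rw [pow_succ, ← mul_assoc, map_mul]
    exact mul_le_mul_left h4 _
  have h4 : ∀ n, P.v (p.coeff n * y ^ n) ≤ P.v (p.derivative.eval y) * P.v y := by
    rintro (_ | n)
    · rw [eval_eq_sum_range, Finset.sum_range_succ'] at h0
      rw [eq_neg_of_add_eq_zero_right h0, P.v.map_neg]
      exact P.v.map_sum_le fun n _ => h3 n
    · exact h3 n
  have h5 := der_poly D p y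
  rw [h0, map_zero] at h5
  refine le_of_mul_le_mul_left (a := P.v (p.derivative.eval y)) ?_ (P.v_pos h1)
  rw [← map_mul, eq_neg_of_add_eq_zero_right h5.symm, P.v.map_neg]
  refine P.v.map_sum_le fun n _ => le_trans ?_ (h4 n)
  rw [map_mul, map_mul]
  exact mul_le_mul_left (hM _ (hp n)) _

theorem charZero (P : Plc K R) : CharZero K :=
  ⟨fun a b h => Nat.cast_injective (R := R) (by rw [← P.r_nat, h, P.r_nat])⟩

theorem ctr_sub [IsAlgClosed K] (hM : P.Ctr D M) {p : M[X]} (h0 : aeval x p = 0)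
    (h1 : aeval x p.derivative ≠ 0) (h2 : ∀ b : K, aeval b p.derivative = 0 → b ∈ M) {a : K}
    (ha : a ∈ M) : P.v (D (x - a)) ≤ P.v (x - a) := by
  classical
  have e0 : ∀ (q : M[X]) (a : M) (b : K), ((taylor a q).map (algebraMap M K)).eval (b - a) =
      aeval b q := fun q a b => by
    rw [map_taylor, ← eval_map_algebraMap, taylor_eval]
    exact congrArg (eval · _) (sub_add_cancel _ _)
  have e : ∀ (a : M) (b : K), ((taylor a p).map (algebraMap M K)).derivative.eval (b - a) =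
      aeval b p.derivative := fun a b => by
    rw [derivative_map, ← e0 _ a, taylor_apply, taylor_apply, derivative_comp]
    simp
  obtain ⟨c, hc, h3⟩ := (insert a (p.derivative.aroots K).toFinset).exists_min_image
    (fun b => P.v (x - b)) (Finset.insert_nonempty _ _)
  have h4 : c ∈ M := by
    rcases Finset.mem_insert.1 hc with rfl | hc
    exacts [ha, h2 c (mem_aroots.1 (Multiset.mem_toFinset.1 hc)).2]
  have h5 := h3 a (Finset.mem_insert_self _ _)
  have h6 : P.v (D (x - c)) ≤ P.v (x - c) := by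
    lift c to M using h4
    refine ctr_root hM (p := (taylor c p).map (algebraMap M K)) (fun n => ?_)
      ((e0 p c x).trans h0) ((e c x).trans_ne h1) fun b hb => ?_
    · rw [coeff_map]
      exact SetLike.coe_mem _
    rw [sub_sub]
    refine h3 _ (Finset.mem_insert_of_mem (Multiset.mem_toFinset.2 (mem_aroots.2
      ⟨fun e => h1 (by rw [e, map_zero]), ?_⟩)))
    rw [← e c, add_sub_cancel_left, hb]
  rw [show D (x - a) = D (x - c) + D (c - a) by rw [← map_add, sub_add_sub_cancel]]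
  refine P.v.map_add_le (h6.trans h5) ((hM _ (sub_mem h4 ha)).trans ?_)
  simpa using P.v.map_sub_le (le_refl (P.v (x - a))) h5

theorem ctr_step [IsAlgClosed K] (hM : P.Ctr D M) (hx : IsIntegral M x) (hx' : x ∉ M)
    (hmin : ∀ q : M[X], q ≠ 0 → q.natDegree < (minpoly M x).natDegree → ∀ b : K, aeval b q = 0 →
      b ∈ M) : P.Ctr D (Subfield.closure (M ∪ {x})) := by
  have := P.charZero
  have h0 := (minpoly.natDegree_pos hx).ne'
  have h1 := hmin _ (fun e => h0 (derivative_eq_zero.1 e)) (natDegree_derivative_lt h0)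
  refine Ctr.closure fun z hz => ?_
  obtain ⟨p, hp, rfl⟩ := exists_upoly hz
  obtain ⟨q, rfl⟩ := (mem_lifts p).1 ((lifts_iff_coeff_lifts (f := algebraMap M K) p).2
    fun n => ⟨⟨_, hp n⟩, rfl⟩)
  rw [eval_map_algebraMap, ← minpoly.aeval_modByMonic_minpoly q x, ← eval_map_algebraMap]
  rcases eq_or_ne (q %ₘ minpoly M x) 0 with h2 | h2
  · simp [h2]
  rw [(IsAlgClosed.splits _).eval_eq_prod_roots]
  refine mul_mem (s := P.ctrM D) (hM _ (by rw [leadingCoeff, coeff_map]; exact Subtype.prop _))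
    (multiset_prod_mem _ fun z hz => ?_)
  obtain ⟨b, hb, rfl⟩ := Multiset.mem_map.1 hz
  exact ctr_sub hM (minpoly.aeval M x) (fun h => hx' (h1 x h)) h1 (hmin _ h2
    (natDegree_modByMonic_lt _ (minpoly.monic hx) (minpoly.ne_one M x)) b (mem_aroots.1 hb).2)

/-- A contractive derivation is contractive on the algebraic closure. -/
theorem Ctr.acl [IsAlgClosed K] (h : P.Ctr D F) : P.Ctr D (acl (F : Set K)) := by
  obtain ⟨M, h1, hM, h2⟩ := zorn_le_nonempty₀ {M : Subfield K | P.Ctr D M}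
    (fun c hc hc' y hy => ⟨sSup c, fun x hx => by
      obtain ⟨s, hs, hx⟩ := (Subfield.mem_sSup_of_directedOn ⟨y, hy⟩ hc'.directedOn).1 hx
      exact hc hs x hx, fun z hz => le_sSup hz⟩) F h
  refine Ctr.mono hM fun x hx => by_contra fun hx' => ?_
  obtain ⟨z, ⟨hz, hz'⟩, h3⟩ := (wellFounded_lt.onFun (f := fun z => (minpoly M z).natDegree)).has_min
    {z : K | IsIntegral M z ∧ z ∉ M} ⟨x, (isAlg_mono h1 (mem_acl_subfield.1 hx)).isIntegral, hx'⟩
  exact hz' (h2 (ctr_step hM hz hz' fun q hq hq' b hb => by_contra fun hb' =>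
    h3 b ⟨(IsAlgebraic.isIntegral ⟨q, hq, hb⟩), hb'⟩ ((natDegree_le_natDegree
      (minpoly.degree_le_of_ne_zero M b hq hb)).trans_lt hq'))
    (fun a ha => Subfield.subset_closure (Or.inl ha)) (Subfield.subset_closure (Or.inr rfl)))

theorem Gauss.ctr_acl [IsAlgClosed K] (h : P.Gauss F Y) (h1 : P.Ctr D F)
    (h2 : ∀ i, P.v (D (Y i)) ≤ 1) : P.Ctr D (E.acl (F ∪ Set.range Y)) :=
  acl_closure (_ ∪ Set.range Y) ▸ (h.ctr h1 h2).acl

theorem Tr.ctr_acl [IsAlgClosed K] (h : P.Tr F τ) (h1 : P.Ctr D F) (h2 : P.v (D τ) ≤ P.v τ) :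
    P.Ctr D (E.acl (F ∪ {τ})) :=
  acl_closure (_ ∪ {τ}) ▸ (h.ctr h1 h2).acl

/-- Contractive extension with prescribed integral values on a Gauss family. -/
theorem Gauss.exists_der [IsAlgClosed K] (h : P.Gauss F Y) (h1 : P.Ctr D F) {c : ι → K}
    (hc : ∀ i, P.v (c i) ≤ 1) : ∃ D' : Der K, (∀ x ∈ F, D' x = D x) ∧ (∀ i, D' (Y i) = c i) ∧
      P.Ctr D' (E.acl (F ∪ Set.range Y)) := by
  have := P.charZero
  obtain ⟨D', h2, h3⟩ := E.exists_der h.ind fun i => c i - D (Y i)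
  have h4 : ∀ x ∈ F, (D + D') x = D x := fun x hx => by simp [h2 x hx]
  have h5 : ∀ i, (D + D') (Y i) = c i := fun i => by simp [h3 i]
  exact ⟨_, h4, h5, h.ctr_acl (fun x hx => h4 x hx ▸ h1 x hx) fun i => h5 i ▸ hc i⟩

/-- The residue derivation, with prescribed values on independent elements. -/
theorem exists_res_der' (h : ∀ x ∈ L, P.v x ≤ 1 → P.v (D x) ≤ 1)
    (h' : ∀ x ∈ L, P.v x < 1 → P.v (D x) < 1) {W : ι → R} (hW : Ind (P.res L : Set R) W)
    (c : ι → R) : ∃ D' : Der R, (∀ x ∈ L, P.v x ≤ 1 → D' (P.r x) = P.r (D x)) ∧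
      ∀ i, D' (W i) = c i := by
  choose l h1 h2 h3 using fun y : P.res L => mem_res.1 y.2
  have e : ∀ x ∈ L, P.v x ≤ 1 → ∀ y : P.res L, P.r x = y → P.r (D (l y)) = P.r (D x) :=
    fun x hx h4 y hy => (r_eq_iff (h _ (h1 y) (h2 y)) (h x hx h4)).2 (by
      rw [← map_sub]
      exact h' _ (sub_mem (h1 y) hx) ((r_eq_iff (h2 y) h4).1 ((h3 y).trans hy.symm)))
  obtain ⟨D', h4, h5⟩ := exists_der_ext (P.res L) (AddMonoidHom.mk' (fun y => P.r (D (l y)))
    fun a b => by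
      rw [e _ (add_mem (h1 a) (h1 b)) (P.v.map_add_le (h2 a) (h2 b)) (a + b)
        (by rw [r_add (h2 a) (h2 b), h3, h3]; rfl), map_add,
        r_add (h _ (h1 a) (h2 a)) (h _ (h1 b) (h2 b))])
    (fun a b => by
      simp only [AddMonoidHom.mk'_apply]
      rw [e _ (mul_mem (h1 a) (h1 b)) (v_mul_le (h2 a) (h2 b)) (a * b)
        (by rw [r_mul (h2 a) (h2 b), h3, h3]; rfl), D.leibniz, smul_eq_mul, smul_eq_mul,
        r_add (v_mul_le (h2 a) (h _ (h1 b) (h2 b))) (v_mul_le (h2 b) (h _ (h1 a) (h2 a))),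
        r_mul (h2 a) (h _ (h1 b) (h2 b)), r_mul (h2 b) (h _ (h1 a) (h2 a)), h3, h3])
    (v := W) (by rwa [Ind, Subfield.closure_eq] at hW) c
  exact ⟨D', fun x hx h6 => (h4 ⟨_, r_mem_res hx⟩).trans (e x hx h6 _ rfl), h5⟩

theorem exists_res_der (h : P.Ctr D L) {W : ι → R} (hW : Ind (P.res L : Set R) W) (c : ι → R) :
    ∃ D' : Der R, (∀ x ∈ L, P.v x ≤ 1 → D' (P.r x) = P.r (D x)) ∧ ∀ i, D' (W i) = c i :=
  exists_res_der' (fun x hx h1 => (h x hx).trans h1) (fun x hx h1 => (h x hx).trans_lt h1) hW c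

theorem Ctr.exists_res (h : P.Ctr D L) :
    ∃ D' : Der R, ∀ x ∈ L, P.v x ≤ 1 → D' (P.r x) = P.r (D x) :=
  (exists_res_der h (W := Empty.elim) algebraicIndependent_empty_type Empty.elim).imp
    fun _ => And.left

/-- The residue derivation vanishes on an algebraic residue extension. -/
theorem Ctr.lt_one (h : P.Ctr D L) (hF : F ≤ L) (h1 : ∀ c ∈ F, P.v c ≤ 1 → P.v (D c) < 1)
    (hx : x ∈ L) (hx1 : P.v x ≤ 1) (h2 : P.r x ∈ E.acl (P.res F : Set R)) : P.v (D x) < 1 := by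
  obtain ⟨D', hD⟩ := h.exists_res
  refine (r_eq_zero_iff ((h x hx).trans hx1)).1 ((hD x hx hx1).symm.trans
    (acl_le_cst (fun y hy => ?_) h2))
  obtain ⟨c, h3, h4, rfl⟩ := mem_res.1 hy
  exact (hD c (hF h3) h4).trans (r_of_lt (h1 c h3 h4))

/-- Logarithmic derivatives compute orders. -/
theorem r_logder (h : P.Ctr D L) (h1 : ∀ f ∈ L, P.v f ≤ 1 → P.v (D f) < 1) (hτ : τ ∈ L)
    (h0 : τ ≠ 0) (hx : x ∈ L) {q : ℕ} {s : ℤ} (hq : 0 < q) (e : P.v x ^ q = P.v τ ^ s) :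
    P.r (D x / x) = s / q * P.r (D τ / τ) := by
  have hx0 : x ≠ 0 := fun e' => zpow_ne_zero s (P.v_ne h0) (by simp [← e, e', hq.ne'])
  have h2 : P.v (x ^ q * τ ^ (-s)) = 1 := by
    rw [map_mul, map_pow, map_zpow₀, e, zpow_neg, mul_inv_cancel₀ (zpow_ne_zero s (P.v_ne h0))]
  have h3 := h1 _ (mul_mem (pow_mem hx q) (zpow_mem hτ (-s))) h2.le
  have h4 : D (x ^ q * τ ^ (-s)) = x ^ q * τ ^ (-s) * (q * (D x / x) - s * (D τ / τ)) := by
    obtain ⟨n, rfl⟩ := Nat.exists_eq_succ_of_ne_zero hq.ne'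
    rw [D.leibniz, D.leibniz_pow, D.leibniz_zpow, zpow_sub_one₀ h0]
    simp only [smul_eq_mul, nsmul_eq_mul, zsmul_eq_mul, Nat.succ_sub_one, pow_succ, Int.cast_neg]
    field_simp
    ring
  have h5 := v_logder_le (h x hx)
  have h6 := v_logder_le (h τ hτ)
  rw [h4, map_mul, h2, one_mul, ← r_eq_iff (v_mul_le (P.v_nat_le q) h5) (v_mul_le (P.v_int_le s) h6),
    r_mul (P.v_nat_le q) h5, r_mul (P.v_int_le s) h6, r_nat, r_int] at h3
  rw [div_mul_eq_mul_div, ← h3, mul_div_cancel_left₀ _ (Nat.cast_ne_zero.2 hq.ne')]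

/-- The logarithmic derivation of a uniformiser. -/
theorem logd [IsAlgClosed K] (hF : P.Triv F) (h0 : τ ≠ 0) (h1 : P.v τ < 1)
    (hD : D ∈ kil (F : Set K)) (hτ : D τ = τ) : P.Ctr D (acl (F ∪ {τ})) ∧
      ∀ f ∈ acl ((F : Set K) ∪ {τ}), (P.v f ≤ 1 → P.v (D f) < 1) ∧
        (f ≠ 0 → ∃ (q : ℕ) (s : ℤ), 0 < q ∧ P.v f ^ q = P.v τ ^ s) ∧
        ∀ (q : ℕ) (s : ℤ), 0 < q → P.v f ^ q = P.v τ ^ s → P.r (D f / f) = s / q := by
  have h2 := tr_of_triv hF h0 h1.ne
  have h3 := h2.ctr_acl (ctr_of_kil hD) (by rw [hτ])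
  have h4 : ∀ f ∈ acl ((F : Set K) ∪ {τ}), P.v f ≤ 1 → P.v (D f) < 1 := fun f hf h4 =>
    h3.lt_one (subset_union_left.trans (subset_acl _)) (fun c hc _ => by simp [hD c hc]) hf h4
      (h2.res_acl_le (r_mem_res hf))
  refine ⟨h3, fun f hf => ⟨h4 f hf, fun h5 => ?_, fun q s hq e => ?_⟩⟩
  · obtain ⟨q, hq, c, hc, e⟩ := exists_pow_v (P := P) ((acl_closure _).ge hf)
    obtain ⟨d, hd, s, e'⟩ := h2.exists_v hc
    refine ⟨q, s, hq, ?_⟩
    rw [e, e', hF.v_eq hd fun e'' => pow_ne_zero q (P.v_ne h5) (by simp [e, e', e'']), one_mul]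
  · rw [r_logder h3 h4 (subset_acl _ (Or.inr rfl)) h0 hf hq e, hτ, div_self h0, r_one, mul_one]

end Plc

end Pool.Agent.P.MP_f17f76_ag.E
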