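import Pool.Agent.P.MP_f17f76_ag.E.AxP
import Pool.Agent.P.MP_f17f76_ag.E.PlcC

/-!
The multiplicative part of a constant relation between closed forms.
-/

namespace Pool.Agent.P.MP_f17f76_ag.AbVar

open Module E Set Matrix

variable {g N : ℕ} {A : AbVar g N} {k : Subfield ℂ} {Θ : Submodule ℂ (Fin g → ℂ)}
  {F : Set ℂ} {a : Fin g → ℂ} {ι κ τ : Type} {D : Der ℂ}

/-- A constant relation between logarithmic, exact and invariant forms: the multiplicative part
splits along the rational coordinates of the coefficients. -/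
theorem Over.gm_exact [Fintype ι] (h : A.Over k) (hF : F.Countable) (hk : (k : Set ℂ) ⊆ acl F)
    {c x : ι → ℂ} (hc : ∀ i, c i ∈ acl F) (hx : ∀ i, x i ≠ 0) {θ : Fin g → ℂ}
    (hθ : ∀ i, θ i ∈ acl F) {ζ : ℂ}
    (H : ∀ X ∈ kil F, ∑ i, c i * (X (x i) / x i) + X ζ + θ ⬝ᵥ A.dl a X = 0) (φ : ℂ →ₗ[ℚ] ℚ)
    {X : Der ℂ} (hX : X ∈ kil F) : ∑ i, (φ (c i) : ℂ) * (X (x i) / x i) = 0 := by
  obtain ⟨⟨n, hn⟩, h1⟩ := IsLocalization.exist_integer_multiples_of_finite (nonZeroDivisors ℤ)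
    fun i => φ (c i)
  choose q hq using h1
  have hq' : ∀ i, (q i : ℚ) = n * φ (c i) := fun i => by simpa using hq i
  have hn' : (n : ℂ) ≠ 0 := Int.cast_ne_zero.2 (nonZeroDivisors.ne_zero hn)
  set μ := ∏ i, x i ^ q i with hμ
  have hμ0 : μ ≠ 0 := Finset.prod_ne_zero_iff.2 fun j _ => zpow_ne_zero _ (hx j)
  have h2 : ∀ Y : Der ℂ, Y μ / μ = n * ∑ i, (φ (c i) : ℂ) * (Y (x i) / x i) := fun Y => by
    rw [hμ, dlog_prod_zpow hx, Finset.mul_sum]
    exact Finset.sum_congr rfl fun i _ => by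
      rw [← mul_assoc, ← Rat.cast_intCast (q i), hq', Rat.cast_mul, Rat.cast_intCast]
  refine (mul_eq_zero.1 ((h2 X).symm.trans ?_)).resolve_left hn'
  rw [acl_le_cst hX (by_contra fun hμ1 => ?_), zero_div]
  obtain ⟨B, h3, h4, h5, h6⟩ := E.exists_basis (S := {μ, ζ} ∪ range x ∪ range (A.crd a))
    (indep_singleton hμ1) (by simp)
  have hB : B.Countable := (((toFinite _).union (finite_range _)).union
    (finite_range _)).countable.mono h4
  classical
  obtain ⟨D, hD, h7⟩ := exists_der h5 fun b => if b.1 = μ then μ else 0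
  have h8 : D μ = μ := by simpa using h7 ⟨μ, h3 rfl⟩
  have h9 : D ∈ kil (acl (F ∪ B \ {μ}) : Set ℂ) := by
    rw [kil_acl, kil_union]
    exact ⟨hD, fun b hb => by simpa [show b ≠ μ from hb.2] using h7 ⟨b, hb.1⟩⟩
  have h10 : acl (F ∪ B) ≤ acl ((acl (F ∪ B \ {μ}) : Set ℂ) ∪ {μ}) := by
    rw [acl_acl_union, union_assoc, sdiff_union_of_subset h3]
  have : Uncountable ℂ := Complex.ofReal_injective.uncountable
  have hcn := hF.union (hB.mono (sdiff_subset (t := {μ})))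
  obtain ⟨P₀, hP₀⟩ := Plc.exists_lifts le_rfl (RingHom.id ℂ) hcn
  obtain ⟨P, h11, h12⟩ := Plc.exists_small le_rfl P₀ (countable_acl hcn) (τ := μ) fun e =>
    hμ0 (h8.symm.trans (acl_le_cst h9 e))
  have hP : P.IdOn (acl (F ∪ B \ {μ})) := h11.lifts hP₀
  have hF' : ∀ y ∈ acl F, P.v y ≤ 1 ∧ P.r y = y := fun y hy => hP y (acl_mono subset_union_left hy)
  obtain ⟨h13, h14⟩ := Plc.logd (P := P) (fun y hy => (hP y hy).1) hμ0
    (by simpa using h12 1 (one_mem _) one_ne_zero) h9 h8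
  have h15 := fun y hy => h10 (h6 (a := y) hy)
  have h16 : ∀ i, P.v (D (x i) / x i) ≤ 1 := fun i =>
    (P.v_div_le_one (hx i)).2 (h13 _ (h15 _ (by simp)))
  have h17 : ∀ i, ∃ o : ℚ, P.r (D (x i) / x i) = o := fun i => by
    obtain ⟨-, h, h'⟩ := h14 (x i) (h15 _ (by simp))
    obtain ⟨q, s, h1, h2⟩ := h (hx i)
    exact ⟨s / q, by rw [h' q s h1 h2]; simp⟩
  choose o ho using h17
  have h18 : P.v (θ ⬝ᵥ A.dl a D) < 1 := P.v.map_sum_lt one_ne_zero fun i _ =>
    Plc.v_mul_lt (hF' _ (hθ i)).1 (h.dl_lt_one (fun y hy => hF' y (hk hy)) (kil_le hk hD)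
      (fun j => h15 _ (by simp)) (fun f hf => (h14 f hf).1) i)
  have h19 : ∀ i ∈ Finset.univ, P.v (c i * (D (x i) / x i)) ≤ 1 := fun i _ =>
    Plc.v_mul_le (hF' _ (hc i)).1 (h16 i)
  have h20 : P.v (D ζ) < 1 := by
    obtain ⟨h1, h2, h3⟩ := h14 ζ (h15 _ (by simp))
    refine h1 (not_lt.1 fun h4 => ?_)
    have h0 : ζ ≠ 0 := fun e => by simp [e] at h4
    obtain ⟨q, s, h5, h6⟩ := h2 h0
    have h7 : P.v (D ζ) ≤ 1 := by
      rw [show D ζ = -(∑ i, c i * (D (x i) / x i) + θ ⬝ᵥ A.dl a D) by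
        linear_combination H D hD, P.v.map_neg]
      exact P.v.map_add_le (P.v.map_sum_le h19) h18.le
    have h8 := h3 q s h5 h6
    rw [Plc.r_of_lt ((P.v_div_lt_one h0).2 (h7.trans_lt h4)), eq_comm, div_eq_zero_iff,
      Int.cast_eq_zero, Nat.cast_eq_zero] at h8
    rw [h8.resolve_right h5.ne', zpow_zero] at h6
    exact (one_lt_pow' h4 h5.ne').ne' h6
  have h21 : ∑ i, o i • c i = 0 := by
    have := Plc.r_sum h19
    rw [show ∑ i, c i * (D (x i) / x i) = -(D ζ + θ ⬝ᵥ A.dl a D) by linear_combination H D hD,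
      Plc.r_of_lt ((P.v.map_neg _).trans_lt (P.v.map_add_lt h20 h18))] at this
    rw [this]
    exact Finset.sum_congr rfl fun i _ => by
      rw [Plc.r_mul (hF' _ (hc i)).1 (h16 i), (hF' _ (hc i)).2, ho, Rat.smul_def, mul_comm]
  have h22 := congrArg P.r (dlog_prod_zpow hx q D)
  rw [← hμ, h8, div_self hμ0, P.r_one, Plc.r_sum fun i _ => Plc.v_mul_le (P.v_int_le _) (h16 i),
    Finset.sum_congr rfl fun i _ => show _ = ((n * (o i * φ (c i)) : ℚ) : ℂ) by
      rw [Plc.r_mul (P.v_int_le _) (h16 i), P.r_int, ho, mul_left_comm, ← hq']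
      push_cast
      ring, ← Rat.cast_sum, ← Finset.mul_sum] at h22
  have h23 := congrArg φ h21
  simp only [map_sum, map_smul, smul_eq_mul, map_zero] at h23
  simp [h23] at h22

/-- Change of the eigenvalues of a derivation with constant values on invariant forms. -/
theorem Over.gmx_pv [Fintype ι] [Fintype κ] [Fintype τ] (h : A.Over k) (hF : F.Countable)
    (hk : (k : Set ℂ) ⊆ acl F) {θ : τ → Fin g → ℂ} (hθ : ∀ j i, θ j i ∈ acl F) {x l l' : ι → ℂ}
    {ζ : κ → ℂ} (hD : D ∈ kil F) (h1 : ∀ i, D (x i) = l i * x i) (hl : ∀ i, l i ∈ acl F)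
    (h2 : ∀ j, D (ζ j) ∈ acl F) (h3 : ∀ j, A.pv θ a D j ∈ acl F)
    (h4 : ∀ q : ι → ℚ, ∑ i, q i * l i = 0 → ∑ i, q i * l' i = 0) :
    ∃ D' ∈ kil F, (∀ i, D' (x i) = l' i * x i) ∧ (∀ j, D' (ζ j) = 0) ∧ A.pv θ a D' = 0 := by
  classical
  let x' : ι → ℂ := fun i => if x i = 0 then 1 else x i
  have hx : ∀ i, x' i ≠ 0 := fun i => by
    by_cases e : x i = 0 <;> simp [x', e]
  have h5 : ∀ i, D (x' i) / x' i = if x i = 0 then 0 else l i := fun i => by
    by_cases e : x i = 0 <;> simp [x', e, h1]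
  let Δ' : Set (Der ℂ) := {D} ∪ (kil (F ∪ (range x' ∪ (range ζ ∪ range (A.crd a)))) : Set (Der ℂ))
  have c1 : F ⊆ csts Δ' := subset_csts.2 (union_subset (singleton_subset_iff.2 hD)
    (kil_anti subset_union_left))
  have c2 : acl F ≤ csts Δ' := (acl_mono c1).trans (acl_csts _).le
  have c3 : (k : Set ℂ) ⊆ acl (csts Δ' : Set ℂ) := hk.trans (acl_mono c1)
  have c4 : (csts Δ' : Set ℂ).Countable := (countable_acl (hF.union ((finite_range _).union
    ((finite_range _).union (finite_range _))).countable)).mono (csts_le_acl subset_union_right)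
  have c5 := axl (Δ := Δ') (ω := fsum (dlog x') (fsum (dv ζ) ((of θ).mulVecLin.comp (A.dl a))))
    ((closed_dlog _ x').fsum ((closed_dv _ ζ).fsum
      ((h.closed_dl c3 a).mulVec fun D hD i j => hD _ (c2 (hθ i j))))) (by
      rintro X (rfl | hX)
      · rintro (i | j | j)
        · rw [fsum_apply, Sum.elim_inl, dlog_apply, h5]
          split_ifs
          exacts [zero_mem _, c2 (hl i)]
        exacts [c2 (h2 j), c2 (h3 j)]
      · rw [SetLike.mem_coe, kil_union, kil_union, kil_union] at hX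
        rintro (i | j | j)
        · simp [fsum_apply, hX.2.1 _ (mem_range_self i)]
        · simp [fsum_apply, hX.2.2.1 _ (mem_range_self j)]
        · simp [fsum_apply, A.dl_eq_zero hX.2.2.2])
  obtain ⟨D', hD', e⟩ := c5.mem_of_forms (x := Sum.elim (fun i => if x i = 0 then 0 else l' i) 0)
    fun c hc h6 => by
      have h7 := fun φ => h.gm_exact (a := a) c4 c3 (c := c ∘ Sum.inl) (fun i => subset_acl _ (hc _))
        hx (θ := (c ∘ Sum.inr ∘ Sum.inr) ᵥ* of θ) (fun j => subset_acl _ (sum_mem fun i _ =>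
          mul_mem (hc _) (c2 (hθ i j)))) (ζ := (c ∘ Sum.inr ∘ Sum.inl) ⬝ᵥ ζ) (fun X hX => by
          rw [← h6 _ ⟨X, hX, rfl⟩, ← dotProduct_mulVec]
          simp [dotProduct, fsum_apply, hX _ (hc _), add_assoc]) φ
          (mem_kil_csts (Or.inl rfl))
      simp only [dotProduct, Fintype.sum_sum_type, Sum.elim_inl, Sum.elim_inr, Pi.zero_apply,
        mul_zero, Finset.sum_const_zero, add_zero]
      refine sum_eq_zero_of_rat (c := c ∘ Sum.inl) fun φ => ?_
      refine Eq.trans (Finset.sum_congr rfl fun i _ => by split_ifs <;> simp)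
        (h4 (fun i => if x i = 0 then 0 else φ (c (Sum.inl i))) (Eq.trans
          (Finset.sum_congr rfl fun i _ => by rw [h5]; split_ifs <;> simp) (h7 φ)))
  refine ⟨D', kil_anti c1 hD', fun i => ?_, fun j => congrFun e (Sum.inr (Sum.inl j)),
    funext fun j => congrFun e (Sum.inr (Sum.inr j))⟩
  have h6 := congrFun e (Sum.inl i)
  by_cases e0 : x i = 0
  · simp [e0]
  · simpa [fsum_apply, x', e0, div_eq_iff] using h6

theorem Over.gmx [Fintype ι] [Fintype κ] (h : A.Over k) (hF : F.Countable)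
    (hk : (k : Set ℂ) ⊆ acl F) (hΘ : Ov (acl F) Θ) {x l l' : ι → ℂ} {ζ : κ → ℂ} (hD : D ∈ kil F)
    (h1 : ∀ i, D (x i) = l i * x i) (hl : ∀ i, l i ∈ acl F) (h2 : ∀ j, D (ζ j) ∈ acl F)
    (h3 : A.dl a D ∈ ann Θ) (h4 : ∀ q : ι → ℚ, ∑ i, q i * l i = 0 → ∑ i, q i * l' i = 0) :
    ∃ D' ∈ kil F, (∀ i, D' (x i) = l' i * x i) ∧ (∀ j, D' (ζ j) = 0) ∧ A.dl a D' ∈ ann Θ := by
  obtain ⟨θ, h5, -, h6⟩ := hΘ.exists_basis
  have e : ∀ X, A.pv θ a X = 0 ↔ A.dl a X ∈ ann Θ := fun X => by rw [pv_zero_iff, h6]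
  obtain ⟨D', h7, h8, h9, h10⟩ := h.gmx_pv hF hk h5 hD h1 hl h2
    (fun j => by rw [(e D).2 h3]; exact zero_mem _) h4
  exact ⟨D', h7, h8, h9, (e D').1 h10⟩

end Pool.Agent.P.MP_f17f76_ag.AbVar
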