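import Pool.Agent.P.MP_f17f76_ag.E.Ov

/-!
Ax's lemma for closed forms on derivations, rank bounds, and tangent spaces under free extensions.
-/

namespace Pool.Agent.P.MP_f17f76_ag.E

open Set Module

variable {K : Type} [Field K] {ι κ : Type} {F F' S : Set K} {D X : Der K}

theorem lie_kil (hD : D ∈ kil F) (hX : X ∈ kil F) : ⁅D, X⁆ ∈ kil F := fun x hx => by
  rw [Derivation.commutator_apply, hD x hx, hX x hx, map_zero, map_zero, sub_zero]

/-- The vector valued form `ω` is closed on the derivations that kill `F`. -/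
def Closed (F : Set K) (ω : Der K →ₗ[K] ι → K) : Prop :=
  ∀ X ∈ kil F, ∀ Y ∈ kil F, ω ⁅X, Y⁆ = dv (ω Y) X - dv (ω X) Y

theorem Closed.mono {ω : Der K →ₗ[K] ι → K} (h : Closed F ω) (hF : kil F' ≤ kil F) :
    Closed F' ω := fun X hX Y hY => h X (hF hX) Y (hF hY)

theorem closed_dv (F : Set K) (v : ι → K) : Closed F (dv v) := fun _ _ _ _ => rfl

theorem Closed.sub {ω ω' : Der K →ₗ[K] ι → K} (h : Closed F ω) (h' : Closed F ω') :
    Closed F (ω - ω') := fun X hX Y hY => by
  funext i
  simp only [LinearMap.sub_apply, h X hX Y hY, h' X hX Y hY, Pi.sub_apply, dv_apply, map_sub]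
  ring

theorem dv_mulVec [Fintype ι] {M : Matrix κ ι K} (hM : ∀ i j, D (M i j) = 0) (x : ι → K) :
    dv (M.mulVec x) D = M.mulVec (dv x D) := by
  funext i
  simp [Matrix.mulVec, dotProduct, hM]

theorem Closed.mulVec [Fintype ι] {ω : Der K →ₗ[K] ι → K} (h : Closed F ω) {M : Matrix κ ι K}
    (hM : ∀ D ∈ kil F, ∀ i j, D (M i j) = 0) : Closed F (M.mulVecLin.comp ω) :=
  fun X hX Y hY => by
    simp only [LinearMap.comp_apply, Matrix.mulVecLin_apply, h X hX Y hY, Matrix.mulVec_sub,
      dv_mulVec (hM X hX), dv_mulVec (hM Y hY)]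

/-- The logarithmic differentials `d x i / x i`. -/
def dlog (x : ι → K) : Der K →ₗ[K] ι → K where
  toFun D i := D (x i) / x i
  map_add' _ _ := funext fun _ => add_div _ _ _
  map_smul' c D := funext fun i => mul_div_assoc c (D (x i)) (x i)

@[simp] theorem dlog_apply (x : ι → K) (D : Der K) (i : ι) : dlog x D i = D (x i) / x i := rfl

theorem closed_dlog (F : Set K) (x : ι → K) : Closed F (dlog x) := fun X _ Y _ => by
  funext i
  simp only [dlog_apply, Derivation.commutator_apply, Pi.sub_apply, dv_apply,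
    Derivation.leibniz_div, smul_eq_mul]
  by_cases h : x i = 0
  · simp [h]
  · field_simp
    ring

/-- Two vector valued forms side by side. -/
def fsum (ω : Der K →ₗ[K] ι → K) (ω' : Der K →ₗ[K] κ → K) : Der K →ₗ[K] ι ⊕ κ → K where
  toFun D := Sum.elim (ω D) (ω' D)
  map_add' _ _ := funext fun i => by cases i <;> simp
  map_smul' _ _ := funext fun i => by cases i <;> simp

theorem fsum_apply (ω : Der K →ₗ[K] ι → K) (ω' : Der K →ₗ[K] κ → K) (D : Der K) :
    fsum ω ω' D = Sum.elim (ω D) (ω' D) := rfl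

theorem Closed.fsum {ω : Der K →ₗ[K] ι → K} {ω' : Der K →ₗ[K] κ → K} (h : Closed F ω)
    (h' : Closed F ω') : Closed F (fsum ω ω') := fun X hX Y hY => funext fun i => by
  cases i with
  | inl i => exact congrFun (h X hX Y hY) i
  | inr i => exact congrFun (h' X hX Y hY) i

/-- The common constants of a set of derivations. -/
def csts (Δ : Set (Der K)) : Subfield K := ⨅ D ∈ Δ, cst D

theorem mem_csts {Δ : Set (Der K)} {x : K} : x ∈ csts Δ ↔ ∀ D ∈ Δ, D x = 0 := by
  simp [csts, Subfield.mem_iInf, mem_cst]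

theorem mem_kil_csts {Δ : Set (Der K)} (h : D ∈ Δ) : D ∈ kil (csts Δ : Set K) :=
  fun _ hx => mem_csts.1 hx D h

theorem subset_csts {Δ : Set (Der K)} : F ⊆ csts Δ ↔ Δ ⊆ kil F :=
  ⟨fun h D hD _ hx => mem_csts.1 (h hx) D hD, fun h x hx => mem_csts.2 fun _ hD => h hD x hx⟩

/-- Ax's lemma: the values of a closed form with constant values on `Δ` on the derivations that
kill the constants of `Δ` form a space defined over the constants. -/
theorem axl [Finite ι] {ω : Der K →ₗ[K] ι → K} {Δ : Set (Der K)} (hc : Closed (csts Δ) ω)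
    (hΔ : ∀ D ∈ Δ, ∀ i, ω D i ∈ csts Δ) : Ov (csts Δ) ((kil (csts Δ : Set K)).map ω) := by
  refine ov_of_der (Δ := Δ) ?_ fun _ => mem_csts.2
  rintro D hD _ ⟨X, hX, rfl⟩
  refine ⟨⁅D, X⁆, lie_kil (mem_kil_csts hD) hX, ?_⟩
  rw [hc D (mem_kil_csts hD) X hX, show dv (ω D) X = 0 from funext fun i => hX _ (hΔ D hD i),
    sub_zero]

variable [CharZero K]

@[simp] theorem acl_csts (Δ : Set (Der K)) : acl (csts Δ : Set K) = csts Δ :=
  le_antisymm (fun _ hx => mem_csts.2 fun _ hD => acl_le_cst (mem_kil_csts hD) hx) (subset_acl _)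

theorem csts_kil (F : Set K) : csts (kil F : Set (Der K)) = acl F :=
  Subfield.ext fun _ => mem_csts.trans mem_acl_iff_der.symm

theorem csts_le_acl {Δ : Set (Der K)} (h : (kil F : Set (Der K)) ⊆ Δ) : csts Δ ≤ acl F :=
  fun _ hx => mem_acl_iff_der.2 fun D hD => mem_csts.1 hx D (h hD)

/-- The values of a closed form supported on `S` form a space defined over `F(S)`. -/
theorem Closed.ov [Finite ι] {ω : Der K →ₗ[K] ι → K} (hc : Closed F ω)
    (hS : ∀ X ∈ kil (F ∪ S), ω X = 0) : Ov (acl (F ∪ S)) ((kil F).map ω) := by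
  refine ov_iff_der.2 ?_
  rintro D hD _ ⟨X, hX, rfl⟩
  have h1 := kil_anti subset_union_left hD
  refine ⟨⁅D, X⁆, lie_kil h1 hX, ?_⟩
  rw [hc D h1 X hX, hS D hD, show dv (0 : ι → K) X = 0 from funext fun _ => map_zero X, sub_zero]

theorem ov_map_dv [Finite ι] (F : Set K) (z : ι → K) :
    Ov (acl (F ∪ range z)) ((kil F).map (dv z)) :=
  (closed_dv F z).ov fun _ hX => dv_eq_zero.2 (kil_anti subset_union_right hX)

/-- A derivation over `F` agrees on `S` with a derivation over a free extension of `F`. -/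
theorem Free.exists_der (h : Free F S F') (hS : S.Finite) (hX : X ∈ kil F) :
    ∃ Y ∈ kil (F ∪ F'), ∀ s ∈ S, Y s = X s := by
  have := hS.to_subtype
  have : FiniteDimensional K (S → K) := Module.Finite.pi
  have h1 : (kil (F ∪ F')).map (dv ((↑) : S → K)) = (kil F).map (dv ((↑) : S → K)) :=
    Submodule.eq_of_le_of_finrank_le (Submodule.map_mono (kil_anti subset_union_left)) (by
      rw [finrank_map_dv, finrank_map_dv, Subtype.range_coe, h S subset_rfl hS])
  obtain ⟨Y, hY, e⟩ := h1.ge ⟨X, hX, rfl⟩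
  exact ⟨Y, hY, fun s hs => congrFun e ⟨s, hs⟩⟩

/-- The values of a form supported on `S` do not change under a free extension of the base. -/
theorem Free.map_kil {W : Type} [AddCommGroup W] [Module K W] (h : Free F S F') (hS : S.Finite)
    (Φ : Der K →ₗ[K] W) (hΦ : ∀ X ∈ kil (F ∪ S), Φ X = 0) :
    (kil (F ∪ F')).map Φ = (kil F).map Φ := by
  refine le_antisymm (Submodule.map_mono (kil_anti subset_union_left)) ?_
  rintro _ ⟨X, hX, rfl⟩
  obtain ⟨Y, hY, e⟩ := h.exists_der hS hX
  refine ⟨Y, hY, sub_eq_zero.1 ((map_sub Φ Y X).symm.trans (hΦ _ ?_))⟩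
  rw [kil_union]
  exact ⟨sub_mem (kil_anti subset_union_left hY) hX, fun s hs => sub_eq_zero.2 (e s hs)⟩

theorem finrank_map_le_trd {W : Type} [AddCommGroup W] [Module K W] (hS : S.Finite)
    (Φ : Der K →ₗ[K] W) (hΦ : ∀ X ∈ kil (F ∪ S), Φ X = 0) :
    Module.Finite K ((kil F).map Φ) ∧ finrank K ((kil F).map Φ) ≤ trd F S := by
  have := hS.to_subtype
  have : FiniteDimensional K (S → K) := Module.Finite.pi
  let e := (dv ((↑) : S → K)).domRestrict (kil F)
  have hk : LinearMap.ker e ≤ LinearMap.ker (Φ.domRestrict (kil F)) := fun X hX => hΦ _ (by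
    rw [kil_union]
    exact ⟨X.2, fun s hs => congrFun hX ⟨s, hs⟩⟩)
  have h1 : finrank K (kil F ⧸ LinearMap.ker e) = trd F S := by
    rw [(LinearMap.quotKerEquivRange e).finrank_eq, LinearMap.range_domRestrict, finrank_map_dv,
      Subtype.range_coe]
  have : Module.Finite K (kil F ⧸ LinearMap.ker e) :=
    Module.Finite.equiv (LinearMap.quotKerEquivRange e).symm
  rw [← LinearMap.range_domRestrict, ← Submodule.range_liftQ _ _ hk, ← h1]
  exact ⟨inferInstance, LinearMap.finrank_range_le _⟩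

omit [CharZero K] in
theorem der_sum_apply (s : Finset κ) (c : κ → K) (E : κ → Der K) (x : K) :
    (∑ l ∈ s, c l • E l) x = ∑ l ∈ s, c l * E l x := by
  simpa using congrFun (map_sum (dv fun _ : Unit => x) (fun l => c l • E l) s) ()

omit [CharZero K] in
/-- Correction of a derivation by derivations dual to `y`. -/
theorem exists_kil_union [Fintype κ] [DecidableEq κ] {W : Type} [AddCommGroup W] [Module K W]
    (Φ : Der K →ₗ[K] W) {y : κ → K} {E : κ → Der K} (hE : ∀ l, E l ∈ kil F)
    (hy : ∀ l m, E l (y m) = if l = m then 1 else 0) (h0 : ∀ l, Φ (E l) = 0) :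
    (kil (F ∪ range y)).map Φ = (kil F).map Φ := by
  refine le_antisymm (Submodule.map_mono (kil_anti subset_union_left)) ?_
  rintro _ ⟨X, hX, rfl⟩
  refine ⟨X - ∑ l, X (y l) • E l, ?_, by simp [h0]⟩
  rw [SetLike.mem_coe, kil_union]
  refine ⟨sub_mem hX (sum_mem fun l _ => Submodule.smul_mem _ _ (hE l)),
    forall_mem_range.2 fun m => ?_⟩
  simp [der_sum_apply, hy]

theorem trd_of_dual [Fintype κ] [DecidableEq κ] {y : κ → K} {E : κ → Der K}
    (hE : ∀ l, E l ∈ kil F) (hy : ∀ l m, E l (y m) = if l = m then 1 else 0) :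
    trd F (range y) = Fintype.card κ := by
  rw [← finrank_map_dv, ← finrank_fintype_fun_eq_card K, ← finrank_top K (κ → K)]
  refine congrArg (fun W : Submodule K (κ → K) => finrank K W) (eq_top_iff.2 fun c _ => ?_)
  refine ⟨∑ l, c l • E l, sum_mem fun l _ => Submodule.smul_mem _ _ (hE l), funext fun m => ?_⟩
  simp [der_sum_apply, hy]

/-- The rank bound: derivations dual to `y` in the kernel of a form supported on `S`. -/
theorem card_add_finrank_le [Fintype κ] [DecidableEq κ] {W : Type} [AddCommGroup W] [Module K W]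
    (hS : S.Finite) (Φ : Der K →ₗ[K] W) (hΦ : ∀ X ∈ kil (F ∪ S), Φ X = 0) {y : κ → K}
    {E : κ → Der K} (hE : ∀ l, E l ∈ kil F) (hy : ∀ l m, E l (y m) = if l = m then 1 else 0)
    (h0 : ∀ l, Φ (E l) = 0) :
    Fintype.card κ + finrank K ((kil F).map Φ) ≤ trd F (range y ∪ S) := by
  rw [trd_union (finite_range y) hS, trd_of_dual hE hy, ← exists_kil_union Φ hE hy h0]
  exact Nat.add_le_add_left (finrank_map_le_trd hS Φ fun X hX => hΦ X
    (kil_anti (union_subset_union_left _ subset_union_left) hX)).2 _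

end Pool.Agent.P.MP_f17f76_ag.E
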