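import Pool.Agent.P.MP_f17f76_ag.E.Der

/-!
Subspaces of `K^ι` that are defined over a subfield; annihilators, hulls and cores.
-/

namespace Pool.Agent.P.MP_f17f76_ag.E

open Set Module Function

variable {K : Type} [Field K] {ι κ : Type} {k k' : Subfield K} {F : Set K}
  {R R' : Submodule K (ι → K)} {x : ι → K}

/-- `R` is spanned by its vectors with entries in `k`. -/
def Ov (k : Subfield K) (R : Submodule K (ι → K)) : Prop :=
  R ≤ Submodule.span K {x | x ∈ R ∧ ∀ i, x i ∈ k}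

/-- Vectors of `R` of minimal support with an entry equal to one. -/
def circ (R : Submodule K (ι → K)) : Set (ι → K) :=
  {x | x ∈ R ∧ (∃ i, x i = 1) ∧ ∀ y ∈ R, support y ⊂ support x → y = 0}

theorem Ov.mono (h : Ov k R) (hk : k ≤ k') : Ov k' R :=
  h.trans (Submodule.span_mono fun _ hx => ⟨hx.1, fun i => hk (hx.2 i)⟩)

theorem ov_span {s : Set (ι → K)} (h : ∀ x ∈ s, ∀ i, x i ∈ k) : Ov k (Submodule.span K s) :=
  Submodule.span_mono fun x hx => ⟨Submodule.subset_span hx, h x hx⟩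

theorem Ov.span_eq (h : Ov k R) : Submodule.span K {x | x ∈ R ∧ ∀ i, x i ∈ k} = R :=
  le_antisymm (Submodule.span_le.2 fun _ hx => hx.1) h

theorem ov_bot : Ov k (⊥ : Submodule K (ι → K)) := bot_le

theorem ov_top' : Ov ⊤ R := fun _ hx => Submodule.subset_span ⟨hx, fun _ => trivial⟩

theorem Ov.sup (h : Ov k R) (h' : Ov k R') : Ov k (R ⊔ R') :=
  sup_le (h.trans (Submodule.span_mono fun _ hx => ⟨Submodule.mem_sup_left hx.1, hx.2⟩))
    (h'.trans (Submodule.span_mono fun _ hx => ⟨Submodule.mem_sup_right hx.1, hx.2⟩))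

/-- A statement that is linear in `x` is checked on the vectors with entries in `k`. -/
theorem Ov.le_of (h : Ov k R) (h' : ∀ x ∈ R, (∀ i, x i ∈ k) → x ∈ R') : R ≤ R' :=
  h.trans (Submodule.span_le.2 fun x hx => h' x hx.1 hx.2)

theorem Ov.stable (h : Ov k R) (φ : K →+ K) (hφ : ∀ c, ∀ a ∈ k, φ (c * a) = φ c * a)
    (hx : x ∈ R) : (fun i => φ (x i)) ∈ R := by
  have key : ∀ c : K, (fun i => φ (c * x i)) ∈ R := by
    refine Submodule.span_induction (p := fun x _ => ∀ c : K, (fun i => φ (c * x i)) ∈ R)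
      (fun y hy c => ?_) (fun c => ?_) (fun y z _ _ hy hz c => ?_) (fun a y _ hy c => ?_) (h hx)
    · exact (funext fun i => hφ c _ (hy.2 i) : _ = φ c • y) ▸ R.smul_mem _ hy.1
    · simp only [Pi.zero_apply, mul_zero, map_zero]
      exact R.zero_mem
    · simp only [Pi.add_apply, mul_add, map_add]
      exact R.add_mem (hy c) (hz c)
    · simpa [mul_assoc] using hy (c * a)
  simpa using key 1

theorem circ_map (φ : K →+ K) (hx : x ∈ circ R) (h : (fun i => φ (x i)) ∈ R) (j : ι) :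
    φ (x j) = φ 1 * x j := by
  obtain ⟨h1, ⟨i, hi⟩, h2⟩ := hx
  have := h2 _ (R.sub_mem h (R.smul_mem (φ 1) h1)) ⟨fun l hl h0 => hl (by simp [h0]),
    fun hl => hl (show x i ≠ 0 by simp [hi]) (by simp [hi])⟩
  exact sub_eq_zero.1 (congrFun this j)

variable [Finite ι]

theorem span_circ (R : Submodule K (ι → K)) : Submodule.span K (circ R) = R := by
  refine le_antisymm (Submodule.span_le.2 fun _ hx => hx.1) fun x hx => ?_
  induction hn : (support x).ncard using Nat.strong_induction_on generalizing x with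
  | _ n ih =>
  by_cases h0 : x = 0
  · exact h0 ▸ Submodule.zero_mem _
  obtain ⟨y, ⟨hy, hy0, hyx⟩, hm⟩ := exists_minimalFor_of_wellFoundedLT
    (fun y => y ∈ R ∧ y ≠ 0 ∧ support y ⊆ support x) (fun y => (support y).ncard)
    ⟨x, hx, h0, subset_rfl⟩
  obtain ⟨i, hi⟩ := ne_iff.1 hy0
  have hi : y i ≠ 0 := hi
  have hs : support ((y i)⁻¹ • y) = support y := by ext l; simp [hi]
  have hc : (y i)⁻¹ • y ∈ circ R := ⟨R.smul_mem _ hy, ⟨i, by simp [hi]⟩, fun z hz hzy => by
    rw [hs] at hzy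
    by_contra hz0
    have := ncard_lt_ncard hzy (toFinite _)
    exact absurd (hm ⟨hz, hz0, hzy.1.trans hyx⟩ this.le) this.not_ge⟩
  have h2 : support (x - x i • (y i)⁻¹ • y) ⊂ support x := by
    refine ⟨fun l hl (h0 : x l = 0) => hl ?_, fun hl => hl (a := i) (hyx hi) (by simp [hi])⟩
    have : y l = 0 := by_contra fun h => hyx h h0
    simp [h0, this]
  have h3 := ih _ (hn ▸ ncard_lt_ncard h2 (toFinite _)) _ (R.sub_mem hx (R.smul_mem _ hc.1)) rfl
  simpa using Submodule.add_mem _ h3 (Submodule.smul_mem _ (x i) (Submodule.subset_span hc))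

omit [Finite ι] in
theorem exists_proj (k : Subfield K) : ∃ φ : K →+ K, (∀ c, ∀ a ∈ k, φ (c * a) = φ c * a) ∧
    φ 1 = 1 ∧ ∀ c, φ c ∈ k := by
  obtain ⟨π, hπ⟩ := (Algebra.linearMap k K).exists_leftInverse_of_injective
    (LinearMap.ker_eq_bot.2 (algebraMap k K).injective)
  refine ⟨(k.subtype : k →+ K).comp (π : K →+ k), fun c a ha => ?_,
    congrArg Subtype.val (LinearMap.congr_fun hπ 1), fun c => (π c).2⟩
  rw [mul_comm c a, mul_comm _ a]
  exact congrArg Subtype.val (π.map_smul ⟨a, ha⟩ c)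

theorem ov_iff_circ : Ov k R ↔ ∀ x ∈ circ R, ∀ i, x i ∈ k := by
  refine ⟨fun h x hx j => ?_, fun h => (span_circ R) ▸ ov_span h⟩
  obtain ⟨φ, h1, h2, h3⟩ := exists_proj k
  have := circ_map φ hx (h.stable φ h1 hx.1) j
  rw [h2, one_mul] at this
  exact this ▸ h3 _

theorem ov_of_stable (h : ∀ φ : K →+ K, (∀ c, ∀ a ∈ k, φ (c * a) = φ c * a) →
    ∀ x ∈ R, (fun i => φ (x i)) ∈ R) : Ov k R := by
  refine ov_iff_circ.2 fun x hx j => ?_
  obtain ⟨φ, h1, h2, h3⟩ := exists_proj k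
  have := circ_map φ hx (h φ h1 x hx.1) j
  rw [h2, one_mul] at this
  exact this ▸ h3 _

theorem ov_top : Ov k (⊤ : Submodule K (ι → K)) := ov_of_stable fun _ _ _ _ => trivial

theorem Ov.inf (h : Ov k R) (h' : Ov k R') : Ov k (R ⊓ R') :=
  ov_of_stable fun φ hφ _ hx => ⟨h.stable φ hφ hx.1, h'.stable φ hφ hx.2⟩

theorem ov_sInf {s : Set (Submodule K (ι → K))} (h : ∀ R ∈ s, Ov k R) : Ov k (sInf s) :=
  ov_of_stable fun φ hφ _ hx => Submodule.mem_sInf.2 fun R hR =>
    (h R hR).stable φ hφ (Submodule.mem_sInf.1 hx R hR)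

theorem Ov.inf_field (h : Ov k R) (h' : Ov k' R) : Ov (k ⊓ k') R :=
  ov_iff_circ.2 fun x hx i => ⟨ov_iff_circ.1 h x hx i, ov_iff_circ.1 h' x hx i⟩

theorem finite_circ (R : Submodule K (ι → K)) : (circ R).Finite := by
  choose i hi using fun x : circ R => x.2.2.1
  refine finite_coe_iff.1 (Finite.of_injective (fun x : circ R => (i x, support x.1))
    fun x y h => Subtype.ext (sub_eq_zero.1 (x.2.2.2 _ (R.sub_mem x.2.1 y.2.1) ?_)))
  obtain ⟨h1, h2⟩ := Prod.ext_iff.1 h
  simp only at h1 h2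
  refine ⟨fun l hl h0 => hl ?_, fun hl => hl (show x.1 (i x) ≠ 0 by simp [hi]) ?_⟩
  · have : y.1 l = 0 := by_contra fun h => (h2 ▸ h : l ∈ support x.1) h0
    simp [h0, this]
  · rw [Pi.sub_apply, hi x, h1, hi y, sub_self]

/-- A finite set of generators of the field of definition of `R`. -/
def gens (R : Submodule K (ι → K)) : Set K := ⋃ x ∈ circ R, range x

theorem finite_gens (R : Submodule K (ι → K)) : (gens R).Finite :=
  (finite_circ R).biUnion fun x _ => finite_range x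

theorem ov_iff_gens : Ov k R ↔ gens R ⊆ k := by
  simp only [ov_iff_circ, gens, iUnion_subset_iff, range_subset_iff, SetLike.mem_coe]

theorem ov_gens (R : Submodule K (ι → K)) (h : gens R ⊆ acl F) : Ov (acl F) R := ov_iff_gens.2 h

/-- A basis of `R` with entries in `k`. -/
theorem Ov.exists_basis (h : Ov k R) : ∃ b : Fin (finrank K R) → ι → K,
    (∀ l i, b l i ∈ k) ∧ LinearIndependent K b ∧ Submodule.span K (range b) = R := by
  have e := h.span_eq
  obtain ⟨b, h1, h2, h3⟩ := Submodule.exists_fun_fin_finrank_span_eq K {x | x ∈ R ∧ ∀ i, x i ∈ k}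
  generalize hn : finrank K (Submodule.span K {x | x ∈ R ∧ ∀ i, x i ∈ k}) = n at b h1 h2 h3
  rw [e] at hn h2
  subst hn
  exact ⟨b, fun l => (h1 l).2, h3, h2⟩

theorem ov_of_der {Δ : Set (Der K)} (h : ∀ D ∈ Δ, ∀ x ∈ R, dv x D ∈ R)
    (hk : ∀ a, (∀ D ∈ Δ, D a = 0) → a ∈ k) : Ov k R :=
  ov_iff_circ.2 fun x hx i => hk _ fun D hD => by
    simpa using circ_map (D : K →ₗ[ℤ] K).toAddMonoidHom hx (h D hD x hx.1) i

omit [Finite ι] in
theorem Ov.der (h : Ov k R) {D : Der K} (hD : D ∈ kil (k : Set K)) (hx : x ∈ R) : dv x D ∈ R :=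
  h.stable (D : K →ₗ[ℤ] K).toAddMonoidHom (fun c a ha => by simp [hD a ha, mul_comm]) hx

theorem ov_iff_der [CharZero K] : Ov (acl F) R ↔ ∀ D ∈ kil F, ∀ x ∈ R, dv x D ∈ R :=
  ⟨fun h _ hD _ hx => h.der ((kil_acl F).ge hD) hx,
    fun h => ov_of_der h fun _ ha => mem_acl_iff_der.2 ha⟩

omit [Finite ι] in
theorem map_mulVec (φ : K →+ K) (hφ : ∀ c, ∀ a ∈ k, φ (c * a) = φ c * a) [Fintype ι]
    {M : Matrix κ ι K} (hM : ∀ i j, M i j ∈ k) (x : ι → K) :
    (fun i => φ (M.mulVec x i)) = M.mulVec fun j => φ (x j) := by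
  funext i
  simp only [Matrix.mulVec, dotProduct, map_sum]
  exact Finset.sum_congr rfl fun j _ => by rw [mul_comm, hφ _ _ (hM i j), mul_comm]

theorem Ov.comap [Fintype ι] {R : Submodule K (κ → K)} (h : Ov k R) {M : Matrix κ ι K}
    (hM : ∀ i j, M i j ∈ k) : Ov k (R.comap M.mulVecLin) :=
  ov_of_stable fun φ hφ x hx => by
    have := h.stable φ hφ hx
    rwa [Matrix.mulVecLin_apply, map_mulVec φ hφ hM] at this

omit [Finite ι] in
theorem Ov.map [Fintype ι] (h : Ov k R) {M : Matrix κ ι K} (hM : ∀ i j, M i j ∈ k) :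
    Ov k (R.map M.mulVecLin) := by
  rw [← h.span_eq, Submodule.map_span]
  refine ov_span ?_
  rintro _ ⟨x, hx, rfl⟩ i
  exact k.sum_mem fun j _ => k.mul_mem (hM i j) (hx.2 j)

/-- The smallest subspace over `k` that contains `R`. -/
def hull (k : Subfield K) (R : Submodule K (ι → K)) : Submodule K (ι → K) :=
  sInf {H | Ov k H ∧ R ≤ H}

/-- The largest subspace over `k` inside `R`. -/
def core (k : Subfield K) (R : Submodule K (ι → K)) : Submodule K (ι → K) :=
  Submodule.span K {x | x ∈ R ∧ ∀ i, x i ∈ k}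

theorem ov_hull : Ov k (hull k R) := ov_sInf fun _ h => h.1

omit [Finite ι]

theorem le_hull : R ≤ hull k R := le_sInf fun _ h => h.2

theorem hull_le (h : Ov k R') (h' : R ≤ R') : hull k R ≤ R' := sInf_le ⟨h, h'⟩

theorem ov_core : Ov k (core k R) := ov_span fun _ h => h.2

theorem core_le : core k R ≤ R := Submodule.span_le.2 fun _ h => h.1

theorem le_core (h : Ov k R') (h' : R' ≤ R) : R' ≤ core k R :=
  h.trans (Submodule.span_mono fun _ hx => ⟨h' hx.1, hx.2⟩)

section Ann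

variable [Fintype ι]

/-- The annihilator for the dot product. -/
def ann (R : Submodule K (ι → K)) : Submodule K (ι → K) where
  carrier := {a | ∀ x ∈ R, a ⬝ᵥ x = 0}
  add_mem' ha hb x hx := by rw [add_dotProduct, ha x hx, hb x hx, add_zero]
  zero_mem' x _ := zero_dotProduct x
  smul_mem' c a ha x hx := by rw [smul_dotProduct, ha x hx, smul_zero]

theorem mem_ann {a : ι → K} : a ∈ ann R ↔ ∀ x ∈ R, a ⬝ᵥ x = 0 := Iff.rfl

theorem ann_anti (h : R ≤ R') : ann R' ≤ ann R := fun _ ha x hx => ha x (h hx)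

theorem le_ann_comm : R ≤ ann R' ↔ R' ≤ ann R :=
  ⟨fun h x hx y hy => dotProduct_comm y x ▸ h hy x hx,
    fun h x hx y hy => dotProduct_comm y x ▸ h hy x hx⟩

theorem finrank_ann (R : Submodule K (ι → K)) :
    finrank K R + finrank K (ann R) = Fintype.card ι := by
  classical
  have e : ann R = R.dualAnnihilator.comap (dotProductEquiv K ι : (ι → K) →ₗ[K] _) :=
    Submodule.ext fun a => (Submodule.mem_dualAnnihilator (dotProductEquiv K ι a)).symm
  rw [e, Submodule.comap_equiv_eq_map_symm, LinearEquiv.finrank_map_eq,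
    Subspace.finrank_add_finrank_dualAnnihilator_eq, finrank_fintype_fun_eq_card]

@[simp] theorem ann_ann (R : Submodule K (ι → K)) : ann (ann R) = R :=
  (Submodule.eq_of_le_of_finrank_le (le_ann_comm.1 le_rfl) (by
    have := finrank_ann R
    have := finrank_ann (ann R)
    omega)).symm

theorem ann_le_ann : ann R ≤ ann R' ↔ R' ≤ R := by rw [le_ann_comm, ann_ann]

theorem ann_sup (R R' : Submodule K (ι → K)) : ann (R ⊔ R') = ann R ⊓ ann R' :=
  eq_of_forall_le_iff fun W => by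
    rw [le_inf_iff, le_ann_comm, sup_le_iff, le_ann_comm (R := R), le_ann_comm (R := R')]

theorem ann_inf (R R' : Submodule K (ι → K)) : ann (R ⊓ R') = ann R ⊔ ann R' := by
  rw [← ann_ann (_ ⊔ _), ann_sup, ann_ann, ann_ann]

@[simp] theorem ann_bot : ann (⊥ : Submodule K (ι → K)) = ⊤ :=
  eq_top_iff.2 (le_ann_comm.2 bot_le)

@[simp] theorem ann_top : ann (⊤ : Submodule K (ι → K)) = ⊥ := by rw [← ann_bot, ann_ann]

theorem mem_ann_span {a : ι → K} {s : Set (ι → K)} :
    a ∈ ann (Submodule.span K s) ↔ ∀ x ∈ s, a ⬝ᵥ x = 0 := by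
  refine ⟨fun h x hx => h x (Submodule.subset_span hx), fun h => ?_⟩
  have : Submodule.span K s ≤ ann (Submodule.span K {a}) := Submodule.span_le.2 fun x hx y hy => by
    obtain ⟨c, rfl⟩ := Submodule.mem_span_singleton.1 hy
    rw [dotProduct_smul, dotProduct_comm, h x hx, smul_zero]
  exact le_ann_comm.1 this (Submodule.mem_span_singleton_self a)

theorem Ov.ann (h : Ov k R) : Ov k (ann R) :=
  ov_of_stable fun φ hφ a ha => by
    rw [← h.span_eq, mem_ann_span]
    intro x hx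
    have := congrArg φ (ha x hx.1)
    rw [map_zero, dotProduct, map_sum] at this
    rw [← this]
    exact Finset.sum_congr rfl fun i _ => (hφ _ _ (hx.2 i)).symm

theorem ov_ann_iff : Ov k (ann R) ↔ Ov k R := ⟨fun h => ann_ann R ▸ h.ann, Ov.ann⟩

/-- Membership in a subspace over `k` is tested by the forms over `k`. -/
theorem Ov.mem_of_forms (h : Ov k R)
    (hx : ∀ a : ι → K, (∀ i, a i ∈ k) → (∀ y ∈ R, a ⬝ᵥ y = 0) → a ⬝ᵥ x = 0) : x ∈ R := by
  rw [← ann_ann R, ← h.ann.span_eq, mem_ann_span]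
  exact fun a ha => dotProduct_comm a x ▸ hx a ha.2 ha.1

theorem ann_hull : ann (hull k R) = core k (ann R) :=
  le_antisymm (le_core ov_hull.ann (ann_anti le_hull))
    (le_ann_comm.1 (hull_le ov_core.ann (le_ann_comm.1 core_le)))

theorem ann_core : ann (core k R) = hull k (ann R) := by
  rw [← ann_ann (hull _ _), ann_hull, ann_ann]

end Ann

end Pool.Agent.P.MP_f17f76_ag.E
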