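import Pool.Agent.P.MP_f17f76_ag.E.Aut

/-!
Places: definitions, elementary properties, operations and existence.
-/

namespace Pool.Agent.P.MP_f17f76_ag.E

open Set Cardinal

/-- A place of `K` with values in `R`. -/
structure Plc (K R : Type) [Field K] [Field R] where
  O : ValuationSubring K
  ρ : O →+* R
  ker : ∀ x : O, O.valuation x < 1 → ρ x = 0

namespace Plc

variable {K K' R R' : Type} [Field K] [Field K'] [Field R] [Field R'] (P : Plc K R)
  {x y : K} {F L : Subfield K} {S T : Set K}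

/-- The valuation, written multiplicatively. -/
noncomputable def v : Valuation K P.O.ValueGroup := P.O.valuation

open Classical in
/-- The residue map, extended by zero. -/
noncomputable def r (x : K) : R := if h : x ∈ P.O then P.ρ ⟨x, h⟩ else 0

theorem mem_iff : x ∈ P.O ↔ P.v x ≤ 1 := (P.O.valuation_le_one_iff x).symm

theorem v_surj : Function.Surjective P.v := P.O.valuation_surjective

theorem v_ne (h : x ≠ 0) : P.v x ≠ 0 := (map_ne_zero P.v).2 h

theorem v_pos (h : x ≠ 0) : 0 < P.v x := zero_lt_iff.2 (P.v_ne h)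

theorem r_coe (x : P.O) : P.r x = P.ρ x := dif_pos x.2

@[simp] theorem r_zero : P.r 0 = 0 := (P.r_coe 0).trans (map_zero _)

@[simp] theorem r_one : P.r 1 = 1 := (P.r_coe 1).trans (map_one _)

theorem v_div_le_one (hy : y ≠ 0) : P.v (x / y) ≤ 1 ↔ P.v x ≤ P.v y := by
  rw [map_div₀, div_le_one₀ (P.v_pos hy)]

theorem v_div_lt_one (hy : y ≠ 0) : P.v (x / y) < 1 ↔ P.v x < P.v y := by
  rw [map_div₀, div_lt_one₀ (P.v_pos hy)]

theorem v_inv_lt_one (hx : x ≠ 0) : P.v x⁻¹ < 1 ↔ 1 < P.v x := by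
  rw [map_inv₀, inv_lt_one₀ (P.v_pos hx)]

theorem v_inv_le_one (hx : x ≠ 0) : P.v x⁻¹ ≤ 1 ↔ 1 ≤ P.v x := by
  rw [map_inv₀, inv_le_one₀ (P.v_pos hx)]

theorem v_nat_le (n : ℕ) : P.v n ≤ 1 := P.mem_iff.1 (natCast_mem P.O n)

theorem v_int_le (n : ℤ) : P.v n ≤ 1 := P.mem_iff.1 (intCast_mem P.O n)

@[simp] theorem r_nat (n : ℕ) : P.r n = n := by simpa using P.r_coe n

@[simp] theorem r_int (n : ℤ) : P.r n = n := by simpa using P.r_coe n

variable {P}

theorem r_eq (h : P.v x ≤ 1) : P.r x = P.ρ ⟨x, P.mem_iff.2 h⟩ := dif_pos _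

theorem r_of_gt (h : 1 < P.v x) : P.r x = 0 := dif_neg fun h' => h.not_ge (P.mem_iff.1 h')

theorem r_of_lt (h : P.v x < 1) : P.r x = 0 := (r_eq h.le).trans (P.ker _ h)

theorem v_mul_le (hx : P.v x ≤ 1) (hy : P.v y ≤ 1) : P.v (x * y) ≤ 1 :=
  (map_mul _ _ _).trans_le (mul_le_one' hx hy)

theorem v_mul_lt (hx : P.v x ≤ 1) (hy : P.v y < 1) : P.v (x * y) < 1 :=
  (map_mul _ _ _).trans_lt ((mul_le_of_le_one_left' hx).trans_lt hy)

theorem v_pow_le (hx : P.v x ≤ 1) (n : ℕ) : P.v (x ^ n) ≤ 1 :=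
  (map_pow _ _ _).trans_le (pow_le_one' hx n)

theorem v_prod_le {ι : Type} {s : Finset ι} {f : ι → K} (h : ∀ i ∈ s, P.v (f i) ≤ 1) :
    P.v (∏ i ∈ s, f i) ≤ 1 := P.mem_iff.1 (prod_mem fun i hi => P.mem_iff.2 (h i hi))

theorem r_add (hx : P.v x ≤ 1) (hy : P.v y ≤ 1) : P.r (x + y) = P.r x + P.r y := by
  rw [r_eq hx, r_eq hy, ← map_add, r_eq (P.v.map_add_le hx hy)]
  rfl

theorem r_mul (hx : P.v x ≤ 1) (hy : P.v y ≤ 1) : P.r (x * y) = P.r x * P.r y := by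
  rw [r_eq hx, r_eq hy, ← map_mul, r_eq (v_mul_le hx hy)]
  rfl

theorem r_neg (x : K) : P.r (-x) = -P.r x := by
  rcases le_or_gt (P.v x) 1 with h | h
  · rw [r_eq h, ← map_neg, r_eq ((P.v.map_neg x).trans_le h)]
    rfl
  · rw [r_of_gt h, r_of_gt (h.trans_eq (P.v.map_neg x).symm), neg_zero]

theorem r_sub (hx : P.v x ≤ 1) (hy : P.v y ≤ 1) : P.r (x - y) = P.r x - P.r y := by
  rw [sub_eq_add_neg, r_add hx ((P.v.map_neg y).trans_le hy), r_neg, sub_eq_add_neg]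

theorem r_pow (hx : P.v x ≤ 1) (n : ℕ) : P.r (x ^ n) = P.r x ^ n := by
  rw [r_eq hx, ← map_pow, r_eq (v_pow_le hx n)]
  rfl

theorem r_sum {ι : Type} {s : Finset ι} {f : ι → K} (h : ∀ i ∈ s, P.v (f i) ≤ 1) :
    P.r (∑ i ∈ s, f i) = ∑ i ∈ s, P.r (f i) := by
  classical
  induction s using Finset.induction_on with
  | empty => simp
  | insert a s ha ih =>
    rw [Finset.forall_mem_insert] at h
    rw [Finset.sum_insert ha, Finset.sum_insert ha, r_add h.1 (P.v.map_sum_le h.2), ih h.2]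

theorem r_prod {ι : Type} {s : Finset ι} {f : ι → K} (h : ∀ i ∈ s, P.v (f i) ≤ 1) :
    P.r (∏ i ∈ s, f i) = ∏ i ∈ s, P.r (f i) := by
  classical
  induction s using Finset.induction_on with
  | empty => simp
  | insert a s ha ih =>
    rw [Finset.forall_mem_insert] at h
    rw [Finset.prod_insert ha, Finset.prod_insert ha, r_mul h.1 (v_prod_le h.2), ih h.2]

theorem r_ne_zero_iff : P.r x ≠ 0 ↔ P.v x = 1 := by
  refine ⟨fun h => le_antisymm (not_lt.1 fun h' => h (r_of_gt h')) (not_lt.1 fun h' =>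
    h (r_of_lt h')), fun h => left_ne_zero_of_mul_eq_one (b := P.r x⁻¹) ?_⟩
  rw [← r_mul h.le (by rw [map_inv₀, h, inv_one]), mul_inv_cancel₀ fun e => by simp [e] at h, r_one]

theorem r_eq_zero_iff (h : P.v x ≤ 1) : P.r x = 0 ↔ P.v x < 1 := by
  rw [← not_iff_not, ← ne_eq, r_ne_zero_iff, not_lt]
  exact ⟨fun e => e.ge, h.antisymm⟩

theorem r_eq_iff (hx : P.v x ≤ 1) (hy : P.v y ≤ 1) : P.r x = P.r y ↔ P.v (x - y) < 1 := by
  rw [← sub_eq_zero, ← r_sub hx hy, r_eq_zero_iff (P.v.map_sub_le hx hy)]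

theorem r_inv (x : K) : P.r x⁻¹ = (P.r x)⁻¹ := by
  by_cases h : P.v x = 1
  · refine eq_inv_of_mul_eq_one_right ?_
    rw [← r_mul h.le (by rw [map_inv₀, h, inv_one]), mul_inv_cancel₀ fun e => by simp [e] at h,
      r_one]
  · rw [not_not.1 (_root_.mt r_ne_zero_iff.1 h),
      not_not.1 (_root_.mt r_ne_zero_iff.1 (by simpa using h)), inv_zero]

theorem r_div (hx : P.v x ≤ 1) (hy : P.v y = 1) : P.r (x / y) = P.r x / P.r y := by
  rw [div_eq_mul_inv, r_mul hx (by rw [map_inv₀, hy, inv_one]), r_inv, div_eq_mul_inv]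

theorem v_det_le {n : Type} [Fintype n] [DecidableEq n] {M : Matrix n n K}
    (h : ∀ i j, P.v (M i j) ≤ 1) : P.v M.det ≤ 1 ∧ P.r M.det = (M.map P.r).det := by
  let N : Matrix n n P.O := Matrix.of fun i j => ⟨M i j, P.mem_iff.2 (h i j)⟩
  have h1 : M.det = N.det := (P.O.subtype.map_det N).symm
  rw [h1, r_coe, RingHom.map_det]
  exact ⟨P.mem_iff.1 N.det.2, congrArg _ (Matrix.ext fun i j => (r_eq (h i j)).symm)⟩

/-- The reduction of a polynomial. -/
noncomputable def rp {ι : Type} (P : Plc K R) (p : MvPolynomial ι K) : MvPolynomial ι R :=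
  .ofCoeff (Finsupp.mapRange P.r P.r_zero (AddMonoidAlgebra.coeff p))

@[simp] theorem coeff_rp {ι : Type} (p : MvPolynomial ι K) (m : ι →₀ ℕ) :
    (P.rp p).coeff m = P.r (p.coeff m) := rfl

theorem v_eval_le {ι : Type} {p : MvPolynomial ι K} {Y : ι → K} (hp : ∀ m, P.v (p.coeff m) ≤ 1)
    (hY : ∀ i, P.v (Y i) ≤ 1) : P.v (MvPolynomial.eval Y p) ≤ 1 ∧
      P.r (MvPolynomial.eval Y p) = MvPolynomial.eval (P.r ∘ Y) (P.rp p) := by
  obtain ⟨q, rfl⟩ := exists_map_eq P.O.toSubring fun m => P.mem_iff.2 (hp m)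
  let Z : ι → P.O := fun i => ⟨Y i, P.mem_iff.2 (hY i)⟩
  have h1 : MvPolynomial.eval Y (MvPolynomial.map P.O.toSubring.subtype q) =
      (MvPolynomial.eval Z q : P.O) := (MvPolynomial.map_eval P.O.toSubring.subtype Z q).symm
  have h2 : P.rp (MvPolynomial.map P.O.toSubring.subtype q) = MvPolynomial.map P.ρ q :=
    MvPolynomial.ext _ _ fun m => by
      rw [coeff_rp, MvPolynomial.coeff_map, MvPolynomial.coeff_map]
      exact P.r_coe _
  rw [h1, h2, r_coe, MvPolynomial.map_eval P.ρ Z q]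
  exact ⟨P.mem_iff.1 (Subtype.prop _), congrArg (MvPolynomial.eval · _)
    (funext fun i => (r_eq (hY i)).symm)⟩

theorem v_nat [CharZero R] {n : ℕ} (h : n ≠ 0) : P.v n = 1 :=
  r_ne_zero_iff.1 (by simpa using h)

theorem v_int [CharZero R] {n : ℤ} (h : n ≠ 0) : P.v n = 1 :=
  r_ne_zero_iff.1 (by simpa using h)

theorem v_rat [CharZero R] {q : ℚ} (h : q ≠ 0) : P.v q = 1 := by
  rw [Rat.cast_def, map_div₀, v_int (Rat.num_ne_zero.2 h), v_nat q.den_ne_zero, div_one]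

theorem v_rat_le [CharZero R] (q : ℚ) : P.v q ≤ 1 := by
  rcases eq_or_ne q 0 with rfl | h
  exacts [by simp, (v_rat h).le]

theorem r_rat [CharZero R] (q : ℚ) : P.r q = q := by
  rw [Rat.cast_def, r_div (P.v_int_le _) (v_nat q.den_ne_zero), r_int, r_nat, Rat.cast_def]

variable (P)

/-- The residue field of a subfield. -/
def res (F : Subfield K) : Subfield R where
  carrier := P.r '' F
  mul_mem' := by
    rintro _ _ ⟨a, ha, rfl⟩ ⟨b, hb, rfl⟩
    rcases le_or_gt (P.v a) 1 with h | h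
    · rcases le_or_gt (P.v b) 1 with h' | h'
      · exact ⟨a * b, mul_mem ha hb, r_mul h h'⟩
      · exact ⟨0, zero_mem F, by simp [r_of_gt h']⟩
    · exact ⟨0, zero_mem F, by simp [r_of_gt h]⟩
  one_mem' := ⟨1, one_mem F, P.r_one⟩
  add_mem' := by
    rintro _ _ ⟨a, ha, rfl⟩ ⟨b, hb, rfl⟩
    rcases le_or_gt (P.v a) 1 with h | h
    · rcases le_or_gt (P.v b) 1 with h' | h'
      · exact ⟨a + b, add_mem ha hb, r_add h h'⟩
      · exact ⟨a, ha, by simp [r_of_gt h']⟩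
    · exact ⟨b, hb, by simp [r_of_gt h]⟩
  zero_mem' := ⟨0, zero_mem F, P.r_zero⟩
  neg_mem' := by
    rintro _ ⟨a, ha, rfl⟩
    exact ⟨-a, neg_mem ha, r_neg a⟩
  inv_mem' := by
    rintro _ ⟨a, ha, rfl⟩
    exact ⟨a⁻¹, inv_mem ha, r_inv a⟩

/-- All elements of `S` are integral. -/
def Triv (S : Set K) : Prop := ∀ x ∈ S, P.v x ≤ 1

/-- The elements of `S` are integral with residue given by `φ`. -/
def Lifts (φ : K → R) (S : Set K) : Prop := ∀ x ∈ S, P.v x ≤ 1 ∧ P.r x = φ x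

/-- The residue map is the identity on `S`. -/
abbrev IdOn (P : Plc K K) (S : Set K) : Prop := P.Lifts (fun x => x) S

/-- Two places agree on `S`. -/
def Agree (Q : Plc K R) (S : Set K) : Prop := ∀ x ∈ S, (P.v x ≤ 1 ↔ Q.v x ≤ 1) ∧ P.r x = Q.r x

/-- The family `Y` is integral with independent residues over the residue field of `F`. -/
def Gauss {ι : Type} (F : Subfield K) (Y : ι → K) : Prop :=
  (∀ i, P.v (Y i) ≤ 1) ∧ Ind (P.res F : Set R) (P.r ∘ Y)

/-- `L` is residually full over `F`: it is algebraic over `F` and a Gauss family. -/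
def Full (F L : Subfield K) : Prop :=
  F ≤ L ∧ ∃ B ⊆ (L : Set K), P.Gauss F ((↑) : B → K) ∧ L ≤ acl (F ∪ B)

/-- The derivation `D` is contractive on `S`. -/
def Ctr (D : Der K) (S : Set K) : Prop := ∀ x ∈ S, P.v (D x) ≤ P.v x

variable {P} {Q : Plc K R} {φ : K → R}

theorem mem_res {y : R} : y ∈ P.res F ↔ ∃ x ∈ F, P.v x ≤ 1 ∧ P.r x = y := by
  refine ⟨fun ⟨x, hx, e⟩ => ?_, fun ⟨x, hx, _, e⟩ => ⟨x, hx, e⟩⟩
  rcases le_or_gt (P.v x) 1 with h | h
  exacts [⟨x, hx, h, e⟩, ⟨0, zero_mem F, by simp, by rw [← e, r_of_gt h, r_zero]⟩]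

theorem r_mem_res (h : x ∈ F) : P.r x ∈ P.res F := ⟨x, h, rfl⟩

theorem coe_res : (P.res F : Set R) = P.r '' F := rfl

theorem res_mono (h : F ≤ L) : P.res F ≤ P.res L := image_mono h

theorem countable_res (h : (F : Set K).Countable) : (P.res F : Set R).Countable := h.image _

theorem Triv.mono (h : P.Triv T) (h' : S ⊆ T) : P.Triv S := fun x hx => h x (h' hx)

theorem Triv.v_eq (h : P.Triv F) (hx : x ∈ F) (h0 : x ≠ 0) : P.v x = 1 :=
  (h x hx).antisymm ((P.v_inv_le_one h0).1 (h _ (inv_mem hx)))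

theorem Lifts.mono (h : P.Lifts φ T) (h' : S ⊆ T) : P.Lifts φ S := fun x hx => h x (h' hx)

theorem Lifts.triv (h : P.Lifts φ S) : P.Triv S := fun x hx => (h x hx).1

theorem Lifts.union (h : P.Lifts φ S) (h' : P.Lifts φ T) : P.Lifts φ (S ∪ T) :=
  fun x hx => hx.elim (h x) (h' x)

theorem Lifts.res (h : P.Lifts φ F) : (P.res F : Set R) = φ '' F :=
  image_congr fun x hx => (h x hx).2

theorem IdOn.res {P : Plc K K} (h : P.IdOn F) : P.res F = F :=
  SetLike.coe_injective ((Lifts.res h).trans (image_id' _))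

theorem IdOn.le_res {P : Plc K K} (h : P.IdOn S) (h' : S ⊆ F) : S ⊆ P.res F :=
  fun x hx => ⟨x, h' hx, (h x hx).2⟩

/-- A place that lifts an embedding on a set lifts it on the generated field. -/
theorem Lifts.closure {φ : K →+* R} (h : P.Lifts φ S) : P.Lifts φ (Subfield.closure S) := by
  have h1 : ∀ x ∈ Subring.closure S, P.v x ≤ 1 ∧ P.r x = φ x := fun x hx => by
    induction hx using Subring.closure_induction with
    | mem x hx => exact h x hx
    | zero => simp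
    | one => simp
    | add x y _ _ hx hy => exact ⟨P.v.map_add_le hx.1 hy.1, by rw [r_add hx.1 hy.1, hx.2, hy.2, map_add]⟩
    | neg x _ hx => exact ⟨(P.v.map_neg x).trans_le hx.1, by rw [r_neg, hx.2, map_neg]⟩
    | mul x y _ _ hx hy => exact ⟨v_mul_le hx.1 hy.1, by rw [r_mul hx.1 hy.1, hx.2, hy.2, map_mul]⟩
  intro x hx
  obtain ⟨a, ha, b, hb, rfl⟩ := Subfield.mem_closure_iff.1 hx
  rcases eq_or_ne b 0 with rfl | h0
  · simp
  have h2 : P.v b = 1 := r_ne_zero_iff.1 (by rw [(h1 b hb).2]; exact (map_ne_zero φ).2 h0)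
  exact ⟨(P.v_div_le_one h0).2 ((h1 a ha).1.trans h2.ge), by
    rw [r_div (h1 a ha).1 h2, (h1 a ha).2, (h1 b hb).2, map_div₀]⟩

theorem IdOn.closure {P : Plc K K} (h : P.IdOn S) : P.IdOn (Subfield.closure S) :=
  Lifts.closure (φ := RingHom.id K) h

theorem Agree.refl (P : Plc K R) (S : Set K) : P.Agree P S := fun _ _ => ⟨Iff.rfl, rfl⟩

theorem Agree.symm (h : P.Agree Q S) : Q.Agree P S := fun x hx => ⟨(h x hx).1.symm, (h x hx).2.symm⟩

theorem Agree.trans {Q' : Plc K R} (h : P.Agree Q S) (h' : Q.Agree Q' S) : P.Agree Q' S :=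
  fun x hx => ⟨(h x hx).1.trans (h' x hx).1, (h x hx).2.trans (h' x hx).2⟩

theorem Agree.mono (h : P.Agree Q T) (h' : S ⊆ T) : P.Agree Q S := fun x hx => h x (h' hx)

theorem Agree.lt_one (h : P.Agree Q S) (hx : x ∈ S) : P.v x < 1 ↔ Q.v x < 1 :=
  ⟨fun e => (r_eq_zero_iff ((h x hx).1.1 e.le)).1 ((h x hx).2 ▸ r_of_lt e),
    fun e => (r_eq_zero_iff ((h x hx).1.2 e.le)).1 ((h x hx).2.symm ▸ r_of_lt e)⟩

theorem Agree.eq_one (h : P.Agree Q S) (hx : x ∈ S) : P.v x = 1 ↔ Q.v x = 1 := by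
  rw [← r_ne_zero_iff, ← r_ne_zero_iff, (h x hx).2]

theorem Agree.le (h : P.Agree Q F) (hx : x ∈ F) (hy : y ∈ F) : P.v x ≤ P.v y ↔ Q.v x ≤ Q.v y := by
  rcases eq_or_ne y 0 with rfl | h0
  · simp
  rw [← P.v_div_le_one h0, ← Q.v_div_le_one h0, (h _ (div_mem hx hy)).1]

theorem Agree.lt (h : P.Agree Q F) (hx : x ∈ F) (hy : y ∈ F) : P.v x < P.v y ↔ Q.v x < Q.v y :=
  lt_iff_lt_of_le_iff_le (h.le hy hx)

theorem Agree.res (h : P.Agree Q L) (h' : F ≤ L) : P.res F = Q.res F :=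
  SetLike.coe_injective (image_congr fun x hx => (h x (h' hx)).2)

theorem Agree.lifts (h : P.Agree Q S) (h' : P.Lifts φ S) : Q.Lifts φ S :=
  fun x hx => ⟨(h x hx).1.1 (h' x hx).1, (h x hx).2.symm.trans (h' x hx).2⟩

/-- Agreement on a field follows from domination. -/
theorem agree_of_lifts (h : ∀ x ∈ F, P.v x ≤ 1 → Q.v x ≤ 1 ∧ Q.r x = P.r x) : P.Agree Q F := by
  intro x hx
  rcases le_or_gt (P.v x) 1 with h1 | h1
  · exact ⟨iff_of_true h1 (h x hx h1).1, (h x hx h1).2.symm⟩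
  have h0 : x ≠ 0 := fun e => by simp [e] at h1
  have h2 := (P.v_inv_lt_one h0).2 h1
  have h3 := h _ (inv_mem hx) h2.le
  have h4 := (Q.v_inv_lt_one h0).1 ((r_eq_zero_iff h3.1).1 (h3.2.trans (r_of_lt h2)))
  exact ⟨iff_of_false h1.not_ge h4.not_ge, by rw [r_of_gt h1, r_of_gt h4]⟩

theorem Ctr.mono {D : Der K} (h : P.Ctr D T) (h' : S ⊆ T) : P.Ctr D S := fun x hx => h x (h' hx)

theorem ctr_of_kil {D : Der K} (h : D ∈ kil S) : P.Ctr D S := fun x hx => by simp [h x hx]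

theorem Ctr.add {D D' : Der K} (h : P.Ctr D S) (h' : P.Ctr D' S) : P.Ctr (D + D') S :=
  fun x hx => P.v.map_add_le (h x hx) (h' x hx)

theorem Ctr.sub {D D' : Der K} (h : P.Ctr D S) (h' : P.Ctr D' S) : P.Ctr (D - D') S :=
  fun x hx => P.v.map_sub_le (h x hx) (h' x hx)

theorem Ctr.smul {D : Der K} (h : P.Ctr D S) {c : K} (hc : P.v c ≤ 1) : P.Ctr (c • D) S :=
  fun x hx => (map_mul _ _ _).trans_le ((mul_le_of_le_one_left' hc).trans (h x hx))

theorem Ctr.sum {ι : Type} {s : Finset ι} {D : ι → Der K} (h : ∀ i ∈ s, P.Ctr (D i) S) :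
    P.Ctr (∑ i ∈ s, D i) S :=
  Finset.sum_induction _ (P.Ctr · S) (fun _ _ => Ctr.add) (ctr_of_kil (zero_mem _)) h

theorem Agree.ctr {D : Der K} (h : P.Agree Q L) (hS : S ⊆ L) (hD : ∀ x ∈ S, D x ∈ L)
    (h' : P.Ctr D S) : Q.Ctr D S := fun x hx => (h.le (hD x hx) (hS hx)).1 (h' x hx)

theorem Agree.gauss {ι : Type} {Y : ι → K} (h : P.Agree Q S) (hF : (F : Set K) ⊆ S)
    (hY : ∀ i, Y i ∈ S) (h' : P.Gauss F Y) : Q.Gauss F Y :=
  ⟨fun i => (h _ (hY i)).1.1 (h'.1 i), by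
    rw [← (h.mono hF).res le_rfl, ← show P.r ∘ Y = Q.r ∘ Y from funext fun i => (h _ (hY i)).2]
    exact h'.2⟩

end Plc

end Pool.Agent.P.MP_f17f76_ag.E
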