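import Pool.Agent.P.MP_f17f76_ag.E.Clo
import Pool.Agent.P.MP_f17f76_ag.E.Plc
import Pool.Agent.P.MP_f17f76_ag.E.Ov

/-!
Pairings of invariant forms with derivations, nondegeneracy and reduction of points: definitions.
-/

namespace Pool.Agent.P.MP_f17f76_ag.AbVar

open Set Module E

variable {g N : ℕ} (A : AbVar g N) {ι κ : Type}

/-- Affine coordinates of `exp w` in the chart `i`. -/
noncomputable def aff (i : Fin N) (w : Fin g → ℂ) : Fin N → ℂ := (A.θ w i)⁻¹ • A.θ w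

/-- The values of the forms `θ j` on the logarithmic derivative of the point `a`. -/
noncomputable def pv (θ : κ → Fin g → ℂ) (a : Fin g → ℂ) : Der ℂ →ₗ[ℂ] (κ → ℂ) where
  toFun D j := θ j ⬝ᵥ A.dl a D
  map_add' D D' := by funext j; simp [dotProduct_add]
  map_smul' c D := by funext j; simp [dotProduct_smul]

theorem pv_apply (θ : κ → Fin g → ℂ) (a : Fin g → ℂ) (D : Der ℂ) (j : κ) :
    A.pv θ a D j = θ j ⬝ᵥ A.dl a D := rfl

/-- The forms `θ j` take arbitrary values on the derivations over `F`. -/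
def Pair (F : Set ℂ) (a : Fin g → ℂ) (θ : κ → Fin g → ℂ) : Prop :=
  ∀ c : κ → ℂ, ∃ D ∈ kil F, A.pv θ a D = c

/-- The thin derivations over `F`. -/
noncomputable def thin (F : Set ℂ) (a : Fin g → ℂ) (θ : κ → Fin g → ℂ) : Submodule ℂ (Der ℂ) :=
  kil F ⊓ LinearMap.ker (A.pv θ a)

theorem mem_thin {F : Set ℂ} {a : Fin g → ℂ} {θ : κ → Fin g → ℂ} {D : Der ℂ} :
    D ∈ A.thin F a θ ↔ D ∈ kil F ∧ A.pv θ a D = 0 := Iff.rfl

/-- The forms `n du` (`n ∈ R`) and `θ j` are a basis of the differentials of `F(u, a)` over `F`. -/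
structure Ndg [Fintype ι] [Fintype κ] (R : Submodule ℂ (ι → ℂ)) (F : Set ℂ) (u : ι → ℂ)
    (a : Fin g → ℂ) (θ : κ → Fin g → ℂ) : Prop where
  le : trd F (range u ∪ range (A.crd a)) ≤ finrank ℂ R + Fintype.card κ
  ex : ∀ (φ : R →ₗ[ℂ] ℂ) (c : κ → ℂ), ∃ D ∈ kil F,
    (∀ n : R, n.1 ⬝ᵥ dv u D = φ n) ∧ A.pv θ a D = c

/-- The point `a` reduces to the point `b` at the place `P`. -/
def Red (P : Plc ℂ ℂ) (a b : Fin g → ℂ) : Prop :=
  ∃ i, A.θ b i ≠ 0 ∧ ∀ j, P.v (A.aff i a j) ≤ 1 ∧ P.r (A.aff i a j) = A.aff i b j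

end Pool.Agent.P.MP_f17f76_ag.AbVar
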