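import Pool.Agent.P.MP_f17f76_ag.E.AxS
import Pool.Agent.P.MP_f17f76_ag.E.Nd

/-!
Ax-Schanuel in terms of pairings; regularity of invariant forms at places.
-/

namespace Pool.Agent.P.MP_f17f76_ag.AbVar

open Module E Set Matrix

variable {g N : ℕ} {A : AbVar g N} {k : Subfield ℂ}
  {F : Set ℂ} {a : Fin g → ℂ} {ι κ : Type} {Δ : Set (Der ℂ)} {D : Der ℂ}

theorem of_mulVec_eq_zero {θ : κ → Fin g → ℂ} {v : Fin g → ℂ} :
    of θ *ᵥ v = 0 ↔ v ∈ ann (Submodule.span ℂ (range θ)) :=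
  SetLike.ext_iff.1 (ker_mulVecLin_of θ) v

theorem pv_zero_iff {θ : κ → Fin g → ℂ} :
    A.pv θ a D = 0 ↔ A.dl a D ∈ ann (Submodule.span ℂ (range θ)) := of_mulVec_eq_zero

theorem exists_mulVec_eq [Fintype κ] {θ : κ → Fin g → ℂ} (h : LinearIndependent ℂ θ) (c : κ → ℂ) :
    ∃ v, of θ *ᵥ v = c := by
  have h1 := finrank_map_add_inf_ann _ (ker_mulVecLin_of θ) ⊤
  rw [ann_top, inf_bot_eq, finrank_bot, finrank_span_eq_card h, add_zero,
    ← finrank_fintype_fun_eq_card ℂ] at h1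
  obtain ⟨v, -, e⟩ := (Submodule.eq_top_of_finrank_eq h1).ge (Submodule.mem_top (x := c))
  exact ⟨v, e⟩

/-- Ax-Schanuel as a pairing. -/
theorem Over.as_pair [Fintype κ] [Fintype ι] [DecidableEq ι] (h : A.Over k) (hG : A.Gen k)
    (hF : F.Countable) (hk : (k : Set ℂ) ⊆ acl F) {θ : κ → Fin g → ℂ} (hθ : ∀ j i, θ j i ∈ acl F)
    (hi : LinearIndependent ℂ θ) (hΔ : ∀ D ∈ Δ, D ∈ A.thin F a θ)
    (hU : ∀ U, A.IsLie U → (∀ D ∈ Δ, A.pr U (A.dl a D) = 0) →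
      Submodule.span ℂ (range θ) ⊓ A.du U = ⊥) {y : ι → ℂ} {E : ι → Der ℂ}
    (hE : ∀ l, E l ∈ A.thin F a θ) (hy : ∀ l m, E l (y m) = if l = m then 1 else 0) :
    A.Pair (F ∪ range y) a θ := by
  intro c
  obtain ⟨v, rfl⟩ := exists_mulVec_eq hi c
  have h0 : ∀ D : Der ℂ, A.dl a D - dv (0 : Fin g → ℂ) D = A.dl a D := fun D =>
    sub_eq_self.2 (funext fun _ => map_zero D)
  obtain ⟨X, hX, e⟩ := h.as_kil (Δ := Δ) (a := a) (v := v) hG hF hk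
    (ov_span (forall_mem_range.2 hθ)) 0
    (fun D hD => ⟨(hΔ D hD).1, (h0 D).symm ▸ pv_zero_iff.1 (hΔ D hD).2⟩)
    (fun l => ⟨(hE l).1, (h0 _).symm ▸ pv_zero_iff.1 (hE l).2⟩) hy (by
      rw [rh_sup_eq_top fun U h1 h2 => hU U h1 (forall_mem_image.1 h2)]
      trivial)
  rw [h0, ← of_mulVec_eq_zero, mulVec_sub, sub_eq_zero] at e
  exact ⟨X, hX, e⟩

/-- Invariant forms are regular at every place. -/
theorem Over.dl_lt_one (h : A.Over k) {P : Plc ℂ ℂ} (hP : P.IdOn k) (hD : D ∈ kil (k : Set ℂ))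
    {L : Subfield ℂ} (ha : ∀ j, A.crd a j ∈ L) (hL : ∀ f ∈ L, P.v f ≤ 1 → P.v (D f) < 1)
    (i : Fin g) : P.v (A.dl a D i) < 1 := by
  obtain ⟨j₀, hj₀⟩ := Function.ne_iff.1 (A.crd_ne_zero a)
  obtain ⟨j, -, hj⟩ := Finset.exists_max_image Finset.univ (fun j => P.v (A.crd a j))
    ⟨j₀, Finset.mem_univ _⟩
  have h0 : A.crd a j ≠ 0 := fun e => (P.v_pos hj₀).not_ge (by simpa [e] using hj j₀ (by simp))
  have e : ∀ l, (((A.crd a j)⁻¹ * (piv (A.θ a))⁻¹) • A.θ a) l = A.crd a l / A.crd a j := fun l => by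
    rw [mul_smul, ← crd_eq, Pi.smul_apply, smul_eq_mul, div_eq_inv_mul]
  have h1 : ∀ l, P.v (A.crd a l / A.crd a j) ≤ 1 := fun l =>
    (P.v_div_le_one h0).2 (hj l (by simp))
  have r0 : ∀ y, (P.v 0 ≤ 1 ∧ P.r 0 = y) → y = 0 := fun y hy => by rw [← hy.2, P.r_zero]
  have r2 : ∀ x y x' y', (P.v x ≤ 1 ∧ P.r x = x') → (P.v y ≤ 1 ∧ P.r y = y') →
      P.v (x + y) ≤ 1 ∧ P.r (x + y) = x' + y' := fun x y x' y' hx hy =>
    ⟨P.v.map_add_le hx.1 hy.1, by rw [Plc.r_add hx.1 hy.1, hx.2, hy.2]⟩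
  have r3 : ∀ x y x' y', (P.v x ≤ 1 ∧ P.r x = x') → (P.v y ≤ 1 ∧ P.r y = y') →
      P.v (x * y) ≤ 1 ∧ P.r (x * y) = x' * y' := fun x y x' y' hx hy =>
    ⟨Plc.v_mul_le hx.1 hy.1, by rw [Plc.r_mul hx.1 hy.1, hx.2, hy.2]⟩
  obtain ⟨u, -, t, ht⟩ := h.exists_rel isLie_top (w := a) trivial
    (fun x y => P.v x ≤ 1 ∧ P.r x = y) r0 hP r2 r3 (s := (A.crd a j)⁻¹ * (piv (A.θ a))⁻¹)
    (y := fun l => P.r (A.crd a l / A.crd a j))
    fun l => by rw [e]; exact ⟨h1 l, rfl⟩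
  have h2 : t ≠ 0 := by
    rintro rfl
    simpa [h0] using congrFun ht j
  have h3 := h.dl_rel (w := a) (w' := u) hD (zero_mem _) (fun x y => P.v x ≤ 1 ∧ P.r x = y) r0 hP
    r2 r3 (fun x x' hx h0 => ⟨by rw [map_inv₀, Plc.r_ne_zero_iff.1 (hx.2 ▸ h0), inv_one],
      by rw [Plc.r_inv, hx.2]⟩) (mul_ne_zero (inv_ne_zero h0) (A.piv_inv_ne a)) h2
    (fun l => by rw [e, ← ht]; exact ⟨h1 l, rfl⟩) (fun l => by
      have := hL _ (div_mem (ha l) (ha j)) (h1 l)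
      rw [e]
      exact ⟨this.le, Plc.r_of_lt this⟩) i
  exact (Plc.r_eq_zero_iff h3.1).1 (by rw [h3.2, map_zero]; rfl)

theorem dlog_prod_zpow [Fintype ι] {x : ι → ℂ} (hx : ∀ i, x i ≠ 0) (n : ι → ℤ) (D : Der ℂ) :
    D (∏ i, x i ^ n i) / ∏ i, x i ^ n i = ∑ i, n i * (D (x i) / x i) := by
  induction (Finset.univ : Finset ι) using Finset.cons_induction with
  | empty => simp
  | cons i s hi ih =>
    have h1 : ∏ i ∈ s, x i ^ n i ≠ 0 := Finset.prod_ne_zero_iff.2 fun j _ => zpow_ne_zero _ (hx j)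
    have h2 := hx i
    have h3 := zpow_ne_zero (n i) h2
    rw [Finset.prod_cons, Finset.sum_cons, ← ih, Derivation.leibniz, Derivation.leibniz_zpow,
      zpow_sub_one₀ h2]
    simp only [smul_eq_mul, zsmul_eq_mul]
    field_simp
    ring

theorem sum_eq_zero_of_rat [Fintype ι] {c l : ι → ℂ}
    (h : ∀ φ : ℂ →ₗ[ℚ] ℚ, ∑ i, (φ (c i) : ℂ) * l i = 0) : ∑ i, c i * l i = 0 := by
  classical
  let b := Basis.ofVectorSpace ℚ ℂ
  let s := Finset.univ.biUnion fun i => (b.repr (c i)).support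
  have e : ∀ i, c i = ∑ j ∈ s, (b.coord j (c i) : ℂ) * b j := fun i => by
    conv_lhs => rw [← b.linearCombination_repr (c i), Finsupp.linearCombination_apply,
      Finsupp.sum_of_support_subset _ (s := s) (Finset.subset_biUnion_of_mem
        (fun i => (b.repr (c i)).support) (Finset.mem_univ i)) _ (by simp)]
    exact Finset.sum_congr rfl fun j _ => Rat.smul_def _ _
  rw [Finset.sum_congr rfl fun i _ => by rw [e i, Finset.sum_mul], Finset.sum_comm]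
  refine Finset.sum_eq_zero fun j _ => ?_
  simp only [mul_right_comm _ (b j), ← Finset.sum_mul, h, zero_mul]

end Pool.Agent.P.MP_f17f76_ag.AbVar
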