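import Pool.Agent.P.MP_f17f76_ag.E.Pt

/-!
The logarithmic derivative is a closed form.
-/

namespace Pool.Agent.P.MP_f17f76_ag.AbVar

open MvPolynomial Filter Topology Module E Set

variable {g N : ℕ} {A : AbVar g N} {k : Subfield ℂ} {D D' : Der ℂ}

theorem _root_.Pool.Agent.P.MP_f17f76_ag.E.lie_mem_kil {K : Type} [Field K] {F : Set K}
    {D D' : Der K} (hD : D ∈ kil F) (hD' : D' ∈ kil F) : ⁅D, D'⁆ ∈ kil F := fun x hx => by
  simp [Derivation.commutator_apply, hD x hx, hD' x hx]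

/-- The second order term of the cone parametrisation. -/
noncomputable def tm₂ (A : AbVar g N) (w : Fin g → ℂ) (s : ℂ) (v : Fin g → ℂ) (t : ℂ)
    (v' : Fin g → ℂ) (t' : ℂ) : Fin N → ℂ :=
  s • fderiv ℂ (fderiv ℂ A.θ) w v v' + (t * s) • fderiv ℂ A.θ w v' + t' • A.tm w s (v, t)

theorem tm₂_comm (A : AbVar g N) (w : Fin g → ℂ) (s : ℂ) (v : Fin g → ℂ) (t : ℂ)
    (v' : Fin g → ℂ) (t' : ℂ) : A.tm₂ w s v t v' t' = A.tm₂ w s v' t' v t := by
  rw [tm₂, tm₂, (A.analytic w trivial).contDiffAt.isSymmSndFDerivAt_of_omega.eq v v', tm_apply,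
    tm_apply]
  module

theorem hasDerivAt_tm (A : AbVar g N) (w : Fin g → ℂ) (s : ℂ) (v : Fin g → ℂ) (t : ℂ)
    (v' : Fin g → ℂ) (t' : ℂ) : HasDerivAt (fun τ : ℂ => A.tm (w + τ • v) (s + τ * (t * s)) (v', t'))
      (A.tm₂ w s v t v' t') 0 := by
  have h1 : HasDerivAt (fun τ : ℂ => w + τ • v) v 0 := by
    simpa using ((hasDerivAt_id (0 : ℂ)).smul_const v).const_add w
  have h2 : HasDerivAt (fun τ : ℂ => s + τ * (t * s)) (t * s) 0 := by
    simpa using ((hasDerivAt_id (0 : ℂ)).mul_const (t * s)).const_add s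
  have h3 : HasFDerivAt (fderiv ℂ A.θ) (fderiv ℂ (fderiv ℂ A.θ) w) (w + (0 : ℂ) • v) := by
    rw [zero_smul, add_zero]
    exact (A.analytic w trivial).fderiv.differentiableAt.hasFDerivAt
  have h4 : HasDerivAt (fun τ : ℂ => fderiv ℂ A.θ (w + τ • v) v')
      (fderiv ℂ (fderiv ℂ A.θ) w v v') 0 := by
    have h5 : HasDerivAt (fun τ : ℂ => fderiv ℂ A.θ (w + τ • v))
        (fderiv ℂ (fderiv ℂ A.θ) w v) 0 := HasFDerivAt.comp_hasDerivAt (f := fun τ : ℂ => w + τ • v)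
          (0 : ℂ) h3 h1
    simpa using h5.clm_apply (hasDerivAt_const 0 v')
  simp only [tm_apply]
  refine ((h2.fun_smul h4).fun_add ((A.hasDerivAt_line w v s t).fun_const_smul t')).congr_deriv ?_
  simp [tm₂]

/-- Derivative of the chart identity for invariant forms. -/
theorem chart_deriv {ρ : MvPolynomial (Fin N) ℂ} {H : Fin N → MvPolynomial (Fin N) ℂ} {i : Fin g}
    (h : ∀ w (s : ℂ) v t,
      eval (s • A.θ w) ρ * v i = ∑ j, eval (s • A.θ w) (H j) * A.tm w s (v, t) j)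
    (w : Fin g → ℂ) (s : ℂ) (v : Fin g → ℂ) (t : ℂ) (v' : Fin g → ℂ) (t' : ℂ) :
    tg (s • A.θ w) (A.tm w s (v, t)) ρ * v' i = ∑ j, (tg (s • A.θ w) (A.tm w s (v, t)) (H j) *
      A.tm w s (v', t') j + eval (s • A.θ w) (H j) * A.tm₂ w s v t v' t' j) := by
  have h1 := fun p => hasDerivAt_eval p (hasDerivAt_pi.1 (A.hasDerivAt_line w v s t))
  have h2 := HasDerivAt.fun_sum (u := Finset.univ) fun j _ =>
    (h1 (H j)).fun_mul (hasDerivAt_pi.1 (A.hasDerivAt_tm w s v t v' t') j)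
  simpa using ((h1 ρ).mul_const (v' i)).unique
    (h2.congr_of_eventuallyEq (Eventually.of_forall fun τ => h _ _ _ _))

/-- The logarithmic derivative is closed. -/
theorem Over.dl_lie_bracket (h : A.Over k) (hD : D ∈ kil (k : Set ℂ)) (hD' : D' ∈ kil (k : Set ℂ))
    (w : Fin g → ℂ) (i : Fin g) : A.dl w ⁅D, D'⁆ i = D (A.dl w D' i) - D' (A.dl w D i) := by
  obtain ⟨ρ, H, h1, h2, h3, h4⟩ := h.dl_chart w one_ne_zero
  have key : ∀ {D D' : Der ℂ}, D ∈ kil (k : Set ℂ) → D' ∈ kil (k : Set ℂ) → ∀ t t',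
      dv ((1 : ℂ) • A.θ w) D = A.tm w 1 (A.dl w D, t) →
      dv ((1 : ℂ) • A.θ w) D' = A.tm w 1 (A.dl w D', t') →
      eval ((1 : ℂ) • A.θ w) ρ * D (A.dl w D' i) = ∑ j, eval ((1 : ℂ) • A.θ w) (H i j) *
        (D (D' (((1 : ℂ) • A.θ w) j)) - A.tm₂ w 1 (A.dl w D) t (A.dl w D') t' j) := by
    intro D D' hD hD' t t' ht ht'
    have h5 := congrArg D (h4 w 1 (A.dl w D') t' i)
    have h6 := chart_deriv (fun w s v t => h4 w s v t i) w 1 (A.dl w D) t (A.dl w D') t'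
    rw [← ht, ← ht'] at h6
    rw [← ht'] at h5
    simp only [Derivation.leibniz, map_sum, smul_eq_mul, h1.der hD, (h2 _ _).der hD, dv_apply,
      Finset.sum_add_distrib, mul_sub, Finset.sum_sub_distrib, mul_comm (D' _)] at h5 h6 ⊢
    linear_combination h5 - h6
  obtain ⟨t, ht⟩ := h.dl_spec' hD w one_ne_zero
  obtain ⟨t', ht'⟩ := h.dl_spec' hD' w one_ne_zero
  obtain ⟨t'', ht''⟩ := h.dl_spec' (lie_mem_kil hD hD') w one_ne_zero
  refine mul_left_cancel₀ h3 ?_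
  rw [mul_sub, key hD hD' t t' ht ht', key hD' hD t' t ht' ht, h4 _ _ _ t'', ← ht'',
    ← Finset.sum_sub_distrib, A.tm₂_comm]
  exact Finset.sum_congr rfl fun j _ => by
    rw [dv_apply, Derivation.commutator_apply]
    ring

theorem Over.dl_closed (h : A.Over k) (hD : D ∈ kil (k : Set ℂ)) (hD' : D' ∈ kil (k : Set ℂ))
    (w : Fin g → ℂ) : A.dl w ⁅D, D'⁆ = dv (A.dl w D') D - dv (A.dl w D) D' :=
  funext (h.dl_lie_bracket hD hD' w)

end Pool.Agent.P.MP_f17f76_ag.AbVar
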