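import Pool.Agent.P.MP_f17f76_ag.E.Ov

/-!
Families of subspaces: gradings, initial spaces, rigidity. Definitions.
Rows are vectors `ι → K`; a matrix `g` acts by `u ᵥ* g`.
-/

namespace Pool.Agent.P.MP_f17f76_ag.E

open Set Module Matrix

variable {K : Type} [Field K] {ι κ L Γ : Type}

open Classical in
/-- Keep the coordinates in `p`, set the others to zero. -/
noncomputable def cut (p : ι → Prop) : (ι → K) →ₗ[K] (ι → K) where
  toFun u i := if p i then u i else 0
  map_add' u v := by funext i; by_cases h : p i <;> simp [h]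
  map_smul' c u := by funext i; by_cases h : p i <;> simp [h]

variable (K) in
/-- The rows supported in `p`. -/
def supp (p : ι → Prop) : Submodule K (ι → K) where
  carrier := {u | ∀ i, ¬ p i → u i = 0}
  add_mem' ha hb i hi := by simp [ha i hi, hb i hi]
  zero_mem' _ _ := rfl
  smul_mem' c _ ha i hi := by simp [ha i hi]

/-- `N` is graded for the partition `r` of the coordinates. -/
def Graded (r : Setoid ι) (N : Submodule K (ι → K)) : Prop :=
  ∀ j, ∀ u ∈ N, cut (fun i => r i j) u ∈ N

/-- An invertible matrix with entries in `k` that respects the partition `r`. -/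
structure GrM [Fintype ι] [DecidableEq ι] (k : Subfield K) (r : Setoid ι) (g : Matrix ι ι K) :
    Prop where
  det : g.det ≠ 0
  mem : ∀ i j, g i j ∈ k
  gr : ∀ i j, g i j ≠ 0 → r i j

/-- The space of the rows `u g`, `u ∈ N`. -/
def act [Fintype ι] (g : Matrix ι κ K) (N : Submodule K (ι → K)) : Submodule K (κ → K) :=
  N.map g.vecMulLinear

/-- The span of the parts of top weight. -/
noncomputable def ini [LinearOrder Γ] (m : ι → Γ) (N : Submodule K (ι → K)) :
    Submodule K (ι → K) :=
  ⨆ μ, (N ⊓ supp K fun i => m i ≤ μ).map (cut fun i => m i = μ)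

/-- The conjugate of a subspace under an automorphism. -/
def cj (σ : K ≃+* K) (N : Submodule K (ι → K)) : Submodule K (ι → K) where
  carrier := {u | (fun i => σ.symm (u i)) ∈ N}
  add_mem' {a b} ha hb := by simpa only [mem_ofPred_eq, Pi.add_apply, map_add] using! N.add_mem ha hb
  zero_mem' := by simpa only [mem_ofPred_eq, Pi.zero_apply, map_zero] using! N.zero_mem
  smul_mem' c a ha := by
    simpa only [mem_ofPred_eq, Pi.smul_apply, smul_eq_mul, map_mul] using! N.smul_mem (σ.symm c) ha

/-- The rows on the coordinates `e : κ → ι` whose extension by zero lies in `N`. -/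
noncomputable def rst (e : κ → ι) (N : Submodule K (ι → K)) : Submodule K (κ → K) :=
  N.comap (Function.ExtendByZero.linearMap K e)

/-- `F` explains the intersection of `N` and `G`. -/
def Mx (N G F : Submodule K (ι → K)) : Prop := N ⊓ G ≤ F ∧ F ≤ N ⊓ F ⊔ G ⊓ F

variable [Fintype ι] [DecidableEq ι]

/-- All degenerations of `N` meet independent subspaces as explained by constant graded flats. -/
def Rigid (k E : Subfield K) (r : Setoid ι) (N : Submodule K (ι → K)) : Prop :=
  ∀ k₁ F₁ : Subfield K, k ≤ k₁ → k₁ ≤ F₁ → Free (k : Set K) F₁ E →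
    ∀ g, GrM k₁ r g → ∀ (Γ : Type) [LinearOrder Γ] (m : ι → Γ) (G : Submodule K (ι → K)),
      Ov F₁ G → ∃ F, Ov k₁ F ∧ Graded (r ⊓ Setoid.ker m) F ∧ Mx (ini m (act g N)) G F

/-- Rigid families. -/
structure Fam (k E : Subfield K) (r : Setoid ι) (N : Submodule K (ι → K)) : Prop where
  le : k ≤ E
  ck : IsAlgClosed k
  cE : IsAlgClosed E
  ov : Ov E N
  gr : Graded r N
  rig : Rigid k E r N

/-- Homogeneous rows `n l` of `N` in echelon form for `g` and the weights `m`. -/
structure Adapt [Fintype L] [LinearOrder Γ] (r : Setoid ι) (g : Matrix ι ι K) (m : ι → Γ)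
    (N : Submodule K (ι → K)) (n : L → ι → K) (μ : L → Γ) : Prop where
  card : Fintype.card L = finrank K N
  mem : ∀ l, n l ∈ N
  hom : ∀ l i j, n l i ≠ 0 → n l j ≠ 0 → r i j
  low : ∀ l j, μ l < m j → (n l ᵥ* g) j = 0
  ind : LinearIndependent K fun l => cut (fun i => m i = μ l) (n l ᵥ* g)

end Pool.Agent.P.MP_f17f76_ag.E
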