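import Pool.Agent.P.MP_f17f76_ag.E.AxL
import Pool.Agent.P.MP_f17f76_ag.E.Clo
import Pool.Agent.P.MP_f17f76_ag.E.Fam

/-!
The differential Ax-Schanuel theorem, Lovasz genericity and the rank formula.
-/

namespace Pool.Agent.P.MP_f17f76_ag.E

open Module

variable {K ι : Type} [Field K] [Fintype ι] {N G F : Submodule K (ι → K)}

theorem finrank_map_add_inf_ann {W : Type} [AddCommGroup W] [Module K W] (φ : (ι → K) →ₗ[K] W)
    (h : LinearMap.ker φ = ann N) (T : Submodule K (ι → K)) :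
    finrank K (T.map φ) + finrank K (N ⊓ ann T : Submodule K _) = finrank K N := by
  have h1 := (φ.domRestrict T).finrank_range_add_finrank_ker
  rw [LinearMap.range_domRestrict, LinearMap.ker_domRestrict, h, ← Submodule.finrank_map_subtype_eq,
    Submodule.map_comap_subtype] at h1
  have h2 := finrank_ann (T ⊔ ann N)
  have h3 := Submodule.finrank_sup_add_finrank_inf_eq T (ann N)
  have h4 := finrank_ann N
  rw [ann_sup, ann_ann, inf_comm] at h2
  omega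

theorem finrank_inf_ge (N G F : Submodule K (ι → K)) : finrank K (N ⊓ F : Submodule K _) +
    finrank K (G ⊓ F : Submodule K _) ≤ finrank K (N ⊓ G : Submodule K _) + finrank K F := by
  rw [← Submodule.finrank_sup_add_finrank_inf_eq, add_comm]
  exact add_le_add (Submodule.finrank_mono (inf_le_inf inf_le_left inf_le_left))
    (Submodule.finrank_mono (sup_le inf_le_right inf_le_right))

theorem Mx.finrank_eq (h : Mx N G F) : finrank K (N ⊓ G : Submodule K _) + finrank K F =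
    finrank K (N ⊓ F : Submodule K _) + finrank K (G ⊓ F : Submodule K _) := by
  rw [← Submodule.finrank_sup_add_finrank_inf_eq (N ⊓ F), add_comm, ← inf_inf_distrib_right,
    inf_eq_left.2 h.1, le_antisymm (sup_le inf_le_right inf_le_right) h.2]

omit [Fintype ι] in
theorem Mx.inf_of_le (h : Mx N G F) {W : Submodule K (ι → K)} (hG : G ≤ W) :
    Mx (N ⊓ W) G (F ⊓ W) := by
  refine ⟨le_inf ((inf_le_inf_right G inf_le_left).trans h.1) (inf_le_right.trans hG),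
    fun u hu => ?_⟩
  obtain ⟨n, hn, γ, hγ, rfl⟩ := Submodule.mem_sup.1 (h.2 hu.1)
  have h1 : n ∈ W := by simpa using W.sub_mem hu.2 (hG hγ.1)
  exact Submodule.add_mem_sup ⟨⟨hn.1, h1⟩, hn.2, h1⟩ ⟨hγ.1, hγ.2, hG hγ.1⟩

theorem ker_mulVecLin_of {L : Type} (n : L → ι → K) :
    LinearMap.ker (Matrix.of n).mulVecLin = ann (Submodule.span K (Set.range n)) := by
  ext v
  rw [mem_ann_span, Set.forall_mem_range, LinearMap.mem_ker, funext_iff]
  exact forall_congr' fun l => by rw [dotProduct_comm]; rfl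

end Pool.Agent.P.MP_f17f76_ag.E

namespace Pool.Agent.P.MP_f17f76_ag.AbVar

open Module E Set Matrix

variable {g N : ℕ} (A : AbVar g N) {k : Subfield ℂ} {U U' B T G Θ : Submodule ℂ (Fin g → ℂ)}
  {F F' : Set ℂ} {a b z : Fin g → ℂ} {ι κ : Type} {Δ : Set (Der ℂ)}

/-- The rational hull of a set of vectors. -/
noncomputable def rh (S : Set (Fin g → ℂ)) : Submodule ℂ (Fin g → ℂ) := (A.exists_hull S).choose

theorem isLie_rh (S : Set (Fin g → ℂ)) : A.IsLie (A.rh S) := (A.exists_hull S).choose_spec.1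

theorem subset_rh (S : Set (Fin g → ℂ)) : S ⊆ A.rh S := (A.exists_hull S).choose_spec.2.1

variable {A} in
theorem rh_le_iff {S : Set (Fin g → ℂ)} (hU : A.IsLie U) : A.rh S ≤ U ↔ S ⊆ U :=
  ⟨fun h => (A.subset_rh S).trans h, (A.exists_hull S).choose_spec.2.2 U hU⟩

theorem rh_mono {S S' : Set (Fin g → ℂ)} (h : S ⊆ S') : A.rh S ≤ A.rh S' :=
  (rh_le_iff (A.isLie_rh S')).2 (h.trans (A.subset_rh S'))

/-- The rows `u` with `u = u ∘ pr U`. -/
noncomputable def du (U : Submodule ℂ (Fin g → ℂ)) : Submodule ℂ (Fin g → ℂ) := ann (A.perp U)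

theorem ann_du (U : Submodule ℂ (Fin g → ℂ)) : ann (A.du U) = A.perp U := ann_ann _

theorem du_perp (U : Submodule ℂ (Fin g → ℂ)) : A.du (A.perp U) = ann U := by rw [du, perp_perp]

theorem du_le_du : A.du U ≤ A.du U' ↔ U ≤ U' := ann_le_ann.trans A.perp_le_perp

theorem du_mono (h : U ≤ U') : A.du U ≤ A.du U' := A.du_le_du.2 h

theorem du_sup (U U' : Submodule ℂ (Fin g → ℂ)) : A.du (U ⊔ U') = A.du U ⊔ A.du U' := by
  rw [du, perp_sup, ann_inf, du, du]

theorem du_inf (U U' : Submodule ℂ (Fin g → ℂ)) : A.du (U ⊓ U') = A.du U ⊓ A.du U' := by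
  rw [du, perp_inf, ann_sup, du, du]

@[simp] theorem du_top : A.du ⊤ = ⊤ := by rw [du, perp_top, ann_bot]

@[simp] theorem du_bot : A.du ⊥ = ⊥ := by rw [du, perp_bot, ann_top]

theorem finrank_du (U : Submodule ℂ (Fin g → ℂ)) : finrank ℂ (A.du U) = finrank ℂ U := by
  have h1 := finrank_ann (A.perp U)
  have h2 := A.finrank_perp U
  rw [Fintype.card_fin] at h1
  rw [du]
  omega

theorem dot_pr {u : Fin g → ℂ} (hu : u ∈ A.du U) (v : Fin g → ℂ) : u ⬝ᵥ A.pr U v = u ⬝ᵥ v := by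
  rw [eq_comm, ← sub_eq_zero, ← dotProduct_sub]
  exact hu _ (A.sub_pr_mem U v)

theorem mem_du {u : Fin g → ℂ} : u ∈ A.du U ↔ ∀ v, u ⬝ᵥ A.pr U v = u ⬝ᵥ v :=
  ⟨A.dot_pr, fun h v hv => by rw [← h, A.pr_eq_zero_iff.2 hv, dotProduct_zero]⟩

/-- The rows in `U^*` that kill `T` and the projection of `T` have complementary dimensions. -/
theorem finrank_ann_inf_du (T U : Submodule ℂ (Fin g → ℂ)) :
    finrank ℂ (ann T ⊓ A.du U : Submodule ℂ _) + finrank ℂ (T.map (A.pr U)) = finrank ℂ U := by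
  rw [add_comm, inf_comm, finrank_map_add_inf_ann (A.pr U)
    (Submodule.ext fun v => by rw [A.ann_du, LinearMap.mem_ker, pr_eq_zero_iff]), finrank_du]

/-- The tangent space, translated to the origin, of the locus of `b` over `F`. -/
noncomputable def tan (F : Set ℂ) (b : Fin g → ℂ) : Submodule ℂ (Fin g → ℂ) := (kil F).map (A.dl b)

/-- The conormal space of the locus of `b` over `F` inside `B^*`. -/
noncomputable def con (F : Set ℂ) (b : Fin g → ℂ) (B : Submodule ℂ (Fin g → ℂ)) :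
    Submodule ℂ (Fin g → ℂ) := ann (A.tan F b) ⊓ A.du B

theorem mem_con {u : Fin g → ℂ} :
    u ∈ A.con F b B ↔ (∀ D ∈ kil F, u ⬝ᵥ A.dl b D = 0) ∧ u ∈ A.du B :=
  and_congr_left' ⟨fun h D hD => h _ ⟨D, hD, rfl⟩, fun h _ ⟨D, hD, e⟩ => e ▸ h D hD⟩

theorem con_le (F : Set ℂ) (b : Fin g → ℂ) (B : Submodule ℂ (Fin g → ℂ)) :
    A.con F b B ≤ A.du B := inf_le_right

theorem con_inf_du (h : U ≤ B) : A.con F b B ⊓ A.du U = A.con F b U := by
  rw [con, inf_assoc, inf_eq_right.2 (A.du_mono h), con]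

theorem tan_anti (h : F ⊆ acl F') : A.tan F' b ≤ A.tan F b := Submodule.map_mono (kil_le h)

theorem tan_free (h : E.Free F (range (A.crd b)) F') : A.tan (F ∪ F') b = A.tan F b :=
  h.map_kil (finite_range _) _ fun _ hX => A.dl_eq_zero (kil_anti subset_union_right hX)

/-- The subspace that explains the intersection of `ann T` and `G`. -/
noncomputable def lov (T G : Submodule ℂ (Fin g → ℂ)) : Submodule ℂ (Fin g → ℂ) :=
  A.perp (A.rh ↑(T ⊓ ann G))

theorem isLie_lov (T G : Submodule ℂ (Fin g → ℂ)) : A.IsLie (A.lov T G) := (A.isLie_rh _).perp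

theorem lov_mono {T' G' : Submodule ℂ (Fin g → ℂ)} (hT : T' ≤ T) (hG : G ≤ G') :
    A.lov T G ≤ A.lov T' G' := A.perp_anti (A.rh_mono (inf_le_inf hT (ann_anti hG)))

/-- A constant form that is exact on a locus kills the rational hull of its tangent space. -/
def Gen (A : AbVar g N) (k : Subfield ℂ) : Prop :=
  ∀ F : Set ℂ, F.Countable → (k : Set ℂ) ⊆ acl F → ∀ θ : Fin g → ℂ, (∀ i, θ i ∈ acl F) →
    ∀ (a : Fin g → ℂ) (ζ : ℂ), (∀ X ∈ kil F, θ ⬝ᵥ A.dl a X = X ζ) →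
      ∃ U, A.IsLie U ∧ (∀ X ∈ kil F, A.dl a X ∈ U) ∧ ∀ v ∈ U, θ ⬝ᵥ v = 0

variable {A}

theorem Over.closed_dl (h : A.Over k) (hk : (k : Set ℂ) ⊆ acl F) (a : Fin g → ℂ) :
    Closed F (A.dl a) := fun _ hX _ hY => h.dl_closed (kil_le hk hX) (kil_le hk hY) a

theorem Over.ov_tan (h : A.Over k) (hk : (k : Set ℂ) ⊆ acl F) (b : Fin g → ℂ) :
    Ov (acl (F ∪ range (A.crd b))) (A.tan F b) :=
  (h.closed_dl hk b).ov fun _ hX => A.dl_eq_zero (kil_anti subset_union_right hX)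

theorem Over.ov_lie (h : A.Over k) (hU : A.IsLie U) : Ov k U := by
  obtain ⟨s, h1, rfl⟩ := hU.exists_finset
  exact ov_span fun x hx => h.lat x (h1 hx)

theorem Over.ov_du (h : A.Over k) (hU : A.IsLie U) : Ov k (A.du U) := (h.ov_lie hU.perp).ann

theorem Over.ov_con (h : A.Over k) (hk : (k : Set ℂ) ⊆ acl F) (hB : A.IsLie B) (b : Fin g → ℂ) :
    Ov (acl (F ∪ range (A.crd b))) (A.con F b B) :=
  (h.ov_tan hk b).ann.inf ((h.ov_du hB).mono (hk.trans (acl_mono subset_union_left)))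

theorem Over.tan_le (h : A.Over k) (hk : (k : Set ℂ) ⊆ acl F) (hB : A.IsLie B) (hb : b ∈ B) :
    A.tan F b ≤ B := by
  rintro _ ⟨D, hD, rfl⟩
  exact h.dl_mem (kil_le hk hD) hB hb

theorem Over.tan_pr (h : A.Over k) (hk : (k : Set ℂ) ⊆ acl F) (hU : A.IsLie U) (b : Fin g → ℂ) :
    A.tan F (A.pr U b) = (A.tan F b).map (A.pr U) := by
  rw [tan, tan, ← Submodule.map_comp]
  exact Submodule.ext fun _ => exists_congr fun D => and_congr_right fun hD => by
    rw [h.dl_pr (kil_le hk hD) hU]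
    rfl

theorem Over.finrank_tan (h : A.Over k) (hk : (k : Set ℂ) ⊆ acl F) (b : Fin g → ℂ) :
    finrank ℂ (A.tan F b) = trd F (range (A.crd b)) := (h.trd_crd hk b).symm

/-- The rank function of a conormal space. -/
theorem Over.finrank_con (h : A.Over k) (hk : (k : Set ℂ) ⊆ acl F) (hU : A.IsLie U)
    (b : Fin g → ℂ) :
    finrank ℂ (A.con F b U) + trd F (range (A.crd (A.pr U b))) = finrank ℂ U := by
  rw [← h.finrank_tan hk, h.tan_pr hk hU]
  exact A.finrank_ann_inf_du _ U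

theorem Over.finrank_ann_dv (h : A.Over k) (hk : (k : Set ℂ) ⊆ acl F) (hU : A.IsLie U)
    (z : Fin g → ℂ) : finrank ℂ (ann ((kil F).map (dv z)) ⊓ A.du U : Submodule ℂ _) +
      trd F (range (A.pr U z)) = finrank ℂ U := by
  have e : (kil F).map (dv (A.pr U z)) = (kil F).map (A.pr U ∘ₗ dv z) :=
    Submodule.ext fun _ => exists_congr fun D => and_congr_right fun hD => by
      rw [h.dv_pr hU (kil_le hk hD)]
      rfl
  rw [← A.finrank_ann_inf_du ((kil F).map (dv z)) U, ← finrank_map_dv, ← Submodule.map_comp, e]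

/-- Ax-Schanuel, matrix form. -/
theorem Over.as_mat [Fintype ι] (h : A.Over k) (hG : A.Gen k) (hF : F.Countable)
    (hk : (k : Set ℂ) ⊆ acl F) {M : Matrix ι (Fin g) ℂ} (hM : ∀ i j, M i j ∈ acl F) (ζ : ι → ℂ)
    (hΔ : ∀ D ∈ Δ, D ∈ kil F ∧ ∀ i, (M *ᵥ A.dl a D - dv ζ D) i ∈ acl F) :
    ∃ C : Subfield ℂ, F ⊆ C ∧ (∀ D ∈ Δ, D ∈ kil (C : Set ℂ)) ∧ ∀ v ∈ A.rh (A.tan C a),
        ∃ X ∈ kil (C : Set ℂ), M *ᵥ A.dl a X - dv ζ X = M *ᵥ v := by
  let Δ' := Δ ∪ (kil (F ∪ (range (A.crd a) ∪ range ζ)) : Set (Der ℂ))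
  have h1 : F ⊆ csts Δ' := subset_csts.2 (union_subset (fun D hD => (hΔ D hD).1)
    (kil_anti subset_union_left))
  have h2 : acl F ≤ csts Δ' := (acl_mono h1).trans (acl_csts _).le
  have h3 : (k : Set ℂ) ⊆ acl (csts Δ' : Set ℂ) := hk.trans (acl_mono h1)
  have h4 : (csts Δ' : Set ℂ).Countable := (countable_acl (hF.union (((finite_range _).union
    (finite_range _)).countable))).mono (csts_le_acl subset_union_right)
  have h5 := axl (Δ := Δ') (ω := M.mulVecLin.comp (A.dl a) - dv ζ)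
    (((h.closed_dl h3 a).mulVec fun D hD i j => hD _ (h2 (hM i j))).sub (closed_dv _ ζ)) (by
      rintro D (hD | hD) i
      · exact h2 ((hΔ D hD).2 i)
      · rw [SetLike.mem_coe, kil_union, kil_union] at hD
        simp [A.dl_eq_zero hD.2.1, hD.2.2 _ (mem_range_self i)])
  refine ⟨csts Δ', h1, fun D hD => mem_kil_csts (Or.inl hD),
    fun v hv => h5.mem_of_forms fun c hc h6 => ?_⟩
  obtain ⟨U, hU, h7, h8⟩ := hG _ h4 h3 (c ᵥ* M) (fun j => subset_acl _ (sum_mem fun i _ =>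
    mul_mem (hc i) (h2 (hM i j)))) a (c ⬝ᵥ ζ) fun X hX => by
      have h9 := h6 _ ⟨X, hX, rfl⟩
      rw [LinearMap.sub_apply, dotProduct_sub, sub_eq_zero, LinearMap.comp_apply, mulVecLin_apply,
        dotProduct_mulVec] at h9
      rw [h9]
      simp [dotProduct, hX _ (hc _)]
  rw [dotProduct_mulVec]
  exact h8 v ((rh_le_iff hU).2 (Submodule.map_le_iff_le_comap.2 h7) hv)

/-- Ax-Schanuel: if `dl a - d z` is killed by `Θ` on `Δ`, then modulo `ann Θ` it takes all values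
in the rational hull of `dl a Δ`. -/
theorem Over.as_sub (h : A.Over k) (hG : A.Gen k) (hF : F.Countable) (hk : (k : Set ℂ) ⊆ acl F)
    (hΘ : Ov (acl F) Θ) (z : Fin g → ℂ)
    (hΔ : ∀ D ∈ Δ, D ∈ kil F ∧ A.dl a D - dv z D ∈ ann Θ) {v : Fin g → ℂ}
    (hv : v ∈ A.rh (A.dl a '' Δ) ⊔ ann Θ) : ∃ X ∈ kil F, A.dl a X - dv z X - v ∈ ann Θ := by
  obtain ⟨θ, h1, -, h2⟩ := hΘ.exists_basis
  obtain ⟨v, hv₁, v', hv', rfl⟩ := Submodule.mem_sup.1 hv
  have h3 : ∀ x, x ∈ ann Θ ↔ of θ *ᵥ x = 0 := fun x =>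
    (SetLike.ext_iff.1 ((ker_mulVecLin_of θ).trans (congrArg ann h2)) x).symm
  have h4 : ∀ D ∈ kil F, dv (of θ *ᵥ z) D = of θ *ᵥ dv z D := fun D hD =>
    dv_mulVec (fun i j => acl_le_cst hD (h1 i j)) z
  obtain ⟨C, h5, h6, h7⟩ := h.as_mat (Δ := Δ) (a := a) hG hF hk (M := of θ) h1 (of θ *ᵥ z)
    fun D hD => ⟨(hΔ D hD).1, fun i => by
      rw [h4 D (hΔ D hD).1, ← mulVec_sub, (h3 _).1 (hΔ D hD).2]
      exact zero_mem _⟩
  obtain ⟨X, hX, e⟩ := h7 v (A.rh_mono (by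
    rintro _ ⟨D, hD, rfl⟩
    exact ⟨D, h6 D hD, rfl⟩) hv₁)
  refine ⟨X, kil_anti h5 hX, ?_⟩
  rw [← sub_sub]
  refine sub_mem ((h3 _).2 ?_) hv'
  rw [mulVec_sub, mulVec_sub, ← h4 X (kil_anti h5 hX), e, sub_self]

theorem rh_sup_eq_top {S : Set (Fin g → ℂ)}
    (h : ∀ U, A.IsLie U → (∀ v ∈ S, A.pr U v = 0) → Θ ⊓ A.du U = ⊥) : A.rh S ⊔ ann Θ = ⊤ := by
  rw [← ann_ann (_ ⊔ _), ann_sup, ann_ann, inf_comm, ← A.du_perp (A.rh S), h _ (A.isLie_rh S).perp
    fun v hv => A.pr_eq_zero_iff.2 (by rw [perp_perp]; exact A.subset_rh S hv), ann_bot]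

/-- Ax-Schanuel with derivations `E l` dual to `y`: the derivation can be chosen to kill `y`. -/
theorem Over.as_kil [Fintype κ] [DecidableEq κ] (h : A.Over k) (hG : A.Gen k) (hF : F.Countable)
    (hk : (k : Set ℂ) ⊆ acl F) (hΘ : Ov (acl F) Θ) (z : Fin g → ℂ)
    (hΔ : ∀ D ∈ Δ, D ∈ kil F ∧ A.dl a D - dv z D ∈ ann Θ) {y : κ → ℂ} {E : κ → Der ℂ}
    (hE : ∀ l, E l ∈ kil F ∧ A.dl a (E l) - dv z (E l) ∈ ann Θ)
    (hy : ∀ l m, E l (y m) = if l = m then 1 else 0) {v : Fin g → ℂ}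
    (hv : v ∈ A.rh (A.dl a '' Δ) ⊔ ann Θ) :
    ∃ X ∈ kil (F ∪ range y), A.dl a X - dv z X - v ∈ ann Θ := by
  obtain ⟨X, hX, e⟩ := h.as_sub hG hF hk hΘ z hΔ hv
  obtain ⟨Y, hY, e'⟩ := (exists_kil_union ((ann Θ).mkQ ∘ₗ (A.dl a - dv z)) (fun l => (hE l).1) hy
    fun l => (Submodule.Quotient.mk_eq_zero _).2 (hE l).2).ge ⟨X, hX, rfl⟩
  refine ⟨Y, hY, ?_⟩
  simpa using add_mem ((Submodule.Quotient.eq _).1 e') e

/-- Ax-Schanuel, transcendence degree form. -/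
theorem Over.as_trd [Fintype κ] [DecidableEq κ] (h : A.Over k) (hG : A.Gen k) (hF : F.Countable)
    (hk : (k : Set ℂ) ⊆ acl F) (hΘ : Ov (acl F) Θ) (z : Fin g → ℂ)
    (hΔ : ∀ D ∈ Δ, D ∈ kil F ∧ A.dl a D - dv z D ∈ ann Θ) {y : κ → ℂ} {E : κ → Der ℂ}
    (hE : ∀ l, E l ∈ kil F ∧ A.dl a (E l) - dv z (E l) ∈ ann Θ)
    (hy : ∀ l m, E l (y m) = if l = m then 1 else 0) :
    Fintype.card κ + finrank ℂ Θ ≤ trd F (range y ∪ (range (A.crd a) ∪ range z)) +
      finrank ℂ (Θ ⊓ ann (A.rh (A.dl a '' Δ)) : Submodule ℂ _) := by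
  have h1 : ∀ X ∈ kil (F ∪ (range (A.crd a) ∪ range z)),
      ((ann Θ).mkQ ∘ₗ (A.dl a - dv z)) X = 0 := fun X hX => by
    rw [kil_union, kil_union] at hX
    rw [LinearMap.comp_apply, LinearMap.sub_apply, A.dl_eq_zero hX.2.1, dv_eq_zero.2 hX.2.2,
      sub_zero, map_zero]
  have h2 := card_add_finrank_le ((finite_range _).union (finite_range _)) _ h1
    (fun l => (hE l).1) hy fun l => (Submodule.Quotient.mk_eq_zero _).2 (hE l).2
  have h3 := finrank_map_add_inf_ann (ann Θ).mkQ (Submodule.ker_mkQ _) (A.rh (A.dl a '' Δ))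
  have h4 : finrank ℂ ((A.rh (A.dl a '' Δ)).map (ann Θ).mkQ) ≤
      finrank ℂ ((kil F).map ((ann Θ).mkQ ∘ₗ (A.dl a - dv z))) := by
    refine Submodule.finrank_mono ?_
    rintro _ ⟨v, hv, rfl⟩
    obtain ⟨X, hX, e⟩ := h.as_sub hG hF hk hΘ z hΔ (Submodule.mem_sup_left hv)
    exact ⟨X, hX, (Submodule.Quotient.eq _).2 e⟩
  omega

/-- Lovasz genericity for a conormal space. -/
theorem Over.lov (h : A.Over k) (hG : A.Gen k) (hF : F.Countable) (hF' : F'.Countable)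
    (hk : (k : Set ℂ) ⊆ acl F) (hfr : E.Free F (range (A.crd b)) F') (hO : Ov (acl (F ∪ F')) G) :
    Mx (ann (A.tan F b)) G (A.du (A.lov (A.tan F b) G)) := by
  have hk' : (k : Set ℂ) ⊆ acl (F ∪ F') := hk.trans (acl_mono subset_union_left)
  rw [← A.tan_free hfr]
  generalize F ∪ F' = F₁, hF.union hF' = hF₁ at hO hk' ⊢
  have hU := A.isLie_lov (A.tan F₁ b) G
  have key : ∀ v ∈ A.rh ↑(A.tan F₁ b ⊓ ann G), ∃ x ∈ A.tan F₁ b,
      x ∈ A.rh ↑(A.tan F₁ b ⊓ ann G) ∧ x - v ∈ ann G := by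
    intro v hv
    obtain ⟨X, hX, e⟩ := h.as_sub (Δ := {D | D ∈ kil F₁ ∧ A.dl b D ∈ ann G}) (a := b) hG
      (hF₁.union (finite_range (A.crd (A.pr (A.lov (A.tan F₁ b) G) b))).countable)
      (hk'.trans (acl_mono subset_union_left)) (hO.mono (acl_mono subset_union_left)) 0
      (fun D hD => ⟨by
        rw [kil_union]
        refine ⟨hD.1, (h.dl_eq_zero_iff (kil_le hk' hD.1)).1 ?_⟩
        rw [h.dl_pr (kil_le hk' hD.1) hU, pr_eq_zero_iff, AbVar.lov, perp_perp]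
        exact A.subset_rh _ ⟨⟨D, hD.1, rfl⟩, hD.2⟩, by
        rw [show dv (0 : Fin g → ℂ) D = 0 from funext fun _ => map_zero D, sub_zero]
        exact hD.2⟩) (Submodule.mem_sup_left (A.rh_mono (by
          rintro _ ⟨⟨D, hD, rfl⟩, h1⟩
          exact ⟨D, ⟨hD, h1⟩, rfl⟩) hv))
    rw [kil_union] at hX
    rw [show dv (0 : Fin g → ℂ) X = 0 from funext fun _ => map_zero X, sub_zero] at e
    have h1 := A.dl_eq_zero hX.2
    rw [h.dl_pr (kil_le hk' hX.1) hU, pr_eq_zero_iff, AbVar.lov, perp_perp] at h1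
    exact ⟨_, ⟨X, hX.1, rfl⟩, h1, e⟩
  rw [AbVar.lov, du_perp]
  refine ⟨fun u hu v hv => ?_, fun u hu => ?_⟩
  · obtain ⟨x, h1, -, h2⟩ := key v hv
    have := h2 u hu.2
    rwa [dotProduct_comm, dotProduct_sub, hu.1 x h1, zero_sub, neg_eq_zero] at this
  · have h1 := ann_anti (fun x hx => A.subset_rh _ hx : A.tan F₁ b ⊓ ann G ≤ _) hu
    rw [ann_inf, ann_ann] at h1
    obtain ⟨n, hn, γ, hγ, rfl⟩ := Submodule.mem_sup.1 h1
    have h2 : γ ∈ ann (A.rh ↑(A.tan F₁ b ⊓ ann G)) := fun v hv => by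
      obtain ⟨x, h3, h4, h5⟩ := key v hv
      have h6 := h5 γ hγ
      have h7 := hu x h4
      rw [add_dotProduct, hn x h3, zero_add] at h7
      rwa [dotProduct_comm, dotProduct_sub, h7, zero_sub, neg_eq_zero] at h6
    exact Submodule.add_mem_sup ⟨hn, by simpa using sub_mem hu h2⟩ ⟨hγ, h2⟩

/-- Lovasz genericity inside `B^*`. -/
theorem Over.lov_con (h : A.Over k) (hG : A.Gen k) (hF : F.Countable) (hF' : F'.Countable)
    (hk : (k : Set ℂ) ⊆ acl F) (hfr : E.Free F (range (A.crd b)) F') (hO : Ov (acl (F ∪ F')) G)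
    (hB : G ≤ A.du B) : Mx (A.con F b B) G (A.du (A.lov (A.tan F b) G ⊓ B)) := by
  rw [du_inf]
  exact (h.lov hG hF hF' hk hfr hO).inf_of_le hB

/-- Numerical form of Lovasz genericity. -/
theorem Over.lov_finrank (h : A.Over k) (hG : A.Gen k) (hF : F.Countable) (hF' : F'.Countable)
    (hk : (k : Set ℂ) ⊆ acl F) (hfr : E.Free F (range (A.crd b)) F') (hO : Ov (acl (F ∪ F')) G)
    (hB : A.IsLie B) : ∃ U, A.IsLie U ∧ U ≤ B ∧
      finrank ℂ (A.con F b B ⊓ G : Submodule ℂ _) + finrank ℂ U =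
        finrank ℂ (A.con F b U) + finrank ℂ (G ⊓ A.du U : Submodule ℂ _) := by
  have h1 := (h.lov_con hG hF hF' hk hfr (hO.inf ((h.ov_du hB).mono
    (hk.trans (acl_mono subset_union_left)))) inf_le_right).finrank_eq
  refine ⟨_, (A.isLie_lov (A.tan F b) (G ⊓ A.du B)).inf hB, inf_le_right, ?_⟩
  rwa [finrank_du, A.con_inf_du inf_le_right, inf_assoc G, inf_eq_right.2 (A.du_mono inf_le_right),
    ← inf_assoc, inf_right_comm, inf_eq_left.2 (A.con_le F b B)] at h1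

/-- The transcendence degree of rows applied to a point that is free from them. -/
theorem _root_.Pool.Agent.P.MP_f17f76_ag.E.trd_rows {K : Type} [Field K] [CharZero K] [Fintype ι]
    [Finite κ] {F E : Set K} {z : ι → K} {n : κ → ι → K} (hn : ∀ l i, n l i ∈ acl (F ∪ E))
    (hfr : Pool.Agent.P.MP_f17f76_ag.E.Free F (range z) E) : trd (F ∪ E) (range fun l => n l ⬝ᵥ z) +
      finrank K (Submodule.span K (range n) ⊓ ann ((kil F).map (dv z)) : Submodule K _) =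
        finrank K (Submodule.span K (range n)) := by
  have e : (kil (F ∪ E)).map (dv fun l => n l ⬝ᵥ z) =
      (kil (F ∪ E)).map ((of n).mulVecLin ∘ₗ dv z) :=
    Submodule.ext fun _ => exists_congr fun D => and_congr_right fun hD => by
      rw [show (fun l => n l ⬝ᵥ z) = of n *ᵥ z from rfl,
        dv_mulVec (M := of n) (fun i j => acl_le_cst hD (hn i j)) z]
      rfl
  rw [← finrank_map_dv, e, Submodule.map_comp, hfr.map_kil (finite_range z) (dv z) fun _ hX =>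
    dv_eq_zero.2 (kil_anti subset_union_right hX), finrank_map_add_inf_ann _ (ker_mulVecLin_of n)]

/-- The rank formula, inequality. -/
theorem Over.rk_le [Finite κ] (h : A.Over k) (hk : (k : Set ℂ) ⊆ acl F) {L kb : Set ℂ}
    {n : κ → Fin g → ℂ} (hn : ∀ l i, n l i ∈ acl (F ∪ L))
    (hN : Submodule.span ℂ (range n) = A.con kb b B) (hfr : E.Free F (range z) L)
    (hU : A.IsLie U) (hB : U ≤ B) :
    trd (F ∪ L) (range fun l => n l ⬝ᵥ z) + finrank ℂ (A.con kb b U) ≤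
      finrank ℂ (A.con kb b B) + trd F (range (A.pr U z)) := by
  have h1 := trd_rows hn hfr
  have h2 := finrank_inf_ge (A.con kb b B) (ann ((kil F).map (dv z))) (A.du U)
  have h3 := h.finrank_ann_dv hk hU z
  rw [hN] at h1
  rw [A.con_inf_du hB, finrank_du] at h2
  omega

/-- The rank formula, equality. -/
theorem Over.rk_eq [Finite κ] (h : A.Over k) (hG : A.Gen k) (hF : F.Countable)
    (hk : (k : Set ℂ) ⊆ acl F) {L kb : Set ℂ} (hkb : kb.Countable) (hk' : (k : Set ℂ) ⊆ acl kb)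
    {n : κ → Fin g → ℂ} (hn : ∀ l i, n l i ∈ acl (F ∪ L))
    (hN : Submodule.span ℂ (range n) = A.con kb b B) (hfr : E.Free F (range z) L)
    (hfr' : E.Free kb (range (A.crd b)) (F ∪ range z)) (hB : A.IsLie B) :
    ∃ U, A.IsLie U ∧ U ≤ B ∧ trd (F ∪ L) (range fun l => n l ⬝ᵥ z) + finrank ℂ (A.con kb b U) =
      finrank ℂ (A.con kb b B) + trd F (range (A.pr U z)) := by
  obtain ⟨U, hU, h1, h2⟩ := h.lov_finrank hG hkb (hF.union (finite_range z).countable) hk' hfr'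
    ((ov_map_dv F z).ann.mono (acl_mono subset_union_right)) hB
  have h3 := trd_rows hn hfr
  have h4 := h.finrank_ann_dv hk hU z
  rw [hN] at h3
  exact ⟨U, hU, h1, by omega⟩

end Pool.Agent.P.MP_f17f76_ag.AbVar
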