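import Pool.Agent.P.MP_f17f76_ag.E.Kn

/-!
The analytic logarithm of a point over `K(x)` and the generic case of Ax's theorem.
-/

namespace Pool.Agent.P.MP_f17f76_ag.AbVar

open MvPolynomial Filter Topology Module E Set

variable {g N : ℕ} {A : AbVar g N} {k K : Subfield ℂ} {ι : Type} [Fintype ι] {x : ι → ℂ}
  {a : Fin g → ℂ} {i : Fin N} {w : (ι → ℂ) → Fin g → ℂ}

/-- `w` is an analytic family of points with chart coordinates algebraic over `K(x)`. -/
structure Lg (A : AbVar g N) (K : Subfield ℂ) (x : ι → ℂ) (i : Fin N)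
    (w : (ι → ℂ) → Fin g → ℂ) : Prop where
  an : AnalyticAt ℂ w x
  ne : A.θ (w x) i ≠ 0
  kn : ∀ j, KN K x fun u => A.aff i (w u) j

theorem Over.exists_lg (h : A.Over k) (hk : k ≤ K) (hx : AlgebraicIndependent K x)
    (hi : A.θ a i ≠ 0) (ha : ∀ j, A.crd a j ∈ acl (K ∪ range x)) :
    ∃ w, A.Lg K x i w ∧ w x = a := by
  choose Y h1 h2 using fun j => exists_kn (c := A.aff i a j) hx (by
    rw [aff_eq_crd]
    exact mul_mem (inv_mem (ha i)) (ha j))
  have h3 : (fun j => Y j x) = (A.θ a i)⁻¹ • A.θ a := funext h2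
  obtain ⟨J, hJ⟩ := (IsNoetherian.noetherian (R := MvPolynomial (Fin N) k) (A.chI k i))
  have h4 : ∀ᶠ u in 𝓝 x, ∃ w, A.θ w i ≠ 0 ∧ (fun j => Y j u) = A.aff i w := by
    filter_upwards [(eventually_all_finset J).2 fun p hp =>
      (kn_aeval hk p (f := fun u j => Y j u) h1).eq_zero hx
        (h3 ▸ mem_chI.1 (hJ.le (Ideal.subset_span hp)) a hi)] with u hu
    exact h.zero_chI fun p hp => Ideal.span_le (I := RingHom.ker (aeval fun j => Y j u)).2 hu
      (hJ.ge hp)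
  obtain ⟨ω, τ, h5, -, h6, -, h7, -⟩ := A.lift a _ (inv_ne_zero hi)
  have h8 : AnalyticAt ℂ (fun u j => Y j u) x := analyticAt_pi_iff.2 fun j => (h1 j).1
  rw [← h3] at h5 h6 h7
  refine ⟨fun u => ω fun j => Y j u, ⟨h5.comp h8, h6 ▸ hi, fun j => (h1 j).congr ?_⟩, h6⟩
  filter_upwards [h4, h8.continuousAt.eventually h7] with u ⟨w, h9, h10⟩ h11
  have h12 := h11 ⟨_, w, h10⟩
  have h13 := (congrFun h12 i).symm.trans ((congrFun h10 i).trans (aff_self h9))
  rw [aff, ← eq_inv_of_mul_eq_one_left h13, ← h12]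

theorem Lg.eventually (l : A.Lg K x i w) : ∀ᶠ u in 𝓝 x, AnalyticAt ℂ w u ∧ A.θ (w u) i ≠ 0 :=
  l.an.eventually_analyticAt.and (l.an.continuousAt.eventually (eventually_chart l.ne))

theorem fderiv_aff_comp {u : ι → ℂ} (h : AnalyticAt ℂ w u) (hi : A.θ (w u) i ≠ 0) (v : ι → ℂ)
    (j : Fin N) : fderiv ℂ (fun u => A.aff i (w u) j) u v =
      fderiv ℂ (A.aff i) (w u) (fderiv ℂ w u v) j := by
  exact congrArg (fun L => L v) (hasFDerivAt_pi'.1
    ((aff_analytic hi).differentiableAt.hasFDerivAt.comp u h.differentiableAt.hasFDerivAt) j).fderiv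

theorem Lg.kn_fderiv (l : A.Lg K x i w) (h : A.Over k) (hk : k ≤ K)
    (hx : AlgebraicIndependent K x) {v : ι → ℂ} (hv : ∀ m, v m ∈ K) (m : Fin g) :
    KN K x fun u => fderiv ℂ w u v m := by
  obtain ⟨R, H, c⟩ := h.exists_ch i
  refine (kn_sum Finset.univ fun j _ => (kn_aeval hk (H m j) l.kn).mul
    ((l.kn j).fderiv hx hv)).congr ?_
  filter_upwards [l.eventually] with u hu
  simp only [fderiv_aff_comp hu.1 hu.2]
  exact (c.form _ hu.2 _ m).symm

theorem Lg.dl (l : A.Lg K x i w) (h : A.Over k) (hk : k ≤ K) (hx : AlgebraicIndependent K x)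
    {D : Der ℂ} (hD : D ∈ kil (K : Set ℂ)) : A.dl (w x) D = fderiv ℂ w x (dv x D) := by
  obtain ⟨R, H, c⟩ := h.exists_ch i
  funext m
  rw [c.dl h (kil_anti hk hD) l.ne, c.form _ l.ne (fderiv ℂ w x (dv x D)) m]
  exact Finset.sum_congr rfl fun j _ => by
    rw [(l.kn j).der hx hD, fderiv_aff_comp l.an l.ne]

/-- An invariant form over `F` that is exact on the point `a` kills an abelian subvariety that
contains the logarithmic derivatives of `a`. -/
theorem Over.gen (h : A.Over k) {F : Set ℂ} (hk : (k : Set ℂ) ⊆ acl F) {th : Fin g → ℂ}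
    (hth : ∀ i, th i ∈ acl F) {ze : ℂ}
    (H : ∀ X ∈ kil F, th ⬝ᵥ A.dl a X = X ze) :
    ∃ U, A.IsLie U ∧ (∀ X ∈ kil F, A.dl a X ∈ U) ∧ ∀ v ∈ U, th ⬝ᵥ v = 0 := by
  classical
  rcases eq_or_ne th 0 with rfl | h0
  · exact ⟨⊤, isLie_top, fun _ _ => trivial, fun v _ => zero_dotProduct v⟩
  obtain ⟨m, hm⟩ := Function.ne_iff.1 h0
  obtain ⟨n, x, h1, h2⟩ : ∃ (n : ℕ) (x : Fin n → ℂ), Ind F x ∧
      insert ze (range (A.crd a)) ⊆ acl (F ∪ range x) :=
    (exists_trd_basis F ((finite_range (A.crd a)).insert ze)).elim fun x h => ⟨_, x, h.2⟩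
  have hx : AlgebraicIndependent (acl F) x := h1.algebraicClosure
  rw [← acl_acl_union] at h2
  obtain ⟨i, hi, -⟩ := A.exists_aff a
  obtain ⟨w, l, rfl⟩ := h.exists_lg hk hx hi fun j => h2 (Or.inr ⟨j, rfl⟩)
  obtain ⟨ζ, h3, rfl⟩ := exists_kn hx (h2 (Or.inl rfl))
  let ℓ : (Fin g → ℂ) →L[ℂ] ℂ := LinearMap.toContinuousLinearMap (dotProductBilin ℂ ℂ th)
  have h4 : ∀ᶠ u in 𝓝 x, ∀ s, ℓ (fderiv ℂ w u (Pi.single s 1)) = fderiv ℂ ζ u (Pi.single s 1) :=
    eventually_all.2 fun s => by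
      have h5 : ∀ m, (Pi.single s 1 : _ → ℂ) m ∈ acl F := fun m => by
        rw [Pi.single_apply]
        split_ifs
        exacts [one_mem _, zero_mem _]
      obtain ⟨D, hD, h6⟩ := exists_der h1 (Pi.single s 1)
      refine (kn_sum Finset.univ fun j _ => (kn_const (hth j)).mul
        (l.kn_fderiv h hk hx h5 j)).eq (h3.fderiv hx h5) hx ?_
      rw [← show dv x D = _ from funext h6, ← l.dl h hk hx ((kil_acl F).ge hD),
        ← h3.der hx ((kil_acl F).ge hD)]
      exact H D hD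
  obtain ⟨ε, hε, h5⟩ := Metric.eventually_nhds_iff_ball.1
    (h4.and (l.an.eventually_analyticAt.and h3.1.eventually_analyticAt))
  have h6 : ∀ u ∈ Metric.ball x ε, HasFDerivAt (fun u => ℓ (w u) - ζ u) (0 : _ →L[ℂ] ℂ) u :=
    fun u hu => ((ℓ.hasFDerivAt.comp u (h5 u hu).2.1.differentiableAt.hasFDerivAt).sub
      (h5 u hu).2.2.differentiableAt.hasFDerivAt).congr_fderiv (ContinuousLinearMap.coe_injective
        (LinearMap.pi_ext' fun s => LinearMap.ext_ring (sub_eq_zero.2 ((h5 u hu).1 s))))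
  obtain ⟨U, h7, h8, h9, -⟩ := A.sum_gen x w (fun u => Pi.single m (ζ u * (th m)⁻¹))
    (fun u => A.aff i (w u)) ℓ (ℓ (w x) - ζ x) l.an (fun j => (l.kn j).isEt hx)
    (smul_ne_zero (inv_ne_zero l.ne) (A.ne_zero _)) (Eventually.of_forall fun u => ⟨_, rfl⟩)
    (fun j => KN.isEt (by
      simp only [Pi.single_apply]
      split_ifs
      exacts [h3.mul (kn_const (inv_mem (hth m))), kn_const (zero_mem _)]) hx) (by
      filter_upwards [Metric.ball_mem_nhds x hε] with u hu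
      rw [← Metric.isOpen_ball.is_const_of_fderiv_eq_zero (convex_ball x ε).isPreconnected
        (fun u hu => (h6 u hu).differentiableAt.differentiableWithinAt)
        (fun u hu => (h6 u hu).fderiv) hu (Metric.mem_ball_self hε)]
      have h10 : th m ≠ 0 := hm
      simp [ℓ, mul_comm (ζ u), h10])
  refine ⟨U, h7, fun X hX => ?_, h9⟩
  rw [l.dl h hk hx ((kil_acl F).ge hX)]
  exact fderiv_mem_of_sub_mem l.an.differentiableAt h8 _

end Pool.Agent.P.MP_f17f76_ag.AbVar
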