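import Pool.Agent.P.MP_f17f76_ag.E.AxP
import Pool.Agent.P.MP_f17f76_ag.E.Gen

/-!
The hypothesis of the Ax-Schanuel theorems holds.
-/

namespace Pool.Agent.P.MP_f17f76_ag.AbVar

theorem Over.isGen {g N : ℕ} {A : AbVar g N} {k : Subfield ℂ} (h : A.Over k) : A.Gen k :=
  fun _ _ hk _ hθ _ _ H => h.gen hk hθ H

end Pool.Agent.P.MP_f17f76_ag.AbVar
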