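import Pool.Agent.P.MP_f17f76_ag.E.Hs3

/-!
Internal integers, monads, internal versions of standard sets, linear maps and polynomials.
-/

namespace Pool.Agent.P.MP_f17f76_ag.N

open Set Filter Topology MvPolynomial

set_option linter.unusedSectionVars false

noncomputable section

variable {I J L : Type} [Fintype I] [Fintype J] [Fintype L] {a : ℝ*} {m m' : Cs}

theorem nm_ofR_of_nonneg (h : 0 ≤ a) : nm (ofR a) = a := (nm_ofR a).trans (abs_of_nonneg h)

/-- Internal integers. -/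
def Zs : Subring Cs := (qs.comp ((Int.castRingHom ℂ).compLeft ℕ)).range

theorem mem_Zs : m ∈ Zs ↔ ∃ u : ℕ → ℤ, (qs fun n => u n) = m := Iff.rfl

/-- Internal positive integers. -/
def PosZ (m : Cs) : Prop := ∃ u : ℕ → ℕ, (∀ n, 0 < u n) ∧ m = qs fun n => u n

theorem PosZ.mem (h : PosZ m) : m ∈ Zs :=
  let ⟨u, _, h⟩ := h; ⟨fun n => u n, h ▸ qs_eq.2 (.of_forall fun _ => Int.cast_natCast _)⟩

theorem PosZ.eq (h : PosZ m) : m = ofR (nm m) ∧ 1 ≤ nm m := by
  obtain ⟨u, h, rfl⟩ := h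
  exact ⟨qs_eq.2 (.of_forall fun n => by simp),
    (sr_le (u := 1)).2 (.of_forall fun n => by simpa using Nat.succ_le_of_lt (h n))⟩

theorem PosZ.pos (h : PosZ m) : 0 < nm m := one_pos.trans_le h.eq.2

theorem PosZ.ne (h : PosZ m) : m ≠ 0 := nm.pos_iff.1 h.pos

theorem posZ_one : PosZ 1 := ⟨1, fun _ => one_pos, qs_eq.2 (.of_forall fun _ => by simp)⟩

theorem PosZ.mul (h : PosZ m) (h' : PosZ m') : PosZ (m * m') :=
  let ⟨u, h1, h2⟩ := h; let ⟨v, h3, h4⟩ := h'
  ⟨u * v, fun n => mul_pos (h1 n) (h3 n), h2 ▸ h4 ▸ qs_eq.2 (.of_forall fun _ => by simp)⟩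

theorem posZ_nat {k : ℕ} (h : 0 < k) : PosZ k := ⟨fun _ => k, fun _ => h, (map_natCast co k).symm⟩

theorem exists_posZ (h : 1 ≤ a) : ∃ m, PosZ m ∧ nm m ≤ a ∧ a ≤ 2 * nm m := by
  obtain ⟨u, rfl⟩ := sr_surj a
  have h1 := (sr_le (u := 1)).1 h
  refine ⟨_, ⟨fun n => max ⌊u n⌋₊ 1, fun n => by simp, rfl⟩, sr_le.2 (h1.mono fun n hn => ?_),
    (sr_le (v := 2 * _)).2 (h1.mono fun n hn => ?_)⟩ <;>
  have h2 : 1 ≤ ⌊u n⌋₊ := Nat.le_floor (by simpa using hn)
  · simpa [h2] using Nat.floor_le (zero_le_one.trans hn)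
  · have h3 : (1 : ℝ) ≤ ⌊u n⌋₊ := by exact_mod_cast h2
    have := Nat.lt_floor_add_one (u n)
    simp only [h2, sup_of_le_left, Pi.mul_apply, Pi.ofNat_apply, Function.comp, Complex.norm_natCast]
    linarith

theorem exists_round (a : ℝ*) : ∃ m ∈ Zs, nm (m - ofR a) ≤ 1 / 2 := by
  obtain ⟨u, rfl⟩ := sr_surj a
  refine ⟨_, ⟨fun n => round (u n), rfl⟩, (le_div_iff₀ two_pos).2
    ((sr_le (u := _ * 2) (v := 1)).2 (.of_forall fun n => ?_))⟩
  change ‖((round (u n) : ℤ) : ℂ) - u n‖ * 2 ≤ 1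
  rw [← Complex.ofReal_intCast, ← Complex.ofReal_sub, Complex.norm_real, norm_sub_rev]
  linarith [show ‖u n - round (u n)‖ ≤ 1 / 2 from abs_sub_round (u n)]

theorem Zs_eq_zero (h : m ∈ Zs) (h' : nm m < 1) : m = 0 := by
  obtain ⟨u, rfl⟩ := mem_Zs.1 h
  refine qs_eq_zero.2 (((sr_lt (v := 1)).1 h').mono fun n hn => ?_)
  have : |u n| < 1 := by simpa [← Int.cast_abs, ← Int.cast_one (R := ℝ), -Int.cast_one] using hn
  simp [Int.abs_lt_one_iff.1 this]

/-- Nearest integer points. -/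
theorem exists_near_int {N : Cs} (hN : PosZ N) (h : Ll 1 (nm N)) {p : ℂ} (hp : p.im = 0) :
    ∃ m ∈ Zs, Ll (nm (m / N - co p)) 1 := by
  obtain ⟨m, h1, h2⟩ := exists_round (p.re * nm N)
  refine ⟨m, h1, ?_⟩
  rw [map_mul, ← hN.eq.1, ofR_coe, Complex.conj_eq_iff_re.1 (Complex.conj_eq_iff_im.2 hp)] at h2
  rw [div_sub' hN.ne, map_div₀, ll_div hN.pos, mul_comm]
  exact Ll.le_trans (h2.trans (by norm_num)) h

/-! ### Monads -/

/-- Infinitely close to a standard point. -/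
def Near (x : I → Cs) (p : I → ℂ) : Prop := ∀ i, Ll (nm (x i - co (p i))) 1

variable {x y : I → Cs} {p q : I → ℂ} {S S' : Set (I → ℂ)}

theorem near_vec {u : ℕ → I → ℂ} : Near (vec u) p ↔ Tendsto u UF (𝓝 p) :=
  (forall_congr' fun _ => near_qs).trans tendsto_pi_nhds.symm

theorem near_co (p : I → ℂ) : Near (fun i => co (p i)) p := fun _ => by
  simpa using Ll.zero zero_le_one

theorem Near.app (h : Near x p) {f : (I → ℂ) → ℂ} (hf : ContinuousAt f p) :
    Ll (nm (app (fun _ => f) x - co (f p))) 1 :=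
  near_qs.2 (hf.tendsto.comp (near_vec.1 (by rwa [vec_rep])))

theorem Near.hold (h : Near x p) {q : (I → ℂ) → Prop} (hq : ∀ᶠ z in 𝓝 p, q z) :
    Hold (fun _ => q) x := (near_vec.1 (by rwa [vec_rep])).eventually hq

theorem Near.lc (h : Near x p) (i : I) : Lc (nm (x i)) 1 := lc_of_near (h i) (lc_co _)

theorem Near.stc (h : Near x p) (i : I) : stc (x i) = p i := stc_eq (h i)

theorem near_of_lc (h : ∀ i, Lc (nm (x i)) 1) : Near x fun i => stc (x i) := fun i => near_stc (h i)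

theorem Near.of_ll (h : Near x p) (h' : ∀ i, Ll (nm (y i - x i)) 1) : Near y p :=
  fun i => near_trans (h' i) (h i)

theorem Near.ll (h : Near x p) (h' : Near y p) (i : I) : Ll (nm (y i - x i)) 1 :=
  near_trans (h' i) (near_symm (h i))

theorem Near.add (h : Near x p) (h' : Near y q) : Near (x + y) (p + q) := fun i =>
  Ll.le_trans (by rw [Pi.add_apply, Pi.add_apply, map_add, add_sub_add_comm]; exact nm.add_le _ _)
    ((h i).add (h' i))

theorem Near.neg (h : Near x p) : Near (-x) (-p) := fun i => by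
  rw [Pi.neg_apply, Pi.neg_apply, map_neg, neg_sub_neg]
  exact near_symm (h i)

theorem Near.sub (h : Near x p) (h' : Near y q) : Near (x - y) (p - q) := by
  simpa only [sub_eq_add_neg] using h.add h'.neg

theorem near_zero : Near x 0 ↔ ∀ i, Ll (nm (x i)) 1 := by simp [Near]

theorem Near.lt (h : Near x p) {r : ℝ} (hr : ‖p‖ < r) (i : I) : nm (x i) < r := by
  obtain ⟨u, rfl⟩ := vec_surj x
  exact sr_lt.2 (((near_vec.1 h).norm.eventually_lt_const hr).mono fun n hn =>
    (norm_le_pi_norm _ i).trans_lt hn)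

theorem Near.pt (h : Near x p) (hp : ‖p‖ < 1) : Pt x := h.lt hp

/-! ### Star sets -/

/-- The internal version of a standard set. -/
def St (S : Set (I → ℂ)) : Set (I → Cs) := {x | Hold (fun _ z => z ∈ S) x}

theorem mem_st : x ∈ St S ↔ Hold (fun _ z => z ∈ S) x := Iff.rfl

theorem st_vec {u : ℕ → I → ℂ} : vec u ∈ St S ↔ ∀ᶠ n in UF, u n ∈ S := hold_vec

theorem st_inter : x ∈ St (S ∩ S') ↔ x ∈ St S ∧ x ∈ St S' := eventually_and

theorem st_mono (h : S ⊆ S') : St S ⊆ St S' := fun _ hx => hx.mono fun _ e => h e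

theorem st_co : (fun i => co (p i)) ∈ St S ↔ p ∈ S := (st_vec (u := fun _ => p)).trans eventually_const

theorem St.closed (h : x ∈ St S) (h' : Near x p) (hS : IsClosed S) : p ∈ S :=
  hS.mem_of_tendsto (near_vec.1 (by rwa [vec_rep])) h

section
variable {σ : Type} [SetLike σ (I → ℂ)] [AddSubgroupClass σ (I → ℂ)] {G : σ}

theorem St.zero (G : σ) : (0 : I → Cs) ∈ St G := (st_vec (u := 0)).2 (.of_forall fun _ => zero_mem G)

theorem St.add (h : x ∈ St G) (h' : y ∈ St G) : x + y ∈ St G := by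
  obtain ⟨u, rfl⟩ := vec_surj x
  obtain ⟨v, rfl⟩ := vec_surj y
  exact (st_vec (u := u + v)).2 (((st_vec.1 h).and (st_vec.1 h')).mono fun _ e => add_mem e.1 e.2)

theorem St.neg (h : x ∈ St G) : -x ∈ St G := by
  obtain ⟨u, rfl⟩ := vec_surj x
  exact (st_vec (u := -u)).2 ((st_vec.1 h).mono fun _ e => neg_mem e)

theorem St.sub (h : x ∈ St G) (h' : y ∈ St G) : x - y ∈ St G :=
  sub_eq_add_neg x y ▸ St.add h (St.neg h')

theorem St.sum {ι : Type} {s : Finset ι} {f : ι → I → Cs} (h : ∀ i ∈ s, f i ∈ St G) :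
    ∑ i ∈ s, f i ∈ St G := Finset.sum_induction f (· ∈ St G) (fun _ _ => St.add) (St.zero G) h

theorem St.zsmul (h : x ∈ St G) (hm : m ∈ Zs) : m • x ∈ St G := by
  obtain ⟨u, rfl⟩ := vec_surj x
  obtain ⟨v, rfl⟩ := mem_Zs.1 hm
  rw [← vec_smul, st_vec]
  exact (st_vec.1 h).mono fun n e => Int.cast_smul_eq_zsmul ℂ (v n) (u n) ▸ zsmul_mem e _

end

theorem St.smul {U : Submodule ℂ (I → ℂ)} (h : x ∈ St U) (c : Cs) : c • x ∈ St U := by
  obtain ⟨u, rfl⟩ := vec_surj x
  obtain ⟨v, rfl⟩ := qs_surj c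
  rw [← vec_smul, st_vec]
  exact (st_vec.1 h).mono fun n e => U.smul_mem _ e

/-! ### Linear maps -/

section
variable {R R' : Type} [CommRing R] [Algebra ℂ R] [CommRing R'] [Algebra ℂ R'] [DecidableEq I]
  (f f' : (I → ℂ) →ₗ[ℂ] J → ℂ)

/-- A standard linear map acting on vectors over a `ℂ`-algebra. -/
def lx (f : (I → ℂ) →ₗ[ℂ] J → ℂ) : (I → R) →ₗ[R] J → R :=
  ((LinearMap.toMatrix' f).map (algebraMap ℂ R)).mulVecLin

theorem lx_apply (x : I → R) (j : J) :
    lx f x j = ∑ i, algebraMap ℂ R (f (Pi.single i 1) j) * x i := by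
  simp [lx, Matrix.mulVec, dotProduct]

theorem lx_self (x : I → ℂ) : lx f x = f x := (LinearMap.toMatrix'_mulVec f x :)

theorem map_lx (φ : R →+* R') (hφ : ∀ i j, φ (algebraMap ℂ R (f (Pi.single i 1) j)) =
    algebraMap ℂ R' (f (Pi.single i 1) j)) (x : I → R) : φ ∘ lx f x = lx f (φ ∘ x) :=
  funext fun j => by simp [lx_apply, hφ]

theorem lx_co (p : I → ℂ) : (lx f fun i => algebraMap ℂ R (p i)) = fun j => algebraMap ℂ R (f p j) := by
  rw [← lx_self f p]
  exact (map_lx f (algebraMap ℂ R) (fun _ _ => rfl) p).symm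

theorem lx_vec (u : ℕ → I → ℂ) : lx f (vec u) = vec fun n => f (u n) := funext fun j => by
  simp only [lx_apply, vec, co_eq, ← map_mul, ← map_sum, ← lx_self f (u _)]
  exact congrArg qs (funext fun n => by simp)

theorem lx_comp [DecidableEq J] (f' : (J → ℂ) →ₗ[ℂ] L → ℂ) (x : I → R) :
    lx (f' ∘ₗ f) x = lx f' (lx f x) := by
  simp [lx, LinearMap.toMatrix'_comp]

theorem lx_id (x : I → R) : lx (LinearMap.id : (I → ℂ) →ₗ[ℂ] _) x = x := by simp [lx]

theorem lx_add (x : I → R) : lx (f + f') x = lx f x + lx f' x :=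
  funext fun j => by simp [lx_apply, add_mul, Finset.sum_add_distrib]

theorem lx_sub (x : I → R) : lx (f - f') x = lx f x - lx f' x :=
  funext fun j => by simp [lx_apply, sub_mul]

theorem lx_zero (x : I → R) : lx (0 : (I → ℂ) →ₗ[ℂ] J → ℂ) x = 0 :=
  funext fun j => by simp [lx_apply]

theorem lc_lx (h : ∀ i, Lc (nm (x i)) a) (j : J) : Lc (nm (lx f x j)) a := by
  rw [lx_apply]
  refine Lc.le_trans (nm.sum_le _ _) (.sum fun i _ => ?_)
  rw [map_mul]
  exact (by simpa using (lc_co _).mul_right (nm.nonneg (x i)) : Lc _ _).trans (h i)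

theorem ll_lx (ha : 0 ≤ a) (h : ∀ i, Ll (nm (x i)) a) (j : J) : Ll (nm (lx f x j)) a :=
  (lc_lx f (fun i => .of_le (Finset.single_le_sum (f := fun i => nm (x i))
    (fun _ _ => nm.nonneg _) (Finset.mem_univ i))) j).trans_ll (.sum ha fun i _ => h i)

theorem Near.lx (h : Near x p) : Near (lx f x) (f p) := fun j => by
  simpa [lx_co] using ll_lx f (x := x - fun i => co (p i)) zero_le_one h j

theorem St.lx {T : Set (J → ℂ)} (h : x ∈ St S) (hf : MapsTo f S T) : lx f x ∈ St T := by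
  obtain ⟨u, rfl⟩ := vec_surj x
  rw [lx_vec, st_vec]
  exact (st_vec.1 h).mono fun _ e => hf e

theorem st_eq_iff : x ∈ St {z | f z = f' z} ↔ lx f x = lx f' x := by
  obtain ⟨u, rfl⟩ := vec_surj x
  rw [lx_vec, lx_vec, st_vec, vec_eq]
  rfl

end

/-! ### Polynomials -/

theorem aeval_vec {σ : Type} (u : ℕ → σ → ℂ) (p : MvPolynomial σ ℂ) :
    aeval (vec u) p = qs fun n => eval (u n) p := by
  induction p using MvPolynomial.induction_on with
  | C a => simpa using co_eq a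
  | add p q hp hq => simp only [hp, hq, map_add]; rfl
  | mul_X p i hp => simp only [hp, map_mul, eval_X, aeval_X]; rfl

/-- Representatives of internal polynomials of standard degree. -/
theorem exists_poly_rep {σ : Type} (p : MvPolynomial σ Cs) :
    ∃ q : ℕ → MvPolynomial σ ℂ, (∀ n, (q n).support ⊆ p.support) ∧
      (∀ m, p.coeff m = qs fun n => (q n).coeff m) ∧
      ∀ u : ℕ → σ → ℂ, eval (vec u) p = qs fun n => eval (u n) (q n) := by
  classical
  choose c hc using fun m => qs_surj (p.coeff m)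
  have h : ∀ n m, (∑ m ∈ p.support, monomial m (c m n)).coeff m =
      if m ∈ p.support then c m n else 0 := fun n m => by simp [coeff_sum, coeff_monomial]
  refine ⟨fun n => ∑ m ∈ p.support, monomial m (c m n), fun n m hm => by_contra fun e => ?_,
    fun m => ?_, fun u => ?_⟩
  · exact mem_support_iff.1 hm ((h n m).trans (if_neg e))
  · simp only [h]
    split_ifs with e
    exacts [(hc m).symm, notMem_support_iff.1 e]
  · simp only [eval_eq, ← hc, vec, ← map_pow, ← map_prod, ← map_mul, ← map_sum]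
    refine congrArg qs (funext fun n => ?_)
    simp [← eval_eq, eval_monomial, Finsupp.prod]

end

end Pool.Agent.P.MP_f17f76_ag.N
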