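import Pool.Agent.P.MP_f17f76_ag.E.Hol2
import Pool.Agent.P.MP_f17f76_ag.E.Hs4

/-!
Stable functions, compositions, Taylor expansions and standard parts.
-/

namespace Pool.Agent.P.MP_f17f76_ag.N

open Set Filter Topology Metric E

set_option linter.unusedSectionVars false

noncomputable section

variable {I J κ : Type} [Fintype I] [Fintype J] [Fintype κ] {T a b : ℝ*} {g g' : H I}
  {x y z : I → Cs}

theorem rel_iff {c d : Cs} (hd : d ≠ 0) : Ll (nm (c - d)) (nm d) ↔ Pst.r (c / d) = 1 := by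
  rw [← ll_div (nm.pos hd), ← map_div₀, sub_div, div_self hd, ← map_one co]
  refine ⟨fun h => (pst_r (lc_of_near h (lc_co 1))).trans (stc_eq h), fun h => ?_⟩
  have := pst_le.1 (Plc.r_ne_zero_iff.1 (h ▸ one_ne_zero)).le
  exact h ▸ pst_r this ▸ near_stc this

theorem stab_iff : Stab g ↔ ∀ x, Pt x → Pst.r (ev x g / ev 0 g) = 1 :=
  ⟨fun h x hx => (rel_iff h.1).1 (h.2 x hx), fun h =>
    have : ev 0 g ≠ 0 := fun e => by simpa [e] using h 0 .zero
    ⟨this, fun x hx => (rel_iff this).2 (h x hx)⟩⟩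

theorem Stab.lc (h : Stab g) (hx : Pt x) (hy : Pt y) : Lc (nm (ev x g)) (nm (ev y g)) :=
  (lc_of_rel (h.2 x hx)).1.trans (lc_of_rel (h.2 y hy)).2

theorem Stab.ne (h : Stab g) (hx : Pt x) : ev x g ≠ 0 := fun e =>
  let ⟨_, h'⟩ := h.lc .zero hx; h.1 (nm.nonpos_iff.1 (by simpa [e] using h'))

theorem Stab.ne_zero (h : Stab g) : g ≠ 0 := fun e => h.1 (by simp [e])

theorem Stab.ll (h : Stab g) (hx : Pt x) (hy : Pt y) (hz : Pt z) :
    Ll (nm (ev x g - ev y g)) (nm (ev z g)) :=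
  (near_trans (h.2 x hx) (near_symm (h.2 y hy))).trans_lc (h.lc .zero hz) (nm.nonneg _)

theorem Stab.le (h : Stab g) : Le g (2 * nm (ev 0 g)) := fun x hx => by
  have : nm (ev x g) ≤ nm (ev x g - ev 0 g) + nm (ev 0 g) := by
    simpa using nm.add_le (ev x g - ev 0 g) (ev 0 g)
  linarith [(h.2 x hx).le]

theorem Stab.isUnit (h : Stab g) : IsUnit g := isUnit_of_ne fun _ => h.ne

theorem Stab.mul (h : Stab g) (h' : Stab g') : Stab (g * g') := stab_iff.2 fun x hx => by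
  have h1 := stab_iff.1 h x hx
  have h2 := stab_iff.1 h' x hx
  rw [map_mul, map_mul, mul_div_mul_comm, Plc.r_mul (Plc.r_ne_zero_iff.1 (h1 ▸ one_ne_zero)).le
    (Plc.r_ne_zero_iff.1 (h2 ▸ one_ne_zero)).le, h1, h2, one_mul]

theorem Stab.of_mul (h : Stab (g * g')) (h' : Stab g') : Stab g := stab_iff.2 fun x hx => by
  have h1 := stab_iff.1 h x hx
  have h2 := stab_iff.1 h' x hx
  rw [show ev x g / ev 0 g = ev x (g * g') / ev 0 (g * g') / (ev x g' / ev 0 g') by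
    rw [map_mul, map_mul, mul_div_mul_comm, mul_div_cancel_right₀ _ (div_ne_zero (h'.ne hx) h'.1)],
    Plc.r_div (Plc.r_ne_zero_iff.1 (h1 ▸ one_ne_zero)).le (Plc.r_ne_zero_iff.1 (h2 ▸ one_ne_zero)),
    h1, h2, div_one]

theorem stab_cn {c : Cs} (h : c ≠ 0) : Stab (cn c : H I) :=
  ⟨by simpa, fun _ _ => by simpa using Ll.zero (nm.nonneg c)⟩

theorem stab_one : Stab (1 : H I) := map_one (cn (I := I)) ▸ stab_cn one_ne_zero

theorem Stab.prod {ι : Type} {s : Finset ι} {f : ι → H I} (h : ∀ i ∈ s, Stab (f i)) :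
    Stab (∏ i ∈ s, f i) := Finset.prod_induction f Stab (fun _ _ => Stab.mul) stab_one h

theorem Stab.pow (h : Stab g) (n : ℕ) : Stab (g ^ n) := by
  simpa using Stab.prod (s := Finset.range n) fun _ _ => h

theorem stab_of_rel {c : Cs} (hc : c ≠ 0) (h : ∀ x, Pt x → Ll (nm (ev x g - c)) (nm c)) : Stab g :=
  have := (lc_of_rel (h 0 .zero)).2
  ⟨fun e => let ⟨_, h'⟩ := this; hc (nm.nonpos_iff.1 (by simpa [e] using h')), fun x hx =>
    (near_trans (h x hx) (near_symm (h 0 .zero))).trans_lc this (nm.nonneg _)⟩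

theorem stab_of_near {c : ℂ} (hc : c ≠ 0) (h : ∀ x, Pt x → Ll (nm (ev x g - co c)) 1) : Stab g :=
  stab_of_rel ((map_ne_zero co).2 hc) fun x hx =>
    (h x hx).trans_lc (lc_one_coe (norm_pos_iff.2 hc)) (nm.nonneg _)

theorem Stab.pull {φ : I → H J} (h : Stab g) (hφ : Maps φ) : Stab (pull φ g) :=
  stab_of_rel h.1 fun x hx => ev_pull hφ hx g ▸ h.2 _ (hφ x hx)

section
variable {K : Type} [Field K] {ι : K →+* H I} {φ : I → H J}

theorem StabH.pull (h : StabH ι) (hφ : Maps φ) : StabH ((pull φ).comp ι) :=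
  fun a ha => (h a ha).pull hφ

theorem StabH.lc (h : StabH ι) (hx : Pt x) (hy : Pt y) (c : K) :
    Lc (nm (ev x (ι c))) (nm (ev y (ι c))) :=
  (eq_or_ne c 0).elim (fun e => by simpa [e] using Lc.refl 0) fun e => (h c e).lc hx hy

theorem StabH.ll (h : StabH ι) (hx : Pt x) (hy : Pt y) (hz : Pt z) (c : K) :
    Ll (nm (ev x (ι c) - ev y (ι c))) (nm (ev z (ι c))) :=
  (eq_or_ne c 0).elim (fun e => by simpa [e] using Ll.zero le_rfl) fun e => (h c e).ll hx hy hz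

theorem PG.ev (hT : Ll 1 T) (h : StabH ι) (h' : PG T ((ev 0).comp ι)) (hx : Pt x) :
    PG T ((ev x).comp ι) := fun c => .of_lc hT (h.lc hx .zero c) (h' c)

theorem PG.pull (hT : Ll 1 T) (h : StabH ι) (hφ : Maps φ) (h' : PG T ((N.ev 0).comp ι)) :
    PG T ((N.ev 0).comp ((pull φ).comp ι)) := fun c => by
  simpa [ev_pull hφ .zero] using h'.ev hT h (hφ 0 .zero) c

theorem PG.inv {e : K →+* Cs} (h : PG T e) (c : K) : Poly T (nm (e c))⁻¹ := by
  simpa using h c⁻¹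

/-- Residues do not depend on the point. -/
theorem StabH.stc (h : StabH ι) (hx : Pt x) (hy : Pt y) (c : K) :
    (Pst.v (ev x (ι c)) ≤ 1 ↔ Pst.v (ev y (ι c)) ≤ 1) ∧
      Pst.r (ev x (ι c)) = Pst.r (ev y (ι c)) := by
  have h1 : Pst.v (ev x (ι c)) ≤ 1 ↔ Pst.v (ev y (ι c)) ≤ 1 := by
    rw [pst_le, pst_le]
    exact ⟨(h.lc hy hx c).trans, (h.lc hx hy c).trans⟩
  refine ⟨h1, (le_or_gt (Pst.v (ev x (ι c))) 1).elim (fun e => ?_) fun e => ?_⟩
  · exact (Plc.r_eq_iff e (h1.1 e)).2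
      (pst_lt.2 ((h.ll hx hy hx c).trans_lc (pst_le.1 e) zero_le_one))
  · rw [Plc.r_of_gt e, Plc.r_of_gt (not_le.1 fun e' => e.not_ge (h1.2 e'))]

end

theorem Le.near (h : Le g a) {p : I → ℂ} (hp : ‖p‖ < 1) (hx : Near x p) (hy : Near y p) :
    Ll (nm (ev y g - ev x g)) a := by
  obtain ⟨r, h1, h2⟩ := exists_between hp
  have h3 := Ll.sum (s := Finset.univ) zero_le_one fun i _ => hx.ll hy i
  have h4 : ∀ i, nm (y i - x i) ≤ ∑ i, nm (y i - x i) := fun i =>
    Finset.single_le_sum (f := fun i => nm (y i - x i)) (fun _ _ => nm.nonneg _) (Finset.mem_univ i)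
  have h5 : 0 ≤ ∑ i, nm (y i - x i) := Finset.sum_nonneg fun _ _ => nm.nonneg _
  have h6 := h3.le_coe (half_pos (sub_pos.2 h2))
  have h7 : (r : ℝ*) < 1 := by exact_mod_cast h2
  refine Ll.le_trans (h.schwarz (fun i => (hx.lt h1 i).le) h4
    (by exact_mod_cast (norm_nonneg p).trans h1.le) h5 (by push_cast at h6; linarith)) ?_
  have := (lc_coe_mul (2 / (1 - r)) h.nonneg).mul_ll h3 (mul_nonneg (by
    push_cast; exact div_nonneg zero_le_two (sub_pos.2 h7).le) h.nonneg) h.nonneg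
  push_cast at this
  rwa [mul_one, div_mul_eq_mul_div] at this

theorem exists_ivt (hx : Pt x) (h0 : 0 ≤ a) (h : a ≤ nm (ev x g - ev 0 g)) :
    ∃ y, Pt y ∧ nm (ev y g - ev 0 g) = a := by
  obtain ⟨f, rfl⟩ := H.mk_surj g
  obtain ⟨u, rfl⟩ := vec_surj x
  obtain ⟨a, rfl⟩ := sr_surj a
  rw [ev_mk hx, ev_zero_mk] at h
  have : ∀ᶠ n in UF, ∃ z ∈ ball 0 1, ‖f.1 n z - f.1 n 0‖ = a n := by
    filter_upwards [pt_vec.1 hx, (sr_le (u := 0)).1 h0, sr_le.1 h] with n h1 h2 h3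
    exact (convex_ball 0 1).isPreconnected.intermediate_value (mem_ball_self one_pos) h1
      ((f.2 n).continuousOn.sub continuousOn_const).norm ⟨by simpa using h2, h3⟩
  obtain ⟨v, hv⟩ := this.choice
  have h1 := pt_vec.2 (hv.mono fun _ h => h.1)
  exact ⟨vec v, h1, by rw [ev_mk h1, ev_zero_mk]; exact sr_eq.2 (hv.mono fun _ h => h.2)⟩

/-- The identity theorem. -/
theorem eq_zero_of_ball (hx : Pt x) (ha : 0 < a)
    (h : ∀ y, Pt y → (∀ i, nm (y i - x i) ≤ a) → ev y g = 0) : g = 0 := by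
  obtain ⟨f, rfl⟩ := H.mk_surj g
  obtain ⟨u, rfl⟩ := vec_surj x
  obtain ⟨a, rfl⟩ := sr_surj a
  have h1 := (forall_pt (p := fun n z => ‖z - u n‖ ≤ a n → f.1 n z = 0)).1 fun v hv => by
    rw [Ultrafilter.eventually_imp]
    exact fun e => qs_eq_zero.1 (ev_mk hv f ▸ h _ hv ((nm_vec_le (u := v - u) ha.le).2 e))
  refine (H.mk_eq (g := 0)).2 ?_
  filter_upwards [h1, pt_vec.1 hx, (sr_lt (u := 0)).1 ha] with n h2 h3 h4
  refine eqOn_zero_of_eventually (f.2 n) h3 ?_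
  filter_upwards [isOpen_ball.mem_nhds h3, closedBall_mem_nhds (u n) h4] with z h5 h6
  exact h2 z h5 (mem_closedBall_iff_norm.1 h6)

/-! ### Compositions -/

open Classical in
/-- Composition with an internal function. -/
def cmp (f : ℕ → (κ → ℂ) → ℂ) (w : κ → H I) : H I :=
  if h : ∃ g : H I, ∀ x, Pt x → ev x g = app f (evv x w) then h.choose else 0

theorem ev_cmp {f : ℕ → (κ → ℂ) → ℂ} {w : κ → H I}
    (h : ∀ x, Pt x → Hold (fun n z => DifferentiableAt ℂ (f n) z) (evv x w)) (hx : Pt x) :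
    ev x (cmp f w) = app f (evv x w) := by
  rw [cmp, dif_pos (exists_cmp w h)]
  exact (exists_cmp w h).choose_spec x hx

theorem ev_cmp' {f : (κ → ℂ) → ℂ} (hf : Differentiable ℂ f) (w : κ → H I) (hx : Pt x) :
    ev x (cmp (fun _ => f) w) = app (fun _ => f) (evv x w) :=
  ev_cmp (fun _ _ => .of_forall fun _ => hf _) hx

theorem pull_cmp' {f : ℕ → (κ → ℂ) → ℂ} {w : κ → H I}
    (h : ∀ x, Pt x → Hold (fun n z => DifferentiableAt ℂ (f n) z) (evv x w)) {φ : I → H J}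
    (hφ : Maps φ) : pull φ (cmp f w) = cmp f fun k => pull φ (w k) :=
  H.ext fun x hx => by
    rw [ev_pull hφ hx, ev_cmp h (hφ x hx), ev_cmp (fun x hx => evv_pull hφ hx w ▸ h _ (hφ x hx)) hx,
      evv_pull hφ hx]

theorem pull_cmp {f : (κ → ℂ) → ℂ} (hf : Differentiable ℂ f) (w : κ → H I) {φ : I → H J}
    (hφ : Maps φ) : pull φ (cmp (fun _ => f) w) = cmp (fun _ => f) fun k => pull φ (w k) :=
  pull_cmp' (fun _ _ => .of_forall fun _ => hf _) hφ

theorem dd_cmp [DecidableEq I] [DecidableEq κ] {f : (κ → ℂ) → ℂ} (hf : Differentiable ℂ f)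
    (w : κ → H I) (i : I) : dd i (cmp (fun _ => f) w) =
      ∑ k, cmp (fun _ z => fderiv ℂ f z (Pi.single k 1)) w * dd i (w k) :=
  H.ext fun x hx => by
    rw [ev_dd_cmp (w := w) (fun _ _ => .of_forall fun _ => hf _) (fun _ => ev_cmp' hf w) hx, map_sum]
    exact Finset.sum_congr rfl fun k _ => by
      rw [map_mul, ev_cmp' (differentiableOn_univ.1
        (diffOn_fderiv_apply isOpen_univ hf.differentiableOn _)) w hx]

theorem map_aeval_H {R σ : Type} [CommRing R] [Algebra Cs R] (φ : H I →+* R)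
    (h : ∀ c, φ (cn c) = algebraMap Cs R c) (w : σ → H I) (p : MvPolynomial σ Cs) :
    φ (MvPolynomial.aeval w p) = MvPolynomial.aeval (fun k => φ (w k)) p := by
  rw [MvPolynomial.map_aeval, show φ.comp (algebraMap Cs (H I)) = algebraMap Cs R from RingHom.ext h]
  rfl

theorem ev_aeval {σ : Type} (x : I → Cs) (w : σ → H I) (p : MvPolynomial σ Cs) :
    ev x (MvPolynomial.aeval w p) = MvPolynomial.eval (evv x w) p := map_aeval_H _ (ev_cn x) w p

theorem pull_aeval {σ : Type} (φ : I → H J) (w : σ → H I) (p : MvPolynomial σ Cs) :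
    pull φ (MvPolynomial.aeval w p) = MvPolynomial.aeval (fun k => pull φ (w k)) p :=
  map_aeval_H _ (pull_cn φ) w p

theorem evv_xc (hx : Pt x) : evv x xc = x := funext (ev_xc hx)

section
variable {κ' : Type} [Fintype κ'] [DecidableEq κ] (f : (κ → ℂ) →ₗ[ℂ] κ' → ℂ) (w : κ → H I)

theorem evv_lx (x : I → Cs) : evv x (lx f w) = lx f (evv x w) :=
  map_lx f (ev x) (fun _ _ => ev_cn _ _) w

theorem pull_lx (φ : I → H J) (k : κ') : pull φ (lx f w k) = lx f (fun k => pull φ (w k)) k :=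
  congrFun (map_lx f (pull φ) (fun _ _ => pull_cn _ _) w) k

theorem dd_lx [DecidableEq I] (i : I) (k : κ') : dd i (lx f w k) = lx f (fun k => dd i (w k)) k := by
  simp [lx_apply, algebraMap_eq]

theorem cn_lx (v : κ → Cs) (k : κ') : (cn (lx f v k) : H I) = lx f (fun k => cn (v k)) k :=
  congrFun (map_lx f cn (fun _ _ => rfl) v) k

end

/-! ### Taylor expansions -/

/-- Propagation of smallness. -/
theorem two_const (h : Le g a) {r s : ℝ*} (hx : ∀ i, nm (x i) ≤ 1 / 2) (hr : 0 < r) (hr' : r ≤ 1 / 2)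
    (hb : ∀ z, (∀ i, nm (z i - x i) < r) → nm (ev z g) ≤ b) (hs : 0 ≤ s) (hs' : s ≤ 1 / 24)
    (hy : ∀ i, nm (y i - x i) ≤ s) (d : ℕ) :
    nm (ev y g) ≤ 6 * a * (12 * s) ^ d + 3 * d * b * (6 / r) ^ d := by
  have hp : ∀ z : I → Cs, (∀ i, nm (z i - x i) < 1 / 2) → Pt z := fun z hz i => by
    have : nm (z i) ≤ nm (z i - x i) + nm (x i) := by simpa using nm.add_le (z i - x i) (x i)
    linarith [hz i, hx i]
  have py := hp y fun i => (hy i).trans_lt (hs'.trans_lt (by norm_num))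
  obtain ⟨f, rfl⟩ := H.mk_surj g
  obtain ⟨u, rfl⟩ := vec_surj x
  obtain ⟨v, rfl⟩ := vec_surj y
  obtain ⟨a, rfl⟩ := sr_surj a
  obtain ⟨b, rfl⟩ := sr_surj b
  obtain ⟨r, rfl⟩ := sr_surj r
  obtain ⟨s, rfl⟩ := sr_surj s
  have e : ∀ c : ℝ, sr (fun _ => 1 / c) = 1 / (c : ℝ*) := fun c => rfl
  have h1 := (forall_seq (p := fun n z => ‖z‖ < r n → ‖f.1 n (u n + z)‖ ≤ b n)).1 fun w => by
    rw [Ultrafilter.eventually_imp]
    intro hw
    have h2 : ∀ i, nm (vec (u + w) i - vec u i) < sr r := fun i =>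
      sr_lt.2 (hw.mono fun n hn => by simpa using (norm_le_pi_norm _ i).trans_lt hn)
    have := hb _ h2
    rwa [ev_mk (hp _ fun i => (h2 i).trans_le hr'), nm_qs, sr_le] at this
  rw [ev_mk py]
  refine (sr_le (v := 6 * a * (12 * s) ^ d + 3 * d * b * (6 / r) ^ d)).2 ?_ |>.trans_eq (by
    simp only [map_add, map_mul, map_pow, map_ofNat, map_natCast]
    rfl)
  filter_upwards [le_mk.1 h, h1, (nm_vec_le (r := fun _ => 1 / 2) (hr.le.trans hr')).1 hx,
    (nm_vec_le (u := v - u) hs).1 hy, (sr_lt (u := 0)).1 hr, (sr_le (v := fun _ => 1 / 2)).1 hr',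
    (sr_le (v := fun _ => 1 / 24)).1 hs'] with n h2 h3 h4 h5 h6 h7 h8
  have h6 : 0 < r n := h6
  have h5 : ‖v n - u n‖ ≤ s n := h5
  have h9 : ∀ z ∈ ball 0 (1 / 2), u n + z ∈ ball (0 : I → ℂ) 1 := fun z hz => by
    rw [mem_ball_zero_iff] at hz ⊢
    linarith [norm_add_le (u n) z]
  have h10 : DifferentiableOn ℂ (fun z => f.1 n (u n + z)) (ball 0 (1 / 2)) :=
    (f.2 n).comp (by fun_prop) h9
  have h11 := norm_sub_tser_le h10 (fun z hz => h2 _ (h9 z hz)) one_half_pos (z := v n - u n)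
    (by linarith) d
  have ha := (norm_nonneg _).trans (h2 0 (mem_ball_self one_pos))
  have hb := (norm_nonneg _).trans (h3 0 (by simpa))
  rw [add_sub_cancel] at h11
  refine (norm_le_norm_sub_add _ _).trans (add_le_add (h11.trans ?_) ?_)
  · change _ ≤ 6 * a n * (12 * s n) ^ d
    gcongr
    linarith
  · refine (norm_sum_le _ _).trans ((Finset.sum_le_card_nsmul _ _ (3 * b n * (6 / r n) ^ d)
      fun k hk => ?_).trans_eq (by simp; ring))
    refine (ContinuousMultilinearMap.le_opNorm _ _).trans ((mul_le_of_le_one_right (norm_nonneg _)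
      (Finset.prod_le_one (fun _ _ => norm_nonneg _) fun _ _ => by linarith)).trans
      ((norm_tser_le (h10.mono (ball_subset_ball h7)) (fun z hz => h3 z (mem_ball_zero_iff.1 hz))
        h6 k).trans ?_))
    gcongr
    exacts [(one_le_div h6).2 (by linarith), (Finset.mem_range.1 hk).le]

/-- The standard part of a bounded function. -/
theorem exists_std (h : ∀ x, Pt x → Lc (nm (ev x g)) 1) : ∃ G : (I → ℂ) → ℂ,
    DifferentiableOn ℂ G (ball 0 1) ∧
      ∀ p ∈ ball 0 1, ∀ x, Near x p → Ll (nm (ev x g - co (G p))) 1 := by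
  obtain ⟨k, hk⟩ := exists_le_lc zero_le_one h
  have h1 : ∀ p ∈ ball (0 : I → ℂ) 1, Pt fun i => co (p i) := fun p hp =>
    (near_co p).pt (mem_ball_zero_iff.1 hp)
  refine ⟨fun p => stc (ev (fun i => co (p i)) g), ?_, fun p hp x hx => near_trans
    ((hk.near (mem_ball_zero_iff.1 hp) (near_co p) hx).trans_lc ⟨k, by simp⟩ zero_le_one)
    (near_stc (h _ (h1 p hp)))⟩
  obtain ⟨f, rfl⟩ := H.mk_surj g
  rw [mul_one, ← coe_nat, sr_const, le_mk] at hk
  exact diffOn_lim (hk.mono fun n hn => ⟨f.2 n, hn⟩) fun p hp =>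
    near_qs.1 (ev_mk (u := fun _ => p) (h1 p hp) f ▸ near_stc (h _ (h1 p hp)))

variable [DecidableEq I]

theorem Stab.dd (h : Stab g) {r : ℝ} (hr : r < 1) (hx : ∀ i, nm (x i) ≤ r) (i : I) :
    Ll (nm (ev x (dd i g))) (nm (ev 0 g)) := by
  obtain ⟨c, h1, h2⟩ := exists_le_ll (g := g - cn (ev 0 g)) (by simpa using h.2)
  have h3 := h2.cauchy hx ((nm.nonneg _).trans (hx i)) (by exact_mod_cast hr) i
  rw [map_sub, dd_cn, sub_zero, ← div_mul_eq_mul_div] at h3
  exact Ll.le_trans h3 (Lc.trans_ll (by exact_mod_cast lc_coe_mul (2 / (1 - r)) h2.nonneg) h1)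

theorem dw_mk (f : HS I) {k : ℕ} (σ : Fin k → I) : ∃ f' : HS I, dw (List.ofFn σ) (H.mk f) = H.mk f' ∧
    ∀ n, ∀ z ∈ ball 0 1, f'.1 n z = iteratedFDeriv ℂ k (f.1 n) z fun l => Pi.single (σ l) 1 := by
  induction k with
  | zero => exact ⟨f, rfl, fun _ _ _ => rfl⟩
  | succ k ih =>
    obtain ⟨f', h1, h2⟩ := ih fun l => σ l.succ
    refine ⟨_, by rw [List.ofFn_succ, dw, h1, dd_mk], fun n z hz => ?_⟩
    rw [iteratedFDeriv_succ_apply_left, ← fderiv_continuousMultilinear_apply_const_apply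
      ((((contDiffOn_of_diffOn isOpen_ball (1 + k) (f.2 n)).contDiffAt
        (isOpen_ball.mem_nhds hz)).iteratedFDeriv_right (m := 1) (by simp)).differentiableAt
        one_ne_zero)]
    exact congrArg (· (Pi.single (σ 0) 1)) (Filter.EventuallyEq.fderiv_eq (𝕜 := ℂ)
      (mem_of_superset (isOpen_ball.mem_nhds hz) (h2 n)))

theorem ev_dw_mk (f : HS I) {k : ℕ} (σ : Fin k → I) : ev 0 (dw (List.ofFn σ) (H.mk f)) =
    k.factorial * qs fun n => tser (f.1 n) k fun l => Pi.single (σ l) 1 := by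
  obtain ⟨f', h1, h2⟩ := dw_mk f σ
  rw [h1, ev_zero_mk, ← map_natCast qs, ← map_mul]
  exact congrArg qs (funext fun n => by
    simp [tser, h2 n 0 (mem_ball_self one_pos), k.factorial_ne_zero])

theorem Le.dw (h : Le g a) (l : List I) : Lc (nm (ev 0 (dw l g))) a := by
  have h0 := h.nonneg
  obtain ⟨f, rfl⟩ := H.mk_surj g
  obtain ⟨a, rfl⟩ := sr_surj a
  rw [← List.ofFn_get l, ev_dw_mk, map_mul, nm_nat]
  refine Lc.trans ⟨_, le_rfl⟩ (Lc.le_trans (sr_le.2 ((le_mk.1 h).mono fun n hn => ?_))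
    (lc_coe_mul (3 * 6 ^ l.length) h0))
  refine (ContinuousMultilinearMap.le_opNorm _ _).trans ?_
  simpa [Pi.norm_single, mul_right_comm] using norm_tser_le (f.2 n) hn one_pos l.length

/-- The Taylor expansion at the origin. -/
theorem taylor (h : Le g a) (hs : 0 ≤ b) (hs' : b ≤ 1 / 12) (hx : ∀ i, nm (x i) ≤ b) (d : ℕ) :
    nm (ev x g - ∑ k ∈ Finset.range d, ∑ σ : Fin k → I,
      ev 0 (dw (List.ofFn σ) g) / k.factorial * ∏ l, x (σ l)) ≤ 6 * a * (6 * b) ^ d := by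
  have px := pt_of_le hx (hs'.trans_lt (by norm_num))
  obtain ⟨f, rfl⟩ := H.mk_surj g
  obtain ⟨u, rfl⟩ := vec_surj x
  obtain ⟨a, rfl⟩ := sr_surj a
  obtain ⟨b, rfl⟩ := sr_surj b
  have e : ∀ k : ℕ, (k.factorial : Cs) ≠ 0 := fun k => Nat.cast_ne_zero.2 k.factorial_ne_zero
  simp only [ev_mk px, ev_dw_mk, mul_div_cancel_left₀ _ (e _), vec, ← map_prod, ← map_mul, ← map_sum,
    ← map_sub]
  refine (sr_le (v := 6 * a * (6 * b) ^ d)).2 ?_ |>.trans_eq (by
    simp only [map_mul, map_pow, map_ofNat])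
  filter_upwards [le_mk.1 h, (nm_vec_le hs).1 hx, (sr_le (v := fun _ => 1 / 12)).1 hs'] with n h1 h2 h3
  have h4 := norm_sub_tser_le (f.2 n) h1 one_pos (h2.trans h3) d
  have ha := (norm_nonneg _).trans (h1 0 (mem_ball_self one_pos))
  refine le_trans (le_of_eq ?_) (h4.trans ?_)
  · simp only [Function.comp, Pi.sub_apply, Finset.sum_apply, Pi.mul_apply, Finset.prod_apply]
    congr 2
    refine Finset.sum_congr rfl fun k _ => ?_
    conv_rhs => rw [pi_eq_sum_univ' (u n), ContinuousMultilinearMap.map_sum]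
    exact Finset.sum_congr rfl fun σ _ => by
      rw [ContinuousMultilinearMap.map_smul_univ, smul_eq_mul, mul_comm]
  · change _ ≤ 6 * a n * (6 * b n) ^ d
    rw [div_one]
    gcongr

end

end Pool.Agent.P.MP_f17f76_ag.N
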