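import Pool.Agent.P.MP_f17f76_ag.E.Tau
import Pool.Agent.P.MP_f17f76_ag.E.Hol3
import Pool.Agent.P.MP_f17f76_ag.K.RC

/-!
A function that is not frozen is bounded below near a real point of a small polydisc.
-/

namespace Pool.Agent.P.MP_f17f76_ag.N

open Set Filter Topology Metric

variable {I : Type} [Fintype I] {T a : ℝ*} {g : H I} {e : Cs}

theorem exists_real_ne {G : (I → ℂ) → ℂ} (h : DifferentiableOn ℂ G (ball 0 1)) {q : I → ℂ}
    (hq : q ∈ ball 0 1) (h0 : G q ≠ 0) : ∃ p ∈ ball (0 : I → ℂ) 1, (∀ i, (p i).im = 0) ∧ G p ≠ 0 := by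
  by_contra h1
  push Not at h1
  have e : (fun i => ((q i).re : ℂ)) + Complex.I • (fun i => ((q i).im : ℂ)) = q :=
    funext fun i => by simpa [mul_comm] using Complex.re_add_im (q i)
  have h2 : (fun i => ((q i).re : ℂ)) ∈ ball (0 : I → ℂ) 1 := by
    simp only [mem_ball_zero_iff, pi_norm_lt_iff one_pos] at hq ⊢
    exact fun i => ((Complex.norm_real _).trans_le (Complex.abs_re_le_norm _)).trans_lt (hq i)
  refine h0 (e ▸ K.line_id isOpen_ball (convex_ball 0 1) (fun x v => h.comp (by fun_prop)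
    fun _ ht => ht) h2 ?_ (e.symm ▸ hq))
  have h3 : Continuous fun s : ℝ => (fun i => ((q i).re : ℂ)) + (s : ℂ) • fun i => ((q i).im : ℂ) := by
    fun_prop
  filter_upwards [h3.continuousAt.eventually ((isOpen_ball (x := 0) (ε := 1)).mem_nhds
    (by simpa using h2))] with s hs
  exact h1 _ hs fun i => by simp

variable [DecidableEq I]

theorem dw_cn_mul (c : Cs) (l : List I) (g : H I) : dw l (cn c * g) = cn c * dw l g := by
  induction l with
  | nil => rfl
  | cons i l h => simp [dw, h]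

theorem exists_box₀ (hT : Ll 1 T) (h : Le g a) (ha : Poly T a) {l : List I}
    (hl : ¬ Tiny T (nm (ev 0 (dw l g)))) (h0 : e ≠ 0) (he : Sm T (nm e)) (he' : Poly T (nm e)⁻¹) :
    ∃ p : I → ℂ, ‖p‖ < 1 ∧ (∀ i, (p i).im = 0) ∧ ∃ k : ℕ, ∀ y, Near y p →
      1 ≤ nm (ev (e • y) g) * T ^ k := by
  have e0 := nm.pos h0
  have e1 := (he.ll hT).le
  have d1 : ∀ l, ev 0 (dw l (pull (sc e) g)) = e ^ l.length * ev 0 (dw l g) := fun l => by
    rw [dw_sc e1, map_mul, ev_cn, ev_sc e1 .zero, smul_zero]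
  obtain ⟨b0, b1⟩ := (not_tiny hT (nm.nonneg _)).1 hl
  have b2 : 0 < nm (ev 0 (dw l (pull (sc e) g))) := by
    rw [d1, map_mul, map_pow]
    positivity
  have b3 : Poly T (nm (ev 0 (dw l (pull (sc e) g))))⁻¹ := by
    rw [d1, map_mul, map_pow, mul_inv, ← inv_pow]
    exact (he'.pow (inv_pos.2 e0).le _).mul hT b1 (inv_pos.2 b0).le
  obtain ⟨m, hm⟩ := (Poly.of_lc hT (a := 6 * a) ⟨6, by simp⟩ ha).mul hT b3 (inv_pos.2 b2).le
  obtain ⟨d, hd⟩ := (he.of_lc hT (a := 6 * nm e) (by positivity) e0.le ⟨6, by simp⟩).pow_le hT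
    (by positivity) m
  obtain ⟨α, hα⟩ : ∃ α, α = ∑ k ∈ Finset.range (d + l.length + 1), ∑ σ : Fin k → I,
    nm (ev 0 (dw (List.ofFn σ) (pull (sc e) g))) := ⟨_, rfl⟩
  have a1 : nm (ev 0 (dw l (pull (sc e) g))) ≤ α := hα ▸ le_trans (by
      simpa using Finset.single_le_sum (f := fun σ : Fin l.length → I =>
        nm (ev 0 (dw (List.ofFn σ) (pull (sc e) g)))) (fun _ _ => nm.nonneg _)
        (Finset.mem_univ l.get))
    (Finset.single_le_sum (f := fun k => ∑ σ : Fin k → I,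
      nm (ev 0 (dw (List.ofFn σ) (pull (sc e) g))))
      (fun _ _ => Finset.sum_nonneg fun _ _ => nm.nonneg _) (by simp))
  have a0 := b2.trans_le a1
  have a2 : ∀ x, Pt x → Lc (nm (ev x (cn (ofR α⁻¹) * pull (sc e) g))) 1 := fun x hx => by
    rw [map_mul, ev_cn, map_mul, nm_ofR_of_nonneg (inv_pos.2 a0).le, ← div_eq_inv_mul, lc_div a0,
      ev_sc e1 hx]
    refine lc_of_near' (.le_trans (taylor h e0.le (by
      have := he.ll hT 12
      push_cast at this
      linarith) (x := e • x) (fun i => by simpa using mul_le_of_le_one_right e0.le (hx i).le)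
      (d + l.length + 1)) (.of_le (le_trans ?_ a1))) (.of_le ?_)
    · rw [← div_le_one b2, mul_div_right_comm, div_eq_mul_inv, mul_comm]
      exact (mul_le_mul_of_nonneg_left hm (by positivity)).trans (hd _ (by omega))
    · refine (nm.sum_le _ _).trans (hα ▸ Finset.sum_le_sum fun k _ => (nm.sum_le _ _).trans
        (Finset.sum_le_sum fun σ _ => ?_))
      simp only [d1, List.length_ofFn, Pi.smul_apply, smul_eq_mul, Finset.prod_mul_distrib,
        Finset.prod_const, Finset.card_univ, Fintype.card_fin, map_mul, map_div₀, nm_nat, map_prod]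
      rw [mul_left_comm]
      exact mul_le_mul_of_nonneg_left ((mul_le_of_le_one_right (by positivity)
        (Finset.prod_le_one (fun _ _ => nm.nonneg _) fun _ _ => (hx _).le)).trans
        (div_le_self (nm.nonneg _) (Nat.one_le_cast.2 k.factorial_pos))) (nm.nonneg _)
  obtain ⟨G, g1, g2⟩ := exists_std a2
  have h1 : nm (2⁻¹ : Cs) = 2⁻¹ := by simpa using nm_nat 2
  have h2 : nm (2⁻¹ : Cs) ≤ 1 := h1 ▸ by norm_num
  obtain ⟨q, q1, q2⟩ : ∃ q ∈ ball 0 1, G q ≠ 0 := by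
    by_contra h3
    push Not at h3
    obtain ⟨c, c1, c2⟩ := exists_le_ll (b := 1)
      (g := pull (sc 2⁻¹) (cn (ofR α⁻¹) * pull (sc e) g)) fun x hx => by
        have h4 : Near ((2⁻¹ : Cs) • x) fun i => 2⁻¹ * stc (x i) := fun i => by
          rw [map_mul, map_inv₀, map_ofNat, Pi.smul_apply, smul_eq_mul, ← mul_sub, map_mul]
          exact .le_trans (mul_le_of_le_one_left (nm.nonneg _) h2) (near_stc (.of_le (hx i).le))
        have h5 : (fun i => 2⁻¹ * stc (x i)) ∈ ball (0 : I → ℂ) 1 := by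
          refine mem_ball_zero_iff.2 ((pi_norm_lt_iff one_pos).2 fun i => ?_)
          have h6 := (nm.le_sub _ _).trans ((near_symm (h4 i)).le_coe (δ := 4⁻¹) (by norm_num))
          have h7 := (hx i).le
          rw [Pi.smul_apply, smul_eq_mul, map_mul nm, h1, nm_co] at h6
          rw [← Hyperreal.coe_lt_coe]
          push_cast at h6 ⊢
          linarith
        simpa [h3 _ h5, ← ev_sc h2 hx] using g2 _ h5 _ h4
    refine a0.not_ge (Ll.self ?_)
    nth_rewrite 1 [hα]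
    refine .sum a0.le fun k _ => .sum a0.le fun σ _ => ?_
    have h4 := (c2.dw (List.ofFn σ)).trans_ll c1
    rw [dw_sc h2, map_mul, ev_cn, ev_sc h2 .zero, smul_zero, dw_cn_mul, map_mul (ev 0), ev_cn,
      map_mul, map_mul, nm_ofR_of_nonneg (inv_pos.2 a0).le, ← div_eq_inv_mul, map_pow, h1] at h4
    refine (ll_div a0).1 (Lc.trans_ll ⟨2 ^ k, ?_⟩ h4)
    simp [← mul_assoc, ← mul_pow]
  obtain ⟨p, p1, p2, p3⟩ := exists_real_ne g1 q1 q2
  obtain ⟨k, hk⟩ := (poly_inv_iff a0).1 (b3.inv_of_lc hT (.of_le a1) b2 a0.le)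
  refine ⟨p, mem_ball_zero_iff.1 p1, p2, k + 1, fun y hy => ?_⟩
  obtain ⟨j, h3⟩ := lc_one_of_near (g2 p p1 y hy) p3
  rw [map_mul, ev_cn, map_mul, nm_ofR_of_nonneg (inv_pos.2 a0).le, ← div_eq_inv_mul,
    ev_sc e1 (hy.pt (mem_ball_zero_iff.1 p1)), ← mul_div_assoc, one_le_div a0] at h3
  refine hk.trans ?_
  rw [pow_succ', ← mul_assoc, mul_comm _ T]
  exact mul_le_mul_of_nonneg_right (h3.trans (mul_le_mul_of_nonneg_right (hT.nat_le j)
    (nm.nonneg _))) (pow_pos hT.pos k).le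

/-- A function which is not frozen is bounded below on a small box around a real point. -/
theorem exists_box (hT : Ll 1 T) (h : g ∈ PB I hT) (hf : ¬ Frz T g) (h0 : e ≠ 0)
    (he : Sm T (nm e)) (he' : Poly T (nm e)⁻¹) :
    ∃ p : I → ℂ, ‖p‖ < 1 ∧ (∀ i, (p i).im = 0) ∧ ∃ k : ℕ, ∀ y, Near y p →
      1 ≤ nm (ev (e • y) g) * T ^ k := by
  have h1 : nm (2⁻¹ : Cs) = 2⁻¹ := by simpa using nm_nat 2
  have h2 : nm (2⁻¹ : Cs) ≤ 1 := h1 ▸ by norm_num
  have h3 : nm (2 * e) = 2 * nm e := by simpa using congrArg (· * nm e) (nm_nat 2)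
  obtain ⟨k, hk⟩ := exists_le_poly (g := pull (sc 2⁻¹) g) hT.one_lt.le fun y hy => by
    rw [ev_sc h2 hy]
    refine h _ ⟨2⁻¹, by norm_num, fun j => ?_⟩
    rw [Pi.smul_apply, smul_eq_mul, map_mul, h1]
    simpa using (hy j).le
  obtain ⟨l, hl⟩ := not_forall.1 (mt (frz_iff_dw hT h).2 hf)
  have e0 := nm.pos h0
  obtain ⟨p, p1, p2, j, p3⟩ := exists_box₀ (e := 2 * e) (l := l) hT hk (poly_pow k) (fun h4 => by
      rw [dw_sc h2, map_mul, ev_cn, ev_sc h2 .zero, smul_zero, map_mul, map_pow, h1] at h4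
      exact hl (h4.of_lc hT ⟨2 ^ l.length, by simp [← mul_assoc, ← mul_pow]⟩))
    (mul_ne_zero two_ne_zero h0) (h3 ▸ he.of_lc hT (by positivity) e0.le ⟨2, by simp⟩)
    (he'.inv_of_lc hT (.of_le (by linarith)) e0 (nm.nonneg _))
  refine ⟨p, p1, p2, j, fun y hy => ?_⟩
  have := p3 y hy
  rwa [ev_sc h2, smul_smul, ← mul_assoc, inv_mul_cancel₀ two_ne_zero, one_mul] at this
  intro i
  have h4 := he.ll hT 4
  have h5 := mul_le_of_le_one_right (nm.nonneg (2 * e)) (hy.pt p1 i).le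
  rw [Pi.smul_apply, smul_eq_mul, map_mul]
  push_cast at h4
  linarith

end Pool.Agent.P.MP_f17f76_ag.N
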