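import Pool.Agent.P.MP_f17f76_ag.E.Plc

/-!
The Taylor map of one derivation, integral power series and embeddings of power series rings.
-/

namespace Pool.Agent.P.MP_f17f76_ag.E

open Set PowerSeries Cardinal

variable {K : Type} [Field K]

/-- A derivation applied to all coefficients. -/
noncomputable def mapc (e : Der K) (f : K⟦X⟧) : K⟦X⟧ := PowerSeries.mk fun n => e (coeff n f)

@[simp] theorem coeff_mapc (e : Der K) (f : K⟦X⟧) (n : ℕ) : coeff n (mapc e f) = e (coeff n f) :=
  coeff_mk _ _

theorem mapc_add (e : Der K) (f g : K⟦X⟧) : mapc e (f + g) = mapc e f + mapc e g := by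
  ext n; simp

theorem mapc_mul (e : Der K) (f g : K⟦X⟧) : mapc e (f * g) = f * mapc e g + g * mapc e f := by
  ext n
  rw [mul_comm g]
  simp only [coeff_mapc, coeff_mul, map_sum, map_add, Derivation.leibniz, smul_eq_mul,
    ← Finset.sum_add_distrib]
  exact Finset.sum_congr rfl fun p _ => by ring

@[simp] theorem mapc_zero (e : Der K) : mapc e 0 = 0 := by ext n; simp

theorem mapc_C (e : Der K) (a : K) : mapc e (C a) = C (e a) := by
  ext n
  rw [coeff_mapc, coeff_C, coeff_C]
  split_ifs <;> simp

theorem mapc_X (e : Der K) : mapc e X = 0 := by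
  ext n
  rw [coeff_mapc, coeff_X]
  split_ifs <;> simp

theorem mapc_sum (e : Der K) {ι : Type} (s : Finset ι) (f : ι → K⟦X⟧) :
    mapc e (∑ i ∈ s, f i) = ∑ i ∈ s, mapc e (f i) := by
  ext n; simp

theorem mapc_C_mul {e : Der K} {a : K} (h : e a = 0) (f : K⟦X⟧) :
    mapc e (C a * f) = C a * mapc e f := by
  ext n; simp [h]

theorem const_mapc (e : Der K) (f : K⟦X⟧) : constantCoeff (mapc e f) = e (constantCoeff f) := by
  rw [← coeff_zero_eq_constantCoeff_apply, ← coeff_zero_eq_constantCoeff_apply, coeff_mapc]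

theorem deriv_mapc (e : Der K) (f : K⟦X⟧) : d⁄dX K (mapc e f) = mapc e (d⁄dX K f) := by
  ext n
  have : e ((n : K) + 1) = 0 := by rw [← Nat.cast_succ]; exact e.map_natCast _
  simp [coeff_derivative, this, mul_comm]

/-- A derivation along an injective ring homomorphism extends to the field. -/
theorem exists_der_hom [CharZero K] {S : Type} [CommRing S] (i : S →+* K)
    (hi : Function.Injective i) (d : S → S) (h1 : ∀ a b, d (a + b) = d a + d b)
    (h2 : ∀ a b, d (a * b) = a * d b + b * d a) : ∃ D : Der K, ∀ a, D (i a) = i (d a) := by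
  have := hi.isDomain
  have hd1 : d 1 = 0 := by simpa using h2 1 1
  have hd0 : d 0 = 0 := by simpa using h1 0 0
  let φ : S →+* DualNumber K :=
    { toFun := fun a => TrivSqZeroExt.inl (i a) + TrivSqZeroExt.inr (i (d a))
      map_one' := by ext <;> simp [hd1]
      map_mul' := fun a b => by ext <;> simp [h2, mul_comm]
      map_zero' := by ext <;> simp [hd0]
      map_add' := fun a b => by ext <;> simp [h1] }
  have hu : ∀ y : nonZeroDivisors S, IsUnit (φ y) := fun y =>
    TrivSqZeroExt.isUnit_iff_isUnit_fst.2 (by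
      simpa [φ] using (map_ne_zero_iff i hi).2 (nonZeroDivisors.ne_zero y.2))
  let ψ : FractionRing S →+* DualNumber K := IsLocalization.lift hu
  let j : FractionRing S →+* K := (TrivSqZeroExt.fstHom K K K).toRingHom.comp ψ
  have hψ : ∀ a, ψ (algebraMap S _ a) = φ a := IsLocalization.lift_eq hu
  let e := j.rangeRestrictFieldEquiv
  obtain ⟨D, hD, -⟩ := exists_der_ext j.fieldRange
    { toFun := fun a => (ψ (e.symm a)).snd
      map_zero' := by simp
      map_add' := fun a b => by simp } (fun a b => by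
      have h3 : ∀ c : j.fieldRange, (ψ (e.symm c)).fst = c := fun c =>
        congrArg Subtype.val (e.apply_symm_apply c)
      change (ψ (e.symm (a * b))).snd = a * (ψ (e.symm b)).snd + b * (ψ (e.symm a)).snd
      rw [map_mul, map_mul, TrivSqZeroExt.snd_mul, h3, h3, smul_eq_mul, op_smul_eq_mul,
        mul_comm _ (b : K)]) (ι := Empty) (v := Empty.elim) algebraicIndependent_empty_type Empty.elim
  refine ⟨D, fun a => ?_⟩
  have h4 := hD (e (algebraMap S _ a))
  have h5 : ((e (algebraMap S _ a) : j.fieldRange) : K) = i a := by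
    change (ψ _).fst = _
    simp [hψ, φ]
  rw [h5] at h4
  simpa [hψ, φ] using h4

/-- The power series ring embeds into the field over every countable set. -/
theorem exists_series_emb [IsAlgClosed K] [Uncountable K] (hK : #K = 𝔠) {F : Set K}
    (hF : F.Countable) : ∃ i : K⟦X⟧ →+* K, Function.Injective i ∧ ∀ x ∈ F, i (C x) = x := by
  have : Countable (Subfield.closure F) := countable_closure hF
  have hc : #(FractionRing K⟦X⟧) ≤ #K := by
    rw [mk_fractionRing]
    refine (mk_le_of_injective (f := fun (f : K⟦X⟧) (n : ℕ) => coeff n f) fun f g h =>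
      PowerSeries.ext fun n => congrFun h n).trans ?_
    simp [hK]
  obtain ⟨ψ, hψ⟩ := exists_hom_of_ker hc (((algebraMap K⟦X⟧ (FractionRing K⟦X⟧)).comp C).comp
    (Subfield.closure F).subtype) (Subfield.closure F).subtype fun r => by simp
  exact ⟨ψ.comp (algebraMap _ _), ψ.injective.comp (IsFractionRing.injective _ _),
    fun x hx => hψ ⟨x, Subfield.subset_closure hx⟩⟩

section tay

variable [CharZero K] (δ : Der K)

/-- The coefficients of the Taylor series. -/
noncomputable def tayF (f : K) : K⟦X⟧ := PowerSeries.mk fun n => ((n.factorial : K))⁻¹ * δ^[n] f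

omit [CharZero K] in
theorem const_tayF (f : K) : constantCoeff (tayF δ f) = f := by simp [tayF]

theorem deriv_tayF (f : K) : d⁄dX K (tayF δ f) = tayF δ (δ f) := by
  ext n
  have : (n : K) + 1 ≠ 0 := by exact_mod_cast n.succ_ne_zero
  have h : (n.factorial : K) ≠ 0 := by exact_mod_cast n.factorial_ne_zero
  simp only [coeff_derivative, tayF, coeff_mk, Function.iterate_succ_apply, Nat.factorial_succ]
  push_cast
  field_simp

theorem coeff_succ_eq {f g : K⟦X⟧} {n : ℕ} (h : coeff n (d⁄dX K f) = coeff n (d⁄dX K g)) :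
    coeff (n + 1) f = coeff (n + 1) g := by
  have : (n : K) + 1 ≠ 0 := by exact_mod_cast n.succ_ne_zero
  rwa [coeff_derivative, coeff_derivative, mul_left_inj' this] at h

theorem tayF_add (f g : K) : tayF δ (f + g) = tayF δ f + tayF δ g := by
  ext n
  induction n generalizing f g with
  | zero => simp [const_tayF]
  | succ n ih => exact coeff_succ_eq (by rw [map_add, deriv_tayF, deriv_tayF, deriv_tayF, map_add, ih])

theorem tayF_mul (f g : K) : tayF δ (f * g) = tayF δ f * tayF δ g := by
  ext n
  induction n generalizing f g with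
  | zero => simp [const_tayF]
  | succ n ih =>
    refine coeff_succ_eq ?_
    rw [deriv_tayF, Derivation.leibniz, Derivation.leibniz, deriv_tayF, deriv_tayF, tayF_add,
      map_add, map_add, smul_eq_mul, smul_eq_mul, ih, ih, smul_eq_mul, smul_eq_mul]

theorem tayF_const {f : K} (h : δ f = 0) : tayF δ f = C f := by
  have h0 : tayF δ 0 = 0 := by simpa using tayF_add δ 0 0
  exact derivative.ext (by rw [deriv_tayF, h, h0, derivative_C]) (by simp [const_tayF])

/-- The Taylor map `f ↦ ∑ δ ^ n f / n! X ^ n`. -/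
noncomputable def tay : K →+* K⟦X⟧ where
  toFun := tayF δ
  map_one' := tayF_const δ δ.map_one_eq_zero
  map_mul' := tayF_mul δ
  map_zero' := by simpa using tayF_add δ 0 0
  map_add' := tayF_add δ

@[simp] theorem const_tay (f : K) : constantCoeff (tay δ f) = f := const_tayF δ f

theorem deriv_tay (f : K) : d⁄dX K (tay δ f) = tay δ (δ f) := deriv_tayF δ f

theorem tay_const {f : K} (h : δ f = 0) : tay δ f = C f := tayF_const δ h

theorem eq_zero_of_deriv {f : K⟦X⟧} (h : d⁄dX K f = 0) (h0 : constantCoeff f = 0) : f = 0 :=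
  derivative.ext (by simpa using h) (by simpa using h0)

end tay

namespace Plc

variable (P : Plc K K) {f g : K⟦X⟧} {c c' : P.O.ValueGroup}

/-- All coefficients have value at most `c`. -/
def Sle (f : K⟦X⟧) (c : P.O.ValueGroup) : Prop := ∀ n, P.v (coeff n f) ≤ c

/-- The coefficientwise residue. -/
noncomputable def sp (f : K⟦X⟧) : K⟦X⟧ := PowerSeries.mk fun n => P.r (coeff n f)

@[simp] theorem coeff_sp (f : K⟦X⟧) (n : ℕ) : coeff n (P.sp f) = P.r (coeff n f) := coeff_mk _ _

theorem const_sp (f : K⟦X⟧) : constantCoeff (P.sp f) = P.r (constantCoeff f) := by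
  rw [← coeff_zero_eq_constantCoeff_apply, ← coeff_zero_eq_constantCoeff_apply, coeff_sp]

theorem sp_C (a : K) : P.sp (C a) = C (P.r a) := by
  ext n
  rw [coeff_sp, coeff_C, coeff_C]
  split_ifs <;> simp

theorem sp_X : P.sp X = X := by
  ext n
  rw [coeff_sp, coeff_X]
  split_ifs <;> simp

@[simp] theorem sp_zero : P.sp 0 = 0 := by ext n; simp

theorem sle_X : P.Sle X 1 := fun n => by
  rw [coeff_X]
  split_ifs <;> simp

variable {P}

theorem Sle.mono (h : P.Sle f c) (h' : c ≤ c') : P.Sle f c' := fun n => (h n).trans h'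

theorem sle_C {a : K} (h : P.v a ≤ c) : P.Sle (C a) c := fun n => by
  rw [coeff_C]
  split_ifs
  exacts [h, by simp]

theorem sle_zero : P.Sle 0 c := fun n => by simp

theorem Sle.add (h : P.Sle f c) (h' : P.Sle g c) : P.Sle (f + g) c := fun n => by
  rw [map_add]; exact P.v.map_add_le (h n) (h' n)

theorem Sle.sub (h : P.Sle f c) (h' : P.Sle g c) : P.Sle (f - g) c := fun n => by
  rw [map_sub]; exact P.v.map_sub_le (h n) (h' n)

theorem Sle.neg (h : P.Sle f c) : P.Sle (-f) c := fun n => by
  rw [map_neg, Valuation.map_neg]; exact h n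

theorem Sle.mul (h : P.Sle f c) (h' : P.Sle g c') : P.Sle (f * g) (c * c') := fun n => by
  rw [coeff_mul]
  exact P.v.map_sum_le fun p _ => (map_mul _ _ _).trans_le (mul_le_mul' (h _) (h' _))

theorem Sle.mul_one (h : P.Sle f 1) (h' : P.Sle g 1) : P.Sle (f * g) 1 := by
  simpa using h.mul h'

theorem sle_sum {ι : Type} {s : Finset ι} {f : ι → K⟦X⟧} (h : ∀ i ∈ s, P.Sle (f i) c) :
    P.Sle (∑ i ∈ s, f i) c := fun n => by
  rw [map_sum]; exact P.v.map_sum_le fun i hi => h i hi n

theorem Sle.const (h : P.Sle f c) : P.v (constantCoeff f) ≤ c := by simpa using h 0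

theorem sp_add (h : P.Sle f 1) (h' : P.Sle g 1) : P.sp (f + g) = P.sp f + P.sp g := by
  ext n; simp [r_add (h n) (h' n)]

theorem sp_sub (h : P.Sle f 1) (h' : P.Sle g 1) : P.sp (f - g) = P.sp f - P.sp g := by
  ext n; simp [r_sub (h n) (h' n)]

theorem sp_mul (h : P.Sle f 1) (h' : P.Sle g 1) : P.sp (f * g) = P.sp f * P.sp g := by
  ext n
  rw [coeff_sp, coeff_mul, coeff_mul, r_sum fun p _ => v_mul_le (h _) (h' _)]
  exact Finset.sum_congr rfl fun p _ => by rw [r_mul (h _) (h' _), coeff_sp, coeff_sp]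

theorem sp_sum {ι : Type} {s : Finset ι} {f : ι → K⟦X⟧} (h : ∀ i ∈ s, P.Sle (f i) 1) :
    P.sp (∑ i ∈ s, f i) = ∑ i ∈ s, P.sp (f i) := by
  ext n
  rw [coeff_sp, map_sum, map_sum, r_sum fun i hi => h i hi n]
  simp

theorem sp_eq_zero (h : P.Sle f c) (hc : c < 1) : P.sp f = 0 := by
  ext n
  rw [coeff_sp, r_of_lt ((h n).trans_lt hc), map_zero]

/-- The integral power series. -/
def intS (P : Plc K K) : Subring K⟦X⟧ where
  carrier := {f | P.Sle f 1}
  mul_mem' := Sle.mul_one
  one_mem' := sle_C (a := 1) (by simp)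
  add_mem' := Sle.add
  zero_mem' := sle_zero
  neg_mem' := Sle.neg

/-- The coefficientwise residue as a homomorphism. -/
noncomputable def spH (P : Plc K K) : P.intS →+* K⟦X⟧ where
  toFun f := P.sp f
  map_one' := by simpa using P.sp_C 1
  map_mul' f g := sp_mul f.2 g.2
  map_zero' := P.sp_zero
  map_add' f g := sp_add f.2 g.2

variable [CharZero K]

theorem v_succ (n : ℕ) : P.v ((n : K) + 1) = 1 := by
  rw [← Nat.cast_succ]; exact v_nat n.succ_ne_zero

theorem Sle.deriv (h : P.Sle f c) : P.Sle (d⁄dX K f) c := fun n => by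
  rw [coeff_derivative, map_mul, v_succ, _root_.mul_one]; exact h _

theorem sle_of_deriv (h : P.Sle (d⁄dX K f) c) (h0 : P.v (constantCoeff f) ≤ c) : P.Sle f c := by
  rintro (_ | n)
  · simpa using h0
  · simpa only [coeff_derivative, map_mul, v_succ, mul_one] using h n

theorem sp_deriv (h : P.Sle f 1) : P.sp (d⁄dX K f) = d⁄dX K (P.sp f) := by
  ext n
  rw [coeff_sp, coeff_derivative, coeff_derivative, r_mul (h _) (v_succ n).le, coeff_sp,
    ← Nat.cast_succ, r_nat, Nat.cast_succ]

theorem sle_tay {δ : Der K} {L : Set K} (h : P.Ctr δ L) (hL : ∀ x ∈ L, δ x ∈ L) {x : K}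
    (hx : x ∈ L) : P.Sle (tay δ x) (P.v x) := by
  intro n
  induction n generalizing x with
  | zero => simp
  | succ n ih =>
    have := (ih (hL x hx)).trans (h x hx)
    rwa [← deriv_tay, coeff_derivative, map_mul, v_succ, mul_one] at this

end Plc

end Pool.Agent.P.MP_f17f76_ag.E
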