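import Pool.Agent.P.MP_f17f76_ag.E.Aut
import Pool.Agent.P.MP_f17f76_ag.E.Fam

/-!
Extension, conjugation and ranks of derivations.
-/

namespace Pool.Agent.P.MP_f17f76_ag.E

open Set Module

variable {K : Type} [Field K] {F S T : Set K} {ι κ : Type}

/-- The conjugate of a derivation under an automorphism. -/
noncomputable def cjD (σ : K ≃+* K) (D : Der K) : Der K :=
  Derivation.mk' (AddMonoidHom.toIntLinearMap
    { toFun := fun x => σ (D (σ.symm x))
      map_zero' := by simp
      map_add' := fun a b => by simp }) fun a b => by simp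

theorem cjD_apply (σ : K ≃+* K) (D : Der K) (x : K) : cjD σ D x = σ (D (σ.symm x)) := rfl

@[simp] theorem cjD_map (σ : K ≃+* K) (D : Der K) (x : K) : cjD σ D (σ x) = σ (D x) := by
  rw [cjD_apply, σ.symm_apply_apply]

theorem cjD_kil (σ : K ≃+* K) {D : Der K} (h : D ∈ kil F) : cjD σ D ∈ kil (σ '' F) := by
  rintro _ ⟨x, hx, rfl⟩
  rw [cjD_map, h x hx, map_zero]

theorem cjD_kil_fix {σ : K ≃+* K} (hσ : ∀ x ∈ F, σ x = x) {D : Der K} (h : D ∈ kil F) :
    cjD σ D ∈ kil F := fun x hx => by rw [← hσ x hx, cjD_map, h x hx, map_zero]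

theorem dv_cjD (σ : K ≃+* K) (D : Der K) (u : ι → K) : dv (σ ∘ u) (cjD σ D) = σ ∘ dv u D :=
  funext fun _ => cjD_map _ _ _

theorem map_dot [Fintype ι] {K' : Type} [Field K'] (σ : K →+* K') (a b : ι → K) :
    (σ ∘ a) ⬝ᵥ (σ ∘ b) = σ (a ⬝ᵥ b) := by simp [dotProduct]

theorem dot_mem [Fintype ι] {L : Subfield K} {a b : ι → K} (ha : ∀ i, a i ∈ L)
    (hb : ∀ i, b i ∈ L) : a ⬝ᵥ b ∈ L := sum_mem fun i _ => mul_mem (ha i) (hb i)

theorem der_dot [Fintype ι] (D : Der K) (a b : ι → K) :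
    D (a ⬝ᵥ b) = a ⬝ᵥ dv b D + dv a D ⬝ᵥ b := by
  simp [dotProduct, Finset.sum_add_distrib, mul_comm]

theorem der_dot_of [Fintype ι] {D : Der K} {a : ι → K} (h : ∀ i, D (a i) = 0) (b : ι → K) :
    D (a ⬝ᵥ b) = a ⬝ᵥ dv b D := by
  rw [der_dot, show dv a D = 0 from funext h, zero_dotProduct, add_zero]

theorem dv_lie (u : ι → K) (D D' : Der K) : dv u ⁅D, D'⁆ = dv (dv u D') D - dv (dv u D) D' :=
  funext fun _ => Derivation.commutator_apply _

theorem mem_cj_map {σ : K ≃+* K} {R : Submodule K (ι → K)} {u : ι → K} :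
    σ ∘ u ∈ cj σ R ↔ u ∈ R := by
  change (fun i => σ.symm (σ (u i))) ∈ R ↔ _
  simp only [σ.symm_apply_apply]

/-- A subspace and its conjugate have the same dimension. -/
theorem finrank_cj' [Finite ι] (σ : K ≃+* K) (R : Submodule K (ι → K)) :
    finrank K (cj σ R) = finrank K R := by
  let e : R ≃+ cj σ R :=
    { toFun := fun u => ⟨σ ∘ u.1, mem_cj_map.2 u.2⟩
      invFun := fun u => ⟨fun i => σ.symm (u.1 i), u.2⟩
      left_inv := fun u => Subtype.ext (funext fun i => σ.symm_apply_apply _)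
      right_inv := fun u => Subtype.ext (funext fun i => σ.apply_symm_apply _)
      map_add' := fun u v => Subtype.ext (funext fun i => map_add σ _ _) }
  exact congrArg Cardinal.toNat (rank_eq_of_equiv_equiv σ e σ.bijective fun c u =>
    Subtype.ext (funext fun i => map_mul σ _ _)).symm

/-- The values of the rows in `R` on the derivative of `u`. -/
def nv [Fintype ι] (R : Submodule K (ι → K)) (u : ι → K) : Der K →ₗ[K] Dual K R where
  toFun D :=
    { toFun := fun n => n.1 ⬝ᵥ dv u D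
      map_add' := fun a b => add_dotProduct _ _ _
      map_smul' := fun c a => smul_dotProduct _ _ _ }
  map_add' D D' := LinearMap.ext fun n => by simp [dotProduct_add]
  map_smul' c D := LinearMap.ext fun n => by simp [dotProduct_smul]

theorem nv_apply [Fintype ι] (R : Submodule K (ι → K)) (u : ι → K) (D : Der K) (n : R) :
    nv R u D n = n.1 ⬝ᵥ dv u D := rfl

/-- A family of vectors with invertible matrix of values gives all values. -/
theorem exists_of_det {V : Type} [AddCommGroup V] [Module K V] [Fintype κ] [DecidableEq κ]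
    {W : Submodule K V} (Φ : V →ₗ[K] κ → K) {X : κ → V} (hX : ∀ l, X l ∈ W)
    (hd : (Matrix.of fun j l => Φ (X l) j).det ≠ 0) (c : κ → K) : ∃ D ∈ W, Φ D = c := by
  obtain ⟨b, hb⟩ := Matrix.mulVec_surjective_iff_isUnit.2
    ((Matrix.isUnit_iff_isUnit_det _).2 hd.isUnit) c
  refine ⟨∑ l, b l • X l, W.sum_mem fun l _ => W.smul_mem _ (hX l), ?_⟩
  rw [← hb]
  funext j
  simp [Matrix.mulVec, dotProduct, mul_comm]

variable [CharZero K]

/-- A derivation over `F` can be changed to kill a free set. -/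
theorem Free.exists_der_ext (h : Free F S T) {D : Der K} (hD : D ∈ kil F) :
    ∃ D' ∈ kil (F ∪ T), ∀ x ∈ acl (F ∪ S), D' x = D x := by
  obtain ⟨B, -, h1, h2, h3⟩ := exists_basis (mt F).empty_indep (empty_subset S)
  obtain ⟨D', h4, h5⟩ := exists_der (h.ind (fun i : B => mem_acl_of_mem (Or.inr (h1 i.2))) h2)
    fun i => D i
  refine ⟨D', h4, fun x hx => sub_eq_zero.1 (acl_le_cst (D := D' - D) (F := F ∪ B) ?_
    (acl_le (union_subset (subset_union_left.trans (subset_acl _)) h3) hx))⟩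
  rintro y (hy | hy)
  · simp [h4 y (Or.inl hy), hD y hy]
  · exact sub_eq_zero.2 (h5 ⟨y, hy⟩)

/-- Two derivations that agree on the base glue along free sets. -/
theorem Free.exists_der_glue (h : Free F S T) {D D₀ : Der K} (hD : ∀ x ∈ F, D x = D₀ x) :
    ∃ D' : Der K, (∀ x ∈ acl (F ∪ S), D' x = D x) ∧ ∀ x ∈ acl (F ∪ T), D' x = D₀ x := by
  obtain ⟨D', h1, h2⟩ := h.exists_der_ext (D := D - D₀) fun x hx => sub_eq_zero.2 (hD x hx)
  exact ⟨D' + D₀, fun x hx => by simp [h2 x hx], fun x hx => by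
    simp [mem_cst.1 (acl_le_cst h1 hx)]⟩

theorem der_eq_on_acl {D D' : Der K} (h : ∀ x ∈ S, D x = D' x) {x : K} (hx : x ∈ acl S) :
    D x = D' x :=
  sub_eq_zero.1 (acl_le_cst (D := D - D') (fun y hy => sub_eq_zero.2 (h y hy)) hx)

theorem finrank_map_le {W : Type} [AddCommGroup W] [Module K W] [FiniteDimensional K W]
    (Φ : Der K →ₗ[K] W) (hS : S.Finite) (h : ∀ D ∈ kil F, D ∈ kil S → Φ D = 0) :
    finrank K ((kil F).map Φ) ≤ trd F S := by
  have := hS.to_subtype
  rw [← finrank_map_kil (Φ.prod (dv ((↑) : S → K))) hS fun D hD => ?_]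
  · have : FiniteDimensional K (W × (S → K)) := Module.Finite.prod
    have := FiniteDimensional.finiteDimensional_submodule
      ((kil F).map (Φ.prod (dv ((↑) : S → K))))
    refine le_trans (le_of_eq ?_) (Submodule.finrank_map_le (LinearMap.fst K _ _) _)
    rw [← Submodule.map_comp, LinearMap.fst_prod]
  · rw [LinearMap.prod_apply, Prod.ext_iff]
    change Φ D = 0 ∧ dv _ D = 0 ↔ _
    rw [dv_eq_zero, Subtype.range_coe]
    exact ⟨fun e => e.2, fun e => ⟨h D hD e, e⟩⟩

theorem le_trd_of_surj {W : Type} [AddCommGroup W] [Module K W] [FiniteDimensional K W]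
    (Φ : Der K →ₗ[K] W) (hS : S.Finite) (h : ∀ D ∈ kil F, D ∈ kil S → Φ D = 0)
    (hs : ∀ w, ∃ D ∈ kil F, Φ D = w) : finrank K W ≤ trd F S := by
  have := finrank_map_le Φ hS h
  rwa [show (kil F).map Φ = ⊤ from eq_top_iff.2 fun w _ => hs w, finrank_top] at this

/-- A surjection onto a space of dimension at least the transcendence degree is injective. -/
theorem kil_of_surj {W : Type} [AddCommGroup W] [Module K W] [FiniteDimensional K W]
    (Φ : Der K →ₗ[K] W) (hS : S.Finite) (h : ∀ D ∈ kil F, D ∈ kil S → Φ D = 0)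
    (hs : ∀ w, ∃ D ∈ kil F, Φ D = w) (hle : trd F S ≤ finrank K W) {D : Der K} (hD : D ∈ kil F)
    (h0 : Φ D = 0) : D ∈ kil S := by
  intro x hx
  by_contra hne
  have := le_trd_of_surj (Φ.prod (dv fun _ : Unit => x)) hS
    (fun D hD e => Prod.ext (h D hD e) (funext fun _ => e x hx)) fun w => by
      obtain ⟨D', h1, h2⟩ := hs w.1
      refine ⟨D' + ((w.2 () - D' x) / D x) • D, add_mem h1 (Submodule.smul_mem _ _ hD),
        Prod.ext (by simp [h0, h2]) (funext fun _ => ?_)⟩
      simp [div_mul_cancel₀ _ hne]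
  rw [finrank_prod, finrank_fintype_fun_eq_card, Fintype.card_unit] at this
  omega

/-- An injection into a space of dimension at most the transcendence degree is surjective. -/
theorem surj_of_kil {W : Type} [AddCommGroup W] [Module K W] [FiniteDimensional K W]
    (Φ : Der K →ₗ[K] W) (hS : S.Finite) (h : ∀ D ∈ kil F, Φ D = 0 ↔ D ∈ kil S)
    (hle : finrank K W ≤ trd F S) (w : W) : ∃ D ∈ kil F, Φ D = w :=
  (Submodule.eq_top_of_finrank_eq (le_antisymm (Submodule.finrank_le _)
    (hle.trans (finrank_map_kil Φ hS h).ge))).ge trivial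

theorem ind_of_surj [Fintype ι] {y : ι → K} (h : ∀ c, ∃ D ∈ kil F, dv y D = c) : Ind F y :=
  trd_range_eq_iff.1 (le_antisymm (trd_range_le y) ((finrank_fintype_fun_eq_card K).symm.trans_le
    (le_trd_of_surj (dv y) (finite_range y) (fun _ _ => dv_eq_zero.2) h)))

theorem ind_of_dual [Fintype ι] [DecidableEq ι] {y : ι → K} {D : ι → Der K} (hD : ∀ l, D l ∈ kil F)
    (h : (Matrix.of fun j l => D l (y j)).det ≠ 0) : Ind F y :=
  ind_of_surj (exists_of_det (dv y) hD h)

/-- The partial derivatives with respect to an independent family. -/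
theorem exists_partial [DecidableEq ι] {y : ι → K} (h : Ind F y) : ∃ D : ι → Der K, ∀ l,
    D l ∈ kil F ∧ (∀ j, D l (y j) = if j = l then 1 else 0) ∧
      ∀ x ∈ acl (F ∪ range y), D l x ∈ acl (F ∪ range y) := by
  choose D h1 h2 using fun l => exists_der h fun j => if j = l then (1 : K) else 0
  refine ⟨D, fun l => ⟨h1 l, h2 l, fun x => der_mem_acl (subset_acl _) ?_⟩⟩
  rintro _ (hx | ⟨j, rfl⟩)
  · rw [h1 l _ hx]
    exact zero_mem _
  · rw [h2]
    split_ifs
    exacts [one_mem _, zero_mem _]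

/-- Expansion of a derivation in partial derivatives. -/
theorem der_expand [Fintype ι] [DecidableEq ι] {y : ι → K} {D : ι → Der K}
    (h1 : ∀ l, D l ∈ kil F) (h2 : ∀ l j, D l (y j) = if j = l then 1 else 0) {δ δ₀ : Der K}
    (h3 : ∀ x ∈ F, δ x = δ₀ x) (h4 : ∀ j, δ₀ (y j) = 0) {x : K} (hx : x ∈ acl (F ∪ range y)) :
    δ x = (δ₀ + ∑ l, δ (y l) • D l) x := by
  have key : ∀ z, (∑ l, δ (y l) • D l) z = ∑ l, δ (y l) * D l z := fun z =>
    (map_sum (dv fun _ : Unit => z) _ _ ▸ by simp : dv (fun _ : Unit => z) _ () = _)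
  refine der_eq_on_acl ?_ hx
  rintro _ (hz | ⟨j, rfl⟩)
  · simp [key, h1 _ _ hz, h3 _ hz]
  · simp [key, h2, h4]

end Pool.Agent.P.MP_f17f76_ag.E
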