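import Pool.Agent.P.MP_f17f76_ag.E.Nd
import Pool.Agent.P.MP_f17f76_ag.E.NdA

/-!
Basic properties of pairings and of nondegeneracy.
-/

namespace Pool.Agent.P.MP_f17f76_ag.AbVar

open Set Module E

variable {g N : ℕ} {A : AbVar g N} {ι κ κ' L : Type} {k : Subfield ℂ} {F F' G T : Set ℂ}
  {a a' : Fin g → ℂ} {θ : κ → Fin g → ℂ} {θ' : κ' → Fin g → ℂ} {D D' : Der ℂ}
  {R R' : Submodule ℂ (ι → ℂ)} {u u' : ι → ℂ}

theorem pv_eq_zero (h : D ∈ kil (range (A.crd a))) : A.pv θ a D = 0 :=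
  funext fun j => by rw [pv_apply, A.dl_eq_zero h, dotProduct_zero, Pi.zero_apply]

theorem pv_congr_der (h : ∀ j, D (A.crd a j) = D' (A.crd a j)) : A.pv θ a D = A.pv θ a D' :=
  funext fun j => by rw [pv_apply, pv_apply, dl_congr_der h]

theorem Over.pv_congr (h : A.Over k) (hD : D ∈ kil (k : Set ℂ)) (e : A.crd a = A.crd a') :
    A.pv θ a D = A.pv θ a' D := funext fun j => by rw [pv_apply, pv_apply, h.dl_congr hD e]

theorem Over.pv_mem (h : A.Over k) (hD : D ∈ kil (k : Set ℂ)) {M : Subfield ℂ} (hk : k ≤ M)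
    (hθ : ∀ j i, θ j i ∈ M) (hy : ∀ j, A.crd a j ∈ M) (hd : ∀ j, D (A.crd a j) ∈ M) (j : κ) :
    A.pv θ a D j ∈ M := dot_mem (hθ j) (h.dl_mem_field hD hk hy hd)

theorem Over.dl_cjD (h : A.Over k) (hD : D ∈ kil (k : Set ℂ)) {σ : ℂ ≃+* ℂ}
    (hσ : ∀ x ∈ k, σ x = x) (ha : A.crd a' = σ ∘ A.crd a) : A.dl a' (cjD σ D) = σ ∘ A.dl a D :=
  h.dl_map hD (cjD_kil_fix hσ hD) σ.toRingHom hσ ha fun _ => cjD_map _ _ _

theorem Over.pv_cjD (h : A.Over k) (hD : D ∈ kil (k : Set ℂ)) {σ : ℂ ≃+* ℂ}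
    (hσ : ∀ x ∈ k, σ x = x) (ha : A.crd a' = σ ∘ A.crd a) :
    A.pv (fun j => σ ∘ θ j) a' (cjD σ D) = σ ∘ A.pv θ a D := funext fun j => by
  rw [pv_apply, h.dl_cjD hD hσ ha]
  exact map_dot σ.toRingHom _ _

theorem Over.pv_lie (h : A.Over k) (hD : D ∈ kil (k : Set ℂ)) (hD' : D' ∈ kil (k : Set ℂ))
    (h1 : ∀ j i, D (θ j i) = 0) (h2 : ∀ j i, D' (θ j i) = 0) (a : Fin g → ℂ) :
    A.pv θ a ⁅D, D'⁆ = dv (A.pv θ a D') D - dv (A.pv θ a D) D' := funext fun j => by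
  rw [pv_apply, h.dl_closed hD hD', dotProduct_sub, ← der_dot_of (h1 j), ← der_dot_of (h2 j)]
  rfl

/-- The bracket with a derivation that kills the point. -/
theorem Over.pv_lie' (h : A.Over k) (hD : D ∈ kil (k : Set ℂ)) (hD' : D' ∈ kil (k : Set ℂ))
    (h1 : ∀ j i, D (θ j i) = 0) (h2 : D ∈ kil (range (A.crd a))) :
    A.pv θ a ⁅D, D'⁆ = dv (A.pv θ a D') D := funext fun j => by
  rw [pv_apply, h.dl_closed hD hD', A.dl_eq_zero h2, show dv (0 : Fin g → ℂ) D' = 0 from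
    funext fun _ => map_zero D', sub_zero, ← der_dot_of (h1 j)]
  rfl

/-! ### pairings -/

theorem Pair.anti (h : A.Pair F' a θ) (hF : F ⊆ acl F') : A.Pair F a θ := fun c =>
  (h c).imp fun _ h => ⟨kil_le hF h.1, h.2⟩

theorem Pair.free (h : A.Pair F a θ) (hT : E.Free F (range (A.crd a)) T) : A.Pair (F ∪ T) a θ :=
  fun c => by
    obtain ⟨D, h1, h2⟩ := h c
    obtain ⟨D', h3, h4⟩ := hT.exists_der_ext h1
    exact ⟨D', h3, h2 ▸ pv_congr_der fun j => h4 _ (mem_acl_of_mem (Or.inr ⟨j, rfl⟩))⟩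

theorem Pair.le_trd [Fintype κ] (h : A.Pair F a θ) : Fintype.card κ ≤ trd F (range (A.crd a)) :=
  (finrank_fintype_fun_eq_card ℂ).symm.trans_le
    (le_trd_of_surj (A.pv θ a) (finite_range _) (fun _ _ => pv_eq_zero) h)

theorem Pair.kil [Fintype κ] (h : A.Pair F a θ) (hle : trd F (range (A.crd a)) ≤ Fintype.card κ)
    (hD : D ∈ kil F) (h0 : A.pv θ a D = 0) : D ∈ kil (range (A.crd a)) :=
  kil_of_surj (A.pv θ a) (finite_range _) (fun _ _ => pv_eq_zero) h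
    (hle.trans_eq (finrank_fintype_fun_eq_card ℂ).symm) hD h0

theorem Pair.dual [DecidableEq κ] (h : A.Pair F a θ) :
    ∃ X : κ → Der ℂ, ∀ l, X l ∈ E.kil F ∧ A.pv θ a (X l) = Pi.single l 1 := by
  choose X hX using fun l => h (Pi.single l 1)
  exact ⟨X, hX⟩

theorem pair_of_det [Fintype κ] [DecidableEq κ] {X : κ → Der ℂ} (hX : ∀ l, X l ∈ kil F)
    (hd : (Matrix.of fun j l => A.pv θ a (X l) j).det ≠ 0) : A.Pair F a θ :=
  exists_of_det _ hX hd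

theorem pair_empty [IsEmpty κ] : A.Pair F a θ := fun _ => ⟨0, zero_mem _, Subsingleton.elim _ _⟩

theorem Pair.congr (h : A.Pair F a θ) (hA : A.Over k) (hk : (k : Set ℂ) ⊆ acl F)
    (e : A.crd a = A.crd a') : A.Pair F a' θ := fun c =>
  (h c).imp fun _ h => ⟨h.1, (hA.pv_congr (kil_le hk h.1) e).symm.trans h.2⟩

theorem Pair.map (h : A.Pair F a θ) (hA : A.Over k) (hk : (k : Set ℂ) ⊆ acl F) {σ : ℂ ≃+* ℂ}
    (hσ : ∀ x ∈ k, σ x = x) (ha : A.crd a' = σ ∘ A.crd a) :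
    A.Pair (σ '' F) a' fun j => σ ∘ θ j := fun c => by
  obtain ⟨D, h1, h2⟩ := h (σ.symm ∘ c)
  refine ⟨cjD σ D, cjD_kil σ h1, ?_⟩
  rw [hA.pv_cjD (kil_le hk h1) hσ ha, h2]
  exact funext fun j => σ.apply_symm_apply _

theorem Pair.li [Fintype κ] (h : A.Pair F a θ) : LinearIndependent ℂ θ := by
  classical
  obtain ⟨X, hX⟩ := h.dual
  refine Fintype.linearIndependent_iff.2 fun c hc l => ?_
  have := congrArg (· ⬝ᵥ A.dl a (X l)) hc
  simpa [sum_dotProduct, smul_dotProduct, ← pv_apply, (hX l).2, Pi.single_apply] using this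

/-- Prescribed values of independent forms. -/
theorem exists_dot [Fintype ι] {n : L → ι → ℂ} (h : LinearIndependent ℂ n) (c : L → ℂ) :
    ∃ v : ι → ℂ, ∀ l, n l ⬝ᵥ v = c l := by
  classical
  obtain ⟨f, hf⟩ := ((Basis.span h).constr ℂ c).exists_extend
  refine ⟨(dotProductEquiv ℂ ι).symm f, fun l => ?_⟩
  rw [dotProduct_comm, ← dotProductEquiv_apply_apply, LinearEquiv.apply_symm_apply]
  have := LinearMap.congr_fun hf (Basis.span h l)
  rwa [Basis.constr_basis, LinearMap.comp_apply, Submodule.subtype_apply, Basis.span_apply] at this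

theorem dot_span [Fintype ι] {n : L → ι → ℂ} {v w x : ι → ℂ} (h : ∀ l, n l ⬝ᵥ v = n l ⬝ᵥ w)
    (hx : x ∈ Submodule.span ℂ (range n)) : x ⬝ᵥ v = x ⬝ᵥ w := by
  have : v - w ∈ ann (Submodule.span ℂ (range n)) := mem_ann_span.2 (forall_mem_range.2 fun l => by
    rw [dotProduct_comm, dotProduct_sub, h, sub_self])
  rw [← sub_eq_zero, ← dotProduct_sub, dotProduct_comm]
  exact this x hx

/-- Change of the family of forms. -/
theorem Pair.of_span (h : A.Pair F a θ) (h1 : LinearIndependent ℂ θ')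
    (h2 : ∀ j, θ' j ∈ Submodule.span ℂ (range θ)) : A.Pair F a θ' := fun c => by
  obtain ⟨v, hv⟩ := exists_dot h1 c
  obtain ⟨D, h3, h4⟩ := h fun j => θ j ⬝ᵥ v
  exact ⟨D, h3, funext fun j => (dot_span (congrFun h4) (h2 j)).trans (hv j)⟩

/-! ### nondegeneracy -/

variable [Fintype ι] [Fintype κ]

theorem Ndg.surj (h : A.Ndg R F u a θ) (w : Dual ℂ R × (κ → ℂ)) :
    ∃ D ∈ kil F, ((nv R u).prod (A.pv θ a)) D = w :=
  (h.ex w.1 w.2).imp fun _ h => ⟨h.1, Prod.ext (LinearMap.ext h.2.1) h.2.2⟩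

omit [Fintype κ] in
theorem nv_pv_zero (h : D ∈ kil (range u ∪ range (A.crd a))) :
    ((nv R u).prod (A.pv θ a)) D = 0 := by
  rw [kil_union] at h
  exact Prod.ext (LinearMap.ext fun n => by
    change n.1 ⬝ᵥ dv u D = 0
    rw [dv_eq_zero.2 h.1, dotProduct_zero]) (pv_eq_zero h.2)

theorem finrank_nv_pv (R : Submodule ℂ (ι → ℂ)) (κ : Type) [Fintype κ] :
    finrank ℂ (Dual ℂ R × (κ → ℂ)) = finrank ℂ R + Fintype.card κ := by
  rw [finrank_prod, Subspace.dual_finrank_eq, finrank_fintype_fun_eq_card]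

theorem Ndg.trd_eq (h : A.Ndg R F u a θ) :
    trd F (range u ∪ range (A.crd a)) = finrank ℂ R + Fintype.card κ :=
  h.le.antisymm ((finrank_nv_pv R κ).symm.trans_le (le_trd_of_surj _
    ((finite_range _).union (finite_range _)) (fun _ _ => nv_pv_zero) h.surj))

/-- Uniqueness: a thin derivation killed by all rows vanishes. -/
theorem Ndg.kil (h : A.Ndg R F u a θ) (hD : D ∈ kil F) (h1 : ∀ n ∈ R, n ⬝ᵥ dv u D = 0)
    (h2 : A.pv θ a D = 0) : D ∈ kil (range u ∪ range (A.crd a)) :=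
  kil_of_surj _ ((finite_range _).union (finite_range _)) (fun _ _ => nv_pv_zero) h.surj
    (h.le.trans_eq (finrank_nv_pv R κ).symm) hD (Prod.ext (LinearMap.ext fun n => h1 n n.2) h2)

theorem Ndg.eq_on (h : A.Ndg R F u a θ) (hD : ∀ x ∈ F, D x = D' x)
    (h1 : ∀ n ∈ R, n ⬝ᵥ dv u D = n ⬝ᵥ dv u D') (h2 : A.pv θ a D = A.pv θ a D') {x : ℂ}
    (hx : x ∈ acl (F ∪ (range u ∪ range (A.crd a)))) : D x = D' x := by
  have h3 := h.kil (D := D - D') (fun x hx => sub_eq_zero.2 (hD x hx))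
    (fun n hn => by rw [map_sub, dotProduct_sub, h1 n hn, sub_self]) (by rw [map_sub, h2, sub_self])
  exact der_eq_on_acl (fun y hy => hy.elim (hD y) fun hy => sub_eq_zero.1 (h3 y hy)) hx

/-- Nondegeneracy in injective form. -/
theorem ndg_of_kil (hle : finrank ℂ R + Fintype.card κ = trd F (range u ∪ range (A.crd a)))
    (h : ∀ D ∈ kil F, (∀ n ∈ R, n ⬝ᵥ dv u D = 0) → A.pv θ a D = 0 →
      D ∈ kil (range u ∪ range (A.crd a))) : A.Ndg R F u a θ :=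
  ⟨hle.ge, fun φ c => (surj_of_kil ((nv R u).prod (A.pv θ a)) ((finite_range _).union
    (finite_range _)) (fun D hD => ⟨fun e => h D hD (fun n hn => LinearMap.congr_fun
      (congrArg Prod.fst e) ⟨n, hn⟩) (congrArg Prod.snd e), nv_pv_zero⟩)
    ((finrank_nv_pv R κ).trans hle).le (φ, c)).imp fun _ h =>
      ⟨h.1, LinearMap.congr_fun (congrArg Prod.fst h.2), congrArg Prod.snd h.2⟩⟩

theorem Ndg.anti (h : A.Ndg R F' u a θ) (hF : F ⊆ acl F')
    (hle : trd F (range u ∪ range (A.crd a)) ≤ finrank ℂ R + Fintype.card κ) : A.Ndg R F u a θ :=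
  ⟨hle, fun φ c => (h.ex φ c).imp fun _ h => ⟨kil_le hF h.1, h.2⟩⟩

theorem Ndg.congr_base (h : A.Ndg R F' u a θ) (hF : F ⊆ acl F') (hF' : F' ⊆ acl F) :
    A.Ndg R F u a θ := h.anti hF ((trd_anti ((finite_range _).union (finite_range _)) hF').trans h.le)

theorem Ndg.free (h : A.Ndg R F u a θ) (hT : E.Free F (range u ∪ range (A.crd a)) T) :
    A.Ndg R (F ∪ T) u a θ := by
  refine ⟨(hT _ subset_rfl ((finite_range _).union (finite_range _))).trans_le h.le, fun φ c => ?_⟩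
  obtain ⟨D, h1, h2, h3⟩ := h.ex φ c
  obtain ⟨D', h4, h5⟩ := hT.exists_der_ext h1
  refine ⟨D', h4, fun n => ?_, h3 ▸ pv_congr_der fun j =>
    h5 _ (mem_acl_of_mem (Or.inr (Or.inr ⟨j, rfl⟩)))⟩
  rw [← h2, show dv u D' = dv u D from funext fun i =>
    h5 _ (mem_acl_of_mem (Or.inr (Or.inl ⟨i, rfl⟩)))]

/-- The data are free from a larger base over which they stay nondegenerate. -/
theorem Ndg.free_of (h : A.Ndg R F u a θ) (h' : A.Ndg R' F' u a θ)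
    (e : finrank ℂ R = finrank ℂ R') (hF : F ⊆ acl F') :
    E.Free F (range u ∪ range (A.crd a)) F' :=
  free_of_trd ((finite_range _).union (finite_range _)) (by
    rw [h.trd_eq, e, ← h'.trd_eq]
    exact trd_anti ((finite_range _).union (finite_range _)) (union_subset hF (subset_acl _)))

theorem Ndg.congr (h : A.Ndg R F u a θ) (hA : A.Over k) (hk : (k : Set ℂ) ⊆ acl F)
    (e : A.crd a = A.crd a') : A.Ndg R F u a' θ :=
  ⟨e ▸ h.le, fun φ c => (h.ex φ c).imp fun _ h =>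
    ⟨h.1, h.2.1, (hA.pv_congr (kil_le hk h.1) e).symm.trans h.2.2⟩⟩

theorem Ndg.map (h : A.Ndg R F u a θ) (hA : A.Over k) (hk : (k : Set ℂ) ⊆ acl F) {σ : ℂ ≃+* ℂ}
    (hσ : ∀ x ∈ k, σ x = x) (ha : A.crd a' = σ ∘ A.crd a) :
    A.Ndg (cj σ R) (σ '' F) (σ ∘ u) a' fun j => σ ∘ θ j := by
  have e : range (σ ∘ u) ∪ range (A.crd a') = σ '' (range u ∪ range (A.crd a)) := by
    rw [ha, range_comp, range_comp, image_union]
  refine ndg_of_kil ?_ fun D hD h1 h2 => ?_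
  · rw [e, finrank_cj', ← h.trd_eq]
    exact (trd_map σ.toRingHom ((finite_range _).union (finite_range _))).symm
  have h3 : cjD σ.symm D ∈ E.kil F := fun x hx => by
    rw [cjD_apply, σ.symm_symm, hD _ ⟨x, hx, rfl⟩, map_zero]
  have h4 : cjD σ (cjD σ.symm D) = D := Derivation.ext fun x => by simp [cjD_apply]
  rw [← h4] at h1 h2
  rw [e, ← h4]
  refine cjD_kil σ (h.kil h3 (fun n hn => σ.injective ?_) (funext fun j => σ.injective ?_))
  · rw [map_zero, ← h1 _ (mem_cj_map.2 hn), dv_cjD]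
    exact (map_dot σ.toRingHom _ _).symm
  · rw [hA.pv_cjD (kil_le hk h3) hσ ha] at h2
    exact (congrFun h2 j).trans (map_zero σ).symm

/-- Prescribed values on independent rows. -/
theorem Ndg.dual (h : A.Ndg R F u a θ) {n : L → ι → ℂ} (h1 : LinearIndependent ℂ n)
    (h2 : ∀ l, n l ∈ R) (b : L → ℂ) (c : κ → ℂ) :
    ∃ D ∈ E.kil F, (∀ l, n l ⬝ᵥ dv u D = b l) ∧ A.pv θ a D = c := by
  obtain ⟨v, hv⟩ := exists_dot h1 b
  obtain ⟨D, h3, h4, h5⟩ := h.ex ((dotProductBilin ℂ ℂ).flip v ∘ₗ R.subtype) c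
  exact ⟨D, h3, fun l => (h4 ⟨_, h2 l⟩).trans (hv l), h5⟩

theorem Ndg.vec (h : A.Ndg R F u a θ) (v : ι → ℂ) (c : κ → ℂ) :
    ∃ D ∈ E.kil F, (∀ n ∈ R, n ⬝ᵥ dv u D = n ⬝ᵥ v) ∧ A.pv θ a D = c :=
  (h.ex ((dotProductBilin ℂ ℂ).flip v ∘ₗ R.subtype) c).imp fun _ h =>
    ⟨h.1, fun n hn => h.2.1 ⟨n, hn⟩, h.2.2⟩

theorem ndg_of_vec (hle : trd F (range u ∪ range (A.crd a)) ≤ finrank ℂ R + Fintype.card κ)
    (h : ∀ v c, ∃ D ∈ kil F, (∀ n ∈ R, n ⬝ᵥ dv u D = n ⬝ᵥ v) ∧ A.pv θ a D = c) :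
    A.Ndg R F u a θ := by
  classical
  refine ⟨hle, fun φ c => ?_⟩
  obtain ⟨f, hf⟩ := φ.exists_extend
  obtain ⟨D, h1, h2, h3⟩ := h ((dotProductEquiv ℂ ι).symm f) c
  refine ⟨D, h1, fun n => ?_, h3⟩
  rw [h2 n n.2, dotProduct_comm, ← dotProductEquiv_apply_apply, LinearEquiv.apply_symm_apply]
  exact LinearMap.congr_fun hf n

theorem ndg_of_rows {n : L → ι → ℂ} (hn : R ≤ Submodule.span ℂ (range n))
    (hle : trd F (range u ∪ range (A.crd a)) ≤ finrank ℂ R + Fintype.card κ)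
    (h : ∀ (b : L → ℂ) c, ∃ D ∈ kil F, (∀ l, n l ⬝ᵥ dv u D = b l) ∧ A.pv θ a D = c) :
    A.Ndg R F u a θ :=
  ndg_of_vec hle fun v c => (h (fun l => n l ⬝ᵥ v) c).imp fun _ h =>
    ⟨h.1, fun _ hx => dot_span h.2.1 (hn hx), h.2.2⟩

/-- The values of rows and forms together. -/
noncomputable def rv (A : AbVar g N) (n : L → ι → ℂ) (u : ι → ℂ) (θ : κ → Fin g → ℂ)
    (a : Fin g → ℂ) : Der ℂ →ₗ[ℂ] (L ⊕ κ → ℂ) where
  toFun D := Sum.elim (fun l => n l ⬝ᵥ dv u D) (A.pv θ a D)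
  map_add' D D' := by ext (l | j) <;> simp [dotProduct_add]
  map_smul' c D := by ext (l | j) <;> simp [dotProduct_smul]

omit [Fintype κ] in
@[simp] theorem rv_inl (n : L → ι → ℂ) (l : L) : A.rv n u θ a D (.inl l) = n l ⬝ᵥ dv u D := rfl

omit [Fintype κ] in
@[simp] theorem rv_inr (n : L → ι → ℂ) (j : κ) : A.rv n u θ a D (.inr j) = A.pv θ a D j := rfl

theorem ndg_of_det [Fintype L] [DecidableEq L] [DecidableEq κ] {n : L → ι → ℂ}
    (hn : R ≤ Submodule.span ℂ (range n))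
    (hle : trd F (range u ∪ range (A.crd a)) ≤ finrank ℂ R + Fintype.card κ) {X : L ⊕ κ → Der ℂ}
    (hX : ∀ l, X l ∈ kil F) (hd : (Matrix.of fun j l => A.rv n u θ a (X l) j).det ≠ 0) :
    A.Ndg R F u a θ :=
  ndg_of_rows hn hle fun b c => (exists_of_det _ hX hd (Sum.elim b c)).imp fun _ h =>
    ⟨h.1, fun l => congrFun h.2 (.inl l), funext fun j => congrFun h.2 (.inr j)⟩

theorem Ndg.of_span [Fintype κ'] (h : A.Ndg R F u a θ) (h1 : LinearIndependent ℂ θ')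
    (h2 : ∀ j, θ' j ∈ Submodule.span ℂ (range θ)) (h3 : Fintype.card κ ≤ Fintype.card κ') :
    A.Ndg R F u a θ' := by
  refine ⟨h.le.trans (by omega), fun φ c => ?_⟩
  obtain ⟨v, hv⟩ := exists_dot h1 c
  obtain ⟨D, h3, h4, h5⟩ := h.ex φ fun j => θ j ⬝ᵥ v
  exact ⟨D, h3, h4, funext fun j => (dot_span (congrFun h5) (h2 j)).trans (hv j)⟩

theorem Ndg.pair₀ (h : A.Ndg R F u a θ) : A.Pair F a θ := fun c =>
  (h.ex 0 c).imp fun _ h => ⟨h.1, h.2.2⟩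

/-- The pairing persists over the values of the rows. -/
theorem Ndg.pair (h : A.Ndg R F u a θ) {n : L → ι → ℂ} (h1 : ∀ l, n l ∈ R)
    (h2 : ∀ l i, n l i ∈ acl F) : A.Pair (F ∪ range fun l => n l ⬝ᵥ u) a θ := fun c => by
  obtain ⟨D, h3, h4, h5⟩ := h.ex 0 c
  refine ⟨D, ?_, h5⟩
  rw [kil_union]
  exact ⟨h3, forall_mem_range.2 fun l =>
    (der_dot_of (fun i => acl_le_cst h3 (h2 l i)) u).trans (h4 ⟨_, h1 l⟩)⟩

theorem Ndg.ind [Fintype L] (h : A.Ndg R F u a θ) {n : L → ι → ℂ} (h0 : LinearIndependent ℂ n)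
    (h1 : ∀ l, n l ∈ R) (h2 : ∀ l i, n l i ∈ acl F) : Ind F fun l => n l ⬝ᵥ u :=
  ind_of_surj fun b => (h.dual h0 h1 b 0).imp fun _ h => ⟨h.1, funext fun l =>
    (der_dot_of (fun i => acl_le_cst h.1 (h2 l i)) u).trans (h.2.1 l)⟩

omit [Fintype κ] in
theorem Ov.dot_eq {M : Subfield ℂ} (h : Ov M R) {v w : ι → ℂ}
    (e : ∀ n ∈ R, (∀ i, n i ∈ M) → n ⬝ᵥ v = n ⬝ᵥ w) {n : ι → ℂ} (hn : n ∈ R) : n ⬝ᵥ v = n ⬝ᵥ w := by
  have : v - w ∈ ann (Submodule.span ℂ {x | x ∈ R ∧ ∀ i, x i ∈ M}) :=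
    mem_ann_span.2 fun x hx => by rw [dotProduct_comm, dotProduct_sub, e x hx.1 hx.2, sub_self]
  rw [← sub_eq_zero, ← dotProduct_sub, dotProduct_comm]
  exact this n (h hn)

/-- A derivation with values in a field of definition preserves it. -/
theorem Ndg.pres (h : A.Ndg R F u a θ) (hA : A.Over k) (hk : (k : Set ℂ) ⊆ acl F)
    (hG : F ∪ (range u ∪ range (A.crd a)) ⊆ acl G) (hR : Ov (acl G) R) (hθ : ∀ j i, θ j i ∈ acl G)
    (hD : D ∈ E.kil F) (h1 : ∀ n ∈ R, (∀ i, n i ∈ acl G) → n ⬝ᵥ dv u D ∈ acl G)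
    (h2 : ∀ j, A.pv θ a D j ∈ acl G) {x : ℂ} (hx : x ∈ acl (F ∪ (range u ∪ range (A.crd a)))) :
    D x ∈ acl G := by
  refine der_mem_acl hG ?_ hx
  rintro y (hy | hy)
  · rw [hD y hy]
    exact zero_mem _
  refine mem_acl_iff_der.2 fun δ hδ => ?_
  have h3 := kil_le hG hδ
  rw [kil_union, kil_union] at h3
  have h4 := h.kil (lie_mem_kil h3.1 hD) (fun n hn => ?_) (funext fun j => ?_) y hy
  · rwa [Derivation.commutator_apply, acl_le_cst hδ (hG (Or.inr hy)), map_zero, sub_zero] at h4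
  · rw [← dotProduct_zero n]
    refine Ov.dot_eq hR (fun n hn hn' => ?_) hn
    rw [dv_lie, dv_eq_zero.2 h3.2.1, show dv (0 : ι → ℂ) D = 0 from funext fun _ => map_zero D,
      sub_zero, ← der_dot_of fun i => acl_le_cst hδ (hn' i), dotProduct_zero]
    exact acl_le_cst hδ (h1 n hn hn')
  · rw [hA.pv_lie' (kil_le hk h3.1) (kil_le hk hD) (fun j i => acl_le_cst hδ (hθ j i)) h3.2.2]
    exact acl_le_cst hδ (h2 j)

/-- Derivations with constant values commute. -/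
theorem Ndg.comm (h : A.Ndg R F u a θ) (hA : A.Over k) (hk : (k : Set ℂ) ⊆ acl F)
    (hR : Ov (acl F) R) (hθ : ∀ j i, θ j i ∈ acl F) (hD : D ∈ E.kil F) (hD' : D' ∈ E.kil F)
    (h1 : ∀ n ∈ R, (∀ i, n i ∈ acl F) → D (n ⬝ᵥ dv u D') = D' (n ⬝ᵥ dv u D))
    (h2 : ∀ j, D (A.pv θ a D' j) = D' (A.pv θ a D j)) {x : ℂ}
    (hx : x ∈ acl (F ∪ (range u ∪ range (A.crd a)))) : D (D' x) = D' (D x) := by
  have h3 := h.kil (lie_mem_kil hD hD') (fun n hn => ?_) (funext fun j => ?_)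
  · have h4 : ⁅D, D'⁆ ∈ E.kil (F ∪ (range u ∪ range (A.crd a))) := by
      rw [kil_union]
      exact ⟨lie_mem_kil hD hD', h3⟩
    exact sub_eq_zero.1 (acl_le_cst h4 hx)
  · rw [← dotProduct_zero n]
    refine Ov.dot_eq hR (fun n hn hn' => ?_) hn
    rw [dv_lie, dotProduct_sub, ← der_dot_of fun i => acl_le_cst hD (hn' i),
      h1 n hn hn', ← der_dot_of (fun i => acl_le_cst hD' (hn' i)) (dv u D), sub_self,
      dotProduct_zero]
  · rw [hA.pv_lie (kil_le hk hD) (kil_le hk hD') (fun j i => acl_le_cst hD (hθ j i))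
      fun j i => acl_le_cst hD' (hθ j i)]
    exact sub_eq_zero.2 (h2 j)

/-! ### the thin tangent space -/

/-- The derivatives of `u` along the thin derivations. -/
noncomputable def tsp (A : AbVar g N) (F : Set ℂ) (u : ι → ℂ) (a : Fin g → ℂ)
    (θ : κ → Fin g → ℂ) : Submodule ℂ (ι → ℂ) := (A.thin F a θ).map (dv u)

omit [Fintype κ] in
theorem Over.ov_tsp (hA : A.Over k) (hk : (k : Set ℂ) ⊆ acl F)
    (hG : F ∪ (range u ∪ range (A.crd a)) ⊆ acl G) (hθ : ∀ j i, θ j i ∈ acl G) :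
    Ov (acl G) (A.tsp F u a θ) := by
  refine ov_iff_der.2 ?_
  rintro δ hδ _ ⟨D, hD, rfl⟩
  have h3 := kil_le hG hδ
  rw [kil_union, kil_union] at h3
  refine ⟨⁅δ, D⁆, ⟨lie_mem_kil h3.1 hD.1, ?_⟩, ?_⟩
  · change A.pv θ a _ = 0
    rw [hA.pv_lie' (kil_le hk h3.1) (kil_le hk hD.1) (fun j i => acl_le_cst hδ (hθ j i)) h3.2.2,
      show A.pv θ a D = 0 from hD.2]
    exact funext fun _ => map_zero δ
  · rw [dv_lie, dv_eq_zero.2 h3.2.1, show dv (0 : ι → ℂ) D = 0 from funext fun _ => map_zero D,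
      sub_zero]

theorem Ndg.inf_ann_tsp (h : A.Ndg R F u a θ) : R ⊓ ann (A.tsp F u a θ) = ⊥ := by
  refine eq_bot_iff.2 fun n hn => dotProduct_eq_zero _ fun v => ?_
  obtain ⟨D, h1, h2, h3⟩ := h.vec v 0
  rw [← h2 n hn.1]
  exact hn.2 _ ⟨D, ⟨h1, h3⟩, rfl⟩

theorem Ndg.tsp_inf_ann (h : A.Ndg R F u a θ) : A.tsp F u a θ ⊓ ann R = ⊥ := by
  refine eq_bot_iff.2 ?_
  rintro _ ⟨⟨D, hD, rfl⟩, h1⟩
  have := h.kil hD.1 (fun n hn => dotProduct_comm n _ ▸ h1 n hn) hD.2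
  rw [kil_union] at this
  exact dv_eq_zero.2 this.1

theorem Ndg.finrank_tsp (h : A.Ndg R F u a θ) : finrank ℂ (A.tsp F u a θ) = finrank ℂ R := by
  have h1 := Submodule.finrank_add_finrank_le_of_disjoint (disjoint_iff.2 h.inf_ann_tsp)
  have h2 := Submodule.finrank_add_finrank_le_of_disjoint (disjoint_iff.2 h.tsp_inf_ann)
  have h3 := finrank_ann R
  have h4 := finrank_ann (A.tsp F u a θ)
  rw [finrank_fintype_fun_eq_card] at h1 h2
  omega

/-- Exchange of the space of rows. -/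
theorem Ndg.swap (h : A.Ndg R F u a θ) (h1 : finrank ℂ R ≤ finrank ℂ R')
    (h2 : R' ⊓ ann (A.tsp F u a θ) = ⊥) : A.Ndg R' F u a θ := by
  refine ndg_of_vec (h.le.trans (by omega)) fun v c => ?_
  obtain ⟨D, h3, h4⟩ := h.pair₀ c
  have h5 : v - dv u D ∈ ann R' ⊔ A.tsp F u a θ := by
    rw [← ann_ann (A.tsp F u a θ), ← ann_inf, h2, ann_bot]
    trivial
  obtain ⟨x, hx, _, ⟨D', h6, rfl⟩, h7⟩ := Submodule.mem_sup.1 h5
  refine ⟨D + D', add_mem h3 h6.1, fun n hn => ?_, by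
    rw [map_add, h4, show A.pv θ a D' = 0 from h6.2, add_zero]⟩
  rw [map_add, add_comm, ← eq_sub_iff_add_eq.1 h7, add_assoc, dotProduct_add n x,
    dotProduct_comm n x, hx n hn, zero_add]

end Pool.Agent.P.MP_f17f76_ag.AbVar
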