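import Pool.Agent.P.MP_f17f76_ag.E.TldA

/-!
Transfer of finitely many integrality conditions to another valuation.
-/

namespace Pool.Agent.P.MP_f17f76_ag.E

open Set MvPolynomial Filter

variable {K K' ι : Type} [Field K] [Field K'] {O W : ValuationSubring K} {F F' : Subfield K}
  {Y : ι → K}

theorem val_le_iff (W : ValuationSubring K) {a b : K} :
    W.valuation a ≤ W.valuation b ↔ (b = 0 → a = 0) ∧ a / b ∈ W := by
  obtain rfl | hb := eq_or_ne b 0
  · simp
  · rw [← W.valuation_le_one_iff, map_div₀, div_le_one₀ ((Valuation.pos_iff _).2 hb)]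
    simp [hb]

/-- `Y` is a family of Gauss variables over `F`. -/
def Gau (W : ValuationSubring K) (F : Subfield K) (Y : ι → K) : Prop :=
  (∀ i, Y i ∈ W) ∧ ∀ p : MvPolynomial ι K, (∀ m, p.coeff m ∈ F) →
    ∀ m, W.valuation (p.coeff m) ≤ W.valuation (eval Y p)

theorem Gau.mono (h : Gau W F Y) (hF : F' ≤ F) : Gau W F' Y :=
  ⟨h.1, fun p hp => h.2 p fun m => hF (hp m)⟩

theorem Gau.indep (h : Gau W F Y) : AlgebraicIndependent F Y :=
  algebraicIndependent_iff.2 fun p hp => MvPolynomial.ext _ _ fun m => by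
    have h1 := h.2 (map F.subtype p) (fun m => by rw [coeff_map]; exact (p.coeff m).2) m
    rw [eval_map, show eval₂ F.subtype Y p = 0 from hp, coeff_map] at h1
    simpa using h1

theorem val_eval_le (hY : ∀ i, Y i ∈ W) {p : MvPolynomial ι K} {c : W.ValueGroup}
    (h : ∀ m, W.valuation (p.coeff m) ≤ c) : W.valuation (eval Y p) ≤ c := by
  rw [eval_eq]
  refine Valuation.map_sum_le _ fun m _ => ?_
  rw [map_mul]
  exact (mul_le_of_le_one_right' ((W.valuation_le_one_iff _).2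
    (prod_mem fun i _ => pow_mem (hY i) _))).trans (h m)

theorem exists_poly {x : K} (hx : x ∈ Subring.closure ((F : Set K) ∪ range Y)) :
    ∃ p : MvPolynomial ι F, eval Y (map F.subtype p) = x := by
  induction hx using Subring.closure_induction with
  | mem x hx =>
    rcases hx with hx | ⟨i, rfl⟩
    · exact ⟨C ⟨x, hx⟩, by simp⟩
    · exact ⟨X i, by simp⟩
  | zero => exact ⟨0, by simp⟩
  | one => exact ⟨1, by simp⟩
  | add x y _ _ h h' =>
    obtain ⟨⟨p, rfl⟩, q, rfl⟩ := And.intro h h'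
    exact ⟨p + q, by simp⟩
  | neg x _ h =>
    obtain ⟨p, rfl⟩ := h
    exact ⟨-p, by simp⟩
  | mul x y _ _ h h' =>
    obtain ⟨⟨p, rfl⟩, q, rfl⟩ := And.intro h h'
    exact ⟨p * q, by simp⟩

theorem Gau.le (hO : Gau O F Y) (hW : Gau W F Y) (h : ∀ x ∈ F, x ∈ O → x ∈ W) :
    ∀ x ∈ Subfield.closure ((F : Set K) ∪ range Y), x ∈ O → x ∈ W := by
  intro x hx h1
  obtain ⟨_, hp, _, hq, rfl⟩ := Subfield.mem_closure_iff.1 hx
  obtain ⟨p, rfl⟩ := exists_poly hp
  obtain ⟨q, rfl⟩ := exists_poly hq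
  have hp : ∀ m, (map F.subtype p).coeff m ∈ F := fun m => by rw [coeff_map]; exact (p.coeff m).2
  have hq : ∀ m, (map F.subtype q).coeff m ∈ F := fun m => by rw [coeff_map]; exact (q.coeff m).2
  generalize map F.subtype p = p at hp h1
  generalize map F.subtype q = q at hq h1
  by_cases h0 : eval Y q = 0
  · simp [h0]
  obtain ⟨j, -, hj, h2⟩ := exists_max_val O q.support (fun m => q.coeff m) (by
    obtain ⟨m, hm⟩ := ne_zero_iff.1 (show q ≠ 0 from fun e => h0 (by simp [e]))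
    exact ⟨m, mem_support_iff.2 hm, hm⟩)
  have h3 : O.valuation (eval Y q) ≤ O.valuation (q.coeff j) := val_eval_le hO.1 fun m => by
    by_cases hm : m ∈ q.support
    · exact (val_le_iff O).2 ⟨fun e => (hj e).elim, h2 m hm⟩
    · simp [notMem_support_iff.1 hm]
  have h4 := (val_le_iff O).2 ⟨fun e => (h0 e).elim, h1⟩
  refine ((val_le_iff W).1 ((val_eval_le hW.1 fun m => ?_).trans (hW.2 q hq j))).2
  exact (val_le_iff W).2 ⟨fun e => (hj e).elim, h _ (div_mem (hp m) (hq j))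
    ((val_le_iff O).1 (((hO.2 p hp m).trans h4).trans h3)).2⟩

/-- The limit of valuation rings along an ultrafilter. -/
def ulim {I : Type} (U : Ultrafilter I) (W : I → ValuationSubring K) : ValuationSubring K where
  carrier := {x | ∀ᶠ i in U, x ∈ W i}
  mul_mem' ha hb := (ha.and hb).mono fun _ h => mul_mem h.1 h.2
  one_mem' := Eventually.of_forall fun _ => one_mem _
  add_mem' ha hb := (ha.and hb).mono fun _ h => add_mem h.1 h.2
  zero_mem' := Eventually.of_forall fun _ => zero_mem _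
  neg_mem' ha := ha.mono fun _ h => neg_mem h
  mem_or_inv_mem' x := Ultrafilter.eventually_or.1
    (Eventually.of_forall fun i => (W i).mem_or_inv_mem x)

theorem mem_ulim {I : Type} {U : Ultrafilter I} {W : I → ValuationSubring K} {x : K} :
    x ∈ ulim U W ↔ ∀ᶠ i in U, x ∈ W i := Iff.rfl

theorem gau_ulim {I : Type} (U : Ultrafilter I) {W : I → ValuationSubring K}
    (h : ∀ i, Gau (W i) F Y) : Gau (ulim U W) F Y := by
  refine ⟨fun j => Eventually.of_forall fun i => (h i).1 j, fun p hp m => (val_le_iff _).2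
    ⟨?_, Eventually.of_forall fun i => ((val_le_iff _).1 ((h i).2 p hp m)).2⟩⟩
  obtain ⟨i, -⟩ := U.neBot.nonempty_of_mem univ_mem
  exact ((val_le_iff _).1 ((h i).2 p hp m)).1

theorem mem_nonunits_comap (φ : K →+* K') {W : ValuationSubring K'} {x : K} :
    x ∈ (W.comap φ).nonunits ↔ φ x ∈ W.nonunits := by
  simp [ValuationSubring.mem_nonunits_iff_or]

theorem val_comap_le (φ : K →+* K') {W : ValuationSubring K'} {a b : K} :
    (W.comap φ).valuation a ≤ (W.comap φ).valuation b ↔ W.valuation (φ a) ≤ W.valuation (φ b) := by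
  simp [val_le_iff]

theorem Gau.comap (φ : K →+* K') {W : ValuationSubring K'} (h : Gau W (F.map φ) (φ ∘ Y)) :
    Gau (W.comap φ) F Y := by
  refine ⟨h.1, fun p hp m => (val_comap_le φ).2 ?_⟩
  have h1 := h.2 (map φ p) (fun m => ⟨_, hp m, (coeff_map _ _ _).symm⟩) m
  rwa [coeff_map, eval_map, ← eval₂_comp] at h1

/-- A valuation ring extends along a field embedding. -/
theorem exists_val_ext (φ : K →+* K') (V : ValuationSubring K) :
    ∃ W : ValuationSubring K', W.comap φ = V := by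
  obtain ⟨W, h, hl⟩ := IsLocalRing.exists_factor_valuationRing (φ.comp V.subtype)
  refine ⟨W, le_antisymm (fun x hx => by_contra fun h1 => ?_) fun x hx => h ⟨x, hx⟩⟩
  have h0 : x ≠ 0 := fun e => h1 (e ▸ zero_mem V)
  have h2 := (V.mem_or_inv_mem x).resolve_left h1
  have h3 := hl.1 ⟨_, h2⟩ (IsUnit.of_mul_eq_one ⟨φ x, hx⟩ (Subtype.ext (by simp [h0])))
  obtain ⟨y, hy⟩ := h3.exists_right_inv
  have h4 : x⁻¹ * y = 1 := congrArg Subtype.val hy
  rw [inv_mul_eq_one₀ h0] at h4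
  exact h1 (h4 ▸ y.2)

variable [IsAlgClosed K] [CharZero K]

/-- Transfer inside one field. -/
theorem tld_int (hO : Gau O F Y) {S : Set K} (hS : S.Finite)
    (hS' : S ⊆ acl ((F : Set K) ∪ range Y)) :
    ∃ S₀ : Set K, S₀.Finite ∧ S₀ ⊆ F ∧ ∀ W : ValuationSubring K, Gau W F Y →
      (∀ x ∈ S₀, x ∈ O ↔ x ∈ W) → ∃ τ : K ≃+* K, (∀ x ∈ F, τ x = x) ∧ (∀ i, τ (Y i) = Y i) ∧
        ∀ s ∈ S, (s ∈ O ↔ τ s ∈ W) ∧ (s ∈ O.nonunits ↔ τ s ∈ W.nonunits) := by
  classical
  by_contra hc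
  push Not at hc
  choose W h1 h2 h3 using fun T : Finset F => hc (Subtype.val '' (T : Set F))
    (T.finite_toSet.image _) (by rintro _ ⟨x, -, rfl⟩; exact x.2)
  let U : Ultrafilter (Finset F) := Ultrafilter.of atTop
  have h4 : ∀ x ∈ F, x ∈ O ↔ x ∈ ulim U W := fun x hx => by
    have h5 : ∀ᶠ T in U, x ∈ O ↔ x ∈ W T :=
      ((eventually_ge_atTop {⟨x, hx⟩}).filter_mono (Ultrafilter.of_le _)).mono fun T hT =>
        h2 T x ⟨⟨x, hx⟩, hT (Finset.mem_singleton_self _), rfl⟩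
    exact ⟨fun h => h5.mono fun T hT => hT.1 h, fun h => by
      obtain ⟨T, h6, h7⟩ := (h5.and h).exists
      exact h6.2 h7⟩
  have h5 := gau_ulim U h1
  obtain ⟨τ, h6, h7⟩ := conj_val ((F : Set K) ∪ range Y) fun x hx =>
    ⟨hO.le h5 (fun x hx => (h4 x hx).1) x hx, h5.le hO (fun x hx => (h4 x hx).2) x hx⟩
  have h8 : ∀ s ∈ acl ((F : Set K) ∪ range Y), ∀ᶠ T in U, s ∈ O ↔ τ s ∈ W T := fun s hs => by
    by_cases h : s ∈ O
    · exact ((h7 s hs).1 h).mono fun T hT => iff_of_true h hT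
    · exact (Ultrafilter.eventually_not.2 fun h' => h ((h7 s hs).2 h')).mono fun T hT => iff_of_false h hT
  obtain ⟨T, hT⟩ := ((eventually_all_finite hS).2 fun s hs =>
    (h8 s (hS' hs)).and (h8 s⁻¹ (inv_mem (hS' hs)))).exists
  obtain ⟨s, hs, h9⟩ := h3 T τ (fun x hx => h6 x (Subfield.subset_closure (Or.inl hx)))
    fun i => h6 _ (Subfield.subset_closure (Or.inr ⟨i, rfl⟩))
  have h10 : s ∈ O.nonunits ↔ τ s ∈ (W T).nonunits := by
    rw [O.mem_nonunits_iff_or, (W T).mem_nonunits_iff_or, (hT s hs).2, map_inv₀, map_eq_zero]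
  have := h9 (hT s hs).1
  tauto

omit [IsAlgClosed K] [CharZero K] in
theorem gau_iff {F₀ : Type} [Field F₀] (j : F₀ →+* K) : Gau W j.fieldRange Y ↔ (∀ i, Y i ∈ W) ∧
    ∀ (q : MvPolynomial ι F₀) m, W.valuation (j (q.coeff m)) ≤ W.valuation (eval₂ j Y q) := by
  refine and_congr_right' ⟨fun h q m => ?_, fun h p hp m => ?_⟩
  · have := h (MvPolynomial.map j q) (fun m => ⟨_, (coeff_map _ _ _).symm⟩) m
    rwa [coeff_map, eval_map] at this
  · obtain ⟨q, rfl⟩ : ∃ q, MvPolynomial.map j q = p :=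
      mem_range_map_iff_coeffs_subset.2 fun c hc => by
      obtain ⟨m, -, rfl⟩ := mem_coeffs_iff.1 hc
      exact hp m
    rw [coeff_map, eval_map]
    exact h q m

omit [IsAlgClosed K] [CharZero K] in
/-- An embedding extends over independent elements and the algebraic closure. -/
theorem exists_emb_acl [IsAlgClosed K'] (hY : AlgebraicIndependent F Y) (j : F →+* K')
    {Y' : ι → K'} (hY' : ∀ q, eval₂ j Y' q = 0 → q = 0) :
    ∃ φ : acl ((F : Set K) ∪ range Y) →+* K',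
      (∀ x : F, φ ⟨x, subset_acl _ (Or.inl x.2)⟩ = j x) ∧
        ∀ i, φ ⟨Y i, subset_acl _ (Or.inr ⟨i, rfl⟩)⟩ = Y' i := by
  let E := Subfield.closure ((F : Set K) ∪ range Y)
  let e : MvPolynomial ι F →+* E := eval₂Hom (Subfield.inclusion fun x hx =>
    Subfield.subset_closure (Or.inl hx)) fun i => ⟨Y i, Subfield.subset_closure (Or.inr ⟨i, rfl⟩)⟩
  have he : ∀ q, (e q : K) = eval Y (map F.subtype q) := fun q => by
    rw [eval_map]
    exact eval₂_comp_left E.subtype _ _ q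
  let _ := e.toAlgebra
  have : FaithfulSMul (MvPolynomial ι F) E := (faithfulSMul_iff_algebraMap_injective _ _).2
    ((injective_iff_map_eq_zero e).2 fun q hq => algebraicIndependent_iff.1 hY q (by
      have := he q
      rw [hq, eval_map] at this
      exact this.symm))
  have : IsFractionRing (MvPolynomial ι F) E := IsFractionRing.of_field _ _ fun z => by
    obtain ⟨_, hp, _, hq, h⟩ := Subfield.mem_closure_iff.1 z.2
    obtain ⟨p, rfl⟩ := exists_poly hp
    obtain ⟨q, rfl⟩ := exists_poly hq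
    exact ⟨p, q, Subtype.ext (by rw [← h, ← he, ← he]; rfl)⟩
  let j₁ : E →+* K' := IsFractionRing.lift (g := eval₂Hom j Y')
    ((injective_iff_map_eq_zero _).2 hY')
  have h1 : ∀ q, j₁ (e q) = eval₂ j Y' q := fun q => IsFractionRing.lift_algebraMap _ q
  let _ := j₁.toAlgebra
  let φ : algebraicClosure E K →ₐ[E] K' := IsAlgClosed.lift
  refine ⟨φ.toRingHom, fun x => ?_, fun i => ?_⟩
  · have h2 := (φ.commutes (e (C x))).trans (h1 _)
    rw [eval₂_C] at h2
    rw [← h2]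
    exact congrArg φ (Subtype.ext ((he (C x)).trans (by simp)).symm)
  · have h2 := (φ.commutes (e (X i))).trans (h1 _)
    rw [eval₂_X] at h2
    rw [← h2]
    exact congrArg φ (Subtype.ext ((he (X i)).trans (by simp)).symm)

omit [IsAlgClosed K] [CharZero K] in
theorem map_mem_acl {S : Set K} (τ : K →+* K) (h : ∀ x ∈ S, τ x = x) {x : K} (hx : x ∈ acl S) :
    τ x ∈ acl S := by
  have := (mem_acl_map τ).2 hx
  rwa [image_congr h, image_id'] at this

/-- Transfer to another valued field. -/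
theorem tld (hO : Gau O F Y) {S : Set K} (hS : S.Finite) (hS' : S ⊆ acl ((F : Set K) ∪ range Y)) :
    ∃ S₀ : Set K, S₀.Finite ∧ S₀ ⊆ F ∧ ∀ (K' : Type) [Field K'] [IsAlgClosed K']
      (W : ValuationSubring K') (j₀ : F →+* K') (Y' : ι → K'), Gau W j₀.fieldRange Y' →
      (∀ x : F, x.1 ∈ S₀ → (x.1 ∈ O ↔ j₀ x ∈ W)) → ∃ j : acl ((F : Set K) ∪ range Y) →+* K',
        (∀ x : F, j ⟨x, subset_acl _ (Or.inl x.2)⟩ = j₀ x) ∧
        (∀ i, j ⟨Y i, subset_acl _ (Or.inr ⟨i, rfl⟩)⟩ = Y' i) ∧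
        ∀ s : acl ((F : Set K) ∪ range Y), s.1 ∈ S →
          (s.1 ∈ O ↔ j s ∈ W) ∧ (s.1 ∈ O.nonunits ↔ j s ∈ W.nonunits) := by
  obtain ⟨S₀, h1, h2, h3⟩ := tld_int hO hS hS'
  refine ⟨S₀, h1, h2, fun K' _ _ W j₀ Y' hW h4 => ?_⟩
  rw [gau_iff] at hW
  obtain ⟨φ, h5, h6⟩ := exists_emb_acl hO.indep j₀ (Y' := Y') fun q hq =>
    MvPolynomial.ext _ _ fun m => by simpa [hq] using hW.2 q m
  obtain ⟨V, hV⟩ := exists_val_ext (acl ((F : Set K) ∪ range Y)).subtype (W.comap φ)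
  have h7 : ∀ x : acl ((F : Set K) ∪ range Y), x.1 ∈ V ↔ φ x ∈ W := fun x =>
    SetLike.ext_iff.1 hV x
  have h8 : Gau V F Y := by
    rw [← F.fieldRange_subtype, gau_iff]
    refine ⟨fun i => (h7 ⟨_, subset_acl _ (Or.inr ⟨i, rfl⟩)⟩).2 (h6 i ▸ hW.1 i), fun q m => ?_⟩
    let inc : F →+* acl ((F : Set K) ∪ range Y) :=
      Subfield.inclusion fun x hx => subset_acl _ (Or.inl hx)
    let Z : ι → acl ((F : Set K) ∪ range Y) := fun i => ⟨Y i, subset_acl _ (Or.inr ⟨i, rfl⟩)⟩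
    have h9 := hW.2 q m
    rw [show j₀ = φ.comp inc from RingHom.ext fun x => (h5 x).symm,
      show Y' = φ ∘ Z from funext fun i => (h6 i).symm, ← eval₂_comp_left, RingHom.comp_apply,
      ← val_comap_le, ← hV, val_comap_le, eval₂_comp_left] at h9
    exact h9
  obtain ⟨τ, h9, h10, h11⟩ := h3 V h8 fun x hx => (h4 ⟨x, h2 hx⟩ hx).trans
    ((h7 ⟨x, subset_acl _ (Or.inl (h2 hx))⟩).trans (by rw [h5 ⟨x, h2 hx⟩])).symm
  let t : acl ((F : Set K) ∪ range Y) →+* acl ((F : Set K) ∪ range Y) :=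
    ((τ : K →+* K).comp (Subfield.subtype _)).codRestrict _ fun x => map_mem_acl (τ : K →+* K)
      (by
        rintro y (hy | ⟨i, rfl⟩)
        exacts [h9 y hy, h10 i]) x.2
  refine ⟨φ.comp t, fun x => ?_, fun i => ?_, fun s hs => ⟨(h11 s hs).1.trans (h7 (t s)),
    (h11 s hs).2.trans ?_⟩⟩
  · rw [← h5]
    exact congrArg φ (Subtype.ext (h9 x x.2))
  · rw [← h6]
    exact congrArg φ (Subtype.ext (h10 i))
  · rw [RingHom.comp_apply, ← mem_nonunits_comap, ← hV, mem_nonunits_comap]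
    rfl

end Pool.Agent.P.MP_f17f76_ag.E
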