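import Pool.Agent.P.MP_f17f76_ag.E.Plc
import Pool.Agent.P.MP_f17f76_ag.E.TldB

/-!
Places: operations and existence.
-/

namespace Pool.Agent.P.MP_f17f76_ag.E

open Set Cardinal

namespace Plc

variable {K K' R R' : Type} [Field K] [Field K'] [Field R] [Field R'] {P Q : Plc K R}
  {x y τ : K} {F L : Subfield K} {k S T : Set K} {ι : Type} {Y : ι → K}

theorem lt_one_iff : P.v x < 1 ↔ x = 0 ∨ ¬P.v x⁻¹ ≤ 1 := by
  rw [← P.mem_iff, ← P.O.mem_nonunits_iff_or]
  exact P.O.mem_nonunits_iff.symm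

/-- The pullback of a place along an embedding. -/
def comap (P : Plc K R) (φ : K' →+* K) : Plc K' R where
  O := P.O.comap φ
  ρ := P.ρ.comp (φ.restrict (P.O.comap φ) P.O fun _ h => h)
  ker _ h := P.ker _ (P.O.mem_nonunits_iff.1 ((mem_nonunits_comap φ).1
    ((P.O.comap φ).mem_nonunits_iff.2 h)))

/-- A place followed by an embedding of the target. -/
def map (P : Plc K R) (ψ : R →+* R') : Plc K R' :=
  ⟨P.O, ψ.comp P.ρ, fun x h => (congrArg ψ (P.ker x h)).trans (map_zero ψ)⟩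

/-- Transport of structure along an automorphism. -/
def conj (P : Plc K K) (σ : K ≃+* K) : Plc K K := (P.comap (σ.symm : K →+* K)).map (σ : K →+* K)

section comap

variable (φ : K' →+* K) {x y : K'} {F : Subfield K'}

theorem comap_le : (P.comap φ).v x ≤ (P.comap φ).v y ↔ P.v (φ x) ≤ P.v (φ y) := val_comap_le φ

theorem comap_lt : (P.comap φ).v x < (P.comap φ).v y ↔ P.v (φ x) < P.v (φ y) :=
  lt_iff_lt_of_le_iff_le (comap_le φ)

theorem comap_eq : (P.comap φ).v x = (P.comap φ).v y ↔ P.v (φ x) = P.v (φ y) := by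
  rw [le_antisymm_iff, le_antisymm_iff, comap_le, comap_le]

theorem comap_le_one : (P.comap φ).v x ≤ 1 ↔ P.v (φ x) ≤ 1 := by
  simpa using comap_le (P := P) φ (x := x) (y := 1)

theorem comap_lt_one : (P.comap φ).v x < 1 ↔ P.v (φ x) < 1 := by
  simpa using comap_lt (P := P) φ (x := x) (y := 1)

theorem comap_eq_one : (P.comap φ).v x = 1 ↔ P.v (φ x) = 1 := by
  simpa using comap_eq (P := P) φ (x := x) (y := 1)

theorem comap_r (x : K') : (P.comap φ).r x = P.r (φ x) := by
  rcases le_or_gt (P.v (φ x)) 1 with h | h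
  · rw [r_eq h, r_eq ((comap_le_one φ).2 h)]
    rfl
  · rw [r_of_gt h, r_of_gt (not_le.1 fun h' => h.not_ge ((comap_le_one φ).1 h'))]

theorem comap_res : (P.comap φ).res F = P.res (F.map φ) :=
  SetLike.coe_injective (by simp only [coe_res, Subfield.coe_map, image_image, comap_r])

theorem comap_triv {S : Set K'} : (P.comap φ).Triv S ↔ P.Triv (φ '' S) := by
  simp only [Triv, comap_le_one, forall_mem_image]

theorem comap_lifts {S : Set K'} {ψ : K → R} :
    (P.comap φ).Lifts (ψ ∘ φ) S ↔ P.Lifts ψ (φ '' S) := by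
  simp only [Lifts, comap_le_one, comap_r, forall_mem_image, Function.comp_apply]

theorem comap_agree {S : Set K'} : (P.comap φ).Agree (Q.comap φ) S ↔ P.Agree Q (φ '' S) := by
  simp only [Agree, comap_le_one, comap_r, forall_mem_image]

theorem comap_gauss {Y : ι → K'} : (P.comap φ).Gauss F Y ↔ P.Gauss (F.map φ) (φ ∘ Y) := by
  simp only [Gauss, comap_le_one, comap_res, Function.comp_def, comap_r]

theorem comap_ctr {S : Set K'} {D' : Der K'} {D : Der K} (h : ∀ x ∈ S, D (φ x) = φ (D' x)) :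
    (P.comap φ).Ctr D' S ↔ P.Ctr D (φ '' S) := by
  simp only [Ctr, comap_le, forall_mem_image]
  exact forall₂_congr fun x hx => by rw [h x hx]

end comap

theorem map_v (ψ : R →+* R') : (P.map ψ).v = P.v := rfl

theorem map_r (ψ : R →+* R') (x : K) : (P.map ψ).r x = ψ (P.r x) := by
  rcases le_or_gt (P.v x) 1 with h | h
  · rw [r_eq h, r_eq (P := P.map ψ) h]
    rfl
  · rw [r_of_gt h, r_of_gt (P := P.map ψ) h, map_zero]

theorem map_res (ψ : R →+* R') : (P.map ψ).res F = (P.res F).map ψ :=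
  SetLike.coe_injective (by simp only [coe_res, Subfield.coe_map, image_image, map_r])

theorem map_gauss (ψ : R →+* R') : (P.map ψ).Gauss F Y ↔ P.Gauss F Y := by
  refine and_congr Iff.rfl ?_
  rw [map_res, Subfield.coe_map, ← ind_map ψ (v := P.r ∘ Y)]
  simp only [Function.comp_def, map_r]

section conj

variable {P Q : Plc K K} (σ : K ≃+* K)

theorem conj_r (x : K) : (P.conj σ).r (σ x) = σ (P.r x) := by
  simp [conj, map_r, comap_r]

theorem conj_le : (P.conj σ).v (σ x) ≤ (P.conj σ).v (σ y) ↔ P.v x ≤ P.v y :=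
  (comap_le (P := P) (σ.symm : K →+* K)).trans (by simp)

theorem conj_lt : (P.conj σ).v (σ x) < (P.conj σ).v (σ y) ↔ P.v x < P.v y :=
  lt_iff_lt_of_le_iff_le (conj_le σ)

theorem conj_eq : (P.conj σ).v (σ x) = (P.conj σ).v (σ y) ↔ P.v x = P.v y := by
  rw [le_antisymm_iff, le_antisymm_iff, conj_le, conj_le]

theorem conj_le_one : (P.conj σ).v (σ x) ≤ 1 ↔ P.v x ≤ 1 := by
  simpa using conj_le (P := P) σ (x := x) (y := 1)

theorem conj_lt_one : (P.conj σ).v (σ x) < 1 ↔ P.v x < 1 := by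
  simpa using conj_lt (P := P) σ (x := x) (y := 1)

theorem conj_eq_one : (P.conj σ).v (σ x) = 1 ↔ P.v x = 1 := by
  simpa using conj_eq (P := P) σ (x := x) (y := 1)

theorem conj_idOn : (P.conj σ).IdOn (σ '' S) ↔ P.IdOn S := by
  simp only [Lifts, forall_mem_image, conj_le_one, conj_r, σ.injective.eq_iff]

theorem conj_triv : (P.conj σ).Triv (σ '' S) ↔ P.Triv S := by
  simp only [Triv, forall_mem_image, conj_le_one]

theorem conj_agree : (P.conj σ).Agree (Q.conj σ) (σ '' S) ↔ P.Agree Q S := by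
  simp only [Agree, forall_mem_image, conj_le_one, conj_r, σ.injective.eq_iff]

theorem conj_res : (P.conj σ).res (F.map (σ : K →+* K)) = (P.res F).map (σ : K →+* K) :=
  SetLike.coe_injective (by
    simp only [coe_res, Subfield.coe_map, image_image, RingHom.coe_coe, conj_r])

theorem conj_gauss : (P.conj σ).Gauss (F.map (σ : K →+* K)) (σ ∘ Y) ↔ P.Gauss F Y := by
  refine and_congr (forall_congr' fun i => conj_le_one σ) ?_
  rw [conj_res, Subfield.coe_map, ← ind_map (σ : K →+* K) (v := P.r ∘ Y)]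
  simp only [Function.comp_def, conj_r, RingHom.coe_coe]

theorem conj_ctr {D D' : Der K} (h : ∀ x ∈ S, D' (σ x) = σ (D x)) :
    (P.conj σ).Ctr D' (σ '' S) ↔ P.Ctr D S := by
  simp only [Ctr, forall_mem_image]
  exact forall₂_congr fun x hx => by rw [h x hx, conj_le]

end conj

/-- The valuation ring of a composite place. -/
def compO (P : Plc K R) (Q : Plc R R') : ValuationSubring K where
  carrier := {x | P.v x ≤ 1 ∧ Q.v (P.r x) ≤ 1}
  mul_mem' ha hb := ⟨v_mul_le ha.1 hb.1, by rw [r_mul ha.1 hb.1]; exact v_mul_le ha.2 hb.2⟩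
  one_mem' := by simp
  add_mem' ha hb :=
    ⟨P.v.map_add_le ha.1 hb.1, by rw [r_add ha.1 hb.1]; exact Q.v.map_add_le ha.2 hb.2⟩
  zero_mem' := by simp
  neg_mem' ha := by simpa [r_neg] using ha
  mem_or_inv_mem' x := by
    rcases lt_trichotomy (P.v x) 1 with h | h | h
    · exact Or.inl ⟨h.le, by simp [r_of_lt h]⟩
    · refine (Q.O.mem_or_inv_mem (P.r x)).imp (fun h' => ⟨h.le, Q.mem_iff.1 h'⟩) fun h' =>
        ⟨by simp [h], by rw [r_inv]; exact Q.mem_iff.1 h'⟩
    · have h1 := (P.v_inv_lt_one fun e => by simp [e] at h).2 h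
      exact Or.inr ⟨h1.le, by simp [r_of_lt h1]⟩

theorem compO_lt_one (Q : Plc R R') :
    (P.compO Q).valuation x < 1 ↔ P.v x ≤ 1 ∧ Q.v (P.r x) < 1 := by
  rw [← ValuationSubring.mem_nonunits_iff, ValuationSubring.mem_nonunits_iff_or]
  change x = 0 ∨ ¬(P.v x⁻¹ ≤ 1 ∧ Q.v (P.r x⁻¹) ≤ 1) ↔ _
  rcases eq_or_ne x 0 with rfl | h0
  · simp
  rw [P.v_inv_le_one h0, r_inv, or_iff_right h0]
  rcases lt_trichotomy (P.v x) 1 with h | h | h
  · simp [h.le, h.not_ge, r_of_lt h]
  · rw [Q.v_inv_le_one (r_ne_zero_iff.2 h)]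
    simp [h]
  · simp [h.le, h.not_ge, r_of_gt h]

/-- The composite place: first `P`, then `Q` on the residue field. -/
noncomputable def comp (P : Plc K R) (Q : Plc R R') : Plc K R' where
  O := P.compO Q
  ρ :=
    { toFun x := Q.r (P.r x)
      map_one' := by simp
      map_mul' x y := by rw [MulMemClass.coe_mul, r_mul x.2.1 y.2.1, r_mul x.2.2 y.2.2]
      map_zero' := by simp
      map_add' x y := by rw [AddMemClass.coe_add, r_add x.2.1 y.2.1, r_add x.2.2 y.2.2] }
  ker _ h := r_of_lt ((compO_lt_one Q).1 h).2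

section comp

variable (Q : Plc R R')

theorem comp_le_one : (P.comp Q).v x ≤ 1 ↔ P.v x ≤ 1 ∧ Q.v (P.r x) ≤ 1 :=
  (P.comp Q).mem_iff.symm

theorem comp_lt_one : (P.comp Q).v x < 1 ↔ P.v x ≤ 1 ∧ Q.v (P.r x) < 1 := compO_lt_one Q

theorem comp_r (x : K) : (P.comp Q).r x = Q.r (P.r x) := by
  rcases le_or_gt ((P.comp Q).v x) 1 with h | h
  · exact r_eq h
  rw [r_of_gt h]
  rcases le_or_gt (P.v x) 1 with h1 | h1
  · exact (r_of_gt (not_le.1 fun h2 => h.not_ge ((comp_le_one Q).2 ⟨h1, h2⟩))).symm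
  · rw [r_of_gt h1, r_zero]

theorem comp_eq_one : (P.comp Q).v x = 1 ↔ P.v x = 1 ∧ Q.v (P.r x) = 1 := by
  rw [← r_ne_zero_iff, comp_r, r_ne_zero_iff, iff_and_self]
  exact fun h => r_ne_zero_iff.1 fun e => by simp [e] at h

theorem le_of_comp_le (h : (P.comp Q).v x ≤ (P.comp Q).v y) : P.v x ≤ P.v y := by
  rcases eq_or_ne y 0 with rfl | h0
  · simpa using h
  exact (P.v_div_le_one h0).1 ((comp_le_one Q).1 (((P.comp Q).v_div_le_one h0).2 h)).1

theorem comp_lt_of_lt (h : P.v x < P.v y) : (P.comp Q).v x < (P.comp Q).v y :=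
  not_le.1 fun h' => h.not_ge (le_of_comp_le Q h')

theorem comp_res : (P.comp Q).res F = Q.res (P.res F) :=
  SetLike.coe_injective (by simp only [coe_res, image_image, comp_r])

theorem Lifts.comp {φ : K → R} {ψ : R → R'} {Q : Plc R R'} (h : P.Lifts φ S)
    (h' : Q.Lifts ψ (φ '' S)) : (P.comp Q).Lifts (ψ ∘ φ) S := fun x hx => by
  rw [comp_le_one, comp_r, (h x hx).2]
  exact ⟨⟨(h x hx).1, (h' _ ⟨x, hx, rfl⟩).1⟩, (h' _ ⟨x, hx, rfl⟩).2⟩

theorem IdOn.comp {P Q : Plc K K} (h : P.IdOn S) (h' : Q.IdOn S) : (P.comp Q).IdOn S :=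
  Lifts.comp h (by rwa [image_id'])

/-- If `Q` is trivial on the residue field of `F`, the composite has the same ring on `F`. -/
theorem comp_le_iff {Q : Plc R R'} (h : Q.Triv (P.res F)) (hx : x ∈ F) (hy : y ∈ F) :
    (P.comp Q).v x ≤ (P.comp Q).v y ↔ P.v x ≤ P.v y := by
  refine ⟨le_of_comp_le Q, fun h' => ?_⟩
  rcases eq_or_ne y 0 with rfl | h0
  · simpa using h'
  exact ((P.comp Q).v_div_le_one h0).1 ((comp_le_one Q).2
    ⟨(P.v_div_le_one h0).2 h', h _ (r_mem_res (div_mem hx hy))⟩)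

theorem Agree.comp {P P' : Plc K R} {Q Q' : Plc R R'} (h : P.Agree P' S)
    (h' : Q.Agree Q' (P.r '' S)) : (P.comp Q).Agree (P'.comp Q') S := fun x hx => by
  rw [comp_le_one, comp_le_one, comp_r, comp_r, ← (h x hx).2, (h x hx).1,
    (h' _ ⟨x, hx, rfl⟩).1, (h' _ ⟨x, hx, rfl⟩).2]
  exact ⟨Iff.rfl, rfl⟩

end comp

/-- The coarsening of a valuation ring at `τ`. -/
def crs (O : ValuationSubring K) (τ : K) (hτ : τ ∈ O) : ValuationSubring K where
  carrier := {x | ∀ q : ℕ, τ * x ^ q ∈ O}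
  mul_mem' {a b} ha hb q := by
    have h1 := mul_mem (ha (q * 2)) (hb (q * 2))
    rw [← O.valuation_le_one_iff] at h1 ⊢
    refine (pow_le_one_iff two_ne_zero).1 ?_
    rwa [← map_pow, show (τ * (a * b) ^ q) ^ 2 = τ * a ^ (q * 2) * (τ * b ^ (q * 2)) by ring]
  one_mem' q := by simpa
  add_mem' {a b} ha hb q := by
    rw [← O.valuation_le_one_iff, map_mul, map_pow]
    rcases le_max_iff.1 (O.valuation.map_add a b) with h | h
    · exact (mul_le_mul_right (pow_le_pow_left' h q) _).trans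
        (by simpa using (O.valuation_le_one_iff _).2 (ha q))
    · exact (mul_le_mul_right (pow_le_pow_left' h q) _).trans
        (by simpa using (O.valuation_le_one_iff _).2 (hb q))
  zero_mem' q := mul_mem hτ (pow_mem (zero_mem O) q)
  neg_mem' {a} ha q := by simpa [← O.valuation_le_one_iff] using ha q
  mem_or_inv_mem' x := (O.mem_or_inv_mem x).imp (fun h q => mul_mem hτ (pow_mem h q))
    fun h q => mul_mem hτ (pow_mem h q)

theorem mem_crs {O : ValuationSubring K} (hτ : τ ∈ O) :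
    x ∈ crs O τ hτ ↔ ∀ q : ℕ, τ * x ^ q ∈ O := Iff.rfl

theorem le_crs {O : ValuationSubring K} (hτ : τ ∈ O) : O ≤ crs O τ hτ :=
  fun _ h q => mul_mem hτ (pow_mem h q)

theorem crs_lt_one {O : ValuationSubring K} (hτ : τ ∈ O) (h0 : τ ≠ 0) :
    (crs O τ hτ).valuation x < 1 ↔ ∃ q : ℕ, O.valuation x ^ q < O.valuation τ := by
  rw [← ValuationSubring.mem_nonunits_iff, ValuationSubring.mem_nonunits_iff_or, mem_crs]
  rcases eq_or_ne x 0 with rfl | hx
  · exact iff_of_true (Or.inl rfl) ⟨1, by simpa [zero_lt_iff] using h0⟩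
  rw [or_iff_right hx, not_forall]
  refine exists_congr fun q => ?_
  rw [← O.valuation_le_one_iff, not_le, map_mul, map_pow, map_inv₀, inv_pow, ← div_eq_mul_inv,
    one_lt_div₀ (pow_pos (by simpa [zero_lt_iff] using hx) q)]

section ex

variable [IsAlgClosed R] [Uncountable R] (hc : #K ≤ #R) {A : Type} [CommRing A] [Countable A]
include hc

/-- A valuation ring with prescribed residues on a countable ring. -/
theorem exists_of_O (O : ValuationSubring K) (f : A →+* K) (g : A →+* R) (h : ∀ a, f a ∈ O)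
    (h' : ∀ a, O.valuation (f a) < 1 ↔ g a = 0) :
    ∃ P : Plc K R, P.O = O ∧ ∀ a, P.r (f a) = g a := by
  obtain ⟨ψ, hψ⟩ := exists_hom_of_ker (K := IsLocalRing.ResidueField O)
    ((mk_le_of_surjective (IsLocalRing.residue_surjective (R := O))).trans
      ((mk_le_of_injective Subtype.val_injective).trans hc))
    ((IsLocalRing.residue O).comp (f.codRestrict O h)) g fun a => by
      rw [← h', RingHom.comp_apply, IsLocalRing.residue_eq_zero_iff, O.valuation_lt_one_iff]
      rfl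
  refine ⟨⟨O, ψ.comp (IsLocalRing.residue O), fun x hx => ?_⟩, rfl, fun a => ?_⟩
  · rw [RingHom.comp_apply, (IsLocalRing.residue_eq_zero_iff _).2
      ((O.valuation_lt_one_iff x).2 hx), map_zero]
  · exact (r_coe _ ⟨f a, h a⟩).trans (hψ a)

/-- A place that dominates a given homomorphism. -/
theorem exists_dom (f : A →+* K) (g : A →+* R) (h : ∀ a, f a = 0 → g a = 0) :
    ∃ P : Plc K R, ∀ a, P.v (f a) ≤ 1 ∧ P.r (f a) = g a := by
  have := RingHom.ker_isPrime g
  let f' : Localization.AtPrime (RingHom.ker g) →+* K := IsLocalization.lift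
    (M := (RingHom.ker g).primeCompl) (g := f) fun y => IsUnit.mk0 _ fun e => y.2 (h _ e)
  have e : ∀ a, f' (algebraMap A _ a) = f a := fun a => IsLocalization.lift_eq _ a
  obtain ⟨O, h1, h2⟩ := IsLocalRing.exists_factor_valuationRing f'
  have h3 : ∀ a, f a ∈ O := fun a => e a ▸ h1 _
  obtain ⟨P, rfl, hP⟩ := exists_of_O hc O f g h3 fun a => by
    have h4 := (isUnit_map_iff (f'.codRestrict O.toSubring h1) (algebraMap A _ a)).trans
      (IsLocalization.AtPrime.isUnit_to_map_iff _ (RingHom.ker g) a)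
    have h5 := O.valuation_eq_one_iff ⟨_, h1 (algebraMap A _ a)⟩
    rw [← not_iff_not, not_lt, ← e]
    exact ⟨fun h6 => h4.1 (h5.2 (le_antisymm (O.valuation_le_one _) h6)),
      fun h6 => (h5.1 (h4.2 h6)).ge⟩
  exact ⟨P, fun a => ⟨P.mem_iff.1 (h3 a), hP a⟩⟩

/-- Extension of a place along an embedding of a countable field. -/
theorem exists_ext [Countable K'] (φ : K' →+* K) (Q : Plc K' R) :
    ∃ P : Plc K R, (P.comap φ).Agree Q univ := by
  obtain ⟨P, hP⟩ := exists_dom hc (φ.comp Q.O.subtype) Q.ρ fun a h => by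
    rw [show a = 0 from Subtype.ext (φ.injective (h.trans (map_zero φ).symm)), map_zero]
  refine ⟨P, (agree_of_lifts (F := ⊤) fun x _ hx => ?_).symm⟩
  rw [comap_le_one, comap_r, r_eq hx]
  exact hP ⟨x, Q.mem_iff.2 hx⟩

/-- A place that lifts an embedding on a countable field. -/
theorem exists_lifts (φ : K →+* R) (hS : S.Countable) : ∃ P : Plc K R, P.Lifts φ (acl S) := by
  have := (countable_acl hS).to_subtype
  obtain ⟨P, hP⟩ := exists_dom hc (acl S).subtype (φ.comp (acl S).subtype) fun a h =>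
    (congrArg φ h).trans (map_zero φ)
  exact ⟨P, fun x hx => hP ⟨x, hx⟩⟩

/-- Extension to independent elements with prescribed residues. -/
theorem exists_gauss [Countable ι] (P : Plc K R) (hF : (F : Set K).Countable)
    (hY : Ind (F : Set K) Y) (W : ι → R) :
    ∃ Q : Plc K R, P.Agree Q F ∧ ∀ i, Q.v (Y i) ≤ 1 ∧ Q.r (Y i) = W i := by
  let A : Subring K := F.toSubring ⊓ P.O.toSubring
  have : Countable A := (hF.mono fun x (hx : x ∈ A) => hx.1).to_subtype
  obtain ⟨Q, hQ⟩ := exists_dom hc (MvPolynomial.eval₂Hom A.subtype Y)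
    (MvPolynomial.eval₂Hom (P.ρ.comp (Subring.inclusion inf_le_right)) W) fun q h => by
      rw [MvPolynomial.map_injective A.subtype A.subtype_injective (a₂ := 0) ((ind_iff.1 hY _
        (fun m => by rw [MvPolynomial.coeff_map]; exact subset_acl _ (q.coeff m).2.1)
        ((MvPolynomial.eval_map _ _ _).trans h)).trans (map_zero _).symm), map_zero]
  refine ⟨Q, agree_of_lifts fun x hx h1 => ?_, fun i => by simpa using hQ (MvPolynomial.X i)⟩
  have h2 := hQ (MvPolynomial.C ⟨x, hx, P.mem_iff.2 h1⟩)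
  rw [MvPolynomial.eval₂Hom_C, MvPolynomial.eval₂Hom_C] at h2
  exact ⟨h2.1, h2.2.trans (r_eq h1).symm⟩

/-- Extension with an infinitesimal element. -/
theorem exists_small (P : Plc K R) (hF : (F : Set K).Countable) (hτ : τ ∉ acl (F : Set K)) :
    ∃ Q : Plc K R, P.Agree Q F ∧ ∀ c ∈ F, c ≠ 0 → Q.v τ < Q.v c := by
  have : Countable F := hF.to_subtype
  have : Countable (Polynomial F) :=
    (MvPolynomial.uniqueAlgEquiv F Unit).symm.injective.countable
  let ψ : Polynomial F →+* K := F.subtype.comp Polynomial.constantCoeff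
  let A : Subring (Polynomial F) := P.O.toSubring.comap ψ
  obtain ⟨Q, hQ⟩ := exists_dom hc ((Polynomial.eval₂RingHom F.subtype τ).comp A.subtype)
    (P.ρ.comp (ψ.restrict A P.O fun _ h => h)) fun q h => by
      rw [show q = 0 from Subtype.ext (by_contra fun h0 =>
        hτ (mem_acl_subfield.2 ⟨q.1, h0, h⟩)), map_zero]
  refine ⟨Q, agree_of_lifts fun x hx h1 => ?_, fun c hc h0 => ?_⟩
  · have h2 := hQ ⟨Polynomial.C ⟨x, hx⟩, by simpa [A, ψ] using P.mem_iff.2 h1⟩
    rw [r_eq h1]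
    simpa [ψ, RingHom.restrict, RingHom.codRestrict] using h2
  · have h2 := hQ ⟨Polynomial.X * Polynomial.C ⟨c⁻¹, inv_mem hc⟩, by simp [A, ψ]⟩
    have h3 : ((Polynomial.eval₂RingHom F.subtype τ).comp A.subtype)
        ⟨Polynomial.X * Polynomial.C ⟨c⁻¹, inv_mem hc⟩, by simp [A, ψ]⟩ = τ / c := by
      simp [div_eq_inv_mul]
    rw [h3] at h2
    refine (Q.v_div_lt_one h0).1 ((r_eq_zero_iff h2.1).1 (h2.2.trans ?_))
    refine (congrArg P.ρ (Subtype.ext ?_)).trans (map_zero _)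
    change ψ (_ * _) = 0
    simp [ψ]

/-- Amalgamation of a place with an embedding of a free field. -/
theorem fresh [IsAlgClosed K] [CharZero K] {φ : K →+* R} (hk : k.Countable) (hS : S.Countable)
    (hT : T.Countable) (h : Free k S T) (hP : P.Lifts φ (acl k)) :
    ∃ Q : Plc K R, P.Agree Q (acl (k ∪ S)) ∧ Q.Lifts φ (acl (k ∪ T)) := by
  let A : Subring K := (acl (k ∪ S)).toSubring ⊓ P.O.toSubring
  obtain ⟨γ, h1, h2⟩ := h.glue A (acl (k ∪ T)).toSubring
    (fun x hx => ⟨acl_mono subset_union_left hx, P.mem_iff.2 (hP x hx).1⟩) inf_le_left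
    (acl_mono subset_union_left) le_rfl (P.ρ.comp (Subring.inclusion inf_le_right))
    (φ.comp (Subring.subtype _)) fun x hx => (r_eq (hP x hx).1).symm.trans (hP x hx).2
  have : Countable (A ⊔ (acl (k ∪ T)).toSubring : Subring K) :=
    ((countable_acl (hk.union (hS.union hT))).mono (show _ ≤ (acl (k ∪ (S ∪ T))).toSubring from
      sup_le (inf_le_left.trans (acl_mono (union_subset_union_right _ subset_union_left)))
        (acl_mono (union_subset_union_right _ subset_union_right)))).to_subtype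
  obtain ⟨Q, hQ⟩ := exists_dom hc (Subring.subtype _) γ fun a h => by
    rw [show a = 0 from Subtype.ext h, map_zero]
  refine ⟨Q, agree_of_lifts fun x hx h3 => ?_, fun x hx => ?_⟩
  · have h4 := hQ ⟨x, (le_sup_left : A ≤ _) ⟨hx, P.mem_iff.2 h3⟩⟩
    exact ⟨h4.1, h4.2.trans ((h1 ⟨x, hx, P.mem_iff.2 h3⟩).trans (r_eq h3).symm)⟩
  · have h4 := hQ ⟨x, (le_sup_right : _ ≤ A ⊔ _) hx⟩
    exact ⟨h4.1, h4.2.trans (h2 ⟨x, hx⟩)⟩

end ex

end Plc

end Pool.Agent.P.MP_f17f76_ag.E
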