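import Pool.Agent.P.MP_f17f76_ag.E.Ch
import Pool.Agent.P.MP_f17f76_ag.E.PlcA
import Pool.Agent.P.MP_f17f76_ag.E.NdB

/-!
Reduction of points at a place.
-/

namespace Pool.Agent.P.MP_f17f76_ag.AbVar

open Set Module E MvPolynomial

variable {g N : ℕ} {A : AbVar g N} {κ : Type} {k L : Subfield ℂ} {P Q : Plc ℂ ℂ} {i : Fin N}
  {a a' b b' c : Fin g → ℂ} {θ : κ → Fin g → ℂ} {D D' : Der ℂ} {U : Submodule ℂ (Fin g → ℂ)}

theorem aff_apply (i j : Fin N) (w : Fin g → ℂ) : A.aff i w j = A.θ w j / A.θ w i := by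
  rw [aff, Pi.smul_apply, smul_eq_mul, div_eq_inv_mul]

theorem aff_smul (s : ℂ) (hs : s ≠ 0) (i j : Fin N) (w : Fin g → ℂ) :
    A.aff i w j = (s • A.θ w) j / (s • A.θ w) i := by
  rw [aff_apply, Pi.smul_apply, Pi.smul_apply, smul_eq_mul, smul_eq_mul, mul_div_mul_left _ _ hs]

theorem aff_mem (h : ∀ j, A.crd a j ∈ L) (i j : Fin N) : A.aff i a j ∈ L := by
  rw [aff_eq_crd]
  exact mul_mem (inv_mem (h i)) (h j)

theorem crd_mem_of_aff (hi : A.θ a i ≠ 0) (h : ∀ j, A.aff i a j ∈ L) (j : Fin N) :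
    A.crd a j ∈ L := nrm_aff hi ▸ nrm_mem h j

theorem aff_mem_acl (F : Set ℂ) (i j : Fin N) : A.aff i a j ∈ acl (F ∪ range (A.crd a)) :=
  aff_mem (fun j => mem_acl_of_mem (Or.inr ⟨j, rfl⟩)) i j

theorem acl_aff (hi : A.θ a i ≠ 0) (F : Set ℂ) :
    acl (F ∪ range (A.aff i a)) = acl (F ∪ range (A.crd a)) :=
  acl_congr (union_subset (subset_union_left.trans (subset_acl _))
    (range_subset_iff.2 (aff_mem_acl F i))) (union_subset (subset_union_left.trans (subset_acl _))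
      (range_subset_iff.2 (crd_mem_of_aff hi fun j => mem_acl_of_mem (Or.inr ⟨j, rfl⟩))))

theorem trd_aff (hi : A.θ a i ≠ 0) (F : Set ℂ) :
    trd F (range (A.aff i a)) = trd F (range (A.crd a)) := by
  rw [← trd_acl, acl_aff hi, trd_acl]

theorem aff_congr (e : A.crd a = A.crd a') (i : Fin N) : A.aff i a = A.aff i a' := by
  rw [aff_eq_crd, aff_eq_crd, e]

theorem theta_congr (e : A.crd a = A.crd a') : A.θ a i ≠ 0 ↔ A.θ a' i ≠ 0 := by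
  rw [← crd_ne_zero_iff, ← crd_ne_zero_iff, e]

theorem aff_map (φ : ℂ →+* ℂ) (e : A.crd a' = φ ∘ A.crd a) (i j : Fin N) :
    A.aff i a' j = φ (A.aff i a j) := by
  simp [aff_eq_crd, e]

theorem theta_map (φ : ℂ →+* ℂ) (e : A.crd a' = φ ∘ A.crd a) : A.θ a' i ≠ 0 ↔ A.θ a i ≠ 0 := by
  rw [← crd_ne_zero_iff, ← crd_ne_zero_iff, e]
  exact map_ne_zero φ

theorem red_of_smul {s s' : ℂ} (hs : s' ≠ 0)
    (h : ∀ j, P.v ((s • A.θ a) j) ≤ 1 ∧ P.r ((s • A.θ a) j) = (s' • A.θ b) j)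
    (hi : A.θ b i ≠ 0) :
    A.θ a i ≠ 0 ∧ ∀ j, P.v (A.aff i a j) ≤ 1 ∧ P.r (A.aff i a j) = A.aff i b j := by
  have h1 : P.v ((s • A.θ a) i) = 1 := Plc.r_ne_zero_iff.1 ((h i).2 ▸ mul_ne_zero hs hi)
  have h2 : s * A.θ a i ≠ 0 := fun e => by
    rw [show (s • A.θ a) i = 0 from e, map_zero] at h1
    exact zero_ne_one h1
  refine ⟨right_ne_zero_of_mul h2, fun j => ?_⟩
  rw [aff_smul s (left_ne_zero_of_mul h2), aff_smul s' hs, Plc.r_div (h j).1 h1, (h j).2, (h i).2]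
  exact ⟨(P.v_div_le_one h2).2 ((h j).1.trans h1.ge), rfl⟩

theorem Red.of_smul {s s' : ℂ} (hs : s' ≠ 0)
    (h : ∀ j, P.v ((s • A.θ a) j) ≤ 1 ∧ P.r ((s • A.θ a) j) = (s' • A.θ b) j) : A.Red P a b := by
  obtain ⟨i, hi⟩ := Function.ne_iff.1 (A.ne_zero b)
  exact ⟨i, hi, (red_of_smul hs h hi).2⟩

/-- Every chart that contains the reduction can be used. -/
theorem Red.chart (h : A.Red P a b) (hi : A.θ b i ≠ 0) :
    A.θ a i ≠ 0 ∧ ∀ j, P.v (A.aff i a j) ≤ 1 ∧ P.r (A.aff i a j) = A.aff i b j := by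
  obtain ⟨j, hj, h⟩ := h
  exact red_of_smul (inv_ne_zero hj) h hi

theorem Red.exists_chart (h : A.Red P a b) : ∃ i, A.θ b i ≠ 0 ∧ A.θ a i ≠ 0 ∧
    ∀ j, P.v (A.aff i a j) ≤ 1 ∧ P.r (A.aff i a j) = A.aff i b j := by
  obtain ⟨i, hi⟩ := Function.ne_iff.1 (A.ne_zero b)
  exact ⟨i, hi, h.chart hi⟩

theorem Red.unique (h : A.Red P a b) (h' : A.Red P a b') : A.crd b = A.crd b' := by
  obtain ⟨i, h1, -, h2⟩ := h.exists_chart
  obtain ⟨j, h3, -, h4⟩ := h'.exists_chart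
  have h5 : A.θ b j ≠ 0 := fun e => by
    have h6 : P.v (A.aff i a j) < 1 := (Plc.r_eq_zero_iff (h2 j).1).1 (by
      rw [(h2 j).2, aff_apply, e, zero_div])
    have h7 := Plc.v_mul_lt (h4 i).1 h6
    rw [aff_apply, aff_apply, div_mul_div_cancel₀ (h'.chart h3).1, div_self (h.chart h1).1,
      map_one] at h7
    exact h7.false
  rw [← nrm_aff h5, ← nrm_aff h3]
  exact congrArg nrm (funext fun l => ((h.chart h5).2 l).2.symm.trans (h4 l).2)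

theorem Red.congr (h : A.Red P a b) (e : A.crd a = A.crd a') (e' : A.crd b = A.crd b') :
    A.Red P a' b' := by
  obtain ⟨i, h1, h2⟩ := h
  exact ⟨i, (theta_congr e').1 h1, by rwa [← aff_congr e, ← aff_congr e']⟩

theorem Red.per (h : A.Red P a b) {m m' : Fin g → ℂ} (hm : m ∈ A.Λ) (hm' : m' ∈ A.Λ) :
    A.Red P (a + m) (b + m') := h.congr (A.crd_per hm a).symm (A.crd_per hm' b).symm

theorem Red.agree (h : A.Red P a b) (hQ : P.Agree Q L) (hL : ∀ j, A.crd a j ∈ L) :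
    A.Red Q a b := by
  obtain ⟨i, h1, h2⟩ := h
  exact ⟨i, h1, fun j => ⟨(hQ _ (aff_mem hL i j)).1.1 (h2 j).1,
    (hQ _ (aff_mem hL i j)).2.symm.trans (h2 j).2⟩⟩

theorem Red.crd_mem (h : A.Red P a b) (hL : ∀ j, A.crd a j ∈ L) (j : Fin N) :
    A.crd b j ∈ P.res L := by
  obtain ⟨i, h1, h2⟩ := h
  exact crd_mem_of_aff h1 (fun j => (h2 j).2 ▸ Plc.r_mem_res (aff_mem hL i j)) j

theorem red_of_lifts {φ : ℂ →+* ℂ} (h : P.Lifts φ (range (A.crd a))) (e : A.crd b = φ ∘ A.crd a) :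
    A.Red P a b :=
  Red.of_smul (A.piv_inv_ne b) fun j => ⟨(h _ ⟨j, rfl⟩).1, (h _ ⟨j, rfl⟩).2.trans
    (congrFun e j).symm⟩

theorem red_self (h : P.IdOn (range (A.crd a))) : A.Red P a a :=
  red_of_lifts (φ := RingHom.id ℂ) h rfl

theorem Red.comp (h : A.Red P a b) (h' : A.Red Q b c) : A.Red (P.comp Q) a c := by
  obtain ⟨i, h1, h2, h3⟩ := h'.exists_chart
  have h4 := (h.chart h2).2
  exact ⟨i, h1, fun j => ⟨(Plc.comp_le_one Q).2 ⟨(h4 j).1, (h4 j).2 ▸ (h3 j).1⟩, by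
    rw [Plc.comp_r, (h4 j).2, (h3 j).2]⟩⟩

theorem Red.comap (φ : ℂ →+* ℂ) (e : A.crd a' = φ ∘ A.crd a) :
    A.Red (P.comap φ) a b ↔ A.Red P a' b := by
  simp only [Red, Plc.comap_le_one, Plc.comap_r, aff_map φ e]

theorem Red.map (h : A.Red P a b) (ψ : ℂ →+* ℂ) (e : A.crd b' = ψ ∘ A.crd b) :
    A.Red (P.map ψ) a b' := by
  obtain ⟨i, h1, h2⟩ := h
  exact ⟨i, (theta_map ψ e).2 h1, fun j => ⟨(h2 j).1, by rw [Plc.map_r, (h2 j).2, aff_map ψ e]⟩⟩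

theorem Red.conj (h : A.Red P a b) (σ : ℂ ≃+* ℂ) (e : A.crd a' = σ ∘ A.crd a)
    (e' : A.crd b' = σ ∘ A.crd b) : A.Red (P.conj σ) a' b' :=
  ((Red.comap (σ.symm : ℂ →+* ℂ) (funext fun j => by simp [e])).2 h).map (σ : ℂ →+* ℂ) e'

section ov

variable (hA : A.Over k) (hP : P.IdOn k)
include hA hP

theorem Over.exists_red (hU : A.IsLie U) (ha : a ∈ U) : ∃ b ∈ U, A.Red P a b := by
  obtain ⟨j, hj⟩ := Function.ne_iff.1 (A.ne_zero a)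
  obtain ⟨i, -, hi⟩ := Finset.exists_max_image Finset.univ (fun j => P.v (A.θ a j))
    ⟨j, Finset.mem_univ j⟩
  have h1 : A.θ a i ≠ 0 := fun e => by
    have := hi j (Finset.mem_univ j)
    rw [e, map_zero] at this
    exact this.not_gt (P.v_pos hj)
  have h2 : ∀ j, P.v (A.aff i a j) ≤ 1 := fun j => by
    rw [aff_apply]
    exact (P.v_div_le_one h1).2 (hi j (Finset.mem_univ j))
  obtain ⟨b, hb, t, ht⟩ := hA.exists_rel hU ha (fun x y => P.v x ≤ 1 ∧ P.r x = y)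
    (fun _ h => h.2.symm.trans P.r_zero) hP
    (fun _ _ _ _ h h' => ⟨P.v.map_add_le h.1 h'.1, by rw [Plc.r_add h.1 h'.1, h.2, h'.2]⟩)
    (fun _ _ _ _ h h' => ⟨Plc.v_mul_le h.1 h'.1, by rw [Plc.r_mul h.1 h'.1, h.2, h'.2]⟩)
    (y := fun j => P.r (A.aff i a j)) fun j => ⟨h2 j, rfl⟩
  refine ⟨b, hb, Red.of_smul (s' := t) (fun e => ?_) fun j => ⟨h2 j, congrFun ht j⟩⟩
  have := congrFun ht i
  simp [aff_self h1, e] at this

theorem Over.exists_red' (a : Fin g → ℂ) : ∃ b, A.Red P a b :=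
  (hA.exists_red hP isLie_top (a := a) trivial).imp fun _ h => h.2

theorem Over.red_add (h : A.Red P a b) (h' : A.Red P a' b') : A.Red P (a + a') (b + b') := by
  obtain ⟨i, h1, h2⟩ := h
  obtain ⟨j, h3, h4⟩ := h'
  obtain ⟨s, s', -, hs, h5⟩ := hA.add_rel (fun x y => P.v x ≤ 1 ∧ P.r x = y)
    (fun _ h => h.2.symm.trans P.r_zero) hP
    (fun _ _ _ _ h h' => ⟨P.v.map_add_le h.1 h'.1, by rw [Plc.r_add h.1 h'.1, h.2, h'.2]⟩)
    (fun _ _ _ _ h h' => ⟨Plc.v_mul_le h.1 h'.1, by rw [Plc.r_mul h.1 h'.1, h.2, h'.2]⟩)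
    (inv_ne_zero h1) (inv_ne_zero h3) h2 h4
  exact Red.of_smul hs h5

theorem Over.red_lat {m : Fin g → ℂ} (hm : m ∈ A.Λ) : A.Red P m m :=
  red_self (hP.mono (range_subset_iff.2 (hA.crd_lat hm)))

theorem Over.red_sub (h : A.Red P a b) (h' : A.Red P a' b') : A.Red P (a - a') (b - b') := by
  obtain ⟨c, hc⟩ := hA.exists_red' hP (a - a')
  have h1 := hA.red_add hP hc h'
  rw [sub_add_cancel] at h1
  refine hc.congr rfl (A.crd_eq_iff.2 ?_)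
  rw [sub_sub, add_comm]
  exact A.crd_eq_iff.1 (h1.unique h)

theorem Over.red_neg (h : A.Red P a b) : A.Red P (-a) (-b) := by
  simpa using hA.red_sub hP (hA.red_lat hP A.Λ.zero_mem) h

/-- Reduction commutes with the projections up to a period. -/
theorem Over.red_pr (hU : A.IsLie U) (h : A.Red P a b) :
    ∃ m ∈ A.Λ, A.Red P (A.pr U a) (A.pr U (b + m)) ∧
      A.Red P (a - A.pr U a) (b + m - A.pr U (b + m)) := by
  obtain ⟨b₁, h1, h2⟩ := hA.exists_red hP hU (A.pr_mem U a)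
  obtain ⟨b₂, h3, h4⟩ := hA.exists_red hP hU.perp (A.sub_pr_mem U a)
  have h5 := hA.red_add hP h2 h4
  rw [add_sub_cancel] at h5
  refine ⟨_, A.crd_eq_iff.1 (h.unique h5), ?_⟩
  rw [add_sub_cancel, A.pr_eq (w := b₁ + b₂) h1 (by simpa using h3), add_sub_cancel_left]
  exact ⟨h2, h4⟩

/-- The reduction of a projection and the projection of the reduction differ by torsion. -/
theorem Over.red_pr_dl (hU : A.IsLie U) (h : A.Red P a b) (h' : A.Red P (A.pr U a) c)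
    (hD : D ∈ kil (k : Set ℂ)) : A.dl c D = A.pr U (A.dl b D) := by
  obtain ⟨m, hm, h1, -⟩ := hA.red_pr hP hU h
  rw [hA.dl_congr hD (h'.unique h1), hA.dl_pr hD hU, hA.dl_per hD hm]

omit hA in
theorem v_aeval {σ : Type} {y : σ → ℂ} (hy : ∀ j, P.v (y j) ≤ 1) (p : MvPolynomial σ k) :
    P.v (aeval y p) ≤ 1 ∧ P.r (aeval y p) = aeval (P.r ∘ y) p := by
  rw [← eval_map_sub, ← eval_map_sub]
  exact (cf_map p).rel (fun x y => P.v x ≤ 1 ∧ P.r x = y) hP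
    (fun _ _ _ _ h h' => ⟨P.v.map_add_le h.1 h'.1, by rw [Plc.r_add h.1 h'.1, h.2, h'.2]⟩)
    (fun _ _ _ _ h h' => ⟨Plc.v_mul_le h.1 h'.1, by rw [Plc.r_mul h.1 h'.1, h.2, h'.2]⟩)
    fun j => ⟨hy j, rfl⟩

/-- The size of the logarithmic derivative is bounded by the derivatives of the coordinates. -/
theorem Over.v_dl_le (hi : A.θ a i ≠ 0) (hy : ∀ j, P.v (A.aff i a j) ≤ 1)
    (hD : D ∈ kil (k : Set ℂ)) {γ : P.O.ValueGroup} (h : ∀ j, P.v (D (A.aff i a j)) ≤ γ)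
    (l : Fin g) : P.v (A.dl a D l) ≤ γ := by
  obtain ⟨R, H, c⟩ := hA.exists_ch i
  rw [c.dl hA hD hi]
  exact P.v.map_sum_le fun j _ => (map_mul _ _ _).trans_le
    ((mul_le_of_le_one_left' (v_aeval hP hy _).1).trans (h j))

theorem Over.v_dl_lt (hi : A.θ a i ≠ 0) (hy : ∀ j, P.v (A.aff i a j) ≤ 1)
    (hD : D ∈ kil (k : Set ℂ)) {γ : P.O.ValueGroup} (h0 : γ ≠ 0)
    (h : ∀ j, P.v (D (A.aff i a j)) < γ) (l : Fin g) : P.v (A.dl a D l) < γ := by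
  obtain ⟨R, H, c⟩ := hA.exists_ch i
  rw [c.dl hA hD hi]
  exact P.v.map_sum_lt h0 fun j _ => (map_mul _ _ _).trans_lt
    ((mul_le_of_le_one_left' (v_aeval hP hy _).1).trans_lt (h j))

/-- The derivatives of the coordinates are bounded by the logarithmic derivative. -/
theorem Over.v_der_le (hi : A.θ a i ≠ 0) (hy : ∀ j, P.v (A.aff i a j) ≤ 1)
    (hD : D ∈ kil (k : Set ℂ)) {γ : P.O.ValueGroup} (h : ∀ l, P.v (A.dl a D l) ≤ γ)
    (j : Fin N) : P.v (D (A.aff i a j)) ≤ γ := by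
  obtain ⟨R, H, c⟩ := hA.exists_ch i
  rw [c.der hA hD hi]
  exact P.v.map_sum_le fun l _ => (map_mul _ _ _).trans_le
    ((mul_le_of_le_one_left' (v_aeval hP hy _).1).trans (h l))

theorem Over.ctr_dl (hD : D ∈ kil (k : Set ℂ)) (hc : P.Ctr D L) (hL : ∀ j, A.crd a j ∈ L)
    (l : Fin g) : P.v (A.dl a D l) ≤ 1 := by
  obtain ⟨b, hb⟩ := hA.exists_red' hP a
  obtain ⟨i, -, h1, h2⟩ := hb.exists_chart
  exact hA.v_dl_le hP h1 (fun j => (h2 j).1) hD (fun j => (hc _ (aff_mem hL i j)).trans (h2 j).1) l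

/-- A derivation that maps the integral elements to the maximal ideal. -/
theorem Over.small_dl (hD : D ∈ kil (k : Set ℂ)) (hc : ∀ x ∈ L, P.v x ≤ 1 → P.v (D x) < 1)
    (hL : ∀ j, A.crd a j ∈ L) (l : Fin g) : P.v (A.dl a D l) < 1 := by
  obtain ⟨b, hb⟩ := hA.exists_red' hP a
  obtain ⟨i, -, h1, h2⟩ := hb.exists_chart
  exact hA.v_dl_lt hP h1 (fun j => (h2 j).1) hD one_ne_zero
    (fun j => hc _ (aff_mem hL i j) (h2 j).1) l

/-- The residue of the logarithmic derivative. -/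
theorem Over.r_dl (h : A.Red P a b) (hi : A.θ b i ≠ 0) (hD : D ∈ kil (k : Set ℂ))
    (hD' : D' ∈ kil (k : Set ℂ)) (h1 : ∀ j, P.v (D (A.aff i a j)) ≤ 1)
    (h2 : ∀ j, D' (A.aff i b j) = P.r (D (A.aff i a j))) (l : Fin g) :
    P.r (A.dl a D l) = A.dl b D' l := by
  obtain ⟨h3, h4⟩ := h.chart hi
  exact (hA.dl_rel hD hD' (fun x y => P.v x ≤ 1 ∧ P.r x = y)
    (fun _ h => h.2.symm.trans P.r_zero) hP
    (fun _ _ _ _ h h' => ⟨P.v.map_add_le h.1 h'.1, by rw [Plc.r_add h.1 h'.1, h.2, h'.2]⟩)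
    (fun _ _ _ _ h h' => ⟨Plc.v_mul_le h.1 h'.1, by rw [Plc.r_mul h.1 h'.1, h.2, h'.2]⟩)
    (fun x y h h' => ⟨by rw [map_inv₀, Plc.r_ne_zero_iff.1 (h.2 ▸ h'), inv_one], by
      rw [Plc.r_inv, h.2]⟩) (inv_ne_zero h3) (inv_ne_zero hi) h4
    (fun j => ⟨h1 j, (h2 j).symm⟩) l).2

omit hA in
theorem res_kil (hk : k ≤ L) (hD : D ∈ kil (k : Set ℂ))
    (h : ∀ x ∈ L, P.v x ≤ 1 → D' (P.r x) = P.r (D x)) : D' ∈ kil (k : Set ℂ) := fun x hx => by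
  have := h x (hk hx) (hP x hx).1
  rwa [(hP x hx).2, hD x hx, P.r_zero] at this

theorem Over.res_dl (h : A.Red P a b) (hk : k ≤ L) (hL : ∀ j, A.crd a j ∈ L)
    (hD : D ∈ kil (k : Set ℂ)) (hc : P.Ctr D L)
    (hD' : ∀ x ∈ L, P.v x ≤ 1 → D' (P.r x) = P.r (D x)) (l : Fin g) :
    P.r (A.dl a D l) = A.dl b D' l := by
  obtain ⟨i, h1, -, h2⟩ := h.exists_chart
  exact hA.r_dl hP h h1 hD (res_kil hP hk hD hD')
    (fun j => (hc _ (aff_mem hL i j)).trans (h2 j).1)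
    (fun j => (h2 j).2 ▸ hD' _ (aff_mem hL i j) (h2 j).1) l

omit hA hP in
theorem v_dot {ι : Type} [Fintype ι] {x y : ι → ℂ} (hx : ∀ i, P.v (x i) ≤ 1)
    (hy : ∀ i, P.v (y i) ≤ 1) : P.v (x ⬝ᵥ y) ≤ 1 ∧ P.r (x ⬝ᵥ y) = (P.r ∘ x) ⬝ᵥ (P.r ∘ y) :=
  ⟨P.v.map_sum_le fun i _ => Plc.v_mul_le (hx i) (hy i),
    (Plc.r_sum fun i _ => Plc.v_mul_le (hx i) (hy i)).trans
      (Finset.sum_congr rfl fun i _ => Plc.r_mul (hx i) (hy i))⟩

omit hA hP in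
theorem v_dot_le {ι : Type} [Fintype ι] {x y : ι → ℂ} {γ : P.O.ValueGroup}
    (hx : ∀ i, P.v (x i) ≤ 1) (hy : ∀ i, P.v (y i) ≤ γ) : P.v (x ⬝ᵥ y) ≤ γ :=
  P.v.map_sum_le fun i _ => (map_mul _ _ _).trans_le
    ((mul_le_of_le_one_left' (hx i)).trans (hy i))

omit hA hP in
theorem v_dot_lt {ι : Type} [Fintype ι] {x y : ι → ℂ} {γ : P.O.ValueGroup} (h0 : γ ≠ 0)
    (hx : ∀ i, P.v (x i) ≤ 1) (hy : ∀ i, P.v (y i) < γ) : P.v (x ⬝ᵥ y) < γ :=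
  P.v.map_sum_lt h0 fun i _ => (map_mul _ _ _).trans_lt
    ((mul_le_of_le_one_left' (hx i)).trans_lt (hy i))

theorem Over.ctr_pv (hθ : ∀ j l, P.v (θ j l) ≤ 1) (hD : D ∈ kil (k : Set ℂ)) (hc : P.Ctr D L)
    (hL : ∀ j, A.crd a j ∈ L) (j : κ) : P.v (A.pv θ a D j) ≤ 1 :=
  v_dot_le (hθ j) (hA.ctr_dl hP hD hc hL)

theorem Over.small_pv (hθ : ∀ j l, P.v (θ j l) ≤ 1) (hD : D ∈ kil (k : Set ℂ))
    (hc : ∀ x ∈ L, P.v x ≤ 1 → P.v (D x) < 1) (hL : ∀ j, A.crd a j ∈ L) (j : κ) :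
    P.v (A.pv θ a D j) < 1 := v_dot_lt one_ne_zero (hθ j) (hA.small_dl hP hD hc hL)

theorem Over.res_pv (h : A.Red P a b) (hθ : ∀ j l, P.v (θ j l) ≤ 1 ∧ P.r (θ j l) = θ j l)
    (hk : k ≤ L) (hL : ∀ j, A.crd a j ∈ L) (hD : D ∈ kil (k : Set ℂ)) (hc : P.Ctr D L)
    (hD' : ∀ x ∈ L, P.v x ≤ 1 → D' (P.r x) = P.r (D x)) (j : κ) :
    P.r (A.pv θ a D j) = A.pv θ b D' j := by
  rw [pv_apply, (v_dot (fun l => (hθ j l).1) (hA.ctr_dl hP hD hc hL)).2, pv_apply]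
  exact congrArg₂ _ (funext fun l => (hθ j l).2) (funext (hA.res_dl hP h hk hL hD hc hD'))

end ov

end Pool.Agent.P.MP_f17f76_ag.AbVar
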