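import Pool.Agent.P.MP_f17f76_ag.E.CcA
import Pool.Agent.P.MP_f17f76_ag.E.Red

/-!
The generic point of the formal leaf of a contractive derivation and its residue.
-/

namespace Pool.Agent.P.MP_f17f76_ag.E

open Set PowerSeries Cardinal

theorem aeval_rel {k S T σ : Type} [CommRing k] [CommRing S] [CommRing T] [Algebra k S]
    [Algebra k T] (r : S → T → Prop) (h1 : ∀ a : k, r (algebraMap k S a) (algebraMap k T a))
    (h2 : ∀ a b a' b', r a a' → r b b' → r (a + b) (a' + b'))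
    (h3 : ∀ a b a' b', r a a' → r b b' → r (a * b) (a' * b')) {y : σ → S} {y' : σ → T}
    (hy : ∀ j, r (y j) (y' j)) (p : MvPolynomial σ k) :
    r (MvPolynomial.aeval y p) (MvPolynomial.aeval y' p) := by
  induction p using MvPolynomial.induction_on with
  | C a => simpa using h1 a
  | add p q hp hq => simpa using h2 _ _ _ _ hp hq
  | mul_X p i hp => simpa using h3 _ _ _ _ hp (hy i)

theorem det_series_ne {K n : Type} [Field K] [Fintype n] [DecidableEq n] {B : Matrix n n K⟦X⟧}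
    (h0 : ∀ i j, constantCoeff (B i j) = 0)
    (h1 : ∀ i j, coeff 1 (B i j) = if i = j then 1 else 0) : B.det ≠ 0 := by
  let B' : Matrix n n K⟦X⟧ := Matrix.of fun i j => PowerSeries.mk fun p => coeff (p + 1) (B i j)
  have e : B = (X : K⟦X⟧) • B' := Matrix.ext fun i j => by
    simpa [h0, B'] using eq_X_mul_shift_add_const (B i j)
  have e' : (constantCoeff (R := K)).mapMatrix B' = 1 := Matrix.ext fun i j => by
    simp [B', h1, Matrix.one_apply]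
  rw [e, Matrix.det_smul]
  refine mul_ne_zero (pow_ne_zero _ X_ne_zero) fun h => ?_
  have := (constantCoeff (R := K)).map_det B'
  rw [h, e', map_zero, Matrix.det_one] at this
  exact zero_ne_one this

/-- The embedding `i` of the power series and the place `Q` realise the leaf of `δ`. -/
structure Leaf (P : Plc ℂ ℂ) (L : Subfield ℂ) (δ : Der ℂ) (i : ℂ⟦X⟧ →+* ℂ) (Q : Plc ℂ ℂ) :
    Prop where
  inj : Function.Injective i
  fix : ∀ x ∈ L, i (C x) = x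
  fixr : ∀ x ∈ P.res L, i (C x) = x
  ctr : P.Ctr δ L
  pres : ∀ x ∈ L, δ x ∈ L
  dom : ∀ f, P.Sle f 1 → i f ∈ acl (L ∪ i.comp (tay δ) '' L) →
    Q.v (i f) ≤ 1 ∧ Q.r (i f) = i (P.sp f)

theorem exists_leaf (P : Plc ℂ ℂ) {L : Subfield ℂ} (hL : (L : Set ℂ).Countable) {δ : Der ℂ}
    (h1 : P.Ctr δ L) (h2 : ∀ x ∈ L, δ x ∈ L) : ∃ i Q, Leaf P L δ i Q := by
  have : Uncountable ℂ := Complex.ofReal_injective.uncountable
  obtain ⟨i, hi, hf⟩ := exists_series_emb mk_complex (hL.union (Plc.countable_res (P := P) hL))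
  let T := acl (L ∪ i.comp (tay δ) '' L)
  have hT : Countable T := countable_acl (hL.union (hL.image _))
  let A : Subring P.intS := T.toSubring.comap (i.comp P.intS.subtype)
  have : Countable A := Function.Injective.countable (f := fun a : A => (⟨i a.1.1, a.2⟩ : T))
    fun a b h => Subtype.ext (Subtype.ext (hi (congrArg Subtype.val h)))
  obtain ⟨Q, hQ⟩ := Plc.exists_dom (K := ℂ) (R := ℂ) le_rfl
    ((i.comp P.intS.subtype).comp A.subtype) ((i.comp P.spH).comp A.subtype) fun a h => by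
      have : a = 0 := Subtype.ext (Subtype.ext (hi (h.trans (map_zero i).symm)))
      rw [this, map_zero]
  exact ⟨i, Q, hi, fun x hx => hf x (Or.inl hx), fun x hx => hf x (Or.inr hx), h1, h2,
    fun f hf1 hf2 => hQ ⟨⟨f, hf1⟩, hf2⟩⟩

namespace Leaf

variable {P Q : Plc ℂ ℂ} {L k : Subfield ℂ} {δ e : Der ℂ} {i : ℂ⟦X⟧ →+* ℂ} (h : Leaf P L δ i Q)
  {x y : ℂ}
include h

theorem sle (hx : x ∈ L) : P.Sle (tay δ x) (P.v x) := Plc.sle_tay h.ctr h.pres hx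

theorem sle_one (hx : x ∈ L) (h1 : P.v x ≤ 1) : P.Sle (tay δ x) 1 := (h.sle hx).mono h1

theorem agree : P.Agree Q L := Plc.agree_of_lifts fun x hx h1 => by
  have := h.dom _ (Plc.sle_C h1) (by rw [h.fix x hx]; exact subset_acl _ (Or.inl hx))
  rwa [P.sp_C, h.fix x hx, h.fixr _ (Plc.r_mem_res hx)] at this

theorem const (hx : x ∈ L) (h0 : δ x = 0) : i (tay δ x) = x := by rw [tay_const δ h0, h.fix x hx]

theorem dom_tay (hx : x ∈ L) (h1 : P.v x ≤ 1) :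
    Q.v (i (tay δ x)) ≤ 1 ∧ Q.r (i (tay δ x)) = i (P.sp (tay δ x)) :=
  h.dom _ (h.sle_one hx h1) (subset_acl _ (Or.inr ⟨x, hx, rfl⟩))

theorem le_of (hx : x ∈ L) (h1 : Q.v (i (tay δ x)) ≤ 1) : P.v x ≤ 1 := by
  by_contra hc
  have h0 : x ≠ 0 := fun e => hc (by simp [e])
  have h2 := (P.v_inv_lt_one h0).2 (not_le.1 hc)
  have h3 := h.dom_tay (inv_mem hx) h2.le
  rw [Plc.sp_eq_zero (h.sle (inv_mem hx)) h2, map_zero, Plc.r_eq_zero_iff h3.1] at h3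
  have h4 := Plc.v_mul_lt h1 h3.2
  rw [← map_mul, ← map_mul, mul_inv_cancel₀ h0, map_one, map_one, map_one] at h4
  exact lt_irrefl _ h4

theorem exists_dt : ∃ D : Der ℂ, ∀ f, D (i f) = i (d⁄dX ℂ f) :=
  exists_der_hom i h.inj _ (map_add _) fun a b => by simp

theorem exists_mapc (e : Der ℂ) : ∃ D : Der ℂ, ∀ f, D (i f) = i (mapc e f) :=
  exists_der_hom i h.inj _ (mapc_add e) (mapc_mul e)

theorem dt_kil {D : Der ℂ} (hD : ∀ f, D (i f) = i (d⁄dX ℂ f)) : D ∈ kil (L : Set ℂ) :=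
  fun x hx => by rw [← h.fix x hx, hD, derivative_C, map_zero]

theorem mapc_res {D : Der ℂ} (hD : ∀ f, D (i f) = i (mapc e f)) (hx : x ∈ P.res L)
    (h0 : e x = 0) : D x = 0 := by
  rw [← h.fixr x hx, hD, mapc_C, h0, map_zero, map_zero]

theorem aeval (hk : k ≤ L) {σ : Type} (Y : σ → ℂ⟦X⟧) (p : MvPolynomial σ k) :
    MvPolynomial.aeval (fun j => i (Y j)) p = i (MvPolynomial.aeval Y p) :=
  aeval_rel (k := k) (fun a f => a = i f)
    (fun a : k => by rw [PowerSeries.algebraMap_apply]; exact (h.fix a (hk a.2)).symm)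
    (fun _ _ _ _ h h' => by rw [map_add, h, h']) (fun _ _ _ _ h h' => by rw [map_mul, h, h'])
    (fun _ => rfl) p

theorem aeval_st (hk : k ≤ L) (hP : P.IdOn k) (hδ : δ ∈ kil (k : Set ℂ)) {σ : Type} {y : σ → ℂ}
    (hy : ∀ j, y j ∈ L ∧ P.v (y j) ≤ 1) (p : MvPolynomial σ k) :
    (MvPolynomial.aeval y p ∈ L ∧ P.v (MvPolynomial.aeval y p) ≤ 1) ∧
      P.sp (tay δ (MvPolynomial.aeval y p)) =
        MvPolynomial.aeval (fun j => P.sp (tay δ (y j))) p :=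
  aeval_rel (k := k) (fun a f => (a ∈ L ∧ P.v a ≤ 1) ∧ P.sp (tay δ a) = f)
    (fun a : k => ⟨⟨hk a.2, (hP a a.2).1⟩, by
      rw [PowerSeries.algebraMap_apply]
      change P.sp (tay δ a) = C (a : ℂ)
      rw [tay_const δ (hδ a a.2), P.sp_C, (hP a a.2).2]⟩)
    (fun _ _ _ _ h1 h2 => ⟨⟨add_mem h1.1.1 h2.1.1, P.v.map_add_le h1.1.2 h2.1.2⟩, by
      rw [map_add, Plc.sp_add (h.sle_one h1.1.1 h1.1.2) (h.sle_one h2.1.1 h2.1.2), h1.2, h2.2]⟩)
    (fun _ _ _ _ h1 h2 => ⟨⟨mul_mem h1.1.1 h2.1.1, Plc.v_mul_le h1.1.2 h2.1.2⟩, by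
      rw [map_mul, Plc.sp_mul (h.sle_one h1.1.1 h1.1.2) (h.sle_one h2.1.1 h2.1.2), h1.2, h2.2]⟩)
    (fun j => ⟨hy j, rfl⟩) p

theorem st_dot {σ : Type} [Fintype σ] {c y : σ → ℂ} (hc : ∀ j, c j ∈ L ∧ P.v (c j) ≤ 1)
    (hy : ∀ j, y j ∈ L ∧ P.v (y j) ≤ 1) :
    P.sp (tay δ (c ⬝ᵥ y)) = ∑ j, P.sp (tay δ (c j)) * P.sp (tay δ (y j)) := by
  rw [dotProduct, map_sum, Plc.sp_sum fun j _ => h.sle_one (mul_mem (hc j).1 (hy j).1)
    (Plc.v_mul_le (hc j).2 (hy j).2)]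
  exact Finset.sum_congr rfl fun j _ => by
    rw [map_mul, Plc.sp_mul (h.sle_one (hc j).1 (hc j).2) (h.sle_one (hy j).1 (hy j).2)]

variable {g N : ℕ} {A : AbVar g N} {a a' b : Fin g → ℂ}

/-- The residue of the moved point in a chart. -/
theorem chart (ha : ∀ j, A.crd a j ∈ L) (e : A.crd a' = i.comp (tay δ) ∘ A.crd a)
    (hr : A.Red Q a' b) : ∃ c, A.θ a c ≠ 0 ∧ A.θ b c ≠ 0 ∧ ∀ j, P.v (A.aff c a j) ≤ 1 ∧
      A.aff c b j = i (P.sp (tay δ (A.aff c a j))) := by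
  obtain ⟨c, h1, h2, h3⟩ := hr.exists_chart
  refine ⟨c, (AbVar.theta_map _ e).1 h2, h1, fun j => ?_⟩
  have h4 := h3 j
  rw [AbVar.aff_map _ e] at h4
  have h5 := h.le_of (AbVar.aff_mem ha c j) h4.1
  exact ⟨h5, h4.2.symm.trans (h.dom_tay (AbVar.aff_mem ha c j) h5).2⟩

/-- Invariant forms on the residue of the moved point. -/
theorem form (hA : A.Over k) (hk : k ≤ L) (hP : P.IdOn k) (hδ : δ ∈ kil (k : Set ℂ))
    (ha : ∀ j, A.crd a j ∈ L) (ea : A.crd a' = i.comp (tay δ) ∘ A.crd a) (hr : A.Red Q a' b)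
    (he : e ∈ kil (k : Set ℂ)) (he' : ∀ c j, e (P.r (A.aff c a j)) = 0) {D : Der ℂ}
    (hD : ∀ f, D (i f) = i (mapc e f)) {u : Fin g → ℂ}
    (hu : ∀ j, u j ∈ L ∧ P.v (u j) ≤ 1 ∧ P.r (u j) = u j ∧ δ (u j) = 0 ∧ e (u j) = 0) :
    (P.v (u ⬝ᵥ A.dl a δ) < 1 → u ⬝ᵥ A.dl b D = 0) ∧
      (u ⬝ᵥ A.dl b D = 0 → e (P.r (u ⬝ᵥ A.dl a δ)) = 0) := by
  obtain ⟨c, h1, h2, h3⟩ := h.chart ha ea hr
  obtain ⟨R, H, ch⟩ := hA.exists_ch c
  obtain ⟨Dt, hDt⟩ := h.exists_dt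
  have k1 : Dt ∈ kil (k : Set ℂ) := kil_anti hk (h.dt_kil hDt)
  have k2 : D ∈ kil (k : Set ℂ) := fun x hx => by
    rw [← h.fix x (hk hx), hD, mapc_C, he x hx, map_zero, map_zero]
  let Y : Fin N → ℂ⟦X⟧ := fun j => P.sp (tay δ (A.aff c a j))
  have eY : A.aff c b = fun j => i (Y j) := funext fun j => (h3 j).2
  have hy : ∀ j, A.aff c a j ∈ L ∧ P.v (A.aff c a j) ≤ 1 := fun j =>
    ⟨AbVar.aff_mem ha c j, (h3 j).1⟩
  have hdy : ∀ j, δ (A.aff c a j) ∈ L ∧ P.v (δ (A.aff c a j)) ≤ 1 := fun j =>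
    ⟨h.pres _ (hy j).1, (h.ctr _ (hy j).1).trans (hy j).2⟩
  let G : Fin g → ℂ⟦X⟧ := fun l => ∑ j, MvPolynomial.aeval Y (H l j) * mapc e (Y j)
  have e1 : ∀ l, A.dl b D l = i (G l) := fun l => by
    rw [ch.dl hA k2 h2, eY, map_sum]
    exact Finset.sum_congr rfl fun j _ => by rw [h.aeval hk, hD, map_mul]
  have e2 : ∀ l, constantCoeff (G l) = 0 := fun l => by
    rw [map_sum]
    exact Finset.sum_eq_zero fun j _ => by
      rw [map_mul, const_mapc, P.const_sp, const_tay, he', mul_zero]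
  have hdl : ∀ l, A.dl a δ l ∈ L ∧ P.v (A.dl a δ l) ≤ 1 := fun l =>
    ⟨hA.dl_mem_field hδ hk ha (fun j => h.pres _ (ha j)) l, hA.ctr_dl hP hδ h.ctr ha l⟩
  have e3 : ∀ l, A.dl b Dt l = i (P.sp (tay δ (A.dl a δ l))) := fun l => by
    have := h.st_dot (fun j => (h.aeval_st hk hP hδ hy (H l j)).1) hdy
    rw [ch.dl hA k1 h2, ch.dl hA hδ h1, eY]
    refine Eq.trans ?_ (congrArg i this.symm)
    rw [map_sum]
    exact Finset.sum_congr rfl fun j _ => by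
      rw [h.aeval hk, hDt, map_mul, (h.aeval_st hk hP hδ hy (H l j)).2, ← deriv_tay,
        Plc.sp_deriv (h.sle_one (hy j).1 (hy j).2)]
  have e4 : ∀ l, d⁄dX ℂ (G l) = mapc e (P.sp (tay δ (A.dl a δ l))) := fun l => h.inj (by
    rw [← hDt, ← hD, ← e1, ← e3, ← sub_eq_zero, ← hA.dl_lie_bracket k1 k2,
      ch.dl hA (lie_mem_kil k1 k2) h2, eY]
    refine Finset.sum_eq_zero fun j _ => ?_
    rw [Derivation.commutator_apply, hD, hDt, hDt, hD, deriv_mapc, sub_self, mul_zero])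
  have e5 : u ⬝ᵥ A.dl b D = i (∑ j, C (u j) * G j) := by
    rw [map_sum, dotProduct]
    exact Finset.sum_congr rfl fun j _ => by rw [map_mul, h.fix _ (hu j).1, e1]
  have e6 : d⁄dX ℂ (∑ j, C (u j) * G j) = mapc e (P.sp (tay δ (u ⬝ᵥ A.dl a δ))) := by
    rw [h.st_dot (fun j => ⟨(hu j).1, (hu j).2.1⟩) hdl, map_sum, mapc_sum]
    exact Finset.sum_congr rfl fun j _ => by
      rw [tay_const δ (hu j).2.2.2.1, P.sp_C, (hu j).2.2.1, mapc_C_mul (hu j).2.2.2.2, ← e4]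
      simp
  refine ⟨fun h4 => ?_, fun h4 => ?_⟩
  · rw [Plc.sp_eq_zero (h.sle (dot_mem (fun j => (hu j).1) fun j => (hdl j).1)) h4,
      mapc_zero] at e6
    rw [e5, eq_zero_of_deriv e6 (by simp [e2]), map_zero]
  · rw [e5, map_eq_zero_iff i h.inj] at h4
    rw [h4, map_zero] at e6
    have := congrArg constantCoeff e6
    rwa [map_zero, const_mapc, P.const_sp, const_tay, eq_comm] at this

end Leaf

end Pool.Agent.P.MP_f17f76_ag.E
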