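import Pool.Agent.P.MP_f17f76_ag.E.PlcC
import Pool.Agent.P.MP_f17f76_ag.E.Ov

/-!
Places: lattices, reduction of subspaces, conjugacy of extensions.
-/

namespace Pool.Agent.P.MP_f17f76_ag.E

open Set Cardinal Module

theorem finrank_of_pivot {K ι : Type} [Field K] [DecidableEq ι] {W : Submodule K (ι → K)}
    {s : Finset ι} {b : ι → ι → K} (h1 : ∀ l ∈ s, b l ∈ W)
    (h2 : ∀ l ∈ s, ∀ m ∈ s, b l m = if l = m then 1 else 0)
    (h3 : ∀ x ∈ W, x = ∑ l ∈ s, x l • b l) : s.card = finrank K W := by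
  rw [(LinearEquiv.ofBijective ((LinearMap.funLeft K K ((↑) : s → ι)).comp W.subtype)
    ⟨(injective_iff_map_eq_zero _).2 fun x hx => Subtype.ext ((h3 x x.2).trans
      (Finset.sum_eq_zero fun l hl => by
        rw [show x.1 l = 0 from congrFun hx ⟨l, hl⟩, zero_smul])),
    fun c => ⟨⟨∑ l : s, c l • b l, sum_mem fun l _ => W.smul_mem _ (h1 l l.2)⟩, funext fun m => by
      simp [LinearMap.funLeft_apply, h2]⟩⟩).finrank_eq]
  simp

namespace Plc

variable {K K' R : Type} [Field K] [Field K'] [Field R] {P Q : Plc K R}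
  {x y : K} {F : Subfield K} {ι : Type}

section latt

variable {W : Submodule K (ι → K)}

/-- An integral basis that is the identity on the pivot columns. -/
theorem latt [Fintype ι] [DecidableEq ι] (P : Plc K R) (h : Ov F W) :
    ∃ (s : Finset ι) (b : ι → ι → K), s.card = finrank K W ∧
      (∀ l ∈ s, b l ∈ W ∧ (∀ i, b l i ∈ F ∧ P.v (b l i) ≤ 1) ∧
        ∀ m ∈ s, b l m = if l = m then 1 else 0) ∧ ∀ x ∈ W, x = ∑ l ∈ s, x l • b l := by
  suffices h : ∃ (s : Finset ι) (b : ι → ι → K), (∀ l ∈ s, b l ∈ W ∧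
      (∀ i, b l i ∈ F ∧ P.v (b l i) ≤ 1) ∧ ∀ m ∈ s, b l m = if l = m then 1 else 0) ∧
        ∀ x ∈ W, x = ∑ l ∈ s, x l • b l from
    let ⟨s, b, h1, h2⟩ := h
    ⟨s, b, finrank_of_pivot (fun l hl => (h1 l hl).1) (fun l hl => (h1 l hl).2.2) h2, h1, h2⟩
  induction hn : finrank K W using Nat.strong_induction_on generalizing W with
  | _ n ih =>
  by_cases h0 : ∀ x ∈ W, (∀ i, x i ∈ F) → x = 0
  · exact ⟨∅, 0, by simp, fun x hx => h.le_of (R' := ⊥) h0 hx⟩
  push Not at h0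
  obtain ⟨x, h1, h2, h3⟩ := h0
  obtain ⟨j, hj⟩ := Function.ne_iff.1 h3
  obtain ⟨i, -, hi⟩ := Finset.univ.exists_max_image (fun i => P.v (x i)) ⟨j, Finset.mem_univ j⟩
  have h4 : x i ≠ 0 := fun e => hj (by simpa [e] using hi j)
  obtain ⟨u, hu, hu', hu1⟩ : ∃ u ∈ W, (∀ j, u j ∈ F ∧ P.v (u j) ≤ 1) ∧ u i = 1 :=
    ⟨(x i)⁻¹ • x, W.smul_mem _ h1, fun j => by
      rw [Pi.smul_apply, smul_eq_mul, ← div_eq_inv_mul, P.v_div_le_one h4]
      exact ⟨div_mem (h2 j) (h2 i), hi j (Finset.mem_univ j)⟩, by simp [h4]⟩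
  have hm : ∀ z : ι → K, z ∈ W ⊓ ann (Submodule.span K {Pi.single i 1}) ↔ z ∈ W ∧ z i = 0 :=
    fun z => by simp [mem_ann_span]
  obtain ⟨s, b, h5, h6⟩ := ih _ (hn ▸ Submodule.finrank_lt_finrank_of_lt (inf_le_left.lt_of_ne
    fun e => one_ne_zero (hu1.symm.trans ((hm u).1 (e.ge hu)).2)))
    (h.inf (Ov.ann (ov_span (s := {Pi.single i 1}) fun y hy j => by
      rw [hy, Pi.single_apply]
      split_ifs <;> simp))) rfl
  have h7 : ∀ l ∈ s, b l i = 0 := fun l hl => ((hm _).1 (h5 l hl).1).2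
  have h8 : i ∉ s := fun hi => by simpa [h7 i hi] using (h5 i hi).2.2 i hi
  have h9 : ∀ l ∈ s, l ≠ i := fun l hl e => h8 (e ▸ hl)
  refine ⟨insert i s, Function.update b i (u - ∑ l ∈ s, u l • b l), ?_, fun z hz => ?_⟩
  · simp only [Finset.forall_mem_insert, Function.update_self, Pi.sub_apply, Finset.sum_apply,
      Pi.smul_apply, smul_eq_mul]
    refine ⟨⟨sub_mem hu (sum_mem fun l hl => W.smul_mem _ (h5 l hl).1.1), fun j =>
      ⟨sub_mem (hu' j).1 (sum_mem fun l hl => mul_mem (hu' l).1 ((h5 l hl).2.1 j).1),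
        P.v.map_sub_le (hu' j).2 (P.v.map_sum_le fun l hl =>
          v_mul_le (hu' l).2 ((h5 l hl).2.1 j).2)⟩, ?_, fun m hm => ?_⟩, fun l hl => ?_⟩
    · rw [Finset.sum_eq_zero fun l hl => by rw [h7 l hl, mul_zero], hu1, sub_zero, if_pos trivial]
    · rw [Finset.sum_congr rfl fun l hl => by rw [(h5 l hl).2.2 m hm], if_neg (h9 m hm).symm]
      simp [hm]
    · rw [Function.update_of_ne (h9 l hl), if_neg (h9 l hl)]
      exact ⟨(h5 l hl).1.1, (h5 l hl).2.1, h7 l hl, (h5 l hl).2.2⟩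
  · have h10 := h6 (z - z i • u) ((hm _).2 ⟨sub_mem hz (W.smul_mem _ hu), by simp [hu1]⟩)
    rw [Finset.sum_insert h8, Function.update_self, Finset.sum_congr rfl
      fun l hl => congrArg (z l • ·) (Function.update_of_ne (h9 l hl) _ b)]
    simp only [Pi.sub_apply, Pi.smul_apply, smul_eq_mul, sub_smul, Finset.sum_sub_distrib,
      mul_smul, ← Finset.smul_sum] at h10
    rw [smul_sub, sub_add_eq_add_sub, add_sub_assoc, ← h10, add_sub_cancel]

/-- The reduction of a subspace. -/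
def red (P : Plc K R) (W : Submodule K (ι → K)) : Submodule R (ι → R) :=
  Submodule.span R {y | ∃ x ∈ W, (∀ i, P.v (x i) ≤ 1) ∧ y = P.r ∘ x}

theorem r_mem_red {x : ι → K} (hx : x ∈ W) (h : ∀ i, P.v (x i) ≤ 1) : P.r ∘ x ∈ P.red W :=
  Submodule.subset_span ⟨x, hx, h, rfl⟩

theorem red_mono {W' : Submodule K (ι → K)} (h : W ≤ W') : P.red W ≤ P.red W' :=
  Submodule.span_mono fun _ ⟨x, hx, h'⟩ => ⟨x, h hx, h'⟩

theorem r_comb {κ : Type} {s : Finset κ} {c : κ → K} {b : κ → ι → K} (hc : ∀ l ∈ s, P.v (c l) ≤ 1)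
    (hb : ∀ l ∈ s, ∀ i, P.v (b l i) ≤ 1) : (∀ i, P.v ((∑ l ∈ s, c l • b l) i) ≤ 1) ∧
      P.r ∘ (∑ l ∈ s, c l • b l) = ∑ l ∈ s, P.r (c l) • P.r ∘ b l := by
  simp only [funext_iff, Function.comp_apply, Finset.sum_apply, Pi.smul_apply, smul_eq_mul]
  exact ⟨fun i => P.v.map_sum_le fun l hl => v_mul_le (hc l hl) (hb l hl i), fun i =>
    (r_sum fun l hl => v_mul_le (hc l hl) (hb l hl i)).trans
      (Finset.sum_congr rfl fun l hl => r_mul (hc l hl) (hb l hl i))⟩

theorem red_pivot {s : Finset ι} {b : ι → ι → K} (hb : ∀ l ∈ s, ∀ i, P.v (b l i) ≤ 1)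
    (h : ∀ x ∈ W, x = ∑ l ∈ s, x l • b l) : ∀ y ∈ P.red W, y = ∑ l ∈ s, y l • P.r ∘ b l := by
  intro y hy
  induction hy using Submodule.span_induction with
  | mem y hy =>
    obtain ⟨x, h1, h2, rfl⟩ := hy
    exact (congrArg (P.r ∘ ·) (h x h1)).trans (r_comb (fun l _ => h2 l) hb).2
  | zero => simp
  | add y z _ _ hy hz => simp only [Pi.add_apply, add_smul, Finset.sum_add_distrib, ← hy, ← hz]
  | smul a y _ hy => simp only [Pi.smul_apply, smul_eq_mul, mul_smul, ← Finset.smul_sum, ← hy]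

theorem finrank_red [Finite ι] (W : Submodule K (ι → K)) :
    finrank R (P.red W) = finrank K W := by
  classical
  cases nonempty_fintype ι
  obtain ⟨s, b, h1, h2, h3⟩ := P.latt (ov_top' (R := W))
  rw [← h1, ← finrank_of_pivot (fun l hl => r_mem_red (h2 l hl).1 fun i => ((h2 l hl).2.1 i).2)
    (fun l hl m hm => ?_) (red_pivot (fun l hl i => ((h2 l hl).2.1 i).2) h3)]
  rw [Function.comp_apply, (h2 l hl).2.2 m hm]
  split_ifs <;> simp

theorem ov_red [Finite ι] (h : Ov F W) : Ov (P.res F) (P.red W) := fun y hy => by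
  classical
  cases nonempty_fintype ι
  obtain ⟨s, b, -, h2, h3⟩ := P.latt h
  rw [red_pivot (fun l hl i => ((h2 l hl).2.1 i).2) h3 y hy]
  exact sum_mem fun l hl => Submodule.smul_mem _ _ (Submodule.subset_span
    ⟨r_mem_red (h2 l hl).1 fun i => ((h2 l hl).2.1 i).2, fun i => r_mem_res ((h2 l hl).2.1 i).1⟩)

/-- Vectors of the reduction lift. -/
theorem exists_lift_red [Finite ι] (h : Ov F W) {y : ι → R} (hy : y ∈ P.red W)
    (hy' : ∀ i, y i ∈ P.res F) : ∃ x ∈ W, (∀ i, x i ∈ F ∧ P.v (x i) ≤ 1) ∧ P.r ∘ x = y := by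
  classical
  cases nonempty_fintype ι
  obtain ⟨s, b, -, h2, h3⟩ := P.latt h
  choose c h4 h5 h6 using fun i => mem_res.1 (hy' i)
  have h7 := r_comb (s := s) (fun l _ => h5 l) fun l hl i => ((h2 l hl).2.1 i).2
  refine ⟨_, sum_mem fun l hl => W.smul_mem (c l) (h2 l hl).1, fun i => ⟨?_, h7.1 i⟩, ?_⟩
  · rw [Finset.sum_apply]
    exact sum_mem fun l hl => mul_mem (h4 l) ((h2 l hl).2.1 i).1
  · simp only [h7.2, h6]
    exact (red_pivot (fun l hl i => ((h2 l hl).2.1 i).2) h3 y hy).symm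

theorem r_dot [Fintype ι] {a x : ι → K} (ha : ∀ i, P.v (a i) ≤ 1) (hx : ∀ i, P.v (x i) ≤ 1) :
    P.v (a ⬝ᵥ x) ≤ 1 ∧ P.r (a ⬝ᵥ x) = (P.r ∘ a) ⬝ᵥ (P.r ∘ x) :=
  ⟨P.v.map_sum_le fun i _ => v_mul_le (ha i) (hx i), (r_sum fun i _ => v_mul_le (ha i) (hx i)).trans
    (Finset.sum_congr rfl fun i _ => r_mul (ha i) (hx i))⟩

theorem red_ann [Fintype ι] (W : Submodule K (ι → K)) : P.red (ann W) = ann (P.red W) := by
  refine Submodule.eq_of_le_of_finrank_eq (Submodule.span_le.2 ?_) ?_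
  · rintro _ ⟨a, h1, h2, rfl⟩
    refine mem_ann_span.2 ?_
    rintro _ ⟨x, h3, h4, rfl⟩
    rw [← (r_dot h2 h4).2, mem_ann.1 h1 x h3, r_zero]
  · have h1 := finrank_ann W
    have h2 := finrank_ann (P.red W)
    rw [finrank_red] at h2 ⊢
    omega

theorem Agree.red [Finite ι] (h : P.Agree Q F) (hW : Ov F W) : P.red W = Q.red W := by
  refine Submodule.eq_of_le_of_finrank_eq ((ov_red hW).le_of fun y h1 h2 => ?_)
    (by rw [finrank_red, finrank_red])
  obtain ⟨x, h3, h4, rfl⟩ := exists_lift_red hW h1 h2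
  rw [show P.r ∘ x = Q.r ∘ x from funext fun i => (h _ (h4 i).1).2]
  exact r_mem_red h3 fun i => (h _ (h4 i).1).1.1 (h4 i).2

end latt

open Polynomial

/-- An integral element of the algebraic closure is a quotient of elements integral over the
ring of the base, with unit denominator. -/
theorem loc (hx : x ∈ acl (F : Set K)) (h1 : P.v x ≤ 1) :
    ∃ y, IsIntegral (F.toSubring ⊓ P.O.toSubring : Subring K) y ∧
      IsIntegral (F.toSubring ⊓ P.O.toSubring : Subring K) (y * x) ∧ P.v y = 1 := by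
  obtain ⟨p, h0, hp, e⟩ := exists_apoly hx
  obtain ⟨j, hj, h2⟩ := p.support.exists_max_image (fun i => P.v (p.coeff i))
    (support_nonempty.2 h0)
  have h3 := mem_support_iff.1 hj
  obtain ⟨y, h4, h5, h6⟩ := exists_den (A := F.toSubring ⊓ P.O.toSubring) (fun a ha => ha.2)
    (P.mem_iff.2 h1) (p := p * C (p.coeff j)⁻¹) (fun n => by
      rw [coeff_mul_C, ← div_eq_mul_inv]
      refine ⟨F.div_mem (hp n) (hp j), P.mem_iff.2 ((P.v_div_le_one h3).2 ?_)⟩
      by_cases hn : n ∈ p.support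
      exacts [h2 n hn, by simp [notMem_support_iff.1 hn]])
    ⟨j, by simp [h3, P.O.mem_nonunits_iff]⟩ (by simp [e])
  exact ⟨y, h4, h5, le_antisymm (P.mem_iff.1 (mem_of_isIntegral (fun a ha => by exact ha.2) h4))
    (not_lt.1 fun h => h6 (P.O.mem_nonunits_iff.2 h))⟩

theorem agree_gal [CharZero R] {F : Type} [Field F] [Algebra F K] [IsGalois F K]
    (h : P.Agree Q (range (algebraMap F K))) :
    ∃ σ : K ≃ₐ[F] K, ∀ x, (P.v x ≤ 1 ↔ Q.v (σ x) ≤ 1) ∧ P.r x = Q.r (σ x) := by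
  classical
  let B : Set K := {b | ∀ σ : K ≃ₐ[F] K, P.v (σ b) ≤ 1 ∧ Q.v (σ b) ≤ 1}
  have hi : ∀ b : K, IsIntegral F b := Algebra.IsIntegral.isIntegral
  have h1 : ∀ b ∈ B, ∃ σ : K ≃ₐ[F] K, P.r b = Q.r (σ b) := fun b hb => by
    have h2 := (minpoly.monic (hi b)).map (algebraMap F K)
    have h3 : ∀ c ∈ ((minpoly F b).map (algebraMap F K)).roots, ∃ σ : K ≃ₐ[F] K, σ b = c :=
      fun c hc => minpoly.exists_algEquiv_of_root' (hi b).isAlgebraic (mem_aroots.1 hc).2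
    have h4 : (((minpoly F b).map (algebraMap F K)).roots.map fun c => X - C (P.r c)).prod =
        (((minpoly F b).map (algebraMap F K)).roots.map fun c => X - C (Q.r c)).prod :=
      Polynomial.ext fun n => by
        rw [← (coeff_prod (fun c hc => (h3 c hc).elim fun σ e => e ▸ (hb σ).1) n).2,
          ← (coeff_prod (fun c hc => (h3 c hc).elim fun σ e => e ▸ (hb σ).2) n).2,
          ← (Normal.splits inferInstance b).eq_prod_roots_of_monic h2, coeff_map]
        exact (h _ ⟨_, rfl⟩).2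
    have h5 := congrArg (eval (P.r b)) h4
    rw [eval_multiset_prod, eval_multiset_prod, Multiset.prod_eq_zero (Multiset.mem_map.2
      ⟨_, Multiset.mem_map_of_mem _ (mem_aroots.2 ⟨minpoly.ne_zero (hi b), minpoly.aeval F b⟩),
        by simp⟩), eq_comm, Multiset.prod_eq_zero_iff, Multiset.map_map] at h5
    obtain ⟨c, hc, e⟩ := Multiset.mem_map.1 h5
    obtain ⟨σ, rfl⟩ := h3 c hc
    exact ⟨σ, sub_eq_zero.1 (by simpa using e)⟩
  let _ : TopologicalSpace K := ⊥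
  have : DiscreteTopology K := ⟨rfl⟩
  have : ContinuousSMul (K ≃ₐ[F] K) K :=
    continuousSMul_iff_stabilizer_isOpen.2 stabilizer_isOpen_of_isIntegral
  obtain ⟨σ, -, hσ⟩ := isCompact_univ.inter_iInter_nonempty
    (fun b : B => {σ : K ≃ₐ[F] K | P.r b = Q.r (σ b)})
    (fun b => (isClosed_discrete {c | P.r b = Q.r c}).preimage
      (continuous_id.smul (continuous_const (y := (b : K))))) fun u => by
      by_contra hu
      obtain ⟨e, he⟩ := Countable.exists_injective_nat u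
      let φ : (u → K) → R[X] := fun t => ∑ b, monomial (e b) (P.r b - Q.r (t b))
      have h2 : (range fun (σ : K ≃ₐ[F] K) (b : u) => σ b).Finite :=
        (Finite.pi' fun b : u => (minpoly F (b : K)).rootSet_finite K).subset (by
          rintro _ ⟨σ, rfl⟩ b
          exact (mem_rootSet_of_ne (minpoly.ne_zero (hi _))).2 (by
            rw [aeval_algHom_apply, minpoly.aeval, map_zero]))
      obtain ⟨n, hn⟩ := ((h2.biUnion (t := fun t => {c | (φ t).IsRoot c}) (by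
        rintro _ ⟨σ, rfl⟩
        refine finite_setOfPred_isRoot fun h3 => hu ⟨σ, trivial, mem_iInter₂.2 fun b hb => ?_⟩
        simpa [φ, coeff_monomial, he.eq_iff, sub_eq_zero] using
          congrArg (coeff · (e ⟨b, hb⟩)) h3)).preimage
        (Nat.cast_injective (R := R)).injOn).exists_notMem
      have h3 : ∀ (P : Plc K R) (t : u → K), (∀ b, P.v (t b) ≤ 1) →
          P.v (∑ b, t b * n ^ e b) ≤ 1 ∧ P.r (∑ b, t b * n ^ e b) = ∑ b, P.r (t b) * n ^ e b :=
        fun P t ht => by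
          simpa [dotProduct, r_pow (P.v_nat_le n)] using
            r_dot ht fun b => v_pow_le (P.v_nat_le n) (e b)
      obtain ⟨σ, h4⟩ := h1 (∑ b : u, b * n ^ e b) fun σ => by
        simpa using And.intro (h3 P _ fun b => (b.1.2 σ).1).1 (h3 Q _ fun b => (b.1.2 σ).2).1
      refine hn (mem_iUnion₂.2 ⟨_, ⟨σ, rfl⟩, ?_⟩)
      simp only [map_sum, map_mul, map_pow, map_natCast] at h4
      rw [(h3 P (fun b => b) fun b => (b.1.2 1).1).2, (h3 Q _ fun b => (b.1.2 σ).2).2] at h4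
      simpa [φ, eval_finsetSum, sub_eq_zero] using h4
  have h2 : ∀ y, IsIntegral ((algebraMap F K).fieldRange.toSubring ⊓ P.O.toSubring : Subring K) y →
      P.v y ≤ 1 ∧ Q.v (σ y) ≤ 1 ∧ Q.r (σ y) = P.r y := fun y hy => by
    have h3 : y ∈ B := fun τ =>
      ⟨P.mem_iff.1 (mem_of_isIntegral (W := P.O.comap (τ : K →+* K)) (by
        rintro _ ⟨⟨a, rfl⟩, ha⟩
        simpa using ha) hy),
      Q.mem_iff.1 (mem_of_isIntegral (W := Q.O.comap (τ : K →+* K)) (by
        rintro _ ⟨⟨a, rfl⟩, ha⟩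
        simpa using Q.mem_iff.2 ((h _ ⟨a, rfl⟩).1.1 (P.mem_iff.1 ha))) hy)⟩
    exact ⟨(h3 1).1, (h3 σ).2, (mem_iInter.1 hσ ⟨y, h3⟩).symm⟩
  have h3 := agree_of_lifts (P := P) (Q := Q.comap (σ : K →+* K)) (F := ⊤) fun x _ hx => by
    obtain ⟨y, h3, h4, h5⟩ := loc (x := x) (F := (algebraMap F K).fieldRange) (mem_acl_subfield.2
      ((hi x).isAlgebraic.ringHom_of_comp_eq (algebraMap F K).rangeRestrictField (RingHom.id K)
        (RingHom.injective _) rfl)) hx
    have h6 : Q.v (σ y) = 1 := r_ne_zero_iff.1 ((h2 y h3).2.2 ▸ r_ne_zero_iff.2 h5)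
    have h7 := (h2 _ h4).2
    have h8 : Q.v (σ x) ≤ 1 := by simpa [h6] using h7.1
    rw [map_mul, r_mul h6.le h8, r_mul h5.le hx, (h2 y h3).2.2] at h7
    rw [comap_le_one, comap_r]
    exact ⟨h8, mul_left_cancel₀ (r_ne_zero_iff.2 h5) h7.2⟩
  exact ⟨σ, fun x => by simpa [comap_le_one, comap_r] using h3 x trivial⟩

/-- Extensions of a place to the algebraic closure are conjugate. -/
theorem Agree.conj [IsAlgClosed K] [CharZero R] (h : P.Agree Q F) :
    ∃ σ : K ≃+* K, (∀ x ∈ F, σ x = x) ∧ P.Agree (Q.comap (σ : K →+* K)) (acl (F : Set K)) := by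
  have := P.charZero
  have := isGalois_acl F
  obtain ⟨σ, hσ⟩ := agree_gal (F := F) (P := P.comap (algebraicClosure F K).val.toRingHom)
    (Q := Q.comap (algebraicClosure F K).val.toRingHom) ((comap_agree _).2 (h.mono (by
      rintro _ ⟨_, ⟨a, rfl⟩, rfl⟩
      exact a.2)))
  obtain ⟨τ, h1, h2⟩ := exists_aut_gal F σ
  refine ⟨τ, h1, fun x hx => ?_⟩
  have h3 := hσ ⟨x, mem_algebraicClosure_iff.2 (mem_acl_subfield.1 hx)⟩
  have h4 := h2 ⟨x, mem_algebraicClosure_iff.2 (mem_acl_subfield.1 hx)⟩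
  simp only [comap_le_one, comap_r] at h3 ⊢
  exact (show τ x = _ from h4) ▸ h3

/-- An embedding compatible with places extends to the algebraic closure. -/
theorem real [IsAlgClosed K] [IsAlgClosed K'] [CharZero R] (Q : Plc K' R) (e : F →+* K')
    (h : ∀ x : F, (P.v x ≤ 1 ↔ Q.v (e x) ≤ 1) ∧ P.r x = Q.r (e x)) :
    ∃ e' : acl (F : Set K) →+* K', (∀ x : F, e' ⟨x, subset_acl _ x.2⟩ = e x) ∧
      ∀ x : acl (F : Set K), (P.v x ≤ 1 ↔ Q.v (e' x) ≤ 1) ∧ P.r x = Q.r (e' x) := by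
  have := P.charZero
  have := isGalois_acl F
  let _ := e.toAlgebra
  have : IsTorsionFree F (algebraicClosure F K) := DivisionSemiring.to_moduleIsTorsionFree
  let e0 : algebraicClosure F K →ₐ[F] K' := IsAlgClosed.lift
  obtain ⟨σ, hσ⟩ := agree_gal (F := F) (P := P.comap (algebraicClosure F K).val.toRingHom)
    (Q := Q.comap e0.toRingHom) (by
      rintro _ ⟨a, rfl⟩
      simp only [comap_le_one, comap_r]
      exact (e0.commutes a).symm ▸ h a)
  simp only [comap_le_one, comap_r] at hσ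
  let j : acl (F : Set K) →+* algebraicClosure F K := (acl (F : Set K)).subtype.codRestrict _
    fun x => mem_algebraicClosure_iff.2 (mem_acl_subfield.1 x.2)
  refine ⟨(e0.toRingHom.comp (σ : _ →+* _)).comp j, fun x => ?_, fun x => hσ (j x)⟩
  have h1 : j ⟨x, subset_acl _ x.2⟩ = algebraMap F _ x := Subtype.ext rfl
  rw [RingHom.comp_apply, h1]
  exact (congrArg e0 (σ.commutes x)).trans (e0.commutes x)

end Plc

end Pool.Agent.P.MP_f17f76_ag.E
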