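import Pool.Agent.P.MP_f17f76_ag.E.Nd

/-!
Statement of the specialisation lemma for pairings.
-/

namespace Pool.Agent.P.MP_f17f76_ag.AbVar

open Set E

/-- A point whose locus pairs with constant forms has a reduction that pairs with them. -/
def S_SIM {g N : ℕ} (A : AbVar g N) : Prop :=
  ∀ (k F : Subfield ℂ) (κ : Type) [Fintype κ] (θ : κ → Fin g → ℂ) (a : Fin g → ℂ) (P : Plc ℂ ℂ),
    A.Over k → k ≤ F → (F : Set ℂ).Countable → P.IdOn k → (∀ j i, θ j i ∈ k) →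
    trd F (range (A.crd a)) ≤ Fintype.card κ → A.Pair F a θ →
    ∃ Q : Plc ℂ ℂ, P.Agree Q (acl (F : Set ℂ)) ∧
      ∃ b, A.Red Q a b ∧ A.Pair (P.res (acl (F : Set ℂ))) b θ

end Pool.Agent.P.MP_f17f76_ag.AbVar
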