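import Pool.Agent.P.MP_f17f76_ag.E.PlcC
import Pool.Agent.P.MP_f17f76_ag.E.Red
import Pool.Agent.P.MP_f17f76_ag.E.SimD

/-!
Lifting of dual derivations from the residue field, and reduction of pairings.
-/

namespace Pool.Agent.P.MP_f17f76_ag.E

open Set Module

namespace Plc

variable {K R : Type} [Field K] [Field R] {P : Plc K R} {F L : Subfield K} {n σ : Type}
  {D : Der K} {D' : Der R} {S : Set K}

/-- A derivation over `S` that is contractive on `L` and preserves `L`. -/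
structure Good (P : Plc K R) (S : Set K) (L : Subfield K) (D : Der K) : Prop where
  kil : D ∈ kil S
  ctr : P.Ctr D L
  mem : ∀ x ∈ L, D x ∈ L

theorem Good.sum [Fintype n] {X : n → Der K} (h : ∀ l, P.Good S L (X l)) {c : n → K}
    (hc : ∀ l, c l ∈ L ∧ P.v (c l) ≤ 1) : P.Good S L (∑ l, c l • X l) :=
  ⟨sum_mem fun l _ => Submodule.smul_mem _ _ (h l).kil,
    Ctr.sum fun l _ => (h l).ctr.smul (hc l).2, fun x hx =>
      Finset.sum_induction _ (fun D : Der K => D x ∈ L) (fun _ _ => add_mem) (zero_mem L)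
        fun l _ => mul_mem (hc l).1 ((h l).mem x hx)⟩

/-- The residue derivation. -/
theorem Ctr.exists_rd [CharZero R] (h : P.Ctr D L) :
    ∃ D' : Der R, ∀ x ∈ L, P.v x ≤ 1 → D' (P.r x) = P.r (D x) :=
  (exists_res_der h (W := Empty.elim) (algebraicIndependent_empty_type) Empty.elim).imp
    fun _ h => h.1

theorem kil_res (hF : F ≤ L) (hD : D ∈ kil (F : Set K))
    (h : ∀ x ∈ L, P.v x ≤ 1 → D' (P.r x) = P.r (D x)) : D' ∈ kil (P.res F : Set R) := fun y hy => by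
  obtain ⟨x, h1, h2, rfl⟩ := mem_res.1 hy
  rw [h x (hF h1) h2, hD x h1, r_zero]

/-- The inverse of an integral matrix with unit determinant. -/
theorem exists_inv [Fintype n] [DecidableEq n] {M : Matrix n n K}
    (h1 : ∀ i j, M i j ∈ L ∧ P.v (M i j) ≤ 1) (h2 : P.v M.det = 1) :
    ∃ N : Matrix n n K, (∀ i j, N i j ∈ L ∧ P.v (N i j) ≤ 1) ∧ M * N = 1 := by
  let B : Subring K := L.toSubring ⊓ P.O.toSubring
  let M' : Matrix n n B := Matrix.of fun i j => ⟨M i j, (h1 i j).1, P.mem_iff.2 (h1 i j).2⟩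
  have h3 : M.det = M'.det := (B.subtype.map_det M').symm
  have h4 : M.adjugate = M'.adjugate.map B.subtype := (B.subtype.map_adjugate M').symm
  have h0 : M.det ≠ 0 := fun e => by simp [e] at h2
  refine ⟨M.det⁻¹ • M.adjugate, fun i j => ?_, by
    rw [Matrix.mul_smul, Matrix.mul_adjugate, smul_smul, inv_mul_cancel₀ h0, one_smul]⟩
  rw [h4]
  exact ⟨mul_mem (inv_mem (h3 ▸ M'.det.2.1)) (M'.adjugate i j).2.1,
    v_mul_le (by rw [map_inv₀, h2, inv_one]) (P.mem_iff.1 (M'.adjugate i j).2.2)⟩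

/-- Exact duals from a unit determinant. -/
theorem exists_dual [Fintype n] [DecidableEq n] (Φ : Der K →ₗ[K] n → K) {d : n → Der K}
    (hd : ∀ l, P.Good S L (d l)) (h1 : ∀ l j, Φ (d l) j ∈ L ∧ P.v (Φ (d l) j) ≤ 1)
    (h2 : P.v (Matrix.of fun j l => Φ (d l) j).det = 1) :
    ∃ X : n → Der K, ∀ l, P.Good S L (X l) ∧ Φ (X l) = Pi.single l 1 := by
  obtain ⟨N, h3, h4⟩ := exists_inv (M := Matrix.of fun j l => Φ (d l) j) (fun i j => h1 j i) h2
  refine ⟨fun l => ∑ m, N m l • d m, fun l => ⟨Good.sum hd fun m => h3 m l, funext fun j => ?_⟩⟩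
  have := congrFun₂ h4 j l
  simpa [Matrix.mul_apply, Matrix.one_apply, Pi.single_apply, mul_comm] using this

theorem _root_.Pool.Agent.P.MP_f17f76_ag.E.exists_ind_comp [Fintype n] [Finite σ] {z : σ → K}
    (h : Fintype.card n ≤ trd S (range z)) : ∃ e : n → σ, Ind S (z ∘ e) := by
  obtain ⟨v, h1, h2, -⟩ := exists_trd_basis S (finite_range z)
  choose e he using h1
  obtain ⟨f⟩ := Function.Embedding.nonempty_of_card_le (α := n) (β := Fin (trd S (range z)))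
    (by rwa [Fintype.card_fin])
  refine ⟨e ∘ f, ?_⟩
  rw [show z ∘ e ∘ f = v ∘ f from funext fun l => he _]
  exact h2.comp f f.injective

theorem _root_.Pool.Agent.P.MP_f17f76_ag.E.Ind.subset_acl [Fintype n] {y : n → K} {T : Set K}
    (h : Ind S y) (hT : T.Finite) (h1 : range y ⊆ acl (S ∪ T)) (h2 : trd S T ≤ Fintype.card n) :
    T ⊆ acl (S ∪ range y) := by
  have h3 := trd_union (F := S) (finite_range y) hT
  have h4 := trd_le (F := S) (S := range y ∪ T) hT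
    (union_subset h1 (subset_union_right.trans (E.subset_acl _)))
  rw [trd_range_eq_iff.2 h] at h3
  exact (trd_eq_zero_iff hT).1 (by omega)

/-- Surjectivity on the residue field lifts to a Gauss family with dual contractive derivations. -/
theorem lift [IsAlgClosed K] [CharZero K] [CharZero R] [Fintype n] [DecidableEq n] [Finite σ]
    {z : σ → K} (hL : L = E.acl (F ∪ range z)) (hz : ∀ s, P.v (z s) ≤ 1)
    (Φ : Der K →ₗ[K] n → K) (Ψ : Der R →ₗ[R] n → R)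
    (h1 : ∀ D ∈ kil (P.res F : Set R), D ∈ kil (range (P.r ∘ z)) → Ψ D = 0)
    (h2 : ∀ D D', P.Good F L D → (∀ x ∈ L, P.v x ≤ 1 → D' (P.r x) = P.r (D x)) →
      ∀ j, (Φ D j ∈ L ∧ P.v (Φ D j) ≤ 1) ∧ P.r (Φ D j) = Ψ D' j)
    (hle : trd F (range z) ≤ Fintype.card n) (hs : ∀ c, ∃ D ∈ kil (P.res F : Set R), Ψ D = c) :
    ∃ e : n → σ, P.Gauss F (z ∘ e) ∧ L = E.acl (F ∪ range (z ∘ e)) ∧ ∃ d X : n → Der K,
      (∀ l, P.Good F L (d l) ∧ ∀ j, d l (z (e j)) = if j = l then 1 else 0) ∧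
      P.v (Matrix.of fun j l => Φ (d l) j).det = 1 ∧
      ∀ l, P.Good F L (X l) ∧ Φ (X l) = Pi.single l 1 := by
  obtain ⟨e, he⟩ := exists_ind_comp ((finrank_fintype_fun_eq_card R).symm.trans_le
    (le_trd_of_surj Ψ (finite_range _) h1 hs))
  have hG : P.Gauss F (z ∘ e) := ⟨fun l => hz _, he⟩
  have hFL : F ≤ L := hL ▸ subset_union_left.trans (subset_acl _)
  have hzL : ∀ s, z s ∈ L := fun s => hL ▸ mem_acl_of_mem (Or.inr ⟨s, rfl⟩)
  have hL' : L = E.acl (F ∪ range (z ∘ e)) := hL.trans (acl_congr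
    (union_subset (subset_union_left.trans (subset_acl _)) (hG.ind.subset_acl (finite_range z)
      (range_subset_iff.2 fun l => hL ▸ hzL _) hle))
    (union_subset (subset_union_left.trans (subset_acl _))
      (range_subset_iff.2 fun l => hL ▸ hzL _)))
  obtain ⟨d, hd⟩ := exists_partial hG.ind
  have hd' : ∀ l, P.Good F L (d l) := fun l => hL' ▸ ⟨(hd l).1, hG.ctr_acl (ctr_of_kil (hd l).1)
    fun j => by
      rw [(hd l).2.1]
      split_ifs <;> simp, (hd l).2.2⟩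
  choose d' hr using fun l => (hd' l).ctr.exists_rd
  have h3 : ∀ l, d' l ∈ kil (P.res F : Set R) := fun l => kil_res hFL (hd l).1 (hr l)
  have h4 : ∀ l j, d' l ((P.r ∘ z ∘ e) j) = if j = l then 1 else 0 := fun l j => by
    refine (hr l _ (hzL _) (hz _)).trans ((congrArg P.r ((hd l).2.1 j)).trans ?_)
    split_ifs <;> simp
  have h5 : P.v (Matrix.of fun j l => Φ (d l) j).det = 1 := by
    rw [← r_ne_zero_iff, (v_det_le (M := Matrix.of fun j l => Φ (d l) j)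
      fun j l => (h2 _ _ (hd' l) (hr l) j).1.2).2]
    refine ((Matrix.isUnit_iff_isUnit_det _).1 (Matrix.mulVec_surjective_iff_isUnit.1
      fun c => ?_)).ne_zero
    obtain ⟨D, h6, rfl⟩ := hs c
    have h7 := h1 (D - ∑ l, D ((P.r ∘ z ∘ e) l) • d' l)
      (sub_mem h6 (sum_mem fun l _ => Submodule.smul_mem _ _ (h3 l))) (forall_mem_range.2 fun s => by
        have h8 : P.r (z s) ∈ P.res (E.acl (F ∪ range (z ∘ e))) := hL' ▸ r_mem_res (hzL s)
        rw [hG.res_acl] at h8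
        have h9 := der_expand h3 h4 (δ := D) (δ₀ := 0) h6 (fun _ => rfl) h8
        rw [zero_add] at h9
        exact sub_eq_zero.2 h9)
    rw [map_sub, sub_eq_zero] at h7
    refine ⟨fun l => D ((P.r ∘ z ∘ e) l), funext fun j => ?_⟩
    rw [h7]
    simp [Matrix.mulVec, dotProduct, fun l => (h2 _ _ (hd' l) (hr l) j).2, mul_comm]
  obtain ⟨X, hX⟩ := exists_dual Φ hd' (fun l j => (h2 _ _ (hd' l) (hr l) j).1) h5
  exact ⟨e, hG, hL', d, X, fun l => ⟨hd' l, (hd l).2.1⟩, h5, hX⟩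

/-- A unit determinant gives surjectivity on the residue field. -/
theorem surj_res [CharZero R] [Fintype n] [DecidableEq n] (hF : F ≤ L)
    (Φ : Der K →ₗ[K] n → K) (Ψ : Der R →ₗ[R] n → R) {X : n → Der K}
    (h1 : ∀ l, X l ∈ kil (F : Set K) ∧ P.Ctr (X l) L)
    (h2 : ∀ l D', (∀ x ∈ L, P.v x ≤ 1 → D' (P.r x) = P.r (X l x)) →
      ∀ j, P.v (Φ (X l) j) ≤ 1 ∧ P.r (Φ (X l) j) = Ψ D' j)
    (h3 : P.v (Matrix.of fun j l => Φ (X l) j).det = 1) (c : n → R) :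
    ∃ D ∈ kil (P.res F : Set R), Ψ D = c := by
  choose d' hr using fun l => (h1 l).2.exists_rd
  refine exists_of_det Ψ (fun l => kil_res hF (h1 l).1 (hr l)) ?_ c
  rw [← r_ne_zero_iff, (v_det_le (M := Matrix.of fun j l => Φ (X l) j)
    fun j l => (h2 _ _ (hr l) j).1).2] at h3
  exact (congrArg _ (Matrix.ext fun j l => (h2 _ _ (hr l) j).2)).symm.trans_ne h3

end Plc

end Pool.Agent.P.MP_f17f76_ag.E

namespace Pool.Agent.P.MP_f17f76_ag.AbVar

open Set Module E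

variable {g N : ℕ} {A : AbVar g N} {ι μ κ : Type} {k F L : Subfield ℂ} {P : Plc ℂ ℂ} {i : Fin N}
  {a b : Fin g → ℂ} {θ : κ → Fin g → ℂ} {D D' : Der ℂ} {u : ι → ℂ} {ν : μ → ι → ℂ}

theorem kil_crd_of_aff (hi : A.θ a i ≠ 0) (h : D ∈ kil (range (A.aff i a))) :
    D ∈ kil (range (A.crd a)) :=
  forall_mem_range.2 (crd_mem_of_aff (L := cst D) hi (forall_mem_range.1 h))

section

variable (hA : A.Over k) (hP : P.IdOn k) (hr : A.Red P a b)
include hA hP hr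

/-- The residue of the values of rows and forms. -/
theorem Over.res_rv [Fintype ι] (hθ : ∀ j l, P.v (θ j l) ≤ 1 ∧ P.r (θ j l) = θ j l) (hk : k ≤ L)
    (hL : ∀ j, A.crd a j ∈ L) (hu : ∀ s, u s ∈ L ∧ P.v (u s) ≤ 1) (hν : ∀ l s, P.v (ν l s) ≤ 1)
    (hD : D ∈ kil (k : Set ℂ)) (hc : P.Ctr D L)
    (hD' : ∀ x ∈ L, P.v x ≤ 1 → D' (P.r x) = P.r (D x)) (j : μ ⊕ κ) :
    P.v (A.rv ν u θ a D j) ≤ 1 ∧
      P.r (A.rv ν u θ a D j) = A.rv (fun l => P.r ∘ ν l) (P.r ∘ u) θ b D' j := by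
  rcases j with l | j
  · have := v_dot (hν l) (y := dv u D) fun s => (hc _ (hu s).1).trans (hu s).2
    exact ⟨this.1, this.2.trans (congrArg _ (funext fun s => (hD' _ (hu s).1 (hu s).2).symm))⟩
  · exact ⟨hA.ctr_pv hP (fun j l => (hθ j l).1) hD hc hL j, hA.res_pv hP hr hθ hk hL hD hc hD' j⟩

variable (hk : k ≤ F)
include hk

/-- Lifting of dual derivations in a chart. -/
theorem Over.lift_chart [Fintype ι] [Fintype μ] [Fintype κ] [DecidableEq μ] [DecidableEq κ]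
    (hL : L = acl (F ∪ (range u ∪ range (A.crd a))))
    (hθ : ∀ j l, θ j l ∈ L ∧ P.v (θ j l) ≤ 1 ∧ P.r (θ j l) = θ j l) (hu : ∀ s, P.v (u s) ≤ 1)
    (hν : ∀ l s, ν l s ∈ L ∧ P.v (ν l s) ≤ 1)
    (hle : trd F (range u ∪ range (A.crd a)) ≤ Fintype.card μ + Fintype.card κ)
    (hs : ∀ (c : μ → ℂ) c', ∃ D ∈ kil (P.res F : Set ℂ),
      (∀ l, (P.r ∘ ν l) ⬝ᵥ dv (P.r ∘ u) D = c l) ∧ A.pv θ b D = c') (hi : A.θ b i ≠ 0) :
    ∃ e : μ ⊕ κ → ι ⊕ Fin N, P.Gauss F (Sum.elim u (A.aff i a) ∘ e) ∧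
      L = acl (F ∪ range (Sum.elim u (A.aff i a) ∘ e)) ∧ ∃ d X : μ ⊕ κ → Der ℂ,
      (∀ l, P.Good F L (d l) ∧ ∀ j, d l (Sum.elim u (A.aff i a) (e j)) = if j = l then 1 else 0) ∧
      P.v (Matrix.of fun j l => A.rv ν u θ a (d l) j).det = 1 ∧
      ∀ l, P.Good F L (X l) ∧ A.rv ν u θ a (X l) = Pi.single l 1 := by
  obtain ⟨h1, h2⟩ := hr.chart hi
  have h3 : acl (F ∪ range (Sum.elim u (A.aff i a))) = L := by
    rw [hL, Sum.elim_range, ← union_assoc, acl_aff h1, union_assoc]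
  have hF : F ≤ L := hL ▸ subset_union_left.trans (subset_acl _)
  have h4 : ∀ j, A.crd a j ∈ L := fun j => hL ▸ mem_acl_of_mem (Or.inr (Or.inr ⟨j, rfl⟩))
  have h5 : ∀ s, u s ∈ L := fun s => hL ▸ mem_acl_of_mem (Or.inr (Or.inl ⟨s, rfl⟩))
  refine Plc.lift h3.symm (Sum.forall.2 ⟨hu, fun j => (h2 j).1⟩) (A.rv ν u θ a)
    (A.rv (fun l => P.r ∘ ν l) (P.r ∘ u) θ b) (fun D _ h => funext (Sum.forall.2
      ⟨fun l => ?_, fun j => ?_⟩)) (fun D D' h h' j => ?_) ?_ fun c => ?_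
  · change _ ⬝ᵥ dv _ D = 0
    rw [(dv_eq_zero (v := P.r ∘ u)).2 (forall_mem_range.2 fun s => h _ ⟨Sum.inl s, rfl⟩),
      dotProduct_zero]
  · exact congrFun (pv_eq_zero (kil_crd_of_aff hi (forall_mem_range.2 fun s =>
      h _ ⟨Sum.inr s, (h2 s).2⟩))) j
  · have h6 := hA.res_rv hP hr (fun j l => (hθ j l).2) (hk.trans hF) h4 (fun s => ⟨h5 s, hu s⟩)
      (fun l s => (hν l s).2) (kil_anti hk h.kil) h.ctr h' j
    refine ⟨⟨?_, h6.1⟩, h6.2⟩
    rcases j with l | j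
    · exact dot_mem (fun s => (hν l s).1) fun s => h.mem _ (h5 s)
    · exact hA.pv_mem (kil_anti hk h.kil) (hk.trans hF) (fun j l => (hθ j l).1) h4
        (fun j => h.mem _ (h4 j)) j
  · rwa [← trd_acl, h3, hL, trd_acl, Fintype.card_sum]
  · obtain ⟨D, h6, h7, h8⟩ := hs (c ∘ Sum.inl) (c ∘ Sum.inr)
    exact ⟨D, h6, funext (Sum.forall.2 ⟨h7, congrFun h8⟩)⟩

/-- Lifting of dual derivations. -/
theorem Over.lift [Fintype ι] [Fintype μ] [Fintype κ] [DecidableEq μ] [DecidableEq κ]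
    (hL : L = acl (F ∪ (range u ∪ range (A.crd a))))
    (hθ : ∀ j l, θ j l ∈ L ∧ P.v (θ j l) ≤ 1 ∧ P.r (θ j l) = θ j l) (hu : ∀ s, P.v (u s) ≤ 1)
    (hν : ∀ l s, ν l s ∈ L ∧ P.v (ν l s) ≤ 1)
    (hle : trd F (range u ∪ range (A.crd a)) ≤ Fintype.card μ + Fintype.card κ)
    (hs : ∀ (c : μ → ℂ) c', ∃ D ∈ kil (P.res F : Set ℂ),
      (∀ l, (P.r ∘ ν l) ⬝ᵥ dv (P.r ∘ u) D = c l) ∧ A.pv θ b D = c') :
    ∃ Y : μ ⊕ κ → ℂ, (∀ s, Y s ∈ L) ∧ P.Gauss F Y ∧ L = acl (F ∪ range Y) ∧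
      ∃ (S : μ → Der ℂ) (T : κ → Der ℂ),
      (∀ m, P.Good F L (S m) ∧ (∀ l, ν l ⬝ᵥ dv u (S m) = if l = m then 1 else 0) ∧
        A.pv θ a (S m) = 0) ∧
      ∀ j, P.Good F L (T j) ∧ (∀ l, ν l ⬝ᵥ dv u (T j) = 0) ∧ A.pv θ a (T j) = Pi.single j 1 := by
  obtain ⟨i, hi, -⟩ := id hr
  obtain ⟨e, h1, h2, -, X, -, -, h3⟩ := hA.lift_chart hP hr hk hL hθ hu hν hle hs hi
  refine ⟨_, fun s => h2 ▸ mem_acl_of_mem (Or.inr ⟨s, rfl⟩), h1, h2, X ∘ Sum.inl, X ∘ Sum.inr,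
    fun m => ⟨(h3 _).1, fun l => ?_, funext fun j => ?_⟩,
    fun m => ⟨(h3 _).1, fun l => ?_, funext fun j => ?_⟩⟩
  · exact (congrFun (h3 _).2 (Sum.inl l)).trans (by simp [Pi.single_apply])
  · exact (congrFun (h3 _).2 (Sum.inr j)).trans (by simp)
  · exact (congrFun (h3 _).2 (Sum.inl l)).trans (by simp)
  · exact (congrFun (h3 _).2 (Sum.inr j)).trans (by simp [Pi.single_apply])

/-- Transversal charts. -/
theorem Over.tch [Fintype κ] [DecidableEq κ] (hL : L = acl (F ∪ range (A.crd a)))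
    (hθ : ∀ j l, θ j l ∈ L ∧ P.v (θ j l) ≤ 1 ∧ P.r (θ j l) = θ j l)
    (hle : trd F (range (A.crd a)) ≤ Fintype.card κ) (hs : A.Pair (P.res F) b θ)
    (hi : A.θ b i ≠ 0) : ∃ e : κ → Fin N, P.Gauss F (A.aff i a ∘ e) ∧
      L = acl (F ∪ range (A.aff i a ∘ e)) ∧ ∃ d X : κ → Der ℂ,
      (∀ l, P.Good F L (d l) ∧ ∀ j, d l (A.aff i a (e j)) = if j = l then 1 else 0) ∧
      P.v (Matrix.of fun j l => A.pv θ a (d l) j).det = 1 ∧
      ∀ l, P.Good F L (X l) ∧ A.pv θ a (X l) = Pi.single l 1 := by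
  obtain ⟨h1, h2⟩ := hr.chart hi
  have hF : k ≤ L := hk.trans (hL ▸ subset_union_left.trans (subset_acl _))
  have h4 : ∀ j, A.crd a j ∈ L := fun j => hL ▸ mem_acl_of_mem (Or.inr ⟨j, rfl⟩)
  exact Plc.lift (hL.trans (acl_aff h1 _).symm) (fun j => (h2 j).1) (A.pv θ a) (A.pv θ b)
    (fun D _ h => pv_eq_zero (kil_crd_of_aff hi (forall_mem_range.2 fun s => h _ ⟨s, (h2 s).2⟩)))
    (fun D D' h h' j => ⟨⟨hA.pv_mem (kil_anti hk h.kil) hF (fun j l => (hθ j l).1) h4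
      (fun j => h.mem _ (h4 j)) j, hA.ctr_pv hP (fun j l => (hθ j l).2.1) (kil_anti hk h.kil)
        h.ctr h4 j⟩, hA.res_pv hP hr (fun j l => (hθ j l).2) hF h4 (kil_anti hk h.kil) h.ctr h' j⟩)
    ((trd_aff h1 _).trans_le hle) hs

/-- A unit pairing determinant reduces to a pairing. -/
theorem Over.pair_res [Fintype κ] [DecidableEq κ] (hF : F ≤ L) (hL : ∀ j, A.crd a j ∈ L)
    (hθ : ∀ j l, P.v (θ j l) ≤ 1 ∧ P.r (θ j l) = θ j l) {X : κ → Der ℂ}
    (hX : ∀ l, X l ∈ kil (F : Set ℂ) ∧ P.Ctr (X l) L)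
    (hd : P.v (Matrix.of fun j l => A.pv θ a (X l) j).det = 1) : A.Pair (P.res F) b θ :=
  Plc.surj_res hF (A.pv θ a) (A.pv θ b) hX (fun l _ h j =>
    ⟨hA.ctr_pv hP (fun j l => (hθ j l).1) (kil_anti hk (hX l).1) (hX l).2 hL j,
      hA.res_pv hP hr hθ (hk.trans hF) hL (kil_anti hk (hX l).1) (hX l).2 h j⟩) hd

/-- A unit determinant of rows and forms gives all values on the residue field. -/
theorem Over.rv_res [Fintype ι] [Fintype μ] [Fintype κ] [DecidableEq μ] [DecidableEq κ]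
    (hF : F ≤ L) (hL : ∀ j, A.crd a j ∈ L) (hθ : ∀ j l, P.v (θ j l) ≤ 1 ∧ P.r (θ j l) = θ j l)
    (hu : ∀ s, u s ∈ L ∧ P.v (u s) ≤ 1) (hν : ∀ l s, P.v (ν l s) ≤ 1) {X : μ ⊕ κ → Der ℂ}
    (hX : ∀ l, X l ∈ kil (F : Set ℂ) ∧ P.Ctr (X l) L)
    (hd : P.v (Matrix.of fun j l => A.rv ν u θ a (X l) j).det = 1) (c : μ → ℂ) (c' : κ → ℂ) :
    ∃ D ∈ kil (P.res F : Set ℂ),
      (∀ l, (P.r ∘ ν l) ⬝ᵥ dv (P.r ∘ u) D = c l) ∧ A.pv θ b D = c' :=
  (Plc.surj_res hF (A.rv ν u θ a) (A.rv (fun l => P.r ∘ ν l) (P.r ∘ u) θ b) hX (fun l _ h =>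
    hA.res_rv hP hr hθ (hk.trans hF) hL hu hν (kil_anti hk (hX l).1) (hX l).2 h) hd
      (Sum.elim c c')).imp fun _ h =>
        ⟨h.1, fun l => congrFun h.2 (Sum.inl l), funext fun j => congrFun h.2 (Sum.inr j)⟩

omit hA hP hk in
/-- The transcendence degree does not grow under reduction. -/
theorem Red.trd_le [Finite ι] : trd (P.res F) (range (P.r ∘ u) ∪ range (A.crd b)) ≤
    trd F (range u ∪ range (A.crd a)) :=
  Plc.abh ((finite_range _).union (finite_range _)) ((finite_range _).union (finite_range _))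
    (union_subset (range_subset_iff.2 fun s =>
      Plc.r_mem_res (mem_acl_of_mem (Or.inr (Or.inl ⟨s, rfl⟩)))) (range_subset_iff.2
        (hr.crd_mem fun j => mem_acl_of_mem (Or.inr (Or.inr ⟨j, rfl⟩)))))

omit hA hP hk in
theorem Red.trd_crd_le : trd (P.res F) (range (A.crd b)) ≤ trd F (range (A.crd a)) :=
  Plc.abh (finite_range _) (finite_range _)
    (range_subset_iff.2 (hr.crd_mem fun j => mem_acl_of_mem (Or.inr ⟨j, rfl⟩)))

/-- A unit determinant of rows and forms reduces to a nondegenerate configuration. -/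
theorem Over.ndg_res [Fintype ι] [Fintype μ] [Fintype κ] [DecidableEq μ] [DecidableEq κ]
    (hF : F ≤ L) (hL : ∀ j, A.crd a j ∈ L) (hθ : ∀ j l, P.v (θ j l) ≤ 1 ∧ P.r (θ j l) = θ j l)
    (hu : ∀ s, u s ∈ L ∧ P.v (u s) ≤ 1) (hν : ∀ l s, P.v (ν l s) ≤ 1) {X : μ ⊕ κ → Der ℂ}
    (hX : ∀ l, X l ∈ kil (F : Set ℂ) ∧ P.Ctr (X l) L)
    (hd : P.v (Matrix.of fun j l => A.rv ν u θ a (X l) j).det = 1) {R : Submodule ℂ (ι → ℂ)}
    (hR : R ≤ Submodule.span ℂ (range fun l => P.r ∘ ν l))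
    (hle : trd F (range u ∪ range (A.crd a)) ≤ finrank ℂ R + Fintype.card κ) :
    A.Ndg R (P.res F) (P.r ∘ u) b θ :=
  ndg_of_rows hR (hr.trd_le.trans hle) (hA.rv_res hP hr hk hF hL hθ hu hν hX hd)

end

/-- Constants of a thin derivation are units at a place with infinitesimal `τ`. -/
theorem Over.unit [Fintype κ] (h : A.Over k) (hS : A.S_SIM) {F : Set ℂ} (hF : F.Countable)
    (hk : (k : Set ℂ) ⊆ acl F) (hθ : ∀ j i, θ j i ∈ acl F) {τ : ℂ} (h0 : τ ≠ 0)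
    (hD : D ∈ A.thin F a θ) (hτ : D τ = τ)
    (hle : trd (F ∪ {τ}) (range (A.crd a)) ≤ Fintype.card κ) (hp : A.Pair (F ∪ {τ}) a θ) :
    ∃ (P : Plc ℂ ℂ) (b : Fin g → ℂ), P.IdOn (acl F) ∧ P.v τ < 1 ∧ A.Red P a b ∧ A.Pair F b θ ∧
      ∀ f ∈ acl (F ∪ {τ} ∪ range (A.crd a)),
        (D f = 0 → P.v f ≤ 1) ∧ (P.v f < 1 → ∃ q : ℕ, P.v (f ^ q) ≤ P.v τ) := by
  classical
  have : Uncountable ℂ := Complex.ofReal_injective.uncountable
  obtain ⟨P₀, h1⟩ := Plc.exists_lifts le_rfl (RingHom.id ℂ) hF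
  obtain ⟨P₁, h2, h3⟩ := P₀.exists_small le_rfl (F := acl F) (countable_acl hF) (τ := τ)
    fun e => h0 (hτ ▸ acl_le_cst hD.1 (acl_acl F ▸ e))
  have h4 : acl F ≤ acl (F ∪ {τ}) := acl_mono subset_union_left
  have h5 : τ ∈ acl (F ∪ {τ}) := mem_acl_of_mem (Or.inr rfl)
  have hle' := (trd_acl_base (finite_range _)).trans_le hle
  obtain ⟨P, h6, b, h7, h8⟩ := hS (acl F) (acl (F ∪ {τ})) κ θ a P₁ (h.mono hk) h4
    (countable_acl (hF.union (countable_singleton τ))) (h2.lifts h1) hθ hle' (hp.anti subset_rfl)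
  rw [acl_acl] at h6 h8
  rw [h6.res le_rfl] at h8
  have hP : P.IdOn (acl F) := (h6.mono h4).lifts (h2.lifts h1)
  have h9 : P.v τ < 1 := (h6.lt_one h5).1 (by simpa using h3 1 (one_mem _) one_ne_zero)
  refine ⟨P, b, hP, h9, h7, h8.anti (((subset_acl F).trans (hP.le_res h4)).trans (subset_acl _)),
    fun f hf => ?_⟩
  obtain ⟨i, hi, -⟩ := id h7
  have hL : acl (F ∪ {τ} ∪ range (A.crd a)) = acl (acl (F ∪ {τ}) ∪ range (A.crd a)) :=
    (acl_acl_union _ _).symm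
  have hFL : acl (F ∪ {τ}) ≤ acl (F ∪ {τ} ∪ range (A.crd a)) := acl_mono subset_union_left
  obtain ⟨e, hG, hL', -, X, -, -, hX⟩ := (h.mono hk).tch hP h7 h4 hL
    (fun j l => ⟨hFL (h4 (hθ j l)), hP _ (hθ j l)⟩) hle' h8 hi
  obtain ⟨d, hd, hd'⟩ := (Ind.free (F := F) (T := {τ}) (hG.ind.anti
    ((subset_acl _).trans (subset_acl _)))).symm.exists_der_ext hD.1
  have hdτ := (hd' τ h5).trans hτ
  have hE : acl ((acl (acl F ∪ range (A.aff i a ∘ e)) : Set ℂ) ∪ {τ}) =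
      acl (F ∪ {τ} ∪ range (A.crd a)) := by
    rw [hL', acl_acl_union, acl_acl_union, union_assoc, acl_acl_union, ← union_assoc,
      union_right_comm]
  obtain ⟨-, hlog⟩ := Plc.logd ((hG.mono h4).triv hP.triv) h0 h9 (D := d)
    (by rwa [kil_acl, ← kil_acl, acl_acl_union, kil_acl]) hdτ
  rw [hE] at hlog
  have hc := (h.mono hk).small_pv hP (fun j l => (hP _ (hθ j l)).1) (θ := θ) (a := a)
    ((kil_acl F).ge (kil_anti subset_union_left hd)) (fun x hx => (hlog x hx).1)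
    fun j => mem_acl_of_mem (Or.inr ⟨j, rfl⟩)
  have hX1 : ∑ j, A.pv θ a d j • X j ∈ kil (F ∪ {τ}) :=
    sum_mem fun j _ => Submodule.smul_mem _ _ (kil_anti (subset_acl _) (hX j).1.kil)
  have hZ : D - d + ∑ j, A.pv θ a d j • X j ∈ kil (F ∪ {τ}) :=
    add_mem (fun x hx => sub_eq_zero.2 (hd' x (subset_acl _ hx)).symm) hX1
  have hZ' := hp.kil hle hZ (by
    simp only [map_add, map_sub, map_sum, map_smul, (hX _).2, ← pi_eq_sum_univ']
    rw [(A.mem_thin.1 hD).2, zero_sub, neg_add_cancel])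
  rcases eq_or_ne f 0 with rfl | hf0
  · exact ⟨fun _ => by simp, fun _ => ⟨1, by simp⟩⟩
  obtain ⟨q, s, hq, hs⟩ := (hlog f hf).2.1 hf0
  refine ⟨fun hDf => ?_, fun hv => ⟨q, ?_⟩⟩
  · have h10 : d f = ∑ j, A.pv θ a d j * X j f := by
      have h11 := mem_cst.1 (acl_le_cst ((kil_union _ _).ge ⟨hZ, hZ'⟩) hf)
      have h12 := congrFun (map_sum (dv fun _ : Unit => f) (fun j => A.pv θ a d j • X j)
        Finset.univ) ()
      simp only [Finset.sum_apply, dv_apply, Derivation.smul_apply, smul_eq_mul] at h12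
      rw [Derivation.add_apply, Derivation.sub_apply, hDf, h12] at h11
      linear_combination -h11
    have h13 : P.v (d f / f) < 1 := (P.v_div_lt_one hf0).2 (h10 ▸ P.v.map_sum_lt (P.v_ne hf0)
      fun j _ => (map_mul _ _ _).trans_lt ((mul_le_mul_right ((hX j).1.ctr f hf) _).trans_lt
        (mul_lt_of_lt_one_left (P.v_pos hf0) (hc j))))
    have h14 := (hlog f hf).2.2 q s hq hs
    rw [Plc.r_of_lt h13, eq_comm, div_eq_zero_iff, Int.cast_eq_zero, Nat.cast_eq_zero,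
      or_iff_left hq.ne'] at h14
    rw [h14, zpow_zero] at hs
    exact ((pow_eq_one_iff_left hq.ne').1 hs).le
  · rw [map_pow, hs]
    have h15 : 0 < s := (zpow_lt_one_iff_right_of_lt_one₀ (P.v_pos h0) h9).1
      (hs ▸ pow_lt_one₀ zero_le hv hq.ne')
    exact (zpow_le_zpow_right_of_le_one₀ (P.v_pos h0) h9.le h15).trans_eq (zpow_one _)

end Pool.Agent.P.MP_f17f76_ag.AbVar
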