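import Pool.Agent.P.MP_f17f76_ag.E.Ch

/-!
Truncated primitives of the invariant forms along the diagonal of a chart.
-/

namespace Pool.Agent.P.MP_f17f76_ag.E

open MvPolynomial Set

section euler

variable {k A ι : Type} [Field k] [CommRing A] [Algebra k A] {d : Ideal A}
  {E : Derivation k A A} {R : ι → Derivation k A A} {η : ι → A}

theorem der_sum_smul [Fintype ι] (η : ι → A) (R : ι → Derivation k A A) (x : A) :
    (∑ l, η l • R l) x = ∑ l, η l * R l x :=
  (congrFun (map_sum Derivation.coeFnAddMonoidHom (fun l => η l • R l) Finset.univ) x).trans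
    (Finset.sum_apply _ _ _)

theorem der_mem_span {s : Set A} (h : ∀ x ∈ s, E x ∈ Ideal.span s) {x : A}
    (hx : x ∈ Ideal.span s) : E x ∈ Ideal.span s := by
  induction hx using Submodule.span_induction with
  | mem x hx => exact h x hx
  | zero => simp
  | add x y _ _ hx hy => exact map_add E x y ▸ add_mem hx hy
  | smul a x h1 hx =>
    rw [smul_eq_mul, E.leibniz]
    exact add_mem (Ideal.mul_mem_left _ _ hx) (Ideal.mul_mem_right _ _ h1)

theorem der_mem_pow (h : ∀ x ∈ d, E x ∈ d) (m : ℕ) {x : A} (hx : x ∈ d ^ m) : E x ∈ d ^ m := by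
  induction m generalizing x with
  | zero => simp
  | succ m ih =>
    rw [pow_succ] at hx ⊢
    refine Submodule.mul_induction_on hx (fun a ha b hb => ?_)
      fun x y hx hy => map_add E x y ▸ add_mem hx hy
    rw [E.leibniz, smul_eq_mul, smul_eq_mul, mul_comm b]
    exact add_mem (Ideal.mul_mem_mul ha (h b hb)) (Ideal.mul_mem_mul (ih ha) hb)

theorem euler_span {s : Set A} (h0 : ∀ x, E x ∈ Ideal.span s)
    (h : ∀ x ∈ s, E x - x ∈ Ideal.span s ^ 2) {x : A} (hx : x ∈ Ideal.span s) :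
    E x - x ∈ Ideal.span s ^ 2 := by
  induction hx using Submodule.span_induction with
  | mem x hx => exact h x hx
  | zero => simp
  | add x y _ _ hx hy => exact map_add E x y ▸ add_sub_add_comm _ _ x y ▸ add_mem hx hy
  | smul a x h1 hx =>
    rw [smul_eq_mul, E.leibniz, smul_eq_mul, smul_eq_mul, add_sub_right_comm, ← mul_sub]
    exact add_mem (Ideal.mul_mem_left _ _ hx) (pow_two (Ideal.span s) ▸ Ideal.mul_mem_mul h1 (h0 a))

theorem euler_pow (h0 : ∀ x, E x ∈ d) (h : ∀ x ∈ d, E x - x ∈ d ^ 2) (m : ℕ) {x : A}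
    (hx : x ∈ d ^ m) : E x - m * x ∈ d ^ (m + 1) := by
  induction m generalizing x with
  | zero => simpa using h0 x
  | succ m ih =>
    rw [pow_succ] at hx
    refine Submodule.mul_induction_on hx (fun a ha b hb => ?_) fun x y hx hy => ?_
    · rw [show E (a * b) - (m + 1 : ℕ) * (a * b) = a * (E b - b) + (E a - m * a) * b by
        simp only [E.leibniz, smul_eq_mul, Nat.cast_succ]
        ring]
      exact add_mem (pow_add d m 2 ▸ Ideal.mul_mem_mul ha (h b hb))
        (pow_succ d (m + 1) ▸ Ideal.mul_mem_mul (ih ha) hb)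
    · rw [map_add, mul_add, add_sub_add_comm]
      exact add_mem hx hy

variable [CharZero k] [Fintype ι]

theorem inv_succ_mul (k : Type) [Field k] [CharZero k] [Algebra k A] (m : ℕ) :
    algebraMap k A (m + 1 : ℕ)⁻¹ * (m + 1 : ℕ) = 1 := by
  rw [← map_natCast (algebraMap k A), ← map_mul, inv_mul_cancel₀ (Nat.cast_ne_zero.2 m.succ_ne_zero),
    map_one]

variable (h0 : ∀ l, η l ∈ d) (h : ∀ x ∈ d, (∑ l, η l • R l) x - x ∈ d ^ 2)
include h0 h

omit [CharZero k] in
theorem euler_sum (m : ℕ) {x : A} (hx : x ∈ d ^ m) : ∑ l, η l * R l x - m * x ∈ d ^ (m + 1) :=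
  der_sum_smul η R x ▸ euler_pow (fun x => der_sum_smul η R x ▸ sum_mem fun l _ =>
    Ideal.mul_mem_right _ _ (h0 l)) h m hx

/-- The order of vanishing is read off from the derivatives. -/
theorem mem_pow_of_der {M : ℕ} {x : A} (hx : x ∈ d) (h1 : ∀ l, R l x ∈ d ^ M) (m : ℕ)
    (hm : m ≤ M) : x ∈ d ^ (m + 1) := by
  induction m with
  | zero => simpa using hx
  | succ m ih =>
    have h2 : ∑ l, η l * R l x ∈ d ^ (m + 1 + 1) := sum_mem fun l _ =>
      pow_succ' d (m + 1) ▸ Ideal.mul_mem_mul (h0 l) (Ideal.pow_le_pow_right hm (h1 l))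
    have h3 := Ideal.mul_mem_left _ (algebraMap k A (m + 1 : ℕ)⁻¹)
      (sub_mem h2 (euler_sum h0 h (m + 1) (ih (Nat.le_of_succ_le hm))))
    rwa [sub_sub_cancel, ← mul_assoc, inv_succ_mul, one_mul] at h3

/-- Truncated formal primitives. -/
theorem exists_prim [DecidableEq ι] (h1 : ∀ l m, R l (η m) - (if l = m then 1 else 0) ∈ d)
    (h2 : ∀ l m x, R l (R m x) = R m (R l x)) (j : ι) (M : ℕ) :
    ∃ x ∈ d, ∀ l, R l x - (if l = j then 1 else 0) ∈ d ^ M := by
  induction M with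
  | zero => exact ⟨0, zero_mem _, fun l => by simp⟩
  | succ M ih =>
    obtain ⟨x, h3, h4⟩ := ih
    set e : ι → A := fun l => R l x - if l = j then 1 else 0 with he
    have h5 : ∀ l m, R l (e m) = R m (e l) := fun l m => by
      simp only [he, map_sub, h2 l m, apply_ite (R _), Derivation.map_one_eq_zero, map_zero,
        ite_self]
    refine ⟨x - algebraMap k A (M + 1 : ℕ)⁻¹ * ∑ m, η m * e m, sub_mem h3
      (Ideal.mul_mem_left _ _ (sum_mem fun m _ => Ideal.mul_mem_right _ _ (h0 m))), fun l => ?_⟩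
    have h6 : R l (∑ m, η m * e m) = ∑ m, η m * R m (e l) +
        ∑ m, (R l (η m) - if l = m then 1 else 0) * e m + e l := by
      simp [h5 l, sub_mul, Finset.sum_add_distrib, mul_comm, add_assoc]
    have h7 := inv_succ_mul (A := A) k M
    rw [show R l (x - algebraMap k A (M + 1 : ℕ)⁻¹ * ∑ m, η m * e m) - (if l = j then 1 else 0) =
        -algebraMap k A (M + 1 : ℕ)⁻¹ * ((∑ m, η m * R m (e l) - M * e l) +
          ∑ m, (R l (η m) - if l = m then 1 else 0) * e m) by
      rw [map_sub, ← Algebra.smul_def, Derivation.map_smul, Algebra.smul_def, h6, sub_right_comm]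
      rw [Nat.cast_succ (R := A)] at h7
      change e l - _ = _
      linear_combination (-e l) * h7]
    exact Ideal.mul_mem_left _ _ (add_mem (euler_sum h0 h M (h4 l)) (sum_mem fun m _ =>
      pow_succ' d M ▸ Ideal.mul_mem_mul (h1 l m) (h4 m)))

end euler

/-- Taylor expansion to first order. -/
theorem taylor_sq {A T σ : Type} [CommRing A] [CommRing T] [Fintype σ] {d : Ideal A}
    (φ ψ : MvPolynomial σ T →+* A) (h1 : ∀ a, φ (C a) = ψ (C a))
    (h2 : ∀ j, φ (X j) - ψ (X j) ∈ d) (p : MvPolynomial σ T) : φ p - ψ p ∈ d ∧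
      φ p - ψ p - ∑ j, φ (pderiv j p) * (φ (X j) - ψ (X j)) ∈ d ^ 2 := by
  classical
  induction p using MvPolynomial.induction_on with
  | C a => simp [h1]
  | add p q hp hq =>
    simp only [map_add, add_mul, Finset.sum_add_distrib, add_sub_add_comm]
    exact ⟨add_mem hp.1 hq.1, add_mem hp.2 hq.2⟩
  | mul_X p i hp =>
    have h3 : ∑ j, φ (pderiv j (p * X i)) * (φ (X j) - ψ (X j)) = φ p * (φ (X i) - ψ (X i)) +
        φ (X i) * ∑ j, φ (pderiv j p) * (φ (X j) - ψ (X j)) := by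
      simp only [Derivation.leibniz, smul_eq_mul, map_add, map_mul, pderiv_X, add_mul,
        Finset.sum_add_distrib, Finset.mul_sum, mul_assoc]
      congr 1
      rw [Finset.sum_eq_single i] <;> simp +contextual [eq_comm]
    rw [h3, map_mul, map_mul]
    refine ⟨?_, ?_⟩
    · rw [show φ p * φ (X i) - ψ p * ψ (X i) =
        (φ p - ψ p) * φ (X i) + ψ p * (φ (X i) - ψ (X i)) by ring]
      exact add_mem (Ideal.mul_mem_right _ _ hp.1) (Ideal.mul_mem_left _ _ (h2 i))
    · rw [show φ p * φ (X i) - ψ p * ψ (X i) - (φ p * (φ (X i) - ψ (X i)) +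
        φ (X i) * ∑ j, φ (pderiv j p) * (φ (X j) - ψ (X j))) =
        φ (X i) * (φ p - ψ p - ∑ j, φ (pderiv j p) * (φ (X j) - ψ (X j))) -
          (φ p - ψ p) * (φ (X i) - ψ (X i)) by ring]
      exact sub_mem (Ideal.mul_mem_left _ _ hp.2) (pow_two d ▸ Ideal.mul_mem_mul hp.1 (h2 i))

end Pool.Agent.P.MP_f17f76_ag.E

namespace Pool.Agent.P.MP_f17f76_ag.AbVar

open MvPolynomial Set E

variable {g N : ℕ} {A : AbVar g N} {k : Subfield ℂ} {i : Fin N}
  {R H : Fin g → Fin N → MvPolynomial (Fin N) k}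

/-- Truncated primitives on a ring with two points of the chart. -/
theorem Ch.prim (c : A.Ch k i R H) (h : A.Over k) {B : Type} [CommRing B] [Algebra k B]
    (π : MvPolynomial (Fin N ⊕ Fin N) k →ₐ[k] B) (hπ : Function.Surjective π)
    (h1 : ∀ p ∈ A.chI k i, π (rename Sum.inl p) = 0) (h2 : ∀ p ∈ A.chI k i, π (rename Sum.inr p) = 0)
    (D T : Fin g → Derivation k B B)
    (hD : ∀ l s, D l (π (X s)) = π (Sum.elim (fun j => rename Sum.inl (R l j)) 0 s))
    (hT : ∀ l s, T l (π (X s)) =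
      π (Sum.elim (fun j => rename Sum.inl (R l j)) (fun j => rename Sum.inr (R l j)) s))
    (j : Fin g) (M : ℕ) : ∃ x ∈ Ideal.span (range fun n => π (X (Sum.inl n) - X (Sum.inr n))), ∀ l,
      D l x - (if l = j then 1 else 0) ∈
        Ideal.span (range fun n => π (X (Sum.inl n) - X (Sum.inr n))) ^ M ∧
      T l x ∈ Ideal.span (range fun n => π (X (Sum.inl n) - X (Sum.inr n))) ^ M := by
  set d := Ideal.span (range fun n => π (X (Sum.inl n) - X (Sum.inr n))) with hd
  let φ : MvPolynomial (Fin N) k →+* B := π.comp (rename Sum.inl)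
  let ψ : MvPolynomial (Fin N) k →+* B := π.comp (rename Sum.inr)
  have eφ : ∀ p, π (rename Sum.inl p) = φ p := fun _ => rfl
  have eψ : ∀ p, π (rename Sum.inr p) = ψ p := fun _ => rfl
  have cφ : ∀ a, φ (C a) = algebraMap k B a := (π.comp (rename Sum.inl)).commutes
  have cψ : ∀ a, ψ (C a) = algebraMap k B a := (π.comp (rename Sum.inr)).commutes
  have xφ : ∀ n, π (X (Sum.inl n)) = φ (X n) := fun n => by rw [← eφ, rename_X]
  have xψ : ∀ n, π (X (Sum.inr n)) = ψ (X n) := fun n => by rw [← eψ, rename_X]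
  have hξ : ∀ n, φ (X n) - ψ (X n) ∈ d := fun n =>
    Ideal.subset_span ⟨n, by simp only [map_sub, xφ, xψ]⟩
  have dφ : ∀ (E : Derivation k B B) l, (∀ n, E (φ (X n)) = φ (R l n)) →
      ∀ p, E (φ p) = φ (∑ n, pderiv n p * R l n) := fun E l hE p => by
    rw [der_hom E φ fun a => by rw [cφ, E.map_algebraMap]]
    simp only [hE, map_sum, map_mul, smul_eq_mul]
  have D1 : ∀ l n, D l (φ (X n)) = φ (R l n) := fun l n => xφ n ▸ hD l (Sum.inl n)
  have T1 : ∀ l n, T l (φ (X n)) = φ (R l n) := fun l n => xφ n ▸ hT l (Sum.inl n)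
  have T2 : ∀ l n, T l (ψ (X n)) = ψ (R l n) := fun l n => xψ n ▸ hT l (Sum.inr n)
  have D2 : ∀ l p, D l (ψ p) = 0 := fun l p => by
    rw [der_hom (D l) ψ fun a => by rw [cψ, (D l).map_algebraMap]]
    simp [← xψ, hD]
  have cm : ∀ (E : Derivation k B B) l m, (∀ n, E (φ (X n)) = φ (R l n)) →
      (∀ n, D m (E (ψ (X n))) = 0) → ∀ x, E (D m x) = D m (E x) := fun E l m e1 e2 x => by
    obtain ⟨p, rfl⟩ := hπ x
    rw [← sub_eq_zero, ← Derivation.commutator_apply]
    refine (der_hom ⁅E, D m⁆ (π : _ →+* B) (fun a => (congrArg _ (π.commutes a)).trans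
      (Derivation.map_algebraMap _ a)) p).trans (Finset.sum_eq_zero fun s _ => ?_)
    refine smul_eq_zero_of_right _ ?_
    rcases s with n | n
    · rw [RingHom.coe_coe, xφ, Derivation.commutator_apply, D1, e1, dφ E l e1, dφ _ m (D1 m),
        ← map_sub]
      exact h1 _ (c.comm l m n)
    · rw [RingHom.coe_coe, xψ, Derivation.commutator_apply, D2, e2, map_zero, sub_zero]
  let η : Fin g → B := fun l => ∑ n, φ (H l n) * (φ (X n) - ψ (X n))
  have h0 : ∀ l, η l ∈ d := fun l => sum_mem fun n _ => Ideal.mul_mem_left _ _ (hξ n)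
  have hE : ∀ x ∈ d, (∑ l, η l • D l) x - x ∈ d ^ 2 := fun x => euler_span
    (fun x => der_sum_smul η D x ▸ sum_mem fun l _ => Ideal.mul_mem_right _ _ (h0 l))
    (forall_mem_range.2 fun n => by
      have h3 := c.mod h (φ := φ) (ξ := fun n => (d ^ 2).mkQ (φ (X n) - ψ (X n)))
        (fun p hp x => by rw [← eφ, h1 p hp, zero_smul]) (fun p hp => by
          have h4 := (taylor_sq φ ψ (fun a => (cφ a).trans (cψ a).symm) hξ p).2
          rw [← eφ, ← eψ, h1 p hp, h2 p hp, sub_zero, zero_sub, neg_mem_iff] at h4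
          simp only [← map_smul, ← map_sum]
          exact (Submodule.Quotient.mk_eq_zero _).2 h4) n
      simp only [← map_smul, ← map_sum] at h3
      rw [der_sum_smul, map_sub π, xφ, xψ]
      simp only [map_sub (D _), D1, D2, sub_zero, mul_comm (η _)]
      exact (Submodule.Quotient.eq _).1 h3.symm)
  obtain ⟨x, h3, h4⟩ := exists_prim h0 hE (fun l m => by
    have h5 := h1 _ (c.dual m l)
    rw [eφ, map_sub, apply_ite φ, map_one, map_zero, sub_eq_zero, map_sum] at h5
    simp only [η, map_sum, Derivation.leibniz, map_sub, D1, D2, sub_zero, smul_eq_mul, ← map_mul,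
      Finset.sum_add_distrib, h5, eq_comm (a := l), add_sub_cancel_left]
    exact sum_mem fun n _ => Ideal.mul_mem_right _ _ (hξ n))
    (fun l m => cm _ l m (D1 l) fun n => by rw [D2, map_zero]) j M
  have hTd : ∀ l, ∀ x ∈ d, T l x ∈ d := fun l x => der_mem_span (forall_mem_range.2 fun n => by
    rw [map_sub π, xφ, xψ, map_sub, T1, T2]
    exact (taylor_sq φ ψ (fun a => (cφ a).trans (cψ a).symm) hξ _).1)
  refine ⟨x, h3, fun l => ⟨h4 l, Ideal.pow_le_pow_right M.le_succ
    (mem_pow_of_der h0 hE (hTd l x h3) (fun m => ?_) M le_rfl)⟩⟩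
  have h5 := der_mem_pow (hTd l) M (h4 m)
  rwa [map_sub, apply_ite (T l), Derivation.map_one_eq_zero, map_zero, ite_self, sub_zero,
    cm _ l m (T1 l) fun n => by rw [T2, D2]] at h5

/-- The ring of functions of two points of the chart. -/
theorem Ch.exists_ring (c : A.Ch k i R H) : ∃ (S : Type) (_ : CommRing S) (_ : Algebra k S)
    (π : MvPolynomial (Fin N ⊕ Fin N) k →ₐ[k] S) (D T : Fin g → Derivation k S S),
    Function.Surjective π ∧ (∀ p ∈ A.chI k i, π (rename Sum.inl p) = 0) ∧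
    (∀ p ∈ A.chI k i, π (rename Sum.inr p) = 0) ∧
    (∀ l p, D l (π p) = π (mkDerivation k (Sum.elim (fun j => rename Sum.inl (R l j)) 0) p)) ∧
    (∀ l p, T l (π p) = π (mkDerivation k (Sum.elim (fun j => rename Sum.inl (R l j))
      fun j => rename Sum.inr (R l j)) p)) ∧ ∀ b b', A.θ b i ≠ 0 → A.θ b' i ≠ 0 →
      ∃ ev : S →ₐ[k] ℂ, ∀ p, ev (π p) = aeval (Sum.elim (A.aff i b') (A.aff i b)) p := by
  let J : Ideal (MvPolynomial (Fin N ⊕ Fin N) k) :=
    Ideal.span (rename Sum.inl '' (A.chI k i : Set _) ∪ rename Sum.inr '' (A.chI k i : Set _))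
  have hπ := Ideal.Quotient.mkₐ_surjective k J
  have J1 : ∀ p ∈ A.chI k i, rename Sum.inl p ∈ J := fun p hp =>
    Ideal.subset_span (Or.inl ⟨p, hp, rfl⟩)
  have J2 : ∀ p ∈ A.chI k i, rename Sum.inr p ∈ J := fun p hp =>
    Ideal.subset_span (Or.inr ⟨p, hp, rfl⟩)
  have ex : ∀ (e : Fin N → Fin N ⊕ Fin N) (f : Fin N ⊕ Fin N → MvPolynomial (Fin N ⊕ Fin N) k) p,
      mkDerivation k f (rename e p) = ∑ n, rename e (pderiv n p) * f (e n) := fun e f p =>
    (der_hom (mkDerivation k f) (rename e : MvPolynomial (Fin N) k →ₐ[k] _).toRingHom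
      (fun a => (congrArg _ (rename_C e a)).trans (derivation_C _ a)) p).trans
      (Finset.sum_congr rfl fun n _ => congrArg (_ * ·)
        ((congrArg _ (rename_X e n)).trans (mkDerivation_X k f _)))
  have pres : ∀ (l : Fin g) (f : Fin N → MvPolynomial (Fin N ⊕ Fin N) k),
      (∀ p ∈ A.chI k i, ∑ n, rename Sum.inr (pderiv n p) * f n ∈ J) → ∀ x,
      Ideal.Quotient.mkₐ k J x = 0 → Ideal.Quotient.mkₐ k J
        (mkDerivation k (Sum.elim (fun j => rename Sum.inl (R l j)) f) x) = 0 := fun l f hf x hx =>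
    Ideal.Quotient.eq_zero_iff_mem.2 (der_mem_span (by
      rintro _ (⟨p, hp, rfl⟩ | ⟨p, hp, rfl⟩)
      · simpa only [ex, map_sum, map_mul, Sum.elim_inl] using J1 _ (c.pres hp l)
      · simpa only [ex, Sum.elim_inr] using hf p hp) (Ideal.Quotient.eq_zero_iff_mem.1 hx))
  refine ⟨_, _, _, Ideal.Quotient.mkₐ k J, fun l => Derivation.liftOfSurjective hπ
    (pres l 0 fun p _ => sum_mem fun n _ => Ideal.mul_mem_left _ _ J.zero_mem),
    fun l => Derivation.liftOfSurjective hπ (pres l (fun j => rename Sum.inr (R l j))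
      fun p hp => by simpa only [map_sum, map_mul] using J2 _ (c.pres hp l)), hπ,
    fun p hp => Ideal.Quotient.eq_zero_iff_mem.2 (J1 p hp),
    fun p hp => Ideal.Quotient.eq_zero_iff_mem.2 (J2 p hp),
    fun l => Derivation.liftOfSurjective_apply _ _, fun l => Derivation.liftOfSurjective_apply _ _,
    fun b b' hb hb' => ⟨Ideal.Quotient.liftₐ J (aeval (Sum.elim (A.aff i b') (A.aff i b)))
      fun q hq => (Ideal.span_le (I := RingHom.ker (aeval (Sum.elim (A.aff i b') (A.aff i b))))).2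
        ?_ hq, fun _ => rfl⟩⟩
  rintro _ (⟨q, hq, rfl⟩ | ⟨q, hq, rfl⟩)
  · exact (aeval_rename _ _ _).trans (mem_chI.1 hq _ hb')
  · exact (aeval_rename _ _ _).trans (mem_chI.1 hq _ hb)

/-- The difference of the logarithmic derivatives at two close points is exact to any order. -/
theorem Over.wit (h : A.Over k) (i : Fin N) (M : ℕ) :
    ∃ Λ : Fin g → MvPolynomial (Fin N ⊕ Fin N) ℂ,
      (∀ j, Cf k (Λ j) ∧ ∀ y, eval (Sum.elim y y) (Λ j) = 0) ∧
      ∀ (B : Subring ℂ) (ε : ℂ) (b b' : Fin g → ℂ), (k : Set ℂ) ⊆ B → ε ∈ B → A.θ b i ≠ 0 →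
        A.θ b' i ≠ 0 → (∀ n, A.aff i b n ∈ B) →
        (∀ n, ∃ β ∈ B, A.aff i b' n - A.aff i b n = ε * β) → ∀ j,
        (∃ β ∈ B, eval (Sum.elim (A.aff i b') (A.aff i b)) (Λ j) = ε * β) ∧
        ∀ D ∈ kil (k : Set ℂ), (∀ n, D (A.aff i b n) ∈ B) → (∀ n, D (A.aff i b' n) ∈ B) →
          ∃ β ∈ B, A.dl b' D j - A.dl b D j -
            D (eval (Sum.elim (A.aff i b') (A.aff i b)) (Λ j)) = ε ^ M * β := by
  obtain ⟨R, H, c⟩ := h.exists_ch i
  obtain ⟨S, _, _, π, D₁, T, hπ, J1, J2, hD₁, hT, hev⟩ := c.exists_ring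
  choose x h1 h2 using fun j => c.prim h π hπ J1 J2 D₁ T
    (fun l s => (hD₁ l _).trans (congrArg π (mkDerivation_X k _ s)))
    (fun l s => (hT l _).trans (congrArg π (mkDerivation_X k _ s))) j M
  choose p h3 h4 using fun j => (Ideal.mem_map_iff_of_surjective π hπ (I := Ideal.span
    (range fun n => X (Sum.inl n) - X (Sum.inr n))) (y := x j)).1 (by
      rw [Ideal.map_span, ← range_comp]
      exact h1 j)
  refine ⟨fun j => map k.subtype (p j), fun j => ⟨cf_map _, fun y => ?_⟩,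
    fun B ε b b' hk hε hb hb' h5 h6 j => ?_⟩
  · rw [eval_map_sub]
    exact (Ideal.span_le (I := RingHom.ker (aeval (Sum.elim y y)))).2
      (range_subset_iff.2 fun n => by simp) (h3 j)
  have h7 : ∀ n, A.aff i b' n ∈ B := fun n => by
    obtain ⟨β, h8, h9⟩ := h6 n
    exact sub_eq_iff_eq_add.1 h9 ▸ add_mem (mul_mem hε h8) (h5 n)
  obtain ⟨ev, e1⟩ := hev b b' hb hb'
  let ev' := ev.toRingHom.codRestrict B fun q => by
    obtain ⟨q, rfl⟩ := hπ q
    exact (e1 q).symm ▸ eval₂_mem (fun m _ => hk (q.coeff m).2) (Sum.forall.2 ⟨h7, h5⟩)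
  have key : ∀ (m : ℕ), ∀ q ∈ Ideal.span (range fun n => π (X (Sum.inl n) - X (Sum.inr n))) ^ m,
      ∃ β ∈ B, ev q = ε ^ m * β := fun m q hq => by
    have h8 : Ideal.span (range fun n => π (X (Sum.inl n) - X (Sum.inr n))) ≤
        (Ideal.span {⟨ε, hε⟩}).comap ev' := Ideal.span_le.2 (range_subset_iff.2 fun n => by
      obtain ⟨β, h8, h9⟩ := h6 n
      exact Ideal.mem_span_singleton.2 ⟨⟨β, h8⟩, Subtype.ext ((e1 _).trans (by simpa using h9))⟩)
    have h9 := Ideal.le_comap_pow ev' m (Ideal.pow_right_mono h8 m hq)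
    rw [Ideal.span_singleton_pow] at h9
    obtain ⟨β, h10⟩ := Ideal.mem_span_singleton.1 h9
    exact ⟨β, β.2, congrArg Subtype.val h10⟩
  rw [eval_map_sub]
  refine ⟨by simpa only [← h4, e1, pow_one] using key 1 (x j) (by rw [pow_one]; exact h1 j),
    fun D hD h8 h9 => ?_⟩
  have hl : ∀ w, A.θ w i ≠ 0 → (∀ n, A.aff i w n ∈ B) → (∀ n, D (A.aff i w n) ∈ B) →
      ∀ l, A.dl w D l ∈ B := fun w h10 h11 h12 l => c.dl h hD h10 l ▸ sum_mem fun n _ =>
    mul_mem (eval₂_mem (fun m _ => hk ((H l n).coeff m).2) h11) (h12 n)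
  choose β h10 h11 using fun l => key M _ (h2 j l).1
  choose γ h12 h13 using fun l => key M _ (h2 j l).2
  have e2 : ∀ f : Fin N ⊕ Fin N → MvPolynomial (Fin N ⊕ Fin N) k,
      mkDerivation k f (p j) = ∑ s, pderiv s (p j) * f s := fun f => by
    simpa only [RingHom.id_apply, mkDerivation_X, smul_eq_mul] using
      der_hom (mkDerivation k f) (RingHom.id _) (fun a => derivation_C _ a) (p j)
  have h14 : D (aeval (Sum.elim (A.aff i b') (A.aff i b)) (p j)) =
      ∑ l, (ev (D₁ l (x j)) * (A.dl b' D l - A.dl b D l) + ev (T l (x j)) * A.dl b D l) := by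
    simp only [← h4, hD₁, hT, e1]
    simp only [e2, der_aeval hD,
      Fintype.sum_sum_type, Sum.elim_inl, Sum.elim_inr, c.der h hD hb, c.der h hD hb', map_add,
      map_sum, map_mul, aeval_rename, Sum.elim_comp_inl, Sum.elim_comp_inr, Pi.zero_apply,
      mul_zero, Finset.sum_const_zero, add_zero, mul_sub, add_mul, ← add_assoc, sub_add_cancel,
      Finset.sum_add_distrib, Finset.mul_sum, Finset.sum_mul, mul_assoc]
    exact congrArg₂ _ Finset.sum_comm Finset.sum_comm
  refine ⟨-∑ l, (β l * (A.dl b' D l - A.dl b D l) + γ l * A.dl b D l), neg_mem (sum_mem fun l _ =>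
    add_mem (mul_mem (h10 l) (sub_mem (hl _ hb' h7 h9 l) (hl _ hb h5 h8 l)))
      (mul_mem (h12 l) (hl _ hb h5 h8 l))), ?_⟩
  simp only [map_sub, sub_eq_iff_eq_add, apply_ite ev, map_one, map_zero] at h11
  simp only [h14, h11, h13, add_mul, ite_mul, one_mul, zero_mul, Finset.sum_add_distrib,
    Finset.sum_ite_eq', Finset.mem_univ, if_true, mul_assoc, ← Finset.mul_sum]
  ring

end Pool.Agent.P.MP_f17f76_ag.AbVar
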