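import Pool.Agent.P.MP_f17f76_ag.E.CcB
import Pool.Agent.P.MP_f17f76_ag.E.PlcD
import Pool.Agent.P.MP_f17f76_ag.E.Tch
import Pool.Agent.P.MP_f17f76_ag.E.AxZ
import Pool.Agent.P.MP_f17f76_ag.E.Wit

/-!
Witnesses along a leaf, and generic combinations of contractive derivations.
-/

namespace Pool.Agent.P.MP_f17f76_ag.E

open Set PowerSeries

namespace Leaf

variable {P Q : Plc ℂ ℂ} {L F k : Subfield ℂ} {δ : Der ℂ} {i : ℂ⟦X⟧ →+* ℂ} (h : Leaf P L δ i Q)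
  {x : ℂ} {g N : ℕ} {A : AbVar g N} {b b' : Fin g → ℂ}
include h

theorem sle_sub (hx : x ∈ L) : P.Sle (tay δ x - C x) (P.v (δ x)) :=
  Plc.sle_of_deriv (by simpa [deriv_tay] using h.sle (h.pres x hx)) (by simp)

omit h in
theorem mem (hx : x ∈ L) : x ∈ acl (L ∪ i.comp (tay δ) '' L) ∧
    i (tay δ x) ∈ acl (L ∪ i.comp (tay δ) '' L) :=
  ⟨subset_acl _ (Or.inl hx), subset_acl _ (Or.inr ⟨x, hx, rfl⟩)⟩

/-- Witnesses for the forms that are almost constant along the leaf. -/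
theorem wit (hA : A.Over k) (hk : k ≤ F) (hF : F ≤ L) (hP : P.IdOn k) (hδ : δ ∈ kil (k : Set ℂ))
    (hb : ∀ j, A.crd b j ∈ F) (eb : A.crd b' = i.comp (tay δ) ∘ A.crd b) {ε π t : ℂ} (hε : ε ∈ F)
    (ε0 : ε ≠ 0) (ε1 : P.v ε ≤ 1) (hd : ∀ l, P.v (A.dl b δ l) ≤ P.v ε) {M : ℕ}
    (hM : P.v (ε ^ M) < P.v π) (hπ : π ∈ F) (hπ' : δ π = 0) {u : Fin g → ℂ} (hu : ∀ l, u l ∈ k)
    (ht : u ⬝ᵥ A.dl b δ = π * t) (t1 : t ∈ L) (t2 : P.v t ≤ 1) (t3 : P.r t = t) (t4 : δ t = 0)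
    {L' : Subfield ℂ} (h1 : F ≤ L') (h2 : ∀ j, A.crd b' j ∈ L') :
    ∃ W ∈ L', Q.v W ≤ 1 ∧ Q.r W = t * i X ∧ ∀ Q' : Plc ℂ ℂ, Q.Agree Q' L' →
      ∀ D ∈ kil (k : Set ℂ), D π = 0 → Q'.Ctr D L' →
        Q'.v (u ⬝ᵥ A.dl b' D - π * D W - u ⬝ᵥ A.dl b D) < Q'.v π := by
  have π0 : π ≠ 0 := fun e => by simp [e] at hM
  obtain ⟨b₀, hr⟩ := hA.exists_red' hP b
  obtain ⟨c, -, c1, c2⟩ := hr.exists_chart
  have c3 := (AbVar.theta_map _ eb).2 c1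
  have hy : ∀ j, A.aff c b j ∈ F := AbVar.aff_mem hb c
  have ey : ∀ j, A.aff c b' j = i (tay δ (A.aff c b j)) := AbVar.aff_map _ eb c
  obtain ⟨Λ, l1, l3⟩ := hA.wit c M
  let lam : Fin g → ℂ := fun l => MvPolynomial.eval (Sum.elim (A.aff c b') (A.aff c b)) (Λ l)
  obtain ⟨W, hW⟩ : ∃ W, π⁻¹ * (u ⬝ᵥ lam) = W := ⟨_, rfl⟩
  have eW : π * W = u ⬝ᵥ lam := hW ▸ mul_inv_cancel_left₀ π0 _
  have mW : ∀ T : Subfield ℂ, F ≤ T → (∀ j, A.aff c b' j ∈ T) → W ∈ T := fun T a1 a2 =>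
    hW ▸ mul_mem (inv_mem (a1 hπ)) (dot_mem (fun l => a1 (hk (hu l))) fun l =>
      (l1 l).1.eval_mem' (hk.trans a1) (by rintro (j | j); exacts [a2 j, a1 (hy j)]))
  let η : Fin N → ℂ⟦X⟧ := fun j => C ε⁻¹ * (tay δ (A.aff c b j) - C (A.aff c b j))
  have η1 : ∀ j, P.Sle (η j) 1 := fun j =>
    ((Plc.sle_C le_rfl).mul ((h.sle_sub (hF (hy j))).mono
      (hA.v_der_le hP c1 (fun j => (c2 j).1) hδ hd j))).mono (by
        rw [← map_mul, inv_mul_cancel₀ ε0, map_one])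
  have η2 : ∀ j, i (η j) = ε⁻¹ * (A.aff c b' j - A.aff c b j) := fun j => by
    rw [map_mul, map_sub, h.fix _ (inv_mem (hF hε)), h.fix _ (hF (hy j)), ey]
  have key : ∀ (B : Subring ℂ) (D : Der ℂ), (∀ x ∈ F, P.v x ≤ 1 → x ∈ B) → D ∈ kil (k : Set ℂ) →
      D π = 0 → (∀ j, i (η j) ∈ B) → (∀ j, D (A.aff c b j) ∈ B) → (∀ j, D (A.aff c b' j) ∈ B) →
      ∃ β ∈ B, u ⬝ᵥ A.dl b' D - π * D W - u ⬝ᵥ A.dl b D = ε ^ M * β := by
    intro B D a1 a2 a3 a4 a5 a6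
    have a7 : ∀ x ∈ k, x ∈ B := fun x hx => a1 x (hk hx) (hP x hx).1
    choose β b1 b2 using fun l => (l3 B ε b b' a7 (a1 ε hε ε1) c1 c3 (fun j => a1 _ (hy j) (c2 j).1)
      (fun j => ⟨_, a4 j, by rw [η2, mul_inv_cancel_left₀ ε0]⟩) l).2 D a2 a5 a6
    refine ⟨u ⬝ᵥ β, sum_mem fun l _ => mul_mem (a7 _ (hu l)) (b1 l), ?_⟩
    have : π * D W = u ⬝ᵥ dv lam D := by
      rw [← der_dot_of fun l => a2 _ (hu l), ← eW, D.leibniz, a3, smul_zero, add_zero, smul_eq_mul]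
    rw [this, sub_right_comm, ← dotProduct_sub, ← dotProduct_sub, ← smul_eq_mul,
      ← dotProduct_smul]
    exact congrArg _ (funext b2)
  have mL : F ≤ acl (L ∪ i.comp (tay δ) '' L) := fun x hx => (mem (hF hx)).1
  have mL' : ∀ j, A.aff c b' j ∈ acl (L ∪ i.comp (tay δ) '' L) := fun j =>
    ey j ▸ (mem (hF (hy j))).2
  obtain ⟨Dt, hDt⟩ := h.exists_dt
  have k1 := h.dt_kil hDt
  have k2 : Dt ∈ kil (k : Set ℂ) := kil_anti (hk.trans hF) k1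
  obtain ⟨_, ⟨β, β1, rfl⟩, β2⟩ := key (P.intS.map i) Dt
    (fun x hx h1 => ⟨C x, Plc.sle_C h1, h.fix x (hF hx)⟩) k2 (k1 π (hF hπ))
    (fun j => ⟨_, η1 j, rfl⟩) (fun j => by rw [k1 _ (hF (hy j))]; exact zero_mem _)
    fun j => ⟨_, (h.sle_one (hF (hy j)) (c2 j).1).deriv, by rw [ey, hDt]⟩
  have e1 : A.dl b Dt = 0 := A.dl_eq_zero (kil_anti (range_subset_iff.2 fun j => hF (hb j)) k1)
  have e2 : u ⬝ᵥ A.dl b' Dt = π * t := by
    have hΦ : ∀ x ∈ k, i.comp (tay δ) x = x := fun x hx => h.const (hF (hk hx)) (hδ x hx)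
    rw [hA.dl_map hδ k2 _ hΦ eb fun j => by simp [hDt, deriv_tay],
      show u = i.comp (tay δ) ∘ u from funext fun l => (hΦ _ (hu l)).symm, map_dot, ht]
    exact h.const (mul_mem (hF hπ) t1) (by simp [hπ', t4])
  have s1 : ∀ l, ∃ f, i f = lam l ∧ constantCoeff f = 0 := fun l => by
    rw [← (l1 l).2 (A.aff c b)]
    refine (l1 l).1.rel (fun a a' => ∃ f, i f = a ∧ constantCoeff f = a')
      (fun a ha => ⟨C a, h.fix a (hF (hk ha)), by simp⟩) ?_ ?_ ?_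
    · rintro _ _ _ _ ⟨f, rfl, rfl⟩ ⟨f', rfl, rfl⟩
      exact ⟨f + f', map_add _ _ _, map_add _ _ _⟩
    · rintro _ _ _ _ ⟨f, rfl, rfl⟩ ⟨f', rfl, rfl⟩
      exact ⟨f * f', map_mul _ _ _, map_mul _ _ _⟩
    · rintro (j | j)
      exacts [⟨_, (ey j).symm, const_tay _ _⟩, ⟨C _, h.fix _ (hF (hy j)), by simp⟩]
  choose f f1 f2 using s1
  let V : ℂ⟦X⟧ := C π⁻¹ * ∑ l, C (u l) * f l
  have V1 : i V = W := by
    rw [map_mul, h.fix _ (inv_mem (hF hπ)), map_sum, ← hW]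
    exact congrArg _ (Finset.sum_congr rfl fun l _ => by
      rw [map_mul, h.fix _ (hF (hk (hu l))), f1])
  have γ1 : P.v (ε ^ M / π) < 1 := (P.v_div_lt_one π0).2 hM
  have V2 : P.Sle (V - C t * X) (P.v (ε ^ M / π)) := by
    refine Plc.sle_of_deriv ?_ (by simp [V, f2])
    have : d⁄dX ℂ (V - C t * X) = -(C (ε ^ M / π) * β) := h.inj (by
      rw [e1, e2, dotProduct_zero, sub_zero] at β2
      rw [map_sub, map_sub, ← hDt, V1, map_neg, map_mul i,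
        h.fix _ (hF (div_mem (pow_mem hε M) hπ))]
      simp only [Derivation.leibniz, derivative_C, derivative_X, mul_zero, add_zero,
        smul_eq_mul, mul_one, h.fix t t1]
      field_simp
      linear_combination -β2)
    rw [this]
    exact (((Plc.sle_C le_rfl).mul β1).mono (mul_one _).le).neg
  have V3 : P.Sle (C t * X) 1 := (Plc.sle_C t2).mul_one P.sle_X
  have V4 := h.dom _ ((V2.mono γ1.le).add V3) (by rw [sub_add_cancel, V1]; exact mW _ mL mL')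
  rw [Plc.sp_add (V2.mono γ1.le) V3, Plc.sp_eq_zero V2 γ1, zero_add, sub_add_cancel, V1,
    Plc.sp_mul (Plc.sle_C t2) P.sle_X, P.sp_C, P.sp_X, t3, map_mul, h.fix t t1] at V4
  have m1 := AbVar.aff_mem h2 c
  refine ⟨W, mW _ h1 m1, V4.1, V4.2, fun Q' hQ D d1 d2 d3 => ?_⟩
  have hQ' : P.Agree Q' F := (h.agree.mono hF).trans (hQ.mono h1)
  obtain ⟨β, β1, β2⟩ := key Q'.O.toSubring D (fun x hx h1 => Q'.mem_iff.2 ((hQ' x hx).1.1 h1)) d1 d2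
    (fun j => Q'.mem_iff.2 ((hQ _ (η2 j ▸ mul_mem (inv_mem (h1 hε))
      (sub_mem (m1 j) (h1 (hy j))))).1.1 (h.dom _ (η1 j) (η2 j ▸ mul_mem (inv_mem (mL hε))
      (sub_mem (mL' j) (mL (hy j))))).1))
    (fun j => Q'.mem_iff.2 ((d3 _ (h1 (hy j))).trans ((hQ' _ (hy j)).1.1 (c2 j).1)))
    fun j => Q'.mem_iff.2 ((d3 _ (m1 j)).trans ((hQ _ (m1 j)).1.1
      (ey j ▸ (h.dom_tay (hF (hy j)) (c2 j).1).1)))
  rw [β2, map_mul]
  exact (mul_le_of_le_one_right' (Q'.mem_iff.1 β1)).trans_lt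
    ((hQ'.lt (pow_mem hε M) hπ).1 hM)

end Leaf

variable {ι κ : Type} [Fintype ι] [DecidableEq ι] [DecidableEq κ]

/-- The leaf of a generic combination of the derivations `D j` and `π * Y j`. -/
structure Su (F L : Subfield ℂ) (P Q : Plc ℂ ℂ) (δ : Der ℂ) (i : ℂ⟦X⟧ →+* ℂ) (D : ι → Der ℂ)
    (Y : κ → Der ℂ) (s : Finset κ) (π : ℂ) (w : ι ⊕ κ → ℂ) (e d : ι ⊕ κ → Der ℂ) : Prop
    extends Leaf P L δ i Q where
  le : F ≤ L
  w1 : ∀ α, w α ∈ L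
  w2 : ∀ α, P.v (w α) ≤ 1
  w3 : ∀ α, P.r (w α) = w α
  w4 : ∀ α, δ (w α) = 0
  eq : ∀ x ∈ F, δ x = (∑ j, w (.inl j) • D j + ∑ j ∈ s, (w (.inr j) * π) • Y j) x
  e1 : ∀ α, e α ∈ kil (P.res F : Set ℂ)
  e2 : ∀ α β, e α (w β) = if β = α then 1 else 0
  d1 : ∀ α f, d α (i f) = i (mapc (e α) f)

omit [DecidableEq ι] [DecidableEq κ] in
theorem der_comb (D : ι → Der ℂ) (Y : κ → Der ℂ) (s : Finset κ) (y : ι → ℂ) (t : κ → ℂ) (x : ℂ) :
    (∑ j, y j • D j + ∑ j ∈ s, t j • Y j) x = ∑ j, y j * D j x + ∑ j ∈ s, t j * Y j x := by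
  rw [Derivation.add_apply, der_sum_apply, der_sum_apply]

theorem exists_su [Finite κ] {F : Subfield ℂ} (hF : (F : Set ℂ).Countable) (P₀ : Plc ℂ ℂ)
    {D : ι → Der ℂ} {Y : κ → Der ℂ} (s : Finset κ) {π : ℂ}
    (hD : ∀ j, P₀.Ctr (D j) F ∧ ∀ x ∈ F, D j x ∈ F) (hY : ∀ j, P₀.Ctr (Y j) F ∧ ∀ x ∈ F, Y j x ∈ F)
    (hπ : π ∈ F) (hπ' : P₀.v π ≤ 1) :
    ∃ L P Q δ i w e d, P₀.Agree P F ∧ Su F L P Q δ i D Y s π w e d := by
  have : Uncountable ℂ := Complex.ofReal_injective.uncountable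
  obtain ⟨w, hw⟩ := exists_ind (hF.union (Plc.countable_res (P := P₀) hF)) (ι ⊕ κ)
  obtain ⟨P, h1, h2⟩ := Plc.exists_gauss le_rfl P₀ hF
    (hw.anti (subset_union_left.trans (subset_acl _))) w
  have h3 : Ind (P.res F : Set ℂ) w := h1.res le_rfl ▸ hw.anti (subset_union_right.trans (subset_acl _))
  have h4 : P.Gauss F w := ⟨fun j => (h2 j).1, by rwa [show P.r ∘ w = w from funext fun j => (h2 j).2]⟩
  obtain ⟨δ, a1, a2, a3⟩ := h4.exists_der (c := 0)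
    (D := ∑ j, w (.inl j) • D j + ∑ j ∈ s, (w (.inr j) * π) • Y j)
    (.add (.sum fun j _ => (h1.ctr subset_rfl (hD j).2 (hD j).1).smul (h2 _).1)
      (.sum fun j _ => (h1.ctr subset_rfl (hY j).2 (hY j).1).smul
        (Plc.v_mul_le (h2 _).1 ((h1 π hπ).1.1 hπ')))) (by simp)
  have m1 : F ≤ acl (F ∪ range w) := fun x hx => subset_acl _ (Or.inl hx)
  have m2 : ∀ α, w α ∈ acl (F ∪ range w) := fun α => subset_acl _ (Or.inr ⟨α, rfl⟩)
  obtain ⟨i, Q, h⟩ := exists_leaf P (countable_acl (hF.union (countable_range w))) a3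
    fun x hx => der_mem_acl (subset_acl _) (by
      rintro x (hx | ⟨α, rfl⟩)
      · rw [a1 x hx, der_comb]
        exact add_mem (sum_mem fun j _ => mul_mem (m2 _) (m1 ((hD j).2 x hx)))
          (sum_mem fun j _ => mul_mem (mul_mem (m2 _) (m1 hπ)) (m1 ((hY j).2 x hx)))
      · rw [a2]
        exact zero_mem _) hx
  obtain ⟨e, he⟩ := exists_partial h3
  choose d hd using fun α => h.exists_mapc (e α)
  exact ⟨_, P, Q, δ, i, w, e, d, h1, h, m1, m2, fun α => (h2 α).1, fun α => (h2 α).2, a2, a1,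
    fun α => (he α).1, fun α => (he α).2.1, hd⟩

namespace Su

variable {F L k : Subfield ℂ} {P Q : Plc ℂ ℂ} {δ : Der ℂ} {i : ℂ⟦X⟧ →+* ℂ} {D : ι → Der ℂ}
  {Y : κ → Der ℂ} {s : Finset κ} {π x : ℂ} {w : ι ⊕ κ → ℂ} {e d : ι ⊕ κ → Der ℂ}
  (h : Su F L P Q δ i D Y s π w e d)
include h

theorem kil {S : Set ℂ} (hS : S ⊆ F) (hD : ∀ j, D j ∈ kil S) (hY : ∀ j, Y j ∈ kil S) :
    δ ∈ kil S := fun x hx => by
  simp [h.eq x (hS hx), der_comb, hD _ x hx, hY _ x hx]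

theorem res_eq : Q.res F = P.res F := (h.agree.res h.le).symm

theorem comb {c : ι → ℂ} {c' : κ → ℂ} (hc : ∀ j, c j ∈ F ∧ P.v (c j) ≤ 1)
    (hc' : ∀ j ∈ s, P.v (π * c' j) < 1) :
    P.v (∑ j, w (.inl j) * c j + ∑ j ∈ s, w (.inr j) * π * c' j) ≤ 1 ∧
      ∀ l, e (.inl l) (P.r (∑ j, w (.inl j) * c j + ∑ j ∈ s, w (.inr j) * π * c' j)) =
        P.r (c l) := by
  have h1 : ∀ j ∈ Finset.univ, P.v (w (.inl j) * c j) ≤ 1 := fun j _ =>
    Plc.v_mul_le (h.w2 _) (hc j).2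
  have h2 : P.v (∑ j ∈ s, w (.inr j) * π * c' j) < 1 := P.v.map_sum_lt one_ne_zero fun j hj => by
    rw [mul_assoc]
    exact Plc.v_mul_lt (h.w2 _) (hc' j hj)
  refine ⟨P.v.map_add_le (P.v.map_sum_le h1) h2.le, fun l => ?_⟩
  rw [Plc.r_add (P.v.map_sum_le h1) h2.le, Plc.r_of_lt h2, add_zero, Plc.r_sum h1, map_sum]
  simp [Plc.r_mul (h.w2 _) (hc _).2, h.w3, h.e2, h.e1 _ _ (Plc.r_mem_res (hc _).1)]

theorem d_res (α : ι ⊕ κ) : d α ∈ E.kil (P.res F : Set ℂ) := fun x hx =>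
  h.mapc_res (h.d1 α) (Plc.res_mono h.le hx) (h.e1 α x hx)

theorem d_w (α β : ι ⊕ κ) : d α (w β * i X) = if β = α then i X else 0 := by
  rw [← h.fix _ (h.w1 β), ← map_mul, h.d1, mapc_mul, mapc_X, mapc_C, h.e2]
  split_ifs <;> simp

theorem ind : Ind (P.res F : Set ℂ) fun j : s => w (.inr j) * i X := by
  refine ind_of_dual (D := fun j : s => d (.inr j)) (fun j => h.d_res _) ?_
  have : (Matrix.of fun j l : s => d (.inr l) (w (.inr j) * i X)) = i X • 1 := by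
    ext j l
    simp [h.d_w, Matrix.one_apply]
  rw [this, Matrix.det_smul, Matrix.det_one, mul_one]
  exact pow_ne_zero _ ((map_ne_zero_iff i h.inj).2 X_ne_zero)

theorem d_kil (j : ι) :
    d (.inl j) ∈ E.kil (acl (P.res F ∪ range fun j : s => w (.inr j) * i X) : Set ℂ) := by
  rw [kil_acl, kil_union]
  exact ⟨h.d_res _, by rintro _ ⟨l, rfl⟩; simp [h.d_w]⟩

/-- The displacement along the leaf. -/
theorem int (hx : x ∈ F) (h1 : ∀ j, D j x ∈ F ∧ P.v (D j x) ≤ 1)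
    (h2 : ∀ j ∈ s, P.v (π * Y j x) < 1) : Q.v (i (tay δ x) - x) ≤ 1 ∧
      ∃ f, Q.r (i (tay δ x) - x) = i f ∧ constantCoeff f = 0 ∧
        ∀ j, e (.inl j) (coeff 1 f) = P.r (D j x) := by
  have h3 := h.comb h1 h2
  rw [← der_comb, ← h.eq x hx] at h3
  have h4 : i (tay δ x - C x) = i (tay δ x) - x := by rw [map_sub, h.fix x (h.le hx)]
  have h5 := h.dom _ ((h.sle_sub (h.le hx)).mono h3.1)
    (h4 ▸ sub_mem (Leaf.mem (h.le hx)).2 (Leaf.mem (h.le hx)).1)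
  refine ⟨h4 ▸ h5.1, _, h4 ▸ h5.2, by simp [P.const_sp], fun j => ?_⟩
  have : coeff 1 (tay δ x) = δ x := by
    simpa [coeff_derivative] using congrArg (coeff 0) (deriv_tay δ x)
  simpa [coeff_C, this] using h3.2 j

theorem sur {R : Submodule ℂ (ι → ℂ)} (hR : Ov (P.res F) R) {ζ : ι → ℂ} (hζ : ∀ l, ζ l ∈ F)
    (h1 : ∀ l j, D j (ζ l) ∈ F ∧ P.v (D j (ζ l)) ≤ 1) (h2 : ∀ l, ∀ j ∈ s, P.v (π * Y j (ζ l)) < 1)
    (h3 : ∀ j, P.r ∘ dv ζ (D j) - Pi.single j 1 ∈ ann R) {V : Submodule ℂ (Der ℂ)}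
    (hV : ∀ j, d (.inl j) ∈ V) (v : ι → ℂ) :
    ∃ D' ∈ V, dv (fun l => Q.r (i (tay δ (ζ l)) - ζ l)) D' - v ∈ ann R := by
  choose f f1 f2 f3 using fun l => (h.int (hζ l) (h1 l) (h2 l)).2
  obtain ⟨t, n, -, n1, n2⟩ := P.latt hR
  let Φ : Der ℂ →ₗ[ℂ] t → ℂ := (Matrix.of fun l : t => n l).mulVecLin.comp (dv fun l => i (f l))
  let B : Matrix t t ℂ⟦X⟧ := Matrix.of fun l m => ∑ j, C (n l j) * mapc (e (.inl m)) (f j)
  have hB : (Matrix.of fun l m : t => Φ (d (.inl m)) l) = i.mapMatrix B := by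
    ext l m
    simp [Φ, B, Matrix.mulVec, dotProduct, h.d1,
      h.fixr _ (Plc.res_mono h.le ((n1 l l.2).2.1 _).1)]
  obtain ⟨D', a1, a2⟩ := exists_of_det Φ (W := V) (X := fun m : t => d (.inl m)) (fun m => hV m)
    (by
      rw [hB, ← i.map_det, map_ne_zero_iff i h.inj]
      refine det_series_ne (fun l m => by simp [B, const_mapc, f2]) fun l m => ?_
      have := h3 m _ (n1 l l.2).1
      rw [sub_dotProduct, single_dotProduct, one_mul, (n1 l l.2).2.2 m m.2, sub_eq_zero,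
        dotProduct_comm] at this
      simpa [B, f3, dotProduct] using this) fun l => n l ⬝ᵥ v
  refine ⟨D', a1, fun y hy => ?_⟩
  rw [n2 y hy, dotProduct_sum]
  refine Finset.sum_eq_zero fun l hl => ?_
  rw [dotProduct_smul, dotProduct_comm, dotProduct_sub, funext f1]
  exact smul_eq_zero_of_right _ (sub_eq_zero.2 (congrFun a2 ⟨l, hl⟩))

variable {g N : ℕ} {A : AbVar g N} {a a' b : Fin g → ℂ}

theorem dot_dl (ha : ∀ j, A.crd a j ∈ F) (u : Fin g → ℂ) : u ⬝ᵥ A.dl a δ =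
    ∑ j, w (.inl j) * u ⬝ᵥ A.dl a (D j) + ∑ j ∈ s, w (.inr j) * π * u ⬝ᵥ A.dl a (Y j) := by
  rw [AbVar.dl_congr_der fun j => h.eq _ (ha j)]
  simp [dotProduct_sum]

variable (hA : A.Over k) (hk : k ≤ F) (hP : P.IdOn k) (hD : ∀ j, P.Good k F (D j))
  (hY : ∀ j, P.Good k F (Y j)) (hπ : P.v π < 1) (ha : ∀ j, A.crd a j ∈ F)
include hA hk hP hD hY hπ ha

theorem small (h0 : ∀ j l, P.v (A.dl a (D j) l) < 1) (π0 : π ≠ 0) (πm : π ∈ F) :
    ∃ ε ∈ F, ε ≠ 0 ∧ P.v ε < 1 ∧ ∀ l, P.v (A.dl a δ l) ≤ P.v ε := by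
  let c : Option (ι × Fin g) → ℂ := fun o => o.elim π fun p => A.dl a (D p.1) p.2
  obtain ⟨o, ho⟩ := Finite.exists_max fun o => P.v (c o)
  refine ⟨c o, ?_, fun e => P.v_ne π0 (by simpa [e, c] using ho none), ?_, fun l => ?_⟩
  · rcases o with _ | p
    exacts [πm, hA.dl_mem_field (hD _).kil hk ha (fun j => (hD _).mem _ (ha j)) _]
  · rcases o with _ | p
    exacts [hπ, h0 _ _]
  · have := h.dot_dl ha (Pi.single l 1)
    simp only [single_dotProduct, one_mul] at this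
    rw [this]
    refine P.v.map_add_le (P.v.map_sum_le fun j _ => ?_) (P.v.map_sum_le fun j _ => ?_)
    · rw [map_mul]
      exact (mul_le_of_le_one_left' (h.w2 _)).trans (ho (some (j, l)))
    · rw [map_mul, map_mul]
      exact ((mul_le_of_le_one_right' (hA.ctr_dl hP (hY j).kil (hY j).ctr ha l)).trans
        (mul_le_of_le_one_left' (h.w2 _))).trans (ho none)

variable (ea : A.crd a' = i.comp (tay δ) ∘ A.crd a) (hr : A.Red Q a' b)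
include ea hr

theorem form {u : Fin g → ℂ} (hu : ∀ l, u l ∈ k) (j : ι) :
    ((∀ l, u ⬝ᵥ A.dl a (D l) = 0) → u ⬝ᵥ A.dl b (d (.inl j)) = 0) ∧
      (u ⬝ᵥ A.dl b (d (.inl j)) = 0 → u ⬝ᵥ (P.r ∘ A.dl a (D j)) = 0) := by
  have hδ := h.kil hk (fun j => (hD j).kil) fun j => (hY j).kil
  have he : e (.inl j) ∈ E.kil (k : Set ℂ) := kil_anti (hP.le_res hk) (h.e1 _)
  have h1 := h.toLeaf.form hA (hk.trans h.le) hP hδ (fun j => h.le (ha j)) ea hr he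
    (fun c l => h.e1 _ _ (Plc.r_mem_res (AbVar.aff_mem ha c l))) (h.d1 _) (u := u) fun l =>
      ⟨h.le (hk (hu l)), (hP _ (hu l)).1, (hP _ (hu l)).2, hδ _ (hu l), he _ (hu l)⟩
  have h2 : ∀ X, P.Good k F X → P.v (u ⬝ᵥ A.dl a X) ≤ 1 ∧ _ := fun X hX =>
    Plc.r_dot (fun l => (hP _ (hu l)).1) (hA.ctr_dl hP hX.kil hX.ctr ha)
  have h3 : ∀ j ∈ s, P.v (π * u ⬝ᵥ A.dl a (Y j)) < 1 := fun j _ =>
    mul_comm π _ ▸ Plc.v_mul_lt (h2 _ (hY j)).1 hπ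
  rw [h.dot_dl ha] at h1
  refine ⟨fun h4 => h1.1 ?_, fun h4 => ?_⟩
  · simp only [h4, mul_zero, Finset.sum_const_zero, zero_add]
    exact P.v.map_sum_lt one_ne_zero fun j hj => mul_assoc _ π _ ▸ Plc.v_mul_lt (h.w2 _) (h3 j hj)
  · have h5 := (h.comb (fun l => ⟨dot_mem (fun l => hk (hu l)) (hA.dl_mem_field (hD l).kil hk ha
      fun j => (hD l).mem _ (ha j)), (h2 _ (hD l)).1⟩) h3).2 j
    rwa [h1.2 h4, (h2 _ (hD j)).2, show P.r ∘ u = u from funext fun l => (hP _ (hu l)).2,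
      eq_comm] at h5

variable {μ : Type} {θ : μ → Fin g → ℂ} (hθ : ∀ j l, θ j l ∈ k) (h0 : ∀ j, A.pv θ a (D j) = 0)
include hθ h0

theorem thin (j : ι) : d (.inl j) ∈
    A.thin (acl (P.res F ∪ range fun j : s => w (.inr j) * i X) : Set ℂ) b θ :=
  ⟨h.d_kil j, funext fun m =>
    (h.form hA hk hP hD hY hπ ha ea hr (hθ m) j).1 fun l => congrFun (h0 l) m⟩

theorem pair [Fintype μ] (hF : (F : Set ℂ).Countable) (hi : LinearIndependent ℂ θ)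
    (hU : Submodule.span ℂ (range θ) ⊓
      A.du (A.perp (A.rh (range fun j => P.r ∘ A.dl a (D j)))) = ⊥) :
    A.Pair (acl (P.res F ∪ range fun j : s => w (.inr j) * i X) : Set ℂ) b θ := by
  have h1 : (k : Set ℂ) ⊆ acl (acl (P.res F ∪ range fun j : s => w (.inr j) * i X) : Set ℂ) :=
    ((hP.le_res hk).trans subset_union_left).trans ((subset_acl _).trans (subset_acl _))
  refine (hA.as_pair hA.isGen (countable_acl ((Plc.countable_res hF).union (countable_range _)))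
    h1 (fun j l => h1 (hθ j l)) hi (Δ := range fun j => d (.inl j))
    (forall_mem_range.2 (h.thin hA hk hP hD hY hπ ha ea hr hθ h0)) (fun U h2 h3 => ?_)
    (y := Empty.elim) (E := Empty.elim) nofun nofun).anti
      (subset_union_left.trans (subset_acl _))
  refine eq_bot_iff.2 (hU ▸ inf_le_inf_left _ (A.du_mono ?_))
  rw [A.le_perp_comm, AbVar.rh_le_iff h2.perp]
  rintro _ ⟨j, rfl⟩
  rw [← A.ann_du]
  intro u hu
  rw [dotProduct_comm, ← dotProduct_zero u]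
  refine AbVar.Ov.dot_eq (hA.ov_du h2) (fun n h4 h5 => ?_) hu
  rw [dotProduct_zero]
  refine (h.form hA hk hP hD hY hπ ha ea hr h5 j).2 ?_
  rw [← A.dot_pr h4, h3 _ ⟨j, rfl⟩, dotProduct_zero]

end Su

omit [DecidableEq ι] in
theorem trd_bound {g N : ℕ} {A : AbVar g N} {Q : Plc ℂ ℂ} {F : Subfield ℂ} {μ : Type} [Fintype μ]
    {S : Set ℂ} (hS : S.Finite) {W : μ → ℂ} {u : ι → ℂ} {a b : Fin g → ℂ} (hW : Q.Gauss F W)
    (h1 : ∀ j, W j ∈ acl (F ∪ S)) (h2 : ∀ j, u j ∈ acl (F ∪ S))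
    (h3 : ∀ j, A.crd a j ∈ acl (F ∪ S)) (hr : A.Red Q a b) : Fintype.card μ +
      trd (acl (Q.res F ∪ range (Q.r ∘ W)) : Set ℂ) (range (Q.r ∘ u) ∪ range (A.crd b)) ≤
        trd F S := by
  have h4 := (finite_range (Q.r ∘ u)).union (finite_range (A.crd b))
  rw [trd_acl_base h4, ← hW.2.trd_range, ← trd_union (finite_range _) h4]
  refine Plc.abh hS ((finite_range _).union h4) ?_
  rintro _ (⟨j, rfl⟩ | ⟨j, rfl⟩ | ⟨j, rfl⟩)
  exacts [Plc.r_mem_res (h1 j), Plc.r_mem_res (h2 j), hr.crd_mem h3 j]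

end Pool.Agent.P.MP_f17f76_ag.E
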