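import Pool.Agent.P.MP_f17f76_ag.E.Fam2
import Pool.Agent.P.MP_f17f76_ag.E.Aut

/-!
Families of subspaces: permanence of rigidity, hulls and cores over free fields.
-/

namespace Pool.Agent.P.MP_f17f76_ag.E

open Set Module Matrix

variable {K : Type} [Field K] {ι κ Γ : Type} {u x : ι → K}
  {N N' G F : Submodule K (ι → K)} {r r' : Setoid ι} {k k' k₁ E E' : Subfield K}

theorem acl_eq_self (k : Subfield K) [IsAlgClosed k] : acl (k : Set K) = k := by
  refine le_antisymm (fun x hx => ?_) (subset_acl _)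
  obtain ⟨y, rfl⟩ := minpoly.mem_range_of_degree_eq_one k x
    (IsAlgClosed.degree_eq_one_of_irreducible k
      (minpoly.irreducible (mem_acl_subfield.1 hx).isIntegral))
  exact y.2

theorem Free.base {F S T F' : Set K} (h : Free F S T) (h1 : F ⊆ acl F') (h2 : F' ⊆ acl (F ∪ T)) :
    Free F' S T := fun s hs hf => le_antisymm
  (trd_anti hf (subset_union_left.trans (subset_acl _)))
  ((trd_anti hf h1).trans ((h s hs hf).ge.trans (trd_anti hf
    (union_subset h2 (subset_union_right.trans (subset_acl _))))))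

/-- Freeness in a tower. -/
theorem Free.tower (h : Free (k : Set K) k₁ E) (hk : k ≤ k₁) {T : Set K}
    (h' : Free (k₁ : Set K) T E) : Free (k : Set K) T E := by
  have h1 : Free ((k : Set K) ∪ k₁) E T := by
    rw [union_eq_right.2 hk]
    exact h'.symm
  exact ((h.symm.trans h1).mono subset_rfl
    ((subset_union_right.trans subset_union_right).trans (subset_acl _))).symm

/-! ### restriction to a set of coordinates -/

section rst

variable {e : κ → ι} {y : κ → K}

theorem mem_rst : y ∈ rst e N ↔ Function.extend e y 0 ∈ N := Iff.rfl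

theorem extend_mem_supp (e : κ → ι) (y : κ → K) :
    Function.extend e y 0 ∈ supp K (· ∈ range e) := fun _ hi => Function.extend_apply' _ _ _ hi

theorem extend_comp (he : Function.Injective e) (h : u ∈ supp K (· ∈ range e)) :
    Function.extend e (u ∘ e) 0 = u := funext fun i => by
  by_cases hi : i ∈ range e
  · obtain ⟨j, rfl⟩ := hi
    exact he.extend_apply _ _ j
  · exact (extend_mem_supp e _ i hi).trans (h i hi).symm

theorem comp_mem_rst (he : Function.Injective e) (hu : u ∈ N) (h : u ∈ supp K (· ∈ range e)) :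
    u ∘ e ∈ rst e N := by rwa [mem_rst, extend_comp he h]

theorem extend_dot [Fintype ι] [Fintype κ] (he : Function.Injective e) (y : κ → K) (z : ι → K) :
    Function.extend e y 0 ⬝ᵥ z = y ⬝ᵥ (z ∘ e) :=
  (Fintype.sum_of_injective e he _ _ (fun i hi => by rw [extend_mem_supp e y i hi, zero_mul])
    fun j => by rw [he.extend_apply]; rfl).symm

theorem extend_cut (he : Function.Injective e) (p : ι → Prop) (y : κ → K) :
    Function.extend e (cut (fun j => p (e j)) y) 0 = cut p (Function.extend e y 0) :=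
  funext fun i => by
    by_cases hi : i ∈ range e
    · obtain ⟨j, rfl⟩ := hi
      simp only [he.extend_apply, cut_apply]
    · rw [extend_mem_supp e _ i hi, cut_supp p (extend_mem_supp e y) i hi]

theorem rst_inf (e : κ → ι) (N N' : Submodule K (ι → K)) :
    rst e (N ⊓ N') = rst e N ⊓ rst e N' := rfl

theorem rst_mono (e : κ → ι) (h : N ≤ N') : rst e N ≤ rst e N' := Submodule.comap_mono h

theorem rst_supp (he : Function.Injective e) (p : ι → Prop) :
    rst e (supp K p) = supp K fun j => p (e j) := by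
  ext y
  refine ⟨fun h j hj => (he.extend_apply y 0 j).symm.trans (h _ hj), fun h => ?_⟩
  rw [mem_rst, ← cut_eq_self, ← extend_cut he, cut_eq_self.2 h]

theorem Ov.rst [Finite κ] (h : Ov k N) (he : Function.Injective e) : Ov k (rst e N) :=
  ov_of_stable fun φ hφ y hy => by
    have := h.stable φ hφ hy
    refine (congrArg (· ∈ N) (funext fun i => ?_)).mp this
    by_cases hi : i ∈ range e
    · obtain ⟨j, rfl⟩ := hi
      exact (congrArg φ (he.extend_apply y 0 j)).trans (he.extend_apply (fun i => φ (y i)) 0 j).symm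
    · exact ((congrArg φ (extend_mem_supp e y i hi)).trans (map_zero φ)).trans
        (extend_mem_supp e (fun i => φ (y i)) i hi).symm

theorem Graded.rst (h : Graded r N) (he : Function.Injective e) :
    Graded (r.comap e) (rst e N) := fun j y hy => by
  have := h (e j) _ hy
  exact (congrArg (· ∈ N) (extend_cut he (fun i => r i (e j)) y)).mpr this

theorem finrank_rst (he : Function.Injective e) :
    finrank K (rst e N) = finrank K (N ⊓ supp K (· ∈ range e) : Submodule K _) := by
  have hi : Function.Injective (Function.ExtendByZero.linearMap K e) :=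
    Function.extend_injective he _
  rw [(Submodule.equivMapOfInjective _ hi (rst e N)).finrank_eq]
  refine congrArg (fun W : Submodule K (ι → K) => finrank K W) (le_antisymm ?_ fun u hu => ?_)
  · rintro _ ⟨y, hy, rfl⟩
    exact ⟨hy, extend_mem_supp e y⟩
  · exact ⟨_, comp_mem_rst he hu.1 hu.2, extend_comp he hu.2⟩

theorem cj_rst (σ : K ≃+* K) (he : Function.Injective e) (N : Submodule K (ι → K)) :
    cj σ (rst e N) = rst e (cj σ N) := by
  ext y
  rw [mem_cj, mem_rst, mem_rst, mem_cj]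
  refine (congrArg (· ∈ N) (funext fun i => ?_)).to_iff
  by_cases hi : i ∈ range e
  · obtain ⟨j, rfl⟩ := hi
    simp only [he.extend_apply]
  · rw [extend_mem_supp e _ i hi, extend_mem_supp e _ i hi, map_zero]

theorem Mx.rst {G : Submodule K (κ → K)}
    (h : Mx N (G.map (Function.ExtendByZero.linearMap K e)) F) : Mx (rst e N) G (rst e F) := by
  refine ⟨fun y hy => h.1 ⟨hy.1, y, hy.2, rfl⟩, fun y hy => ?_⟩
  obtain ⟨a, ha, _, ⟨⟨b, hb, rfl⟩, hb'⟩, h1⟩ := Submodule.mem_sup.1 (h.2 hy)
  have h2 : Function.ExtendByZero.linearMap K e (y - b) = a := by rw [map_sub, ← h1, add_sub_cancel_right]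
  rw [← sub_add_cancel y b]
  exact Submodule.add_mem_sup (show _ ∈ N ⊓ F from h2 ▸ ha) ⟨hb, hb'⟩

open Classical in
/-- The extension of a matrix by the identity. -/
noncomputable def extM (e : κ → ι) (g : Matrix κ κ K) : Matrix ι ι K := Matrix.of fun i =>
  Function.extend e (fun a => Function.extend e (g a) 0) (fun i => Pi.single i 1) i

variable [Fintype ι] [Fintype κ]

theorem vecMul_extM (he : Function.Injective e) (g : Matrix κ κ K) (u : ι → K) :
    u ᵥ* extM e g = Function.extend e ((u ∘ e) ᵥ* g) 0 + cut (· ∉ range e) u := by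
  classical
  have h1 : Function.extend e (u ∘ e) 0 ᵥ* extM e g = Function.extend e ((u ∘ e) ᵥ* g) 0 := by
    funext j
    rw [vecMul, extend_dot he]
    simp only [extM, Function.comp_def, of_apply, he.extend_apply]
    by_cases hj : j ∈ range e
    · obtain ⟨b, rfl⟩ := hj
      simp only [he.extend_apply]
      rfl
    · simp only [extend_mem_supp e _ j hj]
      exact dotProduct_zero _
  have h2 : cut (· ∉ range e) u ᵥ* extM e g = cut (· ∉ range e) u := by
    conv_rhs => rw [← vecMul_one (cut (· ∉ range e) u)]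
    funext j
    refine Finset.sum_congr rfl fun i _ => ?_
    by_cases hi : i ∈ range e
    · rw [cut_neg (p := (· ∉ range e)) (not_not.2 hi), zero_mul, zero_mul]
    · simp only [extM, of_apply, Function.extend_apply' _ _ _ hi, one_apply, Pi.single_apply,
        eq_comm]
  have h3 : Function.extend e (u ∘ e) 0 = cut (· ∈ range e) u := by
    rw [← extend_comp he (cut_mem_supp _ u)]
    exact congrArg (Function.extend e · 0) (funext fun j =>
      (cut_pos (p := (· ∈ range e)) (mem_range_self j)).symm)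
  conv_lhs => rw [← cut_add_cut (· ∈ range e) u, add_vecMul, h2, ← h3, h1]

theorem extend_vecMul_extM (he : Function.Injective e) (g : Matrix κ κ K) (y : κ → K) :
    Function.extend e y 0 ᵥ* extM e g = Function.extend e (y ᵥ* g) 0 := by
  rw [vecMul_extM he, Function.extend_comp he, cut_eq_zero.2 (extend_mem_supp e y), add_zero]

variable [DecidableEq ι] [DecidableEq κ] {g : Matrix κ κ K}

theorem GrM.extM (he : Function.Injective e) (h : GrM k (r.comap e) g) : GrM k r (extM e g) := by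
  classical
  refine ⟨fun h0 => ?_, fun i j => ?_, fun i j h0 => ?_⟩
  · obtain ⟨u, hu, h1⟩ := exists_vecMul_eq_zero_iff.2 h0
    rw [vecMul_extM he] at h1
    have h2 : u ∘ e = 0 := vecMul_inj h.det (funext fun j => by
      have := congrFun h1 (e j)
      rw [Pi.add_apply, he.extend_apply,
        cut_neg (p := (· ∉ range e)) (not_not.2 (mem_range_self j)), add_zero] at this
      simpa using this)
    refine hu (funext fun i => ?_)
    by_cases hi : i ∈ range e
    · obtain ⟨j, rfl⟩ := hi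
      exact congrFun h2 j
    · have := congrFun h1 i
      rwa [Pi.add_apply, extend_mem_supp e _ i hi, zero_add, cut_pos (p := (· ∉ range e)) hi] at this
  all_goals by_cases hi : i ∈ range e
  · obtain ⟨a, rfl⟩ := hi
    simp only [E.extM, of_apply, he.extend_apply]
    by_cases hj : j ∈ range e
    · obtain ⟨b, rfl⟩ := hj
      rw [he.extend_apply]
      exact h.mem a b
    · rw [extend_mem_supp e _ j hj]
      exact k.zero_mem
  · simp only [E.extM, of_apply, Function.extend_apply' _ _ _ hi, Pi.single_apply]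
    split_ifs
    exacts [k.one_mem, k.zero_mem]
  · obtain ⟨a, rfl⟩ := hi
    simp only [E.extM, of_apply, he.extend_apply] at h0
    obtain ⟨b, rfl⟩ : j ∈ range e := not_not.1 fun hj => h0 (extend_mem_supp e _ j hj)
    rw [he.extend_apply] at h0
    exact h.gr a b h0
  · simp only [E.extM, of_apply, Function.extend_apply' _ _ _ hi, Pi.single_apply] at h0
    rw [show j = i from not_not.1 fun e => h0 (if_neg e)]

theorem rst_act_extM (he : Function.Injective e) (h : g.det ≠ 0) (N : Submodule K (ι → K)) :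
    rst e (act (extM e g) N) = act g (rst e N) := by
  have h1 : (extM e g).det ≠ 0 :=
    (GrM.extM (k := ⊤) (r := ⊤) he ⟨h, fun _ _ => trivial, fun _ _ _ => trivial⟩).det
  ext y
  rw [mem_act_iff h, mem_rst, mem_rst, mem_act_iff h1, ← inv_vecMul_cancel h y,
    ← extend_vecMul_extM he, vecMul_inv_cancel h1, vecMul_inv_cancel h]

omit [DecidableEq ι] [DecidableEq κ] [Fintype ι] in
theorem rst_ini [LinearOrder Γ] (he : Function.Injective e) {m : ι → Γ}
    (hm : ∀ j i, i ∉ range e → m (e j) < m i) (N : Submodule K (ι → K)) :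
    rst e (ini m N) = ini (m ∘ e) (rst e N) := by
  refine le_antisymm (fun y hy => mem_of_cut (m := m ∘ e) fun j => ?_) (ini_le.2 fun μ y hy hs => ?_)
  · obtain ⟨u, h1, h2, h3⟩ := exists_of_mem_ini hy (m (e j))
    have h4 : u ∈ supp K (· ∈ range e) := fun i hi => h2 i (hm j i hi).not_ge
    have h5 := cut_mem_ini (m := m ∘ e) (μ := m (e j)) (comp_mem_rst he h1 h4) fun a ha => h2 _ ha
    refine (congrArg (· ∈ _) (Function.extend_injective he 0 ?_)).mp h5
    exact (extend_cut he (fun i => m i = m (e j)) _).trans ((congrArg _ (extend_comp he h4)).trans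
      (h3.trans (extend_cut he (fun i => m i = m (e j)) _).symm))
  · exact (congrArg (· ∈ _) (extend_cut he (fun i => m i = μ) y)).mpr
      (cut_mem_ini hy (show y ∈ rst e (supp K fun i => m i ≤ μ) by rwa [rst_supp he]))

end rst

/-! ### permanence -/

variable [Fintype ι] [DecidableEq ι] {g : Matrix ι ι K}

theorem Rigid.exists (h : Rigid k E r N) {F₁ : Subfield K} (hk : k ≤ F₁)
    (hf : Free (k : Set K) F₁ E) (hG : Ov F₁ G) : ∃ F, Ov k F ∧ Mx N G F := by
  obtain ⟨F, h1, -, h2⟩ := h k F₁ le_rfl hk hf 1 (GrM.one k r) Unit (fun _ => ()) G hG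
  rw [act_one, ini_eq_self ((graded_top N).mono fun _ _ _ => rfl)] at h2
  exact ⟨F, h1, h2⟩

theorem Fam.swap (h : Fam k E r N) {F₁ : Subfield K} (hk : k ≤ F₁) (hf : Free (k : Set K) F₁ E)
    (hG : Ov F₁ G) {σ : K ≃+* K} (hσ : ∀ x ∈ k, σ x = x) :
    finrank K (N ⊓ G : Submodule K _) ≤ finrank K (cj σ N ⊓ G : Submodule K _) := by
  obtain ⟨F, h1, h2⟩ := h.rig.exists hk hf hG
  have h3 := h2.finrank
  have h4 := finrank_inf_le (cj σ N) G F
  rw [← finrank_cj σ (N ⊓ F), cj_inf, h1.cj_eq hσ] at h3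
  omega

theorem Fam.swap_bot (h : Fam k E r N) {F₁ : Subfield K} (hk : k ≤ F₁)
    (hf : Free (k : Set K) F₁ E) (hG : Ov F₁ G) {σ : K ≃+* K} (hσ : ∀ x ∈ k, σ x = x)
    (h0 : cj σ N ⊓ G = ⊥) : N ⊓ G = ⊥ := by
  have := h.swap hk hf hG hσ
  rwa [h0, finrank_bot, Nat.le_zero, Submodule.finrank_eq_zero] at this

theorem Rigid.ini [LinearOrder Γ] (h : Rigid k E r N) (hk : k ≤ k₁) (hf : Free (k : Set K) k₁ E)
    (hg : GrM k₁ r g) (m : ι → Γ) (hE : E ≤ E') :
    Rigid k₁ E' (r ⊓ Setoid.ker m) (ini m (act g N)) := by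
  intro k₂ F₂ h1 h2 h3 g' hg' Γ' _ m' G hG
  obtain ⟨F, h4, h5, h6⟩ := h k₂ F₂ (hk.trans h1) h2 (hf.tower hk (h3.mono subset_rfl
    (Subset.trans hE (subset_union_right.trans (subset_acl _))))) (g * g')
    ((hg.mono h1 le_rfl).mul (hg'.mono le_rfl inf_le_left)) _ (fun i => toLex (m i, m' i)) G hG
  refine ⟨F, h4, h5.and (graded_top F) |>.mono (fun _ _ e => ?_) |> fun h => h, ?_⟩
  · have := Prod.ext_iff.1 (toLex.injective e.1.2)
    exact ⟨⟨e.1.1, this.1⟩, this.2⟩
  · rwa [← ini_act (hg'.mono le_rfl inf_le_right), ini_ini, act_act,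
      ini_congr (m' := fun i => toLex (m i, m' i)) fun _ _ => Iff.rfl]

theorem Fam.ini [IsAlgClosed K] [LinearOrder Γ] (h : Fam k E r N) (hk : k ≤ k₁) [IsAlgClosed k₁]
    (hf : Free (k : Set K) k₁ E) (hg : GrM k₁ r g) (m : ι → Γ) :
    Fam k₁ (acl (k₁ ∪ E)) (r ⊓ Setoid.ker m) (ini m (act g N)) :=
  have h1 : k₁ ≤ acl (k₁ ∪ E : Set K) := subset_union_left.trans (subset_acl _)
  have h2 : E ≤ acl (k₁ ∪ E : Set K) := subset_union_right.trans (subset_acl _)
  ⟨h1, inferInstance, inferInstance, ((h.ov.mono h2).act fun i j => h1 (hg.mem i j)).ini m,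
    (h.gr.act hg).ini m, h.rig.ini hk hf hg m h2⟩

theorem free_self (k E : Subfield K) : Free (k : Set K) k E := fun s hs hf => by
  rw [(trd_eq_zero_iff hf).2 (hs.trans (subset_acl _)),
    (trd_eq_zero_iff hf).2 (hs.trans (subset_union_left.trans (subset_acl _)))]

theorem Fam.act (h : Fam k E r N) (hg : GrM k r g) : Fam k E r (act g N) :=
  ⟨h.le, h.ck, h.cE, h.ov.act fun i j => h.le (hg.mem i j), h.gr.act hg,
    fun k₁ F₁ h1 h2 h3 g' hg' Γ _ m G hG => by
      rw [act_act]
      exact h.rig k₁ F₁ h1 h2 h3 _ ((hg.mono h1 le_rfl).mul hg') Γ m G hG⟩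

theorem Fam.refine (h : Fam k E r N) (hr : r' ≤ r) (hN : Graded r' N) : Fam k E r' N := by
  classical
  let m : ι → Fin (Fintype.card (Quotient r')) := fun i => Fintype.equivFin _ (Quotient.mk r' i)
  have e : Setoid.ker m = r' := Setoid.ext fun i j =>
    (Fintype.equivFin _).apply_eq_iff_eq.trans Quotient.eq
  have := h.rig.ini le_rfl (free_self k E) (GrM.one k r) m le_rfl
  rw [act_one, ini_eq_self (by rwa [e]), e, inf_eq_right.2 hr] at this
  exact ⟨h.le, h.ck, h.cE, h.ov, hN, this⟩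

theorem Fam.mono (h : Fam k E r N) (hE : E ≤ E') [IsAlgClosed E'] : Fam k E' r N :=
  ⟨h.le.trans hE, h.ck, inferInstance, h.ov.mono hE, h.gr, fun k₁ F₁ h1 h2 h3 =>
    h.rig k₁ F₁ h1 h2 (h3.mono subset_rfl (Subset.trans hE (subset_union_right.trans (subset_acl _))))⟩

/-- Extension of the base field. -/
theorem Fam.base [IsAlgClosed K] (h : Fam k E r N) (hk : k ≤ k₁) [IsAlgClosed k₁]
    (hf : Free (k : Set K) k₁ E) : Fam k₁ (acl (k₁ ∪ E)) r N := by
  have := h.ini hk hf (GrM.one k₁ r) fun _ => ()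
  rwa [act_one, ini_eq_self ((graded_top N).mono fun _ _ _ => rfl),
    inf_eq_left.2 fun _ _ _ => rfl] at this

theorem Fam.rst [Fintype κ] [DecidableEq κ] (h : Fam k E r N) {e : κ → ι}
    (he : Function.Injective e) : Fam k E (r.comap e) (rst e N) := by
  refine ⟨h.le, h.ck, h.cE, h.ov.rst he, h.gr.rst he, fun k₁ F₁ h1 h2 h3 g hg Γ _ m G hG => ?_⟩
  let m' : ι → WithTop Γ := Function.extend e (fun j => m j) ⊤
  have hm : ∀ j, m' (e j) = m j := he.extend_apply _ _
  have hG' : Ov F₁ (G.map (Function.ExtendByZero.linearMap K e)) := by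
    rw [← hG.span_eq, Submodule.map_span]
    refine ov_span ?_
    rintro _ ⟨y, hy, rfl⟩ i
    by_cases hi : i ∈ range e
    · obtain ⟨j, rfl⟩ := hi
      exact (congrArg (· ∈ F₁) (he.extend_apply y 0 j)).mpr (hy.2 j)
    · exact (congrArg (· ∈ F₁) (extend_mem_supp e y i hi)).mpr F₁.zero_mem
  obtain ⟨F, h4, h5, h6⟩ := h.rig k₁ F₁ h1 h2 h3 _ (hg.extM he) _ m' _ hG'
  refine ⟨_, h4.rst he, (h5.rst he).mono fun a b hab => And.intro hab.1 ?_, ?_⟩
  · exact WithTop.coe_injective ((hm a).symm.trans (hab.2.trans (hm b)))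
  · have := h6.rst
    rwa [rst_ini he fun j i hi => by
      rw [hm, show m' i = ⊤ from Function.extend_apply' _ _ _ hi]; exact WithTop.coe_lt_top _,
      rst_act_extM he hg.det, ini_congr (m' := m) fun a b => by
        simp only [Function.comp_apply, hm, WithTop.coe_le_coe]] at this

theorem isAlgClosed_map (σ : K ≃+* K) (k : Subfield K) [IsAlgClosed k] :
    IsAlgClosed (k.map (σ : K →+* K)) :=
  IsAlgClosed.of_ringEquiv k _ (k.toSubring.equivMapOfInjective (σ : K →+* K) σ.injective)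

theorem Fam.cj' (h : Fam k E r N) (σ : K ≃+* K) :
    Fam (k.map (σ : K →+* K)) (E.map (σ : K →+* K)) r (cj σ N) := by
  have := h.ck
  have := h.cE
  refine ⟨fun _ ⟨x, hx, e⟩ => ⟨x, h.le hx, e⟩, isAlgClosed_map σ k, isAlgClosed_map σ E,
    h.ov.cj fun x hx => ⟨x, hx, rfl⟩, h.gr.cj σ, fun k₁ F₁ h1 h2 h3 g hg Γ _ m G hG => ?_⟩
  have e : ∀ S : Subfield K, (σ : K →+* K) '' (S.comap (σ : K →+* K) : Set K) = S := fun S =>
    image_preimage_eq _ σ.surjective
  obtain ⟨F, h4, h5, h6⟩ := h.rig (k₁.comap (σ : K →+* K)) (F₁.comap (σ : K →+* K))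
    (fun x hx => h1 ⟨x, hx, rfl⟩) (fun x hx => h2 hx) ((free_map (σ : K →+* K)).1 (by rwa [e]))
    (g.map σ.symm) (hg.map fun x hx => by simpa using hx) Γ m (cj σ.symm G)
    (hG.cj fun x hx => by simpa using hx)
  refine ⟨cj σ F, h4.cj fun x hx => hx, h5.cj σ, ?_⟩
  have := h6.cj σ
  rwa [cj_ini, cj_act, cj_cj_symm, Matrix.map_map, show g.map (σ ∘ σ.symm) = g by ext; simp] at this

theorem Fam.cj (h : Fam k E r N) {σ : K ≃+* K} (hσ : ∀ x ∈ k, σ x = x) :
    Fam k (E.map (σ : K →+* K)) r (cj σ N) := by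
  have := h.cj' σ
  rwa [show k.map (σ : K →+* K) = k from le_antisymm (by
    rintro _ ⟨x, hx, rfl⟩
    exact (hσ x hx).symm ▸ hx) fun x hx => ⟨x, hx, hσ x hx⟩] at this

/-- A graded subspace over `k` is a coordinate subspace in a graded basis over `k`. -/
theorem exists_supp' [LinearOrder Γ] (hF : Ov k F) (hr : Graded r F) (m : ι → Γ) :
    ∃ (g : Matrix ι ι K) (I : Set ι), GrM k r g ∧ act g (supp K (· ∈ I)) = F ∧
      (∀ u ∈ supp K (· ∉ I), u ᵥ* g = u) ∧
      ∀ i ∈ I, ∃ y ∈ F, y i ≠ 0 ∧ ∀ j, m i < m j → y j = 0 := by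
  classical
  obtain ⟨n, pv, h1, h2, h3⟩ := exists_adapt (Fintype.card_fin _) hF hr (GrM.one k r) m
  simp only [vecMul_one] at h3
  have hp : Function.Injective pv := fun l l' e => not_not.1 fun h => by
    simpa [h, h3] using congrArg (n l) e
  let g : Matrix ι ι K := Matrix.of (Function.extend pv n fun i => Pi.single i 1)
  have g1 : ∀ l, g (pv l) = n l := fun l => hp.extend_apply n (fun i => Pi.single i 1) l
  have g2 : ∀ i ∉ range pv, g i = Pi.single i 1 := fun i hi =>
    Function.extend_apply' n (fun i => Pi.single i (1 : K)) i hi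
  have g3 : ∀ u ∈ supp K (· ∉ range pv), u ᵥ* g = u := fun u hu => by
    conv_rhs => rw [← vecMul_one u]
    refine funext fun j => Finset.sum_congr rfl fun i _ => ?_
    by_cases hi : i ∈ range pv
    · rw [hu i (not_not.2 hi), zero_mul, zero_mul]
    · simp only [g2 i hi, one_apply, Pi.single_apply, eq_comm]
  have g4 : ∀ u ∈ supp K (· ∈ range pv), u ᵥ* g = ∑ l, u (pv l) • n l := fun u hu => by
    funext j
    rw [← extend_comp hp hu, vecMul, extend_dot hp, Finset.sum_apply]
    simp only [dotProduct, Function.comp_apply, g1, hp.extend_apply, Pi.smul_apply, smul_eq_mul]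
  refine ⟨g, range pv, ⟨fun h0 => ?_, fun i j => ?_, fun i j h0 => ?_⟩, le_antisymm
    (act_le_iff.2 fun u hu => g4 u hu ▸ sum_mem fun l _ => F.smul_mem _ (h1.mem l)) fun u hu => ?_,
    g3, ?_⟩
  · obtain ⟨u, hu, h4⟩ := exists_vecMul_eq_zero_iff.2 h0
    rw [← cut_add_cut (· ∈ range pv) u, add_vecMul, g3 _ (cut_mem_supp _ _),
      g4 _ (cut_mem_supp _ _)] at h4
    have h5 : ∀ l, u (pv l) = 0 := fun l => by
      have := congrFun h4 (pv l)
      rw [Pi.add_apply, cut_neg (p := (· ∉ range pv)) (not_not.2 (mem_range_self l))] at this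
      simpa [h3, cut_apply] using this
    refine hu (funext fun i => ?_)
    by_cases hi : i ∈ range pv
    · obtain ⟨l, rfl⟩ := hi
      exact h5 l
    · simpa [h5, cut_apply, show ∀ l, pv l ≠ i from fun l e => hi ⟨l, e⟩] using congrFun h4 i
  · by_cases hi : i ∈ range pv
    · obtain ⟨l, rfl⟩ := hi
      exact g1 l ▸ h2 l j
    · rw [g2 i hi, Pi.single_apply]
      split_ifs
      exacts [k.one_mem, k.zero_mem]
  · by_cases hi : i ∈ range pv
    · obtain ⟨l, rfl⟩ := hi
      exact h1.hom l _ _ (by simp [h3]) (g1 l ▸ h0)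
    · rw [g2 i hi] at h0
      rw [show j = i from not_not.1 fun e => h0 (Pi.single_eq_of_ne e _)]
  · obtain ⟨c, rfl⟩ := h1.exists_coef hu
    refine ⟨_, extend_mem_supp pv c, (g4 _ (extend_mem_supp pv c)).trans ?_⟩
    simp only [hp.extend_apply]
  · rintro _ ⟨l, rfl⟩
    exact ⟨n l, h1.mem l, by simp [h3], fun j hj => by simpa using h1.low l j hj⟩

theorem exists_supp (hF : Ov k F) (hr : Graded r F) :
    ∃ (g : Matrix ι ι K) (I : Set ι), GrM k r g ∧ act g F = supp K (· ∈ I) := by
  obtain ⟨g, I, h1, h2, -⟩ := exists_supp' hF hr fun _ => ()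
  exact ⟨g⁻¹, I, h1.inv, by rw [← h2, act_inv_act h1.det]⟩

omit [Fintype ι] [DecidableEq ι]

variable [CharZero K] [IsAlgClosed k]

/-- A `k`-linear map on `k'` extends to an `E`-linear map. -/
theorem Free.exists_lin (hf : Free (k : Set K) k' E) (φ : K →+ K)
    (hφ : ∀ c, ∀ a ∈ k, φ (c * a) = φ c * a) :
    ∃ ψ : K →+ K, (∀ c, ∀ a ∈ E, ψ (c * a) = ψ c * a) ∧ ∀ a ∈ k', ψ a = φ a := by
  obtain ⟨b, h1, h2, h3⟩ := exists_linearIndependent k (k' : Set K)
  have h4 := hf.symm.linInd (b := ((↑) : b → K))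
    (fun i => subset_acl _ (Or.inr (h1 i.2))) (by rwa [acl_eq_self])
  obtain ⟨ψ, hψ⟩ := LinearMap.exists_extend
    (Finsupp.linearCombination (acl ((k : Set K) ∪ E)) (fun i : b => φ i) ∘ₗ h4.repr)
  have h5 : ∀ c, ∀ a ∈ (k : Set K) ∪ E, ψ (c * a) = ψ c * a := fun c a ha => by
    rw [mul_comm, mul_comm (ψ c)]
    exact ψ.map_smul (⟨a, subset_acl _ ha⟩ : acl ((k : Set K) ∪ E)) c
  refine ⟨ψ.toAddMonoidHom, fun c a ha => h5 c a (Or.inr ha), fun a ha => ?_⟩
  have h6 : a ∈ Submodule.span k b := h2 ▸ Submodule.subset_span ha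
  refine Submodule.span_induction (p := fun a _ => ψ a = φ a) (fun y hy => ?_) (by simp)
    (fun y z _ _ hy hz => by rw [map_add, map_add, hy, hz]) (fun c y _ hy => ?_) h6
  · have := LinearMap.congr_fun hψ ⟨y, Submodule.subset_span ⟨⟨y, hy⟩, rfl⟩⟩
    rwa [LinearMap.comp_apply, LinearMap.comp_apply, h4.repr_eq_single ⟨y, hy⟩ _ rfl,
      Finsupp.linearCombination_single, one_smul] at this
  · change ψ (c * y) = φ (c * y)
    rw [mul_comm, h5 _ _ (Or.inl c.2), hφ _ _ c.2, hy]

theorem core_free [Finite ι] (hN : Ov E N) (hk : k ≤ k') (hf : Free (k : Set K) k' E) :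
    core k' N = core k N := by
  have := Fintype.ofFinite ι
  refine le_antisymm (Submodule.span_le.2 fun x hx => ov_core.mem_of_forms fun a ha h0 => ?_)
    (le_core (ov_core.mono hk) core_le)
  by_contra hc
  obtain ⟨π, h1, h2, h3⟩ := exists_proj k
  let φ : K →+ K := π.comp (AddMonoidHom.mulLeft (a ⬝ᵥ x)⁻¹)
  have hφ : ∀ c, ∀ a ∈ k, φ (c * a) = φ c * a := fun c a ha => by
    simp only [φ, AddMonoidHom.comp_apply, AddMonoidHom.coe_mulLeft, ← mul_assoc, h1 _ _ ha]
  obtain ⟨ψ, h4, h5⟩ := hf.exists_lin φ hφ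
  have h6 := hN.stable ψ h4 hx.1
  simp only [h5 _ (hx.2 _)] at h6
  have h7 := h0 _ (Submodule.subset_span ⟨h6, fun i => h3 _⟩)
  have h8 : φ (a ⬝ᵥ x) = a ⬝ᵥ fun i => φ (x i) := by
    simp only [dotProduct, map_sum]
    exact Finset.sum_congr rfl fun i _ => by rw [mul_comm, hφ _ _ (ha i), mul_comm]
  rw [← h8] at h7
  simp [φ, inv_mul_cancel₀ hc, h2] at h7

theorem hull_free [Finite ι] (hN : Ov E N) (hk : k ≤ k') (hf : Free (k : Set K) k' E) :
    hull k' N = hull k N := by
  have := Fintype.ofFinite ι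
  rw [← ann_ann (hull k' N), ann_hull, core_free hN.ann hk hf, ← ann_hull, ann_ann]

end Pool.Agent.P.MP_f17f76_ag.E
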