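import Pool.Agent.P.MP_f17f76_ag.E.TOb
import Pool.Agent.P.MP_f17f76_ag.E.Tch

/-!
Basic facts on surjectivity, frames and states.
-/

namespace Pool.Agent.P.MP_f17f76_ag.Hgc

open Set Module Matrix E AbVar

variable {g N : ℕ} {ι κ L : Type} {A : AbVar g N} {F F' T : Set ℂ} {k : Subfield ℂ}
  {R R' : Submodule ℂ (ι → ℂ)} {u z : ι → ℂ} {a a' b : Fin g → ℂ} {θ : κ → Fin g → ℂ}
  {P : Plc ℂ ℂ} {σ : ℂ ≃+* ℂ}

theorem Cac.acl_le (h : Cac k) (hF : F ⊆ k) : E.acl F ≤ k := (acl_mono hF).trans_eq h.acl_eq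

theorem Cac.map (h : Cac k) (σ : ℂ ≃+* ℂ) : Cac (k.map (σ : ℂ →+* ℂ)) :=
  have := h.alg
  ⟨h.cnt.image _, isAlgClosed_map σ k⟩

theorem Cac.of_image (h : Cac k) {k' : Subfield ℂ} (e : (k' : Set ℂ) = σ '' k) : Cac k' :=
  (SetLike.coe_injective e : k' = k.map (σ : ℂ →+* ℂ)) ▸ h.map σ

theorem mem_pt_left (j : ι) : z j ∈ pt A z a := Or.inl ⟨j, rfl⟩

theorem mem_pt_right (j : Fin N) : A.crd a j ∈ pt A z a := Or.inr ⟨j, rfl⟩

theorem pt_map {φ : ℂ → ℂ} (ha : A.crd a' = φ ∘ A.crd a) : pt A (φ ∘ z) a' = φ '' pt A z a := by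
  rw [pt, pt, ha, range_comp, range_comp, image_union]

theorem image_fix {φ : ℂ → ℂ} (h : ∀ x ∈ F, φ x = x) : φ '' F = F :=
  (image_congr h).trans (image_id' F)

variable [Fintype ι]

theorem sub_mem_ann {v w : ι → ℂ} : v - w ∈ ann R ↔ ∀ n ∈ R, n ⬝ᵥ v = n ⬝ᵥ w :=
  forall₂_congr fun n _ => by rw [dotProduct_comm, dotProduct_sub, sub_eq_zero]

theorem sur_iff : Sur A R F u a θ ↔
    ∀ v c, ∃ D ∈ kil F, (∀ n ∈ R, n ⬝ᵥ dv u D = n ⬝ᵥ v) ∧ A.pv θ a D = c := by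
  simp only [Sur, sub_mem_ann]

theorem Sur.anti (h : Sur A R F' u a θ) (hF : F ⊆ acl F') : Sur A R F u a θ := fun v c =>
  (h v c).imp fun _ h => ⟨kil_le hF h.1, h.2⟩

theorem Sur.free (h : Sur A R F u a θ) (hT : Free F (pt A u a) T) : Sur A R (F ∪ T) u a θ := by
  intro v c
  obtain ⟨D, h1, h2, h3⟩ := h v c
  obtain ⟨D', h4, h5⟩ := hT.exists_der_ext h1
  refine ⟨D', h4, ?_, (pv_congr_der fun j => h5 _ (subset_acl _ (Or.inr (mem_pt_right j)))).trans h3⟩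
  rwa [show dv u D' = dv u D from funext fun j => h5 _ (subset_acl _ (Or.inr (mem_pt_left j)))]

theorem Sur.congr (h : Sur A R F u a θ) (hA : A.Over k) (hk : (k : Set ℂ) ⊆ acl F)
    (e : A.crd a = A.crd a') : Sur A R F u a' θ := fun v c =>
  (h v c).imp fun _ h => ⟨h.1, h.2.1, (hA.pv_congr (kil_le hk h.1) e).symm.trans h.2.2⟩

theorem Sur.map (h : Sur A R F u a θ) (hA : A.Over k) (hk : (k : Set ℂ) ⊆ acl F)
    (hσ : ∀ x ∈ k, σ x = x) (ha : A.crd a' = σ ∘ A.crd a) :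
    Sur A (cj σ R) (σ '' F) (σ ∘ u) a' fun j => σ ∘ θ j := by
  intro v c
  obtain ⟨D, h1, h2, h3⟩ := h (σ.symm ∘ v) (σ.symm ∘ c)
  refine ⟨cjD σ D, cjD_kil σ h1, ?_, ?_⟩
  · rw [← cj_ann, dv_cjD, mem_cj]
    convert h2 using 1
    funext i
    simp
  · rw [hA.pv_cjD (kil_le hk h1) hσ ha, h3]
    funext j
    simp

theorem Sur.pair (h : Sur A R F u a θ) : A.Pair F a θ := fun c =>
  (h 0 c).imp fun _ h => ⟨h.1, h.2.2⟩

theorem mem_ann_act [Fintype L] {M : Matrix ι L ℂ} {y : L → ℂ} :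
    y ∈ ann (act M R) ↔ M *ᵥ y ∈ ann R := by
  simp only [mem_ann, mem_act, forall_exists_index, and_imp, forall_apply_eq_imp_iff₂]
  exact forall₂_congr fun n _ => by
    rw [dotProduct_comm, dotProduct_comm (M *ᵥ y), dotProduct_mulVec]

/-- The coefficients of a unique solution lie in the field of definition. -/
theorem coef_mem [Fintype L] {K : Subfield ℂ} (hR : Ov K R) {J : Matrix ι L ℂ}
    (hJ : ∀ i l, J i l ∈ K) {y : ι → ℂ} (hy : ∀ i, y i ∈ K)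
    (h0 : ∀ c, J *ᵥ c ∈ ann R → c = 0) {c : L → ℂ} (h : J *ᵥ c - y ∈ ann R) (l : L) : c l ∈ K := by
  obtain ⟨φ, h1, h2, h3⟩ := exists_proj K
  have h4 := hR.ann.stable φ h1 h
  have h5 : (fun i => φ ((J *ᵥ c - y) i)) = (J *ᵥ fun l => φ (c l)) - y := by
    rw [← map_mulVec φ h1 hJ]
    funext i
    rw [Pi.sub_apply, Pi.sub_apply, map_sub, ← one_mul (y i), h1 1 _ (hy i), h2]
  rw [h5] at h4
  have h6 := h0 (c - fun l => φ (c l)) (by
    rw [mulVec_sub, ← sub_sub_sub_cancel_right _ _ y]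
    exact sub_mem h h4)
  rw [sub_eq_zero.1 h6]
  exact h3 _

section
variable [Fintype κ]

theorem _root_.Pool.Agent.P.MP_f17f76_ag.AbVar.Ndg.sur (h : A.Ndg R F u a θ) : Sur A R F u a θ :=
  sur_iff.2 h.vec

theorem Sur.ndg (h : Sur A R F u a θ) (hle : trd F (pt A u a) ≤ finrank ℂ R + Fintype.card κ) :
    A.Ndg R F u a θ := ndg_of_vec hle (sur_iff.1 h)

theorem ndg_iff : A.Ndg R F u a θ ↔
    trd F (pt A u a) ≤ finrank ℂ R + Fintype.card κ ∧ Sur A R F u a θ :=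
  ⟨fun h => ⟨h.le, h.sur⟩, fun h => h.2.ndg h.1⟩

theorem Sur.le_trd (h : Sur A R F u a θ) : finrank ℂ R + Fintype.card κ ≤ trd F (pt A u a) := by
  refine (finrank_nv_pv R κ).symm.trans_le (le_trd_of_surj ((nv R u).prod (A.pv θ a))
    (finite_pt u a) (fun _ _ => nv_pv_zero) fun w => ?_)
  classical
  obtain ⟨ψ, hψ⟩ := w.1.exists_extend
  obtain ⟨v, rfl⟩ := (dotProductEquiv ℂ ι).surjective ψ
  obtain ⟨D, h1, h2, h3⟩ := sur_iff.1 h v w.2
  exact ⟨D, h1, Prod.ext (LinearMap.ext fun n => (h2 n n.2).trans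
    ((dotProduct_comm _ _).trans (LinearMap.congr_fun hψ n))) h3⟩

variable [DecidableEq ι] [DecidableEq κ]

/-- Surjectivity from derivations for the basis vectors. -/
theorem sur_of_single (hD : ∀ j, ∃ D ∈ A.thin F a θ, dv u D - Pi.single j 1 ∈ ann R)
    (hX : ∀ i, ∃ X ∈ kil F, A.pv θ a X = Pi.single i 1) : Sur A R F u a θ := by
  choose D h1 h2 using hD
  choose X h3 h4 using hX
  intro v c
  let Y := ∑ i, c i • X i
  let e := v - dv u Y
  refine ⟨Y + ∑ j, e j • D j, add_mem (sum_mem fun i _ => Submodule.smul_mem _ _ (h3 i))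
    (sum_mem fun j _ => Submodule.smul_mem _ _ (h1 j).1), ?_, ?_⟩
  · have : dv u (Y + ∑ j, e j • D j) - v = ∑ j, e j • (dv u (D j) - Pi.single j 1) := by
      simp only [map_add, map_sum, map_smul, smul_sub, Finset.sum_sub_distrib]
      rw [← pi_eq_sum_univ' e]
      simp only [e]
      abel
    rw [this]
    exact sum_mem fun j _ => Submodule.smul_mem _ _ (h2 j)
  · have h5 : ∀ j, A.pv θ a (D j) = 0 := fun j => (h1 j).2
    simp only [Y, map_add, map_sum, map_smul, h4, h5, smul_zero, Finset.sum_const_zero, add_zero]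
    exact (pi_eq_sum_univ' c).symm

end

variable [DecidableEq ι] {F₀ : Subfield ℂ} {p : ι → ℂ} {G : Matrix ι ι ℂ}

/-- The initial space consists of residues of integral rows. -/
theorem ini_le_res (hP : P.IdOn F₀) (hR : Ov F₀ R) (hp : ∀ j, p j ≠ 0)
    (hn : ∀ i j, P.v (p i) = P.v (p j) → p i = p j) {W : Submodule ℂ (ι → ℂ)}
    (h : ∀ x ∈ act (diagonal p) R, (∀ i, P.v (x i) ≤ 1) → P.r ∘ x ∈ W) :
    ini (fun j => P.v (p j)) R ≤ W := by
  refine iSup_le fun μ => Submodule.map_le_iff_le_comap.2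
    ((hR.inf (ov_supp _)).le_of fun y hy hF => ?_)
  rw [Submodule.mem_comap]
  by_cases hμ : ∃ i, P.v (p i) = μ
  · obtain ⟨i, rfl⟩ := hμ
    have key : ∀ j, P.v (y j * p j / p i) ≤ 1 ∧
        P.r (y j * p j / p i) = cut (fun j => P.v (p j) = P.v (p i)) y j := fun j => by
      rcases lt_trichotomy (P.v (p j)) (P.v (p i)) with e | e | e
      · have := Plc.v_mul_lt (hP _ (hF j)).1 ((P.v_div_lt_one (hp i)).2 e)
        rw [mul_div_assoc, cut_neg (i := j) e.ne]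
        exact ⟨this.le, Plc.r_of_lt this⟩
      · rw [cut_pos (i := j) e, hn j i e, mul_div_cancel_right₀ _ (hp i)]
        exact hP _ (hF j)
      · rw [hy.2 j e.not_ge, cut_neg (i := j) e.ne']
        simp
    have h1 := h _ (Submodule.smul_mem _ (p i)⁻¹ (vecMul_mem_act (diagonal p) hy.1))
    have h2 : (p i)⁻¹ • y ᵥ* diagonal p = fun j => y j * p j / p i := by
      funext j
      rw [Pi.smul_apply, vecMul_diagonal, smul_eq_mul, mul_comm, div_eq_mul_inv]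
    rw [h2] at h1
    convert h1 fun j => (key j).1 using 1
    exact funext fun j => (key j).2.symm
  · rw [cut_eq_zero.2 fun i hi => (hμ ⟨i, hi⟩).elim]
    exact zero_mem _

/-- Integral vectors that annihilate `R G p` reduce to vectors that annihilate the initial space. -/
theorem res_mem_ann (hP : P.IdOn F₀) (hR : Ov F₀ R) (hG : ∀ i j, G i j ∈ F₀) (hp : ∀ j, p j ≠ 0)
    (hn : ∀ i j, P.v (p i) = P.v (p j) → p i = p j) {y : ι → ℂ} (hy : ∀ i, P.v (y i) ≤ 1)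
    (h : y ∈ ann (act (G * diagonal p) R)) :
    P.r ∘ y ∈ ann (ini (fun j => P.v (p j)) (act G R)) := by
  have h1 := ini_le_res hP (hR.act hG) hp hn (W := ann (Submodule.span ℂ {P.r ∘ y}))
    fun x hx h2 => mem_ann_span.2 fun _ e => by
      rw [e, ← (v_dot h2 hy).2, dotProduct_comm, h x (act_act G _ R ▸ hx), P.r_zero]
  exact le_ann_comm.1 h1 (Submodule.mem_span_singleton_self _)

/-- Contractive derivations reduce to a surjective configuration. -/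
theorem sur_res [Fintype κ] [DecidableEq κ] (hA : A.Over k) {F L : Subfield ℂ} (hk₀ : k ≤ F₀)
    (hP : P.IdOn F₀) (hθ : ∀ j i, θ j i ∈ F₀) (hR : Ov F₀ R) (hG : ∀ i j, G i j ∈ F₀) (hk : k ≤ F)
    (hF : F ≤ L) (hp : ∀ j, p j ≠ 0) (hn : ∀ i j, P.v (p i) = P.v (p j) → p i = p j)
    (hu : ∀ j, u j ∈ L ∧ P.v (u j) ≤ 1) (ha : ∀ j, A.crd a j ∈ L) (hr : A.Red P a b)
    (hD : ∀ j, ∃ D ∈ A.thin F a θ, P.Ctr D L ∧
      dv u D - Pi.single j 1 ∈ ann (act (G * diagonal p) R))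
    (hX : ∀ i, ∃ X ∈ kil (F : Set ℂ), P.Ctr X L ∧ A.pv θ a X = Pi.single i 1) :
    Sur A (ini (fun j => P.v (p j)) (act G R)) (P.res F) (fun j => P.r (u j)) b θ := by
  have hs : ∀ {α : Type} [DecidableEq α] (i j : α), P.v ((Pi.single i 1 : α → ℂ) j) ≤ 1 ∧
      P.r ((Pi.single i 1 : α → ℂ) j) = (Pi.single i 1 : α → ℂ) j := fun i j => by
    by_cases e : j = i <;> simp [e]
  have key : ∀ D ∈ kil (F : Set ℂ), P.Ctr D L → ∃ D' ∈ kil (P.res F : Set ℂ),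
      (∀ j, D' (P.r (u j)) = P.r (D (u j))) ∧ ∀ j, A.pv θ b D' j = P.r (A.pv θ a D j) := by
    intro D h1 h2
    obtain ⟨D', h3⟩ := h2.exists_rd
    exact ⟨D', Plc.kil_res hF h1 h3, fun j => h3 _ (hu j).1 (hu j).2, fun j =>
      (hA.res_pv (hP.mono hk₀) hr (fun j l => hP _ (hθ j l)) (hk.trans hF) ha (kil_anti hk h1) h2
        h3 j).symm⟩
  refine sur_of_single (fun j => ?_) fun i => ?_
  · obtain ⟨D, h1, h2, h3⟩ := hD j
    obtain ⟨D', h4, h5, h6⟩ := key D h1.1 h2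
    have h7 : ∀ i, P.v (D (u i)) ≤ 1 := fun i => (h2 _ (hu i).1).trans (hu i).2
    refine ⟨D', ⟨h4, funext fun l => by rw [h6, show A.pv θ a D = 0 from h1.2, Pi.zero_apply, P.r_zero]⟩, ?_⟩
    convert res_mem_ann hP hR hG hp hn (fun i => P.v.map_sub_le (h7 i) (hs j i).1) h3 using 1
    funext i
    rw [Function.comp_apply, Pi.sub_apply, dv_apply, Plc.r_sub (h7 i) (hs j i).1, (hs j i).2, h5]
  · obtain ⟨X, h1, h2, h3⟩ := hX i
    obtain ⟨X', h4, -, h6⟩ := key X h1 h2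
    exact ⟨X', h4, funext fun l => by rw [h6, h3, (hs i l).2]⟩

/-! ### matrices and frames -/

theorem det_mul_diag (hG : G.det ≠ 0) (hp : ∀ j, p j ≠ 0) : (G * diagonal p).det ≠ 0 := by
  rw [det_mul, det_diagonal]
  exact mul_ne_zero hG (Finset.prod_ne_zero_iff.2 fun j _ => hp j)

theorem inv_mul_diag (G : Matrix ι ι ℂ) (hp : ∀ j, p j ≠ 0) (y : ι → ℂ) (j : ι) :
    ((G * diagonal p)⁻¹ *ᵥ y) j = (G⁻¹ *ᵥ y) j / p j := by
  have h1 : diagonal p *ᵥ (G * diagonal p)⁻¹ *ᵥ y = G⁻¹ *ᵥ y := by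
    rw [mulVec_mulVec, Matrix.mul_inv_rev, ← Matrix.mul_assoc, mul_nonsing_inv _ (by
      simpa using det_mul_diag (G := 1) (by simp) hp), Matrix.one_mul]
  rw [← h1, mulVec_diagonal, mul_div_cancel_left₀ _ (hp j)]

theorem mulVec_inv_cancel {M : Matrix ι ι ℂ} (h : M.det ≠ 0) (y : ι → ℂ) : M *ᵥ M⁻¹ *ᵥ y = y := by
  rw [mulVec_mulVec, mul_nonsing_inv _ h.isUnit, one_mulVec]

theorem inv_mulVec_cancel {M : Matrix ι ι ℂ} (h : M.det ≠ 0) (y : ι → ℂ) : M⁻¹ *ᵥ M *ᵥ y = y := by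
  rw [mulVec_mulVec, nonsing_inv_mul _ h.isUnit, one_mulVec]

omit [DecidableEq ι] in
theorem mulVec_mem {K : Subfield ℂ} {M : Matrix L ι ℂ} (hM : ∀ i j, M i j ∈ K) (hu : ∀ j, u j ∈ K)
    (i : L) : (M *ᵥ u) i ∈ K := dot_mem (hM i) hu

omit [DecidableEq ι] in
theorem dv_mulVec {M : Matrix L ι ℂ} {D : Der ℂ} (hM : ∀ i j, D (M i j) = 0) (u : ι → ℂ) :
    dv (M *ᵥ u) D = M *ᵥ dv u D := funext fun i => der_dot_of (hM i) u

omit [DecidableEq ι] in
theorem map_mulVec' (φ : ℂ →+* ℂ) (M : Matrix L ι ℂ) (u : ι → ℂ) :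
    M.map φ *ᵥ (φ ∘ u) = φ ∘ (M *ᵥ u) := funext fun i => map_dot φ (M i) u

theorem map_inv' (φ : ℂ →+* ℂ) (hG : G.det ≠ 0) : (G.map φ)⁻¹ = G⁻¹.map φ :=
  inv_eq_right_inv (by rw [← Matrix.map_mul, mul_nonsing_inv _ hG.isUnit, Matrix.map_one] <;> simp)

/-- The rescaled form of the condition on the columns. -/
theorem col_mem_ann {M : Matrix ι ι ℂ} (h : M.det ≠ 0) {y : ι → ℂ} {j : ι} :
    y - M.col j ∈ ann R ↔ M⁻¹ *ᵥ y - Pi.single j 1 ∈ ann (act M R) := by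
  rw [mem_ann_act, mulVec_sub, mulVec_inv_cancel h, mulVec_single_one]

/-- Derivations for the columns from rows with a unit determinant. -/
theorem exD_of_rows [Fintype L] [DecidableEq L] {K : Subfield ℂ} {M : Matrix ι ι ℂ}
    (hM : M.det ≠ 0) (hMK : ∀ i j, M i j ∈ K) (hR : Ov K R) (hz : ∀ j, z j ∈ K) {D : L → Der ℂ}
    (hD : ∀ l, D l ∈ A.thin F a θ ∧ (∀ y ∈ K, D l y ∈ K) ∧ P.Ctr (D l) K ∧
      ∀ i, P.v ((M⁻¹ *ᵥ dv z (D l)) i) ≤ 1)
    {n : L → ι → ℂ} (hn : ∀ l, n l ∈ R ∧ ∀ j, P.v ((n l ᵥ* M) j) ≤ 1)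
    (hL : Fintype.card L = finrank ℂ R)
    (hd : P.v (Matrix.of fun l m => n l ⬝ᵥ dv z (D m)).det = 1) (j : ι) :
    ∃ D' ∈ A.thin F a θ, (∀ y ∈ K, D' y ∈ K) ∧ P.Ctr D' K ∧
      (∀ i, P.v ((M⁻¹ *ᵥ dv z D') i) ≤ 1) ∧ dv z D' - M.col j ∈ ann R := by
  let J : Matrix ι L ℂ := Matrix.of fun i m => D m (z i)
  let B : Matrix L L ℂ := Matrix.of fun l m => n l ⬝ᵥ dv z (D m)
  have hB : ∀ c l, (B *ᵥ c) l = n l ⬝ᵥ (J *ᵥ c) := fun c l => by
    rw [dotProduct_mulVec]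
    rfl
  have hB0 : B.det ≠ 0 := fun e => by simp [B, e] at hd
  obtain ⟨C, hC, hC'⟩ := Plc.exists_inv (P := P) (L := ⊤) (M := B) (fun l m => ⟨trivial, by
    rw [show B l m = (n l ᵥ* M) ⬝ᵥ (M⁻¹ *ᵥ dv z (D m)) by
      rw [← dotProduct_mulVec, mulVec_inv_cancel hM]; rfl]
    exact (v_dot (hn l).2 (hD m).2.2.2).1⟩) hd
  let c := C *ᵥ fun l => (n l ᵥ* M) j
  have hc : ∀ l, P.v (c l) ≤ 1 := fun l => (v_dot (fun m => (hC l m).2) fun m => (hn m).2 j).1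
  have hli : LinearIndependent ℂ n := Fintype.linearIndependent_iff.2 fun e he =>
    congrFun (Matrix.eq_zero_of_vecMul_eq_zero hB0 (funext fun m => by
      have := congrArg (· ⬝ᵥ dv z (D m)) he
      simpa [sum_dotProduct] using! this))
  have hsp : Submodule.span ℂ (range n) = R := Submodule.eq_of_le_of_finrank_eq
    (Submodule.span_le.2 (range_subset_iff.2 fun l => (hn l).1))
    ((finrank_span_eq_card hli).trans hL)
  have h1 : J *ᵥ c - M.col j ∈ ann R := by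
    rw [← hsp, mem_ann_span, forall_mem_range]
    intro l
    rw [dotProduct_comm, dotProduct_sub, ← hB, mulVec_mulVec, hC', one_mulVec]
    exact sub_self _
  have h2 := coef_mem hR (J := J) (fun i m => (hD m).2.1 _ (hz i)) (fun i => hMK i j)
    (fun e he => Matrix.eq_zero_of_mulVec_eq_zero hB0 (funext fun l => by
      rw [hB, dotProduct_comm]
      exact he _ (hn l).1)) h1
  have h3 := Plc.Good.sum (P := P) (S := F) (L := K) (X := D)
    (fun l => ⟨(hD l).1.1, (hD l).2.2.1, (hD l).2.1⟩) fun l => ⟨h2 l, hc l⟩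
  have h4 : dv z (∑ l, c l • D l) = J *ᵥ c := by
    rw [map_sum]
    funext i
    simp [J, mulVec, dotProduct, mul_comm]
  refine ⟨_, sum_mem fun l _ => Submodule.smul_mem _ _ (hD l).1, h3.mem, h3.ctr, fun i => ?_,
    h4 ▸ h1⟩
  rw [map_sum, mulVec_sum, Finset.sum_apply]
  refine P.v.map_sum_le fun l _ => ?_
  rw [map_smul, mulVec_smul]
  exact Plc.v_mul_le (hc l) ((hD l).2.2.2 i)

variable {x : Cx ι κ g} {B₀ : ℕ} {w : Fr ι} {c : ι → ℂ} {s s' : ι → ℝ} {τ : ℂ}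

theorem IsFr.det (h : IsFr x B₀ w c) : w.M.det ≠ 0 := det_mul_diag h.gr.det h.p0

theorem IsFr.inv_apply (h : IsFr x B₀ w c) (y : ι → ℂ) (j : ι) :
    (w.M⁻¹ *ᵥ y) j = (w.G⁻¹ *ᵥ y) j / w.p j := inv_mul_diag _ h.p0 y j

theorem IsFr.M_mem (h : IsFr x B₀ w c) (i j : ι) : w.M i j ∈ w.K₁ := by
  rw [Fr.M, mul_diagonal]
  exact mul_mem (h.le₁ (h.gr.mem i j)) (h.pm j)

theorem IsFr.inv_mem (h : IsFr x B₀ w c) (i j : ι) : w.M⁻¹ i j ∈ w.K₁ := inv_mem_sub h.M_mem i j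

omit [Fintype ι] [DecidableEq ι] in
theorem Fr.Rad.mono (h : w.Rad τ s) (hs : ∀ j, s' j ≤ s j) : w.Rad τ s' := fun j a q hq e =>
  h j a q hq (e.trans_le (mul_le_mul_of_nonneg_right (hs j) q.cast_nonneg))

theorem IsCx.τ_ne [Fintype κ] (h : IsCx A x) : x.τ ≠ 0 := fun e => h.tr (e ▸ zero_mem _)

theorem IsCx.τ_mem [Fintype κ] (h : IsCx A x) : x.τ ∈ x.k' := h.eq ▸ subset_acl _ (Or.inr rfl)

theorem IsCx.kt_le [Fintype κ] (h : IsCx A x) : x.kt ≤ x.k' :=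
  fun _ hy => h.eq ▸ subset_acl _ (Or.inl hy)

/-- The weights can be changed by units. -/
theorem IsFr.scale (h : IsFr x B₀ w c) (hp : ∀ j, p j ∈ w.K₁ ∧ w.P.v (p j) = w.P.v (w.p j)) :
    IsFr x B₀ { w with p := p } c := by
  have h0 : ∀ j, p j ≠ 0 := fun j e => w.P.v_ne (h.p0 j) (by rw [← (hp j).2, e, map_zero])
  obtain ⟨u, h1, h2⟩ := h.pol
  refine ⟨h.c₁, h.cK, h.cp, h.le, h.le₁, h.le', h.lep, h.id, h.lt, h.arch, h.gr, h0,
    fun j => (hp j).1, h.cm, fun j => (hp j).2 ▸ h.bd j, fun j => u j * (w.p j / p j),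
    fun j => ⟨mul_mem (h1 j).1 (h.lep (div_mem (h.pm j) (hp j).1)),
      Plc.v_mul_le (h1 j).2 ((w.P.v_div_le_one (h0 j)).2 (hp j).2.ge)⟩, ?_⟩
  have h3 : (diagonal p *ᵥ fun j => u j * (w.p j / p j)) = diagonal w.p *ᵥ u := by
    funext j
    simp only [mulVec_diagonal]
    field_simp [h0 j]
  simpa only [Fr.M, ← mulVec_mulVec, h3] using h2

variable [DecidableEq κ]

theorem WS.scale (h : WS A x B₀ w) (hp : ∀ j, p j ∈ w.K₁ ∧ w.P.v (p j) = w.P.v (w.p j)) :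
    WS A x B₀ { w with p := p } := by
  have h' := h.fr.scale hp
  refine ⟨h', h.free, h.idE, h.sub, fun j => ?_, h.exX⟩
  obtain ⟨D, h1, h2, h3, h4, h5⟩ := h.exD j
  have h6 := (w.P.v_div_le_one (h.fr.p0 j)).2 (hp j).2.le
  refine ⟨(p j / w.p j) • D, Submodule.smul_mem _ _ h1, fun y hy =>
    mul_mem (h.fr.lep (div_mem (hp j).1 (h.fr.pm j))) (h2 y hy), h3.smul h6, fun i => ?_, ?_⟩
  · have h7 := h4 i
    rw [h.fr.inv_apply, w.P.v_div_le_one (h.fr.p0 i), ← (hp i).2] at h7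
    rw [map_smul, mulVec_smul, Pi.smul_apply, h'.inv_apply]
    exact Plc.v_mul_le h6 ((w.P.v_div_le_one (h'.p0 i)).2 h7)
  · convert Submodule.smul_mem _ (p j / w.p j) h5 using 1
    rw [map_smul, smul_sub]
    congr 1
    funext i
    simp only [Fr.M, col_apply, mul_diagonal, Pi.smul_apply, smul_eq_mul]
    field_simp [h.fr.p0 j]

omit [DecidableEq κ] [Fintype ι] [DecidableEq ι] in
theorem Fr.Rad.scale (h : w.Rad τ s) (hp : ∀ j, w.P.v (p j) = w.P.v (w.p j)) :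
    Fr.Rad { w with p := p } τ s := fun j a q hq e => by
  simpa only [map_mul, map_pow, hp] using h j a q hq e

omit [DecidableEq κ] [Fintype ι] [DecidableEq ι] in
/-- Weights of equal size can be made equal. -/
theorem exists_nrm (P : Plc ℂ ℂ) (p : ι → ℂ) : ∃ e : ι → ι, (∀ j, P.v (p (e j)) = P.v (p j)) ∧
    ∀ i j, P.v (p i) = P.v (p j) → e i = e j := by
  classical
  refine ⟨fun j => (⟨j, rfl⟩ : ∃ i, P.v (p i) = P.v (p j)).choose,
    fun j => (⟨j, rfl⟩ : ∃ i, P.v (p i) = P.v (p j)).choose_spec, fun i j e => ?_⟩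
  simp only [e]

theorem norm (A : AbVar g N) : S_NORM A := fun ι κ _ _ _ _ x B₀ w s h hs => by
  obtain ⟨e, h1, h2⟩ := exists_nrm w.P w.p
  exact ⟨{ w with p := fun j => w.p (e j) }, h.scale fun j => ⟨h.fr.pm _, h1 j⟩,
    fun i j e' => congrArg w.p (h2 i j (by rw [← h1 i, ← h1 j]; exact e')), hs.scale h1⟩

end Pool.Agent.P.MP_f17f76_ag.Hgc
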