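import Pool.Agent.P.MP_f17f76_ag.E.CcC
import Pool.Agent.P.MP_f17f76_ag.E.HgcBas
import Pool.Agent.P.MP_f17f76_ag.E.Fam3

/-!
Every normalised state gives a configuration.
-/

namespace Pool.Agent.P.MP_f17f76_ag.Hgc

open Set Module Matrix E AbVar

variable {g N : ℕ} {ι κ : Type} {A : AbVar g N} {k : Subfield ℂ} {P Q : Plc ℂ ℂ}
  {U : Submodule ℂ (Fin g → ℂ)} {θ : κ → Fin g → ℂ}

theorem r_pr (hA : A.Over k) (hP : P.IdOn k) (hU : A.IsLie U) {z : Fin g → ℂ}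
    (hz : ∀ i, P.v (z i) ≤ 1) (j : Fin g) :
    P.v (A.pr U z j) ≤ 1 ∧ P.r (A.pr U z j) = A.pr U (P.r ∘ z) j := by
  have := Plc.r_dot hz fun i => (hP _ (hA.pr U hU i j)).1
  rw [show P.r ∘ (fun i => A.pr U (Pi.single i 1) j) = _ from
    funext fun i => (hP _ (hA.pr U hU i j)).2] at this
  rwa [A.pr_apply, A.pr_apply U (P.r ∘ z)]

variable [Fintype κ]

theorem pv_sum (T : Matrix κ κ ℂ) (a : Fin g → ℂ) (D : Der ℂ) :
    A.pv (fun i => ∑ j, T i j • θ j) a D = T *ᵥ A.pv θ a D := funext fun i => by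
  rw [pv_apply, sum_dotProduct]
  exact Finset.sum_congr rfl fun j _ => smul_dotProduct _ _ _

variable [DecidableEq κ]

theorem exists_adapted (hθ : ∀ j l, θ j l ∈ k) (hU : Ov k U) :
    ∃ (T : Matrix κ κ ℂ) (s : Finset κ), T.det ≠ 0 ∧ (∀ i j, T i j ∈ k) ∧
      (∀ i ∈ s, ∑ j, T i j • θ j ∈ U) ∧
      Submodule.span ℂ (range fun i : {i // i ∉ s} => ∑ j, T i j • θ j) ⊓ U = ⊥ := by
  classical
  obtain ⟨G, I, h1, h2⟩ := exists_supp (hU.comap (M := (of θ)ᵀ) fun i j => hθ j i) (graded_top _)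
  have h3 : ∀ c, c ∈ supp ℂ (· ∈ I) ↔ c ᵥ* (G⁻¹ * of θ) ∈ U := fun c => by
    rw [← h2, mem_act_iff h1.det, Submodule.mem_comap, mulVecLin_apply, mulVec_transpose,
      vecMul_vecMul]
  have h4 : ∀ i, ∑ j, G⁻¹ i j • θ j = Pi.single i 1 ᵥ* (G⁻¹ * of θ) := fun i => by
    ext l
    simp [mul_apply]
  refine ⟨G⁻¹, Finset.univ.filter (· ∈ I), h1.inv.det, h1.inv.mem, fun i hi => ?_, ?_⟩
  · rw [h4, ← h3]
    exact fun j hj => Pi.single_eq_of_ne (fun e => hj (by simpa [e] using hi)) _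
  · have h5 : Submodule.span ℂ (range fun i : {i // i ∉ Finset.univ.filter (· ∈ I)} =>
        ∑ j, G⁻¹ i j • θ j) ≤ act (G⁻¹ * of θ) (supp ℂ (· ∉ I)) := by
      rw [Submodule.span_le]
      rintro _ ⟨i, rfl⟩
      refine mem_act.2 ⟨_, fun j hj => Pi.single_eq_of_ne (fun e => i.2 ?_) _, (h4 i).symm⟩
      simpa [e] using hj
    refine eq_bot_iff.2 fun v hv => ?_
    obtain ⟨c, c1, rfl⟩ := mem_act.1 (h5 hv.1)
    have : c = 0 := funext fun j => (em (j ∈ I)).elim (fun hj => c1 j fun h => h hj)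
      ((h3 c).2 hv.2 j)
    simp [this]

variable [Fintype ι] [DecidableEq ι] {x : Cx ι κ g} {B₀ : ℕ} {w : Fr ι} {c : ι → ℂ} {s : ι → ℝ}

omit [DecidableEq κ]

omit [Fintype κ] in
theorem IsFr.inv_mulVec_mem (h : IsFr x B₀ w c) (j : ι) : (w.G⁻¹ *ᵥ c) j ∈ w.Kp :=
  mulVec_mem (fun i j => h.lep (h.le₁ (h.gr.inv.mem i j))) h.cm j

theorem IsFr.agree (h : IsFr x B₀ w c) (hx : IsCx A x) (hQ : w.P.Agree Q w.Kp) :
    IsFr x B₀ { w with P := Q } c := by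
  have hτ : x.τ ∈ w.Kp := h.lep (h.le' hx.τ_mem)
  refine ⟨h.c₁, h.cK, h.cp, h.le, h.le₁, h.le', h.lep, ?_, (hQ.lt_one hτ).1 h.lt,
    fun y hy h1 => ?_, h.gr, h.p0, h.pm, h.cm, fun j => ?_, ?_⟩
  · exact (hQ.mono (union_subset (h.le₁.trans h.lep) ((hx.kt_le.trans h.le').trans h.lep))).lifts
      h.id
  · refine (h.arch y hy ((hQ.lt_one hy).2 h1)).imp fun q hq => ?_
    rw [← map_pow] at hq ⊢
    exact (hQ.le (pow_mem hy q) hτ).1 hq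
  · exact (h.bd j).imp (hQ.le (h.inv_mulVec_mem j) (h.lep (h.pm j))).1
      (hQ _ (mul_mem (pow_mem hτ _) (h.inv_mulVec_mem j))).1.1
  · obtain ⟨u, h1, h2⟩ := h.pol
    refine ⟨u, fun j => ⟨(h1 j).1, (hQ _ (h1 j).1).1.1 (h1 j).2⟩, not_lt.1 fun h3 => h2.not_gt ?_⟩
    exact (hQ.lt_one (hx.cf.eval_mem' (h.le'.trans h.lep) fun j => add_mem (h.cm j)
      (mulVec_mem (fun i j => h.lep (h.M_mem i j)) (fun j => (h1 j).1) j))).2 h3

omit [Fintype κ] in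
theorem IsFr.nrm_agree (h : IsFr x B₀ w c) (hQ : w.P.Agree Q w.Kp) (hn : w.Nrm) (i j : ι)
    (e : Q.v (w.p i) = Q.v (w.p j)) : w.p i = w.p j :=
  hn i j (le_antisymm ((hQ.le (h.lep (h.pm i)) (h.lep (h.pm j))).2 e.le)
    ((hQ.le (h.lep (h.pm j)) (h.lep (h.pm i))).2 e.ge))

theorem IsFr.rad_agree (h : IsFr x B₀ w c) (hx : IsCx A x) (hQ : w.P.Agree Q w.Kp)
    (hs : w.Rad x.τ s) : Fr.Rad { w with P := Q } x.τ s := fun j a q h1 h2 =>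
  not_lt.1 fun h3 => (hs j a q h1 h2).not_gt ((hQ.lt_one (mul_mem
    (zpow_mem (h.lep (h.le' hx.τ_mem)) a) (pow_mem (h.lep (h.pm j)) q))).2 h3)

theorem IsFr.exists_pi (h : IsFr x B₀ w c) (hx : IsCx A x) (hs : w.Rad x.τ s) :
    ∃ π ∈ w.K₁, π ≠ 0 ∧ w.P.v π < 1 ∧
      (∀ ε ∈ w.Kp, w.P.v ε < 1 → ∃ M : ℕ, w.P.v (ε ^ M) < w.P.v π) ∧
      ∀ X ∈ kil (w.K₁ : Set ℂ), w.P.Ctr X w.Kp → ∀ j, w.P.v (π * (w.M⁻¹ *ᵥ dv c X) j) < 1 := by
  obtain ⟨J, hJ⟩ := exists_nat_gt (∑ j, |s j|)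
  have h1 : w.P.v (x.τ ^ (B₀ + J + 1)) < 1 := by
    rw [pow_succ]
    exact Plc.v_mul_lt (Plc.v_pow_le h.lt.le _) h.lt
  refine ⟨x.τ ^ (B₀ + J + 1), pow_mem (h.le' hx.τ_mem) _, pow_ne_zero _ hx.τ_ne, h1,
    fun ε h2 h3 => ?_, fun X h2 h3 j => ?_⟩
  · obtain ⟨q, hq⟩ := h.arch ε h2 h3
    refine ⟨q * (B₀ + J + 2), ?_⟩
    rw [pow_mul, map_pow, map_pow, map_pow]
    exact (pow_le_pow_left' hq _).trans_lt
      (pow_lt_pow_right_of_lt_one₀ (w.P.v_pos hx.τ_ne) h.lt (Nat.lt_succ_self _))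
  · have h4 := h3 _ (h.inv_mulVec_mem j)
    rw [h.inv_apply, ← Hgc.dv_mulVec fun i j => h2 _ (h.le₁ (h.gr.inv.mem i j)), dv_apply]
    rcases h.bd j with h5 | h5
    · rw [mul_comm]
      exact Plc.v_mul_lt ((w.P.v_div_le_one (h.p0 j)).2 (h4.trans h5)) h1
    · have h6 := hs j (-J) 1 one_pos (by
        have := Finset.single_le_sum (f := fun j => |s j|) (fun _ _ => abs_nonneg _)
          (Finset.mem_univ j)
        have := neg_abs_le (s j)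
        push_cast
        linarith)
      rw [← w.P.v_inv_le_one (by simp [hx.τ_ne, h.p0])] at h6
      have h7 : w.P.v (x.τ ^ B₀ * X ((w.G⁻¹ *ᵥ c) j)) ≤ 1 := by
        rw [map_mul] at h5 ⊢
        exact (mul_le_mul_right h4 _).trans h5
      convert Plc.v_mul_lt (Plc.v_mul_le h7 h6) h.lt using 2
      simp only [_root_.zpow_neg, zpow_natCast, pow_one, mul_inv, inv_inv]
      ring

omit [Fintype κ] [Fintype ι] [DecidableEq ι]

theorem s_CC (A : AbVar g N) : S_CC A := by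
  intro ι κ _ _ _ _ x B₀ w s hx hw hn hs
  have fr := hw.fr
  have hA : A.Over x.kt := hx.ob.ovr.mono hx.le
  have k1 : x.kt ≤ w.K₁ := hx.kt_le.trans fr.le'
  have k2 : x.kt ≤ w.Kp := k1.trans fr.lep
  have k3 : (w.K₁ : Set ℂ) ∪ x.E ⊆ w.Kp := union_subset fr.lep (subset_union_left.trans hw.sub)
  have k4 : (x.kt : Set ℂ) ⊆ w.K₁ ∪ x.E := subset_union_of_subset_left k1 _
  have hP₀ : w.P.IdOn x.kt := fr.id.mono subset_union_right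
  have hz : ∀ j, x.z j ∈ w.Kp := fun j => hw.sub (Or.inr (mem_pt_left j))
  have ha : ∀ j, A.crd x.a j ∈ w.Kp := fun j => hw.sub (Or.inr (mem_pt_right j))
  choose D D1 D2 D3 D4 D5 using hw.exD
  choose X₀ X1 X2 X3 X4 using hw.exX
  obtain ⟨U, eU⟩ : ∃ U, U = A.perp (A.rh (range fun j => w.P.r ∘ A.dl x.a (D j))) := ⟨_, rfl⟩
  have hU : A.IsLie U := eU ▸ (A.isLie_rh _).perp
  obtain ⟨T, t, T0, Tm, T1, T2⟩ := exists_adapted hx.th (hA.ov_du hU)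
  let θ : κ → Fin g → ℂ := fun i => ∑ j, T i j • x.θ j
  have θ1 : ∀ i l, θ i l ∈ x.kt := fun i l => by
    simpa [θ] using sum_mem fun j _ => mul_mem (Tm i j) (hx.th j l)
  have θ2 : ∀ j, A.pv θ x.a (D j) = 0 := fun j => by
    rw [pv_sum, (mem_thin A).1 (D1 j) |>.2, mulVec_zero]
  let Y : κ → Der ℂ := fun i => ∑ j, T⁻¹ j i • X₀ j
  have Y1 : ∀ i, w.P.Good (w.K₁ ∪ x.E) w.Kp (Y i) := fun i =>
    .sum (fun j => ⟨X1 j, X3 j, X2 j⟩) fun j =>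
      ⟨k2 (inv_mem_sub Tm j i), (hP₀ _ (inv_mem_sub Tm j i)).1⟩
  have Y2 : ∀ i, A.pv θ x.a (Y i) = Pi.single i 1 := fun i => by
    have : A.pv x.θ x.a (Y i) = T⁻¹ *ᵥ Pi.single i 1 := by
      ext l
      simp [Y, X4, Pi.single_apply]
    rw [pv_sum, this, mulVec_inv_cancel T0]
  have θ3 : LinearIndependent ℂ θ := Pair.li (pair_of_det (fun i => (Y1 i).kil) (by
    rw [show (of fun j l => A.pv θ x.a (Y l) j) = 1 from
      Matrix.ext fun j l => by simp [Y2, one_apply, Pi.single_apply]]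
    simp))
  obtain ⟨π, π1, π2, π3, π4, π5⟩ := fr.exists_pi hx hs
  obtain ⟨L, P, Q, δ, i, y, e, d, hP₁, h⟩ := exists_su fr.cp.cnt w.P t (fun j => ⟨D3 j, D2 j⟩)
    (fun j => ⟨(Y1 j).ctr, (Y1 j).mem⟩) (fr.lep π1) π3.le
  have hQ : w.P.Agree Q w.Kp := hP₁.trans (h.agree.mono h.le)
  have hP : P.IdOn x.kt := (hP₁.mono k2).lifts hP₀
  have gd : ∀ X, w.P.Good (w.K₁ ∪ x.E) w.Kp X → P.Good x.kt w.Kp X := fun X hX =>
    ⟨kil_anti k4 hX.kil, hP₁.ctr subset_rfl hX.mem hX.ctr, hX.mem⟩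
  have hD : ∀ j, P.Good x.kt w.Kp (D j) := fun j => gd _ ⟨(D1 j).1, D3 j, D2 j⟩
  have hY : ∀ j, P.Good x.kt w.Kp (Y j) := fun j => gd _ (Y1 j)
  have hπ : P.v π < 1 := (hP₁.lt_one (fr.lep π1)).1 π3
  have hδ : δ ∈ kil (w.K₁ ∪ x.E : Set ℂ) := h.kil k3 (fun j => (D1 j).1) fun j => (Y1 j).kil
  have hδ' := kil_anti k4 hδ
  let Φ := i.comp (tay δ)
  have Φ1 : ∀ c ∈ w.K₁, Φ c = c := fun c hc => h.const (h.le (fr.lep hc)) (hδ c (Or.inl hc))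
  obtain ⟨a₁, -, a1⟩ := hA.exists_map isLie_top (w := x.a) trivial Φ fun c hc => Φ1 c (k1 hc)
  obtain ⟨m, m1, eb, -⟩ := hA.pr_map hU Φ (fun c hc => Φ1 c (k1 hc)) a1
  rw [← A.crd_per m1] at a1
  generalize a₁ + m = a' at a1 eb
  have hQk : Q.IdOn x.kt := (hQ.mono k2).lifts hP₀
  obtain ⟨b₀, hr⟩ := hA.exists_red' hQk a'
  have hb : ∀ j, A.crd (A.pr U x.a) j ∈ w.Kp := fun j => fr.cp.acl_le subset_rfl
    (hA.crd_pr_acl hU (k2.trans (subset_acl _))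
      ((range_subset_iff.2 ha).trans (subset_acl _)) ⟨j, rfl⟩)
  have eU' : U = A.perp (A.rh (range fun j => P.r ∘ A.dl x.a (D j))) := by
    rw [eU]
    congr 3
    exact funext fun j => funext fun l =>
      (hP₁ _ (hA.dl_mem_field (hD j).kil k2 ha (fun l => D2 j _ (ha l)) l)).2
  obtain ⟨ε, ε1, ε2, ε3, ε4⟩ := h.small hA k2 hP hD hY hπ hb (fun j l => by
    have h1 := r_pr hA hP hU (hA.ctr_dl hP (hD j).kil (hD j).ctr ha) l
    rw [hA.dl_pr (hD j).kil hU, ← Plc.r_eq_zero_iff h1.1, h1.2, A.pr_eq_zero_iff.2 (by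
      rw [eU', perp_perp]; exact A.subset_rh _ ⟨j, rfl⟩), Pi.zero_apply]) π2 (fr.lep π1)
  obtain ⟨M, hM⟩ := π4 ε ε1 ((hP₁.lt_one ε1).2 ε3)
  let L' := acl (w.Kp ∪ pt A (Φ ∘ x.z) a')
  have l1 : w.Kp ≤ L' := fun c hc => subset_acl _ (Or.inl hc)
  have l2 : ∀ j, A.crd a' j ∈ L' := fun j => subset_acl _ (Or.inr (mem_pt_right j))
  have dp : ∀ i ∈ t, ∀ D' ∈ kil (x.kt : Set ℂ), ∀ a, θ i ⬝ᵥ A.dl (A.pr U a) D' = θ i ⬝ᵥ A.dl a D' :=
    fun i hi D' hD' a => by rw [hA.dl_pr hD' hU, A.dot_pr (T1 i hi)]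
  choose! W W1 W2 W3 W4 using fun j (hj : j ∈ t) => h.wit hA k2 h.le hP hδ' hb eb ε1 ε2 ε3.le ε4
    ((hP₁.lt (pow_mem ε1 M) (fr.lep π1)).1 hM) (fr.lep π1) (hδ π (Or.inl π1)) (θ1 j)
    (t := y (.inr j)) (by
      rw [dp j hj δ hδ', h.dot_dl ha]
      simp [← pv_apply, θ2, Y2, Pi.single_apply, hj, mul_comm]) (h.w1 _) (h.w2 _) (h.w3 _) (h.w4 _)
    l1 fun l => hA.crd_pr_acl hU (fun c hc => l1 (k2 hc)) (range_subset_iff.2 l2) ⟨l, rfl⟩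
  let ζ := w.M⁻¹ *ᵥ x.z
  have ζ1 : ∀ l, ζ l ∈ w.Kp := mulVec_mem (fun i j => fr.lep (fr.inv_mem i j)) hz
  have ζ2 : ∀ X ∈ kil (w.K₁ ∪ x.E : Set ℂ), ∀ l, X (ζ l) = (w.M⁻¹ *ᵥ dv x.z X) l := fun X hX =>
    congrFun (Hgc.dv_mulVec (fun i j => hX _ (Or.inl (fr.inv_mem i j))) _)
  have ζ3 : ∀ l j, D j (ζ l) ∈ w.Kp ∧ P.v (D j (ζ l)) ≤ 1 := fun l j =>
    ⟨D2 j _ (ζ1 l), (hP₁ _ (D2 j _ (ζ1 l))).1.1 (ζ2 _ (D1 j).1 l ▸ D4 j l)⟩
  have ζ4 : ∀ l j, w.P.v (π * Y j (ζ l)) < 1 := fun l j =>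
    ζ2 _ (Y1 j).kil l ▸ π5 _ (kil_anti subset_union_left (Y1 j).kil) (Y1 j).ctr l
  have ζ5 : ∀ l j, π * Y j (ζ l) ∈ w.Kp := fun l j => mul_mem (fr.lep π1) ((Y1 j).mem _ (ζ1 l))
  have ζ6 : ∀ l, ∀ j ∈ t, P.v (π * Y j (ζ l)) < 1 := fun l j _ => (hP₁.lt_one (ζ5 l j)).1 (ζ4 l j)
  have eu : w.M⁻¹ *ᵥ (Φ ∘ x.z - x.z) = fun l => i (tay δ (ζ l)) - ζ l := by
    have := map_mulVec' Φ w.M⁻¹ x.z
    rw [show w.M⁻¹.map Φ = w.M⁻¹ from Matrix.ext fun i j => Φ1 _ (fr.inv_mem i j)] at this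
    rw [mulVec_sub, this]
    rfl
  have eW : Q.r ∘ (fun j : t => W j) = fun j : t => y (.inr j) * i PowerSeries.X :=
    funext fun j => W3 j j.2
  have hW : Q.Gauss w.Kp fun j : t => W j :=
    ⟨fun j => W2 j j.2, by rw [eW, h.res_eq]; exact h.ind⟩
  have : Uncountable ℂ := Complex.ofReal_injective.uncountable
  obtain ⟨σ, hσ⟩ := exists_equiv_sub rfl w.Kp fr.cp.cnt (Φ.comp w.Kp.subtype)
  have f1 : Φ '' x.k' = x.k' := image_fix fun c hc => Φ1 c (fr.le' hc)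
  refine ⟨⟨{ w with P := Q }, x.z, Φ ∘ x.z, a', b₀, T, t, W, Y, π⟩,
    ⟨fr.agree hx hQ, fr.nrm_agree hQ hn, ⟨σ, fun c hc => (hσ ⟨c, fr.lep (fr.le' hc)⟩).trans
      (Φ1 c (fr.le' hc)), funext fun j => (hσ ⟨_, hz j⟩).symm,
      a1.trans (funext fun j => (hσ ⟨_, ha j⟩).symm)⟩, ?_,
      hw.free.mono subset_rfl fun c hc => subset_acl _ (Or.inr (Or.inl (Or.inr hc))), T0, Tm, W1,
      hW, fun j _ => ⟨kil_anti subset_union_left (Y1 j).kil, (Y1 j).mem,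
        hQ.ctr subset_rfl (Y1 j).mem (Y1 j).ctr⟩, π2, π1, (hQ.lt_one (fr.lep π1)).1 π3,
      fun l => (congrArg Q.v (congrFun eu l)).trans_le (h.int (ζ1 l) (ζ3 l) (ζ6 l)).1, hr, ?_,
      fun j _ l => ζ2 _ (Y1 j).kil l ▸ (hQ.lt_one (ζ5 l j)).1 (ζ4 l j), ?_⟩,
    fr.rad_agree hx hQ hs⟩
  · have := (free_map Φ).2 (hw.free.mono (T' := x.k' ∪ pt A x.z x.a) subset_rfl
      fun c hc => subset_acl _ (Or.inr (hc.imp_left Or.inl)))
    rwa [image_fix (F := x.k) fun c hc => Φ1 c (fr.le₁ (fr.le hc)),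
      image_fix (F := w.k₁) fun c hc => Φ1 c (fr.le₁ hc), image_union, f1, ← pt_map a1] at this
  · let F₀ := Subfield.closure (w.k₁ ∪ x.E : Set ℂ)
    have n1 : F₀ ≤ w.Kp := Subfield.closure_le.2
      ((union_subset_union_left _ fr.le₁).trans k3)
    have n2 : P.IdOn F₀ := (hP₁.mono n1).lifts
      (Plc.IdOn.closure ((fr.id.mono subset_union_left).union hw.idE))
    have n3 : Ov F₀ x.N := hx.ob.fam.ov.mono fun c hc => Subfield.subset_closure (Or.inr hc)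
    have n4 : ∀ i j, w.G i j ∈ F₀ := fun i j => Subfield.subset_closure (Or.inl (fr.gr.mem i j))
    have n5 : ∀ j, P.r ∘ dv ζ (D j) - Pi.single j 1 ∈
        ann (ini (fun j => P.v (w.p j)) (act w.G x.N)) := fun j => by
      have h1 : ∀ l, P.v ((Pi.single j 1 : ι → ℂ) l) ≤ 1 ∧
          P.r ((Pi.single j 1 : ι → ℂ) l) = (Pi.single j 1 : ι → ℂ) l := fun l => by
        rw [Pi.single_apply]
        split_ifs <;> simp
      have := res_mem_ann n2 n3 n4 fr.p0 (fr.nrm_agree hP₁ hn)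
        (fun l => P.v.map_sub_le (ζ2 _ (D1 j).1 l ▸ (ζ3 l j).2) (h1 l).1)
        ((col_mem_ann fr.det).1 (D5 j))
      convert this using 1
      ext l
      simp only [Function.comp, Pi.sub_apply, dv_apply, ← ζ2 _ (D1 j).1 l,
        Plc.r_sub (ζ3 l j).2 (h1 l).1, (h1 l).2]
    have n6 : ∀ j : {i // i ∉ t}, ∀ l, θ j l ∈ x.kt := fun j => θ1 j
    have n7 : ∀ l, A.pv (fun j : {i // i ∉ t} => θ j) x.a (D l) = 0 := fun l =>
      funext fun j => congrFun (θ2 l) j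
    change A.Ndg (ini (fun j => Q.v (w.p j)) (act w.G x.N))
      (acl (Q.res w.Kp ∪ range (Q.r ∘ fun j : t => W j)) : Set ℂ)
      (Q.r ∘ (w.M⁻¹ *ᵥ (Φ ∘ x.z - x.z))) b₀ fun j : {i // i ∉ t} => θ j
    refine Sur.ndg (fun v c => ?_) ?_
    · rw [eW, h.res_eq, eu, ← ini_congr fun i j =>
        h.agree.le (h.le (fr.lep (fr.pm i))) (h.le (fr.lep (fr.pm j)))]
      obtain ⟨D₁, d1, d2⟩ := h.pair hA k2 hP hD hY hπ ha a1 hr n6 n7 fr.cp.cnt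
        (θ3.comp _ Subtype.val_injective) (eU' ▸ T2) c
      obtain ⟨D₂, d3, d4⟩ := h.sur (((n3.act n4).ini _).mono (n2.le_res n1)) ζ1 ζ3 ζ6 n5
        (h.thin hA k2 hP hD hY hπ ha a1 hr n6 n7)
        (v - dv (fun l => Q.r (i (tay δ (ζ l)) - ζ l)) D₁)
      refine ⟨D₁ + D₂, add_mem d1 d3.1, ?_, by rw [map_add, d2, ((mem_thin A).1 d3).2, add_zero]⟩
      rw [map_add, add_comm, add_sub_assoc, ← neg_sub v, ← sub_eq_add_neg]
      exact d4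
    · have h1 := (finite_range (Φ ∘ x.z)).union (finite_range (A.crd a'))
      have h2 := trd_bound h1 hW (fun j => W1 j j.2) (u := w.M⁻¹ *ᵥ (Φ ∘ x.z - x.z))
        (mulVec_mem (fun i j => l1 (fr.lep (fr.inv_mem i j))) fun j =>
          sub_mem (subset_acl _ (Or.inr (mem_pt_left j))) (l1 (hz j))) l2 hr
      have h3 := trd_anti (F := x.k') h1 fun c hc => subset_acl _ (fr.lep (fr.le' hc))
      have h4 := trd_map Φ (F := x.k') ((finite_range x.z).union (finite_range (A.crd x.a)))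
      rw [f1, ← pt, ← pt_map a1] at h4
      have h5 := hx.ob.ndg.le
      have h6 := Fintype.card_subtype_le (· ∈ t)
      rw [finrank_ini, finrank_act fr.gr.det, Fintype.card_subtype_compl]
      unfold pt at h4 ⊢
      omega
  · intro Q' q1 D' e' q2 q3 j hj
    have q4 : D' ∈ kil (w.K₁ : Set ℂ) ∧ θ j ⬝ᵥ A.dl x.a D' = e' j := by
      rcases q3 with ⟨q3, rfl⟩ | ⟨l, -, q3, rfl⟩
      · rw [A.dl_eq_zero (kil_anti (range_subset_iff.2 ha) q3), dotProduct_zero]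
        exact ⟨kil_anti fr.lep q3, rfl⟩
      · rw [dl_congr_der fun j => q3 _ (ha j)]
        exact ⟨fun c hc => (q3 c (fr.lep hc)).trans ((Y1 l).kil c (Or.inl hc)), congrFun (Y2 l) j⟩
    have q5 := W4 j hj Q' q1 D' (kil_anti k1 q4.1) (q4.1 π π1) q2
    rwa [dp j hj D' (kil_anti k1 q4.1), dp j hj D' (kil_anti k1 q4.1), q4.2] at q5

end Pool.Agent.P.MP_f17f76_ag.Hgc
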