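import Pool.Agent.P.MP_f17f76_ag.E.Tan

/-!
Normalised homogeneous coordinates and polynomials with coefficients in a subfield.
-/

namespace Pool.Agent.P.MP_f17f76_ag.E

open MvPolynomial

section nrm

variable {K K' : Type} [Field K] [Field K'] {N : ℕ} {y y' : Fin N → K} {c : K}

open Classical in
/-- The first nonzero coordinate. -/
noncomputable def piv (y : Fin N → K) : K := if h : ∃ j, y j ≠ 0 then y (Fin.find _ h) else 1

/-- The vector scaled so that its first nonzero coordinate is `1`. -/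
noncomputable def nrm (y : Fin N → K) : Fin N → K := (piv y)⁻¹ • y

theorem piv_eq {j : Fin N} (hj : y j ≠ 0) (h : ∀ i < j, y i = 0) : piv y = y j := by
  classical
  rw [piv, dif_pos ⟨j, hj⟩, (Fin.find_eq_iff _).2 ⟨hj, fun i hi => not_not.2 (h i hi)⟩]

theorem exists_piv (hy : y ≠ 0) : ∃ j, y j ≠ 0 ∧ ∀ i < j, y i = 0 := by
  classical
  have h := Function.ne_iff.1 hy
  exact ⟨_, Fin.find_spec h, fun i hi => not_not.1 (Fin.find_min h hi)⟩

@[simp] theorem piv_zero : piv (0 : Fin N → K) = 1 := by simp [piv]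

theorem piv_ne_zero (y : Fin N → K) : piv y ≠ 0 := by
  rcases eq_or_ne y 0 with rfl | h
  · simp
  · obtain ⟨j, h1, h2⟩ := exists_piv h
    rwa [piv_eq h1 h2]

theorem piv_smul (hc : c ≠ 0) (hy : y ≠ 0) : piv (c • y) = c * piv y := by
  obtain ⟨j, h1, h2⟩ := exists_piv hy
  rw [piv_eq h1 h2, piv_eq (y := c • y) (j := j) (mul_ne_zero hc h1) fun i hi => by simp [h2 i hi]]
  rfl

theorem nrm_smul (hc : c ≠ 0) (y : Fin N → K) : nrm (c • y) = nrm y := by
  rcases eq_or_ne y 0 with rfl | h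
  · simp
  · rw [nrm, nrm, piv_smul hc h, smul_smul, mul_inv_rev, inv_mul_cancel_right₀ hc]

theorem piv_smul_nrm (y : Fin N → K) : piv y • nrm y = y := smul_inv_smul₀ (piv_ne_zero y) y

theorem nrm_ne_zero (hy : y ≠ 0) : nrm y ≠ 0 := smul_ne_zero (inv_ne_zero (piv_ne_zero y)) hy

@[simp] theorem nrm_nrm (y : Fin N → K) : nrm (nrm y) = nrm y :=
  nrm_smul (inv_ne_zero (piv_ne_zero y)) y

theorem exists_nrm_eq_one (hy : y ≠ 0) : ∃ j, nrm y j = 1 := by
  obtain ⟨j, h1, h2⟩ := exists_piv hy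
  exact ⟨j, by simp [nrm, piv_eq h1 h2, h1]⟩

theorem nrm_eq_iff (hy' : y' ≠ 0) : nrm y = nrm y' ↔ ∃ c : K, y' = c • y := by
  refine ⟨fun h => ⟨piv y' * (piv y)⁻¹, by rw [mul_smul, ← nrm, h, piv_smul_nrm]⟩, ?_⟩
  rintro ⟨c, rfl⟩
  exact (nrm_smul (left_ne_zero_of_smul hy') y).symm

theorem piv_map (φ : K →+* K') (y : Fin N → K) : piv (φ ∘ y) = φ (piv y) := by
  rcases eq_or_ne y 0 with rfl | h
  · simp [show φ ∘ (0 : Fin N → K) = 0 from funext fun _ => map_zero φ]
  · obtain ⟨j, h1, h2⟩ := exists_piv h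
    rw [piv_eq h1 h2, piv_eq (j := j) ((map_ne_zero φ).2 h1) fun i hi => by simp [h2 i hi]]
    rfl

theorem nrm_map (φ : K →+* K') (y : Fin N → K) : nrm (φ ∘ y) = φ ∘ nrm y := by
  funext i
  simp [nrm, piv_map]

theorem piv_mem {F : Subfield K} (h : ∀ i, y i ∈ F) : piv y ∈ F := by
  rcases eq_or_ne y 0 with rfl | h0
  · simp
  · obtain ⟨j, h1, h2⟩ := exists_piv h0
    exact piv_eq h1 h2 ▸ h j

theorem nrm_mem {F : Subfield K} (h : ∀ i, y i ∈ F) (i : Fin N) : nrm y i ∈ F :=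
  F.mul_mem (F.inv_mem (piv_mem h)) (h i)

end nrm

section cf

variable {K σ τ : Type} [Field K] {k k' : Subfield K} {p q : MvPolynomial σ K}

/-- The polynomials with coefficients in the subfield `k`. -/
noncomputable def cfR (σ : Type) (k : Subfield K) : Subring (MvPolynomial σ K) :=
  (map k.subtype).range

/-- All coefficients of `p` lie in `k`. -/
def Cf (k : Subfield K) (p : MvPolynomial σ K) : Prop := ∀ m, p.coeff m ∈ k

theorem cf_iff : Cf k p ↔ p ∈ cfR σ k := by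
  refine ⟨fun h => mem_range_map_iff_coeffs_subset.2 fun c hc => ?_, ?_⟩
  · obtain ⟨m, -, rfl⟩ := mem_coeffs_iff.1 hc
    exact ⟨⟨_, h m⟩, rfl⟩
  · rintro ⟨q, rfl⟩ m
    rw [coeff_map]
    exact (q.coeff m).2

theorem Cf.exists (h : Cf k p) : ∃ q : MvPolynomial σ k, map k.subtype q = p := cf_iff.1 h

theorem cf_map (q : MvPolynomial σ k) : Cf k (map k.subtype q) := cf_iff.2 ⟨q, rfl⟩

theorem Cf.mono (h : Cf k p) (hk : k ≤ k') : Cf k' p := fun m => hk (h m)

theorem cf_C {a : K} (h : a ∈ k) : Cf k (C a : MvPolynomial σ K) :=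
  cf_iff.2 ⟨C ⟨a, h⟩, map_C _ _⟩

theorem cf_X (i : σ) : Cf k (X i : MvPolynomial σ K) := cf_iff.2 ⟨X i, map_X _ _⟩

theorem cf_zero : Cf k (0 : MvPolynomial σ K) := cf_iff.2 (zero_mem _)

theorem cf_one : Cf k (1 : MvPolynomial σ K) := cf_iff.2 (one_mem _)

theorem Cf.add (hp : Cf k p) (hq : Cf k q) : Cf k (p + q) :=
  cf_iff.2 (add_mem (cf_iff.1 hp) (cf_iff.1 hq))

theorem Cf.sub (hp : Cf k p) (hq : Cf k q) : Cf k (p - q) :=
  cf_iff.2 (sub_mem (cf_iff.1 hp) (cf_iff.1 hq))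

theorem Cf.neg (hp : Cf k p) : Cf k (-p) := cf_iff.2 (neg_mem (cf_iff.1 hp))

theorem Cf.mul (hp : Cf k p) (hq : Cf k q) : Cf k (p * q) :=
  cf_iff.2 (mul_mem (cf_iff.1 hp) (cf_iff.1 hq))

theorem Cf.pow (hp : Cf k p) (n : ℕ) : Cf k (p ^ n) := cf_iff.2 (pow_mem (cf_iff.1 hp) n)

theorem cf_sum {ι : Type} {s : Finset ι} {f : ι → MvPolynomial σ K} (h : ∀ i ∈ s, Cf k (f i)) :
    Cf k (∑ i ∈ s, f i) := cf_iff.2 (sum_mem fun i hi => cf_iff.1 (h i hi))

theorem cf_prod {ι : Type} {s : Finset ι} {f : ι → MvPolynomial σ K} (h : ∀ i ∈ s, Cf k (f i)) :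
    Cf k (∏ i ∈ s, f i) := cf_iff.2 (prod_mem fun i hi => cf_iff.1 (h i hi))

theorem cf_det {n : Type} [Fintype n] [DecidableEq n] {M : Matrix n n (MvPolynomial σ K)}
    (h : ∀ i j, Cf k (M i j)) : Cf k M.det := by
  rw [Matrix.det_apply']
  exact cf_sum fun s _ => (cf_iff.2 (intCast_mem _ _)).mul (cf_prod fun i _ => h _ _)

theorem Cf.induction {P : MvPolynomial σ K → Prop} (hp : Cf k p) (h1 : ∀ a ∈ k, P (C a))
    (h2 : ∀ p q, P p → P q → P (p + q)) (h3 : ∀ p i, P p → P (p * X i)) : P p := by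
  obtain ⟨q, rfl⟩ := hp.exists
  clear hp
  induction q using MvPolynomial.induction_on with
  | C a => simpa using h1 a a.2
  | add p q hp hq => simpa using h2 _ _ hp hq
  | mul_X p i hp => simpa using h3 _ i hp

theorem Cf.aeval (hp : Cf k p) {G : σ → MvPolynomial τ K} (hG : ∀ i, Cf k (G i)) :
    Cf k (aeval G p) :=
  hp.induction (P := fun p => Cf k (MvPolynomial.aeval G p)) (fun a ha => by simpa using cf_C ha)
    (fun _ _ h h' => by simpa using h.add h') fun _ i h => by simpa using h.mul (hG i)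

theorem Cf.rename (hp : Cf k p) (f : σ → τ) : Cf k (rename f p) := by
  obtain ⟨q, rfl⟩ := hp.exists
  rw [← map_rename]
  exact cf_map _

theorem Cf.pderiv (hp : Cf k p) (i : σ) : Cf k (pderiv i p) := by
  obtain ⟨q, rfl⟩ := hp.exists
  rw [pderiv_map]
  exact cf_map _

/-- Transfer of an evaluation along a relation compatible with the ring operations. -/
theorem Cf.rel' {R : Type} [CommRing R] (hp : Cf k p) (c : K →+* R) (r : K → R → Prop)
    (h1 : ∀ a ∈ k, r a (c a)) (h2 : ∀ a b a' b', r a a' → r b b' → r (a + b) (a' + b'))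
    (h3 : ∀ a b a' b', r a a' → r b b' → r (a * b) (a' * b')) {x : σ → K} {x' : σ → R}
    (hx : ∀ i, r (x i) (x' i)) : r (eval x p) (eval₂ c x' p) :=
  hp.induction (P := fun p => r (eval x p) (eval₂ c x' p)) (fun a ha => by simpa using h1 a ha)
    (fun _ _ h h' => by simpa using h2 _ _ _ _ h h') fun _ i h => by
      simpa using h3 _ _ _ _ h (hx i)

theorem Cf.rel (hp : Cf k p) (r : K → K → Prop) (h1 : ∀ a ∈ k, r a a)
    (h2 : ∀ a b a' b', r a a' → r b b' → r (a + b) (a' + b'))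
    (h3 : ∀ a b a' b', r a a' → r b b' → r (a * b) (a' * b')) {x x' : σ → K}
    (hx : ∀ i, r (x i) (x' i)) : r (eval x p) (eval x' p) :=
  hp.rel' (RingHom.id K) r h1 h2 h3 hx

theorem Cf.eval_mem (hp : Cf k p) {O : Subring K} (hk : ∀ a ∈ k, a ∈ O) {x : σ → K}
    (hx : ∀ i, x i ∈ O) : eval x p ∈ O :=
  hp.rel (fun a _ => a ∈ O) hk (fun _ _ _ _ => add_mem) (fun _ _ _ _ => mul_mem) (x' := x) hx

theorem Cf.eval_mem' (hp : Cf k p) (hk : k ≤ k') {x : σ → K} (hx : ∀ i, x i ∈ k') :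
    eval x p ∈ k' := hp.eval_mem (O := k'.toSubring) hk hx

theorem Cf.map_eval (hp : Cf k p) (φ : K →+* K) (h : ∀ a ∈ k, φ a = a) (x : σ → K) :
    φ (eval x p) = eval (φ ∘ x) p :=
  hp.rel (fun a b => φ a = b) h (fun _ _ _ _ h h' => by rw [map_add, h, h'])
    (fun _ _ _ _ h h' => by rw [map_mul, h, h']) fun _ => rfl

/-- Transfer along an embedding of a subfield that is the identity on `k`. -/
theorem Cf.emb_eval (hp : Cf k p) {F : Subfield K} (hk : k ≤ F) (φ : F →+* K)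
    (h : ∀ a : F, a.1 ∈ k → φ a = a) (x : σ → F) :
    ∃ hx : eval (fun i => (x i).1) p ∈ F, φ ⟨_, hx⟩ = eval (φ ∘ x) p :=
  hp.rel (fun a b => ∃ ha : a ∈ F, φ ⟨a, ha⟩ = b) (fun a ha => ⟨hk ha, h _ ha⟩)
    (fun _ _ _ _ ⟨h1, h2⟩ ⟨h3, h4⟩ => ⟨add_mem h1 h3, by rw [← h2, ← h4, ← map_add]; rfl⟩)
    (fun _ _ _ _ ⟨h1, h2⟩ ⟨h3, h4⟩ => ⟨mul_mem h1 h3, by rw [← h2, ← h4, ← map_mul]; rfl⟩)
    fun i => ⟨(x i).2, rfl⟩

theorem Cf.der [Finite σ] (hp : Cf k p) {D : Der K} (hD : D ∈ kil (k : Set K)) (v : σ → K) :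
    D (eval v p) = tg v (dv v D) p := der_eval' D p (fun m => hD _ (hp m)) v

theorem cf_of_coeffs {S : Set K} (h : (p.coeffs : Set K) ⊆ S) (hS : S ⊆ k) : Cf k p := by
  intro m
  by_cases h0 : p.coeff m = 0
  · rw [h0]
    exact zero_mem _
  · exact hS (h (mem_coeffs_iff.2 ⟨m, mem_support_iff.2 h0, rfl⟩))

theorem countable_cf [Countable σ] (hk : (k : Set K).Countable) :
    {p : MvPolynomial σ K | Cf k p}.Countable := by
  have : Countable k := hk
  have : Countable (MvPolynomial σ k) := Cardinal.mk_le_aleph0_iff.1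
    (cardinalMk_le_max_lift.trans (by simp))
  exact (Set.countable_range (map k.subtype)).mono fun p hp => cf_iff.1 hp

end cf

/-- An injective matrix has an invertible square submatrix of rows. -/
theorem exists_submatrix_det {K m n : Type} [Field K] [Fintype m] [Fintype n] [DecidableEq n]
    (M : Matrix m n K) (h : Function.Injective M.mulVec) :
    ∃ e : n → m, (M.submatrix e id).det ≠ 0 := by
  obtain ⟨b, h1, h2, h3⟩ := exists_linearIndependent K (Set.range M.row)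
  have h4 : Module.finrank K (Submodule.span K (Set.range M.row)) = Fintype.card n := by
    rw [← Matrix.rank_eq_finrank_span_row, Matrix.rank, LinearMap.finrank_range_of_inj h,
      Module.finrank_fintype_fun_eq_card]
  have := ((Set.finite_range _).subset h1).fintype
  rw [← h2, finrank_span_set_eq_card h3, Set.toFinset_card] at h4
  let e := Fintype.equivOfCardEq h4.symm
  choose f hf using fun i => h1 (e i).2
  refine ⟨f, (Matrix.isUnit_iff_isUnit_det _).1 (Matrix.linearIndependent_rows_iff_isUnit.1 ?_)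
    |>.ne_zero⟩
  rw [show (M.submatrix f id).row = Subtype.val ∘ e from funext hf]
  exact h3.comp e e.injective

end Pool.Agent.P.MP_f17f76_ag.E
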