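import Pool.Agent.P.MP_f17f76_ag.E.Nd

/-!
Affine charts: the invariant vector fields and forms are polynomial on a whole chart.
-/

namespace Pool.Agent.P.MP_f17f76_ag.AbVar

open MvPolynomial Filter Topology Module E Set

variable {g N : ℕ} {A : AbVar g N} {k : Subfield ℂ} {D : Der ℂ} {i : Fin N} {w : Fin g → ℂ}
  {R H : Fin g → Fin N → MvPolynomial (Fin N) k} {p : MvPolynomial (Fin N) k}

theorem _root_.Pool.Agent.P.MP_f17f76_ag.E.eval_map_sub {σ : Type} (y : σ → ℂ)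
    (p : MvPolynomial σ k) : eval y (map k.subtype p) = aeval y p := by
  rw [eval_map, aeval_def]
  rfl

theorem _root_.Pool.Agent.P.MP_f17f76_ag.E.tg_map_sub {σ : Type} [Fintype σ] (y ξ : σ → ℂ)
    (p : MvPolynomial σ k) : tg y ξ (map k.subtype p) = ∑ j, aeval y (pderiv j p) * ξ j := by
  simp only [tg_eq_sum, pderiv_map, eval_map_sub]

theorem _root_.Pool.Agent.P.MP_f17f76_ag.E.der_aeval {σ : Type} [Fintype σ]
    (hD : D ∈ kil (k : Set ℂ)) (y : σ → ℂ) (p : MvPolynomial σ k) :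
    D (aeval y p) = ∑ j, aeval y (pderiv j p) * D (y j) := by
  rw [← eval_map_sub, (cf_map p).der hD, tg_map_sub]
  rfl

theorem aff_self (hw : A.θ w i ≠ 0) : A.aff i w i = 1 := inv_mul_cancel₀ hw

theorem crd_ne_zero_iff : A.crd w i ≠ 0 ↔ A.θ w i ≠ 0 := mul_ne_zero_iff_left (A.piv_inv_ne w)

theorem aff_eq_crd (A : AbVar g N) (i : Fin N) (w : Fin g → ℂ) :
    A.aff i w = (A.crd w i)⁻¹ • A.crd w := by
  rw [crd_eq, smul_smul, Pi.smul_apply, smul_eq_mul, mul_inv_rev, inv_mul_cancel_right₀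
    (A.piv_inv_ne w), aff]

theorem nrm_aff (hw : A.θ w i ≠ 0) : nrm (A.aff i w) = A.crd w := A.nrm_theta (inv_ne_zero hw) w

theorem exists_aff (A : AbVar g N) (w : Fin g → ℂ) : ∃ i, A.θ w i ≠ 0 ∧ A.aff i w = A.crd w := by
  obtain ⟨j, h1, h2⟩ := exists_piv (A.ne_zero w)
  exact ⟨j, h1, by rw [crd_eq, piv_eq h1 h2, aff]⟩

theorem aff_analytic (hw : A.θ w i ≠ 0) : AnalyticAt ℂ (A.aff i) w :=
  ((analyticAt_pi_iff.1 (A.analytic w trivial) i).inv hw).smul (A.analytic w trivial)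

theorem eventually_chart (hw : A.θ w i ≠ 0) : ∀ᶠ u in 𝓝 w, A.θ u i ≠ 0 :=
  (analyticAt_pi_iff.1 (A.analytic w trivial) i).continuousAt.eventually_ne hw

theorem hasDerivAt_aff (hw : A.θ w i ≠ 0) (v : Fin g → ℂ) :
    HasDerivAt (fun τ : ℂ => A.aff i (w + τ • v)) (fderiv ℂ (A.aff i) w v) 0 := by
  have h1 : HasDerivAt (fun τ : ℂ => w + τ • v) v 0 := by
    simpa using ((hasDerivAt_id (0 : ℂ)).smul_const v).const_add w
  refine HasFDerivAt.comp_hasDerivAt (l := A.aff i) (f := fun τ : ℂ => w + τ • v) (0 : ℂ) ?_ h1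
  rw [zero_smul, add_zero]
  exact (aff_analytic hw).differentiableAt.hasFDerivAt

theorem eventually_line (hw : A.θ w i ≠ 0) (v : Fin g → ℂ) :
    ∀ᶠ τ : ℂ in 𝓝 0, A.θ (w + τ • v) i ≠ 0 :=
  (Continuous.tendsto' (f := fun τ : ℂ => w + τ • v) (by fun_prop) 0 w (by simp)).eventually
    (eventually_chart hw)

/-- A polynomial identity on the chart can be differentiated. -/
theorem tg_aff (hw : A.θ w i ≠ 0) (v : Fin g → ℂ) {f : ℂ → ℂ} {c : ℂ} (hf : HasDerivAt f c 0)
    (h : ∀ τ : ℂ, A.θ (w + τ • v) i ≠ 0 → aeval (A.aff i (w + τ • v)) p = f τ) :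
    ∑ j, aeval (A.aff i w) (pderiv j p) * fderiv ℂ (A.aff i) w v j = c := by
  have h1 := hasDerivAt_eval (map k.subtype p) (hasDerivAt_pi.1 (hasDerivAt_aff hw v))
  simp only [zero_smul, add_zero, tg_map_sub, eval_map_sub] at h1
  exact h1.unique (hf.congr_of_eventuallyEq ((eventually_line hw v).mono h))

theorem fderiv_aff_self (hw : A.θ w i ≠ 0) (v : Fin g → ℂ) : fderiv ℂ (A.aff i) w v i = 0 :=
  (hasDerivAt_pi.1 (hasDerivAt_aff hw v) i).unique ((hasDerivAt_const (0 : ℂ) (1 : ℂ)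
    ).congr_of_eventuallyEq ((eventually_line hw v).mono fun _ => aff_self))

theorem fderiv_aff_tm (hw : A.θ w i ≠ 0) (v : Fin g → ℂ) :
    ∃ t, fderiv ℂ (A.aff i) w v = A.tm w (A.θ w i)⁻¹ (v, t) := by
  have h1 : HasDerivAt (fun τ : ℂ => w + τ • v) v 0 := by
    simpa using ((hasDerivAt_id (0 : ℂ)).smul_const v).const_add w
  simpa using A.deriv_cone h1 (hasDerivAt_aff hw v) (fun τ => ⟨_, rfl⟩) (inv_ne_zero hw)
    (by simp [aff])

theorem tm_sub_aff (hw : A.θ w i ≠ 0) (v : Fin g → ℂ) (t : ℂ) : A.tm w (A.θ w i)⁻¹ (v, t) =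
    fderiv ℂ (A.aff i) w v + A.tm w (A.θ w i)⁻¹ (v, t) i • A.aff i w := by
  obtain ⟨t', h⟩ := fderiv_aff_tm hw v
  have h1 : A.tm w (A.θ w i)⁻¹ (v, t) = fderiv ℂ (A.aff i) w v + (t - t') • A.aff i w := by
    rw [h, aff, tm_add_smul, add_sub_cancel]
  rw [h1, Pi.add_apply, fderiv_aff_self hw, Pi.smul_apply, aff_self hw, zero_add, smul_eq_mul,
    mul_one]

theorem Over.dv_aff (h : A.Over k) (hD : D ∈ kil (k : Set ℂ)) (hw : A.θ w i ≠ 0) :
    dv (A.aff i w) D = fderiv ℂ (A.aff i) w (A.dl w D) := by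
  obtain ⟨t, ht⟩ := h.dl_spec' hD w (inv_ne_zero hw)
  have h1 := tm_sub_aff hw (A.dl w D) t
  rwa [← ht, dv_apply, ← aff, aff_self hw, D.map_one_eq_zero, zero_smul, add_zero] at h1

/-- The ideal over `k` of the affine chart `i`. -/
noncomputable def chI (A : AbVar g N) (k : Subfield ℂ) (i : Fin N) :
    Ideal (MvPolynomial (Fin N) k) := vanishingIdeal k (A.aff i '' {w | A.θ w i ≠ 0})

theorem mem_chI : p ∈ A.chI k i ↔ ∀ w, A.θ w i ≠ 0 → aeval (A.aff i w) p = 0 :=
  forall_mem_image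

theorem X_sub_one_mem : X i - 1 ∈ A.chI k i := mem_chI.2 fun w hw => by simp [aff_self hw]

theorem mem_chI_of_lie (hp : map k.subtype p ∈ A.lieI ⊤) : p ∈ A.chI k i :=
  mem_chI.2 fun w _ => eval_map_sub _ p ▸ A.mem_lieI.1 hp w trivial _

theorem Over.zero_chI (h : A.Over k) {y : Fin N → ℂ} (hy : ∀ p ∈ A.chI k i, aeval y p = 0) :
    ∃ w, A.θ w i ≠ 0 ∧ y = A.aff i w := by
  obtain ⟨w, -, t, rfl⟩ := (h.zero_iff isLie_top (y := y)).1 fun p hp hc => by
    obtain ⟨q, rfl⟩ := hc.exists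
    exact eval_map_sub y q ▸ hy q (mem_chI_of_lie hp)
  have h1 : t * A.θ w i = 1 := by simpa [sub_eq_zero] using hy _ X_sub_one_mem
  exact ⟨w, right_ne_zero_of_mul_eq_one h1, by rw [aff, eq_inv_of_mul_eq_one_left h1]⟩

/-- Nullstellensatz on a chart. -/
theorem Over.chart_top (h : A.Over k) {J : Ideal (MvPolynomial (Fin N) k)} (h1 : A.chI k i ≤ J)
    (h2 : ∀ w, A.θ w i ≠ 0 → ∃ r ∈ J, aeval (A.aff i w) r ≠ 0) : 1 ∈ J := by
  by_contra h3
  obtain ⟨m, hm, h4⟩ := J.exists_le_maximal ((Ideal.ne_top_iff_one J).2 h3)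
  obtain ⟨y, rfl⟩ := eq_vanishingIdeal_singleton_of_isMaximal ℂ hm
  obtain ⟨w, hw, rfl⟩ := h.zero_chI fun p hp => h4 (h1 hp) y rfl
  obtain ⟨r, hr, h5⟩ := h2 w hw
  exact h5 (h4 hr _ rfl)

/-- `R` are the invariant vector fields and `H` the invariant forms in the chart `i`. -/
structure Ch (A : AbVar g N) (k : Subfield ℂ) (i : Fin N)
    (R H : Fin g → Fin N → MvPolynomial (Fin N) k) : Prop where
  field : ∀ w, A.θ w i ≠ 0 → ∀ v j,
    fderiv ℂ (A.aff i) w v j = ∑ l, aeval (A.aff i w) (R l j) * v l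
  form : ∀ w, A.θ w i ≠ 0 → ∀ (v : Fin g → ℂ) l,
    v l = ∑ j, aeval (A.aff i w) (H l j) * fderiv ℂ (A.aff i) w v j

theorem Over.exists_ch (h : A.Over k) (i : Fin N) : ∃ R H, A.Ch k i R H := by
  obtain ⟨R, hR⟩ := h.chart_top (i := i) (J :=
    { carrier := {ρ | ∃ R : Fin g → Fin N → MvPolynomial (Fin N) k, ∀ w, A.θ w i ≠ 0 → ∀ v j,
        aeval (A.aff i w) ρ * fderiv ℂ (A.aff i) w v j = ∑ l, aeval (A.aff i w) (R l j) * v l}
      add_mem' := fun ⟨R, hR⟩ ⟨R', hR'⟩ => ⟨R + R', fun w hw v j => by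
        simp [add_mul, hR w hw, hR' w hw, Finset.sum_add_distrib]⟩
      zero_mem' := ⟨0, by simp⟩
      smul_mem' := fun c _ ⟨R, hR⟩ => ⟨c • R, fun w hw v j => by
        simp [mul_assoc, hR w hw, Finset.mul_sum]⟩ })
    (fun p hp => ⟨0, fun w hw v j => by simp [mem_chI.1 hp w hw]⟩) fun w₀ hw₀ => by
      obtain ⟨ρ, B, h1, h2, h3, h4⟩ := h.field_chart w₀ (inv_ne_zero hw₀)
      obtain ⟨ρ, rfl⟩ := h1.exists
      choose B' hB using fun l j => (h2 l j).exists
      simp only [← hB, eval_map_sub] at h3 h4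
      refine ⟨ρ * ρ, ⟨fun l j => ρ * (B' l j - B' l i * X j), fun w hw v j => ?_⟩,
        map_mul (aeval (A.aff i w₀)) ρ ρ ▸ mul_ne_zero h3 h3⟩
      rcases eq_or_ne (aeval (A.aff i w) ρ) 0 with h5 | h5
      · simp [h5]
      obtain ⟨c, hc⟩ := h4 w _ v h5
      have h6 := congrFun (tm_sub_aff hw v c) j
      have h7 := congrFun hc j
      have h8 := congrFun hc i
      simp only [← aff.eq_1, Pi.smul_apply, smul_eq_mul, Pi.add_apply] at h6 h7 h8
      simp only [map_mul, map_sub, aeval_X, mul_assoc, ← Finset.mul_sum, sub_mul,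
        Finset.sum_sub_distrib, mul_comm (A.aff i w j), h7]
      simp only [← mul_assoc, ← Finset.sum_mul, h8]
      linear_combination (-aeval (A.aff i w) ρ * aeval (A.aff i w) ρ) * h6
  obtain ⟨H, hH⟩ := h.chart_top (i := i) (J :=
    { carrier := {ρ | ∃ H : Fin g → Fin N → MvPolynomial (Fin N) k, ∀ w, A.θ w i ≠ 0 → ∀ v l,
        aeval (A.aff i w) ρ * v l = ∑ j, aeval (A.aff i w) (H l j) * fderiv ℂ (A.aff i) w v j}
      add_mem' := fun ⟨R, hR⟩ ⟨R', hR'⟩ => ⟨R + R', fun w hw v j => by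
        simp [add_mul, hR w hw, hR' w hw, Finset.sum_add_distrib]⟩
      zero_mem' := ⟨0, by simp⟩
      smul_mem' := fun c _ ⟨R, hR⟩ => ⟨c • R, fun w hw v j => by
        simp [mul_assoc, hR w hw, Finset.mul_sum]⟩ })
    (fun p hp => ⟨0, fun w hw v j => by simp [mem_chI.1 hp w hw]⟩) fun w₀ hw₀ => by
      obtain ⟨ρ, B, h1, h2, h3, h4⟩ := h.dl_chart w₀ (inv_ne_zero hw₀)
      obtain ⟨ρ, rfl⟩ := h1.exists
      choose B' hB using fun l j => (h2 l j).exists
      simp only [← hB, eval_map_sub] at h3 h4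
      refine ⟨ρ, ⟨B', fun w hw v l => ?_⟩, h3⟩
      obtain ⟨t, ht⟩ := fderiv_aff_tm hw v
      rw [ht]
      exact h4 w _ v t l
  exact ⟨R, H, fun w hw v j => by simpa using hR w hw v j,
    fun w hw v j => by simpa using hH w hw v j⟩

theorem Ch.dl (c : A.Ch k i R H) (h : A.Over k) (hD : D ∈ kil (k : Set ℂ)) (hw : A.θ w i ≠ 0)
    (l : Fin g) : A.dl w D l = ∑ j, aeval (A.aff i w) (H l j) * D (A.aff i w j) := by
  rw [c.form w hw (A.dl w D) l, ← h.dv_aff hD hw]
  rfl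

theorem Ch.der (c : A.Ch k i R H) (h : A.Over k) (hD : D ∈ kil (k : Set ℂ)) (hw : A.θ w i ≠ 0)
    (j : Fin N) : D (A.aff i w j) = ∑ l, aeval (A.aff i w) (R l j) * A.dl w D l := by
  rw [← c.field w hw, ← h.dv_aff hD hw]
  rfl

theorem Ch.single (c : A.Ch k i R H) (hw : A.θ w i ≠ 0) (l : Fin g) (j : Fin N) :
    fderiv ℂ (A.aff i) w (Pi.single l 1) j = aeval (A.aff i w) (R l j) := by
  simp [c.field w hw, Pi.single_apply]

theorem Ch.dual (c : A.Ch k i R H) (l m : Fin g) :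
    ∑ j, H l j * R m j - (if l = m then 1 else 0) ∈ A.chI k i := mem_chI.2 fun w hw => by
  have := c.form w hw (Pi.single m 1) l
  simp only [c.single hw, Pi.single_apply] at this
  simp only [map_sub, map_sum, map_mul, ← this, apply_ite (aeval (A.aff i w)), map_one, map_zero,
    sub_self]

theorem Ch.pres (c : A.Ch k i R H) (hp : p ∈ A.chI k i) (l : Fin g) :
    ∑ j, pderiv j p * R l j ∈ A.chI k i := mem_chI.2 fun w hw => by
  simpa [c.single hw] using tg_aff hw (Pi.single l 1) (hasDerivAt_const (0 : ℂ) (0 : ℂ))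
    fun _ => mem_chI.1 hp _

theorem Ch.comm (c : A.Ch k i R H) (l m : Fin g) (n : Fin N) :
    ∑ j, pderiv j (R m n) * R l j - ∑ j, pderiv j (R l n) * R m j ∈ A.chI k i := by
  refine mem_chI.2 fun w hw => ?_
  have key : ∀ l m, ∑ j, aeval (A.aff i w) (pderiv j (R m n)) * aeval (A.aff i w) (R l j) =
      fderiv ℂ (fderiv ℂ (A.aff i)) w (Pi.single l 1) (Pi.single m 1) n := fun l m => by
    have h1 : HasDerivAt (fun τ : ℂ => w + τ • Pi.single l 1) (Pi.single l (1 : ℂ)) 0 := by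
      simpa using ((hasDerivAt_id (0 : ℂ)).smul_const (Pi.single l (1 : ℂ))).const_add w
    have h2 : HasDerivAt (fun τ : ℂ => fderiv ℂ (A.aff i) (w + τ • Pi.single l 1))
        (fderiv ℂ (fderiv ℂ (A.aff i)) w (Pi.single l 1)) 0 :=
      HasFDerivAt.comp_hasDerivAt (f := fun τ : ℂ => w + τ • Pi.single l 1) (0 : ℂ) (by
        rw [zero_smul, add_zero]
        exact (aff_analytic hw).fderiv.differentiableAt.hasFDerivAt) h1
    simpa [c.single hw] using tg_aff hw (Pi.single l 1) (hasDerivAt_pi.1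
      (h2.clm_apply (hasDerivAt_const 0 (Pi.single m 1))) n) fun _ h => (c.single h m n).symm
  simp only [map_sub, map_sum, map_mul, key]
  rw [(aff_analytic hw).contDiffAt.isSymmSndFDerivAt_of_omega.eq, sub_self]

section md

variable {B M : Type} [CommRing B] [AddCommGroup M] [Module B M]
  {φ : MvPolynomial (Fin N) k →+* B} {ξ : Fin N → M}

theorem _root_.Pool.Agent.P.MP_f17f76_ag.E.det_smul_eq_zero {S n : Type} [CommRing S] [Fintype n]
    [DecidableEq n] (φ : S →+* B) (T : Matrix n n S) {ξ : n → M}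
    (hT : ∀ a, ∑ j, φ (T a j) • ξ j = 0) (b : n) : φ T.det • ξ b = 0 := by
  have h5 : ∑ a, φ (T.adjugate b a) • ∑ j, φ (T a j) • ξ j = 0 := by simp [hT]
  simp only [Finset.smul_sum, smul_smul, ← map_mul] at h5
  rw [Finset.sum_comm] at h5
  simp only [← Finset.sum_smul, ← map_sum] at h5
  have h6 := fun j => congrFun₂ T.adjugate_mul b j
  simp only [Matrix.mul_apply, Matrix.smul_apply, Matrix.one_apply, smul_eq_mul] at h6
  simpa [h6, apply_ite φ, ite_smul] using h5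

theorem Ch.eq_zero_pt (c : A.Ch k i R H) {J : Set (MvPolynomial (Fin N) ℂ)}
    (h4 : Ideal.span J = A.lieI ⊤) (hw : A.θ w i ≠ 0) {x : Fin N → ℂ}
    (h1 : ∀ p ∈ J, tg (A.aff i w) x p = 0) (h2 : x i = 0)
    (h3 : ∀ l, ∑ j, aeval (A.aff i w) (H l j) * x j = 0) : x = 0 := by
  obtain ⟨v, -, t, h5⟩ := A.zar_lie isLie_top (w := w) trivial (inv_ne_zero hw) (ξ := x) (by
    rw [← h4]
    exact mem_zar_span (fun p hp => A.mem_lieI.1 (h4.le (Ideal.subset_span hp)) w trivial _) h1)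
  have h6 := tm_sub_aff hw v t
  rw [← h5, h2, zero_smul, add_zero] at h6
  obtain rfl : v = 0 := funext fun l => by
    rw [c.form w hw v l, ← h6]
    exact h3 l
  rw [h6, map_zero]

/-- A module valued tangent vector killed by the invariant forms vanishes. -/
theorem Ch.eq_zero (c : A.Ch k i R H) (h : A.Over k)
    (hφ : ∀ p ∈ A.chI k i, ∀ x : M, φ p • x = 0)
    (h1 : ∀ p ∈ A.chI k i, ∑ j, φ (pderiv j p) • ξ j = 0) (h2 : ∀ l, ∑ j, φ (H l j) • ξ j = 0) :
    ξ = 0 := by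
  obtain ⟨J, h3, h4⟩ := h.lie ⊤ isLie_top
  choose q hq using fun p : J => (h3 p p.2).exists
  let P : Option J → MvPolynomial (Fin N) k := fun o => o.elim (X i - 1) q
  let T : Matrix (Option J ⊕ Fin g) (Fin N) (MvPolynomial (Fin N) k) :=
    Matrix.of (Sum.elim (fun o j => pderiv j (P o)) H)
  have hP : ∀ o, P o ∈ A.chI k i := by
    rintro (_ | p)
    · exact X_sub_one_mem
    · exact mem_chI_of_lie (h4.le (Ideal.subset_span ((hq p).symm ▸ p.2)))
  have hT : ∀ a, ∑ j, φ (T a j) • ξ j = 0 := Sum.forall.2 ⟨fun o => h1 _ (hP o), h2⟩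
  have := h.chart_top (i := i) (J :=
    { carrier := {r | ∀ n, φ r • ξ n = 0}
      add_mem' := fun ha hb n => by rw [map_add, add_smul, ha n, hb n, add_zero]
      zero_mem' := fun n => by simp
      smul_mem' := fun c _ ha n => by rw [smul_eq_mul, map_mul, mul_smul, ha n, smul_zero] })
    (fun p hp n => hφ p hp _) fun w hw => by
      obtain ⟨e, he⟩ := exists_submatrix_det (T.map (aeval (A.aff i w))) (by
        refine (injective_iff_map_eq_zero (T.map (aeval (A.aff i w))).mulVecLin).2 fun x hx => ?_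
        refine c.eq_zero_pt h4 hw (fun p hp => ?_) ?_ fun l => congrFun hx (Sum.inr l)
        · rw [show p = _ from (hq ⟨p, hp⟩).symm, tg_map_sub]
          exact congrFun hx (Sum.inl (some ⟨p, hp⟩))
        · have h5 := tg_map_sub (A.aff i w) x (X i - 1 : MvPolynomial (Fin N) k)
          rw [map_sub, map_X, map_one, tg_sub, tg_X, ← C_1, tg_C, sub_zero] at h5
          exact h5.trans (congrFun hx (Sum.inl none)))
      exact ⟨(T.submatrix e id).det, det_smul_eq_zero φ _ fun a => hT (e a),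
        ((aeval (A.aff i w)).map_det _).trans_ne he⟩
  exact funext fun n => by simpa using this n

/-- The chart formula for module valued tangent vectors. -/
theorem Ch.mod (c : A.Ch k i R H) (h : A.Over k)
    (hφ : ∀ p ∈ A.chI k i, ∀ x : M, φ p • x = 0)
    (h1 : ∀ p ∈ A.chI k i, ∑ j, φ (pderiv j p) • ξ j = 0) (n : Fin N) :
    ξ n = ∑ l, φ (R l n) • ∑ j, φ (H l j) • ξ j := by
  have key : ∀ (u : Fin N → MvPolynomial (Fin N) k) (η : Fin g → M),
      ∑ j, φ (u j) • ∑ l, φ (R l j) • η l = ∑ l, φ (∑ j, u j * R l j) • η l := fun u η => by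
    simp only [Finset.smul_sum, smul_smul, map_sum, map_mul, Finset.sum_smul]
    exact Finset.sum_comm
  refine sub_eq_zero.1 (congrFun (c.eq_zero (ξ := fun n => ξ n - ∑ l, φ (R l n) •
    ∑ j, φ (H l j) • ξ j) h hφ (fun p hp => ?_) fun l => ?_) n)
  · simp only [smul_sub, Finset.sum_sub_distrib, h1 p hp, key, hφ _ (c.pres hp _),
      Finset.sum_const_zero, sub_self]
  · have h2 := fun m => hφ _ (c.dual l m)
    simp only [map_sub, sub_smul, sub_eq_zero] at h2
    simp only [smul_sub, Finset.sum_sub_distrib, key, h2]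
    simp [apply_ite φ, ite_smul]

theorem _root_.Pool.Agent.P.MP_f17f76_ag.E.der_hom {S T σ : Type} [CommRing S] [CommRing T]
    [Algebra S B] [Module S M] [Fintype σ] (d : Derivation S B M) (φ : MvPolynomial σ T →+* B)
    (hd : ∀ a, d (φ (C a)) = 0) (p : MvPolynomial σ T) :
    d (φ p) = ∑ j, φ (pderiv j p) • d (φ (X j)) := by
  classical
  induction p using MvPolynomial.induction_on with
  | C a => simp [hd]
  | add p q hp hq => simp only [map_add, hp, hq, add_smul, Finset.sum_add_distrib]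
  | mul_X p i hp =>
    simp only [map_mul, Derivation.leibniz, smul_eq_mul, hp, map_add, pderiv_X, add_smul,
      Finset.sum_add_distrib, Finset.smul_sum, mul_smul]
    congr 1
    rw [Finset.sum_eq_single i] <;> simp +contextual [eq_comm]

/-- The chart formula for module valued derivations at a point of the chart over a ring. -/
theorem Ch.mod_der (c : A.Ch k i R H) (h : A.Over k) {S : Type} [CommRing S] [Algebra S B]
    [Module S M] (d : Derivation S B M) (hφ : ∀ p ∈ A.chI k i, φ p = 0)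
    (hd : ∀ a, d (φ (C a)) = 0) (n : Fin N) :
    d (φ (X n)) = ∑ l, φ (R l n) • ∑ j, φ (H l j) • d (φ (X j)) :=
  c.mod h (ξ := fun j => d (φ (X j))) (fun p hp x => by rw [hφ p hp, zero_smul])
    (fun p hp => by rw [← der_hom d φ hd, hφ p hp, map_zero]) n

end md

/-- Smoothness of the chart in Jacobian form. -/
theorem Ch.jac (c : A.Ch k i R H) (h : A.Over k) (n : Fin N) :
    ∃ (m : ℕ) (a p : Fin m → MvPolynomial (Fin N) k), (∀ s, p s ∈ A.chI k i) ∧ ∀ j,
      (if n = j then 1 else 0) - ∑ l, R l n * H l j - ∑ s, a s * pderiv j (p s) ∈ A.chI k i := by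
  let S₁ : Submodule (MvPolynomial (Fin N) k) (Fin N → MvPolynomial (Fin N) k) :=
    Submodule.span _ ((fun p j => pderiv j p) '' A.chI k i)
  let S₂ : Submodule (MvPolynomial (Fin N) k) (Fin N → MvPolynomial (Fin N) k) :=
    Submodule.pi univ fun _ => A.chI k i
  have key : ∀ u : Fin N → MvPolynomial (Fin N) k,
      ∑ j, u j • (S₁ ⊔ S₂).mkQ (Pi.single j 1) = (S₁ ⊔ S₂).mkQ u := fun u => by
    simp only [← map_smul, ← map_sum, ← pi_eq_sum_univ']
  have h1 := c.mod h (φ := RingHom.id _) (ξ := fun j => (S₁ ⊔ S₂).mkQ (Pi.single j 1))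
    (fun p hp x => by
      obtain ⟨x, rfl⟩ := (S₁ ⊔ S₂).mkQ_surjective x
      exact (Submodule.Quotient.mk_eq_zero _).2 (Submodule.mem_sup_right
        fun j _ => Ideal.mul_mem_right _ _ hp))
    (fun p hp => (key _).trans ((Submodule.Quotient.mk_eq_zero _).2 (Submodule.mem_sup_left
      (Submodule.subset_span ⟨p, hp, rfl⟩)))) n
  simp only [RingHom.id_apply, key] at h1
  simp only [← map_smul, ← map_sum] at h1
  obtain ⟨x, hx, y, hy, h2⟩ := Submodule.mem_sup.1 ((Submodule.Quotient.eq _).1 h1)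
  obtain ⟨m, a, q, rfl⟩ := Submodule.mem_span_set'.1 hx
  choose p hp hq using fun s => (q s).2
  refine ⟨m, a, p, hp, fun j => ?_⟩
  have h3 := congrFun h2 j
  simp only [← hq, Pi.add_apply, Finset.sum_apply, Pi.smul_apply, smul_eq_mul, Pi.sub_apply,
    Pi.single_apply, eq_comm (a := j)] at h3
  rw [← h3, add_sub_cancel_left]
  exact hy j trivial

end Pool.Agent.P.MP_f17f76_ag.AbVar
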