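import Pool.Agent.P.MP_f17f76_ag.E.Trd

/-!
Derivations of a field of characteristic zero: existence, extension and ranks.
-/

namespace Pool.Agent.P.MP_f17f76_ag.E

open Set MvPolynomial Module

variable {K : Type} [Field K] {F F' S : Set K} {x : K}

/-- Derivations of `K`. -/
abbrev Der (K : Type) [Field K] : Type := Derivation ℤ K K

/-- The derivations that vanish on `F`. -/
def kil (F : Set K) : Submodule K (Der K) where
  carrier := {D | ∀ x ∈ F, D x = 0}
  add_mem' ha hb x hx := by simp [ha x hx, hb x hx]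
  zero_mem' _ _ := rfl
  smul_mem' c _ ha x hx := by simp [ha x hx]

theorem mem_kil {D : Der K} : D ∈ kil F ↔ ∀ x ∈ F, D x = 0 := Iff.rfl

theorem kil_anti (h : F ⊆ F') : kil F' ≤ kil F := fun _ hD x hx => hD x (h hx)

theorem kil_union (F F' : Set K) : kil (F ∪ F') = kil F ⊓ kil F' :=
  Submodule.ext fun _ => ⟨fun h => ⟨fun x hx => h x (Or.inl hx), fun x hx => h x (Or.inr hx)⟩,
    fun h x hx => hx.elim (h.1 x) (h.2 x)⟩

/-- The constants of a derivation. -/
def cst (D : Der K) : Subfield K where
  carrier := {x | D x = 0}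
  mul_mem' {a b} ha hb := by
    simp only [mem_ofPred_eq] at ha hb ⊢
    simp [ha, hb]
  one_mem' := D.map_one_eq_zero
  add_mem' {a b} ha hb := by
    simp only [mem_ofPred_eq] at ha hb ⊢
    simp [ha, hb]
  zero_mem' := map_zero D
  neg_mem' {a} ha := by
    simp only [mem_ofPred_eq] at ha ⊢
    simp [ha]
  inv_mem' a ha := by
    simp only [mem_ofPred_eq] at ha ⊢
    simp [D.leibniz_inv, ha]

theorem mem_cst {D : Der K} : x ∈ cst D ↔ D x = 0 := Iff.rfl

/-- Chain rule for a polynomial with constant coefficients. -/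
theorem der_eval {σ : Type} [Fintype σ] (D : Der K) (p : MvPolynomial σ K)
    (hp : ∀ m, D (p.coeff m) = 0) (v : σ → K) :
    D (eval v p) = ∑ i, eval v (pderiv i p) * D (v i) := by
  obtain ⟨q, rfl⟩ : ∃ q : MvPolynomial σ (cst D), MvPolynomial.map (cst D).subtype q = p :=
    mem_range_map_iff_coeffs_subset.2 fun c hc => by
      obtain ⟨m, -, rfl⟩ := mem_coeffs_iff.1 hc
      exact ⟨⟨_, hp m⟩, rfl⟩
  clear hp
  classical
  induction q using MvPolynomial.induction_on with
  | C a => simpa using mem_cst.1 a.2
  | add p q hp hq => simp only [map_add, hp, hq, add_mul, Finset.sum_add_distrib]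
  | mul_X p i hp =>
    simp only [map_mul, MvPolynomial.map_X, eval_X, Derivation.leibniz, smul_eq_mul, hp, map_add,
      pderiv_X, add_mul, Finset.sum_add_distrib, Finset.mul_sum]
    congr 1
    · rw [Finset.sum_eq_single i] <;> simp +contextual [eq_comm]
    · exact Finset.sum_congr rfl fun j _ => by ring

/-- A derivation that kills a subfield is linear over it. -/
noncomputable def derOver (A : Subfield K) (D : Der K) (h : ∀ x ∈ A, D x = 0) :
    Derivation A K K where
  toFun := D
  map_add' := map_add D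
  map_smul' a x := by
    rw [Algebra.smul_def, D.leibniz, h (algebraMap A K a) a.2]
    simp [Algebra.smul_def]
  map_one_eq_zero' := D.map_one_eq_zero
  leibniz' := D.leibniz

variable [CharZero K]

theorem acl_le_cst {D : Der K} (h : D ∈ kil F) : acl F ≤ cst D := by
  intro x hx
  have hx' : IsAlgebraic (cst D) x := isAlg_mono (Subfield.closure_le.2 h) (mem_acl.1 hx)
  have h1 := (derOver (cst D) D fun _ h => h).map_aeval (minpoly (cst D) x) x
  rw [minpoly.aeval, map_zero, smul_eq_mul, eq_comm, mul_eq_zero] at h1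
  exact h1.resolve_left ((minpoly.irreducible hx'.isIntegral).separable.aeval_derivative_ne_zero
    (minpoly.aeval _ _))

@[simp] theorem kil_acl (F : Set K) : kil (acl F : Set K) = kil F :=
  le_antisymm (kil_anti (subset_acl F)) fun _ hD _ hx => acl_le_cst hD hx

theorem kil_le (h : F ⊆ acl F') : kil F' ≤ kil F := (kil_acl F').ge.trans (kil_anti h)

open scoped IntermediateField.algebraAdjoinAdjoin in
theorem formallyEtale_basis {A L ι : Type} [Field A] [CharZero A] [Field L] [Algebra A L]
    {b : ι → L} (hb : IsTranscendenceBasis A b) :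
    letI : Algebra (MvPolynomial ι A) L := (aeval b : MvPolynomial ι A →ₐ[A] L).toRingHom.toAlgebra
    Algebra.FormallyEtale (MvPolynomial ι A) L := by
  let _ : Algebra (MvPolynomial ι A) (Algebra.adjoin A (Set.range b)) :=
    hb.1.aevalEquiv.toRingEquiv.toRingHom.toAlgebra
  let _ : Algebra (MvPolynomial ι A) L := (aeval b : MvPolynomial ι A →ₐ[A] L).toRingHom.toAlgebra
  have : IsScalarTower (MvPolynomial ι A) (Algebra.adjoin A (Set.range b)) L :=
    IsScalarTower.of_algebraMap_eq fun p => (hb.1.algebraMap_aevalEquiv p).symm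
  have : Algebra.FormallyEtale (MvPolynomial ι A) (Algebra.adjoin A (Set.range b)) :=
    Algebra.FormallyEtale.of_equiv
      (AlgEquiv.ofRingEquiv (f := hb.1.aevalEquiv.toRingEquiv) fun _ => rfl)
  have : Algebra.FormallyEtale (Algebra.adjoin A (Set.range b))
      (IntermediateField.adjoin A (Set.range b)) :=
    Algebra.FormallyEtale.of_isLocalization (nonZeroDivisors _)
  have := hb.isAlgebraic_field
  have : CharZero (IntermediateField.adjoin A (Set.range b)) :=
    charZero_of_injective_algebraMap (algebraMap A _).injective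
  have : Algebra.FormallyEtale (IntermediateField.adjoin A (Set.range b)) L :=
    Algebra.FormallyEtale.of_isSeparable _ L
  have : Algebra.FormallyEtale (Algebra.adjoin A (Set.range b)) L :=
    Algebra.FormallyEtale.comp _ (IntermediateField.adjoin A (Set.range b)) _
  exact Algebra.FormallyEtale.comp _ (Algebra.adjoin A (Set.range b)) _

/-- A derivation of a subfield with values in `K` extends to `K`, with prescribed values on an
algebraically independent family. -/
theorem exists_der_ext (A : Subfield K) (d : A →+ K)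
    (hd : ∀ a b : A, d (a * b) = a * d b + b * d a) {ι : Type} {v : ι → K}
    (hv : AlgebraicIndependent A v) (c : ι → K) :
    ∃ D : Der K, (∀ a : A, D a = d a) ∧ ∀ i, D (v i) = c i := by
  classical
  obtain ⟨s, hs, hb⟩ := exists_isTranscendenceBasis_superset hv.to_subtype_range
  let _ : Algebra (MvPolynomial s A) K :=
    (aeval ((↑) : s → K) : MvPolynomial s A →ₐ[A] K).toRingHom.toAlgebra
  have := formallyEtale_basis hb
  have hd1 : d 1 = 0 := by simpa using hd 1 1
  let φ : A →+* DualNumber K :=
    { toFun := fun a => TrivSqZeroExt.inl (a : K) + TrivSqZeroExt.inr (d a)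
      map_one' := by ext <;> simp [hd1]
      map_mul' := fun a b => by ext <;> simp [hd, mul_comm]
      map_zero' := by ext <;> simp
      map_add' := fun a b => by ext <;> simp }
  let c' : s → K := fun y => if h : ∃ i, v i = y then c h.choose else 0
  let ψ : MvPolynomial s A →+* DualNumber K :=
    eval₂Hom φ fun y => TrivSqZeroExt.inl (y : K) + TrivSqZeroExt.inr (c' y)
  let _ : Algebra (MvPolynomial s A) (DualNumber K) := ψ.toAlgebra
  let π : DualNumber K →ₐ[MvPolynomial s A] K :=
    { (TrivSqZeroExt.fstHom K K K).toRingHom with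
      commutes' := fun p => by
        have : (TrivSqZeroExt.fstHom K K K).toRingHom.comp ψ =
            (aeval ((↑) : s → K) : MvPolynomial s A →ₐ[A] K).toRingHom :=
          MvPolynomial.ringHom_ext (fun a => by simp [ψ, φ]; rfl) fun y => by simp [ψ]
        exact DFunLike.congr_fun this p }
  have hπ : Function.Surjective π := fun y => ⟨TrivSqZeroExt.inl y, rfl⟩
  have hn : IsNilpotent (RingHom.ker (π : DualNumber K →+* K)) :=
    ⟨2, TrivSqZeroExt.kerIdeal_sq K K⟩
  let l := Algebra.FormallySmooth.liftOfSurjective (AlgHom.id (MvPolynomial s A) K) π hπ hn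
  have hl : ∀ y, (l y).fst = y := fun y =>
    Algebra.FormallySmooth.liftOfSurjective_apply (AlgHom.id (MvPolynomial s A) K) π hπ hn y
  have hl' : ∀ p, l (aeval ((↑) : s → K) p) = ψ p := l.commutes
  refine ⟨Derivation.mk' (AddMonoidHom.toIntLinearMap
    { toFun := fun y => (l y).snd
      map_zero' := by simp
      map_add' := fun a b => by simp }) fun a b => by simp [hl, mul_comm], fun a => ?_, fun i => ?_⟩
  · have h1 := congrArg TrivSqZeroExt.snd (hl' (C a))
    simp [ψ, φ] at h1
    exact h1
  · have h1 : ∃ j, v j = (⟨v i, hs ⟨i, rfl⟩⟩ : s) := ⟨i, rfl⟩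
    have h2 := congrArg TrivSqZeroExt.snd (hl' (X ⟨v i, hs ⟨i, rfl⟩⟩))
    simpa [ψ, c', dif_pos h1, hv.injective h1.choose_spec] using h2

theorem exists_der {ι : Type} {v : ι → K} (hv : AlgebraicIndependent (Subfield.closure F) v)
    (c : ι → K) : ∃ D ∈ kil F, ∀ i, D (v i) = c i := by
  obtain ⟨D, h1, h2⟩ := exists_der_ext (Subfield.closure F) 0 (by simp) hv c
  exact ⟨D, fun x hx => h1 ⟨x, Subfield.subset_closure hx⟩, h2⟩

theorem mem_acl_iff_der : x ∈ acl F ↔ ∀ D ∈ kil F, D x = 0 := by
  refine ⟨fun h D hD => acl_le_cst hD h, fun h => by_contra fun hx => ?_⟩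
  obtain ⟨D, h1, h2⟩ := exists_der (F := F) (v := fun _ : Unit => x)
    ((algebraicIndependent_unique_type_iff).2 fun h => hx (mem_acl.2 h)) fun _ => 1
  exact one_ne_zero ((h2 ()).symm.trans (h D h1))

theorem subset_acl_iff_kil : S ⊆ acl F ↔ kil F ≤ kil S :=
  ⟨kil_le, fun h x hx => mem_acl_iff_der.2 fun _ hD => h hD x hx⟩

/-- The rank of a linear map on derivations whose kernel is cut out by `S`. -/
theorem finrank_map_kil {W : Type} [AddCommGroup W] [Module K W] (Φ : Der K →ₗ[K] W)
    (hS : S.Finite) (h : ∀ D ∈ kil F, Φ D = 0 ↔ D ∈ kil S) :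
    finrank K ((kil F).map Φ) = trd F S := by
  obtain ⟨v, h1, h2, h3⟩ := exists_trd_basis F hS
  let e : Der K →ₗ[K] Fin (trd F S) → K :=
    { toFun := fun D i => D (v i), map_add' := fun _ _ => rfl, map_smul' := fun _ _ => rfl }
  have hk : LinearMap.ker (Φ.domRestrict (kil F)) = LinearMap.ker (e.domRestrict (kil F)) := by
    ext D
    refine (h D D.2).trans ⟨fun hD => funext fun i => hD _ (h1 i), fun hD => kil_le h3 ?_⟩
    rw [kil_union]
    exact ⟨D.2, forall_mem_range.2 fun i => congrFun hD i⟩
  have hr : LinearMap.range (e.domRestrict (kil F)) = ⊤ := LinearMap.range_eq_top.2 fun c => by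
    obtain ⟨D, hD, h4⟩ := exists_der h2 c
    exact ⟨⟨D, hD⟩, funext h4⟩
  rw [← LinearMap.range_domRestrict, ← (LinearMap.quotKerEquivRange _).finrank_eq, hk,
    (LinearMap.quotKerEquivRange _).finrank_eq, hr, finrank_top, Module.finrank_fin_fun]

/-- Evaluation of derivations on a tuple. -/
def dv {ι : Type} (v : ι → K) : Der K →ₗ[K] ι → K where
  toFun D i := D (v i)
  map_add' _ _ := rfl
  map_smul' _ _ := rfl

omit [CharZero K] in
@[simp] theorem dv_apply {ι : Type} (v : ι → K) (D : Der K) (i : ι) : dv v D i = D (v i) := rfl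

omit [CharZero K] in
theorem dv_eq_zero {ι : Type} {v : ι → K} {D : Der K} : dv v D = 0 ↔ D ∈ kil (range v) :=
  funext_iff.trans (forall_mem_range (p := fun x => D x = 0)).symm

theorem finrank_map_dv {ι : Type} [Finite ι] (F : Set K) (v : ι → K) :
    finrank K ((kil F).map (dv v)) = trd F (range v) :=
  finrank_map_kil _ (finite_range v) fun _ _ => dv_eq_zero

end Pool.Agent.P.MP_f17f76_ag.E
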