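import Pool.Agent.P.MP_f17f76_ag.BrPol2

/-!
Orthogonal complements for a Riemann form and the projectors onto subspaces.
-/

namespace Pool.Agent.P.MP_f17f76_ag

namespace AbVar

open Module

variable {g N : ℕ} (A : AbVar g N) {U U' U₁ U₂ Q : Submodule ℂ (Fin g → ℂ)} {w : Fin g → ℂ}

/-- The orthogonal complement for a fixed Riemann form. -/
noncomputable def perp : Submodule ℂ (Fin g → ℂ) → Submodule ℂ (Fin g → ℂ) :=
  A.exists_orth'.choose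

theorem perp_anti : Antitone A.perp := A.exists_orth'.choose_spec.2.1

theorem isCompl_perp (U : Submodule ℂ (Fin g → ℂ)) : IsCompl U (A.perp U) :=
  A.exists_orth'.choose_spec.2.2.1 U

theorem finrank_perp (U : Submodule ℂ (Fin g → ℂ)) : finrank ℂ U + finrank ℂ (A.perp U) = g := by
  rw [Submodule.finrank_add_eq_of_isCompl (A.isCompl_perp U), Module.finrank_fin_fun]

@[simp] theorem perp_perp (U : Submodule ℂ (Fin g → ℂ)) : A.perp (A.perp U) = U :=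
  (Submodule.eq_of_le_of_finrank_le (A.exists_orth'.choose_spec.1 U) (by
    have := A.finrank_perp U
    have := A.finrank_perp (A.perp U)
    change finrank ℂ (A.perp (A.perp U)) ≤ _
    omega)).symm

theorem le_perp_comm : U ≤ A.perp U' ↔ U' ≤ A.perp U :=
  ⟨fun h => A.perp_perp U' ▸ A.perp_anti h, fun h => A.perp_perp U ▸ A.perp_anti h⟩

theorem perp_le_perp : A.perp U ≤ A.perp U' ↔ U' ≤ U := by rw [le_perp_comm, perp_perp]

theorem perp_sup (U U' : Submodule ℂ (Fin g → ℂ)) : A.perp (U ⊔ U') = A.perp U ⊓ A.perp U' :=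
  eq_of_forall_le_iff fun W => by
    rw [le_inf_iff, le_perp_comm, sup_le_iff, A.le_perp_comm (U := U), A.le_perp_comm (U := U')]

theorem perp_inf (U U' : Submodule ℂ (Fin g → ℂ)) : A.perp (U ⊓ U') = A.perp U ⊔ A.perp U' := by
  rw [← A.perp_perp (_ ⊔ _), perp_sup, perp_perp, perp_perp]

@[simp] theorem perp_top : A.perp ⊤ = ⊥ := eq_bot_of_top_isCompl (A.isCompl_perp ⊤)

@[simp] theorem perp_bot : A.perp ⊥ = ⊤ := eq_top_of_bot_isCompl (A.isCompl_perp ⊥)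

/-- The projector onto `U` along its orthogonal complement. -/
noncomputable def pr (U : Submodule ℂ (Fin g → ℂ)) : (Fin g → ℂ) →ₗ[ℂ] (Fin g → ℂ) :=
  U.projection _ (A.isCompl_perp U)

/-- The relative complement `U₂ - U₁`. -/
noncomputable def rel (U₂ U₁ : Submodule ℂ (Fin g → ℂ)) : Submodule ℂ (Fin g → ℂ) :=
  U₂ ⊓ A.perp U₁

theorem pr_mem (U : Submodule ℂ (Fin g → ℂ)) (w : Fin g → ℂ) : A.pr U w ∈ U :=
  Submodule.projection_apply_mem _ w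

theorem pr_of_mem (h : w ∈ U) : A.pr U w = w := Submodule.projection_apply_of_mem_left _ h

theorem pr_eq_zero_iff : A.pr U w = 0 ↔ w ∈ A.perp U := Submodule.projection_apply_eq_zero_iff _

theorem pr_eq_self_iff : A.pr U w = w ↔ w ∈ U := ⟨fun h => h ▸ A.pr_mem U w, A.pr_of_mem⟩

theorem sub_pr_mem (U : Submodule ℂ (Fin g → ℂ)) (w : Fin g → ℂ) : w - A.pr U w ∈ A.perp U := by
  rw [← pr_eq_zero_iff, map_sub, A.pr_of_mem (A.pr_mem U w), sub_self]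

theorem pr_eq {a : Fin g → ℂ} (ha : a ∈ U) (h : w - a ∈ A.perp U) : A.pr U w = a := by
  rw [← pr_eq_zero_iff, map_sub, A.pr_of_mem ha, sub_eq_zero] at h
  exact h

@[simp] theorem pr_top (w : Fin g → ℂ) : A.pr ⊤ w = w := A.pr_of_mem trivial

@[simp] theorem pr_bot (w : Fin g → ℂ) : A.pr ⊥ w = 0 := (Submodule.mem_bot ℂ).1 (A.pr_mem ⊥ w)

theorem pr_perp (U : Submodule ℂ (Fin g → ℂ)) (w : Fin g → ℂ) :
    A.pr (A.perp U) w = w - A.pr U w :=
  A.pr_eq (A.sub_pr_mem U w) (by simpa using A.pr_mem U w)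

/-- `pr U (pr U' w) = pr U' w` for `U' ≤ U`. -/
theorem pr_pr_of_ge (h : U' ≤ U) (w : Fin g → ℂ) : A.pr U (A.pr U' w) = A.pr U' w :=
  A.pr_of_mem (h (A.pr_mem U' w))

/-- `pr U' (pr U w) = pr U' w` for `U' ≤ U`. -/
theorem pr_pr_of_le (h : U' ≤ U) (w : Fin g → ℂ) : A.pr U' (A.pr U w) = A.pr U' w := by
  rw [eq_comm, ← sub_eq_zero, ← map_sub, pr_eq_zero_iff]
  exact A.perp_anti h (A.sub_pr_mem U w)

theorem rel_le (U₂ U₁ : Submodule ℂ (Fin g → ℂ)) : A.rel U₂ U₁ ≤ U₂ := inf_le_left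

theorem rel_le_perp (U₂ U₁ : Submodule ℂ (Fin g → ℂ)) : A.rel U₂ U₁ ≤ A.perp U₁ := inf_le_right

theorem rel_mono (h : U ≤ U') (U₁ : Submodule ℂ (Fin g → ℂ)) : A.rel U U₁ ≤ A.rel U' U₁ :=
  inf_le_inf_right _ h

theorem rel_anti (U₂ : Submodule ℂ (Fin g → ℂ)) (h : U ≤ U') : A.rel U₂ U' ≤ A.rel U₂ U :=
  inf_le_inf_left _ (A.perp_anti h)

@[simp] theorem rel_self (U : Submodule ℂ (Fin g → ℂ)) : A.rel U U = ⊥ :=
  (A.isCompl_perp U).inf_eq_bot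

@[simp] theorem rel_bot (U : Submodule ℂ (Fin g → ℂ)) : A.rel U ⊥ = U := by simp [rel]

theorem perp_rel (U₂ U₁ : Submodule ℂ (Fin g → ℂ)) : A.perp (A.rel U₂ U₁) = A.perp U₂ ⊔ U₁ := by
  rw [rel, perp_inf, perp_perp]

theorem pr_rel (h : U₁ ≤ U₂) (w : Fin g → ℂ) : A.pr (A.rel U₂ U₁) w = A.pr U₂ w - A.pr U₁ w := by
  refine A.pr_eq ⟨U₂.sub_mem (A.pr_mem _ _) (h (A.pr_mem _ _)), ?_⟩ ?_
  · rw [← A.pr_pr_of_le h]
    exact A.sub_pr_mem _ _
  · rw [perp_rel, ← sub_add]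
    exact Submodule.add_mem_sup (A.sub_pr_mem _ _) (A.pr_mem _ _)

theorem sup_rel (h : U₁ ≤ U₂) : U₁ ⊔ A.rel U₂ U₁ = U₂ := by
  rw [rel, inf_comm, ← sup_inf_assoc_of_le _ h, (A.isCompl_perp U₁).sup_eq_top, top_inf_eq]

theorem disjoint_rel (U₂ U₁ : Submodule ℂ (Fin g → ℂ)) : Disjoint U₁ (A.rel U₂ U₁) :=
  (A.isCompl_perp U₁).disjoint.mono_right inf_le_right

theorem finrank_rel (h : U₁ ≤ U₂) : finrank ℂ U₁ + finrank ℂ (A.rel U₂ U₁) = finrank ℂ U₂ := by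
  rw [← Submodule.finrank_sup_add_finrank_inf_eq, A.sup_rel h, (A.disjoint_rel U₂ U₁).eq_bot,
    finrank_bot, add_zero]

theorem rel_sup (h : U ≤ A.perp U₁) : A.rel (U₁ ⊔ U) U₁ = U := by
  rw [rel, sup_comm, sup_inf_assoc_of_le _ h, (A.isCompl_perp U₁).inf_eq_bot, sup_bot_eq]

theorem rel_eq_bot_iff (h : U₁ ≤ U₂) : A.rel U₂ U₁ = ⊥ ↔ U₂ = U₁ :=
  ⟨fun e => by rw [← A.sup_rel h, e, sup_bot_eq], fun e => by rw [e, rel_self]⟩

theorem rel_rel (h₁ : U₁ ≤ Q) (U₂ : Submodule ℂ (Fin g → ℂ)) :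
    A.rel (A.rel U₂ U₁) (A.rel Q U₁) = A.rel U₂ Q := by
  rw [rel, rel, inf_assoc, ← perp_sup, A.sup_rel h₁, rel]

/-- On `U₂ - U₁` the projector onto `Q` is the projector onto `Q - U₁`. -/
theorem pr_eq_pr_rel (h : U₁ ≤ Q) (hw : w ∈ A.perp U₁) : A.pr Q w = A.pr (A.rel Q U₁) w := by
  rw [A.pr_rel h, A.pr_eq_zero_iff.2 hw, sub_zero]

theorem pr_sup_eq_zero_iff : A.pr (U ⊔ U') w = 0 ↔ A.pr U w = 0 ∧ A.pr U' w = 0 := by
  simp only [pr_eq_zero_iff, perp_sup, Submodule.mem_inf]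

variable {A}

theorem IsLie.perp (h : A.IsLie U) : A.IsLie (A.perp U) := A.exists_orth'.choose_spec.2.2.2 U h

theorem IsLie.rel (h₂ : A.IsLie U₂) (h₁ : A.IsLie U₁) : A.IsLie (A.rel U₂ U₁) := h₂.inf h₁.perp

/-- The image of a rational subspace under a rational projector is rational. -/
theorem IsLie.map_pr (h : A.IsLie U) (h' : A.IsLie U') : A.IsLie (U'.map (A.pr U)) := by
  have : U'.map (A.pr U) = U ⊓ (U' ⊔ A.perp U) := by
    refine le_antisymm ?_ fun x hx => ?_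
    · rintro _ ⟨x, hx, rfl⟩
      refine ⟨A.pr_mem U x, ?_⟩
      simpa using Submodule.sub_mem _ (Submodule.mem_sup_left hx)
        (Submodule.mem_sup_right (A.sub_pr_mem U x))
    · obtain ⟨a, ha, b, hb, rfl⟩ := Submodule.mem_sup.1 hx.2
      exact ⟨a, ha, by rw [← A.pr_of_mem hx.1, map_add, A.pr_eq_zero_iff.2 hb, add_zero]⟩
  rw [this]
  exact h.inf (h'.sup h.perp)

end AbVar

end Pool.Agent.P.MP_f17f76_ag
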