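import Pool.Agent.P.MP_f17f76_ag.E.Hs2
import Pool.Agent.P.MP_f17f76_ag.E.Proj
import Pool.Agent.P.MP_f17f76_ag.K.Heil

/-!
Recurrence modulo the lattice of a rational subspace, standard and internal.
-/

namespace Pool.Agent.P.MP_f17f76_ag

open Set Filter Hyperreal

variable {g N : ℕ} {A : AbVar g N} {B L : Submodule ℂ (Fin g → ℂ)}

namespace AbVar

/-- Simultaneous recurrence modulo the lattice of a rational subspace. -/
theorem IsLie.heil (hB : A.IsLie B) {b : Type} [Fintype b] (k : b → ℕ) : ∃ C : ℕ,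
    ∀ (K : ℝ) (α : b → Fin g → ℂ), 2 ≤ K → (∀ i, α i ∈ B) → ∃ t : ℕ, 1 ≤ t ∧ t ≤ K ^ C ∧
      ∀ i, ∃ μ, (μ ∈ A.Λ ∧ μ ∈ B) ∧ ‖(t : ℂ) ^ (k i + 1) • α i - μ‖ * K ≤ C := by
  obtain ⟨s, h1, h2, h3⟩ := exists_linearIndependent ℝ ((A.Λ : Set (Fin g → ℂ)) ∩ B)
  have := h3.setFinite.fintype
  obtain ⟨C, hC⟩ := K.heilbronn_all (Finset.univ : Finset (b × s)) fun p => k p.1
  obtain ⟨D, hD⟩ := exists_nat_ge (∑ γ : s, ‖γ.1‖)
  refine ⟨2 * C + D, fun K α hK hα => ?_⟩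
  choose c hc using fun i => (Submodule.mem_span_range_iff_exists_fun ℝ (v := fun γ : s => γ.1)
    (x := α i)).1 (by simpa [h2] using hB (hα i))
  have hK1 : K ≤ ⌈K⌉₊ := Nat.le_ceil K
  obtain ⟨t, h4, h5, h6⟩ := hC ⌈K⌉₊ (fun p => c p.1 p.2) (by exact_mod_cast hK.trans hK1)
  choose m hm using fun p => h6 p (Finset.mem_univ p)
  refine ⟨t, h4, ?_, fun i => ⟨∑ γ : s, m (i, γ) • γ.1, ⟨?_, ?_⟩, ?_⟩⟩
  · calc (t : ℝ) ≤ (⌈K⌉₊ : ℝ) ^ C := by exact_mod_cast h5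
      _ ≤ (K ^ 2) ^ C := by
        gcongr
        nlinarith [Nat.ceil_lt_add_one (show 0 ≤ K by linarith)]
      _ ≤ _ := by
        rw [← pow_mul]
        exact pow_le_pow_right₀ (by linarith) (Nat.le_add_right _ _)
  · exact sum_mem fun γ _ => zsmul_mem (h1 γ.2).1 _
  · exact sum_mem fun γ _ => zsmul_mem (h1 γ.2).2 _
  have e : (t : ℂ) ^ (k i + 1) • α i - ∑ γ : s, m (i, γ) • γ.1 =
      ∑ γ : s, ((t : ℝ) ^ (k i + 1) * c i γ - m (i, γ)) • γ.1 := by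
    rw [← hc, Finset.smul_sum, ← Finset.sum_sub_distrib]
    refine Finset.sum_congr rfl fun γ _ => ?_
    rw [sub_smul, mul_smul, Int.cast_smul_eq_zsmul, ← Complex.coe_smul ((t : ℝ) ^ _)]
    simp
  rw [e]
  refine le_trans (mul_le_mul_of_nonneg_right (norm_sum_le _ _) (by linarith)) ?_
  rw [Finset.sum_mul]
  refine le_trans (Finset.sum_le_sum fun γ _ => ?_)
    (hD.trans (by push_cast; linarith [C.cast_nonneg (α := ℝ)]))
  rw [norm_smul, mul_right_comm, Real.norm_eq_abs]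
  exact mul_le_of_le_one_left (norm_nonneg _)
    ((mul_le_mul_of_nonneg_left hK1 (abs_nonneg _)).trans (hm (i, γ)))

/-- Lattice points close to a subspace that is not rational. -/
theorem IsLie.exists_near (hB : A.IsLie B) (hL : L ≤ B) (h : ¬ A.IsLie L) : ∃ (C : ℕ) (K₀ : ℝ),
    ∀ K ≥ K₀, ∃ μ l, (μ ∈ A.Λ ∧ μ ∈ B) ∧ μ ∉ L ∧ l ∈ L ∧ ‖μ‖ ≤ K ^ C ∧ ‖l - μ‖ * K ≤ C := by
  obtain ⟨l, hl, h⟩ := not_subset.1 h
  obtain ⟨f, h1, h2⟩ := Submodule.exists_dual_map_eq_bot_of_notMem h inferInstance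
  let F := LinearMap.toContinuousLinearMap f
  obtain ⟨C, hC⟩ := hB.heil (b := Unit) fun _ => 0
  have h3 : 0 < |f l| := abs_pos.2 h1
  refine ⟨C + 1, max (max 2 (‖l‖ + C)) ((‖F‖ * C + 1) / |f l|), fun K hK => ?_⟩
  simp only [ge_iff_le, max_le_iff] at hK
  obtain ⟨t, h4, h5, h6⟩ := hC K (fun _ => l) hK.1.1 fun _ => hL hl
  obtain ⟨μ, h6, h7⟩ := h6 ()
  rw [zero_add, pow_one] at h7
  have h4 : (1 : ℝ) ≤ t := by exact_mod_cast h4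
  have hK0 : 0 < K := by linarith [hK.1.1]
  refine ⟨μ, (t : ℂ) • l, h6, fun hμ => ?_, L.smul_mem _ hl, ?_, h7.trans (by simp)⟩
  · have h8 : f μ = 0 := (Submodule.mem_bot ℝ).1
      (h2 ▸ Submodule.mem_map_of_mem (Submodule.subset_span ⟨h6.1, hμ⟩))
    have h9 := F.le_opNorm ((t : ℂ) • l - μ)
    have h10 : F ((t : ℂ) • l - μ) = t * f l := by
      rw [Nat.cast_smul_eq_nsmul, ← Nat.cast_smul_eq_nsmul ℝ]
      simp [F, h8]
    rw [h10, Real.norm_eq_abs, abs_mul, abs_of_pos (by linarith : (0 : ℝ) < t)] at h9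
    have h11 := (div_le_iff₀ h3).1 hK.2
    have h12 := mul_le_mul_of_nonneg_left h7 (norm_nonneg F)
    have h13 := mul_le_mul_of_nonneg_right h9 hK0.le
    nlinarith [mul_pos hK0 h3]
  · have h8 : ‖μ‖ ≤ ‖(t : ℂ) • l‖ + ‖(t : ℂ) • l - μ‖ := by
      simpa using norm_sub_le ((t : ℂ) • l) ((t : ℂ) • l - μ)
    have h9 : (1 : ℝ) ≤ K ^ C := one_le_pow₀ (by linarith [hK.1.1])
    rw [norm_smul, Complex.norm_natCast] at h8
    have h10 : ‖(t : ℂ) • l - μ‖ ≤ C := by nlinarith [norm_nonneg ((t : ℂ) • l - μ), hK.1.1]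
    rw [pow_succ]
    nlinarith [norm_nonneg l, hK.1.2, C.cast_nonneg (α := ℝ)]

end AbVar

namespace N

/-- The internal form of the recurrence theorem. -/
theorem heil (hB : A.IsLie B) {b : Type} [Fintype b] (k : b → ℕ) {K : ℝ*} (hK : 2 ≤ K)
    (α : b → Fin g → Cs) (hα : ∀ i, Hold (fun _ z => z ∈ B) (α i)) :
    ∃ (t : ℕ → ℕ) (μ : b → Fin g → Cs), (∀ n, 1 ≤ t n) ∧ Poly K (nm (qs fun n => t n)) ∧
      ∀ i, Hold (fun _ z => z ∈ A.Λ ∧ z ∈ B) (μ i) ∧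
        ∀ j, Lc (nm ((qs fun n => t n) ^ (k i + 1) * α i j - μ i j) * K) 1 := by
  obtain ⟨C, hC⟩ := hB.heil k
  obtain ⟨κ, rfl⟩ := sr_surj K
  have h1 : ∀ᶠ n in UF, 2 ≤ κ n := (sr_le (u := fun _ => 2)).1 hK
  have h2 := eventually_all.2 hα
  have : ∀ n, ∃ (t : ℕ) (μ : b → Fin g → ℂ), 1 ≤ t ∧ (2 ≤ κ n → (∀ i, rep (α i) n ∈ B) →
      t ≤ κ n ^ C ∧ ∀ i, (μ i ∈ A.Λ ∧ μ i ∈ B) ∧
        ‖(t : ℂ) ^ (k i + 1) • rep (α i) n - μ i‖ * κ n ≤ C) := fun n => by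
    by_cases h : 2 ≤ κ n ∧ ∀ i, rep (α i) n ∈ B
    · obtain ⟨t, h3, h4, h5⟩ := hC _ _ h.1 h.2
      choose μ h5 using h5
      exact ⟨t, μ, h3, fun _ _ => ⟨h4, h5⟩⟩
    · exact ⟨1, 0, le_rfl, fun h3 h4 => absurd ⟨h3, h4⟩ h⟩
  choose t μ h3 h4 using this
  have h5 := (h1.and h2).mono fun n hn => h4 n hn.1 hn.2
  refine ⟨t, fun i => vec fun n => μ n i, h3, ⟨C, ?_⟩, fun i =>
    ⟨hold_vec.2 (h5.mono fun n hn => (hn.2 i).1), fun j => ?_⟩⟩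
  · rw [nm_qs, ← map_pow, sr_le]
    exact h5.mono fun n hn => by simpa using hn.1
  · rw [← congrFun (vec_rep (α i)) j]
    simp only [vec]
    rw [← map_pow, ← map_mul, ← map_sub, nm_qs, ← map_mul, lc_sr]
    exact ⟨C, (h5.and h1).mono fun n hn => le_trans (mul_le_mul_of_nonneg_right
      (norm_le_pi_norm ((t n : ℂ) ^ (k i + 1) • rep (α i) n - μ n i) j) (by linarith [hn.2]))
      (hn.1.2 i).2⟩

end N

end Pool.Agent.P.MP_f17f76_ag
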