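import Pool.Agent.P.MP_f17f76_ag.E.TldB

/-!
Divisorial valuations with a prescribed centre.
-/

namespace Pool.Agent.P.MP_f17f76_ag.E

open Set

variable {K : Type} [Field K] {O W : ValuationSubring K} {S : Set K} {x : K}

theorem acl_subset_val (h : ∀ x ∈ Subfield.closure S, x ∈ W) (hx : x ∈ acl S) : x ∈ W :=
  mem_of_isIntegral (A := (Subfield.closure S).toSubring) h (mem_acl.1 hx).isIntegral

theorem eq_zero_of_nonunits {F : Subfield K} (h : ∀ x ∈ F, x ∈ W) (hx : x ∈ F)
    (h1 : x ∈ W.nonunits) : x = 0 :=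
  (W.mem_nonunits_iff_or.1 h1).resolve_right (not_not.2 (h _ (inv_mem hx)))

theorem mul_mem_nonunits {a b : K} (ha : a ∈ W.nonunits) (hb : b ∈ W) : a * b ∈ W.nonunits := by
  rw [W.mem_nonunits_iff, map_mul]
  exact mul_lt_one_of_lt_of_le (W.mem_nonunits_iff.1 ha) ((W.valuation_le_one_iff _).2 hb)

/-- A transcendental element vanishes at a place that is trivial on the base. -/
theorem exists_val_of_notMem (hx : x ∉ acl S) :
    ∃ V : ValuationSubring K, (∀ y ∈ acl S, y ∈ V) ∧ x ∈ V.nonunits := by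
  by_contra hc
  push Not at hc
  have h1 : IsIntegral (acl S).toSubring x⁻¹ := isIntegral_of_forall fun V hV =>
    not_not.1 fun h => hc V hV (V.mem_nonunits_iff_or.2 (Or.inr h))
  exact hx (inv_inv x ▸ inv_mem (mem_acl_of_isAlgebraic (IsIntegral.isAlgebraic (R := acl S) h1)))

theorem acl_exchange {a b : K} (h : a ∈ acl (S ∪ {b})) (h' : a ∉ acl S) : b ∈ acl (S ∪ {a}) := by
  by_contra hc
  have h1 := trd_insert_of_notMem (F := S) (finite_singleton a) hc
  have h2 := trd_insert_of_notMem (F := S) (x := a) finite_empty (by rwa [union_empty])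
  have h3 := trd_insert_of_mem (F := S) h
  have h4 := trd_le_ncard (F := S) (finite_singleton b)
  rw [pair_comm] at h3
  rw [insert_empty_eq, trd_empty] at h2
  rw [ncard_singleton] at h4
  omega

theorem gau_of_indep {ι : Type} {F : Subfield K} {Y : ι → K} (hY : AlgebraicIndependent F Y)
    (h : ∀ x ∈ Subfield.closure ((F : Set K) ∪ range Y), x ∈ W) : Gau W F Y := by
  rw [← F.fieldRange_subtype, gau_iff]
  refine ⟨fun i => h _ (Subfield.subset_closure (Or.inr ⟨i, rfl⟩)), fun q m => ?_⟩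
  obtain rfl | hq := eq_or_ne q 0
  · simp
  have h1 : MvPolynomial.eval₂ F.subtype Y q ≠ 0 := fun e =>
    hq (algebraicIndependent_iff.1 hY q e)
  refine (val_le_iff W).2 ⟨fun e => (h1 e).elim, h _ (div_mem
    (Subfield.subset_closure (Or.inl (q.coeff m).2)) ?_)⟩
  rw [MvPolynomial.eval₂_eq]
  refine sum_mem fun m _ => mul_mem (Subfield.subset_closure (Or.inl (q.coeff m).2))
    (prod_mem fun i _ => pow_mem ?_ _)
  exact Subfield.subset_closure (Or.inr ⟨i, rfl⟩)

variable [IsAlgClosed K]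

/-- A subfield of representatives of the residue field. -/
theorem exists_repr {k s : Set K} (hk : ∀ x ∈ Subfield.closure k, x ∈ O) (hs : s.Finite) :
    ∃ B : Set K, B.Finite ∧ B ⊆ acl (k ∪ s) ∧ (∀ x ∈ acl (k ∪ B), x ∈ O) ∧
      ∀ r ∈ acl (k ∪ s), r ∈ O → ∃ c ∈ acl (k ∪ B), r - c ∈ O.nonunits := by
  classical
  let P : ℕ → Prop := fun n => ∃ B : Set K, B.Finite ∧ B ⊆ acl (k ∪ s) ∧
    (∀ x ∈ acl (k ∪ B), x ∈ O) ∧ trd k B = n
  have h0 : P 0 := ⟨∅, finite_empty, empty_subset _, fun x hx =>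
    acl_subset_val hk (by rwa [union_empty] at hx), trd_empty _⟩
  obtain ⟨B, h1, h2, h3, h4⟩ := Nat.findGreatest_spec (P := P) (Nat.zero_le (trd k s)) h0
  refine ⟨B, h1, h2, h3, fun r hr hO => by_contra fun hc => ?_⟩
  push Not at hc
  have h5 : r ∉ acl (k ∪ B) := fun h => hc r h (by simp)
  have h6 : ∀ p : Polynomial (acl (k ∪ B)), p ≠ 0 → (Polynomial.aeval r p)⁻¹ ∈ O := fun p hp => by
    rw [(IsAlgClosed.splits p).eq_prod_roots, map_mul, mul_inv, map_multiset_prod,
      Multiset.map_map, ← Multiset.prod_map_inv]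
    rw [Polynomial.aeval_C]
    refine mul_mem (h3 _ (inv_mem p.leadingCoeff.2)) (multiset_prod_mem _ fun y hy => ?_)
    obtain ⟨c, -, rfl⟩ := Multiset.mem_map.1 hy
    have := hc c c.2
    rw [O.mem_nonunits_iff_or, not_or, not_not] at this
    simpa using show (r - algebraMap _ K c)⁻¹ ∈ O from this.2
  have h7 : ∀ y ∈ Algebra.adjoin (acl (k ∪ B)) {r}, y ∈ O := fun y hy =>
    Algebra.adjoin_induction (fun _ h => h ▸ hO) (fun c => h3 c c.2) (fun _ _ _ _ => add_mem)
      (fun _ _ _ _ => mul_mem) hy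
  refine Nat.findGreatest_is_greatest (P := P) (n := trd k s) (Nat.lt_succ_self _) ?_
    ⟨insert r B, h1.insert r, insert_subset hr h2, fun x hx => ?_, ?_⟩
  · rw [← h4, Nat.succ_eq_add_one, ← trd_insert_of_notMem h1 h5]
    exact trd_le hs (insert_subset hr h2)
  · rw [union_insert, ← union_singleton, ← acl_acl_union] at hx
    refine acl_subset_val (fun y hy => ?_) hx
    have h8 : y ∈ IntermediateField.adjoin (acl (k ∪ B)) {r} := by
      refine (Subfield.closure_le (t := (IntermediateField.adjoin _ {r}).toSubfield)).2 ?_ hy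
      exact union_subset (fun c hc => IntermediateField.algebraMap_mem _ (⟨c, hc⟩ : acl (k ∪ B)))
        (IntermediateField.subset_adjoin _ _)
    obtain ⟨p, q, rfl⟩ := (IntermediateField.mem_adjoin_simple_iff _ _).1 h8
    obtain rfl | hq := eq_or_ne q 0
    · simp
    · rw [div_eq_mul_inv]
      exact mul_mem (h7 _ (Polynomial.aeval_mem_adjoin_singleton _ _)) (h6 q hq)
  · rw [trd_insert_of_notMem h1 h5, h4]

variable [CharZero K]

theorem conj_centre' (A : Subring K)
    (hA : ∀ x ∈ Subfield.closure (A : Set K), IsIntegral A x → x ∈ A) {W W' : ValuationSubring K}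
    (h : ∀ a ∈ A, a ∈ W) (h' : ∀ a ∈ A, a ∈ W')
    (hc : ∀ a ∈ A, a ∈ W.nonunits ↔ a ∈ W'.nonunits) :
    ∃ τ : K ≃+* K, (∀ x ∈ Subfield.closure (A : Set K), τ x = x) ∧
      ∀ b, IsIntegral A b → (b ∈ W.nonunits ↔ τ b ∈ W'.nonunits) := by
  have := isGalois_acl (Subfield.closure (A : Set K))
  let v := (algebraicClosure (Subfield.closure (A : Set K)) K).val.toRingHom
  obtain ⟨σ, hσ⟩ := conj_centre (F := Subfield.closure (A : Set K)) (A.comap v)
    (W := W.comap v) (W' := W'.comap v)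
    (fun a ha => ⟨⟨_, Subfield.subset_closure ha⟩, rfl⟩)
    (by
      rintro _ ⟨a, rfl⟩ ha
      exact hA _ a.2 (isIntegral_of_forall fun U hU =>
        mem_of_isIntegral (W := U.comap v) (fun b hb => hU _ hb) ha))
    (fun a ha => h _ ha) (fun a ha => h' _ ha) fun a ha => by
      rw [mem_nonunits_comap, mem_nonunits_comap]
      exact hc _ ha
  obtain ⟨τ, h1, h2⟩ := exists_aut_gal _ σ
  refine ⟨τ, h1, fun b hb => ?_⟩
  have h3 : b ∈ acl (A : Set K) := mem_acl.2 (IsIntegral.isAlgebraic (hb.map_of_comp_eq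
    (T := Subfield.closure (A : Set K)) (Subring.inclusion
      (T := (Subfield.closure (A : Set K)).toSubring) Subfield.subset_closure) (RingHom.id K) rfl))
  have h4 := hσ ⟨b, h3⟩ (isIntegral_of_forall fun U hU => by
    obtain ⟨V, rfl⟩ := exists_val_ext v U
    exact mem_of_isIntegral (W := V) (fun a ha => hU ⟨a, subset_acl _ ha⟩ ha) hb)
  rw [mem_nonunits_comap, mem_nonunits_comap] at h4
  rw [h2 ⟨b, h3⟩]
  exact h4

open scoped IntermediateField.algebraAdjoinAdjoin in
omit [IsAlgClosed K] [CharZero K] in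
theorem normal_adjoin {k : Subfield K} {n : ℕ} {u : Fin n → K} (hu : AlgebraicIndependent k u)
    {A : Subring K} (hA : ∀ x, x ∈ A ↔ x ∈ Algebra.adjoin k (range u)) :
    ∀ x ∈ Subfield.closure (A : Set K), IsIntegral A x → x ∈ A := by
  intro x hx h
  replace h : IsIntegral (Algebra.adjoin k (range u)) x := h.map_of_comp_eq
    (A.subtype.codRestrict (Algebra.adjoin k (range u)) fun a => (hA _).1 a.2) (RingHom.id K)
    (RingHom.ext fun _ => rfl)
  have : IsIntegrallyClosed (Algebra.adjoin k (range u)) :=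
    IsIntegrallyClosed.of_equiv hu.aevalEquiv.toRingEquiv
  have h1 : x ∈ IntermediateField.adjoin k (range u) :=
    (Subfield.closure_le (t := (IntermediateField.adjoin k (range u)).toSubfield)).2
      (fun a ha => IntermediateField.algebra_adjoin_le_adjoin _ _ ((hA a).1 ha)) hx
  obtain ⟨y, hy⟩ := (IsIntegrallyClosed.isIntegral_iff (R := Algebra.adjoin k (range u))
    (x := (⟨x, h1⟩ : IntermediateField.adjoin k (range u)))).1
      ((isIntegral_algebraMap_iff (B := K) Subtype.val_injective).1 h)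
  exact (hA x).2 ((show (y : K) = x from congrArg Subtype.val hy) ▸ y.2)

omit [IsAlgClosed K] [CharZero K] in
/-- Noether normalisation inside `K`. -/
theorem noether (k : Subfield K) {s : Set K} (hs : s.Finite) :
    ∃ (n : ℕ) (t : Fin n → K), (∀ i, t i ∈ Algebra.adjoin k s) ∧ AlgebraicIndependent k t ∧
      ∀ A : Subring K, (∀ x ∈ k, x ∈ A) → (∀ i, t i ∈ A) →
        ∀ r ∈ Algebra.adjoin k s, IsIntegral A r := by
  have : Algebra.FiniteType k (Algebra.adjoin k s) :=
    (Subalgebra.fg_iff_finiteType _).1 (Subalgebra.fg_def.2 ⟨s, hs, rfl⟩)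
  obtain ⟨n, g, hg, hg'⟩ := exists_integral_inj_algHom_of_fg k (Algebra.adjoin k s)
  refine ⟨n, fun i => g (.X i), fun i => (g (.X i)).2, ?_, fun A hk ht r hr => ?_⟩
  · rw [AlgebraicIndependent, show (MvPolynomial.aeval fun i => (g (.X i) : K)) =
      (Algebra.adjoin k s).val.comp g from MvPolynomial.algHom_ext fun i => by simp]
    exact Subtype.val_injective.comp hg
  · have hm : ∀ p, (g p : K) ∈ A := fun p => by
      induction p using MvPolynomial.induction_on with
      | C a => rw [← MvPolynomial.algebraMap_eq, g.commutes]; exact hk a a.2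
      | add p q hp hq => rw [map_add]; exact add_mem hp hq
      | mul_X p i hp => rw [map_mul]; exact mul_mem hp (ht i)
    obtain ⟨p, hp, h⟩ := hg' ⟨r, hr⟩
    let f : MvPolynomial (Fin n) k →+* K := (Algebra.adjoin k s).val.toRingHom.comp g.toRingHom
    refine ⟨p.map (f.codRestrict A hm), hp.map _, ?_⟩
    rw [Polynomial.eval₂_map]
    exact (Polynomial.hom_eval₂ p g.toRingHom (Algebra.adjoin k s).val.toRingHom
      ⟨r, hr⟩).symm.trans (congrArg Subtype.val h)

omit [IsAlgClosed K] [CharZero K] in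
theorem mem_acl_of_isIntegral {A : Subring K} (h : ∀ a ∈ A, a ∈ acl S) (hx : IsIntegral A x) :
    x ∈ acl S := by
  obtain ⟨p, hp, h1⟩ := hx
  refine mem_acl_of_poly (hp.map A.subtype).ne_zero (fun n => ?_) (by rwa [Polynomial.eval_map])
  rw [Polynomial.coeff_map]
  exact h _ (p.coeff n).2

omit [IsAlgClosed K] [CharZero K] in
theorem adjoin_le {k : Subfield K} {σ : Type} [SetLike σ K] [SubringClass σ K] {A : σ}
    (hk : ∀ x ∈ k, x ∈ A) (hS : ∀ x ∈ S, x ∈ A) (hx : x ∈ Algebra.adjoin k S) : x ∈ A :=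
  Algebra.adjoin_induction hS (fun c => hk c c.2) (fun _ _ _ _ => add_mem)
    (fun _ _ _ _ => mul_mem) hx

omit [IsAlgClosed K] [CharZero K] in
theorem exists_const {k : Subfield K} {V : ValuationSubring K} (hO : ∀ x ∈ k, x ∈ O)
    (hV : ∀ x ∈ k, x ∈ V) (h1 : ∀ x ∈ S, x ∈ O.nonunits) (h2 : ∀ x ∈ S, x ∈ V.nonunits)
    (hx : x ∈ Algebra.adjoin k S) : x ∈ O ∧ x ∈ V ∧ (x ∈ O.nonunits ↔ x ∈ V.nonunits) := by
  have key : ∀ (U : ValuationSubring K), (∀ x ∈ k, x ∈ U) → ∀ {a b c d : K}, c ∈ k → d ∈ k →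
      a - c ∈ U.nonunits → b - d ∈ U.nonunits → a * b - c * d ∈ U.nonunits :=
    fun U hU a b c d hc hd h h' => by
      rw [show a * b - c * d = (a - c) * (b - d) + ((a - c) * d + (b - d) * c) by ring]
      exact add_mem (mul_mem h h') (add_mem (mul_mem_nonunits h (hU d hd))
        (mul_mem_nonunits h' (hU c hc)))
  have h4 : ∀ (U : ValuationSubring K), (∀ x ∈ k, x ∈ U) → ∀ {a c : K}, c ∈ k →
      a - c ∈ U.nonunits → a ∈ U ∧ (a ∈ U.nonunits ↔ c = 0) := fun U hU a c hc h =>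
    ⟨by simpa using add_mem (U.nonunits_subset h) (hU c hc), fun h' =>
      eq_zero_of_nonunits hU hc (by simpa using sub_mem h' h), fun e => by simpa [e] using h⟩
  obtain ⟨c, hc, h, h'⟩ : ∃ c ∈ k, x - c ∈ O.nonunits ∧ x - c ∈ V.nonunits := by
    refine Algebra.adjoin_induction (fun y hy => ⟨0, zero_mem _, ?_, ?_⟩)
      (fun c => ⟨c, c.2, ?_⟩) ?_ ?_ hx
    · simpa using h1 y hy
    · simpa using h2 y hy
    · rw [show algebraMap k K c - c = 0 from sub_self (c : K)]
      exact ⟨zero_mem _, zero_mem _⟩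
    · rintro a b - - ⟨c, hc, h, h'⟩ ⟨d, hd, e, e'⟩
      exact ⟨c + d, add_mem hc hd, by simpa only [add_sub_add_comm] using add_mem h e,
        by simpa only [add_sub_add_comm] using add_mem h' e'⟩
    · rintro a b - - ⟨c, hc, h, h'⟩ ⟨d, hd, e, e'⟩
      exact ⟨c * d, mul_mem hc hd, key O hO hc hd h e, key V hV hc hd h' e'⟩
  exact ⟨(h4 O hO hc h).1, (h4 V hV hc h').1, (h4 O hO hc h).2.trans (h4 V hV hc h').2.symm⟩

/-- The case of a rational centre. -/
theorem dvrc_rat {k : Subfield K} (hk : ∀ x ∈ k, x ∈ O) {s : Set K} (hs : s.Finite)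
    (hc : ∀ r ∈ Algebra.adjoin k s, ∃ c ∈ k, r - c ∈ O.nonunits)
    {τ : K} (hτ : τ ∈ Algebra.adjoin k s) (h0 : τ ≠ 0) (h1 : τ ∈ O.nonunits) :
    ∃ (W : ValuationSubring K) (X : Set K), X.Finite ∧ X ⊆ acl (k ∪ s) ∧
      (∀ x ∈ acl (k ∪ X), x ∈ W) ∧ s ⊆ acl (k ∪ X ∪ {τ}) ∧
      ∀ r ∈ Algebra.adjoin k s, r ∈ W ∧ (r ∈ O.nonunits ↔ r ∈ W.nonunits) := by
  obtain ⟨n, t, ht, hti, hint⟩ := noether k hs
  choose c hck hc using fun i => hc _ (ht i)
  obtain ⟨u, hu⟩ : ∃ u : Fin n → K, ∀ i, u i = t i - c i := ⟨_, fun _ => rfl⟩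
  have hu' : ∀ i, t i = u i + c i := fun i => by rw [hu, sub_add_cancel]
  have hkL : ∀ T : Set K, ∀ x ∈ k, x ∈ acl (k ∪ T) := fun T x hx => subset_acl _ (Or.inl hx)
  have huL : ∀ i, u i ∈ acl (k ∪ s) := fun i => hu i ▸
    sub_mem (adjoin_le (hkL s) (fun _ h => subset_acl _ (Or.inr h)) (ht i)) (hkL s _ (hck i))
  obtain ⟨A, hA⟩ : ∃ A : Subring K, ∀ x, x ∈ A ↔ x ∈ Algebra.adjoin k (range u) :=
    ⟨(Algebra.adjoin k (range u)).toSubring, fun _ => Iff.rfl⟩
  have hkA : ∀ x ∈ k, x ∈ A := fun x hx => (hA x).2 (Subalgebra.algebraMap_mem _ (⟨x, hx⟩ : k))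
  have huA : ∀ i, u i ∈ A := fun i => (hA _).2 (Algebra.subset_adjoin ⟨i, rfl⟩)
  replace hint := hint A hkA fun i => hu' i ▸ add_mem (huA i) (hkA _ (hck i))
  have hAL : ∀ {T : Set K}, (∀ i, u i ∈ acl (k ∪ T)) → ∀ r ∈ Algebra.adjoin k s,
      r ∈ acl (k ∪ T) := fun {T} h r hr => mem_acl_of_isIntegral
    (fun a ha => adjoin_le (hkL T) (forall_mem_range.2 h) ((hA a).1 ha)) (hint r hr)
  have hn : trd k (range u) = n := by
    rw [trd_congr (S' := range t), trd_range_eq_iff.2, Fintype.card_fin]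
    · rwa [Subfield.closure_eq]
    · exact range_subset_iff.2 fun i => hu i ▸ sub_mem (subset_acl _ (Or.inr ⟨i, rfl⟩))
        (hkL _ _ (hck i))
    · exact range_subset_iff.2 fun i => hu' i ▸ add_mem (subset_acl _ (Or.inr ⟨i, rfl⟩))
        (hkL _ _ (hck i))
  have hui : AlgebraicIndependent k u := by
    have := trd_range_eq_iff.1 (hn.trans (Fintype.card_fin n).symm)
    rwa [Subfield.closure_eq] at this
  cases n with
  | zero =>
    have h2 := hAL (T := ∅) (fun i => i.elim0) τ hτ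
    rw [union_empty] at h2
    exact (h0 (eq_zero_of_nonunits (fun x => acl_subset_val (by rwa [Subfield.closure_eq])) h2
      h1)).elim
  | succ n =>
  obtain ⟨x, hx⟩ : ∃ x : Fin n → K, ∀ i, x i = u i.succ / u 0 := ⟨_, fun _ => rfl⟩
  have hx' : ∀ i, u i.succ = u 0 * x i := fun i => by rw [hx, mul_div_cancel₀ _ (hui.ne_zero 0)]
  have hX : ∀ {T : Set K}, range x ⊆ T → u 0 ∈ acl (k ∪ T) → ∀ i, u i ∈ acl (k ∪ T) :=
    fun {T} hT h i => Fin.cases h (fun i => hx' i ▸
      mul_mem h (subset_acl _ (Or.inr (hT ⟨i, rfl⟩)))) i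
  have h2 : u 0 ∉ acl (k ∪ range x) := fun h => by
    have h3 := hX (Subset.refl _) h
    replace h3 := trd_le (finite_range x) (range_subset_iff.2 h3)
    have h4 := trd_range_le (F := k) x
    rw [Fintype.card_fin] at h4
    omega
  obtain ⟨V, hV, hV0⟩ := exists_val_of_notMem h2
  have h3 := fun a ha => exists_const (S := range u) hk (fun x hx => hV x (hkL _ x hx))
    (forall_mem_range.2 fun i => hu i ▸ hc i) (forall_mem_range.2 fun i => Fin.cases hV0
      (fun i => hx' i ▸ mul_mem_nonunits hV0 (hV _ (subset_acl _ (Or.inr ⟨i, rfl⟩)))) i)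
    ((hA a).1 ha)
  obtain ⟨σ, h5, h6⟩ := conj_centre' A (normal_adjoin hui hA)
    (fun a ha => (h3 a ha).1) (fun a ha => (h3 a ha).2.1) fun a ha => (h3 a ha).2.2
  have h7 : ∀ y ∈ acl (k ∪ range x), y ∈ V.comap (σ : K →+* K) := fun y hy =>
    hV _ (map_mem_acl (σ : K →+* K) (by
      rintro y (hy | ⟨i, rfl⟩)
      · exact h5 y (Subfield.subset_closure (hkA y hy))
      · exact h5 _ (hx i ▸ div_mem (Subfield.subset_closure (huA _))
          (Subfield.subset_closure (huA _)))) hy)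
  have h8 : ∀ r ∈ Algebra.adjoin k s, r ∈ V.comap (σ : K →+* K) ∧
      (r ∈ O.nonunits ↔ r ∈ (V.comap (σ : K →+* K)).nonunits) := fun r hr =>
    ⟨mem_of_isIntegral (fun a ha => show σ a ∈ V from
      (h5 a (Subfield.subset_closure ha)).symm ▸ (h3 a ha).2.1) (hint r hr),
      (h6 r (hint r hr)).trans (mem_nonunits_comap (σ : K →+* K)).symm⟩
  refine ⟨_, range x, finite_range _, range_subset_iff.2 fun i => hx i ▸ div_mem (huL _) (huL _),
    h7, fun r hr => ?_, h8⟩
  rw [union_assoc]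
  refine hAL (hX subset_union_left ?_) r (Algebra.subset_adjoin hr)
  rw [← union_assoc]
  refine acl_exchange ?_ fun h => h0 (eq_zero_of_nonunits h7 h ((h8 τ hτ).2.1 h1))
  rw [union_assoc]
  exact hAL (hX subset_union_left (subset_acl _ (Or.inr (Or.inr (mem_singleton _))))) τ hτ

/-- A divisorial valuation with the same centre on a finitely generated ring. -/
theorem dvrc_val {k : Subfield K} (hk : ∀ x ∈ k, x ∈ O) {s : Set K} (hs : s.Finite)
    (hO : ∀ x ∈ s, x ∈ O) {τ : K} (hτ : τ ∈ Subring.closure (k ∪ s)) (h0 : τ ≠ 0)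
    (h1 : τ ∈ O.nonunits) :
    ∃ (W : ValuationSubring K) (n : ℕ) (x : Fin n → K), (∀ i, x i ∈ acl (k ∪ s)) ∧
      AlgebraicIndependent k x ∧ (∀ y ∈ acl (k ∪ range x), y ∈ W) ∧
      s ⊆ acl (k ∪ range x ∪ {τ}) ∧
      ∀ r ∈ Subring.closure (k ∪ s), r ∈ W ∧ (r ∈ O.nonunits ↔ r ∈ W.nonunits) := by
  obtain ⟨B, h2, h3, h4, h5⟩ := exists_repr (O := O) (k := k) (by rwa [Subfield.closure_eq]) hs
  have h6 : acl (acl ((k : Set K) ∪ B) ∪ s) = acl (k ∪ s) := by
    rw [acl_acl_union]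
    exact acl_congr (union_subset (union_subset (subset_union_left.trans (subset_acl _)) h3)
      (subset_union_right.trans (subset_acl _)))
      ((union_subset_union_left _ subset_union_left).trans (subset_acl _))
  have h7 : Subring.closure (k ∪ s) ≤ (Algebra.adjoin (acl ((k : Set K) ∪ B)) s).toSubring :=
    Subring.closure_le.2 (union_subset (fun y hy => Subalgebra.algebraMap_mem _
      (⟨y, subset_acl _ (Or.inl hy)⟩ : acl ((k : Set K) ∪ B))) Algebra.subset_adjoin)
  obtain ⟨W, X, h8, h9, h10, h11, h12⟩ := dvrc_rat h4 hs (fun r hr =>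
    h5 r (h6 ▸ adjoin_le (fun _ h => subset_acl _ (Or.inl h)) (fun _ h => subset_acl _ (Or.inr h))
      hr) (adjoin_le h4 hO hr)) (h7 hτ) h0 h1
  obtain ⟨x, h13, h14, h15⟩ := exists_trd_basis k (h2.union h8)
  rw [h6] at h9
  rw [acl_acl_union, union_assoc] at h10
  refine ⟨W, _, x, fun i => union_subset h3 h9 (h13 i), by rwa [Subfield.closure_eq] at h14,
    fun y hy => h10 y (acl_mono (union_subset_union_right _ (range_subset_iff.2 h13)) hy),
    h11.trans (acl_le ?_), fun r hr => h12 r (h7 hr)⟩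
  have h16 := h15.trans (acl_mono (subset_union_left (t := {τ})))
  exact union_subset (union_subset (acl_le (union_subset
    ((subset_union_left.trans subset_union_left).trans (subset_acl _))
      (subset_union_left.trans h16))) (subset_union_right.trans h16))
    (subset_union_right.trans (subset_acl _))

end Pool.Agent.P.MP_f17f76_ag.E
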