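import Pool.Agent.P.MP_f17f76_ag.E.HgcAut

/-!
Expansion of a configuration: the composite place.
-/

namespace Pool.Agent.P.MP_f17f76_ag.Hgc

open Set Module Matrix E AbVar

namespace ExpA

variable {P Q : Plc ℂ ℂ} {F L : Subfield ℂ} {k S T : Set ℂ} {D : Der ℂ} {τ σ : ℂ}

theorem ctr_of_idOn (hk : k ⊆ F) (hP : P.IdOn T) (h : Free k T (P.res F)) (h1 : P.Ctr D F)
    (h2 : D ∈ kil T) : P.Ctr D (acl (F ∪ T)) := by
  obtain ⟨B, -, h3, h4, h5⟩ := E.exists_basis (E.mt k).empty_indep (empty_subset T)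
  have h6 : P.Gauss F ((↑) : B → ℂ) := ⟨fun b => (hP b (h3 b.2)).1, by
    rw [show P.r ∘ ((↑) : B → ℂ) = (↑) from funext fun b => (hP b (h3 b.2)).2]
    exact (h.ind (fun b : B => subset_acl _ (Or.inr (h3 b.2))) h4).anti
      (sub_acl subset_union_right)⟩
  refine (h6.ctr_acl h1 fun b => by simp [h2 b (h3 b.2)]).mono (acl_le ?_)
  rw [Subtype.range_coe]
  exact union_subset (sub_acl subset_union_left)
    (h5.trans (acl_mono (union_subset_union_left _ hk)))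

theorem arch_full (h : P.Agree Q F) (h1 : Q.Full F L) (hτ : τ ∈ F)
    (h2 : ∀ y ∈ F, P.v y < 1 → ∃ q : ℕ, P.v y ^ q ≤ P.v τ) :
    ∀ y ∈ L, Q.v y < 1 → ∃ q : ℕ, Q.v y ^ q ≤ Q.v τ := by
  intro y hy h3
  obtain ⟨q, hq, c, hc, e⟩ := h1.exists_pow_v (subset_acl _ hy)
  obtain ⟨n, hn⟩ := h2 c hc ((h.lt_one hc).2 (e ▸ pow_lt_one₀ zero_le h3 hq.ne'))
  refine ⟨q * n, ?_⟩
  rw [pow_mul, e, ← map_pow]
  exact (h.le (pow_mem hc n) hτ).1 ((map_pow _ _ _).trans_le hn)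

theorem triv_acl (h : P.IdOn S) : P.Triv (acl S) := by
  simpa using h.closure.triv.acl

theorem res_acl_le (h : P.IdOn S) : P.res (acl S) ≤ acl S := by
  simpa [h.closure.res] using Plc.res_acl_le (P := P) (F := Subfield.closure S)

/-- Extension of a contractive derivation to the composite place. -/
theorem exists_ext {α : Type} {Y : α → ℂ} (hk : k ⊆ F) (hP : P.IdOn T)
    (h : Free k T (P.res F)) (h' : Free k F (T ∪ {σ})) (hQ : Q.Triv (P.res (acl (F ∪ T))))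
    (hσ : (P.comp Q).Tr (acl (F ∪ T)) σ)
    (hY : (P.comp Q).Gauss (Subfield.closure (acl (F ∪ T) ∪ {σ})) Y)
    (hL : L = acl (acl (F ∪ T) ∪ {σ} ∪ range Y)) (h0 : D ∈ kil k) (h1 : P.Ctr D F)
    (h2 : ∀ y ∈ F, D y ∈ F) : ∃ X : Der ℂ, (∀ y ∈ F, X y = D y) ∧ (∀ i, X (Y i) = 0) ∧
      (P.comp Q).Good (T ∪ {σ}) L X ∧ ∀ y ∈ acl (F ∪ T), X y ∈ acl (F ∪ T) := by
  obtain ⟨D', h3, h4⟩ := h'.exists_der_ext h0
  have h5 : ∀ y ∈ F, D' y = D y := fun y hy => h4 y (subset_acl _ (Or.inr hy))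
  have h6 : ∀ y ∈ acl (F ∪ T), D' y ∈ acl (F ∪ T) := fun y =>
    der_mem_acl (subset_acl _) fun y hy => hy.elim
      (fun hy => h5 y hy ▸ subset_acl _ (Or.inl (h2 y hy)))
      fun hy => h3 y (Or.inr (Or.inl hy)) ▸ zero_mem _
  have h7 : P.Ctr D' (acl (F ∪ T)) := ctr_of_idOn hk hP h (fun y hy => h5 y hy ▸ h1 y hy)
    (kil_anti (subset_union_left.trans subset_union_right) h3)
  have h8 := hσ.ctr (fun y hy => (Plc.comp_le_iff hQ (h6 y hy) hy).2 (h7 y hy))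
    (by simp [h3 σ (Or.inr (Or.inr rfl))])
  obtain ⟨X, h9, h10, h11⟩ := hY.exists_der h8 (c := 0) (by simp)
  have h12 : ∀ y ∈ (acl (F ∪ T) ∪ {σ} : Set ℂ), X y = D' y := fun y hy =>
    h9 y (Subfield.subset_closure hy)
  refine ⟨X, fun y hy => (h12 y (Or.inl (subset_acl _ (Or.inl hy)))).trans (h5 y hy), h10,
    ⟨fun y hy => (h12 y (hy.imp_left fun h => subset_acl _ (Or.inr h))).trans (h3 y (Or.inr hy)),
      h11.mono (hL ▸ acl_mono (union_subset_union_left _ Subfield.subset_closure)), ?_⟩,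
    fun y hy => h12 y (Or.inl hy) ▸ h6 y hy⟩
  subst hL
  refine fun y => der_mem_acl (subset_acl _) ?_
  rintro y ((hy | rfl) | ⟨i, rfl⟩)
  · exact h12 y (Or.inl hy) ▸ subset_acl _ (Or.inl (Or.inl (h6 y hy)))
  · rw [h12 y (Or.inr rfl), h3 y (Or.inr (Or.inr rfl))]
    exact zero_mem _
  · exact h10 i ▸ zero_mem _

/-- The composite place and its fields. -/
theorem exists_plc {κ : Type} {K : Subfield ℂ} {W : κ → ℂ} {k₁ : Subfield ℂ} (c₁ : Cac k₁)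
    (hk : k₁ ≤ F) (hF : F ≤ L) (cL : (L : Set ℂ).Countable) (cT : T.Countable) (hP : P.IdOn k₁)
    (hK : K = acl (P.res F ∪ range (P.r ∘ W))) (hW : ∀ i, W i ∈ L) (hg : P.Gauss F W)
    (f1 : Free (k₁ : Set ℂ) (T ∪ {σ}) L) (f2 : Free (k₁ : Set ℂ) T K) (hQ : Q.IdOn (T ∪ K))
    (h0 : σ ≠ 0) (h1 : Q.v σ < 1) :
    ∃ P' : Plc ℂ ℂ, P.Agree P' L ∧ P'.IdOn (acl (T ∪ {σ})) ∧ P'.Full F (acl (F ∪ T)) ∧
      Q.Triv (P'.res (acl (F ∪ T))) ∧ (P'.comp Q).Tr (acl (F ∪ T)) σ ∧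
      (P'.comp Q).Gauss (Subfield.closure (acl (F ∪ T) ∪ {σ})) W ∧
      (P'.comp Q).res (acl (Subfield.closure (acl (F ∪ T) ∪ {σ}) ∪ range W)) ≤ acl (T ∪ K) := by
  obtain ⟨P', a1, a2⟩ := Plc.fresh le_rfl (P := P) (φ := RingHom.id ℂ) c₁.cnt cL
    (cT.union (countable_singleton σ)) f1.symm (by rw [c₁.acl_eq]; exact hP)
  replace a1 : P.Agree P' L := a1.mono (sub_acl subset_union_right)
  replace a2 : P'.IdOn (acl (T ∪ {σ})) := a2.mono (acl_mono subset_union_right)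
  have e1 : P'.res F = P.res F := (a1.res hF).symm
  have e2 : (P.res F : Set ℂ) ⊆ K := hK ▸ sub_acl subset_union_left
  have e3 : ∀ i, P.r (W i) ∈ K := fun i => hK ▸ subset_acl _ (Or.inr ⟨i, rfl⟩)
  obtain ⟨a3, a4⟩ := Plc.full_of_lifts' (φ := RingHom.id ℂ) (P := P') (T := T) hk
    (a2.mono (sub_acl subset_union_left)) ((a1.mono (hk.trans hF)).lifts hP) (by
      simpa [e1] using f2.mono subset_rfl (sub_acl (e2.trans subset_union_right)))
  rw [RingHom.coe_id, image_id, e1] at a4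
  have h2 : Q.IdOn (P.res F ∪ T) := hQ.mono (union_subset (e2.trans subset_union_right)
    subset_union_left)
  have a5 : Q.Triv (P'.res (acl (F ∪ T))) := a4 ▸ triv_acl h2
  have h3 := a2 σ (subset_acl _ (Or.inr rfl))
  have a6 : (P'.comp Q).Tr (acl (F ∪ T)) σ := Plc.tr_comp
    (Plc.r_ne_zero_iff.1 (h3.2.trans_ne h0)) (h3.2.symm ▸ Plc.tr_of_triv a5 h0 h1.ne)
  have a7 : (P'.comp Q).res (Subfield.closure (acl (F ∪ T) ∪ {σ})) ≤ acl (P.res F ∪ T) := by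
    rw [a6.res, Plc.comp_res, a4]
    exact res_acl_le h2
  have h4 : ∀ i, (P'.comp Q).v (W i) ≤ 1 ∧ (P'.comp Q).r (W i) = P.r (W i) := fun i => by
    rw [Plc.comp_le_one, Plc.comp_r, ← (a1 _ (hW i)).2, ← (a1 _ (hW i)).1]
    exact ⟨⟨hg.1 i, (hQ _ (Or.inr (e3 i))).1⟩, (hQ _ (Or.inr (e3 i))).2⟩
  have h5 : (P'.comp Q).r ∘ W = P.r ∘ W := funext fun i => (h4 i).2
  have a8 : (P'.comp Q).Gauss (Subfield.closure (acl (F ∪ T) ∪ {σ})) W := ⟨fun i => (h4 i).1, by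
    rw [h5]
    exact ((f2.base (sub_acl (hP.le_res hk)) (sub_acl (e2.trans subset_union_right))).symm.ind
      (fun i => subset_acl _ (Or.inr (e3 i))) hg.2).anti a7⟩
  refine ⟨P', a1, a2, a3, a5, a6, a8, a8.res_acl_le.trans (acl_le (union_subset
    (Subset.trans a7 (acl_mono (union_subset (e2.trans subset_union_right) subset_union_left))) ?_))⟩
  rw [h5]
  exact sub_acl ((range_subset_iff.2 e3).trans subset_union_right)

end ExpA

end Pool.Agent.P.MP_f17f76_ag.Hgc
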