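import Pool.Agent.P.MP_f17f76_ag.E.Fam1

/-!
Families of subspaces: initial spaces and echelon rows.
-/

namespace Pool.Agent.P.MP_f17f76_ag.E

open Set Module Matrix

variable {K : Type} [Field K] {ι κ L Γ Γ' : Type} [LinearOrder Γ] [LinearOrder Γ'] {u x : ι → K}
  {N N' : Submodule K (ι → K)} {r r' : Setoid ι} {k : Subfield K} {m : ι → Γ} {m' : ι → Γ'} {μ : Γ}

theorem cut_mem_ini (hu : u ∈ N) (h : u ∈ supp K fun i => m i ≤ μ) :
    cut (fun i => m i = μ) u ∈ ini m N := Submodule.mem_iSup_of_mem μ ⟨u, ⟨hu, h⟩, rfl⟩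

theorem ini_le {W : Submodule K (ι → K)} : ini m N ≤ W ↔
    ∀ μ, ∀ u ∈ N, u ∈ supp K (fun i => m i ≤ μ) → cut (fun i => m i = μ) u ∈ W := by
  simp only [ini, iSup_le_iff, Submodule.map_le_iff_le_comap]
  exact ⟨fun h μ u h1 h2 => h μ ⟨h1, h2⟩, fun h μ u hu => h μ u hu.1 hu.2⟩

theorem ini_mono (m : ι → Γ) (h : N ≤ N') : ini m N ≤ ini m N' :=
  ini_le.2 fun _ _ hu hs => cut_mem_ini (h hu) hs

theorem exists_of_mem_ini (hx : x ∈ ini m N) (μ : Γ) : ∃ u ∈ N, u ∈ supp K (fun i => m i ≤ μ) ∧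
    cut (fun i => m i = μ) u = cut (fun i => m i = μ) x := by
  have : ini m N ≤ ((N ⊓ supp K fun i => m i ≤ μ).map (cut fun i => m i = μ)).comap
      (cut fun i => m i = μ) := ini_le.2 fun ν u hu hs => by
    rw [Submodule.mem_comap, cut_cut]
    rcases eq_or_ne ν μ with rfl | h
    · exact ⟨u, ⟨hu, hs⟩, by simp only [and_self]⟩
    · rw [cut_eq_zero.2 fun i hi => absurd (hi.2.symm.trans hi.1) h]
      exact zero_mem _
  obtain ⟨u, hu, e⟩ := this hx
  exact ⟨u, hu.1, hu.2, e⟩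

theorem Graded.ini_ker (m : ι → Γ) (N : Submodule K (ι → K)) : Graded (Setoid.ker m) (ini m N) :=
  fun j _ hx => by
    obtain ⟨u, h1, h2, h3⟩ := exists_of_mem_ini hx (m j)
    exact h3 ▸ cut_mem_ini h1 h2

theorem Graded.ini (h : Graded r N) (m : ι → Γ) : Graded (r ⊓ Setoid.ker m) (ini m N) :=
  (graded_iSup fun _ => (h.inf (graded_supp r _)).map_cut _).and (Graded.ini_ker m N)

variable [Finite ι]

omit [LinearOrder Γ] in
theorem mem_of_cut {m : ι → Γ} (h : ∀ j, cut (fun i => m i = m j) x ∈ N) : x ∈ N := by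
  classical
  have := Fintype.ofFinite ι
  have e : x = ∑ μ ∈ Finset.univ.image m, cut (fun i => m i = μ) x := funext fun i => by
    rw [Finset.sum_apply, Finset.sum_eq_single (m i)]
    · exact (cut_pos (p := fun l => m l = m i) rfl).symm
    · exact fun b _ hb => cut_neg (p := fun l => m l = b) hb.symm
    · exact fun h => absurd (Finset.mem_image_of_mem m (Finset.mem_univ i)) h
  rw [e]
  refine N.sum_mem fun μ hμ => ?_
  obtain ⟨j, -, rfl⟩ := Finset.mem_image.1 hμ
  exact h j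

theorem mem_ini : x ∈ ini m N ↔ ∀ μ, ∃ u ∈ N, u ∈ supp K (fun i => m i ≤ μ) ∧
    cut (fun i => m i = μ) u = cut (fun i => m i = μ) x :=
  ⟨exists_of_mem_ini, fun h => mem_of_cut (m := m) fun j => by
    obtain ⟨u, h1, h2, h3⟩ := h (m j)
    exact h3 ▸ cut_mem_ini h1 h2⟩

theorem Ov.ini (h : Ov k N) (m : ι → Γ) : Ov k (ini m N) :=
  ov_iSup fun _ => (h.inf (ov_supp _)).cut _

theorem ini_eq_self (h : Graded (Setoid.ker m) N) : ini m N = N :=
  le_antisymm (ini_le.2 fun _ _ hu _ => h.cut (fun _ _ e e' => e.symm.trans e') hu) fun x hx =>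
    mem_ini.2 fun μ => ⟨_, h.cut (fun _ _ e e' => e.symm.trans e') hx,
      supp_mono (fun _ e => e.le) (cut_mem_supp _ x), by simp only [cut_cut, and_self]⟩

omit [Finite ι] in
theorem ini_congr (h : ∀ i j, m i ≤ m j ↔ m' i ≤ m' j) (N : Submodule K (ι → K)) :
    ini m N = ini m' N := by
  have key : ∀ {Γ Γ' : Type} [LinearOrder Γ] [LinearOrder Γ'] {m : ι → Γ} {m' : ι → Γ'},
      (∀ i j, m i ≤ m j ↔ m' i ≤ m' j) → ini m N ≤ ini m' N := by
    intro Γ Γ' _ _ m m' h
    refine ini_le.2 fun μ u hu hs => ?_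
    by_cases hj : ∃ j, m j = μ
    · obtain ⟨j, rfl⟩ := hj
      rw [cut_congr (q := fun i => m' i = m' j) fun i _ => by simp only [le_antisymm_iff, h]]
      exact cut_mem_ini hu (supp_mono (fun i => (h i j).1) hs)
    · rw [cut_eq_zero.2 fun i hi => absurd ⟨i, hi⟩ hj]
      exact zero_mem _
  exact le_antisymm (key h) (key fun i j => (h i j).symm)

/-- Reduced echelon form. -/
theorem exists_ech (m : ι → Γ) (N : Submodule K (ι → K)) : ∃ (P : Set ι) (y : P → ι → K),
    (∀ l, y l ∈ N) ∧ (∀ l, y l l = 1) ∧ (∀ l l' : P, l ≠ l' → y l l' = 0) ∧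
      (∀ (l : P) j, m l < m j → y l j = 0) ∧ ∀ u ∈ N, (∀ l : P, u l = 0) → u = 0 := by
  classical
  have := Fintype.ofFinite ι
  let o : ι → Γ ×ₗ Fin (Fintype.card ι) := fun i => toLex (m i, Fintype.equivFin ι i)
  let _ : LinearOrder ι := LinearOrder.lift' o fun i j e =>
    (Fintype.equivFin ι).injective (congrArg (fun z => (ofLex z).2) e)
  let P : Set ι := {j | ∃ u ∈ N, u j ≠ 0 ∧ ∀ i, j < i → u i = 0}
  have top : ∀ u ∈ N, ∀ j, u j ≠ 0 → ∃ i ∈ P, j ≤ i ∧ u i ≠ 0 := fun u hu j hj => by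
    obtain ⟨i, h1, h2⟩ := (Finset.univ.filter fun i => u i ≠ 0).exists_max_image id
      ⟨j, by simpa using hj⟩
    simp only [Finset.mem_filter, Finset.mem_univ, true_and, id] at h1 h2
    exact ⟨i, ⟨u, hu, h1, fun l hl => not_not.1 fun e => (h2 l e).not_gt hl⟩, h2 j hj, h1⟩
  have ex : ∀ j, j ∈ P → ∃ y ∈ N, y j = 1 ∧ ∀ l ∈ P, j ≠ l → y l = 0 := by
    intro j
    induction j using WellFoundedLT.induction with
    | ind j ih =>
    rintro ⟨z, hz, h1, h2⟩
    choose! y hy using ih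
    let s := Finset.univ.filter fun l => l < j ∧ l ∈ P
    have hs : ∀ l, l ∈ s ↔ l < j ∧ l ∈ P := fun l => by simp [s]
    have hj : j ∈ P := ⟨z, hz, h1, h2⟩
    refine ⟨(z j)⁻¹ • (z - ∑ l ∈ s, z l • y l), N.smul_mem _ (N.sub_mem hz (N.sum_mem fun l hl =>
      N.smul_mem _ (hy l ((hs l).1 hl).1 ((hs l).1 hl).2).1)), ?_, fun i hi hji => ?_⟩
    · rw [Pi.smul_apply, Pi.sub_apply, Finset.sum_apply, Finset.sum_eq_zero fun l hl => by
        rw [Pi.smul_apply, (hy l ((hs l).1 hl).1 ((hs l).1 hl).2).2.2 j hj ((hs l).1 hl).1.ne,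
          smul_zero], sub_zero, smul_eq_mul, inv_mul_cancel₀ h1]
    · rw [Pi.smul_apply, Pi.sub_apply, Finset.sum_apply, Finset.sum_eq_single i]
      · rcases lt_or_gt_of_ne hji with h | h
        · simp [h2 i h]
        · simp [(hy i h hi).2.1]
      · exact fun l hl hli => by
          rw [Pi.smul_apply, (hy l ((hs l).1 hl).1 ((hs l).1 hl).2).2.2 i hi hli, smul_zero]
      · exact fun h => by
          rw [h2 i (lt_of_le_of_ne (not_lt.1 fun e => h ((hs i).2 ⟨e, hi⟩)) hji), zero_smul,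
            Pi.zero_apply]
  choose y hy using fun l : P => ex l l.2
  refine ⟨P, y, fun l => (hy l).1, fun l => (hy l).2.1, fun l l' h => (hy l).2.2 _ l'.2
    fun e => h (Subtype.ext e), fun l j h => not_not.1 fun e => ?_, fun u hu h => funext fun j =>
      not_not.1 fun e => ?_⟩
  · obtain ⟨i, h1, h2, h3⟩ := top _ (hy l).1 j e
    have h4 : (l : ι) < j := Prod.Lex.toLex_lt_toLex.2 (Or.inl h)
    exact h3 ((hy l).2.2 i h1 (h4.trans_le h2).ne)
  · obtain ⟨i, h1, -, h3⟩ := top u hu j e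
    exact h3 (h ⟨i, h1⟩)

section adapt

omit [Finite ι]

variable [Fintype ι] [DecidableEq ι] [Fintype L] {g : Matrix ι ι K} {n : L → ι → K} {μ : L → Γ}

omit [DecidableEq ι] in
theorem Adapt.supp (h : Adapt r g m N n μ) (l : L) : n l ᵥ* g ∈ supp K fun i => m i ≤ μ l :=
  fun j hj => h.low l j (not_le.1 hj)

omit [DecidableEq ι] in
theorem Adapt.exists_top (h : Adapt r g m N n μ) (l : L) : ∃ j, m j = μ l ∧ (n l ᵥ* g) j ≠ 0 :=
  by_contra fun e => h.ind.ne_zero l (cut_eq_zero.2 fun i hi => not_not.1 fun e' => e ⟨i, hi, e'⟩)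

omit [DecidableEq ι] in
open Classical in
theorem Adapt.cut_sum (h : Adapt r g m N n μ) {c : L → K} {ν : Γ} (hc : ∀ l, c l ≠ 0 → μ l ≤ ν) :
    cut (fun i => m i = ν) ((∑ l, c l • n l) ᵥ* g) =
      ∑ l, (if μ l = ν then c l else 0) • cut (fun i => m i = μ l) (n l ᵥ* g) := by
  rw [← vecMulLinear_apply, map_sum, map_sum]
  refine Finset.sum_congr rfl fun l _ => ?_
  rw [map_smul, map_smul, vecMulLinear_apply]
  split_ifs with e
  · rw [e]
  · by_cases h0 : c l = 0
    · rw [h0, zero_smul, zero_smul]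
    · rw [cut_eq_zero.2 fun i (hi : m i = ν) =>
        h.low l i ((lt_of_le_of_ne (hc l h0) e).trans_eq hi.symm), smul_zero,
        zero_smul]

omit [DecidableEq ι] in
/-- The weights of the rows that occur are bounded by the weights of the support. -/
theorem Adapt.coef (h : Adapt r g m N n μ) {c : L → K} {l : L} (hl : c l ≠ 0) :
    ∃ j, μ l ≤ m j ∧ ((∑ l, c l • n l) ᵥ* g) j ≠ 0 := by
  classical
  obtain ⟨l', h1, h2⟩ := (Finset.univ.filter fun l => c l ≠ 0).exists_max_image μ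
    ⟨l, by simpa using hl⟩
  simp only [Finset.mem_filter, Finset.mem_univ, true_and] at h1 h2
  by_contra e
  have h3 := h.cut_sum h2
  rw [cut_eq_zero.2 fun i (hi : m i = μ l') => not_not.1 fun e' =>
    e ⟨i, (h2 l hl).trans hi.ge, e'⟩] at h3
  exact h1 (by simpa using Fintype.linearIndependent_iff.1 h.ind _ h3.symm l')

omit [DecidableEq ι] in
theorem Adapt.li (h : Adapt r g m N n μ) : LinearIndependent K n :=
  Fintype.linearIndependent_iff.2 fun c hc l => not_not.1 fun e => by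
    obtain ⟨j, -, hj⟩ := h.coef e
    exact hj (by simp [hc])

omit [DecidableEq ι] in
theorem Adapt.span (h : Adapt r g m N n μ) : Submodule.span K (range n) = N :=
  Submodule.eq_of_le_of_finrank_eq (Submodule.span_le.2 (range_subset_iff.2 h.mem))
    ((finrank_span_eq_card h.li).trans h.card)

omit [DecidableEq ι] in
theorem Adapt.exists_coef (h : Adapt r g m N n μ) (hu : u ∈ N) : ∃ c : L → K, ∑ l, c l • n l = u :=
  (Submodule.mem_span_range_iff_exists_fun K).1 (h.span.symm ▸ hu)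

omit [DecidableEq ι] in
theorem Adapt.span_top (h : Adapt r g m N n μ) :
    Submodule.span K (range fun l => cut (fun i => m i = μ l) (n l ᵥ* g)) = ini m (act g N) := by
  refine le_antisymm (Submodule.span_le.2 (range_subset_iff.2 fun l =>
    cut_mem_ini (vecMul_mem_act g (h.mem l)) (h.supp l))) (ini_le.2 ?_)
  rintro ν _ ⟨u, hu, rfl⟩ hs
  obtain ⟨c, rfl⟩ := h.exists_coef hu
  rw [vecMulLinear_apply, h.cut_sum fun l hl => by
    obtain ⟨j, h1, h2⟩ := h.coef hl
    exact h1.trans (not_not.1 fun e => h2 (hs j e))]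
  exact Submodule.sum_mem _ fun l _ => Submodule.smul_mem _ _ (Submodule.subset_span ⟨l, rfl⟩)

omit [DecidableEq ι] in
theorem Adapt.mono (h : Adapt r g m N n μ) (hr : r ≤ r') : Adapt r' g m N n μ :=
  ⟨h.card, h.mem, fun l i j a b => hr (h.hom l i j a b), h.low, h.ind⟩

/-- Echelon rows with pivots. -/
theorem exists_adapt [DecidableEq L] (hL : Fintype.card L = finrank K N) (hN : Ov k N)
    (hr : Graded r N) (hg : GrM k r g) (m : ι → Γ) : ∃ (n : L → ι → K) (pv : L → ι),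
      Adapt r g m N n (fun l => m (pv l)) ∧ (∀ l i, n l i ∈ k) ∧
        ∀ l l', (n l ᵥ* g) (pv l') = if l = l' then 1 else 0 := by
  classical
  obtain ⟨P, y, h1, h2, h3, h4, h5⟩ := exists_ech m (act g N)
  have uniq : ∀ (l : P), ∀ u ∈ act g N, (∀ l' : P, u l' = y l l') → u = y l := fun l u hu h =>
    sub_eq_zero.1 (h5 _ (sub_mem hu (h1 l)) fun l' => sub_eq_zero.2 (h l'))
  have hδ : ∀ l l' : P, y l l' = if l = l' then 1 else 0 := fun l l' => by
    split_ifs with e
    exacts [e ▸ h2 l, h3 l l' e]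
  have hk : ∀ l i, y l i ∈ k := fun l i => by
    obtain ⟨φ, a1, a2, a3⟩ := exists_proj k
    rw [← uniq l _ ((hN.act hg.mem).stable φ a1 (h1 l)) fun l' => by
      rw [hδ]; split_ifs <;> simp [a2]]
    exact a3 _
  have hh : ∀ l : P, cut (fun i => r i l) (y l) = y l := fun l =>
    uniq l _ (hr.act hg _ _ (h1 l)) fun l' => by
      rcases eq_or_ne l l' with rfl | e
      · exact cut_pos (p := fun i => r i l) (r.refl _)
      · simp [cut_apply, h3 l l' e]
  have hi : ∀ z : P → ι → K, (∀ l l' : P, z l l' = y l l') → LinearIndependent K z := fun z hz =>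
    Fintype.linearIndependent_iff.2 fun c hc l => by
      simpa [hz, hδ] using congrFun hc l
  have hc : Fintype.card P = finrank K N := by
    rw [← finrank_act hg.det, ← finrank_span_eq_card (hi y fun _ _ => rfl)]
    refine congrArg (fun W : Submodule K (ι → K) => finrank K W) ?_
    refine le_antisymm (Submodule.span_le.2 (range_subset_iff.2 h1)) fun u hu =>
      (Submodule.mem_span_range_iff_exists_fun K).2 ⟨fun l => u l, (sub_eq_zero.1 (h5 _
        (sub_mem hu (sum_mem fun l _ => Submodule.smul_mem _ _ (h1 l))) fun l' => ?_)).symm⟩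
    simp [hδ]
  let e : L ≃ P := Fintype.equivOfCardEq (hL.trans hc.symm)
  have hn : ∀ l, y (e l) ᵥ* g⁻¹ ᵥ* g = y (e l) := fun l => inv_vecMul_cancel hg.det _
  refine ⟨fun l => y (e l) ᵥ* g⁻¹, fun l => e l, ⟨hL, fun l => (mem_act_iff hg.det).1 (h1 _),
    fun l i j a b => ?_, fun l j h => by rw [hn, h4 _ _ h], ?_⟩,
    fun l => vecMul_mem (hk _) hg.inv.mem, fun l l' => by simp only [hn, hδ, e.apply_eq_iff_eq]⟩
  · rw [← hh, ← hg.inv.cut'] at a b
    exact r.trans (cut_ne a).1 (r.symm (cut_ne b).1)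
  · simp only [hn]
    refine (hi (fun l => cut (fun i => m i = m l) (y l)) fun l l' => ?_).comp e e.injective
    rcases eq_or_ne l l' with rfl | e
    · exact cut_pos (p := fun i => m i = m l) rfl
    · simp [cut_apply, h3 l l' e]

omit [DecidableEq ι] in
theorem finrank_ini (m : ι → Γ) (N : Submodule K (ι → K)) : finrank K (ini m N) = finrank K N := by
  classical
  obtain ⟨n, pv, h, -⟩ := exists_adapt (Fintype.card_fin _) ov_top' (graded_top N) (GrM.one ⊤ ⊤) m
  have := h.span_top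
  rw [act_one] at this
  rw [← this, finrank_span_eq_card h.ind, h.card]

omit [DecidableEq ι] in
theorem ini_ini (m : ι → Γ) (m' : ι → Γ') (N : Submodule K (ι → K)) :
    ini m' (ini m N) = ini (fun i => toLex (m i, m' i)) N := by
  refine (Submodule.eq_of_le_of_finrank_eq (ini_le.2 fun μ u hu hs => ?_)
    (by simp only [finrank_ini])).symm
  have h1 := cut_mem_ini (μ := (ofLex μ).1) hu
    (supp_mono (fun i hi => Prod.Lex.monotone_fst_ofLex hi) hs)
  have h2 := cut_mem_ini (m := m') (μ := (ofLex μ).2) h1 fun i hi => not_not.1 fun e =>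
    (cut_ne e).2 (hs i fun h => hi (by
      rcases Prod.Lex.le_iff.1 h with h | h
      exacts [absurd (cut_ne e).1 h.ne, h.2]))
  rw [cut_cut] at h2
  rwa [cut_congr (q := fun i => m' i = (ofLex μ).2 ∧ m i = (ofLex μ).1) fun i _ =>
    ⟨fun e => by rw [← e]; exact ⟨rfl, rfl⟩, fun e => by rw [e.1, e.2]; rfl⟩]

theorem ini_act (h : GrM k (Setoid.ker m) g) (N : Submodule K (ι → K)) :
    ini m (act g N) = act g (ini m N) := by
  refine Submodule.eq_of_le_of_finrank_eq (ini_le.2 ?_)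
    (by rw [finrank_act h.det, finrank_ini, finrank_ini, finrank_act h.det])
  rintro μ _ ⟨u, hu, rfl⟩ hs
  rw [vecMulLinear_apply, h.cut fun _ _ e e' => e.symm.trans e']
  refine vecMul_mem_act g (cut_mem_ini hu ?_)
  rw [← h.act_supp fun _ _ e e' => e.symm.trans_le e', mem_act_iff h.det, vecMulLinear_apply,
    vecMul_inv_cancel h.det] at hs
  exact hs

/-- Homogeneous elements of the initial space lift. -/
theorem exists_lift (hN : Ov k N) (hr : Graded r N) (hg : GrM k r g) {ν : Γ}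
    (hx : x ∈ ini m (act g N)) (hs : x ∈ supp K fun i => m i = ν) (hk : ∀ i, x i ∈ k) :
    ∃ u ∈ N, (∀ i, u i ∈ k) ∧ u ᵥ* g ∈ supp K (fun i => m i ≤ ν) ∧
      cut (fun i => m i = ν) (u ᵥ* g) = x ∧
        ∀ j, x ∈ supp K (fun i => r i j) → ∃ u' ∈ N, (∀ i, u' i ∈ k) ∧ u' ∈ supp K (fun i => r i j) ∧
          u' ᵥ* g ∈ supp K (fun i => m i ≤ ν) ∧ cut (fun i => m i = ν) (u' ᵥ* g) = x := by
  obtain ⟨y, h1, h2, h3⟩ := exists_of_mem_ini hx ν
  rw [cut_eq_self.2 hs] at h3
  obtain ⟨z, ⟨a1, a2⟩, a3, a4⟩ := ((hN.act hg.mem).inf (ov_supp _)).exists_pre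
    (f := cut fun i => m i = ν) (fun φ _ u => (cut_map φ (map_zero φ) _ u).symm)
    ⟨y, ⟨h1, h2⟩, h3⟩ hk
  have e := inv_vecMul_cancel hg.det z
  have b1 := (mem_act_iff hg.det).1 a1
  have b2 := vecMul_mem a3 hg.inv.mem
  refine ⟨_, b1, b2, by rwa [e], by rwa [e], fun j hj => ⟨_, hr j _ b1, cut_mem _ b2,
    cut_mem_supp _ _, ?_, ?_⟩⟩
  · rw [← hg.cut', e]
    exact cut_supp _ a2
  · rw [← hg.cut', e, cut_comm, a4, cut_eq_self.2 hj]

end adapt

end Pool.Agent.P.MP_f17f76_ag.E
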