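import Pool.Agent.P.MP_f17f76_ag.E.Gain1
import Pool.Agent.P.MP_f17f76_ag.E.Fam2

/-!
Reduction of endomorphisms of a family.
-/

namespace Pool.Agent.P.MP_f17f76_ag.E

open Set Matrix Module

variable {K ι : Type} [Field K] [Fintype ι] [DecidableEq ι] {P : Plc K K}

omit [DecidableEq ι] in
theorem r_vecMul {R : Type} [Field R] {P : Plc K R} {x : ι → K} {B : Matrix ι ι K}
    (hx : ∀ i, P.v (x i) ≤ 1) (hB : ∀ i j, P.v (B i j) ≤ 1) (j : ι) :
    P.v ((x ᵥ* B) j) ≤ 1 ∧ P.r ((x ᵥ* B) j) = ((P.r ∘ x) ᵥ* B.map P.r) j :=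
  ⟨P.v.map_sum_le fun i _ => Plc.v_mul_le (hx i) (hB i j),
    (Plc.r_sum fun i _ => Plc.v_mul_le (hx i) (hB i j)).trans
      (Finset.sum_congr rfl fun i _ => Plc.r_mul (hx i) (hB i j))⟩

omit [DecidableEq ι] in
theorem r_mulVec {R : Type} [Field R] {P : Plc K R} {x : ι → K} {B : Matrix ι ι K}
    (hx : ∀ i, P.v (x i) ≤ 1) (hB : ∀ i j, P.v (B i j) ≤ 1) (j : ι) :
    P.v ((B *ᵥ x) j) ≤ 1 ∧ P.r ((B *ᵥ x) j) = (B.map P.r *ᵥ (P.r ∘ x)) j :=
  ⟨P.v.map_sum_le fun i _ => Plc.v_mul_le (hB j i) (hx i),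
    (Plc.r_sum fun i _ => Plc.v_mul_le (hB j i) (hx i)).trans
      (Finset.sum_congr rfl fun i _ => Plc.r_mul (hB j i) (hx i))⟩

/-- The reduction of an integral matrix `M⁻¹ φ M - t` preserves the initial space. -/
theorem res_stab {E : Subfield K} (hE : P.IdOn E) {N : Submodule K (ι → K)} (hN : Ov E N)
    {g φ B : Matrix ι ι K} (hg : g.det ≠ 0) (hgE : ∀ i j, g i j ∈ E) {p t : ι → K}
    (hp : ∀ i, p i ≠ 0) (hp' : ∀ i j, P.v (p i) = P.v (p j) → p i = p j ∧ t i = t j)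
    (ht : ∀ i, P.v (t i) ≤ 1) (hφ : act φ N ≤ N) (hB : ∀ i j, P.v (B i j) ≤ 1)
    (e : (g * diagonal p) * (B + diagonal t) = φ * (g * diagonal p)) :
    act (B.map P.r) (ini (fun i => P.v (p i)) (act g N)) ≤ ini (fun i => P.v (p i)) (act g N) := by
  obtain ⟨n, pv, h1, h2, h3⟩ := exists_adapt (L := Fin (finrank K N)) (Fintype.card_fin _) hN
    (graded_top N) ⟨hg, hgE, fun _ _ _ => trivial⟩ fun i => P.v (p i)
  let x : Fin (finrank K N) → ι → K := fun l => (p (pv l))⁻¹ • (n l ᵥ* (g * diagonal p))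
  have hx : ∀ l j, x l j = (n l ᵥ* g) j * (p j / p (pv l)) := fun l j => by
    simp only [x, ← vecMul_vecMul, Pi.smul_apply, vecMul_diagonal, smul_eq_mul]
    ring
  have hy : ∀ l j, P.v ((n l ᵥ* g) j) ≤ 1 ∧ P.r ((n l ᵥ* g) j) = (n l ᵥ* g) j := fun l j =>
    hE _ (vecMul_mem (h2 l) hgE j)
  have hx' : ∀ l j, P.v (x l j) ≤ 1 ∧
      P.r (x l j) = cut (fun i => P.v (p i) = P.v (p (pv l))) (n l ᵥ* g) j := fun l j => by
    rw [hx]
    rcases lt_trichotomy (P.v (p j)) (P.v (p (pv l))) with h | h | h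
    · have h4 := Plc.v_mul_lt (hy l j).1 ((P.v_div_lt_one (hp _)).2 h)
      exact ⟨h4.le, (Plc.r_of_lt h4).trans (if_neg h.ne).symm⟩
    · rw [(hp' _ _ h).1, div_self (hp _), mul_one, cut_apply, if_pos h]
      exact hy l j
    · rw [h1.low l j h, zero_mul, cut_apply, if_neg h.ne']
      simp
  have hm : ∀ l, P.r ∘ x l ∈ ini (fun i => P.v (p i)) (act g N) := fun l =>
    h1.span_top.le (Submodule.subset_span ⟨l, (funext fun j => (hx' l j).2).symm⟩)
  have key : ∀ u ∈ N, (∀ j, P.v ((u ᵥ* (g * diagonal p)) j) ≤ 1) →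
      P.r ∘ (u ᵥ* (g * diagonal p)) ∈ ini (fun i => P.v (p i)) (act g N) := fun u hu hi => by
    obtain ⟨c, rfl⟩ := h1.exists_coef hu
    have h4 : (∑ l, c l • n l) ᵥ* (g * diagonal p) = ∑ l, (c l * p (pv l)) • x l := by
      rw [sum_vecMul]
      refine Finset.sum_congr rfl fun l _ => ?_
      rw [smul_vecMul, mul_smul, smul_inv_smul₀ (hp _)]
    have h5 : ∀ l, P.v (c l * p (pv l)) ≤ 1 := fun l => by
      have := hi (pv l)
      rw [h4, Finset.sum_apply, Finset.sum_eq_single l] at this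
      · simpa [hx, h3, hp] using this
      · intro l' _ hl
        simp [hx, h3, hl]
      · simp
    have h6 : P.r ∘ ∑ l, (c l * p (pv l)) • x l = ∑ l, P.r (c l * p (pv l)) • (P.r ∘ x l) :=
      funext fun j => by
        simp only [Function.comp, Finset.sum_apply, Pi.smul_apply, smul_eq_mul]
        exact (Plc.r_sum fun l _ => Plc.v_mul_le (h5 l) (hx' l j).1).trans
          (Finset.sum_congr rfl fun l _ => Plc.r_mul (h5 l) (hx' l j).1)
    rw [h4, h6]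
    exact sum_mem fun l _ => Submodule.smul_mem _ _ (hm l)
  conv_lhs => rw [← h1.span_top]
  rw [act, Submodule.map_span_le]
  rintro _ ⟨l, rfl⟩
  have h4 : ((p (pv l))⁻¹ • (n l ᵥ* φ)) ᵥ* (g * diagonal p) = x l ᵥ* B + x l ᵥ* diagonal t := by
    rw [← vecMul_add, smul_vecMul, smul_vecMul, vecMul_vecMul, vecMul_vecMul, e]
  have h5 : ∀ j, P.v ((x l ᵥ* diagonal t) j) ≤ 1 := fun j => by
    rw [vecMul_diagonal]
    exact Plc.v_mul_le (hx' l j).1 (ht j)
  have h6 := r_vecMul (fun j => (hx' l j).1) hB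
  have h7 := key _ (N.smul_mem (p (pv l))⁻¹ (hφ (vecMul_mem_act φ (h1.mem l)))) fun j => by
    rw [h4]
    exact P.v.map_add_le (h6 j).1 (h5 j)
  have h8 : (P.r ∘ x l) ᵥ* B.map P.r =
      P.r ∘ (x l ᵥ* B + x l ᵥ* diagonal t) - P.r (t (pv l)) • (P.r ∘ x l) := funext fun j => by
    simp only [Function.comp, Pi.sub_apply, Pi.add_apply, Pi.smul_apply, smul_eq_mul]
    rw [Plc.r_add (h6 j).1 (h5 j), (h6 j).2, vecMul_diagonal, Plc.r_mul (hx' l j).1 (ht j)]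
    by_cases h : P.v (p j) = P.v (p (pv l))
    · rw [(hp' _ _ h).2]
      simp [Function.comp_def, mul_comm]
    · simp [(hx' l j).2.trans (if_neg h), Function.comp_def]
  have h9 : (B.map P.r).vecMulLinear (cut (fun i => P.v (p i) = P.v (p (pv l))) (n l ᵥ* g)) =
      (P.r ∘ x l) ᵥ* B.map P.r := congrArg (· ᵥ* B.map P.r) (funext fun j => (hx' l j).2).symm
  rw [h9, h8, ← h4]
  exact sub_mem h7 (Submodule.smul_mem _ _ (hm l))

end Pool.Agent.P.MP_f17f76_ag.E
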