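import Pool.Agent.P.MP_f17f76_ag.E.DvrA
import Pool.Agent.P.MP_f17f76_ag.E.PlcA

/-!
Transfer and divisorial approximation for places.
-/

namespace Pool.Agent.P.MP_f17f76_ag.E

open Set Cardinal Filter

section sign

variable {K : Type} [Field K] {O W : ValuationSubring K} {F : Subfield K} {σ : K}

/-- Compactness: a closed condition on valuation rings. -/
theorem exists_fin_sign {I : Type} (c : I → ValuationSubring K → Prop) {S : Set K} (hS : S.Finite)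
    (h : ∀ (U : Ultrafilter (Finset I)) (W : Finset I → ValuationSubring K),
      (∀ i, ∀ᶠ T in U, c i (W T)) → ∀ x ∈ S, x ∈ O ↔ x ∈ ulim U W) :
    ∃ T : Finset I, ∀ W, (∀ i ∈ T, c i W) → ∀ x ∈ S, x ∈ O ↔ x ∈ W := by
  classical
  by_contra hc
  simp only [not_exists, not_forall, exists_prop] at hc
  choose W h1 x h2 h3 using hc
  let U : Ultrafilter (Finset I) := Ultrafilter.of atTop
  have h4 := h U W fun i =>
    ((eventually_ge_atTop {i}).filter_mono (Ultrafilter.of_le _)).mono fun T hT =>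
      h1 T i (hT (Finset.mem_singleton_self _))
  have h5 : ∀ s ∈ S, ∀ᶠ T in U, s ∈ O ↔ s ∈ W T := fun s hs => by
    by_cases h : s ∈ O
    · exact ((h4 s hs).1 h).mono fun T hT => iff_of_true h hT
    · exact (Ultrafilter.eventually_not.2 fun h' => h ((h4 s hs).2 h')).mono fun T hT =>
        iff_of_false h hT
  obtain ⟨T, hT⟩ := ((eventually_all_finite hS).2 h5).exists
  exact h3 T (hT _ (h2 T))

theorem mem_ulim_iff {I : Type} {U : Ultrafilter I} {W : I → ValuationSubring K} {x : K}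
    (h : ∀ᶠ i in U, x ∈ O ↔ x ∈ W i) : x ∈ O ↔ x ∈ ulim U W :=
  ⟨fun h' => h.mono fun _ hT => hT.1 h', fun h' => let ⟨_, h6, h7⟩ := (h.and h').exists; h6.2 h7⟩

theorem val_lt_iff (W : ValuationSubring K) {a b : K} :
    W.valuation a < W.valuation b ↔ b ≠ 0 ∧ (a = 0 ∨ b / a ∉ W) := by
  rw [← not_le, val_le_iff]
  by_cases ha : a = 0 <;> by_cases hb : b = 0 <;> simp [ha, hb]

theorem ulim_lt {I : Type} {U : Ultrafilter I} {W : I → ValuationSubring K} {a b : K}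
    (h : ∀ᶠ i in U, (W i).valuation a < (W i).valuation b) :
    (ulim U W).valuation a < (ulim U W).valuation b := by
  simp only [val_lt_iff] at h ⊢
  refine ⟨h.exists.choose_spec.1, or_iff_not_imp_left.2 fun h0 h1 => ?_⟩
  obtain ⟨i, h2, h3⟩ := (h.and h1).exists
  exact h2.2.elim h0 fun h4 => h4 h3

theorem exists_lead (h : ∀ n : ℕ, n ≠ 0 → ∀ c ∈ F, O.valuation σ ^ n ≠ O.valuation c)
    (hW : ∀ c ∈ F, ∀ s : ℤ, c * σ ^ s ∈ O ↔ c * σ ^ s ∈ W) {x : K}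
    (hx : x ∈ Subring.closure ((F : Set K) ∪ {σ})) (h0 : x ≠ 0) :
    ∃ c ∈ F, ∃ n : ℕ, c ≠ 0 ∧ O.valuation x = O.valuation (c * σ ^ n) ∧
      W.valuation x = W.valuation (c * σ ^ n) := by
  have hσ : σ ≠ 0 := fun e => h 1 one_ne_zero 0 (zero_mem F) (by simp [e])
  obtain ⟨p, rfl⟩ : ∃ p : Polynomial F, x = Polynomial.aeval σ p := by
    have : x ∈ Algebra.adjoin F {σ} := 
      (Subring.closure_le (t := (Algebra.adjoin F {σ}).toSubring)).2 (union_subset (fun y hy => Subalgebra.algebraMap_mem _ (⟨y, hy⟩ : F))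
        Algebra.subset_adjoin) hx
    rw [Algebra.adjoin_singleton_eq_range_aeval] at this
    exact this.imp fun _ => Eq.symm
  have hp : p ≠ 0 := fun e => h0 (by simp [e])
  obtain ⟨j, hj, h1⟩ := p.support.exists_max_image
    (fun i => O.valuation (p.coeff i * σ ^ i)) (Polynomial.support_nonempty.2 hp)
  have hj0 : (p.coeff j : K) ≠ 0 := by simpa using Polynomial.mem_support_iff.1 hj
  have h2 : ∀ i ∈ p.support \ {j}, O.valuation (p.coeff i * σ ^ i) <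
      O.valuation (p.coeff j * σ ^ j) := fun i hi => by
    rw [Finset.mem_sdiff, Finset.mem_singleton] at hi
    refine (h1 i hi.1).lt_of_ne fun e => ?_
    have hi0 : (p.coeff i : K) ≠ 0 := by simpa using Polynomial.mem_support_iff.1 hi.1
    have key : ∀ {a b : K} {i j : ℕ}, a ∈ F → b ∈ F → a ≠ 0 → j < i →
        O.valuation (a * σ ^ i) ≠ O.valuation (b * σ ^ j) := fun {a b i j} ha hb h0 hl e => by
      obtain ⟨d, rfl⟩ := Nat.exists_eq_add_of_lt hl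
      refine h (d + 1) d.succ_ne_zero (b / a) (div_mem hb ha) ?_
      rw [map_div₀, eq_div_iff ((map_ne_zero _).2 h0)]
      refine mul_right_cancel₀ (pow_ne_zero j ((map_ne_zero O.valuation).2 hσ)) ?_
      rw [map_mul, map_mul, map_pow, map_pow, add_assoc, pow_add] at e
      rw [← e]
      ac_rfl
    rcases lt_or_gt_of_ne hi.2 with hl | hl
    · exact key (p.coeff j).2 (p.coeff i).2 hj0 hl e.symm
    · exact key (p.coeff i).2 (p.coeff j).2 hi0 hl e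
  have e : Polynomial.aeval σ p = ∑ i ∈ p.support, (p.coeff i : K) * σ ^ i := by
    rw [Polynomial.aeval_def, Polynomial.eval₂_eq_sum]
    rfl
  refine ⟨_, (p.coeff j).2, j, hj0, e ▸ Valuation.map_sum_eq_of_lt _ hj h2,
    e ▸ Valuation.map_sum_eq_of_lt _ hj fun i hi => ?_⟩
  have h3 := h2 i hi
  rw [val_lt_iff] at h3 ⊢
  refine ⟨h3.1, h3.2.imp_right fun h4 h5 => h4 ?_⟩
  have h6 : (p.coeff j : K) * σ ^ j / (p.coeff i * σ ^ i) =
      p.coeff j / p.coeff i * σ ^ ((j : ℤ) - i) := by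
    rw [zpow_sub₀ hσ, zpow_natCast, zpow_natCast, mul_div_mul_comm]
  rw [h6] at h5 ⊢
  exact (hW _ (div_mem (p.coeff j).2 (p.coeff i).2) _).2 h5

/-- If the size of `σ` is independent, the valuation is determined on monomials. -/
theorem agree_of_mono (h : ∀ n : ℕ, n ≠ 0 → ∀ c ∈ F, O.valuation σ ^ n ≠ O.valuation c)
    (hW : ∀ c ∈ F, ∀ s : ℤ, c * σ ^ s ∈ O ↔ c * σ ^ s ∈ W) :
    ∀ x ∈ Subfield.closure ((F : Set K) ∪ {σ}), x ∈ O ↔ x ∈ W := by
  intro x hx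
  have hσ : σ ≠ 0 := fun e => h 1 one_ne_zero 0 (zero_mem F) (by simp [e])
  obtain ⟨a, ha, b, hb, rfl⟩ := Subfield.mem_closure_iff.1 hx
  obtain rfl | ha0 := eq_or_ne a 0
  · simp
  obtain rfl | hb0 := eq_or_ne b 0
  · simp
  obtain ⟨c, hc, n, -, h1, h2⟩ := exists_lead h hW ha ha0
  obtain ⟨d, hd, m, -, h3, h4⟩ := exists_lead h hW hb hb0
  have h5 := hW _ (div_mem hc hd) ((n : ℤ) - m)
  rw [zpow_sub₀ hσ, zpow_natCast, zpow_natCast, ← mul_div_mul_comm] at h5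
  rw [← O.valuation_le_one_iff, ← W.valuation_le_one_iff, map_div₀, map_div₀] at h5 ⊢
  rwa [h1, h2, h3, h4]

theorem mono_mem_iff (hσ : σ ≠ 0) (hF : ∀ c ∈ F, c ∈ O ↔ c ∈ W)
    (h : ∀ c ∈ F, ∀ n : ℕ, n ≠ 0 → (O.valuation σ ^ n < O.valuation c ∧
      W.valuation σ ^ n < W.valuation c) ∨ (O.valuation c < O.valuation σ ^ n ∧
      W.valuation c < W.valuation σ ^ n)) :
    ∀ x ∈ Subfield.closure ((F : Set K) ∪ {σ}), x ∈ O ↔ x ∈ W := by
  refine agree_of_mono (fun n hn c hc => (h c hc n hn).elim (·.1.ne) (·.1.ne')) fun c hc s => ?_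
  have key : ∀ c ∈ F, ∀ n : ℕ, n ≠ 0 →
      (O.valuation (σ ^ n) ≤ O.valuation c ↔ W.valuation (σ ^ n) ≤ W.valuation c) ∧
      (O.valuation c ≤ O.valuation (σ ^ n) ↔ W.valuation c ≤ W.valuation (σ ^ n)) :=
    fun c hc n hn => by
      rw [map_pow, map_pow]
      rcases h c hc n hn with h | h
      · exact ⟨iff_of_true h.1.le h.2.le, iff_of_false h.1.not_ge h.2.not_ge⟩
      · exact ⟨iff_of_false h.1.not_ge h.2.not_ge, iff_of_true h.1.le h.2.le⟩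
  obtain rfl | hc0 := eq_or_ne c 0
  · simp
  obtain ⟨n, rfl | rfl⟩ := s.eq_nat_or_neg
  · obtain rfl | hn := eq_or_ne n 0
    · simpa using hF c hc
    · have := (key _ (inv_mem hc) n hn).1
      rw [val_le_iff, val_le_iff] at this
      simpa [hc0, mul_comm c] using this
  · obtain rfl | hn := eq_or_ne n 0
    · simpa using hF c hc
    · have := (key c hc n hn).2
      rw [val_le_iff, val_le_iff] at this
      simpa [hσ, div_eq_mul_inv] using this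

/-- Signs for an element that is smaller than all elements of `F`. -/
theorem sign_small (hσ : σ ≠ 0) (h : ∀ c ∈ F, c ≠ 0 → O.valuation σ < O.valuation c)
    {S : Set K} (hS : S.Finite) (hS' : S ⊆ Subfield.closure ((F : Set K) ∪ {σ})) :
    ∃ C : Set K, C.Finite ∧ (∀ c ∈ C, c ∈ F ∧ c ≠ 0) ∧ ∀ W : ValuationSubring K,
      (∀ c ∈ F, c ∈ O ↔ c ∈ W) → (∀ c ∈ C, W.valuation σ < W.valuation c) →
        ∀ x ∈ S, x ∈ O ↔ x ∈ W := by
  have key : ∀ V : ValuationSubring K, (∀ c ∈ F, c ≠ 0 → V.valuation σ < V.valuation c) →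
      ∀ c ∈ F, c ≠ 0 → ∀ n : ℕ, n ≠ 0 → V.valuation σ ^ n < V.valuation c :=
    fun V hV c hc h0 n hn => (pow_le_of_le_one zero_le
      (by simpa using (hV 1 (one_mem F) one_ne_zero).le) hn).trans_lt (hV c hc h0)
  obtain ⟨T, hT⟩ := exists_fin_sign (O := O) (fun (c : {c // c ∈ F ∧ c ≠ 0}) W =>
    (c.1 ∈ O ↔ c.1 ∈ W) ∧ W.valuation σ < W.valuation c) hS fun U W hW x hx =>
      mono_mem_iff hσ (fun c hc => by
        obtain rfl | h0 := eq_or_ne c 0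
        · simp
        · exact mem_ulim_iff ((hW ⟨c, hc, h0⟩).mono fun _ h => h.1)) (fun c hc n hn => by
        obtain rfl | h0 := eq_or_ne c 0
        · exact Or.inr ⟨by simpa [zero_lt_iff] using fun e => (hσ e).elim,
            by simpa [zero_lt_iff] using fun e => (hσ e).elim⟩
        · exact Or.inl ⟨key O h c hc h0 n hn, key _ (fun c hc h0 =>
            ulim_lt ((hW ⟨c, hc, h0⟩).mono fun _ h => h.2)) c hc h0 n hn⟩) x (hS' hx)
  refine ⟨Subtype.val '' (T : Set _), T.finite_toSet.image _, ?_, fun W h1 h2 =>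
    hT W fun c hc => ⟨h1 c c.2.1, h2 c ⟨c, hc, rfl⟩⟩⟩
  rintro _ ⟨c, -, rfl⟩
  exact c.2

/-- Signs for an element that lies between the maximal ideal of `F` and the units. -/
theorem sign_near {τ : K} (hτ' : τ ∈ F) (hτ1 : O.valuation τ < 1)
    (ha : ∀ c ∈ F, O.valuation c < 1 → ∃ q : ℕ, O.valuation c ^ q ≤ O.valuation τ)
    (h1 : O.valuation σ < 1)
    (h : ∀ c ∈ F, O.valuation c < 1 → ∀ n : ℕ, O.valuation c < O.valuation σ ^ n)
    {S : Set K} (hS : S.Finite) (hS' : S ⊆ Subfield.closure ((F : Set K) ∪ {σ})) :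
    ∃ q₁ : ℕ, ∀ q, q₁ ≤ q → ∀ W : ValuationSubring K, (∀ c ∈ F, c ∈ O ↔ c ∈ W) →
      W.valuation σ ^ q = W.valuation τ → ∀ x ∈ S, x ∈ O ↔ x ∈ W := by
  have hσ : σ ≠ 0 := fun e => by simpa [e] using h 0 (zero_mem F) (by simp) 1
  have hlt : ∀ {W : ValuationSubring K}, (∀ c ∈ F, c ∈ O ↔ c ∈ W) → ∀ a ∈ F, ∀ b ∈ F,
      (O.valuation a ≤ O.valuation b ↔ W.valuation a ≤ W.valuation b) := fun hW a ha b hb => by
    rw [val_le_iff, val_le_iff, hW _ (div_mem ha hb)]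
  obtain ⟨T, hT⟩ := exists_fin_sign (O := O) (fun (c : F × ℕ) W =>
    (c.1.1 ∈ O ↔ c.1.1 ∈ W) ∧ W.valuation σ < W.valuation 1 ∧
      (O.valuation c.1.1 < 1 → W.valuation c.1.1 < W.valuation (σ ^ c.2))) hS
    fun U W hW x hx => by
      have h2 : ∀ c ∈ F, c ∈ O ↔ c ∈ ulim U W := fun c hc =>
        mem_ulim_iff ((hW (⟨c, hc⟩, 0)).mono fun _ h => h.1)
      refine mono_mem_iff hσ h2 (fun c hc n hn => ?_) x (hS' hx)
      rcases lt_or_ge (O.valuation c) 1 with h3 | h3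
      · exact Or.inr ⟨h c hc h3 n, map_pow (ulim U W).valuation σ n ▸
          ulim_lt ((hW (⟨c, hc⟩, n)).mono fun _ h => h.2.2 h3)⟩
      · refine Or.inl ⟨(pow_lt_one₀ zero_le h1 hn).trans_le h3, (pow_lt_one₀ zero_le
          (by simpa using ulim_lt ((hW (0, 0)).mono fun _ h => h.2.1)) hn).trans_le ?_⟩
        simpa using (hlt h2 1 (one_mem F) c hc).1 (by simpa using h3)
  choose! e he using ha
  refine ⟨T.sup (fun c => c.2 * e c.1.1) + 1, fun q hq W h2 h3 => hT W fun c hc => ?_⟩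
  have h4 : W.valuation σ < 1 := by
    refine lt_of_pow_lt_pow_left₀ q zero_le ?_
    rw [h3, one_pow, ← not_le, ← W.valuation.map_one, ← hlt h2 1 (one_mem F) τ hτ']
    simpa using hτ1
  refine ⟨h2 _ c.1.2, by simpa using h4, fun h5 => lt_of_pow_lt_pow_left₀ (e c.1.1) zero_le ?_⟩
  have h6 := he _ c.1.2 h5
  rw [← map_pow, hlt h2 _ (pow_mem c.1.2 _) τ hτ', map_pow, ← h3] at h6
  rw [map_pow, ← pow_mul]
  exact h6.trans_lt (pow_lt_pow_right_of_lt_one₀ ((Valuation.pos_iff _).2 hσ) h4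
    (Nat.lt_of_succ_le ((Nat.succ_le_succ
      (Finset.le_sup (f := fun c : F × ℕ => c.2 * e c.1.1) hc)).trans hq)))

end sign

namespace Plc

open MvPolynomial

variable {K K' R R' ι : Type} [Field K] [Field K'] [Field R] [Field R'] {P : Plc K R}
  {F k : Subfield K} {Y : ι → K} {S : Set K} {x τ : K}

theorem gau_of_gauss (h : P.Gauss F Y) : Gau P.O F Y := by
  refine ⟨fun i => P.mem_iff.2 (h.1 i), fun p hp m => ?_⟩
  by_cases hm : m ∈ p.support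
  swap
  · simp [notMem_support_iff.1 hm]
  obtain ⟨j, -, hj, h1⟩ := exists_max_val P.O p.support (fun m => p.coeff m)
    ⟨m, hm, mem_support_iff.1 hm⟩
  have h2 : ∀ n, P.v ((C (p.coeff j)⁻¹ * p).coeff n) ≤ 1 := fun n => by
    rw [coeff_C_mul, ← div_eq_inv_mul]
    by_cases hn : n ∈ p.support
    · exact P.mem_iff.1 (h1 n hn)
    · simp [notMem_support_iff.1 hn]
  have h3 : P.r (eval Y (C (p.coeff j)⁻¹ * p)) ≠ 0 := fun e => by
    rw [(v_eval_le h2 h.1).2] at e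
    have := congrArg (coeff j) (ind_iff.1 h.2 _ (fun n => subset_acl _ (by
      rw [coeff_rp, coeff_C_mul]
      exact r_mem_res (mul_mem (inv_mem (hp j)) (hp n)))) e)
    simp [hj] at this
  rw [r_ne_zero_iff, map_mul, eval_C, map_mul, map_inv₀, inv_mul_eq_one₀ (P.v_ne hj)] at h3
  exact ((P.v_div_le_one hj).1 (P.mem_iff.1 (h1 m hm))).trans h3.le

theorem gauss_of_gau (h : Gau P.O F Y) : P.Gauss F Y := by
  classical
  refine ⟨fun i => P.mem_iff.1 (h.1 i), ?_⟩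
  rw [Ind, Subfield.closure_eq]
  refine algInd_iff.2 fun q hq e => ?_
  choose c hc using fun m => mem_res.1 (hq m)
  let p : MvPolynomial ι K := ∑ m ∈ q.support, monomial m (c m)
  have h1 : ∀ m, p.coeff m = if m ∈ q.support then c m else 0 := fun m => by
    simp [p, coeff_sum, coeff_monomial]
  have h2 : ∀ m, p.coeff m ∈ F ∧ P.v (p.coeff m) ≤ 1 ∧ P.r (p.coeff m) = q.coeff m := fun m => by
    rw [h1]
    split_ifs with hm
    · exact hc m
    · simp [notMem_support_iff.1 hm]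
  have h3 := v_eval_le (fun m => (h2 m).2.1) fun i => P.mem_iff.1 (h.1 i)
  rw [show P.rp p = q from MvPolynomial.ext _ _ fun m => (h2 m).2.2, e,
    r_eq_zero_iff h3.1] at h3
  exact MvPolynomial.ext _ _ fun m => (h2 m).2.2.symm.trans
    (r_of_lt ((h.2 p (fun m => (h2 m).1) m).trans_lt h3.2))

variable [IsAlgClosed K] [CharZero K]

/-- TLD, for an embedding of a subfield. -/
theorem tld (h : P.Gauss F Y) (hS : S.Finite) (hS' : S ⊆ acl ((F : Set K) ∪ range Y)) :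
    ∃ S₀ : Set K, S₀.Finite ∧ S₀ ⊆ F ∧ ∀ (K' R' : Type) [Field K'] [IsAlgClosed K'] [Field R']
      (Q : Plc K' R') (j₀ : F →+* K') (Y' : ι → K'), Q.Gauss j₀.fieldRange Y' →
      (∀ x : F, x.1 ∈ S₀ → (P.v x ≤ 1 ↔ Q.v (j₀ x) ≤ 1)) →
      ∃ j : acl ((F : Set K) ∪ range Y) →+* K',
        (∀ x : F, j ⟨x, subset_acl _ (Or.inl x.2)⟩ = j₀ x) ∧
        (∀ i, j ⟨Y i, subset_acl _ (Or.inr ⟨i, rfl⟩)⟩ = Y' i) ∧
        ∀ s : acl ((F : Set K) ∪ range Y), s.1 ∈ S →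
          (P.v s ≤ 1 ↔ Q.v (j s) ≤ 1) ∧ (P.v s < 1 ↔ Q.v (j s) < 1) := by
  obtain ⟨S₀, h1, h2, h3⟩ := E.tld (gau_of_gauss h) hS hS'
  refine ⟨S₀, h1, h2, fun K' R' _ _ _ Q j₀ Y' h4 h5 => ?_⟩
  obtain ⟨j, h6, h7, h8⟩ := h3 K' Q.O j₀ Y' (gau_of_gauss h4) fun x hx => by
    rw [P.mem_iff, Q.mem_iff, h5 x hx]
  exact ⟨j, h6, h7, fun s hs => ⟨by rw [← P.mem_iff, ← Q.mem_iff, (h8 s hs).1], (h8 s hs).2⟩⟩

/-- TLD, for an embedding of the whole field. -/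
theorem tld_hom (h : P.Gauss F Y) (hS : S.Finite) (hS' : S ⊆ acl ((F : Set K) ∪ range Y)) :
    ∃ S₀ : Set K, S₀.Finite ∧ S₀ ⊆ F ∧ ∀ (K' R' : Type) [Field K'] [Field R']
      (Q : Plc K' R') (φ : K →+* K'), Q.Gauss (F.map φ) (φ ∘ Y) →
      (∀ x ∈ S₀, P.v x ≤ 1 ↔ Q.v (φ x) ≤ 1) →
      ∃ σ : K ≃+* K, (∀ x ∈ F, σ x = x) ∧ (∀ i, σ (Y i) = Y i) ∧
        ∀ s ∈ S, (P.v s ≤ 1 ↔ Q.v (φ (σ s)) ≤ 1) ∧ (P.v s < 1 ↔ Q.v (φ (σ s)) < 1) := by
  obtain ⟨S₀, h1, h2, h3⟩ := tld_int (gau_of_gauss h) hS hS'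
  refine ⟨S₀, h1, h2, fun K' R' _ _ Q φ h4 h5 => ?_⟩
  obtain ⟨σ, h6, h7, h8⟩ := h3 (Q.O.comap φ) ((gau_of_gauss h4).comap φ) fun x hx =>
    P.mem_iff.trans ((h5 x hx).trans Q.mem_iff.symm)
  exact ⟨σ, h6, h7, fun s hs => ⟨P.mem_iff.symm.trans ((h8 s hs).1.trans Q.mem_iff),
    (h8 s hs).2.trans (mem_nonunits_comap φ)⟩⟩

/-- TLD, changing only the place. -/
theorem tld_plc (h : P.Gauss F Y) (hS : S.Finite) (hS' : S ⊆ acl ((F : Set K) ∪ range Y)) :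
    ∃ S₀ : Set K, S₀.Finite ∧ S₀ ⊆ F ∧ ∀ (R' : Type) [Field R'] (Q : Plc K R'), Q.Gauss F Y →
      (∀ x ∈ S₀, P.v x ≤ 1 ↔ Q.v x ≤ 1) →
      ∃ Q' : Plc K R', Q.Agree Q' (Subfield.closure ((F : Set K) ∪ range Y)) ∧ Q'.Gauss F Y ∧
        ∀ s ∈ S, (P.v s ≤ 1 ↔ Q'.v s ≤ 1) ∧ (P.v s < 1 ↔ Q'.v s < 1) := by
  obtain ⟨S₀, h1, h2, h3⟩ := tld_int (gau_of_gauss h) hS hS'
  refine ⟨S₀, h1, h2, fun R' _ Q h4 h5 => ?_⟩
  obtain ⟨σ, h6, h7, h8⟩ := h3 Q.O (gau_of_gauss h4) fun x hx =>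
    P.mem_iff.trans ((h5 x hx).trans Q.mem_iff.symm)
  have h9 : Q.Agree (Q.comap (σ : K →+* K)) (Subfield.closure ((F : Set K) ∪ range Y)) := by
    intro x hx
    have : (σ : K →+* K) x = x := RingHom.eqOn_field_closure (g := RingHom.id K) (by
      rintro y (hy | ⟨i, rfl⟩)
      exacts [h6 y hy, h7 i]) hx
    rw [comap_le_one, comap_r, this]
    exact ⟨Iff.rfl, rfl⟩
  refine ⟨_, h9, h9.gauss (fun x hx => Subfield.subset_closure (Or.inl hx))
    (fun i => Subfield.subset_closure (Or.inr ⟨i, rfl⟩)) h4, fun s hs => ?_⟩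
  rw [comap_le_one, comap_lt_one]
  exact ⟨P.mem_iff.symm.trans ((h8 s hs).1.trans Q.mem_iff), (h8 s hs).2⟩

/-- TLD, for a new place on the base and prescribed residues of the variables. -/
theorem tld_new [Countable ι] (hF : (F : Set K).Countable) (h : P.Gauss F Y) (hS : S.Finite)
    (hS' : S ⊆ acl ((F : Set K) ∪ range Y)) :
    ∃ S₀ : Set K, S₀.Finite ∧ S₀ ⊆ F ∧ ∀ (R' : Type) [Field R'] [IsAlgClosed R'] [Uncountable R'],
      #K ≤ #R' → ∀ (Q : Plc K R') (W : ι → R'), Ind (Q.res F : Set R') W →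
      (∀ x ∈ S₀, P.v x ≤ 1 ↔ Q.v x ≤ 1) →
      ∃ Q' : Plc K R', Q.Agree Q' F ∧ Q'.r ∘ Y = W ∧ Q'.Gauss F Y ∧
        ∀ s ∈ S, (P.v s ≤ 1 ↔ Q'.v s ≤ 1) ∧ (P.v s < 1 ↔ Q'.v s < 1) := by
  obtain ⟨S₀, h1, h2, h3⟩ := tld_plc h hS hS'
  refine ⟨S₀, h1, h2, fun R' _ _ _ hc Q W hW h4 => ?_⟩
  obtain ⟨Q₁, h5, h6⟩ := exists_gauss hc Q hF (Y := Y) (by
    rw [Ind, Subfield.closure_eq]
    exact (gau_of_gauss h).indep) W
  have h7 : Q₁.r ∘ Y = W := funext fun i => (h6 i).2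
  obtain ⟨Q', h8, h9, h10⟩ := h3 R' Q₁ ⟨fun i => (h6 i).1, by rwa [h7, ← h5.res le_rfl]⟩
    fun x hx => (h4 x hx).trans (h5 x (h2 hx)).1
  exact ⟨Q', h5.trans (h8.mono fun x hx => Subfield.subset_closure (Or.inl hx)),
    funext fun i => (h8 _ (Subfield.subset_closure (Or.inr ⟨i, rfl⟩))).2.symm.trans (h6 i).2,
    h9, h10⟩

variable [IsAlgClosed R] [Uncountable R] (hc : #K ≤ #R)
include hc

/-- DVRC: a divisorial place that agrees with `P` on a finite set and on the ring generated by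
its integral elements. -/
theorem dvrc (hk : (k : Set K).Countable) (hP : P.Triv k) (hS : S.Finite) (h0 : τ ≠ 0)
    (h1 : P.v τ < 1) : ∃ (Q : Plc K R) (n : ℕ) (x : Fin n → K), Q.Gauss k x ∧
      Q.Triv (acl ((k : Set K) ∪ range x)) ∧ Q.v τ < 1 ∧
      acl ((k : Set K) ∪ range x ∪ {τ}) = acl ((k : Set K) ∪ S ∪ {τ}) ∧ P.Agree Q (k ∪ S) ∧
      Q.Lifts P.r (Subring.closure ((k : Set K) ∪ {y ∈ S ∪ S⁻¹ ∪ {τ} | P.v y ≤ 1})) := by
  have hs : {y ∈ S ∪ S⁻¹ ∪ {τ} | P.v y ≤ 1}.Finite :=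
    ((hS.union hS.inv).union (finite_singleton τ)).subset fun _ h => h.1
  have hτ : τ ∈ {y ∈ S ∪ S⁻¹ ∪ {τ} | P.v y ≤ 1} := ⟨Or.inr rfl, h1.le⟩
  have h2 : ∀ y ∈ S, y ∈ {y ∈ S ∪ S⁻¹ ∪ {τ} | P.v y ≤ 1} ∨
      (1 < P.v y ∧ y⁻¹ ∈ {y ∈ S ∪ S⁻¹ ∪ {τ} | P.v y ≤ 1}) := fun y hy =>
    (le_or_gt (P.v y) 1).imp (fun h => ⟨Or.inl (Or.inl hy), h⟩) fun h =>
      ⟨h, Or.inl (Or.inr (by simpa using hy)),
        ((P.v_inv_lt_one fun e => by simp [e] at h).2 h).le⟩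
  have h3 : {y ∈ S ∪ S⁻¹ ∪ {τ} | P.v y ≤ 1} ⊆ acl ((k : Set K) ∪ S ∪ {τ}) := by
    rintro y ⟨(hy | hy) | hy, -⟩
    · exact subset_acl _ (Or.inl (Or.inr hy))
    · exact inv_inv y ▸ inv_mem (mem_acl_of_mem (Or.inl (Or.inr hy)))
    · exact subset_acl _ (Or.inr hy)
  have h4 : ∀ y ∈ {y ∈ S ∪ S⁻¹ ∪ {τ} | P.v y ≤ 1}, y ∈ P.O := fun y hy => P.mem_iff.2 hy.2
  generalize {y ∈ S ∪ S⁻¹ ∪ {τ} | P.v y ≤ 1} = s at hs hτ h2 h3 h4
  obtain ⟨W, n, x, h5, h6, h7, h8, h9⟩ := dvrc_val (fun y hy => P.mem_iff.2 (hP y hy)) hs h4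
    (Subring.subset_closure (Or.inr hτ)) h0 h1
  have hle : Subring.closure ((k : Set K) ∪ s) ≤ P.O.toSubring :=
    Subring.closure_le.2 (union_subset (fun y hy => P.mem_iff.2 (hP y hy)) h4)
  have : Countable (Subring.closure ((k : Set K) ∪ s)) :=
    ((countable_closure (hk.union hs.countable)).mono (Subfield.subring_closure_le _)).to_subtype
  obtain ⟨Q, rfl, hQ⟩ := exists_of_O hc W (Subring.subtype _) (P.ρ.comp (Subring.inclusion hle))
    (fun a => (h9 a a.2).1) fun a => ((h9 a a.2).2.symm.trans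
      (r_eq_zero_iff (P.mem_iff.1 (hle a.2))).symm).trans (by rw [r_eq (P.mem_iff.1 (hle a.2))]; rfl)
  have h10 : Q.Lifts P.r (Subring.closure ((k : Set K) ∪ s)) := fun y hy =>
    ⟨Q.mem_iff.1 (h9 y hy).1, (hQ ⟨y, hy⟩).trans (r_eq (P.mem_iff.1 (hle hy))).symm⟩
  refine ⟨Q, n, x, gauss_of_gau (gau_of_indep h6 fun y hy => h7 y (closure_le_acl _ hy)),
    fun y hy => Q.mem_iff.1 (h7 y hy), (h9 τ (Subring.subset_closure (Or.inr hτ))).2.1 h1,
    acl_congr ?_ ?_, fun y hy => ?_, h10⟩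
  · have h11 : (k : Set K) ⊆ acl ((k : Set K) ∪ S ∪ {τ}) := fun y hy =>
      subset_acl _ (Or.inl (Or.inl hy))
    exact union_subset (union_subset h11 (range_subset_iff.2 fun i =>
      acl_le (union_subset h11 h3) (h5 i))) (subset_union_right.trans (subset_acl _))
  · refine union_subset (union_subset (fun y hy => subset_acl _ (Or.inl (Or.inl hy))) fun y hy => ?_)
      (subset_union_right.trans (subset_acl _))
    exact (h2 y hy).elim (@h8 y) fun h => inv_inv y ▸ inv_mem (SetLike.mem_coe.1 (h8 h.2))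
  · rcases hy.elim (fun h => Or.inl (Or.inl h)) fun h => (h2 y h).imp_left Or.inr with h | h
    · have h11 : y ∈ Subring.closure ((k : Set K) ∪ s) := Subring.subset_closure h
      exact ⟨iff_of_true (P.mem_iff.1 (hle h11)) (h10 y h11).1, (h10 y h11).2.symm⟩
    · have h11 : y ≠ 0 := fun e => by simp [e] at h
      have h12 := (Q.v_inv_lt_one h11).1 ((h9 _ (Subring.subset_closure (Or.inr h.2))).2.1
        ((P.v_inv_lt_one h11).2 h.1))
      exact ⟨iff_of_false h.1.not_ge h12.not_ge, by rw [r_of_gt h.1, r_of_gt h12]⟩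

end Plc

end Pool.Agent.P.MP_f17f76_ag.E
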