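import Pool.Agent.P.MP_f17f76_ag.E.HgcBas
import Pool.Agent.P.MP_f17f76_ag.E.PlcD
import Pool.Agent.P.MP_f17f76_ag.E.Tld
import Pool.Agent.P.MP_f17f76_ag.E.Gain2

namespace Pool.Agent.P.MP_f17f76_ag.Hgc

open Set Module Matrix E AbVar

variable {g N : ℕ} {ι κ : Type} {A : AbVar g N}

namespace ExpF

theorem mul_le_iff (P : Plc ℂ ℂ) {t y : ℂ} (ht : t ≠ 0) :
    P.v (t * y) ≤ 1 ↔ P.v y ≤ P.v t⁻¹ := by
  rw [← P.v_div_le_one (inv_ne_zero ht), div_inv_eq_mul, mul_comm]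

theorem one_le {P Q : Plc ℂ ℂ} {F : Subfield ℂ} (h : P.Agree Q F) {y : ℂ} (hy : y ∈ F)
    (e : 1 ≤ P.v y) : 1 ≤ Q.v y := by
  have := (h.le (one_mem F) hy).1 (by rwa [map_one])
  rwa [map_one] at this

theorem rad (Q : Plc ℂ ℂ) {σ τ p : ℂ} {q q' m : ℕ} {a : ℤ} (hτ : τ ≠ 0) (hq : 0 < q)
    (hv : Q.v σ ^ q = Q.v τ) (h : 1 ≤ Q.v (τ ^ (a * q - m * q') * p ^ (q * q'))) :
    1 ≤ Q.v (τ ^ a * (p / σ ^ m) ^ q') := by
  refine (one_le_pow_iff hq.ne').1 (h.trans_eq ?_)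
  have h1 : Q.v σ ^ (m * q' * q) = Q.v τ ^ (m * q') := by rw [mul_comm, pow_mul, hv]
  rw [zpow_sub₀ hτ, ← Nat.cast_mul, zpow_natCast, _root_.zpow_mul, zpow_natCast]
  simp only [map_mul, map_div₀, map_pow, mul_pow, div_pow, ← pow_mul, h1]
  rw [mul_comm q q', div_mul_eq_mul_div, mul_div_assoc]

end ExpF

variable [Fintype ι] [DecidableEq ι]

/-- The new frame. -/
theorem exp_fr {x x' : Cx ι κ g} {B₀ : ℕ} {w w' : Fr ι} {c z : ι → ℂ} {s : ι → ℝ}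
    {H : Matrix ι ι ℂ} {σ : ℂ} {m : ι → ℕ} {q : ℕ} (h : IsFr x B₀ w c) (hn : w.Nrm)
    (hs : w.Rad x.τ s) (hf : Cf x.k' x.f) (hτ : x.τ ∈ x.k') (hkt : x.kt ≤ x.k')
    (e1 : x'.k = x.k) (e2 : x'.k' = x.k') (e3 : x'.kt = x.kt) (e4 : x'.τ = x.τ) (e5 : x'.r = x.r)
    (e6 : x'.f = x.f) (c₁ : Cac w'.k₁) (cK : Cac w'.K₁) (cp : Cac w'.Kp) (l1 : w.k₁ ≤ w'.k₁)
    (l2 : w'.k₁ ≤ w'.K₁) (l3 : w.K₁ ≤ w'.K₁) (l4 : w'.K₁ ≤ w'.Kp) (l5 : w.Kp ≤ w'.Kp)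
    (hσ : σ ∈ w'.K₁) (h0 : σ ≠ 0) (hq : 0 < q) (hv : w'.P.v σ ^ q = w'.P.v x.τ)
    (hag : w.P.Agree w'.P w.Kp) (hid : w'.P.IdOn w'.k₁)
    (har : ∀ y ∈ w'.Kp, w'.P.v y < 1 → ∃ n : ℕ, w'.P.v y ^ n ≤ w'.P.v x.τ)
    (hH : GrM w'.k₁ (x.r ⊓ Setoid.ker fun j => w.P.v (w.p j)) H) (hG : w'.G = w.G * H)
    (hp : w'.p = fun j => w.p j / σ ^ m j) (hz : ∀ j, z j ∈ w'.Kp)
    (hu : ∀ j, w'.P.v ((w'.M⁻¹ *ᵥ (z - c)) j) ≤ 1) :
    IsFr x' B₀ w' z ∧ w'.Rad x.τ fun j => s j + m j / q := by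
  have kp : x.k' ≤ w.Kp := h.le'.trans h.lep
  have hτ0 : x.τ ≠ 0 := fun e => pow_ne_zero q (w'.P.v_ne h0) (by rw [hv, e, map_zero])
  have hlt : w'.P.v x.τ < 1 := (hag.lt_one (kp hτ)).1 h.lt
  have hσ1 : w'.P.v σ ≤ 1 := ((pow_lt_one_iff hq.ne').1 (hv.trans_lt hlt)).le
  have p0 : ∀ j, w'.p j ≠ 0 := fun j => by
    rw [hp]; exact div_ne_zero (h.p0 j) (pow_ne_zero _ h0)
  have pm : ∀ j, w'.p j ∈ w'.K₁ := fun j => by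
    rw [hp]; exact div_mem (l3 (h.pm j)) (pow_mem hσ _)
  have ple : ∀ j, w'.P.v (w.p j) ≤ w'.P.v (w'.p j) := fun j => by
    rw [← w'.P.v_div_le_one (p0 j), hp]
    simp only [div_div_cancel₀ (h.p0 j)]
    exact Plc.v_pow_le hσ1 _
  have gr : GrM w'.k₁ x.r w'.G := by
    rw [hG]; exact (h.gr.mono l1 le_rfl).mul (hH.mono le_rfl inf_le_left)
  have det : w'.M.det ≠ 0 := det_mul_diag gr.det p0
  have inv : ∀ y j, (w'.M⁻¹ *ᵥ y) j = (w'.G⁻¹ *ᵥ y) j / w'.p j := inv_mul_diag _ p0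
  have ginv : ∀ y, w'.G⁻¹ *ᵥ y = H⁻¹ *ᵥ w.G⁻¹ *ᵥ y := fun y => by
    rw [hG, Matrix.mul_inv_rev, mulVec_mulVec]
  have hsum : ∀ (y : ι → ℂ) j γ, (∀ i, w.p j = w.p i → w'.P.v (y i) ≤ γ) →
      w'.P.v ((H⁻¹ *ᵥ y) j) ≤ γ := fun y j γ k => w'.P.v.map_sum_le fun i _ => by
    show w'.P.v (H⁻¹ j i * y i) ≤ γ
    by_cases e : H⁻¹ j i = 0
    · rw [e, zero_mul, map_zero]; exact zero_le
    · exact (map_mul _ _ _).trans_le ((mul_le_of_le_one_left' (hid _ (hH.inv.mem j i)).1).trans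
        (k i (hn j i (hH.inv.gr j i e).2)))
  have Mm : ∀ i j, w'.M⁻¹ i j ∈ w'.Kp := inv_mem_sub fun i j => by
    rw [Fr.M, mul_diagonal]
    exact l4 (mul_mem (l2 (gr.mem i j)) (pm j))
  obtain ⟨u, u1, u2⟩ := h.pol
  have ym : ∀ j, (c + w.M *ᵥ u) j ∈ w.Kp := fun j =>
    add_mem (h.cm j) (mulVec_mem (fun i j => h.lep (h.M_mem i j)) (fun i => (u1 i).1) j)
  refine ⟨⟨c₁, cK, cp, e1 ▸ h.le.trans l1, l2, e2 ▸ h.le'.trans l3, l4, ?_, e4 ▸ hlt, e4 ▸ har,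
    e5 ▸ gr, p0, pm, hz, fun j => ?_, w'.M⁻¹ *ᵥ (c + w.M *ᵥ u - z), fun j => ⟨?_, ?_⟩, ?_⟩,
    fun j a q' hq' e => ?_⟩
  · rw [e3]
    exact hid.union ((hag.mono (hkt.trans kp)).lifts (h.id.mono subset_union_right))
  · have ht : x.τ ^ B₀ ≠ 0 := pow_ne_zero _ hτ0
    rw [e4, ExpF.mul_le_iff _ ht, ← le_max_iff, ← add_sub_cancel c z, mulVec_add, Pi.add_apply]
    refine w'.P.v.map_add_le ?_ (le_max_of_le_left ?_)
    · rw [ginv]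
      refine hsum _ j _ fun i k => le_max_iff.2 ?_
      have cm : (w.G⁻¹ *ᵥ c) i ∈ w.Kp :=
        mulVec_mem (fun i j => h.lep (h.le₁ (h.gr.inv.mem i j))) h.cm i
      refine (h.bd i).imp (fun b => ?_) fun b => ?_
      · exact ((hag.le cm (h.lep (h.pm i))).1 b).trans (k ▸ ple j)
      · exact (ExpF.mul_le_iff _ ht).1 ((hag _ (mul_mem (pow_mem (kp hτ) _) cm)).1.1 b)
    · rw [← w'.P.v_div_le_one (p0 j), ← inv]
      exact hu j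
  · exact mulVec_mem Mm (fun i => sub_mem (l5 (ym i)) (hz i)) j
  · rw [show c + w.M *ᵥ u - z = w.M *ᵥ u - (z - c) by abel, mulVec_sub, Pi.sub_apply]
    refine w'.P.v.map_sub_le ?_ (hu j)
    rw [inv, w'.P.v_div_le_one (p0 j), ginv, Fr.M, ← mulVec_mulVec, inv_mulVec_cancel h.gr.det]
    refine hsum _ j _ fun i k => ?_
    rw [mulVec_diagonal, map_mul, ← k]
    exact (mul_le_of_le_one_right' ((hag _ (u1 i).1).1.1 (u1 i).2)).trans (ple j)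
  · rw [mulVec_inv_cancel det, add_sub_cancel, e6]
    exact ExpF.one_le hag (hf.eval_mem' kp ym) u2
  · have h1 := hs j (a * q - m j * q') (q * q') (mul_pos hq hq') (by
      have hq0 : (0 : ℝ) < q := Nat.cast_pos.2 hq
      have := mul_lt_mul_of_pos_right e hq0
      have e' : (s j + m j / q) * q' * q = s j * (q * q') + m j * q' := by field_simp
      rw [e'] at this
      push_cast
      linarith)
    rw [hp]
    exact ExpF.rad _ hτ0 hq hv (ExpF.one_le hag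
      (mul_mem (zpow_mem (kp hτ) _) (pow_mem (h.lep (h.pm j)) _)) h1)

end Pool.Agent.P.MP_f17f76_ag.Hgc
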