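import Pool.Agent.P.MP_f17f76_ag.E.HgcBas
import Pool.Agent.P.MP_f17f76_ag.E.PlcD
import Pool.Agent.P.MP_f17f76_ag.E.Tld
import Pool.Agent.P.MP_f17f76_ag.E.Gain2

/-!
The expansion step: the linear algebra at one place.
-/

namespace Pool.Agent.P.MP_f17f76_ag.Hgc

open Set Module Matrix E AbVar

variable {g N : ℕ} {ι κ : Type} {A : AbVar g N}

/-- A matrix that is the identity up to small entries is integral with unit determinant. -/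
theorem ExpG.near {Q : Plc ℂ ℂ} [Fintype ι] [DecidableEq ι] {B : Matrix ι ι ℂ}
    (h : ∀ i j, Q.v (B i j - if i = j then 1 else 0) < 1) :
    (∀ i j, Q.v (B i j) ≤ 1) ∧ Q.v B.det = 1 := by
  have h0 : ∀ i j : ι, Q.v (if i = j then 1 else 0) ≤ 1 ∧
      Q.r (if i = j then 1 else 0) = if i = j then 1 else 0 := fun i j => by split_ifs <;> simp
  have h1 : ∀ i j, Q.v (B i j) ≤ 1 := fun i j => by
    simpa using Q.v.map_add_le (h i j).le (h0 i j).1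
  refine ⟨h1, Plc.r_ne_zero_iff.1 ?_⟩
  rw [(Plc.v_det_le h1).2, show B.map Q.r = 1 from Matrix.ext fun i j =>
    ((Plc.r_eq_iff (h1 i j) (h0 i j).1).2 (h i j)).trans (h0 i j).2, det_one]
  exact one_ne_zero

variable [Fintype ι] [DecidableEq ι] [Fintype κ] [DecidableEq κ]

/-- The linear algebra at one place. -/
theorem exp_alg {Q : Plc ℂ ℂ} {k L : Subfield ℂ} {U : Set ℂ} {μ : Type} [Fintype μ] [DecidableEq μ]
    {z : ι → ℂ} {a : Fin g → ℂ} {θ θ' : κ → Fin g → ℂ} {T : Matrix κ κ ℂ} {M : Matrix ι ι ℂ}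
    {R : Submodule ℂ (ι → ℂ)} {ν : μ → ι → ℂ} {π : ℂ} {Z : κ → Der ℂ} {S : μ → Der ℂ}
    (hA : A.Over k) (hk : k ≤ L) (hU : (k : Set ℂ) ⊆ U) (hz : ∀ j, z j ∈ L)
    (ha : ∀ j, A.crd a j ∈ L) (hθ : ∀ j i, θ j i ∈ L) (hT : ∀ i j, T i j ∈ L ∧ Q.v (T i j) ≤ 1)
    (hT0 : T.det ≠ 0) (hθ' : ∀ i, θ' i = ∑ j, T i j • θ j) (hM : ∀ i j, M i j ∈ L)
    (hM0 : M.det ≠ 0) (hR : Ov L R) (hν : ∀ l, ν l ∈ act M R ∧ ∀ j, Q.v (ν l j) ≤ 1)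
    (hμ : Fintype.card μ = finrank ℂ R) (hπ : Q.v π ≤ 1)
    (hZ : ∀ l, Q.Good U L (Z l) ∧ (∀ j, Q.v (A.pv θ' a (Z l) j - if j = l then 1 else 0) < 1) ∧
      ∀ i, Q.v (π * (M⁻¹ *ᵥ dv z (Z l)) i) ≤ 1)
    (hS : ∀ l, Q.Good U L (S l) ∧ (∀ j, Q.v (A.pv θ' a (S l) j) < Q.v π) ∧
      (∀ i, Q.v ((M⁻¹ *ᵥ dv z (S l)) i) ≤ 1) ∧
      ∀ l', ν l' ⬝ᵥ (M⁻¹ *ᵥ dv z (S l)) = if l' = l then 1 else 0) :
    (∀ j, ∃ D ∈ A.thin U a θ, (∀ y ∈ L, D y ∈ L) ∧ Q.Ctr D L ∧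
      (∀ i, Q.v ((M⁻¹ *ᵥ dv z D) i) ≤ 1) ∧ dv z D - M.col j ∈ ann R) ∧
    ∀ i, ∃ X ∈ kil U, (∀ y ∈ L, X y ∈ L) ∧ Q.Ctr X L ∧ A.pv θ a X = Pi.single i 1 := by
  have hp : ∀ D, A.pv θ' a D = T *ᵥ A.pv θ a D := fun D => funext fun i => by
    simp only [pv_apply, hθ', sum_dotProduct, smul_dotProduct]
    rfl
  have hm : ∀ {D}, Q.Good U L D → ∀ j, A.pv θ' a D j ∈ L := fun {D} h => hp D ▸
    mulVec_mem (fun i j => (hT i j).1)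
      (hA.pv_mem (kil_anti hU h.kil) hk hθ ha fun j => h.mem _ (ha j))
  have hi : ∀ {D c}, A.pv θ' a D = T *ᵥ c → A.pv θ a D = c := fun {D c} h => by
    rw [← inv_mulVec_cancel hT0 (A.pv θ a D), ← hp, h, inv_mulVec_cancel hT0]
  have hl : ∀ (c : κ → ℂ) (Y : κ → Der ℂ) i, (M⁻¹ *ᵥ dv z (∑ l, c l • Y l)) i =
      ∑ l, c l * (M⁻¹ *ᵥ dv z (Y l)) i := fun c Y i => by
    simp only [map_sum, map_smul, mulVec_sum, mulVec_smul, Finset.sum_apply, Pi.smul_apply,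
      smul_eq_mul]
  obtain ⟨h1, h2⟩ := ExpG.near (B := .of fun j l => A.pv θ' a (Z l) j) fun j l => (hZ l).2.1 j
  obtain ⟨C, h3, h4⟩ := Plc.exists_inv (M := .of fun j l => A.pv θ' a (Z l) j)
    (fun j l => ⟨hm (hZ l).1 j, h1 j l⟩) h2
  obtain ⟨X, hX⟩ : ∃ X : κ → Der ℂ, ∀ l, X l = ∑ m, C m l • Z m := ⟨_, fun _ => rfl⟩
  have h5 : ∀ l, Q.Good U L (X l) := fun l => hX l ▸ .sum (fun m => (hZ m).1) fun m => h3 m l
  have h6 : ∀ l, A.pv θ' a (X l) = Pi.single l 1 := fun l => funext fun j => by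
    simpa [hX, Matrix.mul_apply, Matrix.one_apply, Pi.single_apply, mul_comm]
      using congrFun₂ h4 j l
  have h7 : ∀ c : κ → ℂ, A.pv θ' a (∑ l, c l • X l) = c := fun c => by
    simp only [map_sum, map_smul, h6]
    exact (pi_eq_sum_univ' c).symm
  have h8 : ∀ l i, Q.v (π * (M⁻¹ *ᵥ dv z (X l)) i) ≤ 1 := fun l i => by
    rw [hX, hl, Finset.mul_sum]
    exact Q.v.map_sum_le fun m _ => mul_left_comm π _ _ ▸ Plc.v_mul_le (h3 m l).2 ((hZ m).2.2 i)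
  refine ⟨?_, fun j => have := Plc.Good.sum h5 fun l => hT l j
    ⟨_, this.kil, this.mem, this.ctr, hi ((h7 _).trans (mulVec_single_one T j).symm)⟩⟩
  obtain ⟨Y, hY⟩ : ∃ Y : μ → Der ℂ, ∀ m, Y m = ∑ l, A.pv θ' a (S m) l • X l := ⟨_, fun _ => rfl⟩
  have g1 : ∀ m, Q.Good U L (Y m) := fun m =>
    hY m ▸ .sum h5 fun l => ⟨hm (hS m).1 l, ((hS m).2.1 l).le.trans hπ⟩
  have g2 : ∀ m i, Q.v ((M⁻¹ *ᵥ dv z (Y m)) i) < 1 := fun m i => by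
    rw [hY, hl]
    refine Q.v.map_sum_lt one_ne_zero fun l _ => ?_
    have h0 : π ≠ 0 := fun e => by simpa [e] using (hS m).2.1 l
    rw [← div_mul_cancel₀ (A.pv θ' a (S m) l) h0, mul_assoc, mul_comm]
    exact Plc.v_mul_lt (h8 l i) ((Q.v_div_lt_one h0).2 ((hS m).2.1 l))
  have g3 : ∀ m, M⁻¹ *ᵥ dv z (S m - Y m) = M⁻¹ *ᵥ dv z (S m) - M⁻¹ *ᵥ dv z (Y m) := fun m => by
    rw [map_sub, mulVec_sub]
  refine exD_of_rows hM0 hM hR hz (D := fun m => S m - Y m) (fun m =>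
    ⟨⟨sub_mem (hS m).1.kil (g1 m).kil, hi (by rw [map_sub, hY, h7, sub_self, mulVec_zero])⟩,
      fun y hy => sub_mem ((hS m).1.mem y hy) ((g1 m).mem y hy), (hS m).1.ctr.sub (g1 m).ctr,
      fun i => g3 m ▸ Q.v.map_sub_le ((hS m).2.2.1 i) (g2 m i).le⟩) (n := fun l => ν l ᵥ* M⁻¹)
    (fun l => ⟨(mem_act_iff hM0).1 (hν l).1, (inv_vecMul_cancel hM0 _).symm ▸ (hν l).2⟩) hμ
    (ExpG.near fun l m => ?_).2
  rw [of_apply, ← dotProduct_mulVec, g3, dotProduct_sub, (hS m).2.2.2, sub_sub_cancel_left,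
    Valuation.map_neg]
  exact v_dot_lt one_ne_zero (hν l).2 (g2 m)

end Pool.Agent.P.MP_f17f76_ag.Hgc
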