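import Pool.Agent.P.MP_f17f76_ag.E.HgcBas
import Pool.Agent.P.MP_f17f76_ag.E.PlcD
import Pool.Agent.P.MP_f17f76_ag.E.Tld
import Pool.Agent.P.MP_f17f76_ag.E.Gain2

/-!
The reduction of the rescaled rows at a composite place.
-/

namespace Pool.Agent.P.MP_f17f76_ag.Hgc

open Set Module Matrix E AbVar

variable {g N : ℕ} {ι κ : Type} {A : AbVar g N}

variable [Fintype ι] [DecidableEq ι]

namespace ExpR

theorem det_diag {p : ι → ℂ} (hp : ∀ j, p j ≠ 0) : (diagonal p).det ≠ 0 := by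
  rw [det_diagonal]
  exact Finset.prod_ne_zero_iff.2 fun j _ => hp j

theorem red_diag {Q : Plc ℂ ℂ} {k : Subfield ℂ} {W : Submodule ℂ (ι → ℂ)} {p : ι → ℂ}
    (hQ : Q.IdOn k) (hW : Ov k W) (hp : ∀ j, p j ≠ 0)
    (hn : ∀ i j, Q.v (p i) = Q.v (p j) → p i = p j) :
    Q.red (act (diagonal p) W) = ini (fun j => Q.v (p j)) W :=
  (Submodule.eq_of_le_of_finrank_eq (ini_le_res hQ hW hp hn fun _ hx h => Plc.r_mem_red hx h)
    (by rw [Plc.finrank_red, finrank_act (det_diag hp), finrank_ini])).symm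

omit [Fintype ι] [DecidableEq ι] in
theorem red_comp (P Q : Plc ℂ ℂ) (W : Submodule ℂ (ι → ℂ)) :
    (P.comp Q).red W ≤ Q.red (P.red W) := by
  refine Submodule.span_le.2 ?_
  rintro _ ⟨x, hx, h, rfl⟩
  have e : (P.comp Q).r ∘ x = Q.r ∘ (P.r ∘ x) := funext fun i => Plc.comp_r Q (x i)
  rw [e]
  exact Plc.r_mem_red (Plc.r_mem_red hx fun i => ((Plc.comp_le_one Q).1 (h i)).1)
    fun i => ((Plc.comp_le_one Q).1 (h i)).2

theorem red_act {P : Plc ℂ ℂ} {k : Subfield ℂ} {M : Matrix ι ι ℂ} (hP : P.IdOn k)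
    (hM : ∀ i j, M i j ∈ k) (h0 : M.det ≠ 0) (W : Submodule ℂ (ι → ℂ)) :
    P.red (act M W) ≤ act M (P.red W) := by
  refine Submodule.span_le.2 ?_
  rintro _ ⟨x, hx, h, rfl⟩
  have h1 := r_vecMul (P := P) (B := M⁻¹) h fun i j => (hP _ (inv_mem_sub hM i j)).1
  have e : M⁻¹.map P.r = M⁻¹ := Matrix.ext fun i j => (hP _ (inv_mem_sub hM i j)).2
  rw [e] at h1
  refine (mem_act_iff h0).2 ?_
  rw [show (P.r ∘ x) ᵥ* M⁻¹ = P.r ∘ (x ᵥ* M⁻¹) from funext fun j => (h1 j).2.symm]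
  exact Plc.r_mem_red ((mem_act_iff h0).1 hx) fun j => (h1 j).1

end ExpR

open ExpR in
/-- The reduction of the rescaled rows at the composite place. -/
theorem exp_red {P Pb : Plc ℂ ℂ} {k₃ : Subfield ℂ} {R : Submodule ℂ (ι → ℂ)} {G H : Matrix ι ι ℂ}
    {p : ι → ℂ} {σ : ℂ} {m : ι → ℕ} (hP : P.IdOn (k₃ ∪ {σ})) (hb : Pb.IdOn k₃) (hR : Ov k₃ R)
    (hG : ∀ i j, G i j ∈ k₃) (hH : ∀ i j, H i j ∈ k₃) (hH0 : H.det ≠ 0) (hp : ∀ j, p j ≠ 0)
    (hn : ∀ i j, P.v (p i) = P.v (p j) → p i = p j) (h0 : σ ≠ 0) (h1 : Pb.v σ < 1) :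
    (P.comp Pb).red (act (G * diagonal p * (H * diagonal fun j => (σ ^ m j)⁻¹)) R) ≤
      ini m (act H (ini (fun j => P.v (p j)) (act G R))) := by
  have hs : ∀ j, (σ ^ m j)⁻¹ ≠ 0 := fun j => inv_ne_zero (pow_ne_zero _ h0)
  have hv : ∀ i j, Pb.v (σ ^ m i)⁻¹ ≤ Pb.v (σ ^ m j)⁻¹ ↔ m i ≤ m j := fun i j => by
    rw [map_inv₀, map_inv₀, map_pow, map_pow,
      inv_le_inv₀ (pow_pos (Pb.v_pos h0) _) (pow_pos (Pb.v_pos h0) _),
      pow_le_pow_iff_right_of_lt_one₀ (Pb.v_pos h0) h1]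
  have hσ : σ ∈ Subfield.closure (k₃ ∪ {σ}) := Subfield.subset_closure (Or.inr rfl)
  have h2 := red_act hP.closure (M := H * diagonal fun j => (σ ^ m j)⁻¹) (fun i j => by
    rw [mul_diagonal]
    exact mul_mem (Subfield.subset_closure (Or.inl (hH i j))) (inv_mem (pow_mem hσ _)))
    (det_mul_diag hH0 hs) (act (diagonal p) (act G R))
  rw [red_diag (hP.mono subset_union_left) (hR.act hG) hp hn, act_act, act_act,
    ← Matrix.mul_assoc G, ← act_act H] at h2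
  refine (red_comp P Pb _).trans ((Plc.red_mono h2).trans_eq ?_)
  rw [red_diag hb (((hR.act hG).ini _).act hH) hs fun i j e => by
    rw [le_antisymm ((hv i j).1 e.le) ((hv j i).1 e.ge)], ini_congr hv]

end Pool.Agent.P.MP_f17f76_ag.Hgc
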