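import Pool.Agent.P.MP_f17f76_ag.E.HgcBas
import Pool.Agent.P.MP_f17f76_ag.E.PlcD
import Pool.Agent.P.MP_f17f76_ag.E.Tld
import Pool.Agent.P.MP_f17f76_ag.E.Gain2

namespace Pool.Agent.P.MP_f17f76_ag.Hgc

open Set Module Matrix E AbVar

variable {g N : ℕ} {ι κ : Type} {A : AbVar g N}

namespace ExpT

theorem der_root {D : Der ℂ} {t : ℂ} {q : ℕ} (h0 : t ≠ 0) (h : D (t ^ (q + 1)) = 0) : D t = 0 := by
  rw [D.leibniz_pow, smul_eq_mul, nsmul_eq_mul] at h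
  exact (mul_eq_zero.1 ((mul_eq_zero.1 h).resolve_left
    (Nat.cast_ne_zero.2 q.succ_ne_zero))).resolve_left (pow_ne_zero _ h0)

end ExpT

/-- Transfer to a place of rank one. -/
theorem exp_tld {P Pb : Plc ℂ ℂ} {F L : Subfield ℂ} {σ τ : ℂ} {α β : Type} [Finite α] [Finite β]
    {Y : α → ℂ} {S : Set ℂ} {Δ : β → Der ℂ} (hF : Cac F) (h1 : Pb.Triv (P.res F))
    (h2 : P.IdOn {σ}) (h3 : σ ≠ 0) (h4 : Pb.v σ < 1) (h5 : τ ∈ F) (h6 : τ ≠ 0) (h7 : P.v τ < 1)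
    (h8 : ∀ y ∈ F, P.v y < 1 → ∃ q : ℕ, P.v y ^ q ≤ P.v τ)
    (hY : (P.comp Pb).Gauss (Subfield.closure (F ∪ {σ})) Y) (hL : L = acl (F ∪ {σ} ∪ range Y))
    (hS : S.Finite) (hS' : S ⊆ L)
    (hΔ : ∀ b, (P.comp Pb).Good {τ, σ} L (Δ b) ∧ ∀ y ∈ F, Δ b y ∈ F) :
    ∃ q : ℕ, 0 < q ∧ ∃ Q : Plc ℂ ℂ, P.Agree Q F ∧ Q.v σ ^ q = Q.v τ ∧
      (∀ y ∈ L, Q.v y < 1 → ∃ n : ℕ, Q.v y ^ n ≤ Q.v τ) ∧
      (∀ y ∈ S, ((P.comp Pb).v y ≤ 1 → Q.v y ≤ 1) ∧ ((P.comp Pb).v y < 1 → Q.v y < 1)) ∧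
      ∀ b, Q.Ctr (Δ b) L := by
  have : Uncountable ℂ := Complex.ofReal_injective.uncountable
  obtain ⟨hs1, hs2⟩ := h2 σ rfl
  have vσ : P.v σ = 1 := Plc.r_ne_zero_iff.1 (by rw [hs2]; exact h3)
  have tr : (P.comp Pb).Tr F σ :=
    Plc.tr_comp vσ (by rw [hs2]; exact Plc.tr_of_triv h1 h3 h4.ne)
  have cle : ∀ x ∈ F, ∀ y ∈ F, (P.comp Pb).v x ≤ (P.comp Pb).v y ↔ P.v x ≤ P.v y :=
    fun x hx y hy => Plc.comp_le_iff h1 hx hy
  have cle1 : ∀ x ∈ F, (P.comp Pb).v x ≤ 1 ↔ P.v x ≤ 1 := fun x hx => by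
    simpa using cle x hx 1 (one_mem F)
  have clt1 : ∀ x ∈ F, (P.comp Pb).v x < 1 ↔ P.v x < 1 := fun x hx => by
    simpa using lt_iff_lt_of_le_iff_le (cle 1 (one_mem F) x hx)
  have FF : F ≤ Subfield.closure ((F : Set ℂ) ∪ {σ}) := fun x hx =>
    Subfield.subset_closure (.inl hx)
  have σF : σ ∈ Subfield.closure ((F : Set ℂ) ∪ {σ}) := Subfield.subset_closure (.inr rfl)
  have cF := countable_closure (hF.cnt.union (countable_singleton σ))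
  have FL : F ≤ L := fun x hx => hL ▸ subset_acl _ (.inl (.inl hx))
  have YL : ∀ a, Y a ∈ L := fun a => hL ▸ subset_acl _ (.inr ⟨a, rfl⟩)
  have L1 : L = acl ((Subfield.closure ((F : Set ℂ) ∪ {σ}) : Set ℂ) ∪ range Y) := by
    rw [hL, ← acl_acl_union, ← acl_closure ((F : Set ℂ) ∪ {σ}), acl_acl_union]
  obtain ⟨S₀, fin, sub, hQ⟩ := Plc.tld_new cF hY
    (hS.union (finite_range fun x : β × α => Δ x.1 (Y x.2)))
    (L1 ▸ union_subset hS' (range_subset_iff.2 fun x => (hΔ x.1).1.mem _ (YL x.2)))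
  obtain ⟨q, hq⟩ := sign_near (O := (P.comp Pb).O) (F := F) (σ := σ) h5 ((clt1 τ h5).2 h7)
    (fun c hc h => by
      obtain ⟨q, hq⟩ := h8 c hc ((clt1 c hc).1 h)
      rw [← map_pow] at hq
      exact ⟨q, (map_pow _ _ _).symm.trans_le ((cle _ (pow_mem hc q) τ h5).2 hq)⟩)
    ((Plc.comp_lt_one Pb).2 ⟨hs1, by rw [hs2]; exact h4⟩)
    (fun c hc h n => (Plc.comp_lt_of_lt Pb (y := σ ^ n) (by
      rw [map_pow, vσ, one_pow]; exact (clt1 c hc).1 h)).trans_eq (map_pow _ _ _)) fin sub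
  obtain ⟨t, ht⟩ := IsAlgClosed.exists_pow_nat_eq τ q.succ_pos
  have t0 : t ≠ 0 := fun e => h6 (by rw [← ht, e, zero_pow q.succ_ne_zero])
  have tF : t ∈ F := hF.acl_eq ▸ mem_acl_iff_der.2 fun D hD =>
    ExpT.der_root t0 (by rw [← Nat.succ_eq_add_one, ht]; exact hD τ h5)
  have uF : σ / t ∈ Subfield.closure ((F : Set ℂ) ∪ {σ}) := div_mem σF (FF tF)
  have un : σ / t ∉ acl (F : Set ℂ) := fun h => tr.notMem (by
    rw [← div_mul_cancel₀ σ t0]; exact mul_mem h (subset_acl _ tF))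
  obtain ⟨w, hw⟩ := exists_notMem_acl (Plc.countable_res (P := P) hF.cnt)
  obtain ⟨Q₁, a1, r1⟩ := Plc.exists_gauss le_rfl P hF.cnt (ind_const.2 un) fun _ : Unit => w
  have G1 : Q₁.Gauss F fun _ : Unit => σ / t := ⟨fun i => (r1 i).1, by
    rw [← a1.res le_rfl, show (Q₁.r ∘ fun _ : Unit => σ / t) = fun _ => w from
      funext fun i => (r1 i).2]
    exact ind_const.2 hw⟩
  have key : ∀ Q : Plc ℂ ℂ, (Q.Gauss F fun _ : Unit => σ / t) → Q.v σ ^ (q + 1) = Q.v τ :=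
    fun Q h => by
      have e := h.v_eq ()
      rw [map_div₀, div_eq_one_iff_eq (Q.v_ne t0)] at e
      rw [e, ← map_pow, ← Nat.succ_eq_add_one, ht]
  have sg := hq (q + 1) q.le_succ Q₁.O (fun c hc => by
    rw [Plc.mem_iff, Plc.mem_iff, cle1 c hc, (a1 c hc).1]) (key Q₁ G1)
  obtain ⟨W, hW⟩ := exists_ind (Plc.countable_res (P := Q₁) cF) α
  obtain ⟨Q, ag, -, G, hs⟩ := hQ ℂ le_rfl Q₁ W hW fun x hx => by
    rw [← Plc.mem_iff, ← Plc.mem_iff, sg x hx]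
  have PQ : P.Agree Q F := a1.trans (ag.mono FF)
  have GQ := ag.gauss FF (fun _ => uF) G1
  have G2 := GQ.sum G FF fun _ => uF
  have L2 : L = acl ((F : Set ℂ) ∪ range (Sum.elim Y fun _ : Unit => σ / t)) := by
    rw [hL]
    refine acl_congr ?_ ?_
    · rintro x ((hx | rfl) | ⟨a, rfl⟩)
      · exact subset_acl _ (.inl hx)
      · have : x / t * t ∈ acl ((F : Set ℂ) ∪ range (Sum.elim Y fun _ : Unit => x / t)) :=
          mul_mem (subset_acl _ (.inr ⟨.inr (), rfl⟩)) (subset_acl _ (.inl tF))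
        rwa [div_mul_cancel₀ x t0] at this
      · exact subset_acl _ (.inr ⟨.inl a, rfl⟩)
    · rintro x (hx | ⟨a | a, rfl⟩)
      · exact subset_acl _ (.inl (.inl hx))
      · exact subset_acl _ (.inr ⟨a, rfl⟩)
      · exact div_mem (subset_acl _ (.inl (.inr rfl))) (subset_acl _ (.inl (.inl tF)))
  refine ⟨q + 1, q.succ_pos, Q, PQ, key Q GQ, fun y hy h => ?_,
    fun y hy => ⟨(hs y (.inl hy)).1.1, (hs y (.inl hy)).2.1⟩, fun b => ?_⟩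
  · obtain ⟨k, hk, c, hc, e⟩ := G2.exists_pow_v (L2 ▸ hy)
    obtain ⟨m, hm⟩ := h8 c hc ((PQ.lt_one hc).2 (e ▸ pow_lt_one₀ zero_le h hk.ne'))
    rw [← map_pow] at hm
    exact ⟨k * m, by rw [pow_mul, e, ← map_pow]; exact (PQ.le (pow_mem hc m) h5).1 hm⟩
  · rw [L2]
    refine G2.ctr_acl (PQ.ctr subset_rfl (hΔ b).2 fun x hx =>
      Plc.le_of_comp_le Pb ((hΔ b).1.ctr x (FL hx))) ?_
    rintro (a | a)
    · exact (hs _ (.inr ⟨(b, a), rfl⟩)).1.1 (((hΔ b).1.ctr _ (YL a)).trans (hY.1 a))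
    · have e : σ / t ∈ cst (Δ b) := div_mem ((hΔ b).1.kil σ (by simp))
        (ExpT.der_root t0 (by rw [← Nat.succ_eq_add_one, ht]; exact (hΔ b).1.kil τ (by simp)))
      rw [Sum.elim_inr, mem_cst.1 e]
      simp

end Pool.Agent.P.MP_f17f76_ag.Hgc
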