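import Pool.Agent.P.MP_f17f76_ag.E.ExpA
import Pool.Agent.P.MP_f17f76_ag.E.ExpF
import Pool.Agent.P.MP_f17f76_ag.E.ExpG
import Pool.Agent.P.MP_f17f76_ag.E.ExpR
import Pool.Agent.P.MP_f17f76_ag.E.ExpT

/-!
Expansion of a configuration: the new state.
-/

namespace Pool.Agent.P.MP_f17f76_ag.Hgc

open Set Module Matrix E AbVar ExpA

variable {g N : ℕ} {ι κ : Type} {A : AbVar g N} [Fintype ι] [DecidableEq ι] [Fintype κ]
  [DecidableEq κ] {x : Cx ι κ g} {B₀ : ℕ} {d : Cd ι κ g}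

namespace ExpB

/-- The count of parameters over a field over which `W` is independent. -/
theorem trd_le (hx : IsCx A x) (h : CC A x B₀ d) {F : Subfield ℂ} (hF : d.Kp ≤ F)
    (hW : Ind (F : Set ℂ) fun i : d.s => d.W i) {u : ι → ℂ}
    (hu : ∀ j, u j ∈ acl (F ∪ pt A d.z d.a)) :
    trd (acl (F ∪ range fun i : d.s => d.W i) : Set ℂ) (pt A u d.a) ≤
      finrank ℂ x.N + Fintype.card {i // i ∉ d.s} := by
  obtain ⟨σ, h1, h2, h3⟩ := h.cj
  have h4 : trd (x.k' : Set ℂ) (pt A d.z d.a) = trd (x.k' : Set ℂ) (pt A x.z x.a) := by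
    have := trd_map (σ : ℂ →+* ℂ) (F := x.k') (finite_pt (A := A) x.z x.a)
    rwa [RingHom.coe_coe, image_fix h1, ← pt_map h3, ← h2] at this
  have h5 := trd_union (F := F) (finite_range fun i : d.s => d.W i) (finite_pt (A := A) d.z d.a)
  rw [hW.trd_range, trd_congr (S' := pt A d.z d.a) (union_subset (range_subset_iff.2 fun i : d.s =>
    acl_mono (union_subset_union_left _ hF) (h.Wm i i.2)) (sub_acl subset_union_right))
    (sub_acl (subset_union_right.trans subset_union_right))] at h5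
  have h6 := trd_anti (F := x.k') (F' := F) (finite_pt (A := A) d.z d.a)
    (sub_acl ((h.fr.le'.trans h.fr.lep).trans hF))
  have h7 : pt A u d.a ⊆ acl (F ∪ (range fun i : d.s => d.W i) ∪ pt A d.z d.a) :=
    (pt_subset hu).trans (acl_mono (union_subset_union_left _ subset_union_left))
  have h8 : trd (x.k' : Set ℂ) (pt A x.z x.a) ≤ finrank ℂ x.N + Fintype.card κ := hx.ob.ndg.le
  have h9 : Fintype.card d.s + Fintype.card {i // i ∉ d.s} = Fintype.card κ := by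
    rw [← Fintype.card_sum]
    exact Fintype.card_congr (Equiv.sumCompl (· ∈ d.s))
  have h10 := (h5.symm.trans_le h6).trans (h4.trans_le h8)
  rw [← h9, add_left_comm] at h10
  rw [trd_acl_base (finite_pt _ _)]
  exact (E.trd_le (finite_pt _ _) h7).trans (Nat.le_of_add_le_add_left h10)

omit [Fintype κ] [DecidableEq κ] in
theorem exists_pivot {μ : Finset ι} {ν : ι → ι → ℂ}
    (h : ∀ l ∈ μ, ∀ m ∈ μ, ν l m = if l = m then 1 else 0) (c : μ → ℂ) :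
    ∃ v : ι → ℂ, ∀ l : μ, ν l ⬝ᵥ v = c l :=
  ⟨∑ m : μ, c m • Pi.single (m : ι) 1, fun l => by
    simp [dotProduct_sum, h l l.2]⟩

theorem free_base {F S T T' : Set ℂ} (h : Free F S (T ∪ T')) : Free (F ∪ T) T' S :=
  (h.base (sub_acl subset_union_left) (sub_acl (union_subset_union_right _
    subset_union_left))).symm.mono subset_union_right (sub_acl subset_union_right)

end ExpB

open ExpB

/-- A configuration and positivity data in general position give a state. -/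
theorem exp_core {s : ι → ℝ} {m : ι → ℕ} {E' k₂ : Subfield ℂ} {R : Submodule ℂ (ι → ℂ)} {σ : ℂ}
    {Pb : Plc ℂ ℂ} {H : Matrix ι ι ℂ} {bb : Fin g → ℂ} (hx : IsCx A x) (h : CC A x B₀ d)
    (hs : d.Rad x.τ s) (c₂ : Cac k₂) (l₂ : d.k₁ ≤ k₂) (cE : (E' : Set ℂ).Countable) (hR : Ov E' R)
    (hn : finrank ℂ R = finrank ℂ x.N) (f1 : Free (d.k₁ : Set ℂ) (k₂ ∪ E' ∪ {σ}) (d.L A))
    (f2 : Free (d.k₁ : Set ℂ) (k₂ ∪ E') d.kap)
    (f3 : Free (x.k : Set ℂ) k₂ (x.k' ∪ E' ∪ pt A d.z d.a))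
    (p1 : Pb.IdOn (k₂ ∪ E' ∪ d.kap)) (p2 : σ ≠ 0) (p3 : Pb.v σ < 1)
    (p4 : GrM k₂ (x.r ⊓ Setoid.ker fun j => d.P.v (d.p j)) H)
    (p5 : ∀ j, Pb.v (σ ^ m j * (H⁻¹ *ᵥ fun j => d.P.r (d.u j)) j) ≤ 1) (p6 : A.Red Pb d.b bb)
    (p7 : Sur A (ini m (act H (d.bar R))) (k₂ ∪ E' ∪ d.kap)
      (fun j => Pb.r (σ ^ m j * (H⁻¹ *ᵥ fun j => d.P.r (d.u j)) j)) bb
      fun i : {i // i ∉ d.s} => d.θ x i) :
    ∃ q : ℕ, 0 < q ∧ ∃ w, WS A { x with E := E', N := R, z := d.z, a := d.a } B₀ w ∧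
      w.Rad x.τ fun j => s j + m j / q := by
  have hf := h.fr
  have k1 : d.k₁ ≤ d.Kp := hf.le₁.trans hf.lep
  have k2 : x.k' ≤ d.Kp := hf.le'.trans hf.lep
  have k3 : x.kt ≤ d.Kp := hx.kt_le.trans k2
  have k4 : d.Kp ≤ d.L A := sub_acl subset_union_left
  have k5 : pt A d.z d.a ⊆ d.L A := sub_acl subset_union_right
  have k6 : (d.P.res d.Kp : Set ℂ) ⊆ d.kap := sub_acl subset_union_left
  have hid : d.P.IdOn x.kt := hf.id.mono subset_union_right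
  have cT := c₂.cnt.union cE
  obtain ⟨P', a1, a2, a3, a4, a5, a6, a7⟩ := exists_plc (W := fun i : d.s => d.W i) hf.c₁ k1 k4
    (countable_acl (hf.cp.cnt.union (finite_pt _ _).countable)) cT (hf.id.mono subset_union_left)
    rfl (fun i => h.Wm i i.2) h.Wg f1 f2 p1 p2 p3
  obtain ⟨F₀, eF₀⟩ : ∃ F₀, F₀ = acl (d.Kp ∪ (k₂ ∪ E') : Set ℂ) := ⟨_, rfl⟩
  obtain ⟨F, eF⟩ : ∃ F, F = Subfield.closure (F₀ ∪ {σ} : Set ℂ) := ⟨_, rfl⟩
  obtain ⟨F₁, eF₁⟩ : ∃ F₁, F₁ = acl (F ∪ range fun i : d.s => d.W i) := ⟨_, rfl⟩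
  obtain ⟨P₂, eP⟩ : ∃ P₂, P₂ = P'.comp Pb := ⟨_, rfl⟩
  rw [← eF₀] at a3 a4 a5 a6 a7
  rw [← eF, ← eP] at a6 a7
  rw [← eF₁] at a7
  have l0 : d.Kp ≤ F₀ := a3.1
  have l0' : (k₂ ∪ E' : Set ℂ) ⊆ F₀ := eF₀ ▸ sub_acl subset_union_right
  have l1 : F₀ ≤ F := fun y hy => eF ▸ Subfield.subset_closure (Or.inl hy)
  have l1' : σ ∈ F := eF ▸ Subfield.subset_closure (Or.inr rfl)
  have l2 : F ≤ F₁ := eF₁ ▸ sub_acl subset_union_left
  have l2' : ∀ i : d.s, d.W i ∈ F₁ := fun i => eF₁ ▸ subset_acl _ (Or.inr ⟨i, rfl⟩)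
  have b1 : d.P.Agree P' d.Kp := a1.mono k4
  have b2 : P'.IdOn (k₂ ∪ E') := a2.mono (sub_acl subset_union_left)
  have b3 := a2 σ (subset_acl _ (Or.inr rfl))
  have b4 : P₂.IdOn x.kt := eP ▸ Plc.IdOn.comp ((b1.mono k3).lifts hid)
    (p1.mono (((hid.le_res k3).trans k6).trans subset_union_right))
  -- the new matrix and the new coordinates
  obtain ⟨M, eM⟩ : ∃ M, M = d.G * H * diagonal fun j => d.p j / σ ^ m j := ⟨_, rfl⟩
  have eM' : M = d.M * (H * diagonal fun j => (σ ^ m j)⁻¹) := by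
    have : diagonal d.p * H = H * diagonal d.p := Matrix.ext fun i j => by
      rw [diagonal_mul, mul_diagonal, mul_comm]
      by_cases e : H i j = 0
      · simp [e]
      · rw [h.nrm i j (p4.gr i j e).2]
    rw [eM, Fr.M, Matrix.mul_assoc, Matrix.mul_assoc, ← Matrix.mul_assoc (diagonal _), this,
      Matrix.mul_assoc, diagonal_mul_diagonal]
    rfl
  have hσm : ∀ j, (σ ^ m j)⁻¹ ≠ 0 := fun j => inv_ne_zero (pow_ne_zero _ p2)
  have hMi : ∀ y j, (M⁻¹ *ᵥ y) j = σ ^ m j * (H⁻¹ *ᵥ d.M⁻¹ *ᵥ y) j := fun y j => by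
    rw [eM', Matrix.mul_inv_rev, ← mulVec_mulVec, inv_mul_diag _ hσm, div_inv_eq_mul, mul_comm]
  have hM0 : M.det ≠ 0 := by
    rw [eM', det_mul]
    exact mul_ne_zero hf.det (det_mul_diag p4.det hσm)
  obtain ⟨K₁, eK⟩ : ∃ K₁, K₁ = acl (d.K₁ ∪ (k₂ ∪ {σ}) : Set ℂ) := ⟨_, rfl⟩
  have l3 : d.K₁ ≤ K₁ := eK ▸ sub_acl subset_union_left
  have l4 : k₂ ≤ K₁ := eK ▸ sub_acl (subset_union_left.trans subset_union_right)
  have l5 : σ ∈ K₁ := eK ▸ subset_acl _ (Or.inr (Or.inr rfl))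
  have hMm : ∀ {K : Subfield ℂ}, d.K₁ ≤ K → k₂ ≤ K → σ ∈ K → ∀ i j, M i j ∈ K :=
    fun e1 e2 e3 i j => by
      rw [eM, mul_diagonal]
      exact mul_mem (sum_mem fun l _ => mul_mem (e2 (l₂ (hf.gr.mem _ _))) (e2 (p4.mem _ _)))
        (div_mem (e1 (hf.pm j)) (pow_mem e3 _))
  have hMF := hMm (hf.lep.trans (l0.trans l1))
    (fun y hy => l1 (l0' (Or.inl hy))) l1'
  obtain ⟨u, eu⟩ : ∃ u, u = M⁻¹ *ᵥ (d.z - d.c) := ⟨_, rfl⟩
  have hz : d.z = d.c + M *ᵥ u := by rw [eu, mulVec_inv_cancel hM0, add_sub_cancel]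
  have hu : ∀ j, P₂.v (u j) ≤ 1 ∧
      P₂.r (u j) = Pb.r (σ ^ m j * (H⁻¹ *ᵥ fun j => d.P.r (d.u j)) j) := fun j => by
    have h1 : ∀ i, d.u i ∈ d.L A := mulVec_mem (fun i j => k4 (hf.lep (hf.inv_mem i j)))
      fun j => sub_mem (k5 (mem_pt_left j)) (k4 (hf.cm j))
    have h2 := r_mulVec (B := H⁻¹) (fun i => (a1 _ (h1 i)).1.1 (h.int i))
      (fun i j => (b2 _ (Or.inl (p4.inv.mem i j))).1) j
    have h3 := Plc.v_pow_le b3.1 (m j)
    have h4 : P'.r (u j) = σ ^ m j * (H⁻¹ *ᵥ fun j => d.P.r (d.u j)) j := by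
      rw [eu, hMi, ← Cd.u, Plc.r_mul h3 h2.1, h2.2, Plc.r_pow b3.1, b3.2,
        show H⁻¹.map P'.r = H⁻¹ from Matrix.ext fun i j => (b2 _ (Or.inl (p4.inv.mem i j))).2,
        show P'.r ∘ d.u = fun j => d.P.r (d.u j) from funext fun i => (a1 _ (h1 i)).2.symm]
    rw [eP, Plc.comp_le_one, Plc.comp_r, h4, eu, hMi]
    exact ⟨⟨Plc.v_mul_le h3 h2.1, p5 j⟩, rfl⟩
  -- the rows
  obtain ⟨k₃, e₃⟩ : ∃ k₃, k₃ = Subfield.closure (k₂ ∪ E' : Set ℂ) := ⟨_, rfl⟩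
  have m1 : k₂ ≤ k₃ := fun y hy => e₃ ▸ Subfield.subset_closure (Or.inl hy)
  have m2 : E' ≤ k₃ := fun y hy => e₃ ▸ Subfield.subset_closure (Or.inr hy)
  have hred : P₂.red (act M R) ≤ ini m (act H (d.bar R)) := by
    have h1 : ∀ i j, d.P.v (d.p i) ≤ d.P.v (d.p j) ↔ P'.v (d.p i) ≤ P'.v (d.p j) := fun i j =>
      b1.le (hf.lep (hf.pm i)) (hf.lep (hf.pm j))
    rw [eP, eM', Fr.bar, ini_congr h1]
    exact exp_red ((e₃ ▸ b2.closure).union fun y hy => hy ▸ b3)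
      (e₃ ▸ Plc.IdOn.closure (p1.mono subset_union_left)) (hR.mono m2) (fun i j => m1 (l₂ (hf.gr.mem i j)))
      (fun i j => m1 (p4.mem i j)) p4.det hf.p0
      (fun i j e => h.nrm i j (le_antisymm ((h1 i j).2 e.le) ((h1 j i).2 e.ge))) p2 p3
  have hRF : Ov F R := hR.mono fun y hy => l1 (l0' (Or.inr hy))
  obtain ⟨μ, ν, n1, n2, -⟩ := P₂.latt (hRF.act hMF)
  have n3 : Fintype.card μ = finrank ℂ R := by rw [Fintype.card_coe, n1, finrank_act hM0]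
  -- the lift
  obtain ⟨L, eL⟩ : ∃ L, L = acl (F₁ ∪ (range u ∪ range (A.crd d.a)) : Set ℂ) := ⟨_, rfl⟩
  have l6 : F₁ ≤ L := eL ▸ sub_acl subset_union_left
  have l7 : F ≤ L := l2.trans l6
  have l8 : F₀ ≤ L := l1.trans l7
  have l9 : d.Kp ≤ L := l0.trans l8
  have huL : ∀ j, u j ∈ L := fun j => eL ▸ subset_acl _ (Or.inr (Or.inl ⟨j, rfl⟩))
  have haL : ∀ j, A.crd d.a j ∈ L := fun j => eL ▸ subset_acl _ (Or.inr (Or.inr ⟨j, rfl⟩))
  have hzL : ∀ j, d.z j ∈ L := fun j =>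
    hz ▸ add_mem (l9 (hf.cm j)) (mulVec_mem (fun i j => l7 (hMF i j)) huL j)
  have hpt : pt A d.z d.a ⊆ L := union_subset (range_subset_iff.2 hzL) (range_subset_iff.2 haL)
  have l10 : d.L A ≤ L := by
    refine acl_le ((union_subset l9 hpt).trans ?_) |>.trans_eq eL.symm
    rw [eL]
  have hθ : ∀ i l, d.θ x i l ∈ x.kt := fun i l => by
    rw [Cd.θ, Finset.sum_apply]
    exact sum_mem fun j _ => mul_mem (h.Tm i j) (hx.th j l)
  have hA := hx.ob.ovr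
  obtain ⟨Y₀, -, y1, y2, S, T, hS, hT⟩ := hA.lift (b4.mono hx.le)
    (eP ▸ (h.red.agree a1 fun j => k5 (mem_pt_right j)).comp p6 : A.Red P₂ d.a bb)
    (hx.le.trans (k3.trans (l0.trans (l1.trans l2)))) eL (ν := fun l : μ => ν l)
    (θ := fun i : {i // i ∉ d.s} => d.θ x i) (fun j l => ⟨l9 (k3 (hθ j l)), b4 _ (hθ j l)⟩)
    (fun j => (hu j).1) (fun l i => ((n2 l l.2).2.1 i).imp_left fun e => l7 e)
    (by
      rw [n3, hn, eF₁]
      exact trd_le hx h (l0.trans l1) a6.ind (eu ▸ mulVec_mem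
        (fun i j => subset_acl _ (Or.inl (inv_mem_sub hMF i j))) fun j => sub_mem
          (subset_acl _ (Or.inr (mem_pt_left j))) (subset_acl _ (Or.inl (l1 (l0 (hf.cm j)))))))
    fun c c' => by
      obtain ⟨v, hv⟩ := exists_pivot (ν := fun l => P₂.r ∘ ν l) (fun l hl j hj => by
        rw [Function.comp_apply, (n2 l hl).2.2 j hj]
        split_ifs <;> simp) c
      obtain ⟨D, h1, h2, h3⟩ := sur_iff.1 p7 v c'
      refine ⟨D, kil_le a7 h1, fun l => ?_, h3⟩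
      rw [← hv, show P₂.r ∘ u = _ from funext fun j => (hu j).2]
      exact h2 _ (hred (Plc.r_mem_red (n2 l l.2).1 fun i => ((n2 l l.2).2.1 i).2))
  have y3 := a6.sum y1 l2 l2'
  have y4 : L = acl (F₀ ∪ {σ} ∪ range (Sum.elim Y₀ fun i : d.s => d.W i)) := by
    rw [y2, eF₁, eF, acl_acl_union, union_assoc, ← acl_acl_union, acl_closure, acl_acl_union,
      Sum.elim_range, union_comm (range Y₀)]
  -- the extended derivations
  have hX : ∀ i : d.s, ∃ X : Der ℂ, (∀ y ∈ d.Kp, X y = d.X i y) ∧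
      (∀ a, X (Sum.elim Y₀ (fun i : d.s => d.W i) a) = 0) ∧ P₂.Good (k₂ ∪ E' ∪ {σ}) L X ∧
      ∀ y ∈ F₀, X y ∈ F₀ := fun i => by
    have h1 := h.X i i.2
    have h2 : (P'.res d.Kp : Set ℂ) ⊆ d.kap := b1.res le_rfl ▸ k6
    rw [eF, eP] at y3
    rw [eF₀] at a4 a5 y3 y4
    rw [eP, eF₀]
    exact exists_ext k1 b2 (f2.mono subset_rfl (sub_acl (h2.trans subset_union_right)))
      (f1.symm.mono k4 (sub_acl subset_union_right)) a4 a5 y3 y4 (kil_anti hf.le₁ h1.1)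
      (b1.ctr subset_rfl h1.2.1 h1.2.2) h1.2.1
  choose X x1 x2 x3 x4 using hX
  obtain ⟨U, eU⟩ : ∃ U : Set ℂ, U = (K₁ ∪ E' : Set ℂ) := ⟨_, rfl⟩
  have u1 : U ⊆ acl (d.K₁ ∪ (k₂ ∪ E' ∪ {σ})) := eU ▸ union_subset
    (eK ▸ acl_mono (union_subset_union_right _ (union_subset_union_left _ subset_union_left)))
    (sub_acl ((subset_union_right.trans subset_union_left).trans subset_union_right))
  have u2 : U ⊆ F₁ := u1.trans (eF₁ ▸ acl_mono (Subset.trans (union_subset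
    (hf.lep.trans (l0.trans l1)) (union_subset (l0'.trans l1) (singleton_subset_iff.2 l1')))
    subset_union_left))
  have u3 : K₁ ≤ L := (subset_union_left.trans eU.ge).trans (u2.trans l6)
  have u4 : (x.k : Set ℂ) ⊆ U := eU ▸ Subset.trans (hf.le.trans (hf.le₁.trans l3)) subset_union_left
  have x5 : ∀ i, P₂.Good U L (X i) := fun i => ⟨kil_le u1 fun y hy => hy.elim (fun hy =>
    (x1 i y (hf.lep hy)).trans ((h.X i i.2).1 y hy)) ((x3 i).kil y), (x3 i).ctr, (x3 i).mem⟩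
  have hg : ∀ {D}, P₂.Good F₁ L D → P₂.Good U L D := fun e => ⟨kil_anti u2 e.kil, e.ctr, e.mem⟩
  have hθL : ∀ i l, d.θ x i l ∈ L := fun i l => l9 (k3 (hθ i l))
  have hpv : ∀ {D}, P₂.Good U L D → ∀ j, A.pv (d.θ x) d.a D j ∈ L ∧
      P₂.v (A.pv (d.θ x) d.a D j) ≤ 1 := fun e j =>
    ⟨hA.pv_mem (kil_anti u4 e.kil) (hx.le.trans (k3.trans l9)) hθL haL (fun j => e.mem _ (haL j)) j,
      hA.ctr_pv (b4.mono hx.le) (fun j l => (b4 _ (hθ j l)).1) (kil_anti u4 e.kil) e.ctr haL j⟩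
  have hw : ∀ D e, P₂.Ctr D L → (∀ i : d.s, D (d.W i) = 0) → (D ∈ kil (d.Kp : Set ℂ) ∧ e = 0 ∨
      ∃ j ∈ d.s, (∀ y ∈ d.Kp, D y = d.X j y) ∧ e = Pi.single j 1) →
      ∀ i ∈ d.s, P₂.v (A.pv (d.θ x) d.a D i - e i) < P₂.v d.π := fun D e h1 h2 h3 i hi => by
    have h4 := h.wit P' a1 D e (fun y hy => Plc.le_of_comp_le Pb (eP ▸ h1 y (l10 hy))) h3 i hi
    rw [h2 ⟨i, hi⟩, mul_zero, sub_zero] at h4
    exact eP ▸ Plc.comp_lt_of_lt Pb h4
  have hπ : P₂.v d.π < 1 := eP ▸ (Plc.comp_lt_one Pb).2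
    (have := (b1.lt_one (hf.lep h.πm)).1 h.πlt; ⟨this.le, by simp [Plc.r_of_lt this]⟩)
  have hZ : ∀ l : κ, ∃ Z : Der ℂ, P₂.Good U L Z ∧ (∀ y ∈ F₀, Z y ∈ F₀) ∧
      (∀ j, P₂.v (A.pv (d.θ x) d.a Z j - if j = l then 1 else 0) < 1) ∧
      ∀ j, d.P.v (d.π * (d.M⁻¹ *ᵥ dv d.c Z) j) < 1 ∧ Z (d.c j) ∈ d.Kp := fun l => by
    by_cases hl : l ∈ d.s
    · obtain ⟨V, eV⟩ : ∃ V, V = ∑ j : {i // i ∉ d.s}, A.pv (d.θ x) d.a (X ⟨l, hl⟩) j • T j :=
        ⟨_, rfl⟩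
      have h1 : P₂.Good F₁ L V := eV ▸ Plc.Good.sum (fun j => (hT j).1) fun j => hpv (x5 _) j
      have h2 : ∀ y ∈ d.Kp, (X ⟨l, hl⟩ - V) y = d.X l y := fun y hy => by
        rw [Derivation.sub_apply, h1.kil y (l2 (l1 (l0 hy))), sub_zero, x1 _ y hy]
      have h3 := (x5 ⟨l, hl⟩).ctr.sub h1.ctr
      refine ⟨X ⟨l, hl⟩ - V, ⟨sub_mem (x5 _).kil (hg h1).kil, h3, fun y hy =>
        sub_mem ((x5 _).mem y hy) (h1.mem y hy)⟩, fun y hy => ?_, fun j => ?_, fun j => ⟨?_, ?_⟩⟩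
      · rw [Derivation.sub_apply, h1.kil y (l2 (l1 hy)), sub_zero]
        exact x4 _ y hy
      · by_cases hj : j ∈ d.s
        · rw [← Pi.single_apply]
          exact (hw _ _ h3 (fun i => by
            rw [Derivation.sub_apply, h1.kil _ (l2' i), sub_zero]
            exact x2 _ (Sum.inr i)) (Or.inr ⟨l, hl, h2, rfl⟩) j hj).trans hπ
        · have h4 : ∀ i, A.pv (d.θ x) d.a (T i) j = _ := fun i => congrFun (hT i).2.2 ⟨j, hj⟩
          rw [if_neg fun e : j = l => hj (e ▸ hl)]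
          simp [eV, h4, Pi.single_apply]
      · rw [show dv d.c (X ⟨l, hl⟩ - V) = dv d.c (d.X l) from funext fun j => h2 _ (hf.cm j)]
        exact h.cX l hl j
      · exact h2 _ (hf.cm j) ▸ (h.X l hl).2.1 _ (hf.cm j)
    · have h1 := hT ⟨l, hl⟩
      have h2 : ∀ j, T ⟨l, hl⟩ (d.c j) = 0 := fun j => h1.1.kil _ (l2 (l1 (l0 (hf.cm j))))
      refine ⟨T ⟨l, hl⟩, hg h1.1, fun y hy => h1.1.kil y (l2 (l1 hy)) ▸ zero_mem _, fun j => ?_,
        fun j => ⟨by simp [show dv d.c _ = 0 from funext h2], h2 j ▸ zero_mem _⟩⟩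
      by_cases hj : j ∈ d.s
      · rw [if_neg fun e : j = l => hl (e ▸ hj)]
        exact (hw _ 0 h1.1.ctr (fun i => h1.1.kil _ (l2' i))
          (Or.inl ⟨kil_anti (l0.trans (l1.trans l2)) h1.1.kil, rfl⟩) j hj).trans hπ
      · have h3 : A.pv (d.θ x) d.a (T ⟨l, hl⟩) j = _ := congrFun h1.2.2 ⟨j, hj⟩
        simp [h3, Pi.single_apply]
  choose Z z1 z2 z3 z4 using hZ
  have s1 : ∀ l j, P₂.v (A.pv (d.θ x) d.a (S l) j / d.π) < 1 := fun l j => by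
    by_cases hj : j ∈ d.s
    · rw [P₂.v_div_lt_one h.π0]
      simpa using hw _ 0 (hS l).1.ctr (fun i => (hS l).1.kil _ (l2' i))
        (Or.inl ⟨kil_anti (l0.trans (l1.trans l2)) (hS l).1.kil, rfl⟩) j hj
    · have h3 : A.pv (d.θ x) d.a (S l) j = 0 := congrFun (hS l).2.2 ⟨j, hj⟩
      simp [h3]
  -- the transfer
  have hτ := k2 hx.τ_mem
  have u5 : ({x.τ, σ} : Set ℂ) ⊆ U := eU ▸ Subset.trans
    (pair_subset (l3 (hf.le' hx.τ_mem)) l5) subset_union_left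
  have cF : Cac F₀ := eF₀ ▸ Cac.acl (hf.cp.cnt.union cT)
  have cL : Cac L :=
    y4 ▸ Cac.acl ((cF.cnt.union (countable_singleton σ)).union (countable_range _))
  subst eP eF
  obtain ⟨q, hq, Q, q1, q2, q3, q4, q5⟩ := exp_tld (Δ := Sum.elim Z S)
    (S := range (fun e : κ × κ => A.pv (d.θ x) d.a (Z e.1) e.2 - if e.2 = e.1 then 1 else 0) ∪
      range (fun e : μ × κ => A.pv (d.θ x) d.a (S e.1) e.2 / d.π) ∪
      (range (fun e : μ × ι => ν e.1 e.2) ∪ range u))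
    cF a4 (fun y hy => hy ▸ b3) p2 p3 (l0 hτ) hx.τ_ne
    ((b1.lt_one hτ).1 hf.lt) (arch_full b1 a3 hτ hf.arch) y3 y4
    (((finite_range _).union (finite_range _)).union ((finite_range _).union (finite_range _)))
    (union_subset (union_subset
      (range_subset_iff.2 fun e => sub_mem (hpv (z1 _) _).1 (by split_ifs <;> simp))
      (range_subset_iff.2 fun e => div_mem (hpv (hg (hS _).1) _).1 (l9 (hf.lep h.πm))))
      (union_subset (range_subset_iff.2 fun e => l7 ((n2 _ e.1.2).2.1 _).1)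
        (range_subset_iff.2 huL)))
    (Sum.rec (fun l => ⟨⟨kil_anti u5 (z1 l).kil, (z1 l).ctr, (z1 l).mem⟩, z2 l⟩) fun l =>
      ⟨⟨kil_anti (u5.trans u2) (hS l).1.kil, (hS l).1.ctr, (hS l).1.mem⟩, fun y hy =>
        ((hS l).1.kil y (l2 (l1 hy))).symm ▸ zero_mem _⟩)
  have c1 : d.P.Agree Q d.Kp := b1.trans (q1.mono l0)
  have c2 : Q.IdOn (k₂ ∪ E') := (q1.mono l0').lifts b2
  have c3 : Q.v σ ≤ 1 := (pow_le_one_iff hq.ne').1 (q2.trans_le ((c1.lt_one hτ).1 hf.lt).le)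
  have c4 : ∀ j, Q.v (u j) ≤ 1 := fun j => (q4 _ (Or.inr (Or.inr ⟨j, rfl⟩))).1 (hu j).1
  have c5 : Q.v d.π < 1 := (c1.lt_one (hf.lep h.πm)).1 h.πlt
  have c6 : ∀ D ∈ kil U, M⁻¹ *ᵥ dv d.z D = M⁻¹ *ᵥ dv d.c D + dv u D := fun D hD => by
    rw [hz, show dv (d.c + M *ᵥ u) D = dv d.c D + dv (M *ᵥ u) D from funext fun j => map_add D _ _,
      dv_mulVec fun i j => hD _ (eU ▸ Or.inl (hMm l3 l4 l5 i j)), mulVec_add,
      inv_mulVec_cancel hM0]
  have c7 : ∀ l, M⁻¹ *ᵥ dv d.z (S l) = dv u (S l) := fun l => by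
    rw [c6 _ (hg (hS l).1).kil, show dv d.c (S l) = 0 from
      funext fun j => (hS l).1.kil _ (l2 (l1 (l0 (hf.cm j)))), mulVec_zero, zero_add]
  obtain ⟨r1, r2⟩ := exp_alg (Q := Q) (U := U) (ν := fun l : μ => ν l) (π := d.π) (Z := Z) (S := S)
    hA (hx.le.trans (k3.trans l9)) u4 hzL haL (fun j i => l9 (k3 (hx.th j i)))
    (fun i j => ⟨l9 (k3 (h.Tm i j)), (c1 _ (k3 (h.Tm i j))).1.1 (hid _ (h.Tm i j)).1⟩) h.T0
    (fun _ => rfl) (fun i j => l7 (hMF i j)) hM0 (hRF.mono l7)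
    (fun l => ⟨(n2 l l.2).1, fun j => (q4 _ (Or.inr (Or.inl ⟨(l, j), rfl⟩))).1
      ((n2 l l.2).2.1 j).2⟩) n3 c5.le
    (fun l => ⟨⟨(z1 l).kil, q5 (Sum.inl l), (z1 l).mem⟩,
      fun j => (q4 _ (Or.inl (Or.inl ⟨(l, j), rfl⟩))).2 (z3 l j), fun i => by
        rw [c6 _ (z1 l).kil, Pi.add_apply, mul_add, hMi, mul_left_comm, ← smul_eq_mul d.π,
          ← Pi.smul_apply, ← mulVec_smul]
        refine Q.v.map_add_le (Plc.v_mul_le (Plc.v_pow_le c3 _) (r_mulVec (fun j => ?_)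
          (fun i j => (c2 _ (Or.inl (p4.inv.mem i j))).1) i).1)
          (Plc.v_mul_le c5.le ((q5 (Sum.inl l) _ (huL i)).trans (c4 i)))
        exact ((c1.lt_one (mul_mem (hf.lep h.πm) (mulVec_mem
          (fun i j => hf.lep (hf.inv_mem i j)) (fun j => (z4 l j).2) j))).1 (z4 l j).1).le⟩)
    fun l => ⟨⟨(hg (hS l).1).kil, q5 (Sum.inr l), (hS l).1.mem⟩, fun j => (Q.v_div_lt_one h.π0).1
      ((q4 _ (Or.inl (Or.inr ⟨(l, j), rfl⟩))).2 (s1 l j)),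
      fun i => c7 l ▸ (q5 (Sum.inr l) _ (huL i)).trans (c4 i), fun l' => c7 l ▸ (hS l).2.1 l'⟩
  obtain ⟨r3, r4⟩ := exp_fr (x' := { x with E := E', N := R, z := d.z, a := d.a })
    (w' := ⟨k₂, K₁, L, Q, d.G * H, fun j => d.p j / σ ^ m j⟩) (z := d.z) hf h.nrm hs hx.cf hx.τ_mem
    hx.kt_le rfl rfl rfl rfl rfl rfl c₂
    (eK ▸ Cac.acl (hf.cK.cnt.union (c₂.cnt.union (countable_singleton σ)))) cL l₂ l4 l3 u3 l9 l5 p2
    hq q2 c1 (c2.mono subset_union_left) q3 p4 rfl rfl hzL (by subst eu eM; exact c4)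
  subst eM eU
  exact ⟨q, hq, _, ⟨r3, f3, c2.mono subset_union_right,
    union_subset (fun y hy => l8 (l0' (Or.inr hy))) hpt, r1, r2⟩, r4⟩

/-- Positivity of the residue object improves the radius. -/
theorem s_EXP (A : AbVar g N) : S_EXP A := by
  intro ι κ _ _ _ _ x B₀ d s σ m hx h hs hσ hp
  have hf := h.fr
  have cL : (d.L A : Set ℂ).Countable := countable_acl (hf.cp.cnt.union (finite_pt _ _).countable)
  have k1 : d.k₁ ≤ d.Kp := hf.le₁.trans hf.lep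
  have k5 : pt A d.z d.a ⊆ d.L A := sub_acl subset_union_right
  have k2 : (x.k' : Set ℂ) ⊆ d.L A := Subset.trans (hf.le'.trans hf.lep) (sub_acl subset_union_left)
  have l1 : d.k₁ ≤ d.kap := hσ.ob.le
  obtain ⟨S, eS⟩ : ∃ S, S = (d.kap : Set ℂ) ∪ pt A (fun j => d.P.r (d.u j)) d.b := ⟨_, rfl⟩
  obtain ⟨ω, w1, w2⟩ := exists_fresh (F := S) (S := σ '' x.E)
    (eS ▸ hσ.ob.cac.cnt.union (finite_pt _ _).countable) (hx.ob.cE.image σ) cL
  have w3 : ∀ y ∈ d.kap, ω y = y := fun y hy => w1 y (subset_acl _ (eS ▸ Or.inl hy))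
  have w4 : ∀ y ∈ d.k₁, ω y = y := fun y hy => w3 y (l1 hy)
  have w5 : ∀ y ∈ x.k, (σ.trans ω) y = y := fun y hy => by
    rw [RingEquiv.trans_apply, hσ.fix y hy, w4 y (hf.le hy)]
  have w6 : ω '' (σ '' x.E) = σ.trans ω '' x.E := image_image _ _ _
  have hc : Ob.Cj A ω (d.res x σ) (d.res x (σ.trans ω)) :=
    ⟨w4, rfl, by
      rw [Cd.res, Cd.res, image_acl, image_union, image_fix w4, w6], rfl, by
      rw [Cd.res, Cd.res, ← bar_cj _ fun i j => w4 _ (hf.gr.mem i j), cj_cj],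
      (image_fix w3).symm, funext fun j => (w1 _ (subset_acl _ (eS ▸ Or.inr (mem_pt_left j)))).symm,
      funext fun j => (w1 _ (subset_acl _ (eS ▸ Or.inr (mem_pt_right j)))).symm,
      fun j => funext fun l => (w3 _ (hσ.ob.th j l)).symm⟩
  have ho := hσ.ob.cj hc
  obtain ⟨k₂, t, Pb, H, bb, c₂, l₂, f1, f2, -, p⟩ := (hp.cj hσ.ob.ovr hc).fresh ho cL
  obtain ⟨E', eE⟩ : ∃ E', E' = x.E.map (σ.trans ω : ℂ →+* ℂ) := ⟨_, rfl⟩
  have eE' : (E' : Set ℂ) = σ.trans ω '' x.E := eE ▸ rfl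
  have m1 : (E' : Set ℂ) ⊆ (d.res x (σ.trans ω)).E := eE' ▸ sub_acl subset_union_right
  have g1 : Free (d.k₁ : Set ℂ) E' (S ∪ d.L A) :=
    (eS ▸ ho.free.symm.mono m1 (sub_acl subset_union_right) : Free (d.k₁ : Set ℂ) E' S).trans
      (eE' ▸ w6 ▸ w2.base (sub_acl subset_union_right) (sub_acl (union_subset
        (Subset.trans l1 (eS ▸ subset_union_left.trans subset_union_left)) subset_union_left)))
  have m2 : S ⊆ _ := eS ▸ union_subset_union_left (pt A _ d.b)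
    (subset_union_left (t := ((d.res x (σ.trans ω)).E : Set ℂ)))
  have m3 : (d.kap : Set ℂ) ⊆ S := eS ▸ subset_union_left
  have m4 : (E' ∪ (S ∪ d.L A) : Set ℂ) ⊆ _ := union_subset (m1.trans ((subset_union_right.trans
    subset_union_left).trans subset_union_left)) (union_subset_union_left _ m2)
  have g2 : Free (d.k₁ : Set ℂ) k₂ (E' ∪ (S ∪ d.L A)) :=
    f1.mono subset_rfl (sub_acl (m4.trans subset_union_right))
  have g3 : Free (d.k₁ : Set ℂ) (E' ∪ k₂ ∪ {t}) (S ∪ d.L A) :=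
    ((g1.symm.trans (free_base g2)).trans (free_single fun e => f2 (acl_mono (by
      simp only [union_assoc] at m4 ⊢
      exact union_subset (Subset.trans l₂ subset_union_left) (union_left_comm _ _ _ ▸
        union_subset_union_right _ m4)) e)).symm).symm
  rw [union_comm (E' : Set ℂ)] at g3
  have g4 : Free (x.k : Set ℂ) E' d.k₁ := by
    have := free_cj ω hσ.free
    rwa [w6, ← eE', image_fix w4, image_fix fun y hy => w4 y (hf.le hy)] at this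
  have g5 : Free (x.k : Set ℂ) E' (x.k' ∪ pt A d.z d.a ∪ d.k₁) :=
    (g4.trans ((g1.base (sub_acl subset_union_right) (sub_acl (union_subset_union_left _
      hf.le |>.trans (union_self _ ▸ subset_union_left)))).mono subset_rfl
      (sub_acl (subset_union_right.trans subset_union_right)))).mono subset_rfl (sub_acl
      (Subset.trans (union_comm _ _ ▸ union_subset_union_right _ (union_subset k2 k5))
        subset_union_right))
  have g6 : Free (x.k : Set ℂ) k₂ (x.k' ∪ E' ∪ pt A d.z d.a) :=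
    ((h.free.trans (free_base g5)).symm.trans ((g2.symm.mono (union_comm _ _ ▸
      union_subset_union_right _ ((union_subset k2 k5).trans subset_union_right))
      (sub_acl subset_union_right)).base (sub_acl subset_union_right) (sub_acl
      (union_subset_union_left _ hf.le |>.trans (union_self _ ▸ subset_union_left))))).symm.mono
      subset_union_right (sub_acl (union_right_comm _ _ _ ▸ subset_union_right))
  have m5 : (k₂ ∪ E' ∪ d.kap : Set ℂ) ⊆ _ := union_right_comm _ _ _ ▸ sub_acl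
    (union_subset_union_right ((k₂ : Set ℂ) ∪ d.kap) m1)
  have p' := p.anti m5
  obtain ⟨q, hq, w, r1, r2⟩ := exp_core (R := cj (σ.trans ω) x.N) hx h hs c₂ l₂
    (eE' ▸ hx.ob.cE.image _) (hx.ob.fam.ov.cj fun y hy => eE ▸ ⟨y, hy, rfl⟩) (finrank_cj _ _)
    (g3.mono subset_rfl (sub_acl (subset_union_right.trans subset_union_right)))
    (g3.mono subset_union_left (sub_acl ((m3.trans subset_union_left).trans subset_union_right)))
    g6 p'.id p'.ne p'.lt p'.gr p'.int p'.red p'.sur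
  obtain ⟨σ₀, j1, j2, j3⟩ := h.cj
  obtain ⟨γ, γ1, γ2⟩ := amalg rfl (σ.trans ω : ℂ →+* ℂ) (σ₀ : ℂ →+* ℂ) hx.ob.cac_k.cnt hx.ob.cE
    (hx.ob.cac.cnt.union (finite_pt (A := A) x.z x.a).countable) hx.ob.free.symm (by
      rw [RingHom.coe_coe, RingHom.coe_coe, image_fix w5, ← eE', image_union, image_fix j1,
        ← pt_map j3, ← j2]
      exact g5.mono subset_rfl (sub_acl (subset_union_left.trans subset_union_right)))
    fun y hy => by
      rw [hx.ob.cac_k.acl_eq] at hy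
      exact (w5 y hy).trans (j1 y (hx.ob.le hy)).symm
  have γ3 : ∀ y ∈ x.E, γ.symm (σ.trans ω y) = y := fun y hy =>
    γ.symm_apply_eq.2 (γ1 y (subset_acl _ (Or.inr hy))).symm
  have γ4 : ∀ y ∈ (x.k' ∪ pt A x.z x.a : Set ℂ), γ.symm (σ₀ y) = y := fun y hy =>
    γ.symm_apply_eq.2 (γ2 y (subset_acl _ (Or.inr hy))).symm
  have γ5 : ∀ y ∈ x.k', γ.symm y = y := fun y hy => by
    simpa [j1 y hy] using γ4 y (Or.inl hy)
  exact ⟨q, hq, autw A ι κ x ⟨x.k, E', x.r, cj (σ.trans ω) x.N, x.k', d.z, d.a, x.θ⟩ γ.symm B₀ w _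
    hx γ5 ⟨fun y hy => γ5 y (hx.ob.le hy), rfl,
    by rw [eE', image_image, image_fix γ3], rfl, ((cj_cj (σ.trans ω) γ.symm _).trans (hx.ob.fam.ov.cj_eq γ3)).symm,
    (image_fix γ5).symm, funext fun j => by
      simpa [j2] using (γ4 _ (Or.inr (mem_pt_left j))).symm, funext fun j => by
      simpa [j3] using (γ4 _ (Or.inr (mem_pt_right j))).symm,
    fun j => funext fun l => (γ5 _ (hx.ob.th j l)).symm⟩ r1 r2⟩

end Pool.Agent.P.MP_f17f76_ag.Hgc
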