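import Pool.Agent.P.MP_f17f76_ag.E.PlcA

/-!
Places: Gauss families, residue fields of algebraic closures, full extensions.
-/

namespace Pool.Agent.P.MP_f17f76_ag.E

open Set Cardinal

section ind

variable {K : Type} [Field K] {F S : Set K} {ι κ : Type} {v : ι → K} {w : κ → K} {x : K}

@[simp] theorem acl_closure (S : Set K) : acl (Subfield.closure S : Set K) = acl S :=
  acl_congr (closure_le_acl S) (Subfield.subset_closure.trans (subset_acl _))

theorem ind_sum_iff : Ind F (Sum.elim w v) ↔ Ind F v ∧ Ind (F ∪ range v) w := by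
  rw [Ind, AlgebraicIndependent.sumElim_iff, ← IntermediateField.algebraicIndependent_adjoin_iff]
  refine and_congr_right fun _ => ?_
  have e : (IntermediateField.adjoin (Subfield.closure F) (range v)).toSubfield =
      Subfield.closure (F ∪ range v) := by
    rw [IntermediateField.adjoin_toSubfield, Subfield.closure_union, Subfield.closure_union]
    congr 1
    exact (congrArg Subfield.closure Subtype.range_coe).trans (Subfield.closure_eq _)
  rw [Ind, ← e]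
  rfl

theorem Ind.notMem (h : Ind F v) (i : ι) : v i ∉ E.acl F := fun h' => h.transcendental i (mem_acl.1 h')

theorem ind_const : Ind F (fun _ : Unit => x) ↔ x ∉ acl F :=
  algebraicIndependent_unique_type_iff.trans (not_congr mem_acl.symm)

theorem Ind.trd_range [Fintype ι] (h : Ind F v) : trd F (range v) = Fintype.card ι :=
  trd_range_eq_iff.2 h

theorem exists_upoly {A : Subfield K} {τ : K} (hx : x ∈ Subring.closure ((A : Set K) ∪ {τ})) :
    ∃ p : Polynomial K, (∀ n, p.coeff n ∈ A) ∧ p.eval τ = x := by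
  have h1 : x ∈ Algebra.adjoin A {τ} := by
    rw [← Subalgebra.mem_toSubring, Algebra.adjoin_eq_ring_closure]
    exact Subring.closure_mono (union_subset_union_left _ Subtype.range_coe.ge) hx
  rw [Algebra.adjoin_singleton_eq_range_aeval] at h1
  obtain ⟨p, rfl⟩ := h1
  exact ⟨p.map A.subtype, fun n => by rw [Polynomial.coeff_map]; exact (p.coeff n).2,
    Polynomial.eval_map _ _⟩

theorem exists_mpoly {A : Subfield K} (hx : x ∈ Subring.closure ((A : Set K) ∪ range v)) :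
    ∃ p : MvPolynomial ι K, (∀ m, p.coeff m ∈ A) ∧ MvPolynomial.eval v p = x :=
  let ⟨p, hp⟩ := exists_poly hx
  ⟨_, fun m => by rw [MvPolynomial.coeff_map]; exact (p.coeff m).2, hp⟩

theorem exists_apoly {A : Subfield K} (hx : x ∈ acl (A : Set K)) :
    ∃ p : Polynomial K, p ≠ 0 ∧ (∀ n, p.coeff n ∈ A) ∧ p.eval x = 0 :=
  let ⟨p, h0, hp⟩ := mem_acl_subfield.1 hx
  ⟨p.map A.subtype, (Polynomial.map_ne_zero_iff A.subtype.injective).2 h0,
    fun n => by rw [Polynomial.coeff_map]; exact (p.coeff n).2, (Polynomial.eval_map _ _).trans hp⟩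

end ind

namespace Plc

variable {K K' R R' : Type} [Field K] [Field K'] [Field R] [Field R'] {P Q : Plc K R}
  {x y τ : K} {F L M : Subfield K} {k S T : Set K} {ι κ : Type} {Y : ι → K}

section gauss

open MvPolynomial

theorem exists_max_coeff (P : Plc K R) (p : MvPolynomial ι K) :
    ∃ m, ∀ m', P.v (p.coeff m') ≤ P.v (p.coeff m) := by
  rcases eq_or_ne p 0 with rfl | h
  · exact ⟨0, by simp⟩
  obtain ⟨m, -, hm⟩ := p.support.exists_max_image (fun m => P.v (p.coeff m))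
    (support_nonempty.2 h)
  refine ⟨m, fun m' => ?_⟩
  by_cases h' : m' ∈ p.support
  exacts [hm m' h', by simp [notMem_support_iff.1 h']]

theorem exists_lift_poly {q : MvPolynomial ι R} (hq : ∀ m, q.coeff m ∈ P.res F) :
    ∃ p : MvPolynomial ι K, (∀ m, p.coeff m ∈ F ∧ P.v (p.coeff m) ≤ 1) ∧ P.rp p = q := by
  have : ∀ y : R, ∃ x, (y = 0 → x = 0) ∧ (y ∈ P.res F → (x ∈ F ∧ P.v x ≤ 1) ∧ P.r x = y) := by
    intro y
    by_cases h : y ∈ P.res F ∧ y ≠ 0
    · obtain ⟨x, h1, h2, h3⟩ := mem_res.1 h.1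
      exact ⟨x, fun e => (h.2 e).elim, fun _ => ⟨⟨h1, h2⟩, h3⟩⟩
    · exact ⟨0, fun _ => rfl, fun h' => ⟨by simp, P.r_zero.trans (not_not.1 fun e =>
        h ⟨h', Ne.symm e⟩)⟩⟩
  choose l h0 hl using this
  exact ⟨.ofCoeff (Finsupp.mapRange l (h0 0 rfl) (AddMonoidAlgebra.coeff q)),
    fun m => (hl _ (hq m)).1, MvPolynomial.ext _ _ fun m => (hl _ (hq m)).2⟩

theorem Gauss.exists_coeff (h : P.Gauss F Y) {p : MvPolynomial ι K} (hp : ∀ m, p.coeff m ∈ F) :
    ∃ m, P.v (eval Y p) = P.v (p.coeff m) ∧ ∀ m', P.v (p.coeff m') ≤ P.v (p.coeff m) := by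
  obtain ⟨m, hm⟩ := P.exists_max_coeff p
  refine ⟨m, ?_, hm⟩
  rcases eq_or_ne (p.coeff m) 0 with h0 | h0
  · rw [show p = 0 from MvPolynomial.ext _ _ fun m' => by simpa [h0] using hm m']
    simp
  have h1 : ∀ m', P.v ((C (p.coeff m)⁻¹ * p).coeff m') ≤ 1 := fun m' => by
    rw [coeff_C_mul, ← div_eq_inv_mul, P.v_div_le_one h0]
    exact hm m'
  have h2 : P.v (eval Y (C (p.coeff m)⁻¹ * p)) = 1 := r_ne_zero_iff.1 fun e => by
    have h4 : ∀ m', (C (p.coeff m)⁻¹ * p).coeff m' ∈ F := fun m' => by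
      rw [coeff_C_mul]
      exact mul_mem (inv_mem (hp m)) (hp m')
    have h3 := ind_iff.1 h.2 _ (fun m' => subset_acl _ (r_mem_res (h4 m')))
      ((v_eval_le h1 h.1).2.symm.trans e)
    simpa [h0] using congrArg (coeff m) h3
  rw [map_mul, eval_C, map_mul, map_inv₀] at h2
  exact (inv_mul_eq_one₀ (P.v_ne h0)).1 h2 |>.symm

theorem Gauss.v_eval (h : P.Gauss F Y) {p : MvPolynomial ι K} (hp : ∀ m, p.coeff m ∈ F) (m) :
    P.v (p.coeff m) ≤ P.v (eval Y p) :=
  let ⟨_, h1, h2⟩ := h.exists_coeff hp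
  (h2 m).trans h1.ge

theorem gauss_iff_gau : P.Gauss F Y ↔ Gau P.O F Y := by
  refine ⟨fun h => ⟨fun i => P.mem_iff.2 (h.1 i), fun p => h.v_eval⟩, fun h => ?_⟩
  have h1 : ∀ i, P.v (Y i) ≤ 1 := fun i => P.mem_iff.1 (h.1 i)
  refine ⟨h1, ?_⟩
  rw [Ind, Subfield.closure_eq, algInd_iff]
  intro q hq e
  obtain ⟨p, hp, rfl⟩ := exists_lift_poly hq
  have h2 := v_eval_le (fun m => (hp m).2) h1
  exact MvPolynomial.ext _ _ fun m => r_of_lt ((h.2 p (fun m => (hp m).1) m).trans_lt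
    ((r_eq_zero_iff h2.1).1 (h2.2.trans e)))

theorem Gauss.v_eq (h : P.Gauss F Y) (i : ι) : P.v (Y i) = 1 :=
  r_ne_zero_iff.1 (h.2.ne_zero i)

theorem Gauss.ind (h : P.Gauss F Y) : Ind (F : Set K) Y := by
  rw [Ind, Subfield.closure_eq]
  exact (gauss_iff_gau.1 h).indep

theorem Gauss.mono (h : P.Gauss L Y) (h' : F ≤ L) : P.Gauss F Y :=
  ⟨h.1, h.2.anti ((show (P.res F : Set R) ⊆ P.res L from res_mono h').trans (subset_acl _))⟩

theorem Gauss.comp (h : P.Gauss F Y) {e : κ → ι} (he : Function.Injective e) :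
    P.Gauss F (Y ∘ e) := ⟨fun _ => h.1 _, h.2.comp e he⟩

theorem Gauss.range (h : P.Gauss F Y) : P.Gauss F ((↑) : range Y → K) :=
  comp_rangeSplitting Y ▸ h.comp (rangeSplitting_injective Y)

theorem Gauss.sum {Z : κ → K} (h : P.Gauss F Y) (h' : P.Gauss L Z) (hF : F ≤ L)
    (hY : ∀ i, Y i ∈ L) : P.Gauss F (Sum.elim Z Y) :=
  ⟨Sum.rec h'.1 h.1, by
    rw [Sum.comp_elim, ind_sum_iff]
    exact ⟨h.2, h'.2.anti ((union_subset (res_mono hF)
      (range_subset_iff.2 fun i => r_mem_res (hY i))).trans (subset_acl _))⟩⟩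

theorem gauss_empty [IsEmpty ι] : P.Gauss F Y := ⟨isEmptyElim, algebraicIndependent_empty_type⟩

theorem res_acl_le : P.res (acl (F : Set K)) ≤ acl (P.res F : Set R) := fun y hy => by
  obtain ⟨x, h1, h2, rfl⟩ := mem_res.1 hy
  by_contra h
  exact ind_const.1 (Gauss.ind (Y := fun _ : Unit => x) ⟨fun _ => h2, ind_const.2 h⟩) h1

theorem Gauss.acl (h : P.Gauss F Y) : P.Gauss (acl (F : Set K)) Y := ⟨h.1, h.2.anti res_acl_le⟩

theorem Gauss.exists_v (h : P.Gauss F Y) (hx : x ∈ Subfield.closure (F ∪ Set.range Y)) :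
    ∃ c ∈ F, P.v x = P.v c := by
  obtain ⟨a, ha, b, hb, rfl⟩ := Subfield.mem_closure_iff.1 hx
  obtain ⟨⟨p, hp, rfl⟩, q, hq, rfl⟩ := And.intro (exists_mpoly ha) (exists_mpoly hb)
  obtain ⟨⟨m, hm, -⟩, n, hn, -⟩ := And.intro (h.exists_coeff hp) (h.exists_coeff hq)
  exact ⟨_, div_mem (hp m) (hq n), by rw [map_div₀, map_div₀, hm, hn]⟩

theorem Gauss.exists_frac (h : P.Gauss F Y) (hx : x ∈ Subfield.closure (F ∪ Set.range Y))
    (h1 : P.v x ≤ 1) : ∃ p q : MvPolynomial ι K, (∀ m, p.coeff m ∈ F ∧ P.v (p.coeff m) ≤ 1) ∧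
      (∀ m, q.coeff m ∈ F ∧ P.v (q.coeff m) ≤ 1) ∧ P.v (eval Y q) = 1 ∧
        x = eval Y p / eval Y q := by
  obtain ⟨a, ha, b, hb, rfl⟩ := Subfield.mem_closure_iff.1 hx
  obtain ⟨⟨p, hp, rfl⟩, q, hq, rfl⟩ := And.intro (exists_mpoly ha) (exists_mpoly hb)
  rcases eq_or_ne (eval Y q) 0 with h0 | h0
  · exact ⟨0, 1, by simp, fun m => by
      classical
      rw [coeff_one]
      split_ifs <;> simp, by simp, by simp [h0]⟩
  obtain ⟨n, hn, hn'⟩ := h.exists_coeff hq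
  have h2 : q.coeff n ≠ 0 := fun e => P.v_ne h0 (by rw [hn, e, map_zero])
  refine ⟨C (q.coeff n)⁻¹ * p, C (q.coeff n)⁻¹ * q, fun m => ?_, fun m => ?_, ?_, ?_⟩
  · rw [coeff_C_mul, ← div_eq_inv_mul, P.v_div_le_one h2]
    exact ⟨div_mem (hp m) (hq n), (h.v_eval hp m).trans (((P.v_div_le_one h0).1 h1).trans hn.le)⟩
  · rw [coeff_C_mul, ← div_eq_inv_mul, P.v_div_le_one h2]
    exact ⟨div_mem (hq m) (hq n), hn' m⟩
  · rw [map_mul, eval_C, map_mul, map_inv₀, hn, inv_mul_cancel₀ (P.v_ne h2)]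
  · rw [map_mul, map_mul, eval_C, mul_div_mul_left _ _ (inv_ne_zero h2)]

theorem Gauss.agree (h : P.Gauss F Y) (h1 : P.Agree Q F) (h2 : P.Agree Q (Set.range Y)) :
    P.Agree Q (Subfield.closure (F ∪ Set.range Y)) := by
  refine agree_of_lifts fun x hx h3 => ?_
  obtain ⟨p, q, hp, hq, h4, rfl⟩ := h.exists_frac hx h3
  have key : ∀ p : MvPolynomial ι K, (∀ m, p.coeff m ∈ F ∧ P.v (p.coeff m) ≤ 1) →
      P.v (eval Y p) ≤ 1 ∧ Q.v (eval Y p) ≤ 1 ∧ Q.r (eval Y p) = P.r (eval Y p) := fun p hp => by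
    have h5 := v_eval_le (fun m => (hp m).2) h.1
    have h6 := v_eval_le (fun m => (h1 _ (hp m).1).1.1 (hp m).2)
      fun i => (h2 _ ⟨i, rfl⟩).1.1 (h.1 i)
    refine ⟨h5.1, h6.1, ?_⟩
    rw [h5.2, h6.2, show P.rp p = Q.rp p from MvPolynomial.ext _ _ fun m => (h1 _ (hp m).1).2,
      show P.r ∘ Y = Q.r ∘ Y from funext fun i => (h2 _ ⟨i, rfl⟩).2]
  have h5 : Q.v (eval Y q) = 1 := r_ne_zero_iff.1 ((key q hq).2.2 ▸ r_ne_zero_iff.2 h4)
  exact ⟨by rw [map_div₀, h5, div_one]; exact (key p hp).2.1, by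
    rw [r_div (key p hp).2.1 h5, r_div (key p hp).1 h4, (key p hp).2.2, (key q hq).2.2]⟩

theorem Gauss.res (h : P.Gauss F Y) : P.res (Subfield.closure (F ∪ Set.range Y)) =
    Subfield.closure (P.res F ∪ Set.range (P.r ∘ Y)) := by
  refine le_antisymm (fun y hy => ?_) (Subfield.closure_le.2 (union_subset
    (res_mono fun a ha => Subfield.subset_closure (Or.inl ha))
    (range_subset_iff.2 fun i => r_mem_res (Subfield.subset_closure (Or.inr ⟨i, rfl⟩)))))
  obtain ⟨x, hx, h1, rfl⟩ := mem_res.1 hy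
  obtain ⟨p, q, hp, hq, h2, rfl⟩ := h.exists_frac hx h1
  have key : ∀ p : MvPolynomial ι K, (∀ m, p.coeff m ∈ F ∧ P.v (p.coeff m) ≤ 1) →
      P.r (eval Y p) ∈ Subfield.closure (P.res F ∪ Set.range (P.r ∘ Y)) := fun p hp => by
    rw [(v_eval_le (fun m => (hp m).2) h.1).2]
    refine eval_mem (fun m _ => Subfield.subset_closure ?_) fun i => Subfield.subset_closure ?_
    exacts [Or.inl (r_mem_res (hp m).1), Or.inr ⟨i, rfl⟩]
  rw [r_div (v_eval_le (fun m => (hp m).2) h.1).1 h2]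
  exact div_mem (key p hp) (key q hq)

end gauss

section poly

open Polynomial

theorem coeff_prod {s : Multiset K} (h : ∀ b ∈ s, P.v b ≤ 1) (n : ℕ) :
    P.v ((s.map (X - C ·)).prod.coeff n) ≤ 1 ∧ P.r ((s.map (X - C ·)).prod.coeff n) =
      (s.map fun b => X - C (P.r b)).prod.coeff n := by
  lift s to Multiset P.O using fun b hb => P.mem_iff.2 (h b hb)
  have h1 : ∀ {A : Type} [CommRing A] (f : P.O →+* A),
      (s.map fun b => X - C (f b)).prod.coeff n = f ((s.map (X - C ·)).prod.coeff n) := fun f => by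
    rw [← coeff_map, Polynomial.map_multiset_prod, Multiset.map_map]
    simp
  rw [Multiset.map_map, Multiset.map_map]
  simp only [Function.comp_def, r_coe]
  have h2 := h1 P.O.subtype
  simp only [ValuationSubring.coe_subtype] at h2
  rw [h1 P.ρ, h2]
  exact ⟨P.mem_iff.1 (Subtype.prop _), P.r_coe _⟩

theorem res_acl [IsAlgClosed K] : P.res (acl (F : Set K)) = acl (P.res F : Set R) := by
  refine le_antisymm res_acl_le fun y hy => ?_
  have h1 := (mem_acl_subfield.1 hy).isIntegral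
  let A : Subring K := F.toSubring ⊓ P.O.toSubring
  obtain ⟨p, h2, -, h3⟩ := lifts_and_natDegree_eq_and_monic
    (f := P.ρ.comp (Subring.inclusion (inf_le_right : A ≤ _)))
    ((lifts_iff_coeff_lifts ((minpoly (P.res F) y).map (P.res F).subtype)).2 fun n => by
      rw [coeff_map]
      obtain ⟨x, h4, h5, h6⟩ := mem_res.1 ((minpoly (P.res F) y).coeff n).2
      exact ⟨⟨x, h4, P.mem_iff.2 h5⟩, (r_eq h5).symm.trans h6⟩) ((minpoly.monic h1).map _)
  have h4 := h3.map A.subtype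
  have h5 : ∀ b ∈ (p.map A.subtype).roots, eval b (p.map A.subtype) = 0 := fun b hb =>
    (mem_roots h4.ne_zero).1 hb
  have h6 : (minpoly (P.res F) y).map (P.res F).subtype =
      ((p.map A.subtype).roots.map fun b => X - C (P.r b)).prod := Polynomial.ext fun n => by
    rw [← (coeff_prod (fun b hb => P.mem_iff.1 (mem_of_isIntegral (A := A) (fun a ha => ha.2)
      ⟨p, h3, (eval_map _ _).symm.trans (h5 b hb)⟩)) n).2,
      ← (IsAlgClosed.splits _).eq_prod_roots_of_monic h4, ← h2, coeff_map, coeff_map]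
    exact (r_eq (P.mem_iff.1 (p.coeff n).2.2)).symm
  have h7 : eval y ((minpoly (P.res F) y).map (P.res F).subtype) = 0 :=
    (eval_map _ _).trans (minpoly.aeval _ y)
  rw [h6, eval_multiset_prod, Multiset.prod_eq_zero_iff, Multiset.map_map] at h7
  obtain ⟨b, hb, e⟩ := Multiset.mem_map.1 h7
  refine ⟨b, mem_acl_of_poly h4.ne_zero (fun n => subset_acl _ ?_) (h5 b hb), ?_⟩
  · rw [coeff_map]
    exact (p.coeff n).2.1
  · exact (sub_eq_zero.1 (by simpa using e)).symm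

/-- The size of `τ` is independent of the sizes in `F`. -/
def Tr (P : Plc K R) (F : Subfield K) (τ : K) : Prop :=
  ∀ n : ℕ, n ≠ 0 → ∀ c ∈ F, P.v τ ^ n ≠ P.v c

theorem Tr.ne_zero (h : P.Tr F τ) : τ ≠ 0 := fun e => h 1 one_ne_zero 0 (zero_mem F) (by simp [e])

theorem Tr.mono (h : P.Tr L τ) (h' : F ≤ L) : P.Tr F τ := fun n hn c hc => h n hn c (h' hc)

theorem Tr.zpow (h : P.Tr F τ) {s : ℤ} (hs : s ≠ 0) (hx : x ∈ F) : P.v τ ^ s ≠ P.v x := by
  obtain ⟨n, rfl | rfl⟩ := s.eq_nat_or_neg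
  · simpa using h n (by simpa using hs) x hx
  · simpa [inv_eq_iff_eq_inv] using h n (by simpa using hs) _ (inv_mem hx)

theorem tr_of_triv (h : P.Triv F) (h0 : τ ≠ 0) (h1 : P.v τ ≠ 1) : P.Tr F τ := fun n hn c hc e => by
  rcases eq_or_ne c 0 with rfl | h2
  · exact pow_ne_zero n (P.v_ne h0) (e.trans (map_zero _))
  · exact h1 ((pow_eq_one_iff_left hn).1 (e.trans (h.v_eq hc h2)))

theorem tr_of_small (h0 : τ ≠ 0) (h : ∀ c ∈ F, c ≠ 0 → P.v τ < P.v c) :
    P.Tr F τ := fun n hn c hc e =>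
  ((pow_le_of_le_one zero_le (by simpa using (h 1 (one_mem F) one_ne_zero).le) hn).trans_lt
    (h c hc fun e' => pow_ne_zero n (P.v_ne h0) (by simp [e, e']))).ne e

theorem tr_comp {Q : Plc R R'} (h : P.v τ = 1) (h' : Q.Tr (P.res F) (P.r τ)) :
    (P.comp Q).Tr F τ := fun n hn c hc e => by
  have h0 : τ ≠ 0 := fun e => by simp [e] at h
  have h1 : c ≠ 0 := fun e' => pow_ne_zero n ((P.comp Q).v_ne h0) (by simp [e, e'])
  have h2 := (comp_eq_one Q).1 (show (P.comp Q).v (τ ^ n / c) = 1 by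
    rw [map_div₀, map_pow, e, div_self ((P.comp Q).v_ne h1)])
  have h3 : P.v c = 1 := by simpa [h] using h2.1
  have h4 := h2.2
  rw [r_div (v_pow_le h.le n) h3, r_pow h.le, map_div₀, map_pow,
    div_eq_one_iff_eq (Q.v_ne (r_ne_zero_iff.2 h3))] at h4
  exact h' n hn _ (r_mem_res hc) h4

theorem Tr.exists_max (h : P.Tr F τ) {p : K[X]} (hp : ∀ n, p.coeff n ∈ F) (h0 : p ≠ 0) :
    ∃ j, p.coeff j ≠ 0 ∧ (∀ i ≠ j, P.v (p.coeff i * τ ^ i) < P.v (p.coeff j * τ ^ j)) ∧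
      P.r (p.eval τ / (p.coeff j * τ ^ j)) = 1 := by
  obtain ⟨j, hj, h1⟩ := p.support.exists_max_image (fun i => P.v (p.coeff i * τ ^ i))
    (support_nonempty.2 h0)
  have h2 := mem_support_iff.1 hj
  have h3 : p.coeff j * τ ^ j ≠ 0 := mul_ne_zero h2 (pow_ne_zero j h.ne_zero)
  have h4 : ∀ i ≠ j, P.v (p.coeff i * τ ^ i) < P.v (p.coeff j * τ ^ j) := fun i hi => by
    by_cases h4 : i ∈ p.support
    · refine (h1 i h4).lt_of_ne fun e => h.zpow (s := i - j) (by omega)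
        (div_mem (hp j) (hp i)) ?_
      rw [map_mul, map_mul, map_pow, map_pow] at e
      rw [zpow_natCast_sub_natCast₀ (P.v_ne h.ne_zero), map_div₀, div_eq_div_iff
        (pow_ne_zero j (P.v_ne h.ne_zero)) (P.v_ne (mem_support_iff.1 h4)), mul_comm, e]
    · simpa [notMem_support_iff.1 h4] using P.v_pos h3
  refine ⟨j, h2, h4, ?_⟩
  have h5 : P.v ((∑ i ∈ p.support.erase j, p.coeff i * τ ^ i) / (p.coeff j * τ ^ j)) < 1 :=
    (P.v_div_lt_one h3).2 (P.v.map_sum_lt (P.v_ne h3) fun i hi => h4 i (Finset.ne_of_mem_erase hi))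
  rw [eval_eq_sum, Polynomial.sum, ← Finset.add_sum_erase _ _ hj, add_div, div_self h3,
    r_add (by simp) h5.le, r_of_lt h5, r_one, add_zero]

theorem v_eq_of_r_div (h : P.r (x / y) = 1) : P.v x = P.v y := by
  have h1 := r_ne_zero_iff.1 (h ▸ one_ne_zero : P.r (x / y) ≠ 0)
  rw [map_div₀] at h1
  exact (div_eq_one_iff_eq fun e => by simp [e] at h1).1 h1

theorem Tr.v_eval (h : P.Tr F τ) {p : K[X]} (hp : ∀ n, p.coeff n ∈ F) (n : ℕ) :
    P.v (p.coeff n * τ ^ n) ≤ P.v (p.eval τ) := by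
  rcases eq_or_ne p 0 with rfl | h0
  · simp
  obtain ⟨j, -, h1, h2⟩ := h.exists_max hp h0
  rw [v_eq_of_r_div h2]
  rcases eq_or_ne n j with rfl | h3
  exacts [le_rfl, (h1 n h3).le]

theorem Tr.notMem (h : P.Tr F τ) : τ ∉ acl (F : Set K) := fun h' => by
  obtain ⟨p, h0, hp, e⟩ := exists_apoly h'
  obtain ⟨j, -, -, h1⟩ := h.exists_max hp h0
  simp [e] at h1

theorem Tr.approx (h : P.Tr F τ) (hx : x ∈ Subfield.closure (F ∪ {τ})) (h0 : x ≠ 0) :
    ∃ c ∈ F, ∃ s : ℤ, P.r (x / (c * τ ^ s)) = 1 := by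
  obtain ⟨a, ha, b, hb, rfl⟩ := Subfield.mem_closure_iff.1 hx
  obtain ⟨⟨p, hp, rfl⟩, q, hq, rfl⟩ := And.intro (exists_upoly ha) (exists_upoly hb)
  obtain ⟨i, -, -, hi⟩ := h.exists_max hp fun e => by simp [e] at h0
  obtain ⟨j, -, -, hj⟩ := h.exists_max hq fun e => by simp [e] at h0
  refine ⟨_, div_mem (hp i) (hq j), i - j, ?_⟩
  rw [zpow_natCast_sub_natCast₀ h.ne_zero, ← mul_div_mul_comm, div_div_div_comm,
    r_div (r_ne_zero_iff.1 (hi ▸ one_ne_zero)).le (r_ne_zero_iff.1 (hj ▸ one_ne_zero)), hi, hj,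
    div_one]

theorem Tr.exists_v (h : P.Tr F τ) (hx : x ∈ Subfield.closure (F ∪ {τ})) :
    ∃ c ∈ F, ∃ s : ℤ, P.v x = P.v c * P.v τ ^ s := by
  rcases eq_or_ne x 0 with rfl | h0
  · exact ⟨0, zero_mem F, 0, by simp⟩
  obtain ⟨c, hc, s, e⟩ := h.approx hx h0
  exact ⟨c, hc, s, by rw [v_eq_of_r_div e, map_mul, map_zpow₀]⟩

theorem Tr.res (h : P.Tr F τ) : P.res (Subfield.closure (F ∪ {τ})) = P.res F := by
  refine le_antisymm ?_ (res_mono fun a ha => Subfield.subset_closure (Or.inl ha))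
  rintro _ ⟨x, hx, rfl⟩
  by_cases h1 : P.r x = 0
  · exact h1 ▸ zero_mem _
  have h2 := r_ne_zero_iff.1 h1
  obtain ⟨c, hc, s, e⟩ := h.approx hx fun e => by simp [e] at h1
  have h3 := h2.symm.trans (v_eq_of_r_div e)
  obtain rfl : s = 0 := by_contra fun hs => h.zpow hs (inv_mem hc) (by
    rw [map_mul, map_zpow₀] at h3
    rw [map_inv₀, eq_inv_of_mul_eq_one_right h3.symm])
  rw [zpow_zero, mul_one] at e h3
  rw [r_div h2.le h3.symm, div_eq_one_iff_eq (r_ne_zero_iff.2 h3.symm)] at e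
  exact e ▸ r_mem_res hc

end poly

theorem exists_pow_v (hx : x ∈ acl (F : Set K)) :
    ∃ q : ℕ, 0 < q ∧ ∃ c ∈ F, P.v x ^ q = P.v c := by
  by_contra h
  exact Tr.notMem (P := P) (fun n hn c hc e => h ⟨n, Nat.pos_of_ne_zero hn, c, hc, e⟩) hx

theorem Triv.acl (h : P.Triv F) : P.Triv (acl (F : Set K)) := fun x hx => by
  obtain ⟨q, hq, c, hc, e⟩ := exists_pow_v (P := P) hx
  exact (pow_le_one_iff hq.ne').1 (e.trans_le (h c hc))

theorem Gauss.exists_pow_v (h : P.Gauss F Y) (hx : x ∈ E.acl (F ∪ Set.range Y)) :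
    ∃ q : ℕ, 0 < q ∧ ∃ c ∈ F, P.v x ^ q = P.v c := by
  obtain ⟨q, hq, c, hc, e⟩ := Plc.exists_pow_v (P := P) ((acl_closure _).ge hx)
  obtain ⟨d, hd, e'⟩ := h.exists_v hc
  exact ⟨q, hq, d, hd, e.trans e'⟩

theorem Gauss.triv (h : P.Gauss F Y) (h' : P.Triv F) : P.Triv (E.acl (F ∪ Set.range Y)) :=
  fun x hx => by
    obtain ⟨q, hq, c, hc, e⟩ := h.exists_pow_v hx
    exact (pow_le_one_iff hq.ne').1 (e.trans_le (h' c hc))

theorem Gauss.res_acl_le (h : P.Gauss F Y) :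
    P.res (E.acl (F ∪ Set.range Y)) ≤ E.acl (P.res F ∪ Set.range (P.r ∘ Y)) := by
  rw [← acl_closure, ← acl_closure (_ ∪ Set.range (P.r ∘ Y)), ← h.res]
  exact Plc.res_acl_le

theorem Gauss.res_acl [IsAlgClosed K] (h : P.Gauss F Y) :
    P.res (E.acl (F ∪ Set.range Y)) = E.acl (P.res F ∪ Set.range (P.r ∘ Y)) := by
  rw [← acl_closure, Plc.res_acl, h.res, acl_closure]

theorem Tr.res_acl_le (h : P.Tr F τ) : P.res (acl (F ∪ {τ})) ≤ acl (P.res F : Set R) := by
  rw [← acl_closure, ← h.res]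
  exact Plc.res_acl_le

/-- Independent residues lift to a Gauss family. -/
theorem exists_gauss_lift {W : ι → R} (hW : ∀ i, W i ∈ P.res L) (h : Ind (P.res F : Set R) W) :
    ∃ Y : ι → K, (∀ i, Y i ∈ L) ∧ P.r ∘ Y = W ∧ P.Gauss F Y := by
  choose Y h1 h2 h3 using fun i => mem_res.1 (hW i)
  exact ⟨Y, h1, funext h3, h2, by rwa [show P.r ∘ Y = W from funext h3]⟩

theorem abh_aux {U : Set R} (hU : U.Finite) (h : U ⊆ P.res L) :
    ∃ Y : Fin (trd (P.res F) U) → K, (∀ i, Y i ∈ L) ∧ (∀ i, P.r (Y i) ∈ U) ∧ P.Gauss F Y ∧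
      U ⊆ acl (P.res F ∪ range (P.r ∘ Y)) := by
  obtain ⟨W, h1, h2, h3⟩ := exists_trd_basis (P.res F : Set R) hU
  obtain ⟨Y, h4, rfl, h5⟩ := exists_gauss_lift (fun i => h (h1 i)) h2
  exact ⟨Y, h4, h1, h5, h3⟩

/-- The transcendence degree does not grow under reduction. -/
theorem abh {U : Set R} (hS : S.Finite) (hU : U.Finite) (h : U ⊆ P.res (acl (F ∪ S))) :
    trd (P.res F) U ≤ trd F S := by
  obtain ⟨Y, h1, -, h2, -⟩ := abh_aux (F := F) hU h
  simpa [h2.ind.trd_range] using trd_le hS (range_subset_iff.2 h1)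

theorem Gauss.full (h : P.Gauss F Y) : P.Full F (E.acl (F ∪ Set.range Y)) :=
  ⟨subset_union_left.trans (subset_acl _), Set.range Y, subset_union_right.trans (subset_acl _),
    h.range, le_rfl⟩

/-- Equality in `abh` gives a Gauss transcendence basis. -/
theorem exists_gauss_basis {U : Set R} (hS : S.Finite) (hU : U.Finite)
    (h : U ⊆ P.res (acl (F ∪ S))) (h' : trd F S ≤ trd (P.res F) U) :
    ∃ Y : Fin (trd (P.res F) U) → K, (∀ i, P.r (Y i) ∈ U) ∧ P.Gauss F Y ∧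
      acl (F ∪ S) = acl (F ∪ range Y) := by
  obtain ⟨Y, h1, h2, h3, -⟩ := abh_aux (F := F) hU h
  refine ⟨Y, h2, h3, acl_congr (union_subset (subset_union_left.trans (subset_acl _)) ?_)
    (union_subset (subset_union_left.trans (subset_acl _)) (range_subset_iff.2 h1))⟩
  have h4 := trd_le hS (union_subset (range_subset_iff.2 h1)
    (subset_union_right.trans (subset_acl ((F : Set K) ∪ S))))
  rw [trd_union (finite_range Y) hS, h3.ind.trd_range, Fintype.card_fin] at h4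
  exact (trd_eq_zero_iff hS).1 (by omega)

theorem full_of_trd {U : Set R} (hS : S.Finite) (hU : U.Finite) (h : U ⊆ P.res (acl (F ∪ S)))
    (h' : trd F S ≤ trd (P.res F) U) :
    P.Full F (acl (F ∪ S)) ∧ P.res (acl (F ∪ S)) ≤ acl (P.res F ∪ U) := by
  obtain ⟨Y, h1, h2, h3⟩ := exists_gauss_basis hS hU h h'
  rw [h3]
  exact ⟨h2.full, h2.res_acl_le.trans
    (acl_mono (union_subset_union_right _ (range_subset_iff.2 h1)))⟩

theorem Full.refl (P : Plc K R) (F : Subfield K) : P.Full F F :=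
  ⟨le_rfl, ∅, empty_subset _, gauss_empty, subset_union_left.trans (subset_acl _)⟩

theorem Full.acl (h : P.Full F L) : P.Full F (acl (L : Set K)) :=
  let ⟨h1, B, h2, h3, h4⟩ := h
  ⟨h1.trans (subset_acl _), B, h2.trans (subset_acl _), h3, acl_le h4⟩

theorem Full.exists_pow_v (h : P.Full F L) (hx : x ∈ E.acl (L : Set K)) :
    ∃ q : ℕ, 0 < q ∧ ∃ c ∈ F, P.v x ^ q = P.v c :=
  let ⟨_, _, _, h3, h4⟩ := h
  h3.exists_pow_v (by rw [Subtype.range_coe]; exact acl_le h4 hx)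

theorem Full.exists_v [IsAlgClosed K] (h : P.Full F L) (hx : x ∈ E.acl (L : Set K)) :
    ∃ c ∈ E.acl (F : Set K), P.v x = P.v c := by
  obtain ⟨q, hq, c, hc, e⟩ := h.exists_pow_v hx
  obtain ⟨d, rfl⟩ := IsAlgClosed.exists_pow_nat_eq c hq
  refine ⟨d, mem_acl_of_isAlgebraic (IsAlgebraic.of_pow hq
    (isAlgebraic_algebraMap (⟨_, subset_acl _ hc⟩ : E.acl (F : Set K)))), ?_⟩
  rwa [map_pow, pow_left_inj₀ zero_le zero_le hq.ne'] at e

theorem Full.trans (h : P.Full F L) (h' : P.Full L M) : P.Full F M := by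
  obtain ⟨⟨h1, B, h2, h3, h4⟩, h5, B', h6, h7, h8⟩ := And.intro h h'
  have h9 := (h3.sum h7 h1 fun i => h2 i.2).range
  rw [Sum.elim_range, Subtype.range_coe, Subtype.range_coe] at h9
  exact ⟨h1.trans h5, _, union_subset h6 (h2.trans h5), h9, h8.trans (acl_le (union_subset
    ((show (L : Set K) ⊆ _ from h4).trans
      (acl_mono (union_subset_union_right _ subset_union_right)))
    ((subset_union_left.trans subset_union_right).trans (subset_acl _))))⟩

theorem Full.triv (h : P.Full F L) (h' : P.Triv F) : P.Triv (E.acl (L : Set K)) := fun x hx => by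
  obtain ⟨q, hq, c, hc, e⟩ := h.exists_pow_v hx
  exact (pow_le_one_iff hq.ne').1 (e.trans_le (h' c hc))

theorem Full.tr (h : P.Full F L) (h' : P.Tr F τ) : P.Tr L τ := fun n hn x hx e => by
  obtain ⟨q, hq, c, hc, e'⟩ := h.exists_pow_v (subset_acl _ hx)
  exact h' (n * q) (mul_ne_zero hn hq.ne') c hc (by rw [pow_mul, e, e'])

theorem Tr.acl (h : P.Tr F τ) : P.Tr (acl (F : Set K)) τ := (Full.refl P F).acl.tr h

theorem Agree.full (h : P.Agree Q L) (h' : P.Full F L) : Q.Full F L :=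
  let ⟨h1, B, h2, h3, h4⟩ := h'
  ⟨h1, B, h2, h.gauss h1 (fun i => h2 i.2) h3, h4⟩

/-- Adjoining a lifted field that is free from the residue field gives a full extension. -/
theorem full_of_lifts' [IsAlgClosed K] {φ : K →+* R} (hk : k ⊆ F) (hP : P.Lifts φ T)
    (hP' : P.Lifts φ k) (h : Free (φ '' k) (φ '' T) (P.res F)) :
    P.Full F (acl (F ∪ T)) ∧ P.res (acl (F ∪ T)) = acl (P.res F ∪ φ '' T) := by
  obtain ⟨B, -, h1, h2, h3⟩ := exists_basis (mt k).empty_indep (empty_subset T)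
  have e : P.r ∘ ((↑) : B → K) = φ ∘ ((↑) : B → K) := funext fun b => (hP b (h1 b.2)).2
  have h4 : P.Gauss F ((↑) : B → K) := ⟨fun b => (hP b (h1 b.2)).1, by
    rw [e]
    exact (h.ind (fun b : B => subset_acl _ (Or.inr ⟨b, h1 b.2, rfl⟩))
      ((ind_map φ (v := ((↑) : B → K))).2 h2)).anti (subset_union_right.trans (subset_acl _))⟩
  have h5 : acl ((F : Set K) ∪ T) = acl (F ∪ range ((↑) : B → K)) := by
    rw [Subtype.range_coe]
    exact acl_congr (union_subset (subset_union_left.trans (subset_acl _))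
      (h3.trans (acl_mono (union_subset_union_left _ hk))))
      ((union_subset_union_right _ h1).trans (subset_acl _))
  rw [h5, h4.res_acl, e, range_comp, Subtype.range_coe]
  refine ⟨by simpa using h4.full, acl_congr
    ((union_subset_union_right _ (image_mono h1)).trans (subset_acl _))
    (union_subset (subset_union_left.trans (subset_acl _))
      ((image_mono h3).trans ((map_acl_le φ _).trans (acl_mono ?_))))⟩
  rw [image_union]
  exact union_subset_union_left _ (image_subset_iff.2 fun a ha => ⟨a, hk ha, (hP' a ha).2⟩)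

theorem full_of_lifts [IsAlgClosed K] {φ : K →+* R} (hk : k ⊆ F) (hP : P.Lifts φ (acl (k ∪ T)))
    (h : Free (φ '' k) (φ '' T) (P.res F)) :
    P.Full F (acl (F ∪ T)) ∧ P.res (acl (F ∪ T)) = acl (P.res F ∪ φ '' T) :=
  full_of_lifts' hk (hP.mono (subset_union_right.trans (subset_acl _)))
    (hP.mono (subset_union_left.trans (subset_acl _))) h

end Plc

end Pool.Agent.P.MP_f17f76_ag.E
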