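import Pool.Agent.P.MP_f17f76_ag.E.Hol3
import Pool.Agent.P.MP_f17f76_ag.E.AnRoot
import Pool.Agent.P.MP_f17f76_ag.E.PlcB

/-!
Extension of stable embeddings to algebraic extensions and to new variables.
-/

namespace Pool.Agent.P.MP_f17f76_ag.N

open Set Filter Topology Metric E Cardinal

set_option linter.unusedSectionVars false

noncomputable section

variable {I R K L σ : Type} [Fintype I] [CommRing R] [Field K] [Field L] {T : ℝ*} {g : H I}

section
open Polynomial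

/-- A simple root at the origin extends to a root function. -/
theorem exists_root_H {Q : (H I)[X]} (hm : Q.Monic) (hs : Q.Separable) {y : Cs}
    (hy : Q.eval₂ (ev 0) y = 0) : ∃ b : H I, ev 0 b = y ∧ Q.eval b = 0 := by
  obtain ⟨d, a, rfl⟩ : ∃ (d : ℕ) (a : Fin d → H I), Q = X ^ d + ∑ i, C (a i) * X ^ (i : ℕ) :=
    ⟨_, _, hm.as_sum.trans (by rw [Finset.sum_range])⟩
  obtain ⟨f, rfl⟩ := exists_reps a
  obtain ⟨y, rfl⟩ := qs_surj y
  have e : ∀ u v, Pt (vec u) → (X ^ d + ∑ i, C (H.mk (f i)) * X ^ (i : ℕ)).eval₂ (ev (vec u)) (qs v) =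
      qs fun n => v n ^ d + ∑ i, (f i).1 n (u n) * v n ^ (i : ℕ) := fun u v hu => by
    simp only [eval₂_add, eval₂_pow, eval₂_X, eval₂_finsetSum, eval₂_mul, eval₂_C, ev_mk hu,
      ← map_pow, ← map_mul, ← map_sum, ← map_add]
    exact congrArg qs (funext fun n => by simp)
  have h1 := (forall_seq (X := (I → ℂ) × ℂ) (p := fun n z => z.1 ∈ ball 0 1 →
      z.2 ^ d + ∑ i, (f i).1 n z.1 * z.2 ^ (i : ℕ) = 0 →
      d * z.2 ^ (d - 1) + ∑ i, (f i).1 n z.1 * ((i : ℕ) * z.2 ^ ((i : ℕ) - 1)) ≠ 0)).1 fun w => by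
    rw [Ultrafilter.eventually_imp, Ultrafilter.eventually_imp]
    intro h2 h3
    have hu := pt_vec.2 h2
    have := hs.eval₂_derivative_ne_zero _ ((e _ _ hu).trans (qs_eq_zero.2 h3))
    simp only [derivative_add, derivative_X_pow, derivative_sum, derivative_C_mul, eval₂_add,
      eval₂_pow, eval₂_X, eval₂_finsetSum, eval₂_mul, eval₂_C, ev_mk hu, map_natCast,
      eval₂_natCast] at this
    simp only [← map_natCast qs, ← map_pow, ← map_mul, ← map_sum, ← map_add] at this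
    exact (qs_ne_zero.1 this).mono fun n hn => by simpa using hn
  obtain ⟨b, hb⟩ := ((h1.and (qs_eq_zero.1 ((e 0 y .zero).symm.trans hy))).mono fun n h =>
    root_branch (fun i => (f i).1 n) (fun i => (f i).2 n) (fun z hz y => h.1 (z, y) hz) h.2).choice
  obtain ⟨b', hb'⟩ := exists_H (hb.mono fun _ h => h.1)
  refine ⟨H.mk b', ev_zero_mk b' ▸ qs_eq.2 ((hb.and hb').mono fun n h => h.2 ▸ h.1.2.1),
    H.ext fun x hx => ?_⟩
  obtain ⟨u, rfl⟩ := vec_surj x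
  rw [← eval₂_at_apply, ev_mk hx, e _ _ hx, map_zero, qs_eq_zero]
  filter_upwards [hb, hb', pt_vec.1 hx] with n h1 h2 h3
  exact h2 ▸ h1.2.2 _ h3

/-- Algebraic functions over a stable field are stable. -/
theorem stab_of_root {ι : K →+* H I} (hι : StabH ι) {Q : K[X]} (hQ : Q ≠ 0)
    (h : Q.eval₂ ι g = 0) (h0 : ev 0 g ≠ 0) : Stab g := by
  set c := fun i => ev 0 (ι (Q.coeff i)) * ev 0 g ^ i with hc
  obtain ⟨j, h1, h2⟩ := Q.support.exists_max_image (fun i => nm (c i)) (support_nonempty.2 hQ)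
  have h3 : ∀ i ∈ Q.support, c i ≠ 0 := fun i hi =>
    mul_ne_zero (hι _ (mem_support_iff.1 hi)).1 (pow_ne_zero _ h0)
  have h4 : ∀ i ∈ Q.support, Pst.v (c i / c j) ≤ 1 := fun i hi =>
    (Pst.v_div_le_one (h3 j h1)).2 ((pst_le_iff (h3 j h1)).2 (.of_le (h2 i hi)))
  set q : ℂ[X] := ∑ i ∈ Q.support, monomial i (Pst.r (c i / c j)) with hq
  have h5 : q ≠ 0 := fun e => by
    simpa [hq, coeff_monomial, h1, h3 j h1, mem_support_iff.1 h1] using congrArg (·.coeff j) e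
  have h6 : ∀ x, Pt x → Pst.v (ev x g / ev 0 g) ≤ 1 → q.IsRoot (Pst.r (ev x g / ev 0 g)) := by
    intro x hx ht
    have h7 := fun i (hi : i ∈ Q.support) => stab_iff.1 (hι _ (mem_support_iff.1 hi)) x hx
    have h8 := fun i hi => (Plc.r_ne_zero_iff.1 (h7 i hi ▸ one_ne_zero)).le
    have h9 := Plc.r_sum fun i hi => Plc.v_mul_le (h8 i hi) (Plc.v_mul_le (h4 i hi) (Plc.v_pow_le ht i))
    rw [Finset.sum_congr rfl fun i hi => show _ = ev x (ι (Q.coeff i) * g ^ i) / c j by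
      have := (hι _ (mem_support_iff.1 hi)).1
      simp only [hc, map_mul, map_pow, div_pow]
      field_simp, ← Finset.sum_div, ← map_sum, show ∑ i ∈ Q.support, ι (Q.coeff i) * g ^ i = 0 from
        eval₂_eq_sum.symm.trans h] at h9
    rw [IsRoot, hq, eval_finsetSum, ← Pst.r_zero, ← zero_div (c j), ← map_zero (ev x), h9]
    exact Finset.sum_congr rfl fun i hi => by
      rw [Plc.r_mul (h8 i hi) (Plc.v_mul_le (h4 i hi) (Plc.v_pow_le ht i)), h7 i hi, one_mul,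
        Plc.r_mul (h4 i hi) (Plc.v_pow_le ht i), Plc.r_pow ht, eval_monomial]
  refine ⟨h0, fun x hx => (lc_or_ll _ _).resolve_left fun h7 => ?_⟩
  obtain ⟨k, h8, h7⟩ := h7.pos (nm.nonneg _)
  refine Icc_infinite (show (0 : ℝ) < (k : ℝ)⁻¹ by positivity)
    (((finite_setOfPred_isRoot h5).image fun z => ‖z - 1‖).subset fun r hr => ?_)
  have h9 : (0 : ℝ*) ≤ r ∧ (r : ℝ*) ≤ (k : ℝ*)⁻¹ :=
    ⟨by exact_mod_cast hr.1, coe_nat k ▸ by exact_mod_cast hr.2⟩
  obtain ⟨y, hy, h10⟩ := exists_ivt hx (mul_nonneg h9.1 (nm.nonneg (ev 0 g)))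
    ((mul_le_mul_of_nonneg_right h9.2 (nm.nonneg _)).trans
      ((inv_mul_le_iff₀ (by positivity)).2 h7))
  rw [← div_eq_iff (nm.pos h0).ne', ← map_div₀, sub_div, div_self h0] at h10
  have h11 : Lc (nm (ev y g / ev 0 g)) 1 :=
    Lc.le_trans (by simpa [h10] using nm.add_le (ev y g / ev 0 g - 1) 1) ((lc_coe r).add (.refl 1))
  refine ⟨_, h6 y hy (pst_le.2 h11), ?_⟩
  have h12 := nm.abs_abv_sub_le_abv_sub (ev y g / ev 0 g - 1) (co (stc (ev y g / ev 0 g) - 1))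
  rw [h10, nm_co, map_sub co, map_one co, sub_sub_sub_cancel_right, ← Hyperreal.coe_sub,
    ← Hyperreal.coe_abs] at h12
  rw [pst_r h11]
  exact (sub_eq_zero.1 (abs_nonpos_iff.1 (Ll.le_trans h12 (near_stc h11)).coe_le)).symm

/-- Uniqueness of extensions. -/
theorem ext_unique {ι ι' : L →+* H I} {S : Set L} (h : ∀ b ∈ S, ι b = ι' b) {b : L} (hb : b ∈ acl S)
    (h0 : ev 0 (ι b) = ev 0 (ι' b)) : ι b = ι' b := by
  have := ι.charZero
  have hi := (mem_acl.1 hb).isIntegral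
  have h1 : ∀ κ : L →+* H I, ((minpoly (Subfield.closure S) b).map
      (κ.comp (algebraMap _ L))).IsRoot (κ b) := fun κ => by
    rw [IsRoot, eval_map, ← hom_eval₂, ← aeval_def, minpoly.aeval, map_zero]
  have h2 := h1 ι'
  rw [show ι'.comp (algebraMap (Subfield.closure S) L) = ι.comp (algebraMap _ L) from
    RingHom.ext fun a => (RingHom.eqOn_field_closure h a.2).symm] at h2
  obtain ⟨q, hq⟩ := dvd_iff_isRoot.2 (h1 ι)
  have h3 := ((minpoly.irreducible hi).separable.map (f := ι.comp (algebraMap _ L))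
    ).eval₂_derivative_ne_zero (ev 0) ((eval₂_at_apply _ _).trans (by rw [h1 ι, map_zero]))
  rw [hq] at h2 h3
  by_contra e
  refine h3 ?_
  have h4 : q.eval (ι' b) = 0 := by simpa [sub_eq_zero, Ne.symm e] using h2
  simp [h0, eval₂_at_apply, h4]

end

theorem exists_glue (W : Subring (H I)) (h : ∀ β ∈ W, ev 0 β = 0 → β = 0) (e : R →+* Cs)
    (h' : ∀ b, ∃ β ∈ W, ev 0 β = e b) : ∃ ι : R →+* H I, ∀ b, ι b ∈ W ∧ ev 0 (ι b) = e b := by
  choose β h1 h2 using h'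
  have h3 : ∀ b, ∀ γ ∈ W, ev 0 γ = e b → β b = γ := fun b γ h4 h5 =>
    sub_eq_zero.1 (h _ (sub_mem (h1 b) h4) (by rw [map_sub, h2, h5, sub_self]))
  exact ⟨⟨⟨⟨β, h3 _ _ (one_mem W) (by simp)⟩,
    fun a b => h3 _ _ (mul_mem (h1 a) (h1 b)) (by simp [h2])⟩, h3 _ _ (zero_mem W) (by simp),
    fun a b => h3 _ _ (add_mem (h1 a) (h1 b)) (by simp [h2])⟩, fun b => ⟨h1 b, h2 b⟩⟩

theorem ext_alg [Algebra K L] [Algebra.IsAlgebraic K L] {ι : K →+* H I} (hι : StabH ι)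
    (e : L →+* Cs) (he : ∀ a, e (algebraMap K L a) = ev 0 (ι a)) :
    ∃ ι' : L →+* H I, StabH ι' ∧ (∀ a, ι' (algebraMap K L a) = ι a) ∧ ∀ b, ev 0 (ι' b) = e b := by
  let := ι.toAlgebra
  have := ι.charZero
  have h0 : ∀ β ∈ (integralClosure K (H I)).toSubring, ev 0 β = 0 → β = 0 := fun β h h' =>
    by_contra fun e => ((IsIntegral.isUnit h e).map (ev 0)).ne_zero h'
  obtain ⟨ι', h⟩ := exists_glue _ h0 e fun b => by
    have hi := Algebra.IsIntegral.isIntegral (R := K) b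
    obtain ⟨β, h1, h2⟩ := exists_root_H ((minpoly.monic hi).map ι)
      (minpoly.irreducible hi).separable.map (y := e b) (by
        rw [Polynomial.eval₂_map, show (ev 0).comp ι = e.comp (algebraMap K L) from
          RingHom.ext fun a => (he a).symm, ← Polynomial.hom_eval₂, ← Polynomial.aeval_def,
          minpoly.aeval, map_zero])
    exact ⟨β, ⟨_, minpoly.monic hi, (Polynomial.eval_map _ _).symm.trans h2⟩, h1⟩
  refine ⟨ι', fun b hb => ?_, fun a => sub_eq_zero.1 (h0 _ (sub_mem (h _).1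
    (isIntegral_algebraMap (x := a))) (by rw [map_sub, (h _).2, he, sub_self])), fun b => (h b).2⟩
  obtain ⟨Q, h1, h2⟩ := (h b).1
  exact stab_of_root hι h1.ne_zero h2 ((h b).2 ▸ (map_ne_zero e).2 hb)

theorem exists_frac (f : R →+* L) {c : L} (h : c ∈ Subfield.closure (range f)) :
    ∃ r s, f s ≠ 0 ∧ c * f s = f r := by
  obtain ⟨_, h1, _, h2, rfl⟩ := Subfield.mem_closure_iff.1 h
  rw [show range f = f.range from rfl, Subring.closure_eq] at h1 h2
  obtain ⟨r, rfl⟩ := h1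
  obtain ⟨s, rfl⟩ := h2
  by_cases e : f s = 0
  exacts [⟨0, 1, by simp, by simp [e]⟩, ⟨r, s, e, div_mul_cancel₀ _ e⟩]

/-- Extension from a ring to a field that is algebraic over it. -/
theorem ext_ring (f : R →+* L) (ι : R →+* H I) (h0 : ∀ r, f r = 0 → ι r = 0)
    (h1 : ∀ r, f r ≠ 0 → Stab (ι r)) (hL : ∀ b : L, b ∈ acl (range f)) (e : L →+* Cs)
    (he : ∀ r, e (f r) = ev 0 (ι r)) :
    ∃ ι' : L →+* H I, StabH ι' ∧ (∀ r, ι' (f r) = ι r) ∧ ∀ b, ev 0 (ι' b) = e b := by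
  let W : Subring (H I) :=
    { carrier := {β | ∃ r s, f s ≠ 0 ∧ β * ι s = ι r}
      mul_mem' := fun ⟨r, s, h1, h2⟩ ⟨r', s', h3, h4⟩ => ⟨r * r', s * s', by simp [h1, h3], by
        rw [map_mul, map_mul, ← h2, ← h4, mul_mul_mul_comm]⟩
      one_mem' := ⟨1, 1, by simp, by simp⟩
      add_mem' := fun ⟨r, s, h1, h2⟩ ⟨r', s', h3, h4⟩ => ⟨r * s' + r' * s, s * s', by simp [h1, h3],
        by simp only [map_mul, map_add, ← h2, ← h4]; ring⟩
      zero_mem' := ⟨0, 1, by simp, by simp⟩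
      neg_mem' := fun ⟨r, s, h1, h2⟩ => ⟨-r, s, h1, by simp [h2]⟩ }
  have h2 : ∀ β ∈ W, β = 0 ∨ Stab β := fun β ⟨r, s, h3, h4⟩ => (eq_or_ne (f r) 0).imp
    (fun e => (mul_eq_zero.1 (h4.trans (h0 r e))).resolve_right (h1 s h3).ne_zero)
    fun e => Stab.of_mul (h4 ▸ h1 r e) (h1 s h3)
  have h3 : ∀ β ∈ W, ev 0 β = 0 → β = 0 := fun β h e => (h2 β h).resolve_right fun h' => h'.1 e
  obtain ⟨ι₁, h4⟩ := exists_glue W h3 (e.comp (Subfield.closure (range f)).subtype) fun c => by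
    obtain ⟨r, s, h5, h6⟩ := exists_frac f c.2
    obtain ⟨u, hu⟩ := (h1 s h5).isUnit.exists_left_inv
    have h7 : ι r * u * ι s = ι r := by rw [mul_assoc, hu, mul_one]
    refine ⟨_, ⟨r, s, h5, h7⟩, mul_right_cancel₀ (h1 s h5).1 ?_⟩
    rw [← map_mul, h7, ← he, ← he, ← h6, map_mul]
    rfl
  have : Algebra.IsAlgebraic (Subfield.closure (range f)) L := ⟨fun b => mem_acl.1 (hL b)⟩
  obtain ⟨ι', h5, h6, h7⟩ := ext_alg (ι := ι₁) (fun c hc => (h2 _ (h4 c).1).resolve_left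
    ((map_ne_zero ι₁).2 hc)) e fun c => (h4 c).2.symm
  refine ⟨ι', h5, fun r => (h6 ⟨f r, Subfield.subset_closure ⟨r, rfl⟩⟩).trans (sub_eq_zero.1
    (h3 _ (sub_mem (h4 _).1 ⟨r, 1, by simp, by simp⟩) ?_)), h7⟩
  rw [map_sub, (h4 _).2, ← he]
  exact sub_self _

theorem pg_ring (hT : Ll 1 T) (f : R →+* L) (hL : ∀ b : L, b ∈ acl (range f)) (e : L →+* Cs)
    (h : ∀ r, Poly T (nm (e (f r))) ∧ Poly T (nm (e (f r)))⁻¹) : PG T e := fun b => by
  have h1 : ∀ c : Subfield.closure (range f), e c ∈ Opoly hT := fun c => by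
    obtain ⟨r, s, h1, h2⟩ := exists_frac f c.2
    rw [mem_Opoly, eq_div_of_mul_eq h1 h2, map_div₀, map_div₀, div_eq_mul_inv]
    exact (h r).1.mul hT (h s).2 (inv_nonneg.2 (nm.nonneg _))
  obtain ⟨y, hy⟩ := IsIntegrallyClosed.isIntegral_iff.1 ((mem_acl.1 (hL b)).isIntegral.map_of_comp_eq
    ((e.comp (Subfield.subtype _)).codRestrict (Opoly hT) h1) e rfl)
  exact hy ▸ y.2

theorem mem_acl_range {F : Subfield K} (f : R →+* K) (hf : ∀ r, f r ∈ F) (hF : F ≤ acl (range f))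
    (b : F) : b ∈ acl (range (f.codRestrict F hf)) :=
  (mem_acl_map F.subtype).1 (by rw [← range_comp]; exact hF b.2)

theorem ext_sub {F : Subfield ℂ} (f : R →+* ℂ) (hf : ∀ r, f r ∈ F) (hF : F ≤ acl (range f))
    (ι : R →+* H I) (h0 : ∀ r, f r = 0 → ι r = 0) (h1 : ∀ r, f r ≠ 0 → Stab (ι r)) (e : F →+* Cs)
    (he : ∀ r, e ⟨f r, hf r⟩ = ev 0 (ι r)) :
    ∃ ι' : F →+* H I, StabH ι' ∧ (∀ r, ι' ⟨f r, hf r⟩ = ι r) ∧ ∀ b, ev 0 (ι' b) = e b :=
  ext_ring (f.codRestrict F hf) ι (fun r h => h0 r (congrArg Subtype.val h))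
    (fun r h => h1 r fun e => h (Subtype.ext e)) (mem_acl_range f hf hF) e he

theorem ext_sub' [Countable R] (hT : Ll 1 T) {F : Subfield ℂ} (f : R →+* ℂ) (hf : ∀ r, f r ∈ F)
    (hF : F ≤ acl (range f)) (ι : R →+* H I) (h0 : ∀ r, f r = 0 → ι r = 0)
    (h1 : ∀ r, f r ≠ 0 → Stab (ι r) ∧ Poly T (nm (ev 0 (ι r))) ∧ Poly T (nm (ev 0 (ι r)))⁻¹) :
    ∃ ι' : F →+* H I, StabH ι' ∧ PG T ((ev 0).comp ι') ∧ ∀ r, ι' ⟨f r, hf r⟩ = ι r := by
  obtain ⟨e, he⟩ := exists_hom_of_ker ((mk_set_le (F : Set ℂ)).trans mk_Cs.ge) (f.codRestrict F hf)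
    ((ev 0).comp ι) fun r => ⟨fun h => by simp [h0 r (congrArg Subtype.val h)],
      fun h => Subtype.ext (by_contra fun e => (h1 r e).1.1 h)⟩
  obtain ⟨ι', h2, h3, h4⟩ := ext_sub f hf hF ι h0 (fun r h => (h1 r h).1) e he
  refine ⟨ι', h2, fun b => (h4 b).symm ▸ pg_ring hT _ (mem_acl_range f hf hF) e (fun r => ?_) b, h3⟩
  rw [he]
  exact (eq_or_ne (f r) 0).elim (fun e => by simpa [h0 r e] using poly_zero) fun e => (h1 r e).2

open MvPolynomial

/-- Monomials in `v` are orthogonal over `e`. -/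
def Orth {σ : Type} (e : K →+* Cs) (v : σ → Cs) : Prop :=
  ∀ (p : MvPolynomial σ K) (m : σ →₀ ℕ),
    Lc (nm (e (p.coeff m) * m.prod fun i k => v i ^ k)) (nm (eval₂ e v p))

theorem lc_of_pst {x y : Cs} (h : Pst.v x ≤ Pst.v y) : Lc (nm x) (nm y) :=
  (eq_or_ne y 0).elim (fun e => by
    rw [e, map_zero, le_zero_iff, map_eq_zero] at h
    rw [h, e]
    exact .refl _) fun e => (pst_le_iff e).1 h

theorem orth_of_gauss {e : K →+* Cs} {F : Subfield Cs} (hF : ∀ c, e c ∈ F) {l v : σ → Cs}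
    (hl : ∀ i, l i ∈ F) (hv : Pst.Gauss F v) : Orth e fun i => l i * v i := fun p m => by
  classical
  have h1 : ∀ m, (∑ m ∈ p.support, monomial m (e (p.coeff m) * m.prod fun i k => l i ^ k)).coeff m =
      e (p.coeff m) * m.prod fun i k => l i ^ k := fun m => by
    by_cases h : p.coeff m = 0 <;> simp [coeff_sum, coeff_monomial, h]
  have h2 := hv.v_eval (fun m => h1 m ▸ mul_mem (hF _) (prod_mem fun i _ => pow_mem (hl i) _)) m
  refine lc_of_pst (le_trans ?_ (h2.trans_eq (congrArg _ ?_)))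
  · simp only [h1, mul_pow, Finsupp.prod_mul, ← mul_assoc]
    exact (map_mul _ _ _).trans_le (mul_le_of_le_one_right'
      (Plc.v_prod_le fun i _ => Plc.v_pow_le (hv.1 i) _))
  · simp only [eval₂_eq, map_sum, eval_monomial, mul_pow, Finsupp.prod, Finset.prod_mul_distrib,
      mul_assoc]

theorem Orth.eq_zero {e : K →+* Cs} {v : σ → Cs} (h : Orth e v) (hv : ∀ i, v i ≠ 0)
    {p : MvPolynomial σ K} (hp : eval₂ e v p = 0) : p = 0 := ext _ _ fun m => by
  obtain ⟨k, hk⟩ := h p m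
  rw [hp, map_zero, mul_zero, nm.nonpos_iff] at hk
  simpa [hv, Finsupp.prod, Finset.prod_eq_zero_iff] using hk

/-- New variables with a prescribed centre. -/
theorem new_sub {F F' : Subfield ℂ} (hF : F ≤ F') {Y : σ → ℂ} (hY : ∀ i, Y i ∈ F')
    (hF' : F' ≤ acl (F ∪ range Y)) {ι : F →+* H I} (hι : StabH ι) {u : σ → H I}
    (hu : ∀ i, Stab (u i)) (ho : Orth ((ev 0).comp ι) (evv 0 u)) (e : F' →+* Cs)
    (h1 : ∀ c : F, e ⟨c, hF c.2⟩ = ev 0 (ι c)) (h2 : ∀ i, e ⟨Y i, hY i⟩ = ev 0 (u i)) :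
    ∃ ι' : F' →+* H I, StabH ι' ∧ (∀ c : F, ι' ⟨c, hF c.2⟩ = ι c) ∧ (∀ i, ι' ⟨Y i, hY i⟩ = u i) ∧
      (∀ b, ev 0 (ι' b) = e b) ∧ ∀ T, Ll 1 T → PG T ((ev 0).comp ι) →
        (∀ i, Poly T (nm (ev 0 (u i))) ∧ Poly T (nm (ev 0 (u i)))⁻¹) → PG T e := by
  let f : MvPolynomial σ F →+* F' := eval₂Hom (Subfield.inclusion hF) fun i => ⟨Y i, hY i⟩
  have hL : ∀ b, b ∈ acl (range f) := fun b => (mem_acl_map F'.subtype).1 (acl_mono (by
    rintro c (hc | ⟨i, rfl⟩)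
    exacts [⟨_, ⟨C ⟨c, hc⟩, eval₂Hom_C _ _ _⟩, rfl⟩, ⟨_, ⟨X i, eval₂Hom_X' _ _ _⟩, rfl⟩])
    (hF' b.2))
  have h3 : ∀ p, ev 0 (eval₂Hom ι u p) = eval₂ ((ev 0).comp ι) (evv 0 u) p := fun p =>
    map_eval₂Hom _ _ _ _
  have he : ∀ p, e (f p) = ev 0 (eval₂Hom ι u p) := RingHom.congr_fun (f := e.comp f)
    (g := (ev 0).comp (eval₂Hom ι u)) (ringHom_ext (fun c => (congrArg e (eval₂Hom_C _ _ c)).trans
      ((h1 c).trans (congrArg _ (eval₂Hom_C _ _ c).symm)))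
      fun i => by simpa [f] using h2 i)
  have h4 : ∀ p, f p = 0 → p = 0 := fun p h =>
    ho.eq_zero (fun i => (hu i).1) (by rw [← h3, ← he, h, map_zero])
  obtain ⟨ι', h5, h6, h7⟩ := ext_ring f (eval₂Hom ι u) (fun p h => by rw [h4 p h, map_zero])
    (fun p h => ⟨he p ▸ (map_ne_zero e).2 h, fun x hx => by
      conv_lhs => rw [coe_eval₂Hom, eval₂_eq, map_sum, map_sum, ← Finset.sum_sub_distrib]
      refine Ll.le_trans (nm.sum_le _ _) (.sum (nm.nonneg _) fun m hm => (((hι _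
        (mem_support_iff.1 hm)).mul (.prod fun i _ => (hu i).pow _)).2 x hx).trans_lc ?_ (nm.nonneg _))
      simp only [h3, map_mul (ev 0), map_prod (ev 0), map_pow (ev 0)]
      exact ho p m⟩) hL e he
  refine ⟨ι', h5, fun c => (congrArg ι' (eval₂Hom_C _ _ c).symm).trans ((h6 _).trans (eval₂Hom_C _ _ c)),
    fun i => by simpa [f] using h6 (X i), h7,
    fun T hT h8 h9 => pg_ring hT f hL e fun p => ?_⟩
  rw [he, h3]
  refine ⟨eval₂_mem (s := Opoly hT) (fun m _ => h8 _) fun i => (h9 i).1, ?_⟩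
  rcases eq_or_ne p 0 with rfl | h
  · simpa using poly_zero
  obtain ⟨m, hm⟩ := ne_zero_iff.1 h
  refine .inv_of_lc hT (ho p m) (nm.pos (mul_ne_zero ((map_ne_zero _).2 hm)
    (Finset.prod_ne_zero_iff.2 fun i _ => pow_ne_zero _ (hu i).1))) (nm.nonneg _) ?_
  rw [← map_inv₀, ← mem_Opoly hT, mul_inv, ← map_inv₀, Finsupp.prod, ← Finset.prod_inv_distrib]
  exact mul_mem (h8 _) (prod_mem fun i _ => inv_pow (evv 0 u i) _ ▸
    pow_mem ((mem_Opoly hT).2 (map_inv₀ nm _ ▸ (h9 i).2)) _)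

/-- A centre for new variables exists. -/
theorem exists_centre [Countable σ] {F : Subfield ℂ} (hc : (F : Set ℂ).Countable)
    {Y : σ → ℂ} (hY : Ind (F : Set ℂ) Y) {e : F →+* Cs} {v : σ → Cs} (hv : ∀ i, v i ≠ 0)
    (ho : Orth e v) : ∃ e' : ℂ ≃+* Cs, (∀ c : F, e' c = e c) ∧ ∀ i, e' (Y i) = v i := by
  have : Countable F := hc
  have : Uncountable ℂ := Complex.ofReal_injective.uncountable
  obtain ⟨e', h⟩ := exists_equiv_of_ker mk_Cs.symm (eval₂Hom F.subtype Y) (eval₂Hom e v) fun p =>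
    ⟨fun h => by
      rw [map_injective _ F.subtype.injective ((ind_iff.1 hY (map F.subtype p) (fun m => by
        rw [coeff_map]
        exact subset_acl _ (p.coeff m).2) ((eval_map _ _ _).trans h)).trans (map_zero _).symm),
        map_zero], fun h => by rw [ho.eq_zero hv h, map_zero]⟩
  exact ⟨e', fun c => by simpa using h (C c), fun i => by simpa using h (X i)⟩

/-- Standard parameters that are free from the field and from its residues. -/
theorem const_sub {F : Subfield ℂ} (hc : (F : Set ℂ).Countable) {k S : Set ℂ} (hS : S.Countable)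
    (hk : acl k ≤ F) {ι : F →+* H I} (hι : StabH ι) (h0 : ∀ c : F, c.1 ∈ acl k → ι c = cn (co c))
    (h1 : Free k S F) (h2 : Free k S (Pst.res ((ev 0).comp ι).fieldRange)) :
    ∃ ι' : acl (F ∪ S : Set ℂ) →+* H I, StabH ι' ∧
      (∀ c : F, ι' ⟨c, subset_acl _ (.inl c.2)⟩ = ι c) ∧
      (∀ c : acl (F ∪ S : Set ℂ), c.1 ∈ acl (k ∪ S) → ι' c = cn (co c)) ∧
      (∀ T, Ll 1 T → PG T ((ev 0).comp ι) → PG T ((ev 0).comp ι')) ∧
      Pst.res ((ev 0).comp ι').fieldRange ≤ acl (Pst.res ((ev 0).comp ι).fieldRange ∪ S) := by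
  have : Uncountable ℂ := Complex.ofReal_injective.uncountable
  obtain ⟨B, -, h3, h4, h5⟩ := exists_basis (F := k) (Matroid.empty_indep _) (empty_subset S)
  have : Countable B := hS.mono h3
  have h6 : ∀ b : B, b.1 ∈ acl (k ∪ S) := fun b => subset_acl _ (.inr (h3 b.2))
  have hkF : k ⊆ F := (subset_acl k).trans hk
  have h7 : ∀ c, Pst.r (co c) = c := fun c => (pst_r (lc_co c)).trans (stc_co c)
  have h8 : Pst.Gauss ((ev 0).comp ι).fieldRange fun b : B => co b :=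
    ⟨fun b => pst_le.2 (lc_co _), by
      rw [show Pst.r ∘ (fun b : B => co b) = (↑) from funext fun b => h7 b]
      exact (h2.ind h6 h4).anti (subset_union_right.trans (subset_acl _))⟩
  have h9 := orth_of_gauss (l := 1) (RingHom.mem_fieldRange_self _) (fun _ => one_mem _) h8
  simp only [Pi.one_apply, one_mul] at h9
  have h10 := (h1.ind h6 h4).anti (subset_union_right.trans (subset_acl _))
  have h11 : ∀ b : B, co b ≠ 0 := fun b => (map_ne_zero co).2 (h10.ne_zero b)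
  obtain ⟨s, h12, h13⟩ := exists_centre hc h10 h11 h9
  have h14 : ∀ c ∈ acl k, (s : ℂ →+* Cs) c = co c := fun c h =>
    (h12 ⟨c, hk h⟩).trans (by simp [h0 ⟨c, hk h⟩ h])
  obtain ⟨w, h15, h16⟩ := amalg mk_Cs.symm (s : ℂ →+* Cs) co (hc.mono hkF) hc hS h1.symm
    (((free_map (s : ℂ →+* Cs)).2 (h1.symm.mono subset_rfl fun b hb => h6 ⟨b, hb⟩)).mono subset_rfl ((image_mono h5).trans ((map_acl_le co _).trans
      (acl_mono (by
        rw [← image_union]
        exact (image_congr fun c hc => hc.elim (fun h => (h14 c (subset_acl _ h)).symm)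
          fun h => (h13 ⟨c, h⟩).symm).subset))))) h14
  have h17 : acl (F ∪ S : Set ℂ) ≤ acl (F ∪ range ((↑) : B → ℂ)) := acl_le (union_subset
    (subset_union_left.trans (subset_acl _)) (h5.trans (acl_mono (union_subset_union hkF
      Subtype.range_coe.ge))))
  have h18 : ∀ c : F, w c = ev 0 (ι c) := fun c => (h15 _ (subset_acl _ (.inr c.2))).trans (h12 c)
  obtain ⟨ι', h19, h20, h21, h22, h23⟩ := new_sub (F' := acl (F ∪ S : Set ℂ))
    (fun c hc => subset_acl _ (.inl hc)) (fun b : B => subset_acl _ (.inr (h3 b.2))) h17 hι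
    (u := fun b => cn (co b)) (fun b => stab_cn (h11 b)) (by unfold evv; simpa using h9)
    ((w : ℂ →+* Cs).comp (Subfield.subtype _)) h18 fun b => (h16 _ (h6 b)).trans (ev_cn _ _).symm
  refine ⟨ι', h19, h20, fun c hc => ?_, fun T hT h c => (h22 c).symm ▸ h23 T hT h (fun b =>
    ⟨by simpa using poly_of_lc hT (lc_co b), by simpa using poly_of_lc hT (lc_co (b : ℂ)⁻¹)⟩) c, ?_⟩
  · refine ext_unique (ι := ι'.comp (Subfield.inclusion (acl_mono (union_subset_union_left S hkF))))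
      (ι' := cn.comp (co.comp (Subfield.subtype _))) (S := (↑) ⁻¹' (k ∪ B)) (b := ⟨c, hc⟩)
      (fun b hb => hb.elim (fun h => (h20 ⟨b, hkF h⟩).trans (h0 _ (subset_acl _ h)))
        fun h => h21 ⟨b, h⟩) ((mem_acl_map (Subfield.subtype _)).1 ?_)
      ((h22 _).trans ((h16 _ hc).trans (ev_cn _ _).symm))
    rw [Subfield.coe_subtype, image_preimage_eq_of_subset (Subtype.range_coe ▸
      (union_subset_union_right k h3).trans (subset_acl _))]
    exact acl_le (union_subset (subset_union_left.trans (subset_acl _)) h5) hc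
  · refine (Plc.res_mono ?_).trans (h8.res_acl_le.trans (acl_mono (union_subset_union_right _
      (range_subset_iff.2 fun b => mem_of_eq_of_mem (h7 b) (h3 b.2)))))
    rintro _ ⟨c, rfl⟩
    refine h22 c ▸ acl_mono ?_ (map_acl_le (w : ℂ →+* Cs) _ ⟨c, h17 c.2, rfl⟩)
    rintro _ ⟨x, hx | ⟨b, rfl⟩, rfl⟩
    exacts [.inl ⟨⟨x, hx⟩, (h18 _).symm⟩, .inr ⟨b, (h16 _ (h6 b)).symm⟩]

end

end Pool.Agent.P.MP_f17f76_ag.N
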