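import Pool.Agent.P.MP_f17f76_ag.E.Fam

/-!
Families of subspaces: elementary properties of gradings, actions, conjugates, restrictions.
-/

namespace Pool.Agent.P.MP_f17f76_ag.E

open Set Module Matrix

variable {K : Type} [Field K] {ι κ L Γ : Type} {p q : ι → Prop} {u x : ι → K} {i j : ι}
  {N N' G F : Submodule K (ι → K)} {r r' : Setoid ι} {k k' : Subfield K}

/-! ### cut and supp -/

open Classical in
theorem cut_apply (p : ι → Prop) (u : ι → K) (i : ι) : cut p u i = if p i then u i else 0 := rfl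

theorem cut_pos (h : p i) : cut p u i = u i := if_pos h

theorem cut_neg (h : ¬ p i) : cut p u i = 0 := if_neg h

theorem mem_supp : u ∈ supp K p ↔ ∀ i, ¬ p i → u i = 0 := Iff.rfl

theorem cut_mem_supp (p : ι → Prop) (u : ι → K) : cut p u ∈ supp K p := fun _ => cut_neg

theorem cut_eq_self : cut p u = u ↔ u ∈ supp K p :=
  ⟨fun h => h ▸ cut_mem_supp p u, fun h => funext fun i => by
    by_cases hi : p i
    exacts [cut_pos hi, (cut_neg hi).trans (h i hi).symm]⟩

theorem cut_eq_zero : cut p u = 0 ↔ ∀ i, p i → u i = 0 :=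
  ⟨fun h i hi => (cut_pos hi).symm.trans (congrFun h i), fun h => funext fun i => by
    by_cases hi : p i
    exacts [(cut_pos hi).trans (h i hi), cut_neg hi]⟩

theorem cut_cut (p q : ι → Prop) (u : ι → K) : cut p (cut q u) = cut (fun i => p i ∧ q i) u :=
  funext fun i => by by_cases h : p i <;> by_cases h' : q i <;> simp [cut_apply, h, h']

theorem cut_comm (p q : ι → Prop) (u : ι → K) : cut p (cut q u) = cut q (cut p u) := by
  simp only [cut_cut, and_comm]

theorem cut_congr (h : ∀ i, u i ≠ 0 → (p i ↔ q i)) : cut p u = cut q u := funext fun i => by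
  by_cases h0 : u i = 0
  · simp [cut_apply, h0]
  · by_cases hp : p i
    · rw [cut_pos hp, cut_pos ((h i h0).1 hp)]
    · rw [cut_neg hp, cut_neg fun e => hp ((h i h0).2 e)]

theorem cut_add_cut (p : ι → Prop) (u : ι → K) : cut p u + cut (fun i => ¬ p i) u = u :=
  funext fun i => by by_cases h : p i <;> simp [cut_apply, h]

theorem cut_ne (h : cut p u i ≠ 0) : p i ∧ u i ≠ 0 := by
  by_cases hi : p i
  exacts [⟨hi, by rwa [cut_pos hi] at h⟩, absurd (cut_neg hi) h]

theorem cut_mem (p : ι → Prop) (h : ∀ i, u i ∈ k) (i : ι) : cut p u i ∈ k := by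
  by_cases hi : p i
  · rw [cut_pos hi]
    exact h i
  · rw [cut_neg hi]
    exact k.zero_mem

theorem cut_map (φ : K → K) (h0 : φ 0 = 0) (p : ι → Prop) (u : ι → K) :
    (fun i => φ (cut p u i)) = cut p fun i => φ (u i) :=
  funext fun i => by by_cases h : p i <;> simp [cut_apply, h, h0]

theorem supp_mono (h : ∀ i, p i → q i) : supp K p ≤ supp K q :=
  fun _ hu i hi => hu i fun hp => hi (h i hp)

theorem cut_supp (p : ι → Prop) (h : u ∈ supp K q) : cut p u ∈ supp K q := fun i hi => by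
  by_cases hp : p i
  exacts [(cut_pos hp).trans (h i hi), cut_neg hp]

theorem ov_supp [Finite ι] (p : ι → Prop) : Ov k (supp K p) :=
  ov_of_stable fun φ _ _ hx i hi => by simp only [hx i hi, map_zero]

theorem Ov.cut (h : Ov k N) (p : ι → Prop) : Ov k (N.map (cut p)) := by
  rw [← h.span_eq, Submodule.map_span]
  refine ov_span ?_
  rintro _ ⟨x, hx, rfl⟩
  exact cut_mem p hx.2

theorem ov_iSup {α : Sort*} {S : α → Submodule K (ι → K)} (h : ∀ a, Ov k (S a)) :
    Ov k (⨆ a, S a) :=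
  iSup_le fun a => (h a).trans
    (Submodule.span_mono fun _ hx => ⟨Submodule.mem_iSup_of_mem a hx.1, hx.2⟩)

/-- An element over `k` of the image has a preimage over `k`. -/
theorem Ov.exists_pre (h : Ov k N) {f : (ι → K) →ₗ[K] (κ → K)}
    (hf : ∀ φ : K →+ K, (∀ c, ∀ a ∈ k, φ (c * a) = φ c * a) →
      ∀ u, f (fun i => φ (u i)) = fun j => φ (f u j))
    {y : κ → K} (hy : y ∈ N.map f) (hk : ∀ j, y j ∈ k) : ∃ u ∈ N, (∀ i, u i ∈ k) ∧ f u = y := by
  obtain ⟨u, hu, rfl⟩ := hy
  obtain ⟨φ, h1, h2, h3⟩ := exists_proj k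
  refine ⟨_, h.stable φ h1 hu, fun i => h3 _, (hf φ h1 u).trans (funext fun j => ?_)⟩
  simpa [h2] using h1 1 _ (hk j)

/-! ### gradings -/

theorem finrank_supp [Fintype ι] (p : ι → Prop) : finrank K (supp K p) = Nat.card {i // p i} := by
  classical
  let e : supp K p ≃ₗ[K] ({i // p i} → K) :=
    { toFun := fun u i => u.1 i
      invFun := fun y => ⟨fun i => if h : p i then y ⟨i, h⟩ else 0, fun i hi => dif_neg hi⟩
      map_add' := fun _ _ => rfl
      map_smul' := fun _ _ => rfl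
      left_inv := fun u => Subtype.ext (funext fun i => by
        by_cases h : p i
        exacts [dif_pos h, (dif_neg h).trans (u.2 i h).symm])
      right_inv := fun y => funext fun i => dif_pos i.2 }
  rw [e.finrank_eq, finrank_fintype_fun_eq_card, Nat.card_eq_fintype_card]

/-- A graded space is stable under the projector on any union of classes. -/
theorem Graded.cut [Finite ι] (h : Graded r N) (hp : ∀ i j, r i j → p i → p j) (hu : u ∈ N) :
    cut p u ∈ N := by
  classical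
  have := Fintype.ofFinite ι
  have e : E.cut p u = ∑ c ∈ Finset.univ.filter fun c : Quotient r => p c.out,
      E.cut (fun i => r i c.out) u := by
    funext i
    have h1 : r i (Quotient.mk r i).out := r.symm (Quotient.mk_out i)
    rw [Finset.sum_apply]
    by_cases hi : p i
    · rw [cut_pos hi, Finset.sum_eq_single (Quotient.mk r i)]
      · exact (cut_pos (p := fun l => r l _) h1).symm
      · exact fun c _ hc => cut_neg fun h2 => hc (by rw [Quotient.sound h2, Quotient.out_eq])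
      · exact fun h2 => absurd (by simpa using hp _ _ h1 hi) h2
    · rw [cut_neg hi]
      exact (Finset.sum_eq_zero fun c hc => cut_neg (p := fun l => r l c.out) fun h2 =>
        hi (hp _ _ (r.symm h2) (Finset.mem_filter.1 hc).2)).symm
  rw [e]
  exact N.sum_mem fun c _ => h _ u hu

theorem Graded.mono [Finite ι] (h : Graded r N) (hr : r ≤ r') : Graded r' N :=
  fun _ _ hu => h.cut (fun _ _ h1 h2 => r'.trans (r'.symm (hr h1)) h2) hu

theorem graded_top (N : Submodule K (ι → K)) : Graded ⊤ N := fun j u hu => by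
  rwa [(cut_eq_self (p := fun i => (⊤ : Setoid ι) i j) (u := u)).2 fun _ hi => absurd trivial hi]

theorem Graded.inf (h : Graded r N) (h' : Graded r N') : Graded r (N ⊓ N') :=
  fun j u hu => ⟨h j u hu.1, h' j u hu.2⟩

theorem graded_iff : Graded r N ↔ ∀ j, N.map (cut fun i => r i j) ≤ N := by
  simp only [Graded, Submodule.map_le_iff_le_comap]
  rfl

theorem Graded.sup (h : Graded r N) (h' : Graded r N') : Graded r (N ⊔ N') :=
  graded_iff.2 fun j => (Submodule.map_sup _ _ _).trans_le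
    (sup_le_sup (graded_iff.1 h j) (graded_iff.1 h' j))

theorem graded_iSup {α : Sort*} {S : α → Submodule K (ι → K)} (h : ∀ a, Graded r (S a)) :
    Graded r (⨆ a, S a) :=
  graded_iff.2 fun j => (Submodule.map_iSup _ _).trans_le (iSup_mono fun a => graded_iff.1 (h a) j)

theorem graded_supp (r : Setoid ι) (p : ι → Prop) : Graded r (supp K p) :=
  fun _ _ hu => cut_supp _ hu

theorem Graded.map_cut (h : Graded r N) (p : ι → Prop) : Graded r (N.map (E.cut p)) := by
  rintro j _ ⟨u, hu, rfl⟩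
  exact ⟨_, h j u hu, cut_comm _ _ _⟩

theorem Graded.and (h : Graded r N) (h' : Graded r' N) : Graded (r ⊓ r') N := fun j u hu => by
  have := h j _ (h' j u hu)
  rwa [cut_cut] at this

theorem Graded.core (h : Graded r N) : Graded r (core k N) := graded_iff.2 fun j =>
  le_core (ov_core.cut _) ((Submodule.map_mono core_le).trans (graded_iff.1 h j))

theorem cut_dot [Fintype ι] (p : ι → Prop) (u x : ι → K) : cut p u ⬝ᵥ x = u ⬝ᵥ cut p x :=
  Finset.sum_congr rfl fun i _ => by by_cases h : p i <;> simp [cut_apply, h]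

theorem Graded.ann [Fintype ι] (h : Graded r N) : Graded r (ann N) := fun j u hu x hx => by
  rw [cut_dot, hu _ (h j x hx)]

theorem Graded.hull [Fintype ι] (h : Graded r N) : Graded r (hull k N) := by
  rw [← ann_ann (E.hull k N), ann_hull]
  exact h.ann.core.ann

/-! ### the action of matrices -/

section act

variable [Fintype ι] {g : Matrix ι κ K}

theorem mem_act {y : κ → K} : y ∈ act g N ↔ ∃ u ∈ N, u ᵥ* g = y := Submodule.mem_map

theorem vecMul_mem_act (g : Matrix ι κ K) (h : u ∈ N) : u ᵥ* g ∈ act g N := ⟨u, h, rfl⟩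

theorem act_le_iff {Y : Submodule K (κ → K)} : act g N ≤ Y ↔ ∀ u ∈ N, u ᵥ* g ∈ Y :=
  Submodule.map_le_iff_le_comap

theorem act_mono (g : Matrix ι κ K) (h : N ≤ N') : act g N ≤ act g N' := Submodule.map_mono h

theorem act_sup (g : Matrix ι κ K) (N N' : Submodule K (ι → K)) :
    act g (N ⊔ N') = act g N ⊔ act g N' := Submodule.map_sup _ _ _

theorem act_act [Fintype κ] (g : Matrix ι κ K) (g' : Matrix κ L K) (N : Submodule K (ι → K)) :
    act g' (act g N) = act (g * g') N := by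
  rw [act, act, act, ← Submodule.map_comp]
  congr 1
  exact LinearMap.ext fun u => vecMul_vecMul u g g'

theorem Ov.act (h : Ov k N) (hg : ∀ i j, g i j ∈ k) : Ov k (act g N) := by
  rw [E.act, ← mulVecLin_transpose]
  exact h.map fun i j => hg j i

theorem vecMul_mem (hu : ∀ i, u i ∈ k) (hg : ∀ i j, g i j ∈ k) (j : κ) : (u ᵥ* g) j ∈ k :=
  k.sum_mem fun i _ => k.mul_mem (hu i) (hg i j)

theorem map_vecMul (φ : K →+ K) (hφ : ∀ c, ∀ a ∈ k, φ (c * a) = φ c * a) (hg : ∀ i j, g i j ∈ k)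
    (u : ι → K) : (fun i => φ (u i)) ᵥ* g = fun j => φ ((u ᵥ* g) j) := funext fun j => by
  simp only [vecMul, dotProduct, map_sum]
  exact Finset.sum_congr rfl fun i _ => (hφ _ _ (hg i j)).symm

variable [DecidableEq ι] {g g' : Matrix ι ι K}

@[simp] theorem act_one (N : Submodule K (ι → K)) : act (1 : Matrix ι ι K) N = N := by
  ext u
  simp [mem_act]

theorem vecMul_inv_cancel (h : g.det ≠ 0) (u : ι → K) : u ᵥ* g ᵥ* g⁻¹ = u := by
  rw [vecMul_vecMul, mul_nonsing_inv _ h.isUnit, vecMul_one]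

theorem inv_vecMul_cancel (h : g.det ≠ 0) (u : ι → K) : u ᵥ* g⁻¹ ᵥ* g = u := by
  rw [vecMul_vecMul, nonsing_inv_mul _ h.isUnit, vecMul_one]

theorem vecMul_inj (h : g.det ≠ 0) : Function.Injective g.vecMulLinear :=
  Function.LeftInverse.injective (g := (· ᵥ* g⁻¹)) (vecMul_inv_cancel h)

theorem mem_act_iff (h : g.det ≠ 0) : u ∈ act g N ↔ u ᵥ* g⁻¹ ∈ N :=
  ⟨fun ⟨x, hx, e⟩ => by rwa [← e, vecMulLinear_apply, vecMul_inv_cancel h],
    fun hu => ⟨_, hu, inv_vecMul_cancel h u⟩⟩

theorem act_inv_act (h : g.det ≠ 0) (N : Submodule K (ι → K)) : act g⁻¹ (act g N) = N := by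
  rw [act_act, mul_nonsing_inv _ h.isUnit, act_one]

theorem act_act_inv (h : g.det ≠ 0) (N : Submodule K (ι → K)) : act g (act g⁻¹ N) = N := by
  rw [act_act, nonsing_inv_mul _ h.isUnit, act_one]

theorem act_inf (h : g.det ≠ 0) (N N' : Submodule K (ι → K)) :
    act g (N ⊓ N') = act g N ⊓ act g N' := Submodule.map_inf _ (vecMul_inj h)

theorem finrank_act (h : g.det ≠ 0) (N : Submodule K (ι → K)) :
    finrank K (act g N) = finrank K N :=
  (Submodule.equivMapOfInjective _ (vecMul_inj h) N).finrank_eq.symm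

theorem act_le_act (h : g.det ≠ 0) : act g N ≤ act g N' ↔ N ≤ N' :=
  Submodule.map_le_map_iff_of_injective (vecMul_inj h) _ _

theorem act_top (h : g.det ≠ 0) : act g ⊤ = ⊤ :=
  eq_top_iff.2 fun _ _ => (mem_act_iff h).2 trivial

theorem GrM.one (k : Subfield K) (r : Setoid ι) : GrM k r 1 :=
  ⟨by simp, fun i j => by by_cases h : i = j <;> simp [one_apply, h],
    fun i j h => by rw [not_not.1 fun e => h (one_apply_ne e)]⟩

theorem GrM.mono (h : GrM k r g) (hk : k ≤ k') (hr : r ≤ r') : GrM k' r' g :=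
  ⟨h.det, fun i j => hk (h.mem i j), fun i j e => hr (h.gr i j e)⟩

theorem GrM.mul (h : GrM k r g) (h' : GrM k r g') : GrM k r (g * g') := by
  refine ⟨by rw [det_mul]; exact mul_ne_zero h.det h'.det,
    fun i j => k.sum_mem fun l _ => k.mul_mem (h.mem _ _) (h'.mem _ _), fun i j e => ?_⟩
  obtain ⟨l, -, hl⟩ := Finset.exists_ne_zero_of_sum_ne_zero e
  exact r.trans (h.gr _ _ (left_ne_zero_of_mul hl)) (h'.gr _ _ (right_ne_zero_of_mul hl))

theorem GrM.diagonal {d : ι → K} (h : ∀ i, d i ∈ k ∧ d i ≠ 0) (r : Setoid ι) :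
    GrM k r (diagonal d) :=
  ⟨by rw [det_diagonal]; exact Finset.prod_ne_zero_iff.2 fun i _ => (h i).2,
    fun i j => by by_cases e : i = j <;> simp [e, (h j).1],
    fun i j e => by rw [not_not.1 fun e' => e (diagonal_apply_ne _ e')]⟩

omit [DecidableEq ι] in
theorem cut_vecMul (h : ∀ i j, g i j ≠ 0 → (p i ↔ p j)) (u : ι → K) :
    cut p (u ᵥ* g) = cut p u ᵥ* g := funext fun j => by
  by_cases hj : p j
  · rw [cut_pos hj]
    refine Finset.sum_congr rfl fun i _ => ?_
    by_cases h0 : g i j = 0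
    · simp [h0]
    · rw [cut_pos ((h i j h0).2 hj)]
  · rw [cut_neg hj]
    refine (Finset.sum_eq_zero fun i _ => ?_).symm
    by_cases h0 : g i j = 0
    · simp [h0]
    · rw [cut_neg fun e => hj ((h i j h0).1 e), zero_mul]

theorem GrM.cut (h : GrM k r g) (hp : ∀ i j, r i j → p i → p j) (u : ι → K) :
    E.cut p (u ᵥ* g) = E.cut p u ᵥ* g :=
  cut_vecMul (fun i j e => ⟨hp i j (h.gr i j e), hp j i (r.symm (h.gr i j e))⟩) u

theorem GrM.cut' (h : GrM k r g) (j : ι) (u : ι → K) :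
    E.cut (fun i => r i j) (u ᵥ* g) = E.cut (fun i => r i j) u ᵥ* g :=
  h.cut (fun _ _ a b => r.trans (r.symm a) b) u

theorem inv_mem_sub (hg : ∀ i j, g i j ∈ k) (i j : ι) : g⁻¹ i j ∈ k := by
  let g₀ : Matrix ι ι k := Matrix.of fun i j => ⟨g i j, hg i j⟩
  have e : g = k.subtype.mapMatrix g₀ := rfl
  rw [inv_def, e, ← RingHom.map_det, ← RingHom.map_adjugate, Ring.inverse_eq_inv']
  exact k.mul_mem (k.inv_mem g₀.det.2) (g₀.adjugate i j).2

theorem GrM.inv (h : GrM k r g) : GrM k r g⁻¹ := by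
  refine ⟨(isUnit_nonsing_inv_det _ h.det.isUnit).ne_zero, inv_mem_sub h.mem, fun i j e => ?_⟩
  have h1 : E.cut (fun l => r l i) (Pi.single i 1 ᵥ* g⁻¹) = Pi.single i 1 ᵥ* g⁻¹ := by
    apply vecMul_inj h.det
    rw [vecMulLinear_apply, vecMulLinear_apply, ← h.cut', inv_vecMul_cancel h.det, cut_eq_self]
    exact fun l hl => Pi.single_eq_of_ne (fun e : l = i => hl (e ▸ r.refl l)) _
  rw [single_one_vecMul] at h1
  exact r.symm (not_not.1 fun h2 => e (cut_eq_self.1 h1 j h2))

theorem Graded.act (h : Graded r N) (hg : GrM k r g) : Graded r (act g N) := by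
  rintro j _ ⟨u, hu, rfl⟩
  exact ⟨_, h j u hu, (hg.cut' j u).symm⟩

theorem GrM.act_supp (h : GrM k r g) (hp : ∀ i j, r i j → p i → p j) :
    act g (supp K p) = supp K p := by
  have key : ∀ g : Matrix ι ι K, GrM k r g → ∀ u ∈ supp K p, u ᵥ* g ∈ supp K p := fun g h u hu => by
    rw [← cut_eq_self, h.cut hp, cut_eq_self.2 hu]
  exact le_antisymm (act_le_iff.2 (key g h)) fun u hu => (mem_act_iff h.det).2 (key _ h.inv u hu)

theorem hull_act (h : g.det ≠ 0) (hg : ∀ i j, g i j ∈ k) : hull k (act g N) = act g (hull k N) := by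
  refine le_antisymm (hull_le (ov_hull.act hg) (act_mono g le_hull)) ?_
  rw [← act_act_inv h (hull k (act g N)), act_le_act h]
  refine hull_le (ov_hull.act (inv_mem_sub hg)) ?_
  conv_lhs => rw [← act_inv_act h N]
  exact act_mono _ le_hull

theorem core_act (h : g.det ≠ 0) (hg : ∀ i j, g i j ∈ k) : core k (act g N) = act g (core k N) := by
  refine le_antisymm ?_ (le_core (ov_core.act hg) (act_mono g core_le))
  rw [← act_act_inv h (core k (act g N)), act_le_act h]
  refine le_core (ov_core.act (inv_mem_sub hg)) ?_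
  conv_rhs => rw [← act_inv_act h N]
  exact act_mono _ core_le

end act

/-! ### the witness relation -/

theorem Mx.finrank [Finite ι] (h : Mx N G F) : finrank K (N ⊓ G : Submodule K _) + finrank K F =
    finrank K (N ⊓ F : Submodule K _) + finrank K (G ⊓ F : Submodule K _) := by
  have e : N ⊓ F ⊔ G ⊓ F = F := le_antisymm (sup_le inf_le_right inf_le_right) h.2
  have e' : N ⊓ F ⊓ (G ⊓ F) = N ⊓ G := by
    rw [inf_inf_inf_comm, inf_idem, inf_eq_left.2 h.1]
  rw [← Submodule.finrank_sup_add_finrank_inf_eq (N ⊓ F), e, e', add_comm]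

theorem finrank_inf_le [Finite ι] (N G F : Submodule K (ι → K)) :
    finrank K (N ⊓ F : Submodule K _) + finrank K (G ⊓ F : Submodule K _) ≤
      finrank K (N ⊓ G : Submodule K _) + finrank K F := by
  rw [← Submodule.finrank_sup_add_finrank_inf_eq, add_comm]
  exact Nat.add_le_add (Submodule.finrank_mono (inf_le_inf inf_le_left inf_le_left))
    (Submodule.finrank_mono (sup_le inf_le_right inf_le_right))

theorem Mx.act [Fintype ι] [DecidableEq ι] {g : Matrix ι ι K} (h : Mx N G F) (hg : g.det ≠ 0) :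
    Mx (act g N) (act g G) (act g F) := by
  rw [Mx, ← act_inf hg, ← act_inf hg, ← act_inf hg, ← act_sup]
  exact ⟨act_mono g h.1, act_mono g h.2⟩

/-- The witness for a subfamily. -/
theorem Mx.inf {W : Submodule K (ι → K)} (h : Mx N (G ⊓ W) F) : Mx (N ⊓ W) G (F ⊓ W) := by
  refine ⟨fun x hx => ⟨h.1 ⟨hx.1.1, hx.2, hx.1.2⟩, hx.1.2⟩, fun x hx => ?_⟩
  obtain ⟨a, ha, b, hb, rfl⟩ := Submodule.mem_sup.1 (h.2 hx.1)
  have h1 : a ∈ W := (W.add_mem_iff_left hb.1.2).1 hx.2
  exact Submodule.add_mem_sup ⟨⟨ha.1, h1⟩, ha.2, h1⟩ ⟨hb.1.1, hb.2, hb.1.2⟩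

/-! ### conjugates -/

section cj

variable {σ τ : K ≃+* K}

theorem mem_cj : u ∈ cj σ N ↔ (fun i => σ.symm (u i)) ∈ N := Iff.rfl

theorem map_mem_cj : (fun i => σ (u i)) ∈ cj σ N ↔ u ∈ N := by simp [mem_cj]

@[simp] theorem cj_refl (N : Submodule K (ι → K)) : cj (RingEquiv.refl K) N = N := rfl

theorem cj_cj (σ τ : K ≃+* K) (N : Submodule K (ι → K)) : cj τ (cj σ N) = cj (σ.trans τ) N := rfl

@[simp] theorem cj_symm_cj (N : Submodule K (ι → K)) : cj σ.symm (cj σ N) = N := by
  rw [cj_cj, RingEquiv.self_trans_symm, cj_refl]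

@[simp] theorem cj_cj_symm (N : Submodule K (ι → K)) : cj σ (cj σ.symm N) = N := by
  rw [cj_cj, RingEquiv.symm_trans_self, cj_refl]

theorem cj_mono (σ : K ≃+* K) (h : N ≤ N') : cj σ N ≤ cj σ N' := fun _ hu => h hu

variable (ι) in
/-- Conjugation as an order isomorphism. -/
def cjIso (σ : K ≃+* K) : Submodule K (ι → K) ≃o Submodule K (ι → K) :=
  Equiv.toOrderIso ⟨cj σ, cj σ.symm, cj_symm_cj, cj_cj_symm⟩ (fun _ _ => cj_mono σ)
    fun _ _ => cj_mono σ.symm

theorem cj_le_cj : cj σ N ≤ cj σ N' ↔ N ≤ N' := (cjIso ι σ).le_iff_le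

theorem cj_inf (σ : K ≃+* K) (N N' : Submodule K (ι → K)) :
    cj σ (N ⊓ N') = cj σ N ⊓ cj σ N' := rfl

theorem cj_sup (σ : K ≃+* K) (N N' : Submodule K (ι → K)) :
    cj σ (N ⊔ N') = cj σ N ⊔ cj σ N' := (cjIso ι σ).map_sup N N'

theorem cj_iSup (σ : K ≃+* K) {α : Sort*} (S : α → Submodule K (ι → K)) :
    cj σ (⨆ a, S a) = ⨆ a, cj σ (S a) := (cjIso ι σ).map_iSup S

@[simp] theorem cj_bot : cj σ (⊥ : Submodule K (ι → K)) = ⊥ := (cjIso ι σ).map_bot

@[simp] theorem cj_top : cj σ (⊤ : Submodule K (ι → K)) = ⊤ := rfl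

theorem cj_span (σ : K ≃+* K) (s : Set (ι → K)) :
    cj σ (Submodule.span K s) = Submodule.span K ((fun u i => σ (u i)) '' s) := by
  refine eq_of_forall_ge_iff fun W => ?_
  rw [← cj_cj_symm (σ := σ) W, cj_le_cj, Submodule.span_le, Submodule.span_le, image_subset_iff]
  exact forall₂_congr fun u _ => map_mem_cj.symm

theorem finrank_cj [Finite ι] (σ : K ≃+* K) (N : Submodule K (ι → K)) :
    finrank K (cj σ N) = finrank K N := by
  have key : ∀ (σ : K ≃+* K) (N : Submodule K (ι → K)), finrank K (cj σ N) ≤ finrank K N := by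
    intro σ N
    obtain ⟨b, -, -, hb⟩ := (ov_top' (R := N)).exists_basis
    conv_lhs => rw [← hb, cj_span, ← range_comp]
    exact (finrank_range_le_card _).trans_eq (Fintype.card_fin _)
  have := key σ.symm (cj σ N)
  rw [cj_symm_cj] at this
  exact le_antisymm (key σ N) this

theorem Ov.cj (h : Ov k N) (hk : ∀ x ∈ k, σ x ∈ k') : Ov k' (cj σ N) := by
  rw [← h.span_eq, cj_span]
  refine ov_span ?_
  rintro _ ⟨x, hx, rfl⟩ i
  exact hk _ (hx.2 i)

theorem Ov.cj_eq (h : Ov k N) (hk : ∀ x ∈ k, σ x = x) : E.cj σ N = N := by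
  conv_lhs => rw [← h.span_eq, cj_span]
  rw [image_congr (g := fun x => x) fun x hx => funext fun i => hk _ (hx.2 i), image_id',
    h.span_eq]

@[simp] theorem cj_supp (p : ι → Prop) : cj σ (supp K p) = supp K p :=
  Submodule.ext fun u => by simp [mem_cj, mem_supp]

theorem cj_map_cut (σ : K ≃+* K) (p : ι → Prop) (N : Submodule K (ι → K)) :
    cj σ (N.map (cut p)) = (cj σ N).map (cut p) := by
  ext u
  refine ⟨fun ⟨x, hx, e⟩ => ⟨_, map_mem_cj.2 hx, ?_⟩, fun ⟨x, hx, e⟩ => ⟨_, hx, ?_⟩⟩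
  · rw [← cut_map σ (map_zero σ), e]
    simp
  · rw [← cut_map σ.symm (map_zero _), e]

theorem Graded.cj (h : Graded r N) (σ : K ≃+* K) : Graded r (cj σ N) :=
  graded_iff.2 fun j => (cj_map_cut σ _ N).symm.trans_le (cj_mono σ (graded_iff.1 h j))

theorem cj_act [Fintype ι] (σ : K ≃+* K) (g : Matrix ι κ K) (N : Submodule K (ι → K)) :
    cj σ (act g N) = act (g.map σ) (cj σ N) := by
  have key : ∀ (σ : K ≃+* K) (g : Matrix ι κ K) (u : ι → K),
      (fun i => σ (u i)) ᵥ* g.map σ = fun j => σ ((u ᵥ* g) j) := fun σ g u =>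
    funext fun j => (RingHom.map_vecMul (σ : K →+* K) g u j).symm
  ext u
  refine ⟨fun ⟨x, hx, e⟩ => ⟨_, map_mem_cj.2 hx, ?_⟩, fun ⟨x, hx, e⟩ => ⟨_, hx, ?_⟩⟩
  · rw [vecMulLinear_apply] at e ⊢
    rw [key, e]
    simp
  · rw [vecMulLinear_apply] at e ⊢
    rw [← e, ← key σ.symm, Matrix.map_map]
    congr 1
    ext i j
    simp

theorem cj_ann [Fintype ι] (σ : K ≃+* K) (N : Submodule K (ι → K)) :
    cj σ (ann N) = ann (cj σ N) := by
  have key : ∀ (σ : K ≃+* K) (N : Submodule K (ι → K)), cj σ (ann N) ≤ ann (cj σ N) := by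
    intro σ N u hu x hx
    have := hu _ hx
    simp only [dotProduct, ← map_mul, ← map_sum] at this
    exact (map_eq_zero _).1 this
  refine le_antisymm (key σ N) ?_
  rw [← cj_le_cj (σ := σ.symm), cj_symm_cj]
  simpa using key σ.symm (cj σ N)

theorem cj_ini [LinearOrder Γ] (σ : K ≃+* K) (m : ι → Γ) (N : Submodule K (ι → K)) :
    cj σ (ini m N) = ini m (cj σ N) := by
  simp only [ini, cj_iSup, cj_map_cut, cj_inf, cj_supp]

theorem Mx.cj (h : Mx N G F) (σ : K ≃+* K) : Mx (cj σ N) (cj σ G) (cj σ F) := by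
  rw [Mx, ← cj_inf, ← cj_inf, ← cj_inf, ← cj_sup]
  exact ⟨cj_mono σ h.1, cj_mono σ h.2⟩

theorem GrM.map [Fintype ι] [DecidableEq ι] {g : Matrix ι ι K} (h : GrM k r g)
    (hk : ∀ x ∈ k, σ x ∈ k') : GrM k' r (g.map σ) :=
  ⟨by
    rw [show g.map σ = (σ : K →+* K).mapMatrix g from rfl, ← RingHom.map_det]
    exact (map_ne_zero _).2 h.det, fun i j => hk _ (h.mem i j),
    fun i j e => h.gr i j fun e' => e (by simp [e'])⟩

end cj

end Pool.Agent.P.MP_f17f76_ag.E
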