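import Pool.Agent.P.MP_f17f76_ag.E.Fam3

/-!
Families of subspaces: the endomorphisms of a family with full hull and trivial core.
-/

namespace Pool.Agent.P.MP_f17f76_ag.E

open Set Module Matrix

namespace FamEnd

open Polynomial in
/-- A reduced algebra acts by scalars on a primitive central idempotent. -/
lemma scal {k A : Type} [Field k] [IsAlgClosed k] [Ring A] [Algebra k A] {e φ : A} (he : e ≠ 0)
    (ee : e * e = e) (hc : ∀ x, x * e = e * x) (nil : ∀ ψ : A, ψ * ψ = 0 → ψ = 0)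
    (idem : ∀ π : A, π * π = π → π ≠ 0 → e * π = π → π = e) (p : k[X]) (hp : p ≠ 0)
    (h : e * aeval φ p = 0) : ∃ a : k, e * φ = a • e := by
  induction hn : p.natDegree using Nat.strong_induction_on generalizing p with
  | _ n ih =>
  by_cases h0 : p.degree = 0
  · rw [eq_C_of_degree_eq_zero h0] at h hp
    rw [aeval_C, ← Algebra.commutes, ← Algebra.smul_def] at h
    exact absurd ((smul_eq_zero_iff_right (C_ne_zero.1 hp)).1 h) he
  obtain ⟨a, ha⟩ := IsAlgClosed.exists_root p h0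
  obtain ⟨q, rfl⟩ := dvd_iff_isRoot.2 ha
  have hq := right_ne_zero_of_mul hp
  by_cases h1 : e * aeval φ q = 0
  · refine ih _ ?_ q hq h1 rfl
    rw [← hn, natDegree_mul (X_sub_C_ne_zero a) hq, natDegree_X_sub_C]
    omega
  obtain ⟨s, hs⟩ := X_sub_C_dvd_sub_C_eval (p := q) (a := a)
  have h2 : e * aeval φ q * (e * aeval φ q) = q.eval a • (e * aeval φ q) := by
    have : q * q = C (q.eval a) * q + (X - C a) * q * s := by linear_combination q * hs
    rw [← mul_assoc, mul_assoc e, hc, ← mul_assoc, ee, mul_assoc, ← map_mul, this, map_add,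
      map_mul, map_mul, mul_add, ← mul_assoc e _ (aeval φ s), h, zero_mul, add_zero, aeval_C,
      ← Algebra.smul_def, mul_smul_comm]
  have h3 : q.eval a ≠ 0 := fun h3 => h1 (nil _ (by rw [h2, h3, zero_smul]))
  have h4 := idem ((q.eval a)⁻¹ • (e * aeval φ q))
    (by rw [smul_mul_smul_comm, h2, smul_smul, inv_mul_cancel_right₀ h3])
    (smul_ne_zero (inv_ne_zero h3) h1) (by rw [mul_smul_comm, ← mul_assoc, ee])
  have h5 : e * aeval φ (X - C a) = 0 := by
    rw [← h4, smul_mul_assoc, mul_assoc, ← map_mul, mul_comm q, h, smul_zero]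
  rw [map_sub, aeval_X, aeval_C, mul_sub, ← Algebra.commutes, ← Algebra.smul_def] at h5
  exact ⟨a, sub_eq_zero.1 h5⟩

variable {K : Type} [Field K] {ι : Type} [Fintype ι] [DecidableEq ι] {k E : Subfield K}
  {r r' : Setoid ι} {N : Submodule K (ι → K)} {ψ : Matrix ι ι K} {p : ι → Prop}

/-- The graded matrices over `k` that preserve `N`. -/
def S (k : Subfield K) (r : Setoid ι) (N : Submodule K (ι → K)) : Subalgebra k (Matrix ι ι K) where
  carrier := {φ | (∀ i j, φ i j ∈ k) ∧ (∀ i j, φ i j ≠ 0 → r i j) ∧ ∀ u ∈ N, u ᵥ* φ ∈ N}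
  mul_mem' {a b} ha hb := ⟨fun i j => k.sum_mem fun l _ => k.mul_mem (ha.1 _ _) (hb.1 _ _),
    fun i j e => by
      obtain ⟨l, -, hl⟩ := Finset.exists_ne_zero_of_sum_ne_zero e
      exact r.trans (ha.2.1 _ _ (left_ne_zero_of_mul hl)) (hb.2.1 _ _ (right_ne_zero_of_mul hl)),
    fun u hu => vecMul_vecMul u a b ▸ hb.2.2 _ (ha.2.2 u hu)⟩
  add_mem' {a b} ha hb := ⟨fun i j => k.add_mem (ha.1 _ _) (hb.1 _ _), fun i j e => by
      by_cases h : a i j = 0
      exacts [hb.2.1 i j (by simpa [h] using e), ha.2.1 i j h],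
    fun u hu => vecMul_add a b u ▸ N.add_mem (ha.2.2 u hu) (hb.2.2 u hu)⟩
  algebraMap_mem' c := ⟨fun i j => by
      rw [algebraMap_matrix_apply]
      split_ifs
      exacts [c.2, k.zero_mem], fun i j e => by
      rw [algebraMap_matrix_apply] at e
      rw [show i = j from not_not.1 fun h => e (if_neg h)], fun u hu => by
      rw [Algebra.algebraMap_eq_smul_one, vecMul_smul, vecMul_one]
      exact N.smul_of_tower_mem c hu⟩

open Classical in
/-- The matrix of `cut p`. -/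
noncomputable def dg (K : Type) [Field K] (p : ι → Prop) : Matrix ι ι K :=
  diagonal fun i => if p i then 1 else 0

lemma vecMul_dg (p : ι → Prop) (u : ι → K) : u ᵥ* dg K p = cut p u := funext fun i => by
  by_cases h : p i <;> simp [dg, vecMul_diagonal, cut_apply, h]

lemma dg_mem (h : Graded r N) (hp : ∀ i j, r i j → p i → p j) : dg K p ∈ S k r' N :=
  ⟨fun i j => by
    rw [dg, diagonal_apply]
    split_ifs
    exacts [k.one_mem, k.zero_mem, k.zero_mem],
  fun i j e => by rw [not_not.1 fun e' => e (diagonal_apply_ne _ e')],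
  fun u hu => vecMul_dg p u ▸ h.cut hp hu⟩

lemma nil0 (h : Fam k E r N) (hh : hull k N = ⊤) (hc : core k N = ⊥) (hψ : ψ ∈ S k ⊤ N)
    (h2 : ψ * ψ = 0) (hp : ∀ u, u ᵥ* ψ = 0 ↔ u ∈ supp K p) : ψ = 0 := by
  obtain ⟨F, f1, f2, f3, f4⟩ := h.rig k k le_rfl le_rfl (free_self k E) 1 (GrM.one k r) Prop
    (fun i => ¬ p i) (act (1 + ψ) (supp K fun i => ¬ p i))
    ((ov_supp _).act ((S k ⊤ N).add_mem (S k ⊤ N).one_mem hψ).1)
  rw [act_one] at f3 f4
  have a1 : ∀ u, u ᵥ* ψ ∈ supp K p := fun u => (hp _).1 (by rw [vecMul_vecMul, h2, vecMul_zero])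
  have a2 : ∀ u, cut (fun i => ¬ p i) u ᵥ* ψ = u ᵥ* ψ := fun u => by
    conv_rhs => rw [← cut_add_cut p u, add_vecMul, (hp _).2 (cut_mem_supp _ _), zero_add]
  have a3 : ∀ u ∈ supp K fun i => ¬ p i, cut p (u ᵥ* (1 + ψ)) = u ᵥ* ψ ∧
      cut (fun i => ¬ p i) (u ᵥ* (1 + ψ)) = u := fun u hu => by
    rw [vecMul_add, vecMul_one, map_add, map_add, cut_eq_self.2 hu, cut_eq_self.2 (a1 u),
      cut_eq_zero.2 fun i hi => hu i (not_not.2 hi), cut_eq_zero.2 (a1 u), zero_add, add_zero]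
    exact ⟨rfl, rfl⟩
  have a4 : F ⊓ supp K p ≤ N := fun x hx => by
    obtain ⟨y, hy, _, ⟨⟨u, hu, rfl⟩, -⟩, rfl⟩ := Submodule.mem_sup.1 (f4 hx.1)
    obtain ⟨n, n1, -, n2⟩ := exists_of_mem_ini hy.1 True
    obtain ⟨w, w1, w2, w3⟩ := exists_of_mem_ini hy.1 False
    simp only [eq_iff_iff, iff_true, iff_false, not_not, le_Prop_eq, imp_false] at n2 w2 w3
    have b1 := cut_eq_zero.2 hx.2
    rw [map_add, vecMulLinear_apply, (a3 u hu).2, ← n2] at b1
    rw [← cut_eq_self.2 hx.2, map_add, vecMulLinear_apply, (a3 u hu).1, ← w3, cut_eq_self.2 w2,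
      eq_neg_of_add_eq_zero_right b1, neg_vecMul, a2]
    exact N.add_mem w1 (N.neg_mem (hψ.2.2 n n1))
  have a5 : N ≤ supp K p := fun n hn => by
    have b1 := cut_mem_ini (m := fun i => ¬ p i) (μ := True) hn fun i hi => absurd (le_top) hi
    have b2 := cut_mem_ini (m := fun i => ¬ p i) (μ := False) (hψ.2.2 n hn)
      fun i hi => a1 n i fun e => hi fun e' => e' e
    simp only [eq_iff_iff, iff_true, iff_false, not_not] at b1 b2
    rw [cut_eq_self.2 (a1 n), ← a2] at b2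
    have b3 := f2.cut (p := p) (fun i j e hi => not_not.1 fun hj => e.2.symm.mp hj hi)
      (f3 ⟨by rw [vecMul_add, vecMul_one]; exact add_mem b1 b2,
        vecMul_mem_act _ (cut_mem_supp _ n)⟩)
    rw [(a3 _ (cut_mem_supp _ n)).1, a2] at b3
    exact (hp n).1 ((le_core (f1.inf (ov_supp p)) a4).trans hc.le ⟨b3, a1 n⟩)
  exact ext_iff_vecMul.2 fun u => ((hp u).2 (hh.ge.trans (hull_le (ov_supp p) a5) trivial)).trans
    (vecMul_zero u).symm

lemma nil (h : Fam k E r N) (hh : hull k N = ⊤) (hc : core k N = ⊥) (hψ : ψ ∈ S k ⊤ N)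
    (h2 : ψ * ψ = 0) (hg : ∀ j u, u ᵥ* ψ = 0 → cut (fun i => r i j) u ᵥ* ψ = 0) : ψ = 0 := by
  obtain ⟨g, I, g1, g2⟩ := exists_supp (k := k) (r := r) (F := LinearMap.ker ψ.vecMulLinear)
    (ov_of_stable fun φ hφ x hx => by
      rw [LinearMap.mem_ker, vecMulLinear_apply] at hx ⊢
      rw [map_vecMul φ hφ hψ.1, hx]
      exact funext fun _ => map_zero φ) hg
  have hm : ∀ g, GrM k r g → g ∈ S k ⊤ (⊤ : Submodule K (ι → K)) := fun g h =>
    ⟨h.mem, fun _ _ _ => trivial, fun _ _ => trivial⟩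
  have := nil0 (p := (· ∈ I)) (ψ := g⁻¹ * ψ * g) (h.act g1)
    (by rw [hull_act g1.det g1.mem, hh, act_top g1.det])
    (by rw [core_act g1.det g1.mem, hc]; exact Submodule.map_bot _)
    ⟨(mul_mem (mul_mem (hm _ g1.inv) ⟨hψ.1, hψ.2.1, fun _ _ => trivial⟩) (hm _ g1)).1, fun _ _ _ => trivial,
      fun u hu => by
        rw [← vecMul_vecMul, ← vecMul_vecMul]
        exact vecMul_mem_act g (hψ.2.2 _ ((mem_act_iff g1.det).1 hu))⟩
    (by simp only [Matrix.mul_assoc]
        rw [mul_nonsing_inv_cancel_left _ _ g1.det.isUnit, ← Matrix.mul_assoc ψ, h2]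
        simp)
    fun u => by
      rw [← g2, mem_act_iff g1.det, LinearMap.mem_ker, vecMulLinear_apply, ← vecMul_vecMul,
        ← vecMul_vecMul]
      exact map_eq_zero_iff _ (vecMul_inj g1.det)
  refine ext_iff_vecMul.2 fun u => vecMul_inj g1.det ?_
  rw [vecMulLinear_apply, ← vecMul_inv_cancel g1.det u, vecMul_vecMul, vecMul_vecMul,
    ← Matrix.mul_assoc, this]
  simp

/-- A graded idempotent is diagonalised by a graded matrix. -/
lemma idem0 (hψ : ψ ∈ S k r (⊤ : Submodule K (ι → K))) (h2 : ψ * ψ = ψ) :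
    ∃ (g : Matrix ι ι K) (I : Set ι), GrM k r g ∧ ψ * g = g * dg K (· ∈ I) := by
  obtain ⟨g, I, g1, g2⟩ := exists_supp (k := k) (r := r) (F := act ψ ⊤) (ov_top.act hψ.1) (by
    rintro j _ ⟨u, -, rfl⟩
    exact ⟨_, trivial, (cut_vecMul (fun a b e => ⟨fun c => r.trans (r.symm (hψ.2.1 a b e)) c,
      r.trans (hψ.2.1 a b e)⟩) u).symm⟩)
  have hg : g ∈ S k r (⊤ : Submodule K (ι → K)) := ⟨g1.mem, g1.gr, fun _ _ => trivial⟩
  have hm := sub_mem (add_mem hg (mul_mem hψ hg))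
    (mul_mem hg (dg_mem (p := (· ∈ I)) (r := ⊥) (fun _ _ _ => trivial) fun _ _ e => e ▸ id))
  have a1 : ψ * g * dg K (· ∈ I) = ψ * g := ext_iff_vecMul.2 fun u => by
    rw [← vecMul_vecMul, vecMul_dg, cut_eq_self, ← g2, ← vecMul_vecMul]
    exact vecMul_mem_act g (vecMul_mem_act ψ trivial)
  have a2 : dg K (· ∈ I) * dg K (· ∈ I) = dg K (· ∈ I) := ext_iff_vecMul.2 fun u => by
    simp only [← vecMul_vecMul, vecMul_dg, cut_cut, and_self]
  have a3 : (g + ψ * g - g * dg K (· ∈ I)) * dg K (· ∈ I) = ψ * g := by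
    rw [sub_mul, add_mul, a1, mul_assoc g, a2, add_sub_cancel_left]
  refine ⟨_, I, ⟨fun h0 => ?_, hm.1, hm.2.1⟩, ?_⟩
  · obtain ⟨u, hu, b1⟩ := exists_vecMul_eq_zero_iff.2 h0
    have b2 : u ᵥ* (ψ * g) = 0 := by rw [← a3, ← vecMul_vecMul, b1, zero_vecMul]
    rw [vecMul_sub, vecMul_add, b2, add_zero, ← vecMul_vecMul, vecMul_dg, sub_eq_zero, eq_comm,
      cut_eq_self, ← g2, mem_act_iff g1.det, vecMul_inv_cancel g1.det] at b1
    obtain ⟨w, -, rfl⟩ := b1
    rw [vecMulLinear_apply, vecMul_vecMul, ← mul_assoc, h2, ← vecMul_vecMul] at b2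
    exact hu ((map_eq_zero_iff _ (vecMul_inj g1.det)).1 b2)
  · rw [a3, mul_sub, mul_add, ← mul_assoc, ← mul_assoc, h2, a1, add_sub_cancel_right]

lemma idem (h : Graded r N) (hm : ∀ g r', GrM k r g → r' ≤ r → Graded r' (act g N) → r ≤ r')
    (hψ : ψ ∈ S k r N) (h2 : ψ * ψ = ψ) :
    ∃ p : ι → Prop, (∀ i j, r i j → p i → p j) ∧ ψ = dg K p := by
  obtain ⟨g, I, g1, g2⟩ := idem0 (k := k) (r := r) ⟨hψ.1, hψ.2.1, fun _ _ => trivial⟩ h2
  have a1 : ∀ u ∈ act g N, cut (· ∈ I) u ∈ act g N := by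
    rintro _ ⟨u, hu, rfl⟩
    rw [vecMulLinear_apply, ← vecMul_dg, vecMul_vecMul, ← g2, ← vecMul_vecMul]
    exact vecMul_mem_act g (hψ.2.2 u hu)
  have a2 : Graded (Setoid.ker (· ∈ I)) (act g N) := fun j u hu => by
    by_cases hj : j ∈ I
    · rw [cut_congr (q := (· ∈ I)) fun i _ => by simp [Setoid.ker_def, hj]]
      exact a1 u hu
    · rw [cut_congr (q := (· ∉ I)) fun i _ => by simp [Setoid.ker_def, hj],
        eq_sub_of_add_eq' (cut_add_cut (· ∈ I) u)]
      exact sub_mem hu (a1 u hu)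
  have a3 : ∀ i j, r i j → i ∈ I → j ∈ I := fun i j e =>
    (hm g _ g1 inf_le_left ((h.act g1).and a2) e).2.mp
  refine ⟨_, a3, ext_iff_vecMul.2 fun u => vecMul_inj g1.det ?_⟩
  rw [vecMulLinear_apply, vecMulLinear_apply, vecMul_vecMul, g2, ← vecMul_vecMul, vecMul_dg,
    vecMul_dg, g1.cut a3]

lemma diag (h : Fam k E r N) (hh : hull k N = ⊤) (hc : core k N = ⊥)
    (hm : ∀ g r', GrM k r g → r' ≤ r → Graded r' (act g N) → r ≤ r') (hψ : ψ ∈ S k ⊤ N) (c : ι) :
    ∃ a : K, dg K (r · c) * ψ = a • dg K (r · c) := by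
  have := h.ck
  have cl : ∀ c i j, r i j → r i c → r j c := fun c i j a b => r.trans (r.symm a) b
  have he : ∀ r' c, dg K (r · c) ∈ S k r' N := fun r' c => dg_mem h.gr (cl c)
  have e1 : ∀ c, dg K (r · c) c c = 1 := fun c => by simp [dg]
  have gr : ∀ c d, ψ c d ≠ 0 → r c d := fun c d h0 => not_not.1 fun hd => h0 <| by
    have a1 : dg K (r · d) * dg K (r · c) = 0 := ext_iff_vecMul.2 fun u => by
      rw [← vecMul_vecMul, vecMul_dg, vecMul_dg, cut_cut, vecMul_zero]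
      exact cut_eq_zero.2 fun i hi => absurd (cl d i c hi.1 hi.2) hd
    have a2 := nil h hh hc (mul_mem (he ⊤ c) (mul_mem hψ (he ⊤ d)))
      (by rw [mul_assoc, mul_assoc, ← mul_assoc (dg K (r · d)), a1]; simp) fun j u hu => by
        rw [← vecMul_vecMul, vecMul_dg] at hu ⊢
        rw [cut_cut]
        by_cases e : r j c
        · rwa [cut_congr (q := (r · c)) fun i _ => and_iff_left_of_imp fun b => r.trans b (r.symm e)]
        · rw [cut_eq_zero.2 fun i hi => absurd (cl c i j hi.2 hi.1) e, zero_vecMul]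
    simpa [dg, r.refl] using congrFun₂ a2 c d
  have cm : ∀ x ∈ S k r N, ∀ c u, cut (r · c) (u ᵥ* x) = cut (r · c) u ᵥ* x := fun x hx c =>
    cut_vecMul fun a b e => ⟨cl c a b (hx.2.1 a b e), cl c b a (r.symm (hx.2.1 a b e))⟩
  let ψ₀ : Matrix ι ι k := Matrix.of fun i j => ⟨ψ i j, hψ.1 i j⟩
  obtain ⟨a, ha⟩ := scal (k := k) (A := S k r N) (e := ⟨_, he r c⟩) (φ := ⟨ψ, hψ.1, gr, hψ.2.2⟩)
    (fun e => by simpa [e1] using congrFun₂ (congrArg Subtype.val e) c c)
    (Subtype.ext (ext_iff_vecMul.2 fun u => by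
      simp only [MulMemClass.coe_mul, ← vecMul_vecMul, vecMul_dg, cut_cut, and_self]))
    (fun x => Subtype.ext (ext_iff_vecMul.2 fun u => by
      simp only [MulMemClass.coe_mul, ← vecMul_vecMul, vecMul_dg, cm _ x.2]))
    (fun x hx => Subtype.ext (nil h hh hc ⟨x.2.1, fun _ _ _ => trivial, x.2.2.2⟩
      (congrArg Subtype.val hx) fun j u hu => by rw [← cm _ x.2, hu, map_zero]))
    (fun x h1 h2 h3 => Subtype.ext <| by
      obtain ⟨p, p1, p2⟩ := idem h.gr hm x.2 (congrArg Subtype.val h1)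
      have h4 : dg K (r · c) * dg K p = dg K p := p2 ▸ congrArg Subtype.val h3
      have h5 : ∀ i, p i → r i c := fun i hi => not_not.1 fun e => by
        simpa [dg, hi, e] using congrFun₂ h4 i i
      obtain ⟨i, hi⟩ : ∃ i, p i := not_not.1 fun e => h2 (Subtype.ext (by
        simp [p2, dg, not_exists.1 e]))
      rw [p2]
      exact congrArg (dg K) (funext fun j => propext
        ⟨h5 j, fun e => p1 i j (r.trans (h5 i hi) (r.symm e)) hi⟩))
    ψ₀.charpoly ψ₀.charpoly_monic.ne_zero (by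
      have := Polynomial.aeval_algHom_apply (Algebra.ofId k K).mapMatrix ψ₀ ψ₀.charpoly
      rw [aeval_self_charpoly, map_zero] at this
      exact mul_eq_zero_of_right _ (Subtype.ext
        ((Polynomial.aeval_algHom_apply (S k r N).val _ _).symm.trans this)))
  exact ⟨a, congrArg Subtype.val ha⟩

end FamEnd

open FamEnd in
theorem Fam.end {K : Type} [Field K] {ι : Type} [Fintype ι] [DecidableEq ι] {k E : Subfield K}
    {r : Setoid ι} {N : Submodule K (ι → K)} [CharZero K] (h : Fam k E r N) (hh : hull k N = ⊤)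
    (hc : core k N = ⊥) :
    ∃ (g : Matrix ι ι K) (r' : Setoid ι), GrM k r g ∧ r' ≤ r ∧ Graded r' (MP_f17f76_ag.E.act g N) ∧
      ∀ k' : Subfield K, k ≤ k' → Free (k : Set K) k' E → ∀ φ : Matrix ι ι K, (∀ i j, φ i j ∈ k') →
        MP_f17f76_ag.E.act φ (MP_f17f76_ag.E.act g N) ≤ MP_f17f76_ag.E.act g N →
          ∃ lam : ι → K, φ = Matrix.diagonal lam ∧ ∀ i j, r' i j → lam i = lam j := by
  have := h.ck
  have : Finite (Setoid ι) :=
    Finite.of_injective (fun s : Setoid ι => ⇑s) fun _ _ => Setoid.eq_iff_rel_eq.2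
  obtain ⟨r', ⟨h1, g, h2, h3⟩, h4⟩ := exists_minimal_of_wellFoundedLT
    (fun r' => r' ≤ r ∧ ∃ g, GrM k r g ∧ Graded r' (MP_f17f76_ag.E.act g N)) ⟨r, le_rfl, 1, GrM.one k r, by
      simpa using h.gr⟩
  have h5 := (h.act h2).refine h1 h3
  have h6 := fun ψ => diag (ψ := ψ) h5 (by rw [hull_act h2.det h2.mem, hh, act_top h2.det])
    (by rw [core_act h2.det h2.mem, hc]; exact Submodule.map_bot _) fun g' s a b c =>
      h4 ⟨b.trans h1, g * g', h2.mul (a.mono le_rfl h1), act_act g g' N ▸ c⟩ b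
  refine ⟨g, r', h2, h1, h3, fun k' a1 a2 φ a3 a4 => ?_⟩
  generalize MP_f17f76_ag.E.act g N = M at *
  let En : Submodule K (ι × ι → K) :=
    { carrier := {f | ∀ u ∈ M, u ᵥ* (Matrix.of fun i j => f (i, j)) ∈ M}
      add_mem' := fun {a b} ha hb u hu => (vecMul_add (Matrix.of fun i j => a (i, j))
        (Matrix.of fun i j => b (i, j)) u).symm ▸ M.add_mem (ha u hu) (hb u hu)
      zero_mem' := fun u _ => (vecMul_zero (n := ι) u).symm ▸ M.zero_mem
      smul_mem' := fun c a ha u hu => (vecMul_smul u c (Matrix.of fun i j => a (i, j))).symm ▸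
        M.smul_mem c (ha u hu) }
  have b1 : Ov E En := ov_of_stable fun θ hθ f hf =>
    h5.ov.le_of (R' := M.comap (Matrix.of fun i j => θ (f (i, j))).vecMulLinear) fun u hu hE => by
      refine (congrArg (· ∈ M) (funext fun j => ?_)).mp (h5.ov.stable θ hθ (hf u hu))
      simp only [vecMulLinear_apply, vecMul, dotProduct, map_sum, mul_comm (u _), hθ _ _ (hE _),
        of_apply]
  have b2 : (fun x : ι × ι => φ x.1 x.2) ∈ core k En := core_free b1 a1 a2 ▸
    Submodule.subset_span ⟨act_le_iff.1 a4, fun x => a3 _ _⟩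
  have b3 := Submodule.span_induction (p := fun f _ => (∀ i j, i ≠ j → f (i, j) = 0) ∧
    ∀ i j, r' i j → f (i, i) = f (j, j)) (fun f hf => ?_) (by simp) (fun a b _ _ ha hb =>
      ⟨fun i j e => by simp [ha.1 i j e, hb.1 i j e], fun i j e => by simp [ha.2 i j e, hb.2 i j e]⟩)
    (fun c a _ ha => ⟨fun i j e => by simp [ha.1 i j e], fun i j e => by simp [ha.2 i j e]⟩) b2
  · refine ⟨fun i => φ i i, Matrix.ext fun i j => ?_, b3.2⟩
    by_cases e : i = j
    · simp [e]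
    · rw [diagonal_apply_ne _ e]
      exact b3.1 i j e
  · choose a ha using h6 (Matrix.of fun i j => f (i, j)) ⟨fun i j => hf.2 (i, j), fun _ _ _ => trivial, hf.1⟩
    refine ⟨fun i j e => by simpa [dg, e] using congrFun₂ (ha i) i j, fun i j e => ?_⟩
    have c1 := congrFun₂ (ha j) i i
    have c2 := congrFun₂ (ha j) j j
    simp [dg, e] at c1 c2
    rw [c1, c2]

end Pool.Agent.P.MP_f17f76_ag.E
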