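import Pool.Agent.P.MP_f17f76_ag.E.Fam3
import Pool.Agent.P.MP_f17f76_ag.E.AxZ

/-!
Conormal spaces of loci are rigid families.
-/

namespace Pool.Agent.P.MP_f17f76_ag.E.FamRig

open Set Module Matrix

variable {K : Type} [Field K] {ι Γ : Type} {N W G F N₁ N₂ F₁ F₂ : Submodule K (ι → K)}
  {p : ι → Prop}

theorem mx_le (h : Mx N G F) {X : Submodule K (ι → K)} (h1 : N ≤ X) (h2 : G ≤ X) : F ≤ X :=
  h.2.trans (sup_le (inf_le_left.trans h1) (inf_le_left.trans h2))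

theorem mx_map (f : (ι → K) →ₗ[K] (ι → K)) (h : Mx N (W ⊓ G.comap f) F) :
    Mx ((N ⊓ W).map f) G ((F ⊓ W).map f) := by
  refine ⟨?_, ?_⟩
  · rintro _ ⟨⟨x, hx, rfl⟩, hG⟩
    exact ⟨x, ⟨h.1 ⟨hx.1, hx.2, hG⟩, hx.2⟩, rfl⟩
  · rintro _ ⟨x, hx, rfl⟩
    obtain ⟨n, hn, γ, hγ, rfl⟩ := Submodule.mem_sup.1 (h.2 hx.1)
    have h1 : n ∈ W := (W.add_mem_iff_left hγ.1.1).1 hx.2
    rw [map_add]
    exact Submodule.add_mem_sup ⟨⟨n, ⟨hn.1, h1⟩, rfl⟩, ⟨n, ⟨hn.2, h1⟩, rfl⟩⟩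
      ⟨hγ.1.2, ⟨γ, ⟨hγ.2, hγ.1.1⟩, rfl⟩⟩

theorem cut_add {a b : ι → K} (ha : a ∈ supp K p) (hb : b ∈ supp K fun i => ¬ p i) :
    cut p (a + b) = a ∧ cut (fun i => ¬ p i) (a + b) = b := by
  rw [map_add, map_add, cut_eq_self.2 ha, cut_eq_self.2 hb, cut_eq_zero.2 ha,
    cut_eq_zero.2 fun i hi => hb i (not_not.2 hi)]
  simp

theorem map_cut_le (p : ι → Prop) (N : Submodule K (ι → K)) : N.map (cut p) ≤ supp K p := by
  rintro _ ⟨x, -, rfl⟩
  exact cut_mem_supp p x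

theorem mx_comb (h1 : N₁ ≤ supp K p) (h2 : N₂ ≤ supp K fun i => ¬ p i)
    (m2 : Mx N₂ ((G ⊓ (N₁ ⊔ supp K fun i => ¬ p i)).map (cut fun i => ¬ p i)) F₂)
    (m1 : Mx N₁ ((G ⊓ (supp K p ⊔ F₂)).map (cut p)) F₁) : Mx (N₁ ⊔ N₂) G (F₁ ⊔ F₂) := by
  have f2 := mx_le m2 h2 (map_cut_le _ _)
  have hb : F₂ ≤ (N₁ ⊔ N₂) ⊓ (F₁ ⊔ F₂) ⊔ G ⊓ (F₁ ⊔ F₂) := fun y hy => by
    obtain ⟨n₂, hn₂, y₂, ⟨⟨γ, ⟨hγ, h3⟩, e⟩, hy₂⟩, rfl⟩ := Submodule.mem_sup.1 (m2.2 hy)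
    obtain ⟨n₁, hn₁, z, hz, rfl⟩ := Submodule.mem_sup.1 h3
    obtain ⟨e1, e2⟩ := cut_add (h1 hn₁) hz
    obtain rfl : z = y₂ := e2.symm.trans e
    have h4 : n₁ ∈ F₁ := m1.1 ⟨hn₁, _, ⟨hγ, Submodule.add_mem_sup (h1 hn₁) hy₂⟩, e1⟩
    rw [show n₂ + z = (-n₁ + n₂) + (n₁ + z) by abel]
    exact Submodule.add_mem_sup ⟨Submodule.add_mem_sup (neg_mem hn₁) hn₂.1,
      Submodule.add_mem_sup (neg_mem h4) hn₂.2⟩ ⟨hγ, Submodule.add_mem_sup h4 hy₂⟩
  refine ⟨fun x hx => ?_, sup_le (fun y hy => ?_) hb⟩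
  · obtain ⟨n₁, hn₁, n₂, hn₂, rfl⟩ := Submodule.mem_sup.1 hx.1
    obtain ⟨e1, e2⟩ := cut_add (h1 hn₁) (h2 hn₂)
    have h3 : n₂ ∈ F₂ := m2.1 ⟨hn₂, _, ⟨hx.2, Submodule.add_mem_sup hn₁ (h2 hn₂)⟩, e2⟩
    exact Submodule.add_mem_sup
      (m1.1 ⟨hn₁, _, ⟨hx.2, Submodule.add_mem_sup (h1 hn₁) h3⟩, e1⟩) h3
  · obtain ⟨n₁, hn₁, y₁, ⟨⟨γ, ⟨hγ, h3⟩, e⟩, hy₁⟩, rfl⟩ := Submodule.mem_sup.1 (m1.2 hy)
    obtain ⟨z, hz, φ, hφ, rfl⟩ := Submodule.mem_sup.1 h3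
    obtain rfl : z = y₁ := (cut_add hz (f2 hφ)).1.symm.trans e
    rw [show n₁ + z = (n₁ + (z + φ)) - φ by abel]
    exact sub_mem (Submodule.add_mem_sup
      ⟨Submodule.mem_sup_left hn₁.1, Submodule.mem_sup_left hn₁.2⟩
      ⟨hγ, Submodule.add_mem_sup hy₁ hφ⟩) (hb hφ)

theorem ov_comap_cut [Finite ι] {k : Subfield K} (h : Ov k G) (p : ι → Prop) :
    Ov k (G.comap (cut p)) :=
  ov_of_stable fun φ hφ x hx => by
    have := h.stable φ hφ hx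
    rwa [cut_map φ (map_zero φ)] at this

variable [LinearOrder Γ] {m : ι → Γ} {μ : Γ} {S : Finset Γ}

/-- The part of the initial space of `N ⊓ W` with weights in `S`. -/
noncomputable def part (m : ι → Γ) (N W : Submodule K (ι → K)) (S : Finset Γ) :
    Submodule K (ι → K) :=
  ⨆ μ ∈ S, (N ⊓ (W ⊓ supp K fun i => m i ≤ μ)).map (cut fun i => m i = μ)

theorem part_le (h : μ ∉ S) : part m N W S ≤ supp K fun i => ¬ m i = μ :=
  iSup₂_le fun _ hν => (map_cut_le _ _).trans (supp_mono fun _ e e' => h (e'.symm.trans e ▸ hν))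

theorem part_sup {N' : Submodule K (ι → K)} (h : ∀ ν ∈ S, μ < ν) (h1 : N ≤ N')
    (h2 : N' ≤ N ⊔ W ⊓ supp K fun i => m i ≤ μ) : part m N' W S = part m N W S := by
  refine le_antisymm (iSup₂_mono fun ν hν => ?_)
    (iSup₂_mono fun ν _ => Submodule.map_mono (inf_le_inf_right _ h1))
  rintro _ ⟨x, hx, rfl⟩
  obtain ⟨n, hn, w, hw, rfl⟩ := Submodule.mem_sup.1 (h2 hx.1)
  have h3 : w ∈ W ⊓ supp K fun i => m i ≤ ν :=
    ⟨hw.1, supp_mono (fun _ e => e.trans (h ν hν).le) hw.2⟩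
  refine ⟨n, ⟨hn, (Submodule.add_mem_iff_left _ h3).1 hx.2⟩, ?_⟩
  rw [map_add, (cut_eq_zero (p := fun i => m i = ν) (u := w)).2 fun i hi =>
    hw.2 i fun e => (h ν hν).not_ge (hi ▸ e), add_zero]

theorem ini_eq_part [Fintype ι] (m : ι → Γ) (N W : Submodule K (ι → K)) :
    ini m (N ⊓ W) = part m N W (Finset.univ.image m) := by
  refine le_antisymm (iSup_le fun μ => ?_) (iSup₂_le fun μ _ => ?_)
  · by_cases h : μ ∈ Finset.univ.image m
    · rw [inf_assoc]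
      exact le_iSup₂_of_le μ h le_rfl
    · rintro _ ⟨x, -, rfl⟩
      rw [(cut_eq_zero (p := fun i => m i = μ)).2 fun i hi =>
        absurd (hi ▸ Finset.mem_image_of_mem m (Finset.mem_univ i)) h]
      exact zero_mem _
  · rw [← inf_assoc]
    exact le_iSup_of_le μ le_rfl

omit [LinearOrder Γ] in
theorem graded_of_le (h : N ≤ supp K fun i => m i = μ) : Graded (Setoid.ker m) N :=
  fun j u hu => by
    change cut (fun i => m i = m j) u ∈ N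
    by_cases e : m j = μ
    · rwa [cut_eq_self.2 (supp_mono (fun i hi => hi.trans e.symm) (h hu))]
    · rw [cut_eq_zero.2 fun i hi => h hu i fun e' => e (Eq.trans (Eq.symm hi) e')]
      exact zero_mem _

end Pool.Agent.P.MP_f17f76_ag.E.FamRig

namespace Pool.Agent.P.MP_f17f76_ag.AbVar

open Module E Set Matrix

namespace FamRig

open E.FamRig

variable {g N : ℕ} {A : AbVar g N} {k : Subfield ℂ} {U W G : Submodule ℂ (Fin g → ℂ)}
  {F F₁ : Set ℂ} {b : Fin g → ℂ} {M : Matrix (Fin g) (Fin g) ℂ}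

theorem tan_union (h : A.Over k) (hk : (k : Set ℂ) ⊆ acl F) (hU : A.IsLie U) (b : Fin g → ℂ) :
    ann (A.tan (F ∪ range (A.crd (A.pr U b))) b) = ann (A.tan F b) ⊔ A.du U := by
  rw [du, ← ann_inf]
  congr 1
  ext v
  rw [tan, kil_union]
  constructor
  · rintro ⟨D, hD, rfl⟩
    refine ⟨⟨D, hD.1, rfl⟩, A.pr_eq_zero_iff.1 ?_⟩
    rw [← h.dl_pr (kil_le hk hD.1) hU]
    exact A.dl_eq_zero hD.2
  · rintro ⟨⟨D, hD, rfl⟩, h1⟩
    refine ⟨D, ⟨hD, (h.dl_eq_zero_iff (kil_le hk hD)).1 ?_⟩, rfl⟩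
    rwa [h.dl_pr (kil_le hk hD) hU, pr_eq_zero_iff]

theorem con_pr (h : A.Over k) (hk : (k : Set ℂ) ⊆ acl F) (hU : A.IsLie U) (b : Fin g → ℂ) :
    A.con F (A.pr U b) U = A.con F b U := by
  ext u
  rw [mem_con, mem_con]
  refine and_congr_left fun hu => forall₂_congr fun D hD => ?_
  rw [h.dl_pr (kil_le hk hD) hU, A.dot_pr hu]

theorem lov_act (h : A.Over k) (hF : F.Countable) (hF₁ : F₁.Countable)
    (hk : (k : Set ℂ) ⊆ acl F) (hf : E.Free F (range (A.crd b)) F₁) (hM : M.det ≠ 0)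
    (hM' : ∀ i j, M i j ∈ acl F₁) (hG : Ov (acl (F ∪ F₁)) G) :
    ∃ U, A.IsLie U ∧ Mx (act M (ann (A.tan F b))) G (act M (A.du U)) := by
  have := (h.lov h.isGen hF hF₁ hk hf (hG.act (inv_mem_sub fun i j =>
    acl_mono subset_union_right (hM' i j)))).act hM
  rw [act_act_inv hM] at this
  exact ⟨_, A.isLie_lov _ _, this⟩

theorem main {Γ : Type} [LinearOrder Γ] (m : Fin g → Γ) (h : A.Over k) {k₀ : Subfield ℂ}
    (hF₁ : F₁.Countable) (h0 : k ≤ k₀) (h1 : k₀ ≤ acl ((k : Set ℂ) ∪ F₁)) (hM : M.det ≠ 0)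
    (hM₀ : ∀ i j, M i j ∈ k₀) (hM₁ : ∀ i j, M i j ∈ acl F₁) (hW : Ov k₀ W) (S : Finset Γ) :
    ∀ F : Set ℂ, F.Countable → (k : Set ℂ) ⊆ acl F → E.Free F (range (A.crd b)) F₁ →
      ∀ G, Ov (acl (F ∪ F₁)) G → ∃ Φ, Ov k₀ Φ ∧ Graded (Setoid.ker m) Φ ∧
        Mx (part m (act M (ann (A.tan F b))) W S) G Φ := by
  induction S using Finset.induction_on_min with
  | empty =>
    intro F _ _ _ G _
    refine ⟨⊥, ov_bot, fun j u hu => ?_, ?_, bot_le⟩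
    · rw [Submodule.mem_bot] at hu ⊢
      rw [hu, map_zero]
    · simp [part]
  | insert μ S hS ih =>
    intro F hF hk hf G hG
    have key : ∀ F : Set ℂ, (k : Set ℂ) ⊆ acl F → k₀ ≤ acl (F ∪ F₁) := fun F hk =>
      h1.trans (acl_le (union_subset (hk.trans (acl_mono subset_union_left))
        (subset_union_right.trans (subset_acl _))))
    have hW₁ : Ov k₀ (W ⊓ supp ℂ fun i => m i ≤ μ) := hW.inf (ov_supp _)
    obtain ⟨U, hU, hx⟩ := lov_act h hF hF₁ hk hf hM hM₁ (hW₁.mono (key F hk))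
    have hk' : (k : Set ℂ) ⊆ acl (F ∪ range (A.crd (A.pr U b))) :=
      hk.trans (acl_mono subset_union_left)
    have hf' : E.Free (F ∪ range (A.crd (A.pr U b))) (range (A.crd b)) F₁ :=
      (hf.symm.base (subset_union_left.trans (subset_acl _)) (union_subset
        (subset_union_left.trans (subset_acl _)) (h.crd_pr_acl hU
          (hk.trans (acl_mono subset_union_left))
          (subset_union_right.trans (subset_acl _))))).symm
    have e1 : act M (ann (A.tan F b)) ⊓ (W ⊓ supp ℂ fun i => m i ≤ μ) =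
        act M (A.con F (A.pr U b) U) ⊓ (W ⊓ supp ℂ fun i => m i ≤ μ) := by
      rw [con_pr h hk hU, con, act_inf hM]
      exact le_antisymm (le_inf (le_inf inf_le_left hx.1) inf_le_right)
        (inf_le_inf_right _ inf_le_left)
    have o1 : Ov (acl (F ∪ range (A.crd (A.pr U b)) ∪ F₁))
        ((act M (ann (A.tan F b)) ⊓ (W ⊓ supp ℂ fun i => m i ≤ μ)).map (E.cut fun i => m i = μ)) := by
      rw [e1]
      exact ((((h.ov_con hk hU _).mono (acl_mono subset_union_left)).act fun i j =>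
        key _ hk' (hM₀ i j)).inf (hW₁.mono (key _ hk'))).cut _
    obtain ⟨Φ₂, o2, g2, m2⟩ := ih _ (hF.union (finite_range _).countable) hk' hf' _
      (((hG.mono (acl_mono (union_subset_union_left _ subset_union_left))).inf
        (o1.sup (ov_supp fun i => ¬ m i = μ))).cut fun i => ¬ m i = μ)
    rw [tan_union h hk hU, act_sup, part_sup hS le_sup_left (sup_le le_sup_left
      (hx.2.trans (sup_le_sup inf_le_left inf_le_left)))] at m2
    obtain ⟨U₁, hU₁, hx₁⟩ := lov_act h hF hF₁ hk hf hM hM₁ ((hW₁.mono (key F hk)).inf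
      (ov_comap_cut ((hG.inf ((ov_supp fun i => m i = μ).sup (o2.mono (key F hk)))).cut
        fun i => m i = μ) fun i => m i = μ))
    have h2 := mx_comb (map_cut_le _ _) (part_le fun e => lt_irrefl _ (hS μ e)) m2 (mx_map _ hx₁)
    refine ⟨_, (((((h.ov_du hU₁).mono h0).act hM₀).inf hW₁).cut _).sup o2,
      (graded_of_le (μ := μ) (map_cut_le _ _)).sup g2, ?_⟩
    rwa [part, Finset.iSup_insert]

end FamRig

theorem Over.rig {g N : ℕ} {A : AbVar g N} {k kb : Subfield ℂ} (h : A.Over k) [IsAlgClosed k]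
    (hk : k ≤ kb) (hc : (kb : Set ℂ).Countable) (b : Fin g → ℂ) {W : Submodule ℂ (Fin g → ℂ)}
    (hW : Ov k W) :
    Fam k (acl ((kb : Set ℂ) ∪ Set.range (A.crd b))) ⊤ (ann (A.tan kb b) ⊓ W) := by
  have hk' : (k : Set ℂ) ⊆ acl (kb : Set ℂ) := Subset.trans hk (subset_acl _)
  have hE : k ≤ acl ((kb : Set ℂ) ∪ range (A.crd b)) := hk'.trans (acl_mono subset_union_left)
  refine ⟨hE, inferInstance, inferInstance, (h.ov_tan hk' b).ann.inf (hW.mono hE), graded_top _,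
    fun k₁ F₁ h1 h2 h3 M hM Γ _ m G hG => ?_⟩
  let T : Set ℂ := gens G ∪ range (Function.uncurry M)
  have hT : T ⊆ F₁ := union_subset (ov_iff_gens.1 hG)
    (range_subset_iff.2 fun x => h2 (hM.mem x.1 x.2))
  have hM₁ : ∀ i j, M i j ∈ acl T := fun i j => subset_acl _ (Or.inr ⟨(i, j), rfl⟩)
  have h0 : k ≤ k₁ ⊓ acl ((k : Set ℂ) ∪ T) := le_inf h1 (subset_union_left.trans (subset_acl _))
  have hM₀ : ∀ i j, M i j ∈ k₁ ⊓ acl ((k : Set ℂ) ∪ T) := fun i j =>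
    ⟨hM.mem i j, acl_mono subset_union_right (hM₁ i j)⟩
  have hf : E.Free (kb : Set ℂ) (range (A.crd b)) T :=
    ((h3.base hk' fun x hx => subset_acl _ (Or.inr (subset_acl _ (Or.inl hx)))).mono hT
      fun x hx => subset_acl _ (Or.inr (subset_acl _ (Or.inr hx)))).symm
  obtain ⟨Φ, o, gr, mx⟩ := FamRig.main m h ((finite_gens G).union (finite_range _)).countable h0
    inf_le_right hM.det hM₀ hM₁ ((hW.mono h0).act hM₀) (Finset.univ.image m) kb hc hk' hf G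
    (ov_gens G ((subset_union_left.trans subset_union_right).trans (subset_acl _)))
  refine ⟨Φ, o.mono inf_le_left, by rwa [top_inf_eq], ?_⟩
  rwa [act_inf hM.det, E.FamRig.ini_eq_part]

theorem Over.rig_con {g N : ℕ} {A : AbVar g N} {k kb : Subfield ℂ} (h : A.Over k) [IsAlgClosed k]
    (hk : k ≤ kb) (hc : (kb : Set ℂ).Countable) (b : Fin g → ℂ) {B : Submodule ℂ (Fin g → ℂ)}
    (hB : A.IsLie B) : Fam k (acl ((kb : Set ℂ) ∪ Set.range (A.crd b))) ⊤ (A.con kb b B) :=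
  h.rig hk hc b (h.ov_du hB)

end Pool.Agent.P.MP_f17f76_ag.AbVar
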