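import Pool.Agent.P.MP_f17f76_ag.E.Nd
import Pool.Agent.P.MP_f17f76_ag.E.TldB

/-!
A polynomial killed by a small affine field is bounded on the unit ball.
-/

namespace Pool.Agent.P.MP_f17f76_ag.E

open Set MvPolynomial Matrix

variable {K R ι : Type} [Field K] [Field R] [CharZero R] {P : Plc K R}

theorem exists_nat_pt (P : Plc K R) (Φ : MvPolynomial ι K) [Finite ι] :
    ∃ u : ι → ℕ, ∀ m, P.v (Φ.coeff m) ≤ P.v (eval (fun i => (u i : K)) Φ) := by
  obtain rfl | h0 := eq_or_ne Φ 0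
  · exact ⟨0, fun m => by simp⟩
  obtain ⟨m₀, h1, h2⟩ := Φ.support.exists_max_image (fun m => P.v (Φ.coeff m))
    (support_nonempty.2 h0)
  have h3 : Φ.coeff m₀ ≠ 0 := mem_support_iff.1 h1
  have h4 : ∀ m, P.v (Φ.coeff m) ≤ P.v (Φ.coeff m₀) := fun m => by
    by_cases hm : m ∈ Φ.support
    exacts [h2 m hm, by simp [notMem_support_iff.1 hm]]
  have h5 : ∀ m, P.v ((C (Φ.coeff m₀)⁻¹ * Φ).coeff m) ≤ 1 := fun m => by
    rw [coeff_C_mul, inv_mul_eq_div, P.v_div_le_one h3]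
    exact h4 m
  obtain ⟨u, hu⟩ : ∃ u : ι → ℕ, eval (fun i => (u i : R)) (P.rp (C (Φ.coeff m₀)⁻¹ * Φ)) ≠ 0 := by
    by_contra hc
    push Not at hc
    have h6 : P.rp (C (Φ.coeff m₀)⁻¹ * Φ) = 0 :=
      funext_set (fun _ => range (Nat.cast : ℕ → R))
        (fun _ => infinite_range_of_injective Nat.cast_injective) fun x hx => by
          choose u hu using fun i => hx i trivial
          rw [map_zero, ← hc u, funext hu]
    simpa [h3] using congrArg (coeff m₀) h6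
  have h6 := (Plc.v_eval_le h5 (Y := fun i => (u i : K)) fun i => P.v_nat_le _).2
  have h7 : (P.r ∘ fun i => (u i : K)) = fun i => (u i : R) := funext fun i => P.r_nat _
  rw [h7] at h6
  have h8 := Plc.r_ne_zero_iff.1 (h6 ▸ hu)
  rw [map_mul, eval_C, inv_mul_eq_div, map_div₀, div_eq_one_iff_eq (P.v_ne h3)] at h8
  exact ⟨u, fun m => h8 ▸ h4 m⟩

omit [CharZero R] in
theorem v_tg_lt [Fintype ι] {Φ : MvPolynomial ι K} {u w : ι → K} {y : K} (hy : y ≠ 0)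
    (h : ∀ m, P.v (Φ.coeff m) ≤ P.v y) (hu : ∀ i, P.v (u i) ≤ 1) (hw : ∀ i, P.v (w i) < 1) :
    P.v (tg u w Φ) < P.v y := by
  rw [tg_eq_sum]
  refine P.v.map_sum_lt (P.v_ne hy) fun i _ => ?_
  have h1 : P.v (eval u (pderiv i Φ)) ≤ P.v y :=
    val_eval_le (W := P.O) (fun i => P.mem_iff.2 (hu i)) fun m => by
      change P.v _ ≤ _
      rw [coeff_pderiv, map_mul]
      exact (mul_le_of_le_one_right' (by exact_mod_cast P.v_nat_le (m i + 1))).trans (h _)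
  rw [map_mul]
  exact (mul_le_mul_left h1 _).trans_lt (mul_lt_of_lt_one_right (P.v_pos hy) (hw i))

/-- If `d` plus a field that kills `f` is small in the box `c + M O`, then `f` is bounded there. -/
theorem bdd_of_small [Fintype ι] [DecidableEq ι] {F : Subfield K} {d : Der K}
    (hd : ∀ x ∈ F, 1 < P.v x → P.v x ≤ P.v (d x)) {c b : ι → K} {M φ : Matrix ι ι K}
    (hM : M.det ≠ 0) (hcF : ∀ i, c i ∈ F) (hMF : ∀ i j, M i j ∈ F) {f : MvPolynomial ι K}
    (hf : Cf F f) (hf' : ∀ m, d (f.coeff m) = 0) (hk : ∀ x, tg x (φ *ᵥ x + b) f = 0)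
    (h1 : ∀ i j, P.v ((M⁻¹ * (φ * M - M.map d)) i j) < 1)
    (h2 : ∀ i, P.v ((M⁻¹ *ᵥ (φ *ᵥ c + b - dv c d)) i) < 1) {u₀ : ι → K}
    (hu₀ : ∀ i, P.v (u₀ i) ≤ 1) : P.v (eval (c + M *ᵥ u₀) f) ≤ 1 := by
  let G : ι → MvPolynomial ι K := fun i => C (c i) + ∑ j, C (M i j) * X j
  have hG : ∀ u : ι → K, (fun i => eval u (G i)) = c + M *ᵥ u := fun u => funext fun i => by
    simp [G, mulVec, dotProduct]
  have hG' : ∀ u w : ι → K, (fun i => tg u w (G i)) = M *ᵥ w := fun u w => funext fun i => by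
    simp [G, mulVec, dotProduct, tg_add, tg_sum, tg_mul]
  have hΦ : ∀ u : ι → K, eval u (aeval G f) = eval (c + M *ᵥ u) f := fun u => by
    rw [← hG, aeval_eq_bind₁, ← coe_aeval_eq_eval, ← coe_aeval_eq_eval]
    exact aeval_bind₁ u G f
  obtain ⟨n, hn⟩ := exists_nat_pt P (aeval G f)
  set u : ι → K := fun i => (n i : K)
  have hu : ∀ i, P.v (u i) ≤ 1 := fun i => P.v_nat_le _
  by_contra hc
  have h3 : 1 < P.v (eval u (aeval G f)) := (not_le.1 hc).trans_le (hΦ u₀ ▸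
    val_eval_le (W := P.O) (fun i => P.mem_iff.2 (hu₀ i)) hn)
  have h4 : eval u (aeval G f) ≠ 0 := fun e => by
    rw [e, map_zero] at h3
    exact not_lt_zero h3
  set w := (M⁻¹ * (φ * M - M.map d)) *ᵥ u + M⁻¹ *ᵥ (φ *ᵥ c + b - dv c d) with hw
  have h5 : ∀ i, P.v (w i) < 1 := fun i => P.v.map_add_lt (P.v.map_sum_lt one_ne_zero fun j _ => by
    rw [mul_comm]
    exact Plc.v_mul_lt (hu j) (h1 i j)) (h2 i)
  have h6 := v_tg_lt h4 hn hu h5
  have h7 : dv (c + M *ᵥ u) d = dv c d + M.map d *ᵥ u := funext fun i => by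
    simp [dv, mulVec, dotProduct, u, mul_comm]
  have h8 : dv (c + M *ᵥ u) d = (-1 : K) • (M *ᵥ w) + (φ *ᵥ (c + M *ᵥ u) + b) := by
    rw [h7, hw, mulVec_add, mulVec_mulVec, mulVec_mulVec, ← Matrix.mul_assoc,
      mul_nonsing_inv _ hM.isUnit, Matrix.one_mul, one_mulVec, sub_mulVec, mulVec_add,
      mulVec_mulVec, neg_one_smul]
    abel
  have h9 := hd _ (hf.eval_mem' le_rfl (x := c + M *ᵥ u) fun i => add_mem (hcF i)
    (sum_mem fun j _ => mul_mem (hMF i j) (natCast_mem F _))) (hΦ u ▸ h3)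
  rw [der_eval' d f hf', h8, tg_lin, hk, add_zero, neg_one_mul, Valuation.map_neg, ← hΦ] at h9
  rw [tg_aeval, hG, hG'] at h6
  exact h6.not_ge h9

end Pool.Agent.P.MP_f17f76_ag.E
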