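import Pool.Agent.P.MP_f17f76_ag.E.Gain2
import Pool.Agent.P.MP_f17f76_ag.E.PlcB
import Pool.Agent.P.MP_f17f76_ag.E.Tld

/-!
A divisorial place with the same residue point.
-/

namespace Pool.Agent.P.MP_f17f76_ag.E

open Set MvPolynomial

variable {ι κ : Type}

theorem unc_gain : Uncountable ℂ := Complex.ofReal_injective.uncountable

attribute [local instance] unc_gain

theorem exists_fin_acl {K : Type} [Field K] {F S U : Set K} (hU : U.Finite)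
    (h : U ⊆ acl (F ∪ S)) : ∃ T ⊆ S, T.Finite ∧ U ⊆ acl (F ∪ T) := by
  choose! T h1 h2 h3 h4 using fun x (hx : x ∈ U) =>
    Matroid.exists_mem_finite_closure_of_mem_closure (M := mt F) (X := S)
      (by rw [mt_closure]; exact h hx)
  refine ⟨⋃ x ∈ U, T x, iUnion₂_subset h1, hU.biUnion h2, fun x hx => ?_⟩
  have h5 := h4 x hx
  rw [mt_closure] at h5
  exact acl_mono (union_subset_union_right _ (subset_biUnion_of_mem hx)) h5

/-- A specialisation that keeps a transcendence basis independent is an isomorphism. -/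
theorem exists_equiv_spec [Finite ι] {F : Subfield ℂ} (hF : (F : Set ℂ).Countable) {a b : ι → ℂ}
    (e : κ → ι) (h1 : ∀ p, Cf F p → eval a p = 0 → eval b p = 0)
    (h2 : Ind (F : Set ℂ) (b ∘ e)) (h3 : range a ⊆ acl (F ∪ range (a ∘ e))) :
    ∃ σ : ℂ ≃+* ℂ, (∀ x ∈ F, σ x = x) ∧ ∀ i, σ (b i) = a i := by
  have : Countable F := hF
  have h4 : ∀ q : MvPolynomial ι F, eval₂Hom F.subtype a q = 0 → eval₂Hom F.subtype b q = 0 :=
    fun q hq => by simpa [eval_map] using h1 _ (cf_map q) (by simpa [eval_map] using hq)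
  obtain ⟨Q, hQ⟩ := Plc.exists_dom le_rfl _ _ h4
  have h5 : Q.IdOn F := fun x hx => by simpa using hQ (C ⟨x, hx⟩)
  have h6 : ∀ i, Q.v (a i) ≤ 1 ∧ Q.r (a i) = b i := fun i => by simpa using hQ (X i)
  have h7 : Q.Gauss F (a ∘ e) := ⟨fun i => (h6 _).1, by
    rw [h5.res, show Q.r ∘ a ∘ e = b ∘ e from funext fun i => (h6 _).2]
    exact h2⟩
  have h8 : ∀ q : MvPolynomial ι F, eval₂Hom F.subtype a q ∈ acl (F ∪ range (a ∘ e) : Set ℂ) :=
    fun q => by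
      rw [coe_eval₂Hom, ← eval_map]
      exact Cf.eval_mem' (cf_map q) (fun x hx => subset_acl _ (Or.inl hx)) fun i => h3 ⟨i, rfl⟩
  have h9 := h7.triv h5.triv
  obtain ⟨σ, hσ⟩ := exists_equiv_of_ker rfl (eval₂Hom F.subtype b) (eval₂Hom F.subtype a)
    fun q => ⟨fun hq => by_contra fun h0 =>
      Plc.r_ne_zero_iff.2 (h9.v_eq (h8 q) h0) ((hQ q).2.trans hq), h4 q⟩
  exact ⟨σ, fun x hx => by simpa using hσ (C ⟨x, hx⟩), fun i => by simpa using hσ (X i)⟩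

/-- Finitely many integral polynomials cut out the locus of a residue point. -/
theorem exists_lift_gens [Finite ι] (P : Plc ℂ ℂ) (L : Subfield ℂ) (a : ι → ℂ) :
    ∃ G : Set (MvPolynomial ι ℂ), G.Finite ∧
      (∀ q ∈ G, (∀ m, q.coeff m ∈ L ∧ P.v (q.coeff m) ≤ 1) ∧ eval a (P.rp q) = 0) ∧
      ∀ b : ι → ℂ, (∀ q ∈ G, eval b (P.rp q) = 0) →
        ∀ p, Cf (P.res L) p → eval a p = 0 → eval b p = 0 := by
  classical
  obtain ⟨G, hG⟩ := IsNoetherian.noetherian (R := MvPolynomial ι (P.res L))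
    (RingHom.ker (eval₂Hom (P.res L).subtype a))
  choose! s h1 h2 h3 using fun y (hy : y ∈ P.res L) => Plc.mem_res.1 hy
  let t : ℂ → ℂ := fun y => if y = 0 then 0 else s y
  have ht : ∀ y ∈ P.res L, t y ∈ L ∧ P.v (t y) ≤ 1 ∧ P.r (t y) = y := fun y hy => by
    by_cases h : y = 0
    · simp [t, h]
    · simpa [t, h] using ⟨h1 y hy, h2 y hy, h3 y hy⟩
  let l : MvPolynomial ι (P.res L) → MvPolynomial ι ℂ := fun q =>
    .ofCoeff (Finsupp.mapRange (fun y : P.res L => t y) (by simp [t]) (AddMonoidAlgebra.coeff q))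
  have hl : ∀ (q : MvPolynomial ι (P.res L)) m, (l q).coeff m = t (q.coeff m : P.res L) :=
    fun q m => rfl
  have hl' : ∀ q, P.rp (l q) = map (P.res L).subtype q := fun q => MvPolynomial.ext _ _ fun m => by
    rw [Plc.coeff_rp, hl, coeff_map]
    exact (ht _ (q.coeff m).2).2.2
  refine ⟨l '' G, G.finite_toSet.image _, forall_mem_image.2 fun q hq => ⟨fun m =>
    ⟨(ht _ (q.coeff m).2).1, (ht _ (q.coeff m).2).2.1⟩, ?_⟩, fun b hb p hp h0 => ?_⟩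
  · rw [hl', eval_map]
    exact hG.le (Submodule.subset_span hq)
  · obtain ⟨q, rfl⟩ := hp.exists
    rw [eval_map] at h0 ⊢
    refine (Submodule.span_le (p := RingHom.ker (eval₂Hom (P.res L).subtype b))).2
      (fun q hq => ?_) (hG.ge h0)
    have := hb _ (mem_image_of_mem l hq)
    rwa [hl', eval_map] at this

/-- The divisorial model of a valued point. -/
theorem exists_div [Finite ι] {P : Plc ℂ ℂ} {k k₃ L : Subfield ℂ} {E T : Set ℂ} {τ : ℂ}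
    {s : ι → ℂ} (e : κ → ι) [Finite κ] (hL : (L : Set ℂ).Countable) (hL' : acl (L : Set ℂ) ≤ L)
    (hE : E.Countable) (hk : acl (k : Set ℂ) ≤ k₃) (hk' : k₃ ≤ L) (hP : P.IdOn k₃) (hτ : τ ∈ L)
    (h0 : τ ≠ 0) (h1 : P.v τ < 1) (hT : T.Finite) (hT' : T ⊆ L) (hs : ∀ i, P.v (s i) ≤ 1)
    (hY : P.Gauss L (s ∘ e)) (hs' : range s ⊆ acl (L ∪ range (s ∘ e)))
    (hr : range (P.r ∘ s) ⊆ acl (P.res L ∪ range (P.r ∘ s ∘ e)))
    (hf : Free k (L ∪ range s) E) (hf' : Free k (P.res L ∪ range (P.r ∘ s)) E) :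
    ∃ (Q : Plc ℂ ℂ) (B F κ₀ : Subfield ℂ), k₃ ≤ B ∧ Q.Triv B ∧
      F = acl (B ∪ {τ}) ∧ F ≤ L ∧ T ⊆ F ∧ P.Agree Q T ∧ Q.v τ < 1 ∧ Q.IdOn (k₃ ∪ acl (k ∪ E)) ∧
      Q.Gauss F (s ∘ e) ∧ range s ⊆ acl (F ∪ range (s ∘ e)) ∧
      (∀ i, Q.v (s i) ≤ 1 ∧ Q.r (s i) = P.r (s i)) ∧ acl (κ₀ : Set ℂ) ≤ κ₀ ∧ k₃ ≤ κ₀ ∧
      κ₀ ≤ P.res L ∧ κ₀ ≤ Q.res F ∧ range (P.r ∘ s) ⊆ acl (κ₀ ∪ range (P.r ∘ s ∘ e)) ∧
      Free k (Q.res F ∪ range (P.r ∘ s)) E := by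
  have hres : acl (P.res L : Set ℂ) = P.res L := by
    rw [← Plc.res_acl, hL'.antisymm (subset_acl _)]
  obtain ⟨G, hG, hG1, hG2⟩ := exists_lift_gens P L (P.r ∘ s)
  obtain ⟨C₀, hC1, hC2, hC3⟩ := exists_fin_acl (finite_range _) (union_comm _ _ ▸ hr)
  obtain ⟨C₁, hC4, hC5, hC6⟩ := exists_fin_acl (finite_range _) (union_comm _ _ ▸ hs')
  choose! t ht1 ht2 using fun y (hy : y ∈ C₀) => hC1 hy
  obtain ⟨S₀, hS1, hS2, hS3⟩ := Plc.tld_new hL hY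
    ((finite_range s).union (hG.image (eval s))) (union_subset hs' (image_subset_iff.2 fun q hq =>
      Cf.eval_mem' (k := L) (fun m => ((hG1 q hq).1 m).1) (fun x hx => subset_acl _ (Or.inl hx))
        fun i => hs' ⟨i, rfl⟩))
  set U := T ∪ S₀ ∪ C₁ ∪ t '' C₀ ∪ ⋃ q ∈ G, (q.coeffs : Set ℂ) with hU
  have hU1 : U.Finite := (((hT.union hS1).union hC5).union (hC2.image _)).union
    (hG.biUnion fun q _ => q.coeffs.finite_toSet)
  have hU2 : (k₃ : Set ℂ) ∪ U ⊆ L := union_subset hk' (union_subset (union_subset (union_subset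
    (union_subset hT' hS2) hC4) (image_subset_iff.2 ht1)) (iUnion₂_subset fun q hq x hx => by
      obtain ⟨m, -, rfl⟩ := mem_coeffs_iff.1 hx
      exact ((hG1 q hq).1 m).1))
  obtain ⟨P₁, n, x, -, hx1, hx2, hx3, hP1, -⟩ := Plc.dvrc le_rfl (hL.mono hk') hP.triv hU1 h0 h1
  obtain ⟨Y', hY'⟩ := exists_ind (P₁.countable_res hL) κ
  obtain ⟨P₃, hP2, -, hP3, hP4⟩ := hS3 ℂ le_rfl P₁ Y' hY' fun a ha => (hP1 a (by simp [hU, ha])).1
  have hP5 : P.Agree P₃ (k₃ ∪ U) := hP1.trans (hP2.mono hU2)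
  have hs3 : ∀ i, P₃.v (s i) ≤ 1 := fun i => (hP4 _ (Or.inl ⟨i, rfl⟩)).1.1 (hs i)
  have hG3 : ∀ q ∈ G, eval (P₃.r ∘ s) (P.rp q) = 0 := fun q hq => by
    have h2 : ∀ m, P₃.v (q.coeff m) ≤ 1 ∧ P₃.r (q.coeff m) = P.r (q.coeff m) := fun m => by
      by_cases h : q.coeff m = 0
      · simp [h]
      · have h3 := hP5 (q.coeff m) (Or.inr (Or.inr (mem_biUnion hq (coeff_mem_coeffs m h))))
        exact ⟨h3.1.1 ((hG1 q hq).1 m).2, h3.2.symm⟩
    have h3 := Plc.v_eval_le (fun m => ((hG1 q hq).1 m).2) hs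
    rw [← show P₃.rp q = P.rp q from MvPolynomial.ext _ _ fun m => (h2 m).2,
      ← (Plc.v_eval_le (fun m => (h2 m).1) hs3).2]
    exact Plc.r_of_lt ((hP4 _ (Or.inr ⟨q, hq, rfl⟩)).2.1
      ((Plc.r_eq_zero_iff h3.1).1 (h3.2.trans (hG1 q hq).2)))
  set F := acl (k₃ ∪ U ∪ {τ} : Set ℂ) with hF
  have hF1 : F ≤ L := (acl_mono (union_subset hU2 (singleton_subset_iff.2 hτ))).trans hL'
  have hF2 : (k₃ : Set ℂ) ∪ U ⊆ F := subset_union_left.trans (subset_acl _)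
  set κ₀ := acl (P.r '' (k₃ ∪ U)) with hκ
  have hκ1 : κ₀ ≤ P.res L := (acl_mono (image_mono hU2)).trans hres.le
  have hκ2 : κ₀ ≤ P₃.res F := by
    rw [hF, ← acl_acl, Plc.res_acl]
    exact acl_mono (image_subset_iff.2 fun a ha => ⟨a, hF2 ha, (hP5 a ha).2.symm⟩)
  have hκ3 : k₃ ≤ κ₀ := fun a ha => subset_acl _ ⟨a, Or.inl ha, (hP a ha).2⟩
  have hκ4 : range (P.r ∘ s) ⊆ acl (κ₀ ∪ range (P.r ∘ s ∘ e)) := hC3.trans (acl_mono
    (union_subset subset_union_right fun y hy => Or.inl (subset_acl _ ⟨t y,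
      Or.inr (by simp [hU, mem_image_of_mem t hy]), ht2 y hy⟩)))
  have hκ5 : (κ₀ : Set ℂ).Countable := (P.countable_res hL).mono hκ1
  obtain ⟨γ, hγ1, hγ2⟩ := exists_equiv_spec hκ5 e (fun p hp => hG2 _ hG3 p (hp.mono hκ1))
    (hP3.2.anti ((hκ2.trans (Plc.res_mono hF1)).trans (subset_acl _))) hκ4
  obtain ⟨γ', hγ3, hγ4⟩ := exists_fresh (hκ5.union (countable_range (P.r ∘ s)))
    ((P₃.countable_res hL).image γ) hE
  set P₄ := P₃.map (γ.trans γ' : ℂ →+* ℂ)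
  have hγ5 : ∀ a ∈ κ₀, (γ.trans γ' : ℂ →+* ℂ) a = a := fun a ha =>
    (congrArg γ' (hγ1 a ha)).trans (hγ3 a (subset_acl _ (Or.inl ha)))
  have hP6 : P.Agree P₄ (k₃ ∪ U) := fun a ha => ⟨(hP5 a ha).1, by
    rw [Plc.map_r, ← (hP5 a ha).2, hγ5 _ (subset_acl _ (mem_image_of_mem _ ha))]⟩
  have hkc : (k : Set ℂ) ⊆ L := (subset_acl _).trans (hk.trans hk')
  obtain ⟨Q, hQ1, hQ2⟩ := Plc.fresh (φ := RingHom.id ℂ) le_rfl (hL.mono hkc)
    (hL.union (countable_range s)) hE hf (((hP6.mono subset_union_left).lifts hP).mono hk)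
  have hQ3 : P₄.Agree Q (L ∪ range s) := hQ1.mono (subset_union_right.trans (subset_acl _))
  have hQ4 := hQ3.mono subset_union_left
  have hQ5 := hP6.trans (hQ4.mono hU2)
  have hx4 : acl (k₃ ∪ range x : Set ℂ) ≤ L :=
    ((acl_mono subset_union_left).trans hx3.le).trans hF1
  have hQ6 : Q.res F = (P₃.res F).map (γ.trans γ' : ℂ →+* ℂ) := by
    rw [← hQ4.res hF1, Plc.map_res]
  refine ⟨Q, acl (k₃ ∪ range x), F, κ₀, subset_union_left.trans (subset_acl _),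
    fun a ha => (hQ4 a (hx4 ha)).1.1 ((hP2 a (hx4 ha)).1.1 (hx1 a ha)), ?_, hF1,
    fun a ha => hF2 (by simp [hU, ha]), hQ5.mono fun a ha => by simp [hU, ha],
    (hQ4.lt_one hτ).1 ((hP2.lt_one hτ).1 hx2), ((hQ5.mono subset_union_left).lifts hP).union hQ2,
    (hQ3.gauss subset_union_left (fun i => Or.inr ⟨_, rfl⟩) ((Plc.map_gauss _).2 hP3)).mono hF1,
    hC6.trans (acl_mono (union_subset subset_union_right fun a ha => Or.inl (hF2 (by
      simp [hU, ha])))), fun i => ⟨(hQ3 _ (Or.inr ⟨i, rfl⟩)).1.1 (hs3 i), ?_⟩, (acl_acl _).le,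
    hκ3, hκ1, fun a ha => hQ6 ▸ ⟨a, hκ2 ha, hγ5 a ha⟩, hκ4, ?_⟩
  · rw [acl_acl_union, hx3]
  · rw [← (hQ3 _ (Or.inr ⟨i, rfl⟩)).2, Plc.map_r]
    exact (congrArg γ' (hγ2 i)).trans (hγ3 _ (subset_acl _ (Or.inr ⟨i, rfl⟩)))
  · have h2 := hf'.mono (union_subset_union_left _ hκ1) (subset_union_right.trans (subset_acl _))
    have h3 : (k : Set ℂ) ∪ (κ₀ ∪ range (P.r ∘ s)) = (κ₀ : Set ℂ) ∪ range (P.r ∘ s) :=
      union_eq_right.2 (((subset_acl _).trans (hk.trans hκ3)).trans subset_union_left)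
    refine (h2.symm.trans (h3 ▸ hγ4.symm)).symm.mono ?_ (subset_union_right.trans (subset_acl _))
    rw [hQ6]
    rintro _ (⟨a, ha, rfl⟩ | ha)
    · exact Or.inr ⟨_, ⟨a, Plc.res_mono hF1 ha, rfl⟩, rfl⟩
    · exact Or.inl (Or.inr ha)

end Pool.Agent.P.MP_f17f76_ag.E
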