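import Pool.Agent.P.MP_f17f76_ag.E.Gain3
import Pool.Agent.P.MP_f17f76_ag.E.Tch
import Pool.Agent.P.MP_f17f76_ag.E.PlcD

/-!
Reduction of thin derivations and of affine fields.
-/

namespace Pool.Agent.P.MP_f17f76_ag.AbVar

open Set Module E Matrix

variable {g N : ℕ} {A : AbVar g N} {ι μ κ : Type} {k F : Subfield ℂ} {P : Plc ℂ ℂ}
  {a b : Fin g → ℂ} {θ : κ → Fin g → ℂ} {δ : Der ℂ} {u : ι → ℂ} {Y : μ → ℂ}
  {R : Submodule ℂ (ι → ℂ)} [Fintype ι] [Fintype κ]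

/-- A thin derivation that is small on the base and integral on `u` has a thin reduction. -/
theorem Over.res_sym [Finite μ] (hA : A.Over k) (hP : P.IdOn k) (hk : k ≤ F) (hY : P.Gauss F Y)
    (hu : ∀ i, u i ∈ acl (F ∪ range Y) ∧ P.v (u i) ≤ 1) (ha : ∀ j, A.crd a j ∈ acl (F ∪ range Y))
    (hr : A.Red P a b) (hθ : ∀ j l, P.v (θ j l) ≤ 1 ∧ P.r (θ j l) = θ j l)
    (hN : A.Ndg R (P.res F) (P.r ∘ u) b θ)
    (hY' : ∀ j, P.r (Y j) ∈ acl (P.res F ∪ (range (P.r ∘ u) ∪ range (A.crd b))))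
    (hδ : δ ∈ kil (k : Set ℂ)) (h1 : P.Ctr δ F) (h2 : ∀ x ∈ F, P.v x ≤ 1 → P.v (δ x) < 1)
    (h3 : A.pv θ a δ = 0) (h4 : ∀ i, P.v (δ (u i)) ≤ 1) :
    ∃ D ∈ A.thin (P.res F) b θ, dv (P.r ∘ u) D = P.r ∘ dv u δ := by
  have hF : F ≤ acl (F ∪ range Y : Set ℂ) := subset_union_left.trans (subset_acl _)
  have key : ∀ c : ℂ, P.v c ≤ 1 → (∀ j, P.v (c * δ (Y j)) ≤ 1) → ∃ D ∈ A.thin (P.res F) b θ,
      ∀ x ∈ acl (F ∪ range Y : Set ℂ), P.v x ≤ 1 → D (P.r x) = P.r (c * δ x) := fun c hc h5 => by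
    have h6 := hY.ctr_acl (h1.smul hc) h5
    obtain ⟨D, hD⟩ := h6.exists_res
    refine ⟨D, ⟨fun y hy => ?_, funext fun j => ?_⟩, hD⟩
    · obtain ⟨x, hx, hx1, rfl⟩ := Plc.mem_res.1 hy
      exact (hD x (hF hx) hx1).trans (Plc.r_of_lt (Plc.v_mul_lt hc (h2 x hx hx1)))
    · rw [← hA.res_pv hP hr hθ (hk.trans hF) ha (Submodule.smul_mem _ c hδ) h6 hD, map_smul, h3]
      simp
  have h5 : ∀ j, P.v (δ (Y j)) ≤ 1 := fun j => not_lt.1 fun hj => by
    have : Nonempty μ := ⟨j⟩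
    obtain ⟨m, hm⟩ := Finite.exists_max fun j => P.v (δ (Y j))
    have h6 := hj.trans_le (hm j)
    have h0 : δ (Y m) ≠ 0 := fun e => by simp [e] at h6
    have h7 := (P.v_inv_lt_one h0).2 h6
    obtain ⟨D, hD, h8⟩ := key _ h7.le fun j => by
      rw [inv_mul_eq_div, P.v_div_le_one h0]
      exact hm j
    have h9 := hN.kil hD.1 (fun n _ => by
      rw [show dv (P.r ∘ u) D = 0 from funext fun i => (h8 _ (hu i).1 (hu i).2).trans
        (Plc.r_of_lt (mul_comm _ (δ _) ▸ Plc.v_mul_lt (h4 i) h7)), dotProduct_zero]) hD.2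
    have h10 := h8 _ (mem_acl_of_mem (Or.inr ⟨m, rfl⟩)) (hY.1 m)
    rw [inv_mul_cancel₀ h0, P.r_one, mem_cst.1 (acl_le_cst (D := D)
      (by rw [kil_union]; exact ⟨hD.1, h9⟩) (hY' m))] at h10
    exact zero_ne_one h10
  obtain ⟨D, hD, h6⟩ := key 1 (by simp) (by simpa using h5)
  exact ⟨D, hD, funext fun i => by simpa using h6 _ (hu i).1 (hu i).2⟩

end Pool.Agent.P.MP_f17f76_ag.AbVar

namespace Pool.Agent.P.MP_f17f76_ag.E

open Set Module Matrix MvPolynomial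

variable {K R ι σ μ : Type} [Field K] [Field R] {P : Plc K R} {F : Subfield K}

theorem exists_int_comb [Fintype σ] [Fintype μ] {V : μ → σ → K} (hV : LinearIndependent K V)
    (hF : ∀ l i, V l i ∈ F) : ∃ e : μ → μ → K,
      (∀ l i, (∑ m, e l m • V m) i ∈ F ∧ P.v ((∑ m, e l m • V m) i) ≤ 1) ∧
      LinearIndependent R fun l => P.r ∘ ∑ m, e l m • V m := by
  classical
  obtain ⟨s, b, h1, h2, -⟩ := P.latt (ov_span (k := F) (s := range V) (forall_mem_range.2 hF))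
  rw [finrank_span_eq_card hV, ← Fintype.card_coe] at h1
  obtain ⟨ε⟩ := Fintype.card_eq.1 h1.symm
  choose e he using fun l => (Submodule.mem_span_range_iff_exists_fun K).1 (h2 _ (ε l).2).1
  refine ⟨e, fun l => (he l).symm ▸ (h2 _ (ε l).2).2.1,
    Fintype.linearIndependent_iff.2 fun c hc l => ?_⟩
  have h3 := congrFun hc (ε l)
  rw [Finset.sum_apply, Finset.sum_eq_single l] at h3
  · simpa [he, (h2 _ (ε l).2).2.2 _ (ε l).2] using h3
  · intro m _ hm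
    have : ((ε m : s) : σ) ≠ ε l := fun e => hm (ε.injective (Subtype.ext e))
    simp [he, (h2 _ (ε m).2).2.2 _ (ε l).2, this]
  · simp

variable (K ι) in
/-- The list of the coefficients of an affine field. -/
def flt : (Matrix ι ι K × (ι → K)) →ₗ[K] (ι × ι ⊕ ι → K) where
  toFun x := Sum.elim (fun p => x.1 p.1 p.2) x.2
  map_add' x y := by ext (p | i) <;> rfl
  map_smul' c x := by ext (p | i) <;> rfl

variable [Fintype ι] [DecidableEq ι]

/-- The field `e d + (z ↦ φ z + b)` in the coordinates `M⁻¹ (z - c)`. -/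
noncomputable def fld (M : Matrix ι ι K) (c : ι → K) (d : Der K) :
    (K × Matrix ι ι K × (ι → K)) →ₗ[K] Matrix ι ι K × (ι → K) where
  toFun x := (M⁻¹ * (x.2.1 * M - x.1 • M.map d), M⁻¹ *ᵥ (x.2.1 *ᵥ c + x.2.2 - x.1 • dv c d))
  map_add' x y := Prod.ext (by
    simp only [Prod.fst_add, Prod.snd_add, ← Matrix.mul_add, Matrix.add_mul, add_smul]
    congr 1
    abel) (by
    simp only [Prod.fst_add, Prod.snd_add, ← mulVec_add, add_mulVec, add_smul]
    congr 1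
    abel)
  map_smul' a x := Prod.ext (by
    simp only [Prod.smul_fst, Prod.smul_snd, RingHom.id_apply, ← Matrix.mul_smul, smul_sub,
      Matrix.smul_mul, smul_eq_mul, mul_smul]) (by
    simp only [Prod.smul_fst, Prod.smul_snd, RingHom.id_apply, ← mulVec_smul, smul_sub, smul_add,
      smul_mulVec, smul_eq_mul, mul_smul])

/-- The integral fields have `h + 1` independent reductions. -/
theorem exists_fields [CharZero R] {d : Der K} (hd : ∀ x ∈ F, 1 < P.v x → P.v x ≤ P.v (d x))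
    (hd' : ∀ x ∈ F, d x ∈ F) {c u₀ : ι → K} {M : Matrix ι ι K} (hM : M.det ≠ 0)
    (hcF : ∀ i, c i ∈ F) (hMF : ∀ i j, M i j ∈ F) {f : MvPolynomial ι K} (hf : Cf F f)
    (hf' : ∀ m, d (f.coeff m) = 0) {h : ℕ} {ξ : Fin h → Matrix ι ι K × (ι → K)}
    (hξ : LinearIndependent K ξ) (hξF : ∀ l, (∀ i j, (ξ l).1 i j ∈ F) ∧ ∀ i, (ξ l).2 i ∈ F)
    (hk : ∀ l x, tg x ((ξ l).1 *ᵥ x + (ξ l).2) f = 0) (hu₀ : ∀ i, P.v (u₀ i) ≤ 1)
    (h1 : 1 < P.v (eval (c + M *ᵥ u₀) f)) :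
    ∃ η : Fin (h + 1) → K × Matrix ι ι K × (ι → K),
      (∀ l, (η l).2 ∈ Submodule.span K (range ξ) ∧ P.v (η l).1 ≤ 1 ∧
        ∀ i, flt K ι (fld M c d (η l)) i ∈ F ∧ P.v (flt K ι (fld M c d (η l)) i) ≤ 1) ∧
      LinearIndependent R fun l =>
        (((fld M c d (η l)).1.map P.r, P.r ∘ (fld M c d (η l)).2) : Matrix ι ι R × (ι → R)) := by
  have h2 : ∀ ζ ∈ Submodule.span K (range ξ), ∀ x, tg x (ζ.1 *ᵥ x + ζ.2) f = 0 := fun ζ hζ x => by
    obtain ⟨e, rfl⟩ := (Submodule.mem_span_range_iff_exists_fun K).1 hζ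
    simp only [tg_eq_sum] at hk ⊢
    simp only [Prod.fst_sum, Prod.snd_sum, sum_mulVec, ← Finset.sum_add_distrib, Finset.sum_apply,
      Finset.mul_sum, Prod.smul_fst, Prod.smul_snd, smul_mulVec, ← smul_add, Pi.smul_apply,
      smul_eq_mul]
    rw [Finset.sum_comm]
    exact Finset.sum_eq_zero fun l _ => by
      simp only [mul_left_comm _ (e l), ← Finset.mul_sum, hk, mul_zero]
  have h3 : ∀ x : K × Matrix ι ι K × (ι → K), x.2 ∈ Submodule.span K (range ξ) → x.1 ≠ 0 →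
      ¬ ∀ i, P.v (flt K ι (fld M c d x) i) < P.v x.1 := fun x hx h0 hc => by
    have h4 : ∀ i, P.v (flt K ι (fld M c d (x.1⁻¹ • x)) i) < 1 := fun i => by
      rw [map_smul, map_smul, Pi.smul_apply, smul_eq_mul, inv_mul_eq_div, P.v_div_lt_one h0]
      exact hc i
    have h5 : (x.1⁻¹ • x).1 = 1 := inv_mul_cancel₀ h0
    refine h1.not_ge (bdd_of_small hd hM hcF hMF hf hf' (h2 _ (Submodule.smul_mem _ x.1⁻¹ hx))
      (fun i j => ?_) (fun i => ?_) hu₀)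
    · have : P.v ((M⁻¹ * ((x.1⁻¹ • x).2.1 * M - (x.1⁻¹ • x).1 • M.map d)) i j) < 1 :=
        h4 (.inl (i, j))
      rwa [h5, one_smul] at this
    · have : P.v ((M⁻¹ *ᵥ (_ - (x.1⁻¹ • x).1 • dv c d)) i) < 1 := h4 (.inr i)
      rwa [h5, one_smul] at this
  let η : Fin (h + 1) → K × Matrix ι ι K × (ι → K) := Fin.cons (1, 0) fun l => (0, ξ l)
  have h4 : ∀ e : Fin (h + 1) → K, ∑ m, e m • η m = (e 0, ∑ l, e l.succ • ξ l) := fun e => by
    rw [Fin.sum_univ_succ]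
    exact Prod.ext (by simp [η, Prod.fst_sum]) (by simp [η, Prod.snd_sum])
  have h5 : ∀ e : Fin (h + 1) → K, (∑ m, e m • η m).2 ∈ Submodule.span K (range ξ) := fun e =>
    h4 e ▸ (Submodule.mem_span_range_iff_exists_fun K).2 ⟨_, rfl⟩
  have h6 : ∀ e : Fin (h + 1) → K, ∑ m, e m • flt K ι (fld M c d (η m)) =
      flt K ι (fld M c d (∑ m, e m • η m)) := fun e => by simp
  have h7 : LinearIndependent K fun m => flt K ι (fld M c d (η m)) :=
    Fintype.linearIndependent_iff.2 fun e he => by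
      rw [h6] at he
      have h8 : (∑ m, e m • η m).1 = 0 := by_contra fun h0 =>
        h3 _ (h5 e) h0 fun i => by
          rw [he, Pi.zero_apply, map_zero]
          exact P.v_pos h0
      have h9 : (∑ m, e m • η m).2.1 = 0 := by
        have : M⁻¹ * ((∑ m, e m • η m).2.1 * M - (∑ m, e m • η m).1 • M.map d) = 0 :=
          Matrix.ext fun i j => congrFun he (.inl (i, j))
        rw [h8, zero_smul, sub_zero] at this
        simpa [hM, ← Matrix.mul_assoc, Matrix.mul_nonsing_inv_cancel_right] using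
          congrArg (M * · * M⁻¹) this
      have h10 : (∑ m, e m • η m).2.2 = 0 := by
        have : M⁻¹ *ᵥ ((∑ m, e m • η m).2.1 *ᵥ c + (∑ m, e m • η m).2.2 -
          (∑ m, e m • η m).1 • dv c d) = 0 := funext fun i => congrFun he (.inr i)
        rw [h8, h9, zero_smul, sub_zero, zero_mulVec, zero_add] at this
        simpa [hM] using congrArg (M *ᵥ ·) this
      rw [h4] at h8 h9 h10
      exact Fin.cases h8 (Fintype.linearIndependent_iff.1 hξ _ (Prod.ext h9 h10))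
  have h8 : ∀ {A B : Matrix ι ι K}, (∀ i j, A i j ∈ F) → (∀ i j, B i j ∈ F) →
      ∀ i j, (A * B) i j ∈ F := fun hA hB i j => sum_mem fun l _ => mul_mem (hA i l) (hB l j)
  have h9 : ∀ {A : Matrix ι ι K} {x : ι → K}, (∀ i j, A i j ∈ F) → (∀ i, x i ∈ F) →
      ∀ i, (A *ᵥ x) i ∈ F := fun hA hx i => sum_mem fun l _ => mul_mem (hA i l) (hx l)
  have h10 : ∀ m, (η m).1 ∈ F ∧ (∀ i j, (η m).2.1 i j ∈ F) ∧ ∀ i, (η m).2.2 i ∈ F :=
    Fin.cases ⟨one_mem F, fun _ _ => zero_mem F, fun _ => zero_mem F⟩ fun l => ⟨zero_mem F, hξF l⟩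
  obtain ⟨e, he1, he2⟩ := exists_int_comb (P := P) (F := F) h7 fun m => Sum.rec
    (fun p => h8 (inv_mem_sub hMF) (fun i j => sub_mem (h8 (h10 m).2.1 hMF i j)
      (mul_mem (h10 m).1 (hd' _ (hMF i j)))) p.1 p.2)
    (h9 (inv_mem_sub hMF) fun i => sub_mem (add_mem (h9 (h10 m).2.1 hcF i) ((h10 m).2.2 i))
      (mul_mem (h10 m).1 (hd' _ (hcF i))))
  simp only [h6] at he1 he2
  refine ⟨fun l => ∑ m, e l m • η m, fun l => ⟨h5 _, not_lt.1 fun hc => h3 _ (h5 _) (fun h0 => by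
    simp [h0] at hc) fun i => (he1 l i).2.trans_lt hc, he1 l⟩, .of_comp (flt R ι) ?_⟩
  have h11 : ∀ x : Matrix ι ι K × (ι → K), flt R ι (x.1.map P.r, P.r ∘ x.2) = P.r ∘ flt K ι x :=
    fun x => _root_.funext fun i => by cases i <;> rfl
  rwa [show (flt R ι ∘ _) = _ from _root_.funext fun l => h11 _]

end Pool.Agent.P.MP_f17f76_ag.E
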