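import Pool.Agent.P.MP_f17f76_ag.E.HgcBas

/-!
Transport of objects, positivity and states along automorphisms; change of the base.
-/

namespace Pool.Agent.P.MP_f17f76_ag.Hgc

open Set Module Matrix E AbVar

variable {g N : ℕ} {ι κ : Type} {A : AbVar g N} {B B' T : Set ℂ} {k k₁ L : Subfield ℂ}
  {a b b' : Fin g → ℂ} {P Q : Plc ℂ ℂ} {σ : ℂ ≃+* ℂ} {s : ℂ} {m : ι → ℕ} {G : Matrix ι ι ℂ}
  {o o' : Ob ι κ g}

instance uncC : Uncountable ℂ := Complex.ofReal_injective.uncountable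

theorem exists_pt (hA : A.Over k) (φ : ℂ →+* ℂ) (h : ∀ x ∈ k, φ x = x) (a : Fin g → ℂ) :
    ∃ a', A.crd a' = φ ∘ A.crd a :=
  (hA.exists_map isLie_top (w := a) trivial φ h).imp fun _ h => h.2

theorem free_cj {F S T : Set ℂ} (σ : ℂ ≃+* ℂ) (h : Free F S T) :
    Free (σ '' F) (σ '' S) (σ '' T) := (free_map (σ : ℂ →+* ℂ)).2 h

theorem notMem_cj {S : Set ℂ} (σ : ℂ ≃+* ℂ) (h : s ∉ acl S) : σ s ∉ acl (σ '' S) :=
  fun e => h ((mem_acl_map (σ : ℂ →+* ℂ)).1 e)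

theorem image_acl (σ : ℂ ≃+* ℂ) (S : Set ℂ) : σ '' acl S = acl (σ '' S) :=
  map_acl (σ : ℂ →+* ℂ) S

theorem Ob.Cj.pt (h : Ob.Cj A σ o o') : pt A o'.z o'.a = σ '' pt A o.z o.a := by
  rw [h.z, pt_map h.a]

theorem Ob.Cj.base (h : Ob.Cj A σ o o') : (o'.k : Set ℂ) = σ '' o.k := by
  rw [h.k, image_fix h.fix]

theorem Ob.Cj.θ' (h : Ob.Cj A σ o o') : o'.θ = fun j => σ ∘ o.θ j := funext h.θ

/-- The residue map can be made the identity on the algebraic closure. -/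
theorem exists_idOn_acl (hP : P.IdOn B) (hB : B.Countable) :
    ∃ γ : ℂ ≃+* ℂ, (∀ x ∈ Subfield.closure B, γ x = x) ∧ (P.map (γ : ℂ →+* ℂ)).IdOn (acl B) := by
  have h1 : P.Triv (acl B) := by simpa only [acl_closure] using hP.closure.triv.acl
  have : Countable (acl B) := countable_acl hB
  let f : acl B →+* ℂ := P.ρ.comp (Subring.inclusion (S := (acl B).toSubring) (T := P.O.toSubring)
    fun x hx => P.mem_iff.2 (h1 x hx))
  have h2 : ∀ x : acl B, f x = P.r x := fun x => (Plc.r_eq (h1 x x.2)).symm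
  obtain ⟨γ, h3⟩ := exists_equiv_of_ker rfl f (acl B).subtype fun r => by simp
  refine ⟨γ, fun x hx => ?_, fun x hx => ⟨h1 x hx, ?_⟩⟩
  · have := h3 ⟨x, closure_le_acl B hx⟩
    rwa [h2, (hP.closure x hx).2] at this
  · rw [Plc.map_r, ← h2 ⟨x, hx⟩]
    exact h3 _

variable [Fintype ι] [DecidableEq ι]

theorem map_inv_mulVec (σ : ℂ ≃+* ℂ) (hG : G.det ≠ 0) (z : ι → ℂ) :
    (G.map σ)⁻¹ *ᵥ (σ ∘ z) = σ ∘ (G⁻¹ *ᵥ z) :=
  (congrArg (· *ᵥ _) (map_inv' (σ : ℂ →+* ℂ) hG)).trans (map_mulVec' (σ : ℂ →+* ℂ) _ _)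

omit [DecidableEq ι] in
theorem bar_cj (w : Fr ι) (h : ∀ i j, σ (w.G i j) = w.G i j) (R : Submodule ℂ (ι → ℂ)) :
    w.bar (cj σ R) = cj σ (w.bar R) := by
  rw [Fr.bar, Fr.bar, cj_ini, cj_act, show w.G.map σ = w.G from Matrix.ext h]

theorem finrank_bar {w : Fr ι} (h : w.G.det ≠ 0) (R : Submodule ℂ (ι → ℂ)) :
    finrank ℂ (w.bar R) = finrank ℂ R := by rw [Fr.bar, finrank_ini, finrank_act h]

theorem PosAt.anti (h : PosAt A o k₁ B s m P G b) (hB : B' ⊆ B) : PosAt A o k₁ B' s m P G b :=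
  ⟨h.id.mono hB, h.ne, h.lt, h.gr, h.int, h.red, h.sur.anti (sub_acl hB)⟩

theorem PosAt.agree (h : PosAt A o k₁ B s m P G b) (hQ : P.Agree Q L) (hB : Q.IdOn B)
    (hk : k₁ ≤ L) (hs : s ∈ L) (hz : pt A o.z o.a ⊆ L) : PosAt A o k₁ B s m Q G b := by
  have h1 : ∀ j, s ^ m j * (G⁻¹ *ᵥ o.z) j ∈ L := fun j => mul_mem (pow_mem hs _)
    (mulVec_mem (fun i j => hk (h.gr.inv.mem i j)) (fun j => hz (mem_pt_left j)) j)
  refine ⟨hB, h.ne, (hQ.lt_one hs).1 h.lt, h.gr, fun j => (hQ _ (h1 j)).1.1 (h.int j),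
    h.red.agree hQ fun j => hz (mem_pt_right j), ?_⟩
  simpa only [fun j => (hQ _ (h1 j)).2] using h.sur

/-- Transport of positivity data. -/
theorem PosAt.cj (h : PosAt A o k₁ B s m P G b) (hA : A.Over o.k) (hk : (o.k : Set ℂ) ⊆ acl B)
    (hc : Ob.Cj A σ o o') (hb : A.crd b' = σ ∘ A.crd b) :
    PosAt A o' (k₁.map (σ : ℂ →+* ℂ)) (σ '' B) (σ s) m (P.conj σ) (G.map σ) b' := by
  have h1 : ∀ j, σ s ^ m j * ((G.map σ)⁻¹ *ᵥ o'.z) j = σ (s ^ m j * (G⁻¹ *ᵥ o.z) j) := fun j => by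
    rw [hc.z, map_inv_mulVec σ h.gr.det, map_mul, map_pow, Function.comp_apply]
  refine ⟨(Plc.conj_idOn σ).2 h.id, (map_ne_zero σ).2 h.ne, (Plc.conj_lt_one σ).2 h.lt,
    hc.r ▸ h.gr.map fun x hx => ⟨x, hx, rfl⟩, fun j => h1 j ▸ (Plc.conj_le_one σ).2 (h.int j),
    h.red.conj σ hc.a hb, ?_⟩
  simp only [h1, Plc.conj_r]
  rw [hc.N, hc.θ', ← cj_act, ← cj_ini]
  exact h.sur.map hA hk hc.fix hb

/-- Change of the residue map by an automorphism. -/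
theorem PosAt.post (h : PosAt A o k₁ B s m P G b) (hA : A.Over o.k) (hk : (o.k : Set ℂ) ⊆ acl B)
    (hσ : ∀ x ∈ L, σ x = x) (hB : B ⊆ L) (h0 : o.k ≤ L) (h1 : k₁ ≤ L) (hN : Ov L o.N)
    (hθ : ∀ j i, o.θ j i ∈ L) (hb : A.crd b' = σ ∘ A.crd b) :
    PosAt A o k₁ B s m (P.map (σ : ℂ →+* ℂ)) G b' := by
  refine ⟨fun x hx => ⟨(h.id x hx).1, by rw [Plc.map_r, (h.id x hx).2]; exact hσ x (hB hx)⟩, h.ne,
    h.lt, h.gr, h.int, h.red.map _ hb, ?_⟩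
  have h2 := h.sur.map hA hk (fun x hx => hσ x (h0 hx)) hb
  rw [((hN.act fun i j => h1 (h.gr.mem i j)).ini m).cj_eq hσ, image_fix fun x hx => hσ x (hB hx),
    show (fun j => σ ∘ o.θ j) = o.θ from funext fun j => funext fun i => hσ _ (hθ j i)] at h2
  simp only [Plc.map_r]
  exact h2

theorem Pos.cj (h : Pos A o m) (hA : A.Over o.k) (hc : Ob.Cj A σ o o') : Pos A o' m := by
  obtain ⟨k₁, s, P, G, b, h1, h2, h3, h4, h5⟩ := h
  obtain ⟨b', hb⟩ := exists_pt hA σ hc.fix b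
  have h6 := h5.cj hA (sub_acl fun _ hx => Or.inl (Or.inl (h2 hx))) hc hb
  have h7 := free_cj σ h3
  have h8 := notMem_cj σ h4
  simp only [image_union, ← hc.k', ← hc.E, ← hc.pt, ← hc.base] at h6 h7 h8
  exact ⟨_, _, _, _, _, h1.map σ, fun x hx => ⟨x, h2 (hc.k ▸ hx), hc.fix x (hc.k ▸ hx)⟩, h7, h8, h6⟩

theorem desc (A : AbVar g N) : S_DESC A := by
  intro ι κ _ _ _ _ o k₁ k'' m h1 h2 h3 ⟨k₂, s, P, G, b, h4, h5, h6, h7, h8⟩
  have h9 : (o.E : Set ℂ) ⊆ acl (k₁ ∪ o.E : Set ℂ) := sub_acl subset_union_right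
  have h10 : (k₂ ∪ o.k' ∪ o.E : Set ℂ) ⊆ k₂ ∪ k'' ∪ acl (k₁ ∪ o.E : Set ℂ) :=
    union_subset_union (union_subset_union_right _ h2) h9
  have h11 := h8.anti h10
  refine ⟨k₂, s, P, G, b, h4, h1.trans h5, ?_, fun e => h7 (acl_mono (union_subset_union_left _ h10)
    e), h11.id, h11.ne, h11.lt, h11.gr, h11.int, h11.red, h11.sur⟩
  refine (h3.symm.trans ?_).symm.mono subset_union_right (sub_acl subset_union_right)
  rw [union_eq_right.2 (show (o.k : Set ℂ) ⊆ k₁ from h1)]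
  exact h6.symm.mono (union_subset_union_left _ (union_subset_union h2 h9))
    (sub_acl subset_union_right)

variable [Fintype κ]

theorem IsOb.cj (h : IsOb A o) (hc : Ob.Cj A σ o o') : IsOb A o' := by
  have h1 := free_cj σ h.free
  have h2 := h.ndg.map h.ovr (sub_acl h.le) hc.fix hc.a
  have h3 := h.fam.cj hc.fix
  rw [image_union, ← hc.k', ← hc.E, ← hc.pt, ← hc.base] at h1
  rw [← hc.k', ← hc.N, ← hc.z, ← hc.θ'] at h2
  rw [← hc.N, ← hc.k, ← hc.r,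
    ← (SetLike.coe_injective hc.E : o'.E = o.E.map (σ : ℂ →+* ℂ))] at h3
  refine ⟨hc.k ▸ h.ovr, h3, hc.E ▸ h.cE.image _, fun x hx => ?_, h.cac.of_image hc.k',
    fun j i => ?_, h1, h2⟩
  · change x ∈ (o'.k' : Set ℂ)
    rw [hc.k']
    exact image_mono h.le (hc.base ▸ hx)
  · change _ ∈ (o'.k' : Set ℂ)
    rw [hc.k', hc.θ]
    exact ⟨_, h.th j i, rfl⟩

theorem aut (A : AbVar g N) : S_AUT A := fun _ _ _ _ _ _ _ _ _ hc h =>
  ⟨h.cj hc, fun _ hm => hm.cj h.ovr hc⟩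

/-- An automorphism that fixes the data of an object. -/
theorem IsOb.cj_self (h : IsOb A o) (hσ : ∀ x ∈ (o.k' ∪ o.E ∪ pt A o.z o.a : Set ℂ), σ x = x) :
    Ob.Cj A σ o o :=
  ⟨fun y hy => hσ y (Or.inl (Or.inl (h.le hy))), rfl,
    (image_fix fun y hy => hσ y (Or.inl (Or.inr hy))).symm, rfl,
    (h.fam.ov.cj_eq fun y hy => hσ y (Or.inl (Or.inr hy))).symm,
    (image_fix fun y hy => hσ y (Or.inl (Or.inl hy))).symm,
    funext fun j => (hσ _ (Or.inr (mem_pt_left j))).symm,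
    funext fun j => (hσ _ (Or.inr (mem_pt_right j))).symm,
    fun j => funext fun i => (hσ _ (Or.inl (Or.inl (h.th j i)))).symm⟩

/-- Positivity data over an algebraically closed base. -/
theorem PosAt.acl (h : PosAt A o k₁ (k₁ ∪ B ∪ o.E) s m P G b) (ho : IsOb A o) (hk : o.k ≤ k₁)
    (hθ : ∀ j i, o.θ j i ∈ B) (hB : (k₁ ∪ B ∪ o.E : Set ℂ).Countable) :
    ∃ P' b', PosAt A o k₁ (acl (k₁ ∪ B ∪ o.E)) s m P' G b' := by
  obtain ⟨γ, h1, h2⟩ := exists_idOn_acl h.id hB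
  have h3 : (k₁ ∪ B ∪ o.E : Set ℂ) ⊆ Subfield.closure (k₁ ∪ B ∪ o.E : Set ℂ) :=
    Subfield.subset_closure
  have h4 : o.k ≤ Subfield.closure (k₁ ∪ B ∪ o.E : Set ℂ) := fun _ hx => h3 (Or.inl (Or.inl (hk hx)))
  obtain ⟨b', hb⟩ := exists_pt ho.ovr γ (fun x hx => h1 x (h4 hx)) b
  have h5 := h.post ho.ovr (sub_acl fun _ hx => Or.inl (Or.inl (hk hx))) h1 h3 h4
    (fun _ hx => h3 (Or.inl (Or.inl hx))) (ho.fam.ov.mono fun _ hx => h3 (Or.inr hx))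
    (fun j i => h3 (Or.inl (Or.inr (hθ j i)))) hb
  exact ⟨_, b', h2, h5.ne, h5.lt, h5.gr, h5.int, h5.red, h5.sur.anti subset_rfl⟩

/-- Positivity data in general position with respect to a countable set. -/
theorem Pos.fresh (h : Pos A o m) (ho : IsOb A o) (hT : T.Countable) :
    ∃ (k₁ : Subfield ℂ) (s : ℂ) (P : Plc ℂ ℂ) (G : Matrix ι ι ℂ) (b : Fin g → ℂ), Cac k₁ ∧
      o.k ≤ k₁ ∧ Free (o.k : Set ℂ) k₁ (o.k' ∪ o.E ∪ pt A o.z o.a ∪ T) ∧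
      s ∉ acl (k₁ ∪ o.k' ∪ o.E ∪ pt A o.z o.a ∪ T) ∧
      Free (o.k' ∪ o.E ∪ pt A o.z o.a : Set ℂ) (k₁ ∪ {s}) T ∧
      PosAt A o k₁ (acl (k₁ ∪ o.k' ∪ o.E : Set ℂ)) s m P G b := by
  obtain ⟨k₀, s₀, P₀, G₀, b₀, h1, h2, h3, h4, h5⟩ := h
  obtain ⟨ω, h6, h7⟩ := exists_fresh ho.cnt (h1.cnt.union (countable_singleton s₀)) hT
  have hc := ho.cj_self (σ := ω) fun x hx => h6 x (subset_acl _ hx)
  obtain ⟨b', hb⟩ := exists_pt ho.ovr ω hc.fix b₀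
  have h8 := h5.cj ho.ovr (sub_acl fun _ hx => Or.inl (Or.inl (h2 hx))) hc hb
  have h9 := free_cj ω h3
  have h10 := notMem_cj ω h4
  simp only [image_union, ← hc.k', ← hc.E, ← hc.pt, ← hc.base, image_singleton] at h7 h8 h9 h10
  have h11 : o.k ≤ k₀.map (ω : ℂ →+* ℂ) := fun x hx => ⟨x, h2 hx, hc.fix x hx⟩
  obtain ⟨P, b, h12⟩ := PosAt.acl (k₁ := k₀.map (ω : ℂ →+* ℂ)) h8 ho h11 ho.th
    (((h1.map ω).cnt.union ho.cac.cnt).union ho.cE)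
  refine ⟨_, _, P, _, b, h1.map ω, h11, h9.trans ?_, notMem_of_free ?_ h10, h7, h12⟩
  · exact ((h7.mono subset_union_left (sub_acl subset_union_right)).base
      (sub_acl subset_union_right) (sub_acl (union_subset
        (fun _ hx => Or.inl (Or.inl (Or.inl (ho.le hx)))) subset_union_left)))
  · refine ((h7.symm.base (sub_acl ?_) (sub_acl ?_)).mono subset_rfl
      (sub_acl fun _ hx => Or.inr (Or.inr hx))).symm
    all_goals
      intro x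
      simp only [mem_union]
      tauto

theorem asc (A : AbVar g N) : S_ASC A := by
  intro ι κ _ _ _ _ o k'' m ho hk ho' h
  have hc : (k'' : Set ℂ).Countable := ho'.cac.cnt
  obtain ⟨k₁, s, P, G, b, h1, h2, h3, h4, h5, h6⟩ := h.fresh ho hc
  set B := acl (k₁ ∪ o.k' ∪ o.E : Set ℂ) with hB
  have hBc : (B : Set ℂ).Countable := countable_acl ((h1.cnt.union ho.cac.cnt).union ho.cE)
  have hs : ∀ x ∈ (k₁ ∪ o.k' ∪ o.E : Set ℂ), x ∈ B := fun _ hx => subset_acl _ hx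
  obtain ⟨γ, h7, h8⟩ := exists_fresh hBc
    (finite_pt (A := A) (fun j => P.r (s ^ m j * (G⁻¹ *ᵥ o.z) j)) b).countable hc
  have h7' : ∀ x ∈ B, γ x = x := fun x hx => h7 x (subset_acl _ hx)
  have h0 : o.k ≤ B := fun x hx => hs x (Or.inl (Or.inl (h2 hx)))
  obtain ⟨b', hb⟩ := exists_pt ho.ovr γ (fun x hx => h7' x (h0 hx)) b
  have h9 := h6.post ho.ovr (sub_acl h0) h7' subset_rfl h0 (fun x hx => hs x (Or.inl (Or.inl hx)))
    (ho.fam.ov.mono fun x hx => hs x (Or.inr hx)) (fun j i => hs _ (Or.inl (Or.inr (ho.th j i)))) hb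
  have h10 : Free (o.k' : Set ℂ) k'' (pt A o.z o.a ∪ o.E ∪ (k₁ ∪ {s})) := by
    have h10 : Free (o.k' : Set ℂ) (pt A o.z o.a) k'' := ho.ndg.free_of ho'.ndg rfl (sub_acl hk)
    refine (h10.symm.trans ?_).trans ?_
    · exact (ho'.free.symm.base (sub_acl fun _ hx => Or.inl (ho.le hx))
        (sub_acl fun _ hx => Or.inr (hx.imp_left (@hk _)))).symm.mono subset_union_left
        (sub_acl subset_union_right)
    · rw [union_comm (pt A o.z o.a), ← union_assoc]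
      exact h5.symm
  have h11 : Free (B : Set ℂ) ({s} ∪ pt A o.z o.a) k'' := by
    refine ((h10.base (sub_acl fun x hx => hs x (Or.inl (Or.inr hx))) (acl_mono ?_)).mono subset_rfl
      (sub_acl ?_)).symm
    all_goals
      intro x
      simp only [mem_union]
      tauto
  obtain ⟨Q, h12, h13⟩ := Plc.fresh le_rfl (P := P.map (γ : ℂ →+* ℂ)) (φ := RingHom.id ℂ) hBc
    ((countable_singleton s).union (finite_pt _ _).countable) hc h11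
    (by rw [hB, acl_acl]; exact h9.id)
  have h14 := h9.agree h12 (Plc.Lifts.mono h13 (sub_acl subset_union_left))
    (fun x hx => subset_acl _ (Or.inl (hs x (Or.inl (Or.inl hx)))))
    (subset_acl _ (Or.inr (Or.inl rfl))) (sub_acl fun _ hx => Or.inr (Or.inr hx))
  have h15 : (k₁ ∪ k'' ∪ o.E : Set ℂ) ⊆ B ∪ k'' := by
    rintro x ((hx | hx) | hx)
    exacts [Or.inl (hs x (Or.inl (Or.inl hx))), Or.inr hx, Or.inl (hs x (Or.inr hx))]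
  have h16 : (fun j => Q.r (s ^ m j * (G⁻¹ *ᵥ o.z) j)) =
      γ ∘ fun j => P.r (s ^ m j * (G⁻¹ *ᵥ o.z) j) := funext fun j => by
    have h17 : s ∈ acl (B ∪ ({s} ∪ pt A o.z o.a) : Set ℂ) := mem_acl_of_mem (Or.inr (Or.inl rfl))
    have h16 : s ^ m j * (G⁻¹ *ᵥ o.z) j ∈ acl (B ∪ ({s} ∪ pt A o.z o.a) : Set ℂ) :=
      mul_mem (pow_mem h17 _) (mulVec_mem
        (fun i j => mem_acl_of_mem (Or.inl (hs _ (Or.inl (Or.inl (h6.gr.inv.mem i j))))))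
        (fun j => mem_acl_of_mem (Or.inr (Or.inr (mem_pt_left j)))) j)
    rw [← (h12 _ h16).2, Plc.map_r]
    rfl
  refine ⟨k₁, s, Q, G, b', h1, h2, h3.mono subset_rfl (sub_acl ?_), fun e => h4 (acl_mono ?_ e),
    Plc.Lifts.mono h13 (sub_acl h15), h14.ne, h14.lt, h14.gr, h14.int, h14.red,
    (h14.sur.free (by rwa [h16, pt_map (φ := γ) hb])).anti (sub_acl h15)⟩
  all_goals
    intro x
    simp only [mem_union]
    tauto

omit [Fintype κ] in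
/-- The image of a frame. -/
noncomputable def Fr.map (w : Fr ι) (σ : ℂ ≃+* ℂ) : Fr ι :=
  ⟨w.k₁.map (σ : ℂ →+* ℂ), w.K₁.map (σ : ℂ →+* ℂ), w.Kp.map (σ : ℂ →+* ℂ), w.P.conj σ, w.G.map σ,
    σ ∘ w.p⟩

omit [Fintype κ] in
theorem Fr.map_M (w : Fr ι) (σ : ℂ ≃+* ℂ) : (w.map σ).M = w.M.map σ :=
  Matrix.ext fun i j => by simp [Fr.M, Fr.map]

omit [Fintype κ] [Fintype ι] [DecidableEq ι] in
theorem Fr.Rad.map {w : Fr ι} {τ : ℂ} {t : ι → ℝ} (h : w.Rad τ t) (σ : ℂ ≃+* ℂ) :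
    (w.map σ).Rad (σ τ) t := fun j a q hq e => by
  have := (Plc.conj_le σ (x := 1)).2 ((map_one _).trans_le (h j a q hq e))
  rwa [map_one, map_one, map_mul σ, map_zpow₀ σ, map_pow σ] at this

omit [Fintype κ] in
theorem IsFr.map {x x' : Cx ι κ g} {B₀ : ℕ} {w : Fr ι} {c : ι → ℂ} (h : IsFr x B₀ w c)
    (hk : (x'.k : Set ℂ) ⊆ σ '' x.k) (hk' : (x'.k' : Set ℂ) ⊆ σ '' x.k')
    (ht : (x'.kt : Set ℂ) ⊆ σ '' x.kt) (hr : x'.r = x.r) (hτ : x'.τ = σ x.τ)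
    (hf : ∀ y, MvPolynomial.eval (σ ∘ y) x'.f = σ (MvPolynomial.eval y x.f)) :
    IsFr x' B₀ (w.map σ) (σ ∘ c) := by
  obtain ⟨u, h1, h2⟩ := h.pol
  have h3 : (w.map σ).G⁻¹ *ᵥ (σ ∘ c) = σ ∘ (w.G⁻¹ *ᵥ c) := map_inv_mulVec σ h.gr.det c
  refine ⟨h.c₁.map σ, h.cK.map σ, h.cp.map σ, hk.trans (image_mono h.le), image_mono h.le₁,
    hk'.trans (image_mono h.le'), image_mono h.lep, ((Plc.conj_idOn σ).2 h.id).mono ?_,
    hτ ▸ (Plc.conj_lt_one σ).2 h.lt, ?_, hr ▸ h.gr.map fun x hx => ⟨x, hx, rfl⟩,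
    fun j => (map_ne_zero σ).2 (h.p0 j), fun j => ⟨_, h.pm j, rfl⟩, fun j => ⟨_, h.cm j, rfl⟩,
    fun j => ?_, σ ∘ u, fun j => ⟨⟨_, (h1 j).1, rfl⟩, (Plc.conj_le_one σ).2 (h1 j).2⟩, ?_⟩
  · rw [image_union]
    exact union_subset_union_right _ ht
  · rintro _ ⟨y, hy, rfl⟩ e
    obtain ⟨q, hq⟩ := h.arch y hy ((Plc.conj_lt_one σ).1 e)
    rw [← map_pow, ← Plc.conj_le σ, map_pow, map_pow, ← hτ] at hq
    exact ⟨q, hq⟩
  · rw [h3, hτ, Function.comp_apply, ← map_pow, ← map_mul]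
    exact (h.bd j).imp (Plc.conj_le σ).2 (Plc.conj_le_one σ).2
  · have h4 : σ ∘ c + (w.map σ).M *ᵥ (σ ∘ u) = σ ∘ (c + w.M *ᵥ u) := by
      rw [Fr.map_M, show w.M.map σ *ᵥ (σ ∘ u) = _ from map_mulVec' (σ : ℂ →+* ℂ) _ _]
      exact funext fun i => (map_add σ _ _).symm
    have h5 := (Plc.conj_le σ (x := 1)).2 ((map_one _).trans_le h2)
    rwa [map_one, map_one, ← hf, ← h4] at h5

omit [Fintype κ] [Fintype ι] [DecidableEq ι] in
theorem good_cj {K : Subfield ℂ} {D : Der ℂ} (h1 : ∀ y ∈ K, D y ∈ K) (h2 : P.Ctr D K) :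
    (∀ y ∈ K.map (σ : ℂ →+* ℂ), cjD σ D y ∈ K.map (σ : ℂ →+* ℂ)) ∧
      (P.conj σ).Ctr (cjD σ D) (K.map (σ : ℂ →+* ℂ)) :=
  ⟨by
    rintro _ ⟨y, hy, rfl⟩
    exact ⟨_, h1 y hy, (cjD_map σ D y).symm⟩, (Plc.conj_ctr σ fun y _ => cjD_map σ D y).2 h2⟩

omit [Fintype κ] in
theorem WS.map [DecidableEq κ] {x x' : Cx ι κ g} {B₀ : ℕ} {w : Fr ι} (h : WS A x B₀ w)
    (hA : A.Over x.k) (hc : Ob.Cj A σ x.toOb x'.toOb) (ht : (x'.kt : Set ℂ) ⊆ σ '' x.kt)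
    (hτ : x'.τ = σ x.τ)
    (hf : ∀ y, MvPolynomial.eval (σ ∘ y) x'.f = σ (MvPolynomial.eval y x.f)) :
    WS A x' B₀ (w.map σ) := by
  have h1 := free_cj σ h.free
  have h2 := image_mono (f := σ) h.sub
  simp only [image_union, ← hc.k', ← hc.E, ← hc.pt, ← hc.base] at h1 h2
  have h3 : ((w.map σ).K₁ ∪ x'.E : Set ℂ) = σ '' (w.K₁ ∪ x.E) := by rw [image_union, hc.E]; rfl
  have h4 : ∀ D ∈ kil (w.K₁ ∪ x.E : Set ℂ), A.pv x'.θ x'.a (cjD σ D) = σ ∘ A.pv x.θ x.a D :=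
    fun D hD => hc.θ' ▸ hA.pv_cjD (fun y hy => hD y (Or.inl (h.fr.le₁ (h.fr.le hy)))) hc.fix hc.a
  refine ⟨hc.z ▸ h.fr.map hc.base.le hc.k'.le ht hc.r hτ hf, h1,
    hc.E ▸ (Plc.conj_idOn σ).2 h.idE, h2, fun j => ?_, fun i => ?_⟩
  · obtain ⟨D, h5, h6, h7, h8, h9⟩ := h.exD j
    refine ⟨cjD σ D, ⟨h3 ▸ cjD_kil σ h5.1, (h4 D h5.1).trans ?_⟩, (good_cj h6 h7).1,
      (good_cj h6 h7).2, fun i => ?_, ?_⟩
    · rw [show A.pv x.θ x.a D = 0 from h5.2]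
      exact funext fun _ => map_zero σ
    · rw [hc.z, dv_cjD, Fr.map_M, map_inv_mulVec σ h.fr.det]
      exact (Plc.conj_le_one σ).2 (h8 i)
    · rw [hc.z, dv_cjD, Fr.map_M, hc.N, ← cj_ann]
      convert mem_cj_map.2 h9 using 1
      exact funext fun i => (map_sub σ _ _).symm
  · obtain ⟨X, h5, h6, h7, h8⟩ := h.exX i
    refine ⟨cjD σ X, h3 ▸ cjD_kil σ h5, (good_cj h6 h7).1, (good_cj h6 h7).2, ?_⟩
    rw [h4 X h5, h8]
    funext j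
    by_cases e : j = i <;> simp [e]

theorem autw (A : AbVar g N) : S_AUTW A := by
  intro ι κ _ _ _ _ x o' σ B₀ w s hx hσ hc h hs
  have h1 := hσ _ hx.τ_mem
  refine ⟨w.map σ, WS.map (x := { x with toOb := o' }) h (hc.k ▸ hx.ob.ovr) hc
    (image_fix fun y hy => hσ y (hx.kt_le hy)).ge h1.symm
    fun y => (hx.cf.map_eval (σ : ℂ →+* ℂ) hσ y).symm, ?_⟩
  simpa only [h1] using hs.map σ

end Pool.Agent.P.MP_f17f76_ag.Hgc
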