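import Pool.Agent.P.MP_f17f76_ag.E.Gain4
import Pool.Agent.P.MP_f17f76_ag.E.HgcAut

/-!
The residue object gains a symmetry.
-/

namespace Pool.Agent.P.MP_f17f76_ag.Hgc

open Set Module Matrix E

attribute [local instance] unc_gain

variable {g N : ℕ} {ι κ : Type} {A : AbVar g N} [Fintype ι]

theorem exists_sym_der {k F : Subfield ℂ} {z : ι → ℂ} {a : Fin g → ℂ} {θ : κ → Fin g → ℂ}
    (hf : Free (k : Set ℂ) (pt A z a) F) {d : Der ℂ} (hd : d ∈ kil (k : Set ℂ)) {h : ℕ}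
    {ξ : Fin h → Matrix ι ι ℂ × (ι → ℂ)}
    (hξ : ∀ l, ∃ D ∈ A.thin k a θ, dv z D = (ξ l).1 *ᵥ z + (ξ l).2) (e : ℂ)
    {ζ : Matrix ι ι ℂ × (ι → ℂ)} (hζ : ζ ∈ Submodule.span ℂ (range ξ)) :
    ∃ δ : Der ℂ, (∀ x ∈ F, δ x = e * d x) ∧ A.pv θ a δ = 0 ∧ dv z δ = ζ.1 *ᵥ z + ζ.2 := by
  obtain ⟨c, rfl⟩ := (Submodule.mem_span_range_iff_exists_fun ℂ).1 hζ
  choose D h1 h2 using hξ
  choose D' h3 h4 using fun l => hf.exists_der_ext (h1 l).1
  obtain ⟨d', h5, h6⟩ := hf.exists_der_glue (D := 0) (D₀ := d) fun x hx => (hd x hx).symm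
  have h7 : ∀ j, z j ∈ acl (k ∪ pt A z a) := fun j => mem_acl_of_mem (Or.inr (mem_pt_left j))
  have h8 : ∀ j, A.crd a j ∈ acl (k ∪ pt A z a) := fun j =>
    mem_acl_of_mem (Or.inr (mem_pt_right j))
  refine ⟨e • d' + ∑ l, c l • D' l, fun x hx => ?_, ?_, ?_⟩
  · have : (∑ l, c l • D' l) x = 0 :=
      sum_mem (fun l _ => Submodule.smul_mem _ (c l) (h3 l)) x (Or.inr hx)
    rw [Derivation.add_apply, this, add_zero, Derivation.smul_apply,
      h6 x (mem_acl_of_mem (Or.inr hx)), smul_eq_mul]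
  · have h9 : ∀ l, A.pv θ a (D' l) = 0 := fun l =>
      (AbVar.pv_congr_der fun j => h4 l _ (h8 j)).trans (h1 l).2
    simp [h9, AbVar.pv_congr_der fun j => h5 _ (h8 j)]
  · have h9 : ∀ l, dv z (D' l) = (ξ l).1 *ᵥ z + (ξ l).2 := fun l =>
      (funext fun j => h4 l _ (h7 j)).trans (h2 l)
    have h10 : dv z d' = 0 := funext fun j => h5 _ (h7 j)
    simp [h9, h10, Prod.fst_sum, Prod.snd_sum, sum_mulVec, smul_mulVec, Finset.sum_add_distrib]

theorem dv_fld [DecidableEq ι] {M : Matrix ι ι ℂ} (hM : M.det ≠ 0) {c z : ι → ℂ} {d δ : Der ℂ}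
    {η : ℂ × Matrix ι ι ℂ × (ι → ℂ)} (h1 : ∀ i j, δ (M i j) = η.1 * d (M i j))
    (h2 : ∀ i, δ (c i) = η.1 * d (c i)) (h3 : dv z δ = η.2.1 *ᵥ z + η.2.2) :
    dv (M⁻¹ *ᵥ (z - c)) δ = (fld M c d η).1 *ᵥ (M⁻¹ *ᵥ (z - c)) + (fld M c d η).2 := by
  set u := M⁻¹ *ᵥ (z - c)
  have h4 : z = c + M *ᵥ u := by rw [mulVec_inv_cancel hM, add_sub_cancel]
  have h5 : dv (c + M *ᵥ u) δ = η.1 • dv c d + (M *ᵥ dv u δ + (η.1 • M.map d) *ᵥ u) :=
    funext fun i => by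
      simp [mulVec, dotProduct, h1, h2, Finset.sum_add_distrib, mul_comm]
  rw [h4, h5] at h3
  change _ = (M⁻¹ * _) *ᵥ u + M⁻¹ *ᵥ _
  rw [← mulVec_mulVec, ← mulVec_add, ← inv_mulVec_cancel hM (dv u δ), sub_mulVec,
    ← mulVec_mulVec u η.2.1]
  congr 1
  rw [mulVec_add] at h3
  linear_combination (exp := 1) h3

theorem act_cj_le {k k' E : Subfield ℂ} (hk : Cac k) (hk' : (k' : Set ℂ).Countable)
    (hE : (E : Set ℂ).Countable) {σ : ℂ ≃+* ℂ} (hσ : ∀ x ∈ k, σ x = x)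
    (h1 : Free (k : Set ℂ) k' E) (h2 : Free (k : Set ℂ) k' (σ '' E)) {R : Submodule ℂ (ι → ℂ)}
    (hR : Ov E R) {φ : Matrix ι ι ℂ} (hφ : ∀ i j, φ i j ∈ k') (h : act φ R ≤ R) :
    act φ (cj σ R) ≤ cj σ R := by
  obtain ⟨ω, h3, h4⟩ := amalg rfl (RingHom.id ℂ) (σ : ℂ →+* ℂ) hk.cnt hk' hE h1 (by simpa using h2)
    fun x hx => (hσ x (hk.acl_le subset_rfl hx)).symm
  have h5 : cj ω R = cj σ R := by
    rw [← cj_cj_symm (σ := σ) (cj ω R), cj_cj ω, hR.cj_eq fun x hx => by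
      simp [h4 x (mem_acl_of_mem (Or.inr hx))]]
  have h6 : φ.map ω = φ := Matrix.ext fun i j => h3 _ (mem_acl_of_mem (Or.inr (hφ i j)))
  rw [← h5, ← h6, ← cj_act]
  exact cj_mono ω h

omit [Fintype ι] in
theorem acl_elim {i : Fin N} {a : Fin g → ℂ} (hi : A.θ a i ≠ 0) (S : Set ℂ) (u : ι → ℂ) :
    acl (S ∪ range (Sum.elim u (A.aff i a))) = acl (S ∪ pt A u a) := by
  rw [Sum.elim_range, pt, ← union_assoc, ← union_assoc, AbVar.acl_aff hi]

variable [DecidableEq ι] [Fintype κ] [DecidableEq κ]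

theorem gain_aux {x : Cx ι κ g} {f₀ : MvPolynomial ι ℂ} {h : ℕ}
    {ξ : Fin h → Matrix ι ι ℂ × (ι → ℂ)} {B₀ : ℕ} {d : Cd ι κ g} {σ : ℂ ≃+* ℂ} (hx : IsCx A x)
    (hf : x.f = MvPolynomial.C x.τ * f₀) (hf₀ : Cf x.kt f₀)
    (htr : trd (x.kt : Set ℂ) (pt A x.z x.a) ≤ finrank ℂ x.N + Fintype.card κ)
    (hξ : LinearIndependent ℂ ξ) (hs : ∀ l, IsSym A x.toOb (ξ l).1 (ξ l).2)
    (hkt : ∀ l, (∀ i j, (ξ l).1 i j ∈ x.kt) ∧ ∀ i, (ξ l).2 i ∈ x.kt)
    (hk : ∀ l (y : ι → ℂ), ∑ j, ((ξ l).1 *ᵥ y + (ξ l).2) j *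
      MvPolynomial.eval y (MvPolynomial.pderiv j f₀) = 0)
    (hd : CC A x B₀ d) (h0 : d.s = ∅) (hr : ResOk A x d σ)
    (hfr : Free (d.k₁ : Set ℂ) (d.Kp ∪ pt A d.z d.a) (σ '' x.E))
    (IH : ∀ o : Ob ι {i // i ∉ d.s} g, IsOb A o → HasSym A o (h + 1) → POS A o) :
    POS A (d.res x σ) := by
  obtain ⟨σ₁, hσ₁, hz, ha⟩ := hd.cj
  have hw := hd.fr
  have ho := hr.ob
  have hσ₂ : ∀ y ∈ x.kt, σ₁ y = y := fun y hy => hσ₁ y (hx.kt_le hy)
  have hkK : x.kt ≤ d.Kp := hx.kt_le.trans (hw.le'.trans hw.lep)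
  have hres : ∀ (Q : Plc ℂ ℂ) (F : Subfield ℂ), acl (F : Set ℂ) = F →
      acl (Q.res F : Set ℂ) = Q.res F := fun Q F e => by rw [← Plc.res_acl, e]
  have hK : acl (d.Kp : Set ℂ) = d.Kp := hw.cp.acl_eq
  have hkap : d.kap = d.P.res d.Kp := by
    have : IsEmpty d.s := ⟨fun i => by simpa [h0] using i.2⟩
    rw [Cd.kap, range_eq_empty, union_empty, hres _ _ hK]
  have hn : finrank ℂ (d.res x σ).N + Fintype.card {i // i ∉ d.s} =
      Fintype.card (Fin (finrank ℂ x.N + Fintype.card κ)) := by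
    rw [Fintype.card_fin, Fintype.card_congr (Equiv.subtypeUnivEquiv (by simp [h0]))]
    exact congrArg (· + _) ((finrank_bar hw.gr.det _).trans (finrank_cj _ _))
  have htr' : trd (x.kt : Set ℂ) (pt A d.z d.a) ≤
      Fintype.card (Fin (finrank ℂ x.N + Fintype.card κ)) := by
    rw [hz, pt_map ha, ← image_fix hσ₂, Fintype.card_fin]
    exact (trd_map (σ₁ : ℂ →+* ℂ) (finite_pt _ _)).trans_le htr
  obtain ⟨i₀, hb, ha', hi⟩ := hd.red.exists_chart
  set s := Sum.elim d.u (A.aff i₀ d.a) with hsd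
  set u : ι → ℂ := fun j => d.P.r (d.u j) with hu
  have hs1 : ∀ j, d.P.v (s j) ≤ 1 := Sum.rec hd.int fun j => (hi j).1
  have hs2 : d.P.r ∘ s = Sum.elim u (A.aff i₀ d.b) :=
    funext (Sum.rec (fun _ => rfl) fun j => (hi j).2)
  have hs3 : ∀ S, acl (S ∪ range (d.P.r ∘ s)) = acl (S ∪ pt A u d.b) := fun S => by
    rw [hs2, acl_elim hb]
  have hs4 : ∀ S, range (d.P.r ∘ s) ⊆ acl (S ∪ pt A u d.b) := fun S =>
    hs3 S ▸ subset_union_right.trans (subset_acl _)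
  have hs5 : ∀ S, pt A u d.b ⊆ acl (S ∪ range (d.P.r ∘ s)) := fun S =>
    (hs3 S).symm ▸ subset_union_right.trans (subset_acl _)
  have hs6 : ∀ F : Subfield ℂ, (∀ i j, d.M i j ∈ F) → (∀ i, d.c i ∈ F) →
      range s ⊆ acl (F ∪ pt A d.z d.a) := fun F h1 h2 => forall_mem_range.2 (Sum.rec
    (mulVec_mem (inv_mem_sub fun i j => mem_acl_of_mem (Or.inl (h1 i j))) fun j =>
      sub_mem (mem_acl_of_mem (Or.inr (mem_pt_left j))) (mem_acl_of_mem (Or.inl (h2 j))))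
    (AbVar.aff_mem (fun j => mem_acl_of_mem (Or.inr (mem_pt_right j))) i₀))
  have hMK : ∀ i j, d.M i j ∈ d.Kp := fun i j => hw.lep (hw.M_mem i j)
  have htr2 : trd (d.P.res d.Kp : Set ℂ) (range (d.P.r ∘ s)) =
      Fintype.card (Fin (finrank ℂ x.N + Fintype.card κ)) := by
    rw [trd_congr (hs4 _) (hs5 _), ← hkap, ← hn]
    exact ho.ndg.trd_eq
  obtain ⟨e, he⟩ := exists_ind_comp htr2.ge
  have hY : d.P.Gauss d.Kp (s ∘ e) := ⟨fun _ => hs1 _, he⟩
  have hsub : ∀ (S : Set ℂ) (t : ι ⊕ Fin N → ℂ), range (t ∘ e) ⊆ acl (S ∪ range t) := fun S t =>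
    (range_comp_subset_range _ _).trans (subset_union_right.trans (subset_acl _))
  obtain ⟨u₀, hu₀, hu₁⟩ := hw.pol
  set y := MvPolynomial.eval (d.c + d.M *ᵥ u₀) x.f with hy
  have hyK : y ∈ d.Kp := hx.cf.eval_mem' (hw.le'.trans hw.lep) fun i =>
    add_mem (hw.cm i) (mulVec_mem hMK (fun j => (hu₀ j).1) i)
  obtain ⟨Q, B, F, κ₀, h1, h2, h3, h4, h5, h6, h7, h8, h9, h10, h11, h12, h13, h14, h15, h16,
      h17⟩ := exists_div (P := d.P) (k := d.k₁) (k₃ := Subfield.closure (d.k₁ ∪ x.kt))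
    (E := σ '' x.E) (T := range d.p ∪ range d.c ∪ range (fun q : ι × ι => d.p q.1 / d.p q.2) ∪
      range u₀ ∪ {y⁻¹}) e hw.cp.cnt hK.le (hx.ob.cE.image σ)
    ((hw.c₁.acl_le subset_rfl).trans (subset_union_left.trans Subfield.subset_closure))
    (Subfield.closure_le.2 (union_subset (hw.le₁.trans hw.lep) hkK)) hw.id.closure
    (hw.lep (hw.le' hx.τ_mem)) hx.τ_ne hw.lt (Set.toFinite _)
    (union_subset (union_subset (union_subset (union_subset
      (range_subset_iff.2 fun j => hw.lep (hw.pm j)) (range_subset_iff.2 hw.cm))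
      (range_subset_iff.2 fun q => div_mem (hw.lep (hw.pm _)) (hw.lep (hw.pm _))))
      (range_subset_iff.2 fun j => (hu₀ j).1)) (singleton_subset_iff.2 (inv_mem hyK))) hs1 hY
    (hY.ind.subset_acl (finite_range _) (hsub _ _) ((trd_le (finite_pt _ _) (hs6 _ hMK hw.cm)).trans
      ((trd_anti (finite_pt _ _) (hkK.trans (subset_acl _))).trans htr')))
    (he.subset_acl (finite_range _) (hsub _ _) htr2.le)
    (hfr.acl_left.mono (union_subset (fun a ha => mem_acl_of_mem (Or.inr (Or.inl ha)))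
      ((hs6 _ hMK hw.cm).trans (acl_mono subset_union_right)))
      (subset_union_right.trans (subset_acl _)))
    (ho.free.acl_left.mono (union_subset (fun a ha => mem_acl_of_mem (Or.inr (Or.inl (hkap.ge ha))))
      ((hs4 _).trans (acl_mono subset_union_right)))
      fun a ha => mem_acl_of_mem (Or.inr (mem_acl_of_mem (Or.inr ha))))
  have hk₁ : d.k₁ ≤ Subfield.closure (d.k₁ ∪ x.kt) :=
    subset_union_left.trans Subfield.subset_closure
  have hk₂ : x.kt ≤ Subfield.closure (d.k₁ ∪ x.kt) :=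
    subset_union_right.trans Subfield.subset_closure
  have hBF : B ≤ F := h3 ▸ subset_union_left.trans (subset_acl _)
  have hF : acl (F : Set ℂ) = F := by rw [h3, acl_acl]
  have hQs : Q.r ∘ s = d.P.r ∘ s := funext fun i => (h11 i).2
  have hθ : ∀ (j : {i // i ∉ d.s}) l, d.θ x j l ∈ x.kt := fun j l => by
    rw [Cd.θ, Finset.sum_apply]
    exact sum_mem fun m _ => mul_mem (hd.Tm _ _) (hx.th m l)
  have hob : ∀ K' : Subfield ℂ, K' ≤ Q.res F → acl (K' : Set ℂ) = K' → κ₀ ≤ K' →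
      A.Ndg (d.res x σ).N K' u d.b (d.res x σ).θ → IsOb A { d.res x σ with k' := K' } :=
    fun K' e1 e2 e3 e4 => ⟨ho.ovr, ho.fam, ho.cE, hk₁.trans (h13.trans e3),
      e2 ▸ Cac.acl ((Q.countable_res (hw.cp.cnt.mono h4)).mono e1),
      fun j l => e3 (h13 (hk₂ (hθ j l))),
      h17.acl_left.acl_right.mono (union_subset (fun a ha => mem_acl_of_mem (Or.inr (Or.inl (e1 ha))))
        ((hs5 _).trans (acl_mono subset_union_right))) (subset_union_right.trans (subset_acl _)), e4⟩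
  have htr3 : trd (κ₀ : Set ℂ) (pt A u d.b) ≤
      Fintype.card (Fin (finrank ℂ x.N + Fintype.card κ)) :=
    (trd_le (finite_range _) ((hs5 _).trans (acl_le (union_subset
      (subset_union_left.trans (subset_acl _)) h16)))).trans (trd_range_le _)
  have hN₀ : A.Ndg (d.res x σ).N κ₀ u d.b (d.res x σ).θ :=
    ho.ndg.anti ((h14.trans hkap.ge).trans (subset_acl _)) (htr3.trans hn.ge)
  have hind : Ind (κ₀ ∪ Q.res F : Set ℂ) ((d.P.r ∘ s) ∘ e) := by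
    rw [← hQs]
    exact h9.2.anti ((union_subset h15 subset_rfl).trans (subset_acl _))
  have hN₁ : A.Ndg (d.res x σ).N (Q.res F) u d.b (d.res x σ).θ :=
    (hN₀.free (free_of_trd (finite_pt _ _) (htr3.trans (hind.trd_range.ge.trans (trd_le (finite_pt _ _)
      ((range_comp_subset_range _ _).trans (hs4 _))))))).congr_base
      (subset_union_right.trans (subset_acl _))
      ((union_subset h15 subset_rfl).trans (subset_acl _))
  have ho₀ := hob κ₀ h15 (h12.antisymm (subset_acl _)) le_rfl hN₀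
  suffices H : HasSym A { d.res x σ with k' := Q.res F } (h + 1) by
    obtain ⟨m, hm, hp⟩ := IH _ (hob _ le_rfl (hres _ _ hF) h15 hN₁) H
    refine ⟨m, hm, asc A ι _ _ d.kap m ho₀ (h14.trans hkap.ge) ho
      (desc A ι _ _ d.k₁ (Q.res F) m le_rfl h15 ?_ ?_)⟩
    · exact free_of_sub (subset_acl _) _
    · have : acl (d.k₁ ∪ acl (d.k₁ ∪ σ '' x.E) : Set ℂ) = acl (d.k₁ ∪ σ '' x.E) := by
        rw [acl_union_acl, ← union_assoc, union_self]
      exact this ▸ hp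
  have hτ : x.τ ∈ F := h3 ▸ mem_acl_of_mem (Or.inr rfl)
  obtain ⟨d₀, hd₀, hd₁⟩ := exists_der_fresh (Plc.tr_of_triv h2 hx.τ_ne h7.ne).notMem 0 x.τ
  have hd₂ : d₀ ∈ kil (B : Set ℂ) := fun a ha => hd₀ a (mem_acl_of_mem ha)
  obtain ⟨hd₃, hd₄⟩ := Plc.logd h2 hx.τ_ne h7 hd₂ hd₁
  rw [← h3] at hd₃ hd₄
  have hd₅ : ∀ a ∈ F, 1 < Q.v a → Q.v a ≤ Q.v (d₀ a) := fun a ha h1 => by
    have h2 : a ≠ 0 := fun e => by simp [e] at h1
    obtain ⟨q, t, h3, h4⟩ := (hd₄ a ha).2.1 h2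
    have h5 : t ≠ 0 := fun e => (one_lt_pow₀ h1 h3.ne').ne' (by simpa [e] using h4)
    have h6 := Plc.r_ne_zero_iff.1 (((hd₄ a ha).2.2 q t h3 h4).trans_ne
      (div_ne_zero (Int.cast_ne_zero.2 h5) (Nat.cast_ne_zero.2 h3.ne')))
    rw [map_div₀, div_eq_one_iff_eq (Q.v_ne h2)] at h6
    exact h6.ge
  have hd₆ : ∀ a ∈ F, d₀ a ∈ F := fun a ha => h3 ▸ der_mem_acl (subset_acl _) (by
    rintro b (hb | rfl)
    · exact hd₂ b hb ▸ zero_mem _
    · exact hd₁.symm ▸ h3 ▸ hτ) (h3 ▸ ha)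
  have hpF : ∀ j, d.p j ∈ F := fun j => h5 (by simp)
  have hcF : ∀ j, d.c j ∈ F := fun j => h5 (by simp)
  have hGB : ∀ i j, d.G i j ∈ B := fun i j => h1 (hk₁ (hw.gr.mem i j))
  have hM : ∀ i j, d.M i j = d.G i j * d.p j := fun i j => mul_diagonal _ _ _ _
  have hMF : ∀ i j, d.M i j ∈ F := fun i j => hM i j ▸ mul_mem (hBF (hGB i j)) (hpF j)
  have hkF : x.kt ≤ F := hk₂.trans (h1.trans hBF)
  have hy0 : y ≠ 0 := fun e => by simp [e] at hu₁
  have hy1 := (Q.v_inv_le_one hy0).1 ((h6 _ (Or.inr rfl)).1.1 ((d.P.v_inv_le_one hy0).2 hu₁))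
  obtain ⟨η, hη, hη'⟩ := exists_fields hd₅ hd₆ hw.det hcF hMF (hf₀.mono hkF)
    (fun m => hd₂ _ (h1 (hk₂ (hf₀ m)))) hξ
    (fun l => ⟨fun i j => hkF ((hkt l).1 i j), fun i => hkF ((hkt l).2 i)⟩)
    (fun l y => by rw [tg_eq_sum, ← hk l y]; simp only [mul_comm])
    (fun j => (h6 (u₀ j) (by simp)).1.1 (hu₀ j).2) (not_le.1 fun hc => hy1.not_gt (by
      rw [hy, hf, map_mul, MvPolynomial.eval_C, mul_comm]
      exact Plc.v_mul_lt hc h7))
  have hfree : Free (x.kt : Set ℂ) (pt A d.z d.a) F :=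
    free_of_trd (finite_pt _ _) (htr'.trans (((h9.ind.anti ((union_subset hkF subset_rfl).trans
      (subset_acl _))).trd_range.ge).trans (trd_le (finite_pt _ _) ((range_comp_subset_range _ _).trans
        ((hs6 F hMF hcF).trans (acl_mono (union_subset_union_left _ subset_union_right)))))))
  have hsym : ∀ l, ∃ D ∈ A.thin x.kt d.a x.θ, dv d.z D = (ξ l).1 *ᵥ d.z + (ξ l).2 := fun l => by
    obtain ⟨D, hD, e⟩ := (hs l).ex
    have h1 := hx.ob.ovr.pv_cjD (θ := x.θ) (kil_anti hx.ob.le hD.1)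
      (fun a ha => hσ₁ a (hx.ob.le ha)) ha
    rw [show (fun j => σ₁ ∘ x.θ j) = x.θ from funext fun j => funext fun i => hσ₂ _ (hx.th j i),
      hD.2] at h1
    refine ⟨cjD σ₁ D, ⟨cjD_kil_fix hσ₂ (kil_anti hx.kt_le hD.1), h1.trans (by simp)⟩, ?_⟩
    rw [hz, dv_cjD, e]
    refine funext fun i => ?_
    have h2 := congrFun (map_mulVec' (σ₁ : ℂ →+* ℂ) (ξ l).1 x.z) i
    rw [show (ξ l).1.map (σ₁ : ℂ →+* ℂ) = (ξ l).1 from
      Matrix.ext fun i j => hσ₂ _ ((hkt l).1 i j)] at h2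
    exact (map_add σ₁ _ _).trans (congrArg₂ _ h2.symm (hσ₂ _ ((hkt l).2 i)))
  have hfE : Free (x.k : Set ℂ) x.kt (σ '' x.E) := by
    have e1 : Free (x.k ∪ d.k₁ : Set ℂ) (σ '' x.E) x.kt := by
      rw [union_eq_right.2 hw.le]
      exact (h17.mono (subset_union_of_subset_left (hk₂.trans (h13.trans h15)) _)
        (subset_union_right.trans (subset_acl _))).symm
    exact (hr.free.trans e1).symm.mono subset_union_right (subset_union_right.trans (subset_acl _))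
  have hst : ∀ l, act (ξ l).1 (cj σ x.N) ≤ cj σ x.N := fun l =>
    act_cj_le hx.ob.cac_k hx.cac.cnt hx.ob.cE hr.fix (hx.ob.free.mono
      (subset_union_of_subset_left hx.kt_le _) (subset_union_right.trans (subset_acl _))) hfE
      hx.ob.fam.ov (hkt l).1 (hs l).st
  have hv : ∀ i j, d.P.v (d.p i) ≤ d.P.v (d.p j) ↔ Q.v (d.p i) ≤ Q.v (d.p j) := fun i j => by
    rw [← d.P.v_div_le_one (hw.p0 j), ← Q.v_div_le_one (hw.p0 j)]
    exact (h6 _ (Or.inl (Or.inl (Or.inr ⟨(i, j), rfl⟩)))).1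
  have hQu : Q.r ∘ d.u = u := funext fun j => (h11 (.inl j)).2
  have hL : ∀ j, s j ∈ acl (F ∪ range (s ∘ e) : Set ℂ) := fun j => h10 ⟨j, rfl⟩
  refine ⟨_, hη', fun l => ⟨fun i j => Plc.r_mem_res ((hη l).2.2 (.inl (i, j))).1,
    fun i => Plc.r_mem_res ((hη l).2.2 (.inr i)).1, ?_, ?_⟩⟩
  · obtain ⟨c, hc⟩ := (Submodule.mem_span_range_iff_exists_fun ℂ).1 (hη l).1
    change act _ (ini _ _) ≤ ini _ _
    rw [ini_congr hv]
    refine res_stab (h8.mono subset_union_right)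
      (hx.ob.fam.ov.cj fun a ha => mem_acl_of_mem (Or.inr ⟨a, ha, rfl⟩)) hw.gr.det
      (fun i j => mem_acl_of_mem (Or.inl (hw.gr.mem i j))) (φ := (η l).2.1)
      (t := fun j => (η l).1 * (d₀ (d.p j) / d.p j)) hw.p0 (fun i j e => ?_)
      (fun j => Plc.v_mul_le (hη l).2.1 (Plc.v_logder_le (hd₃ _ (hpF j)))) ?_
      (fun i j => ((hη l).2.2 (.inl (i, j))).2) ?_
    · have := hd.nrm i j (((hv i j).2 e.le).antisymm ((hv j i).2 e.ge))
      exact ⟨this, by simp only [this]⟩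
    · rw [act_le_iff, ← hc, Prod.fst_sum]
      intro v hv
      rw [vecMul_sum]
      exact sum_mem fun m _ => by
        rw [Prod.smul_fst, vecMul_smul]
        exact Submodule.smul_mem _ _ (hst m (vecMul_mem_act _ hv))
    · change d.M * (d.M⁻¹ * _ + _) = _ * d.M
      rw [Matrix.mul_add, mul_nonsing_inv_cancel_left _ _ hw.det.isUnit, ← eq_sub_iff_add_eq',
        sub_sub_cancel]
      refine Matrix.ext fun i j => ?_
      have := hw.p0 j
      simp only [mul_diagonal, hM, Matrix.smul_apply, map_apply, Derivation.leibniz, hd₂ _ (hGB i j),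
        smul_eq_mul]
      field_simp
      ring
  · obtain ⟨δ, e1, e2, e3⟩ := exists_sym_der hfree (kil_anti (hk₂.trans h1) hd₂) hsym (η l).1
      (hη l).1
    have e4 := dv_fld hw.det (fun i j => e1 _ (hMF i j)) (fun i => e1 _ (hcF i)) e3
    have e5 := fun j => r_mulVec (P := Q) (x := d.u) (fun j => (h11 (.inl j)).1)
      (fun i j => ((hη l).2.2 (.inl (i, j))).2) j
    have e6 : ∀ j, Q.v ((fld d.M d.c d₀ (η l)).2 j) ≤ 1 := fun j => ((hη l).2.2 (.inr j)).2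
    obtain ⟨D, e7, e8⟩ := ho.ovr.res_sym (δ := δ) (u := d.u) (a := d.a)
      (h8.mono (subset_union_of_subset_left hk₁ _)) (hk₁.trans (h1.trans hBF)) h9
      (fun j => ⟨hL (.inl j), (h11 (.inl j)).1⟩) (AbVar.crd_mem_of_aff ha' fun j => hL (.inr j))
      ⟨i₀, hb, fun j => ⟨(h11 (.inr j)).1, (h11 (.inr j)).2.trans (hi j).2⟩⟩
      (fun j l => h8 _ (Or.inl (hk₂ (hθ j l)))) (hQu ▸ hN₁)
      (fun j => hQu ▸ hs4 _ ⟨e j, (h11 _).2.symm⟩)
      (fun a ha => by rw [e1 a (hBF (h1 (hk₁ ha))), hd₂ a (h1 (hk₁ ha)), mul_zero])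
      (fun a ha => by
        rw [e1 a ha, map_mul]
        exact (mul_le_of_le_one_left' (hη l).2.1).trans (hd₃ a ha))
      (fun a ha h1 => e1 a ha ▸ Plc.v_mul_lt (hη l).2.1 ((hd₄ a ha).1 h1))
      (funext fun j => by
        change (∑ m, d.T j m • x.θ m) ⬝ᵥ _ = 0
        rw [sum_dotProduct]
        exact Finset.sum_eq_zero fun m _ => by
          rw [smul_dotProduct, show x.θ m ⬝ᵥ _ = 0 from congrFun e2 m, smul_zero])
      fun j => (congrArg Q.v (congrFun e4 j)).trans_le (Q.v.map_add_le (e5 j).1 (e6 j))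
    refine ⟨D, e7, (hQu ▸ e8 :).trans (funext fun j => ?_)⟩
    exact (congrArg Q.r (congrFun e4 j)).trans ((Plc.r_add (e5 j).1 (e6 j)).trans
      (congrArg (· + _) ((e5 j).2.trans (by rw [hQu]; rfl))))

omit [Fintype ι] [DecidableEq ι] [Fintype κ] [DecidableEq κ] in
theorem cj_back {σ : ℂ ≃+* ℂ} {o o' : Ob ι κ g} (h : Ob.Cj A σ o o') : Ob.Cj A σ.symm o' o :=
  ⟨fun y hy => σ.symm_apply_eq.2 (h.fix y (h.k ▸ hy)).symm, h.k.symm, by simp [h.E, image_image],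
    h.r.symm, by simp [h.N], by simp [h.k', image_image], by simp [h.z, Function.comp_def],
    by simp [h.a, Function.comp_def], fun j => by simp [h.θ, Function.comp_def]⟩

theorem gain (A : AbVar g N) : S_GAIN A := by
  intro ι κ _ _ _ _ x f₀ h ξ B₀ d σ hx hf hf₀ htr hξ hs hkt hk hd h0 hr IH
  have ho := hr.ob
  obtain ⟨γ, h1, h2⟩ := exists_fresh (ho.cac.cnt.union (finite_pt (A := A) (d.res x σ).z d.b).countable)
    (hx.ob.cE.image σ) (hd.fr.cp.cnt.union (finite_pt (A := A) d.z d.a).countable)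
  have h3 : ∀ y ∈ d.kap, γ y = y := fun y hy => h1 y (mem_acl_of_mem (Or.inl hy))
  have h4 : ∀ y ∈ d.k₁, γ y = y := fun y hy => h3 y (ho.le hy)
  have h5 : (σ.trans γ) '' x.E = γ '' (σ '' x.E) := (image_image γ σ _).symm
  have h6 : Ob.Cj A γ (d.res x σ) (d.res x (σ.trans γ)) :=
    ⟨h4, rfl, by
      change (acl (d.k₁ ∪ _ : Set ℂ) : Set ℂ) = γ '' (acl (d.k₁ ∪ _ : Set ℂ) : Set ℂ)
      rw [image_acl, image_union, image_fix h4, h5], rfl, by
      change d.bar _ = cj γ (d.bar _)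
      rw [← bar_cj _ fun i j => h4 _ (hd.fr.gr.mem i j), cj_cj], (image_fix h3).symm,
      funext fun j => (h1 _ (mem_acl_of_mem (Or.inr (mem_pt_left j)))).symm,
      funext fun j => (h1 _ (mem_acl_of_mem (Or.inr (mem_pt_right j)))).symm,
      fun j => funext fun i => (h3 _ (ho.th j i)).symm⟩
  have ho' := ho.cj h6
  have h7 : Free (x.k : Set ℂ) ((σ.trans γ) '' x.E) d.k₁ := by
    have := free_cj γ hr.free
    rwa [image_fix h4, image_fix fun y hy => h4 y (hd.fr.le hy), ← h5] at this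
  have h8 : Free (d.k₁ : Set ℂ) (d.Kp ∪ pt A d.z d.a) ((σ.trans γ) '' x.E) := by
    refine ((ho'.free.symm.mono (subset_union_right.trans (subset_acl _)) (subset_union_right.trans
      (subset_acl _))).trans (T := d.Kp ∪ pt A d.z d.a) ?_).symm.mono subset_union_right
      (subset_union_right.trans (subset_acl _))
    rw [h5, union_eq_right.2 (subset_union_of_subset_left ho'.le _)]
    exact h2
  obtain ⟨m, hm, hp⟩ := gain_aux hx hf hf₀ htr hξ hs hkt hk hd h0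
    ⟨fun y hy => (congrArg γ (hr.fix y hy)).trans (h4 y (hd.fr.le hy)), h7, ho'⟩ h8 IH
  exact ⟨m, hm, hp.cj ho'.ovr (cj_back h6)⟩

end Pool.Agent.P.MP_f17f76_ag.Hgc
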