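import Pool.Agent.P.MP_f17f76_ag.E.HgcAut
import Pool.Agent.P.MP_f17f76_ag.E.PlcD
import Pool.Agent.P.MP_f17f76_ag.E.Tch
import Pool.Agent.P.MP_f17f76_ag.E.Tld

/-!
The algebraic half of the main step, first part: the composite place and the change of place.
-/

namespace Pool.Agent.P.MP_f17f76_ag.E

open Set Module Matrix

variable {K R : Type} [Field K] [Field R] {ι κ L : Type}

theorem Ind.trd_le [Fintype L] {F T U : Set K} {y : L → K} (h : Ind F y) (hT : T.Finite)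
    (hU : U.Finite) (h1 : range y ∪ U ⊆ E.acl (F ∪ T)) {r : ℕ} (h2 : trd F T ≤ Fintype.card L + r) :
    trd (F ∪ range y) U ≤ r := by
  have h3 := E.trd_le hT h1
  rw [trd_union (finite_range y) hU, h.trd_range] at h3
  omega

namespace Plc

variable {P : Plc K R} {F F' : Subfield K} {Y : L → K} {Z : κ → K}

theorem Gauss.split [IsAlgClosed K] (h : P.Gauss F (Sum.elim Z Y)) :
    P.Gauss F Y ∧ P.Gauss (E.acl (F ∪ Set.range Y)) Z := by
  have h1 : P.Gauss F Y := h.comp (e := Sum.inr) Sum.inr_injective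
  refine ⟨h1, fun i => h.1 (.inl i), ?_⟩
  have h2 := h.2
  rw [Sum.comp_elim, ind_sum_iff] at h2
  rw [h1.res_acl]
  exact h2.2.acl

/-- Elements that are integral for the coarse place are bounded by constants. -/
theorem Gauss.exists_const [IsAlgClosed K] {P Q : Plc K K} (hP : P.IdOn F')
    (hF' : E.acl (F' : Set K) = F') (hF : P.res F = F') (h : (P.comp Q).Gauss F Y) {x : K}
    (hx : x ∈ E.acl (F ∪ Set.range Y)) (h1 : P.v x ≤ 1) :
    ∃ c ∈ F', c ≠ 0 ∧ (P.comp Q).v (c * x) ≤ 1 := by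
  have hQ : Q.Gauss F' (P.r ∘ Y) := ⟨fun i => ((comp_le_one Q).1 (h.1 i)).2, by
    have := h.2
    rwa [comp_res, hF, show (P.comp Q).r ∘ Y = Q.r ∘ P.r ∘ Y from funext fun i => comp_r Q _]
      at this⟩
  have hP' : P.Gauss F Y := ⟨fun i => ((comp_le_one Q).1 (h.1 i)).1, hF ▸ hQ.ind⟩
  obtain ⟨c, hc, e⟩ := hQ.full.exists_v (x := P.r x) (subset_acl _ (by
    rw [← hF, ← hP'.res_acl]
    exact r_mem_res hx))
  rw [hF'] at hc
  obtain rfl | h0 := eq_or_ne c 0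
  · exact ⟨1, one_mem _, one_ne_zero, (comp_le_one Q).2 ⟨by simpa, by simp [e]⟩⟩
  · have h2 := hP _ (inv_mem hc)
    refine ⟨c⁻¹, inv_mem hc, inv_ne_zero h0, (comp_le_one Q).2 ⟨v_mul_le h2.1 h1, ?_⟩⟩
    rw [r_mul h2.1 h1, h2.2, map_mul, map_inv₀, e, inv_mul_cancel₀ (Q.v_ne h0)]

/-- The residue of a rescaled value of an adapted row. -/
theorem res_row [Fintype ι] {P : Plc ℂ ℂ} {σ : ℂ} (hσ : P.v σ < 1) {m : ι → ℕ} {μ : ℕ}
    {x y : ι → ℂ} (hx : P.IdOn (Set.range x)) (h : ∀ j, μ < m j → x j = 0)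
    (hy : ∀ j, P.v (σ ^ m j * y j) ≤ 1) : P.v (σ ^ μ * (x ⬝ᵥ y)) ≤ 1 ∧
      P.r (σ ^ μ * (x ⬝ᵥ y)) = cut (fun j => m j = μ) x ⬝ᵥ fun j => P.r (σ ^ m j * y j) := by
  have h1 : σ ^ μ * (x ⬝ᵥ y) = (fun j => σ ^ (μ - m j) * x j) ⬝ᵥ fun j => σ ^ m j * y j := by
    rw [dotProduct, dotProduct, Finset.mul_sum]
    refine Finset.sum_congr rfl fun j _ => ?_
    rcases le_or_gt (m j) μ with e | e
    · conv_lhs => rw [← Nat.sub_add_cancel e, pow_add]
      ring
    · simp [h j e]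
  have h2 := AbVar.v_dot (fun j => v_mul_le (v_pow_le hσ.le (μ - m j)) (hx _ ⟨j, rfl⟩).1) hy
  rw [h1]
  refine ⟨h2.1, h2.2.trans (congrArg (· ⬝ᵥ _) (funext fun j => ?_))⟩
  rw [Function.comp_apply, r_mul (v_pow_le hσ.le _) (hx _ ⟨j, rfl⟩).1, (hx _ ⟨j, rfl⟩).2,
    r_pow hσ.le, r_of_lt hσ, cut_apply]
  rcases lt_trichotomy (m j) μ with e | e | e
  · rw [if_neg e.ne, zero_pow (Nat.sub_ne_zero_of_lt e), zero_mul]
  · rw [if_pos e, e, Nat.sub_self, pow_zero, one_mul]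
  · simp [h j e]

end Plc

end Pool.Agent.P.MP_f17f76_ag.E

namespace Pool.Agent.P.MP_f17f76_ag.AbVar

open Set Module Matrix E Hgc

variable {g N : ℕ} {A : AbVar g N} {ι κ L : Type} [Fintype κ] [DecidableEq κ]

variable (A) in
/-- The coordinates `y` and the chart coordinates `τ` of `a` are a basis over `F`, with the
derivations `d` in the directions of the chart coordinates. -/
structure Crd (F : Subfield ℂ) (y : L → ℂ) (a : Fin g → ℂ) (i : Fin N) (τ : κ → Fin N)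
    (d : κ → Der ℂ) : Prop where
  ne : A.θ a i ≠ 0
  mem : ∀ j, A.crd a j ∈ acl (F ∪ range (Sum.elim (A.aff i a ∘ τ) y))
  kil : ∀ l, d l ∈ kil (F ∪ range y : Set ℂ)
  dual : ∀ l j, d l (A.aff i a (τ j)) = if j = l then 1 else 0
  pres : ∀ l, ∀ x ∈ acl (F ∪ range (Sum.elim (A.aff i a ∘ τ) y)),
    d l x ∈ acl (F ∪ range (Sum.elim (A.aff i a ∘ τ) y))

variable (A) in
/-- The place is adapted to the coordinates. -/
structure Chd (P : Plc ℂ ℂ) (F : Subfield ℂ) (y : L → ℂ) (a : Fin g → ℂ) (θ : κ → Fin g → ℂ)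
    (q : ι → ℂ) (i : Fin N) (τ : κ → Fin N) (d : κ → Der ℂ) : Prop where
  gau : P.Gauss F (Sum.elim (A.aff i a ∘ τ) y)
  int : ∀ j, P.v (A.aff i a j) ≤ 1
  bd : ∀ j, P.v (q j) ≤ 1
  det : P.v (of fun j l => A.pv θ a (d l) j).det = 1

omit [Fintype κ] [DecidableEq κ] in
theorem acl_sum (F : Set ℂ) (t : κ → ℂ) (y : L → ℂ) :
    acl (acl (F ∪ range y) ∪ range t : Set ℂ) = acl (F ∪ range (Sum.elim t y)) := by
  rw [union_comm, acl_union_acl, Sum.elim_range, union_left_comm]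

variable [Fintype ι] [DecidableEq ι] [Fintype L] {o : Ob ι κ g} {k₁ K kt : Subfield ℂ} {σ : ℂ}
  {m : ι → ℕ} {P : Plc ℂ ℂ} {G : Matrix ι ι ℂ} {b : Fin g → ℂ} {n : L → ι → ℂ} {μ : L → ℕ}

/-- The composite place. -/
theorem gf_mid (hS : A.S_SIM) (ho : IsOb A o) (h : PosAt A o k₁ K σ m P G b) (hK : Cac K)
    (h1 : o.k' ≤ K) (h2 : k₁ ≤ K) (h3 : o.k ≤ kt) (h4 : kt ≤ K) (hθ : ∀ j i, o.θ j i ∈ kt)
    (had : Adapt o.r G m o.N n μ) (hn : ∀ l j, n l j ∈ K) {Q : Plc ℂ ℂ} (hQ : Q.IdOn kt) :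
    ∃ (P' : Plc ℂ ℂ) (c : ι → ℂ) (i : Fin N) (τ : κ → Fin N) (d : κ → Der ℂ), Q.Agree P' K ∧
      (∀ x ∈ K, x ≠ 0 → P'.v σ < P'.v x) ∧ (∀ j, c j ∈ K ∧ c j ≠ 0) ∧
      acl (Subfield.closure (K ∪ {σ}) ∪
        range (Sum.elim (A.aff i o.a ∘ τ) fun l => σ ^ μ l * (n l ⬝ᵥ o.z)) : Set ℂ) =
        acl (K ∪ {σ} ∪ pt A o.z o.a) ∧
      A.Crd (Subfield.closure (K ∪ {σ})) (fun l => σ ^ μ l * (n l ⬝ᵥ o.z)) o.a i τ d ∧
      A.Chd P' (Subfield.closure (K ∪ {σ})) (fun l => σ ^ μ l * (n l ⬝ᵥ o.z)) o.a o.θ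
        (fun j => c j * (σ ^ m j * (G⁻¹ *ᵥ o.z) j)) i τ d := by
  set F := Subfield.closure (K ∪ {σ} : Set ℂ)
  set y := fun l => σ ^ μ l * (n l ⬝ᵥ o.z)
  have hKF : K ≤ F := fun x hx => Subfield.subset_closure (Or.inl hx)
  have hσ : σ ∈ F := Subfield.subset_closure (Or.inr rfl)
  have hA := ho.ovr.mono h3
  have hres : P.res F = K := (Plc.tr_of_triv h.id.triv h.ne h.lt.ne).res.trans h.id.res
  have hFp : F ≤ acl (F ∪ pt A o.z o.a) := subset_union_left.trans (subset_acl _)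
  have hz : ∀ j, o.z j ∈ acl (F ∪ pt A o.z o.a : Set ℂ) := fun j =>
    mem_acl_of_mem (Or.inr (mem_pt_left j))
  have ha : range (A.crd o.a) ⊆ acl (F ∪ pt A o.z o.a : Set ℂ) :=
    (subset_union_right.trans subset_union_right).trans (subset_acl _)
  have hu : ∀ j, σ ^ m j * (G⁻¹ *ᵥ o.z) j ∈ acl (F ∪ pt A o.z o.a : Set ℂ) := fun j =>
    mul_mem (pow_mem (hFp hσ) _) (mulVec_mem (fun i j => hFp (hKF (h2 (h.gr.inv.mem i j)))) hz j)
  have hy : range y ⊆ acl (F ∪ pt A o.z o.a : Set ℂ) := range_subset_iff.2 fun l =>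
    mul_mem (pow_mem (hFp hσ) _) (dot_mem (fun j => hFp (hKF (hn l j))) hz)
  have hle : trd F (pt A o.z o.a) ≤ Fintype.card L + Fintype.card κ := had.card ▸
    (trd_anti (finite_pt _ _) (Subset.trans (h1.trans hKF) (subset_acl _))).trans ho.ndg.le
  have hG : ∀ l j, (n l ᵥ* G) j ∈ K := fun l => vecMul_mem (hn l) fun i j => h2 (h.gr.mem i j)
  have hr : ∀ l, P.v (y l) ≤ 1 ∧ P.r (y l) = E.cut (fun j => m j = μ l) (n l ᵥ* G) ⬝ᵥ
      fun j => P.r (σ ^ m j * (G⁻¹ *ᵥ o.z) j) := fun l => by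
    have := Plc.res_row h.lt (h.id.mono (range_subset_iff.2 (hG l))) (had.low l) h.int
    rwa [← dotProduct_mulVec, mulVec_inv_cancel h.gr.det] at this
  have hle' := (hres ▸ h.red.trd_le (F := F) (u := fun j => σ ^ m j * (G⁻¹ *ᵥ o.z) j)).trans
    ((trd_le (finite_pt _ _) (union_subset (range_subset_iff.2 hu) ha)).trans hle)
  have hN := h.sur.ndg (by rwa [finrank_ini, finrank_act h.gr.det, ← had.card])
  have h5 : ∀ l, E.cut (fun j => m j = μ l) (n l ᵥ* G) ∈ ini m (act G o.N) := fun l =>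
    cut_mem_ini (vecMul_mem_act G (had.mem l)) (had.supp l)
  have h6 : ∀ l j, E.cut (fun j => m j = μ l) (n l ᵥ* G) j ∈ acl (K : Set ℂ) := fun l j =>
    subset_acl _ (by
      rw [cut_apply]
      split_ifs
      exacts [hG l j, zero_mem _])
  have h7 := hN.ind had.ind h5 h6
  have h8 := hN.pair h5 h6
  rw [← funext fun l => (hr l).2] at h7 h8
  have h9 : P.Gauss F y := ⟨fun l => (hr l).1, hres ▸ h7⟩
  obtain ⟨W, hW⟩ := exists_ind (Plc.countable_res (P := Q) hK.cnt) L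
  obtain ⟨Q₁, h10, h11⟩ := Plc.exists_gauss le_rfl Q hK.cnt h7 W
  obtain ⟨Q₂, h12, b₂, h13, h14⟩ := hS kt (acl (K ∪ range fun l => P.r (y l))) κ o.θ b Q₁ hA
    (Subset.trans h4 (subset_union_left.trans (subset_acl _)))
    (countable_acl (hK.cnt.union (countable_range _))) ((h10.mono h4).lifts hQ) hθ
    (by
      rw [trd_acl_base (finite_range _)]
      refine h7.trd_le (finite_pt _ _) (finite_range _) (union_subset (range_subset_iff.2 fun l =>
        (hr l).2 ▸ dot_mem (fun j => acl_mono subset_union_left (h6 l j)) fun j =>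
          mem_acl_of_mem (Or.inr (mem_pt_left j)))
        ((subset_union_right.trans subset_union_right).trans (subset_acl _))) hle')
    (h8.anti subset_rfl)
  rw [acl_acl] at h12 h14
  have h15 : Q.Agree (P.comp Q₂) K := fun x hx => by
    have e := (h10.trans (h12.mono (subset_union_left.trans (subset_acl _)))) x hx
    rw [Plc.comp_le_one, Plc.comp_r, (h.id x hx).2]
    exact ⟨e.1.trans (and_iff_right (h.id x hx).1).symm, e.2⟩
  have h16 : (P.comp Q₂).IdOn kt := (h15.mono h4).lifts hQ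
  have h17 : (P.comp Q₂).Gauss F y := by
    have e := fun l => h12 _ (mem_acl_of_mem (Or.inr ⟨l, rfl⟩))
    refine ⟨fun l => (Plc.comp_le_one _).2 ⟨(hr l).1, (e l).1.1 (h11 l).1⟩, ?_⟩
    rw [Plc.comp_res, hres, ← h12.res (subset_union_left.trans (subset_acl _)), ← h10.res le_rfl,
      show (P.comp Q₂).r ∘ y = W from funext fun l =>
        (Plc.comp_r _ _).trans ((e l).2.symm.trans (h11 l).2)]
    exact hW
  have h18 := h.red.comp h13
  obtain ⟨i, hi, -⟩ := id h18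
  have h19 : trd (acl (F ∪ range y : Set ℂ)) (pt A o.z o.a) ≤ Fintype.card κ := by
    rw [trd_acl_base (finite_pt _ _)]
    exact h9.ind.trd_le (finite_pt _ _) (finite_pt _ _)
      (union_subset hy (subset_union_right.trans (subset_acl _))) hle
  have h20 : kt ≤ acl (F ∪ range y : Set ℂ) :=
    Subset.trans (h4.trans hKF) (subset_union_left.trans (subset_acl _))
  obtain ⟨τ, h21, h22, d, -, h23, h24, -⟩ := hA.tch h16 h18 h20 rfl
    (fun j l => ⟨subset_acl _ (Or.inl (h20 (hθ j l))), h16 _ (hθ j l)⟩)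
    ((trd_mono (finite_pt _ _) subset_union_right).trans h19) (by
      rw [Plc.comp_res, h9.res_acl, hres]
      exact h12.res le_rfl ▸ h14) hi
  have h25 := h17.sum h21 (subset_union_left.trans (subset_acl _))
    fun l => mem_acl_of_mem (Or.inr ⟨l, rfl⟩)
  have h26 : pt A o.z o.a ⊆ acl (F ∪ range (Sum.elim (A.aff i o.a ∘ τ) y) : Set ℂ) := by
    rw [← acl_sum]
    exact h21.ind.subset_acl (finite_pt _ _) (range_subset_iff.2 fun j =>
      aff_mem (fun j => mem_acl_of_mem (Or.inr (mem_pt_right j))) _ _) h19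
  have h27 : acl (F ∪ range (Sum.elim (A.aff i o.a ∘ τ) y) : Set ℂ) = acl (F ∪ pt A o.z o.a) :=
    acl_congr (union_subset hFp (range_subset_iff.2 (Sum.forall.2
      ⟨fun j => aff_mem (range_subset_iff.1 ha) _ _, range_subset_iff.1 hy⟩)))
      (union_subset (subset_union_left.trans (subset_acl _)) h26)
  choose c h28 h29 h30 using fun j => h25.exists_const h.id hK.acl_eq hres (h27 ▸ hu j) (h.int j)
  rw [h22, acl_sum] at h23
  refine ⟨_, c, i, τ, d, h15, fun x hx h0 => Plc.comp_lt_of_lt _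
    (h.lt.trans_eq (h.id.triv.v_eq hx h0).symm), fun j => ⟨h28 j, h29 j⟩, h27.trans ?_,
    ⟨(h18.chart hi).1, fun j => h26 (mem_pt_right j), fun l => (kil_acl _).le (h23 l).1.kil,
      fun l => (h23 l).2, fun l => (h23 l).1.mem⟩, h25, fun j => ((h18.chart hi).2 j).1, h30, h24⟩
  exact acl_congr (union_subset ((closure_le_acl _).trans (acl_mono subset_union_left))
    (subset_union_right.trans (subset_acl _)))
    ((union_subset_union_left _ Subfield.subset_closure).trans (subset_acl _))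

end Pool.Agent.P.MP_f17f76_ag.AbVar
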