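import Pool.Agent.P.MP_f17f76_ag.E.Gen
import Pool.Agent.P.MP_f17f76_ag.E.Aut
import Pool.Agent.P.MP_f17f76_ag.BrCut

/-!
The locus of a point over a subfield, its analytic chart, and conjugacy of generic points.
-/

namespace Pool.Agent.P.MP_f17f76_ag.E

open MvPolynomial Filter Topology Module Set

variable {ι σ τ : Type} {K : Subfield ℂ} {F S : Set ℂ} {z : σ → ℂ} {y : τ → ℂ} {t : ℂ}
  {p : MvPolynomial (σ ⊕ τ) ℂ}

instance uncountableComplex : Uncountable ℂ := Complex.ofReal_injective.uncountable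

/-- The restriction of a polynomial to a line of the cone. -/
noncomputable def cpoly (z : σ → ℂ) (y : τ → ℂ) : MvPolynomial (σ ⊕ τ) ℂ →ₐ[ℂ] Polynomial ℂ :=
  aeval (Sum.elim (fun i => Polynomial.C (z i)) fun j => Polynomial.C (y j) * Polynomial.X)

theorem eval_cpoly (z : σ → ℂ) (y : τ → ℂ) (p : MvPolynomial (σ ⊕ τ) ℂ) (s : ℂ) :
    (cpoly z y p).eval s = eval (Sum.elim z (s • y)) p := by
  induction p using MvPolynomial.induction_on with
  | C a => simp [cpoly]
  | add p q hp hq => simp [hp, hq]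
  | mul_X p i hp =>
    rw [map_mul, Polynomial.eval_mul, hp]
    cases i <;> simp [cpoly, mul_comm s]

theorem cone_of_nat (h : ∀ n : ℕ, eval (Sum.elim z ((n : ℂ) • y)) p = 0) (s : ℂ) :
    eval (Sum.elim z (s • y)) p = 0 := by
  rw [← eval_cpoly, (cpoly z y p).eq_zero_of_infinite_isRoot
    ((infinite_range_of_injective (Nat.cast_injective (R := ℂ))).mono
      (range_subset_iff.2 fun n : ℕ => (eval_cpoly z y p n).trans (h n))), Polynomial.eval_zero]

theorem cone_of_trans (hp : Cf (acl S) p) (hz : range z ⊆ acl S) (hy : range y ⊆ acl S)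
    (ht : t ∉ acl S) (h : eval (Sum.elim z (t • y)) p = 0) (s : ℂ) :
    eval (Sum.elim z (s • y)) p = 0 := by
  have h1 : cpoly z y p ∈ Polynomial.liftsRing (acl S).subtype :=
    hp.induction (P := fun p => cpoly z y p ∈ Polynomial.liftsRing (acl S).subtype)
      (fun a ha => by
        rw [cpoly, aeval_C]
        exact Polynomial.C_mem_lifts (acl S).subtype ⟨a, ha⟩)
      (fun _ _ h h' => by simpa using add_mem h h') fun _ i h => by
        rw [map_mul, cpoly, aeval_X]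
        refine mul_mem h ?_
        cases i
        exacts [Polynomial.C_mem_lifts (acl S).subtype ⟨_, hz ⟨_, rfl⟩⟩, mul_mem
          (Polynomial.C_mem_lifts (acl S).subtype ⟨_, hy ⟨_, rfl⟩⟩) (Polynomial.X_mem_lifts _)]
  rw [← eval_cpoly, show cpoly z y p = 0 from by_contra fun h2 => ht (mem_acl_of_poly h2 (fun n => by
    obtain ⟨a, ha⟩ := (Polynomial.lifts_iff_coeff_lifts _).1 h1 n
    exact ha ▸ a.2) ((eval_cpoly z y p t).trans h)), Polynomial.eval_zero]

theorem Cf.exists_homog (hp : Cf K p) (i : τ) : ∃ p', Cf K p' ∧ ∀ (z : σ → ℂ) (y : τ → ℂ),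
    eval (Sum.elim z y) p' = 0 ↔ y i = 0 ∨ eval (Sum.elim z ((y i)⁻¹ • y)) p = 0 := by
  obtain ⟨d, p', h1, h2⟩ := hp.induction (P := fun p => ∃ (d : ℕ) (p' : _), Cf K p' ∧
      ∀ (z : σ → ℂ) (y : τ → ℂ), y i ≠ 0 → eval (Sum.elim z y) p' =
        y i ^ d * eval (Sum.elim z ((y i)⁻¹ • y)) p)
    (fun a ha => ⟨0, C a, cf_C ha, fun z y _ => by simp⟩)
    (fun _ _ ⟨d, p', h1, h2⟩ ⟨d', q', h3, h4⟩ => ⟨d + d',
      X (Sum.inr i) ^ d' * p' + X (Sum.inr i) ^ d * q',
      (((cf_X _).pow _).mul h1).add (((cf_X _).pow _).mul h3), fun z y hy => by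
        simp only [map_add, map_mul, map_pow, eval_X, Sum.elim_inr, h2 z y hy, h4 z y hy]
        ring⟩) fun _ j ⟨d, p', h1, h2⟩ => ⟨d + j.elim (fun _ => 0) fun _ => 1, p' * X j,
      h1.mul (cf_X j), fun z y hy => by
        cases j
        · simp [h2 z y hy, mul_assoc]
        · simp only [map_mul, eval_X, h2 z y hy, Sum.elim_inr, Pi.smul_apply, smul_eq_mul]
          field_simp
          ring⟩
  refine ⟨X (Sum.inr i) * p', (cf_X _).mul h1, fun z y => ?_⟩
  by_cases hy : y i = 0 <;> simp [h2, hy]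

variable [Fintype ι] {x : ι → ℂ} {a : (ι → ℂ) → ℂ}

theorem KN.eventually (h : KN K x a) : ∀ᶠ u in 𝓝 x, KN K u a := by
  obtain ⟨h1, f, h2, h3⟩ := kn_iff.1 h
  filter_upwards [h1.eventually_analyticAt, h3.eventually_nhds] with u h4 h5
  exact kn_iff.2 ⟨h4, f, h2, h5⟩

theorem ind_residual (hF : F.Countable) : ∀ᶠ u in residual (ι → ℂ), Ind F u := by
  have := (eventually_countable_ball (l := residual (ι → ℂ))
    (p := fun u p _ => p ≠ 0 → eval u p ≠ 0) (countable_cf (σ := ι) (countable_acl hF))).2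
    fun p _ => by
      rcases eq_or_ne p 0 with rfl | h
      · simp
      refine mem_of_superset (residual_of_dense_open (s := {u | eval u p ≠ 0})
        (isOpen_ne_fun (continuous_eval p) continuous_const)
        (dense_iff_inter_open.2 fun U hU ⟨u, hu⟩ => by_contra fun h1 => h
          (nash1_poly_eq_zero (x := u) p ((hU.eventually_mem hu).mono fun v hv =>
            by_contra fun h2 => h1 ⟨v, hv, h2⟩)))) fun u hu _ => hu
  exact this.mono fun u hu => ind_iff.2 fun p hp h => by_contra fun h0 => hu p hp h0 h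

/-- Linear relations between germs over `acl F` are spanned by relations over `acl F`. -/
theorem kn_span [Fintype σ] (hx : Ind F x) {f : τ → σ → (ι → ℂ) → ℂ} {c : σ → ℂ}
    (hf : ∀ n m, KN (acl F) x (f n m)) (hc : ∀ n, ∀ᶠ u in 𝓝 x, ∑ m, c m * f n m u = 0) :
    c ∈ Submodule.span ℂ {c' : σ → ℂ | (∀ m, c' m ∈ acl F) ∧ ∀ n, ∑ m, c' m * f n m x = 0} := by
  classical
  have hx' : AlgebraicIndependent (acl F) x := hx.algebraicClosure
  let W : Set (σ → ℂ) := {v | ∃ h : σ → (ι → ℂ) → ℂ, (∀ m, KN (acl F) x (h m)) ∧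
    (∀ᶠ u in 𝓝 x, ∑ m, c m * h m u = 0) ∧ v = fun m => h m x}
  have hW : Ov (acl F) (Submodule.span ℂ W) := ov_iff_der.2 fun D hD v hv => by
    refine Submodule.span_induction (p := fun v _ => dv v D ∈ Submodule.span ℂ W) ?_
      (by simp [show dv (0 : σ → ℂ) D = 0 from funext fun _ => map_zero D])
      (fun u v _ _ hu hv => by
        rw [show dv (u + v) D = dv u D + dv v D from funext fun _ => map_add D _ _]
        exact add_mem hu hv) (fun s v hv h => by
        rw [AbVar.dv_smul]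
        exact add_mem (Submodule.smul_mem _ _ h) (Submodule.smul_mem _ _ hv)) hv
    rintro _ ⟨h, h1, h2, rfl⟩
    rw [show (dv (fun m => h m x) D) = ∑ i, D (x i) • fun m => fderiv ℂ (h m) x (Pi.single i 1) from
      funext fun m => by
        rw [dv_apply, (h1 m).der hx' ((kil_acl F).ge hD), pi_eq_sum_univ' (dv x D)]
        simp]
    refine sum_mem fun i _ => Submodule.smul_mem _ _ (Submodule.subset_span
      ⟨fun m u => fderiv ℂ (h m) u (Pi.single i 1), fun m => (h1 m).fderiv hx' fun j => ?_, ?_, rfl⟩)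
    · rw [Pi.single_apply]
      split_ifs
      exacts [one_mem _, zero_mem _]
    · filter_upwards [h2.eventually_nhds, eventually_all.2 fun m => (h1 m).1.eventually_analyticAt]
        with u h3 h4
      simpa using congrArg (fun L => L (Pi.single i 1)) ((HasFDerivAt.fun_sum fun m _ =>
        (h4 m).differentiableAt.hasFDerivAt.const_mul (c m)).unique
          ((hasFDerivAt_const (0 : ℂ) u).congr_of_eventuallyEq h3))
  refine Submodule.span_mono ?_ (hW.ann (mem_ann_span.2 ?_))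
  · exact fun c' h => ⟨h.2, fun n => mem_ann_span.1 h.1 _ ⟨f n, hf n, hc n, rfl⟩⟩
  rintro _ ⟨h, -, h2, rfl⟩
  exact h2.self_of_nhds

end Pool.Agent.P.MP_f17f76_ag.E

namespace Pool.Agent.P.MP_f17f76_ag.AbVar

open MvPolynomial Filter Topology Module E Set

variable {g N : ℕ} {A : AbVar g N} {k K : Subfield ℂ} {ι : Type} [Fintype ι] {x : ι → ℂ}
  {i : Fin N} {q q' : (Fin g → ℂ) × (Fin g → ℂ)} {F : Set ℂ} {p : MvPolynomial (Fin g ⊕ Fin N) ℂ}
  {Ψ : (ι → ℂ) → (Fin g → ℂ) × (Fin g → ℂ)} {Ω : Set (ι → ℂ)} {D : Der ℂ}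
  {P : Ideal (MvPolynomial (Fin g ⊕ Fin N) ℂ)} {U : Submodule ℂ (Fin g → ℂ)}

/-- The ideal of the locus of `q` over `K`. -/
noncomputable def locI (A : AbVar g N) (K : Subfield ℂ) (q : (Fin g → ℂ) × (Fin g → ℂ)) :
    Ideal (MvPolynomial (Fin g ⊕ Fin N) ℂ) :=
  Ideal.span {p | Cf K p ∧ ∀ t : ℂ, eval (Sum.elim q.1 (t • A.θ q.2)) p = 0}

/-- The coordinates of a point of `ℂ^g × A`. -/
def cs (A : AbVar g N) (q : (Fin g → ℂ) × (Fin g → ℂ)) : Set ℂ := range q.1 ∪ range (A.crd q.2)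

theorem finite_cs (A : AbVar g N) (q : (Fin g → ℂ) × (Fin g → ℂ)) : (A.cs q).Finite :=
  (finite_range _).union (finite_range _)

theorem mem_zeroSet_locI (A : AbVar g N) (K : Subfield ℂ) (q : (Fin g → ℂ) × (Fin g → ℂ)) :
    q ∈ A.zeroSet (A.locI K q) := fun _ hp t =>
  Ideal.span_le (I := RingHom.ker (eval (Sum.elim q.1 (t • A.θ q.2)))).2 (fun _ h => h.2 t) hp

theorem mem_locI (hp : Cf K p) :
    p ∈ A.locI K q ↔ ∀ t : ℂ, eval (Sum.elim q.1 (t • A.θ q.2)) p = 0 :=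
  ⟨A.mem_zeroSet_locI K q p, fun h => Ideal.subset_span ⟨hp, h⟩⟩

theorem locI_le_iff : A.locI K q ≤ A.locI K q' ↔ q' ∈ A.zeroSet (A.locI K q) :=
  ⟨fun h p hp => A.mem_zeroSet_locI K q' p (h hp), fun h => Ideal.span_le.2 fun p hp =>
    (mem_locI hp.1).2 (h p (Ideal.subset_span hp))⟩

theorem cone_of_nat' {z w : Fin g → ℂ} {s : ℂ} (hs : s ≠ 0)
    (h : ∀ n : ℕ, eval (Sum.elim z ((n : ℂ) • s • A.θ w)) p = 0) (t : ℂ) :
    eval (Sum.elim z (t • A.θ w)) p = 0 := by
  have := cone_of_nat h (t * s⁻¹)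
  rwa [mul_smul, inv_smul_smul₀ hs] at this

theorem tdeg_locI_le (hF : F.Countable) (q : (Fin g → ℂ) × (Fin g → ℂ)) :
    tdeg (A.locI (acl F) q) ≤ trd F (A.cs q) + 1 := tdeg_le fun T hT => by
  obtain ⟨t, ht⟩ : ∃ t, t ∉ acl (F ∪ A.cs q) := by_contra fun h => not_countable_univ
    ((countable_acl (hF.union (A.finite_cs q).countable)).mono fun t _ => by_contra fun h' =>
      h ⟨t, h'⟩)
  have h1 : Ind F fun j : T => Sum.elim q.1 (t • A.crd q.2) j := ind_iff.2 fun p hp h =>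
    hT p ((mem_locI (Cf.rename hp _)).2 (cone_of_nat' (A.piv_inv_ne _) fun n => cone_of_trans
      ((Cf.rename hp _).mono (acl_mono subset_union_left))
      (fun _ h => mem_acl_of_mem (Or.inr (Or.inl h))) (fun _ h => mem_acl_of_mem (Or.inr (Or.inr h)))
      ht (by rwa [eval_rename]) n))
  rw [← trd_insert_of_notMem (A.finite_cs q) ht, ← Fintype.card_coe, ← trd_range_eq_iff.2 h1]
  refine trd_le ((A.finite_cs q).insert t) ?_
  rintro _ ⟨⟨j | j, -⟩, rfl⟩
  · exact mem_acl_of_mem (Or.inr (Or.inr (Or.inl ⟨j, rfl⟩)))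
  · exact mul_mem (mem_acl_of_mem (Or.inr (Or.inl rfl)))
      (mem_acl_of_mem (Or.inr (Or.inr (Or.inr ⟨j, rfl⟩))))

/-- Points with the same locus over a countable field are conjugate. -/
theorem conj_of_locI (hK : (K : Set ℂ).Countable) (h : A.locI K q = A.locI K q') :
    ∃ s : ℂ ≃+* ℂ, (∀ a ∈ K, s a = a) ∧ q'.1 = s ∘ q.1 ∧ A.crd q'.2 = s ∘ A.crd q.2 := by
  obtain ⟨i, hi, e⟩ := A.exists_aff q.2
  have hi' : A.θ q'.2 i ≠ 0 := fun h0 => hi (by
    simpa using (mem_locI (cf_X (Sum.inr i))).1 (h.ge ((mem_locI (cf_X _)).2 (by simp [h0]))) 1)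
  have key : ∀ r : MvPolynomial (Fin g ⊕ Fin N) K, ∃ p, ∀ q : (Fin g → ℂ) × (Fin g → ℂ),
      A.θ q.2 i ≠ 0 → (aeval (Sum.elim q.1 (A.aff i q.2)) r = 0 ↔ p ∈ A.locI K q) := fun r => by
    obtain ⟨p, h1, h2⟩ := (cf_map r).exists_homog i
    refine ⟨p, fun q hq => ?_⟩
    simp only [mem_locI h1, h2, eval_map_sub]
    refine ⟨fun h3 t => or_iff_not_imp_left.2 fun ht => ?_, fun h3 => by simpa [hq, aff] using h3 1⟩
    rwa [Pi.smul_apply, smul_eq_mul, smul_smul, mul_inv_rev, inv_mul_cancel_right₀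
      (left_ne_zero_of_mul ht)]
  have : Countable K := hK
  have : Countable (MvPolynomial (Fin g ⊕ Fin N) K) := Cardinal.mk_le_aleph0_iff.1
    (cardinalMk_le_max_lift.trans (by simp))
  obtain ⟨s, hs⟩ := exists_equiv_of_ker rfl
    (aeval (R := K) (Sum.elim q.1 (A.aff i q.2))).toRingHom
    (aeval (R := K) (Sum.elim q'.1 (A.aff i q'.2))).toRingHom fun r => by
      obtain ⟨p, hp⟩ := key r
      exact (hp q hi).trans (h ▸ (hp q' hi').symm)
  refine ⟨s, fun a ha => by simpa [Subfield.algebraMap_ofSubfield] using hs (C ⟨a, ha⟩), funext fun j => by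
    simpa using (hs (X (Sum.inl j))).symm, ?_⟩
  rw [← nrm_aff hi', ← nrm_aff hi, ← show _ = s ∘ _ from nrm_map s.toRingHom _]
  exact congrArg nrm (funext fun j => by simpa using (hs (X (Sum.inr j))).symm)

theorem locI_of_conj (s : ℂ →+* ℂ) (hs : ∀ a ∈ K, s a = a) (h1 : q'.1 = s ∘ q.1)
    (h2 : A.crd q'.2 = s ∘ A.crd q.2) : A.locI K q = A.locI K q' := by
  have key : ∀ p, Cf K p → ∀ n : ℕ, eval (Sum.elim q'.1 ((n : ℂ) • A.crd q'.2)) p =
      s (eval (Sum.elim q.1 ((n : ℂ) • A.crd q.2)) p) := fun p hp n => by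
    rw [hp.map_eval s hs, h1, h2]
    congr 2
    funext j
    cases j <;> simp
  refine congrArg Ideal.span (Set.ext fun p => and_congr_right fun hp => ⟨fun h => ?_, fun h => ?_⟩)
  · refine cone_of_nat' (A.piv_inv_ne _) fun n => (key p hp n).trans ?_
    rw [crd_eq, smul_smul, h, map_zero]
  · refine cone_of_nat' (A.piv_inv_ne _) fun n => (map_eq_zero s).1 ((key p hp n).symm.trans ?_)
    rw [crd_eq, smul_smul, h]

/-- In a chart of a variety defined over a countable field most points are generic. -/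
theorem IsPar.loc_residual {G : Type} [NormedAddCommGroup G] [NormedSpace ℂ G] {Ω : Set G}
    {Ψ : G → (Fin g → ℂ) × (Fin g → ℂ)} (h : A.IsPar P Ω Ψ) (hK : (K : Set ℂ).Countable)
    (hP : P ≤ Ideal.span {p | Cf K p ∧ p ∈ P}) :
    ∀ᶠ y in residual G, y ∈ Ω → A.locI K (Ψ y) = P := by
  filter_upwards [(eventually_countable_ball ((countable_cf hK).mono
    (show {p | Cf K p ∧ p ∉ P} ⊆ _ from fun _ h => h.1))).2 fun p hp => h.ne_residual hp.2]
    with y h1 hy
  exact le_antisymm (Ideal.span_le.2 fun p hp => by_contra fun h2 =>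
    (h1 p ⟨hp.1, h2⟩ hy).elim fun t ht => ht (hp.2 t))
    (hP.trans (Ideal.span_mono fun p hp => ⟨hp.1, h.mem_zeroSet hy p hp.2⟩))

theorem locI_le_span : A.locI K q ≤ Ideal.span {p | Cf K p ∧ p ∈ A.locI K q} :=
  Ideal.span_mono fun _ hp => ⟨hp.1, Ideal.subset_span hp⟩

/-- `Ψ` is an analytic family of points of `ℂ^g × A` with coordinates algebraic over `K(x)`. -/
structure Lq (A : AbVar g N) (K : Subfield ℂ) (x : ι → ℂ) (i : Fin N)
    (Ψ : (ι → ℂ) → (Fin g → ℂ) × (Fin g → ℂ)) : Prop where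
  fst : ∀ j, KN K x fun u => (Ψ u).1 j
  snd : A.Lg K x i fun u => (Ψ u).2

theorem Lq.an (l : A.Lq K x i Ψ) : AnalyticAt ℂ Ψ x :=
  (analyticAt_pi_iff.2 fun j => (l.fst j).1).prod l.snd.an

theorem Lq.kn (l : A.Lq K x i Ψ) {t : ℂ} (ht : t ∈ K) (j : Fin g ⊕ Fin N) :
    KN K x fun u => Sum.elim (Ψ u).1 (t • A.aff i (Ψ u).2) j := by
  cases j
  exacts [l.fst _, (kn_const ht).mul (l.snd.kn _)]

theorem Lq.eventually (l : A.Lq K x i Ψ) : ∀ᶠ u in 𝓝 x, A.Lq K u i Ψ := by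
  filter_upwards [eventually_all.2 fun j => (l.fst j).eventually, l.snd.eventually,
    eventually_all.2 fun j => (l.snd.kn j).eventually] with u h1 h2 h3 using ⟨h1, h2.1, h2.2, h3⟩

theorem Lq.fderiv (l : A.Lq K x i Ψ) (h : A.Over k) (hk : k ≤ K) (hx : AlgebraicIndependent K x)
    (hD : D ∈ kil (K : Set ℂ)) :
    fderiv ℂ Ψ x (dv x D) = (dv (Ψ x).1 D, A.dl (Ψ x).2 D) := by
  have h1 := l.an.differentiableAt.hasFDerivAt
  refine Prod.ext (funext fun j => ?_) ?_
  · exact (congrArg (fun L => L (dv x D)) (hasFDerivAt_pi'.1 h1.fst j).fderiv).symm.trans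
      ((l.fst j).der hx hD).symm
  · rw [l.snd.dl h hk hx hD, h1.snd.fderiv]
    rfl

theorem Lq.range (l : A.Lq (acl F) x i Ψ) (h : A.Over k) (hk : (k : Set ℂ) ⊆ acl F)
    (hx : Ind F x) : LinearMap.range (_root_.fderiv ℂ Ψ x).toLinearMap =
      (kil F).map ((dv (Ψ x).1).prod (A.dl (Ψ x).2)) := by
  refine le_antisymm ?_ ?_
  · rintro _ ⟨v, rfl⟩
    obtain ⟨D, hD, h1⟩ := exists_der hx v
    rw [← show dv x D = v from funext h1]
    exact ⟨D, hD, (l.fderiv h hk hx.algebraicClosure ((kil_acl F).ge hD)).symm⟩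
  · rintro _ ⟨D, hD, rfl⟩
    exact ⟨_, l.fderiv h hk hx.algebraicClosure ((kil_acl F).ge hD)⟩

theorem Lq.idl_eq (l : A.Lq (acl F) x i Ψ) (hx : Ind F x) (ho : IsOpen Ω) (hc : IsPreconnected Ω)
    (hm : x ∈ Ω) (han : ∀ y ∈ Ω, AnalyticAt ℂ Ψ y) : A.idl (Ψ '' Ω) = A.locI (acl F) (Ψ x) := by
  refine le_antisymm (fun p hp => ?_) (Ideal.span_le.2 fun p hp => ?_)
  · let Φ : (p.support → ℂ) →ₗ[ℂ] MvPolynomial (Fin g ⊕ Fin N) ℂ :=
      Fintype.linearCombination ℂ fun m => monomial m.1 1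
    have h1 : Φ (fun m => p.coeff m) = p := by
      simp only [Φ, Fintype.linearCombination_apply, smul_monomial, smul_eq_mul, mul_one]
      rw [Finset.sum_coe_sort p.support fun m => monomial m (p.coeff m), ← as_sum]
    have h2 : ∀ c y, eval y (Φ c) = ∑ m, c m * eval y (monomial m.1 1) := fun c y => by
      simp only [Φ, Fintype.linearCombination_apply, map_sum, smul_eval]
    have h3 : ∀ m : Fin g ⊕ Fin N →₀ ℕ, Cf (acl F) (monomial m (1 : ℂ)) := fun m => by
      simpa using cf_map (monomial m (1 : acl F))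
    rw [← h1]
    refine (Submodule.span_le (p := ((A.locI (acl F) (Ψ x)).restrictScalars ℂ).comap Φ)).2
      (fun c hc => (mem_locI ?_).2 (cone_of_nat' (inv_ne_zero l.snd.ne) fun n =>
        (h2 c _).trans (hc.2 n))) (kn_span hx (fun (n : ℕ) (m : p.support) =>
          kn_eval (h3 m.1) (l.kn (natCast_mem _ n))) fun n => ?_)
    · simp only [Φ, Fintype.linearCombination_apply, smul_eq_C_mul]
      exact cf_sum fun m _ => (cf_C (hc.1 m)).mul (h3 m.1)
    · filter_upwards [ho.mem_nhds hm] with u hu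
      rw [← h2, h1, aff, smul_smul]
      exact A.mem_idl.1 hp _ ⟨u, hu, rfl⟩ _
  · obtain ⟨ε, hε, h1⟩ := Metric.eventually_nhds_iff_ball.1 l.eventually
    rw [SetLike.mem_coe, idl_image]
    refine mem_vanI_of_eventually (hc.prod isPreconnected_univ)
      (fun y hy => cone_an (han y.1 hy.1)) (y := (x, 1)) ⟨hm, trivial⟩ ?_
    filter_upwards [(continuousAt_fst (p := (x, (1 : ℂ)))).eventually
      (Metric.ball_mem_nhds x hε)] with u hu
    refine cone_of_nat' (inv_ne_zero (h1 _ hu).snd.ne) (fun n => ?_) _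
    exact AnalyticOnNhd.eqOn_zero_of_preconnected_of_eventuallyEq_zero
      (fun v hv => (kn_eval hp.1 ((h1 v hv).kn (natCast_mem _ n))).1)
      (convex_ball x ε).isPreconnected (Metric.mem_ball_self hε)
      ((kn_eval hp.1 (l.kn (natCast_mem _ n))).eq_zero hx.algebraicClosure (by
        rw [aff, smul_smul]
        exact hp.2 _)) hu

/-- The chart of the locus of a point. -/
theorem Over.exists_loc (h : A.Over k) (hF : F.Countable) (hk : (k : Set ℂ) ⊆ acl F)
    (q : (Fin g → ℂ) × (Fin g → ℂ)) : ∃ (n : ℕ) (x : Fin n → ℂ) (ε : ℝ) (i : Fin N)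
      (Ψ : (Fin n → ℂ) → (Fin g → ℂ) × (Fin g → ℂ)) (e : Fin n → Fin g ⊕ Fin N),
      n = trd F (A.cs q) ∧ 0 < ε ∧ Ψ x = q ∧ Ind F x ∧
      A.IsPar (A.locI (acl F) q) (Metric.ball x ε) Ψ ∧ ∀ y ∈ Metric.ball x ε,
        A.Lq (acl F) y i Ψ ∧ (∀ m, y m = Sum.elim (Ψ y).1 (A.aff i (Ψ y).2) (e m)) ∧
          (Ind F y → A.locI (acl F) (Ψ y) = A.locI (acl F) q) := by
  obtain ⟨x, h0, h1, h2⟩ := exists_trd_basis F (A.finite_cs q)
  have hx : AlgebraicIndependent (acl F) x := h1.algebraicClosure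
  rw [← acl_acl_union] at h2
  obtain ⟨i, hi, hi'⟩ := A.exists_aff q.2
  obtain ⟨w, l, h3⟩ := h.exists_lg hk hx hi fun j => h2 (Or.inr ⟨j, rfl⟩)
  choose z h4 h5 using fun j => exists_kn hx (h2 (Or.inl ⟨j, rfl⟩))
  let Ψ : (Fin _ → ℂ) → (Fin g → ℂ) × (Fin g → ℂ) := fun u => (fun j => z j u, w u)
  have h6 : Ψ x = q := Prod.ext (funext h5) h3
  have h7 : A.Lq (acl F) x i Ψ := ⟨h4, l⟩
  choose e he using fun m => show ∃ j, Sum.elim (Ψ x).1 ((1 : ℂ) • A.aff i (Ψ x).2) j = x m by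
    rw [h6, hi', one_smul, ← mem_range, Sum.elim_range]
    exact h0 m
  obtain ⟨ε, hε, h8⟩ := Metric.eventually_nhds_iff_ball.1 (h7.eventually.and (eventually_all.2
    fun m => ((kn_coord m).eq (h7.kn (one_mem _) (e m)) hx (he m).symm).eventually_nhds))
  have h9 : ∀ y ∈ Metric.ball x ε, Ind F y → A.idl (Ψ '' Metric.ball x ε) = A.locI (acl F) (Ψ y) :=
    fun y hy hy' => (h8 y hy).1.idl_eq hy' Metric.isOpen_ball (convex_ball x ε).isPreconnected hy
      fun u hu => (h8 u hu).1.an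
  have h10 := h9 x (Metric.mem_ball_self hε) h1
  rw [h6] at h10
  refine ⟨_, x, ε, i, Ψ, e, rfl, hε, h6, h1, h10 ▸ isPar_of_tdeg Metric.isOpen_ball
    (convex_ball x ε).isPreconnected ⟨x, Metric.mem_ball_self hε⟩ (fun u hu => (h8 u hu).1.an)
    (fun y hy => (injective_iff_map_eq_zero _).2 fun v hv => funext fun m => ?_)
    (by simpa [h10] using tdeg_locI_le hF q), fun y hy => ⟨(h8 y hy).1,
      fun m => by simpa using ((h8 y hy).2 m).self_of_nhds, fun hy' => (h9 y hy hy').symm.trans h10⟩⟩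
  have h11 := (h8 y hy).1.an.differentiableAt.hasFDerivAt
  have h12 := (ContinuousLinearMap.proj (R := ℂ) (φ := fun _ => ℂ) m).hasFDerivAt (x := y)
  have h13 := (h8 y hy).2 m
  generalize e m = j at h13
  cases j with
  | inl j =>
    simpa [hv] using congrArg (fun L => L v)
      (h12.unique ((hasFDerivAt_pi'.1 h11.fst j).congr_of_eventuallyEq h13))
  | inr j =>
    simp only [one_smul] at h13
    simpa [hv] using congrArg (fun L => L v) (h12.unique ((hasFDerivAt_pi'.1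
      ((aff_analytic (h8 y hy).1.snd.ne).differentiableAt.hasFDerivAt.comp y h11.snd)
        j).congr_of_eventuallyEq h13))

theorem Over.tdeg_locI (h : A.Over k) (hF : F.Countable) (hk : (k : Set ℂ) ⊆ acl F)
    (q : (Fin g → ℂ) × (Fin g → ℂ)) : tdeg (A.locI (acl F) q) = trd F (A.cs q) + 1 := by
  obtain ⟨n, x, ε, i, Ψ, e, h1, -, -, -, h2, -⟩ := h.exists_loc hF hk q
  rw [h2.tdeg_eq, finrank_fin_fun, h1]

theorem Over.isPrime_locI (h : A.Over k) (hF : F.Countable) (hk : (k : Set ℂ) ⊆ acl F)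
    (q : (Fin g → ℂ) × (Fin g → ℂ)) : (A.locI (acl F) q).IsPrime := by
  obtain ⟨n, x, ε, i, Ψ, e, -, -, -, -, h2, -⟩ := h.exists_loc hF hk q
  exact h2.isPrime

theorem Over.idl_locI (h : A.Over k) (hF : F.Countable) (hk : (k : Set ℂ) ⊆ acl F)
    (q : (Fin g → ℂ) × (Fin g → ℂ)) :
    A.idl (A.zeroSet (A.locI (acl F) q)) = A.locI (acl F) q := by
  obtain ⟨n, x, ε, i, Ψ, e, -, -, -, -, h2, -⟩ := h.exists_loc hF hk q
  rw [← h2.idl_eq, idl_zeroSet_idl]

/-- A point of the locus of full transcendence degree is generic. -/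
theorem Over.locI_eq (h : A.Over k) (hF : F.Countable) (hk : (k : Set ℂ) ⊆ acl F)
    (h1 : q' ∈ A.zeroSet (A.locI (acl F) q)) (h2 : trd F (A.cs q) ≤ trd F (A.cs q')) :
    A.locI (acl F) q = A.locI (acl F) q' :=
  have := h.isPrime_locI hF hk q
  have := h.isPrime_locI hF hk q'
  eq_of_le_of_tdeg_le (locI_le_iff.2 h1) (by simpa only [h.tdeg_locI hF hk, add_le_add_iff_right])

theorem trd_cs_zero (F : Set ℂ) (w : Fin g → ℂ) : trd F (A.cs (0, w)) = trd F (range (A.crd w)) :=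
  trd_congr (union_subset (range_subset_iff.2 fun _ => zero_mem _)
    (subset_union_right.trans (subset_acl _)))
    ((subset_union_right.trans subset_union_right).trans (subset_acl _))

theorem Over.locI_lie (h : A.Over k) (hF : F.Countable) (hk : (k : Set ℂ) ⊆ acl F)
    (hU : A.IsLie U) {w : Fin g → ℂ} (hw : w ∈ U) (h1 : finrank ℂ U ≤ trd F (range (A.crd w))) :
    A.locI (acl F) (0, w) = A.idl (sat₂ ⊥ U {0}) := by
  have := h.isPrime_locI hF hk (0, w)
  have : (A.idl (sat₂ ⊥ U {0})).IsPrime := Irred.sat₂ (A.isPar_point 0).isPrime ⊥ U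
  refine (eq_of_le_of_tdeg_le ?_ (by
    simpa [h.tdeg_locI hF hk, tdeg_coset ⊥ hU, trd_cs_zero] using h1)).symm
  rw [← h.idl_locI hF hk]
  refine idl_le_iff.2 fun q hq => (mem_zeroSet_coset hU).2 ⟨funext fun j => by
    simpa using hq _ ((mem_locI (cf_X (Sum.inl j))).2 fun _ => by simp) 1, ?_⟩
  obtain ⟨u, hu, t, ht⟩ := (h.zero_iff hU (y := A.θ q.2)).1 fun p hp hc => by
    simpa [eval_rename] using hq _ ((mem_locI ((hc.mono hk).rename Sum.inr)).2 fun t => by
      simpa [eval_rename] using A.mem_lieI.1 hp w hw t) 1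
  exact ⟨_, (A.per u q.2).1 ⟨t, ht⟩, by simpa using hu⟩

/-- Generic points of an abelian subvariety are conjugate. -/
theorem Over.gen_conj (h : A.Over k) (hF : F.Countable) (hk : (k : Set ℂ) ⊆ acl F)
    (hU : A.IsLie U) {w w' : Fin g → ℂ} (hw : w ∈ U) (hw' : w' ∈ U)
    (h1 : finrank ℂ U ≤ trd F (range (A.crd w))) (h2 : finrank ℂ U ≤ trd F (range (A.crd w'))) :
    ∃ s : ℂ ≃+* ℂ, (∀ a ∈ acl F, s a = a) ∧ A.crd w' = s ∘ A.crd w :=
  (conj_of_locI (countable_acl hF) ((h.locI_lie hF hk hU hw h1).trans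
    (h.locI_lie hF hk hU hw' h2).symm)).imp fun _ h => ⟨h.1, h.2.2⟩

end Pool.Agent.P.MP_f17f76_ag.AbVar
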