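import Pool.Agent.P.MP_f17f76_ag.E.Gf1
import Pool.Agent.P.MP_f17f76_ag.E.AxZ
import Pool.Agent.P.MP_f17f76_ag.K.GE

/-!
The algebraic half of the main step, second part: change of place, exchange of the forms, the
generic point and the realisation of a place by an embedding.
-/

namespace Pool.Agent.P.MP_f17f76_ag.E.Plc

open Set Cardinal

/-- A place with a Gauss family is realised by an embedding with prescribed values. -/
theorem Gauss.real {K K' R ι : Type} [Field K] [Field K'] [Field R] [IsAlgClosed K]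
    [IsAlgClosed K'] [Uncountable K] [CharZero R] [Countable ι] (hc : #K = #K') {P : Plc K R}
    {Q : Plc K' R} {F : Subfield K} {Y : ι → K} (h : P.Gauss F Y) (hF : (F : Set K).Countable)
    {e : K →+* K'} (h1 : P.Agree (Q.comap e) F) {Y' : ι → K'}
    (h2 : ∀ i, Q.v (Y' i) ≤ 1 ∧ Q.r (Y' i) = P.r (Y i)) :
    ∃ e' : K →+* K', (∀ x ∈ F, e' x = e x) ∧ (∀ i, e' (Y i) = Y' i) ∧
      P.Agree (Q.comap e') (E.acl (F ∪ Set.range Y)) := by
  have h3 : Q.Gauss (F.map e) Y' := ⟨fun i => (h2 i).1, by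
    rw [← comap_res, ← h1.res le_rfl, show Q.r ∘ Y' = P.r ∘ Y from funext fun i => (h2 i).2]
    exact h.2⟩
  obtain ⟨φ, h4, h5⟩ := exists_equiv_ind hc e hF h.ind h3.ind
  have h6 := h.agree (Q := Q.comap (φ : K →+* K')) (fun x hx => by
    rw [comap_le_one, comap_r, RingHom.coe_coe, h4 x (subset_acl _ hx), ← comap_le_one,
      ← comap_r]
    exact h1 x hx) (forall_mem_range.2 fun i => by
    rw [comap_le_one, comap_r, RingHom.coe_coe, h5]
    exact ⟨iff_of_true (h.1 i) (h2 i).1, (h2 i).2.symm⟩)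
  obtain ⟨s, h7, h8⟩ := h6.conj
  rw [acl_closure] at h8
  refine ⟨(φ : K →+* K').comp (s : K →+* K), fun x hx => ?_, fun i => ?_, fun x hx => ?_⟩
  · exact (congrArg φ (h7 x (Subfield.subset_closure (Or.inl hx)))).trans (h4 x (subset_acl _ hx))
  · exact (congrArg φ (h7 _ (Subfield.subset_closure (Or.inr ⟨i, rfl⟩)))).trans (h5 i)
  · simpa only [comap_le_one, comap_r, RingHom.comp_apply] using h8 x hx

end Pool.Agent.P.MP_f17f76_ag.E.Plc

namespace Pool.Agent.P.MP_f17f76_ag.AbVar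

open Set Module Matrix E Hgc

variable {g N : ℕ} {A : AbVar g N} {ι κ L : Type} {k K F : Subfield ℂ} {P : Plc ℂ ℂ} {σ : ℂ}
  {y : L → ℂ} {a b w : Fin g → ℂ} {θ : κ → Fin g → ℂ} {q : ι → ℂ} {i : Fin N} {τ : κ → Fin N}
  {d : κ → Der ℂ} {B L' L₁ : Submodule ℂ (Fin g → ℂ)} {S T : Set ℂ}

theorem Red.ne (h : A.Red P a b) (hi : A.θ a i ≠ 0) (h1 : ∀ j, P.v (A.aff i a j) ≤ 1) :
    A.θ b i ≠ 0 := fun e => by
  obtain ⟨j, -, h2, h3⟩ := h.exists_chart
  have h4 := Plc.v_mul_lt (h1 j) ((Plc.r_eq_zero_iff (h3 i).1).1 (by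
    rw [(h3 i).2, aff_apply, e, zero_div]))
  rw [aff_apply, aff_apply, div_mul_div_cancel₀ hi, div_self h2, map_one] at h4
  exact h4.false

variable [Fintype κ]

/-- A locus that pairs with forms of larger ranks is transversal to a free subspace. -/
theorem Over.swap (h : A.Over k) (hS : S.Countable) (hT : T.Countable)
    (hk : (k : Set ℂ) ⊆ acl S) (hB : A.IsLie B) (hb : b ∈ B) (hL : L' ≤ B) (hp : A.Pair S b θ)
    (hf : E.Free S (range (A.crd b)) T) (ho : Ov (acl (S ∪ T)) L')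
    (hθ : ∀ U, A.IsLie U → U ≤ B → finrank ℂ (ann L' ⊓ A.du U : Submodule ℂ _) ≤
      finrank ℂ (Submodule.span ℂ (range θ) ⊓ A.du U : Submodule ℂ _)) :
    B ≤ L' ⊔ A.tan S b := by
  obtain ⟨U, h1, h2, h3⟩ := h.lov_finrank h.isGen hS hT hk hf
    (ho.ann.inf ((h.ov_du hB).mono (hk.trans (acl_mono subset_union_left)))) hB
  have h4 : ann (A.tan S b) ⊓ Submodule.span ℂ (range θ) = ⊥ := eq_bot_iff.2 fun u hu => by
    obtain ⟨c, rfl⟩ := (Submodule.mem_span_range_iff_exists_fun ℂ).1 hu.2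
    refine (Submodule.mem_bot ℂ).2 (Finset.sum_eq_zero fun j _ => ?_)
    classical
    obtain ⟨D, h4, h5⟩ := hp (Pi.single j 1)
    have h6 := hu.1 _ ⟨D, h4, rfl⟩
    simp only [sum_dotProduct, smul_dotProduct, ← pv_apply, h5] at h6
    simp [show c j = 0 by simpa [Pi.single_apply] using h6]
  have h5 := finrank_inf_ge (ann (A.tan S b)) (Submodule.span ℂ (range θ)) (A.du U)
  have h6 := hθ U h1 h2
  rw [h4, finrank_bot, finrank_du, ← con] at h5
  rw [inf_assoc, inf_eq_right.2 (A.du_mono h2)] at h3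
  have h7 := congrArg ann (Submodule.finrank_eq_zero.1 (by omega :
    finrank ℂ (A.con S b B ⊓ (ann L' ⊓ A.du B) : Submodule ℂ _) = 0))
  rw [con, ann_inf, ann_inf, ann_inf, ann_ann, ann_ann, ann_du, ann_bot] at h7
  intro v hv
  have h8 : (A.tan S b ⊔ A.perp B ⊔ (L' ⊔ A.perp B)).map (A.pr B) ≤ L' ⊔ A.tan S b := by
    have e : A.perp B ≤ (L' ⊔ A.tan S b).comap (A.pr B) := fun x hx => by
      rw [Submodule.mem_comap, A.pr_eq_zero_iff.2 hx]
      exact zero_mem _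
    refine Submodule.map_le_iff_le_comap.2 (sup_le (sup_le (fun x hx => ?_) e)
      (sup_le (fun x hx => ?_) e)) <;> rw [Submodule.mem_comap]
    · exact (A.pr_of_mem (h.tan_le hk hB hb hx)).symm ▸ Submodule.mem_sup_right hx
    · exact (A.pr_of_mem (hL hx)).symm ▸ Submodule.mem_sup_left hx
  exact h8 ⟨v, h7.ge trivial, A.pr_of_mem hv⟩

variable [DecidableEq κ]

/-- The change of place. -/
theorem Chd.sign [Finite ι] [Countable L] (h : A.Chd P F y a θ q i τ d) (hc : A.Crd F y a i τ d)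
    (hA : A.Over k) (hk : k ≤ F) (hθ : ∀ j l, θ j l ∈ k) (hK : (K : Set ℂ).Countable)
    (hF : F = Subfield.closure (K ∪ {σ})) (h0 : σ ≠ 0) (hσ : ∀ x ∈ K, x ≠ 0 → P.v σ < P.v x)
    (hq : ∀ j, q j ∈ acl (F ∪ range (Sum.elim (A.aff i a ∘ τ) y))) :
    ∃ C : Set ℂ, C.Finite ∧ (∀ x ∈ C, x ∈ K ∧ x ≠ 0) ∧ ∀ Q : Plc ℂ ℂ, P.Agree Q K →
      (∀ x ∈ C, Q.v σ < Q.v x) → ∀ W, Ind (Q.res F : Set ℂ) W → ∃ Q' : Plc ℂ ℂ, Q.Agree Q' F ∧
        Q'.r ∘ Sum.elim (A.aff i a ∘ τ) y = W ∧ A.Chd Q' F y a θ q i τ d := by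
  have h1 : k ≤ acl (F ∪ range (Sum.elim (A.aff i a ∘ τ) y) : Set ℂ) :=
    Subset.trans hk (subset_union_left.trans (subset_acl _))
  obtain ⟨S₀, h2, h3, h4⟩ := Plc.tld_new (hF ▸ countable_closure (hK.union (countable_singleton σ)))
    h.gau (S := range (A.aff i a) ∪ range q ∪ {(of fun j l => A.pv θ a (d l) j).det})
    (((finite_range _).union (finite_range _)).union (finite_singleton _))
    (union_subset (union_subset (range_subset_iff.2 (aff_mem hc.mem i)) (range_subset_iff.2 hq))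
      (singleton_subset_iff.2 (by
        rw [det_apply']
        exact sum_mem fun s _ => mul_mem (intCast_mem _ _) (prod_mem fun l _ =>
          hA.pv_mem (kil_anti (Subset.trans hk subset_union_left) (hc.kil l)) h1
            (fun j l => h1 (hθ j l)) hc.mem (fun j => hc.pres l _ (hc.mem j)) _))))
  obtain ⟨C, h5, h6, h7⟩ := sign_small (O := P.O) h0 hσ h2 (hF ▸ h3)
  refine ⟨C, h5, h6, fun Q h8 h9 W hW => ?_⟩
  obtain ⟨Q', h10, h11, h12, h13⟩ := h4 ℂ le_rfl Q W hW fun x hx => P.mem_iff.symm.trans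
    ((h7 Q.O (fun c hc => P.mem_iff.trans ((h8 c hc).1.trans Q.mem_iff.symm)) h9 x hx).trans
      Q.mem_iff)
  exact ⟨Q', h10, h11, h12, fun j => (h13 _ (Or.inl (Or.inl ⟨j, rfl⟩))).1.1 (h.int j),
    fun j => (h13 _ (Or.inl (Or.inr ⟨j, rfl⟩))).1.1 (h.bd j),
    ((h13 _ (Or.inr rfl)).1.1 h.det.le).antisymm
      (not_lt.1 fun e => h.det.not_lt ((h13 _ (Or.inr rfl)).2.2 e))⟩

/-- The residue point can be moved into the closure of a coset. -/
theorem Chd.fin [Countable L] (h : A.Chd P F y a θ q i τ d) (hc : A.Crd F y a i τ d)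
    (hA : A.Over k) (hk : k ≤ F) (hP : P.IdOn k) (hθ : ∀ j l, θ j l ∈ k)
    (hF : (F : Set ℂ).Countable) (hT : T.Countable) (hg : gens L' ⊆ T)
    (hI : Ind (P.res F ∪ T) (P.r ∘ Sum.elim (A.aff i a ∘ τ) y)) (hB : A.IsLie B) (ha : a ∈ B)
    (hw : w ∈ B) (h1 : L' ≤ L₁) (h2 : L₁ ≤ B) (h3 : ∀ H, A.IsLie H → L₁ ≤ H → B ≤ H)
    (h4 : Fintype.card κ + finrank ℂ L' ≤ finrank ℂ B)
    (h5 : ∀ U, A.IsLie U → U ≤ B → finrank ℂ (ann L' ⊓ A.du U : Submodule ℂ _) ≤
      finrank ℂ (Submodule.span ℂ (range θ) ⊓ A.du U : Submodule ℂ _)) :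
    ∃ s : ℂ ≃+* ℂ, (∀ c ∈ acl (P.res F ∪ T : Set ℂ), s c = c) ∧ ∃ x ∈ B, A.θ x i ≠ 0 ∧
      x - w ∈ closure {x | ∃ l ∈ L₁, ∃ m ∈ A.Λ, m ∈ B ∧ x = l + m} ∧
      A.Red (P.map (s : ℂ →+* ℂ)) a x ∧ (∀ l e, P.v (A.dl a (d l) e) ≤ 1) ∧
      B ≤ L' ⊔ Submodule.span ℂ (range fun l => s ∘ P.r ∘ A.dl a (d l)) := by
  obtain ⟨b, hb, hr⟩ := hA.exists_red hP hB ha
  obtain ⟨h6, h7⟩ := h.gau.split
  have hm := hc.mem
  rw [← acl_sum] at hm
  set F₅ := acl (F ∪ range y : Set ℂ)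
  have hF₅ : F ≤ F₅ := subset_union_left.trans (subset_acl _)
  have hL : F₅ ≤ acl (F₅ ∪ range (A.aff i a ∘ τ) : Set ℂ) := subset_union_left.trans (subset_acl _)
  have h8 : ∀ l, d l ∈ kil (F₅ : Set ℂ) := fun l => (kil_acl _).ge (hc.kil l)
  have h9 := fun l => h7.ctr_acl (Plc.ctr_of_kil (h8 l)) fun j => by
    rw [Function.comp_apply, hc.dual]
    split_ifs <;> simp
  choose d' h10 using fun l => (h9 l).exists_rd
  have hkd := fun l => kil_anti (hk.trans hF₅) (h8 l)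
  have h11 : ∀ l, P.r ∘ A.dl a (d l) = A.dl b (d' l) := fun l => funext
    (hA.res_dl hP hr ((hk.trans hF₅).trans hL) hm (hkd l) (h9 l) (h10 l))
  have h12 := hA.pair_res hP hr (hk.trans hF₅) hL hm (fun j l => hP _ (hθ j l))
    (fun l => ⟨h8 l, h9 l⟩) h.det
  have h13 : range (A.crd b) ⊆ acl (P.res F₅ ∪ range (P.r ∘ A.aff i a ∘ τ) : Set ℂ) :=
    h7.res_acl ▸ range_subset_iff.2 (hr.crd_mem hm)
  have hk' : (k : Set ℂ) ⊆ acl (P.res F₅ : Set ℂ) :=
    (hP.le_res (hk.trans hF₅)).trans (subset_acl _)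
  have hc₅ : (P.res F₅ : Set ℂ).Countable :=
    Plc.countable_res (countable_acl (hF.union (countable_range _)))
  rw [Sum.comp_elim, ind_sum_iff] at hI
  have h14 : E.Free (P.res F₅ : Set ℂ) (range (A.crd b)) T := (Ind.free (hI.2.anti (by
    rw [h6.res_acl]
    exact union_subset (acl_mono (union_subset_union_left _ subset_union_left))
      ((subset_union_right.trans subset_union_left).trans (subset_acl _))))).acl_left.mono h13
    (subset_union_right.trans (subset_acl _))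
  have ho : Ov (acl (P.res F₅ ∪ T : Set ℂ)) L' :=
    ov_gens _ (hg.trans (subset_union_right.trans (subset_acl _)))
  have h15 := hA.swap hc₅ hT hk' hB hb (h1.trans h2) h12 h14 ho h5
  obtain ⟨θ', -, h16, h17⟩ := (ov_top' (R := ann L' ⊓ A.du B)).exists_basis
  have h18 : ∀ j, θ' j ∈ ann L' ⊓ A.du B := fun j => h17 ▸ Submodule.subset_span ⟨j, rfl⟩
  obtain ⟨s, h19, x, hx, h20, h21⟩ := hA.g_field (hc₅.union hT)
    (hk'.trans (acl_mono subset_union_left)) hB h1 h2 h3 hb (θ := θ') (fun v hv e => by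
      have e' := (mem_ann_span (s := range θ')).2 (forall_mem_range.2 fun j =>
        (dotProduct_comm _ _).trans (e j))
      rw [h17, ann_inf, ann_ann, ann_du] at e'
      obtain ⟨l, hl, p, hp, rfl⟩ := Submodule.mem_sup.1 e'
      rwa [← A.pr_of_mem hv, map_add, A.pr_eq_zero_iff.2 hp, add_zero, A.pr_of_mem (h2 (h1 hl))])
    ((Nat.add_le_add_right ((trd_anti (finite_range _) (subset_union_left.trans
      (subset_acl _))).trans ((trd_le (finite_range _) h13).trans (trd_range_le _))) _).trans h4)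
    (Pair.free (fun c => by
      obtain ⟨v, hv⟩ := exists_dot h16 c
      obtain ⟨l, hl, _, ⟨D, hD, rfl⟩, e⟩ := Submodule.mem_sup.1 (h15 (A.pr_mem B v))
      refine ⟨D, hD, funext fun j => ?_⟩
      rw [pv_apply, ← hv, ← A.dot_pr (h18 j).2 v, ← e, dotProduct_add, (h18 j).1 l hl, zero_add])
      h14) hw
  refine ⟨s, fun c hc => h19 c (acl_mono (union_subset_union_left _ (Plc.res_mono hF₅)) hc), x, hx,
    (theta_map (s : ℂ →+* ℂ) h20).2 (hr.ne hc.ne h.int), h21, hr.map _ h20,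
    fun l => hA.ctr_dl hP (hkd l) (h9 l) hm, ?_⟩
  have h22 : A.tan (P.res F₅) b ≤ Submodule.span ℂ (range fun l => P.r ∘ A.dl a (d l)) := by
    rintro _ ⟨D, hD, rfl⟩
    rw [A.dl_congr_der fun j => der_expand (fun l => Plc.kil_res hL (h8 l) (h10 l))
      (y := P.r ∘ A.aff i a ∘ τ) (fun l j => by
        rw [Function.comp_apply, h10 l _ (mem_acl_of_mem (Or.inr ⟨j, rfl⟩)) (h7.1 j),
          Function.comp_apply, hc.dual]
        split_ifs <;> simp) (δ₀ := 0) hD (fun _ => rfl) (h13 ⟨j, rfl⟩), zero_add, map_sum]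
    exact sum_mem fun l _ => by
      rw [map_smul, ← h11]
      exact Submodule.smul_mem _ _ (Submodule.subset_span ⟨l, rfl⟩)
  have h23 := cj_mono s (h15.trans (sup_le_sup_left h22 _))
  rwa [((hA.ov_lie hB).mono (hk'.trans (acl_mono subset_union_left))).cj_eq h19, cj_sup,
    ho.cj_eq h19, cj_span, ← range_comp] at h23

end Pool.Agent.P.MP_f17f76_ag.AbVar
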