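import Pool.Agent.P.MP_f17f76_ag.E.HgcAll
import Pool.Agent.P.MP_f17f76_ag.E.ExpB

/-!
Positivity of all objects from the specialisation lemma.
-/

namespace Pool.Agent.P.MP_f17f76_ag.Hgc

theorem hgc {g N : ℕ} {A : AbVar g N} (hS : A.S_SIM) : S_HGC A := hgc_of2 hS (s_EXP A)

end Pool.Agent.P.MP_f17f76_ag.Hgc
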