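import Pool.Agent.P.MP_f17f76_ag.E.Lang1

/-!
Existence of good frames near a given frame.
-/

namespace Pool.Agent.P.MP_f17f76_ag.E

open Set hiding diagonal
open Module Matrix

variable {K : Type} [Field K] {ι L : Type} [Fintype ι] [DecidableEq ι] [Fintype L] [DecidableEq L]
  {P : Plc K K} {k E K₀ : Subfield K} {r : Setoid ι} {N : Submodule K (ι → K)}
  {J : Matrix ι L K} {M : Matrix ι ι K}

namespace Lang

variable {X : Matrix L ι K} {f : L → ι} {s : K} {I : Set ι}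

theorem det_diag (X : Matrix L ι K) (d : ι → K) (f : L → ι) :
    ((X * diagonal d).submatrix id f).det = (X.submatrix id f).det * ∏ l, d (f l) := by
  rw [← det_diagonal, ← det_mul]
  congr 1
  ext a b
  simp [mul_diagonal]

omit [DecidableEq ι] [Fintype ι] in
theorem count_ge (h : (X.submatrix id f).det ≠ 0) (I : Set ι) :
    finrank K (act X ⊤ ⊓ supp K (· ∈ I) : Submodule K _) ≤ Nat.card {l // f l ∈ I} := by
  rw [← finrank_supp (K := K)]
  refine LinearMap.finrank_le_finrank_of_injective (f := (LinearMap.funLeft K K f).restrict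
    fun u hu l hl => hu.2 _ hl) ((injective_iff_map_eq_zero _).2 ?_)
  rintro ⟨_, ⟨c, h0, rfl⟩, hc⟩ e
  have : c = 0 := vecMul_inj h ((congrArg Subtype.val e).trans (map_zero _).symm)
  simp [this]

omit [DecidableEq ι] in
theorem count_le (h : (X.submatrix id f).det ≠ 0) (I : Set ι) : Nat.card {l // f l ∈ I} +
    finrank K (ann (act X ⊤) ⊓ supp K (· ∈ I) : Submodule K _) ≤ Nat.card {i // i ∈ I} := by
  have hf : Function.Injective f := fun l l' e => not_not.1 fun e' =>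
    h (det_zero_of_column_eq e' fun a => congrArg (X a) e)
  rw [← finrank_supp (K := K), ← finrank_supp (K := K), (Submodule.equivMapOfInjective
    (Function.ExtendByZero.linearMap K f) (Function.extend_injective hf _) _).finrank_eq,
    ← Submodule.finrank_sup_add_finrank_inf_eq]
  refine add_le_of_add_le_left ?_ (Submodule.finrank_eq_zero.2 (eq_bot_iff.2 ?_)).le
  · refine Submodule.finrank_mono (sup_le ?_ inf_le_right)
    rintro _ ⟨y, hy, rfl⟩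
    exact (rst_supp hf (· ∈ I)).ge hy
  · rintro _ ⟨⟨y, -, rfl⟩, hy, -⟩
    have : y = 0 := by
      refine dotProduct_eq_zero _ fun w => ?_
      have := hy _ (vecMul_mem_act X (u := w ᵥ* (X.submatrix id f)⁻¹) trivial)
      rw [← inv_vecMul_cancel h w]
      exact (extend_dot hf y _).symm.trans this
    simp [this]

open Classical in
/-- The scaling of the coordinates in `I`. -/
noncomputable def sc (I : Set ι) (s : K) (i : ι) : K := if i ∈ I then s else 1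

omit [DecidableEq ι] [Fintype ι] [DecidableEq L] in
theorem prod_sc (I : Set ι) (s : K) (f : L → ι) :
    ∏ l, sc I s (f l) = s ^ Nat.card {l // f l ∈ I} := by
  classical
  simp [sc, Finset.prod_ite, Fintype.card_subtype]

omit [DecidableEq ι] [Fintype ι] [DecidableEq L] in
theorem card_le (I : Set ι) (f : L → ι) : Nat.card {l // f l ∈ I} ≤ Fintype.card L := by
  classical
  simpa using Fintype.card_subtype_le _

omit [DecidableEq ι] [Fintype ι] in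
theorem unit_or (hX : ∀ l i, P.v (X l i) ≤ 1) (f : L → ι) : P.v (X.submatrix id f).det < 1 ∨
    P.v (X.submatrix id f).det = 1 ∧ ((X.map P.r).submatrix id f).det ≠ 0 := by
  have := Plc.v_det_le (M := X.submatrix id f) fun a b => hX _ _
  exact this.1.lt_or_eq.imp_right fun e => ⟨e, this.2 ▸ Plc.r_ne_zero_iff.2 e⟩

theorem mx_up (hX : ∀ l i, P.v (X l i) ≤ 1) (h1 : P.v s ≤ 1) (hs : ∀ f : L → ι,
    P.v (X.submatrix id f).det < 1 → P.v (X.submatrix id f).det ≤ P.v s ^ Fintype.card L)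
    {a : ℕ} (ha : a ≤ Fintype.card L) (h : ∀ f : L → ι, ((X.map P.r).submatrix id f).det ≠ 0 →
      a ≤ Nat.card {l // f l ∈ I}) : mx P.v (X * diagonal (sc I s)) ≤ P.v s ^ a :=
  mx_le _ fun f => by
    rw [det_diag, prod_sc, map_mul, map_pow]
    rcases unit_or hX f with e | e
    · exact (mul_le_of_le_one_right' (pow_le_one' h1 _)).trans
        ((hs f e).trans (pow_le_pow_right_of_le_one' h1 ha))
    · rw [e.1, one_mul]
      exact pow_le_pow_right_of_le_one' h1 (h f e.2)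

theorem mx_down (hX : ∀ l i, P.v (X l i) ≤ 1) (h0 : s ≠ 0) (h1 : P.v s ≤ 1) (hs : ∀ f : L → ι,
    P.v (X.submatrix id f).det < 1 → P.v (X.submatrix id f).det ≤ P.v s ^ Fintype.card L)
    {b : ℕ} (h : ∀ f : L → ι, ((X.map P.r).submatrix id f).det ≠ 0 →
      Nat.card {l // f l ∈ I} ≤ b) : mx P.v (X * diagonal (sc I s⁻¹)) ≤ (P.v s)⁻¹ ^ b :=
  mx_le _ fun f => by
    have h2 : 1 ≤ (P.v s)⁻¹ := (one_le_inv₀ (P.v_pos h0)).2 h1
    rw [det_diag, prod_sc, map_mul, map_pow, map_inv₀]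
    rcases unit_or hX f with e | e
    · refine (mul_le_mul' (hs f e) (pow_le_pow_right' h2 (card_le I f))).trans ?_
      rw [← mul_pow, mul_inv_cancel₀ (P.v_ne h0), one_pow]
      exact one_le_pow_of_one_le' h2 _
    · rw [e.1, one_mul]
      exact pow_le_pow_right' h2 (h f e.2)

theorem drop {Γ : Type} [LinearOrderedCommGroupWithZero Γ] {A A' B B' d d' σ : Γ} {α β : ℕ}
    (hA : A' ≤ σ ^ α * A) (hB : B' ≤ σ⁻¹ ^ β * B) (hd : d' ≤ σ⁻¹ * d) (h : β < α) (h0 : σ ≠ 0)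
    (h1 : σ < 1) (h2 : A * B ≠ 0) (h3 : d ≠ 0) : (A' * B') ^ 2 * d' < (A * B) ^ 2 * d := by
  obtain ⟨e, rfl⟩ := Nat.exists_eq_add_of_lt h
  refine (mul_le_mul' (pow_le_pow_left' (mul_le_mul' hA hB) 2) hd).trans_lt ?_
  have : (σ ^ (β + e + 1) * A * (σ⁻¹ ^ β * B)) ^ 2 * (σ⁻¹ * d) =
      σ ^ (2 * e + 1) * ((A * B) ^ 2 * d) := by
    simp only [pow_add, pow_mul', inv_pow]
    field_simp
  rw [this]
  exact mul_lt_of_lt_one_left (zero_lt_iff.2 (mul_ne_zero (pow_ne_zero _ h2) h3))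
    (pow_lt_one₀ zero_le h1 (by omega))

theorem exists_root [IsAlgClosed K₀] {τ : K} (hτ : τ ∈ K₀) (h0 : τ ≠ 0) (h1 : P.v τ < 1)
    {T : Set K} (hT : T.Finite) (hT' : ∀ x ∈ T, ∃ y ∈ K₀, P.v x = P.v y) (n : ℕ) :
    ∃ s ∈ K₀, s ≠ 0 ∧ P.v s < 1 ∧ ∀ x ∈ T, P.v x < 1 → P.v x ≤ P.v s ^ n := by
  obtain ⟨x, hx, h2⟩ := exists_max_image {x ∈ insert τ T | P.v x < 1} P.v
    ((hT.insert τ).subset fun _ h => h.1) ⟨τ, mem_insert _ _, h1⟩
  obtain ⟨y, hy, e⟩ : ∃ y ∈ K₀, P.v x = P.v y :=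
    hx.1.elim (fun e => ⟨τ, hτ, congrArg _ e⟩) (hT' x)
  obtain ⟨s, hs⟩ := IsAlgClosed.exists_pow_nat_eq (⟨y, hy⟩ : K₀) n.succ_pos
  have h3 : P.v s ^ (n + 1) = P.v x := by
    rw [e, ← map_pow]
    exact congrArg (fun z : K₀ => P.v z) hs
  have h4 : P.v s < 1 := not_le.1 fun h => hx.2.not_ge (h3 ▸ one_le_pow_of_one_le' h _)
  refine ⟨s, s.2, fun e => ?_, h4, fun z hz hz' => (h2 z ⟨mem_insert_of_mem _ hz, hz'⟩).trans
    (h3 ▸ pow_le_pow_right_of_le_one' h4.le n.le_succ)⟩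
  have := h2 τ ⟨mem_insert _ _, h1⟩
  rw [← h3, e] at this
  simp [h0] at this

theorem ann_act {H : Matrix ι ι K} (h : H.det ≠ 0) (W : Submodule K (ι → K)) :
    ann (act H⁻¹ᵀ W) = act H (ann W) := by
  ext u
  rw [mem_act_iff h]
  refine ⟨fun e x hx => ?_, ?_⟩
  · simpa [dotProduct_mulVec, vecMul_transpose] using e _ (vecMul_mem_act _ hx)
  · rintro e _ ⟨x, hx, rfl⟩
    simpa [dotProduct_mulVec, vecMul_transpose] using e x hx

omit [DecidableEq ι] [Fintype L] [DecidableEq L] in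
theorem v_mul {κ : Type} {A : Matrix L ι K} {B : Matrix ι κ K} {a b : P.O.ValueGroup}
    (hA : ∀ i j, P.v (A i j) ≤ a) (hB : ∀ i j, P.v (B i j) ≤ b) (i : L) (j : κ) :
    P.v ((A * B) i j) ≤ a * b :=
  P.v.map_sum_le fun l _ => (map_mul _ _ _).trans_le (mul_le_mul' (hA i l) (hB l j))

variable (P) in
/-- The distance of two frames. -/
noncomputable def dd (M₀ M : Matrix ι ι K) : P.O.ValueGroup :=
  max 1 (Finset.univ.sup fun t : ι × ι =>
    max (P.v ((M⁻¹ * M₀) t.1 t.2)) (P.v ((M₀⁻¹ * M) t.1 t.2)))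

theorem dd_le {M₀ : Matrix ι ι K} {b : P.O.ValueGroup} : dd P M₀ M ≤ b ↔
    1 ≤ b ∧ ∀ i j, P.v ((M⁻¹ * M₀) i j) ≤ b ∧ P.v ((M₀⁻¹ * M) i j) ≤ b := by
  simp [dd]

variable (P) in
/-- The function that is minimised. -/
noncomputable def psi (X : Matrix L ι K) (J : Matrix ι L K) (M₀ M : Matrix ι ι K) :
    P.O.ValueGroup := (mx P.v (X * M) * mx P.v (M⁻¹ * J)ᵀ) ^ 2 * dd P M₀ M

theorem det_le (X : Matrix L ι K) (J : Matrix ι L K) (hM : M.det ≠ 0) :
    P.v (X * J).det ≤ mx P.v (X * M) * mx P.v (M⁻¹ * J)ᵀ := by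
  have := v_det_mul_le P.v (X * M) (M⁻¹ * J)
  rwa [Matrix.mul_assoc, mul_nonsing_inv_cancel_left _ _ hM.isUnit] at this

theorem inv_frame (g : Matrix ι ι K) {p : ι → K} (hp : ∀ i, p i ≠ 0) :
    (g * diagonal p)⁻¹ = diagonal (fun i => (p i)⁻¹) * g⁻¹ := by
  rw [Matrix.mul_inv_rev]
  congr 1
  exact inv_eq_left_inv (by simp [hp])

theorem frame_mul (g : Matrix ι ι K) {p : ι → K} (hp : ∀ i, p i ≠ 0) (g' : Matrix ι ι K)
    (p' : ι → K) (i j : ι) : ((g * diagonal p)⁻¹ * (g' * diagonal p')) i j =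
      (p i)⁻¹ * (g⁻¹ * g') i j * p' j := by
  rw [inv_frame _ hp, ← Matrix.mul_assoc, mul_diagonal, Matrix.mul_assoc, diagonal_mul]

theorem det_mem {F : Subfield K} {A : Matrix L L K} (h : ∀ a b, A a b ∈ F) : A.det ∈ F := by
  rw [det_apply']
  exact sum_mem fun σ _ => mul_mem (intCast_mem _ _) (prod_mem fun a _ => h _ _)

theorem ms_psi (hE : P.IdOn E) (hkE : k ≤ E) (hk : k ≤ K₀) (hX : ∀ l i, X l i ∈ E)
    (hJ : ∀ i l, J i l ∈ K₀) {g₀ : Matrix ι ι K} {p₀ : ι → K} (hg₀ : GrM k r g₀)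
    (hp₀ : ∀ i, p₀ i ∈ K₀ ∧ p₀ i ≠ 0) : MS P.v K₀ fun (g : {g // GrM k r g}) p =>
      psi P X J (g₀ * diagonal p₀) (g.1 * diagonal p) := by
  have hc : ∀ x : {g // GrM k r g} → K, (∀ g, x g ∈ E) →
      MS P.v K₀ fun g (_ : ι → K) => P.v (x g) := fun x hx => by
    have : ∀ g, P.v (x g) = P.v 0 ∨ P.v (x g) = P.v 1 := fun g =>
      (eq_or_ne (x g) 0).imp (congrArg _) fun e => (hE.triv.v_eq (hx g) e).trans (map_one _).symm
    exact MS.coef (fun g => (this g).elim (fun e => ⟨0, zero_mem _, e⟩) fun e => ⟨1, one_mem _, e⟩)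
      ((toFinite {P.v 0, P.v 1}).subset (range_subset_iff.2 this))
  have h0 : ∀ x ∈ K₀, MS P.v K₀ fun (_ : {g // GrM k r g}) (_ : ι → K) => P.v x := fun x hx =>
    MS.coef (fun _ => ⟨x, hx, rfl⟩) finite_range_const
  have h1 : MS P.v K₀ fun (g : {g // GrM k r g}) p => mx P.v (X * (g.1 * diagonal p)) :=
    MS.sup (fun f : L → ι => (hc (fun g => ((X * g.1).submatrix id f).det) fun g => det_mem
      fun a b => vecMul_mem (hX a) (fun i j => hkE (g.2.mem i j)) _).mul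
        (MS.prod (fun l => MS.var (f l) 1) Finset.univ)) fun g p _ b => by
      simp only [← Matrix.mul_assoc, zpow_one, ← map_prod, ← map_mul, ← det_diag]
      exact ⟨fun h f => (le_mx _ _ f).trans h, mx_le _⟩
  have h2 : MS P.v K₀ fun (g : {g // GrM k r g}) p => mx P.v ((g.1 * diagonal p)⁻¹ * J)ᵀ :=
    MS.sup (fun f : L → ι => (MS.coef (γ := fun g : {g // GrM k r g} =>
      P.v ((Jᵀ * g.1⁻¹ᵀ).submatrix id f).det) (fun g => ⟨_, det_mem fun a b => vecMul_mem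
        (fun i => hJ i a) (fun i j => hk (g.2.inv.mem j i)) _, rfl⟩)
        ((finite_val_minor (κ := ι) P.v k (hE.triv.mono hkE) Jᵀ).subset (range_subset_iff.2
          fun g => ⟨_, f, fun i j => g.2.inv.mem j i, rfl⟩))).mul
        (MS.prod (fun l => MS.var (f l) (-1)) Finset.univ)) fun g p hp b => by
      simp only [inv_frame _ hp, transpose_mul, diagonal_transpose, ← Matrix.mul_assoc,
        _root_.zpow_neg_one, ← map_inv₀, ← map_prod, ← map_mul,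
        ← det_diag _ fun i => (p i)⁻¹]
      exact ⟨fun h f => (le_mx _ _ f).trans h, mx_le _⟩
  have h4 := fun t : ι × ι => (((MS.var t.1 (-1)).mul
    (hc (fun g => (g.1⁻¹ * g₀) t.1 t.2) fun g => hkE ((g.2.inv.mul hg₀).mem _ _))).mul
      (h0 _ (hp₀ t.2).1)).max (((h0 _ (inv_mem (hp₀ t.1).1)).mul
    (hc (fun g => (g₀⁻¹ * g.1) t.1 t.2) fun g => hkE ((hg₀.inv.mul g.2).mem _ _))).mul
      (MS.var t.2 1))
  have h3 : MS P.v K₀ fun (g : {g // GrM k r g}) p => dd P (g₀ * diagonal p₀) (g.1 * diagonal p) :=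
    MS.sup (fun _ : Unit => MS.one.max (MS.sup h4 fun g p _ b =>
      Finset.sup_le_iff.trans (forall_congr' fun t => imp_iff_right (Finset.mem_univ t))))
      fun g p hp b => by
      simp only [dd, frame_mul _ hp, frame_mul _ fun i => (hp₀ i).2, map_mul, map_inv₀,
        _root_.zpow_neg_one, zpow_one, forall_const]
  simpa only [psi, pow_two] using ((h1.mul h2).mul (h1.mul h2)).mul h3

end Lang

open Lang

/-- The frame `M` is good for the rows `N` and the columns `J`. -/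
def Good (P : Plc K K) (N : Submodule K (ι → K)) (J : Matrix ι L K) (M : Matrix ι ι K) : Prop :=
  ∃ (n : Matrix L ι K) (c : Matrix L L K), (∀ l, n l ∈ N) ∧ (∀ l i, P.v ((n * M) l i) ≤ 1) ∧
    (∀ i l, P.v ((M⁻¹ * J * c) i l) ≤ 1) ∧ P.v (n * J * c).det = 1

theorem Good.int (h : Good P N J M) (c : L → K)
    (hc : ∀ u ∈ N, (∀ i, P.v ((u ᵥ* M) i) ≤ 1) → P.v (u ⬝ᵥ J *ᵥ c) ≤ 1) (i : ι) :
    P.v ((M⁻¹ *ᵥ J *ᵥ c) i) ≤ 1 := by
  by_cases hM : IsUnit M.det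
  swap
  · simp [nonsing_inv_apply_not_isUnit M hM]
  obtain ⟨n, C, h1, h2, h3, h4⟩ := h
  have h5 : (n * J * C).det ≠ 0 := fun e => by simp [e] at h4
  have h6 : C.det ≠ 0 := right_ne_zero_of_mul (det_mul _ C ▸ h5)
  have h7 : ∀ l l', P.v ((n * J * C) l l') ≤ 1 := by
    have := (Plc.v_mat_mul h2 h3).1
    rwa [Matrix.mul_assoc M⁻¹, Matrix.mul_assoc, mul_nonsing_inv_cancel_left _ _ hM,
      ← Matrix.mul_assoc] at this
  obtain ⟨c, rfl⟩ : ∃ c', C *ᵥ c' = c :=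
    ⟨C⁻¹ *ᵥ c, by rw [mulVec_mulVec, mul_nonsing_inv _ h6.isUnit, one_mulVec]⟩
  have h8 := Plc.int_of_li (w := fun l' l => (n * J * C) l l') (c := c) (fun _ _ => h7 _ _)
    (linearIndependent_cols_of_det_ne_zero (A := (n * J * C).map P.r)
      ((Plc.v_det_le h7).2 ▸ Plc.r_ne_zero_iff.2 h4)) fun l => by
    refine Eq.trans_le (congrArg P.v ?_) (hc _ (h1 l) (h2 l))
    change c ⬝ᵥ (n * J * C) l = (n *ᵥ J *ᵥ C *ᵥ c) l
    rw [dotProduct_comm, mulVec_mulVec, mulVec_mulVec]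
    rfl
  rw [mulVec_mulVec, mulVec_mulVec]
  exact P.v.map_sum_le fun l _ => Plc.v_mul_le (h3 i l) (h8 l)

theorem Good.col (h : Good P N J M) (hL : Fintype.card L = finrank K N) (j : ι) :
    ∃ c : L → K, (∀ i, P.v ((M⁻¹ *ᵥ J *ᵥ c) i) ≤ 1) ∧ J *ᵥ c - M.col j ∈ ann N := by
  obtain ⟨n, C, h1, -, -, h4⟩ := id h
  have h5 : (n * J).det ≠ 0 := fun e => by simp [e] at h4
  have h6 : Submodule.span K (range n) = N := by
    have : LinearIndependent K n := Fintype.linearIndependent_iff.2 fun a ha =>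
      congrFun (vecMul_inj h5 (a₂ := 0) (by
        rw [map_zero, vecMulLinear_apply, ← vecMul_vecMul, (vecMul_eq_sum a n).trans ha,
          zero_vecMul]))
    exact Submodule.eq_of_le_of_finrank_eq (Submodule.span_le.2 (range_subset_iff.2 h1))
      ((finrank_span_eq_card this).trans hL)
  have h7 : J *ᵥ (n * J)⁻¹ *ᵥ n *ᵥ M.col j - M.col j ∈ ann N := by
    rw [← h6, mem_ann_span]
    rintro _ ⟨l, rfl⟩
    rw [dotProduct_comm]
    change (n *ᵥ _) l = 0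
    rw [mulVec_sub, mulVec_mulVec, mulVec_mulVec, mul_nonsing_inv _ h5.isUnit, one_mulVec, sub_self,
      Pi.zero_apply]
  refine ⟨_, h.int _ fun u hu e => Eq.trans_le (congrArg P.v ?_) (e j), h7⟩
  have := h7 u hu
  rwa [dotProduct_comm, dotProduct_sub, sub_eq_zero] at this

/-- A normalised frame is good or can be improved. -/
theorem Lang.step [IsAlgClosed K₀] (h : Fam k E r N) (hE : P.IdOn E) (hk : k ≤ K₀)
    {τ : K} (hτ : τ ∈ K₀) (hτ0 : τ ≠ 0) (hτ1 : P.v τ < 1)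
    (hf : Free (k : Set K) (P.res K₀) E) (hJ : ∀ i l, J i l ∈ K₀)
    (hL : Fintype.card L = finrank K N) {Z : Matrix L ι K} (hZ : ∀ l i, Z l i ∈ E)
    (hN : act Z ⊤ = N) (hZJ : (Z * J).det ≠ 0) {g : Matrix ι ι K} {p : ι → K} (hg : GrM k r g)
    (hp : ∀ i, p i ∈ K₀ ∧ p i ≠ 0) (hq : ∀ i j, P.v (p i) = P.v (p j) → p i = p j)
    (M₀ : Matrix ι ι K) : Good P N J (g * diagonal p) ∨ ∃ g' p', GrM k r g' ∧
      (∀ i, p' i ∈ K₀ ∧ p' i ≠ 0) ∧
        psi P Z J M₀ (g' * diagonal p') < psi P Z J M₀ (g * diagonal p) := by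
  have hgp : GrM K₀ r (g * diagonal p) := (hg.mono hk le_rfl).mul (GrM.diagonal hp r)
  have hr := fun x => Plc.r_mem_ini (x := x) hE h.ov (hg.mono h.le le_top) (fun i => (hp i).2) hq
  have hv : ∀ g' : Matrix ι ι K, (∀ i j, g' i j ∈ k) → ∀ f : L → ι, ∃ y ∈ K₀,
      P.v ((Z * (g' * diagonal p)).submatrix id f).det = P.v y := fun g' hg' f => by
    rw [← Matrix.mul_assoc, det_diag, map_mul]
    rcases eq_or_ne ((Z * g').submatrix id f).det 0 with e | e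
    · exact ⟨0, zero_mem _, by simp [e]⟩
    · exact ⟨_, prod_mem fun l _ => (hp _).1, by rw [hE.triv.v_eq (det_mem (A := (Z * g').submatrix id f)
        fun a b => vecMul_mem (hZ a) (fun i j => h.le (hg' i j)) _) e, one_mul]⟩
  have hrig := h.rig k (P.res K₀) le_rfl (Plc.IdOn.le_res (hE.mono h.le) hk) hf g hg _ fun i => P.v (p i)
  have hfr : finrank K (ini (fun i => P.v (p i)) (act g N)) = Fintype.card L := by
    rw [finrank_ini, finrank_act hg.det, hL]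
  have hM' : ∀ H, GrM k (r ⊓ Setoid.ker fun i => P.v (p i)) H →
      g * H * diagonal p = g * diagonal p * H := fun H hH => by
    rw [Matrix.mul_assoc, Matrix.mul_assoc]
    refine congrArg _ (Matrix.ext fun i j => ?_)
    rw [mul_diagonal, diagonal_mul, mul_comm]
    by_cases e : H i j = 0
    · simp [e]
    · rw [hq i j (hH.gr i j e).2]
  generalize hM : g * diagonal p = M at hgp hr hM'
  generalize ini (fun i => P.v (p i)) (act g N) = B at hr hrig hfr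
  have h0 : mx P.v (Z * M) * mx P.v (M⁻¹ * J)ᵀ ≠ 0 :=
    ((P.v_pos hZJ).trans_le (det_le Z J hgp.det)).ne'
  obtain ⟨f₀, h1, hX⟩ := exists_latt P.v (left_ne_zero_of_mul h0)
  obtain ⟨f₁, h2, hY⟩ := exists_latt P.v (right_ne_zero_of_mul h0)
  have h3 : ((Z * M).submatrix id f₀).det ≠ 0 := fun e =>
    left_ne_zero_of_mul h0 (by rw [← h1, e, map_zero])
  have h4 : ((M⁻¹ * J)ᵀ.submatrix id f₁).det ≠ 0 := fun e =>
    right_ne_zero_of_mul h0 (by rw [← h2, e, map_zero])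
  have hK : ∀ l i, (M⁻¹ * J)ᵀ l i ∈ K₀ := fun l i =>
    vecMul_mem (hgp.inv.mem i) hJ l
  have hc : ∀ l l', ((M⁻¹ * J)ᵀ.submatrix id f₁)⁻¹ l l' ∈ K₀ := inv_mem_sub fun _ _ => hK _ _
  have ha : mx P.v (Z * M) * P.v ((Z * M).submatrix id f₀)⁻¹.det = 1 := by
    rw [← h1, ← map_mul, ← det_mul, mul_nonsing_inv _ h3.isUnit, det_one, map_one]
  have hb : mx P.v (M⁻¹ * J)ᵀ * P.v ((M⁻¹ * J)ᵀ.submatrix id f₁)⁻¹.det = 1 := by
    rw [← h2, ← map_mul, ← det_mul, mul_nonsing_inv _ h4.isUnit, det_one, map_one]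
  have h5 : ((((Z * M).submatrix id f₀)⁻¹ * (Z * M)).map P.r).submatrix id f₀ = 1 := by
    rw [submatrix_map, Minor.cols_mul, nonsing_inv_mul _ h3.isUnit,
      Matrix.map_one _ P.r_zero P.r_one]
  obtain ⟨y₀, hy₀, hy₀'⟩ := hv g hg.mem f₀
  rw [hM, h1] at hy₀'
  generalize ((Z * M).submatrix id f₀)⁻¹ = a at hX ha h5
  generalize ((M⁻¹ * J)ᵀ.submatrix id f₁)⁻¹ = c at hY hb hc
  have h6 : ∀ l, (a * Z) l ∈ N := fun l => hN ▸ vecMul_mem_act Z (u := a l) trivial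
  have h7 : Function.Injective ((a * (Z * M)).map P.r).vecMulLinear :=
    (injective_iff_map_eq_zero _).2 fun w hw => by
      rw [← vecMul_one w, ← h5]
      exact funext fun l => congrFun hw _
  have h8 : act ((a * (Z * M)).map P.r) ⊤ = B := by
    refine Submodule.eq_of_le_of_finrank_eq (act_le_iff.2 fun w _ => ?_) ?_
    · rw [vecMul_eq_sum]
      rw [← Matrix.mul_assoc] at hX ⊢
      exact sum_mem fun l _ => B.smul_mem _ (hr _ (h6 l) (hX l))
    · rw [hfr, act, ← (Submodule.equivMapOfInjective _ h7 _).finrank_eq, finrank_top,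
        finrank_fintype_fun_eq_card]
  by_cases h9 : B ⊓ ann (act ((c * (M⁻¹ * J)ᵀ).map P.r) ⊤) = ⊥
  · have e : M⁻¹ * J * cᵀ = (c * (M⁻¹ * J)ᵀ)ᵀ := by rw [transpose_mul c, transpose_transpose]
    have e' : a * Z * J * cᵀ = a * (Z * M) * (c * (M⁻¹ * J)ᵀ)ᵀ := by
      simp only [← e, Matrix.mul_assoc, mul_nonsing_inv_cancel_left _ _ hgp.det.isUnit]
    refine Or.inl ⟨a * Z, cᵀ, h6, by rwa [Matrix.mul_assoc], fun i l => e ▸ hY l i, ?_⟩
    have := Plc.v_mat_mul hX (H := (c * (M⁻¹ * J)ᵀ)ᵀ) fun i l => hY l i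
    rw [e', ← Plc.r_ne_zero_iff, (Plc.v_det_le this.1).2, this.2]
    intro h10
    obtain ⟨w, hw, h11⟩ := exists_vecMul_eq_zero_iff.2 h10
    refine hw (h7 ((h9.le ⟨h8 ▸ vecMul_mem_act _ trivial, ?_⟩).trans (map_zero _).symm))
    rintro _ ⟨z, -, rfl⟩
    rw [vecMulLinear_apply, vecMulLinear_apply, ← mulVec_transpose _ z, dotProduct_mulVec,
      vecMul_vecMul, ← transpose_map, h11, zero_dotProduct]
  obtain ⟨F, hF1, hF2, hF3⟩ := hrig _ (ov_top.act (g := (c * (M⁻¹ * J)ᵀ).map P.r) fun l i =>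
    Plc.r_mem_res (vecMul_mem (hc l) hK i)).ann
  obtain ⟨H, I, hH, hI⟩ := exists_supp hF1 hF2
  have h11 : 0 < finrank K (act H B ⊓ act H (ann (act ((c * (M⁻¹ * J)ᵀ).map P.r) ⊤)) :
      Submodule K _) := by
    rw [← act_inf hH.det, finrank_act hH.det]
    exact Nat.pos_of_ne_zero fun e => h9 (Submodule.finrank_eq_zero.1 e)
  have h10 := (Nat.lt_add_of_pos_left h11).trans_eq (hF3.act hH.det).finrank
  have hr : ∀ H : Matrix ι ι K, (∀ i j, H i j ∈ k) → (∀ i j, P.v (H i j) ≤ 1) ∧ H.map P.r = H :=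
    fun H hH => ⟨fun i j => (hE _ (h.le (hH i j))).1,
      Matrix.ext fun i j => (hE _ (h.le (hH i j))).2⟩
  have hX' := Plc.v_mat_mul hX (hr H hH.mem).1
  have hY' := Plc.v_mat_mul hY (hr H⁻¹ᵀ fun i j => hH.inv.mem j i).1
  rw [hI, finrank_supp, ← h8, ← ann_act hH.det, act_act, act_act, ← (hr H hH.mem).2, ← hX'.2,
    (hr H hH.mem).2, ← (hr H⁻¹ᵀ fun i j => hH.inv.mem j i).2, ← hY'.2] at h10
  obtain ⟨s, hs, hs0, hs1, hs2⟩ := exists_root hτ hτ0 hτ1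
    ((finite_range fun f : L → ι => ((a * (Z * M) * H).submatrix id f).det).union
      (finite_range fun f : L → ι => ((c * (M⁻¹ * J)ᵀ * H⁻¹ᵀ).submatrix id f).det)) (by
    rintro _ (⟨f, rfl⟩ | ⟨f, rfl⟩)
    · obtain ⟨y, hy, e⟩ := hv (g * H) (hg.mul (hH.mono le_rfl inf_le_left)).mem f
      refine ⟨y₀⁻¹ * y, mul_mem (inv_mem hy₀) hy, ?_⟩
      beta_reduce
      rw [Matrix.mul_assoc, Minor.cols_mul, det_mul, map_mul, Matrix.mul_assoc, ← hM' H hH, e,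
        map_mul, map_inv₀, ← hy₀', eq_inv_of_mul_eq_one_right ha]
    · exact ⟨_, det_mem fun l l' => vecMul_mem (vecMul_mem (hc l) hK)
        (fun i j => hk (hH.inv.mem j i)) _, rfl⟩) (Fintype.card L)
  have hs3 : ∀ i, sc I s i ∈ K₀ ∧ sc I s i ≠ 0 ∧ (sc I s i)⁻¹ = sc I s⁻¹ i ∧
      P.v (sc I s i) ≤ 1 ∧ P.v (sc I s⁻¹ i) ≤ (P.v s)⁻¹ := fun i => by
    by_cases hi : i ∈ I <;> simp [sc, hi, hs, hs0, hs1.le, one_le_inv₀ (P.v_pos hs0)]
  have hs4 : ∀ (d : ι → K) b, (∀ i, P.v (d i) ≤ b) → ∀ i j, P.v (diagonal d i j) ≤ b :=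
    fun d b hd i j => by
      rw [diagonal_apply]
      split_ifs
      exacts [hd i, by simp]
  refine Or.inr ⟨g * H, fun i => p i * sc I s i, hg.mul (hH.mono le_rfl inf_le_left),
    fun i => ⟨mul_mem (hp i).1 (hs3 i).1, mul_ne_zero (hp i).2 (hs3 i).2.1⟩, ?_⟩
  have e : (M * H * diagonal (sc I s))⁻¹ = diagonal (sc I s⁻¹) * (H⁻¹ * M⁻¹) := by
    simp only [inv_frame _ fun i => (hs3 i).2.1, (hs3 _).2.2.1, Matrix.mul_inv_rev M]
  rw [← diagonal_mul_diagonal, ← Matrix.mul_assoc, hM' H hH]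
  have h12 := mx_up (I := I) hX'.1 hs1.le (fun f => hs2 _ (Or.inl ⟨f, rfl⟩))
    ((Submodule.finrank_mono inf_le_left).trans_eq (by
      rw [hX'.2, (hr H hH.mem).2, ← act_act, h8, finrank_act hH.det, hfr])) fun f hf => count_ge hf I
  have h13 := mx_down (I := I) hY'.1 hs0 hs1.le (fun f => hs2 _ (Or.inr ⟨f, rfl⟩))
    fun f hf => Nat.le_sub_of_add_le (count_le hf I)
  have hd : ∀ M, 1 ≤ dd P M₀ M := fun M => le_max_left _ _
  have h14 := (Submodule.finrank_mono (inf_le_right (a := ann (act ((c * (M⁻¹ * J)ᵀ * H⁻¹ᵀ).map P.r)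
    ⊤)))).trans_eq (finrank_supp (· ∈ I))
  refine drop ((one_mul _).symm.trans_le ?_) ((one_mul _).symm.trans_le ?_) (dd_le.2 ⟨?_, fun i j =>
    ⟨?_, ?_⟩⟩) (Nat.sub_lt_right_of_lt_add h14 h10) (P.v_ne hs0) hs1 h0
      (zero_lt_one.trans_le (hd M)).ne'
  · rw [← ha, mul_assoc, ← mx_left, mul_comm]
    refine mul_le_mul_left (Eq.trans_le ?_ h12) _
    simp only [Matrix.mul_assoc]
  · rw [← hb, mul_assoc, ← mx_left, mul_comm]
    refine mul_le_mul_left (Eq.trans_le ?_ h13) _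
    rw [e]
    simp only [transpose_mul, diagonal_transpose, Matrix.mul_assoc]
  · exact one_le_mul ((one_le_inv₀ (P.v_pos hs0)).2 hs1.le) (hd M)
  · rw [e, Matrix.mul_assoc, Matrix.mul_assoc, ← one_mul (dd P M₀ M)]
    exact v_mul (hs4 _ _ fun i => (hs3 i).2.2.2.2) (v_mul (hr _ hH.inv.mem).1
      fun i j => ((dd_le.1 le_rfl).2 i j).1) i j
  · rw [← Matrix.mul_assoc, ← Matrix.mul_assoc]
    refine (v_mul (v_mul (fun i j => ((dd_le.1 le_rfl).2 i j).2) (hr _ hH.mem).1)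
      (hs4 _ _ fun i => (hs3 i).2.2.2.1) i j).trans ?_
    rw [mul_one, mul_one]
    exact le_mul_of_one_le_left' ((one_le_inv₀ (P.v_pos hs0)).2 hs1.le)

/-- There is a good frame near a given frame. -/
theorem lang [IsAlgClosed K] [IsAlgClosed K₀] (h : Fam k E r N) (hE : P.IdOn E) (hk : k ≤ K₀)
    {τ : K} (hτ : τ ∈ K₀) (hτ0 : τ ≠ 0) (hτ1 : P.v τ < 1)
    (hf : Free (k : Set K) (P.res K₀) E) (hJ : ∀ i l, J i l ∈ K₀)
    (hL : Fintype.card L = finrank K N) (hNJ : ∀ u ∈ N, u ᵥ* J = 0 → u = 0)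
    {g₀ : Matrix ι ι K} {p₀ : ι → K} (hg₀ : GrM k r g₀) (hp₀ : ∀ i, p₀ i ∈ K₀ ∧ p₀ i ≠ 0) :
    ∃ (g : Matrix ι ι K) (p : ι → K), GrM k r g ∧ (∀ i, p i ∈ K₀ ∧ p i ≠ 0) ∧
      (∀ i j, P.v (p i) = P.v (p j) → p i = p j) ∧ Good P N J (g * diagonal p) ∧
      ∀ (n₀ : Matrix L ι K) (c₀ : Matrix L L K), (∀ l, n₀ l ∈ N) →
        (∀ l i, P.v ((n₀ * (g₀ * diagonal p₀)) l i) ≤ 1) →
        (∀ i l, P.v (((g₀ * diagonal p₀)⁻¹ * J * c₀) i l) ≤ 1) → ∀ i j,
          P.v ((n₀ * J * c₀).det ^ 2 * ((g * diagonal p)⁻¹ * (g₀ * diagonal p₀)) i j) ≤ 1 ∧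
          P.v ((n₀ * J * c₀).det ^ 2 * ((g₀ * diagonal p₀)⁻¹ * (g * diagonal p)) i j) ≤ 1 := by
  obtain ⟨n, pv, h1, h2, -⟩ := exists_adapt hL h.ov h.gr (GrM.one E r) fun _ => ()
  let Z : Matrix L ι K := Matrix.of n
  have hN : act Z ⊤ = N := by
    rw [← h1.span, act, Submodule.map_top, range_vecMulLinear]
    rfl
  have hZ : (Z * J).det ≠ 0 := fun e => by
    obtain ⟨w, hw, h3⟩ := exists_vecMul_eq_zero_iff.2 e
    have := hNJ _ (hN ▸ vecMul_mem_act Z trivial) ((vecMul_vecMul w Z J).trans h3)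
    exact hw (funext (Fintype.linearIndependent_iff.1 h1.li w ((vecMul_eq_sum w Z).symm.trans this)))
  have hl : ∀ M₀ M : Matrix ι ι K, M.det ≠ 0 →
      P.v (Z * J).det ^ 2 * dd P M₀ M ≤ psi P Z J M₀ M := fun M₀ M hM =>
    mul_le_mul_left (pow_le_pow_left' (det_le Z J hM) 2) _
  have : Nonempty {g // GrM k r g} := ⟨⟨g₀, hg₀⟩⟩
  obtain ⟨⟨g, hg⟩, p, hp, hq, hm⟩ := (ms_psi (X := Z) hE h.le hk h2 hJ hg₀ hp₀).min
    (pow_ne_zero 2 hZ) fun g p hp => ((map_pow _ _ _).trans_le (le_mul_of_one_le_right'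
      (le_max_left _ _))).trans (hl _ _ ((g.2.mono le_top le_rfl).mul
        (GrM.diagonal (fun i => ⟨Subfield.mem_top _, hp i⟩) r)).det)
  refine ⟨g, p, hg, hp, hq, (step h hE hk hτ hτ0 hτ1 hf hJ hL h2 hN hZ hg hp hq _).resolve_right
    fun ⟨g', p', h3, h4, h5⟩ => h5.not_ge (hm ⟨g', h3⟩ p' h4), fun n₀ c₀ h3 h4 h5 => ?_⟩
  have h6 := (hl _ _ ((hg.mono hk le_rfl).mul (GrM.diagonal hp r)).det).trans (hm ⟨g₀, hg₀⟩ p₀ hp₀)
  have h7 := ((hg₀.mono hk le_rfl).mul (GrM.diagonal hp₀ r)).det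
  generalize g₀ * diagonal p₀ = M₀ at h4 h5 h6 h7 ⊢
  generalize g * diagonal p = M at h6 ⊢
  choose a h8 using fun l => mem_act.1 (hN.ge (h3 l))
  obtain rfl : Matrix.of a * Z = n₀ := funext fun l => (h8 l).2
  have h9 := mx_le_one P.v h4
  have h10 := mx_le_one P.v (A := (M₀⁻¹ * J * c₀)ᵀ) fun l i => h5 i l
  rw [Matrix.mul_assoc, mx_left] at h9
  rw [transpose_mul, mx_left, det_transpose] at h10
  have h11 : dd P M₀ M₀ ≤ 1 := dd_le.2 ⟨le_rfl, fun i j => by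
    rw [nonsing_inv_mul _ h7.isUnit, one_apply]
    split_ifs <;> simp⟩
  have h12 : P.v ((Matrix.of a * Z * J * c₀).det ^ 2) * dd P M₀ M ≤ 1 := by
    rw [Matrix.mul_assoc _ Z, det_mul, det_mul, mul_right_comm, mul_pow, map_mul, mul_assoc,
      map_pow _ (Z * J).det]
    refine (mul_le_mul_right (h6.trans (mul_le_of_le_one_right' h11)) _).trans ?_
    rw [map_pow, ← mul_pow, map_mul, mul_mul_mul_comm]
    exact pow_le_one' (mul_le_one' h9 h10) 2
  exact fun i j => ⟨(map_mul _ _ _).trans_le ((mul_le_mul_right ((dd_le.1 le_rfl).2 i j).1 _).trans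
    h12), (map_mul _ _ _).trans_le ((mul_le_mul_right ((dd_le.1 le_rfl).2 i j).2 _).trans h12)⟩

end Pool.Agent.P.MP_f17f76_ag.E
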