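import Pool.Agent.P.MP_f17f76_ag.E.HgcRes
import Pool.Agent.P.MP_f17f76_ag.E.Lang

/-!
Existence of a first state.
-/

namespace Pool.Agent.P.MP_f17f76_ag.Hgc

open Set Module Matrix E AbVar

variable {g N : ℕ} {ι κ L : Type} {A : AbVar g N} {P Q : Plc ℂ ℂ} {τ y : ℂ} {K F k : Subfield ℂ}

/-- All sizes in `K` are rational powers of the size of `τ`. -/
def Rk (P : Plc ℂ ℂ) (K : Subfield ℂ) (τ : ℂ) : Prop :=
  ∀ y ∈ K, y ≠ 0 → ∃ (q : ℕ) (s : ℤ), 0 < q ∧ P.v y ^ q = P.v τ ^ s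

theorem rk_acl (h : P.Triv k) (h0 : τ ≠ 0) (h1 : P.v τ < 1) : Rk P (acl (k ∪ {τ})) τ := by
  intro y hy hy0
  obtain ⟨q, hq, c, hc, e⟩ := Plc.exists_pow_v (P := P) ((acl_closure _).ge hy)
  obtain ⟨c', hc', s, e'⟩ := (Plc.tr_of_triv h h0 h1.ne).exists_v hc
  exact ⟨q, s, hq, by rw [e, e', h.v_eq hc' fun e'' => pow_ne_zero q (P.v_ne hy0) (by
    rw [e, e', e'', map_zero, zero_mul]), one_mul]⟩

theorem Rk.full (h : Rk P F τ) (h' : P.Full F K) : Rk P K τ := by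
  intro y hy hy0
  obtain ⟨q, hq, c, hc, e⟩ := h'.exists_pow_v (subset_acl _ hy)
  obtain ⟨q', s, hq', e'⟩ := h c hc fun e' => pow_ne_zero q (P.v_ne hy0) (by rw [e, e', map_zero])
  exact ⟨q * q', s, mul_pos hq hq', by rw [pow_mul, e, e']⟩

theorem Rk.arch (h : Rk P K τ) (h0 : τ ≠ 0) (h1 : P.v τ < 1) (hy : y ∈ K) (h2 : P.v y < 1) :
    ∃ q : ℕ, P.v y ^ q ≤ P.v τ := by
  rcases eq_or_ne y 0 with rfl | hy0
  · exact ⟨1, by simp⟩
  obtain ⟨q, s, hq, e⟩ := h y hy hy0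
  have h3 : 0 < s := (zpow_lt_one_iff_right_of_lt_one₀ (P.v_pos h0) h1).1
    (e ▸ pow_lt_one₀ zero_le h2 hq.ne')
  exact ⟨q, e.trans_le ((zpow_le_zpow_right_of_le_one₀ (P.v_pos h0) h1.le h3).trans_eq (zpow_one _))⟩

theorem Rk.bdd [Finite L] (h : Rk P K τ) (h0 : τ ≠ 0) (h1 : P.v τ < 1) {y : L → ℂ}
    (hy : ∀ l, y l ∈ K) : ∃ S : ℕ, ∀ l, P.v (τ ^ S * y l) ≤ 1 := by
  have : ∀ l, ∃ S : ℕ, P.v (τ ^ S * y l) ≤ 1 := fun l => by
    rcases eq_or_ne (y l) 0 with e | e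
    · exact ⟨0, by simp [e]⟩
    obtain ⟨q, s, hq, e'⟩ := h _ (hy l) e
    refine ⟨s.natAbs, (pow_le_one_iff_of_nonneg zero_le hq.ne').1 ?_⟩
    rw [map_mul, mul_pow, e', map_pow, ← pow_mul, ← zpow_natCast, ← zpow_add₀ (P.v_ne h0)]
    refine (zpow_le_zpow_right_of_le_one₀ (P.v_pos h0) h1.le ?_).trans_eq (zpow_zero _)
    have := Nat.le_mul_of_pos_right s.natAbs hq
    omega
  choose S hS using this
  obtain ⟨M, hM⟩ := (finite_range S).bddAbove
  refine ⟨M, fun l => le_trans ?_ (hS l)⟩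
  rw [map_mul, map_mul, map_pow, map_pow]
  exact mul_le_mul_left (pow_le_pow_right_of_le_one' h1.le (hM ⟨l, rfl⟩)) _

theorem rad_of_le {w : Fr ι} (h0 : τ ≠ 0) (h1 : w.P.v τ < 1) {S : ℕ} (hp : ∀ j, w.p j ≠ 0)
    (h : ∀ j, w.P.v (τ ^ S * (w.p j)⁻¹) ≤ 1) : w.Rad τ fun _ => -S := by
  intro j a q _ e
  have h2 : a + S * q ≤ 0 := by
    have : (a : ℝ) + S * q ≤ 0 := by linarith
    exact_mod_cast this
  have h3 : τ ^ a * w.p j ^ q = τ ^ (a + S * q) * ((τ ^ S * (w.p j)⁻¹)⁻¹) ^ q := by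
    rw [zpow_add₀ h0, _root_.zpow_mul, zpow_natCast, zpow_natCast]
    field_simp [hp j]
    rw [← mul_pow, mul_div_cancel₀ _ (pow_ne_zero _ h0)]
  rw [h3, map_mul, map_zpow₀, map_pow]
  exact one_le_mul (one_le_zpow_of_nonpos₀ (w.P.v_pos h0) h1.le h2) (one_le_pow₀
    ((w.P.v_inv_le_one (inv_ne_zero (mul_ne_zero (pow_ne_zero _ h0) (inv_ne_zero (hp j))))).1
      (by rw [inv_inv]; exact h j)))

/-- A contractive derivation extends to a free field of units. -/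
theorem ext_good {E : Subfield ℂ} (hk : k ≤ K) (hP : P.IdOn (k ∪ E))
    (h : Free (k : Set ℂ) E (P.res K)) (h' : Free (F : Set ℂ) K E) {D : Der ℂ} (hD : P.Good F K D) :
    ∃ D', P.Good (F ∪ E) (acl (K ∪ E)) D' ∧ ∀ y ∈ K, D' y = D y := by
  obtain ⟨D', h1, h2⟩ := h'.exists_der_ext hD.kil
  have h3 : ∀ y ∈ K, D' y = D y := fun y hy => h2 y (subset_acl _ (Or.inr hy))
  obtain ⟨B, -, h4, h5, h6⟩ := MP_f17f76_ag.E.exists_basis (mt (k : Set ℂ)).empty_indep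
    (empty_subset (E : Set ℂ))
  have h7 : P.Gauss K ((↑) : B → ℂ) := ⟨fun b => (hP b (Or.inr (h4 b.2))).1, by
    rw [show P.r ∘ ((↑) : B → ℂ) = (↑) from funext fun b => (hP b (Or.inr (h4 b.2))).2]
    exact (h.ind (fun b : B => subset_acl _ (Or.inr (h4 b.2))) h5).anti (sub_acl subset_union_right)⟩
  have h8 := h7.ctr_acl (D := D') (fun y hy => h3 y hy ▸ hD.ctr y hy) fun b => by
    simp [h1 b (Or.inr (h4 b.2))]
  rw [Subtype.range_coe] at h8
  refine ⟨D', ⟨h1, h8.mono (acl_le (union_subset (sub_acl subset_union_left)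
    (h6.trans (acl_mono (union_subset_union_left _ hk))))), fun y hy =>
      der_mem_acl (subset_acl _) ?_ hy⟩, h3⟩
  rintro y (hy | hy)
  · exact subset_acl _ (Or.inl (h3 y hy ▸ hD.mem y hy))
  · exact h1 y (Or.inr hy) ▸ zero_mem _

/-- The place is moved so that it is the identity on a free field. -/
theorem exists_move {E : Subfield ℂ} (hF : Cac F) (hk : k ≤ F) (hK : F ≤ K)
    (cK : (K : Set ℂ).Countable) (cE : (E : Set ℂ).Countable) (hP : P.IdOn F)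
    (h : Free (k : Set ℂ) K E) : ∃ Q : Plc ℂ ℂ, Q.IdOn (F ∪ E) ∧ Free (k : Set ℂ) E (Q.res K) ∧
      (∀ y ∈ K, 1 ≤ P.v y ↔ 1 ≤ Q.v y) ∧ (∀ S D, P.Good S K D → Q.Good S K D) ∧
      ∀ F', P.Full F' K → Q.Full F' K := by
  obtain ⟨γ, h1, h2⟩ := exists_fresh hF.cnt (Plc.countable_res (P := P) cK) cE
  have h3 : (P.map (γ : ℂ →+* ℂ)).Lifts (RingHom.id ℂ) (acl (F : Set ℂ)) := by
    rw [hF.acl_eq]
    exact fun y hy => ⟨(hP y hy).1, by rw [Plc.map_r, (hP y hy).2]; exact h1 y (subset_acl _ hy)⟩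
  obtain ⟨Q, h4, h5⟩ := Plc.fresh le_rfl hF.cnt cK cE
    (h.symm.base (sub_acl hk) (Subset.trans hK (sub_acl subset_union_right))).symm h3
  have h6 := h4.mono (sub_acl subset_union_right)
  refine ⟨Q, h5.mono (subset_acl _), ?_, fun y hy => by simpa using! h6.le (one_mem K) hy,
    fun S D hD => ⟨hD.kil, h6.ctr subset_rfl hD.mem hD.ctr, hD.mem⟩,
    fun F' ⟨a, B, b, c, d⟩ => h6.full ⟨a, B, b, (Plc.map_gauss _).2 c, d⟩⟩
  rw [← h6.res le_rfl, Plc.map_res, Subfield.coe_map]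
  exact (Free.tower (h.mono hK (sub_acl subset_union_right)) hk h2).symm

variable [Fintype ι] [DecidableEq ι] [Fintype κ] [DecidableEq κ] {x : Cx ι κ g}

omit [DecidableEq κ] in
/-- Coordinates on the leaves. -/
theorem exists_eta (hx : IsCx A x) (h0 : Init A x) :
    ∃ (I : Set (Option ι)) (η : I → ℂ), (∀ l, η l ∈ acl (x.k' ∪ pt A x.z x.a)) ∧
      Ind (x.k' : Set ℂ) η ∧ A.Pair (x.k' ∪ range η) x.a x.θ ∧
      (∀ D ∈ A.thin (x.k' ∪ range η) x.a x.θ, D ∈ kil (pt A x.z x.a)) ∧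
      (x.f = 1 ∨ ∃ l, η l = MvPolynomial.eval x.z x.f) := by
  classical
  let y : Option ι → ℂ := fun j => j.elim (MvPolynomial.eval x.z x.f) x.z
  obtain ⟨I, e, h1, h2, h3, h4, h5⟩ := exists_ech (fun j : Option ι => j.isNone)
    ((A.thin x.k' x.a x.θ).map (dv y))
  choose D h6 h7 using h1
  have h8 : ∀ l l' : I, D l (y l') = if l = l' then 1 else 0 := fun l l' => by
    rw [← dv_apply y, h7]
    split_ifs with h
    exacts [h ▸ h2 l, h3 l l' h]
  have h9 : ∀ X ∈ kil (x.k' : Set ℂ), X - ∑ l : I, X (y l) • D l ∈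
      kil (x.k' ∪ range fun l : I => y l) ∧
      A.pv x.θ x.a (X - ∑ l : I, X (y l) • D l) = A.pv x.θ x.a X := fun X hX => by
    refine ⟨(kil_union _ _).ge ⟨sub_mem hX (sum_mem fun l _ => Submodule.smul_mem _ _ (h6 l).1),
      dv_eq_zero.1 (funext fun l => ?_)⟩, ?_⟩
    · rw [map_sub, map_sum]
      simp [h8]
    · have : ∀ l, A.pv x.θ x.a (D l) = 0 := fun l => (h6 l).2
      simp [this]
  have h10 : ∀ X ∈ A.thin (x.k' ∪ range fun l : I => y l) x.a x.θ, dv y X = 0 := fun X hX =>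
    h5 _ ⟨X, ⟨kil_anti subset_union_left hX.1, hX.2⟩, rfl⟩ fun l => hX.1 _ (Or.inr ⟨l, rfl⟩)
  refine ⟨I, fun l => y l, ?_, ind_of_dual (fun l => (h6 l).1) ?_, fun c => ?_, fun X hX => ?_,
    h0.imp_right fun ⟨X, hX, h11⟩ => by_contra fun h12 => h11 ?_⟩
  · rintro ⟨_ | j, -⟩
    · exact hx.cf.eval_mem' (sub_acl subset_union_left) fun j =>
        subset_acl _ (Or.inr (mem_pt_left j))
    · exact subset_acl _ (Or.inr (mem_pt_left j))
  · rw [show (Matrix.of fun j l : I => D l (y j)) = 1 from Matrix.ext fun j l => by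
      simp [h8, one_apply, eq_comm], det_one]
    exact one_ne_zero
  · obtain ⟨X, h11, h12⟩ := hx.ob.ndg.pair₀ c
    exact ⟨_, (h9 X h11).1, (h9 X h11).2.trans h12⟩
  · refine hx.ob.ndg.kil (kil_anti subset_union_left hX.1) (fun n _ => ?_) hX.2
    rw [show dv x.z X = 0 from funext fun j => congrFun (h10 X hX) (some j), dotProduct_zero]
  · have h13 := congrFun (h10 _ ⟨(h9 X hX.1).1, (h9 X hX.1).2.trans hX.2⟩) none
    have h14 : ∀ l : I, dv y (D l) none = 0 := by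
      rintro ⟨_ | j, hj⟩
      · exact (h12 ⟨⟨_, hj⟩, rfl⟩).elim
      · exact h7 ⟨_, hj⟩ ▸ h4 ⟨_, hj⟩ none (by simp)
    simp only [map_sub, map_sum, map_smul, Pi.sub_apply, Finset.sum_apply, Pi.smul_apply, h14] at h13
    simpa using! h13

/-- A place on the field of the point with dual contractive derivations. -/
theorem exists_place (hS : A.S_SIM) (hx : IsCx A x) [Fintype L] [DecidableEq L] {η : L → ℂ}
    (h1 : ∀ l, η l ∈ acl (x.k' ∪ pt A x.z x.a)) (h2 : Ind (x.k' : Set ℂ) η)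
    (h3 : A.Pair (x.k' ∪ range η) x.a x.θ)
    (h4 : ∀ D ∈ A.thin (x.k' ∪ range η) x.a x.θ, D ∈ kil (pt A x.z x.a)) :
    Fintype.card L = finrank ℂ x.N ∧ ∃ (P : Plc ℂ ℂ) (S : L → Der ℂ) (T : κ → Der ℂ), P.IdOn x.kt ∧
      P.v x.τ < 1 ∧ (∀ l, P.v (η l) = 1) ∧ P.Full x.k' (acl (x.k' ∪ pt A x.z x.a)) ∧
      (∀ m, P.Good x.k' (acl (x.k' ∪ pt A x.z x.a)) (S m) ∧
        dv η (S m) = Pi.single m 1 ∧ A.pv x.θ x.a (S m) = 0) ∧
      ∀ j, P.Good x.k' (acl (x.k' ∪ pt A x.z x.a)) (T j) ∧ A.pv x.θ x.a (T j) = Pi.single j 1 := by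
  have ho := hx.ob
  have hA := ho.ovr.mono hx.le
  have e1 : acl (x.k' ∪ pt A x.z x.a : Set ℂ) = acl (x.k' ∪ (range η ∪ range (A.crd x.a))) :=
    acl_congr (union_subset (sub_acl subset_union_left) (subset_acl_iff_kil.2 fun D hD => h4 D
      ⟨kil_anti (union_subset_union_right _ subset_union_left) hD,
        pv_eq_zero (kil_anti (fun _ hy => Or.inr (Or.inr hy)) hD)⟩))
      (union_subset (sub_acl subset_union_left) (union_subset (range_subset_iff.2 h1)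
        (sub_acl fun _ hy => Or.inr (Or.inr hy))))
  have e2 : trd (x.k' : Set ℂ) (range η ∪ range (A.crd x.a)) = finrank ℂ x.N + Fintype.card κ := by
    rw [← ho.ndg.trd_eq]
    exact trd_congr (e1 ▸ sub_acl subset_union_right) (e1 ▸ sub_acl subset_union_right)
  have e3 : trd (x.k' ∪ range η : Set ℂ) (range (A.crd x.a)) = Fintype.card κ := by
    refine le_antisymm ?_ h3.le_trd
    rw [← finrank_map_kil (A.pv x.θ x.a) (finite_range _) fun D hD =>
      ⟨fun e => kil_anti subset_union_right (h4 D ⟨hD, e⟩), pv_eq_zero⟩]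
    exact (Submodule.finrank_le _).trans_eq (finrank_fintype_fun_eq_card ℂ)
  have e4 := trd_union (F := (x.k' : Set ℂ)) (finite_range η) (finite_range (A.crd x.a))
  rw [e2, e3, h2.trd_range] at e4
  refine ⟨by omega, ?_⟩
  have hc := hx.cac.cnt.union (finite_range η).countable
  have h5 : Ind (x.kt ∪ {x.τ} : Set ℂ) η := h2.anti (sub_acl (hx.eq ▸ subset_acl _))
  obtain ⟨P₀, h6⟩ := Plc.exists_lifts le_rfl (RingHom.id ℂ) hc
  obtain ⟨P₁, h7, h8⟩ := P₀.exists_small le_rfl (countable_acl hc) (τ := x.τ)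
    (by rw [acl_acl]; exact notMem_of_free h5.free.symm (hx.cac.acl_eq.symm ▸ hx.tr))
  have h9 : P₁.IdOn (acl (x.kt ∪ range η : Set ℂ)) := h7.lifts h6
  have h10 : x.k' ≤ acl (x.k' ∪ range η : Set ℂ) := sub_acl subset_union_left
  have h11 : acl (x.kt ∪ range η : Set ℂ) ≤ acl (x.k' ∪ range η : Set ℂ) :=
    acl_mono (union_subset_union_left _ hx.kt_le)
  obtain ⟨P, h12, b, h13, h14⟩ := hS x.kt (acl (x.k' ∪ range η)) κ x.θ x.a P₁ hA
    (hx.kt_le.trans h10) (countable_acl (ho.cac.cnt.union (finite_range η).countable))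
    (h9.mono (sub_acl subset_union_left)) hx.th ((trd_acl_base (finite_range _)).trans_le e3.le)
    (h3.anti subset_rfl)
  rw [acl_acl] at h12 h14
  rw [h12.res le_rfl] at h14
  have h15 : P.IdOn (acl (x.kt ∪ range η : Set ℂ)) := (h12.mono h11).lifts h9
  have h16 : P.IdOn x.kt := h15.mono (sub_acl subset_union_left)
  have h17 : P.v x.τ < 1 := (h12.lt_one (h10 hx.τ_mem)).1 (by simpa using h8 1 (one_mem _) one_ne_zero)
  have h18 : ∀ l, η l ∈ acl (x.kt ∪ range η : Set ℂ) := fun l => subset_acl _ (Or.inr ⟨l, rfl⟩)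
  have h19 : P.r ∘ η = η := funext fun l => (h15 _ (h18 l)).2
  have h20 : (P.res x.k' : Set ℂ) ⊆ acl (x.k' : Set ℂ) := by
    have := (Plc.tr_of_triv h16.triv hx.τ_ne h17.ne).res_acl_le
    rw [← hx.eq, h16.res] at this
    exact Subset.trans this (acl_mono hx.kt_le)
  have h21 : ∀ l m : L, P.v ((Pi.single l 1 : L → ℂ) m) ≤ 1 ∧
      P.r ((Pi.single l 1 : L → ℂ) m) = (Pi.single l 1 : L → ℂ) m := fun l m => by
    by_cases e : m = l <;> simp [e]
  obtain ⟨Y, -, h22, h23, S, T, h24, h25⟩ := hA.lift h16 h13 hx.kt_le (u := η)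
    (ν := fun l => Pi.single l 1) e1
    (fun j l => ⟨subset_acl _ (Or.inl (ho.th j l)), h16 _ (hx.th j l)⟩) (fun l => (h15 _ (h18 l)).1)
    (fun l m => ⟨by by_cases e : m = l <;> simp [e], (h21 l m).1⟩) (by omega) fun c c' => by
      obtain ⟨D, h22, h23⟩ := exists_der (h2.anti h20) c
      obtain ⟨X, h24, h25⟩ := h14 (c' - A.pv x.θ b D)
      refine ⟨D + X, add_mem h22 (kil_anti (Plc.res_mono h10) h24), fun l => ?_, by simp [h25]⟩
      rw [h19, show (P.r ∘ Pi.single l 1 : L → ℂ) = Pi.single l 1 from funext fun m => (h21 l m).2,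
        single_one_dotProduct, dv_apply, Derivation.add_apply, h23,
        h24 _ ⟨_, h11 (h18 l), congrFun h19 l⟩, add_zero]
  refine ⟨P, S, T, h16, h17, fun l => h15.triv.v_eq (h18 l) (ne_zero_of_notMem (h2.notMem l)),
    h23 ▸ h22.full, fun m => ⟨(h24 m).1, funext fun l => ?_, (h24 m).2.2⟩,
    fun j => ⟨(h25 j).1, (h25 j).2.2⟩⟩
  rw [← single_one_dotProduct l (dv η (S m)), (h24 m).2.1, Pi.single_apply]

theorem init (A : AbVar g N) (hS : A.S_SIM) : S_INIT A := by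
  intro ι κ _ _ _ _ x hx h0
  classical
  have ho := hx.ob
  obtain ⟨I, η, a1, a2, a3, a4, a5⟩ := exists_eta hx h0
  obtain ⟨hL, P, S, T, b1, b2, b3, b4, b5, b6⟩ := exists_place hS hx a1 a2 a3 a4
  have hf := ho.free.acl_left.mono (acl_mono subset_union_right) (sub_acl subset_union_right)
  have hf' := ho.free'.acl_left
  have cK := Cac.acl (ho.cac.cnt.union (finite_pt x.z x.a (A := A)).countable)
  have h1 : x.k' ≤ acl (x.k' ∪ pt A x.z x.a) := sub_acl subset_union_left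
  have h2 : pt A x.z x.a ⊆ acl (x.k' ∪ pt A x.z x.a) := sub_acl subset_union_right
  generalize acl (x.k' ∪ pt A x.z x.a : Set ℂ) = K at *
  obtain ⟨Q, c1, c2, c3, c4, c5⟩ := exists_move hx.cac hx.le (hx.kt_le.trans h1) cK.cnt ho.cE b1 hf
  have c6 : Q.IdOn (x.k ∪ x.E) := c1.mono (union_subset_union_left _ hx.le)
  have hk : x.k ≤ K := ho.le.trans h1
  have h3 : K ≤ acl (K ∪ x.E : Set ℂ) := sub_acl subset_union_left
  have h4 : x.E ≤ acl (K ∪ x.E : Set ℂ) := sub_acl subset_union_right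
  have hτ : Q.v x.τ < 1 := not_le.1 (mt (c3 _ (h1 hx.τ_mem)).2 b2.not_ge)
  have h5 : Q.Full x.k' (acl (K ∪ x.E : Set ℂ)) := (c5 _ b4).trans (Plc.full_of_lifts'
    (φ := RingHom.id ℂ) hk (c6.mono subset_union_right) (c6.mono subset_union_left)
    (by simpa using c2)).1
  have h6 : Rk Q (acl (K ∪ x.E : Set ℂ)) x.τ :=
    Rk.full (hx.eq.symm ▸ rk_acl (c1.mono subset_union_left).triv hx.τ_ne hτ) h5
  choose S' s1 s2 using fun m => ext_good hk c6 c2 hf' (c4 _ _ (b5 m).1)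
  choose T' t1 t2 using fun j => ext_good hk c6 c2 hf' (c4 _ _ (b6 j).1)
  let J : Matrix ι I ℂ := Matrix.of fun i l => S l (x.z i)
  have hJ : ∀ i l, J i l ∈ K := fun i l => (b5 l).1.mem _ (h2 (mem_pt_left i))
  have h7 : ∀ c : I → ℂ, dv x.z (∑ l, c l • S l) = J *ᵥ c := fun c => funext fun i => by
    simp [J, mulVec, dotProduct, mul_comm, der_sum_apply]
  have := cK.alg
  obtain ⟨G, p, g1, g2, -, g3, -⟩ := lang ho.fam (c6.mono subset_union_right) hk (h1 hx.τ_mem)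
    hx.τ_ne hτ c2.symm hJ hL (fun u hu e => by
      refine ho.ndg.inf_ann_tsp.le ⟨hu, ?_⟩
      rintro _ ⟨D, hD, rfl⟩
      have h8 := a4 (D - ∑ l, D (η l) • S l) ⟨(kil_union _ _).ge ⟨sub_mem hD.1 (sum_mem fun l _ =>
        Submodule.smul_mem _ _ (b5 l).1.kil), dv_eq_zero.1 (by
          simp only [map_sub, map_sum, map_smul, (b5 _).2.1]
          funext l
          simp [Pi.single_apply])⟩, LinearMap.mem_ker.2 (by
            simp [(b5 _).2.2, LinearMap.mem_ker.1 hD.2])⟩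
      have h9 := dv_eq_zero.2 (kil_anti subset_union_left h8)
      rw [map_sub, h7, sub_eq_zero] at h9
      rw [h9, dotProduct_mulVec, e, zero_dotProduct])
    (GrM.one _ _) (p₀ := 1) fun _ => ⟨one_mem _, one_ne_zero⟩
  choose c g4 g5 using g3.col hL
  have g6 : ∀ j l, c j l ∈ acl (K ∪ x.E : Set ℂ) := fun j =>
    coef_mem (ho.fam.ov.mono h4) (fun i l => h3 (hJ i l)) (fun i => by
      rw [col_apply, mul_diagonal]
      exact h3 (mul_mem (hk (g1.mem i j)) (g2 j).1)) (fun e he => by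
        obtain ⟨n, C, h8, -, -, h9⟩ := g3
        refine Matrix.eq_zero_of_mulVec_eq_zero (M := n * J) (fun e => by simp [e] at h9)
          (funext fun l => ?_)
        rw [← mulVec_mulVec]
        exact (dotProduct_comm _ _).trans (he _ (h8 l))) (g5 j)
  obtain ⟨s, g7⟩ := h6.bdd hx.τ_ne hτ fun l : ι × I => g6 l.1 l.2
  choose q q1 q2 using fun j => (c5 _ b4).exists_v
    (subset_acl _ (mul_mem (pow_mem (h1 hx.τ_mem) s) (g2 j).1))
  rw [ho.cac.acl_eq] at q1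
  have q0 : ∀ j, q j ≠ 0 := fun j e => Q.v_ne (mul_ne_zero (pow_ne_zero s hx.τ_ne) (g2 j).2)
    (by rw [q2, e, map_zero])
  have q3 : ∀ j, Q.v (q j / p j) = Q.v (x.τ ^ s) := fun j => by
    rw [map_div₀, ← q2, map_mul, mul_div_cancel_right₀ _ (Q.v_ne (g2 j).2)]
  have hz : ∀ j, x.z j ∈ acl (K ∪ x.E : Set ℂ) := fun j => h3 (h2 (mem_pt_left j))
  obtain ⟨B₀, g8⟩ := h6.bdd hx.τ_ne hτ
    (mulVec_mem (fun i j => h3 (hk (inv_mem_sub g1.mem i j))) hz)
  obtain ⟨s', g9⟩ := h6.bdd hx.τ_ne hτ fun j => h3 (h1 (inv_mem (q1 j)))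
  refine ⟨B₀, _, ⟨x.k, x.k', acl (K ∪ x.E), Q, G, q⟩, ⟨⟨ho.cac_k, ho.cac,
    Cac.acl (cK.cnt.union ho.cE), le_rfl, ho.le, le_rfl, h1.trans h3,
    (c1.mono subset_union_left).mono (union_subset hx.le subset_rfl), hτ,
    fun y hy => h6.arch hx.τ_ne hτ hy, g1, q0, q1, hz, fun j => Or.inr (g8 j), 0,
    fun _ => ⟨zero_mem _, by simp⟩, ?_⟩, free_of_sub (subset_acl _) _, c1.mono subset_union_right,
    union_subset h4 (h2.trans h3), fun j => ?_, fun i => ⟨T' i, (t1 i).kil, (t1 i).mem, (t1 i).ctr,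
      (pv_congr_der fun j => t2 i _ (h2 (mem_pt_right j))).trans (b6 i).2⟩⟩,
    rad_of_le hx.τ_ne hτ q0 g9⟩
  · rw [mulVec_zero, add_zero]
    obtain e | ⟨l, e⟩ := a5
    · simp [e]
    · exact e ▸ (c3 _ (a1 l)).1 (b3 l).ge
  have h8 := Plc.Good.sum s1 (c := (q j / p j) • c j) fun l => ⟨mul_mem
    (h3 (div_mem (h1 (q1 j)) (g2 j).1)) (g6 j l), by
      simpa only [Pi.smul_apply, smul_eq_mul, map_mul, q3] using g7 (j, l)⟩
  have h9 : ∀ y ∈ K, (∑ l, ((q j / p j) • c j) l • S' l) y = (∑ l, ((q j / p j) • c j) l • S l) y :=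
    fun y hy => by simp only [der_sum_apply, s2 _ y hy]
  have h10 : dv x.z (∑ l, ((q j / p j) • c j) l • S' l) = (q j / p j) • J *ᵥ c j := by
    rw [← mulVec_smul, ← h7]
    exact funext fun i => h9 _ (h2 (mem_pt_left i))
  refine ⟨_, ⟨h8.kil, (pv_congr_der fun i => h9 _ (h2 (mem_pt_right i))).trans (by
    simp [(b5 _).2.2])⟩, h8.mem, h8.ctr, fun i => ?_, ?_⟩
  · have h11 := g4 j i
    rw [inv_mul_diag G fun j => (g2 j).2] at h11
    rw [h10, mulVec_smul, Pi.smul_apply, Fr.M, inv_mul_diag G q0, smul_eq_mul, map_mul, q3, ← q3 i,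
      ← map_mul]
    convert h11 using 2
    field_simp [q0 i]
  · rw [h10]
    convert Submodule.smul_mem _ (q j / p j) (g5 j) using 1
    rw [smul_sub]
    congr 1
    funext i
    simp only [Fr.M, col_apply, mul_diagonal, Pi.smul_apply, smul_eq_mul]
    field_simp [(g2 j).2]

end Pool.Agent.P.MP_f17f76_ag.Hgc
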