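import Pool.Agent.P.MP_f17f76_ag.E.THgc
import Pool.Agent.P.MP_f17f76_ag.E.HgcInit
import Pool.Agent.P.MP_f17f76_ag.E.CcD
import Pool.Agent.P.MP_f17f76_ag.E.Gain5

/-!
Positivity of all objects from the two remaining inputs.
-/

namespace Pool.Agent.P.MP_f17f76_ag.Hgc

theorem hgc_of2 {g N : ℕ} {A : AbVar g N} (hS : A.S_SIM) (hX : S_EXP A) : S_HGC A :=
  hgc_of' hS (init A hS) (s_CC A) hX (gain A)

end Pool.Agent.P.MP_f17f76_ag.Hgc
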