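import Pool.Agent.P.MP_f17f76_ag.E.Nd
import Pool.Agent.P.MP_f17f76_ag.E.Fam

/-!
Objects, positivity, states and configurations: definitions and statements.
-/

namespace Pool.Agent.P.MP_f17f76_ag.Hgc

open Set Module Matrix E

variable {g N : ℕ} {ι κ : Type}

/-- Countable algebraically closed subfields. -/
structure Cac (F : Subfield ℂ) : Prop where
  cnt : (F : Set ℂ).Countable
  alg : IsAlgClosed F

/-- The coordinates of the pair `(z, exp a)`. -/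
def pt (A : AbVar g N) (z : ι → ℂ) (a : Fin g → ℂ) : Set ℂ := range z ∪ range (A.crd a)

/-- The forms `n du` (`n ∈ R`) and `θ j` take arbitrary values on the derivations over `F`. -/
def Sur [Fintype ι] (A : AbVar g N) (R : Submodule ℂ (ι → ℂ)) (F : Set ℂ) (u : ι → ℂ)
    (a : Fin g → ℂ) (θ : κ → Fin g → ℂ) : Prop :=
  ∀ (v : ι → ℂ) (c : κ → ℂ), ∃ D ∈ kil F, dv u D - v ∈ ann R ∧ A.pv θ a D = c

/-- The data of an object. -/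
structure Ob (ι κ : Type) (g : ℕ) where
  k : Subfield ℂ
  E : Subfield ℂ
  r : Setoid ι
  N : Submodule ℂ (ι → ℂ)
  k' : Subfield ℂ
  z : ι → ℂ
  a : Fin g → ℂ
  θ : κ → Fin g → ℂ

/-- The data of a context. -/
structure Cx (ι κ : Type) (g : ℕ) extends Ob ι κ g where
  kt : Subfield ℂ
  τ : ℂ
  f : MvPolynomial ι ℂ

/-- The data of a frame: fields, place and weights. -/
structure Fr (ι : Type) where
  k₁ : Subfield ℂ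
  K₁ : Subfield ℂ
  Kp : Subfield ℂ
  P : Plc ℂ ℂ
  G : Matrix ι ι ℂ
  p : ι → ℂ

/-- The data of a configuration. -/
structure Cd (ι κ : Type) (g : ℕ) extends Fr ι where
  c : ι → ℂ
  z : ι → ℂ
  a : Fin g → ℂ
  b : Fin g → ℂ
  T : Matrix κ κ ℂ
  s : Finset κ
  W : κ → ℂ
  X : κ → Der ℂ
  π : ℂ

variable [Fintype ι] [DecidableEq ι] [Fintype κ] [DecidableEq κ] (A : AbVar g N)

/-- Objects. -/
structure IsOb (o : Ob ι κ g) : Prop where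
  ovr : A.Over o.k
  fam : Fam o.k o.E o.r o.N
  cE : (o.E : Set ℂ).Countable
  le : o.k ≤ o.k'
  cac : Cac o.k'
  th : ∀ j i, o.θ j i ∈ o.k'
  free : Free (o.k : Set ℂ) (o.k' ∪ pt A o.z o.a) o.E
  ndg : A.Ndg o.N o.k' o.z o.a o.θ

/-- Positivity data over the base `B`. -/
structure PosAt (o : Ob ι κ g) (k₁ : Subfield ℂ) (B : Set ℂ) (σ : ℂ) (m : ι → ℕ) (P : Plc ℂ ℂ)
    (G : Matrix ι ι ℂ) (b : Fin g → ℂ) : Prop where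
  id : P.IdOn B
  ne : σ ≠ 0
  lt : P.v σ < 1
  gr : GrM k₁ o.r G
  int : ∀ j, P.v (σ ^ m j * (G⁻¹ *ᵥ o.z) j) ≤ 1
  red : A.Red P o.a b
  sur : Sur A (ini m (act G o.N)) B (fun j => P.r (σ ^ m j * (G⁻¹ *ᵥ o.z) j)) b o.θ

/-- Weak positivity with the weights `m`. -/
def Pos (o : Ob ι κ g) (m : ι → ℕ) : Prop :=
  ∃ (k₁ : Subfield ℂ) (σ : ℂ) (P : Plc ℂ ℂ) (G : Matrix ι ι ℂ) (b : Fin g → ℂ), Cac k₁ ∧ o.k ≤ k₁ ∧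
    Free (o.k : Set ℂ) k₁ (o.k' ∪ o.E ∪ pt A o.z o.a) ∧
    σ ∉ acl (k₁ ∪ o.k' ∪ o.E ∪ pt A o.z o.a) ∧ PosAt A o k₁ (k₁ ∪ o.k' ∪ o.E) σ m P G b

/-- Positivity. -/
def POS (o : Ob ι κ g) : Prop := ∃ m : ι → ℕ, (∀ j, 0 < m j) ∧ Pos A o m

/-- The affine field `z ↦ φ z + c` is a symmetry of the object. -/
structure IsSym (o : Ob ι κ g) (φ : Matrix ι ι ℂ) (c : ι → ℂ) : Prop where
  lin : ∀ i j, φ i j ∈ o.k'
  vec : ∀ i, c i ∈ o.k'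
  st : act φ o.N ≤ o.N
  ex : ∃ D ∈ A.thin o.k' o.a o.θ, dv o.z D = φ *ᵥ o.z + c

/-- There are `h` independent symmetries. -/
def HasSym (o : Ob ι κ g) (h : ℕ) : Prop :=
  ∃ ξ : Fin h → Matrix ι ι ℂ × (ι → ℂ), LinearIndependent ℂ ξ ∧ ∀ i, IsSym A o (ξ i).1 (ξ i).2

/-- Contexts. -/
structure IsCx (x : Cx ι κ g) : Prop where
  ob : IsOb A x.toOb
  le : x.k ≤ x.kt
  cac : Cac x.kt
  th : ∀ j i, x.θ j i ∈ x.kt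
  tr : x.τ ∉ x.kt
  eq : x.k' = acl (x.kt ∪ {x.τ})
  cf : Cf x.k' x.f

/-- The matrix of a frame. -/
def Fr.M (w : Fr ι) : Matrix ι ι ℂ := w.G * diagonal w.p

/-- Weights of the same size are equal. -/
def Fr.Nrm (w : Fr ι) : Prop := ∀ i j, w.P.v (w.p i) = w.P.v (w.p j) → w.p i = w.p j

/-- The weight `p j` has size at least `|τ| ^ (-s j)`. -/
def Fr.Rad (w : Fr ι) (τ : ℂ) (s : ι → ℝ) : Prop :=
  ∀ j (a : ℤ) (q : ℕ), 0 < q → (a : ℝ) < s j * q → 1 ≤ w.P.v (τ ^ a * w.p j ^ q)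

/-- The degeneration of `R` for the sizes of the weights. -/
noncomputable def Fr.bar (w : Fr ι) (R : Submodule ℂ (ι → ℂ)) : Submodule ℂ (ι → ℂ) :=
  ini (fun j => w.P.v (w.p j)) (act w.G R)

/-- Frames with centre `c`. -/
structure IsFr (x : Cx ι κ g) (B₀ : ℕ) (w : Fr ι) (c : ι → ℂ) : Prop where
  c₁ : Cac w.k₁
  cK : Cac w.K₁
  cp : Cac w.Kp
  le : x.k ≤ w.k₁
  le₁ : w.k₁ ≤ w.K₁
  le' : x.k' ≤ w.K₁
  lep : w.K₁ ≤ w.Kp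
  id : w.P.IdOn (w.k₁ ∪ x.kt)
  lt : w.P.v x.τ < 1
  arch : ∀ y ∈ w.Kp, w.P.v y < 1 → ∃ q : ℕ, w.P.v y ^ q ≤ w.P.v x.τ
  gr : GrM w.k₁ x.r w.G
  p0 : ∀ j, w.p j ≠ 0
  pm : ∀ j, w.p j ∈ w.K₁
  cm : ∀ j, c j ∈ w.Kp
  bd : ∀ j, w.P.v ((w.G⁻¹ *ᵥ c) j) ≤ w.P.v (w.p j) ∨ w.P.v (x.τ ^ B₀ * (w.G⁻¹ *ᵥ c) j) ≤ 1
  pol : ∃ u : ι → ℂ, (∀ j, u j ∈ w.Kp ∧ w.P.v (u j) ≤ 1) ∧
    1 ≤ w.P.v (MvPolynomial.eval (c + w.M *ᵥ u) x.f)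

/-- States. -/
structure WS (x : Cx ι κ g) (B₀ : ℕ) (w : Fr ι) : Prop where
  fr : IsFr x B₀ w x.z
  free : Free (x.k : Set ℂ) w.k₁ (x.k' ∪ x.E ∪ pt A x.z x.a)
  idE : w.P.IdOn x.E
  sub : (x.E : Set ℂ) ∪ pt A x.z x.a ⊆ w.Kp
  exD : ∀ j, ∃ D ∈ A.thin (w.K₁ ∪ x.E) x.a x.θ, (∀ y ∈ w.Kp, D y ∈ w.Kp) ∧ w.P.Ctr D w.Kp ∧
    (∀ i, w.P.v ((w.M⁻¹ *ᵥ dv x.z D) i) ≤ 1) ∧ dv x.z D - w.M.col j ∈ ann x.N
  exX : ∀ i, ∃ X ∈ kil (w.K₁ ∪ x.E : Set ℂ), (∀ y ∈ w.Kp, X y ∈ w.Kp) ∧ w.P.Ctr X w.Kp ∧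
    A.pv x.θ x.a X = Pi.single i 1

/-- The rescaled coordinates. -/
noncomputable def Cd.u (d : Cd ι κ g) : ι → ℂ := d.M⁻¹ *ᵥ (d.z - d.c)

/-- The adapted basis of the forms. -/
def Cd.θ (d : Cd ι κ g) (x : Cx ι κ g) (i : κ) : Fin g → ℂ := ∑ j, d.T i j • x.θ j

/-- The base field of the residue object. -/
noncomputable def Cd.kap (d : Cd ι κ g) : Subfield ℂ :=
  acl (d.P.res d.Kp ∪ range fun i : d.s => d.P.r (d.W i))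

/-- The field generated by the new point. -/
noncomputable def Cd.L (d : Cd ι κ g) : Subfield ℂ := acl (d.Kp ∪ pt A d.z d.a)

/-- The residue object for the copy `σ E`. -/
noncomputable def Cd.res (d : Cd ι κ g) (x : Cx ι κ g) (σ : ℂ ≃+* ℂ) : Ob ι {i // i ∉ d.s} g where
  k := d.k₁
  E := acl (d.k₁ ∪ σ '' x.E)
  r := x.r ⊓ Setoid.ker fun j => d.P.v (d.p j)
  N := d.bar (cj σ x.N)
  k' := d.kap
  z := fun j => d.P.r (d.u j)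
  a := d.b
  θ := fun i => d.θ x i

/-- Configurations. -/
structure CC (x : Cx ι κ g) (B₀ : ℕ) (d : Cd ι κ g) : Prop where
  fr : IsFr x B₀ d.toFr d.c
  nrm : d.Nrm
  cj : ∃ σ : ℂ ≃+* ℂ, (∀ y ∈ x.k', σ y = y) ∧ d.z = σ ∘ x.z ∧ A.crd d.a = σ ∘ A.crd x.a
  free : Free (x.k : Set ℂ) d.k₁ (x.k' ∪ pt A d.z d.a)
  freeE : Free (x.k : Set ℂ) d.k₁ x.E
  T0 : d.T.det ≠ 0
  Tm : ∀ i j, d.T i j ∈ x.kt
  Wm : ∀ i ∈ d.s, d.W i ∈ d.L A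
  Wg : d.P.Gauss d.Kp fun i : d.s => d.W i
  X : ∀ i ∈ d.s, d.X i ∈ kil (d.K₁ : Set ℂ) ∧ (∀ y ∈ d.Kp, d.X i y ∈ d.Kp) ∧ d.P.Ctr (d.X i) d.Kp
  π0 : d.π ≠ 0
  πm : d.π ∈ d.K₁
  πlt : d.P.v d.π < 1
  int : ∀ j, d.P.v (d.u j) ≤ 1
  red : A.Red d.P d.a d.b
  ndg : A.Ndg (d.bar x.N) d.kap (fun j => d.P.r (d.u j)) d.b fun i : {i // i ∉ d.s} => d.θ x i
  cX : ∀ i ∈ d.s, ∀ j, d.P.v (d.π * (d.M⁻¹ *ᵥ dv d.c (d.X i)) j) < 1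
  wit : ∀ Q : Plc ℂ ℂ, d.P.Agree Q (d.L A) → ∀ (δ : Der ℂ) (e : κ → ℂ), Q.Ctr δ (d.L A) →
    (δ ∈ kil (d.Kp : Set ℂ) ∧ e = 0 ∨
      ∃ j ∈ d.s, (∀ y ∈ d.Kp, δ y = d.X j y) ∧ e = Pi.single j 1) →
    ∀ i ∈ d.s, Q.v (d.θ x i ⬝ᵥ A.dl d.a δ - d.π * δ (d.W i) - e i) < Q.v d.π

/-- The copy `σ E` is in general position and gives an object. -/
structure ResOk (x : Cx ι κ g) (d : Cd ι κ g) (σ : ℂ ≃+* ℂ) : Prop where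
  fix : ∀ y ∈ x.k, σ y = y
  free : Free (x.k : Set ℂ) (σ '' x.E) d.k₁
  ob : IsOb A (d.res x σ)

/-- The outcome of the growth argument. -/
def FinOut (x : Cx ι κ g) : Prop :=
  ∃ (k₁ : Subfield ℂ) (σ : ℂ) (e : ℕ) (m : ι → ℕ) (P : Plc ℂ ℂ) (G : Matrix ι ι ℂ) (b : Fin g → ℂ),
    Cac k₁ ∧ x.k ≤ k₁ ∧ Free (x.k : Set ℂ) k₁ (x.k' ∪ x.E ∪ pt A x.z x.a) ∧ 0 < e ∧ σ ^ e = x.τ ∧
    (∀ j, 0 < m j) ∧ PosAt A x.toOb k₁ (k₁ ∪ x.kt ∪ x.E) σ m P G b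

/-- The hypothesis on the polynomial of a context. -/
def Init (x : Cx ι κ g) : Prop :=
  x.f = 1 ∨ ∃ D ∈ A.thin x.k' x.a x.θ, D (MvPolynomial.eval x.z x.f) ≠ 0

/-- The object `o'` is the image of `o` under the automorphism `σ`, which fixes the base. -/
structure Ob.Cj (σ : ℂ ≃+* ℂ) (o o' : Ob ι κ g) : Prop where
  fix : ∀ y ∈ o.k, σ y = y
  k : o'.k = o.k
  E : (o'.E : Set ℂ) = σ '' o.E
  r : o'.r = o.r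
  N : o'.N = cj σ o.N
  k' : (o'.k' : Set ℂ) = σ '' o.k'
  z : o'.z = σ ∘ o.z
  a : A.crd o'.a = σ ∘ A.crd o.a
  θ : ∀ j, o'.θ j = σ ∘ o.θ j

omit [Fintype ι] [DecidableEq ι] [Fintype κ] [DecidableEq κ]

/-- Positivity descends along extensions of the base. -/
def S_DESC : Prop := ∀ (ι κ : Type) [Fintype ι] [DecidableEq ι] [Fintype κ] [DecidableEq κ]
  (o : Ob ι κ g) (k₁ k'' : Subfield ℂ) (m : ι → ℕ), o.k ≤ k₁ → o.k' ≤ k'' →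
    Free (o.k : Set ℂ) k₁ (o.k' ∪ o.E ∪ pt A o.z o.a) →
    Pos A { o with k := k₁, E := acl (k₁ ∪ o.E), k' := k'' } m → Pos A o m

/-- Positivity ascends along free extensions of the base. -/
def S_ASC : Prop := ∀ (ι κ : Type) [Fintype ι] [DecidableEq ι] [Fintype κ] [DecidableEq κ]
  (o : Ob ι κ g) (k'' : Subfield ℂ) (m : ι → ℕ), IsOb A o → o.k' ≤ k'' →
    IsOb A { o with k' := k'' } → Pos A o m → Pos A { o with k' := k'' } m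

/-- Objects and positivity are invariant under automorphisms. -/
def S_AUT : Prop := ∀ (ι κ : Type) [Fintype ι] [DecidableEq ι] [Fintype κ] [DecidableEq κ]
  (o o' : Ob ι κ g) (σ : ℂ ≃+* ℂ), Ob.Cj A σ o o' → IsOb A o →
    IsOb A o' ∧ ∀ m, Pos A o m → Pos A o' m

/-- States are invariant under automorphisms that fix the field `k'`. -/
def S_AUTW : Prop := ∀ (ι κ : Type) [Fintype ι] [DecidableEq ι] [Fintype κ] [DecidableEq κ]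
  (x : Cx ι κ g) (o' : Ob ι κ g) (σ : ℂ ≃+* ℂ) (B₀ : ℕ) (w : Fr ι) (s : ι → ℝ), IsCx A x →
    (∀ y ∈ x.k', σ y = y) → Ob.Cj A σ o' x.toOb → WS A { x with toOb := o' } B₀ w →
    w.Rad x.τ s → ∃ w', WS A x B₀ w' ∧ w'.Rad x.τ s

def S_NORM : Prop := ∀ (ι κ : Type) [Fintype ι] [DecidableEq ι] [Fintype κ] [DecidableEq κ]
  (x : Cx ι κ g) (B₀ : ℕ) (w : Fr ι) (s : ι → ℝ), WS A x B₀ w → w.Rad x.τ s →
    ∃ w', WS A x B₀ w' ∧ w'.Nrm ∧ w'.Rad x.τ s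

def S_INIT : Prop := ∀ (ι κ : Type) [Fintype ι] [DecidableEq ι] [Fintype κ] [DecidableEq κ]
  (x : Cx ι κ g), IsCx A x → Init A x →
    ∃ (B₀ : ℕ) (s : ℝ) (w : Fr ι), WS A x B₀ w ∧ w.Rad x.τ fun _ => s

def S_LIM : Prop := ∀ (ι κ : Type) [Fintype ι] [DecidableEq ι] [Fintype κ] [DecidableEq κ]
  (x : Cx ι κ g) (B₀ : ℕ) (s : ℝ), IsCx A x →
    (∀ t < s, ∃ w, WS A x B₀ w ∧ w.Rad x.τ fun _ => t) → ∃ w, WS A x B₀ w ∧ w.Rad x.τ fun _ => s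

def S_FIN : Prop := ∀ (ι κ : Type) [Fintype ι] [DecidableEq ι] [Fintype κ] [DecidableEq κ]
  (x : Cx ι κ g) (B₀ : ℕ) (w : Fr ι) (s : ι → ℝ), IsCx A x → WS A x B₀ w → w.Rad x.τ s →
    (∀ j, (B₀ : ℝ) < s j) → FinOut A x

/-- Every configuration has a residue object. -/
def S_RES : Prop := ∀ (ι κ : Type) [Fintype ι] [DecidableEq ι] [Fintype κ] [DecidableEq κ]
  (x : Cx ι κ g) (B₀ : ℕ) (d : Cd ι κ g), IsCx A x → CC A x B₀ d → ∃ σ, ResOk A x d σ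

def S_CC : Prop := ∀ (ι κ : Type) [Fintype ι] [DecidableEq ι] [Fintype κ] [DecidableEq κ]
  (x : Cx ι κ g) (B₀ : ℕ) (w : Fr ι) (s : ι → ℝ), IsCx A x → WS A x B₀ w → w.Nrm → w.Rad x.τ s →
    ∃ d : Cd ι κ g, CC A x B₀ d ∧ d.Rad x.τ s

def S_EXP : Prop := ∀ (ι κ : Type) [Fintype ι] [DecidableEq ι] [Fintype κ] [DecidableEq κ]
  (x : Cx ι κ g) (B₀ : ℕ) (d : Cd ι κ g) (s : ι → ℝ) (σ : ℂ ≃+* ℂ) (m : ι → ℕ), IsCx A x →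
    CC A x B₀ d → d.Rad x.τ s → ResOk A x d σ → Pos A (d.res x σ) m →
    ∃ q : ℕ, 0 < q ∧ ∃ w, WS A x B₀ w ∧ w.Rad x.τ fun j => s j + m j / q

def S_GROW : Prop := ∀ (ι κ : Type) [Fintype ι] [DecidableEq ι] [Fintype κ] [DecidableEq κ]
  (x : Cx ι κ g), IsCx A x → Init A x →
    (∀ B₀ d σ, CC A x B₀ d → ResOk A x d σ → POS A (d.res x σ)) → FinOut A x

def S_GAIN : Prop := ∀ (ι κ : Type) [Fintype ι] [DecidableEq ι] [Fintype κ] [DecidableEq κ]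
  (x : Cx ι κ g) (f₀ : MvPolynomial ι ℂ) (h : ℕ) (ξ : Fin h → Matrix ι ι ℂ × (ι → ℂ)) (B₀ : ℕ)
  (d : Cd ι κ g) (σ : ℂ ≃+* ℂ), IsCx A x → x.f = MvPolynomial.C x.τ * f₀ → Cf x.kt f₀ →
    trd (x.kt : Set ℂ) (pt A x.z x.a) ≤ finrank ℂ x.N + Fintype.card κ →
    LinearIndependent ℂ ξ → (∀ l, IsSym A x.toOb (ξ l).1 (ξ l).2) →
    (∀ l, (∀ i j, (ξ l).1 i j ∈ x.kt) ∧ ∀ i, (ξ l).2 i ∈ x.kt) →
    (∀ l (y : ι → ℂ), ∑ j, ((ξ l).1 *ᵥ y + (ξ l).2) j *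
      MvPolynomial.eval y (MvPolynomial.pderiv j f₀) = 0) →
    CC A x B₀ d → d.s = ∅ → ResOk A x d σ →
    (∀ o : Ob ι {i // i ∉ d.s} g, IsOb A o → HasSym A o (h + 1) → POS A o) → POS A (d.res x σ)

/-- Every object is positive. -/
def S_HGC : Prop := ∀ (ι κ : Type) [Fintype ι] [DecidableEq ι] [Fintype κ] [DecidableEq κ]
  (o : Ob ι κ g), IsOb A o → POS A o

end Pool.Agent.P.MP_f17f76_ag.Hgc
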