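import Mathlib

/-!
A maximum of finitely many integral affine functions on a divisible ordered group that is bounded
below has a minimum (Fourier-Motzkin elimination), in multiplicative form for valuations.
-/

namespace Pool.Agent.P.MP_f17f76_ag.E

open Set

namespace MinMax

variable {G : Type} [AddCommGroup G] [LinearOrder G] [IsOrderedAddMonoid G]

omit [LinearOrder G] [IsOrderedAddMonoid G] in
theorem roots (hd : ∀ n : ℕ, 0 < n → ∀ x : G, ∃ y, n • y = x) {I : Type} (a : I → ℤ) (r : I → G) :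
    ∃ y : I → G, ∀ i, a i ≠ 0 → a i • y i = r i := by
  refine (Classical.skolem (p := fun i y => a i ≠ 0 → a i • y = r i)).1 fun i => ?_
  by_cases h : a i = 0
  · exact ⟨0, fun h' => absurd h h'⟩
  obtain ⟨y, hy⟩ := hd (a i).natAbs (Int.natAbs_pos.2 h) (r i)
  rw [← natCast_zsmul] at hy
  rcases Int.natAbs_eq (a i) with e | e
  · exact ⟨y, fun _ => by rw [e, hy]⟩
  · exact ⟨-y, fun _ => by rw [e, neg_smul, smul_neg, neg_neg, hy]⟩

/-- First multiplier of the eliminated system. -/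
def al (x y : ℤ) : ℤ := if x = 0 then 1 else if 0 < x ∧ y < 0 then -y else 0

/-- Second multiplier of the eliminated system. -/
def be (x y : ℤ) : ℤ := if 0 < x ∧ y < 0 then x else 0

theorem anti {n : ℤ} (hn : n ≤ 0) {x y : G} (h : x ≤ y) : n • y ≤ n • x := by
  have := zsmul_le_zsmul_right (neg_nonneg.2 hn) h
  rwa [neg_smul, neg_smul, neg_le_neg_iff] at this

theorem step (hd : ∀ n : ℕ, 0 < n → ∀ x : G, ∃ y, n • y = x) {I : Type} [Fintype I] (a : I → ℤ)
    (r : I → G) : (∃ x, ∀ i, a i • x ≤ r i) ↔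
      ∀ i j, 0 ≤ al (a i) (a j) • r i + be (a i) (a j) • r j := by
  constructor
  · rintro ⟨x, hx⟩ i j
    have h1 : 0 ≤ al (a i) (a j) := by unfold al; split_ifs <;> omega
    have h2 : 0 ≤ be (a i) (a j) := by unfold be; split_ifs <;> omega
    have h3 : al (a i) (a j) * a i + be (a i) (a j) * a j = 0 := by
      unfold al be
      split_ifs with h h' h' <;> first | omega | ring
    refine le_trans (le_of_eq ?_) (add_le_add (zsmul_le_zsmul_right h1 (hx i))
      (zsmul_le_zsmul_right h2 (hx j)))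
    rw [smul_smul, smul_smul, ← add_smul, h3, zero_smul]
  intro h
  obtain ⟨y, hy⟩ := roots hd a r
  have h0 : ∀ i x, a i = 0 → a i • x ≤ r i := fun i x hi => by
    simpa [al, be, hi] using h i i
  by_cases hp : ∃ i, 0 < a i
  · obtain ⟨i, hi, hm⟩ := (toFinite {i | 0 < a i}).exists_minimalFor y _ hp
    refine ⟨y i, fun j => ?_⟩
    rcases lt_trichotomy (a j) 0 with hj | hj | hj
    · have h1 := h i j
      have hi : 0 < a i := hi
      rw [al, be, if_neg hi.ne', if_pos ⟨hi, hj⟩, if_pos ⟨hi, hj⟩, ← hy i hi.ne', ← hy j hj.ne,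
        smul_comm, ← smul_add] at h1
      have h2 := (zsmul_le_zsmul_iff_right hi).1 ((smul_zero (a i)).trans_le h1)
      rw [← hy j hj.ne]
      rwa [neg_smul, neg_add_eq_sub, sub_nonneg] at h2
    · exact h0 j _ hj
    · rw [← hy j hj.ne']
      exact zsmul_le_zsmul_right hj.le ((le_total _ _).elim id (hm hj))
  · obtain ⟨x, hx⟩ := (finite_range y).bddAbove
    refine ⟨x, fun j => ?_⟩
    by_cases hj : a j = 0
    · exact h0 j _ hj
    · rw [← hy j hj]
      exact anti (not_lt.1 fun h => hp ⟨j, h⟩) (hx ⟨j, rfl⟩)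

theorem fm {H : Type} [AddCommGroup H] (n : ℕ) :
    ∀ (I : Type) [Fintype I] (a : I → Fin n → ℤ) (e : I → ℤ) (d : I → H),
      ∃ (L : Type) (_ : Fintype L) (e' : L → ℤ) (d' : L → H), ∀ (G : Type) [AddCommGroup G]
        [LinearOrder G] [IsOrderedAddMonoid G] (f : H →+ G),
        (∀ n : ℕ, 0 < n → ∀ x : G, ∃ y, n • y = x) → ∀ t : G,
        (∃ x : Fin n → G, ∀ i, ∑ j, a i j • x j + e i • t ≤ f (d i)) ↔
          ∀ k, e' k • t ≤ f (d' k) := by
  induction n with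
  | zero => exact fun I _ a e d => ⟨I, inferInstance, e, d, fun _ _ _ _ _ _ t => by simp⟩
  | succ n ih =>
    intro I _ a e d
    obtain ⟨L, _, e', d', h⟩ := ih (I × I)
      (fun k j => al (a k.1 0) (a k.2 0) * a k.1 j.succ + be (a k.1 0) (a k.2 0) * a k.2 j.succ)
      (fun k => al (a k.1 0) (a k.2 0) * e k.1 + be (a k.1 0) (a k.2 0) * e k.2)
      (fun k => al (a k.1 0) (a k.2 0) • d k.1 + be (a k.1 0) (a k.2 0) • d k.2)
    refine ⟨L, inferInstance, e', d', fun G _ _ _ f hd t => Iff.trans ?_ (h G f hd t)⟩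
    rw [Fin.exists_fin_succ_pi, exists_comm]
    refine exists_congr fun x => ?_
    simp only [Fin.sum_univ_succ, Fin.cons_zero, Fin.cons_succ, add_assoc, ← le_sub_iff_add_le]
    rw [step hd, Prod.forall]
    refine forall₂_congr fun i j => ?_
    rw [← sub_nonneg (b := ∑ _, _)]
    refine iff_of_eq (congrArg _ ?_)
    simp only [add_smul, mul_smul, Finset.sum_add_distrib, ← Finset.smul_sum, smul_sub, smul_add,
      map_add, map_zsmul]
    abel

theorem least (hd : ∀ n : ℕ, 0 < n → ∀ x : G, ∃ y, n • y = x) {L : Type} [Fintype L] (e : L → ℤ)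
    (d : L → G) {s : G} (hs : ∀ k, e k • s ≤ d k) (hb : (∀ k, 0 ≤ e k) → ∀ t, s ≤ t) :
    ∃ m, (∀ k, e k • m ≤ d k) ∧ ∀ t, (∀ k, e k • t ≤ d k) → m ≤ t := by
  obtain ⟨y, hy⟩ := roots hd e d
  by_cases hp : ∃ i, e i < 0
  · obtain ⟨i, hi, hm⟩ := (toFinite {i | e i < 0}).exists_maximalFor y _ hp
    have hi : e i < 0 := hi
    have h1 : ∀ t, (∀ k, e k • t ≤ d k) → y i ≤ t := fun t ht => by
      have := ht i
      rw [← hy i hi.ne, ← neg_le_neg_iff, ← neg_smul, ← neg_smul] at this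
      exact (zsmul_le_zsmul_iff_right (neg_pos.2 hi)).1 this
    refine ⟨y i, fun k => ?_, h1⟩
    rcases lt_or_ge (e k) 0 with hk | hk
    · rw [← hy k hk.ne]
      exact anti hk.le ((le_total _ _).elim id (hm hk))
    · exact (zsmul_le_zsmul_right hk (h1 s hs)).trans (hs k)
  · exact ⟨s, hs, fun t _ => hb (fun k => not_lt.1 fun h => hp ⟨k, h⟩) t⟩

theorem add {H : Type} [AddCommGroup H] [LinearOrder H] [IsOrderedAddMonoid H] (f : H →+ G)
    (hf : StrictMono f) (hd : ∀ n : ℕ, 0 < n → ∀ x : G, ∃ y, n • y = x)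
    (hd' : ∀ n : ℕ, 0 < n → ∀ x : H, ∃ y, n • y = x) {I ι : Type} [Fintype I] [Fintype ι]
    (a : I → ι → ℤ) (c : I → H) {b : G} (h : ∀ x : ι → G, ∃ i, b ≤ f (c i) + ∑ j, a i j • x j) :
    ∃ q : ι → H, ∀ (x : ι → H) i, ∃ i', c i + ∑ j, a i j • q j ≤ c i' + ∑ j, a i' j • x j := by
  let σ := Fintype.equivFin ι
  obtain ⟨L, _, e, d, hL⟩ := fm _ I (fun i j => a i (σ.symm j)) (fun _ => -1) fun i => -c i
  have key : ∀ (G : Type) [AddCommGroup G] [LinearOrder G] [IsOrderedAddMonoid G] (f : H →+ G),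
      (∀ n : ℕ, 0 < n → ∀ x : G, ∃ y, n • y = x) → ∀ t, (∀ k, e k • t ≤ f (d k)) ↔
        ∃ x : ι → G, ∀ i, f (c i) + ∑ j, a i j • x j ≤ t := fun G _ _ _ f hd t => by
    rw [← hL G f hd, ← (Equiv.arrowCongr σ (Equiv.refl G)).exists_congr_right]
    refine exists_congr fun x => forall_congr' fun i => ?_
    rw [← σ.sum_comp, neg_one_smul, ← sub_eq_add_neg, sub_le_iff_le_add, map_neg,
      le_neg_add_iff_add_le]
    simp
  have k1 := key H (.id H) hd'
  have hmax : ∀ x : ι → H, ∃ i', ∀ i, c i + ∑ j, a i j • x j ≤ c i' + ∑ j, a i' j • x j :=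
    fun x => have : Nonempty I := ⟨(h 0).choose⟩; Finite.exists_max _
  obtain ⟨s, hs⟩ : ∃ s, ∀ k, e k • s ≤ d k := ⟨_, (k1 _).2 ⟨0, (hmax 0).choose_spec⟩⟩
  obtain ⟨m, h1, h2⟩ := least hd' e d hs fun he t => not_lt.1 fun ht => by
    have h3 : min b (f s) - (f s - f t) < min b (f s) := sub_lt_self _ (sub_pos.2 (hf ht))
    obtain ⟨x, hx⟩ := (key G f hd _).1 fun k =>
      (zsmul_le_zsmul_right (he k) (h3.le.trans (min_le_right _ _))).trans
        ((map_zsmul f _ _).symm.trans_le (hf.monotone (hs k)))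
    exact (h3.trans_le (min_le_left _ _)).not_ge ((h x).choose_spec.trans (hx _))
  obtain ⟨q, hq⟩ := (k1 m).1 h1
  exact ⟨q, fun x i => (hmax x).imp fun i' hi' => (hq i).trans (h2 _ ((k1 _).2 ⟨x, hi'⟩))⟩

variable {K Γ : Type} [Field K] [LinearOrderedCommGroupWithZero Γ] (v : Valuation K Γ)

/-- The group of values of a subfield. -/
def Gr (S : Subfield K) : Subgroup Γˣ where
  carrier := {u | ∃ x ∈ S, v x = u}
  mul_mem' := fun ⟨x, h, e⟩ ⟨y, h', e'⟩ => ⟨x * y, mul_mem h h', by simp [e, e']⟩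
  one_mem' := ⟨1, one_mem _, by simp⟩
  inv_mem' := fun ⟨x, h, e⟩ => ⟨x⁻¹, inv_mem h, by simp [e]⟩

variable {v} {S : Subfield K}

/-- The value of an element of the value group. -/
def val (x : Additive (Gr v S)) : Γ := ((Units.coeHom Γ).comp (Gr v S).subtype) x.toMul

theorem val_le {x y : Additive (Gr v S)} : x ≤ y ↔ val x ≤ val y := Iff.rfl

theorem val_sur (x : Additive (Gr v S)) : ∃ p, (p ∈ S ∧ p ≠ 0) ∧ v p = val x := by
  obtain ⟨p, h, e⟩ := x.toMul.2
  exact ⟨p, ⟨h, fun h0 => Units.ne_zero _ (e.symm.trans (by simp [h0]))⟩, e⟩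

theorem val_ex {p : K} (h : p ∈ S) (h0 : p ≠ 0) : ∃ x : Additive (Gr v S), v p = val x :=
  ⟨.ofMul ⟨Units.mk0 (v p) (by simpa using h0), p, h, rfl⟩, rfl⟩

theorem val_z (n : ℤ) (x : Additive (Gr v S)) : val (n • x) = val x ^ n :=
  map_zpow ((Units.coeHom Γ).comp (Gr v S).subtype) _ n

theorem val_ev {ι : Type} [Fintype ι] (a : ι → ℤ) {c : K} {p : ι → K} {x : Additive (Gr v S)}
    {y : ι → Additive (Gr v S)} (hc : v c = val x) (hp : ∀ j, v (p j) = val (y j)) :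
    v (c * ∏ j, p j ^ a j) = val (x + ∑ j, a j • y j) := by
  have : val (∑ j, a j • y j) = ∏ j, val (a j • y j) :=
    (congrArg _ (toMul_sum _ _)).trans (map_prod ((Units.coeHom Γ).comp (Gr v S).subtype) _ _)
  change _ = val x * val (∑ j, a j • y j)
  simp [this, val_z, hc, hp]

theorem val_div (h : ∀ p ∈ S, ∀ n : ℕ, 0 < n → ∃ y ∈ S, y ^ n = p) (n : ℕ) (hn : 0 < n)
    (x : Additive (Gr v S)) : ∃ y, n • y = x := by
  obtain ⟨p, ⟨h1, h2⟩, e⟩ := val_sur x
  obtain ⟨y, hy, rfl⟩ := h p h1 n hn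
  obtain ⟨z, hz⟩ := val_ex (v := v) hy fun h => h2 (by rw [h, zero_pow hn.ne'])
  have : val (n • z) = val x := by rw [← natCast_zsmul, val_z, ← e, zpow_natCast, map_pow, hz]
  exact ⟨z, le_antisymm (val_le.2 this.le) (val_le.2 this.ge)⟩

end MinMax

open MinMax in
theorem minmax {K Γ I ι : Type} [Field K] [LinearOrderedCommGroupWithZero Γ] [Fintype I]
    [Fintype ι] (v : Valuation K Γ) (F : Subfield K) [IsAlgClosed F] (a : I → ι → ℤ) (c : I → K)
    (hc : ∀ i, c i ∈ F) [IsAlgClosed K] {b : K} (hb : b ≠ 0)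
    (h : ∀ p : ι → K, (∀ j, p j ≠ 0) → ∃ i, v b ≤ v (c i * ∏ j, p j ^ a i j)) :
    ∃ q : ι → K, (∀ j, q j ∈ F ∧ q j ≠ 0) ∧ ∀ p : ι → K, (∀ j, p j ∈ F ∧ p j ≠ 0) → ∀ i, ∃ i',
      v (c i * ∏ j, q j ^ a i j) ≤ v (c i' * ∏ j, p j ^ a i' j) := by
  classical
  choose x hx using fun i : {i // c i ≠ 0} => val_ex (v := v) (hc i) i.2
  obtain ⟨β, hβ⟩ := val_ex (v := v) (Subfield.mem_top b) hb
  have hle : Gr v F ≤ Gr v ⊤ := fun _ ⟨p, _, e⟩ => ⟨p, trivial, e⟩
  obtain ⟨q, hq⟩ := MinMax.add (MonoidHom.toAdditive (Subgroup.inclusion hle)) (fun _ _ h => h)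
    (val_div fun p _ n hn => (IsAlgClosed.exists_pow_nat_eq p hn).imp fun _ e => ⟨trivial, e⟩)
    (val_div fun p hp n hn => by
      obtain ⟨y, hy⟩ := IsAlgClosed.exists_pow_nat_eq (⟨p, hp⟩ : F) hn
      exact ⟨y, y.2, congrArg Subtype.val hy⟩)
    (fun i : {i // c i ≠ 0} => a i) x (b := β) fun y => by
      choose p h1 h2 using fun j => val_sur (y j)
      obtain ⟨i, hi⟩ := h p fun j => (h1 j).2
      have hci : c i ≠ 0 := fun h0 => by simp [h0, hb] at hi
      exact ⟨⟨i, hci⟩, val_le.2 (hβ.symm.trans_le (hi.trans_eq (val_ev _ (hx ⟨i, hci⟩) h2)))⟩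
  choose p h1 h2 using fun j => val_sur (q j)
  refine ⟨p, h1, fun r hr i => ?_⟩
  by_cases hi : c i = 0
  · exact ⟨i, by simp [hi]⟩
  choose y hy using fun j => val_ex (v := v) (hr j).1 (hr j).2
  obtain ⟨i', hi'⟩ := hq y ⟨i, hi⟩
  exact ⟨i', (val_ev _ (hx ⟨i, hi⟩) h2).trans_le
    ((val_le.1 hi').trans_eq (val_ev _ (hx i') hy).symm)⟩

end Pool.Agent.P.MP_f17f76_ag.E
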