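import Mathlib

/-! The largest value of the maximal minors of a matrix over a valued field. -/

namespace Pool.Agent.P.MP_f17f76_ag.E

open Set Module Matrix

set_option linter.unusedSectionVars false

variable {K Γ ι κ L : Type} [Field K] [LinearOrderedCommGroupWithZero Γ] [Fintype ι] [Fintype κ]
  [Fintype L] [DecidableEq L] (v : Valuation K Γ)

/-- The largest value of a maximal minor. -/
noncomputable def mx (A : Matrix L ι K) : Γ :=
  open Classical in Finset.univ.sup fun f : L → ι => v (A.submatrix id f).det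

theorem det_mul_sum (A : Matrix L ι K) (B : Matrix ι L K) :
    (A * B).det = open Classical in
      ∑ f : L → ι, (∏ l, B (f l) l) * (A.submatrix id f).det := by
  simp only [det_apply', mul_apply, Finset.prod_univ_sum, Finset.mul_sum, Fintype.piFinset_univ]
  rw [Finset.sum_comm]
  refine Finset.sum_congr rfl fun f _ => Finset.sum_congr rfl fun σ _ => ?_
  simp only [Finset.prod_mul_distrib, submatrix_apply, id]
  ring

theorem le_mx (A : Matrix L ι K) (f : L → ι) : v (A.submatrix id f).det ≤ mx v A :=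
  Finset.le_sup (f := fun f : L → ι => v (A.submatrix id f).det) (Finset.mem_univ f)

theorem mx_le {A : Matrix L ι K} {b : Γ} (h : ∀ f : L → ι, v (A.submatrix id f).det ≤ b) :
    mx v A ≤ b := Finset.sup_le fun f _ => h f

namespace Minor

theorem attained (A : Matrix L ι K) :
    mx v A = 0 ∨ ∃ f : L → ι, v (A.submatrix id f).det = mx v A := by
  rcases isEmpty_or_nonempty (L → ι) with h | h
  · exact Or.inl (le_antisymm (mx_le v fun f => h.elim f) zero_le)
  · obtain ⟨f, -, hf⟩ := Finset.exists_mem_eq_sup Finset.univ Finset.univ_nonempty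
      fun f : L → ι => v (A.submatrix id f).det
    exact Or.inr ⟨f, hf.symm⟩

theorem cols_mul {μ : Type} (A : Matrix μ ι K) (H : Matrix ι κ K) (f : L → κ) :
    (A * H).submatrix id f = A * H.submatrix id f := by
  ext a b
  simp [mul_apply]

theorem v_prod_le {s : Finset L} {x : L → K} (h : ∀ l, v (x l) ≤ 1) : v (∏ l ∈ s, x l) ≤ 1 := by
  rw [map_prod]
  exact Finset.prod_le_one' fun l _ => h l

end Minor

open Minor

theorem mx_left (C : Matrix L L K) (A : Matrix L ι K) : mx v (C * A) = v C.det * mx v A := by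
  have h : ∀ f : L → ι, v ((C * A).submatrix id f).det = v C.det * v (A.submatrix id f).det :=
    fun f => by rw [cols_mul, det_mul, map_mul]
  refine le_antisymm (mx_le v fun f => ?_) ?_
  · rw [h]
    exact mul_le_mul_right (le_mx v A f) _
  · rcases attained v A with h0 | ⟨f, hf⟩
    · rw [h0, mul_zero]
      exact zero_le
    · rw [← hf, ← h]
      exact le_mx v _ f

theorem mx_le_one {A : Matrix L ι K} (h : ∀ l i, v (A l i) ≤ 1) : mx v A ≤ 1 :=
  mx_le v fun f => by
    rw [det_apply']
    refine v.map_sum_le fun σ _ => ?_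
    rw [map_mul]
    refine mul_le_one' ?_ (v_prod_le v fun l => h _ _)
    rcases Int.units_eq_one_or (Equiv.Perm.sign σ) with e | e <;> simp [e]

theorem mx_mul_le (A : Matrix L ι K) {H : Matrix ι κ K} (h : ∀ i j, v (H i j) ≤ 1) :
    mx v (A * H) ≤ mx v A :=
  mx_le v fun f => by
    rw [cols_mul, det_mul_sum]
    refine v.map_sum_le fun g _ => ?_
    rw [map_mul]
    exact (mul_le_of_le_one_left' (v_prod_le v fun l => h _ _)).trans (le_mx v A g)

theorem exists_latt {A : Matrix L ι K} (h : mx v A ≠ 0) :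
    ∃ f : L → ι, v (A.submatrix id f).det = mx v A ∧
      ∀ l i, v (((A.submatrix id f)⁻¹ * A) l i) ≤ 1 := by
  obtain ⟨f, hf⟩ := (attained v A).resolve_left h
  refine ⟨f, hf, fun l i => ?_⟩
  have h0 : (A.submatrix id f).det ≠ 0 := fun e => h (by rw [← hf, e, map_zero])
  have h1 := congrFun (det_smul_inv_mulVec_eq_cramer (A.submatrix id f) (fun a => A a i)
    (isUnit_iff_ne_zero.2 h0)) l
  have h2 : (A.submatrix id f).updateCol l (fun a => A a i) =
      A.submatrix id (Function.update f l i) := by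
    ext a b
    by_cases e : b = l
    · subst e
      simp
    · simp [e]
  rw [cramer_apply, h2] at h1
  have h3 : v (A.submatrix id f).det * v (((A.submatrix id f)⁻¹ * A) l i) ≤
      v (A.submatrix id f).det * 1 := by
    rw [← map_mul, mul_one, hf]
    exact (congrArg v h1).trans_le (le_mx v A _)
  exact le_of_mul_le_mul_left h3 (zero_lt_iff.2 (hf ▸ h))

theorem v_det_mul_le (A : Matrix L ι K) (B : Matrix ι L K) :
    v (A * B).det ≤ mx v A * mx v Bᵀ := by
  by_cases h : mx v A = 0
  · rw [det_mul_sum]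
    refine v.map_sum_le fun g _ => ?_
    rw [map_mul, le_antisymm ((le_mx v A g).trans h.le) zero_le, mul_zero]
    exact zero_le
  obtain ⟨f, hf, hl⟩ := exists_latt v h
  have h0 : (A.submatrix id f).det ≠ 0 := fun e => h (by rw [← hf, e, map_zero])
  have e : A * B = A.submatrix id f * ((A.submatrix id f)⁻¹ * A * B) := by
    rw [← Matrix.mul_assoc, mul_nonsing_inv_cancel_left _ _ (isUnit_iff_ne_zero.2 h0)]
  rw [e, det_mul, map_mul, hf, ← det_transpose, transpose_mul]
  refine mul_le_mul_right ?_ _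
  exact (le_mx v (Bᵀ * ((A.submatrix id f)⁻¹ * A)ᵀ) id).trans (mx_mul_le v _ fun i j => hl j i)

theorem finite_val (k : Subfield K) (hk : ∀ x ∈ k, v x ≤ 1) (s : Finset K) :
    (v '' (Submodule.span k (s : Set K) : Set K)).Finite := by
  classical
  have h1 : ∀ c : k, c ≠ 0 → v c = 1 := fun c hc => by
    have h0 : (c : K) ≠ 0 := fun e => hc (Subtype.ext e)
    have h2 := hk _ (k.inv_mem c.2)
    rw [map_inv₀, inv_le_one₀ (zero_lt_iff.2 ((map_ne_zero v).2 h0))] at h2
    exact le_antisymm (hk _ c.2) h2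
  induction s using Finset.induction_on with
  | empty => simp
  | insert a s _ ih =>
    have hT : ({γ | ∃ w ∈ Submodule.span k (s : Set K), γ = v (a + w)} \
        v '' (Submodule.span k (s : Set K) : Set K)).Subsingleton := by
      rintro _ ⟨⟨w1, m1, rfl⟩, n1⟩ _ ⟨⟨w2, m2, rfl⟩, n2⟩
      by_contra hne
      have h2 := v.map_add_of_distinct_val (x := a + w1) (y := -(a + w2)) (by rwa [v.map_neg])
      rw [v.map_neg, show a + w1 + -(a + w2) = w1 - w2 by ring] at h2
      rcases max_choice (v (a + w1)) (v (a + w2)) with e | e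
      · exact n1 ⟨_, sub_mem m1 m2, h2.trans e⟩
      · exact n2 ⟨_, sub_mem m1 m2, h2.trans e⟩
    refine (ih.union hT.finite).subset ?_
    rintro _ ⟨x, hx, rfl⟩
    rw [Finset.coe_insert, SetLike.mem_coe, Submodule.mem_span_insert] at hx
    obtain ⟨c, w, hw, rfl⟩ := hx
    by_cases hc : c = 0
    · exact Or.inl ⟨w, hw, by simp [hc]⟩
    · rw [union_sdiff_self]
      refine Or.inr ⟨c⁻¹ • w, Submodule.smul_mem _ _ hw, ?_⟩
      rw [show c • a + w = c • (a + c⁻¹ • w) by rw [smul_add, smul_inv_smul₀ hc],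
        Subfield.smul_def, smul_eq_mul, map_mul, h1 c hc, one_mul]

theorem finite_val_minor [DecidableEq ι] (k : Subfield K) (hk : ∀ x ∈ k, v x ≤ 1)
    (A : Matrix L ι K) :
    {γ | ∃ (H : Matrix ι κ K) (f : L → κ), (∀ i j, H i j ∈ k) ∧
      γ = v ((A * H).submatrix id f).det}.Finite := by
  classical
  refine (finite_val v k hk
    (Finset.univ.image fun g : L → ι => (A.submatrix id g).det)).subset ?_
  rintro _ ⟨H, f, hH, rfl⟩
  refine ⟨_, ?_, rfl⟩
  rw [cols_mul, det_mul_sum]
  refine Submodule.sum_mem _ fun g _ => ?_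
  exact Submodule.smul_mem _ (⟨∏ l, H (g l) (f l), prod_mem fun l _ => hH _ _⟩ : k)
    (Submodule.subset_span (Finset.mem_coe.2 (Finset.mem_image_of_mem _ (Finset.mem_univ g))))

end Pool.Agent.P.MP_f17f76_ag.E
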