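import Pool.Agent.P.MP_f17f76_ag.E.Fam3
import Pool.Agent.P.MP_f17f76_ag.E.Plc
import Pool.Agent.P.MP_f17f76_ag.E.Minor
import Pool.Agent.P.MP_f17f76_ag.E.MinMax

/-!
Adapted rows at a place, and minima of maxima of monomials.
-/

namespace Pool.Agent.P.MP_f17f76_ag.E

open Set Module Matrix

variable {K R : Type} [Field K] [Field R] {ι κ L : Type}

/-- Coefficients with respect to integral vectors with independent residues are integral. -/
theorem Plc.int_of_li [Fintype L] {P : Plc K R} {w : L → ι → K} (hw : ∀ l i, P.v (w l i) ≤ 1)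
    (hi : LinearIndependent R fun l i => P.r (w l i)) {c : L → K}
    (h : ∀ i, P.v (∑ l, c l * w l i) ≤ 1) (l : L) : P.v (c l) ≤ 1 := by
  obtain ⟨l₀, -, h0⟩ := Finset.univ.exists_max_image (fun l => P.v (c l)) ⟨l, Finset.mem_univ l⟩
  refine (h0 l (Finset.mem_univ l)).trans (not_lt.1 fun h1 => ?_)
  have h2 : c l₀ ≠ 0 := fun e => by simp [e] at h1
  have h3 : ∀ l, P.v (c l / c l₀) ≤ 1 := fun l => (P.v_div_le_one h2).2 (h0 l (Finset.mem_univ l))
  have := Fintype.linearIndependent_iff.1 hi (fun l => P.r (c l / c l₀)) (funext fun i => by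
    have e : ∑ l, c l / c l₀ * w l i = (∑ l, c l * w l i) / c l₀ := by
      simp only [Finset.sum_div, div_mul_eq_mul_div]
    simp only [Finset.sum_apply, Pi.smul_apply, smul_eq_mul, ← Plc.r_mul (h3 _) (hw _ _)]
    rw [← Plc.r_sum fun l _ => Plc.v_mul_le (h3 l) (hw l i), e]
    exact Plc.r_of_lt ((P.v_div_lt_one h2).2 ((h i).trans_lt h1))) l₀
  simp [div_self h2] at this

theorem Plc.v_mat_mul [Fintype κ] {P : Plc K R} {X : Matrix L κ K} {H : Matrix κ ι K}
    (hX : ∀ l j, P.v (X l j) ≤ 1) (hH : ∀ j i, P.v (H j i) ≤ 1) :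
    (∀ l i, P.v ((X * H) l i) ≤ 1) ∧ (X * H).map P.r = X.map P.r * H.map P.r :=
  ⟨fun l i => P.v.map_sum_le fun j _ => Plc.v_mul_le (hX l j) (hH j i), by
    ext l i
    simp only [map_apply, mul_apply]
    rw [Plc.r_sum fun j _ => Plc.v_mul_le (hX l j) (hH j i)]
    exact Finset.sum_congr rfl fun j _ => Plc.r_mul (hX l j) (hH j i)⟩

section adapt

variable [Fintype ι] [DecidableEq ι] {P : Plc K K} {F F' : Subfield K} {N : Submodule K (ι → K)}
  {r : Setoid ι} {g : Matrix ι ι K} {p x y : ι → K}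

/-- Adapted rows, rescaled, are integral and their residues are the parts of top weight. -/
theorem Adapt.int_res [Fintype L] {n : L → ι → K} {pv : L → ι}
    (h : Adapt r g (fun i => P.v (p i)) N n fun l => P.v (p (pv l))) (hF : P.IdOn F)
    (hn : ∀ l i, n l i ∈ F) (hg : ∀ i j, g i j ∈ F) (hp : ∀ i, p i ≠ 0)
    (hq : ∀ i j, P.v (p i) = P.v (p j) → p i = p j) (l : L) (i : ι) :
    P.v ((((p (pv l))⁻¹ • n l) ᵥ* (g * diagonal p)) i) ≤ 1 ∧
      P.r ((((p (pv l))⁻¹ • n l) ᵥ* (g * diagonal p)) i) =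
        cut (fun j => P.v (p j) = P.v (p (pv l))) (n l ᵥ* g) i := by
  have e : (((p (pv l))⁻¹ • n l) ᵥ* (g * diagonal p)) i = (n l ᵥ* g) i * (p i / p (pv l)) := by
    rw [smul_vecMul, ← vecMul_vecMul, Pi.smul_apply, vecMul_diagonal, smul_eq_mul]
    ring
  have h1 := hF _ (vecMul_mem (hn l) hg i)
  rw [e]
  rcases lt_trichotomy (P.v (p i)) (P.v (p (pv l))) with h2 | h2 | h2
  · have := Plc.v_mul_lt h1.1 ((P.v_div_lt_one (hp _)).2 h2)
    exact ⟨this.le, (Plc.r_of_lt this).trans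
      (cut_neg (p := fun j => P.v (p j) = P.v (p (pv l))) h2.ne).symm⟩
  · rw [cut_pos (p := fun j => P.v (p j) = P.v (p (pv l))) h2, hq _ _ h2, div_self (hp _), mul_one]
    exact h1
  · rw [cut_neg (p := fun j => P.v (p j) = P.v (p (pv l))) h2.ne', h.low l i h2]
    simp

/-- The residue of an integral vector of `N g p` lies in the degeneration. -/
theorem Plc.r_mem_ini (hF : P.IdOn F) (hN : Ov F N) (hg : GrM F ⊤ g) (hp : ∀ i, p i ≠ 0)
    (hq : ∀ i j, P.v (p i) = P.v (p j) → p i = p j) (hx : x ∈ N)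
    (h : ∀ i, P.v ((x ᵥ* (g * diagonal p)) i) ≤ 1) :
    (fun i => P.r ((x ᵥ* (g * diagonal p)) i)) ∈ ini (fun i => P.v (p i)) (act g N) := by
  obtain ⟨n, pv, h1, h2, -⟩ := exists_adapt (Fintype.card_fin _) hN (graded_top N) hg
    fun i => P.v (p i)
  have h3 := h1.int_res hF h2 hg.mem hp hq
  obtain ⟨c, rfl⟩ := h1.exists_coef hx
  have e : ∀ i, ((∑ l, c l • n l) ᵥ* (g * diagonal p)) i =
      ∑ l, c l * p (pv l) * (((p (pv l))⁻¹ • n l) ᵥ* (g * diagonal p)) i := fun i => by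
    simp only [sum_vecMul, smul_vecMul, Finset.sum_apply, Pi.smul_apply, smul_eq_mul, mul_assoc,
      mul_inv_cancel_left₀ (hp _)]
  simp only [e] at h ⊢
  have h4 := Plc.int_of_li (fun l i => (h3 l i).1) (by simpa only [(h3 _ _).2] using h1.ind) h
  have e' : (fun i => P.r (∑ l, c l * p (pv l) * (((p (pv l))⁻¹ • n l) ᵥ* (g * diagonal p)) i)) =
      ∑ l, P.r (c l * p (pv l)) • cut (fun j => P.v (p j) = P.v (p (pv l))) (n l ᵥ* g) := by
    funext i
    rw [Plc.r_sum fun l _ => Plc.v_mul_le (h4 l) (h3 l i).1, Finset.sum_apply]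
    exact Finset.sum_congr rfl fun l _ => by rw [Plc.r_mul (h4 l) (h3 l i).1, (h3 l i).2]; rfl
  rw [e', ← h1.span_top]
  exact sum_mem fun l _ => Submodule.smul_mem _ _ (Submodule.subset_span ⟨l, rfl⟩)

/-- A vector of the degeneration whose entries are residues is the residue of an integral vector. -/
theorem Plc.exists_r_eq (hF : P.IdOn F) (hN : Ov F N) (hg : GrM F ⊤ g) (hp : ∀ i, p i ≠ 0)
    (hq : ∀ i j, P.v (p i) = P.v (p j) → p i = p j) (hF' : F ≤ F') (hp' : ∀ i, p i ∈ F')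
    (hy : y ∈ ini (fun i => P.v (p i)) (act g N)) (hy' : ∀ i, y i ∈ P.res F') :
    ∃ x ∈ N, (∀ i, x i ∈ F') ∧ ∀ i, P.v ((x ᵥ* (g * diagonal p)) i) ≤ 1 ∧
      P.r ((x ᵥ* (g * diagonal p)) i) = y i := by
  obtain ⟨n, pv, h1, h2, h5⟩ := exists_adapt (Fintype.card_fin _) hN (graded_top N) hg
    fun i => P.v (p i)
  have h3 := h1.int_res hF h2 hg.mem hp hq
  rw [← h1.span_top] at hy
  obtain ⟨a, rfl⟩ := (Submodule.mem_span_range_iff_exists_fun K).1 hy
  have h6 : ∀ l, a l ∈ P.res F' := fun l => by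
    have := hy' (pv l)
    rw [Finset.sum_apply, Finset.sum_eq_single l (fun l' _ e => by
      simp [cut_apply, h5, e]) (by simp)] at this
    simpa [cut_apply, h5] using this
  choose c h7 h8 h9 using fun l => Plc.mem_res.1 (h6 l)
  refine ⟨∑ l, c l • (p (pv l))⁻¹ • n l, sum_mem fun l _ => N.smul_mem _ (N.smul_mem _ (h1.mem l)),
    fun i => ?_, fun i => ?_⟩
  · rw [Finset.sum_apply]
    exact sum_mem fun l _ => mul_mem (h7 l) (mul_mem (inv_mem (hp' _)) (hF' (h2 l i)))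
  · rw [sum_vecMul, Finset.sum_apply, Finset.sum_apply]
    simp only [smul_vecMul (c _), Pi.smul_apply (c _), smul_eq_mul]
    refine ⟨P.v.map_sum_le fun l _ => Plc.v_mul_le (h8 l) (h3 l i).1, ?_⟩
    rw [Plc.r_sum fun l _ => Plc.v_mul_le (h8 l) (h3 l i).1]
    exact Finset.sum_congr rfl fun l _ => by rw [Plc.r_mul (h8 l) (h3 l i).1, (h3 l i).2, h9]; rfl

end adapt

/-! ### maxima of monomials -/

section ms

variable {Γ G : Type} [LinearOrderedCommGroupWithZero Γ] [Fintype ι] (v : Valuation K Γ)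
  (F : Subfield K)

/-- `Ψ g p` is a maximum of finitely many monomials in `p`, of finitely many types in `g`. -/
def MS (Ψ : G → (ι → K) → Γ) : Prop :=
  ∃ (I : Type) (_ : Finite I) (a : I → ι → ℤ) (c : I → G → K), (∀ t g, c t g ∈ F) ∧
    (∀ t, (range fun g => v (c t g)).Finite) ∧ ∀ g p, (∀ j, p j ≠ 0) → ∀ b,
      Ψ g p ≤ b ↔ ∀ t, v (c t g * ∏ j, p j ^ a t j) ≤ b

variable {v F} {Ψ Ψ' : G → (ι → K) → Γ}

theorem MS.att {I : Type} [Finite I] {x : Γ} {f : I → Γ} (h : ∀ b, x ≤ b ↔ ∀ t, f t ≤ b) :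
    x = 0 ∨ ∃ t, x ≤ f t := by
  rcases isEmpty_or_nonempty I with e | e
  · exact Or.inl (le_antisymm ((h 0).2 e.elim) zero_le)
  · obtain ⟨t, ht⟩ := Finite.exists_max f
    exact Or.inr ⟨t, (h _).2 ht⟩

theorem MS.coef {γ : G → Γ} (h : ∀ g, ∃ y ∈ F, γ g = v y) (hf : (range γ).Finite) :
    MS v F fun g (_ : ι → K) => γ g := by
  choose c h1 h2 using h
  exact ⟨Unit, inferInstance, 0, fun _ => c, fun _ => h1, fun _ => by simpa [← h2] using hf,
    fun g p _ b => by simp [h2]⟩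

theorem MS.var (j : ι) (e : ℤ) : MS v F fun (_ : G) (p : ι → K) => v (p j) ^ e := by
  classical
  refine ⟨Unit, inferInstance, fun _ => Pi.single j e, fun _ _ => 1, fun _ _ => F.one_mem,
    fun _ => finite_range_const, fun g p _ b => ?_⟩
  have : ∏ i, p i ^ (Pi.single j e : ι → ℤ) i = p j ^ e := by
    rw [Finset.prod_eq_single j (fun i _ h => by simp [h]) (by simp), Pi.single_eq_same]
  simp [this]

theorem MS.sup {J : Type} [Finite J] {Φ : J → G → (ι → K) → Γ} (hΦ : ∀ j, MS v F (Φ j))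
    (h : ∀ g p, (∀ j, p j ≠ 0) → ∀ b, Ψ g p ≤ b ↔ ∀ j, Φ j g p ≤ b) : MS v F Ψ := by
  choose I hI a c h1 h2 h3 using hΦ
  exact ⟨Σ j, I j, inferInstance, fun t => a t.1 t.2, fun t => c t.1 t.2, fun t => h1 t.1 t.2,
    fun t => h2 t.1 t.2, fun g p hp b => by simp only [h g p hp, h3 _ g p hp, Sigma.forall]⟩

theorem MS.mul (h : MS v F Ψ) (h' : MS v F Ψ') : MS v F fun g p => Ψ g p * Ψ' g p := by
  obtain ⟨I, hI, a, c, h1, h2, h3⟩ := h
  obtain ⟨I', hI', a', c', h1', h2', h3'⟩ := h'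
  refine ⟨I × I', inferInstance, fun t => a t.1 + a' t.2, fun t g => c t.1 g * c' t.2 g,
    fun t g => mul_mem (h1 _ _) (h1' _ _), fun t => ((h2 t.1).image2 (· * ·) (h2' t.2)).subset ?_,
    fun g p hp b => ?_⟩
  · rintro _ ⟨g, rfl⟩
    exact ⟨_, ⟨g, rfl⟩, _, ⟨g, rfl⟩, (map_mul _ _ _).symm⟩
  have e : ∀ t : I × I', v (c t.1 g * c' t.2 g * ∏ j, p j ^ (a t.1 + a' t.2) j) =
      v (c t.1 g * ∏ j, p j ^ a t.1 j) * v (c' t.2 g * ∏ j, p j ^ a' t.2 j) := fun t => by
    simp only [Pi.add_apply, zpow_add₀ (hp _), Finset.prod_mul_distrib, ← map_mul,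
      mul_mul_mul_comm]
  simp only [e]
  refine ⟨fun h t => (mul_le_mul' ((h3 g p hp _).1 le_rfl _) ((h3' g p hp _).1 le_rfl _)).trans h,
    fun h => ?_⟩
  rcases MS.att (h3 g p hp) with e1 | ⟨t, e1⟩
  · simp [e1]
  rcases MS.att (h3' g p hp) with e2 | ⟨t', e2⟩
  · simp [e2]
  exact (mul_le_mul' e1 e2).trans (h (t, t'))

theorem MS.one : MS v F fun (_ : G) (_ : ι → K) => 1 :=
  MS.coef (fun _ => ⟨1, F.one_mem, by simp⟩) finite_range_const

theorem MS.prod {J : Type} {Φ : J → G → (ι → K) → Γ} (hΦ : ∀ j, MS v F (Φ j)) (s : Finset J) :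
    MS v F fun g p => ∏ j ∈ s, Φ j g p := by
  classical
  induction s using Finset.induction_on with
  | empty => simpa using MS.one
  | insert j s hj ih => simpa only [Finset.prod_insert hj] using (hΦ j).mul ih

theorem MS.max (h : MS v F Ψ) (h' : MS v F Ψ') : MS v F fun g p => max (Ψ g p) (Ψ' g p) :=
  MS.sup (Φ := fun t : Bool => cond t Ψ Ψ') (fun t => by cases t <;> assumption)
    fun g p _ b => by simp [and_comm]

/-- A maximum of monomials that is bounded below has a normalised minimum. -/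
theorem MS.min [IsAlgClosed K] [IsAlgClosed F] [Nonempty G] (h : MS v F Ψ) {b : K} (hb : b ≠ 0)
    (hl : ∀ g p, (∀ j, p j ≠ 0) → v b ≤ Ψ g p) : ∃ (g : G) (q : ι → K), (∀ j, q j ∈ F ∧ q j ≠ 0) ∧
      (∀ i j, v (q i) = v (q j) → q i = q j) ∧
        ∀ g' p, (∀ j, p j ∈ F ∧ p j ≠ 0) → Ψ g q ≤ Ψ g' p := by
  obtain ⟨I, hI, a, c, h1, h2, h3⟩ := h
  have := Fintype.ofFinite I
  choose q h4 h5 using fun g => minmax v F a (fun t => c t g) (fun t => h1 t g) hb fun p hp =>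
    ((MS.att (h3 g p hp)).resolve_left fun e =>
      (map_ne_zero v).2 hb (le_antisymm ((hl g p hp).trans e.le) zero_le)).imp
        fun t ht => (hl g p hp).trans ht
  let ty : G → I → Γ := fun g t => v (c t g)
  have h6 : ∀ g g' p p', ty g = ty g' → (∀ j, p j ≠ 0) → (∀ j, v (p j) = v (p' j)) →
      Ψ g p ≤ Ψ g' p' := fun g g' p p' e hp e' => (h3 g p hp _).2 fun t => by
    refine Eq.trans_le ?_ ((h3 g' p' (fun j e => hp j (by simpa [e] using e' j)) _).1 le_rfl t)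
    simp only [map_mul, map_prod, map_zpow₀, e', show v (c t g) = v (c t g') from congrFun e t]
  obtain ⟨τ, -, h7⟩ := exists_min_image (range ty)
    (fun τ => Ψ (Function.invFun ty τ) (q (Function.invFun ty τ)))
    ((Finite.pi' h2).subset (range_subset_iff.2 fun g t => ⟨g, rfl⟩)) (range_nonempty ty)
  generalize Function.invFun ty τ = g at h7
  let s : ι → ι := fun j => rangeSplitting (fun i => v (q g i)) ⟨_, j, rfl⟩
  have hs : ∀ j, v (q g (s j)) = v (q g j) := fun j => apply_rangeSplitting (fun i => v (q g i)) _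
  refine ⟨g, fun j => q g (s j), fun j => h4 g _, fun i j e => ?_, fun g' p hp => ?_⟩
  · exact congrArg (fun t => q g (rangeSplitting _ t)) (Subtype.ext ((hs i).symm.trans (e.trans (hs j))))
  · refine (h6 g g _ _ rfl (fun j => (h4 g _).2) hs).trans ((h7 _ ⟨g', rfl⟩).trans
      (le_trans ?_ (h6 _ g' p p (Function.invFun_eq ⟨g', rfl⟩) (fun j => (hp j).2) fun _ => rfl)))
    refine (h3 _ _ (fun j => (h4 _ j).2) _).2 fun t => ?_
    obtain ⟨t', ht⟩ := h5 _ p hp t
    exact ht.trans ((h3 _ p (fun j => (hp j).2) _).1 le_rfl t')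

end ms

end Pool.Agent.P.MP_f17f76_ag.E
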