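import Pool.Agent.P.MP_f17f76_ag.E.HgcDef
import Pool.Agent.P.MP_f17f76_ag.E.NdB
import Pool.Agent.P.MP_f17f76_ag.E.Fam3
import Pool.Agent.P.MP_f17f76_ag.E.AxL

/-!
Operations on objects: change of basis, fresh constants, subobjects.
-/

namespace Pool.Agent.P.MP_f17f76_ag.Hgc

open Set Module Matrix E

section field

variable {K : Type} [Field K] {F S T : Set K} {τ : K}

theorem sub_acl (h : S ⊆ T) : S ⊆ acl T := h.trans (subset_acl T)

theorem free_single (h : τ ∉ acl (F ∪ T)) : Free F {τ} T := by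
  refine free_of_trd (finite_singleton τ) ?_
  have := trd_insert_of_notMem (F := F ∪ T) (x := τ) finite_empty (by simpa using h)
  rw [trd_empty, insert_empty_eq] at this
  simpa [this] using trd_le_ncard (F := F) (finite_singleton τ)

theorem notMem_of_free (h : Free F {τ} T) (h' : τ ∉ acl F) : τ ∉ acl (F ∪ T) := fun h1 =>
  h' (singleton_subset_iff.1 ((trd_eq_zero_iff (finite_singleton τ)).1
    ((h _ subset_rfl (finite_singleton τ)).symm.trans
      ((trd_eq_zero_iff (finite_singleton τ)).2 (singleton_subset_iff.2 h1)))))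

theorem free_of_sub (h : S ⊆ acl F) (T : Set K) : Free F S T := fun s hs hf => by
  rw [(trd_eq_zero_iff hf).2 (hs.trans h),
    (trd_eq_zero_iff hf).2 ((hs.trans h).trans (acl_mono subset_union_left))]

theorem ne_zero_of_notMem (h : τ ∉ acl S) : τ ≠ 0 := fun e => h (e ▸ (acl S).zero_mem)

theorem exists_notMem_acl [Uncountable K] (h : S.Countable) : ∃ τ, τ ∉ acl S := by
  by_contra h'
  push Not at h'
  exact not_countable_univ ((countable_acl h).mono fun x _ => h' x)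

theorem exists_der_fresh [CharZero K] (h : τ ∉ acl S) (D : Der K) (c : K) :
    ∃ D' : Der K, (∀ x ∈ acl S, D' x = D x) ∧ D' τ = c := by
  rw [mem_acl_iff_der] at h
  push Not at h
  obtain ⟨X, h1, h2⟩ := h
  refine ⟨D + ((c - D τ) / X τ) • X, fun x hx => ?_, ?_⟩
  · simp [mem_cst.1 (acl_le_cst h1 hx)]
  · simp [h2]

theorem trd_le_of_dv [CharZero K] {ι : Type} [Finite ι] {y : ι → K} {W : Submodule K (ι → K)}
    (h : ∀ D ∈ kil F, dv y D ∈ W) : trd F (range y) ≤ finrank K W := by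
  rw [← finrank_map_dv]
  exact Submodule.finrank_mono (Submodule.map_le_iff_le_comap.2 h)

theorem finrank_split {ι : Type} [Finite ι] {p : ι → Prop} {W : Submodule K (ι → K)}
    (h : ∀ u ∈ W, cut p u ∈ W) : finrank K (W ⊓ supp K p : Submodule K _) +
      finrank K (rst (Subtype.val : {i // ¬ p i} → ι) W) = finrank K W := by
  have h1 : W ⊓ supp K p ⊔ W ⊓ supp K (· ∈ range (Subtype.val : {i // ¬ p i} → ι)) = W :=
    le_antisymm (sup_le inf_le_left inf_le_left) fun u hu => by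
      have := Submodule.add_mem_sup (S := W ⊓ supp K p)
        (T := W ⊓ supp K (· ∈ range (Subtype.val : {i // ¬ p i} → ι))) ⟨h u hu, cut_mem_supp p u⟩
        (t := u - cut p u) ⟨W.sub_mem hu (h u hu), fun i hi => by
          rw [Pi.sub_apply, cut_pos (by simpa using hi), sub_self]⟩
      rwa [add_sub_cancel] at this
  have h2 : W ⊓ supp K p ⊓ (W ⊓ supp K (· ∈ range (Subtype.val : {i // ¬ p i} → ι))) = ⊥ :=
    eq_bot_iff.2 fun u hu => funext fun i => by
      by_cases hi : p i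
      · exact hu.2.2 i (by simpa using hi)
      · exact hu.1.2 i hi
  rw [finrank_rst Subtype.val_injective, ← Submodule.finrank_sup_add_finrank_inf_eq, h1, h2,
    finrank_bot, add_zero]

end field

variable {g N : ℕ} {ι κ : Type} {A : AbVar g N}

theorem finite_pt [Finite ι] (z : ι → ℂ) (a : Fin g → ℂ) : (pt A z a).Finite :=
  (finite_range _).union (finite_range _)

theorem pt_subset {ι' : Type} {z : ι → ℂ} {z' : ι' → ℂ} {a : Fin g → ℂ} {S : Set ℂ}
    (h : ∀ i, z' i ∈ acl (S ∪ pt A z a)) : pt A z' a ⊆ acl (S ∪ pt A z a) :=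
  union_subset (range_subset_iff.2 h) fun _ hx => mem_acl_of_mem (Or.inr (Or.inr hx))

theorem Cac.acl {S : Set ℂ} (h : S.Countable) : Cac (acl S) := ⟨countable_acl h, inferInstance⟩

theorem Cac.acl_eq {F : Subfield ℂ} (h : Cac F) : E.acl (F : Set ℂ) = F :=
  haveI := h.alg
  acl_eq_self F

variable [Fintype ι]

theorem pt_mulVec {G : Matrix ι ι ℂ} {S : Set ℂ} (hG : ∀ i j, G i j ∈ acl S) (z : ι → ℂ)
    (a : Fin g → ℂ) : pt A (G *ᵥ z) a ⊆ acl (S ∪ pt A z a) :=
  pt_subset fun i => dot_mem (fun j => acl_mono subset_union_left (hG i j)) fun j =>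
    mem_acl_of_mem (Or.inr (Or.inl ⟨j, rfl⟩))

variable [DecidableEq ι] [Fintype κ] [DecidableEq κ] {o : Ob ι κ g} {G : Matrix ι ι ℂ} {m : ι → ℕ} {τ : ℂ}

omit [DecidableEq κ] in
theorem ndg_bc {R : Submodule ℂ (ι → ℂ)} {F : Set ℂ} {z : ι → ℂ} {a : Fin g → ℂ}
    {θ : κ → Fin g → ℂ} (h : A.Ndg R F z a θ) (hG : ∀ i j, G i j ∈ acl F) (h0 : G.det ≠ 0) :
    A.Ndg (act G R) F (G⁻¹ *ᵥ z) a θ := by
  refine AbVar.ndg_of_vec ?_ fun v c => ?_
  · rw [finrank_act h0]
    exact (trd_le (finite_pt z a) (pt_mulVec (inv_mem_sub hG) z a)).trans h.le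
  · obtain ⟨D, h1, h2, h3⟩ := h.vec (G *ᵥ v) c
    refine ⟨D, h1, ?_, h3⟩
    rintro _ ⟨n, hn, rfl⟩
    rw [dv_mulVec fun i j => acl_le_cst h1 (inv_mem_sub hG i j), dotProduct_mulVec,
      vecMulLinear_apply, vecMul_inv_cancel h0, h2 n hn, dotProduct_mulVec]

omit [DecidableEq κ] in
theorem IsOb.cac_k (h : IsOb A o) : Cac o.k := ⟨h.cac.cnt.mono h.le, h.fam.ck⟩

omit [DecidableEq κ] in
theorem IsOb.cnt (h : IsOb A o) : (o.k' ∪ o.E ∪ pt A o.z o.a : Set ℂ).Countable :=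
  (h.cac.cnt.union h.cE).union (finite_pt _ _).countable

omit [DecidableEq κ] in
theorem IsOb.free' (h : IsOb A o) : Free (o.k' : Set ℂ) (pt A o.z o.a) o.E :=
  ((h.free.symm.base (fun _ hx => mem_acl_of_mem (h.le hx)) fun _ hx =>
    mem_acl_of_mem (Or.inr (Or.inl hx))).mono subset_rfl fun _ hx =>
      mem_acl_of_mem (Or.inr (Or.inr hx))).symm

omit [DecidableEq κ] in
theorem IsOb.ndgE (h : IsOb A o) : A.Ndg o.N (o.k' ∪ o.E) o.z o.a o.θ := h.ndg.free h.free'

omit [DecidableEq κ] in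
theorem IsOb.ndgF (h : IsOb A o) {T : Set ℂ}
    (hT : Free (o.k : Set ℂ) T (o.k' ∪ o.E ∪ pt A o.z o.a)) :
    A.Ndg o.N (T ∪ o.k' ∪ o.E) o.z o.a o.θ := by
  have := h.ndgE.free (T := T) ((hT.base (fun _ hx => mem_acl_of_mem (Or.inl (h.le hx))) fun _ hx =>
    mem_acl_of_mem (Or.inr (Or.inl hx))).mono subset_rfl fun _ hx =>
      mem_acl_of_mem (Or.inr (Or.inr hx))).symm
  rwa [union_comm, ← union_assoc] at this

/-- Change of basis. -/
noncomputable def Ob.bc (o : Ob ι κ g) (G : Matrix ι ι ℂ) : Ob ι κ g :=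
  { o with N := act G o.N, z := G⁻¹ *ᵥ o.z }

omit [DecidableEq κ] in
theorem IsOb.bc (h : IsOb A o) (hG : GrM o.k o.r G) : IsOb A (o.bc G) where
  ovr := h.ovr
  fam := h.fam.act hG
  cE := h.cE
  le := h.le
  cac := h.cac
  th := h.th
  free := (h.free.symm.mono subset_rfl (union_subset
    (fun _ hx => mem_acl_of_mem (Or.inr (Or.inl hx)))
    ((pt_mulVec (fun i j => mem_acl_of_mem (hG.inv.mem i j)) _ _).trans
      (acl_mono (union_subset_union_right _ subset_union_right))))).symm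
  ndg := ndg_bc h.ndg (fun i j => mem_acl_of_mem (h.le (hG.mem i j))) hG.det

omit [Fintype κ] [DecidableEq κ] in
theorem Pos.bc (hG : GrM o.k o.r G) (h : Pos A (o.bc G) m) : Pos A o m := by
  obtain ⟨k₁, σ, P, G₁, b, h1, h2, h3, h4, h5⟩ := h
  have hu := isUnit_iff_ne_zero.2 hG.det
  have e1 : pt A o.z o.a ⊆ acl (o.k ∪ pt A (o.bc G).z o.a) := by
    have := pt_mulVec (A := A) (fun i j => mem_acl_of_mem (hG.mem i j)) (G⁻¹ *ᵥ o.z) o.a
    rwa [mulVec_mulVec, mul_nonsing_inv _ hu, one_mulVec] at this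
  have e2 : (G * G₁)⁻¹ *ᵥ o.z = G₁⁻¹ *ᵥ (o.bc G).z := by
    rw [Matrix.mul_inv_rev, ← mulVec_mulVec]
    rfl
  refine ⟨k₁, σ, P, G * G₁, b, h1, h2, h3.mono subset_rfl (union_subset
    (fun _ hx => mem_acl_of_mem (Or.inr (Or.inl hx))) (e1.trans
      (acl_mono (union_subset_union_right _ subset_union_right)))), fun hσ => h4 (acl_le
    (union_subset (fun _ hx => mem_acl_of_mem (Or.inl hx)) (e1.trans (acl_mono
      (union_subset_union_left _ fun _ hx => Or.inl (Or.inl (h2 hx)))))) hσ),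
    h5.id, h5.ne, h5.lt, (hG.mono h2 le_rfl).mul h5.gr, e2 ▸ h5.int, h5.red, ?_⟩
  rw [e2, ← act_act]
  exact h5.sur

omit [Fintype κ] [DecidableEq κ] in
theorem HasSym.bc {h : ℕ} (hk : o.k ≤ o.k') (hG : GrM o.k o.r G) (hs : HasSym A o h) :
    HasSym A (o.bc G) h := by
  obtain ⟨ξ, h1, h2⟩ := hs
  have hu := isUnit_iff_ne_zero.2 hG.det
  let L : Matrix ι ι ℂ × (ι → ℂ) →ₗ[ℂ] Matrix ι ι ℂ × (ι → ℂ) :=
    (LinearMap.mulLeftRight ℂ (G⁻¹, G)).prodMap G⁻¹.mulVecLin
  have hL : ∀ x, L x = (G⁻¹ * x.1 * G, G⁻¹ *ᵥ x.2) := fun _ => rfl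
  have hm : ∀ {X Y : Matrix ι ι ℂ}, (∀ i j, X i j ∈ o.k') → (∀ i j, Y i j ∈ o.k') →
      ∀ i j, (X * Y) i j ∈ o.k' := fun hX hY i j =>
    o.k'.sum_mem fun l _ => o.k'.mul_mem (hX i l) (hY l j)
  refine ⟨L ∘ ξ, h1.map' L (LinearMap.ker_eq_bot'.2 fun x hx => ?_), fun l => ?_⟩
  · obtain ⟨e1, e2⟩ := Prod.ext_iff.1 ((hL x).symm.trans hx)
    have e3 := congrArg (fun X => G * X * G⁻¹) e1
    have e4 := congrArg (G *ᵥ ·) e2
    simp only [← mul_assoc, mul_nonsing_inv _ hu, one_mul, mul_nonsing_inv_cancel_right _ _ hu,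
      Prod.fst_zero, mul_zero, zero_mul, mulVec_mulVec, one_mulVec, Prod.snd_zero,
      mulVec_zero] at e3 e4
    exact Prod.ext e3 e4
  · obtain ⟨D, h3, h4⟩ := (h2 l).ex
    have e1 := fun i j => hk (hG.inv.mem i j)
    refine ⟨hm (hm e1 (h2 l).lin) fun i j => hk (hG.mem i j), fun i => dot_mem (e1 i) (h2 l).vec,
      ?_, D, h3, ?_⟩
    · change act (G⁻¹ * (ξ l).1 * G) (act G o.N) ≤ act G o.N
      rw [act_act, ← mul_assoc, ← mul_assoc, mul_nonsing_inv _ hu, one_mul, ← act_act]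
      exact act_mono G (h2 l).st
    · change dv (G⁻¹ *ᵥ o.z) D = (G⁻¹ * (ξ l).1 * G) *ᵥ G⁻¹ *ᵥ o.z + G⁻¹ *ᵥ (ξ l).2
      rw [dv_mulVec fun i j => h3.1 _ (e1 i j), h4, mulVec_add, mulVec_mulVec, mulVec_mulVec,
        mul_nonsing_inv_cancel_right _ _ hu]

omit [Fintype κ] [DecidableEq κ] [DecidableEq ι] in
theorem HasSym.le {h : ℕ} (hs : HasSym A o h) :
    h ≤ finrank ℂ (Matrix ι ι ℂ × (ι → ℂ)) := by
  obtain ⟨ξ, h1, -⟩ := hs
  simpa only [Fintype.card_fin] using h1.fintype_card_le_finrank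

/-- Adjunction of a constant. -/
noncomputable def Ob.ext (o : Ob ι κ g) (τ : ℂ) : Ob ι κ g := { o with k' := acl (o.k' ∪ {τ}) }

omit [DecidableEq κ] in
theorem IsOb.ext (h : IsOb A o) (hτ : τ ∉ acl (o.k' ∪ o.E ∪ pt A o.z o.a)) :
    IsOb A (o.ext τ) where
  ovr := h.ovr
  fam := h.fam
  cE := h.cE
  le _ hx := mem_acl_of_mem (Or.inl (h.le hx))
  cac := .acl (h.cac.cnt.union (countable_singleton τ))
  th j i := mem_acl_of_mem (Or.inl (h.th j i))
  free := by
    refine ((h.free.symm.trans (free_single (τ := τ) fun h1 => hτ (acl_mono ?_ h1)).symm).mono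
      subset_rfl (union_subset (acl_mono ?_) fun _ hx => mem_acl_of_mem ?_)).symm
    · rintro x ((hx | hx | hx) | hx)
      exacts [Or.inl (Or.inl (h.le hx)), Or.inl (Or.inl hx), Or.inr hx, Or.inl (Or.inr hx)]
    · rintro x (hx | hx)
      exacts [Or.inr (Or.inl (Or.inl hx)), Or.inr (Or.inr hx)]
    · exact Or.inr (Or.inl (Or.inr hx))
  ndg := (h.ndg.free (free_single (τ := τ) fun h1 => hτ (acl_mono
    (union_subset_union_left _ subset_union_left) h1)).symm).congr_base subset_rfl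
      ((subset_acl _).trans (subset_acl _))

/-- The context with constants `k'` and a fresh parameter. -/
noncomputable def Ob.cx (o : Ob ι κ g) (τ : ℂ) (f : MvPolynomial ι ℂ) : Cx ι κ g :=
  ⟨o.ext τ, o.k', τ, f⟩

omit [DecidableEq κ] in
theorem IsOb.cx (h : IsOb A o) (hτ : τ ∉ acl (o.k' ∪ o.E ∪ pt A o.z o.a)) {f : MvPolynomial ι ℂ}
    (hf : Cf (acl (o.k' ∪ {τ})) f) : IsCx A (o.cx τ f) :=
  ⟨h.ext hτ, h.le, h.cac, h.th, fun h1 => hτ (mem_acl_of_mem (Or.inl (Or.inl h1))), rfl, hf⟩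

omit [Fintype κ] [DecidableEq κ] in
theorem pos_of_fin (hτ : τ ∉ acl (o.k' ∪ o.E ∪ pt A o.z o.a)) (hk : o.k ≤ o.k')
    {k₁ : Subfield ℂ} {σ : ℂ} {e : ℕ} {T : Set ℂ} {P : Plc ℂ ℂ} {b : Fin g → ℂ} (h1 : Cac k₁)
    (h2 : o.k ≤ k₁) (h3 : Free (o.k : Set ℂ) k₁ T)
    (h4 : (o.k' : Set ℂ) ∪ o.E ∪ pt A o.z o.a ∪ {τ} ⊆ acl T) (h5 : σ ^ e = τ)
    (h6 : PosAt A o k₁ (k₁ ∪ o.k' ∪ o.E) σ m P G b) : Pos A o m := by
  have h7 := h3.mono subset_rfl (h4.trans (acl_mono subset_union_right))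
  refine ⟨k₁, σ, P, G, b, h1, h2, h7.mono subset_rfl
    (sub_acl (subset_union_left.trans subset_union_right)), fun hσ => ?_, h6⟩
  have h8 : Free ((o.k' : Set ℂ) ∪ o.E ∪ pt A o.z o.a) k₁ {τ} :=
    (h7.base (sub_acl fun _ hx => Or.inl (Or.inl (hk hx))) 
      (sub_acl (subset_union_left.trans subset_union_right))).mono subset_rfl
      (sub_acl (subset_union_right.trans subset_union_right))
  refine notMem_of_free h8.symm hτ ?_
  rw [union_comm, ← union_assoc, ← union_assoc, ← h5]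
  exact pow_mem hσ e

omit [Fintype κ] [DecidableEq κ] in
theorem FinOut.pos (hτ : τ ∉ acl (o.k' ∪ o.E ∪ pt A o.z o.a)) (hk : o.k ≤ o.k')
    {f : MvPolynomial ι ℂ} (h : FinOut A (o.cx τ f)) : POS A o := by
  obtain ⟨k₁, σ, e, m, P, G, b, h1, h2, h3, -, h4, h5, h6⟩ := h
  refine ⟨m, h5, pos_of_fin hτ hk h1 h2 h3 (fun x hx => mem_acl_of_mem ?_) h4
    ⟨h6.id, h6.ne, h6.lt, h6.gr, h6.int, h6.red, h6.sur⟩⟩
  rcases hx with ((hx | hx) | hx) | hx
  exacts [Or.inl (Or.inl (mem_acl_of_mem (Or.inl hx))), Or.inl (Or.inr hx), Or.inr hx,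
    Or.inl (Or.inl (mem_acl_of_mem (Or.inr hx)))]

/-- The subobject on the coordinates outside `p`. -/
noncomputable def Ob.sub (o : Ob ι κ g) (p : ι → Prop) : Ob {i // ¬ p i} κ g :=
  ⟨o.k, o.E, o.r.comap Subtype.val, rst Subtype.val o.N, acl (o.k' ∪ range (cut p o.z)),
    o.z ∘ Subtype.val, o.a, o.θ⟩

omit [Fintype ι] [DecidableEq ι] [Fintype κ] [DecidableEq κ] in
theorem pt_sub (o : Ob ι κ g) (p : ι → Prop) :
    pt A o.z o.a ⊆ acl ((o.sub p).k' ∪ pt A (o.sub p).z o.a) :=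
  pt_subset fun i => mem_acl_of_mem <| by
    by_cases hi : p i
    · exact Or.inl (mem_acl_of_mem (Or.inr ⟨i, cut_pos hi⟩))
    · exact Or.inr (Or.inl ⟨⟨i, hi⟩, rfl⟩)

variable {p : ι → Prop} [DecidablePred p]

omit [DecidableEq κ] in
theorem IsOb.sub (h : IsOb A o) (hp : ∀ u ∈ o.N, cut p u ∈ o.N)
    (ht : trd (o.k' : Set ℂ) (range (cut p o.z)) ≤
      finrank ℂ (o.N ⊓ supp ℂ p : Submodule ℂ _)) : IsOb A (o.sub p) := by
  have e1 : range (cut p o.z) ⊆ acl (o.k' ∪ pt A o.z o.a) := range_subset_iff.2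
    (cut_mem p fun j => mem_acl_of_mem (Or.inr (Or.inl ⟨j, rfl⟩)))
  have e2 : pt A (o.sub p).z o.a ⊆ acl (o.k' ∪ pt A o.z o.a) :=
    pt_subset fun i => mem_acl_of_mem (Or.inr (Or.inl ⟨i, rfl⟩))
  refine ⟨h.ovr, h.fam.rst Subtype.val_injective, h.cE,
    fun _ hx => mem_acl_of_mem (Or.inl (h.le hx)),
    .acl (h.cac.cnt.union (finite_range _).countable), fun j i => mem_acl_of_mem (Or.inl (h.th j i)),
    (h.free.symm.mono subset_rfl ((union_subset (acl_le (union_subset (fun _ hx =>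
      mem_acl_of_mem (Or.inl hx)) e1)) e2).trans (acl_mono subset_union_right))).symm,
    AbVar.ndg_of_kil ?_ fun D h1 h2 h3 => ?_⟩
  · have e3 : finrank ℂ (o.N ⊓ supp ℂ p : Submodule ℂ _) ≤ trd (o.k' : Set ℂ) (range (cut p o.z)) := by
      rw [← Subspace.dual_finrank_eq]
      refine le_trd_of_surj (nv _ (cut p o.z)) (finite_range _) (fun D _ hD => LinearMap.ext fun n =>
        by rw [nv_apply, dv_eq_zero.2 hD, dotProduct_zero, LinearMap.zero_apply]) fun w => ?_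
      obtain ⟨D, h1, h2, -⟩ := h.ndg.ex (w.comp (((cut p).comp o.N.subtype).codRestrict _
        fun n => ⟨hp _ n.2, cut_mem_supp _ _⟩)) 0
      refine ⟨D, h1, LinearMap.ext fun n => ?_⟩
      have := h2 ⟨n, n.2.1⟩
      rw [nv_apply, show dv (cut p o.z) D = cut p (dv o.z D) from cut_map D (map_zero D) p _,
        ← cut_dot, cut_eq_self.2 n.2.2, this]
      exact congrArg w (Subtype.ext (cut_eq_self.2 n.2.2))
    have e4 := trd_union (F := (o.k' : Set ℂ)) (finite_range (cut p o.z))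
      (finite_pt (A := A) (o.sub p).z o.a)
    rw [trd_congr (union_subset e1 e2) ((pt_sub o p).trans (by simp [Ob.sub, union_assoc])),
      ← trd_acl_base (F := _ ∪ _) (finite_pt _ _)] at e4
    have e5 := h.ndg.trd_eq
    have e6 := finrank_split hp
    change finrank ℂ (rst Subtype.val o.N) + _ =
      trd (acl (o.k' ∪ range (cut p o.z)) : Set ℂ) (pt A (o.sub p).z o.a)
    change trd _ (pt A o.z o.a) = _ at e5
    omega
  · have e3 : D ∈ kil (o.k' ∪ range (cut p o.z)) := kil_anti (subset_acl _) h1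
    refine kil_anti (union_subset_union_left _ (range_comp_subset_range Subtype.val o.z))
      (h.ndg.kil (kil_anti subset_union_left e3) (fun n hn => ?_) h3)
    have e4 : n - cut p n ∈ supp ℂ (· ∈ range (Subtype.val : {i // ¬ p i} → ι)) := fun i hi => by
      rw [Pi.sub_apply, cut_pos (by simpa using hi), sub_self]
    have e5 := h2 _ (comp_mem_rst Subtype.val_injective (o.N.sub_mem hn (hp n hn)) e4)
    have e6 : cut p (dv o.z D) = 0 := (cut_map D (map_zero D) p _).symm.trans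
      (dv_eq_zero.2 (kil_anti subset_union_right e3))
    rw [← sub_add_cancel n (cut p n), add_dotProduct, cut_dot, e6, dotProduct_zero, add_zero,
      ← extend_comp Subtype.val_injective e4, extend_dot Subtype.val_injective]
    exact e5

omit [DecidableEq ι] in
theorem extM_mulVec {K ι' : Type} [Field K] [Fintype ι'] {e : ι' → ι} (he : Function.Injective e)
    (H : Matrix ι' ι' K) (z : ι → K) :
    extM e H *ᵥ z = Function.extend e (H *ᵥ (z ∘ e)) 0 + cut (· ∉ range e) z := by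
  classical
  funext i
  have := dotProduct_mulVec (Pi.single i 1) (extM e H) z
  rw [single_one_dotProduct, vecMul_extM he, add_dotProduct, extend_dot he, cut_dot,
    single_one_dotProduct, ← dotProduct_mulVec, dotProduct_comm, ← extend_dot he,
    dotProduct_single_one] at this
  exact this

theorem extM_inv {K ι' : Type} [Field K] [Fintype ι'] [DecidableEq ι'] {e : ι' → ι}
    (he : Function.Injective e) {H : Matrix ι' ι' K} (h : H.det ≠ 0) (z : ι → K) :
    ((extM e H)⁻¹ *ᵥ z) ∘ e = H⁻¹ *ᵥ (z ∘ e) ∧ ∀ i ∉ range e, ((extM e H)⁻¹ *ᵥ z) i = z i := by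
  have h1 : (extM e H).det ≠ 0 :=
    (GrM.extM (k := ⊤) (r := ⊤) he ⟨h, fun _ _ => trivial, fun _ _ _ => trivial⟩).det
  have h2 := extM_mulVec he H ((extM e H)⁻¹ *ᵥ z)
  rw [mulVec_mulVec, mul_nonsing_inv _ (isUnit_iff_ne_zero.2 h1), one_mulVec] at h2
  refine ⟨?_, fun i hi => ?_⟩
  · have h3 : z ∘ e = H *ᵥ (((extM e H)⁻¹ *ᵥ z) ∘ e) := funext fun j => by
      have := congrFun h2 (e j)
      rwa [Pi.add_apply, he.extend_apply,
        cut_neg (p := (· ∉ range e)) (not_not.2 (mem_range_self j)), add_zero] at this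
    rw [h3, mulVec_mulVec, nonsing_inv_mul _ (isUnit_iff_ne_zero.2 h), one_mulVec]
  · have := congrFun h2 i
    rw [Pi.add_apply, extend_mem_supp e _ i hi, zero_add, cut_pos (p := (· ∉ range e)) hi] at this
    exact this.symm

omit [DecidableEq ι] in
theorem ini_extM {R : Submodule ℂ (ι → ℂ)} (hp : ∀ u ∈ R, cut p u ∈ R)
    (H : Matrix {i // ¬ p i} {i // ¬ p i} ℂ) {μ : ℕ} (hm : ∀ i, p i → m i = μ) {x : ι → ℂ}
    (hx : x ∈ ini m (act (extM Subtype.val H) R)) :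
    cut p x ∈ R ∧ x ∘ Subtype.val ∈ ini (m ∘ Subtype.val) (act H (rst Subtype.val R)) := by
  refine (ini_le (W := R.comap (cut p) ⊓ (ini (m ∘ Subtype.val) (act H (rst Subtype.val R))).comap
    (LinearMap.funLeft ℂ ℂ Subtype.val))).2 ?_ hx
  rintro ν _ ⟨n, hn, rfl⟩ hs
  rw [vecMulLinear_apply, vecMul_extM Subtype.val_injective] at hs ⊢
  have e1 : ∀ i, i ∉ range (Subtype.val : {i // ¬ p i} → ι) ↔ p i := by simp
  have e2 : n ∘ Subtype.val ∈ rst (Subtype.val : {i // ¬ p i} → ι) R := by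
    convert comp_mem_rst Subtype.val_injective (R.sub_mem hn (hp n hn)) fun i hi => by
      rw [Pi.sub_apply, cut_pos ((e1 i).1 hi), sub_self] using 1
    funext j
    simp [cut_neg j.2]
  have e3 : ∀ j : {i // ¬ p i}, (Function.extend Subtype.val ((n ∘ Subtype.val) ᵥ* H) 0 +
      cut (· ∉ range (Subtype.val : {i // ¬ p i} → ι)) n) j = ((n ∘ Subtype.val) ᵥ* H) j := fun j => by
    rw [Pi.add_apply, Subtype.val_injective.extend_apply,
      cut_neg (p := (· ∉ range _)) (not_not.2 (mem_range_self j)), add_zero]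
  constructor
  · change cut p _ ∈ R
    convert R.smul_mem (if μ = ν then 1 else 0) (hp n hn) using 1
    funext i
    by_cases hi : p i
    · simp [cut_apply, hi, hm i hi]
    · simp [cut_apply, hi]
  · change LinearMap.funLeft ℂ ℂ Subtype.val _ ∈ ini _ _
    convert cut_mem_ini (m := m ∘ Subtype.val) (μ := ν) (vecMul_mem_act H e2) fun j hj =>
      (e3 j).symm.trans (hs j hj) using 1
    funext j
    rw [LinearMap.funLeft_apply, cut_apply, cut_apply, e3]
    rfl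

omit [DecidableEq κ] in
/-- Positivity data of a subobject extend when the other coordinates become constant. -/
theorem PosAt.ext {k₁ F : Subfield ℂ} {B B' B₁ : Set ℂ} {σ : ℂ} {μ : ℕ} {P : Plc ℂ ℂ}
    {H : Matrix {i // ¬ p i} {i // ¬ p i} ℂ} {b : Fin g → ℂ} (hp : ∀ u ∈ o.N, cut p u ∈ o.N)
    (hm : ∀ i, p i → m i = μ) (h : PosAt A { o.sub p with k' := F } k₁ B₁ σ (m ∘ Subtype.val) P H b)
    (hB : B ⊆ B₁) (hB' : B ⊆ B') (hσ : σ ^ μ ∈ acl B') (hy : ∀ i, p i → σ ^ μ * o.z i ∈ B₁)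
    (hN : A.Ndg o.N B' o.z o.a o.θ) : PosAt A o k₁ B σ m P (extM Subtype.val H) b := by
  obtain ⟨e1, e2⟩ := extM_inv Subtype.val_injective h.gr.det o.z
  have e3 : ∀ i, p i → σ ^ m i * ((extM Subtype.val H)⁻¹ *ᵥ o.z) i = σ ^ μ * o.z i :=
    fun i hi => by rw [hm i hi, e2 i (by simpa using hi)]
  refine ⟨h.id.mono hB, h.ne, h.lt, h.gr.extM Subtype.val_injective, fun j => ?_, h.red,
    fun v c => ?_⟩
  · by_cases hj : p j
    · exact e3 j hj ▸ (h.id _ (hy j hj)).1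
    · exact (congrArg (fun t => P.v (σ ^ m j * t)) (congrFun e1 ⟨j, hj⟩)).trans_le (h.int ⟨j, hj⟩)
  obtain ⟨D₁, h1, h2, -⟩ := hN.vec ((σ ^ μ)⁻¹ • v) 0
  set u := fun j => P.r (σ ^ m j * ((extM Subtype.val H)⁻¹ *ᵥ o.z) j) with hu
  obtain ⟨D₂, h3, h4, h5⟩ := h.sur ((v - dv u D₁) ∘ Subtype.val) (c - A.pv o.θ b D₁)
  refine ⟨D₁ + D₂, add_mem (kil_anti hB' h1) (kil_anti hB h3), fun x hx => ?_, ?_⟩
  · obtain ⟨h6, h7⟩ := ini_extM hp H hm hx
    have e4 : cut p (dv u (D₁ + D₂)) = σ ^ μ • cut p (dv o.z D₁) := funext fun i => by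
      by_cases hi : p i
      · simp only [Pi.smul_apply, cut_pos hi, dv_apply, hu, e3 i hi, (h.id _ (hy i hi)).2,
          Derivation.add_apply, h3 _ (hy i hi)]
        simp [mem_cst.1 (acl_le_cst h1 hσ)]
      · simp [cut_neg hi]
    have e5 : x - cut p x ∈ supp ℂ (· ∈ range (Subtype.val : {i // ¬ p i} → ι)) := fun i hi => by
      rw [Pi.sub_apply, cut_pos (by simpa using hi), sub_self]
    have e6 : (x - cut p x) ∘ Subtype.val = x ∘ (Subtype.val : {i // ¬ p i} → ι) :=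
      funext fun j => by simp [cut_neg j.2]
    have e7 := h4 _ h7
    rw [dotProduct_comm, ← sub_add_cancel x (cut p x), add_dotProduct,
      ← extend_comp Subtype.val_injective e5, extend_dot Subtype.val_injective, e6, dotProduct_sub,
      cut_dot p x (dv _ _), e4, dotProduct_smul, ← cut_dot, h2 _ h6, dotProduct_smul, smul_smul,
      mul_inv_cancel₀ (pow_ne_zero μ h.ne), one_smul, sub_self, add_zero, dotProduct_comm, ← e7]
    congr 1
    funext j
    have := congrFun e1 j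
    simp only [Function.comp_apply] at this
    simp only [Function.comp_apply, Pi.sub_apply, dv_apply, Derivation.add_apply, hu, this]
    change _ = D₂ (P.r (σ ^ m j * (H⁻¹ *ᵥ o.z ∘ Subtype.val) j)) - _
    ring
  · rw [map_add, show A.pv o.θ b D₂ = _ from h5, add_sub_cancel]

end Pool.Agent.P.MP_f17f76_ag.Hgc
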