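import Pool.Agent.P.MP_f17f76_ag.E.HgcBas
import Pool.Agent.P.MP_f17f76_ag.E.TOb
import Pool.Agent.P.MP_f17f76_ag.E.Tch
import Pool.Agent.P.MP_f17f76_ag.E.Tld
import Pool.Agent.P.MP_f17f76_ag.E.PlcD
import Pool.Agent.P.MP_f17f76_ag.E.Lang1

/-!
States of large radius give positivity data.
-/

namespace Pool.Agent.P.MP_f17f76_ag.Hgc

open Set Module Matrix E

variable {g N : ℕ} {ι κ : Type} {A : AbVar g N} [Fintype ι] [DecidableEq ι]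

theorem exD_iff {M : Matrix ι ι ℂ} {R : Submodule ℂ (ι → ℂ)} {z : ι → ℂ} {D : Der ℂ} {j : ι}
    {F : Subfield ℂ} (h0 : M.det ≠ 0) (hM : ∀ i j, M i j ∈ F) (hD : D ∈ kil (F : Set ℂ)) :
    dv (M⁻¹ *ᵥ z) D - Pi.single j 1 ∈ ann (act M R) ↔ dv z D - M.col j ∈ ann R := by
  rw [mem_ann_act, show dv (M⁻¹ *ᵥ z) D = M⁻¹ *ᵥ dv z D from
    funext fun i => der_dot_of (fun l => hD _ (inv_mem_sub hM i l)) z, mulVec_sub, mulVec_mulVec,
    mul_nonsing_inv _ h0.isUnit, one_mulVec, mulVec_single_one]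

theorem red_act_diag {P : Plc ℂ ℂ} {F : Subfield ℂ} {R : Submodule ℂ (ι → ℂ)} {G : Matrix ι ι ℂ}
    {p : ι → ℂ} (hF : P.IdOn F) (hR : Ov F R) (hG : GrM F ⊤ G) (hp : ∀ i, p i ≠ 0)
    (hq : ∀ i j, P.v (p i) = P.v (p j) → p i = p j) :
    P.red (act (G * diagonal p) R) = ini (fun i => P.v (p i)) (act G R) := by
  refine Submodule.eq_of_le_of_finrank_eq (Submodule.span_le.2 ?_) ?_
  · rintro _ ⟨_, ⟨x, hx, rfl⟩, h, rfl⟩
    exact Plc.r_mem_ini hF hR hG hp hq hx h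
  · rw [Plc.finrank_red, finrank_ini, finrank_act hG.det, finrank_act]
    rw [det_mul, det_diagonal]
    exact mul_ne_zero hG.det (Finset.prod_ne_zero_iff.2 fun i _ => hp i)

variable [Fintype κ] [DecidableEq κ] {k F L : Subfield ℂ} {P : Plc ℂ ℂ} {R : Submodule ℂ (ι → ℂ)}
  {u : ι → ℂ} {a b : Fin g → ℂ} {θ : κ → Fin g → ℂ}

/-- Contractive dual derivations reduce. -/
theorem sur_red (hA : A.Over k) (hP : P.IdOn k) (hr : A.Red P a b)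
    (hθ : ∀ j l, P.v (θ j l) ≤ 1 ∧ P.r (θ j l) = θ j l) (hk : k ≤ F) (hF : F ≤ L)
    (hu : ∀ j, u j ∈ L ∧ P.v (u j) ≤ 1) (hL : ∀ j, A.crd a j ∈ L)
    (hD : ∀ j, ∃ D ∈ A.thin F a θ, P.Ctr D L ∧ dv u D - Pi.single j 1 ∈ ann R)
    (hX : ∀ i, ∃ X ∈ kil (F : Set ℂ), P.Ctr X L ∧ A.pv θ a X = Pi.single i 1) :
    Sur A (P.red R) (P.res F) (P.r ∘ u) b θ := by
  have key : ∀ D ∈ kil (F : Set ℂ), P.Ctr D L → ∃ D' ∈ kil (P.res F : Set ℂ),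
      dv (P.r ∘ u) D' = P.r ∘ dv u D ∧ A.pv θ b D' = P.r ∘ A.pv θ a D := fun D h1 h2 =>
    let ⟨D', h3⟩ := h2.exists_res
    ⟨D', Plc.kil_res hF h1 h3, funext fun j => h3 _ (hu j).1 (hu j).2, funext fun j =>
      (hA.res_pv hP hr hθ (hk.trans hF) hL (kil_anti hk h1) h2 h3 j).symm⟩
  have e1 : ∀ {n : Type} [DecidableEq n] (j : n), P.r ∘ Pi.single j 1 = Pi.single j 1 := fun j =>
    funext fun i => by
      simp only [Function.comp_apply, Pi.single_apply]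
      split_ifs <;> simp
  have h1 : ∀ j, ∃ D ∈ kil (P.res F : Set ℂ), dv (P.r ∘ u) D - Pi.single j 1 ∈ ann (P.red R) ∧
      A.pv θ b D = 0 := fun j => by
    obtain ⟨D, h1, h2, h3⟩ := hD j
    obtain ⟨D', h4, h5, h6⟩ := key D h1.1 h2
    have h7 : ∀ i, P.v (dv u D i) ≤ 1 := fun i => (h2 _ (hu i).1).trans (hu i).2
    have h8 : ∀ i, P.v ((Pi.single j 1 : ι → ℂ) i) ≤ 1 := fun i => by
      rw [Pi.single_apply]
      split_ifs <;> simp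
    refine ⟨D', h4, ?_, by rw [h6, h1.2]; exact funext fun _ => P.r_zero⟩
    rw [h5, ← Plc.red_ann, ← e1, show P.r ∘ dv u D - P.r ∘ Pi.single j 1 =
      P.r ∘ (dv u D - Pi.single j 1) from funext fun i => (Plc.r_sub (h7 i) (h8 i)).symm]
    exact Plc.r_mem_red h3 fun i => P.v.map_sub_le (h7 i) (h8 i)
  have h2 : ∀ i, ∃ X ∈ kil (P.res F : Set ℂ), A.pv θ b X = Pi.single i 1 := fun i =>
    let ⟨X, h1, h2, h3⟩ := hX i
    let ⟨X', h4, _, h6⟩ := key X h1 h2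
    ⟨X', h4, by rw [h6, h3, e1]⟩
  choose D h3 h4 h5 using h1
  choose X h6 h7 using h2
  intro v c
  let t := v - dv (P.r ∘ u) (∑ i, c i • X i)
  refine ⟨∑ i, c i • X i + ∑ j, t j • D j, add_mem (sum_mem fun i _ => Submodule.smul_mem _ _ (h6 i))
    (sum_mem fun j _ => Submodule.smul_mem _ _ (h3 j)), ?_, ?_⟩
  · have h8 := sum_mem fun j (_ : j ∈ Finset.univ) => Submodule.smul_mem _ (t j) (h4 j)
    simp only [smul_sub, Finset.sum_sub_distrib, ← map_smul, ← map_sum] at h8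
    rwa [← pi_eq_sum_univ' t, ← sub_add, add_comm, ← add_sub_assoc, ← map_add] at h8
  · simp [h5, h7, ← pi_eq_sum_univ']

/-- Dual derivations persist under changes of the place with the same signs. -/
theorem exists_signs (hA : A.Over k) (hP : P.IdOn k)
    (hθ : ∀ j l, θ j l ∈ F ∧ P.v (θ j l) ≤ 1 ∧ P.r (θ j l) = θ j l) (hk : k ≤ F) (hF : F ≤ L)
    (hc : (F : Set ℂ).Countable) (hR : Ov F R) (hu : ∀ j, u j ∈ L ∧ P.v (u j) ≤ 1)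
    (hL : ∀ j, A.crd a j ∈ L) (hle : trd F (pt A u a) ≤ finrank ℂ R + Fintype.card κ)
    (hD : ∀ j, ∃ D ∈ A.thin F a θ, P.Ctr D L ∧ dv u D - Pi.single j 1 ∈ ann R)
    (hX : ∀ i, ∃ X ∈ kil (F : Set ℂ), P.Ctr X L ∧ A.pv θ a X = Pi.single i 1) :
    ∃ S : Set ℂ, S.Finite ∧ S ⊆ F ∧ ∀ Q : Plc ℂ ℂ, (∀ x ∈ S, P.v x ≤ 1 ↔ Q.v x ≤ 1) →
      ∃ Q' : Plc ℂ ℂ, Q.Agree Q' F ∧ Q'.Full F (acl (F ∪ pt A u a)) ∧ (∀ j, Q'.v (u j) ≤ 1) ∧
        (∀ j, ∃ D ∈ A.thin F a θ, Q'.Good F (acl (F ∪ pt A u a)) D ∧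
          dv u D - Pi.single j 1 ∈ ann R) ∧
        ∀ i, ∃ X, Q'.Good F (acl (F ∪ pt A u a)) X ∧ A.pv θ a X = Pi.single i 1 := by
  have : Uncountable ℂ := Complex.ofReal_injective.uncountable
  obtain ⟨b, hr⟩ := hA.exists_red' hP a
  have hs := sur_red hA hP hr (fun j l => (hθ j l).2) hk hF hu hL hD hX
  obtain ⟨s, ν, h1, h2, h3⟩ := P.latt hR
  have h4 : F ≤ acl (F ∪ pt A u a) := subset_union_left.trans (subset_acl _)
  obtain ⟨Y, h5, h6, h7, S, T, h8, h9⟩ := hA.lift hP hr hk (μ := s) (ν := fun l => ν l) rfl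
    (fun j l => ⟨h4 (hθ j l).1, (hθ j l).2⟩) (fun j => (hu j).2)
    (fun l i => ⟨h4 ((h2 l l.2).2.1 i).1, ((h2 l l.2).2.1 i).2⟩) (by rwa [Fintype.card_coe, h1])
    fun c c' => by
      obtain ⟨D, h5, h6, h7⟩ := hs (Function.extend Subtype.val c 0) c'
      refine ⟨D, h5, fun l => ?_, h7⟩
      have h8 := mem_ann.1 h6 _ (Plc.r_mem_red (h2 l l.2).1 fun i => ((h2 l l.2).2.1 i).2)
      rw [dotProduct_comm, dotProduct_sub, sub_eq_zero] at h8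
      rw [h8, dotProduct_comm, extend_dot Subtype.val_injective]
      simp [dotProduct, (h2 l l.2).2.2, apply_ite P.r]
  let D : ι → Der ℂ := fun j => ∑ m : s, ν m j • S m
  have h10 : ∀ j, P.Good F (acl (F ∪ pt A u a)) (D j) := fun j => Plc.Good.sum
    (fun m => (h8 m).1) fun m => ⟨h4 ((h2 m m.2).2.1 j).1, ((h2 m m.2).2.1 j).2⟩
  obtain ⟨S₀, h11, h12, h13⟩ := Plc.tld_new hc h6
    (S := range u ∪ (range fun q : ι × _ => D q.1 (Y q.2)) ∪ range fun q : κ × _ => T q.1 (Y q.2))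
    (by simp only [finite_union, finite_range, and_self]) (h7 ▸ union_subset (union_subset
      ((subset_union_left.trans subset_union_right).trans (subset_acl _))
      (range_subset_iff.2 fun q => (h10 _).mem _ (h5 _)))
      (range_subset_iff.2 fun q => (h9 _).1.mem _ (h5 _)))
  refine ⟨S₀, h11, h12, fun Q hQ => ?_⟩
  obtain ⟨W, hW⟩ := exists_ind (Plc.countable_res (P := Q) hc) (s ⊕ κ)
  obtain ⟨Q', h14, -, h15, h16⟩ := h13 ℂ le_rfl Q W hW hQ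
  have h17 : ∀ δ, P.Good F (acl (F ∪ pt A u a)) δ → (∀ l, Q'.v (δ (Y l)) ≤ 1) →
      Q'.Good F (acl (F ∪ pt A u a)) δ := fun δ h h' =>
    ⟨h.kil, h7 ▸ h15.ctr_acl (Plc.ctr_of_kil h.kil) h', h.mem⟩
  refine ⟨Q', h14, h7 ▸ h15.full, fun j => (h16 _ (Or.inl (Or.inl ⟨j, rfl⟩))).1.1 (hu j).2,
    fun j => ⟨D j, ⟨(h10 j).kil, by simp [D, fun m => (h8 m).2.2]⟩, h17 _ (h10 j) fun l =>
      (h16 _ (Or.inl (Or.inr ⟨(j, l), rfl⟩))).1.1 (((h10 j).ctr _ (h5 l)).trans (h6.1 l)),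
      mem_ann.2 fun x hx => ?_⟩,
    fun i => ⟨T i, h17 _ (h9 i).1 fun l => (h16 _ (Or.inr ⟨(i, l), rfl⟩)).1.1
      (((h9 i).1.ctr _ (h5 l)).trans (h6.1 l)), (h9 i).2.2⟩⟩
  rw [h3 x hx, dotProduct_sum]
  refine Finset.sum_eq_zero fun l hl => ?_
  rw [dotProduct_smul, dotProduct_comm, dotProduct_sub]
  simp [D, dotProduct_sum, fun m => (h8 m).2.1 ⟨l, hl⟩]

theorem exists_zpow {K R : Type} [Field K] [Field R] {P : Plc K R} {F : Subfield K} {τ f : K}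
    (hF : P.Triv F) (h0 : τ ≠ 0) (h1 : P.v τ < 1) (hf : f ∈ acl ((F : Set K) ∪ {τ}))
    (h2 : 1 < P.v f) : ∃ q t : ℕ, 0 < q ∧ 0 < t ∧ P.v (τ ^ t * f ^ q) = 1 := by
  obtain ⟨q, hq, c, hc, e⟩ := Plc.exists_pow_v (P := P) ((acl_closure _).ge hf)
  obtain ⟨d, hd, s, e'⟩ := (Plc.tr_of_triv hF h0 h1.ne).exists_v hc
  have h3 := one_lt_pow₀ h2 hq.ne'
  rw [e', hF.v_eq hd fun e'' => by simp [e, e''] at h3, one_mul] at e
  rw [e, one_lt_zpow_iff_right_of_lt_one₀ (P.v_pos h0) h1] at h3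
  obtain ⟨t, rfl⟩ := Int.eq_negSucc_of_lt_zero h3
  exact ⟨q, t + 1, hq, t.succ_pos, by
    rw [map_mul, map_pow, map_pow, e, zpow_negSucc, mul_inv_cancel₀ (pow_ne_zero _ (P.v_ne h0))]⟩

omit [Fintype ι] [DecidableEq ι] in
theorem Fr.Rad.one_lt {w : Fr ι} {τ : ℂ} {s : ι → ℝ} (h : w.Rad τ s) (h0 : τ ≠ 0)
    (h1 : w.P.v τ < 1) {B : ℕ} {j : ι} (hs : (B : ℝ) < s j) : 1 < w.P.v (τ ^ B * w.p j) := by
  obtain ⟨q, hq⟩ := exists_nat_one_div_lt (sub_pos.2 hs)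
  have h2 := h j (B * (q + 1 : ℕ) + 1) (q + 1) q.succ_pos (by
    rw [div_lt_iff₀ (by positivity)] at hq
    push_cast
    linarith)
  rw [zpow_add_one₀ h0, ← Nat.cast_mul, zpow_natCast, pow_mul, mul_right_comm, ← mul_pow, map_mul,
    map_pow] at h2
  exact not_le.1 fun h3 =>
    h2.not_gt (mul_lt_one_of_nonneg_of_lt_one_right (pow_le_one' h3 _) zero_le h1)

theorem col_mul_diag (G : Matrix ι ι ℂ) (p : ι → ℂ) (j : ι) :
    (G * diagonal p).col j = p j • G.col j := funext fun i => by simp [mul_comm]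

theorem fin (A : AbVar g N) : S_FIN A := by
  intro ι κ _ _ _ _ x B₀ w s hx hw hs hB
  have : Uncountable ℂ := Complex.ofReal_injective.uncountable
  have hf := hw.fr
  have hτ : x.τ ≠ 0 := fun e => hx.tr (e ▸ zero_mem _)
  have h1 : ∀ j, 1 < w.P.v (x.τ ^ B₀ * w.p j) := fun j => hs.one_lt hτ hf.lt (hB j)
  obtain ⟨F, hF⟩ : ∃ F, F = acl (w.K₁ ∪ x.E : Set ℂ) := ⟨_, rfl⟩
  obtain ⟨k₃, hk₃⟩ : ∃ F, F = Subfield.closure (w.k₁ ∪ x.kt ∪ x.E : Set ℂ) := ⟨_, rfl⟩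
  have h2 : (w.k₁ ∪ x.kt ∪ x.E : Set ℂ) ⊆ k₃ := hk₃ ▸ Subfield.subset_closure
  have hK : w.K₁ ≤ F := hF ▸ subset_union_left.trans (subset_acl _)
  have hE : x.E ≤ F := hF ▸ subset_union_right.trans (subset_acl _)
  have hc : (F : Set ℂ).Countable := hF ▸ countable_acl (hf.cK.cnt.union hx.ob.cE)
  have hkil : kil (F : Set ℂ) = kil (w.K₁ ∪ x.E) := hF ▸ kil_acl _
  have hp : F ≤ w.Kp := hF ▸ (acl_mono (union_subset hf.lep
    (subset_union_left.trans hw.sub))).trans hf.cp.acl_eq.le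
  have ht : x.kt ≤ x.k' := hx.eq ▸ subset_union_left.trans (subset_acl _)
  have hτF : x.τ ∈ F := hK (hf.le' (hx.eq ▸ subset_acl _ (Or.inr rfl)))
  have h3 : k₃ ≤ F := hk₃ ▸ Subfield.closure_le.2
    (union_subset (union_subset (hf.le₁.trans hK) ((ht.trans hf.le').trans hK)) hE)
  have h4 : w.P.IdOn k₃ := hk₃ ▸ Plc.IdOn.closure (hf.id.union hw.idE)
  have hk : x.k ≤ k₃ := fun y hy => h2 (Or.inl (Or.inl (hf.le hy)))
  have hθ : ∀ j l, x.θ j l ∈ k₃ := fun j l => h2 (Or.inl (Or.inr (hx.th j l)))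
  have hG : GrM k₃ ⊤ w.G := hf.gr.mono (fun y hy => h2 (Or.inl (Or.inl hy))) le_top
  have hN : Ov k₃ x.N := hx.ob.fam.ov.mono fun y hy => h2 (Or.inr hy)
  have hM : ∀ {p : ι → ℂ}, (∀ j, p j ∈ F ∧ p j ≠ 0) → GrM F ⊤ (w.G * diagonal p) := fun hp =>
    (hG.mono h3 le_rfl).mul (.diagonal hp _)
  have h5 := hM fun j => ⟨hK (hf.pm j), hf.p0 j⟩
  have hu : ∀ {M : Matrix ι ι ℂ}, GrM F ⊤ M → pt A (M⁻¹ *ᵥ x.z) x.a ⊆ acl (F ∪ pt A x.z x.a) :=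
    fun h => pt_mulVec (fun i j => subset_acl _ (h.inv.mem i j)) _ _
  have h6 : acl (F ∪ pt A x.z x.a) ≤ w.Kp :=
    (acl_mono (union_subset hp (subset_union_right.trans hw.sub))).trans hf.cp.acl_eq.le
  obtain ⟨S, h7, h8, h9⟩ := exists_signs (u := w.M⁻¹ *ᵥ x.z) (R := act w.M x.N) hx.ob.ovr
    (h4.mono hk) (fun j l => ⟨h3 (hθ j l), h4 _ (hθ j l)⟩) (hk.trans h3) hp hc
    ((hN.mono h3).act h5.mem)
    (fun j => ⟨h6 (hu h5 (Or.inl ⟨j, rfl⟩)), by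
      rw [Fr.M, inv_mul_diag _ hf.p0, w.P.v_div_le_one (hf.p0 j)]
      refine (hf.bd j).elim id fun h => ?_
      simpa [(pow_pos (w.P.v_pos hτ) B₀).ne', mul_le_mul_iff_right₀ (pow_pos (w.P.v_pos hτ) B₀)]
        using h.trans (h1 j).le⟩)
    (fun j => hw.sub (Or.inr (Or.inr ⟨j, rfl⟩)))
    (by
      rw [Fr.M, finrank_act h5.det]
      exact (trd_le (finite_pt _ _) (hu h5)).trans ((trd_anti (finite_pt _ _)
        ((show (x.k' : Set ℂ) ⊆ F from hf.le'.trans hK).trans (subset_acl _))).trans hx.ob.ndg.le))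
    (fun j => let ⟨D, h1, _, h2, _, h3⟩ := hw.exD j
      ⟨D, ⟨hkil.ge h1.1, h1.2⟩, h2, (exD_iff h5.det h5.mem (hkil.ge h1.1)).2 h3⟩)
    fun i => let ⟨X, h1, _, h2⟩ := hw.exX i
      ⟨X, hkil.ge h1, h2⟩
  obtain ⟨Q, n, y, -, h10, h11, h12, h13, -⟩ := Plc.dvrc le_rfl (hc.mono h3) h4.triv
    (h7.union (finite_range w.p)) hτ hf.lt
  obtain ⟨Q', h14, -, h15, h16, h17⟩ := h9 Q fun a ha => (h13 a (Or.inr (Or.inl ha))).1
  have h18 : ∀ j, ∃ q t : ℕ, 0 < q ∧ 0 < t ∧ Q'.v (x.τ ^ t * w.p j ^ q) = 1 := fun j => by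
    obtain ⟨q, t, h18, h19, h20⟩ := exists_zpow (f := w.p j) h10 hτ h11
      (by rw [acl_acl_union, h12]; exact subset_acl _ (Or.inl (Or.inr (Or.inr ⟨j, rfl⟩))))
      (not_le.1 fun h => (h1 j).not_ge (Plc.v_mul_le (Plc.v_pow_le hf.lt.le _)
        ((h13 _ (Or.inr (Or.inr ⟨j, rfl⟩))).1.2 h)))
    exact ⟨q, t, h18, h19, (h14.eq_one (mul_mem (pow_mem hτF t) (pow_mem (hK (hf.pm j)) q))).1 h20⟩
  choose q t h18 h19 h20 using h18
  have he : 0 < ∏ j, q j := Finset.prod_pos fun j _ => h18 j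
  obtain ⟨σ, hσ⟩ := IsAlgClosed.exists_pow_nat_eq x.τ he
  have h21 : σ ≠ 0 := fun e => hτ (by rw [← hσ, e, zero_pow he.ne'])
  have h22 : σ ∈ F := by
    rw [hF]
    exact mem_acl_of_isAlgebraic (IsAlgebraic.of_pow he
      (hσ ▸ isAlgebraic_algebraMap (⟨_, hF ▸ hτF⟩ : acl (w.K₁ ∪ x.E : Set ℂ))))
  have h23 : Q'.v σ < 1 := (pow_lt_one_iff he.ne').1 (by
    rw [← map_pow, hσ]
    exact (h14.lt_one hτF).1 h11)
  obtain ⟨m, hm⟩ : ∃ m : ι → ℕ, m = fun j => t j * ∏ i ∈ Finset.univ.erase j, q i := ⟨_, rfl⟩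
  have h24 : ∀ j, Q'.v (σ ^ m j * w.p j) = 1 := fun j => (pow_eq_one_iff_left (h18 j).ne').1 (by
    rw [← map_pow, mul_pow, ← pow_mul, hm, mul_assoc,
      Finset.prod_erase_mul _ _ (Finset.mem_univ j), mul_comm (t j), pow_mul, hσ, h20])
  have h25 : Q'.IdOn k₃ := (h14.mono h3).lifts ((h13.mono subset_union_left).lifts h4)
  obtain ⟨b, hb⟩ := hx.ob.ovr.exists_red' (h25.mono hk) x.a
  have h26 := fun j => And.intro (inv_mem (pow_mem h22 (m j))) (inv_ne_zero (pow_ne_zero (m j) h21))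
  have h27 := hM h26
  have h28 : (w.G * diagonal fun j => (σ ^ m j)⁻¹)⁻¹ *ᵥ x.z = fun j => σ ^ m j * (w.G⁻¹ *ᵥ x.z) j :=
    funext fun j => by rw [inv_mul_diag _ fun j => (h26 j).2, div_inv_eq_mul, mul_comm]
  have h29 : ∀ j, Q'.v (σ ^ m j * (w.G⁻¹ *ᵥ x.z) j) ≤ 1 := fun j => by
    have h := Plc.v_mul_le (h24 j).le (h15 j)
    rwa [Fr.M, inv_mul_diag _ hf.p0, mul_assoc, mul_div_cancel₀ _ (hf.p0 j)] at h
  have h30 : ∀ i j, Q'.v (σ ^ m i)⁻¹ ≤ Q'.v (σ ^ m j)⁻¹ ↔ m i ≤ m j := fun i j => by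
    rw [map_inv₀, map_inv₀, map_pow, map_pow, inv_le_inv₀ (pow_pos (Q'.v_pos h21) _)
      (pow_pos (Q'.v_pos h21) _), pow_le_pow_iff_right_of_lt_one₀ (Q'.v_pos h21) h23]
  have h31 : acl (F ∪ pt A x.z x.a) ≤ acl (F ∪ pt A (w.M⁻¹ *ᵥ x.z) x.a) :=
    acl_le (union_subset (subset_union_left.trans (subset_acl _)) (by
      simpa [Fr.M, mul_nonsing_inv _ h5.det.isUnit] using
        pt_mulVec (fun i j => subset_acl _ (h5.mem i j)) (w.M⁻¹ *ᵥ x.z) x.a))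
  have h32 := sur_red (u := (w.G * diagonal fun j => (σ ^ m j)⁻¹)⁻¹ *ᵥ x.z)
    (R := act (w.G * diagonal fun j => (σ ^ m j)⁻¹) x.N) hx.ob.ovr (h25.mono hk) hb
    (fun j l => h25 _ (hθ j l)) (hk.trans h3) (subset_union_left.trans (subset_acl _))
    (fun j => ⟨hu h27 (Or.inl ⟨j, rfl⟩), h28 ▸ h29 j⟩)
    (fun j => subset_acl _ (Or.inr (Or.inr ⟨j, rfl⟩)))
    (fun j => by
      obtain ⟨D, h1, h2, h3⟩ := h16 j
      have h4 := Submodule.smul_mem _ (σ ^ m j * w.p j)⁻¹ ((exD_iff h5.det h5.mem h1.1).1 h3)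
      refine ⟨_, Submodule.smul_mem _ (σ ^ m j * w.p j)⁻¹ h1, (h2.ctr.mono h31).smul
        (by rw [map_inv₀, h24, inv_one]),
        (exD_iff h27.det h27.mem (Submodule.smul_mem _ _ h1.1)).2 ?_⟩
      rwa [smul_sub, ← map_smul, col_mul_diag, smul_smul, show (σ ^ m j * w.p j)⁻¹ * w.p j =
        (σ ^ m j)⁻¹ by rw [mul_inv, inv_mul_cancel_right₀ (hf.p0 j)],
        ← col_mul_diag _ fun j => (σ ^ m j)⁻¹] at h4)
    fun i => let ⟨X, h1, h2⟩ := h17 i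
      ⟨X, h1.kil, h1.ctr.mono h31, h2⟩
  rw [red_act_diag h25 hN hG (fun j => (h26 j).2) fun i j e => by
    rw [le_antisymm ((h30 i j).1 e.le) ((h30 j i).1 e.ge)], ini_congr h30, h28] at h32
  refine ⟨w.k₁, σ, _, m, Q', w.G, b, hf.c₁, hf.le, hw.free, he, hσ, fun j => ?_, h25.mono h2, h21,
    h23, hf.gr, h29, hb, fun v c => ?_⟩
  · rw [hm]
    exact mul_pos (h19 j) (Finset.prod_pos fun i _ => h18 i)
  · obtain ⟨D, h33, h34⟩ := h32 v c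
    exact ⟨D, kil_anti (Plc.IdOn.le_res (h25.mono h2) (h2.trans h3)) h33, h34⟩

end Pool.Agent.P.MP_f17f76_ag.Hgc
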