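import Pool.Agent.P.MP_f17f76_ag.E.Lm

/-!
Limits of states.
-/

namespace Pool.Agent.P.MP_f17f76_ag.Hgc

open Set Filter Matrix E AbVar N

/-- The coarsened limit place. -/
theorem Lm.exists_plc {B : Subfield ℂ} (l : Lm B) {P : ℕ → Plc ℂ ℂ} {F : ℕ → Subfield ℂ} {τ : ℂ}
    (hB : τ ∈ B) (h0 : τ ≠ 0) (h1 : ∀ n, (P n).v τ < 1) (h2 : ∀ n, (P n).Triv (F n))
    {T : Subfield ℂ} (hT : (T : Set ℂ).Countable) (h3 : T ≤ l.fld F) :
    ∃ Q : Plc ℂ ℂ, l.val P ≤ Q.O ∧ Q.IdOn T ∧ Q.v τ < 1 ∧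
      ∀ y, Q.v y < 1 → ∃ q : ℕ, Q.v y ^ q ≤ Q.v τ := by
  have : Uncountable ℂ := Complex.ofReal_injective.uncountable
  have : Countable T := hT
  have a1 : τ ∈ l.val P := l.fix τ hB ▸ l.mem_val.2 (.of_forall fun n => (h1 n).le)
  have a2 : ∀ a ∈ T, a ∈ Plc.crs _ τ a1 := fun a ha => Plc.le_crs a1 (by
    obtain ⟨x, rfl⟩ := l.surj a
    exact l.mem_val.2 ((l.mem_fld.1 (h3 ha)).mono fun n => h2 n _))
  obtain ⟨Q, hQ, h4⟩ := Plc.exists_of_O le_rfl (Plc.crs _ τ a1) T.subtype T.subtype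
    (fun a => a2 a a.2) fun a => by
      rw [← ValuationSubring.mem_nonunits_iff, ValuationSubring.mem_nonunits_iff_or]
      exact or_iff_left (not_not.2 (a2 _ (inv_mem a.2)))
  have a3 : ∀ y, Q.v y < 1 ↔ ∃ q : ℕ, (l.val P).valuation y ^ q < (l.val P).valuation τ := fun y => by
    rw [← Plc.crs_lt_one a1 h0, ← hQ]
    rfl
  have a4 : l.val P ≤ Q.O := hQ ▸ Plc.le_crs a1
  refine ⟨Q, a4, fun a ha => ⟨Q.mem_iff.1 (hQ ▸ a2 a ha), h4 ⟨a, ha⟩⟩, (a3 τ).2 ⟨2, ?_⟩,
    fun y hy => ((a3 y).1 hy).imp fun q hq => ?_⟩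
  · refine pow_lt_self_of_lt_one₀ (by simpa [zero_lt_iff] using h0) ?_ one_lt_two
    rw [← ValuationSubring.mem_nonunits_iff, ValuationSubring.mem_nonunits_iff_or,
      ← l.fix _ (inv_mem hB), l.mem_val]
    exact .inr fun h => let ⟨n, h⟩ := h.exists; (h1 n).not_ge (((P n).v_inv_le_one h0).1 h)
  · rw [← map_pow, ← Q.v_div_le_one h0, ← Q.mem_iff]
    refine a4 ((ValuationSubring.valuation_le_one_iff _ _).1 ?_)
    rw [map_div₀, map_pow]
    exact div_le_one_of_le₀ hq.le zero_le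

theorem lim {g N : ℕ} (A : AbVar g N) : S_LIM A := fun ι κ _ _ _ _ x B₀ s hx h => by
  choose w hw hr using fun n : ℕ => h (s - 1 / (n + 1)) (sub_lt_self s Nat.one_div_pos_of_nat)
  obtain ⟨l⟩ := exists_lm (countable_acl hx.ob.cnt)
  have b0 := subset_acl (x.k' ∪ x.E ∪ pt A x.z x.a : Set ℂ)
  have b1 : x.k' ≤ acl _ := fun _ h => b0 (.inl (.inl h))
  have b2 : x.E ≤ acl _ := fun _ h => b0 (.inl (.inr h))
  have b3 : ∀ i, x.z i ∈ acl _ := fun i => b0 (.inr (mem_pt_left i))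
  have b4 : ∀ i, A.crd x.a i ∈ acl _ := fun i => b0 (.inr (mem_pt_right i))
  have b5 := hx.ob.le.trans b1
  have b6 := b1 hx.τ_mem
  choose u hu hu' using fun n => (hw n).fr.pol
  choose D d1 d2 d3 d4 d5 using fun n => (hw n).exD
  choose X x1 x2 x3 x4 using fun n => (hw n).exX
  let G := l.mat fun n => (w n).G
  let p := l.vc fun n => (w n).p
  let k₁ := acl (x.k ∪ range fun q : ι × ι => G q.1 q.2 : Set ℂ)
  let K₁ := acl (x.k' ∪ k₁ ∪ range p : Set ℂ)
  have c1 : Cac k₁ := .acl (hx.ob.cac_k.cnt.union (countable_range _))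
  have c2 : Cac K₁ := .acl ((hx.ob.cac.cnt.union c1.cnt).union (countable_range _))
  have e1 : k₁ ≤ l.fld fun n => (w n).k₁ := l.acl_le (fun n => (hw n).fr.c₁) (union_subset
    (fun y hy => l.const_mem (b5 hy) fun n => (hw n).fr.le hy)
    (range_subset_iff.2 fun q => l.mem_fld' fun n => (hw n).fr.gr.mem _ _))
  have e2 : K₁ ≤ l.fld fun n => (w n).K₁ := l.acl_le (fun n => (hw n).fr.cK) (union_subset
    (union_subset (fun y hy => l.const_mem (b1 hy) fun n => (hw n).fr.le' hy)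
      (e1.trans (l.fld_mono fun n => (hw n).fr.le₁)))
    (range_subset_iff.2 fun q => l.mem_fld' fun n => (hw n).fr.pm _))
  obtain ⟨U, u1, u2, u3, u4⟩ := exists_stable (L := l.fld fun n => (w n).Kp)
    (Sum.elim (fun j => l.der fun n => D n j) fun i => l.der fun n => X n i)
    (S := K₁ ∪ (x.E ∪ pt A x.z x.a) ∪ range (l.vc u))
    ((c2.cnt.union (hx.ob.cE.union (finite_pt _ _).countable)).union (countable_range _))
    (union_subset (union_subset (e2.trans (l.fld_mono fun n => (hw n).fr.lep)) fun y hy =>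
      l.const_mem (b0 (hy.elim (fun h => .inl (.inr h)) .inr)) fun n => (hw n).sub hy)
      (range_subset_iff.2 fun j => l.mem_fld' fun n => (hu n j).1))
    (Sum.rec (fun j => l.der_mem fun n => d2 n j) fun i => l.der_mem fun n => x2 n i)
  have e3 := l.acl_le (fun n => (hw n).fr.cp) u3
  have u5 := u2.trans (subset_acl U)
  obtain ⟨Q, q1, q2, q3, q4⟩ := l.exists_plc (T := Subfield.closure (k₁ ∪ x.kt ∪ x.E)) b6 hx.τ_ne
    (fun n => (hw n).fr.lt) (fun n => (Plc.IdOn.closure ((hw n).fr.id.union (hw n).idE)).triv)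
    (countable_closure ((c1.cnt.union hx.cac.cnt).union hx.ob.cE))
    (Subfield.closure_le.2 (union_subset (union_subset
      (e1.trans (l.fld_mono fun n _ h => Subfield.subset_closure (.inl (.inl h)))) fun y hy =>
        l.const_mem (b1 (hx.kt_le hy)) fun n => Subfield.subset_closure (.inl (.inr hy)))
      fun y hy => l.const_mem (b2 hy) fun n => Subfield.subset_closure (.inr hy)))
  have m1 : G * diagonal p = l.mat fun n => (w n).M := by rw [l.mat_diagonal, l.mat_mul]; rfl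
  have m2 : G⁻¹ *ᵥ x.z = l.vc fun n => (w n).G⁻¹ *ᵥ x.z := by
    rw [l.mat_inv fun n => (hw n).fr.gr.det, ← l.mat_mulVec, l.vc_const b3]
  have k1 : ∀ Y : ℕ → Der ℂ, (∀ n, Y n ∈ kil ((w n).K₁ ∪ x.E : Set ℂ)) →
      l.der Y ∈ kil (K₁ ∪ x.E : Set ℂ) ∧ A.pv x.θ x.a (l.der Y) = l.vc fun n => A.pv x.θ x.a (Y n) :=
    fun Y hY => ⟨(kil_union _ _).ge ⟨kil_anti e2 (l.der_kil fun n => kil_anti subset_union_left (hY n)),
      l.der_kil' b2 fun n => kil_anti subset_union_right (hY n)⟩, l.pv_der hx.ob.ovr b5 b4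
      (fun j i => b1 (hx.ob.th j i)) fun n => kil_anti (fun y hy =>
        .inl ((hw n).fr.le₁ ((hw n).fr.le hy))) (hY n)⟩
  refine ⟨⟨k₁, K₁, acl U, Q, G, p⟩, ⟨⟨c1, c2, .acl u1, fun y hy => subset_acl _ (.inl hy),
    fun y hy => subset_acl _ (.inl (.inr hy)), fun y hy => subset_acl _ (.inl (.inl hy)),
    fun y hy => u5 (.inl (.inl hy)), q2.mono (subset_union_left.trans Subfield.subset_closure), q3,
    fun y _ => q4 y, ⟨det_ne_zero_of_right_inverse (l.mat_mul_inv fun n => (hw n).fr.gr.det),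
      fun i j => subset_acl _ (.inr ⟨(i, j), rfl⟩), fun i j e =>
        let ⟨n, e⟩ := (l.ne_iff.1 e).exists; (hw n).fr.gr.gr i j e⟩,
    fun j => l.ne_iff.2 (.of_forall fun n => (hw n).fr.p0 j), fun j => subset_acl _ (.inr ⟨j, rfl⟩),
    fun j => u5 (.inl (.inr (.inr (mem_pt_left j)))), fun j => ?_, l.vc u,
    fun j => ⟨u5 (.inr ⟨j, rfl⟩), l.v_le_one q1 (.of_forall fun n => (hu n j).2)⟩, ?_⟩,
    ((l.free b5 b0 fun n => (hw n).free).symm.mono subset_rfl
      (subset_union_right.trans' e1 |>.trans (subset_acl _))).symm,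
    q2.mono (subset_union_right.trans Subfield.subset_closure), fun y hy => u5 (.inl (.inr hy)),
    fun j => ⟨_, ⟨(k1 _ fun n => (d1 n j).1).1, ?_⟩, u4 (.inl j),
      (l.der_ctr q1 fun n => d3 n j).mono e3, fun i => ?_, ?_⟩,
    fun i => ⟨_, (k1 _ fun n => x1 n i).1, u4 (.inr i), (l.der_ctr q1 fun n => x3 n i).mono e3, ?_⟩⟩,
    fun j a q hq e => ?_⟩
  · rw [m2, ← l.fix _ b6, ← map_pow, Lm.vc, ← map_mul]
    exact (Ultrafilter.eventually_or.1 (.of_forall fun n => (hw n).fr.bd j)).imp (l.v_le q1)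
      (l.v_le_one q1)
  · rw [Fr.M, m1, l.mat_mulVec, (congrArg (· + _) (l.vc_const b3)).symm.trans (l.vc_add _ _),
      l.eval_vc (hx.cf.mono b1)]
    exact l.one_le_v q1 (.of_forall hu')
  · rw [SetLike.mem_coe, LinearMap.mem_ker, (k1 _ fun n => (d1 n j).1).2]
    exact (congrArg l.vc (funext fun n => (d1 n j).2)).trans (l.vc_const fun _ => zero_mem _)
  · rw [Fr.M, m1, l.mat_inv fun n => (hw n).fr.det, l.dv_der b3, l.mat_mulVec]
    exact l.v_le_one q1 (.of_forall fun n => d4 n j i)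
  · rw [Fr.M, m1, l.dv_der b3]
    exact (l.vc_sub _ fun n => (w n).M.col j).symm ▸ l.vc_mem_ann (hx.ob.fam.ov.mono b2) fun n => d5 n j
  · rw [(k1 _ fun n => x1 n i).2]
    refine (congrArg l.vc (funext fun n => x4 n i)).trans (l.vc_const fun j => ?_)
    rw [Pi.single_apply]
    split_ifs
    exacts [one_mem _, zero_mem _]
  · rw [← l.fix _ b6, l.zpow]
    simp only [p, Lm.vc, ← map_pow, ← map_mul]
    exact l.one_le_v q1 (((Tendsto.eventually_const_lt (u := (a : ℝ)) (v := (s - 0) * q)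
      (by simpa using e) ((tendsto_const_nhds.sub tendsto_one_div_add_atTop_nhds_zero_nat).mul_const
        _)).filter_mono Nat.hyperfilter_le_atTop).mono fun n => hr n j a q hq)

end Pool.Agent.P.MP_f17f76_ag.Hgc
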