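import Pool.Agent.P.MP_f17f76_ag.E.HgcAut

/-!
Residue objects and the growth argument.
-/

namespace Pool.Agent.P.MP_f17f76_ag.Hgc

open Set Module Matrix E AbVar

variable {g N : ℕ} {ι κ : Type} {A : AbVar g N} [Fintype ι] [DecidableEq ι] {x : Cx ι κ g} {B₀ : ℕ}
  {w : Fr ι} {c : ι → ℂ} {d : Cd ι κ g}

theorem IsFr.le_res (h : IsFr x B₀ w c) (ht : x.kt ≤ x.k') :
    (w.k₁ ∪ x.kt : Set ℂ) ⊆ w.P.res w.Kp :=
  h.id.le_res (union_subset (h.le₁.trans h.lep) ((ht.trans h.le').trans h.lep))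

theorem IsFr.cac_kap (h : IsFr x B₀ d.toFr d.c) : Cac d.kap :=
  Cac.acl ((Plc.countable_res h.cp.cnt).union (finite_range _).countable)

theorem IsFr.le_kap (h : IsFr x B₀ d.toFr d.c) (ht : x.kt ≤ x.k') :
    (d.k₁ ∪ x.kt : Set ℂ) ⊆ d.kap := (h.le_res ht).trans (sub_acl subset_union_left)

variable [Fintype κ] [DecidableEq κ]

theorem CC.θ_mem (h : CC A x B₀ d) (hx : IsCx A x) (i : κ) (l : Fin g) : d.θ x i l ∈ x.kt := by
  rw [Cd.θ, Finset.sum_apply]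
  exact sum_mem fun j _ => mul_mem (h.Tm i j) (hx.th j l)

theorem res (A : AbVar g N) : S_RES A := by
  intro ι κ _ _ _ _ x B₀ d hx h
  have ho := hx.ob
  have h1 := h.fr.le_kap hx.kt_le
  have h2 : d.k₁ ≤ d.kap := fun _ hy => h1 (Or.inl hy)
  have hc := h.fr.cac_kap.cnt.union (finite_pt (A := A) (fun j => d.P.r (d.u j)) d.b).countable
  obtain ⟨σ, h3, h4⟩ := exists_fresh ho.cac_k.cnt ho.cE hc
  have h5 : ∀ y ∈ x.k, σ y = y := fun y hy => h3 y (subset_acl _ hy)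
  have h6 : Free (x.k : Set ℂ) (σ '' x.E) d.k₁ :=
    h4.mono subset_rfl (sub_acl fun _ hy => Or.inr (Or.inl (h2 hy)))
  have := h.fr.c₁.alg
  have h7 : Fam d.k₁ (d.res x σ).E (d.res x σ).r (d.res x σ).N :=
    (ho.fam.cj h5).ini h.fr.le h6.symm h.fr.gr _
  have h8 := (h4.base (sub_acl h.fr.le) (sub_acl fun _ hy => Or.inr (Or.inl (h2 hy)))).symm.acl_right
  have h9 : ∀ (j : {i // i ∉ d.s}) i, d.θ x j i ∈ d.kap := fun j i => h1 (Or.inr (h.θ_mem hx j i))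
  obtain ⟨ω, h10, h11⟩ := amalg rfl (RingHom.id ℂ) (σ.symm : ℂ →+* ℂ) ho.cac_k.cnt h.fr.c₁.cnt
    (ho.cE.image σ) h6.symm (by simpa [image_image] using h.freeE)
    fun y hy => (σ.symm_apply_eq.2 (h3 y hy).symm).symm
  have h12 : ∀ y ∈ d.k₁, ω y = y := fun y hy => h10 y (subset_acl _ (Or.inr hy))
  have h13 : cj ω (d.res x σ).N = d.bar x.N := by
    refine (bar_cj d.toFr (fun i j => h12 _ (h.fr.gr.mem i j)) _).symm.trans ?_
    rw [cj_cj, ho.fam.ov.cj_eq fun y hy => (h11 _ (subset_acl _ (Or.inr ⟨y, hy, rfl⟩))).trans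
      (σ.symm_apply_apply y)]
  refine ⟨σ, h5, h6, ho.ovr.mono h.fr.le, h7, countable_acl (h.fr.c₁.cnt.union (ho.cE.image _)), h2,
    h.fr.cac_kap, h9, h8, h.ndg.swap (by rw [← h13, finrank_cj]) ?_⟩
  refine h7.swap_bot (F₁ := acl (d.kap ∪ pt A (fun j => d.P.r (d.u j)) d.b))
    (fun _ hy => subset_acl _ (Or.inl (h2 hy))) (h8.acl_left.mono (acl_mono subset_union_right)
      (sub_acl subset_union_right)) ((ho.ovr.mono h.fr.le).ov_tsp (sub_acl h2) (subset_acl _)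
        fun j i => subset_acl _ (Or.inl (h9 j i))).ann h12 (h13 ▸ h.ndg.inf_ann_tsp)

theorem grow (A : AbVar g N) (hI : S_INIT A) (hL : S_LIM A) (hC : S_CC A) (hE : S_EXP A)
    (hF : S_FIN A) : S_GROW A := by
  intro ι κ _ _ _ _ x hx h0 hP
  obtain ⟨B₀, s₀, h1⟩ := hI ι κ x hx h0
  let S : Set ℝ := {s | ∃ w, WS A x B₀ w ∧ w.Rad x.τ fun _ => s}
  by_cases hb : BddAbove S
  · obtain ⟨w, h2, h3⟩ := hL ι κ x B₀ (sSup S) hx fun t ht => by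
      obtain ⟨s, ⟨w, h2, h3⟩, h4⟩ := exists_lt_of_lt_csSup ⟨s₀, h1⟩ ht
      exact ⟨w, h2, h3.mono fun _ => h4.le⟩
    obtain ⟨w', h4, h5, h6⟩ := norm A ι κ x B₀ w _ h2 h3
    obtain ⟨d, h7, h8⟩ := hC ι κ x B₀ w' _ hx h4 h5 h6
    obtain ⟨σ, h9⟩ := res A ι κ x B₀ d hx h7
    obtain ⟨m, h10, h11⟩ := hP B₀ d σ h7 h9
    obtain ⟨q, h12, w'', h13, h14⟩ := hE ι κ x B₀ d _ σ m hx h7 h8 h9 h11
    have h15 : (0 : ℝ) < q := Nat.cast_pos.2 h12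
    have h16 := le_csSup hb (show sSup S + 1 / q ∈ S from ⟨w'', h13, h14.mono fun j => by
      gcongr
      exact_mod_cast h10 j⟩)
    linarith [one_div_pos.2 h15]
  · obtain ⟨s, ⟨w, h2, h3⟩, h4⟩ := not_bddAbove_iff.1 hb B₀
    exact hF ι κ x B₀ w _ hx h2 h3 fun _ => h4

end Pool.Agent.P.MP_f17f76_ag.Hgc
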