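import Pool.Agent.P.MP_f17f76_ag.E.Hs
import Pool.Agent.P.MP_f17f76_ag.E.An1

/-!
Internal holomorphic functions on the polydisc.
-/

namespace Pool.Agent.P.MP_f17f76_ag.N

open Set Filter Topology Hyperreal Metric E

set_option linter.unusedSectionVars false

noncomputable section

variable (I : Type) [Fintype I]

/-- Sequences of holomorphic functions on the unit polydisc. -/
def HS : Subring (ℕ → (I → ℂ) → ℂ) where
  carrier := {f | ∀ n, DifferentiableOn ℂ (f n) (ball 0 1)}
  mul_mem' ha hb n := (ha n).mul (hb n)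
  one_mem' _ := differentiableOn_const 1
  add_mem' ha hb n := (ha n).add (hb n)
  zero_mem' _ := differentiableOn_const 0
  neg_mem' ha n := (ha n).neg

/-- Sequences that vanish on the polydisc for most indices. -/
def HN : Ideal (HS I) where
  carrier := {f | ∀ᶠ n in UF, ∀ z ∈ ball (0 : I → ℂ) 1, f.1 n z = 0}
  add_mem' ha hb := (ha.and hb).mono fun _ h z hz =>
    (congrArg₂ (· + ·) (h.1 z hz) (h.2 z hz)).trans (add_zero _)
  zero_mem' := .of_forall fun _ _ _ => rfl
  smul_mem' c _ ha := ha.mono fun n h z hz => (congrArg (c.1 n z * ·) (h z hz)).trans (mul_zero _)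

/-- Internal holomorphic functions on the unit polydisc. -/
def H : Type := HS I ⧸ HN I

instance : CommRing (H I) := inferInstanceAs (CommRing (HS I ⧸ HN I))

variable {I} {J L : Type} [Fintype J] [Fintype L]

/-- The class of a sequence of holomorphic functions. -/
def H.mk : HS I →+* H I := Ideal.Quotient.mk (HN I)

theorem H.mk_surj : Function.Surjective (H.mk (I := I)) := Ideal.Quotient.mk_surjective

theorem H.mk_eq {f g : HS I} :
    H.mk f = H.mk g ↔ ∀ᶠ n in UF, ∀ z ∈ ball (0 : I → ℂ) 1, f.1 n z = g.1 n z :=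
  Ideal.Quotient.eq.trans (eventually_congr (.of_forall fun _ =>
    forall₂_congr fun _ _ => sub_eq_zero))

/-- Constant functions. -/
def cn : Cs →+* H I :=
  RingHom.liftOfSurjective qs qs_surj ⟨H.mk.comp
    { toFun := fun u => ⟨fun n _ => u n, fun _ => differentiableOn_const _⟩
      map_one' := rfl, map_mul' := fun _ _ => rfl, map_zero' := rfl, map_add' := fun _ _ => rfl },
    fun _ hu => (H.mk_eq (g := 0)).2 ((qs_eq_zero.1 hu).mono fun _ h _ _ => h)⟩

theorem cn_qs (u : ℕ → ℂ) :
    cn (qs u) = H.mk (I := I) ⟨fun n _ => u n, fun _ => differentiableOn_const _⟩ :=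
  RingHom.liftOfSurjective_comp_apply _ _ _ _

instance : Algebra Cs (H I) := cn.toAlgebra

theorem algebraMap_eq_cn : algebraMap Cs (H I) = cn := rfl

open Classical in
/-- The retraction of space to the polydisc which sends outer points to the origin. -/
def clip (z : I → ℂ) : I → ℂ := if z ∈ ball (0 : I → ℂ) 1 then z else 0

theorem clip_mem (z : I → ℂ) : clip z ∈ ball (0 : I → ℂ) 1 := by
  unfold clip
  split_ifs with h
  exacts [h, mem_ball_self one_pos]

/-- Evaluation at an internal point of the polydisc. -/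
def ev (x : I → Cs) : H I →+* Cs :=
  Ideal.Quotient.lift (HN I) (qs.comp
    { toFun := fun f n => f.1 n (clip (rep x n))
      map_one' := rfl, map_mul' := fun _ _ => rfl, map_zero' := rfl, map_add' := fun _ _ => rfl })
    fun _ hf => qs_eq_zero.2 (hf.mono fun _ h => h _ (clip_mem _))

theorem ev_mk {u : ℕ → I → ℂ} (hu : Pt (vec u)) (f : HS I) :
    ev (vec u) (H.mk f) = qs fun n => f.1 n (u n) :=
  qs_eq.2 (((rep_vec u).and (pt_vec.1 hu)).mono fun n h => by
    change f.1 n (clip _) = _
    rw [h.1, clip, if_pos h.2])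

theorem ev_mk' {x : I → Cs} (hx : Pt x) (f : HS I) : ev x (H.mk f) = app f.1 x := by
  obtain ⟨u, rfl⟩ := vec_surj x
  rw [ev_mk hx, app_vec]

theorem ev_zero_mk (f : HS I) : ev 0 (H.mk f) = qs fun n => f.1 n 0 :=
  ev_mk (u := 0) Pt.zero f

@[simp] theorem ev_cn (x : I → Cs) (a : Cs) : ev x (cn a) = a := by
  obtain ⟨u, rfl⟩ := qs_surj a
  rw [cn_qs]
  rfl

@[simp] theorem ev_smul (x : I → Cs) (a : Cs) (g : H I) : ev x (a • g) = a * ev x g := by
  rw [Algebra.smul_def, map_mul, algebraMap_eq_cn, ev_cn]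

/-- Transfer between internal points and uniform statements. -/
theorem forall_pt {p : ℕ → (I → ℂ) → Prop} :
    (∀ u, Pt (vec u) → ∀ᶠ n in UF, p n (u n)) ↔ ∀ᶠ n in UF, ∀ z ∈ ball 0 1, p n z := by
  refine ⟨fun h => ?_, fun h u hu => (h.and (pt_vec.1 hu)).mono fun n hn => hn.1 _ hn.2⟩
  refine forall_hold.1 fun x => (h (fun n => clip (rep x n))
    (pt_vec.2 (.of_forall fun n => clip_mem _))).mono fun n hn hz => ?_
  rwa [clip, if_pos hz] at hn

theorem H.ext {g g' : H I} (h : ∀ x, Pt x → ev x g = ev x g') : g = g' := by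
  obtain ⟨f, rfl⟩ := H.mk_surj g
  obtain ⟨f', rfl⟩ := H.mk_surj g'
  exact H.mk_eq.2 (forall_pt.1 fun u hu => qs_eq.1 (by rw [← ev_mk hu, ← ev_mk hu, h _ hu]))

/-- A sequence that is holomorphic for most indices defines an element. -/
theorem exists_H {f : ℕ → (I → ℂ) → ℂ} (h : ∀ᶠ n in UF, DifferentiableOn ℂ (f n) (ball 0 1)) :
    ∃ g : HS I, ∀ᶠ n in UF, g.1 n = f n := by
  classical
  refine ⟨⟨fun n => if DifferentiableOn ℂ (f n) (ball 0 1) then f n else 0, fun n => ?_⟩,
    h.mono fun n hn => if_pos hn⟩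
  beta_reduce
  split_ifs with h
  exacts [h, differentiableOn_const 0]

/-- The coordinate functions. -/
def xc (i : I) : H I := H.mk ⟨fun _ z => z i, fun _ => by fun_prop⟩

theorem ev_xc {x : I → Cs} (hx : Pt x) (i : I) : ev x (xc i) = x i := by
  obtain ⟨u, rfl⟩ := vec_surj x
  exact ev_mk hx _

/-- The value of a vector of functions. -/
def evv (x : I → Cs) {κ : Type} (w : κ → H I) : κ → Cs := fun k => ev x (w k)

theorem exists_reps {κ : Type} (w : κ → H I) : ∃ f : κ → HS I, (fun k => H.mk (f k)) = w :=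
  ⟨fun k => (H.mk_surj (w k)).choose, funext fun k => (H.mk_surj (w k)).choose_spec⟩

theorem evv_mk {u : ℕ → I → ℂ} (hu : Pt (vec u)) {κ : Type} (f : κ → HS I) :
    evv (vec u) (fun k => H.mk (f k)) = vec fun n k => (f k).1 n (u n) :=
  funext fun _ => ev_mk hu _

/-- `φ` maps the polydisc to the polydisc. -/
def Maps (φ : I → H J) : Prop := ∀ x, Pt x → Pt (evv x φ)

theorem maps_mk {f : I → HS J} : Maps (fun i => H.mk (f i)) ↔
    ∀ᶠ n in UF, ∀ z ∈ ball 0 1, (fun i => (f i).1 n z) ∈ ball (0 : I → ℂ) 1 := by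
  rw [← forall_pt]
  exact ⟨fun h u hu => pt_vec.1 (evv_mk hu f ▸ h _ hu), fun h x hx => by
    obtain ⟨u, rfl⟩ := vec_surj x
    rw [evv_mk hx, pt_vec]
    exact h u hx⟩

/-- Composition with an internal function that is holomorphic on the values. -/
theorem exists_cmp (w : I → H J) {f : ℕ → (I → ℂ) → ℂ}
    (h : ∀ x, Pt x → Hold (fun n z => DifferentiableAt ℂ (f n) z) (evv x w)) :
    ∃ g : H J, ∀ x, Pt x → ev x g = app f (evv x w) := by
  obtain ⟨w, rfl⟩ := exists_reps w
  have h1 := (forall_pt (p := fun n z => DifferentiableAt ℂ (f n) fun i => (w i).1 n z)).1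
    fun u hu => by simpa only [evv_mk hu w, hold_vec] using h _ hu
  obtain ⟨g, hg⟩ := exists_H (f := fun n z => f n fun i => (w i).1 n z) (h1.mono fun n hn z hz =>
    (hn z hz).comp_differentiableWithinAt z (differentiableWithinAt_pi.2 fun i => (w i).2 n z hz))
  refine ⟨H.mk g, fun x hx => ?_⟩
  obtain ⟨u, rfl⟩ := vec_surj x
  rw [ev_mk hx, evv_mk hx, app_vec]
  exact qs_eq.2 (hg.mono fun n hn => by rw [hn])

theorem exists_pull {φ : I → H J} (h : Maps φ) (g : H I) :
    ∃ g' : H J, ∀ x, Pt x → ev x g' = ev (evv x φ) g := by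
  obtain ⟨f, rfl⟩ := H.mk_surj g
  obtain ⟨g', hg⟩ := exists_cmp φ (f := f.1) fun x hx => by
    have := h x hx
    rw [← vec_rep (evv x φ), pt_vec] at this
    exact this.mono fun n hn => (f.2 n).differentiableAt (isOpen_ball.mem_nhds hn)
  exact ⟨g', fun x hx => by rw [hg x hx, ev_mk' (h x hx)]⟩

open Classical in
/-- Pullback along an internal holomorphic map of polydiscs. -/
def pull (φ : I → H J) : H I →+* H J :=
  if h : Maps φ then
    { toFun := fun g => (exists_pull h g).choose
      map_one' := H.ext fun x hx => by rw [(exists_pull h _).choose_spec x hx, map_one, map_one]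
      map_zero' := H.ext fun x hx => by rw [(exists_pull h _).choose_spec x hx, map_zero, map_zero]
      map_mul' := fun a b => H.ext fun x hx => by
        rw [map_mul, (exists_pull h _).choose_spec x hx, (exists_pull h _).choose_spec x hx,
          (exists_pull h _).choose_spec x hx, map_mul]
      map_add' := fun a b => H.ext fun x hx => by
        rw [map_add, (exists_pull h _).choose_spec x hx, (exists_pull h _).choose_spec x hx,
          (exists_pull h _).choose_spec x hx, map_add] }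
  else cn.comp (ev 0)

theorem ev_pull {φ : I → H J} (h : Maps φ) {x : J → Cs} (hx : Pt x) (g : H I) :
    ev x (pull φ g) = ev (evv x φ) g := by
  rw [pull, dif_pos h]
  exact (exists_pull h g).choose_spec x hx

@[simp] theorem pull_cn (φ : I → H J) (a : Cs) : pull φ (cn a) = cn a := by
  by_cases h : Maps φ
  · exact H.ext fun x hx => by rw [ev_pull h hx, ev_cn, ev_cn]
  · rw [pull, dif_neg h, RingHom.comp_apply, ev_cn]

theorem pull_xc {φ : I → H J} (h : Maps φ) (i : I) : pull φ (xc i) = φ i :=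
  H.ext fun x hx => by rw [ev_pull h hx, ev_xc (h x hx), evv]

theorem evv_pull {φ : I → H J} (h : Maps φ) {x : J → Cs} (hx : Pt x) {κ : Type} (w : κ → H I) :
    evv x (fun k => pull φ (w k)) = evv (evv x φ) w := funext fun _ => ev_pull h hx _

theorem Maps.comp {φ : I → H J} {ψ : J → H L} (h : Maps φ) (h' : Maps ψ) :
    Maps fun i => pull ψ (φ i) := fun x hx => evv_pull h' hx φ ▸ h _ (h' x hx)

theorem pull_pull {φ : I → H J} {ψ : J → H L} (h : Maps φ) (h' : Maps ψ) (g : H I) :
    pull ψ (pull φ g) = pull (fun i => pull ψ (φ i)) g :=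
  H.ext fun x hx => by
    rw [ev_pull h' hx, ev_pull h (h' x hx), ev_pull (h.comp h') hx, evv_pull h' hx]

/-- The derivative of a sequence in a fixed direction. -/
def sder (v : I → ℂ) (f : HS I) : HS I :=
  ⟨fun n z => fderiv ℂ (f.1 n) z v, fun n => diffOn_fderiv_apply isOpen_ball (f.2 n) v⟩

theorem sder_congr (v : I → ℂ) {f g : HS I} (h : H.mk f = H.mk g) :
    H.mk (sder v f) = H.mk (sder v g) :=
  H.mk_eq.2 ((H.mk_eq.1 h).mono fun n hn z hz => by
    change fderiv ℂ _ z v = fderiv ℂ _ z v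
    rw [Filter.EventuallyEq.fderiv_eq (mem_of_superset (isOpen_ball.mem_nhds hz) hn)])

theorem sdiff (f : HS I) (n : ℕ) {z : I → ℂ} (hz : z ∈ ball (0 : I → ℂ) 1) :
    DifferentiableAt ℂ (f.1 n) z := (f.2 n).differentiableAt (isOpen_ball.mem_nhds hz)

/-- The derivative in a standard direction, as a function. -/
def ddF (v : I → ℂ) (g : H I) : H I := H.mk (sder v (H.mk_surj g).choose)

theorem ddF_mk (v : I → ℂ) (f : HS I) : ddF v (H.mk f) = H.mk (sder v f) :=
  sder_congr v (H.mk_surj _).choose_spec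

theorem ddF_mul (v : I → ℂ) (a b : H I) : ddF v (a * b) = a * ddF v b + b * ddF v a := by
  obtain ⟨f, rfl⟩ := H.mk_surj a
  obtain ⟨g, rfl⟩ := H.mk_surj b
  simp only [← map_mul, ← map_add, ddF_mk]
  exact H.mk_eq.2 (.of_forall fun n z hz => congrArg (· v)
    (fderiv_mul (sdiff f n hz) (sdiff g n hz)))

theorem ddF_cn (v : I → ℂ) (a : Cs) : ddF v (cn a : H I) = 0 := by
  obtain ⟨u, rfl⟩ := qs_surj a
  rw [cn_qs, ddF_mk]
  exact (H.mk_eq (g := 0)).2 (.of_forall fun n z _ => by simp [sder])

variable [DecidableEq I]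

/-- The derivative with respect to a coordinate. -/
def dd (i : I) : Derivation Cs (H I) (H I) :=
  Derivation.mk'
    { toFun := ddF (Pi.single i 1)
      map_add' := fun a b => by
        obtain ⟨f, rfl⟩ := H.mk_surj a
        obtain ⟨g, rfl⟩ := H.mk_surj b
        simp only [← map_add, ddF_mk]
        exact H.mk_eq.2 (.of_forall fun n z hz => congrArg (· (Pi.single i 1))
          (fderiv_add (sdiff f n hz) (sdiff g n hz)))
      map_smul' := fun a g => by
        simp only [Algebra.smul_def, algebraMap_eq_cn, ddF_mul, ddF_cn, RingHom.id_apply, mul_zero,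
          add_zero] }
    fun a b => ddF_mul _ a b

theorem dd_mk (i : I) (f : HS I) : dd i (H.mk f) = H.mk (sder (Pi.single i 1) f) := ddF_mk _ f

@[simp] theorem dd_cn (i : I) (a : Cs) : dd i (cn a : H I) = 0 := ddF_cn _ a

/-- Iterated derivatives along a word. -/
def dw : List I → H I → H I
  | [], g => g
  | i :: l, g => dd i (dw l g)

omit [DecidableEq I]

/-- A bound on the whole polydisc. -/
def Le (g : H I) (a : ℝ*) : Prop := ∀ x, Pt x → nm (ev x g) ≤ a

/-- Strongly stable functions. -/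
def Stab (g : H I) : Prop :=
  ev 0 g ≠ 0 ∧ ∀ x, Pt x → Ll (nm (ev x g - ev 0 g)) (nm (ev 0 g))

/-- All nonzero elements have stable images. -/
def StabH {K : Type} [Field K] (ι : K →+* H I) : Prop := ∀ a, a ≠ 0 → Stab (ι a)

/-- All values at the origin are polynomially bounded. -/
def PG (T : ℝ*) {K : Type} [Field K] (e : K →+* Cs) : Prop := ∀ a, Poly T (nm (e a))

theorem le_mk {f : HS I} {a : ℕ → ℝ} :
    Le (H.mk f) (sr a) ↔ ∀ᶠ n in UF, ∀ z ∈ ball 0 1, ‖f.1 n z‖ ≤ a n := by
  rw [← forall_pt]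
  exact ⟨fun h u hu => sr_le.1 (by simpa only [ev_mk hu, nm_qs] using h _ hu), fun h x hx => by
    obtain ⟨u, rfl⟩ := vec_surj x
    rw [ev_mk hx, nm_qs, sr_le]
    exact h u hx⟩

end

end Pool.Agent.P.MP_f17f76_ag.N
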