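import Pool.Agent.P.MP_f17f76_ag.E.Hs
import Pool.Agent.P.MP_f17f76_ag.E.Plc

/-!
The calculus of sizes, the standard part, and consequences of saturation.
-/

namespace Pool.Agent.P.MP_f17f76_ag.N

open Set Filter Topology Hyperreal Cardinal

noncomputable section

variable {a b c d T : ℝ*}

theorem Lc.of_le (h : a ≤ b) : Lc a b := ⟨1, by simpa⟩

theorem Lc.refl (a : ℝ*) : Lc a a := .of_le le_rfl

theorem Lc.trans (h : Lc a b) (h' : Lc b c) : Lc a c :=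
  let ⟨k, h⟩ := h; let ⟨m, h'⟩ := h'
  ⟨k * m, h.trans (by push_cast; rw [mul_assoc]; gcongr)⟩

theorem Lc.trans_le (h : Lc a b) (h' : b ≤ c) : Lc a c := h.trans (.of_le h')

theorem Lc.le_trans (h : a ≤ b) (h' : Lc b c) : Lc a c := (Lc.of_le h).trans h'

theorem Lc.add (h : Lc a c) (h' : Lc b c) : Lc (a + b) c :=
  let ⟨k, h⟩ := h; let ⟨m, h'⟩ := h'
  ⟨k + m, by push_cast; linarith⟩

theorem Lc.zero (a : ℝ*) : Lc 0 a := ⟨0, by simp⟩

theorem Lc.sum {ι : Type} {s : Finset ι} {f : ι → ℝ*} (h : ∀ i ∈ s, Lc (f i) c) :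
    Lc (∑ i ∈ s, f i) c := Finset.sum_induction f (Lc · c) (fun _ _ => Lc.add) (.zero c) h

theorem Lc.mul_right (h : Lc a b) (hc : 0 ≤ c) : Lc (a * c) (b * c) :=
  let ⟨k, h⟩ := h; ⟨k, by rw [← mul_assoc]; gcongr⟩

theorem Lc.mul_left (h : Lc a b) (hc : 0 ≤ c) : Lc (c * a) (c * b) := by
  simpa [mul_comm] using h.mul_right hc

theorem Lc.mul (h : Lc a b) (h' : Lc c d) (hc : 0 ≤ c) (hb : 0 ≤ b) : Lc (a * c) (b * d) :=
  (h.mul_right hc).trans (h'.mul_left hb)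

theorem Lc.mul_one (h : Lc a 1) (h' : Lc c 1) (hc : 0 ≤ c) : Lc (a * c) 1 := by
  simpa using h.mul h' hc zero_le_one

theorem Lc.pow (h : Lc a b) (ha : 0 ≤ a) (n : ℕ) : Lc (a ^ n) (b ^ n) :=
  let ⟨k, h⟩ := h; ⟨k ^ n, by push_cast; rw [← mul_pow]; gcongr⟩

theorem Lc.prod {ι : Type} {s : Finset ι} {f g : ι → ℝ*} (h : ∀ i ∈ s, Lc (f i) (g i))
    (hf : ∀ i ∈ s, 0 ≤ f i) : Lc (∏ i ∈ s, f i) (∏ i ∈ s, g i) := by
  choose! k hk using h
  exact ⟨∏ i ∈ s, k i, by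
    push_cast; rw [← Finset.prod_mul_distrib]; exact Finset.prod_le_prod hf hk⟩

theorem Lc.pos (h : Lc a b) (hb : 0 ≤ b) : ∃ k : ℕ, 0 < k ∧ a ≤ k * b :=
  let ⟨k, h⟩ := h; ⟨k + 1, k.succ_pos, by push_cast; linarith⟩

theorem coe_nat (k : ℕ) : ((k : ℝ) : ℝ*) = k := map_natCast coeRingHom k

theorem lc_coe (r : ℝ) : Lc r 1 :=
  let ⟨k, h⟩ := exists_nat_ge r; ⟨k, by rw [mul_one, ← coe_nat]; exact coe_le_coe.2 h⟩

theorem lc_nat (k : ℕ) : Lc k 1 := ⟨k, by simp⟩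

theorem lc_coe_mul (r : ℝ) (ha : 0 ≤ a) : Lc (r * a) a := by simpa using (lc_coe r).mul_right ha

theorem lc_one_coe {r : ℝ} (hr : 0 < r) : Lc 1 r := by
  have := lc_coe_mul r⁻¹ (coe_pos.2 hr).le
  rwa [← coe_mul, inv_mul_cancel₀ hr.ne'] at this

theorem lc_div (hb : 0 < b) : Lc (a / b) 1 ↔ Lc a b := by
  simp only [Lc, mul_one, div_le_iff₀ hb]

theorem Lc.inv (h : Lc a b) (ha : 0 < a) (hb : 0 < b) : Lc b⁻¹ a⁻¹ :=
  let ⟨k, h⟩ := h; ⟨k, by rwa [← div_eq_mul_inv, le_div_iff₀ ha, inv_mul_le_iff₀ hb, mul_comm]⟩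

theorem Lc.max (h : Lc a c) (h' : Lc b c) : Lc (max a b) c := by
  rcases max_choice a b with e | e <;> rwa [e]

theorem Ll.nonneg (h : Ll a b) : 0 ≤ b := by simpa using h 0

theorem Ll.le (h : Ll a b) : a ≤ b := by simpa using h 1

theorem Ll.lc (h : Ll a b) : Lc a b := .of_le h.le

theorem Ll.zero (h : 0 ≤ a) : Ll 0 a := fun _ => by simpa

theorem Lc.trans_ll (h : Lc a b) (h' : Ll b c) : Ll a c := fun k =>
  let ⟨m, h⟩ := h
  (mul_le_mul_of_nonneg_left h k.cast_nonneg).trans (by simpa [mul_assoc] using h' (k * m))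

theorem Ll.trans_lc (h : Ll a b) (h' : Lc b c) (hc : 0 ≤ c) : Ll a c := fun k => by
  obtain ⟨m, hm, h'⟩ := h'.pos hc
  have := (h (m * k)).trans h'
  rwa [Nat.cast_mul, mul_assoc, mul_le_mul_iff_right₀ (by positivity)] at this

theorem Ll.trans (h : Ll a b) (h' : Ll b c) : Ll a c := h.lc.trans_ll h'

theorem Ll.trans_le (h : Ll a b) (h' : b ≤ c) : Ll a c := fun k => (h k).trans h'

theorem Ll.le_trans (h : a ≤ b) (h' : Ll b c) : Ll a c := (Lc.of_le h).trans_ll h'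

theorem Ll.add (h : Ll a c) (h' : Ll b c) : Ll (a + b) c := fun k => by
  have h1 := h (2 * k)
  have h2 := h' (2 * k)
  push_cast at h1 h2
  linarith

theorem Ll.sum {ι : Type} {s : Finset ι} {f : ι → ℝ*} (hc : 0 ≤ c) (h : ∀ i ∈ s, Ll (f i) c) :
    Ll (∑ i ∈ s, f i) c := Finset.sum_induction f (Ll · c) (fun _ _ => Ll.add) (.zero hc) h

theorem Ll.max (h : Ll a c) (h' : Ll b c) : Ll (max a b) c := by
  rcases max_choice a b with e | e <;> rwa [e]

theorem Ll.mul_right (h : Ll a b) (hc : 0 ≤ c) : Ll (a * c) (b * c) := fun k => by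
  rw [← mul_assoc]
  exact mul_le_mul_of_nonneg_right (h k) hc

theorem Ll.mul_left (h : Ll a b) (hc : 0 ≤ c) : Ll (c * a) (c * b) := by
  simpa [mul_comm] using h.mul_right hc

theorem Ll.mul_lc (h : Ll a b) (h' : Lc c d) (hc : 0 ≤ c) (hd : 0 ≤ d) : Ll (a * c) (b * d) :=
  (h.mul_right hc).trans_lc (h'.mul_left h.nonneg) (mul_nonneg h.nonneg hd)

theorem Lc.mul_ll (h : Lc a b) (h' : Ll c d) (ha : 0 ≤ a) (hb : 0 ≤ b) : Ll (a * c) (b * d) := by
  simpa [mul_comm] using h'.mul_lc h ha hb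

theorem Ll.mul_one (h : Ll a 1) (h' : Lc c 1) (hc : 0 ≤ c) : Ll (a * c) 1 := by
  simpa using h.mul_lc h' hc zero_le_one

theorem Lc.mul_inf (h : Lc a 1) (h' : Ll c 1) (ha : 0 ≤ a) : Ll (a * c) 1 := by
  simpa using h.mul_ll h' ha zero_le_one

theorem Ll.pow (h : Ll a b) (ha : 0 ≤ a) {n : ℕ} (hn : n ≠ 0) : Ll (a ^ n) (b ^ n) := by
  obtain ⟨n, rfl⟩ := Nat.exists_eq_succ_of_ne_zero hn
  rw [pow_succ', pow_succ']
  exact h.mul_lc (h.lc.pow ha n) (pow_nonneg ha n) (pow_nonneg h.nonneg n)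

theorem Ll.of_pow {n : ℕ} (h : Ll (a ^ n) (b ^ n)) (hb : 0 ≤ b) (hn : n ≠ 0) : Ll a b := fun k =>
  le_of_pow_le_pow_left₀ hn hb (by simpa [mul_pow] using h (k ^ n))

theorem Lc.of_pow {n : ℕ} (h : Lc (a ^ n) (b ^ n)) (hb : 0 ≤ b) (hn : n ≠ 0) : Lc a b := by
  obtain ⟨k, hk, h⟩ := h.pos (pow_nonneg hb n)
  refine ⟨k, le_of_pow_le_pow_left₀ hn (by positivity) (h.trans ?_)⟩
  rw [mul_pow]
  gcongr
  exact le_self_pow₀ (Nat.one_le_cast.2 hk) hn

theorem Ll.self (h : Ll a a) : a ≤ 0 := by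
  have := h 2
  push_cast at this
  linarith

theorem Ll.not_lc (h : Ll a b) (hb : 0 < b) : ¬ Lc b a := fun h' => hb.not_ge (h'.trans_ll h).self

theorem lc_or_ll (a b : ℝ*) : Lc a b ∨ Ll b a :=
  or_iff_not_imp_left.2 fun h k => (not_le.1 fun h' => h ⟨k, h'⟩).le

theorem Ll.lt (h : Ll a b) (hb : 0 < b) : a < b := by
  have := h 2
  push_cast at this
  linarith

theorem ll_div (hb : 0 < b) : Ll (a / b) 1 ↔ Ll a b := by
  simp only [Ll, ← mul_div_assoc, div_le_one hb]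

theorem Ll.inv (h : Ll a b) (ha : 0 < a) : Ll b⁻¹ a⁻¹ := fun k => by
  have hb := ha.trans_le h.le
  rw [← div_eq_mul_inv, div_le_iff₀ hb, le_inv_mul_iff₀ ha, mul_comm]
  exact h k

theorem Ll.le_coe_mul (h : Ll a b) {δ : ℝ} (hδ : 0 < δ) : a ≤ δ * b := by
  simpa using (((lc_one_coe hδ).mul_ll h zero_le_one (coe_pos.2 hδ).le)).le

theorem Ll.le_coe (h : Ll a 1) {δ : ℝ} (hδ : 0 < δ) : a ≤ δ := by simpa using h.le_coe_mul hδ

theorem ll_of_forall (hb : 0 ≤ b) (h : ∀ δ : ℝ, 0 < δ → a ≤ δ * b) : Ll a b := fun k => by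
  have := h ((k + 1 : ℕ) : ℝ)⁻¹ (by positivity)
  rw [coe_inv, coe_nat, le_inv_mul_iff₀ (by positivity)] at this
  rcases le_total 0 a with h | h
  · push_cast at this
    linarith
  · exact (mul_nonpos_of_nonneg_of_nonpos k.cast_nonneg h).trans hb

theorem Ll.coe_le {r : ℝ} (h : Ll r 1) : r ≤ 0 :=
  not_lt.1 fun hr => h.not_lc one_pos (lc_one_coe hr)

theorem ll_sr {u : ℕ → ℝ} (hu : ∀ n, 0 ≤ u n) : Ll (sr u) 1 ↔ Tendsto u UF (𝓝 0) :=
  ⟨fun h => tendsto_order.2 ⟨fun _ hr => .of_forall fun n => hr.trans_le (hu n), fun r hr =>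
    (sr_le.1 (h.le_coe (half_pos hr))).mono fun _ hn => hn.trans_lt (half_lt_self hr)⟩,
    fun h => ll_of_forall zero_le_one fun δ hδ => by
      rw [mul_one]
      exact sr_le.2 (h.eventually_le_const hδ)⟩

theorem lc_sr {u : ℕ → ℝ} : Lc (sr u) 1 ↔ ∃ C : ℝ, ∀ᶠ n in UF, u n ≤ C :=
  ⟨fun ⟨k, h⟩ => ⟨k, sr_le.1 (by rwa [mul_one, ← coe_nat] at h)⟩,
    fun ⟨C, h⟩ => Lc.le_trans (sr_le.2 h) (lc_coe C)⟩

/-! ### Roots and cuts -/

theorem exists_root (ha : 0 ≤ a) {m : ℕ} (hm : m ≠ 0) : ∃ b, 0 ≤ b ∧ b ^ m = a := by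
  obtain ⟨u, rfl⟩ := sr_surj a
  refine ⟨sr fun n => u n ^ (m : ℝ)⁻¹, (sr_le (u := 0)).2 ?_, ?_⟩
  · exact ((sr_le (u := 0)).1 ha).mono fun n hn => Real.rpow_nonneg hn _
  · rw [← map_pow]
    exact sr_eq.2 (((sr_le (u := 0)).1 ha).mono fun n hn => Real.rpow_inv_natCast_pow hn hm)

theorem exists_root_pos (ha : 0 < a) {m : ℕ} (hm : m ≠ 0) : ∃ b, 0 < b ∧ b ^ m = a :=
  let ⟨b, h1, h2⟩ := exists_root ha.le hm
  ⟨b, h1.lt_of_ne fun e => ha.ne' (by rw [← h2, ← e, zero_pow hm]), h2⟩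

theorem exists_btw_seq (f g : ℕ → ℝ*) (h : ∀ i j, f i < g j) : ∃ c, ∀ i, f i < c ∧ c < g i := by
  choose u hu using fun i => sr_surj (f i)
  choose v hv using fun i => sr_surj (g i)
  obtain ⟨w, hw⟩ := saturation (X := ℝ) (p := fun k n z => u k n < z ∧ z < v k n) fun m => by
    have : ∀ᶠ n in UF, ∀ i ∈ Finset.range (m + 1), ∀ j ∈ Finset.range (m + 1), u i n < v j n := by
      simp only [eventually_all_finset]
      exact fun i _ j _ => sr_lt.1 (by rw [hu, hv]; exact h i j)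
    refine this.mono fun n hn => ?_
    obtain ⟨i, hi, h1⟩ := (Finset.range (m + 1)).exists_max_image (u · n) (by simp)
    obtain ⟨j, hj, h2⟩ := (Finset.range (m + 1)).exists_min_image (v · n) (by simp)
    obtain ⟨z, h3, h4⟩ := exists_between (hn i hi j hj)
    exact ⟨z, fun k hk => ⟨(h1 k (by simpa [Nat.lt_succ_iff])).trans_lt h3,
      h4.trans_le (h2 k (by simpa [Nat.lt_succ_iff]))⟩⟩
  exact ⟨sr w, fun i => ⟨hu i ▸ sr_lt.2 ((hw i).mono fun _ h => h.1),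
    hv i ▸ sr_lt.2 ((hw i).mono fun _ h => h.2)⟩⟩

theorem exists_gt {A : Set ℝ*} (hA : A.Countable) : ∃ c, ∀ a ∈ A, a < c := by
  obtain ⟨f, hf⟩ := (hA.insert 0).exists_eq_range (insert_nonempty _ _)
  choose u hu using fun i => sr_surj (f i)
  obtain ⟨w, hw⟩ := saturation (X := ℝ) (p := fun k n z => u k n < z) fun m => .of_forall fun n =>
    let ⟨z, hz⟩ := ((finite_le_nat m).image (u · n)).bddAbove
    ⟨z + 1, fun k hk => (hz ⟨k, hk, rfl⟩).trans_lt (lt_add_one z)⟩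
  refine ⟨sr w, fun a ha => ?_⟩
  obtain ⟨i, rfl⟩ : a ∈ range f := hf ▸ mem_insert_of_mem _ ha
  exact hu i ▸ sr_lt.2 (hw i)

/-- Between two countable sets of scales there is a scale. -/
theorem exists_ll_btw {A B : Set ℝ*} (hA : A.Countable) (hB : B.Countable) (hB0 : ∀ b ∈ B, 0 < b)
    (h : ∀ a ∈ A, ∀ b ∈ B, Ll a b) : ∃ c, 0 < c ∧ (∀ a ∈ A, Ll a c) ∧ ∀ b ∈ B, Ll c b := by
  have hA' : (image2 (fun (k : ℕ) (a : ℝ*) => k * a) univ (insert 0 A)).Countable :=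
    countable_univ.image2 (hA.insert 0) _
  rcases B.eq_empty_or_nonempty with rfl | ⟨b₀, hb₀⟩
  · obtain ⟨c, hc⟩ := exists_gt hA'
    exact ⟨c, hc 0 ⟨0, trivial, 0, mem_insert _ _, by simp⟩,
      fun a ha k => (hc _ ⟨k, trivial, a, mem_insert_of_mem _ ha, rfl⟩).le, by simp⟩
  obtain ⟨f, hf⟩ := hA'.exists_eq_range ⟨_, 0, trivial, 0, mem_insert _ _, rfl⟩
  obtain ⟨g, hg⟩ := (countable_univ.image2 hB fun (k : ℕ) b => b / (k + 1)).exists_eq_range
    ⟨_, 0, trivial, b₀, hb₀, rfl⟩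
  obtain ⟨c, hc⟩ := exists_btw_seq f g fun i j => by
    obtain ⟨k, -, a, ha, e⟩ := hf.ge (mem_range_self i)
    obtain ⟨m, -, b, hb, e'⟩ := hg.ge (mem_range_self j)
    rw [← e, ← e', lt_div_iff₀ (by positivity)]
    have : Ll a b := ha.elim (fun e => e ▸ .zero (hB0 b hb).le) fun ha => h a ha b hb
    simpa [mul_comm, mul_assoc, mul_left_comm] using
      (Lc.trans_ll (a := k * a * (m + 1)) ⟨k * (m + 1), by push_cast; linarith⟩ this).lt (hB0 b hb)
  have h1 : ∀ (k : ℕ), ∀ a ∈ insert 0 A, k * a < c := fun k a ha => by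
    obtain ⟨i, e⟩ := hf.le ⟨k, trivial, a, ha, rfl⟩
    exact e.ge.trans_lt (hc i).1
  have h0 : 0 < c := by simpa using h1 0 0 (mem_insert _ _)
  refine ⟨c, h0, fun a ha k => (h1 k a (mem_insert_of_mem _ ha)).le, fun b hb k => ?_⟩
  obtain ⟨i, e⟩ := hg.le ⟨k, trivial, b, hb, rfl⟩
  have := (hc i).2
  rw [e, lt_div_iff₀ (by positivity)] at this
  nlinarith

theorem exists_ll_ge {A : Set ℝ*} (hA : A.Countable) (hb : 0 < b) (h : ∀ a ∈ A, Ll a b) :
    ∃ c, 0 < c ∧ Ll c b ∧ ∀ a ∈ A, Ll a c :=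
  let ⟨c, h1, h2, h3⟩ := exists_ll_btw hA (countable_singleton b) (by simpa) (by simpa)
  ⟨c, h1, h3 b rfl, h2⟩

/-- Slow infinitesimals above countably many infinitesimals. -/
theorem exists_slow (hT : Ll 1 T) {A : Set ℝ*} (hA : A.Countable) (h : ∀ a ∈ A, Ll a 1) :
    ∃ e, Slow T e ∧ ∀ a ∈ A, Ll a e := by
  have hT0 : 0 < T := one_pos.trans_le hT.le
  choose t h1 h2 using fun k : ℕ => exists_root_pos (inv_pos.2 hT0) k.succ_ne_zero
  obtain ⟨e, h3, h4, h5⟩ := exists_ll_ge (hA.union (countable_range t)) one_pos (by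
    rintro a (ha | ⟨k, rfl⟩)
    exacts [h a ha, .of_pow (by simpa [h2 k] using hT.inv one_pos) zero_le_one k.succ_ne_zero])
  refine ⟨e, ⟨h3, h4, fun k => ?_⟩, fun a ha => h5 a (.inl ha)⟩
  rcases k with _ | k
  · simpa using hT.le
  · have := pow_le_pow_left₀ (h1 k).le (h5 _ (.inr ⟨k, rfl⟩)).le k.succ
    rwa [h2, inv_le_iff_one_le_mul₀ hT0] at this

/-! ### The standard part -/

variable {x y : Cs} {p : ℂ}

theorem near_qs {u : ℕ → ℂ} : Ll (nm (qs u - co p)) 1 ↔ Tendsto u UF (𝓝 p) := by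
  rw [co_eq, ← map_sub, nm_qs, ll_sr fun n => norm_nonneg _]
  exact tendsto_iff_norm_sub_tendsto_zero.symm

theorem stc_eq (h : Ll (nm (x - co p)) 1) : stc x = p :=
  (near_qs.1 (by rwa [(qs_surj x).choose_spec])).limUnder_eq

theorem near_stc (h : Lc (nm x) 1) : Ll (nm (x - co (stc x))) 1 := by
  obtain ⟨u, rfl⟩ := qs_surj x
  obtain ⟨C, hC⟩ := lc_sr.1 h
  obtain ⟨p, -, hp⟩ := (isCompact_closedBall (0 : ℂ) C).ultrafilter_le_nhds
    ((hyperfilter ℕ).map u) (le_principal_iff.2 (hC.mono fun _ => mem_closedBall_zero_iff.2))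
  rw [stc_eq (near_qs.2 hp)]
  exact near_qs.2 hp

@[simp] theorem stc_co (p : ℂ) : stc (co p) = p := stc_eq (by simpa using Ll.zero zero_le_one)

theorem lc_co (p : ℂ) : Lc (nm (co p)) 1 := lc_coe ‖p‖

theorem lc_of_near (h : Ll (nm (x - y)) a) (hy : Lc (nm y) a) : Lc (nm x) a :=
  Lc.le_trans (by simpa using nm.add_le (x - y) y) (h.lc.add hy)

theorem near_symm (h : Ll (nm (x - y)) a) : Ll (nm (y - x)) a := by rwa [nm.map_sub]

theorem near_trans {z : Cs} (h : Ll (nm (x - y)) a) (h' : Ll (nm (y - z)) a) :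
    Ll (nm (x - z)) a := Ll.le_trans (nm.sub_le x y z) (h.add h')

/-- Numbers that are relatively close have comparable sizes. -/
theorem lc_of_rel (h : Ll (nm (x - y)) (nm y)) : Lc (nm x) (nm y) ∧ Lc (nm y) (nm x) := by
  refine ⟨lc_of_near h (.refl _), 2, ?_⟩
  have h1 := h 2
  have h2 := nm.add_le x (y - x)
  rw [add_sub_cancel, nm.map_sub] at h2
  push_cast at h1 ⊢
  linarith

theorem stc_eq_zero (h : Lc (nm x) 1) : stc x = 0 ↔ Ll (nm x) 1 :=
  ⟨fun e => by simpa [e] using near_stc h, fun h => stc_eq (by simpa)⟩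

theorem lc_one_of_near (h : Ll (nm (x - co p)) 1) (hp : p ≠ 0) : Lc 1 (nm x) :=
  (lc_or_ll _ _).resolve_right fun h' => hp ((stc_eq h).symm.trans ((stc_eq_zero h'.lc).2 h'))

/-- The ring of finite numbers. -/
def Ofin : ValuationSubring Cs where
  carrier := {x | Lc (nm x) 1}
  mul_mem' ha hb := by simpa using Lc.mul_one ha hb (nm.nonneg _)
  one_mem' := by simpa using Lc.refl 1
  add_mem' ha hb := Lc.le_trans (nm.add_le _ _) (ha.add hb)
  zero_mem' := by simpa using Lc.zero 1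
  neg_mem' ha := by simpa using ha
  mem_or_inv_mem' x := (lc_or_ll _ _).imp_right fun h => by simpa using (h.inv one_pos).lc

theorem mem_Ofin : x ∈ Ofin ↔ Lc (nm x) 1 := Iff.rfl

theorem stc_add (hx : Lc (nm x) 1) (hy : Lc (nm y) 1) : stc (x + y) = stc x + stc y :=
  stc_eq (Ll.le_trans (by rw [map_add, add_sub_add_comm]; exact nm.add_le _ _)
    ((near_stc hx).add (near_stc hy)))

theorem stc_mul (hx : Lc (nm x) 1) (hy : Lc (nm y) 1) : stc (x * y) = stc x * stc y := by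
  refine stc_eq (Ll.le_trans ?_ (((near_stc hx).mul_one hy (nm.nonneg _)).add
    ((lc_co (stc x)).mul_inf (near_stc hy) (nm.nonneg _))))
  rw [← map_mul, ← map_mul, map_mul co]
  exact (congrArg nm (by ring)).trans_le (nm.add_le _ _)

/-- The place given by the standard part. -/
def Pst : E.Plc Cs ℂ where
  O := Ofin
  ρ :=
    { toFun := fun x => stc x
      map_one' := stc_co 1
      map_zero' := stc_co 0
      map_mul' := fun x y => stc_mul x.2 y.2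
      map_add' := fun x y => stc_add x.2 y.2 }
  ker x hx := (stc_eq_zero x.2).2 ((lc_or_ll _ _).resolve_left fun h => by
    have h0 : 0 < nm x := by
      obtain ⟨k, hk⟩ := h
      exact not_le.1 fun h' => by nlinarith [(k.cast_nonneg : (0 : ℝ*) ≤ k)]
    have : (x : Cs)⁻¹ ∈ Ofin := by simpa [mem_Ofin] using h.inv one_pos h0
    rw [← Ofin.valuation_le_one_iff, map_inv₀, inv_le_one₀
      (zero_lt_iff.2 ((map_ne_zero _).2 (nm.pos_iff.1 h0)))] at this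
    exact hx.not_ge this)

theorem pst_le : Pst.v x ≤ 1 ↔ Lc (nm x) 1 := Pst.mem_iff.symm

theorem pst_r (h : Lc (nm x) 1) : Pst.r x = stc x := Pst.r_coe ⟨x, h⟩

theorem pst_le_iff (hy : y ≠ 0) : Pst.v x ≤ Pst.v y ↔ Lc (nm x) (nm y) := by
  rw [← Pst.v_div_le_one hy, pst_le, map_div₀, lc_div (nm.pos hy)]

theorem pst_lt_iff (hy : y ≠ 0) : Pst.v x < Pst.v y ↔ Ll (nm x) (nm y) := by
  rcases eq_or_ne x 0 with rfl | hx
  · simpa using ⟨fun _ => Ll.zero (nm.nonneg y), fun _ => Pst.v_pos hy⟩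
  · rw [← not_le, pst_le_iff hx]
    exact ⟨(lc_or_ll _ _).resolve_left, fun h => h.not_lc (nm.pos hy)⟩

theorem pst_lt : Pst.v x < 1 ↔ Ll (nm x) 1 := by simpa using pst_lt_iff (x := x) one_ne_zero

/-! ### Field theory -/

instance : IsAlgClosed Cs := IsAlgClosed.of_exists_root _ fun p hp hi => by
  choose u hu using fun i => qs_surj (p.coeff i)
  have hd := hi.natDegree_pos
  have : ∀ n, ∃ z : ℂ, z ^ p.natDegree + ∑ i ∈ Finset.range p.natDegree, u i n * z ^ i = 0 := by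
    intro n
    obtain ⟨z, hz⟩ := IsAlgClosed.exists_root (Polynomial.X ^ p.natDegree +
      ∑ i : Fin p.natDegree, Polynomial.C (u i n) * Polynomial.X ^ (i : ℕ)) (by
        rw [Polynomial.degree_add_eq_left_of_degree_lt (by
          rw [Polynomial.degree_X_pow]; exact Polynomial.degree_sum_fin_lt _),
          Polynomial.degree_X_pow]
        exact_mod_cast hd.ne')
    exact ⟨z, by simpa [Polynomial.eval_finsetSum, Finset.sum_range] using hz⟩
  choose z hz using this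
  refine ⟨qs z, ?_⟩
  rw [hp.as_sum]
  simp only [Polynomial.eval_add, Polynomial.eval_pow, Polynomial.eval_X,
    Polynomial.eval_finsetSum, Polynomial.eval_mul, Polynomial.eval_C, ← hu, ← map_pow, ← map_mul,
    ← map_sum, ← map_add]
  exact qs_eq_zero.2 (.of_forall fun n => by simpa [Finset.sum_apply] using hz n)

theorem mk_Cs : #Cs = #ℂ :=
  le_antisymm ((mk_le_of_surjective qs_surj).trans_eq (by simp)) (mk_le_of_injective co.injective)

instance : Uncountable Cs := (co.injective.comp Complex.ofReal_injective).uncountable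

end

end Pool.Agent.P.MP_f17f76_ag.N
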