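import Pool.Agent.P.MP_f17f76_ag.E.Hol
import Pool.Agent.P.MP_f17f76_ag.E.Hs2

/-!
Internal holomorphic functions: algebra, chain rule and estimates.
-/

namespace Pool.Agent.P.MP_f17f76_ag.N

open Set Filter Topology Metric E

set_option linter.unusedSectionVars false

noncomputable section

variable {I J : Type} [Fintype I] [Fintype J] {g g' : H I} {x y : I → Cs} {a b r : ℝ*}

instance : Algebra ℂ (H I) := (cn.comp co).toAlgebra

theorem algebraMap_eq (c : ℂ) : algebraMap ℂ (H I) c = cn (co c) := rfl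

instance : IsScalarTower ℂ Cs (H I) := .of_algebraMap_eq fun _ => rfl

theorem cn_inj : Function.Injective (cn : Cs → H I) := fun a b h => by
  simpa using congrArg (ev 0) h

instance : Nontrivial (H I) := cn_inj.nontrivial

instance : CharZero (H I) := charZero_of_injective_ringHom cn_inj

theorem forall_seq {X : Type} [Nonempty X] {p : ℕ → X → Prop} :
    (∀ u : ℕ → X, ∀ᶠ n in UF, p n (u n)) ↔ ∀ᶠ n in UF, ∀ z, p n z := by
  refine ⟨fun h => by_contra fun k => ?_, fun h u => h.mono fun n hn => hn _⟩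
  choose! u hu using fun n (hn : ¬ ∀ z, p n z) => not_forall.1 hn
  obtain ⟨n, h1, h2⟩ := ((Ultrafilter.eventually_not.2 k).and (h u)).exists
  exact hu n h1 h2

instance : NoZeroDivisors (H I) := ⟨fun {a b} h => by
  obtain ⟨f, rfl⟩ := H.mk_surj a
  obtain ⟨g, rfl⟩ := H.mk_surj b
  rw [← map_mul] at h
  refine (Ultrafilter.eventually_or.1 (((H.mk_eq (g := 0)).1 h).mono fun n hn => ?_)).imp
    (H.mk_eq (g := 0)).2 (H.mk_eq (g := 0)).2
  refine or_iff_not_imp_left.2 fun k => ?_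
  obtain ⟨z, hz, h0⟩ := by simpa only [not_forall] using k
  refine eqOn_zero_of_eventually (g.2 n) hz ?_
  filter_upwards [(sdiff f n hz).continuousAt.eventually_ne h0, isOpen_ball.mem_nhds hz] with w h1 h2
  exact (mul_eq_zero.1 (hn w h2)).resolve_left h1⟩

instance : IsDomain (H I) := NoZeroDivisors.to_isDomain _

theorem isUnit_of_ne (h : ∀ x, Pt x → ev x g ≠ 0) : IsUnit g := by
  obtain ⟨g', hg⟩ := exists_cmp (fun _ : Unit => g) (f := fun _ z => (z ())⁻¹) fun x hx => by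
    have := h x hx
    rw [show ev x g = vec (rep (evv x fun _ : Unit => g)) () by rw [vec_rep, evv]] at this
    exact (qs_ne_zero.1 this).mono fun n hn => (differentiableAt_apply () _).inv hn
  refine IsUnit.of_mul_eq_one g' (H.ext fun x hx => ?_)
  rw [map_mul, hg x hx, map_one, app, ← qs_inv]
  exact (congrArg (_ * ·⁻¹) (congrFun (vec_rep (evv x fun _ : Unit => g)) ())).trans
    (mul_inv_cancel₀ (h x hx))

theorem pt_of_le (h : ∀ i, nm (x i) ≤ r) (hr : r < 1) : Pt x := fun i => (h i).trans_lt hr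

/-! ### Bounds -/

theorem Le.nonneg (h : Le g a) : 0 ≤ a := (nm.nonneg _).trans (h 0 .zero)

theorem Le.mono (h : Le g a) (h' : a ≤ b) : Le g b := fun x hx => (h x hx).trans h'

theorem Le.add (h : Le g a) (h' : Le g' b) : Le (g + g') (a + b) := fun x hx =>
  (map_add (ev x) g g' ▸ nm.add_le _ _).trans (add_le_add (h x hx) (h' x hx))

theorem Le.neg (h : Le g a) : Le (-g) a := fun x hx => by simpa using h x hx

theorem Le.sub (h : Le g a) (h' : Le g' b) : Le (g - g') (a + b) :=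
  sub_eq_add_neg g g' ▸ h.add h'.neg

theorem Le.mul (h : Le g a) (h' : Le g' b) : Le (g * g') (a * b) := fun x hx => by
  rw [map_mul, map_mul]
  exact mul_le_mul (h x hx) (h' x hx) (nm.nonneg _) h.nonneg

theorem le_cn (c : Cs) : Le (cn c : H I) (nm c) := fun x _ => by simp

theorem le_xc (i : I) : Le (xc i) 1 := fun x hx => by simpa [ev_xc hx] using (hx i).le

theorem le_zero : Le g 0 ↔ g = 0 :=
  ⟨fun h => H.ext fun x hx => by simpa using nm.nonpos_iff.1 (h x hx), fun h x _ => by simp [h]⟩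

theorem Le.sum {ι : Type} {s : Finset ι} {f : ι → H I} {c : ι → ℝ*} (h : ∀ i ∈ s, Le (f i) (c i)) :
    Le (∑ i ∈ s, f i) (∑ i ∈ s, c i) := fun x hx => by
  rw [map_sum]
  exact (nm.sum_le _ _).trans (Finset.sum_le_sum fun i hi => h i hi x hx)

theorem Le.pull {φ : I → H J} (h : Le g a) (hφ : Maps φ) : Le (pull φ g) a := fun x hx =>
  ev_pull hφ hx g ▸ h _ (hφ x hx)

theorem maps_of_le {φ : I → H J} {c : I → ℝ*} (h : ∀ i, Le (φ i) (c i)) (hc : ∀ i, c i < 1) :
    Maps φ := fun x hx i => (h i x hx).trans_lt (hc i)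

theorem pt_aff {p e z : Cs} (hp : nm p < 1) (h : nm p + nm e ≤ 1) (hz : nm z < 1) :
    nm (p + e * z) < 1 := by
  refine (nm.add_le _ _).trans_lt ?_
  rw [map_mul]
  rcases (nm.nonneg e).eq_or_lt with h0 | h0
  · rwa [← h0, zero_mul, add_zero]
  · nlinarith

/-- Affine maps of polydiscs. -/
def aff (p e : I → Cs) (σ : I → J) : I → H J := fun i => cn (p i) + cn (e i) * xc (σ i)

theorem evv_aff (p e : I → Cs) (σ : I → J) {x : J → Cs} (hx : Pt x) :
    evv x (aff p e σ) = fun i => p i + e i * x (σ i) := by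
  funext i
  simp [evv, aff, ev_xc hx]

theorem maps_aff {p e : I → Cs} (σ : I → J) (hp : Pt p) (h : ∀ i, nm (p i) + nm (e i) ≤ 1) :
    Maps (aff p e σ) := fun x hx i => by
  rw [evv_aff p e σ hx]
  exact pt_aff (hp i) (h i) (hx _)

theorem maps_xc (σ : I → J) : Maps fun i => xc (σ i) := fun x hx i => by
  simpa [evv, ev_xc hx] using hx _

@[simp] theorem pull_id (g : H I) : pull xc g = g :=
  H.ext fun x hx => by
    rw [ev_pull (show Maps xc from maps_xc id) hx]
    congr 2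
    exact funext fun i => ev_xc hx i

/-- A bounded function has a least bound. -/
theorem exists_sup (h : Le g a) : ∃ s, Le g s ∧ ∀ b, Le g b → s ≤ b := by
  obtain ⟨f, rfl⟩ := H.mk_surj g
  obtain ⟨a, rfl⟩ := sr_surj a
  refine ⟨sr fun n => sSup ((fun z => ‖f.1 n z‖) '' ball 0 1), le_mk.2 ((le_mk.1 h).mono
    fun n hn z hz => le_csSup ⟨a n, forall_mem_image.2 hn⟩ ⟨z, hz, rfl⟩), fun b hb => ?_⟩
  obtain ⟨b, rfl⟩ := sr_surj b
  exact sr_le.2 ((le_mk.1 hb).mono fun n hn =>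
    csSup_le ((nonempty_ball.2 one_pos).image _) (forall_mem_image.2 hn))

/-- Pointwise bounds from a monotone sequence are uniform. -/
theorem exists_le {c : ℕ → ℝ*} (hc : Monotone c) (h : ∀ x, Pt x → ∃ k, nm (ev x g) ≤ c k) :
    ∃ k, Le g (c k) := by
  by_contra hk
  obtain ⟨f, rfl⟩ := H.mk_surj g
  choose v hv using fun k => sr_surj (c k)
  obtain ⟨u, hu⟩ := saturation (X := I → ℂ)
    (p := fun k n z => z ∈ ball 0 1 ∧ v k n < ‖f.1 n z‖) fun m => by
      have h1 := Ultrafilter.eventually_not.2 fun h => hk ⟨m, hv m ▸ le_mk.2 h⟩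
      have h2 : ∀ᶠ n in UF, ∀ k ≤ m, v k n ≤ v m n :=
        (eventually_all_finite (finite_le_nat m)).2 fun k hk => sr_le.1 (by rw [hv, hv]; exact hc hk)
      filter_upwards [h1, h2] with n h1 h2
      push Not at h1
      exact h1.imp fun z hz k hk => ⟨hz.1, (h2 k hk).trans_lt hz.2⟩
  have hp := pt_vec.2 ((hu 0).mono fun _ h => h.1)
  obtain ⟨k, hk⟩ := h _ hp
  rw [ev_mk hp, nm_qs, ← hv] at hk
  exact hk.not_gt (sr_lt.2 ((hu k).mono fun _ h => h.2))

theorem exists_le_lc (hb : 0 ≤ b) (h : ∀ x, Pt x → Lc (nm (ev x g)) b) : ∃ k : ℕ, Le g (k * b) :=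
  exists_le (fun _ _ e => mul_le_mul_of_nonneg_right (Nat.cast_le.2 e) hb) h

theorem exists_le_ll (h : ∀ x, Pt x → Ll (nm (ev x g)) b) : ∃ c, Ll c b ∧ Le g c := by
  obtain ⟨s, h1, h2⟩ := exists_sup (g := g) fun x hx => (h x hx).le
  refine ⟨s, fun k => ?_, h1⟩
  have := h2 (b / (k + 1)) fun x hx => by
    rw [le_div_iff₀' (by positivity)]
    simpa using h x hx (k + 1)
  rw [le_div_iff₀ (by positivity)] at this
  linarith [h1.nonneg]

theorem exists_le_poly {T : ℝ*} (hT : 1 ≤ T) (h : ∀ x, Pt x → Poly T (nm (ev x g))) :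
    ∃ k : ℕ, Le g (T ^ k) := exists_le (fun _ _ e => pow_le_pow_right₀ hT e) h

/-- The lemma of Schwarz. -/
theorem Le.schwarz (h : Le g a) {ρ : ℝ*} (hx : ∀ i, nm (x i) ≤ ρ) (hy : ∀ i, nm (y i - x i) ≤ r)
    (hρ : 0 ≤ ρ) (hr : 0 ≤ r) (h1 : ρ + r < 1) : nm (ev y g - ev x g) ≤ 2 * a / (1 - ρ) * r := by
  have px : Pt x := pt_of_le hx (by linarith)
  have py : Pt y := fun i => by
    have : nm (y i) ≤ nm (x i) + nm (y i - x i) := by simpa using nm.add_le (x i) (y i - x i)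
    linarith [hx i, hy i]
  obtain ⟨f, rfl⟩ := H.mk_surj g
  obtain ⟨u, rfl⟩ := vec_surj x
  obtain ⟨v, rfl⟩ := vec_surj y
  obtain ⟨a, rfl⟩ := sr_surj a
  obtain ⟨r, rfl⟩ := sr_surj r
  obtain ⟨ρ, rfl⟩ := sr_surj ρ
  rw [ev_mk px, ev_mk py]
  refine sr_le.2 ?_
  filter_upwards [le_mk.1 h, (nm_vec_le hρ).1 hx, (nm_vec_le (u := v - u) hr).1 hy, sr_lt.1 h1,
    (sr_le (u := 0)).1 hr] with n h2 h3 h4 h5 h6
  have h5 : ρ n + r n < 1 := h5
  have h6 : 0 ≤ r n := h6
  have h7 : ball (u n) (1 - ρ n) ⊆ ball 0 1 := ball_subset_ball' (by rw [dist_zero_right]; linarith)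
  have h8 := (norm_nonneg _).trans (h2 0 (mem_ball_self one_pos))
  refine (norm_sub_le_schwarz ((f.2 n).mono h7) (fun z hz => h2 z (h7 hz))
    (mem_ball_iff_norm.2 (h4.trans_lt (by linarith)))).trans ?_
  exact mul_le_mul_of_nonneg_left h4 (div_nonneg (by positivity) (by linarith))

theorem Le.schwarz_zero (h : Le g a) (hy : ∀ i, nm (y i) ≤ r) (hr : 0 ≤ r) (h1 : r < 1) :
    nm (ev y g - ev 0 g) ≤ 2 * a * r := by
  simpa using h.schwarz (x := 0) (y := y) (ρ := 0) (by simp) (by simpa) le_rfl hr (by simpa)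

variable [DecidableEq I]

theorem ev_dd_mk {u : ℕ → I → ℂ} (hu : Pt (vec u)) (i : I) (f : HS I) :
    ev (vec u) (dd i (H.mk f)) = qs fun n => fderiv ℂ (f.1 n) (u n) (Pi.single i 1) := by
  rw [dd_mk, ev_mk hu]
  rfl

theorem fderiv_eq_sum (L : (I → ℂ) →L[ℂ] ℂ) (v : I → ℂ) : L v = ∑ i, L (Pi.single i 1) * v i := by
  conv_lhs => rw [pi_eq_sum_univ' v]
  simp [mul_comm]

/-- The estimate of Cauchy. -/
theorem Le.cauchy (h : Le g a) {ρ : ℝ*} (hx : ∀ i, nm (x i) ≤ ρ) (hρ : 0 ≤ ρ) (h1 : ρ < 1) (i : I) :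
    nm (ev x (dd i g)) ≤ 2 * a / (1 - ρ) := by
  have px : Pt x := pt_of_le hx h1
  obtain ⟨f, rfl⟩ := H.mk_surj g
  obtain ⟨u, rfl⟩ := vec_surj x
  obtain ⟨a, rfl⟩ := sr_surj a
  obtain ⟨ρ, rfl⟩ := sr_surj ρ
  rw [ev_dd_mk px]
  refine sr_le.2 ?_
  filter_upwards [le_mk.1 h, (nm_vec_le hρ).1 hx, sr_lt.1 h1] with n h2 h3 h5
  have h7 : ball (u n) (1 - ρ n) ⊆ ball 0 1 := ball_subset_ball' (by rw [dist_zero_right]; linarith)
  refine (ContinuousLinearMap.le_opNorm _ _).trans ?_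
  rw [Pi.norm_single, norm_one, mul_one]
  exact norm_fderiv_le ((f.2 n).mono h7) (fun z hz => h2 z (h7 hz)) (sub_pos.2 h5)

theorem Le.cauchy_zero (h : Le g a) (i : I) : nm (ev 0 (dd i g)) ≤ 2 * a := by
  simpa using h.cauchy (x := 0) (ρ := 0) (by simp) le_rfl one_pos i

/-- The mean value inequality. -/
theorem mean_value {c : I → ℝ*} (h : ∀ i, x i = y i ∨ Le (dd i g) (c i)) (hx : Pt x) (hy : Pt y) :
    nm (ev y g - ev x g) ≤ ∑ i, c i * nm (y i - x i) := by
  obtain ⟨f, rfl⟩ := H.mk_surj g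
  obtain ⟨u, rfl⟩ := vec_surj x
  obtain ⟨v, rfl⟩ := vec_surj y
  choose c' hc using fun i => sr_surj (c i)
  simp only [← hc, dd_mk, le_mk, vec, qs_eq, ← Ultrafilter.eventually_or, ← eventually_all] at h
  have e : ∑ i, c i * nm (vec v i - vec u i) = sr fun n => ∑ i, c' i n * ‖v n i - u n i‖ := by
    rw [← Finset.sum_fn, map_sum]
    exact Finset.sum_congr rfl fun i _ => hc i ▸ rfl
  rw [ev_mk hx, ev_mk hy, e]
  refine sr_le.2 ?_
  filter_upwards [h, pt_vec.1 hx, pt_vec.1 hy] with n h1 h2 h3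
  have h4 : ∀ t ∈ Icc (0 : ℝ) 1, u n + t • (v n - u n) ∈ ball (0 : I → ℂ) 1 := fun t ht =>
    (convex_ball 0 1).add_smul_sub_mem h2 h3 ht
  have := norm_image_sub_le_of_norm_deriv_le_segment_01' (f := fun t : ℝ => f.1 n (u n + t • (v n - u n)))
    (f' := fun t => fderiv ℂ (f.1 n) (u n + t • (v n - u n)) (v n - u n))
    (C := ∑ i, c' i n * ‖v n i - u n i‖) (fun t ht => ?_) fun t ht => ?_
  · simpa using this
  · have := ((sdiff f n (h4 t ht)).hasFDerivAt.restrictScalars ℝ).comp_hasDerivAt t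
      (((hasDerivAt_id t).smul_const (v n - u n)).const_add (u n))
    simpa [Function.comp_def] using this.hasDerivWithinAt
  · rw [fderiv_eq_sum]
    refine (norm_sum_le _ _).trans (Finset.sum_le_sum fun i _ => ?_)
    rcases h1 i with e | e
    · simp [e]
    rw [norm_mul]
    exact mul_le_mul_of_nonneg_right (e _ (h4 t (Ico_subset_Icc_self ht))) (norm_nonneg _)

theorem ev_congr (hx : Pt x) (hy : Pt y) (h : ∀ i, x i = y i ∨ dd i g = 0) : ev x g = ev y g := by
  have := mean_value (c := 0) (fun i => (h i).imp_right le_zero.2) hx hy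
  rw [eq_comm, ← sub_eq_zero]
  simpa using nm.nonpos_iff.1 (by simpa using this)

theorem eq_cn_of_dd (h : ∀ i, dd i g = 0) : g = cn (ev 0 g) :=
  H.ext fun _ hx => (ev_congr hx .zero fun i => .inr (h i)).trans (ev_cn _ _).symm

theorem dd_xc (i j : I) : dd i (xc j) = if j = i then 1 else 0 :=
  H.ext fun x hx => by
    obtain ⟨u, rfl⟩ := vec_surj x
    rw [xc, ev_dd_mk hx]
    simp only [show (fun z : I → ℂ => z j) = ContinuousLinearMap.proj (R := ℂ) j from rfl,
      ContinuousLinearMap.fderiv, ContinuousLinearMap.proj_apply, Pi.single_apply]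
    split_ifs
    exacts [(map_one qs).trans (map_one _).symm, (map_zero qs).trans (map_zero _).symm]

theorem dd_comm (i j : I) (g : H I) : dd i (dd j g) = dd j (dd i g) := by
  obtain ⟨f, rfl⟩ := H.mk_surj g
  simp only [dd_mk]
  refine H.mk_eq.2 (.of_forall fun n z hz => ?_)
  have h1 := (diffOn_fderiv isOpen_ball (f.2 n)).differentiableAt (isOpen_ball.mem_nhds hz)
  have h2 := ((contDiffOn_of_diffOn isOpen_ball 2 (f.2 n)).contDiffAt
    (isOpen_ball.mem_nhds hz)).isSymmSndFDerivAt (by simp)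
  simp only [sder, fderiv_clm_apply h1 (differentiableAt_const _)]
  simpa using h2 _ _

variable [DecidableEq J]

/-- The chain rule for a composition with an internal function. -/
theorem ev_dd_cmp {w : I → H J} {f : ℕ → (I → ℂ) → ℂ} {g : H J}
    (h : ∀ x, Pt x → Hold (fun n z => DifferentiableAt ℂ (f n) z) (evv x w))
    (hg : ∀ x, Pt x → ev x g = app f (evv x w)) {x : J → Cs} (hx : Pt x) (j : J) :
    ev x (dd j g) = ∑ i, app (fun n z => fderiv ℂ (f n) z (Pi.single i 1)) (evv x w) *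
      ev x (dd j (w i)) := by
  obtain ⟨w, rfl⟩ := exists_reps w
  obtain ⟨g, rfl⟩ := H.mk_surj g
  have h1 := (forall_pt (p := fun n z => g.1 n z = f n fun i => (w i).1 n z)).1
    fun u hu => qs_eq.1 (by simpa only [ev_mk hu, evv_mk hu w, app_vec] using hg _ hu)
  have h2 := h x hx
  obtain ⟨u, rfl⟩ := vec_surj x
  simp only [evv_mk hx, hold_vec, ev_dd_mk hx, app_vec, ← map_mul, ← map_sum] at h2 ⊢
  refine qs_eq.2 ?_
  filter_upwards [h1, h2, pt_vec.1 hx] with n h1 h2 h3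
  have h4 : HasFDerivAt (fun z => f n fun i => (w i).1 n z) _ _ :=
    h2.hasFDerivAt.comp (u n) (hasFDerivAt_pi.2 fun i => (sdiff (w i) n h3).hasFDerivAt)
  rw [Filter.EventuallyEq.fderiv_eq (mem_of_superset (isOpen_ball.mem_nhds h3) h1), h4.fderiv,
    ContinuousLinearMap.comp_apply, fderiv_eq_sum, Finset.sum_apply]
  rfl

/-- The chain rule for pullbacks. -/
theorem dd_pull {φ : I → H J} (h : Maps φ) (j : J) (g : H I) :
    dd j (pull φ g) = ∑ i, pull φ (dd i g) * dd j (φ i) := by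
  obtain ⟨f, rfl⟩ := H.mk_surj g
  refine H.ext fun x hx => ?_
  rw [ev_dd_cmp (w := φ) (f := f.1) (fun x hx => ?_)
    (fun x hx => by rw [ev_pull h hx, ev_mk' (h x hx)]) hx, map_sum]
  · refine Finset.sum_congr rfl fun i _ => ?_
    rw [map_mul, ev_pull h hx, dd_mk, ev_mk' (h x hx)]
    rfl
  · have := h x hx
    rw [← vec_rep (evv x φ), pt_vec] at this
    exact this.mono fun n hn => sdiff f n hn

theorem dd_aff (p e : I → Cs) (σ : I → J) (i : I) (j : J) :
    dd j (aff p e σ i) = if σ i = j then cn (e i) else 0 := by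
  simp [aff, dd_xc]

end

end Pool.Agent.P.MP_f17f76_ag.N
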