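import Pool.Agent.P.MP_f17f76_ag.E.Hol3

/-!
Estimates in one direction, affine pullbacks, matrices close to the identity, closure points.
-/

namespace Pool.Agent.P.MP_f17f76_ag.N

open Set Filter Topology Metric E

set_option linter.unusedSectionVars false

noncomputable section

variable {I J : Type} [Fintype I] [Fintype J] {a r : ℝ*} {g : H I} {x : I → Cs}

theorem evv_aff_zero (p e : I → Cs) (σ : I → J) : evv 0 (aff p e σ) = p := by
  simp [evv_aff p e σ .zero]

/-- The lemma of Schwarz along a line. -/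
theorem Le.schwarz_dir (h : Le g a) (hx : Pt x) {d : I → Cs} (hd : ∀ j, nm (x j) + nm (d j) ≤ 1)
    {τ : Cs} (hτ : nm τ < 1) : nm (ev (x + τ • d) g - ev x g) ≤ 2 * a * nm τ := by
  have h1 := maps_aff (fun _ => ()) hx hd
  have h2 := (h.pull h1).schwarz_zero (y := fun _ => τ) (fun _ => le_rfl) (nm.nonneg τ) hτ
  rw [ev_pull h1 fun _ => hτ, ev_pull h1 .zero, evv_aff_zero, evv_aff _ _ _ fun _ => hτ] at h2
  simpa only [Pi.add_def, Pi.smul_def, smul_eq_mul, mul_comm τ] using h2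

variable [DecidableEq I] [DecidableEq J]

theorem dd_pull_aff {p e : I → Cs} {σ : I → J} (h : Maps (aff p e σ)) (j : J) (g : H I) :
    dd j (pull (aff p e σ) g) =
      ∑ i, if σ i = j then cn (e i) * pull (aff p e σ) (dd i g) else 0 := by
  simp [dd_pull h, dd_aff, mul_comm]

theorem dd_pull_aff' {p e : I → Cs} {σ : I → J} (h : Maps (aff p e σ)) (hσ : σ.Injective) (i : I)
    (g : H I) : dd (σ i) (pull (aff p e σ) g) = cn (e i) * pull (aff p e σ) (dd i g) := by
  simp [dd_pull_aff h, hσ.eq_iff]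

theorem dd_pull_xc {σ : I → J} (hσ : σ.Injective) (i : I) (g : H I) :
    dd (σ i) (pull (fun i => xc (σ i)) g) = pull (fun i => xc (σ i)) (dd i g) := by
  simp [dd_pull (maps_xc σ), dd_xc, hσ.eq_iff]

theorem dd_pull_xc' {σ : I → J} {j : J} (hσ : ∀ i, σ i ≠ j) (g : H I) :
    dd j (pull (fun i => xc (σ i)) g) = 0 := by
  simp [dd_pull (maps_xc σ), dd_xc, hσ]

/-- The estimate of Cauchy in one direction. -/
theorem Le.cauchy_dir (h : Le g a) (hx : Pt x) {i : I} (hi : nm (x i) + r ≤ 1) (hr : 0 ≤ r) :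
    r * nm (ev x (dd i g)) ≤ 2 * a := by
  have h1 := maps_aff (e := Pi.single i (ofR r)) (fun _ => ()) hx fun j => by
    rcases eq_or_ne j i with rfl | e
    · simpa [abs_of_nonneg hr]
    · simpa [e] using (hx j).le
  have h2 := (h.pull h1).cauchy_zero ()
  rw [dd_pull_aff h1] at h2
  simpa [Pi.single_apply, apply_ite, ev_pull h1 .zero, evv_aff_zero, abs_of_nonneg hr] using h2

theorem Le.lc_dd (h : Le g a) (hx : Pt x) {i : I} (hi : nm (x i) ≤ 3 / 4) :
    Lc (nm (ev x (dd i g))) a :=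
  ⟨8, by
    have := h.cauchy_dir hx (i := i) (r := 1 / 4) (by linarith) (by norm_num)
    push_cast
    linarith⟩

/-- Solutions of a linear system close to the identity. -/
theorem lc_of_near_one {N : I → I → Cs} {v : I → Cs}
    (h : ∀ s s', Ll (nm (N s s' - if s = s' then 1 else 0)) 1)
    (h' : ∀ s, Lc (nm (∑ s', N s s' * v s')) a) (s : I) : Lc (nm (v s)) a := by
  obtain ⟨m, -, hm⟩ := Finset.univ.exists_max_image (fun s => nm (v s)) ⟨s, Finset.mem_univ s⟩
  refine Lc.le_trans (hm s (Finset.mem_univ s)) ((lc_of_rel ?_).2.trans (h' m))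
  rw [show ∑ s', N m s' * v s' - v m = ∑ s', (N m s' - if m = s' then 1 else 0) * v s' by
    simp [sub_mul]]
  refine Ll.le_trans (nm.sum_le _ _) (.sum (nm.nonneg _) fun s' _ => ?_)
  simpa using (h m s').mul_lc (.of_le (hm s' (Finset.mem_univ _))) (nm.nonneg _) (nm.nonneg _)

omit [DecidableEq I] [DecidableEq J] in
/-- Closure points are reached by slowly infinite coefficients. -/
theorem exists_reach (ha : Ll 1 a) {v : J → I → ℂ} {S : Set (I → ℂ)} {y : I → ℂ}
    (hy : y ∈ closure {x | ∃ l ∈ Submodule.span ℂ (range v), ∃ u ∈ S, x = l + u}) :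
    ∃ p : J → Cs, (∀ l, nm (p l) ≤ 1 / 2) ∧ ∃ u ∈ St S,
      Near (fun k => ofR a * ∑ l, p l * co (v l k) + u k) y := by
  obtain ⟨z, h1, h2⟩ := mem_closure_iff_seq_limit.1 hy
  choose l h3 u h4 h5 using h1
  choose c hc using fun n => (Submodule.mem_span_range_iff_exists_fun ℂ).1 (h3 n)
  obtain ⟨α, rfl⟩ := sr_surj a
  obtain ⟨κ, h6, h7⟩ := overspill (p := fun k n => 0 < α n ∧ 2 * ‖c k‖ ≤ α n) fun k =>
    ((sr_lt (u := 0)).1 ha.pos).and (sr_le.1 ((lc_coe (2 * ‖c k‖)).trans_ll ha).le)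
  refine ⟨vec fun n => (α n : ℂ)⁻¹ • c (κ n), fun l => ?_, vec fun n => u (κ n),
    st_vec.2 (.of_forall fun n => h4 _), fun k => ?_⟩
  · refine (sr_le (v := fun _ => 1 / 2)).2 (h7.mono fun n hn => ?_)
    have h8 := hn _ le_rfl
    simp only [Function.comp, Pi.smul_apply, norm_smul, norm_inv, Complex.norm_real,
      Real.norm_of_nonneg h8.1.le]
    rw [inv_mul_le_iff₀ h8.1]
    linarith [norm_le_pi_norm (c (κ n)) l]
  · have := near_vec.2 (h2.comp h6) k
    simp only [vec, ofR_sr, co_eq, ← map_mul, ← map_sum, ← map_add] at this ⊢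
    rwa [qs_eq.2 (h7.mono fun n hn => ?_)]
    have h8 : (α n : ℂ) ≠ 0 := Complex.ofReal_ne_zero.2 (hn _ le_rfl).1.ne'
    simp [h5, ← hc, Finset.mul_sum, ← mul_assoc, h8]

end

end Pool.Agent.P.MP_f17f76_ag.N
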