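import Mathlib

/-!
The ultrapower of the complex numbers: sizes, standard parts, internal maps, saturation.
-/

namespace Pool.Agent.P.MP_f17f76_ag.N

open Set Filter Topology Hyperreal

noncomputable section

/-- The fixed ultrafilter. -/
abbrev UF : Filter ℕ := (hyperfilter ℕ : Filter ℕ)

/-- The ultrapower of the complex numbers. -/
def Cs : Type := Germ UF ℂ

instance : Field Cs := inferInstanceAs (Field (Germ _ _))

/-- The class of a sequence. -/
def qs : (ℕ → ℂ) →+* Cs := Germ.coeRingHom UF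

instance : Algebra ℂ Cs := (qs.comp (Pi.constRingHom ℕ ℂ)).toAlgebra

/-- Standard numbers. -/
abbrev co : ℂ →+* Cs := algebraMap ℂ Cs

theorem co_eq (a : ℂ) : co a = qs fun _ => a := rfl

instance : CharZero Cs := charZero_of_injective_algebraMap (algebraMap ℂ Cs).injective

theorem qs_eq {u v : ℕ → ℂ} : qs u = qs v ↔ ∀ᶠ n in UF, u n = v n := Germ.coe_eq

theorem qs_surj : Function.Surjective qs := Quot.exists_rep

theorem qs_eq_zero {u : ℕ → ℂ} : qs u = 0 ↔ ∀ᶠ n in UF, u n = 0 := Germ.coe_eq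

theorem qs_ne_zero {u : ℕ → ℂ} : qs u ≠ 0 ↔ ∀ᶠ n in UF, u n ≠ 0 :=
  qs_eq_zero.not.trans Ultrafilter.eventually_not.symm

theorem qs_inv (u : ℕ → ℂ) : (qs u)⁻¹ = qs fun n => (u n)⁻¹ := rfl

theorem qs_div (u v : ℕ → ℂ) : qs u / qs v = qs fun n => u n / v n := rfl

/-- The class of a real sequence, as a ring homomorphism. -/
def sr : (ℕ → ℝ) →+* ℝ* := Germ.coeRingHom UF

theorem sr_eq_ofSeq (u : ℕ → ℝ) : sr u = ofSeq u := rfl

theorem sr_surj : Function.Surjective sr := Quot.exists_rep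

theorem sr_le {u v : ℕ → ℝ} : sr u ≤ sr v ↔ ∀ᶠ n in UF, u n ≤ v n := Germ.coe_le

theorem sr_lt {u v : ℕ → ℝ} : sr u < sr v ↔ ∀ᶠ n in UF, u n < v n := Germ.coe_lt

theorem sr_eq {u v : ℕ → ℝ} : sr u = sr v ↔ ∀ᶠ n in UF, u n = v n := Germ.coe_eq

theorem sr_const (a : ℝ) : (a : ℝ*) = sr fun _ => a := rfl

theorem sr_inv (u : ℕ → ℝ) : (sr u)⁻¹ = sr fun n => (u n)⁻¹ := rfl

theorem sr_div (u v : ℕ → ℝ) : sr u / sr v = sr fun n => u n / v n := rfl

/-- The absolute value. -/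
def nm : AbsoluteValue Cs ℝ* where
  toFun a := Germ.map (fun z : ℂ => ‖z‖) a
  map_mul' a b := by
    obtain ⟨u, rfl⟩ := qs_surj a
    obtain ⟨v, rfl⟩ := qs_surj b
    exact sr_eq.2 (.of_forall fun n => norm_mul _ _)
  nonneg' a := by
    obtain ⟨u, rfl⟩ := qs_surj a
    exact (sr_le (u := 0)).2 (.of_forall fun n => norm_nonneg _)
  eq_zero' a := by
    obtain ⟨u, rfl⟩ := qs_surj a
    exact (sr_eq (v := 0)).trans ((eventually_congr (.of_forall fun n => norm_eq_zero)).trans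
      qs_eq_zero.symm)
  add_le' a b := by
    obtain ⟨u, rfl⟩ := qs_surj a
    obtain ⟨v, rfl⟩ := qs_surj b
    exact sr_le.2 (.of_forall fun n => norm_add_le _ _)

theorem nm_qs (u : ℕ → ℂ) : nm (qs u) = sr fun n => ‖u n‖ := rfl

@[simp] theorem nm_co (a : ℂ) : nm (co a) = (‖a‖ : ℝ) := rfl

@[simp] theorem nm_nat (k : ℕ) : nm k = k := by
  rw [← map_natCast co, nm_co, Complex.norm_natCast, ← map_natCast coeRingHom]
  rfl

/-- Internal real numbers as internal complex numbers. -/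
def ofR : ℝ* →+* Cs where
  toFun a := Germ.map Complex.ofReal a
  map_one' := rfl
  map_zero' := rfl
  map_mul' a b := by
    obtain ⟨u, rfl⟩ := sr_surj a
    obtain ⟨v, rfl⟩ := sr_surj b
    exact qs_eq.2 (.of_forall fun n => Complex.ofReal_mul _ _)
  map_add' a b := by
    obtain ⟨u, rfl⟩ := sr_surj a
    obtain ⟨v, rfl⟩ := sr_surj b
    exact qs_eq.2 (.of_forall fun n => Complex.ofReal_add _ _)

theorem ofR_sr (u : ℕ → ℝ) : ofR (sr u) = qs fun n => u n := rfl

@[simp] theorem ofR_coe (a : ℝ) : ofR a = co a := rfl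

@[simp] theorem nm_ofR (a : ℝ*) : nm (ofR a) = |a| := by
  obtain ⟨u, rfl⟩ := sr_surj a
  exact (sr_eq.2 (.of_forall fun n => Complex.norm_real _)).trans (Germ.abs_def (u : Germ UF ℝ)).symm

/-! ### Internal points, maps and predicates -/

variable {I : Type}

/-- The class of a sequence of vectors. -/
def vec (u : ℕ → I → ℂ) : I → Cs := fun i => qs fun n => u n i

/-- A sequence of vectors in a class. -/
def rep (x : I → Cs) : ℕ → I → ℂ := fun n i => (qs_surj (x i)).choose n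

@[simp] theorem vec_rep (x : I → Cs) : vec (rep x) = x := funext fun i => (qs_surj (x i)).choose_spec

theorem vec_surj (x : I → Cs) : ∃ u, vec u = x := ⟨_, vec_rep x⟩

theorem vec_const (p : I → ℂ) : (vec fun _ => p) = fun i => co (p i) := rfl

@[simp] theorem vec_zero : vec (0 : ℕ → I → ℂ) = 0 := rfl

theorem vec_add (u v : ℕ → I → ℂ) : vec (u + v) = vec u + vec v := rfl

theorem vec_sub (u v : ℕ → I → ℂ) : vec (u - v) = vec u - vec v := rfl

theorem vec_smul (a : ℕ → ℂ) (u : ℕ → I → ℂ) : (vec fun n => a n • u n) = qs a • vec u := rfl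

/-- The value of an internal function at an internal point. -/
def app (f : ℕ → (I → ℂ) → ℂ) (x : I → Cs) : Cs := qs fun n => f n (rep x n)

/-- An internal predicate holds at an internal point. -/
def Hold (p : ℕ → (I → ℂ) → Prop) (x : I → Cs) : Prop := ∀ᶠ n in UF, p n (rep x n)

/-- Points of the polydisc. -/
def Pt (x : I → Cs) : Prop := ∀ i, nm (x i) < 1

theorem Pt.zero : Pt (0 : I → Cs) := fun _ => by simp

variable [Finite I]

theorem vec_eq {u v : ℕ → I → ℂ} : vec u = vec v ↔ ∀ᶠ n in UF, u n = v n := by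
  simp only [funext_iff, vec, qs_eq, eventually_all]

theorem rep_vec (u : ℕ → I → ℂ) : ∀ᶠ n in UF, rep (vec u) n = u n := vec_eq.1 (vec_rep _)

theorem app_vec (f : ℕ → (I → ℂ) → ℂ) (u : ℕ → I → ℂ) : app f (vec u) = qs fun n => f n (u n) :=
  qs_eq.2 ((rep_vec u).mono fun _ h => congrArg _ h)

theorem hold_vec {p : ℕ → (I → ℂ) → Prop} {u : ℕ → I → ℂ} :
    Hold p (vec u) ↔ ∀ᶠ n in UF, p n (u n) :=
  eventually_congr ((rep_vec u).mono fun _ h => by rw [h])

/-- A predicate that holds at all internal points holds for most indices at all points. -/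
theorem forall_hold {p : ℕ → (I → ℂ) → Prop} : (∀ x, Hold p x) ↔ ∀ᶠ n in UF, ∀ z, p n z := by
  refine ⟨fun h => by_contra fun k => ?_, fun h x => h.mono fun n hn => hn _⟩
  have k := Ultrafilter.eventually_not.2 k
  have : ∀ n, ∃ z, (¬ ∀ z, p n z) → ¬ p n z := fun n => by
    by_cases h : ∀ z, p n z
    · exact ⟨0, fun h' => absurd h h'⟩
    · exact (not_forall.1 h).imp fun _ hz _ => hz
  choose u hu using this
  obtain ⟨n, h1, h2⟩ := (k.and (hold_vec.1 (h (vec u)))).exists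
  exact hu n h1 h2

theorem nm_vec_le {I : Type} [Fintype I] {u : ℕ → I → ℂ} {r : ℕ → ℝ} (hr : 0 ≤ sr r) :
    (∀ i, nm (vec u i) ≤ sr r) ↔ ∀ᶠ n in UF, ‖u n‖ ≤ r n := by
  simp only [vec, nm_qs, sr_le, ← eventually_all]
  exact eventually_congr (((sr_le (u := 0)).1 hr).mono fun n hn =>
    (pi_norm_le_iff_of_nonneg hn).symm)

theorem pt_vec {I : Type} [Fintype I] {u : ℕ → I → ℂ} :
    Pt (vec u) ↔ ∀ᶠ n in UF, u n ∈ Metric.ball 0 1 := by
  simp only [mem_ball_zero_iff, pi_norm_lt_iff one_pos, eventually_all]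
  exact forall_congr' fun i => sr_lt (v := 1)

/-! ### Overspill and saturation -/

theorem overspill {p : ℕ → ℕ → Prop} (h : ∀ k, ∀ᶠ n in UF, p k n) :
    ∃ κ : ℕ → ℕ, Tendsto κ UF atTop ∧ ∀ᶠ n in UF, ∀ k ≤ κ n, p k n := by
  classical
  have h1 : ∀ m, ∀ᶠ n in UF, ∀ k ≤ m, p k n := fun m =>
    (eventually_all_finite (finite_le_nat m)).2 fun k _ => h k
  refine ⟨fun n => Nat.findGreatest (fun m => ∀ k ≤ m, p k n) n, tendsto_atTop.2 fun m => ?_,
    (h1 0).mono fun n hn => Nat.findGreatest_spec (P := fun m => ∀ k ≤ m, p k n) n.zero_le hn⟩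
  filter_upwards [h1 m, Nat.hyperfilter_le_atTop (eventually_ge_atTop m)] with n h2 h3
  exact Nat.le_findGreatest h3 h2

/-- Countable saturation. -/
theorem saturation {X : Type} [Nonempty X] {p : ℕ → ℕ → X → Prop}
    (h : ∀ m, ∀ᶠ n in UF, ∃ z, ∀ k ≤ m, p k n z) : ∃ u : ℕ → X, ∀ k, ∀ᶠ n in UF, p k n (u n) := by
  obtain ⟨κ, h1, h2⟩ := overspill h
  have := h2.mono fun n hn => hn _ le_rfl
  choose! u hu using fun n (hn : ∃ z, ∀ k ≤ κ n, p k n z) => hn
  exact ⟨u, fun k => (this.and (h1.eventually_ge_atTop k)).mono fun n hn => hu n hn.1 k hn.2⟩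

/-! ### Sizes -/

/-- `a` is bounded by a standard multiple of `b`. -/
def Lc (a b : ℝ*) : Prop := ∃ k : ℕ, a ≤ k * b

/-- `a` is infinitely smaller than `b`. -/
def Ll (a b : ℝ*) : Prop := ∀ k : ℕ, k * a ≤ b

/-- `a` is polynomially bounded in `T`. -/
def Poly (T a : ℝ*) : Prop := ∃ k : ℕ, a ≤ T ^ k

/-- `a` is superpolynomially small in `T`. -/
def Tiny (T a : ℝ*) : Prop := ∀ k : ℕ, a * T ^ k ≤ 1

/-- `a` is a slow infinitesimal. -/
def Slow (T a : ℝ*) : Prop := 0 < a ∧ Ll a 1 ∧ ∀ k : ℕ, 1 ≤ a ^ k * T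

/-- The standard part. -/
def stc (a : Cs) : ℂ := limUnder UF (qs_surj a).choose

end

end Pool.Agent.P.MP_f17f76_ag.N
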