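import Pool.Agent.P.MP_f17f76_ag.E.Hs2

/-!
Sizes relative to the scale `T`.
-/

namespace Pool.Agent.P.MP_f17f76_ag.N

open Set

noncomputable section

variable {T a b c : ℝ*} {ι : Type} {s : Finset ι} {f : ι → ℝ*}

/-- `a ≥ T ^ c` for a standard `c > 0`. -/
def Big (T a : ℝ*) : Prop := ∃ k : ℕ, T ≤ a ^ k

/-- `a ≤ T ^ (-c)` for a standard `c > 0`. -/
def Sm (T a : ℝ*) : Prop := ∃ k : ℕ, a ^ k * T ≤ 1

theorem Ll.nat_le (h : Ll 1 T) (k : ℕ) : (k : ℝ*) ≤ T := by simpa using h k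

theorem Ll.two_le (h : Ll 1 T) : 2 ≤ T := by simpa using h 2

theorem Ll.one_lt (h : Ll 1 T) : 1 < T := one_lt_two.trans_le h.two_le

theorem Ll.pos (h : Ll 1 T) : 0 < T := one_pos.trans h.one_lt

theorem Ll.pow_le (h : Ll 1 T) {k m : ℕ} (e : k ≤ m) : T ^ k ≤ T ^ m :=
  pow_le_pow_right₀ h.one_lt.le e

/-! ### Polynomial bounds -/

theorem Poly.of_le (h : a ≤ b) (h' : Poly T b) : Poly T a := h'.imp fun _ => h.trans

theorem poly_one : Poly T 1 := ⟨0, by simp⟩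

theorem poly_zero : Poly T 0 := .of_le zero_le_one poly_one

theorem poly_pow (k : ℕ) : Poly T (T ^ k) := ⟨k, le_rfl⟩

theorem poly_self : Poly T T := ⟨1, by simp⟩

variable (hT : Ll 1 T)
include hT

theorem Poly.of_lc (h : Lc a b) (h' : Poly T b) : Poly T a :=
  let ⟨k, h⟩ := h; let ⟨m, h'⟩ := h'
  ⟨m + 1, h.trans (by
    rw [pow_succ']
    exact (mul_le_mul_of_nonneg_left h' k.cast_nonneg).trans
      (mul_le_mul_of_nonneg_right (hT.nat_le k) (pow_pos hT.pos m).le))⟩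

theorem poly_of_lc (h : Lc a 1) : Poly T a := .of_lc hT h poly_one

omit hT in
theorem Poly.max (h : Poly T a) (h' : Poly T b) : Poly T (max a b) := by
  rcases le_total a b with e | e <;> simpa [e]

theorem Poly.add (h : Poly T a) (h' : Poly T b) : Poly T (a + b) :=
  .of_lc hT (.add (.of_le (le_max_left a b)) (.of_le (le_max_right a b))) (h.max h')

theorem Poly.mul (h : Poly T a) (h' : Poly T b) (hb : 0 ≤ b) : Poly T (a * b) :=
  let ⟨k, h⟩ := h; let ⟨m, h'⟩ := h'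
  ⟨k + m, pow_add T k m ▸ mul_le_mul h h' hb (pow_pos hT.pos k).le⟩

omit hT in
theorem Poly.pow (h : Poly T a) (ha : 0 ≤ a) (n : ℕ) : Poly T (a ^ n) :=
  let ⟨k, h⟩ := h; ⟨k * n, pow_mul T k n ▸ pow_le_pow_left₀ ha h n⟩

theorem Poly.sum (h : ∀ i ∈ s, Poly T (f i)) : Poly T (∑ i ∈ s, f i) :=
  Finset.sum_induction f (Poly T) (fun _ _ => Poly.add hT) poly_zero h

theorem Poly.prod (h : ∀ i ∈ s, Poly T (f i)) (h0 : ∀ i ∈ s, 0 ≤ f i) : Poly T (∏ i ∈ s, f i) :=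
  (Finset.prod_induction f (fun a => 0 ≤ a ∧ Poly T a)
    (fun _ _ h h' => ⟨mul_nonneg h.1 h'.1, h.2.mul hT h'.2 h'.1⟩) ⟨zero_le_one, poly_one⟩
    fun i hi => ⟨h0 i hi, h i hi⟩).2

/-- One exponent for finitely many bounds. -/
theorem Poly.unif [Finite ι] (h : ∀ i, Poly T (f i)) : ∃ k : ℕ, ∀ i, f i ≤ T ^ k := by
  choose k hk using h
  obtain ⟨m, hm⟩ := (finite_range k).bddAbove
  exact ⟨m, fun i => (hk i).trans (hT.pow_le (hm ⟨i, rfl⟩))⟩

theorem Poly.inv_of_lc (h : Lc a b) (ha : 0 < a) (hb : 0 ≤ b) (h' : Poly T a⁻¹) : Poly T b⁻¹ :=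
  hb.eq_or_lt.elim (fun e => by simpa [← e] using poly_zero) fun e => .of_lc hT (h.inv ha e) h'

omit hT in
theorem poly_inv_iff (ha : 0 < a) : Poly T a⁻¹ ↔ ∃ k : ℕ, 1 ≤ a * T ^ k :=
  exists_congr fun _ => inv_le_iff_one_le_mul₀' ha

/-- The ring of polynomially bounded numbers. -/
def Opoly : ValuationSubring Cs where
  carrier := {x | Poly T (nm x)}
  mul_mem' ha hb := by simpa using Poly.mul hT ha hb (nm.nonneg _)
  one_mem' := by simpa using poly_one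
  add_mem' ha hb := .of_le (nm.add_le _ _) (.add hT ha hb)
  zero_mem' := by simpa using poly_zero
  neg_mem' ha := by simpa using ha
  mem_or_inv_mem' x := (le_total (nm x) 1).imp (fun h => .of_le h poly_one) fun h =>
    .of_le ((map_inv₀ nm x).trans_le (inv_le_one_of_one_le₀ h)) poly_one

theorem mem_Opoly {x : Cs} : x ∈ Opoly hT ↔ Poly T (nm x) := Iff.rfl

/-! ### Superpolynomially small numbers -/

omit hT in
theorem tiny_zero : Tiny T 0 := fun _ => by simp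

theorem Tiny.of_le (h : a ≤ b) (h' : Tiny T b) : Tiny T a := fun k =>
  (mul_le_mul_of_nonneg_right h (pow_pos hT.pos k).le).trans (h' k)

theorem Tiny.ll_pow (h : Tiny T a) (m : ℕ) : Ll (a * T ^ m) 1 := fun k => by
  rcases le_total a 0 with e | e
  · exact (mul_nonpos_of_nonneg_of_nonpos k.cast_nonneg
      (mul_nonpos_of_nonpos_of_nonneg e (pow_pos hT.pos m).le)).trans zero_le_one
  · refine le_trans ?_ (h (m + 1))
    rw [mul_comm, pow_succ, ← mul_assoc]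
    exact mul_le_mul_of_nonneg_left (hT.nat_le k) (mul_nonneg e (pow_pos hT.pos m).le)

theorem Tiny.ll (h : Tiny T a) : Ll a 1 := by simpa using h.ll_pow hT 0

theorem tiny_iff : Tiny T a ↔ ∀ m, Ll (a * T ^ m) 1 := ⟨Tiny.ll_pow hT, fun h m => (h m).le⟩

theorem Tiny.of_lc (h : Lc a b) (h' : Tiny T b) : Tiny T a := fun m =>
  ((h.mul_right (pow_pos hT.pos m).le).trans_ll (h'.ll_pow hT m)).le

theorem Tiny.add (h : Tiny T a) (h' : Tiny T b) : Tiny T (a + b) := fun m =>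
  (add_mul a b _).trans_le ((h.ll_pow hT m).add (h'.ll_pow hT m)).le

theorem Tiny.sum (h : ∀ i ∈ s, Tiny T (f i)) : Tiny T (∑ i ∈ s, f i) :=
  Finset.sum_induction f (Tiny T) (fun _ _ => Tiny.add hT) tiny_zero h

theorem Tiny.mul_poly (h : Tiny T a) (h' : Poly T b) (ha : 0 ≤ a) : Tiny T (a * b) :=
  let ⟨k, h'⟩ := h'
  .of_le hT (mul_le_mul_of_nonneg_left h' ha) fun m => by simpa [pow_add, mul_assoc] using h (k + m)

theorem Poly.mul_tiny (h : Poly T a) (h' : Tiny T b) (hb : 0 ≤ b) : Tiny T (a * b) :=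
  mul_comm a b ▸ h'.mul_poly hT h hb

omit hT in
theorem tiny_or_poly (h : 0 < a) : Tiny T a ∨ Poly T a⁻¹ :=
  or_iff_not_imp_left.2 fun h' => (poly_inv_iff h).2
    ((not_forall.1 h').imp fun _ e => (not_le.1 e).le)

theorem Tiny.not_poly (h : Tiny T a) (ha : 0 < a) : ¬ Poly T a⁻¹ := fun h' =>
  (h.mul_poly hT h' ha.le).ll hT |>.not_lc one_pos (.of_le (mul_inv_cancel₀ ha.ne').ge)

theorem not_tiny (ha : 0 ≤ a) : ¬ Tiny T a ↔ 0 < a ∧ Poly T a⁻¹ :=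
  ⟨fun h => have := ha.lt_of_ne fun e => h (e ▸ tiny_zero)
    ⟨this, (tiny_or_poly this).resolve_left h⟩, fun h h' => h'.not_poly hT h.1 h.2⟩

omit hT in
theorem Tiny.sm (h : Tiny T a) : Sm T a := ⟨1, by simpa using h 1⟩

/-! ### Small and big powers -/

theorem Sm.pos (h : Sm T a) : ∃ k : ℕ, k ≠ 0 ∧ a ^ k * T ≤ 1 :=
  h.imp fun _ h => ⟨fun e => hT.one_lt.not_ge (by simpa [e] using h), h⟩

omit hT in
theorem sm_zero : Sm T 0 := tiny_zero.sm

theorem sm_inv_self : Sm T T⁻¹ := ⟨1, by simp [hT.pos.ne']⟩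

theorem Sm.ll (h : Sm T a) : Ll a 1 := by
  obtain ⟨k, h0, h⟩ := h.pos hT
  refine .of_pow ?_ zero_le_one h0
  rw [one_pow]
  exact Ll.le_trans ((le_div_iff₀ hT.pos).2 h) ((ll_div hT.pos).2 hT)

theorem Sm.of_le (ha : 0 ≤ a) (h : a ≤ b) (h' : Sm T b) : Sm T a :=
  h'.imp fun k e => (mul_le_mul_of_nonneg_right (pow_le_pow_left₀ ha h k) hT.pos.le).trans e

omit hT in
theorem Sm.root {n : ℕ} (h : Sm T (a ^ n)) : Sm T a :=
  let ⟨k, h⟩ := h; ⟨n * k, pow_mul a n k ▸ h⟩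

theorem Sm.of_lc (ha : 0 ≤ a) (hb : 0 ≤ b) (h : Lc a b) (h' : Sm T b) : Sm T a := by
  refine Sm.root (n := 2) (.of_le hT (sq_nonneg a) ?_ h')
  rw [sq, ← one_mul b]
  exact ((h.trans_ll (h'.ll hT)).mul_lc h ha hb).le

omit hT in
theorem Sm.max (h : Sm T a) (h' : Sm T b) : Sm T (max a b) := by
  rcases le_total a b with e | e <;> simpa [e]

theorem Sm.add (h : Sm T a) (h' : Sm T b) (ha : 0 ≤ a) (hb : 0 ≤ b) : Sm T (a + b) :=
  .of_lc hT (add_nonneg ha hb) (le_max_of_le_left ha)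
    (.add (.of_le (le_max_left a b)) (.of_le (le_max_right a b))) (h.max h')

theorem Sm.sum (h : ∀ i ∈ s, Sm T (f i)) (h0 : ∀ i ∈ s, 0 ≤ f i) : Sm T (∑ i ∈ s, f i) :=
  (Finset.sum_induction f (fun a => 0 ≤ a ∧ Sm T a)
    (fun _ _ h h' => ⟨add_nonneg h.1 h'.1, h.2.add hT h'.2 h.1 h'.1⟩) ⟨le_rfl, sm_zero⟩
    fun i hi => ⟨h0 i hi, h i hi⟩).2

theorem Sm.mul_lc (h : Sm T a) (h' : Lc b 1) (ha : 0 ≤ a) (hb : 0 ≤ b) : Sm T (a * b) :=
  .of_lc hT (mul_nonneg ha hb) ha (by simpa using h'.mul_left ha) h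

theorem Sm.pow (h : Sm T a) (ha : 0 ≤ a) {n : ℕ} (hn : n ≠ 0) : Sm T (a ^ n) :=
  .of_le hT (pow_nonneg ha n) (pow_le_of_le_one ha (h.ll hT).le hn) h

/-- Powers of a small number beat every polynomial bound. -/
theorem Sm.pow_le (h : Sm T a) (ha : 0 ≤ a) (m : ℕ) : ∃ d : ℕ, ∀ e, d ≤ e → a ^ e * T ^ m ≤ 1 :=
  let ⟨k, h'⟩ := h
  ⟨k * m, fun _ he => (mul_le_mul_of_nonneg_right (pow_le_pow_of_le_one ha (h.ll hT).le he)
    (pow_pos hT.pos m).le).trans (by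
      rw [pow_mul, ← mul_pow]
      exact pow_le_one₀ (mul_nonneg (pow_nonneg ha k) hT.pos.le) h')⟩

omit hT in
theorem sm_inv (ha : 0 < a) : Sm T a⁻¹ ↔ Big T a :=
  exists_congr fun k => by rw [inv_pow, inv_mul_le_iff₀ (pow_pos ha k), mul_one]

omit hT in
theorem big_inv (ha : 0 < a) : Big T a⁻¹ ↔ Sm T a := by rw [← sm_inv (inv_pos.2 ha), inv_inv]

omit hT in
theorem big_self : Big T T := ⟨1, by simp⟩

theorem Big.pos (h : Big T a) (ha : 0 ≤ a) : 0 < a :=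
  ha.lt_of_ne fun e => let ⟨k, h⟩ := h
    hT.one_lt.not_ge (h.trans (e ▸ pow_le_one₀ le_rfl zero_le_one))

theorem Big.ll (h : Big T a) (ha : 0 ≤ a) : Ll 1 a := by
  simpa using (((sm_inv (h.pos hT ha)).2 h).ll hT).inv (inv_pos.2 (h.pos hT ha))

omit hT in
theorem Big.of_le (h : Big T a) (ha : 0 ≤ a) (h' : a ≤ b) : Big T b :=
  h.imp fun _ e => e.trans (pow_le_pow_left₀ ha h' _)

theorem Big.of_lc (h : Big T a) (ha : 0 ≤ a) (hb : 0 ≤ b) (h' : Lc a b) : Big T b := by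
  have h1 := h.pos hT ha
  have h2 : 0 < b := hb.lt_of_ne fun e => let ⟨k, h'⟩ := h'; h1.not_ge (by simpa [← e] using h')
  exact (sm_inv h2).1 (.of_lc hT (inv_pos.2 h2).le (inv_pos.2 h1).le (h'.inv h1 h2)
    ((sm_inv h1).2 h))

omit hT in
theorem Big.root {n : ℕ} (h : Big T (a ^ n)) : Big T a :=
  let ⟨k, h⟩ := h; ⟨n * k, pow_mul a n k ▸ h⟩

omit hT in
theorem Big.poly (h : Big T a) (h0 : 0 ≤ T) (h' : Poly T b) : ∃ d : ℕ, b ≤ a ^ d :=
  let ⟨k, h⟩ := h; let ⟨m, h'⟩ := h'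
  ⟨k * m, h'.trans (pow_mul a k m ▸ pow_le_pow_left₀ h0 h m)⟩

/-! ### Slow infinitesimals -/

omit hT in
theorem Slow.poly_inv (h : Slow T a) : Poly T a⁻¹ :=
  (poly_inv_iff h.1).2 ⟨1, by simpa using h.2.2 1⟩

theorem Slow.of_le (h : Slow T a) (h' : a ≤ b) (hb : Ll b 1) : Slow T b :=
  ⟨h.1.trans_le h', hb, fun k => (h.2.2 k).trans
    (mul_le_mul_of_nonneg_right (pow_le_pow_left₀ h.1.le h' k) hT.pos.le)⟩

omit hT in
theorem Slow.pow (h : Slow T a) {n : ℕ} (hn : n ≠ 0) : Slow T (a ^ n) :=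
  ⟨pow_pos h.1 n, by simpa using h.2.1.pow h.1.le hn, fun k => pow_mul a n k ▸ h.2.2 _⟩

theorem Slow.mul (h : Slow T a) (h' : Slow T b) : Slow T (a * b) := by
  wlog e : a ≤ b generalizing a b
  · exact mul_comm a b ▸ this h' h (le_of_not_ge e)
  exact (h.pow two_ne_zero).of_le hT (sq a ▸ mul_le_mul_of_nonneg_left e h.1.le)
    (h.2.1.mul_one h'.2.1.lc h'.1.le)

theorem Slow.of_lc (h : Slow T a) (h' : Lc a b) (h0 : 0 ≤ b) (hb : Ll b 1) : Slow T b :=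
  (h.pow two_ne_zero).of_le hT (by simpa [sq] using (h.2.1.mul_lc h' h.1.le h0).le) hb

omit hT in
theorem Slow.not_sm (h : Slow T a) : ¬ Sm T a := fun ⟨k, e⟩ => by
  have h1 := h.2.2 (k + 1)
  rw [pow_succ', mul_assoc] at h1
  exact (h.2.1.lt one_pos).not_ge (h1.trans (mul_le_of_le_one_right h.1.le e))

theorem Sm.ll_slow (h : Sm T a) (ha : 0 ≤ a) (hb : Slow T b) : Ll a b :=
  (lc_or_ll b a).resolve_left fun e => hb.not_sm (.of_lc hT hb.1.le ha e h)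

theorem slow_iff (ha : 0 < a) (h : Ll a 1) : Slow T a ↔ ¬ Sm T a :=
  ⟨Slow.not_sm, fun h' => ⟨ha, h, fun k => (not_le.1 fun e => h' ⟨k, e⟩).le⟩⟩

/-- A small number stays small after division by a slow one. -/
theorem Sm.div_slow (h : Sm T a) (ha : 0 ≤ a) (hb : Slow T b) : Sm T (a / b) := by
  refine Sm.root (n := 2) (.of_le hT (sq_nonneg _) ?_ h)
  rw [div_pow, div_le_iff₀ (pow_pos hb.1 2), sq a]
  exact mul_le_mul_of_nonneg_left (h.ll_slow hT ha (hb.pow two_ne_zero)).le ha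

theorem Big.mul_slow (h : Big T a) (ha : 0 ≤ a) (hb : Slow T b) : Big T (a * b) := by
  have h1 := h.pos hT ha
  rw [← sm_inv (mul_pos h1 hb.1), mul_inv, ← div_eq_mul_inv]
  exact ((sm_inv h1).2 h).div_slow hT (inv_pos.2 h1).le hb

end

end Pool.Agent.P.MP_f17f76_ag.N
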