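import Pool.Agent.P.MP_f17f76_ag.E.Ch

/-!
Algebraic elements over `K(x)` as analytic germs at a generic point `x`.
-/

namespace Pool.Agent.P.MP_f17f76_ag.E

open MvPolynomial Filter Topology Module Set

variable {ι σ : Type} [Fintype ι] {K : Subfield ℂ} {x : ι → ℂ} {a b : (ι → ℂ) → ℂ} {c : ℂ}
  {D : Der ℂ}

noncomputable instance knAlg (K : Subfield ℂ) (x : ι → ℂ) :
    Algebra (MvPolynomial ι K) (nash1_G x) :=
  ((algebraMap (MvPolynomial ι ℂ) (nash1_G x)).comp (map K.subtype)).toAlgebra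

/-- Evaluation of a polynomial in one distinguished variable. -/
noncomputable def pev (f : Polynomial (MvPolynomial ι K)) (u : ι → ℂ) (s : ℂ) : ℂ :=
  (f.map (map K.subtype)).eval₂ (eval u) s

omit [Fintype ι] in
theorem pev_eq (f : Polynomial (MvPolynomial ι K)) (u : ι → ℂ) (s : ℂ) :
    pev f u s = f.eval₂ (aeval u : MvPolynomial ι K →ₐ[K] ℂ) s := by
  rw [pev, Polynomial.eval₂_map]
  congr 1
  exact RingHom.ext (eval_map_sub u)

omit [Fintype ι] in
theorem pev_option (P : MvPolynomial (Option ι) K) (u : ι → ℂ) (s : ℂ) :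
    pev (optionEquivLeft K ι P) u s = aeval (fun o : Option ι => o.elim s u) P := by
  rw [pev_eq]
  induction P using MvPolynomial.induction_on with
  | C a => simp
  | add p q hp hq => simp [Polynomial.eval₂_add, hp, hq]
  | mul_X p i hp => cases i <;> simp [Polynomial.eval₂_mul, hp]

omit [Fintype ι] in
theorem derivative_option (P : MvPolynomial (Option ι) K) :
    (optionEquivLeft K ι P).derivative = optionEquivLeft K ι (pderiv none P) := by
  classical
  induction P using MvPolynomial.induction_on with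
  | C a => simp
  | add p q hp hq => simp [hp, hq]
  | mul_X p i hp => cases i <;> simp [hp, pderiv_X, mul_comm, add_comm]

/-- Analytic germs that are algebraic over the polynomials with coefficients in `K`. -/
def KN (K : Subfield ℂ) (x : ι → ℂ) (a : (ι → ℂ) → ℂ) : Prop :=
  AnalyticAt ℂ a x ∧ IsAlgebraic (MvPolynomial ι K) (nash1_mk x a)

theorem kn_iff : KN K x a ↔ AnalyticAt ℂ a x ∧ ∃ f : Polynomial (MvPolynomial ι K), f ≠ 0 ∧
    ∀ᶠ u in 𝓝 x, pev f u (a u) = 0 := by
  refine and_congr_right fun _ => exists_congr fun f => and_congr_right fun _ => ?_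
  rw [← nash1_mk_eq_zero (a := fun u => pev f u (a u)), ← show _ = nash1_mk x
    (fun u => pev f u (a u)) from nash1_aeval (f.map (map K.subtype)), Polynomial.aeval_def,
    Polynomial.aeval_def, Polynomial.eval₂_map]
  rfl

theorem KN.congr (h : KN K x a) (e : a =ᶠ[𝓝 x] b) : KN K x b :=
  ⟨h.1.congr e, nash1_mk_eq.2 e ▸ h.2⟩

theorem kn_poly (p : MvPolynomial ι K) : KN K x fun u => aeval u p := by
  simp only [← eval_map_sub]
  exact ⟨nash1_analytic_eval x _, isAlgebraic_algebraMap p⟩

theorem kn_const (h : c ∈ K) : KN K x fun _ => c :=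
  (kn_poly (C (⟨c, h⟩ : K))).congr (Eventually.of_forall fun u => aeval_C u _)

theorem kn_coord (i : ι) : KN K x fun u => u i := by simpa using kn_poly (K := K) (x := x) (X i)

theorem KN.add (ha : KN K x a) (hb : KN K x b) : KN K x fun u => a u + b u :=
  ⟨ha.1.add hb.1, (map_add (nash1_mk x) a b).symm ▸ ha.2.add hb.2⟩

theorem KN.mul (ha : KN K x a) (hb : KN K x b) : KN K x fun u => a u * b u :=
  ⟨ha.1.mul hb.1, (map_mul (nash1_mk x) a b).symm ▸ ha.2.mul hb.2⟩

theorem KN.neg (ha : KN K x a) : KN K x fun u => -a u :=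
  ⟨ha.1.neg, (map_neg (nash1_mk x) a).symm ▸ ha.2.neg⟩

theorem KN.sub (ha : KN K x a) (hb : KN K x b) : KN K x fun u => a u - b u := by
  simpa only [sub_eq_add_neg] using ha.add hb.neg

theorem KN.inv (ha : KN K x a) (h0 : a x ≠ 0) : KN K x fun u => (a u)⁻¹ := by
  obtain ⟨h1, f, hf, h2⟩ := kn_iff.1 ha
  refine kn_iff.2 ⟨h1.inv h0, f.reverse, fun h => hf (Polynomial.reverse_eq_zero.1 h), ?_⟩
  filter_upwards [h2, h1.continuousAt.eventually_ne h0] with u hu hu0
  let _ := invertibleOfNonzero hu0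
  rw [pev_eq] at hu ⊢
  exact (Polynomial.eval₂_reverse_eq_zero_iff _ (a u) f).2 hu

theorem kn_sum (s : Finset σ) {f : σ → (ι → ℂ) → ℂ} (h : ∀ j ∈ s, KN K x (f j)) :
    KN K x fun u => ∑ j ∈ s, f j u := by
  classical
  induction s using Finset.induction_on with
  | empty => simpa using kn_const K.zero_mem
  | insert j s hj ih =>
    simp only [Finset.sum_insert hj]
    exact (h j (by simp)).add (ih fun l hl => h l (by simp [hl]))

theorem kn_eval {p : MvPolynomial σ ℂ} (hp : Cf K p) {f : (ι → ℂ) → σ → ℂ}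
    (h : ∀ j, KN K x fun u => f u j) : KN K x fun u => eval (f u) p :=
  hp.induction (P := fun p => KN K x fun u => eval (f u) p) (fun c hc => by simpa using kn_const hc)
    (fun _ _ h h' => by simpa using h.add h') fun _ i h' => by simpa using h'.mul (h i)

theorem kn_aeval {k : Subfield ℂ} (hk : k ≤ K) (p : MvPolynomial σ k) {f : (ι → ℂ) → σ → ℂ}
    (h : ∀ j, KN K x fun u => f u j) : KN K x fun u => aeval (f u) p := by
  simpa only [eval_map_sub] using kn_eval ((cf_map p).mono hk) h

theorem kn_option (ha : KN K x a) (P : MvPolynomial (Option ι) K) :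
    KN K x fun u => aeval (fun o : Option ι => o.elim (a u) u) P :=
  kn_aeval le_rfl P fun o => by
    cases o
    exacts [ha, kn_coord _]

theorem KN.mem_acl (ha : KN K x a) (hx : AlgebraicIndependent K x) : a x ∈ acl (K ∪ range x) := by
  obtain ⟨-, f, hf, h⟩ := kn_iff.1 ha
  refine mem_acl_of_poly (p := f.map (aeval x : MvPolynomial ι K →ₐ[K] ℂ))
    ((Polynomial.map_ne_zero_iff hx).2 hf) (fun n => ?_) ?_
  · rw [Polynomial.coeff_map, RingHom.coe_coe, ← eval_map_sub]
    exact ((cf_map _).mono (subset_union_left.trans (subset_acl _))).eval_mem' le_rfl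
      fun i => mem_acl_of_mem (Or.inr ⟨i, rfl⟩)
  · rw [Polynomial.eval_map, ← pev_eq]
    exact h.self_of_nhds

/-- A germ over `K` that vanishes at the generic point vanishes identically. -/
theorem KN.eq_zero (ha : KN K x a) (hx : AlgebraicIndependent K x) (h0 : a x = 0) :
    ∀ᶠ u in 𝓝 x, a u = 0 := by
  obtain ⟨-, f, hf, h⟩ := kn_iff.1 ha
  obtain ⟨q, hq, hnd⟩ := Polynomial.exists_eq_pow_rootMultiplicity_mul_and_not_dvd f hf 0
  rw [map_zero, sub_zero] at hq hnd
  obtain ⟨Q, rfl⟩ := (optionEquivLeft K ι).surjective q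
  have h1 : aeval (fun o : Option ι => o.elim (a x) x) Q ≠ 0 := by
    rw [← pev_option, pev_eq, h0, Polynomial.eval₂_at_zero]
    exact fun e => hnd (Polynomial.X_dvd_iff.2 (hx (e.trans (map_zero _).symm)))
  filter_upwards [h, (kn_option ha Q).1.continuousAt.eventually_ne h1] with u h2 h3
  rw [hq, pev_eq, Polynomial.eval₂_mul, Polynomial.eval₂_X_pow, ← pev_eq, pev_option] at h2
  exact (pow_eq_zero_iff'.1 ((mul_eq_zero.1 h2).resolve_right h3)).1

theorem KN.eq (ha : KN K x a) (hb : KN K x b) (hx : AlgebraicIndependent K x) (h0 : a x = b x) :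
    a =ᶠ[𝓝 x] b := ((ha.sub hb).eq_zero hx (sub_eq_zero.2 h0)).mono fun _ => sub_eq_zero.1

theorem exists_sep (hx : AlgebraicIndependent K x) (hc : c ∈ acl (K ∪ range x)) :
    ∃ f : Polynomial (MvPolynomial ι K), f ≠ 0 ∧ pev f x c = 0 ∧ pev f.derivative x c ≠ 0 := by
  classical
  have hex : ∃ n, ∃ f : Polynomial (MvPolynomial ι K), (f ≠ 0 ∧ pev f x c = 0) ∧
      f.natDegree = n := by
    by_contra h
    have h1 : AlgebraicIndependent (Subfield.closure (K : Set ℂ))
        fun o : Option ι => o.elim c x := by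
      rw [Subfield.closure_eq]
      exact algebraicIndependent_iff.2 fun P hP => by_contra fun h2 => h ⟨_, optionEquivLeft K ι P,
        ⟨(map_ne_zero_iff _ (AlgEquiv.injective _)).2 h2, (pev_option P x c).trans hP⟩, rfl⟩
    have h2 := (trd_range_eq_iff.2 h1).ge.trans ((trd_le (finite_range x) (by
      rintro _ ⟨_ | i, rfl⟩
      exacts [hc, mem_acl_of_mem (Or.inr ⟨i, rfl⟩)])).trans (trd_range_le x))
    simp at h2
  obtain ⟨f, ⟨h1, h2⟩, h3⟩ := Nat.find_spec hex
  have h4 : f.natDegree ≠ 0 := fun h => by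
    rw [Polynomial.eq_C_of_natDegree_eq_zero h] at h1 h2
    rw [pev_eq, Polynomial.eval₂_C] at h2
    exact h1 (by rw [hx (h2.trans (map_zero _).symm), map_zero])
  exact ⟨f, h1, h2, fun h => Nat.find_min hex (h3 ▸ Polynomial.natDegree_derivative_lt h4)
    ⟨_, ⟨fun e => h4 (Polynomial.derivative_eq_zero.1 e), h⟩, rfl⟩⟩

theorem exists_kn (hx : AlgebraicIndependent K x) (hc : c ∈ acl (K ∪ range x)) :
    ∃ a, KN K x a ∧ a x = c := by
  obtain ⟨f, h1, h2, h3⟩ := exists_sep hx hc
  obtain ⟨a, h4, h5, h6, -⟩ := chart_root (f.map (map K.subtype)) x c h2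
    (by rwa [Polynomial.derivative_map])
  exact ⟨a, kn_iff.2 ⟨h4, f, h1, h6⟩, h5⟩

theorem KN.et (ha : KN K x a) (hx : AlgebraicIndependent K x) :
    ∃ P : MvPolynomial (Option ι) K,
      (∀ᶠ u in 𝓝 x, aeval (fun o : Option ι => o.elim (a u) u) P = 0) ∧
        aeval (fun o : Option ι => o.elim (a x) x) (pderiv none P) ≠ 0 := by
  obtain ⟨f, -, h2, h3⟩ := exists_sep hx (ha.mem_acl hx)
  obtain ⟨P, rfl⟩ := (optionEquivLeft K ι).surjective f
  rw [derivative_option] at h3
  rw [pev_option] at h2 h3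
  exact ⟨P, (kn_option ha P).eq_zero hx h2, h3⟩

theorem KN.isEt (ha : KN K x a) (hx : AlgebraicIndependent K x) : IsEt x a := by
  obtain ⟨P, h1, h2⟩ := ha.et hx
  simp only [← pev_option, ← derivative_option] at h1 h2
  exact ⟨ha.1, _, h1, by rwa [Polynomial.derivative_map]⟩

theorem fderiv_option {P : MvPolynomial (Option ι) K} (ha : DifferentiableAt ℂ a x)
    (h : ∀ᶠ u in 𝓝 x, aeval (fun o : Option ι => o.elim (a u) u) P = 0) (v : ι → ℂ) :
    aeval (fun o : Option ι => o.elim (a x) x) (pderiv none P) * fderiv ℂ a x v +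
      ∑ i, aeval (fun o : Option ι => o.elim (a x) x) (pderiv (some i) P) * v i = 0 := by
  have h1 := hasFDerivAt_eval (y := x) (map K.subtype P) (fun u o => o.elim (a u) u)
    (fun o => o.elim (fderiv ℂ a x) fun i => ContinuousLinearMap.proj i) fun o => by
      cases o
      exacts [ha.hasFDerivAt, (ContinuousLinearMap.proj (R := ℂ) (φ := fun _ : ι => ℂ) _).hasFDerivAt]
  simp only [eval_map_sub, pderiv_map] at h1
  simpa using congrArg (fun L => L v)
    (h1.unique ((hasFDerivAt_const (0 : ℂ) x).congr_of_eventuallyEq h))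

/-- Derivations over `K` act through the differential of the germ. -/
theorem KN.der (ha : KN K x a) (hx : AlgebraicIndependent K x) (hD : D ∈ kil (K : Set ℂ)) :
    D (a x) = fderiv ℂ a x (dv x D) := by
  obtain ⟨P, h1, h2⟩ := ha.et hx
  have h3 := fderiv_option ha.1.differentiableAt h1 (dv x D)
  have h4 := der_aeval hD (fun o : Option ι => o.elim (a x) x) P
  rw [h1.self_of_nhds, map_zero, Fintype.sum_option] at h4
  exact mul_left_cancel₀ h2 (add_right_cancel (h4.symm.trans h3.symm))

theorem KN.fderiv (ha : KN K x a) (hx : AlgebraicIndependent K x) {v : ι → ℂ} (hv : ∀ i, v i ∈ K) :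
    KN K x fun u => fderiv ℂ a u v := by
  obtain ⟨P, h1, h2⟩ := ha.et hx
  refine ((kn_sum Finset.univ fun i _ => (kn_option ha (pderiv (some i) P)).mul
    (kn_const (hv i))).neg.mul ((kn_option ha _).inv h2)).congr ?_
  filter_upwards [ha.1.eventually_analyticAt, h1.eventually_nhds,
    (kn_option ha _).1.continuousAt.eventually_ne h2] with u h3 h4 h5
  rw [mul_inv_eq_iff_eq_mul₀ h5, neg_eq_iff_add_eq_zero, add_comm, mul_comm]
  exact fderiv_option h3.differentiableAt h4 v

end Pool.Agent.P.MP_f17f76_ag.E
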