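import Pool.Agent.P.MP_f17f76_ag.E.Log
import Pool.Agent.P.MP_f17f76_ag.E.Dir

/-!
Approximation of a holomorphic map into a rational subspace by a polynomial with lattice
coefficients.
-/

namespace Pool.Agent.P.MP_f17f76_ag.N

open Set Filter Topology Metric E MvPolynomial

noncomputable section

variable {I : Type} [Fintype I] {n N : ℕ} (A : AbVar n N) {B : Submodule ℂ (Fin n → ℂ)} {T : ℝ*}

theorem st_iff_pr {x : Fin n → Cs} : x ∈ St B ↔ lx (A.pr (A.perp B)) x = 0 := by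
  rw [← lx_zero (J := Fin n) x, ← st_eq_iff]
  simp only [LinearMap.zero_apply, A.pr_eq_zero_iff, A.perp_perp, SetLike.setOfPred_mem_eq]

theorem st_iff_pr_H {z : Fin n → H I} :
    (∀ x, Pt x → evv x z ∈ St B) ↔ lx (A.pr (A.perp B)) z = 0 := by
  simp only [st_iff_pr A, ← evv_lx]
  exact ⟨fun h => funext fun j => H.ext fun x hx => (congrFun (h x hx) j).trans (map_zero _).symm,
    fun h x _ => funext fun j => by simp [h, evv]⟩

variable [DecidableEq I]

include A in
theorem st_dw {z : Fin n → H I} (hz : ∀ x, Pt x → evv x z ∈ St B) (l : List I) :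
    ∀ x, Pt x → (evv x fun k => dw l (z k)) ∈ St B := by
  induction l with
  | nil => exact hz
  | cons i l ih =>
    rw [st_iff_pr_H A] at ih ⊢
    funext j
    simpa [lx_apply, algebraMap_eq, dw] using congrArg (dd i) (congrFun ih j)

omit [Fintype I] [DecidableEq I] in
/-- The internal recurrence theorem with a uniform exponent. -/
theorem heil_unif (hB : A.IsLie B) (b : Type) [Fintype b] (k : b → ℕ) : ∃ C : ℕ, ∀ K : ℝ*, 2 ≤ K →
    ∀ α : b → Fin n → Cs, (∀ i, α i ∈ St B) → ∃ (t : Cs) (μ : b → Fin n → Cs), PosZ t ∧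
      nm t ≤ K ^ C ∧ ∀ i, μ i ∈ St (A.Λ ∩ B : Set _) ∧
        ∀ j, nm (t ^ (k i + 1) * α i j - μ i j) * K ≤ C := by
  obtain ⟨C, hC⟩ := hB.heil k
  refine ⟨C, fun K hK α hα => ?_⟩
  obtain ⟨κ, rfl⟩ := sr_surj K
  choose u hu using fun i => vec_surj (α i)
  obtain rfl : (fun i => vec (u i)) = α := funext hu
  have h1 := ((sr_le (u := fun _ => 2)).1 hK).and (eventually_all.2 fun i => st_vec.1 (hα i))
  choose! t h2 h3 μ h4 h5 using fun m (h : 2 ≤ κ m ∧ ∀ i, u i m ∈ B) => hC _ _ h.1 h.2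
  have e : (qs fun m => (max (t m) 1 : ℕ)) = qs fun m => t m :=
    qs_eq.2 (h1.mono fun m h => by rw [max_eq_left (h2 m h)])
  refine ⟨_, fun i => vec fun m => μ m i, ⟨fun m => max (t m) 1, fun m => by simp, e.symm⟩, ?_,
    fun i => ⟨st_vec.2 (h1.mono fun m h => h4 m h i), fun j => ?_⟩⟩
  · rw [nm_qs, ← map_pow, sr_le]
    exact h1.mono fun m h => by simpa using h3 m h
  · simp only [vec]
    rw [← map_pow, ← map_mul, ← map_sub, nm_qs, ← map_mul, ← coe_nat, sr_const, sr_le]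
    exact h1.mono fun m h => le_trans (mul_le_mul_of_nonneg_right
      (norm_le_pi_norm ((t m : ℂ) ^ (k i + 1) • u i m - μ m i) j) (by linarith [h.1])) (h5 m h i)

/-- Lattice approximation in the integer variables `ν = M x`; the new variables are `ν = h ν'`,
`ν' = M' x'`. -/
theorem lat (hB : A.IsLie B) (hT : Ll 1 T) {z : Fin n → H I}
    (hz : ∀ x, Pt x → evv x z ∈ St B ∧ ∀ k, Poly T (nm (ev x (z k)))) {M : Cs} (hM : PosZ M)
    (hM' : Big T (nm M)) : ∃ (h M' : Cs) (P : Fin n → MvPolynomial I Cs) (η : ℝ*), PosZ h ∧ PosZ M' ∧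
      Big T (nm M') ∧ Sm T (nm (h * M' / M)) ∧ 0 ≤ η ∧ Sm T η ∧
      (∀ m, (fun k => (P k).coeff m) ∈ St (A.Λ ∩ B : Set _) ∧ ∀ k, Poly T (nm ((P k).coeff m))) ∧
      ∀ x, Pt x → ∀ k, nm (ev (fun i => h * M' / M * x i) (z k) - ev 0 (z k) -
        eval (fun i => M' * x i) (P k)) ≤ η := by
  choose c hc using fun k => exists_le_poly hT.le fun x hx => (hz x hx).2 k
  obtain ⟨e, he⟩ := Poly.unif hT fun k => poly_pow (T := T) (c k)
  have ha : ∀ k, Le (z k) (T ^ e) := fun k => (hc k).mono (he k)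
  obtain ⟨r, r0, hr⟩ := exists_root_pos hM.pos two_ne_zero
  have r1 : Big T r := .root (hr ▸ hM')
  have b0 := (inv_pos.2 r0).le
  have b1 := (sm_inv r0).2 r1
  obtain ⟨d, hd⟩ := (b1.of_lc hT (a := 6 * r⁻¹) (by positivity) b0 ⟨6, by simp⟩).pow_le hT
    (by positivity) (e + 2)
  obtain ⟨C, hC⟩ := heil_unif A hB (Σ k : Fin d, Fin (k + 1) → I) fun p => p.1
  obtain ⟨q, q0, hq⟩ := exists_root_pos r0 ((d + 1) * C).succ_ne_zero
  have q1 : Big T q := .root (hq ▸ r1)
  obtain ⟨M', m1, m2, m3⟩ := exists_posZ (q1.ll hT q0.le).le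
  have m4 := q1.of_lc hT q0.le m1.pos.le ⟨2, by simpa using m3⟩
  have m5 := m1.eq.2
  obtain ⟨h, μ, h1, h2, h3⟩ := hC (nm M' ^ (d + 1))
    ((m4.ll hT m1.pos.le).two_le.trans (le_self_pow₀ m5 d.succ_ne_zero))
    (fun p => (((p.1 + 1 : ℕ).factorial : Cs) * M ^ (p.1 + 1 : ℕ))⁻¹ •
      evv 0 fun k => dw (List.ofFn p.2) (z k))
    fun p => St.smul (st_dw A (fun x hx => (hz x hx).1) _ 0 .zero) _
  have h4 : nm (h * M' / M) ≤ r⁻¹ := by
    rw [map_div₀, map_mul, ← hr, div_le_iff₀ (by positivity), sq, inv_mul_cancel_left₀ r0.ne', ← hq]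
    refine le_trans ?_ (pow_le_pow_left₀ m1.pos.le m2 _)
    rw [pow_succ, pow_mul]
    exact mul_le_mul_of_nonneg_right h2 m1.pos.le
  have h5 : 0 ≤ 6 * T ^ e * (6 * r⁻¹) ^ (d + 1) := by have := hT.pos; positivity
  have h6 : 0 ≤ (nm M')⁻¹ * C := mul_nonneg (inv_pos.2 m1.pos).le C.cast_nonneg
  refine ⟨h, M', fun k => ∑ p, monomial (∑ l, Finsupp.single (p.2 l) 1) (μ p k),
    6 * T ^ e * (6 * r⁻¹) ^ (d + 1) + ∑ _ : (Σ k : Fin d, Fin (k + 1) → I), (nm M')⁻¹ * C, h1, m1, m4,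
    .of_le hT (nm.nonneg _) h4 b1, add_nonneg h5 (Finset.sum_nonneg fun _ _ => h6),
    .add hT ⟨1, le_trans ?_ (hd (d + 1) d.le_succ)⟩ (.sum hT (fun _ _ => .mul_lc hT ((sm_inv m1.pos).2 m4)
      (lc_nat C) (inv_pos.2 m1.pos).le C.cast_nonneg) fun _ _ => h6) h5
      (Finset.sum_nonneg fun _ _ => h6), fun m => ⟨?_, fun k => ?_⟩, fun x hx k => ?_⟩
  · have := mul_le_mul_of_nonneg_right (hT.nat_le 6)
      (show 0 ≤ T ^ e * (6 * r⁻¹) ^ (d + 1) * T by have := hT.pos; positivity)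
    push_cast at this
    calc _ = _ := by ring
      _ ≤ _ := this
      _ = _ := by ring
  · have : (fun k => coeff m (∑ p, monomial (∑ l, Finsupp.single (p.2 l) 1) (μ p k))) =
        ∑ p, if ∑ l, Finsupp.single (p.2 l) 1 = m then μ p else 0 := funext fun k => by
      simp only [coeff_sum, coeff_monomial, Finset.sum_apply, ite_apply, Pi.zero_apply]
    rw [this, st_inter]
    refine ⟨St.sum fun p _ => ?_, St.sum fun p _ => ?_⟩ <;> split_ifs
    exacts [(st_inter.1 (h3 p).1).1, St.zero _, (st_inter.1 (h3 p).1).2, St.zero _]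
  · rw [coeff_sum, ← mem_Opoly hT]
    refine sum_mem fun p _ => ?_
    rw [coeff_monomial]
    split_ifs
    · have a1 : nm (h / M) ≤ 1 := le_trans (by
        rw [mul_div_right_comm, map_mul]
        exact le_mul_of_one_le_right (nm.nonneg _) m5) (h4.trans (b1.ll hT).le)
      have a2 := sub_mem (mul_mem (mul_mem (pow_mem ((mem_Opoly hT).2 (.of_le a1 poly_one)) (p.1 + 1))
        ((mem_Opoly hT).2 (poly_of_lc hT (lc_co ((p.1 + 1 : ℕ).factorial : ℂ)⁻¹))))
        ((mem_Opoly hT).2 (.of_lc hT ((ha k).dw (List.ofFn p.2)) (poly_pow e))))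
        ((mem_Opoly hT).2 (poly_of_lc hT (.le_trans ((le_mul_of_one_le_right (nm.nonneg _)
          (one_le_pow₀ m5)).trans ((h3 p).2 k)) (lc_nat C))))
      convert a2 using 1
      simp only [map_inv₀, map_natCast, Pi.smul_apply, evv, smul_eq_mul]
      ring
    · exact zero_mem _
  · have a1 := taylor (ha k) b0 (by
      have := b1.ll hT 12
      push_cast at this
      linarith) (x := fun i => h * M' / M * x i) (fun i => by
        rw [map_mul]
        exact (mul_le_of_le_one_right (nm.nonneg _) (hx i).le).trans h4) (d + 1)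
    rw [Finset.sum_range_succ', Finset.sum_range, ← Fintype.sum_sigma'] at a1
    have a2 : ∀ p : (Σ k : Fin d, Fin (k + 1) → I), nm ((h ^ (p.1 + 1 : ℕ) *
        ((((p.1 + 1 : ℕ).factorial : Cs) * M ^ (p.1 + 1 : ℕ))⁻¹ •
          evv 0 fun k => dw (List.ofFn p.2) (z k)) k - μ p k) * ∏ l, M' * x (p.2 l)) ≤
        (nm M')⁻¹ * C := fun p => by
      rw [le_inv_mul_iff₀ m1.pos, map_mul, mul_left_comm]
      refine le_trans (mul_le_mul_of_nonneg_left ?_ (nm.nonneg _)) ((h3 p).2 k)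
      rw [pow_succ', map_prod]
      refine mul_le_mul_of_nonneg_left (le_trans (Finset.prod_le_prod (g := fun _ => nm M')
        (fun _ _ => nm.nonneg _) fun l _ => ?_) ?_) m1.pos.le
      · rw [map_mul]
        exact mul_le_of_le_one_right m1.pos.le (hx _).le
      · rw [Finset.prod_const, Finset.card_univ, Fintype.card_fin]
        exact pow_le_pow_right₀ m5 p.1.2
    refine le_trans (le_of_eq (congrArg nm ?_)) ((nm.add_le _ _).trans (add_le_add a1
      ((nm.sum_le _ _).trans (Finset.sum_le_sum fun p _ => a2 p))))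
    simp only [map_sum, monomial_sum_index, map_mul, map_prod, eval_C, sub_mul,
      Finset.sum_sub_distrib, Fintype.sum_unique, List.ofFn_zero, dw, Finset.prod_mul_distrib,
      Finset.prod_const, Finset.card_univ, Fintype.card_fin, Pi.smul_apply, evv, smul_eq_mul,
      show ∀ i : I, monomial (Finsupp.single i 1) (1 : Cs) = X i from fun _ => rfl, eval_X]
    rw [Finset.sum_congr rfl (g := fun p : (Σ k : Fin d, Fin (k + 1) → I) => h ^ (p.1 + 1 : ℕ) *
      ((((p.1 + 1 : ℕ).factorial : Cs) * M ^ (p.1 + 1 : ℕ))⁻¹ * ev 0 (dw (List.ofFn p.2) (z k))) *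
        (M' ^ (p.1 + 1 : ℕ) * ∏ l, x (p.2 l))) (f := fun p => _ / _ * _) fun p _ => by ring]
    simp
    ring

end

end Pool.Agent.P.MP_f17f76_ag.N
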