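import Pool.Agent.P.MP_f17f76_ag.E.HgcBas
import Pool.Agent.P.MP_f17f76_ag.E.Hs2

/-!
Ultralimits inside the complex numbers: fields, valuation rings, derivations and matrices.
-/

namespace Pool.Agent.P.MP_f17f76_ag.Hgc

open Set Filter Matrix E AbVar N

/-- An identification of the ultrapower with the complex numbers that fixes the field `B`. -/
structure Lm (B : Subfield ℂ) where
  f : (ℕ → ℂ) →+* ℂ
  surj : Function.Surjective f
  ker : ∀ x, f x = 0 ↔ ∀ᶠ n in UF, x n = 0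
  fix : ∀ b ∈ B, f (fun _ => b) = b

theorem exists_lm {B : Subfield ℂ} (hB : (B : Set ℂ).Countable) : Nonempty (Lm B) := by
  have : Uncountable ℂ := Complex.ofReal_injective.uncountable
  obtain ⟨σ, hσ⟩ := exists_equiv_sub mk_Cs.symm B hB (co.comp B.subtype)
  exact ⟨(σ.symm : Cs →+* ℂ).comp qs, σ.symm.surjective.comp qs_surj,
    fun x => (map_eq_zero σ.symm).trans qs_eq_zero,
    fun b hb => σ.symm_apply_eq.2 (hσ ⟨b, hb⟩).symm⟩

namespace Lm

variable {B k : Subfield ℂ} (l : Lm B) {x y : ℕ → ℂ} {F : ℕ → Subfield ℂ} {D : ℕ → Der ℂ}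
  {P : ℕ → Plc ℂ ℂ} {Q : Plc ℂ ℂ} {ι κ : Type} {b : ℂ}

theorem eq_iff : l.f x = l.f y ↔ ∀ᶠ n in UF, x n = y n := by
  simp only [← sub_eq_zero (a := l.f x), ← map_sub, l.ker, Pi.sub_apply, sub_eq_zero]

theorem ne_iff : l.f x ≠ 0 ↔ ∀ᶠ n in UF, x n ≠ 0 :=
  (l.ker x).not.trans Ultrafilter.eventually_not.symm

theorem inv (x : ℕ → ℂ) : (l.f x)⁻¹ = l.f fun n => (x n)⁻¹ := by
  by_cases h : l.f x = 0
  · rw [h, _root_.inv_zero, eq_comm, l.ker]
    exact ((l.ker x).1 h).mono fun n hn => by simp [hn]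
  · refine inv_eq_of_mul_eq_one_right ?_
    rw [← map_mul, ← map_one l.f, eq_iff]
    exact (l.ne_iff.1 h).mono fun n hn => mul_inv_cancel₀ hn

theorem zpow (x : ℕ → ℂ) (a : ℤ) : l.f x ^ a = l.f fun n => x n ^ a := by
  rcases a with a | a
  · simp only [Int.ofNat_eq_natCast, zpow_natCast, ← map_pow]
    rfl
  · simp only [zpow_negSucc, ← map_pow, inv]
    rfl

/-- The limit of a sequence of subrings. -/
def rng (S : ℕ → Subring ℂ) : Subring ℂ := Subring.map l.f
  { carrier := {x | ∀ᶠ n in UF, x n ∈ S n}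
    mul_mem' := fun ha hb => (ha.and hb).mono fun _ h => mul_mem h.1 h.2
    one_mem' := .of_forall fun _ => one_mem _
    add_mem' := fun ha hb => (ha.and hb).mono fun _ h => add_mem h.1 h.2
    zero_mem' := .of_forall fun _ => zero_mem _
    neg_mem' := fun ha => ha.mono fun _ h => neg_mem h }

theorem mem_rng {S : ℕ → Subring ℂ} : l.f x ∈ l.rng S ↔ ∀ᶠ n in UF, x n ∈ S n :=
  ⟨fun ⟨_, h, e⟩ => (Eventually.and h (l.eq_iff.1 e)).mono fun _ h => h.2 ▸ h.1, fun h => ⟨x, h, rfl⟩⟩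

/-- The limit of a sequence of subfields. -/
def fld (F : ℕ → Subfield ℂ) : Subfield ℂ :=
  { l.rng fun n => (F n).toSubring with
    inv_mem' := fun a ha => by
      obtain ⟨x, rfl⟩ := l.surj a
      exact l.inv x ▸ l.mem_rng.2 ((l.mem_rng.1 ha).mono fun _ h => (F _).inv_mem h) }

theorem mem_fld : l.f x ∈ l.fld F ↔ ∀ᶠ n in UF, x n ∈ F n := l.mem_rng

theorem mem_fld' (h : ∀ n, x n ∈ F n) : l.f x ∈ l.fld F := l.mem_fld.2 (.of_forall h)

theorem const_mem (hb : b ∈ B) (h : ∀ n, b ∈ F n) : b ∈ l.fld F := l.fix b hb ▸ l.mem_fld' h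

theorem fld_mono {F' : ℕ → Subfield ℂ} (h : ∀ n, F n ≤ F' n) : l.fld F ≤ l.fld F' := fun a ha => by
  obtain ⟨x, rfl⟩ := l.surj a
  exact l.mem_fld.2 ((l.mem_fld.1 ha).mono fun n => @h n _)

/-- The limit of a sequence of valuation rings. -/
def val (P : ℕ → Plc ℂ ℂ) : ValuationSubring ℂ :=
  { l.rng fun n => (P n).O.toSubring with
    mem_or_inv_mem' := fun a => by
      obtain ⟨x, rfl⟩ := l.surj a
      rw [l.inv]
      exact (Ultrafilter.eventually_or.1 (.of_forall fun n => (P n).O.mem_or_inv_mem (x n))).imp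
        l.mem_rng.2 l.mem_rng.2 }

theorem mem_val : l.f x ∈ l.val P ↔ ∀ᶠ n in UF, (P n).v (x n) ≤ 1 :=
  l.mem_rng.trans (eventually_congr (.of_forall fun n => (P n).mem_iff))

theorem v_le (hQ : l.val P ≤ Q.O) (h : ∀ᶠ n in UF, (P n).v (x n) ≤ (P n).v (y n)) :
    Q.v (l.f x) ≤ Q.v (l.f y) := by
  by_cases h0 : l.f y = 0
  · rw [(l.ker x).2 ((h.and ((l.ker y).1 h0)).mono fun n hn => by simpa [hn.2] using hn.1),
      map_zero]
    exact zero_le
  · rw [← Q.v_div_le_one h0, ← Q.mem_iff, div_eq_mul_inv, l.inv, ← map_mul]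
    exact hQ (l.mem_val.2 ((h.and (l.ne_iff.1 h0)).mono fun n hn =>
      ((P n).v_div_le_one hn.2).2 hn.1))

theorem v_le_one (hQ : l.val P ≤ Q.O) (h : ∀ᶠ n in UF, (P n).v (x n) ≤ 1) : Q.v (l.f x) ≤ 1 :=
  Q.mem_iff.1 (hQ (l.mem_val.2 h))

theorem one_le_v (hQ : l.val P ≤ Q.O) (h : ∀ᶠ n in UF, 1 ≤ (P n).v (x n)) : 1 ≤ Q.v (l.f x) := by
  simpa using l.v_le (x := 1) hQ (by simpa using h)

theorem der_aux (D : ℕ → Der ℂ) (x : ℕ → ℂ) :
    (l.f fun n => D n ((l.surj (l.f x)).choose n)) = l.f fun n => D n (x n) :=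
  l.eq_iff.2 ((l.eq_iff.1 (l.surj (l.f x)).choose_spec).mono fun _ h => congrArg _ h)

/-- The limit of a sequence of derivations. -/
noncomputable def der (D : ℕ → Der ℂ) : Der ℂ :=
  Derivation.mk' (AddMonoidHom.toIntLinearMap (.mk' (fun a => l.f fun n => D n ((l.surj a).choose n))
    fun a b => by
      obtain ⟨x, rfl⟩ := l.surj a
      obtain ⟨y, rfl⟩ := l.surj b
      rw [← map_add, der_aux, der_aux, der_aux, ← map_add]
      exact congrArg l.f (funext fun n => map_add _ _ _))) fun a b => by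
    obtain ⟨x, rfl⟩ := l.surj a
    obtain ⟨y, rfl⟩ := l.surj b
    simp only [← map_mul, AddMonoidHom.coe_toIntLinearMap, AddMonoidHom.mk'_apply, der_aux,
      smul_eq_mul, ← map_add]
    exact congrArg l.f (funext fun n => Derivation.leibniz _ _ _)

theorem der_f (D : ℕ → Der ℂ) (x : ℕ → ℂ) : l.der D (l.f x) = l.f fun n => D n (x n) :=
  l.der_aux D x

theorem der_const (D : ℕ → Der ℂ) (hb : b ∈ B) : l.der D b = l.f fun n => D n b := by
  rw [← l.der_f, l.fix b hb]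

theorem der_kil (h : ∀ n, D n ∈ kil (F n : Set ℂ)) : l.der D ∈ kil (l.fld F : Set ℂ) := fun a ha => by
  obtain ⟨x, rfl⟩ := l.surj a
  rw [der_f, l.ker]
  exact (l.mem_fld.1 ha).mono fun n => h n _

theorem der_kil' {S : Set ℂ} (hS : S ⊆ B) (h : ∀ n, D n ∈ kil S) : l.der D ∈ kil S := fun a ha => by
  rw [l.der_const D (hS ha), l.ker]
  exact .of_forall fun n => h n a ha

theorem der_mem (h : ∀ n, ∀ y ∈ F n, D n y ∈ F n) : ∀ y ∈ l.fld F, l.der D y ∈ l.fld F := fun a ha => by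
  obtain ⟨x, rfl⟩ := l.surj a
  rw [der_f, mem_fld]
  exact (l.mem_fld.1 ha).mono fun n => h n _

theorem der_ctr (hQ : l.val P ≤ Q.O) (h : ∀ n, (P n).Ctr (D n) (F n)) :
    Q.Ctr (l.der D) (l.fld F) := fun a ha => by
  obtain ⟨x, rfl⟩ := l.surj a
  rw [der_f]
  exact l.v_le hQ ((l.mem_fld.1 ha).mono fun n => h n _)

theorem acl_le (h : ∀ n, Cac (F n)) {S : Set ℂ} (hS : S ⊆ l.fld F) : acl S ≤ l.fld F := by
  intro a ha
  obtain ⟨x, rfl⟩ := l.surj a
  have : ∀ n, ∃ D ∈ kil (F n : Set ℂ), D (x n) = 0 → x n ∈ F n := fun n => by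
    by_cases e : x n ∈ F n
    · exact ⟨0, zero_mem _, fun _ => e⟩
    · rw [← (h n).acl_eq, mem_acl_iff_der] at e
      push Not at e
      exact e.imp fun D h => ⟨h.1, fun e => absurd e h.2⟩
  choose D h1 h2 using this
  have h3 := acl_le_cst (kil_anti hS (l.der_kil h1)) ha
  rw [mem_cst, der_f, l.ker] at h3
  exact l.mem_fld.2 (h3.mono h2)

theorem free {T : Set ℂ} (hk : k ≤ B) (hT : T ⊆ B) (h : ∀ n, Free (k : Set ℂ) (F n) T) :
    Free (k : Set ℂ) (l.fld F) T := by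
  refine Free.symm fun s hs hf => le_antisymm
    (trd_anti hf (subset_union_left.trans (subset_acl _))) ?_
  obtain ⟨v, h1, h2, -⟩ := exists_trd_basis (k : Set ℂ) hf
  choose D h3 h4 _ using fun n => exists_partial ((h n).symm.ind
    (fun i => subset_acl _ (Or.inr (hs (h1 i)))) h2)
  have h5 : Ind (k ∪ l.fld F : Set ℂ) v := ind_of_dual (D := fun i => l.der fun n => D n i)
    (fun i => (kil_union _ _).ge ⟨l.der_kil' hk fun n => kil_anti subset_union_left (h3 n i),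
      l.der_kil fun n => kil_anti subset_union_right (h3 n i)⟩) (by
        refine (congrArg det (a₂ := 1) (Matrix.ext fun j i => ?_)).trans_ne (by simp)
        simp only [of_apply, l.der_const _ (hT (hs (h1 j))), h4, one_apply]
        split_ifs
        exacts [map_one l.f, map_zero l.f])
  exact ((Fintype.card_fin _).symm.trans (trd_range_eq_iff.2 h5).symm).trans_le
    (trd_mono hf (range_subset_iff.2 h1))

/-- The limit of a sequence of vectors. -/
def vc (u : ℕ → ι → ℂ) : ι → ℂ := fun i => l.f fun n => u n i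

/-- The limit of a sequence of matrices. -/
def mat (G : ℕ → Matrix ι κ ℂ) : Matrix ι κ ℂ := of fun i j => l.f fun n => G n i j

theorem vc_const {z : ι → ℂ} (h : ∀ i, z i ∈ B) : (l.vc fun _ => z) = z :=
  funext fun i => l.fix _ (h i)

theorem vc_add (u v : ℕ → ι → ℂ) : l.vc u + l.vc v = l.vc fun n => u n + v n :=
  funext fun _ => (map_add l.f _ _).symm

theorem vc_sub (u v : ℕ → ι → ℂ) : l.vc u - l.vc v = l.vc fun n => u n - v n :=
  funext fun _ => (map_sub l.f _ _).symm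

theorem dv_der {z : ι → ℂ} (h : ∀ i, z i ∈ B) (D : ℕ → Der ℂ) :
    dv z (l.der D) = l.vc fun n => dv z (D n) := funext fun i => l.der_const D (h i)

theorem eval_vc {p : MvPolynomial ι ℂ} (hp : Cf B p) (u : ℕ → ι → ℂ) :
    MvPolynomial.eval (l.vc u) p = l.f fun n => MvPolynomial.eval (u n) p :=
  hp.induction (P := fun p => MvPolynomial.eval (l.vc u) p = l.f fun n => MvPolynomial.eval (u n) p)
    (fun a ha => by simpa using (l.fix a ha).symm)
    (fun _ _ h h' => by simp only [map_add, h, h']; exact (map_add l.f _ _).symm) fun _ i h => by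
      simp only [map_mul, h, MvPolynomial.eval_X]
      exact (map_mul l.f _ _).symm

variable [Fintype ι]

theorem dot (u v : ℕ → ι → ℂ) : l.vc u ⬝ᵥ l.vc v = l.f fun n => u n ⬝ᵥ v n := by
  simp only [dotProduct, vc, ← map_mul, ← map_sum]
  exact congrArg l.f (funext fun n => Finset.sum_apply _ _ _)

theorem mat_mulVec (G : ℕ → Matrix κ ι ℂ) (u : ℕ → ι → ℂ) :
    l.mat G *ᵥ l.vc u = l.vc fun n => G n *ᵥ u n := funext fun i => l.dot (fun n => G n i) u

theorem mat_mul (G : ℕ → Matrix κ ι ℂ) (G' : ℕ → Matrix ι κ ℂ) :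
    l.mat G * l.mat G' = l.mat fun n => G n * G' n :=
  Matrix.ext fun i j => l.dot (fun n => G n i) fun n => (G' n).col j

theorem vc_mem_ann {R : Submodule ℂ (ι → ℂ)} (hR : Ov B R) {u : ℕ → ι → ℂ} (h : ∀ n, u n ∈ ann R) :
    l.vc u ∈ ann R := by
  rw [← hR.span_eq, mem_ann_span]
  intro x hx
  rw [← l.vc_const hx.2, dot, l.ker]
  exact .of_forall fun n => h n x hx.1

variable [DecidableEq ι]

omit [Fintype ι] in
theorem mat_diagonal (p : ℕ → ι → ℂ) : diagonal (l.vc p) = l.mat fun n => diagonal (p n) := by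
  ext i j
  simp only [mat, of_apply, diagonal_apply]
  split_ifs
  exacts [rfl, (map_zero l.f).symm]

theorem mat_mul_inv {G : ℕ → Matrix ι ι ℂ} (h : ∀ n, (G n).det ≠ 0) :
    l.mat G * l.mat (fun n => (G n)⁻¹) = 1 := by
  simp only [mat_mul, mul_nonsing_inv _ (h _).isUnit]
  exact (l.mat_diagonal fun _ _ => 1).symm.trans
    (congrArg diagonal (l.vc_const fun _ => one_mem B))

theorem mat_inv {G : ℕ → Matrix ι ι ℂ} (h : ∀ n, (G n).det ≠ 0) :
    (l.mat G)⁻¹ = l.mat fun n => (G n)⁻¹ := inv_eq_right_inv (l.mat_mul_inv h)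

omit [Fintype ι] [DecidableEq ι] in
theorem pv_der {g N : ℕ} {A : AbVar g N} (hA : A.Over k) (hk : k ≤ B) {a : Fin g → ℂ}
    (ha : ∀ j, A.crd a j ∈ B) {θ : κ → Fin g → ℂ} (hθ : ∀ j i, θ j i ∈ B)
    (hD : ∀ n, D n ∈ kil (k : Set ℂ)) : A.pv θ a (l.der D) = l.vc fun n => A.pv θ a (D n) := by
  obtain ⟨ρ, H, h1, h2, h3, h4⟩ := hA.dl_chart a (A.piv_inv_ne a)
  have key : ∀ D ∈ kil (k : Set ℂ), ∀ i, A.dl a D i = (fun j => (MvPolynomial.eval (A.crd a) ρ)⁻¹ *
      MvPolynomial.eval (A.crd a) (H i j)) ⬝ᵥ dv (A.crd a) D := fun D hD i => by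
    obtain ⟨t, ht⟩ := hA.dl_spec hD a
    simp only [ht, dotProduct, mul_assoc, ← Finset.mul_sum]
    exact (eq_inv_mul_iff_mul_eq₀ h3).2 (h4 _ _ _ _ _)
  have : A.dl a (l.der D) = l.vc fun n => A.dl a (D n) := funext fun i => by
    rw [key _ (l.der_kil' hk hD), l.dv_der ha, ← l.vc_const fun j =>
      mul_mem (inv_mem (h1.eval_mem' hk ha)) ((h2 i j).eval_mem' hk ha), dot]
    exact congrArg l.f (funext fun n => (key _ (hD n) i).symm)
  funext j
  rw [pv_apply, this, ← l.vc_const (hθ j), dot]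
  rfl

end Lm

/-- A countable algebraically closed field that is stable under countably many derivations. -/
theorem exists_stable {α : Type} [Countable α] (D : α → Der ℂ) {S : Set ℂ} (hS : S.Countable)
    {L : Subfield ℂ} (h1 : S ⊆ L) (h2 : ∀ a, ∀ y ∈ L, D a y ∈ L) : ∃ U : Set ℂ, U.Countable ∧
      S ⊆ U ∧ U ⊆ L ∧ ∀ a, ∀ y ∈ acl U, D a y ∈ acl U := by
  refine ⟨image2 (fun (m : List α) y => m.foldr (fun a => D a) y) univ S, countable_univ.image2 hS _,
    fun y hy => ⟨[], trivial, y, hy, rfl⟩, ?_, fun a y => der_mem_acl (subset_acl _) ?_⟩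
  · rintro _ ⟨m, -, y, hy, rfl⟩
    induction m with
    | nil => exact h1 hy
    | cons a m ih => exact h2 a _ ih
  · rintro _ ⟨m, -, y, hy, rfl⟩
    exact subset_acl _ ⟨a :: m, trivial, y, hy, rfl⟩

end Pool.Agent.P.MP_f17f76_ag.Hgc
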