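import Pool.Agent.P.MP_f17f76_ag.E.Over

/-!
The chart formula for the logarithmic derivative, algebraicity of coordinates, transfer of points
along field embeddings, and transcendence degrees as ranks.
-/

namespace Pool.Agent.P.MP_f17f76_ag.AbVar

open MvPolynomial Filter Topology Module E Set

variable {g N : ℕ} {A : AbVar g N} {k F : Subfield ℂ} {U U' : Submodule ℂ (Fin g → ℂ)}
  {w w' w₁ w₂ w₁' w₂' : Fin g → ℂ} {D D' : Der ℂ} {S : Set ℂ}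

/-- Invariant vector fields in a chart. -/
theorem Over.field_chart (h : A.Over k) (w₀ : Fin g → ℂ) {s₀ : ℂ} (hs₀ : s₀ ≠ 0) :
    ∃ (ρ : MvPolynomial (Fin N) ℂ) (B : Fin g → Fin N → MvPolynomial (Fin N) ℂ), Cf k ρ ∧
      (∀ i j, Cf k (B i j)) ∧ eval (s₀ • A.θ w₀) ρ ≠ 0 ∧ ∀ w (s : ℂ) v, eval (s • A.θ w) ρ ≠ 0 →
        ∃ c : ℂ, (fun j => ∑ i, eval (s • A.θ w) (B i j) * v i) =
          eval (s • A.θ w) ρ • A.tm w s (v, c) := by
  obtain ⟨Q, h1, h2, r₀, hr₀, h3⟩ := h.add' w₀ 0 hs₀ one_ne_zero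
  obtain ⟨j, hj⟩ := Function.ne_iff.1 (A.ne_zero w₀)
  let G : Fin N ⊕ Fin N → MvPolynomial (Fin N) ℂ := Sum.elim X fun l => C (A.θ 0 l)
  have hG : ∀ l, Cf k (G l) := by
    rintro (l | l)
    · exact cf_X l
    · exact cf_C (h.th0 l)
  have hGe : ∀ y : Fin N → ℂ, (fun l => eval y (G l)) = Sum.elim y ((1 : ℂ) • A.θ 0) := fun y =>
    funext fun l => by rcases l with l | l <;> simp [G]
  refine ⟨X j * aeval G (Q j), fun i l => X j * X j * aeval G (∑ m, pderiv (Sum.inr m) (Q l) *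
    C (fderiv ℂ A.θ 0 (Pi.single i 1) m)), (cf_X j).mul ((h1 j).aeval hG), fun i l =>
    ((cf_X j).mul (cf_X j)).mul ((cf_sum fun m _ => ((h1 l).pderiv _).mul
      (cf_C (h.dth0 i m))).aeval hG), ?_, fun w s v h4 => ?_⟩
  · rw [map_mul, eval_X, eval_aeval', hGe, congrFun h3 j, add_zero]
    exact mul_ne_zero (mul_ne_zero hs₀ hj) (mul_ne_zero hr₀ hj)
  obtain ⟨r, h5⟩ := h2 w 0 s 1
  rw [add_zero] at h5
  simp only [map_mul, eval_X, eval_aeval', hGe, congrFun h5 j, Pi.smul_apply, smul_eq_mul] at h4 ⊢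
  have hr : r ≠ 0 := left_ne_zero_of_mul (right_ne_zero_of_mul h4)
  have h6 : HasDerivAt (fun τ : ℂ => w + (0 + τ • v)) v 0 := by
    simpa using ((hasDerivAt_id (0 : ℂ)).smul_const v).const_add w
  obtain ⟨t, h7⟩ := A.deriv_cone h6 (hasDerivAt_pi.2 fun l => hasDerivAt_eval (Q l)
    (c := fun τ => Sum.elim (s • A.θ w) ((1 + τ * (0 * 1)) • A.θ (0 + τ • v)))
    (ξ := Sum.elim 0 (A.tm 0 1 (v, 0))) (by
      rintro (j | j)
      · exact hasDerivAt_const _ _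
      · exact hasDerivAt_pi.1 (A.hasDerivAt_line _ _ _ _) j)) (fun τ => h2 _ _ _ _) hr
    (by simpa using h5)
  simp only [zero_mul, add_zero, zero_smul, tg_eq_sum, Fintype.sum_sum_type, Sum.elim_inl,
    Pi.zero_apply, mul_zero, Finset.sum_const_zero, zero_add, Sum.elim_inr] at h7
  refine ⟨t, funext fun l => ?_⟩
  have h8 := congrFun h7 l
  have h9 : A.tm w r (v, t) l * s = r * A.tm w s (v, t) l := by
    simp only [tm_apply, Pi.add_apply, Pi.smul_apply, smul_eq_mul]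
    ring
  simp only [Pi.smul_apply, smul_eq_mul, map_sum, map_mul, eval_C, mul_assoc, ← Finset.mul_sum]
  rw [show ∑ i, (∑ m, eval (Sum.elim (s • A.θ w) ((1 : ℂ) • A.θ 0)) (pderiv (Sum.inr m) (Q l)) *
      fderiv ℂ A.θ 0 (Pi.single i 1) m) * v i = A.tm w r (v, t) l by
    rw [← h8]
    simp only [Finset.sum_mul]
    rw [Finset.sum_comm]
    refine Finset.sum_congr rfl fun m _ => ?_
    simp only [tm_apply, one_smul, zero_smul, add_zero, inv_expand _ v m, Finset.mul_sum]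
    exact Finset.sum_congr rfl fun i _ => by ring]
  linear_combination s * A.θ w j * A.θ w j * h9

/-- Invariant differential forms in a chart. -/
theorem Over.dl_chart (h : A.Over k) (w₀ : Fin g → ℂ) {s₀ : ℂ} (hs₀ : s₀ ≠ 0) :
    ∃ (ρ : MvPolynomial (Fin N) ℂ) (H : Fin g → Fin N → MvPolynomial (Fin N) ℂ), Cf k ρ ∧
      (∀ i j, Cf k (H i j)) ∧ eval (s₀ • A.θ w₀) ρ ≠ 0 ∧ ∀ w (s : ℂ) v t i,
        eval (s • A.θ w) ρ * v i = ∑ j, eval (s • A.θ w) (H i j) * A.tm w s (v, t) j := by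
  classical
  obtain ⟨ρ, B, h1, h2, h3, h4⟩ := h.field_chart w₀ hs₀
  let M : Matrix (Fin N) (Option (Fin g)) (MvPolynomial (Fin N) ℂ) :=
    Matrix.of fun j o => o.elim (X j) fun i => B i j
  have hM : ∀ j o, Cf k (M j o) := by
    rintro j (_ | i)
    · exact cf_X j
    · exact h2 i j
  have key : ∀ w (s : ℂ) v, eval (s • A.θ w) ρ ≠ 0 → ∃ c : ℂ, ∀ t,
      (M.map (eval (s • A.θ w))).mulVec (fun o => o.elim (eval (s • A.θ w) ρ * (t - c)) v) =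
        eval (s • A.θ w) ρ • A.tm w s (v, t) := by
    intro w s v h5
    obtain ⟨c, hc⟩ := h4 w s v h5
    refine ⟨c, fun t => funext fun j => ?_⟩
    have h6 := congrFun hc j
    simp only [Matrix.mulVec, dotProduct, Fintype.sum_option, M, Matrix.map_apply, Matrix.of_apply,
      Option.elim, eval_X, h6, tm_apply, Pi.smul_apply, Pi.add_apply, smul_eq_mul]
    ring
  obtain ⟨e, he⟩ := exists_submatrix_det (M.map (eval (s₀ • A.θ w₀))) (by
    refine (injective_iff_map_eq_zero (M.map (eval (s₀ • A.θ w₀))).mulVecLin).2 fun x hx => ?_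
    obtain ⟨c, hc⟩ := key w₀ s₀ (fun i => x (some i)) h3
    have h5 := hc (x none / eval (s₀ • A.θ w₀) ρ + c)
    rw [add_sub_cancel_right, mul_div_cancel₀ _ h3, show (fun o : Option (Fin g) =>
      o.elim (x none) fun i => x (some i)) = x from funext fun o => by cases o <;> rfl] at h5
    have h6 := (injective_iff_map_eq_zero _).1 (A.tm_injective w₀ hs₀) _
      ((smul_eq_zero_iff_right h3).1 (h5.symm.trans hx))
    have h7 : ∀ i, x (some i) = 0 := congrFun (congrArg Prod.fst h6)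
    obtain ⟨j, hj⟩ := Function.ne_iff.1 (A.ne_zero w₀)
    have h8 := congrFun hx j
    simp only [Matrix.mulVecLin_apply, Matrix.mulVec, dotProduct, Fintype.sum_option, h7, mul_zero,
      Finset.sum_const_zero, add_zero, M, Matrix.map_apply, Matrix.of_apply, Option.elim, eval_X,
      Pi.zero_apply, Pi.smul_apply, smul_eq_mul] at h8
    funext o
    cases o with
    | none => exact (mul_eq_zero.1 h8).resolve_left (mul_ne_zero hs₀ hj)
    | some i => exact h7 i)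
  have hd : ∀ y : Fin N → ℂ, eval y (M.submatrix e id).det =
      ((M.map (eval y)).submatrix e id).det := fun y => RingHom.map_det _ _
  refine ⟨ρ * (M.submatrix e id).det, fun i j => ∑ a, if e a = j then
      ρ * ρ * (M.submatrix e id).adjugate (some i) a else 0, h1.mul (cf_det fun a b => hM _ _),
    fun i j => cf_sum fun a _ => ?_, ?_, fun w s v t i => ?_⟩
  · split_ifs
    · rw [Matrix.adjugate_apply]
      refine (h1.mul h1).mul (cf_det fun b c => ?_)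
      rw [Matrix.updateRow_apply]
      split_ifs
      · rw [Pi.single_apply]
        split_ifs
        exacts [cf_one, cf_zero]
      · exact hM _ _
    · exact cf_zero
  · rw [map_mul, hd]
    exact mul_ne_zero h3 he
  have h5 : ∑ j, eval (s • A.θ w) (∑ a, if e a = j then
      ρ * ρ * (M.submatrix e id).adjugate (some i) a else 0) * A.tm w s (v, t) j =
      eval (s • A.θ w) ρ * ∑ a, ((M.map (eval (s • A.θ w))).submatrix e id).adjugate (some i) a *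
        (eval (s • A.θ w) ρ • A.tm w s (v, t)) (e a) := by
    simp only [map_sum, Finset.sum_mul, Finset.mul_sum]
    rw [Finset.sum_comm]
    refine Finset.sum_congr rfl fun a _ => ?_
    have h6 := congrFun₂ ((eval (s • A.θ w)).map_adjugate (M.submatrix e id)) (some i) a
    rw [Finset.sum_eq_single (e a) (fun b _ hb => by simp [hb.symm]) (by simp), if_pos rfl, map_mul,
      map_mul, show eval (s • A.θ w) ((M.submatrix e id).adjugate (some i) a) = _ from h6]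
    simp only [Pi.smul_apply, smul_eq_mul, RingHom.mapMatrix_apply, Matrix.submatrix_map]
    ring
  rw [h5, map_mul, mul_assoc]
  by_cases h6 : eval (s • A.θ w) ρ = 0
  · rw [h6, zero_mul, zero_mul]
  obtain ⟨c, hc⟩ := key w s v h6
  rw [← hc t, hd]
  congr 1
  have h7 := congrFun (Matrix.mulVec_mulVec (fun o : Option (Fin g) =>
    o.elim (eval (s • A.θ w) ρ * (t - c)) v) ((M.map (eval (s • A.θ w))).submatrix e id).adjugate
    ((M.map (eval (s • A.θ w))).submatrix e id)) (some i)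
  rw [Matrix.adjugate_mul, Matrix.smul_mulVec, Matrix.one_mulVec] at h7
  exact h7.symm

/-- Transfer of the logarithmic derivative along a relation compatible with field operations. -/
theorem Over.dl_rel (h : A.Over k) (hD : D ∈ kil (k : Set ℂ)) (hD' : D' ∈ kil (k : Set ℂ))
    (r : ℂ → ℂ → Prop) (h0 : ∀ a, r 0 a → a = 0) (h1 : ∀ a ∈ k, r a a)
    (h2 : ∀ a b a' b', r a a' → r b b' → r (a + b) (a' + b'))
    (h3 : ∀ a b a' b', r a a' → r b b' → r (a * b) (a' * b'))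
    (h4 : ∀ a a', r a a' → a' ≠ 0 → r a⁻¹ a'⁻¹) {s s' : ℂ} (hs : s ≠ 0) (hs' : s' ≠ 0)
    (hy : ∀ j, r ((s • A.θ w) j) ((s' • A.θ w') j))
    (hd : ∀ j, r (D ((s • A.θ w) j)) (D' ((s' • A.θ w') j))) (i : Fin g) :
    r (A.dl w D i) (A.dl w' D' i) := by
  obtain ⟨ρ, H, h5, h6, h7, h8⟩ := h.dl_chart w' hs'
  obtain ⟨t, ht⟩ := h.dl_spec' hD w hs
  obtain ⟨t', ht'⟩ := h.dl_spec' hD' w' hs'
  have h9 := h5.rel r h1 h2 h3 hy
  have h10 : eval (s • A.θ w) ρ ≠ 0 := fun e => h7 (h0 _ (e ▸ h9))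
  rw [← inv_mul_cancel_left₀ h10 (A.dl w D i), ← inv_mul_cancel_left₀ h7 (A.dl w' D' i), h8 _ _ _ t,
    h8 _ _ _ t', ← ht, ← ht']
  refine h3 _ _ _ _ (h4 _ _ h9 h7) ?_
  induction (Finset.univ : Finset (Fin N)) using Finset.induction_on with
  | empty => exact h1 0 (zero_mem _)
  | insert j T hj ih =>
    rw [Finset.sum_insert hj, Finset.sum_insert hj]
    exact h2 _ _ _ _ (h3 _ _ _ _ ((h6 i j).rel r h1 h2 h3 hy) (hd j)) ih

theorem Over.dl_mem_field (h : A.Over k) (hD : D ∈ kil (k : Set ℂ)) (hk : k ≤ F)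
    (hy : ∀ j, A.crd w j ∈ F) (hd : ∀ j, D (A.crd w j) ∈ F) (i : Fin g) : A.dl w D i ∈ F :=
  (h.dl_rel hD hD (fun a b => a ∈ F ∧ a = b) (fun _ h => h.2.symm) (fun _ h => ⟨hk h, rfl⟩)
    (fun _ _ _ _ h h' => ⟨add_mem h.1 h'.1, by rw [h.2, h'.2]⟩)
    (fun _ _ _ _ h h' => ⟨mul_mem h.1 h'.1, by rw [h.2, h'.2]⟩)
    (fun _ _ h _ => ⟨inv_mem h.1, by rw [h.2]⟩) (A.piv_inv_ne w) (A.piv_inv_ne w)
    (fun j => ⟨hy j, rfl⟩) (fun j => ⟨hd j, rfl⟩) i).1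

theorem Over.dl_map (h : A.Over k) (hD : D ∈ kil (k : Set ℂ)) (hD' : D' ∈ kil (k : Set ℂ))
    (φ : ℂ →+* ℂ) (hφ : ∀ a ∈ k, φ a = a) (hw : A.crd w' = φ ∘ A.crd w)
    (hd : ∀ j, D' (φ (A.crd w j)) = φ (D (A.crd w j))) : A.dl w' D' = φ ∘ A.dl w D :=
  funext fun i => (h.dl_rel hD hD' (fun a b => φ a = b) (fun _ h => by rw [← h, map_zero]) hφ
    (fun _ _ _ _ h h' => by rw [map_add, h, h']) (fun _ _ _ _ h h' => by rw [map_mul, h, h'])
    (fun _ _ h _ => by rw [map_inv₀, h]) (A.piv_inv_ne w) (A.piv_inv_ne w')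
    (fun j => (congrFun hw j).symm) (fun j => by
      rw [← crd_eq, ← crd_eq, hw]
      exact (hd j).symm) i).symm

/-- The logarithmic derivative only depends on the values of the derivation on the point. -/
theorem dl_congr_der (h : ∀ j, D (A.crd w j) = D' (A.crd w j)) : A.dl w D = A.dl w D' := by
  rw [← sub_eq_zero, ← map_sub]
  exact A.dl_eq_zero (forall_mem_range.2 fun j => sub_eq_zero.2 (h j))

/-- Transfer of the addition law along a relation. -/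
theorem Over.add_rel (h : A.Over k) (r : ℂ → ℂ → Prop) (h0 : ∀ a, r 0 a → a = 0)
    (h1 : ∀ a ∈ k, r a a) (h2 : ∀ a b a' b', r a a' → r b b' → r (a + b) (a' + b'))
    (h3 : ∀ a b a' b', r a a' → r b b' → r (a * b) (a' * b')) {s₁ s₂ s₁' s₂' : ℂ} (hs₁ : s₁' ≠ 0)
    (hs₂ : s₂' ≠ 0) (hy₁ : ∀ j, r ((s₁ • A.θ w₁) j) ((s₁' • A.θ w₁') j))
    (hy₂ : ∀ j, r ((s₂ • A.θ w₂) j) ((s₂' • A.θ w₂') j)) : ∃ s s' : ℂ, s ≠ 0 ∧ s' ≠ 0 ∧
      ∀ j, r ((s • A.θ (w₁ + w₂)) j) ((s' • A.θ (w₁' + w₂')) j) := by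
  obtain ⟨Q, h4, h5, s', hs', h6⟩ := h.add' w₁' w₂' hs₁ hs₂
  obtain ⟨s, h7⟩ := h5 w₁ w₂ s₁ s₂
  have h8 : ∀ j, r ((s • A.θ (w₁ + w₂)) j) ((s' • A.θ (w₁' + w₂')) j) := fun j => by
    rw [← h6, ← h7]
    exact (h4 j).rel r h1 h2 h3 (Sum.forall.2 ⟨hy₁, hy₂⟩)
  refine ⟨s, s', ?_, hs', h8⟩
  rintro rfl
  exact smul_ne_zero hs' (A.ne_zero _) (funext fun j => h0 _ (by simpa using h8 j))

/-- Transfer of points along a relation. -/
theorem Over.exists_rel (h : A.Over k) (hU : A.IsLie U) (hw : w ∈ U) (r : ℂ → ℂ → Prop)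
    (h0 : ∀ a, r 0 a → a = 0) (h1 : ∀ a ∈ k, r a a)
    (h2 : ∀ a b a' b', r a a' → r b b' → r (a + b) (a' + b'))
    (h3 : ∀ a b a' b', r a a' → r b b' → r (a * b) (a' * b')) {s : ℂ} {y : Fin N → ℂ}
    (hy : ∀ j, r ((s • A.θ w) j) (y j)) : ∃ u ∈ U, ∃ t : ℂ, y = t • A.θ u :=
  (h.zero_iff hU).1 fun p hp hc => h0 _ (A.mem_lieI.1 hp w hw s ▸ hc.rel r h1 h2 h3 hy)

theorem Over.crd_add_mem (h : A.Over k) (hk : k ≤ F) (h₁ : ∀ j, A.crd w₁ j ∈ F)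
    (h₂ : ∀ j, A.crd w₂ j ∈ F) (j : Fin N) : A.crd (w₁ + w₂) j ∈ F := by
  obtain ⟨s, s', hs, -, h3⟩ := h.add_rel (fun a b => a ∈ F ∧ a = b) (fun _ h => h.2.symm)
    (fun _ h => ⟨hk h, rfl⟩) (fun _ _ _ _ h h' => ⟨add_mem h.1 h'.1, by rw [h.2, h'.2]⟩)
    (fun _ _ _ _ h h' => ⟨mul_mem h.1 h'.1, by rw [h.2, h'.2]⟩) (A.piv_inv_ne w₁)
    (A.piv_inv_ne w₂) (fun j => ⟨h₁ j, rfl⟩) fun j => ⟨h₂ j, rfl⟩
  rw [← A.nrm_theta hs]
  exact nrm_mem (fun j => (h3 j).1) j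

theorem crd_of_eq {y : Fin N → ℂ} {t : ℂ} (hy : nrm y = y) (h0 : y ≠ 0) (h : y = t • A.θ w) :
    A.crd w = y := by
  rw [← hy, h, A.nrm_theta (left_ne_zero_of_smul (h ▸ h0))]

theorem Over.exists_map (h : A.Over k) (hU : A.IsLie U) (hw : w ∈ U) (φ : ℂ →+* ℂ)
    (hφ : ∀ a ∈ k, φ a = a) : ∃ u ∈ U, A.crd u = φ ∘ A.crd w := by
  obtain ⟨u, hu, t, ht⟩ := h.exists_rel hU hw (fun a b => φ a = b)
    (fun _ h => by rw [← h, map_zero]) hφ (fun _ _ _ _ h h' => by rw [map_add, h, h'])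
    (fun _ _ _ _ h h' => by rw [map_mul, h, h']) (y := φ ∘ A.crd w) fun j => rfl
  exact ⟨u, hu, crd_of_eq (by rw [nrm_map, nrm_crd]) (fun e => A.crd_ne_zero w (funext fun j =>
    (map_eq_zero φ).1 (congrFun e j))) ht⟩

theorem Over.add_map (h : A.Over k) (φ : ℂ →+* ℂ) (hφ : ∀ a ∈ k, φ a = a)
    (h₁ : A.crd w₁' = φ ∘ A.crd w₁) (h₂ : A.crd w₂' = φ ∘ A.crd w₂) :
    A.crd (w₁' + w₂') = φ ∘ A.crd (w₁ + w₂) := by
  obtain ⟨s, s', hs, hs', h3⟩ := h.add_rel (fun a b => φ a = b) (fun _ h => by rw [← h, map_zero])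
    hφ (fun _ _ _ _ h h' => by rw [map_add, h, h']) (fun _ _ _ _ h h' => by rw [map_mul, h, h'])
    (A.piv_inv_ne w₁') (A.piv_inv_ne w₂') (fun j => (congrFun h₁ j).symm)
    fun j => (congrFun h₂ j).symm
  rw [← A.nrm_theta hs', ← A.nrm_theta hs, ← nrm_map]
  exact congrArg nrm (funext h3).symm

theorem Over.pr_map (h : A.Over k) (hU : A.IsLie U) (φ : ℂ →+* ℂ) (hφ : ∀ a ∈ k, φ a = a)
    (hw : A.crd w' = φ ∘ A.crd w) : ∃ m ∈ A.Λ, A.crd (A.pr U (w' + m)) = φ ∘ A.crd (A.pr U w) ∧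
      A.crd (w' + m - A.pr U (w' + m)) = φ ∘ A.crd (w - A.pr U w) := by
  obtain ⟨b, hb, h1⟩ := h.exists_map hU (A.pr_mem U w) φ hφ
  obtain ⟨c, hc, h2⟩ := h.exists_map hU.perp (A.sub_pr_mem U w) φ hφ
  have h3 := h.add_map φ hφ h1 h2
  rw [add_sub_cancel, ← hw] at h3
  refine ⟨_, A.crd_eq_iff.1 h3.symm, ?_⟩
  rw [add_sub_cancel, A.pr_eq hb (by simpa using hc), add_sub_cancel_left]
  exact ⟨h1, h2⟩

/-- Transfer of points along an embedding of a subfield. -/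
theorem Over.exists_emb (h : A.Over k) (hU : A.IsLie U) (hw : w ∈ U) (hk : k ≤ F) (φ : F →+* ℂ)
    (hφ : ∀ a : F, a.1 ∈ k → φ a = a) (hF : ∀ j, A.crd w j ∈ F) :
    ∃ u ∈ U, ∀ j, A.crd u j = φ ⟨_, hF j⟩ := by
  obtain ⟨u, hu, t, ht⟩ := h.exists_rel hU hw (fun a b => ∃ ha : a ∈ F, φ ⟨a, ha⟩ = b)
    (fun _ ⟨_, h⟩ => h ▸ map_zero φ) (fun a ha => ⟨hk ha, hφ _ ha⟩)
    (fun _ _ _ _ ⟨h1, h2⟩ ⟨h3, h4⟩ => ⟨add_mem h1 h3, by rw [← h2, ← h4, ← map_add]; rfl⟩)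
    (fun _ _ _ _ ⟨h1, h2⟩ ⟨h3, h4⟩ => ⟨mul_mem h1 h3, by rw [← h2, ← h4, ← map_mul]; rfl⟩)
    (y := φ ∘ fun j => ⟨_, hF j⟩) fun j => ⟨hF j, rfl⟩
  refine ⟨u, hu, congrFun (crd_of_eq ?_ (fun e => A.crd_ne_zero w (funext fun j =>
    congrArg Subtype.val ((map_eq_zero φ).1 (congrFun e j)))) ht)⟩
  refine (nrm_map φ fun j => ⟨_, hF j⟩).trans (congrArg (φ ∘ ·) (funext fun j => ?_))
  exact Subtype.ext ((congrFun (nrm_map F.subtype fun j => ⟨_, hF j⟩) j).symm.trans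
    (congrFun (A.nrm_crd w) j))

theorem Over.crd_acl_iff (h : A.Over k) (hk : (k : Set ℂ) ⊆ acl S) :
    range (A.crd w) ⊆ acl S ↔ ∀ D ∈ kil S, A.dl w D = 0 :=
  subset_acl_iff_kil.trans (forall₂_congr fun _ hD => (h.dl_eq_zero_iff (kil_le hk hD)).symm)

theorem Over.crd_pr_acl (h : A.Over k) (hU : A.IsLie U) (hk : (k : Set ℂ) ⊆ acl S)
    (hw : range (A.crd w) ⊆ acl S) : range (A.crd (A.pr U w)) ⊆ acl S :=
  (h.crd_acl_iff hk).2 fun D hD => by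
    rw [h.dl_pr (kil_le hk hD) hU, (h.crd_acl_iff hk).1 hw D hD, map_zero]

theorem Over.crd_sub_acl (h : A.Over k) (hk : (k : Set ℂ) ⊆ acl S)
    (h₁ : range (A.crd w₁) ⊆ acl S) (h₂ : range (A.crd w₂) ⊆ acl S) :
    range (A.crd (w₁ - w₂)) ⊆ acl S :=
  (h.crd_acl_iff hk).2 fun D hD => by
    rw [h.dl_sub (kil_le hk hD), (h.crd_acl_iff hk).1 h₁ D hD, (h.crd_acl_iff hk).1 h₂ D hD,
      sub_zero]

theorem Over.crd_add_acl (h : A.Over k) (hk : (k : Set ℂ) ⊆ acl S)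
    (h₁ : range (A.crd w₁) ⊆ acl S) (h₂ : range (A.crd w₂) ⊆ acl S) :
    range (A.crd (w₁ + w₂)) ⊆ acl S :=
  range_subset_iff.2 (h.crd_add_mem hk (range_subset_iff.1 h₁) (range_subset_iff.1 h₂))

theorem Over.crd_pr_le (h : A.Over k) (hU : A.IsLie U) (hle : U ≤ U')
    (hk : (k : Set ℂ) ⊆ acl S) (hw : range (A.crd (A.pr U' w)) ⊆ acl S) :
    range (A.crd (A.pr U w)) ⊆ acl S := A.pr_pr_of_le hle w ▸ h.crd_pr_acl hU hk hw

theorem Over.crd_pr_sup (h : A.Over k) (hU : A.IsLie U) (hU' : A.IsLie U')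
    (hk : (k : Set ℂ) ⊆ acl S) (h₁ : range (A.crd (A.pr U w)) ⊆ acl S)
    (h₂ : range (A.crd (A.pr U' w)) ⊆ acl S) : range (A.crd (A.pr (U ⊔ U') w)) ⊆ acl S :=
  (h.crd_acl_iff hk).2 fun D hD => by
    rw [h.dl_pr (kil_le hk hD) (hU.sup hU'), pr_sup_eq_zero_iff, ← h.dl_pr (kil_le hk hD) hU,
      ← h.dl_pr (kil_le hk hD) hU']
    exact ⟨(h.crd_acl_iff hk).1 h₁ D hD, (h.crd_acl_iff hk).1 h₂ D hD⟩

theorem Over.pr_acl_iff (h : A.Over k) (hU : A.IsLie U) (hk : (k : Set ℂ) ⊆ acl S)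
    {z : Fin g → ℂ} : range (A.pr U z) ⊆ acl S ↔ ∀ D ∈ kil S, A.pr U (dv z D) = 0 :=
  subset_acl_iff_kil.trans (forall₂_congr fun _ hD => by
    rw [← h.dv_pr hU (kil_le hk hD), dv_eq_zero])

theorem Over.pr_acl (h : A.Over k) (hU : A.IsLie U) (hk : (k : Set ℂ) ⊆ acl S) {z : Fin g → ℂ}
    (hz : range z ⊆ acl S) : range (A.pr U z) ⊆ acl S :=
  range_subset_iff.2 (h.pr_mem hU hk (range_subset_iff.1 hz))

theorem Over.pr_le (h : A.Over k) (hU : A.IsLie U) (hle : U ≤ U') (hk : (k : Set ℂ) ⊆ acl S)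
    {z : Fin g → ℂ} (hz : range (A.pr U' z) ⊆ acl S) : range (A.pr U z) ⊆ acl S :=
  A.pr_pr_of_le hle z ▸ h.pr_acl hU hk hz

theorem Over.pr_sup (h : A.Over k) (hU : A.IsLie U) (hU' : A.IsLie U')
    (hk : (k : Set ℂ) ⊆ acl S) {z : Fin g → ℂ} (h₁ : range (A.pr U z) ⊆ acl S)
    (h₂ : range (A.pr U' z) ⊆ acl S) : range (A.pr (U ⊔ U') z) ⊆ acl S :=
  (h.pr_acl_iff (hU.sup hU') hk).2 fun D hD => A.pr_sup_eq_zero_iff.2
    ⟨(h.pr_acl_iff hU hk).1 h₁ D hD, (h.pr_acl_iff hU' hk).1 h₂ D hD⟩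

theorem Over.trd_crd (h : A.Over k) (hk : (k : Set ℂ) ⊆ acl S) (w : Fin g → ℂ) :
    trd S (range (A.crd w)) = finrank ℂ ((kil S).map (A.dl w)) :=
  (finrank_map_kil _ (finite_range _) fun _ hD => h.dl_eq_zero_iff (kil_le hk hD)).symm

theorem Over.trd_crd_le (h : A.Over k) (hk : (k : Set ℂ) ⊆ acl S) (hU : A.IsLie U) (hw : w ∈ U) :
    trd S (range (A.crd w)) ≤ finrank ℂ U := by
  rw [h.trd_crd hk]
  refine Submodule.finrank_mono ?_
  rintro _ ⟨D, hD, rfl⟩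
  exact h.dl_mem (kil_le hk hD) hU hw

theorem Over.trd_pair (h : A.Over k) (hk : (k : Set ℂ) ⊆ acl S) {ι : Type} [Finite ι] (z : ι → ℂ)
    (w : Fin g → ℂ) :
    trd S (range z ∪ range (A.crd w)) = finrank ℂ ((kil S).map ((dv z).prod (A.dl w))) :=
  (finrank_map_kil _ ((finite_range _).union (finite_range _)) fun D hD => by
    rw [kil_union, Submodule.mem_inf, ← dv_eq_zero, ← h.dl_eq_zero_iff (kil_le hk hD)]
    exact Prod.ext_iff).symm

theorem Over.trd_pr_le (h : A.Over k) (hk : (k : Set ℂ) ⊆ acl S) (hU : A.IsLie U)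
    (z : Fin g → ℂ) : trd S (range (A.pr U z)) ≤ finrank ℂ U := by
  rw [← finrank_map_dv]
  refine Submodule.finrank_mono ?_
  rintro _ ⟨D, hD, rfl⟩
  rw [h.dv_pr hU (kil_le hk hD)]
  exact A.pr_mem _ _

end Pool.Agent.P.MP_f17f76_ag.AbVar
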