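import Pool.Agent.P.MP_f17f76_ag.E.Hol3
import Pool.Agent.P.MP_f17f76_ag.E.Pt

/-!
Internal lattice points, holomorphic logarithms and logarithmic derivatives.
-/

namespace Pool.Agent.P.MP_f17f76_ag.N

open Set Filter Topology Metric E MvPolynomial

noncomputable section

variable {I : Type} [Fintype I] {n N : ℕ} (A : AbVar n N) {B : Submodule ℂ (Fin n → ℂ)}

/-- `θ` of a vector of functions. -/
def thH (w : Fin n → H I) (j : Fin N) : H I := cmp (fun _ z => A.θ z j) w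

theorem diff_th (j : Fin N) : Differentiable ℂ fun z => A.θ z j := fun z =>
  differentiableAt_pi.1 (A.analytic z trivial).differentiableAt j

theorem ev_thH {w : Fin n → H I} {x : I → Cs} (hx : Pt x) {u : ℕ → Fin n → ℂ}
    (hu : evv x w = vec u) (j : Fin N) : ev x (thH A w j) = qs fun m => A.θ (u m) j := by
  rw [thH, ev_cmp' (diff_th A j) w hx, hu, app_vec]

theorem pull_thH {J : Type} [Fintype J] (w : Fin n → H I) {φ : I → H J} (hφ : Maps φ) (j : Fin N) :
    pull φ (thH A w j) = thH A (fun k => pull φ (w k)) j := pull_cmp (diff_th A j) w hφ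

theorem st_lat_zero {m : Fin n → Cs} (h : m ∈ St A.Λ) (h' : ∀ i, Ll (nm (m i)) 1) : m = 0 := by
  obtain ⟨u, rfl⟩ := vec_surj m
  obtain ⟨ε, hε, h1⟩ := (AbVar.isLie_bot (A := A)).discrete
  have h2 : Tendsto u UF (𝓝 0) := near_vec.1 fun i => by simpa using h' i
  refine (vec_eq (v := 0)).2 ?_
  filter_upwards [st_vec.1 h, h2.eventually (ball_mem_nhds 0 hε)] with m h3 h4
  exact h1 _ h3 0 (zero_mem _) (by simpa using h4)

theorem exists_st_lat (hB : A.IsLie B) {z : Fin n → Cs} (hz : z ∈ St B) :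
    ∃ m ∈ St (A.Λ ∩ B : Set _), ∀ i, Lc (nm (z i - m i)) 1 := by
  obtain ⟨u, rfl⟩ := vec_surj z
  obtain ⟨R, hR⟩ := hB.exists_bdd
  choose! m h1 h2 h3 using hR
  exact ⟨vec fun k => m (u k), st_vec.2 ((st_vec.1 hz).mono fun k h => ⟨h1 _ h, h2 _ h⟩),
    fun i => lc_sr.2 ⟨R, (st_vec.1 hz).mono fun k h => (norm_le_pi_norm _ i).trans (h3 _ h)⟩⟩

/-- A point of `exp B` near the standard point `exp w₀` has a holomorphic logarithm. -/
theorem exists_log (hB : A.IsLie B) {y : Fin N → H I} {w₀ : Fin n → ℂ} (hw : w₀ ∈ B) {s₀ : ℂ}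
    (hs : s₀ ≠ 0) (h1 : ∀ x, Pt x → evv x y ∈ St {y | ∃ u ∈ B, ∃ t : ℂ, y = t • A.θ u})
    (h2 : ∀ x, Pt x → Near (evv x y) (s₀ • A.θ w₀)) : ∃ (w : Fin n → H I) (s : H I),
      (∀ x, Pt x → evv x w ∈ St B ∧ Near (evv x w) w₀ ∧ Ll (nm (ev x s - co s₀)) 1) ∧
      ∀ j, y j = s * thH A w j := by
  obtain ⟨ω, τ, a1, a2, a3, a4, a5, -⟩ := A.lift w₀ s₀ hs
  obtain ⟨ε, hε, a6⟩ := hB.discrete
  choose w hw' using fun i => exists_cmp y (f := fun _ z => ω z i) fun x hx => (h2 x hx).hold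
    (a1.eventually_analyticAt.mono fun z hz => differentiableAt_pi.1 hz.differentiableAt i)
  obtain ⟨s, hs'⟩ := exists_cmp y (f := fun _ => τ) fun x hx => (h2 x hx).hold
    (a2.eventually_analyticAt.mono fun z hz => hz.differentiableAt)
  have key : ∀ x, Pt x → ∃ v, evv x y = vec v ∧ (evv x w = vec fun m => ω (v m)) ∧
      (ev x s = qs fun m => τ (v m)) ∧ Tendsto v UF (𝓝 (s₀ • A.θ w₀)) ∧
      ∀ᶠ m in UF, ω (v m) ∈ B ∧ v m = τ (v m) • A.θ (ω (v m)) := fun x hx => by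
    obtain ⟨v, hv⟩ := vec_surj (evv x y)
    have b1 := near_vec.1 (hv ▸ h2 x hx)
    refine ⟨v, hv.symm, funext fun i => by rw [evv, hw' i x hx, ← hv, app_vec, vec],
      by rw [hs' x hx, ← hv, app_vec], b1, ?_⟩
    filter_upwards [st_vec.1 (hv ▸ h1 x hx), b1.eventually a5,
      b1.eventually_ne (smul_ne_zero hs (A.ne_zero w₀)),
      ((a3 ▸ a1.continuousAt.tendsto :).comp b1).eventually (ball_mem_nhds w₀ hε)] with m ⟨u, hu, t, e⟩
      b2 b3 b4
    have b5 := b2 ⟨t, u, e⟩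
    have b6 : u - ω (v m) ∈ A.Λ := (A.per _ _).1 ⟨t⁻¹ * τ (v m), by
      rw [mul_smul, ← b5, e, inv_smul_smul₀ (left_ne_zero_of_smul (e ▸ b3))]⟩
    refine ⟨?_, b5⟩
    simpa using B.sub_mem hu (a6 _ b6 _ (B.sub_mem hu hw) (by
      rw [sub_sub_sub_cancel_left]
      exact mem_ball_iff_norm'.1 b4))
  refine ⟨w, s, fun x hx => ?_, fun j => H.ext fun x hx => ?_⟩ <;>
    obtain ⟨v, b1, b2, b3, b4, b5⟩ := key x hx
  · rw [b2, b3]
    exact ⟨st_vec.2 (b5.mono fun _ h => h.1), near_vec.2 ((a3 ▸ a1.continuousAt.tendsto :).comp b4),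
      near_qs.2 ((a4 ▸ a2.continuousAt.tendsto :).comp b4)⟩
  · rw [map_mul, ev_thH A hx b2, b3, ← map_mul]
    exact (congrFun b1 j).trans (qs_eq.2 (b5.mono fun _ h => congrFun h.2 j))

variable [DecidableEq I]

theorem ev_dd_thH {w : Fin n → H I} {x : I → Cs} (hx : Pt x) {u v : ℕ → Fin n → ℂ} {l : I}
    (hu : evv x w = vec u) (hv : (evv x fun k => dd l (w k)) = vec v) (j : Fin N) :
    ev x (dd l (thH A w j)) = qs fun m => fderiv ℂ A.θ (u m) (v m) j := by
  rw [thH, ev_dd_cmp (f := fun _ z => A.θ z j) (fun _ _ => .of_forall fun _ => diff_th A j _)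
    (fun x hx => ev_cmp' (diff_th A j) w hx) hx, hu]
  simp only [app_vec, show ∀ k, ev x (dd l (w k)) = qs fun m => v m k from congrFun hv,
    ← map_mul, ← map_sum]
  refine congrArg qs (funext fun m => ?_)
  rw [Finset.sum_apply]
  refine (fderiv_eq_sum _ (v m)).symm.trans ?_
  rw [fderiv_apply (A.analytic _ trivial).differentiableAt]
  rfl

/-- The logarithmic derivative corresponds to the derivative of the logarithm along any relation
compatible with the ring operations. -/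
theorem dl_H {k : Subfield ℂ} (h : A.Over k) {D : Der ℂ} (hD : D ∈ kil (k : Set ℂ))
    (r : ℂ → H I → Prop) (h1 : ∀ c ∈ k, r c (cn (co c)))
    (h2 : ∀ a b a' b', r a a' → r b b' → r (a + b) (a' + b'))
    (h3 : ∀ a b a' b', r a a' → r b b' → r (a * b) (a' * b')) {p : Fin n → ℂ} {t : ℂ} (ht : t ≠ 0)
    {w : Fin n → H I} {s : H I} (hs : IsUnit s) (c : I → H I)
    (hy : ∀ j, r ((t • A.θ p) j) (s * thH A w j))
    (hd : ∀ j, r (D ((t • A.θ p) j)) (∑ l, c l * dd l (s * thH A w j))) :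
    ∃ (ρ : ℂ) (ρ' : H I), ρ ≠ 0 ∧ r ρ ρ' ∧ ∀ i, r (ρ * A.dl p D i) (ρ' * ∑ l, c l * dd l (w i)) := by
  obtain ⟨ρ, G, a1, a2, a3, a4⟩ := h.dl_chart p ht
  obtain ⟨t', a5⟩ := h.dl_spec' hD p ht
  refine ⟨_, _, a3, a1.rel' (cn.comp co) r h1 h2 h3 hy, fun i => ?_⟩
  have key : ∀ l, eval₂ (cn.comp co) (fun j => s * thH A w j) ρ * dd l (w i) =
      ∑ j, eval₂ (cn.comp co) (fun j => s * thH A w j) (G i j) * dd l (s * thH A w j) :=
    fun l => H.ext fun x hx => by
      obtain ⟨u, hu⟩ := vec_surj (evv x w)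
      obtain ⟨v, hv⟩ := vec_surj (evv x fun k => dd l (w k))
      obtain ⟨σ, hσ⟩ := qs_surj (ev x s)
      obtain ⟨τ, hτ⟩ := qs_surj (ev x (dd l s))
      have b1 : ∀ q, ev x (eval₂ (cn.comp co) (fun j => s * thH A w j) q) =
          qs fun m => eval (σ m • A.θ (u m)) q := fun q => by
        rw [← aeval_vec, eval₂_comp_left, aeval_def]
        congr 1
        · exact RingHom.ext fun a => ev_cn x _
        · funext j
          rw [Function.comp_apply, map_mul, ev_thH A hx hu.symm, ← hσ]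
          rfl
      simp only [map_mul (ev x), map_sum (ev x), b1, Derivation.leibniz, smul_eq_mul, map_add,
        ev_dd_thH A hx hu.symm hv.symm, ev_thH A hx hu.symm, ← hσ, ← hτ,
        show ev x (dd l (w i)) = qs fun m => v m i from (congrFun hv i).symm]
      simp only [← map_mul, ← map_add, ← map_sum]
      refine qs_eq.2 ((qs_ne_zero.1 (hσ ▸ (hs.map (ev x)).ne_zero)).mono fun m hm => ?_)
      rw [Finset.sum_apply]
      refine (a4 _ _ _ (τ m / σ m) i).trans (Finset.sum_congr rfl fun j _ => ?_)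
      simp only [AbVar.tm_apply, Pi.add_apply, Pi.mul_apply, Pi.smul_apply, smul_eq_mul]
      field_simp
  have e : eval₂ (cn.comp co) (fun j => s * thH A w j) ρ * ∑ l, c l * dd l (w i) =
      ∑ j, eval₂ (cn.comp co) (fun j => s * thH A w j) (G i j) *
        ∑ l, c l * dd l (s * thH A w j) := by
    simp only [Finset.mul_sum, mul_left_comm _ (c _), key]
    exact Finset.sum_comm
  rw [a4 _ _ _ t', ← a5, e]
  induction (Finset.univ : Finset (Fin N)) using Finset.induction_on with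
  | empty => simpa using h1 0 (zero_mem _)
  | insert j T hj ih =>
    rw [Finset.sum_insert hj, Finset.sum_insert hj]
    exact h2 _ _ _ _ (h3 _ _ _ _ ((a2 i j).rel' (cn.comp co) r h1 h2 h3 hy) (hd j)) ih

end

end Pool.Agent.P.MP_f17f76_ag.N
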