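import Pool.Agent.P.MP_f17f76_ag.E.Lang
import Pool.Agent.P.MP_f17f76_ag.E.AxZ

/-!
From a good frame to a weighted flag of rational subspaces with adapted rows.
-/

namespace Pool.Agent.P.MP_f17f76_ag.E

open Set Module Matrix

variable {K : Type} [Field K] {ι L : Type} {F : Subfield K}

theorem exists_flag_set (W : ℕ → Submodule K (ι → K)) (h0 : W 0 = ⊥) (hF : ∀ i, Ov F (W i))
    (q : ℕ) (hm : ∀ i < q, W i ≤ W (i + 1)) : ∃ (s : Set (ι → K)) (lv : (ι → K) → ℕ),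
      LinearIndepOn K id s ∧ (∀ x ∈ s, lv x < q ∧ ∀ j, x j ∈ F) ∧
        ∀ i ≤ q, Submodule.span K {x ∈ s | lv x < i} = W i := by
  classical
  induction q with
  | zero => exact ⟨∅, 0, linearIndepOn_empty _ _, by simp, fun i hi => by simp [Nat.le_zero.1 hi, h0]⟩
  | succ q ih =>
    obtain ⟨s, lv, h1, h2, h3⟩ := ih fun i hi => hm i (hi.trans q.lt_succ_self)
    obtain ⟨t, h4, h5, h6, h7⟩ := exists_linearIndepOn_id_extension h1
      (t := {x | x ∈ W (q + 1) ∧ ∀ j, x j ∈ F}) fun x hx =>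
        ⟨hm q q.lt_succ_self (h3 q le_rfl ▸ Submodule.subset_span ⟨hx, (h2 x hx).1⟩), (h2 x hx).2⟩
    have h8 : ∀ x, (if x ∈ s then lv x else q) < q + 1 := fun x => by
      split_ifs with h
      exacts [(h2 x h).1.trans q.lt_succ_self, q.lt_succ_self]
    refine ⟨t, fun x => if x ∈ s then lv x else q, h7, fun x hx => ⟨h8 x, (h4 hx).2⟩, fun i hi => ?_⟩
    rcases hi.eq_or_lt with rfl | hi
    · simp only [h8, and_true, ofPred_mem_eq]
      exact le_antisymm (Submodule.span_le.2 fun x hx => (h4 hx).1)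
        ((hF _).le_of fun x hx hx' => h6 ⟨hx, hx'⟩)
    · rw [← h3 i (Nat.le_of_lt_succ hi)]
      congr 1
      ext x
      by_cases h : x ∈ s
      · simp [h, h5 h]
      · simpa [h] using fun _ => Nat.le_of_lt_succ hi

/-- A basis adapted to a flag. -/
theorem exists_flag_basis [Finite ι] [Fintype L] (W : ℕ → Submodule K (ι → K)) (h0 : W 0 = ⊥)
    (hF : ∀ i, Ov F (W i)) {q : ℕ} (hm : ∀ i < q, W i ≤ W (i + 1))
    (hL : Fintype.card L = finrank K (W q)) : ∃ (n : L → ι → K) (lab : L → ℕ),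
      LinearIndependent K n ∧ (∀ l, lab l < q ∧ ∀ j, n l j ∈ F) ∧
        ∀ i ≤ q, Submodule.span K (n '' {l | lab l < i}) = W i := by
  obtain ⟨s, lv, h1, h2, h3⟩ := exists_flag_set W h0 hF q hm
  have := (LinearIndependent.setFinite h1).fintype
  have h4 : Submodule.span K s = W q := by
    rw [← h3 q le_rfl, sep_eq_self_iff_mem_true.2 fun x hx => (h2 x hx).1]
  let e : L ≃ s := Fintype.equivOfCardEq (by
    rw [hL, ← h4, finrank_span_set_eq_card h1, toFinset_card])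
  refine ⟨fun l => e l, fun l => lv (e l), LinearIndependent.comp h1 e e.injective,
    fun l => h2 _ (e l).2, fun i hi => (congrArg _ ?_).trans (h3 i hi)⟩
  ext x
  exact ⟨by rintro ⟨l, hl, rfl⟩; exact ⟨(e l).2, hl⟩,
    fun hx => ⟨e.symm ⟨x, hx.1⟩, by simpa using hx.2, by simp⟩⟩

theorem exists_levels {Γ : Type} [LinearOrder Γ] [Fintype ι] [Nonempty ι] (m : ι → Γ) :
    ∃ (q : ℕ) (e : ℕ → ι), (∀ i i', i < i' → i' < q → m (e i) < m (e i')) ∧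
      ∀ j, ∃ i < q, m (e i) = m j := by
  classical
  let o := (Finset.univ.image m).orderEmbOfFin rfl
  have : ∀ i : ℕ, ∃ j, ∀ h, m j = o ⟨i, h⟩ := fun i => by
    by_cases h : i < (Finset.univ.image m).card
    · obtain ⟨j, -, hj⟩ := Finset.mem_image.1 (Finset.orderEmbOfFin_mem _ rfl ⟨i, h⟩)
      exact ⟨j, fun _ => hj⟩
    · exact ⟨Classical.arbitrary ι, fun h' => absurd h' h⟩
  choose e he using this
  refine ⟨(Finset.univ.image m).card, e, fun i i' h h' => ?_, fun j => ?_⟩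
  · rw [he i (h.trans h'), he i' h']
    exact o.strictMono h
  · obtain ⟨i, hi⟩ : m j ∈ range o := by simp [o]
    exact ⟨i, i.2, (he i i.2).trans hi⟩

theorem Ov.exists_add {W W' : Submodule K (ι → K)} (h : Ov F W) (h' : Ov F W') {u : ι → K}
    (hu : u ∈ W ⊔ W') (hF : ∀ i, u i ∈ F) :
    ∃ a ∈ W, ∃ b ∈ W', (∀ i, a i ∈ F ∧ b i ∈ F) ∧ u = a + b := by
  obtain ⟨φ, h1, h2, h3⟩ := exists_proj F
  obtain ⟨a, ha, b, hb, rfl⟩ := Submodule.mem_sup.1 hu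
  refine ⟨_, h.stable φ h1 ha, _, h'.stable φ h1 hb, fun i => ⟨h3 _, h3 _⟩, funext fun i => ?_⟩
  simpa [h2] using (h1 1 _ (hF i)).symm

theorem exists_coef_mem [Fintype L] {n : L → ι → K} (hn : ∀ l i, n l i ∈ F) {s : Set L} {u : ι → K}
    (hu : u ∈ Submodule.span K (n '' s)) (hF : ∀ i, u i ∈ F) :
    ∃ a : L → K, (∀ l, a l ∈ F ∧ (l ∉ s → a l = 0)) ∧ u = ∑ l, a l • n l := by
  obtain ⟨φ, h1, h2, h3⟩ := exists_proj F
  obtain ⟨a, ha, rfl⟩ := (Finsupp.mem_span_image_iff_linearCombination K).1 hu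
  refine ⟨fun l => φ (a l), fun l => ⟨h3 _, fun hl =>
    (congrArg φ ((Finsupp.mem_supported' K a).1 ha l hl)).trans (map_zero φ)⟩, funext fun i => ?_⟩
  have := h1 1 _ (hF i)
  rw [h2, one_mul] at this
  rw [← this, Finsupp.linearCombination_apply, Finsupp.sum_fintype _ _ (by simp)]
  simp [h1 _ _ (hn _ _)]

/-- Values of linear forms with coefficients in a free field are as large as possible. -/
theorem Plc.v_conj_le [CharZero K] [Fintype L] {P : Plc K K} {k E K₀ : Subfield K} [IsAlgClosed k]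
    (hk : k ≤ K₀) (hE : P.IdOn E) (hf : Free (k : Set K) (P.res K₀) E)
    (φ : K →+* K) (hφ : ∀ a ∈ k, φ a = a) (hφ' : ∀ a ∈ E, P.v (φ a) ≤ 1) {e a : L → K}
    (he : ∀ l, e l ∈ E) (ha : ∀ l, a l ∈ K₀) :
    P.v (∑ l, a l * φ (e l)) ≤ P.v (∑ l, a l * e l) := by
  classical
  obtain ⟨s, h1, h2, h3⟩ := exists_linearIndependent k (range e)
  have := ((finite_range e).subset h1).fintype
  have hs : ∀ b : s, b.1 ∈ E := fun b => let ⟨l, hl⟩ := h1 b.2; hl ▸ he l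
  choose c hc using fun l => (Submodule.mem_span_range_iff_exists_fun k (v := fun b : s => b.1)
    (x := e l)).1 (by simpa [h2] using Submodule.subset_span (mem_range_self l))
  have h4 : ∀ ψ : K →+* K, (∀ a ∈ k, ψ a = a) →
      ∑ l, a l * ψ (e l) = ∑ b : s, (∑ l, a l * c l b) * ψ b := fun ψ hψ => by
    simp only [← hc, map_sum, Finset.mul_sum, Finset.sum_mul, Subfield.smul_def, smul_eq_mul,
      map_mul, hψ _ (c _ _).2, mul_assoc]
    exact Finset.sum_comm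
  have h5 : ∀ b : s, ∑ l, a l * c l b ∈ K₀ := fun b =>
    sum_mem fun l _ => mul_mem (ha l) (hk (c l b).2)
  rw [h4 φ hφ]
  refine le_trans ?_ (congrArg P.v (h4 (.id K) fun _ _ => rfl)).ge
  generalize hA : (fun b : s => ∑ l, a l * c l b) = A
  simp only [congrFun hA] at h5 ⊢
  rcases isEmpty_or_nonempty s with _ | _
  · simp
  obtain ⟨b₀, hb⟩ := Finite.exists_max fun b => P.v (A b)
  refine le_trans (P.v.map_sum_le fun b _ => ?_) (?_ : P.v (A b₀) ≤ _)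
  · rw [map_mul]
    exact (mul_le_of_le_one_right' (hφ' _ (hs b))).trans (hb b)
  by_cases h0 : A b₀ = 0
  · simp [h0]
  have h6 : ∀ b, P.v (A b / A b₀) ≤ 1 := fun b => (P.v_div_le_one h0).2 (hb b)
  have h7 := (hf.linInd (b := fun b : s => b.1)
    (fun b => subset_acl _ (.inr (hs b))) (by rw [acl_eq_self]; exact h3))
  have h8 : P.r (∑ b : s, A b / A b₀ * b) ≠ 0 := fun h => by
    rw [Plc.r_sum fun b _ => Plc.v_mul_le (h6 b) (hE _ (hs b)).1] at h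
    have := Fintype.linearIndependent_iff.1 h7 (fun b => ⟨P.r (A b / A b₀),
      subset_acl _ (.inr (Plc.r_mem_res (div_mem (h5 b) (h5 b₀))))⟩) (h ▸ Finset.sum_congr rfl
        fun b _ => by rw [Plc.r_mul (h6 b) (hE _ (hs b)).1, (hE _ (hs b)).2]; rfl) b₀
    simpa [h0] using congrArg Subtype.val this
  rw [Plc.r_ne_zero_iff] at h8
  rw [← mul_one (P.v _), ← h8, ← map_mul, Finset.mul_sum]
  exact (congrArg _ (Finset.sum_congr rfl fun b _ => by simp [← mul_assoc, mul_div_cancel₀, h0])).le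

variable [Fintype ι] {R : Type} [Field R] {P : Plc K R} {γ : P.O.ValueGroup}

theorem Plc.v_dot_le {a b : ι → K} (h : ∀ i, P.v (a i * b i) ≤ γ) : P.v (a ⬝ᵥ b) ≤ γ :=
  P.v.map_sum_le fun i _ => h i

theorem Plc.v_dot_le' {a b : ι → K} (ha : ∀ i, P.v (a i) ≤ 1) (hb : ∀ i, P.v (b i) ≤ γ) :
    P.v (a ⬝ᵥ b) ≤ γ := Plc.v_dot_le fun i => by
  rw [map_mul]
  exact (mul_le_of_le_one_left' (ha i)).trans (hb i)

theorem Plc.v_mulVec_le {κ : Type} {M : Matrix κ ι K} {b : ι → K} (ha : ∀ j i, P.v (M j i) ≤ 1)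
    (hb : ∀ i, P.v (b i) ≤ γ) (j : κ) : P.v ((M *ᵥ b) j) ≤ γ := Plc.v_dot_le' (ha j) hb

variable [DecidableEq ι] {g g' : Matrix ι ι K} {p p' : ι → K}

theorem det_frame (hg : g.det ≠ 0) (hp : ∀ i, p i ≠ 0) : (g * diagonal p).det ≠ 0 := by
  rw [det_mul, det_diagonal]
  exact mul_ne_zero hg (Finset.prod_ne_zero_iff.2 fun i _ => hp i)

theorem inv_frame (hp : ∀ i, p i ≠ 0) : (g * diagonal p)⁻¹ = diagonal (fun i => (p i)⁻¹) * g⁻¹ := by
  rw [Matrix.mul_inv_rev]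
  congr 1
  exact inv_eq_right_inv (by simp [hp])

theorem inv_frame_mulVec (hp : ∀ i, p i ≠ 0) (y : ι → K) (i : ι) :
    ((g * diagonal p)⁻¹ *ᵥ y) i = (g⁻¹ *ᵥ y) i / p i := by
  rw [inv_frame hp, ← mulVec_mulVec, mulVec_diagonal, div_eq_inv_mul]

theorem dot_frame (hg : g.det ≠ 0) (u y : ι → K) : u ⬝ᵥ y = (u ᵥ* g) ⬝ᵥ (g⁻¹ *ᵥ y) := by
  rw [dotProduct_mulVec, vecMul_inv_cancel hg]

/-- Two comparable frames have comparable weights. -/
theorem Plc.exists_weight (hF : P.Triv F) (hg : GrM F ⊤ g) (hg' : GrM F ⊤ g') (hp : ∀ i, p i ≠ 0)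
    {x : K} (h : ∀ i j, P.v (x * ((g * diagonal p)⁻¹ * (g' * diagonal p')) i j) ≤ 1) :
    (∀ i, ∃ j, P.v (x * p' j) ≤ P.v (p i)) ∧ ∀ j, ∃ i, P.v (x * p' j) ≤ P.v (p i) := by
  have h1 := hg.inv.mul hg'
  have h2 : ∀ i j, (g⁻¹ * g') i j ≠ 0 → P.v (x * p' j) ≤ P.v (p i) := fun i j h0 => by
    have := h i j
    rw [inv_frame hp, mul_assoc, ← mul_assoc g⁻¹, diagonal_mul, mul_diagonal] at this
    refine (P.v_div_le_one (hp i)).1 (le_of_eq_of_le ?_ this)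
    rw [← mul_one (P.v (_ / _)), ← hF.v_eq (h1.mem i j) h0, ← map_mul]
    congr 1
    ring
  exact ⟨fun i => by_contra fun hn => h1.det (det_eq_zero_of_row_eq_zero i fun j =>
      by_contra fun h0 => hn ⟨j, h2 i j h0⟩),
    fun j => by_contra fun hn => h1.det (det_eq_zero_of_column_eq_zero j fun i =>
      by_contra fun h0 => hn ⟨i, h2 i j h0⟩)⟩

end Pool.Agent.P.MP_f17f76_ag.E

namespace Pool.Agent.P.MP_f17f76_ag.AbVar

open Set Module Matrix E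

variable {g N : ℕ} {A : AbVar g N} {L : Type} [Fintype L] [DecidableEq L]

/-- The algebraic core of the change of block. -/
theorem Over.next_alg {k k₁ E₂ K₀ : Subfield ℂ} (h : A.Over k) {kb : Set ℂ} (hkb : kb.Countable)
    (hk : (k : Set ℂ) ⊆ acl kb) {B : Submodule ℂ (Fin g → ℂ)} (hB : A.IsLie B) (hB0 : B ≠ ⊥)
    {b : Fin g → ℂ} (hc : (k₁ : Set ℂ).Countable) (hk₁ : k ≤ k₁)
    (hfr : E.Free kb (range (A.crd b)) k₁) (hE₂ : acl (kb ∪ range (A.crd b)) ≤ E₂)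
    (hN : Fam k₁ E₂ ⊤ (A.con kb b B)) {P : Plc ℂ ℂ} (hE : P.IdOn E₂) [IsAlgClosed K₀]
    (hK : k₁ ≤ K₀) {τ : ℂ} (hτ : τ ∈ K₀) (hτ0 : τ ≠ 0) (hτ1 : P.v τ < 1)
    (hf : E.Free (k₁ : Set ℂ) (P.res K₀) E₂) {J : Matrix (Fin g) L ℂ} (hJ : ∀ i l, J i l ∈ K₀)
    (hL : Fintype.card L = finrank ℂ (A.con kb b B)) {g₀ : Matrix (Fin g) (Fin g) ℂ}
    {p₀ : Fin g → ℂ} (hg₀ : GrM k₁ ⊤ g₀) (hp₀ : ∀ i, p₀ i ∈ K₀ ∧ p₀ i ≠ 0)
    {n₀ : Matrix L (Fin g) ℂ} {c₀ : Matrix L L ℂ} (hn₀ : ∀ l, n₀ l ∈ A.con kb b B)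
    (h₁ : ∀ l i, P.v ((n₀ * (g₀ * diagonal p₀)) l i) ≤ 1)
    (h₂ : ∀ i l, P.v (((g₀ * diagonal p₀)⁻¹ * J * c₀) i l) ≤ 1) {x : ℂ}
    (hx : (n₀ * J * c₀).det ^ 2 = x) (hx0 : x ≠ 0) :
    ∃ (q : ℕ) (U : ℕ → Submodule ℂ (Fin g → ℂ)) (w : ℕ → ℂ) (n : L → Fin g → ℂ) (lab : L → ℕ),
      U 0 = ⊥ ∧ U q = B ∧ (∀ i, A.IsLie (U i) ∧ U i ≤ B) ∧ (∀ i < q, U i ≤ U (i + 1) ∧ U i ≠ B) ∧
      (∀ i i', i < i' → i' < q → P.v (w i) < P.v (w i')) ∧
      (∀ i, w i ≠ 0 ∧ (∃ j, P.v (x * p₀ j) ≤ P.v (w i)) ∧ ∃ j, P.v (x * w i) ≤ P.v (p₀ j)) ∧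
      LinearIndependent ℂ n ∧ (∀ l, lab l < q ∧ ∀ j, n l j ∈ acl (kb ∪ range (A.crd b))) ∧
      (∀ i ≤ q, Submodule.span ℂ (n '' {l | lab l < i}) = A.con kb b B ⊓ A.du (U i)) ∧
      ∀ (c : L → ℂ) (y : Fin g → ℂ), (∀ j, P.v ((g₀⁻¹ *ᵥ y) j) ≤ P.v (x * p₀ j)) →
        (∀ l, P.v (n l ⬝ᵥ (J *ᵥ c + y)) ≤ P.v (w (lab l))) →
        (∀ j, P.v (x * (g₀⁻¹ *ᵥ J *ᵥ c) j) ≤ P.v (p₀ j)) ∧ ∀ i < q, ∀ u ∈ A.du (U (i + 1)),
          (∀ j, u j ∈ k₁) → P.v (u ⬝ᵥ (J *ᵥ c + y)) ≤ P.v (w i) := by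
  have : Nonempty (Fin g) := not_isEmpty_iff.1 fun _ => hB0 (Subsingleton.elim _ _)
  have hd : (n₀ * J * c₀).det ≠ 0 := fun e => hx0 (by rw [← hx, e, zero_pow two_ne_zero])
  have hn₀' : LinearIndependent ℂ n₀.row := by
    rw [Matrix.mul_assoc] at hd
    exact Fintype.linearIndependent_iff.2 fun a ha => congrFun (eq_zero_of_vecMul_eq_zero hd (by
      rw [← vecMul_vecMul, show a ᵥ* n₀ = 0 from (vecMul_eq_sum ..).trans ha, zero_vecMul]))
  have hsp : Submodule.span ℂ (range n₀.row) = A.con kb b B :=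
    Submodule.eq_of_le_of_finrank_le (Submodule.span_le.2 (forall_mem_range.2 hn₀))
      (by rw [finrank_span_eq_card hn₀', hL])
  obtain ⟨G, p, hG, hp, hq, hgood, hbd⟩ := lang hN hE hK hτ hτ0 hτ1 hf hJ hL (fun u hu hu' => by
    obtain ⟨a, rfl⟩ := (Submodule.mem_span_range_iff_exists_fun ℂ).1 (hsp ▸ hu)
    rw [show ∑ i, a i • n₀.row i = a ᵥ* n₀ from (vecMul_eq_sum ..).symm] at hu' ⊢
    rw [eq_zero_of_vecMul_eq_zero hd (v := a) (by
      rw [← vecMul_vecMul, ← vecMul_vecMul, hu', zero_vecMul]), zero_vecMul]) hg₀ hp₀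
  have hbd := hx ▸ hbd n₀ c₀ hn₀ h₁ h₂
  have hE₁ : P.Triv k₁ := hE.triv.mono hN.le
  obtain ⟨q₀, e, he, he'⟩ := exists_levels fun j => P.v (p j)
  let F : ℕ → Submodule ℂ (Fin g → ℂ) := fun i =>
    act G⁻¹ (supp ℂ fun j => P.v (p j) ≤ P.v (p (e i))) ⊓ A.du B
  have hF : ∀ i u, u ∈ F i ↔ (u ᵥ* G ∈ supp ℂ fun j => P.v (p j) ≤ P.v (p (e i))) ∧ u ∈ A.du B :=
    fun i u => and_congr_left' (by
      rw [SetLike.mem_coe, mem_act_iff hG.inv.det, nonsing_inv_nonsing_inv _ (Ne.isUnit hG.det)])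
  have hFo : ∀ i, Ov k₁ (F i) := fun i =>
    ((ov_supp _).act hG.inv.mem).inf ((h.ov_du hB).mono hk₁)
  let U : ℕ → Submodule ℂ (Fin g → ℂ) := fun i =>
    Nat.casesOn i ⊥ fun i => A.lov (A.tan kb b) (F i) ⊓ B
  have hU : ∀ i, A.IsLie (U i) ∧ U i ≤ B := fun i => by
    cases i
    exacts [⟨isLie_bot, bot_le⟩, ⟨(A.isLie_lov _ _).inf hB, inf_le_right⟩]
  have hM : ∀ i, Mx (A.con kb b B) (F i) (A.du (U (i + 1))) := fun i =>
    h.lov_con h.isGen hkb hc hk hfr ((hFo i).mono fun a ha => subset_acl _ (.inr ha)) inf_le_right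
  have hmono : ∀ i < q₀, U i ≤ U (i + 1) := fun i hi => by
    cases i with
    | zero => exact bot_le
    | succ i => exact inf_le_inf_right _ (A.lov_mono le_rfl fun u hu => (hF _ _).2
        ⟨supp_mono (fun j hj => hj.trans (he _ _ i.lt_succ_self hi).le) ((hF _ _).1 hu).1, hu.2⟩)
  have hlast : U q₀ = B := by
    obtain ⟨q₁, rfl⟩ : ∃ q₁, q₀ = q₁ + 1 := let ⟨i, hi, _⟩ := he' (Classical.arbitrary _)
      ⟨q₀ - 1, by omega⟩
    have : F q₁ = A.du B := le_antisymm inf_le_right fun u hu => (hF _ _).2 ⟨fun j hj => by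
      obtain ⟨i, hi, e'⟩ := he' j
      exact absurd (e'.ge.trans ((Nat.lt_succ_iff_lt_or_eq.1 hi).elim
        (fun h => (he _ _ h q₁.lt_succ_self).le) fun h => h ▸ le_rfl)) hj, hu⟩
    refine inf_eq_right.2 (A.le_perp_comm.1 ((rh_le_iff hB.perp).2 fun v hv => ?_))
    rw [this, ann_du] at hv
    exact hv.2
  obtain ⟨q, hq₁, hq₂⟩ := wellFounded_lt.has_min {q | U q = B} ⟨q₀, hlast⟩
  have hq₀ : q ≤ q₀ := not_lt.1 (hq₂ _ hlast)
  have hcon : A.con kb b B ⊓ A.du B = A.con kb b B := inf_eq_left.2 (A.con_le _ _ _)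
  obtain ⟨n, lab, hn, hn', hfl⟩ := exists_flag_basis (L := L) (q := q₀)
    (fun i => A.con kb b B ⊓ A.du (U i)) (by simp [U])
    (fun i => (h.ov_con hk hB b).inf ((h.ov_du (hU i).1).mono
      (hk.trans (acl_mono subset_union_left))))
    (fun i hi => inf_le_inf_left _ (A.du_mono (hmono i hi))) (by rw [hlast, hcon, hL])
  have hlab : ∀ l, lab l < q := fun l => by_contra fun hl =>
    hn.notMem_span_image (s := {l | lab l < q}) hl (by
      have := hfl q₀ le_rfl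
      rw [hlast] at this
      rw [hfl _ hq₀, hq₁, ← this]
      exact Submodule.subset_span ⟨l, (hn' l).1, rfl⟩)
  refine ⟨q, U, fun i => p (e i), n, lab, rfl, hq₁, hU,
    fun i hi => ⟨hmono i (hi.trans_le hq₀), fun h => hq₂ i h hi⟩,
    fun i i' h h' => he i i' h (h'.trans_le hq₀), fun i => ⟨(hp _).2,
      (Plc.exists_weight hE₁ hG hg₀ (fun i => (hp i).2) fun i j => (hbd i j).1).1 _,
      (Plc.exists_weight hE₁ hg₀ hG (fun i => (hp₀ i).2) fun i j => (hbd i j).2).2 _⟩,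
    hn, fun l => ⟨hlab l, (hn' l).2⟩, fun i hi => hfl i (hi.trans hq₀), fun c y hy hY => ?_⟩
  have hd₀ := det_frame hg₀.det fun i => (hp₀ i).2
  have hd₁ := det_frame hG.det fun i => (hp i).2
  have k1 : ∀ i, P.v (((G * diagonal p)⁻¹ *ᵥ y) i) ≤ 1 := by
    have : (G * diagonal p)⁻¹ *ᵥ y = (x • ((G * diagonal p)⁻¹ * (g₀ * diagonal p₀))) *ᵥ
        x⁻¹ • ((g₀ * diagonal p₀)⁻¹ *ᵥ y) := by
      rw [mulVec_smul, smul_mulVec, inv_smul_smul₀ hx0, mulVec_mulVec,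
        mul_nonsing_inv_cancel_right _ _ (Ne.isUnit hd₀)]
    rw [this]
    refine Plc.v_mulVec_le (fun i j => (hbd i j).1) fun j => ?_
    rw [Pi.smul_apply, inv_frame_mulVec fun i => (hp₀ i).2, smul_eq_mul, ← div_eq_inv_mul, div_div,
      P.v_div_le_one (mul_ne_zero (hp₀ j).2 hx0), mul_comm]
    exact hy j
  have k2 : ∀ i < q₀, ∀ u ∈ A.con kb b B ⊓ A.du (U (i + 1)), (∀ j, u j ∈ E₂) →
      P.v (u ⬝ᵥ (J *ᵥ c + y)) ≤ P.v (p (e i)) := fun i hi u hu hu' => by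
    obtain ⟨a, ha, rfl⟩ := exists_coef_mem (fun l j => hE₂ ((hn' l).2 j)) (hfl _ hi ▸ hu) hu'
    rw [sum_dotProduct]
    refine P.v.map_sum_le fun l _ => ?_
    by_cases hl : lab l < i + 1
    · rw [smul_dotProduct, smul_eq_mul, map_mul]
      exact (mul_le_of_le_one_left' (hE _ (ha l).1).1).trans ((hY l).trans
        ((Nat.lt_succ_iff_lt_or_eq.1 hl).elim (fun h => (he _ _ h hi).le) fun h => h ▸ le_rfl))
    · simp [(ha l).2 hl]
  obtain ⟨ν, pv, had, hν, hpv⟩ := exists_adapt hL hN.ov hN.gr (hG.mono hN.le le_rfl)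
    fun j => P.v (p j)
  have k3 : ∀ i, P.v (((G * diagonal p)⁻¹ *ᵥ J *ᵥ c) i) ≤ 1 := hgood.int c fun u hu hu' => by
    have k4 : P.v (u ⬝ᵥ (J *ᵥ c + y)) ≤ 1 := by
      obtain ⟨a, rfl⟩ := had.exists_coef hu
      rw [sum_dotProduct]
      refine P.v.map_sum_le fun l _ => ?_
      obtain ⟨i, hi, e'⟩ := he' (pv l)
      have := hu' (pv l)
      rw [← vecMul_vecMul, vecMul_diagonal, sum_vecMul] at this
      simp only [Finset.sum_apply, smul_vecMul, Pi.smul_apply, smul_eq_mul] at this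
      rw [Finset.sum_eq_single l (fun l' _ h => by simp [hpv, h]) (by simp), hpv, if_pos rfl,
        mul_one, map_mul] at this
      rw [smul_dotProduct, smul_eq_mul, map_mul]
      exact (mul_le_mul_right ((k2 i hi _ ⟨had.mem l, (hM i).1 ⟨had.mem l, (hF _ _).2
        ⟨e' ▸ had.supp l, A.con_le _ _ _ (had.mem l)⟩⟩⟩ (hν l)).trans_eq e') _).trans this
    rw [← add_sub_cancel_right (J *ᵥ c) y, dotProduct_sub, dot_frame hd₁ u y]
    exact P.v.map_sub_le k4 (Plc.v_dot_le' hu' k1)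
  refine ⟨fun j => ?_, fun i hi u hu hu' => ?_⟩
  · have : x • (g₀ * diagonal p₀)⁻¹ *ᵥ J *ᵥ c = (x • ((g₀ * diagonal p₀)⁻¹ * (G * diagonal p))) *ᵥ
        ((G * diagonal p)⁻¹ *ᵥ J *ᵥ c) := by
      rw [smul_mulVec, mulVec_mulVec _ (_ * _), mul_nonsing_inv_cancel_right _ _ (Ne.isUnit hd₁)]
    rw [← P.v_div_le_one (hp₀ j).2, mul_div_assoc, ← inv_frame_mulVec fun i => (hp₀ i).2]
    exact (congrArg P.v (congrFun this j)).trans_le (Plc.v_mulVec_le (fun i j => (hbd i j).2) k3 j)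
  · have hU' := (h.ov_du (hU (i + 1)).1).mono (hk₁.trans hN.le)
    obtain ⟨a, ha, f, hf, haf, rfl⟩ := (hN.ov.inf hU').exists_add
      (((hFo i).mono hN.le).inf hU') ((hM i).2 hu) fun j => hN.le (hu' j)
    rw [add_dotProduct]
    refine P.v.map_add_le (k2 i (hi.trans_le hq₀) a ha fun j => (haf j).1) ?_
    rw [dot_frame hd₁, ← vecMul_vecMul]
    refine Plc.v_dot_le fun j => ?_
    by_cases hj : P.v (p j) ≤ P.v (p (e i))
    · rw [vecMul_diagonal, map_mul, map_mul, mulVec_add]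
      exact (mul_le_of_le_one_right' (P.v.map_add_le (k3 j) (k1 j))).trans
        ((mul_le_of_le_one_left' (hE _ (vecMul_mem (fun j => (haf j).2)
          (fun i j => hN.le (hG.mem i j)) j)).1).trans hj)
    · simp [vecMul_diagonal, ((hF _ _).1 hf.1).1 j hj]

end Pool.Agent.P.MP_f17f76_ag.AbVar
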