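import Pool.Agent.P.MP_f17f76_ag.E.Cf
import Pool.Agent.P.MP_f17f76_ag.E.Proj

/-!
Fields of definition of the abelian variety, coordinates of points and logarithmic derivatives.
-/

namespace Pool.Agent.P.MP_f17f76_ag.AbVar

open MvPolynomial Filter Topology Module E

variable {g N : ℕ} (A : AbVar g N) {k k' F : Subfield ℂ} {U : Submodule ℂ (Fin g → ℂ)}
  {w w' v : Fin g → ℂ} {D : Der ℂ}

/-- Normalised homogeneous coordinates of `exp w`. -/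
noncomputable def crd (w : Fin g → ℂ) : Fin N → ℂ := nrm (A.θ w)

theorem crd_eq (w : Fin g → ℂ) : A.crd w = (piv (A.θ w))⁻¹ • A.θ w := rfl

theorem piv_inv_ne (w : Fin g → ℂ) : (piv (A.θ w))⁻¹ ≠ 0 := inv_ne_zero (piv_ne_zero _)

theorem crd_ne_zero (w : Fin g → ℂ) : A.crd w ≠ 0 := nrm_ne_zero (A.ne_zero w)

@[simp] theorem nrm_crd (w : Fin g → ℂ) : nrm (A.crd w) = A.crd w := nrm_nrm _

theorem nrm_theta {s : ℂ} (hs : s ≠ 0) (w : Fin g → ℂ) : nrm (s • A.θ w) = A.crd w :=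
  nrm_smul hs _

theorem crd_eq_iff : A.crd w = A.crd w' ↔ w' - w ∈ A.Λ :=
  (nrm_eq_iff (A.ne_zero w')).trans (A.per w w')

theorem crd_per {m : Fin g → ℂ} (hm : m ∈ A.Λ) (w : Fin g → ℂ) : A.crd (w + m) = A.crd w :=
  (A.crd_eq_iff.2 (by simpa using hm)).symm

/-- `Q` is a chart of the addition law. -/
def IsAdd (Q : Fin N → MvPolynomial (Fin N ⊕ Fin N) ℂ) : Prop :=
  ∀ u v, ∀ s t : ℂ, ∃ r : ℂ,
    (fun i => eval (Sum.elim (s • A.θ u) (t • A.θ v)) (Q i)) = r • A.θ (u + v)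

/-- The abelian variety, its subvarieties, group law, tangent map at the origin, projectors and
periods are defined over `k`. -/
structure Over (k : Subfield ℂ) : Prop where
  lie : ∀ U, A.IsLie U → ∃ J : Finset (MvPolynomial (Fin N) ℂ), (∀ p ∈ J, Cf k p) ∧
    Ideal.span (J : Set (MvPolynomial (Fin N) ℂ)) = A.lieI U
  add : ∃ 𝒬 : Finset (Fin N → MvPolynomial (Fin N ⊕ Fin N) ℂ),
    (∀ Q ∈ 𝒬, (∀ i, Cf k (Q i)) ∧ A.IsAdd Q) ∧ ∀ u v, ∀ s t : ℂ, s ≠ 0 → t ≠ 0 → ∃ Q ∈ 𝒬,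
      (fun i => eval (Sum.elim (s • A.θ u) (t • A.θ v)) (Q i)) ≠ 0
  th0 : ∀ j, A.θ 0 j ∈ k
  dth0 : ∀ i j, fderiv ℂ A.θ 0 (Pi.single i 1) j ∈ k
  pr : ∀ U, A.IsLie U → ∀ i j, A.pr U (Pi.single i 1) j ∈ k
  lat : ∀ m ∈ A.Λ, ∀ i, m i ∈ k

theorem exists_add_charts : ∃ 𝒬 : Finset (Fin N → MvPolynomial (Fin N ⊕ Fin N) ℂ),
    (∀ Q ∈ 𝒬, A.IsAdd Q) ∧ ∀ u v, ∀ s t : ℂ, s ≠ 0 → t ≠ 0 → ∃ Q ∈ 𝒬,
      (fun i => eval (Sum.elim (s • A.θ u) (t • A.θ v)) (Q i)) ≠ 0 := by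
  classical
  obtain ⟨J, hJ, h1⟩ := (Submodule.fg_span_iff_fg_span_finset_subset
    {p | ∃ Q, A.IsAdd Q ∧ ∃ i, Q i = p}).1 (IsNoetherian.noetherian
      (R := MvPolynomial (Fin N ⊕ Fin N) ℂ) _)
  choose Q hQ i hi using fun p : J => hJ p.2
  refine ⟨Finset.univ.image Q, Finset.forall_mem_image.2 fun p _ => hQ p,
    fun u v s t hs ht => ?_⟩
  by_contra hcon
  push Not at hcon
  obtain ⟨Q₀, h2, h3⟩ := A.add u v
  let G : Fin N ⊕ Fin N → MvPolynomial (Fin N ⊕ Fin N) ℂ :=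
    fun j => C (Sum.elim (fun _ => s⁻¹) (fun _ => t⁻¹) j) * X j
  have hG : ∀ a b : Fin N → ℂ, (fun j => eval (Sum.elim a b) (G j)) = Sum.elim (s⁻¹ • a) (t⁻¹ • b) :=
    fun a b => funext fun j => by rcases j with j | j <;> simp [G]
  refine h2 (funext fun j => ?_)
  have h4 : aeval G (Q₀ j) ∈ RingHom.ker (eval (Sum.elim (s • A.θ u) (t • A.θ v))) := by
    refine (Submodule.span_le (p := RingHom.ker _)).2 (fun p hp => ?_) (h1.le (Submodule.subset_span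
      ⟨fun j => aeval G (Q₀ j), fun a b s' t' => ?_, j, rfl⟩))
    · have h5 := congrFun (hcon (Q ⟨p, hp⟩) (Finset.mem_image_of_mem _
        (Finset.mem_univ _))) (i ⟨p, hp⟩)
      rwa [hi] at h5
    · simpa only [eval_aeval', hG, smul_smul] using h3 a b _ _
  rwa [RingHom.mem_ker, eval_aeval', hG, inv_smul_smul₀ hs, inv_smul_smul₀ ht] at h4

/-- There is a countable algebraically closed field of definition containing a countable set. -/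
theorem exists_over {S : Set ℂ} (hS : S.Countable) :
    ∃ S' : Set ℂ, S'.Countable ∧ S ⊆ S' ∧ A.Over (acl S') := by
  obtain ⟨𝒬, h1, h2⟩ := A.exists_add_charts
  choose J hJ using fun U => (IsNoetherian.noetherian (R := MvPolynomial (Fin N) ℂ) (A.lieI U))
  refine ⟨S ∪ (⋃ U ∈ {U | A.IsLie U}, ⋃ p ∈ J U, (p.coeffs : Set ℂ)) ∪
    (⋃ Q ∈ 𝒬, ⋃ i, ((Q i).coeffs : Set ℂ)) ∪ Set.range (A.θ 0) ∪
    (⋃ i, Set.range (fderiv ℂ A.θ 0 (Pi.single i 1))) ∪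
    (⋃ U ∈ {U | A.IsLie U}, ⋃ i, Set.range (A.pr U (Pi.single i 1))) ∪
    ⋃ m ∈ (A.Λ : Set (Fin g → ℂ)), Set.range m, ?_, fun x hx => by simp [hx],
    fun U hU => ⟨J U, fun p hp => cf_of_coeffs (fun x hx => ?_) (subset_acl _), hJ U⟩,
    ⟨𝒬, fun Q hQ => ⟨fun i => cf_of_coeffs (fun x hx => ?_) (subset_acl _), h1 Q hQ⟩, h2⟩,
    fun j => mem_acl_of_mem (by simp), fun i j => mem_acl_of_mem ?_,
    fun U hU i j => mem_acl_of_mem ?_, fun m hm i => mem_acl_of_mem ?_⟩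
  · simp only [Set.countable_union]
    exact ⟨⟨⟨⟨⟨⟨hS, A.countable_isLie.biUnion fun U _ => (J U).countable_toSet.biUnion
      fun p _ => Finset.countable_toSet _⟩, 𝒬.countable_toSet.biUnion fun Q _ =>
      Set.countable_iUnion fun i => Finset.countable_toSet _⟩, Set.countable_range _⟩,
      Set.countable_iUnion fun i => Set.countable_range _⟩, A.countable_isLie.biUnion fun U _ =>
      Set.countable_iUnion fun i => Set.countable_range _⟩,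
      A.countable_lattice.biUnion fun m _ => Set.countable_range _⟩
  · simp only [Set.mem_union, Set.mem_iUnion]
    exact Or.inl (Or.inl (Or.inl (Or.inl (Or.inl (Or.inr ⟨U, hU, p, hp, hx⟩)))))
  · simp only [Set.mem_union, Set.mem_iUnion]
    exact Or.inl (Or.inl (Or.inl (Or.inl (Or.inr ⟨Q, hQ, i, hx⟩))))
  · simp only [Set.mem_union, Set.mem_iUnion]
    exact Or.inl (Or.inl (Or.inr ⟨i, j, rfl⟩))
  · simp only [Set.mem_union, Set.mem_iUnion]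
    exact Or.inl (Or.inr ⟨U, hU, i, j, rfl⟩)
  · simp only [Set.mem_union, Set.mem_iUnion]
    exact Or.inr ⟨m, hm, i, rfl⟩

/-- The logarithmic derivative of the point `exp w`. -/
noncomputable def dl (w : Fin g → ℂ) : Der ℂ →ₗ[ℂ] (Fin g → ℂ) :=
  (LinearMap.fst ℂ _ ℂ).comp ((A.tm w (piv (A.θ w))⁻¹).leftInverse.comp (dv (A.crd w)))

theorem tm_smul (w v : Fin g → ℂ) (c s t : ℂ) : A.tm w (c * s) (v, t) = c • A.tm w s (v, t) := by
  simp only [tm_apply, smul_add, mul_smul, smul_comm t c]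

theorem tm_add_smul (w v : Fin g → ℂ) (s t t' : ℂ) :
    A.tm w s (v, t) + t' • s • A.θ w = A.tm w s (v, t + t') := by
  simp only [tm_apply, add_smul, add_assoc]

theorem dv_smul {σ : Type} (c : ℂ) (y : σ → ℂ) (D : Der ℂ) :
    dv (c • y) D = c • dv y D + D c • y := by
  funext i
  simp [mul_comm]

theorem dl_eq {s t : ℂ} (hs : s ≠ 0) (h : dv (s • A.θ w) D = A.tm w s (v, t)) : A.dl w D = v := by
  have h1 : A.crd w = ((piv (A.θ w))⁻¹ * s⁻¹) • s • A.θ w := by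
    rw [mul_smul, inv_smul_smul₀ hs, crd_eq]
  have h2 : dv (A.crd w) D = A.tm w (piv (A.θ w))⁻¹
      (v, t + D ((piv (A.θ w))⁻¹ * s⁻¹) * s * piv (A.θ w)) := by
    rw [h1, dv_smul, h, ← tm_smul, inv_mul_cancel_right₀ hs, ← tm_add_smul, smul_smul, smul_smul,
      mul_inv_cancel_right₀ (piv_ne_zero _)]
  rw [dl, LinearMap.comp_apply, LinearMap.comp_apply, h2, LinearMap.leftInverse_apply_of_inj
    (LinearMap.ker_eq_bot.2 (A.tm_injective w (A.piv_inv_ne w)))]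
  rfl

theorem dl_eq_zero (h : D ∈ kil (Set.range (A.crd w))) : A.dl w D = 0 := by
  rw [dl, LinearMap.comp_apply, LinearMap.comp_apply, dv_eq_zero.2 h, map_zero, map_zero]

variable {A}

theorem Over.mono (h : A.Over k) (hk : k ≤ k') : A.Over k' where
  lie U hU := (h.lie U hU).imp fun _ h => ⟨fun p hp => (h.1 p hp).mono hk, h.2⟩
  add := h.add.imp fun _ h => ⟨fun Q hQ => ⟨fun i => ((h.1 Q hQ).1 i).mono hk, (h.1 Q hQ).2⟩, h.2⟩
  th0 j := hk (h.th0 j)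
  dth0 i j := hk (h.dth0 i j)
  pr U hU i j := hk (h.pr U hU i j)
  lat m hm i := hk (h.lat m hm i)

theorem Over.add' (h : A.Over k) (u v : Fin g → ℂ) {s t : ℂ} (hs : s ≠ 0) (ht : t ≠ 0) :
    ∃ Q : Fin N → MvPolynomial (Fin N ⊕ Fin N) ℂ, (∀ i, Cf k (Q i)) ∧ A.IsAdd Q ∧ ∃ r : ℂ, r ≠ 0 ∧
      (fun i => eval (Sum.elim (s • A.θ u) (t • A.θ v)) (Q i)) = r • A.θ (u + v) := by
  obtain ⟨𝒬, h1, h2⟩ := h.add
  obtain ⟨Q, hQ, h3⟩ := h2 u v s t hs ht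
  obtain ⟨r, hr⟩ := (h1 Q hQ).2 u v s t
  exact ⟨Q, (h1 Q hQ).1, (h1 Q hQ).2, r, left_ne_zero_of_smul (hr ▸ h3), hr⟩

/-- A vector is on the cone over `exp U` as soon as it kills the equations over `k`. -/
theorem Over.zero_iff (h : A.Over k) (hU : A.IsLie U) {y : Fin N → ℂ} :
    (∀ p ∈ A.lieI U, Cf k p → eval y p = 0) ↔ ∃ u ∈ U, ∃ t : ℂ, y = t • A.θ u := by
  rw [← A.zero_lieI hU]
  refine ⟨fun h1 p hp => ?_, fun h1 p hp _ => h1 p hp⟩
  obtain ⟨J, h2, h3⟩ := h.lie U hU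
  rw [← h3] at hp
  exact Ideal.span_le (I := RingHom.ker (eval y)).2
    (fun q hq => h1 q (h3 ▸ Ideal.subset_span hq) (h2 q hq)) hp

theorem Over.crd_zero (h : A.Over k) (j : Fin N) : A.crd 0 j ∈ k := nrm_mem h.th0 j

theorem Over.crd_lat (h : A.Over k) {m : Fin g → ℂ} (hm : m ∈ A.Λ) (j : Fin N) :
    A.crd m j ∈ k := by
  rw [← zero_add m, A.crd_per hm]
  exact h.crd_zero j

theorem pr_apply (A : AbVar g N) (U : Submodule ℂ (Fin g → ℂ)) (z : Fin g → ℂ) (j : Fin g) :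
    A.pr U z j = ∑ i, z i * A.pr U (Pi.single i 1) j := by
  conv_lhs => rw [pi_eq_sum_univ' z]
  simp

theorem Over.pr_mem (h : A.Over k) (hU : A.IsLie U) (hk : k ≤ F) {z : Fin g → ℂ}
    (hz : ∀ i, z i ∈ F) (j : Fin g) : A.pr U z j ∈ F := by
  rw [pr_apply]
  exact sum_mem fun i _ => mul_mem (hz i) (hk (h.pr U hU i j))

theorem Over.dv_pr (h : A.Over k) (hU : A.IsLie U) (hD : D ∈ kil (k : Set ℂ)) (z : Fin g → ℂ) :
    dv (A.pr U z) D = A.pr U (dv z D) := by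
  funext j
  rw [dv_apply, pr_apply, pr_apply, map_sum]
  exact Finset.sum_congr rfl fun i _ => by simp [hD _ (h.pr U hU i j), mul_comm]

theorem Over.map_pr (h : A.Over k) (hU : A.IsLie U) (φ : ℂ →+* ℂ) (hφ : ∀ a ∈ k, φ a = a)
    (z : Fin g → ℂ) : φ ∘ A.pr U z = A.pr U (φ ∘ z) := by
  funext j
  rw [Function.comp_apply, pr_apply, pr_apply, map_sum]
  exact Finset.sum_congr rfl fun i _ => by rw [map_mul, hφ _ (h.pr U hU _ j)]; rfl

theorem Over.dl_lie (h : A.Over k) (hD : D ∈ kil (k : Set ℂ)) (hU : A.IsLie U) (hw : w ∈ U)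
    {s : ℂ} (hs : s ≠ 0) :
    A.dl w D ∈ U ∧ ∃ t, dv (s • A.θ w) D = A.tm w s (A.dl w D, t) := by
  obtain ⟨J, h2, h3⟩ := h.lie U hU
  have h4 : ∀ p ∈ (J : Set (MvPolynomial (Fin N) ℂ)), eval (s • A.θ w) p = 0 := fun p hp =>
    A.mem_lieI.1 (h3 ▸ Ideal.subset_span hp) w hw s
  obtain ⟨v, hv, t, h5⟩ := A.zar_lie hU hw hs (ξ := dv (s • A.θ w) D) (h3 ▸ mem_zar_span h4
    fun p hp => by rw [← (h2 p hp).der hD, h4 p hp, map_zero])
  rw [A.dl_eq hs h5]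
  exact ⟨hv, t, h5⟩

theorem Over.dl_mem (h : A.Over k) (hD : D ∈ kil (k : Set ℂ)) (hU : A.IsLie U) (hw : w ∈ U) :
    A.dl w D ∈ U := (h.dl_lie hD hU hw one_ne_zero).1

theorem Over.dl_spec' (h : A.Over k) (hD : D ∈ kil (k : Set ℂ)) (w : Fin g → ℂ) {s : ℂ}
    (hs : s ≠ 0) : ∃ t, dv (s • A.θ w) D = A.tm w s (A.dl w D, t) :=
  (h.dl_lie hD isLie_top trivial hs).2

theorem Over.dl_spec (h : A.Over k) (hD : D ∈ kil (k : Set ℂ)) (w : Fin g → ℂ) :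
    ∃ t, dv (A.crd w) D = A.tm w (piv (A.θ w))⁻¹ (A.dl w D, t) :=
  h.dl_spec' hD w (A.piv_inv_ne w)

theorem Over.dl_eq_zero_iff (h : A.Over k) (hD : D ∈ kil (k : Set ℂ)) :
    A.dl w D = 0 ↔ D ∈ kil (Set.range (A.crd w)) := by
  refine ⟨fun h0 => dv_eq_zero.1 ?_, A.dl_eq_zero⟩
  obtain ⟨t, ht⟩ := h.dl_spec hD w
  obtain ⟨j, hj⟩ := exists_nrm_eq_one (A.ne_zero w)
  rw [h0, tm_apply, map_zero, smul_zero, zero_add, ← crd_eq] at ht
  have h1 := congrFun ht j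
  rw [dv_apply, Pi.smul_apply, show A.crd w j = 1 from hj, D.map_one_eq_zero, smul_eq_mul,
    mul_one] at h1
  rw [ht, ← h1, zero_smul]

theorem Over.dl_add (h : A.Over k) (hD : D ∈ kil (k : Set ℂ)) (w w' : Fin g → ℂ) :
    A.dl (w + w') D = A.dl w D + A.dl w' D := by
  obtain ⟨Q, h1, h2, r, hr, h3⟩ := h.add' w w' one_ne_zero one_ne_zero
  obtain ⟨t, ht⟩ := h.dl_spec' hD w one_ne_zero
  obtain ⟨t', ht'⟩ := h.dl_spec' hD w' one_ne_zero
  have h4 : HasDerivAt (fun τ : ℂ => w + τ • A.dl w D + (w' + τ • A.dl w' D))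
      (A.dl w D + A.dl w' D) 0 := by
    simpa using (((hasDerivAt_id (0 : ℂ)).smul_const _).const_add w).fun_add
      (((hasDerivAt_id (0 : ℂ)).smul_const _).const_add w')
  obtain ⟨t'', h5⟩ := A.deriv_cone h4 (hasDerivAt_pi.2 fun i => hasDerivAt_eval (Q i)
    (c := fun τ => Sum.elim ((1 + τ * (t * 1)) • A.θ (w + τ • A.dl w D))
      ((1 + τ * (t' * 1)) • A.θ (w' + τ • A.dl w' D)))
    (ξ := Sum.elim (A.tm w 1 (A.dl w D, t)) (A.tm w' 1 (A.dl w' D, t'))) (by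
      rintro (j | j)
      · exact hasDerivAt_pi.1 (A.hasDerivAt_line _ _ _ _) j
      · exact hasDerivAt_pi.1 (A.hasDerivAt_line _ _ _ _) j)) (fun τ => h2 _ _ _ _) hr
    (by simpa using h3)
  simp only [zero_mul, add_zero, zero_smul] at h5
  refine A.dl_eq hr (t := t'') ?_
  rw [← h5, ← h3, ← ht, ← ht']
  funext i
  rw [dv_apply, (h1 i).der hD]
  congr 1
  funext j
  rcases j with j | j <;> rfl

theorem Over.dl_lat (h : A.Over k) (hD : D ∈ kil (k : Set ℂ)) {m : Fin g → ℂ} (hm : m ∈ A.Λ) :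
    A.dl m D = 0 := A.dl_eq_zero (Set.forall_mem_range.2 fun j => hD _ (h.crd_lat hm j))

theorem Over.dl_zero (h : A.Over k) (hD : D ∈ kil (k : Set ℂ)) : A.dl 0 D = 0 :=
  h.dl_lat hD A.Λ.zero_mem

theorem Over.dl_per (h : A.Over k) (hD : D ∈ kil (k : Set ℂ)) {m : Fin g → ℂ} (hm : m ∈ A.Λ)
    (w : Fin g → ℂ) : A.dl (w + m) D = A.dl w D := by
  rw [h.dl_add hD, h.dl_lat hD hm, add_zero]

theorem Over.dl_congr (h : A.Over k) (hD : D ∈ kil (k : Set ℂ)) (e : A.crd w = A.crd w') :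
    A.dl w D = A.dl w' D := by
  rw [← h.dl_per hD (A.crd_eq_iff.1 e), add_sub_cancel]

theorem Over.dl_sub (h : A.Over k) (hD : D ∈ kil (k : Set ℂ)) (w w' : Fin g → ℂ) :
    A.dl (w - w') D = A.dl w D - A.dl w' D := by
  rw [eq_sub_iff_add_eq, ← h.dl_add hD, sub_add_cancel]

theorem Over.dl_neg (h : A.Over k) (hD : D ∈ kil (k : Set ℂ)) (w : Fin g → ℂ) :
    A.dl (-w) D = -A.dl w D := by
  rw [← zero_sub, h.dl_sub hD, h.dl_zero hD, zero_sub]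

theorem Over.dl_pr (h : A.Over k) (hD : D ∈ kil (k : Set ℂ)) (hU : A.IsLie U) (w : Fin g → ℂ) :
    A.dl (A.pr U w) D = A.pr U (A.dl w D) :=
  (A.pr_eq (h.dl_mem hD hU (A.pr_mem U w)) (by
    rw [← h.dl_sub hD]
    exact h.dl_mem hD hU.perp (A.sub_pr_mem U w))).symm

end Pool.Agent.P.MP_f17f76_ag.AbVar
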