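import Pool.Agent.P.MP_f17f76_ag.E.Hol2

/-!
The implicit function theorem with parameters for internal holomorphic functions.
-/

namespace Pool.Agent.P.MP_f17f76_ag.N

open Set Filter Topology Metric E

set_option linter.unusedSectionVars false

variable {S U W : Type} [Fintype S] [Fintype U] [Fintype W]

/-- The fixed point of a holomorphic family of contractions is holomorphic. -/
theorem fix_holo {Φ : (W → ℂ) → (S → ℂ) → S → ℂ} {η : ℝ} (hη : 2 * η < 1)
    (hd : ∀ ψ : (W → ℂ) → S → ℂ, DifferentiableOn ℂ ψ (ball 0 1) → MapsTo ψ (ball 0 1) (ball 0 1) →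
      DifferentiableOn ℂ (fun w => Φ w (ψ w)) (ball 0 1))
    (hl : ∀ w ∈ ball 0 1, ∀ y ∈ ball 0 1, ∀ y' ∈ ball 0 1, 2 * ‖Φ w y - Φ w y'‖ ≤ ‖y - y'‖)
    (h0 : ∀ w ∈ ball 0 1, ‖Φ w 0‖ ≤ η) :
    ∃ ψ : (W → ℂ) → S → ℂ, DifferentiableOn ℂ ψ (ball 0 1) ∧
      ∀ w ∈ ball 0 1, ‖ψ w‖ ≤ 2 * η ∧ Φ w (ψ w) = ψ w := by
  have hb := closedBall_subset_ball (x := (0 : S → ℂ)) hη
  have hz : (0 : S → ℂ) ∈ closedBall 0 (2 * η) :=
    mem_closedBall_self (by linarith [norm_nonneg (Φ 0 0), h0 0 (mem_ball_self one_pos)])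
  have hm : ∀ w ∈ ball 0 1, MapsTo (Φ w) (closedBall 0 (2 * η)) (closedBall 0 (2 * η)) :=
    fun w hw y hy => by
      have := hl w hw y (hb hy) 0 (hb hz)
      rw [mem_closedBall_zero_iff] at hy ⊢
      rw [sub_zero] at this
      linarith [norm_le_norm_sub_add (Φ w y) (Φ w 0), h0 w hw]
  choose! ψ h1 h2 h3 h4 using fun w hw => ContractingWith.exists_fixedPoint' (K := 2⁻¹)
    isClosed_closedBall.isComplete (hm w hw) ⟨by norm_num, .of_dist_le_mul fun y y' => by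
      have := hl w hw y (hb y.2) y' (hb y'.2)
      simp only [Subtype.dist_eq, MapsTo.val_restrict_apply, dist_eq_norm]
      push_cast
      linarith⟩ hz (edist_ne_top _ _)
  refine ⟨ψ, diffOn_lim (C := 2 * η) (.of_forall fun k => ⟨?_, fun w hw =>
    mem_closedBall_zero_iff.1 ((hm w hw).iterate k hz)⟩) h3, fun w hw =>
    ⟨mem_closedBall_zero_iff.1 (h1 w hw), h2 w hw⟩⟩
  induction k with
  | zero => exact differentiableOn_const _
  | succ k ih =>
    simpa only [Function.iterate_succ_apply'] using hd _ ih fun w hw => hb ((hm w hw).iterate k hz)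

theorem pt_elim {y : S → Cs} {b : U → Cs} (hy : Pt y) (hb : Pt b) : Pt (Sum.elim y b) :=
  Sum.forall.2 ⟨hy, hb⟩

theorem mem_ball_elim {y : S → ℂ} {b : U → ℂ} (hy : y ∈ ball 0 1) (hb : b ∈ ball 0 1) :
    Sum.elim y b ∈ ball (0 : S ⊕ U → ℂ) 1 := by
  simp only [mem_ball_zero_iff, pi_norm_lt_iff one_pos] at hy hb ⊢
  exact Sum.forall.2 ⟨hy, hb⟩

theorem vec_elim (y : ℕ → S → ℂ) (b : ℕ → U → ℂ) :
    Sum.elim (vec y) (vec b) = vec fun n => Sum.elim (y n) (b n) :=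
  funext (Sum.forall.2 ⟨fun _ => rfl, fun _ => rfl⟩)

theorem evv_sum_elim (x : W → Cs) (ψ : S → H W) (u : U → H W) :
    evv x (Sum.elim ψ u) = Sum.elim (evv x ψ) (evv x u) :=
  funext (Sum.forall.2 ⟨fun _ => rfl, fun _ => rfl⟩)

theorem maps_elim {ψ : S → H W} {u : U → H W} (h : Maps ψ) (hu : Maps u) : Maps (Sum.elim ψ u) :=
  fun x hx => evv_sum_elim x ψ u ▸ pt_elim (h x hx) (hu x hx)

variable [DecidableEq S] [DecidableEq U]

theorem pift_lip {g : H (S ⊕ U)} {δ r : ℝ*} {s : S} (hδ : Fintype.card S * δ ≤ 1 / 2)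
    (h1 : ∀ s', Le (dd (.inl s') g - if s = s' then 1 else 0) δ) {y y' : S → Cs} {b : U → Cs}
    (hy : Pt y) (hy' : Pt y') (hb : Pt b) (hr : ∀ s, nm (y s - y' s) ≤ r) :
    2 * nm (y s - ev (Sum.elim y b) g - (y' s - ev (Sum.elim y' b) g)) ≤ r := by
  have := mean_value (g := xc (.inl s) - g) (c := fun _ => δ) (x := Sum.elim y' b)
    (y := Sum.elim y b) (Sum.forall.2 ⟨fun s' => .inr (by simpa [dd_xc] using (h1 s').neg),
      fun _ => .inl rfl⟩) (pt_elim hy' hb) (pt_elim hy hb)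
  simp only [map_sub, ev_xc (pt_elim hy hb), ev_xc (pt_elim hy' hb), Fintype.sum_sum_type,
    Sum.elim_inl, Sum.elim_inr, sub_self, map_zero, mul_zero, Finset.sum_const_zero,
    add_zero] at this
  have h2 := Finset.sum_le_card_nsmul .univ _ _ fun i _ =>
    mul_le_mul_of_nonneg_left (hr i) (h1 s).nonneg
  rw [nsmul_eq_mul, Finset.card_univ, ← mul_assoc] at h2
  linarith [mul_le_mul_of_nonneg_right hδ ((nm.nonneg _).trans (hr s))]

/-- The implicit function theorem with parameters, normalised. -/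
theorem pift (φ : S → H (S ⊕ U)) {u : U → H W} (hu : Maps u) (t : S → H W) {δ η : ℝ*}
    (hδ : Fintype.card S * δ ≤ 1 / 2) (hη : η < 1 / 2)
    (h1 : ∀ s s', Le (dd (.inl s') (φ s) - if s = s' then 1 else 0) δ)
    (h2 : ∀ x, Pt x → ∀ s, nm (ev x (t s) - ev (Sum.elim 0 (evv x u)) (φ s)) ≤ η) :
    ∃ ψ : S → H W, (∀ s, Le (ψ s) (2 * η)) ∧ Maps (Sum.elim ψ u) ∧
      ∀ s, pull (Sum.elim ψ u) (φ s) = t s := by
  rcases isEmpty_or_nonempty S with hS | ⟨⟨s0⟩⟩
  · exact ⟨isEmptyElim, isEmptyElim, maps_elim (fun _ _ => isEmptyElim) hu, isEmptyElim⟩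
  have h0 : 0 ≤ η := (nm.nonneg _).trans (h2 0 .zero s0)
  obtain ⟨f, rfl⟩ := exists_reps φ
  obtain ⟨v, rfl⟩ := exists_reps u
  obtain ⟨τ, rfl⟩ := exists_reps t
  obtain ⟨e, rfl⟩ := sr_surj η
  have h2e : 2 * sr e = sr fun n => 2 * e n := by
    rw [← map_ofNat sr 2, ← map_mul]
    rfl
  let Φ : ℕ → (W → ℂ) → (S → ℂ) → S → ℂ := fun n w y s =>
    y s - (f s).1 n (Sum.elim y fun j => (v j).1 n w) + (τ s).1 n w
  have hΦ : ∀ {w : ℕ → W → ℂ} {y : ℕ → S → ℂ}, Pt (vec w) → Pt (vec y) → ∀ s,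
      vec (fun n => Φ n (w n) (y n)) s = vec y s - ev (Sum.elim (vec y)
        (evv (vec w) fun j => H.mk (v j))) (H.mk (f s)) + ev (vec w) (H.mk (τ s)) :=
    fun {w y} hw hy s => by
      have := pt_elim hy (hu _ hw)
      rw [evv_mk hw, vec_elim] at this ⊢
      rw [ev_mk this, ev_mk hw]
      rfl
  have hA := maps_mk.1 hu
  have hB : ∀ᶠ n in UF, ∀ w ∈ ball 0 1, ‖Φ n w 0‖ ≤ e n :=
    (forall_pt (p := fun n w => ‖Φ n w 0‖ ≤ e n)).1 fun w hw => (nm_vec_le h0).1 fun s => by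
      refine (congrArg nm (hΦ (y := 0) hw .zero s)).trans_le ?_
      rw [vec_zero, Pi.zero_apply, zero_sub, neg_add_eq_sub]
      exact h2 _ hw s
  have hC : ∀ᶠ n in UF, ∀ q : (W → ℂ) × (S → ℂ) × (S → ℂ), q ∈ ball 0 1 ×ˢ ball 0 1 ×ˢ ball 0 1 →
      2 * ‖Φ n q.1 q.2.1 - Φ n q.1 q.2.2‖ ≤ ‖q.2.1 - q.2.2‖ := forall_seq.1 fun q => by
    refine Ultrafilter.eventually_imp.2 fun hq => ?_
    have hw := pt_vec.2 (hq.mono fun n h => h.1)
    have hy := pt_vec.2 (hq.mono fun n h => h.2.1)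
    have hy' := pt_vec.2 (hq.mono fun n h => h.2.2)
    have hr : 0 ≤ sr fun n => ‖(q n).2.1 - (q n).2.2‖ :=
      (sr_le (u := 0)).2 (.of_forall fun n => norm_nonneg _)
    have := fun s => pift_lip hδ (h1 s) hy hy' (hu _ hw)
      ((nm_vec_le hr).2 (.of_forall fun n => le_rfl))
    refine ((nm_vec_le (u := fun n => (2 : ℂ) • (Φ n (q n).1 (q n).2.1 - Φ n (q n).1 (q n).2.2))
      hr).1 fun s => (this s).trans_eq' ?_).mono fun n h => by simpa [norm_smul] using h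
    rw [← add_sub_add_right_eq_sub _ _ (ev (vec fun n => (q n).1) (H.mk (τ s))), ← hΦ hw hy,
      ← hΦ hw hy', vec_smul (fun _ => 2), Pi.smul_apply, smul_eq_mul, map_mul, ← co_eq, map_ofNat]
    exact congrArg₂ (· * ·) (nm_nat 2).symm rfl
  have hD : ∀ᶠ n in UF, 2 * e n < 1 := (sr_lt (v := 1)).1 (by rw [← h2e, map_one]; linarith)
  obtain ⟨ψ, hψ⟩ := Eventually.choice ((hA.and (hB.and (hC.and hD))).mono fun n h =>
    fix_holo h.2.2.2 (fun ψ p1 p2 => differentiableOn_pi.2 fun s => ((differentiableOn_pi.1 p1 s).sub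
      (((f s).2 n).comp (differentiableOn_pi.2 (Sum.forall.2 ⟨differentiableOn_pi.1 p1,
        fun j => (v j).2 n⟩)) fun w hw => mem_ball_elim (p2 hw) (h.1 w hw))).add ((τ s).2 n))
      (fun w hw y hy y' hy' => h.2.2.1 (w, y, y') ⟨hw, hy, hy'⟩) h.2.1)
  choose g hg using fun s => exists_H (f := fun n w => ψ n w s)
    (hψ.mono fun n h => differentiableOn_pi.1 h.1 s)
  have hL : ∀ s, Le (H.mk (g s)) (2 * sr e) := fun s => h2e ▸ le_mk.2
    (((hg s).and hψ).mono fun n h w hw => h.1 ▸ (norm_le_pi_norm _ s).trans (h.2.2 w hw).1)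
  have hM := maps_of_le hL fun _ => by linarith
  refine ⟨_, hL, maps_elim hM hu, fun s => H.ext fun x hx => ?_⟩
  obtain ⟨w, rfl⟩ := vec_surj x
  have p1 := hM _ hx
  rw [ev_pull (maps_elim hM hu) hx, evv_sum_elim, evv_mk hx g]
  rw [evv_mk hx g] at p1
  have p2 := hΦ hx p1 s
  rw [show vec (fun n => Φ n (w n) fun k => (g k).1 n (w n)) = vec fun n k => (g k).1 n (w n)
    from vec_eq.2 ?_] at p2
  · linear_combination p2
  · filter_upwards [eventually_all.2 hg, hψ, pt_vec.1 hx] with n a b c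
    simp only [a, (b.2 _ c).2]

theorem mulVec_inj_of_near {S' : Type} [Fintype S'] [DecidableEq S'] {M : Matrix S S' Cs}
    {J : Matrix S' S Cs} (hc : Fintype.card S' = Fintype.card S) {δ : ℝ*}
    (hδ : Fintype.card S * δ ≤ 1 / 2) (h : ∀ s s', nm ((M * J - 1 : Matrix S S Cs) s s') ≤ δ) {a : S' → Cs}
    (ha : M.mulVec a = 0) : a = 0 := by
  have h1 : IsUnit (M * J) := Matrix.mulVec_injective_iff_isUnit.1 (by
    refine (injective_iff_map_eq_zero (M * J).mulVecLin).2 fun y hy => funext fun s1 => ?_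
    have : Nonempty S := ⟨s1⟩
    obtain ⟨s, hs⟩ := Finite.exists_max fun s => nm (y s)
    have h2 : nm (y s) = nm (∑ s', (M * J - 1 : Matrix S S Cs) s s' * y s') := by
      change _ = nm ((M * J - 1).mulVec y s)
      rw [Matrix.sub_mulVec, Matrix.one_mulVec, show (M * J).mulVec y = 0 from hy]
      simp
    have h3 := (nm.sum_le _ _).trans (Finset.sum_le_card_nsmul .univ _ _ fun i _ =>
      (map_mul nm _ _).trans_le (mul_le_mul (h s i) (hs i) (nm.nonneg _)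
        ((nm.nonneg _).trans (h s i))))
    rw [nsmul_eq_mul, Finset.card_univ, ← mul_assoc, ← h2] at h3
    exact nm.nonpos_iff.1 (by
      linarith [mul_le_mul_of_nonneg_right hδ (nm.nonneg (y s)), hs s1]))
  obtain ⟨N, hN⟩ := h1.exists_right_inv
  rw [Matrix.mul_assoc, Matrix.mul_eq_one_comm_of_equiv (Fintype.equivOfCardEq hc.symm)] at hN
  rw [← Matrix.one_mulVec a, ← hN, ← Matrix.mulVec_mulVec, ha, Matrix.mulVec_zero]

/-- The implicit function theorem with an approximate left inverse `M` of the Jacobian. -/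
theorem pift_mat {S' : Type} [Fintype S'] [DecidableEq S'] (φ : S' → H (S ⊕ U)) {u : U → H W}
    (hu : Maps u) (t : S' → H W) (M : Matrix S S' Cs) (hc : Fintype.card S' = Fintype.card S)
    (h1 : ∀ x, Pt x → ∀ s s', Ll (nm (∑ k, M s k * ev x (dd (.inl s') (φ k)) -
      if s = s' then 1 else 0)) 1)
    (h2 : ∀ x, Pt x → ∀ s, Ll (nm (∑ k, M s k * (ev x (t k) - ev (Sum.elim 0 (evv x u)) (φ k)))) 1) :
    ∃ ψ : S → H W, (∀ x, Pt x → ∀ s, Ll (nm (ev x (ψ s))) 1) ∧ Maps (Sum.elim ψ u) ∧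
      (∀ k, pull (Sum.elim ψ u) (φ k) = t k) ∧ ∀ η, (∀ x, Pt x → ∀ s,
        nm (∑ k, M s k * (ev x (t k) - ev (Sum.elim 0 (evv x u)) (φ k))) ≤ η) →
        ∀ s, Le (ψ s) (2 * η) := by
  rcases isEmpty_or_nonempty S with hS | hS
  · have := Fintype.card_eq_zero_iff.1 (hc.trans Fintype.card_eq_zero)
    exact ⟨isEmptyElim, fun _ _ => isEmptyElim, maps_elim (fun _ _ => isEmptyElim) hu, isEmptyElim,
      fun _ _ => isEmptyElim⟩
  have e1 : ∀ x s s', ev x (dd (.inl s') (∑ k, cn (M s k) * φ k) - if s = s' then 1 else 0) =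
      ∑ k, M s k * ev x (dd (.inl s') (φ k)) - if s = s' then 1 else 0 := fun x s s' => by
    simp [apply_ite (ev x)]
  choose c c1 c2 using fun p : S × S => exists_le_ll fun x hx => e1 x p.1 p.2 ▸ h1 x hx p.1 p.2
  obtain ⟨p, hp⟩ := Finite.exists_max c
  have hδ : Fintype.card S * c p ≤ 1 / 2 := by
    have := c1 p (2 * Fintype.card S)
    push_cast at this
    linarith
  have m0 : Maps (Sum.elim (0 : S → H W) u) := maps_elim (fun x _ s => by simp [evv]) hu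
  have e2 : ∀ x s, ev x (∑ k, cn (M s k) * t k) - ev (Sum.elim 0 (evv x u))
      (∑ k, cn (M s k) * φ k) = ∑ k, M s k * (ev x (t k) - ev (Sum.elim 0 (evv x u)) (φ k)) :=
    fun x s => by simp [mul_sub]
  have e3 : ∀ x, Pt x → ∀ s, ev x (∑ k, cn (M s k) * t k - pull (Sum.elim 0 u)
      (∑ k, cn (M s k) * φ k)) = ∑ k, M s k * (ev x (t k) - ev (Sum.elim 0 (evv x u)) (φ k)) :=
    fun x hx s => by
      rw [map_sub, ev_pull m0 hx, evv_sum_elim, ← e2]
      rfl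
  choose σ s1 s2 using fun s => exists_sup fun x hx => e3 x hx s ▸ (h2 x hx s).le
  obtain ⟨s0, hs⟩ := Finite.exists_max σ
  obtain ⟨c0, c3, c4⟩ := exists_le_ll fun x hx => e3 x hx s0 ▸ h2 x hx s0
  have c5 := Ll.le_trans (s2 s0 _ c4) c3
  obtain ⟨ψ, p1, p2, p3⟩ := pift (fun s => ∑ k, cn (M s k) * φ k) hu (fun s => ∑ k, cn (M s k) * t k)
    (η := σ s0) hδ (by have := c5 3; push_cast at this; linarith)
    (fun s s' => (c2 (s, s')).mono (hp _))
    fun x hx s => by rw [e2, ← e3 x hx]; exact (s1 s x hx).trans (hs s)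
  refine ⟨ψ, fun x hx s => .le_trans (p1 s x hx) (two_mul (σ s0) ▸ c5.add c5), p2,
    fun k => H.ext fun x hx => sub_eq_zero.1 (congrFun (mulVec_inj_of_near (M := M)
      (J := .of fun k s' => ev 0 (dd (.inl s') (φ k))) hc hδ (fun s s' => ?_)
      (a := fun k => ev x (pull (Sum.elim ψ u) (φ k)) - ev x (t k)) (funext fun s => ?_)) k),
    fun η h s => (p1 s).mono ?_⟩
  · exact ((e1 0 s s' ▸ c2 (s, s') 0 .zero :).trans (hp _)).trans_eq' (by
      simp [Matrix.mul_apply, Matrix.one_apply])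
  · simpa [Matrix.mulVec, dotProduct, mul_sub, sub_eq_zero] using congrArg (ev x) (p3 s)
  · linarith [s2 s0 η fun x hx => e3 x hx s0 ▸ h x hx s0]

end Pool.Agent.P.MP_f17f76_ag.N
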