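import Pool.Agent.P.MP_f17f76_ag.K.HV

/-!
Recentring and doubling for internal functions of bounded valence.
-/

namespace Pool.Agent.P.MP_f17f76_ag.N

open Set Filter Topology Metric K

variable {I J : Type} [Fintype I] [Fintype J] {g : H I}

theorem HVal.sub_cn (h : HVal g) (c : Cs) : HVal (g - cn c) := by
  obtain ⟨K, f, rfl, h⟩ := h
  obtain ⟨u, rfl⟩ := qs_surj c
  exact ⟨K, _, by rw [cn_qs, ← map_sub], h.mono fun n hn => hn.sub_const (u n)⟩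

theorem HVal.pull_lin (h : HVal g) {φ : I → H J} (hm : Maps φ) {p : I → Cs} {M : I → J → Cs}
    (hφ : ∀ i, φ i = cn (p i) + ∑ j, cn (M i j) * xc j) : HVal (pull φ g) := by
  obtain ⟨K, f, rfl, h⟩ := h
  obtain ⟨p, rfl⟩ := vec_surj p
  choose m hm' using fun i => vec_surj (M i)
  let L : ℕ → (J → ℂ) →ₗ[ℂ] I → ℂ := fun n => Matrix.mulVecLin (Matrix.of fun i => m i n)
  have e : ∀ z, Pt (vec z) → evv (vec z) φ = vec fun n => p n + L n (z n) := fun z hz => by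
    funext i
    simp only [evv, hφ, map_add, map_sum, map_mul, ev_cn, ev_xc hz, ← hm']
    simp only [vec, ← map_mul, ← map_sum, ← map_add]
    exact congrArg qs (funext fun n => by simp [L, Matrix.mulVec, dotProduct])
  have h0 : ∀ z, Pt (vec z) → Pt (vec fun n => p n + L n (z n)) := fun z hz => e z hz ▸ hm _ hz
  have h1 := (forall_pt (p := fun n z => p n + L n z ∈ ball 0 1)).1 fun z hz => pt_vec.1 (h0 z hz)
  obtain ⟨f', h2⟩ := exists_H (f := fun n z => f.1 n (p n + L n z)) (h1.mono fun n hn =>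
    (f.2 n).comp ((L n).toContinuousLinearMap.differentiable.const_add _).differentiableOn hn)
  refine ⟨K, f', H.ext fun x hx => ?_, ?_⟩
  · obtain ⟨z, rfl⟩ := vec_surj x
    rw [ev_pull hm hx, e z hx, ev_mk hx, ev_mk (h0 z hx)]
    exact qs_eq.2 (h2.mono fun n hn => congrFun hn _)
  · filter_upwards [h, h1, h2] with n h3 h4 h5 using h5 ▸ (h3.comp (p n) (L n)).mono le_rfl h4

theorem HVal.pull_aff (h : HVal g) {p e : I → Cs} (σ : I → J) (hm : Maps (aff p e σ)) :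
    HVal (pull (aff p e σ) g) := by
  classical
  exact h.pull_lin hm (p := p) (M := fun i j => if σ i = j then e i else 0) fun i => by
    simp [aff, apply_ite cn]

theorem half_vec {u : ℕ → I → ℂ} {r : ℝ} (hr : 0 ≤ r) (h : ∀ i, nm (vec u i) ≤ r) :
    ∀ᶠ n in UF, u n ∈ closedBall 0 r :=
  ((nm_vec_le (r := fun _ => r) ((sr_le (u := 0)).2 (.of_forall fun _ => hr))).1 h).mono
    fun _ => mem_closedBall_zero_iff.2

theorem pt_half {y : I → Cs} (h : ∀ i, nm (y i) ≤ 1 / 2) : Pt y := pt_of_le h (by norm_num)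

/-- Recentring. -/
theorem rc {α : Type} [Countable α] {g : α → H I} (hg : ∀ s, HVal (g s)) (R : Set I) :
    ∃ p : I → ℂ, (∀ i ∈ R, (p i).im = 0) ∧ ‖p‖ < 1 / 4 ∧ ∀ s x, Near x p →
      (∀ y, (∀ i, nm (y i) ≤ 1 / 2) → Lc (nm (ev y (g s))) (nm (ev x (g s)))) ∧
      ∀ y, Near y p → Ll (nm (ev y (g s) - ev x (g s))) (nm (ev x (g s))) := by
  obtain ⟨f, rfl⟩ := exists_reps g
  obtain ⟨p, h1, h2, h3⟩ := recentre_pi (hyperfilter ℕ) R (f := fun s => (f s).1)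
    (fun s => .of_forall (f s).2) fun s => (hg s).rep
  refine ⟨p, h1, h2, fun s x hx => ?_⟩
  obtain ⟨c, hc, h4⟩ := h3 s
  obtain ⟨u, rfl⟩ := vec_surj x
  have h5 : ‖p‖ < 1 := h2.trans (by norm_num)
  refine ⟨fun y hy => ?_, fun y hy => ll_of_forall (nm.nonneg _) fun η hη => ?_⟩
  all_goals obtain ⟨v, rfl⟩ := vec_surj y
  · obtain ⟨ε, hε, h6⟩ := h4 1 one_pos
    refine Lc.le_trans ?_ (lc_coe_mul c⁻¹ (nm.nonneg _))
    rw [ev_mk (hx.pt h5), ev_mk (pt_half hy), nm_qs, nm_qs, sr_const, ← map_mul, sr_le]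
    filter_upwards [h6, (near_vec.1 hx).eventually (ball_mem_nhds p hε),
      half_vec (r := 1 / 2) (by norm_num) (by simpa using hy)] with n h7 h8 h9
    exact (le_inv_mul_iff₀ hc).2 ((h7 _ h8).1 _ h9)
  · obtain ⟨ε, hε, h6⟩ := h4 η hη
    rw [ev_mk (hx.pt h5), ev_mk (hy.pt h5), ← map_sub, nm_qs, nm_qs, sr_const, ← map_mul, sr_le]
    filter_upwards [h6, (near_vec.1 hx).eventually (ball_mem_nhds p hε),
      (near_vec.1 hy).eventually (ball_mem_nhds p hε)] with n h7 h8 h9 using (h7 _ h8).2 _ h9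

theorem rc_stab {α : Type} [Countable α] {g : α → H I} (hg : ∀ s, HVal (g s)) (R : Set I) :
    ∃ p : I → ℂ, (∀ i ∈ R, (p i).im = 0) ∧ ‖p‖ < 1 / 4 ∧ ∀ {J : Type} [Fintype J] (φ : I → H J),
      (∀ x, Pt x → Near (evv x φ) p) → Maps φ ∧ ∀ s, g s ≠ 0 → Stab (pull φ (g s)) ∧
        ∀ y, (∀ i, nm (y i) ≤ 1 / 2) → Lc (nm (ev y (g s))) (nm (ev 0 (pull φ (g s)))) := by
  obtain ⟨p, h1, h2, h3⟩ := rc hg R
  refine ⟨p, h1, h2, fun φ h => ?_⟩
  have hm : Maps φ := fun x hx => (h x hx).pt (h2.trans (by norm_num))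
  refine ⟨hm, fun s hs => ?_⟩
  obtain ⟨h4, h5⟩ := h3 s _ (h 0 .zero)
  rw [← ev_pull hm .zero] at h4 h5
  refine ⟨⟨fun e => hs (eq_zero_of_ball .zero one_half_pos fun y _ hy => ?_),
    fun x hx => ev_pull hm hx (g s) ▸ h5 _ (h x hx)⟩, h4⟩
  obtain ⟨k, hk⟩ := h4 y (by simpa using hy)
  exact nm.nonpos_iff.1 (by simpa [e] using hk)

/-- Doubling. -/
theorem HVal.remez (h : HVal g) : ∃ m : ℕ, ∀ x : I → Cs, (∀ i, nm (x i) ≤ 1 / 4) → ∀ r, 0 < r →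
    r ≤ 1 → ∀ y : I → Cs, (∀ i, nm (y i) ≤ 1 / 2) → ∃ z, Pt z ∧ (∀ i, nm (z i - x i) ≤ r) ∧
      Lc (r ^ m * nm (ev y g)) (nm (ev z g)) := by
  obtain ⟨d, f, rfl, h⟩ := h
  obtain ⟨C, m, -, h1⟩ := K.remez d
  refine ⟨m, fun x hx r h2 h3 y hy => ?_⟩
  obtain ⟨u, rfl⟩ := vec_surj x
  obtain ⟨v, rfl⟩ := vec_surj y
  obtain ⟨r, rfl⟩ := sr_surj r
  have h4 : ∀ᶠ n in UF, ∃ z ∈ closedBall (u n) (r n), z ∈ ball (0 : I → ℂ) 1 ∧
      r n ^ m * ‖f.1 n (v n)‖ ≤ C * ‖f.1 n z‖ := by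
    filter_upwards [h, half_vec (r := 1 / 4) (by norm_num) (by simpa using hx), (sr_lt (u := 0)).1 h2,
      (sr_le (v := 1)).1 h3, half_vec (r := 1 / 2) (by norm_num) (by simpa using hy)]
      with n h5 h6 h7 h8 h9 using h1 _ (f.2 n) h5 _ h6 _ h7 h8 _ h9
  obtain ⟨z, hz⟩ := h4.choice
  have h5 : Pt (vec z) := pt_vec.2 (hz.mono fun n hn => hn.2.1)
  refine ⟨vec z, h5, (nm_vec_le (u := z - u) h2.le).2 (hz.mono fun n hn =>
    mem_closedBall_iff_norm.1 hn.1), Lc.le_trans ?_ (lc_coe_mul C (nm.nonneg _))⟩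
  rw [ev_mk h5, ev_mk (pt_half hy), nm_qs, nm_qs, sr_const, ← map_pow, ← map_mul, ← map_mul, sr_le]
  exact hz.mono fun n hn => hn.2.2

end Pool.Agent.P.MP_f17f76_ag.N
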