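import Pool.Agent.P.MP_f17f76_ag.E.SimA
import Pool.Agent.P.MP_f17f76_ag.BrLat

/-!
The specialisation lemma for pairings.
-/

namespace Pool.Agent.P.MP_f17f76_ag.E

open Set MeasureTheory Matrix

variable {ι κ L : Type} [Fintype ι] [DecidableEq ι]

/-- The Jacobian matrix. -/
noncomputable def jm (Φ : (ι → ℂ) → κ → ℂ) (x : ι → ℂ) : Matrix κ ι ℂ :=
  of fun l m => fderiv ℂ Φ x (Pi.single m 1) l

theorem jm_mulVec (Φ : (ι → ℂ) → κ → ℂ) (x v : ι → ℂ) : jm Φ x *ᵥ v = fderiv ℂ Φ x v :=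
  LinearMap.toMatrix'_mulVec (fderiv ℂ Φ x).toLinearMap v

theorem measurable_jm [Fintype κ] (Φ : (ι → ℂ) → κ → ℂ) (l : κ) (m : ι) :
    Measurable fun x => jm Φ x l m :=
  (measurable_pi_apply l).comp (measurable_fderiv_apply_const ℂ Φ _)

omit [Fintype ι] in
theorem measurable_det {X : Type} [MeasurableSpace X] [Fintype ι] {M : X → Matrix ι ι ℂ}
    (h : ∀ l m, Measurable fun x => M x l m) : Measurable fun x => (M x).det := by
  simp only [det_apply']
  fun_prop

open Classical in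
theorem det_mul_sum' [Fintype κ] (A : Matrix ι κ ℂ) (B : Matrix κ ι ℂ) :
    (A * B).det = ∑ f : ι → κ, (∏ l, A l (f l)) * (B.submatrix f id).det := by
  rw [← det_transpose, transpose_mul, det_mul_sum]
  exact Finset.sum_congr rfl fun f _ => congrArg _ (det_transpose (B.submatrix f id))

end Pool.Agent.P.MP_f17f76_ag.E

namespace Pool.Agent.P.MP_f17f76_ag.AbVar

open Set Module E MeasureTheory Matrix ComplexConjugate
open scoped ENNReal

variable {g N : ℕ} {A : AbVar g N} {κ : Type} [Fintype κ] [DecidableEq κ] {k K : Subfield ℂ}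
  {a y : Fin g → ℂ} {i j : Fin N} {I : κ → Fin N} {f x : κ → ℂ} {θ : κ → Fin g → ℂ}
  {w : (κ → ℂ) → Fin g → ℂ}

theorem exists_fund (A : AbVar g N) : ∃ ν : Measure (Fin g → ℂ), IsFiniteMeasure ν ∧ ν ≠ 0 ∧
    ν ≪ volume ∧ (∀ f : (Fin g → ℂ) → ℝ≥0∞, (∀ m ∈ (A.Λ : Set (Fin g → ℂ)), ∀ w, f (w + m) = f w) →
      ∀ c, ∫⁻ w, f (w - c) ∂ν = ∫⁻ w, f w ∂ν) ∧
    ∀ f : (Fin g → ℂ) → ℂ, (∀ m ∈ (A.Λ : Set (Fin g → ℂ)), ∀ w, f (w + m) = f w) →
      ∀ c, ∫ w, f (w - c) ∂ν = ∫ w, f w ∂ν := by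
  have := A.discrete
  have : IsZLattice ℝ A.Λ := ⟨A.spans⟩
  let b := Module.Free.chooseBasis ℤ A.Λ
  have hD := ZLattice.isAddFundamentalDomain b (volume : Measure (Fin g → ℂ))
  have : Countable A.Λ := A.countable_lattice.to_subtype
  have : VAddInvariantMeasure A.Λ (Fin g → ℂ) volume :=
    inferInstanceAs (VAddInvariantMeasure A.Λ.toAddSubgroup (Fin g → ℂ) volume)
  have : MeasurableConstVAdd A.Λ (Fin g → ℂ) :=
    inferInstanceAs (MeasurableConstVAdd A.Λ.toAddSubgroup (Fin g → ℂ))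
  have : VAddCommClass (Fin g → ℂ) A.Λ (Fin g → ℂ) := ⟨fun a m x => add_left_comm a m.1 x⟩
  refine ⟨volume.restrict (ZSpan.fundamentalDomain (b.ofZLatticeBasis ℝ)),
    isFiniteMeasure_restrict.2 (ZSpan.fundamentalDomain_isBounded _).measure_lt_top.ne,
    fun h => ZSpan.measure_fundamentalDomain_ne_zero _ (Measure.restrict_eq_zero.1 h),
    Measure.restrict_le_self.absolutelyContinuous, fun f hf c => ?_, fun f hf c => ?_⟩
  · rw [hD.setLIntegral_eq (hD.vadd_of_comm (-c)) f fun m x => (add_comm m.1 x ▸ hf _ m.2 x :)]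
    simp only [← neg_add_eq_sub]
    exact (measurePreserving_vadd (-c)
      volume).setLIntegral_comp_emb (measurableEmbedding_const_vadd (-c)) f _
  · rw [hD.setIntegral_eq (hD.vadd_of_comm (-c)) (f := f)
      fun m x => (add_comm m.1 x ▸ hf _ m.2 x :)]
    simp only [← neg_add_eq_sub]
    exact ((measurePreserving_vadd (-c)
      volume).setIntegral_image_emb (measurableEmbedding_const_vadd (-c)) f _).symm

section pt

variable (hA : A.Over k) (hk : k ≤ K) (hx : AlgebraicIndependent K x) (l : A.Lg K x i w)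
include hA hk hx l

theorem Over.pv_jm {ι : Type} {d : ι → Der ℂ} (hd : ∀ m, d m ∈ kil (K : Set ℂ)) :
    (of fun s m => A.pv θ (w x) (d m) s) = of θ * jm w x * of fun s m => d m (x s) := by
  ext s m
  rw [of_apply, pv_apply, l.dl hA hk hx (hd m), ← jm_mulVec, Matrix.mul_assoc]
  rfl

theorem Over.det_jm_ne (h : A.Pair K (w x) θ) : (of θ * jm w x).det ≠ 0 := by
  obtain ⟨X, hX⟩ := h.dual
  have := congrArg det (hA.pv_jm (θ := θ) hk hx l fun m => (hX m).1)
  rw [det_mul, show of _ = (1 : Matrix κ κ ℂ) from Matrix.ext fun s m => by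
    simp [(hX m).2, Pi.single_apply, one_apply], det_one] at this
  exact left_ne_zero_of_mul_eq_one this.symm

variable (hj : A.θ (y - w x) j ≠ 0) (hf : A.aff j (y - w x) ∘ I = f)
include hj hf

theorem Over.dv_jm {D : Der ℂ} (hD : D ∈ kil (K : Set ℂ)) :
    dv f D = jm (A.aff j · ∘ I) (y - w x) *ᵥ (A.dl y D - jm w x *ᵥ dv x D) := by
  rw [jm_mulVec, jm_mulVec, fderiv_aff_comp_idx hj, ← l.dl hA hk hx hD,
    ← hA.dl_sub (kil_anti hk hD), ← hA.dv_aff (kil_anti hk hD) hj, ← hf]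
  rfl

theorem Over.jac_ne (h : A.Gd K y f) : (jm (A.aff j · ∘ I) (y - w x) * jm w x).det ≠ 0 := by
  obtain ⟨D, hD⟩ := exists_partial h.2
  refine det_ne_zero_of_right_inverse (B := -of fun s m => D m (x s)) (Matrix.ext fun s m => ?_)
  have := congrFun (hA.dv_jm hk hx l hj hf (kil_anti subset_union_left (hD m).1)) s
  rw [dv_apply, (hD m).2.1, A.dl_eq_zero (kil_anti subset_union_right (hD m).1), zero_sub,
    mulVec_neg, mulVec_mulVec] at this
  rw [Matrix.mul_neg, one_apply, this]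
  rfl

theorem Over.pd_mul {d : Fin g → Der ℂ} (hd : ∀ m, d m ∈ kil (K ∪ range f : Set ℂ))
    (hd' : ∀ m, A.dl y (d m) = Pi.single m 1) (φ : κ → Fin g) :
    A.pd θ (w x) (d ∘ φ) * (jm (A.aff j · ∘ I) (y - w x) * jm w x).det =
      (of θ * jm w x).det * ((jm (A.aff j · ∘ I) (y - w x)).submatrix id φ).det := by
  have h1 : (jm (A.aff j · ∘ I) (y - w x)).submatrix id φ =
      jm (A.aff j · ∘ I) (y - w x) * jm w x * of fun s m => (d ∘ φ) m (x s) := by
    ext s m
    have := congrFun (hA.dv_jm hk hx l hj hf (kil_anti subset_union_left (hd (φ m)))) s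
    rw [dv_apply, hd _ _ (Or.inr ⟨s, rfl⟩), hd', mulVec_sub, mulVec_mulVec, mulVec_single_one,
      Pi.sub_apply, eq_comm, sub_eq_zero] at this
    exact this
  rw [h1, pd, hA.pv_jm (d := d ∘ φ) hk hx l fun m => kil_anti subset_union_left (hd _), det_mul (_ * _),
    det_mul (_ * _), mul_right_comm, mul_assoc]

end pt

theorem Over.sim_aux (hA : A.Over k) (hk : k ≤ K) (hK : (K : Set ℂ).Countable)
    (hθ : ∀ j i, θ j i ∈ k) (hle : trd K (range (A.crd a)) ≤ Fintype.card κ) (hp : A.Pair K a θ) :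
    ∃ (j : Fin N) (I : κ → Fin N) (y : Fin g → ℂ) (f : κ → ℂ) (d : κ → Der ℂ), A.Gd K y f ∧
      (∀ l, d l ∈ kil (K ∪ range f : Set ℂ) ∧ ∀ m, A.dl y (d l) m ∈ k) ∧
        A.tr θ (A.Fib K a j I y f) d ≠ 0 := by
  classical
  by_contra! H
  have hk' : (k : Set ℂ) ⊆ acl (K : Set ℂ) := fun x hx => mem_acl_of_mem (hk hx)
  obtain ⟨i, hi, -⟩ := A.exists_aff a
  obtain ⟨e, he⟩ := exists_ind_comp (hp.le_trd.trans (trd_aff hi _).ge)
  obtain ⟨Z, Ψ, hZ, hZ0, hΨ, h1, h2, h3⟩ := hA.exists_branches hk hK hi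
    (by rwa [Ind, Subfield.closure_eq] at he) fun s => he.subset_acl (finite_range (A.crd a))
      (forall_mem_range.2 fun _ => aff_mem_acl _ _ _) hle ⟨s, rfl⟩
  obtain ⟨ν, hν0, hν1, hν2, hν3, hν4⟩ := A.exists_fund
  obtain ⟨⟨j, R⟩, hW⟩ : ∃ q : Fin N × ℕ,
      ν {w | A.θ w q.1 ≠ 0 ∧ A.aff q.1 w ∈ Metric.closedBall 0 q.2} ≠ 0 := by
    by_contra! h
    refine hν1 (Measure.measure_univ_eq_zero.1 (measure_mono_null (fun w _ => ?_)
      (measure_iUnion_null h)))
    obtain ⟨j, hj, -⟩ := A.exists_aff w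
    obtain ⟨R, hR⟩ := exists_nat_ge ‖A.aff j w‖
    exact mem_iUnion.2 ⟨(j, R), hj, mem_closedBall_zero_iff.2 hR⟩
  set Q : Set (κ → ℂ) := Metric.closedBall 0 R
  set T := fun z : ℕ × (κ → ℂ) => jm (Ψ z.1) z.2 with hT
  set M := fun (I : κ → Fin N) w => jm (A.aff j · ∘ I) w with hM
  set χ := fun (I : κ → Fin N) => {w | A.θ w j ≠ 0 ∧ A.aff j w ∘ I ∈ Q} with hχ
  set r : ℂ := ((Fintype.card κ).factorial : ℂ) with hr
  have hr0 : r ≠ 0 := Nat.cast_ne_zero.2 (Nat.factorial_ne_zero _)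
  set τ := fun (φ : κ → Fin g) z => r⁻¹ * ((T z).submatrix φ id).det with hτ
  set m := fun I (φ : κ → Fin g) => (χ I).indicator fun w => ((M I w).submatrix id φ).det with hm
  have hJ : ∀ I z w, ∑ φ, τ φ z * m I φ w = (χ I).indicator (fun w => (M I w * T z).det) w :=
    fun I z w => by
      by_cases h : w ∈ χ I
      · simp only [hτ, hm, indicator_of_mem h, mul_assoc, ← Finset.mul_sum]
        rw [inv_mul_eq_iff_eq_mul₀ hr0]
        convert det_mul_symm (M I w) (T z)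
      · simp only [hm, indicator_of_notMem h, mul_zero, Finset.sum_const_zero]
  have hE : ∀ z, ∑ φ : κ → Fin g, (r * ∏ l, θ l (φ l)) * τ φ z = (of θ * T z).det := fun z => by
    rw [det_mul_sum']
    convert Finset.sum_congr rfl fun φ _ => ?_
    rw [hτ, mul_mul_mul_comm, mul_inv_cancel₀ hr0, one_mul]
    rfl
  have cθ : Continuous A.θ := continuousOn_univ.1 A.analytic.continuousOn
  have mχ : ∀ I, MeasurableSet (χ I) := fun I =>
    (isOpen_ne_fun ((continuous_apply j).comp cθ) continuous_const).measurableSet.inter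
      (measurable_pi_lambda (fun w => A.aff j w ∘ I) (fun l => by
        have := fun s => ((continuous_apply s).comp cθ).measurable
        exact (this j).inv.mul (this _)) measurableSet_closedBall)
  have mΨ : Measurable fun z : ℕ × (κ → ℂ) => Ψ z.1 z.2 := measurable_from_prod_countable_right hΨ
  have mτ : ∀ φ, Measurable (τ φ) := fun φ => (measurable_det fun _ _ =>
    measurable_from_prod_countable_right fun n => measurable_jm (Ψ n) _ _).const_mul _
  have mm : ∀ I φ, Measurable (m I φ) := fun I φ =>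
    (measurable_det fun _ _ => measurable_jm _ _ _).indicator (mχ I)
  set J := fun I y (z : ℕ × (κ → ℂ)) => ∑ φ, τ φ z * m I φ (y - Ψ z.1 z.2) with hJ'
  have mJ : ∀ I y, MeasurableSet {z | J I y z ≠ 0} := fun I y => (measurableSet_eq_fun
    (by simp only [hJ']; fun_prop) measurable_const).compl
  have hJ1 : ∀ I y z, J I y z ≠ 0 → y - Ψ z.1 z.2 ∈ χ I ∧
      J I y z = (M I (y - Ψ z.1 z.2) * T z).det := fun I y z h =>
    have := mem_of_indicator_ne_zero ((hJ I z _).symm.trans_ne h)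
    ⟨this, (hJ I z _).trans (indicator_of_mem this _)⟩
  have hφ : ∀ I y, ∀ z ∈ {z | J I y z ≠ 0} ∩ Z, J I y z ≠ 0 ∧ ∃ L : (κ → ℂ) →L[ℂ] κ → ℂ,
      HasFDerivAt (fun u => A.aff j (y - Ψ z.1 u) ∘ I) L z.2 ∧
        ‖LinearMap.det L.toLinearMap‖ = ‖J I y z‖ := fun I y z hz => by
    obtain ⟨k1, k2⟩ := hJ1 I y z hz.1
    have k3 : AnalyticAt ℂ (A.aff j · ∘ I) (y - Ψ z.1 z.2) :=
      analyticAt_pi_iff.2 fun l => analyticAt_pi_iff.1 (aff_analytic k1.1) _
    refine ⟨hz.1, _, k3.differentiableAt.hasFDerivAt.comp (f := fun u => y - Ψ z.1 u) z.2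
      ((h1 z hz.2).2.1.an.differentiableAt.hasFDerivAt.const_sub y), ?_⟩
    rw [k2, ← LinearMap.det_toMatrix', ContinuousLinearMap.toLinearMap_comp, LinearMap.toMatrix'_comp,
      ContinuousLinearMap.toLinearMap_neg, map_neg, Matrix.mul_neg, det_neg, norm_mul, norm_pow, norm_neg,
      norm_one, one_pow, one_mul]
    rfl
  have hmap : ∀ I y f, MapsTo (fun z : ℕ × (κ → ℂ) => A.crd (Ψ z.1 z.2))
      {z ∈ {z | J I y z ≠ 0} ∩ Z | A.aff j (y - Ψ z.1 z.2) ∘ I = f} (A.Fib K a j I y f) :=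
    fun I y f z hz => ⟨_, rfl, (h1 z hz.1.2).2.2, (hJ1 I y z hz.1.1).1.1, hz.2⟩
  have hgd : ∀ᵐ y ∂ν, ∀ᵐ f : κ → ℂ, A.Gd K y f := Filter.Eventually.mono (hν2.ae_le (A.ae_gn hK)) fun y hy =>
   
    (ae_ind (hK.union (countable_range _))).mono fun f hf => ⟨hy, hf⟩
  have key := an_zero ((mz κ).restrict Z) ν A.Λ hν3 hν4 mΨ mτ mm (fun I φ l hl w => ?_) hW
    (fun w hw φ => ?_) (fun I => ?_) (fun φ => r * ∏ l, θ l (φ l)) fun I η => ?_
  · obtain ⟨z, hz, h⟩ := Measure.exists_mem_of_measure_ne_zero_of_ae hZ0 key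
    obtain ⟨σ, k1, k2⟩ := (h1 z hz).2.2
    have := hp.map hA hk' (fun x hx => k1 x (hk hx)) k2
    rw [show σ '' K = K from (image_congr k1).trans (image_id' _),
      show (fun j => σ ∘ θ j) = θ from funext fun j => funext fun i => k1 _ (hk (hθ j i))] at this
    exact hA.det_jm_ne hk (h1 z hz).1 (h1 z hz).2.1 this ((hE z).symm.trans h)
  · have k1 := fun w => aff_congr (A.crd_per hl w) j
    have k2 : w + l ∈ χ I ↔ w ∈ χ I := and_congr (theta_congr (A.crd_per hl w)) (by rw [k1])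
    have k3 : M I (w + l) = M I w := by
      simp only [hM, jm, ← fderiv_comp_add_right, k1]
    simp only [hm, indicator_apply, k2, k3]
  · obtain ⟨R', H', ch⟩ := hA.exists_ch j
    refine ⟨fun I => r⁻¹ * ∏ l, MvPolynomial.aeval (A.aff j w) (H' (φ l) (I l)), fun z => ?_⟩
    have k1 : (T z).submatrix φ id = (of fun l s => MvPolynomial.aeval (A.aff j w) (H' (φ l) s)) *
        (jm (A.aff j) w * T z) := by
      ext l s
      refine (ch.form w hw.1 ((T z).col s) (φ l)).trans (Finset.sum_congr rfl fun n _ => ?_)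
      rw [← jm_mulVec]
      rfl
    simp only [hJ]
    rw [hτ]
    simp only [k1, det_mul_sum' (of _), Finset.mul_sum, mul_assoc]
    convert Finset.sum_congr rfl fun I _ => ?_
    rw [indicator_of_mem (show w ∈ χ I from ⟨hw.1, mem_closedBall_zero_iff.2
      ((pi_norm_le_iff_of_nonneg R.cast_nonneg).2 fun l => (norm_le_pi_norm (A.aff j w) _).trans
        (mem_closedBall_zero_iff.1 hw.2))⟩), show M I w = (jm (A.aff j) w).submatrix I id from
          Matrix.ext fun l s => congrFun (fderiv_aff_comp_idx hw.1 I _) l]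
    rfl
  · obtain ⟨d, hd⟩ := hA.fib_bound hk hK hle j I
    refine ⟨d * volume Q, ENNReal.mul_ne_top (ENNReal.natCast_ne_top d)
      measure_closedBall_lt_top.ne, hgd.mono fun y hy => ?_⟩
    have := area_le ((mJ I y).inter hZ) (φ := fun n u => A.aff j (y - Ψ n u) ∘ I) (hφ I y)
      measurableSet_closedBall (fun z hz => (hJ1 I y z hz.1).1.2) (hy.mono fun f hf =>
        (encard_le_encard_of_injOn (hmap I y f) (h2.mono fun z hz => hz.1.2)).trans (hd y f hf))
    rwa [← Measure.restrict_restrict (mJ I y), setLIntegral_eq_of_support_subset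
      (s := {z | J I y z ≠ 0}) fun z hz e => hz (by simp [e])] at this
  refine hgd.mono fun y hy => ?_
  have := area_zero ((mJ I y).inter hZ) (φ := fun n u => A.aff j (y - Ψ n u) ∘ I) (hφ I y)
    (h := fun z => (of θ * T z).det * (∑ φ, η φ * m I φ (y - Ψ z.1 z.2)) / J I y z)
    (hy.mono fun f hf => ?_)
  · rw [setIntegral_congr_fun ((mJ I y).inter hZ) (g := fun z => (of θ * T z).det *
      (∑ φ, η φ * m I φ (y - Ψ z.1 z.2)) * conj (J I y z)) fun z hz => by
        simp only [← mul_assoc, div_mul_cancel₀ _ hz.1], ← Measure.restrict_restrict (mJ I y),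
      setIntegral_eq_integral_of_forall_compl_eq_zero fun z hz => by simp [not_not.1 hz]] at this
    simpa only [hE] using this
  have hX := hA.fib_finite (j := j) (I := I) hk hK hle hf
  refine ⟨hX.of_injOn (hmap I y f) (h2.mono fun z hz => hz.1.2), ?_⟩
  by_cases hQ : f ∈ Q
  swap
  · rw [eq_empty_of_forall_notMem (s := {z ∈ {z | J I y z ≠ 0} ∩ Z | _}) fun z hz =>
      hQ ((show A.aff j (y - Ψ z.1 z.2) ∘ I = f from hz.2) ▸ (hJ1 I y z hz.1.1).1.2),
      finsum_mem_empty]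
  choose d hd hd' using fun s => hA.gn_surj (hk'.trans (acl_mono subset_union_left)) hf.gn
    (Pi.single s 1)
  have hdK := fun s => kil_anti subset_union_left (hd s)
  rw [finsum_mem_eq_of_bijOn (g := fun c => ∑ φ, η φ * A.pd θ (A.lg c) (d ∘ φ)) _
    ⟨hmap I y f, h2.mono fun z hz => hz.1.2, ?_⟩ fun z hz => ?_,
    finsum_mem_eq_finite_toFinset_sum _ hX, Finset.sum_comm]
  · refine Finset.sum_eq_zero fun φ _ => ?_
    rw [← Finset.mul_sum, ← finsum_mem_eq_finite_toFinset_sum _ hX]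
    exact mul_eq_zero_of_right _ (H j I y f (d ∘ φ) hf fun l => ⟨hd _, fun s => by
      by_cases h : s = φ l <;> simp [hd', h]⟩)
  · rintro _ ⟨p, rfl, k1, k2, k3⟩
    obtain ⟨z, hz, k4⟩ := h3 p k1
    have k5 : A.crd (y - Ψ z.1 z.2) = A.crd (y - p) := A.crd_eq_iff.2 (by
      simpa using neg_mem (A.crd_eq_iff.1 k4))
    have k6 := (theta_congr k5).2 k2
    have k7 := (congrArg (· ∘ I) (aff_congr k5 j)).trans k3
    refine ⟨z, ⟨⟨?_, hz⟩, k7⟩, k4⟩
    exact ((hJ I z _).trans (indicator_of_mem (show _ ∈ χ I from ⟨k6, k7 ▸ hQ⟩) _)).trans_ne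
      (hA.jac_ne hk (h1 z hz).1 (h1 z hz).2.1 k6 k7 hf)
  · obtain ⟨k1, k2⟩ := hJ1 I y z hz.1.1
    rw [div_eq_iff hz.1.1, k2, Finset.mul_sum, Finset.sum_mul]
    refine Finset.sum_congr rfl fun φ _ => ?_
    rw [mul_left_comm, mul_assoc, show m I φ _ = _ from indicator_of_mem k1 _, ← hA.pd_mul hk (h1 z hz.1.2).1
      (h1 z hz.1.2).2.1 k1.1 hz.2 hd hd' φ]
    exact congrArg (fun B => η φ * (det B * (M I (y - Ψ z.1 z.2) * T z).det)) (Matrix.ext fun s t =>
      congrFun (hA.pv_congr (kil_anti hk (hdK (φ t))) (A.crd_lg _).symm) s)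

/-- The specialisation lemma. -/
theorem sim (A : AbVar g N) : A.S_SIM := by
  intro k F κ _ θ a P hA hk hF hP hθ hle hp
  classical
  have hk' : k ≤ acl (F : Set ℂ) := fun x hx => mem_acl_of_mem (hk hx)
  have hle' := (trd_acl_base (finite_range _)).trans_le hle
  obtain ⟨j, I, y, f, d, h1, h2, h3⟩ := hA.sim_aux hk' (countable_acl hF) hθ hle'
    (hp.anti subset_rfl)
  exact hA.red_of_tr hk' (countable_acl hF) hle' h1 hθ h2 (acl_acl _).le hP h3

end Pool.Agent.P.MP_f17f76_ag.AbVar
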