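import Pool.Agent.P.MP_f17f76_ag.E.SimR

/-!
The traces are constants, and a nonzero trace gives a good reduction.
-/

namespace Pool.Agent.P.MP_f17f76_ag.AbVar

open Set Module E

variable {g N : ℕ} {A : AbVar g N} {κ : Type} [Fintype κ] [DecidableEq κ] {k K : Subfield ℂ}
  {a y : Fin g → ℂ} {j : Fin N} {I : κ → Fin N} {f : κ → ℂ} {θ : κ → Fin g → ℂ} {d : κ → Der ℂ}
  (hA : A.Over k) (hk : k ≤ K) (hK : (K : Set ℂ).Countable)
  (hle : trd K (range (A.crd a)) ≤ Fintype.card κ) (h : A.Gd K y f) (hθ : ∀ j i, θ j i ∈ k)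
  (hd : ∀ l, d l ∈ kil (K ∪ range f : Set ℂ) ∧ ∀ m, A.dl y (d l) m ∈ k)
include hA hk hK hle h hθ hd

theorem Over.der_tr {D : Der ℂ} (h1 : D ∈ kil (k : Set ℂ)) (h2 : ∀ x ∈ K, D x ∈ K)
    (h3 : ∀ m, D (f m) ∈ K) (h4 : D ∈ kil (range (A.crd y))) :
    D (A.tr θ (A.Fib K a j I y f) d) = 0 := by
  have hk' : (k : Set ℂ) ⊆ acl (K : Set ℂ) := fun x hx => mem_acl_of_mem (hk hx)
  have hX := hA.fib_finite (j := j) (I := I) hk hK hle h
  have hdk := fun l => kil_anti (subset_union_left.trans' hk) (hd l).1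
  have h5 : ∀ l, d l (A.tr θ (A.Fib K a j I y f) (Function.update d l D)) = 0 := fun l =>
    mem_acl_iff_der.1 (hA.tr_mem hk hK hle h hθ fun m => by
      by_cases e : m = l
      · rw [e, Function.update_self]
        exact ⟨h1, h2, h3, fun n => by simp [A.dl_eq_zero h4]⟩
      · rw [Function.update_of_ne e]
        exact ⟨hdk m, fun x hx => (hd m).1 x (Or.inl hx) ▸ zero_mem K,
          fun n => (hd m).1 _ (Or.inr ⟨n, rfl⟩) ▸ zero_mem K, (hd m).2⟩) _ (hd l).1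
  simp only [tr, finsum_mem_eq_finite_toFinset_sum _ hX, map_sum] at h5 ⊢
  refine Eq.trans ?_ (Finset.sum_eq_zero (s := Finset.univ) fun l _ => h5 l)
  rw [Finset.sum_comm]
  refine Finset.sum_congr rfl fun c hc => ?_
  obtain ⟨k1, k2⟩ := hA.fib_acl hk' hle h (hX.mem_toFinset.1 hc)
  have k3 : ∀ X ∈ kil (k : Set ℂ), ∀ Y ∈ kil (k : Set ℂ), (∀ m, A.dl y X m ∈ k) →
      (∀ m, A.dl y Y m ∈ k) → ⁅X, Y⁆ ∈ kil (K ∪ range f : Set ℂ) → ∀ m,
        X (A.pv θ (A.lg c) Y m) = Y (A.pv θ (A.lg c) X m) := fun X hX Y hY e1 e2 e3 m => by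
    have := congrFun (hA.pv_lie hX hY (fun j i => hX _ (hθ j i)) (fun j i => hY _ (hθ j i))
      (A.lg c)) m
    have k4 := (hA.dl_eq_zero_iff (w := y) (lie_kil hX hY)).1 (funext fun i => by
      rw [hA.dl_lie_bracket hX hY, hX _ (e2 i), hY _ (e1 i), sub_zero, Pi.zero_apply])
    rw [pv_eq_zero (k1.symm ▸ kil_le k2 (by
      rintro x (hx | hx | hx)
      exacts [e3 x (Or.inl hx), k4 x hx, e3 x (Or.inr hx)]))] at this
    exact sub_eq_zero.1 this.symm
  refine (piola D d _ (A.pv θ (A.lg c) D) (fun m l => k3 _ h1 _ (hdk l)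
    (fun n => by simp [A.dl_eq_zero h4]) (hd l).2 (fun x hx => ?_) m) fun m l l' =>
      k3 _ (hdk l) _ (hdk l') (hd l).2 (hd l').2 (lie_kil (hd l).1 (hd l').1) m).trans
    (Finset.sum_congr rfl fun l _ => congrArg _ (congrArg _ (Matrix.ext fun m n => ?_)))
  · rw [Derivation.commutator_apply, (hd l).1 x hx, map_zero, (hd l).1 _ (Or.inl ?_), sub_zero]
    rcases hx with hx | ⟨n, rfl⟩
    exacts [h2 x hx, h3 n]
  · by_cases e : n = l <;> simp [e]

theorem Over.tr_const (hK' : acl (K : Set ℂ) ≤ K) : A.tr θ (A.Fib K a j I y f) d ∈ acl (k : Set ℂ) := by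
  have hdk := fun l => kil_anti (subset_union_left.trans' hk) (hd l).1
  have h1 := hA.tr_mem (j := j) (I := I) hk hK hle h hθ fun m => ⟨hdk m,
    fun x hx => (hd m).1 x (Or.inl hx) ▸ zero_mem K,
      fun n => (hd m).1 _ (Or.inr ⟨n, rfl⟩) ▸ zero_mem K, (hd m).2⟩
  obtain ⟨D, hD⟩ := exists_partial h.2
  have h2 : A.tr θ (A.Fib K a j I y f) d ∈ acl (K : Set ℂ) := mem_acl_iff_der.2 fun X hX => by
    rw [der_expand (δ₀ := 0) (fun l => kil_anti subset_union_left (hD l).1) (fun l => (hD l).2.1)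
      hX (fun _ => rfl) h1, zero_add, der_sum_apply]
    exact Finset.sum_eq_zero fun l _ => mul_eq_zero_of_right _ (hA.der_tr hk hK hle h hθ hd
      (kil_anti (subset_union_left.trans' hk) (hD l).1)
      (fun x hx => (hD l).1 x (Or.inl hx) ▸ zero_mem K)
      (fun m => by rw [(hD l).2.1]; split_ifs <;> simp) (kil_anti subset_union_right (hD l).1))
  by_contra h3
  have h4 : (k : Set ℂ) ∪ K = K := union_eq_right.2 hk
  have h8 : E.Free (k : Set ℂ) (range (A.crd y) ∪ range f) K :=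
    free_of_trd ((finite_range _).union (finite_range _)) (by
      rw [h4]
      exact ((trd_union_le (finite_range _) (finite_range _)).trans (add_le_add
        (hA.trd_le_dim (subset_acl _) y) (trd_range_le f))).trans h.le_trd)
  obtain ⟨X, h5, h6, h7⟩ := h8.symm.exists_der_one (acl_mono subset_union_right h2) h3
  rw [h4] at h7
  exact one_ne_zero (h6.symm.trans (hA.der_tr hk hK hle h hθ hd (kil_anti subset_union_left h5)
    (fun x hx => hK' (h7 x (subset_acl _ hx)))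
    (fun m => h5 _ (Or.inr (Or.inr ⟨m, rfl⟩)) ▸ zero_mem K) fun x hx => h5 x (Or.inr (Or.inl hx))))

/-- A nonzero trace gives a reduction on which the forms stay independent. -/
theorem Over.red_of_tr (hK' : acl (K : Set ℂ) ≤ K) {P : Plc ℂ ℂ} (hP : P.IdOn k)
    (h0 : A.tr θ (A.Fib K a j I y f) d ≠ 0) :
    ∃ Q : Plc ℂ ℂ, P.Agree Q K ∧ ∃ b, A.Red Q a b ∧ A.Pair (P.res K) b θ := by
  have hk' : (k : Set ℂ) ⊆ acl (K : Set ℂ) := fun x hx => mem_acl_of_mem (hk hx)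
  have hX := hA.fib_finite (j := j) (I := I) hk hK hle h
  obtain ⟨i, hi, hi'⟩ := A.exists_aff y
  obtain ⟨e, he⟩ := exists_ind_comp (n := Fin g) ((Fintype.card_fin g).trans_le h.gn)
  have hf : Ind (K : Set ℂ) f := h.2.anti (subset_union_left.trans (subset_acl _))
  have h1 := ind_sum_iff.2 ⟨hf, he⟩
  obtain ⟨W, hW⟩ := exists_ind (Plc.countable_res (P := P) hK) (Fin g ⊕ κ)
  obtain ⟨Q, h2, h3⟩ := Plc.exists_gauss le_rfl P hK h1 W
  have hG : Q.Gauss K (Sum.elim (A.crd y ∘ e) f) := ⟨fun s => (h3 s).1, by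
    rwa [← h2.res le_rfl, show Q.r ∘ _ = W from funext fun s => (h3 s).2]⟩
  have hQ : Q.IdOn k := (h2.mono hk).lifts hP
  have h4 : ∀ S : Set ℂ, (k : Set ℂ) ⊆ S → S ⊆ K ∪ range f →
      range (A.crd y) ⊆ acl (S ∪ range (A.crd y ∘ e)) := fun S h5 h6 =>
    (he.anti (h6.trans (subset_acl _))).subset_acl (finite_range _)
      (forall_mem_range.2 fun i => mem_acl_of_mem (Or.inr ⟨_, rfl⟩))
      ((hA.trd_le_dim (h5.trans (subset_acl _)) y).trans (Fintype.card_fin g).ge)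
  have hY : ∀ s, Q.v (A.aff i y s) ≤ 1 := fun s => hi' ▸
    ((hG.mono hk).comp Sum.inl_injective).triv hQ.triv _
      (h4 k subset_rfl (subset_union_left.trans' hk) ⟨s, rfl⟩)
  set L := acl (K ∪ range (Sum.elim (A.crd y ∘ e) f))
  have h5 : (K : Set ℂ) ∪ range f ⊆ L := union_subset (subset_union_left.trans (subset_acl _))
    (forall_mem_range.2 fun s => mem_acl_of_mem (Or.inr ⟨.inr s, rfl⟩))
  have h6 : acl (K ∪ (range (A.crd y) ∪ range f)) ≤ L := acl_le (union_subset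
    (subset_union_left.trans h5) (union_subset ((h4 K hk subset_union_left).trans (acl_mono
      (union_subset_union_right _ (forall_mem_range.2 fun s => ⟨.inl s, rfl⟩))))
      (subset_union_right.trans h5)))
  have hdk := fun l => kil_anti (subset_union_left.trans' hk) (hd l).1
  have hdK := fun l => kil_anti subset_union_left (hd l).1
  have hc : ∀ l, Q.Ctr (d l) L := fun l => hG.ctr_acl (Plc.ctr_of_kil (hdK l)) fun s => by
    rcases s with s | s
    · exact hi' ▸ hA.v_der_le hQ hi hY (hdk l) (fun m => (hQ _ ((hd l).2 m)).1) (e s)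
    · simp [(hd l).1 _ (Or.inr ⟨s, rfl⟩)]
  have h7 := hQ.triv.acl.v_eq (hA.tr_const hk hK hle h hθ hd hK') h0
  rw [tr, finsum_mem_eq_finite_toFinset_sum _ hX] at h7
  obtain ⟨c, h8, h9⟩ : ∃ c ∈ hX.toFinset, 1 ≤ Q.v (A.pd θ (A.lg c) d) := by
    by_contra! h8
    exact (Q.v.map_sum_lt one_ne_zero h8).ne h7
  rw [hX.mem_toFinset] at h8
  obtain ⟨k1, k2⟩ := hA.fib_acl hk' hle h h8
  have k3 : ∀ s, A.crd (A.lg c) s ∈ L := fun s => h6 (k2 ⟨s, (congrFun k1 s).symm⟩)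
  obtain ⟨b, hb⟩ := hA.exists_red' hQ (A.lg c)
  have k4 := hA.pair_res hQ hb hk (L := L) (fun x hx => h5 (Or.inl hx)) k3
    (fun j l => hQ _ (hθ j l)) (fun l => ⟨hdK l, hc l⟩) (le_antisymm (Plc.v_det_le fun m l =>
      hA.ctr_pv hQ (fun j l => (hQ _ (hθ j l)).1) (hdk l) (hc l) k3 m).1 h9)
  obtain ⟨p, rfl, ⟨σ, k5, k6⟩, -⟩ := h8
  refine ⟨Q.comap (σ : ℂ →+* ℂ), h2.trans fun x hx => ?_, b, (Red.comap _ (k1.trans k6)).2 hb,
    h2.res le_rfl ▸ k4⟩
  rw [Plc.comap_le_one, Plc.comap_r, show (σ : ℂ →+* ℂ) x = x from k5 x hx]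
  exact ⟨Iff.rfl, rfl⟩

end Pool.Agent.P.MP_f17f76_ag.AbVar
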