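import Pool.Agent.P.MP_f17f76_ag.K.GB
import Pool.Agent.P.MP_f17f76_ag.E.Loc

/-!
Null sets, the area formula with multiplicities and a positivity argument.
-/

namespace Pool.Agent.P.MP_f17f76_ag.E

open MeasureTheory Set Filter Topology ComplexConjugate Function
open scoped ENNReal NNReal

variable {ι : Type} [Fintype ι] {F : Set ℂ}

open MvPolynomial in
theorem null_poly {p : MvPolynomial ι ℂ} (hp : p ≠ 0) :
    volume {x : ι → ℂ | eval x p = 0} = 0 := by
  classical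
  induction h : p.totalDegree using Nat.strong_induction_on generalizing p with
  | _ n ih =>
  have h2 := fun x : ι → ℂ => hasFDerivAt_eval (y := x) p (fun z => z) _
    fun k => (ContinuousLinearMap.proj (R := ℂ) (φ := fun _ : ι => ℂ) k).hasFDerivAt
  by_cases h0 : ∀ i, pderiv i p = 0
  · refine measure_mono_null (fun x hx => hp (MvPolynomial.funext fun y => ?_)) measure_empty
    exact (is_const_of_fderiv_eq_zero (fun x => (h2 x).differentiableAt)
      (fun x => (h2 x).fderiv.trans (by ext; simp [h0])) y x).trans hx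
  obtain ⟨i, hi⟩ := not_forall.1 h0
  have h1 : (pderiv i p).totalDegree < n := by
    obtain ⟨m, hm, e⟩ := Finset.exists_mem_eq_sup _ (support_nonempty.2 hi)
      fun s : ι →₀ ℕ => s.sum fun _ e => e
    have := le_totalDegree (p := p) (s := m + Finsupp.single i 1) (mem_support_iff.2 fun e =>
      mem_support_iff.1 hm (by rw [coeff_pderiv, e, zero_mul]))
    rw [Finsupp.sum_add_index' (fun _ => rfl) fun _ _ _ => rfl, Finsupp.sum_single_index rfl] at this
    exact h ▸ e.trans_lt this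
  refine measure_mono_null (t := {x | eval x (pderiv i p) = 0} ∪
    {x | eval x p = 0 ∧ eval x (pderiv i p) ≠ 0}) (fun x hx => by
      by_cases e : eval x (pderiv i p) = 0
      exacts [Or.inl e, Or.inr ⟨hx, e⟩]) (measure_union_null (ih _ h1 hi rfl) (K.null_zero volume
        (Φ := fun x => eval x p) fun x hx => ⟨hx.1,
          (nash1_analytic_eval x p).restrictScalars, fun e => hx.2 ?_⟩))
  have h3 := congrArg (fun L => L (Pi.single i 1)) (e.symm.trans ((h2 x).restrictScalars ℝ).fderiv)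
  simpa [Pi.single_apply] using h3.symm

theorem ae_ind (hF : F.Countable) : ∀ᵐ x : ι → ℂ, Ind F x := by
  have := (countable_cf (σ := ι) (countable_acl hF)).to_subtype
  refine (ae_all_iff (p := fun (x : ι → ℂ) (p : {p : MvPolynomial ι ℂ | Cf (acl F) p}) =>
    MvPolynomial.eval x p.1 = 0 → p.1 = 0).2 fun p => ?_).mono fun x hx =>
      ind_iff.2 fun p hp => hx ⟨p, hp⟩
  by_cases h : p.1 = 0
  · exact ae_of_all _ fun _ _ => h
  · exact (measure_eq_zero_iff_ae_notMem.1 (null_poly h)).mono fun x hx e => absurd e hx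

theorem measurableSet_ind (hF : F.Countable) : MeasurableSet {x : ι → ℂ | Ind F x} := by
  have := (countable_cf (σ := ι) (countable_acl hF)).to_subtype
  have h : {x : ι → ℂ | Ind F x} = ⋂ p : {p : MvPolynomial ι ℂ | Cf (acl F) p},
      {x | MvPolynomial.eval x p.1 = 0}ᶜ ∪ {_x | p.1 = 0} := by
    ext x
    simp only [mem_iInter, mem_ofPred_eq, ind_iff, mem_union, mem_compl_iff, ← imp_iff_not_or]
    exact ⟨fun h p => h p.1 p.2, fun h p hp => h ⟨p, hp⟩⟩
  rw [h]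
  exact MeasurableSet.iInter fun p => (isClosed_eq (MvPolynomial.continuous_eval _)
    continuous_const).measurableSet.compl.union (MeasurableSet.const _)

theorem null_preimage {φ : (ι → ℂ) → ι → ℂ} {x : ι → ℂ} (h : AnalyticAt ℂ φ x)
    (hi : Injective (fderiv ℂ φ x)) {S : Set (ι → ℂ)} (hS : volume S = 0) :
    ∃ U ∈ 𝓝 x, volume (U ∩ φ ⁻¹' S) = 0 := by
  obtain ⟨χ, h1, h2, -⟩ := exists_local_inv h hi rfl
  refine ⟨_, h2.and (h.continuousAt.eventually h1.eventually_analyticAt), measure_mono_null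
    (t := χ '' (S ∩ {u | AnalyticAt ℂ χ u})) (fun z hz => ⟨φ z, ⟨hz.2, hz.1.2⟩, hz.1.1⟩)
    (addHaar_image_eq_zero_of_differentiableOn_of_addHaar_eq_zero volume (fun u hu => ?_)
      (measure_mono_null inter_subset_left hS))⟩
  exact (hu.2.differentiableAt.restrictScalars ℝ).differentiableWithinAt

/-- The measure on countably many copies of the affine space. -/
noncomputable abbrev mz (ι : Type) [Fintype ι] : Measure (ℕ × (ι → ℂ)) := Measure.count.prod volume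

theorem mz_restrict (n : ℕ) (t : Set (ι → ℂ)) :
    (mz ι).restrict ({n} ×ˢ t) = (volume.restrict t).map (Prod.mk n) := by
  rw [← Measure.prod_restrict, Measure.restrict_singleton, Measure.count_singleton, one_smul,
    Measure.dirac_prod]

section area

variable {Z : Set (ℕ × (ι → ℂ))} {φ : ℕ → (ι → ℂ) → ι → ℂ} {J : ℕ × (ι → ℂ) → ℂ}
  (hZ : MeasurableSet Z) (hφ : ∀ z ∈ Z, J z ≠ 0 ∧ ∃ L : (ι → ℂ) →L[ℂ] ι → ℂ,
    HasFDerivAt (φ z.1) L z.2 ∧ ‖LinearMap.det L.toLinearMap‖ = ‖J z‖)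
include hZ hφ

theorem exists_pieces : ∃ (t : ℕ × ℕ → Set (ι → ℂ))
    (L : ℕ → (ι → ℂ) → (ι → ℂ) →L[ℝ] ι → ℂ), Z = ⋃ i, {i.1} ×ˢ t i ∧
    Pairwise (Disjoint on fun i => ({i.1} : Set ℕ) ×ˢ t i) ∧ ∀ i, MeasurableSet (t i) ∧
      InjOn (φ i.1) (t i) ∧ ∀ x ∈ t i, HasFDerivWithinAt (φ i.1) (L i.1 x) (t i) x ∧
        |(L i.1 x).det| = ‖J (i.1, x)‖ ^ 2 := by
  classical
  have h1 : ∀ n x, ∃ L : (ι → ℂ) →L[ℝ] ι → ℂ, (n, x) ∈ Z →
      HasFDerivAt (φ n) L x ∧ |L.det| = ‖J (n, x)‖ ^ 2 := fun n x => by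
    by_cases h : (n, x) ∈ Z
    · obtain ⟨-, L, h1, h2⟩ := hφ _ h
      refine ⟨L.restrictScalars ℝ, fun _ => ⟨h1.restrictScalars ℝ, ?_⟩⟩
      rw [← h2, ← Complex.normSq_eq_norm_sq, ← Algebra.norm_complex_apply,
        ← LinearMap.det_restrictScalars]
      exact abs_of_nonneg (by
        change 0 ≤ LinearMap.det (L.toLinearMap.restrictScalars ℝ)
        rw [LinearMap.det_restrictScalars, Algebra.norm_complex_apply]
        exact Complex.normSq_nonneg _)
    · exact ⟨0, fun e => absurd e h⟩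
  choose L hL using h1
  have h2 : ∀ B : (ι → ℂ) →L[ℝ] ι → ℂ, ∃ r : ℝ≥0, r ≠ 0 ∧ ∀ f s, B.det ≠ 0 →
      ApproximatesLinearOn f B s r → InjOn f s := fun B => by
    by_cases h : B.det = 0
    · exact ⟨1, one_ne_zero, fun _ _ e => absurd h e⟩
    set e := B.toContinuousLinearEquivOfDetNeZero h
    refine ⟨(‖(e.symm : (ι → ℂ) →L[ℝ] ι → ℂ)‖₊ + 1)⁻¹, by positivity, fun f s _ H =>
      ApproximatesLinearOn.injOn (f' := e) H ?_⟩
    rcases subsingleton_or_nontrivial (ι → ℂ) with h' | h'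
    exacts [Or.inl h', Or.inr (inv_strictAnti₀ e.nnnorm_symm_pos (lt_add_one _))]
  choose r hr using h2
  choose t B h3 h4 h5 h6 h7 using fun n =>
    exists_partition_approximatesLinearOn_of_hasFDerivWithinAt (φ n) (Prod.mk n ⁻¹' Z) (L n)
      (fun x hx => (hL n x hx).1.hasFDerivWithinAt) r fun B => (hr B).1
  refine ⟨fun i => Prod.mk i.1 ⁻¹' Z ∩ t i.1 i.2, L, subset_antisymm (fun z hz => ?_)
    (iUnion_subset fun i z hz => ?_), fun i j hij => disjoint_left.2 fun z hz hz' => hij ?_,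
    fun i => ⟨(measurable_prodMk_left hZ).inter (h4 _ _), fun x hx => ?_, fun x hx =>
      ⟨(hL _ x hx.1).1.hasFDerivWithinAt, (hL _ x hx.1).2⟩⟩⟩
  · obtain ⟨m, hm⟩ := mem_iUnion.1 (h5 z.1 (show z.2 ∈ _ from hz))
    exact mem_iUnion.2 ⟨(z.1, m), rfl, hz, hm⟩
  · have := hz.2.1
    rwa [← show z.1 = i.1 from hz.1] at this
  · have e : i.1 = j.1 := (show z.1 = i.1 from hz.1).symm.trans hz'.1
    exact Prod.ext e (by_contra fun h => disjoint_left.1 (h3 i.1 h) hz.2.2 (e ▸ hz'.2.2))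
  · obtain ⟨y, hy, e⟩ := h7 i.1 ⟨x, hx.1⟩ i.2
    refine (hr _).2 _ _ (fun h => ?_) (h6 i.1 i.2) hx
    have := (hL _ y hy).2
    rw [← e, h, abs_zero, eq_comm, sq_eq_zero_iff, norm_eq_zero] at this
    exact (hφ _ hy).1 this

omit [Fintype ι] hZ hφ in
theorem bij_pieces {t : ℕ × ℕ → Set (ι → ℂ)} (e : Z = ⋃ i, {i.1} ×ˢ t i)
    (hd : Pairwise (Disjoint on fun i => ({i.1} : Set ℕ) ×ˢ t i)) (h : ∀ i, InjOn (φ i.1) (t i))
    (f : ι → ℂ) : BijOn (fun i => (i.1, invFunOn (φ i.1) (t i) f)) {i | f ∈ φ i.1 '' t i}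
      {z ∈ Z | φ z.1 z.2 = f} := by
  refine ⟨fun i hi => ⟨e ▸ mem_iUnion.2 ⟨i, rfl, invFunOn_mem hi⟩, invFunOn_eq hi⟩,
    fun i hi j hj e' => by_contra fun hij => disjoint_left.1 (hd hij)
      (mk_mem_prod rfl (invFunOn_mem hi)) ((show (_, _) = (_, _) from e').symm ▸
        mk_mem_prod rfl (invFunOn_mem hj)), fun z hz => ?_⟩
  obtain ⟨i, h1, h2⟩ := mem_iUnion.1 (e ▸ hz.1)
  obtain ⟨n, x⟩ := z
  obtain rfl : n = i.1 := h1
  exact ⟨i, ⟨x, h2, hz.2⟩, Prod.ext rfl (hz.2 ▸ (h i).leftInvOn_invFunOn h2)⟩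

theorem area_le {Q : Set (ι → ℂ)} (hQ : MeasurableSet Q) (h1 : ∀ z ∈ Z, φ z.1 z.2 ∈ Q) {d : ℕ}
    (h2 : ∀ᵐ f : ι → ℂ, {z ∈ Z | φ z.1 z.2 = f}.encard ≤ d) :
    ∫⁻ z in Z, ‖J z‖ₑ ^ 2 ∂mz ι ≤ d * volume Q := by
  obtain ⟨t, L, e, hd, ht⟩ := exists_pieces hZ hφ
  have hm := fun i => measurable_image_of_fderivWithin (ht i).1 (fun x hx => ((ht i).2.2 x hx).1)
    (ht i).2.1
  have h3 : ∀ i : ℕ × ℕ, ∫⁻ z in {i.1} ×ˢ t i, ‖J z‖ₑ ^ 2 ∂mz ι =
      ∫⁻ f, (φ i.1 '' t i).indicator 1 f := fun i => by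
    rw [mz_restrict, (measurableEmbedding_prodMk_left _).lintegral_map, lintegral_indicator (hm i),
      lintegral_image_eq_lintegral_abs_det_fderiv_mul _ (ht i).1 (fun x hx => ((ht i).2.2 x hx).1)
        (ht i).2.1]
    exact setLIntegral_congr_fun (ht i).1 fun x hx => by
      simp [((ht i).2.2 x hx).2, ENNReal.ofReal_pow]
  rw [e, lintegral_iUnion (fun i => (measurableSet_singleton _).prod (ht i).1) hd, tsum_congr h3,
    ← lintegral_tsum fun i => (measurable_one.indicator (hm i)).aemeasurable,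
    ← lintegral_indicator_one hQ, ← lintegral_const_mul _ (measurable_one.indicator hQ)]
  refine lintegral_mono_ae (h2.mono fun f hf => ?_)
  have h4 := bij_pieces e hd (fun i => (ht i).2.1) f
  have h5 : ∑' i, (φ i.1 '' t i).indicator (1 : (ι → ℂ) → ℝ≥0∞) f =
      {z ∈ Z | φ z.1 z.2 = f}.encard := by
    rw [← h4.image_eq, h4.injOn.encard_image, ← ENNReal.tsum_set_one, tsum_subtype _ fun _ => 1]
    rfl
  rw [h5]
  by_cases h : f ∈ Q
  · simpa [h] using ENat.toENNReal_le.2 hf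
  · rw [eq_empty_of_forall_notMem (s := {z ∈ Z | φ z.1 z.2 = f}) fun z hz =>
      h (hz.2 ▸ h1 z hz.1)]
    simp

theorem area_zero {h : ℕ × (ι → ℂ) → ℂ}
    (h2 : ∀ᵐ f : ι → ℂ, {z ∈ Z | φ z.1 z.2 = f}.Finite ∧
      ∑ᶠ z ∈ {z ∈ Z | φ z.1 z.2 = f}, h z = 0) :
    ∫ z in Z, h z * (J z * conj (J z)) ∂mz ι = 0 := by
  by_cases hi : IntegrableOn (fun z => h z * (J z * conj (J z))) Z (mz ι)
  swap
  · exact integral_undef hi
  obtain ⟨t, L, e, hd, ht⟩ := exists_pieces hZ hφ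
  have hL := fun i x hx => ((ht i).2.2 x hx).1
  have hm := fun i => measurable_image_of_fderivWithin (ht i).1 (hL i) (ht i).2.1
  have hm' := fun i : ℕ × ℕ => (measurableSet_singleton i.1).prod (ht i).1
  set G := fun (i : ℕ × ℕ) f => h (i.1, invFunOn (φ i.1) (t i) f)
  have h3 : ∀ i, EqOn (fun x => |(L i.1 x).det| • G i (φ i.1 x))
      (fun x => h (i.1, x) * (J (i.1, x) * conj (J (i.1, x)))) (t i) := fun i x hx => by
    simp only [G, (ht i).2.1.leftInvOn_invFunOn hx, ((ht i).2.2 x hx).2, Complex.mul_conj',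
      Complex.real_smul, Complex.ofReal_pow, mul_comm]
  have h4 : ∀ i, Integrable ((φ i.1 '' t i).indicator (G i)) := fun i => by
    have := hi.mono_set (e ▸ subset_iUnion (fun i : ℕ × ℕ => ({i.1} : Set ℕ) ×ˢ t i) i)
    rw [IntegrableOn, mz_restrict, (measurableEmbedding_prodMk_left _).integrable_map_iff] at this
    rw [integrable_indicator_iff (hm i), integrableOn_image_iff_integrableOn_abs_det_fderiv_smul _
      (ht i).1 (hL i) (ht i).2.1, integrableOn_congr_fun (h3 i) (ht i).1]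
    exact this
  rw [e] at hi ⊢
  have h5 := hasSum_integral_of_summable_integral_norm h4
    ((hasSum_integral_iUnion hm' hd hi.norm).summable.congr fun i => by
      simp only [norm_indicator_eq_indicator_norm]
      rw [mz_restrict, (measurableEmbedding_prodMk_left _).integral_map, integral_indicator (hm i),
        integral_image_eq_integral_abs_det_fderiv_smul _ (ht i).1 (hL i) (ht i).2.1]
      exact setIntegral_congr_fun (ht i).1 fun x hx => by
        simp only [← show _ = h (i.1, x) * _ from h3 i hx, norm_smul, Real.norm_eq_abs, abs_abs,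
          smul_eq_mul])
  rw [integral_congr_ae (g := fun _ => 0), integral_zero] at h5
  · refine (hasSum_integral_iUnion hm' hd hi).unique (h5.congr fun s =>
      Finset.sum_congr rfl fun i _ => ?_)
    beta_reduce
    rw [mz_restrict, (measurableEmbedding_prodMk_left _).integral_map, integral_indicator (hm i),
      integral_image_eq_integral_abs_det_fderiv_smul _ (ht i).1 (hL i) (ht i).2.1]
    exact setIntegral_congr_fun (ht i).1 (h3 i)
  refine h2.mono fun f hf => ?_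
  have h6 := bij_pieces e hd (fun i => (ht i).2.1) f
  rw [← hf.2, ← finsum_mem_eq_of_bijOn _ h6 fun _ _ => rfl, finsum_mem_def]
  exact tsum_eq_finsum ((hf.1.of_injOn h6.mapsTo h6.injOn).subset fun i hi => by_contra fun h =>
    hi (indicator_of_notMem (s := φ i.1 '' t i) h _))

end area

theorem lintegral_mul_sq_le {Z : Type} [MeasurableSpace Z] (μ : Measure Z) {a b : Z → ℂ}
    (ha : Measurable a) (hb : Measurable b) :
    (∫⁻ z, ‖a z‖ₑ * ‖b z‖ₑ ∂μ) ^ 2 ≤ (∫⁻ z, ‖a z‖ₑ ^ 2 ∂μ) * ∫⁻ z, ‖b z‖ₑ ^ 2 ∂μ := by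
  have h := pow_le_pow_left' (ENNReal.lintegral_mul_le_Lp_mul_Lq μ Real.HolderConjugate.two_two
    ha.enorm.aemeasurable hb.enorm.aemeasurable) 2
  rw [mul_pow, ← ENNReal.rpow_natCast (_ ^ (1 / 2 : ℝ)), ← ENNReal.rpow_natCast (_ ^ (1 / 2 : ℝ)),
    ← ENNReal.rpow_mul, ← ENNReal.rpow_mul] at h
  simpa using h

theorem an_zero {Z V 𝓘 Φ : Type} [MeasurableSpace Z] [MeasurableSpace V] [AddCommGroup V]
    [MeasurableSub₂ V] [Fintype 𝓘] [Fintype Φ] (μ : Measure Z) (ν : Measure V) [SFinite μ]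
    [IsFiniteMeasure ν] (Λ : Set V)
    (hν : ∀ f : V → ℝ≥0∞, (∀ m ∈ Λ, ∀ w, f (w + m) = f w) → ∀ c, ∫⁻ w, f (w - c) ∂ν = ∫⁻ w, f w ∂ν)
    (hν' : ∀ f : V → ℂ, (∀ m ∈ Λ, ∀ w, f (w + m) = f w) → ∀ c, ∫ w, f (w - c) ∂ν = ∫ w, f w ∂ν)
    {Ψ : Z → V} {τ : Φ → Z → ℂ} {m : 𝓘 → Φ → V → ℂ} (hΨ : Measurable Ψ)
    (hτ : ∀ φ, Measurable (τ φ)) (hm : ∀ I φ, Measurable (m I φ))
    (hp : ∀ I φ, ∀ l ∈ Λ, ∀ w, m I φ (w + l) = m I φ w) {W : Set V} (hW : ν W ≠ 0)
    (hs : ∀ w ∈ W, ∀ φ, ∃ c : 𝓘 → ℂ, ∀ z, τ φ z = ∑ I, c I * ∑ ψ, τ ψ z * m I ψ w)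
    (h1 : ∀ I, ∃ C : ℝ≥0∞, C ≠ ⊤ ∧
      ∀ᵐ y ∂ν, ∫⁻ z, ‖∑ ψ, τ ψ z * m I ψ (y - Ψ z)‖ₑ ^ 2 ∂μ ≤ C) (e : Φ → ℂ)
    (h2 : ∀ I (η : Φ → ℂ), ∀ᵐ y ∂ν, ∫ z, (∑ φ, e φ * τ φ z) * (∑ φ, η φ * m I φ (y - Ψ z)) *
      conj (∑ ψ, τ ψ z * m I ψ (y - Ψ z)) ∂μ = 0) :
    ∀ᵐ z ∂μ, ∑ φ, e φ * τ φ z = 0 := by
  set f := fun z => ∑ φ, e φ * τ φ z with hf
  set J := fun I z w => ∑ ψ, τ ψ z * m I ψ w with hJ
  have mf : Measurable f := by fun_prop
  have mJ : ∀ I, Measurable fun q : Z × V => J I q.1 q.2 := fun I => by simp only [hJ]; fun_prop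
  have mJ' : ∀ I w, Measurable fun z => J I z w := fun I w => by simp only [hJ]; fun_prop
  have msh : Measurable fun q : Z × V => (q.1, q.2 - Ψ q.1) := by fun_prop
  have sh : ∀ G : Z × V → ℝ≥0∞, Measurable G → (∀ z, ∀ l ∈ Λ, ∀ w, G (z, w + l) = G (z, w)) →
      ∫⁻ y, ∫⁻ z, G (z, y - Ψ z) ∂μ ∂ν = ∫⁻ w, ∫⁻ z, G (z, w) ∂μ ∂ν := fun G hG hG' => by
    rw [← lintegral_lintegral_swap (f := fun z y => G (z, y - Ψ z)) (hG.comp msh).aemeasurable,
      ← lintegral_lintegral_swap (f := fun z y => G (z, y)) hG.aemeasurable]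
    exact lintegral_congr fun z => hν (fun w => G (z, w)) (hG' z) _
  have k1 : ∀ I, ∫⁻ w, ∫⁻ z, ‖J I z w‖ₑ ^ 2 ∂μ ∂ν < ⊤ := fun I => by
    obtain ⟨C, hC, h⟩ := h1 I
    rw [← sh _ ((mJ I).enorm.pow_const 2) fun z l hl w => by simp only [hJ, hp I _ l hl]]
    refine (lintegral_mono_ae h).trans_lt ?_
    rw [lintegral_const]
    exact ENNReal.mul_lt_top hC.lt_top (measure_lt_top _ _)
  have k2 : ∀ᵐ w ∂ν, ∀ I, MemLp (fun z => J I z w) 2 μ := ae_all_iff.2 fun I =>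
    (ae_lt_top ((mJ I).enorm.pow_const 2).lintegral_prod_left' (k1 I).ne).mono fun w hw =>
      ⟨(mJ' I w).aestronglyMeasurable, (eLpNorm_lt_top_iff_lintegral_rpow_enorm_lt_top
        two_ne_zero ENNReal.ofNat_ne_top).2 (by simpa using hw)⟩
  have k3 : ∀ φ, MemLp (τ φ) 2 μ := fun φ => by
    obtain ⟨w, h3, h4⟩ := Measure.exists_mem_of_measure_ne_zero_of_ae hW (ae_restrict_of_ae k2)
    obtain ⟨c, hc⟩ := hs w h3 φ
    rw [funext hc]
    exact memLp_finsetSum _ fun I _ => (h4 I).const_mul _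
  have k4 : MemLp (fun z => conj (f z)) 2 μ :=
    (memLp_finsetSum _ fun φ _ => (k3 φ).const_mul _ : MemLp f 2 μ).star
  have k5 : ∀ φ, Integrable (fun z => conj (f z) * τ φ z) μ := fun φ => k4.integrable_mul (k3 φ)
  set η := fun φ => ∫ z, conj (f z) * τ φ z ∂μ with hη
  set P := fun I w => ∑ φ, η φ * m I φ w with hP
  have k6 : ∀ I w, ∫ z, conj (f z) * J I z w ∂μ = P I w := fun I w => by
    simp only [hJ, Finset.mul_sum, ← mul_assoc]
    rw [integral_finsetSum _ fun φ _ => (k5 φ).mul_const _]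
    simp only [integral_mul_const, hP, hη]
  have k7 : ∀ I, ∀ᵐ w ∂ν, P I w = 0 := fun I => by
    set G := fun q : Z × V => f q.1 * P I q.2 * conj (J I q.1 q.2) with hG
    have mG : Measurable G := ((mf.comp measurable_fst).mul (by simp only [hP]; fun_prop)).mul
      (Complex.continuous_conj.measurable.comp (mJ I))
    have pG : ∀ z, ∀ l ∈ Λ, ∀ w, G (z, w + l) = G (z, w) := fun z l hl w => by
      simp only [hG, hP, hJ, hp I _ l hl]
    have k8 : ∫⁻ w, ∫⁻ z, ‖G (z, w)‖ₑ ∂μ ∂ν < ⊤ := by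
      refine (lintegral_mono fun w => (?_ : _ ≤ (∫⁻ z, ‖f z‖ₑ ^ 2 ∂μ) *
        ∫⁻ z, ‖J I z w‖ₑ ^ 2 ∂μ)).trans_lt ?_
      · refine le_trans ?_ (lintegral_mul_sq_le μ mf (mJ' I w))
        simp only [hG, enorm_mul, RCLike.enorm_conj, mul_right_comm _ ‖P I w‖ₑ]
        rw [lintegral_mul_const' _ _ enorm_ne_top, sq, ← k6]
        exact mul_le_mul_right ((enorm_integral_le_lintegral_enorm _).trans (by simp)) _
      · have := (eLpNorm_lt_top_iff_lintegral_rpow_enorm_lt_top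
          two_ne_zero ENNReal.ofNat_ne_top).1 k4.2
        rw [lintegral_const_mul' _ _ (by simpa using this.ne)]
        exact ENNReal.mul_lt_top (by simpa using this) (k1 I)
    have i1 : Integrable G (μ.prod ν) := ⟨mG.aestronglyMeasurable, by
      rwa [HasFiniteIntegral, lintegral_prod_symm _ mG.enorm.aemeasurable]⟩
    have i2 : Integrable (fun q : Z × V => G (q.1, q.2 - Ψ q.1)) (μ.prod ν) :=
      ⟨(mG.comp msh).aestronglyMeasurable, by
        rwa [HasFiniteIntegral, lintegral_prod_symm (fun q : Z × V => ‖G (q.1, q.2 - Ψ q.1)‖ₑ)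
          (mG.comp msh).enorm.aemeasurable,
          sh _ mG.enorm fun z l hl w => by rw [pG z l hl]]⟩
    have k9 : ∀ w, ∫ z, G (z, w) ∂μ = ((‖P I w‖ ^ 2 : ℝ) : ℂ) := fun w => by
      rw [Complex.ofReal_pow, ← Complex.mul_conj', ← k6 I w, ← integral_conj, k6,
        ← integral_const_mul]
      exact integral_congr_ae (ae_of_all _ fun z => by simp [hG, mul_assoc, mul_left_comm])
    have k10 : ∫ w, ‖P I w‖ ^ 2 ∂ν = 0 := by
      rw [← Complex.ofReal_eq_zero, ← integral_complex_ofReal, ← funext k9,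
        ← integral_integral_swap (f := fun z w => G (z, w)) i1,
        ← funext fun z => hν' (fun w => G (z, w)) (pG z) (Ψ z),
        integral_integral_swap (f := fun z y => G (z, y - Ψ z)) i2]
      exact integral_eq_zero_of_ae (h2 I η)
    have i3 := i1.integral_prod_right
    simp only [k9] at i3
    exact ((integral_eq_zero_iff_of_nonneg (fun _ => sq_nonneg _) i3.re).1
      k10).mono fun w hw => by simpa using hw
  obtain ⟨w, h3, h4⟩ := Measure.exists_mem_of_measure_ne_zero_of_ae hW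
    (ae_restrict_of_ae ((ae_all_iff.2 k7).and k2))
  have k11 : ∀ φ, η φ = 0 := fun φ => by
    obtain ⟨c, hc⟩ := hs w h3 φ
    rw [show η φ = ∫ z, ∑ I, c I * (conj (f z) * J I z w) ∂μ from integral_congr_ae
      (ae_of_all _ fun z => by simp only [hc z, Finset.mul_sum _ _ (conj (f z)), mul_left_comm, hJ]),
      integral_finsetSum (f := fun I z => c I * (conj (f z) * J I z w)) _
        fun I _ => (k4.integrable_mul (h4.2 I)).const_mul _]
    exact Finset.sum_eq_zero fun I _ => by rw [integral_const_mul, k6, h4.1, mul_zero]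
  have k12 : ∫ z, ‖conj (f z)‖ ^ 2 ∂μ = 0 := by
    rw [← Complex.ofReal_eq_zero, ← integral_complex_ofReal, ← (show ∑ φ, e φ * η φ = 0 by simp [k11])]
    simp only [hη, ← integral_const_mul]
    rw [← integral_finsetSum _ fun φ _ => (k5 φ).const_mul _]
    exact integral_congr_ae (ae_of_all _ fun z => by
      simp only [mul_left_comm (e _), ← Finset.mul_sum]
      simpa using (Complex.conj_mul' (f z)).symm)
  exact ((integral_eq_zero_iff_of_nonneg (fun _ => sq_nonneg _)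
    ((memLp_two_iff_integrable_sq_norm k4.1).1 k4)).1 k12).mono fun z hz => by simpa using hz

end Pool.Agent.P.MP_f17f76_ag.E
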