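import Pool.Agent.P.MP_f17f76_ag.E.SimL
import Pool.Agent.P.MP_f17f76_ag.E.SimM

/-!
Generic points, fibres of the difference maps and analytic branches of a locus.
-/

namespace Pool.Agent.P.MP_f17f76_ag.AbVar

open Set Module E MeasureTheory Filter Topology

variable {g N : ℕ} {A : AbVar g N} {κ : Type} {k K : Subfield ℂ} {F : Set ℂ}
  {a p p' q y y' : Fin g → ℂ} {j : Fin N} {I : κ → Fin N} {f f' : κ → ℂ} {c : Fin N → ℂ}
  {σ : ℂ ≃+* ℂ}

/-- Generic points. -/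
def Gn (A : AbVar g N) (F : Set ℂ) (y : Fin g → ℂ) : Prop := g ≤ trd F (range (A.crd y))

/-- Conjugate points. -/
def Cj (A : AbVar g N) (F : Set ℂ) (a p : Fin g → ℂ) : Prop :=
  ∃ σ : ℂ ≃+* ℂ, (∀ x ∈ F, σ x = x) ∧ A.crd p = σ ∘ A.crd a

theorem fderiv_aff_comp_idx (hw : A.θ y j ≠ 0) (I : κ → Fin N) [Fintype κ] (v : Fin g → ℂ) :
    fderiv ℂ (fun w => A.aff j w ∘ I) y v = fderiv ℂ (A.aff j) y v ∘ I := by
  have := (ContinuousLinearMap.pi fun l => ContinuousLinearMap.proj (R := ℂ)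
    (φ := fun _ : Fin N => ℂ) (I l)).hasFDerivAt.comp y (aff_analytic hw).differentiableAt.hasFDerivAt
  exact congrArg (fun L => L v) this.fderiv

theorem ae_gn (A : AbVar g N) (hF : F.Countable) : ∀ᵐ y, A.Gn F y := by
  refine measure_null_of_locally_null _ fun w _ => ?_
  obtain ⟨i, hi, -⟩ := A.exists_aff w
  obtain ⟨e, he⟩ := exists_submatrix_det (LinearMap.toMatrix' (fderiv ℂ (A.aff i) w).toLinearMap)
    (by
      rw [← Matrix.coe_mulVecLin, ← Matrix.toLin'_apply', Matrix.toLin'_toMatrix']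
      refine (injective_iff_map_eq_zero _).2 fun v hv => ?_
      obtain ⟨t, ht⟩ := fderiv_aff_tm hi v
      exact congrArg Prod.fst ((injective_iff_map_eq_zero _).1 (A.tm_injective w (inv_ne_zero hi))
        _ (ht.symm.trans hv)))
  obtain ⟨U, h1, h2⟩ := null_preimage (φ := fun w => A.aff i w ∘ e) (x := w)
    (analyticAt_pi_iff.2 fun l => analyticAt_pi_iff.1 (aff_analytic hi) _)
    ((injective_iff_map_eq_zero _).2 fun v hv => Matrix.eq_zero_of_mulVec_eq_zero he (by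
      rw [← hv, fderiv_aff_comp_idx hi]
      exact funext fun l => congrFun (LinearMap.toMatrix'_mulVec _ v) (e l)))
    (ae_ind (ι := Fin g) hF)
  refine ⟨_, inter_mem_nhdsWithin _ h1, measure_mono_null
    (fun y hy => mem_inter hy.2 fun h => hy.1 ?_) h2⟩
  exact ((Fintype.card_fin g).symm.trans (Ind.trd_range h).symm).trans_le
    (trd_le (finite_range _) (forall_mem_range.2 fun l => aff_mem_acl F i _))

theorem exists_gn (A : AbVar g N) (hF : F.Countable) : ∃ y, A.Gn F y := (A.ae_gn hF).exists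

theorem Gn.anti {F' : Set ℂ} (h : A.Gn F' y) (hF : F ⊆ acl F') : A.Gn F y :=
  le_trans h (trd_anti (finite_range _) hF)

theorem Cj.trd_eq (h : A.Cj F a p) : trd F (range (A.crd p)) = trd F (range (A.crd a)) := by
  obtain ⟨σ, h1, h2⟩ := h
  rw [← trd_map (σ : ℂ →+* ℂ) (finite_range (A.crd a)), h2, range_comp]
  exact congrArg (trd · _) ((image_congr h1).trans (image_id' F)).symm

theorem comp_symm {ι : Type} {x x' : ι → ℂ} (h : x' = σ ∘ x) : x = σ.symm ∘ x' := by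
  simp [h, Function.comp_def]

theorem Cj.symm (h : A.Cj F a p) : A.Cj F p a :=
  have ⟨σ, h1, h2⟩ := h
  ⟨σ.symm, fun x hx => σ.symm_apply_eq.2 (h1 x hx).symm, comp_symm h2⟩

theorem Cj.trans (h : A.Cj F a p) (h' : A.Cj F p q) : A.Cj F a q :=
  have ⟨σ, h1, h2⟩ := h
  have ⟨τ, h3, h4⟩ := h'
  ⟨σ.trans τ, fun x hx => by simp [h1 x hx, h3 x hx], by rw [h4, h2]; rfl⟩

/-- The fibre of the difference map. -/
def Fib (A : AbVar g N) (F : Set ℂ) (a : Fin g → ℂ) (j : Fin N) (I : κ → Fin N) (y : Fin g → ℂ)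
    (f : κ → ℂ) : Set (Fin N → ℂ) :=
  {c | ∃ p, A.crd p = c ∧ A.Cj F a p ∧ A.θ (y - p) j ≠ 0 ∧ A.aff j (y - p) ∘ I = f}

/-- Generic base points of the difference map. -/
def Gd (A : AbVar g N) (F : Set ℂ) (y : Fin g → ℂ) (f : κ → ℂ) : Prop :=
  A.Gn F y ∧ Ind (F ∪ range (A.crd y)) f

section ov

variable (hA : A.Over k) (hk : (k : Set ℂ) ⊆ acl F)
include hA

theorem Over.trd_le_dim (hk : (k : Set ℂ) ⊆ acl F) (y : Fin g → ℂ) :
    trd F (range (A.crd y)) ≤ g := (hA.trd_crd_le hk isLie_top trivial).trans (by simp)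

theorem Over.sub_map (φ : ℂ →+* ℂ) (hφ : ∀ x ∈ k, φ x = x) (h₁ : A.crd y' = φ ∘ A.crd y)
    (h₂ : A.crd p' = φ ∘ A.crd p) : A.crd (y' - p') = φ ∘ A.crd (y - p) := by
  obtain ⟨u, -, hu⟩ := hA.exists_map isLie_top (w := y - p) trivial φ hφ
  have := hA.add_map φ hφ hu h₂
  rw [sub_add_cancel, ← h₁, crd_eq_iff, ← sub_sub, sub_right_comm] at this
  exact hu ▸ (A.crd_eq_iff.2 this).symm

theorem Over.fib_map (hk : (k : Set ℂ) ⊆ F) (hσ : ∀ x ∈ F, σ x = x) (hy : A.crd y' = σ ∘ A.crd y)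
    (hf : f' = σ ∘ f) : MapsTo (σ ∘ ·) (A.Fib F a j I y f) (A.Fib F a j I y' f') := by
  rintro _ ⟨p, rfl, h1, h2, rfl⟩
  obtain ⟨u, -, hu⟩ := hA.exists_map isLie_top (w := p) trivial σ fun x hx => hσ x (hk hx)
  have := hA.sub_map σ (fun x hx => hσ x (hk hx)) hy hu
  exact ⟨u, hu, h1.trans ⟨σ, hσ, hu⟩, (theta_map _ this).2 h2,
    hf ▸ funext fun l => aff_map _ this _ _⟩

theorem Over.fib_bij (hk : (k : Set ℂ) ⊆ F) (hσ : ∀ x ∈ F, σ x = x) (hy : A.crd y' = σ ∘ A.crd y)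
    (hf : f' = σ ∘ f) : BijOn (σ ∘ ·) (A.Fib F a j I y f) (A.Fib F a j I y' f') :=
  InvOn.bijOn (f' := (σ.symm ∘ ·)) ⟨fun _ _ => (comp_symm rfl).symm, fun _ _ => by
    simp [Function.comp_def]⟩ (hA.fib_map hk hσ hy hf) (hA.fib_map hk
      (fun x hx => σ.symm_apply_eq.2 (hσ x hx).symm) (comp_symm hy) (comp_symm hf))

include hk

theorem Over.gn_surj (h : A.Gn F y) (v : Fin g → ℂ) : ∃ D ∈ kil F, A.dl y D = v :=
  surj_of_kil _ (finite_range _) (fun _ hD => hA.dl_eq_zero_iff (kil_le hk hD))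
    (by simpa [Gn] using h) v

theorem Over.gn_conj (hF : F.Countable) (h : A.Gn F y) (h' : A.Gn F y') : A.Cj (acl F) y y' :=
  hA.gen_conj hF hk isLie_top trivial trivial (by simpa [Gn] using h) (by simpa [Gn] using h')

variable [Fintype κ]

omit hA hk in
theorem Gd.le_trd (h : A.Gd F y f) : g + Fintype.card κ ≤ trd F (range (A.crd y) ∪ range f) := by
  rw [trd_union (finite_range _) (finite_range _), h.2.trd_range]
  exact Nat.add_le_add_right h.1 _

omit hA hk in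
theorem Gd.gn (h : A.Gd F y f) : A.Gn (F ∪ range f) y := by
  have h1 := h.le_trd
  rw [union_comm, trd_union (finite_range _) (finite_range _)] at h1
  have := trd_range_le (F := F) f
  unfold Gn
  omega

variable (hle : trd F (range (A.crd a)) ≤ Fintype.card κ) (h : A.Gd F y f) (h1 : A.Cj F a p)
  (h2 : A.aff j (y - p) ∘ I = f)
include hle h h1 h2

theorem Over.fib_trd : A.Gn (F ∪ range (A.crd p)) y ∧
    range (A.crd p) ⊆ acl (F ∪ (range (A.crd y) ∪ range f)) := by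
  have hy := finite_range (A.crd y)
  have hp := finite_range (A.crd p)
  have h3 : range (A.crd y) ∪ range f ∪ range (A.crd p) ⊆
      acl (F ∪ (range (A.crd p) ∪ range (A.crd y))) := by
    refine union_subset (union_subset (fun x hx => mem_acl_of_mem (Or.inr (Or.inr hx)))
      (forall_mem_range.2 fun l => h2 ▸ aff_mem (fun i => hA.crd_sub_acl
        (hk.trans (acl_mono subset_union_left)) (fun x hx => mem_acl_of_mem (Or.inr (Or.inr hx)))
        (fun x hx => mem_acl_of_mem (Or.inr (Or.inl hx))) ⟨i, rfl⟩) _ _))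
      fun x hx => mem_acl_of_mem (Or.inr (Or.inl hx))
  have h4 := trd_le (hp.union hy) h3
  rw [trd_union hp hy, trd_union (hy.union (finite_range _)) hp, h1.trd_eq] at h4
  have h5 := h.le_trd
  have h6 := hA.trd_le_dim (hk.trans (acl_mono (subset_union_left (t := range (A.crd p))))) y
  exact ⟨by unfold Gn; omega, (trd_eq_zero_iff hp).1 (by omega)⟩

end ov

variable [Fintype κ] (hA : A.Over k) (hk : (k : Set ℂ) ⊆ F) (hF : F.Countable)
  (hle : trd F (range (A.crd a)) ≤ Fintype.card κ)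
include hA hk hF hle

theorem Over.fib_conj {c' : Fin N → ℂ} (h : A.Gd F y f) (h' : A.Gd F y' f')
    (hc : c ∈ A.Fib F a j I y f) (hc' : c' ∈ A.Fib F a j I y' f') : ∃ σ : ℂ ≃+* ℂ,
      (∀ x ∈ F, σ x = x) ∧ c' = σ ∘ c ∧ A.crd y' = σ ∘ A.crd y ∧ f' = σ ∘ f := by
  obtain ⟨p, rfl, h1, -, h2⟩ := hc
  obtain ⟨p', rfl, h1', -, h2'⟩ := hc'
  have hk' := hk.trans (subset_acl F)
  obtain ⟨σ, h3, h4⟩ := h1.symm.trans h1'
  obtain ⟨u, -, hu⟩ := hA.exists_map isLie_top (w := y) trivial σ fun x hx => h3 x (hk hx)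
  have h5 : A.Gn (F ∪ range (A.crd p')) u := by
    have := (hA.fib_trd hk' hle h h1 h2).1
    rwa [Gn, ← trd_map (σ : ℂ →+* ℂ) (finite_range _), image_union, ← range_comp, ← range_comp,
      ← hu, ← show _ = (σ : ℂ →+* ℂ) ∘ _ from h4, 
      show (σ : ℂ →+* ℂ) '' F = F from (image_congr h3).trans (image_id' F)] at this
  obtain ⟨τ, h6, h7⟩ := hA.gn_conj (hk'.trans (acl_mono subset_union_left))
    (hF.union (countable_range _)) h5 (hA.fib_trd hk' hle h' h1' h2').1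
  have h8 : ∀ x ∈ F, (σ.trans τ) x = x := fun x hx => by
    simp [h3 x hx, h6 x (mem_acl_of_mem (Or.inl hx))]
  have h9 : A.crd p' = σ.trans τ ∘ A.crd p := funext fun i =>
    (h6 _ (mem_acl_of_mem (Or.inr ⟨i, rfl⟩))).symm.trans (congrArg τ (congrFun h4 i))
  have h10 : A.crd y' = σ.trans τ ∘ A.crd y := by rw [h7, hu]; rfl
  exact ⟨σ.trans τ, h8, h9, h10, h2 ▸ h2' ▸ funext fun l => aff_map _
    (hA.sub_map (σ.trans τ) (fun x hx => h8 x (hk hx)) h10 h9) _ _⟩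

theorem Over.fib_finite (h : A.Gd F y f) : (A.Fib F a j I y f).Finite := by
  rcases (A.Fib F a j I y f).eq_empty_or_nonempty with e | ⟨c, hc⟩
  · exact e ▸ finite_empty
  have h1 : ∀ i, c i ∈ acl (Subfield.closure (F ∪ (range (A.crd y) ∪ range f)) : Set ℂ) := by
    obtain ⟨p, rfl, h1, -, h2⟩ := hc
    exact fun i => (acl_closure _).ge <| (hA.fib_trd (hk.trans (subset_acl F)) hle h h1 h2).2 ⟨i, rfl⟩
  choose Q h2 h3 h4 using fun i => exists_apoly (h1 i)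
  refine (Finite.pi' fun i => Polynomial.finite_setOfPred_isRoot (h2 i)).subset fun c' hc' i => ?_
  obtain ⟨σ, h5, rfl, h6, h7⟩ := hA.fib_conj hk hF hle h h hc hc'
  have h8 : (Q i).map (σ : ℂ →+* ℂ) = Q i := Polynomial.ext fun n => by
    rw [Polynomial.coeff_map]
    refine RingHom.eqOn_field_closure (g := RingHom.id ℂ) ?_ (h3 i n)
    rintro x (hx | ⟨l, rfl⟩ | ⟨l, rfl⟩)
    exacts [h5 x hx, (congrFun h6 l).symm, (congrFun h7 l).symm]
  have := congrArg (σ : ℂ →+* ℂ) (h4 i)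
  rwa [← Polynomial.eval_map_apply, h8, map_zero] at this

theorem Over.fib_bound (j : Fin N) (I : κ → Fin N) :
    ∃ d : ℕ, ∀ y f, A.Gd F y f → (A.Fib F a j I y f).encard ≤ d := by
  by_cases h : ∃ y f, A.Gd F y f ∧ (A.Fib F a j I y f).Nonempty
  · obtain ⟨y, f, h1, c, hc⟩ := h
    refine ⟨(A.Fib F a j I y f).ncard, fun y' f' h' => ?_⟩
    rcases (A.Fib F a j I y' f').eq_empty_or_nonempty with e | ⟨c', hc'⟩
    · simp [e]
    obtain ⟨σ, h2, -, h3, h4⟩ := hA.fib_conj hk hF hle h1 h' hc hc'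
    have := hA.fib_bij (a := a) (j := j) (I := I) hk h2 h3 h4
    rw [(hA.fib_finite hk hF hle h1).cast_ncard_eq, ← this.image_eq, this.injOn.encard_image]
  · exact ⟨0, fun y f h' => by simp [not_nonempty_iff_eq_empty.1 fun e => h ⟨y, f, h', e⟩]⟩

omit hk hF hle in
/-- A local branch of the locus of `a` through a conjugate. -/
theorem Over.exists_branch (hk : k ≤ K) (hK : (K : Set ℂ).Countable) (hi : A.θ p j ≠ 0)
    (h1 : AlgebraicIndependent K (A.aff j p ∘ I))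
    (h2 : ∀ i, A.crd p i ∈ acl (K ∪ range (A.aff j p ∘ I))) :
    ∃ (U : Set (κ → ℂ)) (w : (κ → ℂ) → Fin g → ℂ), IsOpen U ∧ A.aff j p ∘ I ∈ U ∧ Measurable w ∧
      (∀ u ∈ U, A.Lg K u j w ∧ A.aff j (w u) ∘ I = u ∧
        (AlgebraicIndependent K u → A.Cj K p (w u))) ∧
      ∀ᶠ c in 𝓝 (A.aff j p), ∀ q, A.Cj K p q → A.aff j q = c →
        c ∘ I ∈ U ∧ A.aff j (w (c ∘ I)) = c := by
  classical
  set x := A.aff j p ∘ I with hx
  obtain ⟨w, l, hw⟩ := hA.exists_lg hk h1 hi h2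
  have h3 : ∀ᶠ u in 𝓝 x, (AnalyticAt ℂ w u ∧ A.θ (w u) j ≠ 0) ∧
      (∀ i, KN K u fun u => A.aff j (w u) i) ∧ ∀ m, A.aff j (w u) (I m) = u m :=
    l.eventually.and ((eventually_all.2 fun i => (l.kn i).eventually).and (eventually_all.2
      fun m => (l.kn _).eq (kn_coord m) h1 (by rw [hw]; rfl)))
  obtain ⟨ε, hε, h4⟩ := Metric.eventually_nhds_iff_ball.1 h3
  have h5 : ∀ u ∈ Metric.ball x ε, (Metric.ball x ε).piecewise w 0 =ᶠ[𝓝 u] w := fun u hu =>
    eventually_of_mem (Metric.isOpen_ball.mem_nhds hu) fun _ h => piecewise_eq_of_mem _ _ _ h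
  have h6 : ∀ u ∈ Metric.ball x ε, ∀ u' ∈ Metric.ball x ε, AlgebraicIndependent K u →
      ∀ Q : MvPolynomial (Fin N) K, MvPolynomial.aeval (A.aff j (w u)) Q = 0 →
        MvPolynomial.aeval (A.aff j (w u')) Q = 0 := fun u hu u' hu' h Q hQ =>
    AnalyticOnNhd.eqOn_zero_of_preconnected_of_eventuallyEq_zero
      (f := fun u => MvPolynomial.aeval (A.aff j (w u)) Q)
      (fun v hv => (kn_aeval le_rfl Q (h4 v hv).2.1).1) (convex_ball x ε).isPreconnected hu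
      ((kn_aeval le_rfl Q (h4 u hu).2.1).eq_zero h hQ) hu'
  have hxb := Metric.mem_ball_self (x := x) hε
  refine ⟨Metric.ball x ε, (Metric.ball x ε).piecewise w 0, Metric.isOpen_ball, hxb,
    ContinuousOn.measurable_piecewise (fun u hu => (h4 u hu).1.1.continuousAt.continuousWithinAt)
      continuousOn_const measurableSet_ball, fun u hu => ?_, ?_⟩
  · rw [(h5 u hu).self_of_nhds]
    refine ⟨⟨(h4 u hu).1.1.congr (h5 u hu).symm, (h5 u hu).self_of_nhds ▸ (h4 u hu).1.2, fun i =>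
      ((h4 u hu).2.1 i).congr ((h5 u hu).mono fun v hv => by simp only [hv])⟩,
      funext (h4 u hu).2.2, fun h => ?_⟩
    have := hK.to_subtype
    obtain ⟨σ, hσ⟩ := exists_equiv_of_ker rfl (MvPolynomial.aeval (R := K) (A.aff j (w x))).toRingHom
      (MvPolynomial.aeval (R := K) (A.aff j (w u))).toRingHom
      fun Q => ⟨h6 x hxb u hu h1 Q, h6 u hu x hxb h Q⟩
    refine ⟨σ, fun c hc => by simpa using! hσ (MvPolynomial.C ⟨c, hc⟩), ?_⟩
    rw [← nrm_aff (h4 u hu).1.2, ← nrm_aff hi, ← hw]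
    exact (congrArg nrm (funext fun i => by simpa using (hσ (MvPolynomial.X i)).symm)).trans
      (nrm_map (σ : ℂ →+* ℂ) _)
  choose H h7 h8 h9 using fun i => exists_sep h1 (c := A.aff j p i) (aff_mem h2 j i)
  have t1 : Tendsto (fun c : Fin N → ℂ => c ∘ I) (𝓝 (A.aff j p)) (𝓝 x) :=
    (continuous_pi fun m => continuous_apply (I m)).tendsto _
  have h10 : ∀ i, ∀ᶠ c in 𝓝 (A.aff j p), pev (H i) (c ∘ I) (c i) = 0 →
      A.aff j (w (c ∘ I)) i = c i := fun i => by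
    obtain ⟨b, k1, k2, k3, k4⟩ := chart_root ((H i).map (MvPolynomial.map K.subtype)) x _ (h8 i)
      (by rw [Polynomial.derivative_map]; exact h9 i)
    filter_upwards [t1.eventually ((l.kn i).eq (kn_iff.2 ⟨k1, _, h7 i, k3⟩) h1 (by rw [hw, k2])),
      (t1.prodMk_nhds ((continuous_apply i).tendsto _)).eventually k4] with c k5 k6 k7
    exact k5.trans (k6 k7)
  filter_upwards [t1.eventually (Metric.ball_mem_nhds x hε), eventually_all.2 h10] with c k1 k2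
  rintro q ⟨σ, k3, k4⟩ rfl
  refine ⟨k1, funext fun i => ?_⟩
  rw [(h5 _ k1).self_of_nhds]
  refine k2 i ?_
  obtain ⟨Q, hQ⟩ := (MvPolynomial.optionEquivLeft K κ).surjective (H i)
  have k5 := congrArg (σ : ℂ →+* ℂ) (h8 i)
  rw [← hQ, pev_option] at k5 ⊢
  rw [map_zero, ← eval_map_sub, (cf_map Q).map_eval _ k3, eval_map_sub] at k5
  refine Eq.trans (congrArg (MvPolynomial.aeval · Q) (funext fun o => ?_)) k5
  cases o
  exacts [aff_map _ k4 _ _, aff_map _ k4 _ _]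

omit hk hF hle in
/-- The generic points of the locus of `a` are parametrised by countably many branches. -/
theorem Over.exists_branches (hk : k ≤ K) (hK : (K : Set ℂ).Countable) (hi : A.θ a j ≠ 0)
    (h1 : AlgebraicIndependent K (A.aff j a ∘ I))
    (h2 : ∀ i, A.crd a i ∈ acl (K ∪ range (A.aff j a ∘ I))) :
    ∃ (Z : Set (ℕ × (κ → ℂ))) (Ψ : ℕ → (κ → ℂ) → Fin g → ℂ), MeasurableSet Z ∧ mz κ Z ≠ 0 ∧
      (∀ n, Measurable (Ψ n)) ∧ (∀ z ∈ Z, AlgebraicIndependent K z.2 ∧ A.Lg K z.2 j (Ψ z.1) ∧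
        A.Cj K a (Ψ z.1 z.2)) ∧ InjOn (fun z : ℕ × (κ → ℂ) => A.crd (Ψ z.1 z.2)) Z ∧
      ∀ p, A.Cj K a p → ∃ z ∈ Z, A.crd (Ψ z.1 z.2) = A.crd p := by
  have h3 : ∀ p, A.Cj K a p → A.θ p j ≠ 0 ∧ AlgebraicIndependent K (A.aff j p ∘ I) ∧
      ∀ i, A.crd p i ∈ acl (K ∪ range (A.aff j p ∘ I)) := by
    rintro p ⟨σ, h3, h4⟩
    have e1 : (σ : ℂ →+* ℂ) '' K = K := (image_congr h3).trans (image_id' _)
    have e2 : A.aff j p ∘ I = (σ : ℂ →+* ℂ) ∘ A.aff j a ∘ I := funext fun l => aff_map _ h4 _ _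
    refine ⟨(theta_map (σ : ℂ →+* ℂ) h4).2 hi, ?_, fun i => ?_⟩
    · have := (ind_map (σ : ℂ →+* ℂ) (F := K)).2 (by rwa [Ind, Subfield.closure_eq])
      rwa [e1, ← e2, Ind, Subfield.closure_eq] at this
    · rw [e2, range_comp, ← e1, ← image_union, h4]
      exact (mem_acl_map _).2 (h2 i)
  have h0 : A.Cj K a a := ⟨RingEquiv.refl ℂ, fun _ _ => rfl, rfl⟩
  have : Nonempty {p // A.Cj K a p} := ⟨⟨a, h0⟩⟩
  choose U w k1 k2 k3 k4 k5 using fun p : {p // A.Cj K a p} =>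
    hA.exists_branch hk hK (h3 _ p.2).1 (h3 _ p.2).2.1 (h3 _ p.2).2.2
  obtain ⟨s, hs, k6⟩ := TopologicalSpace.isOpen_iUnion_countable
    (fun p : {p // A.Cj K a p} => interior {c | ∀ q, A.Cj K p q → A.aff j q = c →
      c ∘ I ∈ U p ∧ A.aff j (w p (c ∘ I)) = c}) fun _ => isOpen_interior
  have k7 : ∀ q, A.Cj K a q → ∃ p ∈ s, A.aff j q ∘ I ∈ U p ∧
      A.aff j (w p (A.aff j q ∘ I)) = A.aff j q := fun q hq => by
    obtain ⟨p, hp, h⟩ := mem_iUnion₂.1 (k6.ge (mem_iUnion.2 ⟨⟨q, hq⟩,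
      mem_interior_iff_mem_nhds.2 (k5 _)⟩))
    exact ⟨p, hp, interior_subset h q (p.2.symm.trans hq) rfl⟩
  obtain ⟨e, he⟩ := hs.exists_eq_range (by
    obtain ⟨p, hp, -⟩ := k7 a h0
    exact ⟨p, hp⟩)
  have hI : ∀ u : κ → ℂ, Ind (K : Set ℂ) u ↔ AlgebraicIndependent K u := fun u => by
    rw [Ind, Subfield.closure_eq]
  have hG : MeasurableSet {u : κ → ℂ | AlgebraicIndependent K u} := by
    simpa only [hI] using measurableSet_ind (ι := κ) hK
  set B := fun m n => {u | u ∈ U (e m) ∧ w (e n) u - w (e m) u ∈ (A.Λ : Set (Fin g → ℂ))}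
  have hB : ∀ m n, MeasurableSet (B m n) := fun m n => (k1 _).measurableSet.inter
    ((k3 _).sub (k3 _) A.countable_lattice.measurableSet)
  set S := fun n => ({u | AlgebraicIndependent K u} ∩ U (e n)) \ ⋃ m < n, B m n
  have hS : ∀ n, MeasurableSet (S n) := fun n => (hG.inter (k1 _).measurableSet).diff
    (MeasurableSet.biUnion (to_countable _) fun m _ => hB m n)
  refine ⟨{z | z.2 ∈ S z.1}, fun n => w (e n), measurable_from_prod_countable_right
    (f := fun z : ℕ × (κ → ℂ) => z.2 ∈ S z.1) (fun n => (hS n).mem) (measurableSet_singleton True)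
    |> fun h => by simpa [preimage] using h, fun h => ?_, fun n => k3 _, fun z hz =>
      ⟨hz.1.1, (k4 _ _ hz.1.2).1, (e z.1).2.trans ((k4 _ _ hz.1.2).2.2 hz.1.1)⟩, ?_, fun q hq => ?_⟩
  · have h4 : volume (S 0) = 0 := by
      have := measure_mono_null (show {0} ×ˢ S 0 ⊆ _ by rintro ⟨_, u⟩ ⟨rfl, hu⟩; exact hu) h
      simpa using this
    refine ((k1 (e 0)).measure_pos volume ⟨_, k2 _⟩).ne' (measure_mono_null (fun u hu => ?_)
      (measure_union_null h4 (ae_ind (ι := κ) hK)))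
    by_cases h : AlgebraicIndependent K u
    · exact Or.inl ⟨⟨h, hu⟩, by simp⟩
    · exact Or.inr fun h' => h ((hI u).1 h')
  · rintro ⟨n, u⟩ hu ⟨m, u'⟩ hu' h
    obtain rfl : u = u' := (k4 _ _ hu.1.2).2.1.symm.trans
      ((congrArg (· ∘ I) (aff_congr h j)).trans (k4 _ _ hu'.1.2).2.1)
    refine Prod.ext (by_contra fun hne => ?_) rfl
    rcases lt_or_gt_of_ne hne with h' | h'
    · exact hu'.2 (mem_iUnion₂.2 ⟨n, h', hu.1.2, A.crd_eq_iff.1 h⟩)
    · exact hu.2 (mem_iUnion₂.2 ⟨m, h', hu'.1.2, A.crd_eq_iff.1 h.symm⟩)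
  · classical
    have h4 : ∃ n, A.aff j q ∘ I ∈ U (e n) ∧ A.crd (w (e n) (A.aff j q ∘ I)) = A.crd q := by
      obtain ⟨p, hp, h5, h6⟩ := k7 q hq
      obtain ⟨n, rfl⟩ := he.le hp
      exact ⟨n, h5, by rw [← nrm_aff (k4 _ _ h5).1.ne, h6, nrm_aff (h3 q hq).1]⟩
    refine ⟨(Nat.find h4, _), ⟨⟨(h3 q hq).2.1, (Nat.find_spec h4).1⟩, fun h => ?_⟩,
      (Nat.find_spec h4).2⟩
    obtain ⟨m, h5, h6, h7⟩ := mem_iUnion₂.1 h
    exact Nat.find_min h4 h5 ⟨h6, (A.crd_eq_iff.2 h7).trans (Nat.find_spec h4).2⟩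

end Pool.Agent.P.MP_f17f76_ag.AbVar
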