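import Pool.Agent.P.MP_f17f76_ag.E.Tch
import Pool.Agent.P.MP_f17f76_ag.E.Minor

/-!
Determinant identities and fixed elements.
-/

namespace Pool.Agent.P.MP_f17f76_ag.E

open Set Matrix

variable {K R : Type} [Field K] [Field R] {ι κ : Type}

theorem der_prod_upd [DecidableEq ι] (D : Der K) (s : Finset ι) (f : ι → K) :
    D (∏ i ∈ s, f i) = ∑ l ∈ s, ∏ i ∈ s, Function.update f l (D (f l)) i := by
  induction s using Finset.induction_on with
  | empty => simp
  | insert a s ha ih =>
    rw [Finset.prod_insert ha, D.leibniz, ih, Finset.sum_insert ha, Finset.prod_insert ha,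
      Function.update_self, Finset.prod_update_of_notMem ha, smul_eq_mul, smul_eq_mul, add_comm,
      mul_comm, Finset.mul_sum]
    exact congrArg _ (Finset.sum_congr rfl fun l hl => by
      rw [Finset.prod_insert ha, Function.update_of_ne fun e : a = l => ha (e ▸ hl)])

variable [Fintype κ] [DecidableEq κ]

theorem der_det (D : Der K) (M : Matrix κ κ K) :
    D M.det = ∑ l, (M.updateCol l fun j => D (M j l)).det := by
  simp only [det_apply', map_sum, D.leibniz, Derivation.map_intCast, mul_zero, add_zero,
    smul_eq_mul, der_prod_upd, Finset.mul_sum]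
  rw [Finset.sum_comm]
  refine Finset.sum_congr rfl fun l _ => Finset.sum_congr rfl fun σ _ => congrArg _
    (Finset.prod_congr rfl fun i _ => ?_)
  by_cases h : i = l
  · simp [h]
  · simp [h]

/-- The wedge product of closed forms is closed. -/
theorem piola [CharZero K] (D : Der K) (δ : κ → Der K) (M : Matrix κ κ K) (b : κ → K)
    (h1 : ∀ j l, D (M j l) = δ l (b j)) (h2 : ∀ j l m, δ l (M j m) = δ m (M j l)) :
    D M.det = ∑ l, δ l (M.updateCol l b).det := by
  set g := fun l m => if m = l then 0 else
    ((M.updateCol l b).updateCol m fun j => δ l (M j m)).det with hg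
  have h3 : ∀ l m, g l m = -g m l := fun l m => by
    by_cases h : m = l
    · simp [hg, h]
    simp only [hg, if_neg h, if_neg (Ne.symm h)]
    rw [← neg_one_mul, show (-1 : K) = Equiv.Perm.sign (Equiv.swap l m) by
      simp [Equiv.Perm.sign_swap (Ne.symm h)], ← det_permute']
    congr 1
    ext j n
    by_cases h4 : n = m
    · simp [h4, h2 j l m]
    · by_cases h5 : n = l
      · simp [h5, h, Ne.symm h]
      · simp [h4, h5, Equiv.swap_apply_of_ne_of_ne h5 h4]
  have h4 : ∑ l, ∑ m, g l m = 0 := by
    refine self_eq_neg.1 (Finset.sum_comm.trans ?_)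
    simp only [← Finset.sum_neg_distrib, ← h3]
  rw [der_det, ← add_zero (∑ l, _), ← h4, ← Finset.sum_add_distrib]
  refine Finset.sum_congr rfl fun l _ => ?_
  rw [der_det, ← Finset.add_sum_erase _ _ (Finset.mem_univ l),
    ← Finset.add_sum_erase _ _ (Finset.mem_univ l), updateCol_idem]
  simp only [hg, if_true, zero_add, updateCol_self, h1]
  exact congrArg _ (Finset.sum_congr rfl fun m hm => by
    simp only [if_neg (Finset.ne_of_mem_erase hm), updateCol_ne (Finset.ne_of_mem_erase hm)])

/-- A rank one perturbation with a logarithmic pole. -/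
theorem v_det_rank_one {P : Plc K R} {B : Matrix κ κ K} {w c : κ → K} {u : K}
    (hB : ∀ j l, P.v (B j l) ≤ 1) (hw : ∀ j, P.v (u * w j) < 1) (hc : ∀ l, P.v (c l) ≤ 1)
    (hu : P.v u < 1) : P.v (u * (of fun j l => B j l + c l * w j).det) < 1 := by
  set M := fromBlocks B (of fun j (_ : Unit) => w j) (of fun (_ : Unit) l => -c l) 1
  have h1 := det_mul_row (Sum.elim (fun _ => 1) fun _ => u) M
  rw [det_fromBlocks_one₂₂, Fintype.prod_sum_type] at h1
  have h2 := Plc.v_det_le (P := P) (M := of fun i j => Sum.elim (fun _ => 1) (fun _ => u) j * M i j)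
    (by rintro (i | i) (j | j) <;> simp [M, hB, hc, hu.le, -map_mul, (hw _).le])
  rw [det_eq_zero_of_column_eq_zero (.inr ()) (A := Matrix.map _ _) (by
    rintro (i | i) <;> simp [M, Plc.r_of_lt hu, Plc.r_of_lt (hw _)]), h1] at h2
  convert (Plc.r_eq_zero_iff h2.1).1 h2.2 using 4
  · simp
  · ext j l
    simp [mul_apply, mul_comm]

open Classical in
/-- The symmetric form of the formula of Cauchy and Binet. -/
theorem det_mul_symm [Fintype ι] (M : Matrix κ ι K) (T : Matrix ι κ K) :
    ∑ φ : κ → ι, (T.submatrix φ id).det * (M.submatrix id φ).det =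
      (Fintype.card κ).factorial * (M * T).det := by
  simp only [det_apply' (T.submatrix _ _), Finset.sum_mul]
  rw [Finset.sum_comm, ← Fintype.card_perm, ← nsmul_eq_mul, ← Finset.card_univ, ← Finset.sum_const]
  refine Finset.sum_congr rfl fun σ _ => ?_
  rw [det_mul_sum]
  refine Fintype.sum_equiv (Equiv.arrowCongr σ.symm (Equiv.refl ι)) _ _ fun φ => ?_
  change _ = (∏ l, T (φ (σ l)) l) * ((M.submatrix id φ).submatrix id σ).det
  rw [det_permute', ← mul_assoc, mul_comm (∏ _, _)]
  rfl

/-- An element fixed by all automorphisms over a countable subfield lies in it. -/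
theorem mem_of_fixed [IsAlgClosed K] [CharZero K] [Uncountable K] {M : Subfield K}
    (hM : (M : Set K).Countable) {x : K} (h : ∀ σ : K ≃+* K, (∀ a ∈ M, σ a = a) → σ x = x) :
    x ∈ M := by
  by_cases h1 : x ∈ acl (M : Set K)
  · have := isGalois_acl M
    obtain ⟨a, ha⟩ := (InfiniteGalois.mem_range_algebraMap_iff_fixed (k := M)
      (⟨x, mem_algebraicClosure_iff.2 (mem_acl_subfield.1 h1)⟩ : algebraicClosure M K)).2
      fun σ => by
        obtain ⟨τ, h2, h3⟩ := exists_aut_gal M σ
        exact Subtype.ext ((h3 _).symm.trans (h τ h2))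
    exact (show (a : K) = x from congrArg Subtype.val ha) ▸ a.2
  · obtain ⟨σ, h2, h3⟩ := exists_equiv_ind rfl (RingHom.id K) hM (ind_const.2 h1)
      (w := fun _ => x + 1) (ind_const.2 fun e => h1 (by
        simpa using sub_mem e (one_mem _)))
    simpa using (h σ fun a ha => h2 a (subset_acl _ ha)).symm.trans (h3 ())

end Pool.Agent.P.MP_f17f76_ag.E
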