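import Pool.Agent.P.MP_f17f76_ag.E.SimB
import Pool.Agent.P.MP_f17f76_ag.E.AxL

/-!
Traces of invariant forms have no poles.
-/

namespace Pool.Agent.P.MP_f17f76_ag.AbVar

open Set Module E

variable {g N : ℕ} {A : AbVar g N} {κ : Type} {k K : Subfield ℂ} {F : Set ℂ}
  {a b p y : Fin g → ℂ} {j : Fin N} {I : κ → Fin N} {f : κ → ℂ} {θ : κ → Fin g → ℂ} {T : ℂ}
  {Q : Plc ℂ ℂ}

theorem _root_.Pool.Agent.P.MP_f17f76_ag.E.subset_acl_of_trd {S S' : Set ℂ} (hS : S.Finite)
    (hS' : S'.Finite) (h : S' ⊆ acl (F ∪ S)) (h' : trd F S ≤ trd F S') : S ⊆ acl (F ∪ S') := by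
  have := trd_le hS (union_subset h fun x hx => mem_acl_of_mem (Or.inr hx))
  rw [trd_union hS' hS] at this
  exact (trd_eq_zero_iff hS).1 (by omega)

/-- A nonconstant function has a pole along a divisor. -/
theorem Over.exists_pole (hA : A.Over k) (hk : (k : Set ℂ) ⊆ acl F) (hF : F.Countable)
    (hy : A.Gn F y) (h1 : T ∈ acl (F ∪ range (A.crd y))) (h2 : T ∉ acl F) :
    ∃ Q : Plc ℂ ℂ, Q.IdOn (acl F) ∧ 1 < Q.v T ∧
      ∃ b, A.Red Q y b ∧ g ≤ trd F (range (A.crd b)) + 1 := by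
  classical
  obtain ⟨z, hz⟩ := A.exists_gn (hF.union (countable_range (A.crd y)))
  obtain ⟨e, he⟩ := exists_ind_comp (n := Fin g) ((Fintype.card_fin g).trans_le hz)
  set x := A.crd z ∘ e
  obtain ⟨w, hw⟩ : ∃ w, w + z = y := ⟨y - z, sub_add_cancel y z⟩
  have fc := fun w => finite_range (A.crd w)
  have fx := finite_range x
  have hk' : ∀ S, (k : Set ℂ) ⊆ acl (F ∪ S) := fun S => hk.trans (acl_mono subset_union_left)
  have h3 : range (A.crd z) ⊆ acl (F ∪ range x) :=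
    (he.anti (subset_union_left.trans (subset_acl _))).subset_acl (fc z)
      (forall_mem_range.2 fun i => mem_acl_of_mem (Or.inr ⟨_, rfl⟩))
      ((hA.trd_le_dim hk z).trans (Fintype.card_fin g).ge)
  have h4 : g + g ≤ trd F (range (A.crd y) ∪ range x) := by
    rw [trd_union (fc y) fx, he.trd_range, Fintype.card_fin]
    exact Nat.add_le_add_right hy _
  have h5 : range (A.crd y) ⊆ acl (F ∪ (range (A.crd w) ∪ range x)) := hw ▸ hA.crd_add_acl
    (hk' _) (fun _ h => mem_acl_of_mem (Or.inr (Or.inl h)))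
    (h3.trans (acl_mono (union_subset_union_right _ subset_union_right)))
  have h6 := h4.trans (trd_le ((fc _).union fx)
    (union_subset h5 fun _ h => mem_acl_of_mem (Or.inr (Or.inr h))))
  have h7 : trd F (range (A.crd w)) ≤ g := hA.trd_le_dim hk _
  have h8 : Ind (F ∪ range (A.crd w)) x := trd_range_eq_iff.1 (le_antisymm (trd_range_le _) (by
    rw [trd_union (fc _) fx] at h6
    rw [Fintype.card_fin]
    omega))
  have h9 : g ≤ trd (F ∪ range x) (range (A.crd w)) := by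
    rw [union_comm, trd_union fx (fc _)] at h6
    have := trd_range_le (F := F) x
    rw [Fintype.card_fin] at this
    omega
  have h10 : T ∉ acl (F ∪ range (A.crd w)) := fun h => by
    have := trd_submod (T' := range (A.crd y) ∪ range x) (fc y) (fc w) (finite_singleton T)
      (singleton_subset_iff.2 h1) (singleton_subset_iff.2 h) (union_subset
        (fun _ h => mem_acl_of_mem (Or.inr (Or.inl h))) (forall_mem_range.2 fun i =>
          hA.crd_sub_acl (hk' _) (fun _ h => mem_acl_of_mem (Or.inr (Or.inl h)))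
            (fun _ h => mem_acl_of_mem (Or.inr (Or.inr h))) ⟨e i, by rw [← hw, add_sub_cancel_left]; rfl⟩))
    have h7' := hA.trd_le_dim hk y
    exact h2 ((trd_eq_zero_iff (finite_singleton T)).1 (by omega) rfl)
  obtain ⟨D, hD, h11⟩ : ∃ D ∈ kil (F ∪ range (A.crd w)), D T ≠ 0 := by simpa [mem_acl_iff_der] using h10
  obtain ⟨d, hd⟩ := exists_partial h8
  rw [der_expand (δ₀ := 0) (fun l => (hd l).1) (fun l => (hd l).2.1) hD (fun _ => rfl)
    (acl_le (union_subset (fun _ h => mem_acl_of_mem (Or.inl (Or.inl h)))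
      (h5.trans (acl_mono (union_assoc _ _ _).ge))) h1), zero_add, der_sum_apply] at h11
  obtain ⟨i, -, hi⟩ := Finset.exists_ne_zero_of_sum_ne_zero h11
  set S := F ∪ x '' {i}ᶜ
  have hS : (S ∪ range (A.crd w)).Countable := (hF.union ((to_countable _).image _)).union (countable_range _)
  have h12 : T ∉ acl (S ∪ range (A.crd w)) := fun h => right_ne_zero_of_mul hi (mem_acl_iff_der.1 h _ (by
    rintro _ ((h | ⟨m, hm, rfl⟩) | h)
    exacts [(hd i).1 _ (Or.inl h), ((hd i).2.1 m).trans (if_neg hm), (hd i).1 _ (Or.inr h)]))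
  obtain ⟨P, hP⟩ := Plc.exists_lifts le_rfl (RingHom.id ℂ) hS
  obtain ⟨Q, h13, h14⟩ := Plc.exists_small le_rfl P (countable_acl hS) (τ := T⁻¹)
    fun h => h12 (by simpa using inv_mem h)
  have hQ : Q.IdOn (acl (S ∪ range (A.crd w))) := h13.lifts hP
  have hQ' : Q.IdOn (acl S) := hQ.mono (acl_mono subset_union_left)
  have hQk : Q.IdOn k := hQ'.mono (hk' _)
  obtain ⟨c, hc⟩ := hA.exists_red' hQk z
  refine ⟨Q, hQ'.mono (acl_mono subset_union_left), (Q.v_inv_lt_one fun e : T = 0 => h2 (e ▸ zero_mem _)).1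
    (by simpa using h14 1 (one_mem _) one_ne_zero), w + c, hw ▸ hA.red_add hQk
      (red_self (hQ.mono (subset_union_right.trans (subset_acl _)))) hc, ?_⟩
  have h15 := hc.trd_crd_le (F := acl S)
  rw [hQ'.res, trd_acl_base (fc _), trd_acl_base (fc _)] at h15
  have h16 : trd S (range (A.crd z)) ≤ 1 := (trd_le (finite_singleton (x i)) (h3.trans (acl_mono (by
    rintro _ (h | ⟨m, rfl⟩)
    · exact Or.inl (Or.inl h)
    · by_cases h : m = i
      exacts [Or.inr (h ▸ rfl), Or.inl (Or.inr ⟨m, h, rfl⟩)])))).trans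
    ((trd_le_ncard (finite_singleton _)).trans (ncard_singleton _).le)
  have h17 : trd S (range (A.crd w)) ≤ _ := (trd_le ((fc (w + c)).union (fc c)) (by
    simpa using hA.crd_sub_acl (w₁ := w + c) (w₂ := c)
      (S := S ∪ (range (A.crd (w + c)) ∪ range (A.crd c)))
      (hk.trans (acl_mono fun _ h => Or.inl (Or.inl h)))
      (fun _ h => mem_acl_of_mem (Or.inr (Or.inl h)))
      fun _ h => mem_acl_of_mem (Or.inr (Or.inr h)))).trans (trd_union_le (fc _) (fc _))
  have h18 := trd_anti (F := F) (F' := S) (fc (w + c)) (subset_union_left.trans (subset_acl _))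
  have h19 := trd_anti (F := S) (F' := F ∪ range x) (fc w)
    ((union_subset_union_right _ (image_subset_range _ _)).trans (subset_acl _))
  omega

/-- A uniformiser at a divisor and the derivation dual to it. -/
theorem Over.exists_unif (hA : A.Over k) (hk : k ≤ K) (hQ : Q.IdOn K) (hy : A.Gn K y)
    {i : Fin N} (hi : A.θ y i ≠ 0) (hY : ∀ j, Q.v (A.aff i y j) ≤ 1)
    (h1 : g ≤ trd K (range (Q.r ∘ A.aff i y)) + 1) (h2 : trd K (range (Q.r ∘ A.aff i y)) < g) :
    ∃ (n : ℕ) (e : Fin n → Fin N) (u : ℂ) (D : Der ℂ), Q.Gauss K (A.aff i y ∘ e) ∧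
      u ∈ Subring.closure (K ∪ range (A.aff i y)) ∧ Q.v u < 1 ∧
      D ∈ kil (K ∪ range (A.aff i y ∘ e)) ∧ D u = 1 ∧ (∀ l, Q.v (A.dl y D l) ≤ 1) ∧
      range (A.crd y) ⊆ acl (K ∪ range (A.aff i y ∘ e) ∪ {u}) := by
  set Y := A.aff i y with hY'
  obtain ⟨e, he⟩ := exists_ind_comp (n := Fin (trd K (range (Q.r ∘ Y)))) (Fintype.card_fin _).le
  have h3 := he.subset_acl (finite_range (Q.r ∘ Y))
    (forall_mem_range.2 fun i => mem_acl_of_mem (Or.inr ⟨_, rfl⟩)) (Fintype.card_fin _).ge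
  have hG : Q.Gauss K (Y ∘ e) := ⟨fun _ => hY _, by rwa [hQ.res]⟩
  have hk' : ∀ S : Set ℂ, (k : Set ℂ) ⊆ acl (K ∪ S : Set ℂ) := fun S x hx => mem_acl_of_mem (Or.inl (hk hx))
  have hn := hG.ind.trd_range.trans (Fintype.card_fin _)
  obtain ⟨D, hD, h4⟩ : ∃ D ∈ kil (K ∪ range (Y ∘ e)), A.dl y D ≠ 0 := by
    by_contra! h
    exact h2.not_ge (le_trans hy ((trd_le (finite_range _)
      ((hA.crd_acl_iff (hk' _)).2 h)).trans hn.le))
  obtain ⟨l₁, h5⟩ := Function.ne_iff.1 h4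
  obtain ⟨l, -, h6⟩ := Finset.exists_max_image Finset.univ (fun l => Q.v (A.dl y D l))
    ⟨l₁, Finset.mem_univ _⟩
  have h7 : A.dl y D l ≠ 0 := fun e => h5 (by simpa [e] using h6 l₁ (Finset.mem_univ _))
  have hD' := (kil _).smul_mem (A.dl y D l)⁻¹ hD
  set D' := (A.dl y D l)⁻¹ • D with hD''
  have h8 : ∀ m, Q.v (A.dl y D' m) ≤ 1 := fun m => by
    rw [hD'', map_smul, Pi.smul_apply, smul_eq_mul, inv_mul_eq_div]
    exact (Q.v_div_le_one h7).2 (h6 m (Finset.mem_univ _))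
  obtain ⟨j, h9⟩ : ∃ j, Q.v (D' (Y j)) = 1 := by
    by_contra! h
    have := hA.v_dl_lt (hQ.mono hk) hi hY (kil_le (hk' _) hD') one_ne_zero (fun j =>
      (hA.v_der_le (hQ.mono hk) hi hY (kil_le (hk' _) hD') h8 j).lt_of_ne (h j)) l
    simp [hD'', h7] at this
  obtain ⟨H, -, h10, h11⟩ := exists_sep (K := K) (by rwa [Ind, Subfield.closure_eq] at he)
    (h3 ⟨j, rfl⟩)
  obtain ⟨H, rfl⟩ := (MvPolynomial.optionEquivLeft K _).surjective H
  rw [derivative_option] at h11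
  rw [pev_option] at h10 h11
  set t := fun o : Option _ => o.elim (Y j) (Y ∘ e) with ht
  have h12 : ∀ o, Q.v (t o) ≤ 1 := fun o => by cases o <;> exact hY _
  have h13 : Q.r ∘ t = fun o => o.elim ((Q.r ∘ Y) j) ((Q.r ∘ Y) ∘ e) :=
    funext fun o => by cases o <;> rfl
  have h14 := v_aeval hQ h12 H
  have h15 := (v_aeval hQ h12 (MvPolynomial.pderiv none H)).2
  set u := MvPolynomial.aeval t H with hu
  have h16 : Q.v (D' u) = 1 := by
    rw [hu, der_aeval (kil_anti subset_union_left hD'), Fintype.sum_option,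
      Finset.sum_eq_zero fun m _ => mul_eq_zero_of_right _ (hD' (t (some m)) (Or.inr ⟨m, rfl⟩)),
      add_zero,
      map_mul, Plc.r_ne_zero_iff.1 (by rwa [h15, h13]), one_mul]
    exact h9
  have h17 : D' u ≠ 0 := fun e => by simp [e] at h16
  have h18 : u ∈ Subring.closure (K ∪ range Y) := by
    rw [hu, ← eval_map_sub]
    exact (cf_map H).eval_mem (fun _ h => Subring.subset_closure (Or.inl h)) fun o => by
      cases o <;> exact Subring.subset_closure (Or.inr ⟨_, rfl⟩)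
  refine ⟨_, e, u, (D' u)⁻¹ • D', hG, h18, (Plc.r_eq_zero_iff h14.1).1 (by rw [h14.2, h13, h10]),
    (kil _).smul_mem _ hD', by simp [h17], fun m => by simpa [h16] using h8 m, ?_⟩
  rw [union_assoc, union_singleton]
  refine subset_acl_of_trd (finite_range _) ((finite_range _).insert _) (insert_subset ?_
    (forall_mem_range.2 fun m => aff_mem_acl _ _ _)) ?_
  · exact acl_aff hi _ ▸ (Subring.closure_le (t := (acl _).toSubring)).2 (subset_acl _) h18
  · rw [trd_insert_of_notMem (finite_range _) fun h => h17 (mem_acl_iff_der.1 h _ hD'), hn]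
    exact (hA.trd_le_dim (fun x hx => mem_acl_of_mem (hk hx)) y).trans h1

/-- The determinant of the values of the forms. -/
noncomputable def pd [Fintype κ] [DecidableEq κ] (A : AbVar g N) (θ : κ → Fin g → ℂ)
    (p : Fin g → ℂ) (δ : κ → Der ℂ) : ℂ := (Matrix.of fun j l => A.pv θ p (δ l) j).det

/-- Invariant forms have smaller than logarithmic poles along a divisor. -/
theorem Over.exists_log [Fintype κ] [DecidableEq κ] (hA : A.Over k) (hk : k ≤ K) (hQ : Q.IdOn K)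
    (hy : A.Gn K y) (hr : A.Red Q y b) (h1 : g ≤ trd K (range (A.crd b)) + 1)
    (hT : T ∈ Subfield.closure (K ∪ range (A.crd y))) (hT' : 1 < Q.v T) (hθ : ∀ j i, θ j i ∈ k) :
    ∃ u, 1 ≤ Q.v (u * T) ∧ ∀ (p : Fin g → ℂ) (δ : κ → Der ℂ),
      range (A.crd p) ⊆ acl (K ∪ range (A.crd y)) → (∀ l, δ l ∈ kil (k : Set ℂ) ∧
        (∀ x ∈ K, δ l x ∈ K) ∧ ∀ m, Q.v (A.dl y (δ l) m) ≤ 1) → Q.v (u * A.pd θ p δ) < 1 := by
  obtain ⟨i, hb, hi, h2⟩ := hr.exists_chart
  have hY := fun j => (h2 j).1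
  have hQk := hQ.mono hk
  have h3 : trd K (range (Q.r ∘ A.aff i y)) = trd K (range (A.crd b)) := by
    rw [show Q.r ∘ A.aff i y = A.aff i b from funext fun j => (h2 j).2, trd_aff hb]
  have hk' : (k : Set ℂ) ⊆ acl (K : Set ℂ) := fun x hx => mem_acl_of_mem (hk hx)
  obtain ⟨n, e, u, D, hG, hu, hu1, hD, hDu, hDl, hL⟩ := hA.exists_unif hk hQ hy hi hY (h3 ▸ h1) (by
    by_contra! h
    exact hT'.not_ge ((Plc.full_of_trd (finite_range (A.crd y)) (finite_range (A.crd b))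
      (forall_mem_range.2 (hr.crd_mem fun j => mem_acl_of_mem (Or.inr ⟨j, rfl⟩)))
      (by rw [hQ.res, ← h3]; exact (hA.trd_le_dim hk' y).trans h)).1.triv hQ.triv _
      (mem_acl_of_mem (closure_le_acl _ hT))))
  set Y := A.aff i y with hY'
  set R := Subring.closure (K ∪ range Y)
  set M := Subfield.closure (K ∪ range (Y ∘ e))
  set L := acl ((M : Set ℂ) ∪ {u})
  have hu0 : u ≠ 0 := fun e => by simp [e] at hDu
  have hM : Q.Triv M := (hG.triv hQ.triv).mono (closure_le_acl _)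
  have hL' : acl (K ∪ range (A.crd y)) ≤ L := acl_le (union_subset
    (fun x hx => mem_acl_of_mem (Or.inl (Subfield.subset_closure (Or.inl hx))))
    (hL.trans (acl_mono (union_subset_union_left _ Subfield.subset_closure))))
  have hDM : D ∈ kil (M : Set ℂ) := kil_le (closure_le_acl _) hD
  have hDk := kil_le (hk'.trans (acl_mono subset_union_left)) hD
  obtain ⟨c1, c2⟩ := Plc.logd hM hu0 hu1 ((kil _).smul_mem u hDM) (by simp [hDu])
  have hR : ∀ t ∈ R, t ∈ L ∧ Q.v t ≤ 1 := fun t ht => ⟨hL' (acl_aff hi _ ▸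
    (Subring.closure_le (t := (acl _).toSubring)).2 (subset_acl _) ht), Q.mem_iff.1
      ((Subring.closure_le (t := Q.O.toSubring)).2 (by
        rintro _ (h | ⟨j, rfl⟩)
        exacts [Q.mem_iff.2 (hQ _ h).1, Q.mem_iff.2 (hY j)]) ht)⟩
  have good : ∀ δ ∈ kil (k : Set ℂ), (∀ x ∈ K, δ x ∈ K) → (∀ m, Q.v (A.dl y δ m) ≤ 1) →
      Q.v (δ u) ≤ 1 ∧ Q.Ctr (δ - δ u • D) L := fun δ k1 k2 k3 => by
    have k4 := hA.v_der_le hQk hi hY k1 k3
    refine ⟨?_, (Plc.tr_of_triv hM hu0 hu1.ne).ctr_acl (hG.ctr (fun x hx => ?_) fun m => ?_)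
      (by simp [hDu])⟩
    · refine Subring.closure_induction (p := fun t _ => Q.v (δ t) ≤ 1) ?_ (by simp) (by simp)
        (fun _ _ _ _ h h' => map_add δ _ _ ▸ Q.v.map_add_le h h') (fun _ _ h => by simpa using h)
        (fun _ _ e e' h h' => δ.leibniz _ _ ▸ Q.v.map_add_le (Plc.v_mul_le (hR _ e).2 h')
          (Plc.v_mul_le (hR _ e').2 h)) hu
      rintro _ (h | ⟨j, rfl⟩)
      exacts [(hQ _ (k2 _ h)).1, k4 j]
    · rcases eq_or_ne x 0 with rfl | h
      · simp
      · simpa [hD x (Or.inl hx), hQ.triv.v_eq hx h] using (hQ _ (k2 x hx)).1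
    · simpa [hD (Y (e m)) (Or.inr ⟨m, rfl⟩)] using k4 (e m)
  refine ⟨u, ?_, fun p δ hp hδ => ?_⟩
  swap
  · have hp' := fun j => hL' (hp ⟨j, rfl⟩)
    have hθ' := fun j l => (hQk _ (hθ j l)).1
    convert v_det_rank_one (B := Matrix.of fun j l => A.pv θ p (δ l - δ l u • D) j)
      (w := A.pv θ p D) (c := fun l => δ l u) (fun j l => hA.ctr_pv hQk hθ' (sub_mem (hδ l).1
        ((kil _).smul_mem _ hDk)) (good _ (hδ l).1 (hδ l).2.1 (hδ l).2.2).2 hp' j)
      (fun j => by simpa using (hA.small_pv hQk hθ' ((kil _).smul_mem u hDk)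
        (fun x hx => (c2 x hx).1) hp' j)) (fun l => (good _ (hδ l).1 (hδ l).2.1 (hδ l).2.2).1) hu1
      using 3
    simp [pd]
  classical
  choose d hd hd' using fun l => hA.gn_surj hk' hy (Pi.single l 1)
  have hdk := fun l => kil_anti hk (hd l)
  have gd := fun l => good _ (hdk l) (fun x hx => hd l x hx ▸ zero_mem K) fun m => by
    by_cases h : m = l <;> simp [hd', h]
  obtain ⟨R', H', ch⟩ := hA.exists_ch i
  have dR : ∀ l, ∀ t ∈ R, d l t ∈ R := fun l t ht => by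
    refine Subring.closure_induction (p := fun t _ => d l t ∈ R) ?_ (by simp) (by simp)
      (fun _ _ _ _ h h' => map_add (d l) _ _ ▸ add_mem h h') (fun _ _ h => by simpa using h)
      (fun _ _ e e' h h' => (d l).leibniz _ _ ▸ add_mem (mul_mem e h') (mul_mem e' h)) ht
    rintro _ (h | ⟨j, rfl⟩)
    · exact hd l _ h ▸ zero_mem _
    rw [ch.der hA (hdk l) hi, hd']
    refine sum_mem fun m _ => mul_mem ?_ (by by_cases h : m = l <;> simp [h])
    rw [← eval_map_sub]
    exact (cf_map _).eval_mem (fun _ h => Subring.subset_closure (Or.inl (hk h)))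
      fun _ => Subring.subset_closure (Or.inr ⟨_, rfl⟩)
  have step : ∀ t ∈ R, t ≠ 0 → Q.v t < 1 → ∃ l, Q.v t ≤ Q.v u * Q.v (d l t) := fun t ht h0 h => by
    by_contra! hc
    obtain ⟨-, k1, k2⟩ := c2 t (hR t ht).1
    obtain ⟨q, s, k3, k4⟩ := k1 h0
    have k5 : (s : ℂ) / q ≠ 0 := div_ne_zero (Int.cast_ne_zero.2 fun e => h.ne
      ((pow_eq_one_iff_left k3.ne').1 (by simpa [e] using k4))) (Nat.cast_ne_zero.2 k3.ne')
    have k6 := Plc.r_ne_zero_iff.1 ((k2 q s k3 k4).trans_ne k5)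
    have k7 : D t = (∑ l, A.dl y D l • d l) t := by
      have k8 := Submodule.sum_mem (t := Finset.univ) _ fun l _ =>
        (kil _).smul_mem (A.dl y D l) (hd l)
      refine der_eq_on_acl (S := K ∪ range (A.crd y)) ?_ (acl_aff hi _ ▸
        (Subring.closure_le (t := (acl _).toSubring)).2 (subset_acl _) ht)
      rintro x (hx | hx)
      · rw [hD x (Or.inl hx), k8 x hx]
      · refine sub_eq_zero.1 ((hA.dl_eq_zero_iff (sub_mem hDk (kil_anti hk k8))).1 ?_ x hx)
        simp only [map_sub, map_sum, map_smul, hd']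
        exact sub_eq_zero.2 (pi_eq_sum_univ' _)
    rw [map_div₀, div_eq_one_iff_eq (Q.v_ne h0), Derivation.smul_apply, k7, der_sum_apply,
      smul_eq_mul, Finset.mul_sum] at k6
    refine (Q.v.map_sum_lt (Q.v_ne h0) fun l _ => lt_of_le_of_lt ?_ (hc l)).ne k6
    rw [mul_left_comm, map_mul, map_mul]
    exact mul_le_of_le_one_left' (hDl l)
  have le : ∀ l, ∀ t ∈ R, Q.v u * Q.v (d l t) ≤ Q.v t := fun l t ht => by
    rw [← map_mul, show u * d l t = u * (d l - d l u • D) t + d l u * (u • D) t by simp; ring]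
    refine Q.v.map_add_le ?_ ?_ <;> rw [map_mul]
    exacts [(mul_le_of_le_one_left' hu1.le).trans ((gd l).2 t (hR t ht).1),
      (mul_le_of_le_one_left' (gd l).1).trans (c1 t (hR t ht).1)]
  have pw : ∀ n : ℕ, ∀ t ∈ R, Q.v u ^ n ≤ Q.v t → ∃ m : ℕ, Q.v t = Q.v u ^ m := fun n => by
    induction n with
    | zero => exact fun t ht h => ⟨0, le_antisymm (by simpa using (hR t ht).2) h⟩
    | succ n ih =>
      intro t ht h
      rcases (hR t ht).2.eq_or_lt with h' | h'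
      · exact ⟨0, by simpa using h'⟩
      obtain ⟨l, hl⟩ := step t ht 
        (fun e => (pow_pos (Q.v_pos hu0) _).not_ge (h.trans_eq (by simp [e]))) h'
      obtain ⟨m, hm⟩ := ih _ (dR l t ht)
        (le_of_mul_le_mul_left ((pow_succ' _ _).ge.trans (h.trans hl)) (Q.v_pos hu0))
      exact ⟨m + 1, by rw [pow_succ', ← hm, le_antisymm hl (le l t ht)]⟩
  have pw' : ∀ t ∈ R, t ≠ 0 → ∃ m : ℕ, Q.v t = Q.v u ^ m := fun t ht h0 => by
    obtain ⟨q, s, k3, k4⟩ := (c2 t (hR t ht).1).2.1 h0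
    refine pw s.natAbs t ht (le_trans ?_ (k4.ge.trans (pow_le_of_le_one zero_le (hR t ht).2 k3.ne')))
    rw [← zpow_natCast]
    exact zpow_le_zpow_right_of_le_one₀ (Q.v_pos hu0) hu1.le Int.le_natAbs
  have hT2 : Subfield.closure (K ∪ range (A.crd y)) ≤ Subfield.closure (K ∪ range Y) :=
    Subfield.closure_le.2 (union_subset (subset_union_left.trans Subfield.subset_closure)
      (forall_mem_range.2 (crd_mem_of_aff hi fun j => Subfield.subset_closure (Or.inr ⟨j, rfl⟩))))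
  obtain ⟨t, ht, t', ht', rfl⟩ := Subfield.mem_closure_iff.1 (hT2 hT)
  obtain ⟨m, hm⟩ := pw' t ht fun e => by simp [e] at hT'
  obtain ⟨m', hm'⟩ := pw' t' ht' fun e => by simp [e] at hT'
  rw [map_div₀, hm, hm', one_lt_div₀ (pow_pos (Q.v_pos hu0) _),
    pow_lt_pow_iff_right_of_lt_one₀ (Q.v_pos hu0) hu1] at hT'
  rw [map_mul, map_div₀, hm, hm', ← mul_div_assoc, ← pow_succ',
    one_le_div₀ (pow_pos (Q.v_pos hu0) _)]
  exact pow_le_pow_of_le_one zero_le hu1.le hT'

/-- A logarithm of a point given by its coordinates. -/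
noncomputable def lg (A : AbVar g N) (c : Fin N → ℂ) : Fin g → ℂ := Function.invFun A.crd c

theorem crd_lg (A : AbVar g N) (p : Fin g → ℂ) : A.crd (A.lg (A.crd p)) = A.crd p :=
  Function.invFun_eq ⟨p, rfl⟩

variable [Fintype κ] [DecidableEq κ]

/-- The trace of the wedge product of the forms. -/
noncomputable def tr (A : AbVar g N) (θ : κ → Fin g → ℂ) (X : Set (Fin N → ℂ)) (δ : κ → Der ℂ) :
    ℂ := ∑ᶠ c ∈ X, A.pd θ (A.lg c) δ

omit [DecidableEq κ] in
theorem Over.fib_acl (hA : A.Over k) (hk : (k : Set ℂ) ⊆ acl F)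
    (hle : trd F (range (A.crd a)) ≤ Fintype.card κ) (h : A.Gd F y f) {c : Fin N → ℂ}
    (hc : c ∈ A.Fib F a j I y f) :
    A.crd (A.lg c) = c ∧ range c ⊆ acl (F ∪ (range (A.crd y) ∪ range f)) := by
  obtain ⟨p, rfl, h1, -, h2⟩ := hc
  exact ⟨A.crd_lg p, (hA.fib_trd hk hle h h1 h2).2⟩

theorem Over.tr_mem (hA : A.Over k) (hk : k ≤ K) (hK : (K : Set ℂ).Countable)
    (hle : trd K (range (A.crd a)) ≤ Fintype.card κ) (h : A.Gd K y f) (hθ : ∀ j i, θ j i ∈ k)
    {δ : κ → Der ℂ} (hδ : ∀ l, δ l ∈ kil (k : Set ℂ) ∧ (∀ x ∈ K, δ l x ∈ K) ∧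
      (∀ m, δ l (f m) ∈ K) ∧ ∀ m, A.dl y (δ l) m ∈ k) :
    A.tr θ (A.Fib K a j I y f) δ ∈ acl (K ∪ range f) := by
  have hk' : (k : Set ℂ) ⊆ acl (K : Set ℂ) := fun x hx => mem_acl_of_mem (hk hx)
  have hX := hA.fib_finite (j := j) (I := I) hk hK hle h
  have hc := fun c hc => hA.fib_acl (j := j) (I := I) (c := c) hk' hle h hc
  have h1 : A.tr θ (A.Fib K a j I y f) δ ∈
      Subfield.closure (K ∪ (range (A.crd y) ∪ range f)) := by
    refine mem_of_fixed (countable_closure (hK.union ((countable_range _).union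
      (countable_range _)))) fun σ hσ => ?_
    have k1 : ∀ x ∈ K, σ x = x := fun x hx => hσ x (Subfield.subset_closure (Or.inl hx))
    have k2 : A.crd y = σ ∘ A.crd y := funext fun i =>
      (hσ _ (Subfield.subset_closure (Or.inr (Or.inl ⟨i, rfl⟩)))).symm
    have k3 : f = σ ∘ f := funext fun i =>
      (hσ _ (Subfield.subset_closure (Or.inr (Or.inr ⟨i, rfl⟩)))).symm
    have k4 := hA.fib_bij (a := a) (j := j) (I := I) hk k1 k2 k3
    refine (σ.toAddMonoidHom.map_finsum_mem _ hX).trans (finsum_mem_eq_of_bijOn _ k4 fun c hc' =>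
      ((σ : ℂ →+* ℂ).map_det _).trans (congrArg Matrix.det (Matrix.ext fun m l => ?_)))
    have k5 := (hc _ (k4.mapsTo hc')).1
    have k6 := congrFun (hA.pv_cjD (θ := θ) (hδ l).1 (fun x hx => k1 x (hk hx))
      (k5.trans (congrArg (σ ∘ ·) (hc c hc').1.symm))) m
    rw [show (fun j => σ ∘ θ j) = θ from funext fun j => funext fun i => k1 _ (hk (hθ j i))] at k6
    refine k6.symm.trans (congrFun (pv_congr_der fun i => der_eq_on_acl ?_
      ((hc _ (k4.mapsTo hc')).2 ⟨i, (congrFun k5 i).symm⟩)) m)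
    rintro x (hx | hx | ⟨n, rfl⟩)
    · rw [← k1 x hx, cjD_map, k1 x hx, k1 _ ((hδ l).2.1 x hx)]
    · refine sub_eq_zero.1 ((hA.dl_eq_zero_iff (sub_mem (cjD_kil_fix (fun x hx => k1 x (hk hx))
        (hδ l).1) (hδ l).1)).1 ?_ x hx)
      rw [map_sub, hA.dl_cjD (hδ l).1 (fun x hx => k1 x (hk hx)) k2, sub_eq_zero]
      exact funext fun n => k1 _ (hk ((hδ l).2.2.2 n))
    · rw [congrFun k3 n, Function.comp_apply, cjD_map, ← show f n = σ (f n) from congrFun k3 n,
        k1 _ ((hδ l).2.2.1 n)]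
  have h2 : (K : Set ℂ) ∪ (range (A.crd y) ∪ range f) ⊆ K ∪ range f ∪ range (A.crd y) := by
    rw [union_comm (range _), union_assoc]
  have hk2 := hk'.trans (acl_mono (subset_union_left (t := range f)))
  by_contra h3
  obtain ⟨Q, hQ, h4, b, h5, h6⟩ := hA.exists_pole hk2 (hK.union (countable_range f)) h.gn
    (acl_mono h2 (closure_le_acl _ h1)) h3
  obtain ⟨u, h7, h8⟩ := hA.exists_log (K := acl (K ∪ range f)) hk2 hQ (h.gn.anti subset_rfl)
    h5 (by rwa [trd_acl_base (finite_range _)]) (Subfield.closure_mono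
      (h2.trans (union_subset_union_left _ (subset_acl _))) h1) h4 hθ
  refine h7.not_gt ?_
  rw [tr, finsum_mem_eq_finite_toFinset_sum _ hX, Finset.mul_sum]
  refine Q.v.map_sum_lt one_ne_zero fun c hc' => h8 _ _ ?_ fun l => ⟨(hδ l).1, fun x hx =>
    der_mem_acl (subset_acl _) ?_ hx, fun m => (hQ _ (hk2 ((hδ l).2.2.2 m))).1⟩
  · rw [(hc c (hX.mem_toFinset.1 hc')).1, acl_acl_union]
    exact (hc c (hX.mem_toFinset.1 hc')).2.trans (acl_mono h2)
  · rintro x (hx | ⟨n, rfl⟩)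
    exacts [mem_acl_of_mem (Or.inl ((hδ l).2.1 x hx)), mem_acl_of_mem (Or.inl ((hδ l).2.2.1 n))]

end Pool.Agent.P.MP_f17f76_ag.AbVar
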