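import Pool.Agent.P.MP_f17f76_ag.E.TMain
import Pool.Agent.P.MP_f17f76_ag.E.FamEnd
import Pool.Agent.P.MP_f17f76_ag.E.HgcRes
import Pool.Agent.P.MP_f17f76_ag.E.HgcFin
import Pool.Agent.P.MP_f17f76_ag.E.HgcLim

/-!
The terminal analysis with the finished inputs filled in.
-/

namespace Pool.Agent.P.MP_f17f76_ag.Hgc

open E

theorem s_end : S_END := fun _ _ _ _ _ _ _ h hh hc =>
  let ⟨G, _, h1, _, _, h2⟩ := h.end hh hc
  ⟨G, h1, fun k' a b φ c d => (h2 k' a b φ c d).imp fun _ e => e.1⟩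

/-- Every object is positive, given the remaining inputs. -/
theorem hgc_of' {g N : ℕ} {A : AbVar g N} (hS : A.S_SIM) (hI : S_INIT A) (hC : S_CC A)
    (hX : S_EXP A) (hA : S_GAIN A) : S_HGC A :=
  hgc_of hS s_end (res A) hX (fin A) (grow A hI (lim A) hC hX (fin A)) hA

end Pool.Agent.P.MP_f17f76_ag.Hgc
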