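import Pool.Agent.P.MP_f17f76_ag.E.Ov

/-!
Linear algebra for the terminal analysis: the alternative of Gordan over the rationals,
separating vectors, gradings by eigenvalues, expansion of products of linear forms.
-/

namespace Pool.Agent.P.MP_f17f76_ag.E

open Set Module Function

variable {ι : Type}

theorem gordan_aux [Fintype ι] (s : Finset ι) : ∀ W : Submodule ℚ (ι → ℚ),
    (∃ x ∈ W, ∀ i ∈ s, 0 < x i) ∨
      ∃ e : ι → ℚ, (∃ i, 0 < e i) ∧ (∀ i, 0 ≤ e i) ∧ (∀ i ∉ s, e i = 0) ∧ ∀ x ∈ W, e ⬝ᵥ x = 0 := by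
  classical
  induction s using Finset.induction_on with
  | empty => exact fun W => Or.inl ⟨0, W.zero_mem, by simp⟩
  | insert j s hj ih =>
    intro W
    by_cases h0 : ∀ y ∈ W, y j = 0
    · refine Or.inr ⟨Pi.single j 1, ⟨j, by simp⟩, fun i => ?_, fun i hi => ?_, fun x hx => ?_⟩
      · by_cases h : i = j <;> simp [h]
      · exact Pi.single_eq_of_ne (fun h => hi (by simp [h])) _
      · simp [h0 x hx]
    obtain ⟨y, hy, hyj⟩ : ∃ y ∈ W, y j = 1 := by
      push Not at h0
      obtain ⟨y, hy, h⟩ := h0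
      exact ⟨(y j)⁻¹ • y, W.smul_mem _ hy, by simp [h]⟩
    rcases ih (W ⊓ LinearMap.ker (LinearMap.proj j)) with ⟨x, hx, h1⟩ | ⟨e, h1, h2, h3, h4⟩
    · obtain ⟨M, hM⟩ := (s.image fun i => -y i / x i).bddAbove
      refine Or.inl ⟨(M + 1) • x + y, W.add_mem (W.smul_mem _ hx.1) hy, fun i hi => ?_⟩
      rcases Finset.mem_insert.1 hi with rfl | hi
      · have : x i = 0 := hx.2
        simp [this, hyj]
      · have h2 : -y i / x i ≤ M := hM (Finset.mem_coe.2 (Finset.mem_image_of_mem _ hi))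
        rw [div_le_iff₀ (h1 i hi)] at h2
        have := h1 i hi
        simp only [Pi.add_apply, Pi.smul_apply, smul_eq_mul]
        nlinarith
    · have h5 : ∀ x ∈ W, e ⬝ᵥ x = x j * (e ⬝ᵥ y) := fun x hx => by
        have := h4 (x - x j • y) ⟨W.sub_mem hx (W.smul_mem _ hy), by simp [hyj]⟩
        rwa [dotProduct_sub, dotProduct_smul, sub_eq_zero] at this
      by_cases hc : e ⬝ᵥ y ≤ 0
      · obtain ⟨u, hu⟩ : ∃ u : ι → ℚ, u = Pi.single j (e ⬝ᵥ y) := ⟨_, rfl⟩
        have h6 : ∀ i, e i ≤ (e - u) i := fun i => by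
          rw [Pi.sub_apply, le_sub_self_iff, hu, Pi.single_apply]
          split_ifs
          exacts [hc, le_rfl]
        have h7 : ∀ i ∉ insert j s, (e - u) i = 0 := fun i hi => by
          rw [Finset.mem_insert, not_or] at hi
          rw [Pi.sub_apply, h3 i hi.2, hu, Pi.single_eq_of_ne hi.1, sub_self]
        have h8 : ∀ x ∈ W, (e - u) ⬝ᵥ x = 0 := fun x hx => by
          rw [sub_dotProduct, hu, single_dotProduct, h5 x hx, mul_comm, sub_self]
        exact Or.inr ⟨e - u, h1.imp fun l hl => hl.trans_le (h6 l), fun i => (h2 i).trans (h6 i),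
          h7, h8⟩
      · rcases ih W with ⟨x, hx, h6⟩ | ⟨e', h6, h7, h8, h9⟩
        · refine Or.inl ⟨x, hx, fun i hi => ?_⟩
          rcases Finset.mem_insert.1 hi with rfl | hi
          · obtain ⟨l, hl⟩ := h1
            have h7 : ∀ l, e l ≠ 0 → 0 < x l := fun l h => h6 l (by_contra fun h' => h (h3 l h'))
            have h8 : 0 < e ⬝ᵥ x := Finset.sum_pos' (fun l _ => by
              by_cases h : e l = 0
              · simp [h]
              · exact mul_nonneg (h2 l) (h7 l h).le)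
              ⟨l, Finset.mem_univ l, mul_pos hl (h7 l hl.ne')⟩
            rw [h5 x hx] at h8
            exact (mul_pos_iff_of_pos_right (not_le.1 hc)).1 h8
          · exact h6 i hi
        · exact Or.inr ⟨e', h6, h7, fun i hi => h8 i fun h => hi (Finset.mem_insert_of_mem h), h9⟩

theorem exists_nat_smul [Fintype ι] (x : ι → ℚ) (hx : ∀ i, 0 ≤ x i) :
    ∃ (c : ℚ) (m : ι → ℕ), 0 < c ∧ (fun i => (m i : ℚ)) = c • x := by
  obtain ⟨b, hb⟩ := IsLocalization.exist_integer_multiples_of_finite (nonZeroDivisors ℤ) x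
  choose n hn using hb
  have hb0 : ((b : ℤ) : ℚ) ≠ 0 := Int.cast_ne_zero.2 (nonZeroDivisors.coe_ne_zero b)
  refine ⟨|((b : ℤ) : ℚ)|, fun i => (n i).natAbs, abs_pos.2 hb0, funext fun i => ?_⟩
  have h := hn i
  rw [eq_intCast, zsmul_eq_mul] at h
  rw [Nat.cast_natAbs, Int.cast_abs, h, abs_mul, abs_of_nonneg (hx i)]
  rfl

/-- The alternative of Gordan. -/
theorem gordan [Fintype ι] (W : Submodule ℚ (ι → ℚ)) :
    (∃ m : ι → ℕ, (∀ i, 0 < m i) ∧ (fun i => (m i : ℚ)) ∈ W) ∨
      ∃ e : ι → ℕ, (∃ i, 0 < e i) ∧ ∀ x ∈ W, ∑ i, e i * x i = 0 := by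
  rcases gordan_aux Finset.univ W with ⟨x, hx, h⟩ | ⟨e, ⟨i, h1⟩, h2, -, h3⟩
  · obtain ⟨c, m, hc, hm⟩ := exists_nat_smul x fun i => (h i (Finset.mem_univ i)).le
    refine Or.inl ⟨m, fun i => ?_, hm ▸ W.smul_mem c hx⟩
    have : (0 : ℚ) < m i := congrFun hm i ▸ mul_pos hc (h i (Finset.mem_univ i))
    exact_mod_cast this
  · obtain ⟨c, m, hc, hm⟩ := exists_nat_smul e h2
    refine Or.inr ⟨m, ⟨i, ?_⟩, fun x hx => ?_⟩
    · have : (0 : ℚ) < m i := congrFun hm i ▸ mul_pos hc h1
      exact_mod_cast this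
    · change (fun i => (m i : ℚ)) ⬝ᵥ x = 0
      rw [hm, smul_dotProduct, h3 x hx, smul_zero]

/-- A vector which separates what the subspace separates. -/
theorem exists_sep_vec [Finite ι] (W : Submodule ℚ (ι → ℚ)) : ∃ x ∈ W,
    (∀ i, x i = 0 → ∀ y ∈ W, y i = 0) ∧ ∀ i j, x i = x j → ∀ y ∈ W, y i = y j := by
  classical
  let f : ι ⊕ ι × ι → W →ₗ[ℚ] ℚ := fun s => (Sum.elim (fun i => LinearMap.proj i)
    (fun p => (LinearMap.proj p.1 : (ι → ℚ) →ₗ[ℚ] ℚ) - LinearMap.proj p.2) s :
      (ι → ℚ) →ₗ[ℚ] ℚ).comp W.subtype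
  have := Fintype.ofFinite ι
  have h := Subspace.biUnion_ne_univ_of_top_notMem (k := ℚ) (E := W)
    (s := (Finset.univ.filter fun s => f s ≠ 0).image fun s => LinearMap.ker (f s)) (by
      simp only [Finset.mem_image, Finset.mem_filter, not_exists, not_and]
      exact fun s hs h => hs.2 (LinearMap.ker_eq_top.1 h))
  obtain ⟨x, hx⟩ := (ne_univ_iff_exists_notMem _).1 h
  have h1 : ∀ s, f s x = 0 → ∀ y, f s y = 0 := fun s hs y => by
    by_contra h0
    refine hx (mem_iUnion₂.2 ⟨LinearMap.ker (f s), Finset.mem_image_of_mem _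
      (Finset.mem_filter.2 ⟨Finset.mem_univ _, fun h => h0 (by simp [h])⟩), hs⟩)
  exact ⟨x, x.2, fun i hi y hy => h1 (.inl i) hi ⟨y, hy⟩,
    fun i j hi y hy => sub_eq_zero.1 (h1 (.inr (i, j)) (sub_eq_zero.2 hi) ⟨y, hy⟩)⟩

/-- A subspace stable under a diagonal map is graded by its eigenvalues. -/
theorem stable_of_stable {K : Type} [Field K] [Finite ι] {W : Submodule K (ι → K)} {φ ψ : ι → K}
    (h : ∀ x ∈ W, φ * x ∈ W) (hψ : ∀ i j, φ i = φ j → ψ i = ψ j) {x : ι → K} (hx : x ∈ W) :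
    ψ * x ∈ W := by
  classical
  have := Fintype.ofFinite ι
  have h1 : ∀ p : Polynomial K, (fun i => p.eval (φ i)) * x ∈ W := fun p => by
    induction p using Polynomial.induction_on with
    | C a =>
      convert W.smul_mem a hx using 1
      funext i; simp
    | add p q hp hq =>
      convert W.add_mem hp hq using 1
      funext i; simp [add_mul]
    | monomial n a hp =>
      convert h _ hp using 1
      funext i; simp; ring
  let r : K → K := fun t => if h : ∃ i, φ i = t then ψ h.choose else 0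
  convert h1 (Lagrange.interpolate (Finset.univ.image φ) id r) using 2
  funext i
  have h2 := Lagrange.eval_interpolate_at_node (s := Finset.univ.image φ) (v := id) r
    (injOn_id _) (Finset.mem_image_of_mem φ (Finset.mem_univ i))
  have h3 : ∃ j, φ j = φ i := ⟨i, rfl⟩
  rw [id, show r (φ i) = ψ h3.choose from dif_pos h3] at h2
  rw [h2, hψ _ _ h3.choose_spec]

/-- A complex combination vanishes when all its rational shadows do. -/
theorem sum_eq_zero_of_rat {K : Type} [Field K] [Algebra ℚ K] [Fintype ι] {c l : ι → K}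
    (h : ∀ π : K →ₗ[ℚ] ℚ, ∑ i, π (c i) • l i = 0) : ∑ i, c i * l i = 0 := by
  classical
  let b := Basis.ofVectorSpace ℚ K
  let s := Finset.univ.biUnion fun i => (b.repr (c i)).support
  have h1 : ∀ i, c i = ∑ a ∈ s, b.coord a (c i) • b a := fun i => by
    conv_lhs => rw [← b.linearCombination_repr (c i), Finsupp.linearCombination_apply,
      Finsupp.sum_of_support_subset _ (Finset.subset_biUnion_of_mem
        (fun i => (b.repr (c i)).support) (Finset.mem_univ i)) _ (by simp)]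
    rfl
  rw [Finset.sum_congr rfl fun i _ => by rw [h1 i, Finset.sum_mul], Finset.sum_comm]
  refine Finset.sum_eq_zero fun a _ => ?_
  have := congrArg (b a * ·) (h (b.coord a))
  simpa [Finset.mul_sum, mul_comm] using this

theorem eq_zero_of_rat {K : Type} [Field K] [Algebra ℚ K] {c : K}
    (h : ∀ π : K →ₗ[ℚ] ℚ, π c = 0) : c = 0 :=
  (Module.forall_dual_apply_eq_zero_iff ℚ c).1 h

/-- A product of linear forms which is not killed by `D` can be taken over the small field. -/
theorem exists_forms {K T : Type} [Field K] [Fintype ι] {k : Subfield K} {D : Der K}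
    (hD : D ∈ kil (k : Set K)) (x : ι → K) (W : T → Submodule K (ι → K)) (hW : ∀ t, Ov k (W t))
    (n : T → ι → K) (hn : ∀ t, n t ∈ W t) (hn' : ∀ t i, D (n t i) = 0) (s : Finset T) :
    ∀ G : K, D (G * ∏ t ∈ s, n t ⬝ᵥ x) ≠ 0 → ∃ l : T → ι → K, (∀ t, l t ∈ W t ∧ ∀ i, l t i ∈ k) ∧
      D (G * ∏ t ∈ s, l t ⬝ᵥ x) ≠ 0 := by
  classical
  induction s using Finset.induction_on with
  | empty => exact fun G h => ⟨0, fun t => ⟨(W t).zero_mem, fun _ => k.zero_mem⟩, by simpa using h⟩
  | insert t s ht ih =>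
    intro G h
    obtain ⟨b, h1, h2, h3⟩ := (hW t).exists_basis
    obtain ⟨c, hc⟩ := (Submodule.mem_span_range_iff_exists_fun K).1 (h3.ge (hn t))
    have h4 : ∀ l, D (c l) = 0 := by
      refine Fintype.linearIndependent_iff.1 h2 _ (funext fun i => ?_)
      have := hn' t i
      rw [← hc] at this
      simpa [hD _ (h1 _ i), mul_comm] using this
    rw [Finset.prod_insert ht, ← hc, sum_dotProduct, Finset.sum_mul, Finset.mul_sum, map_sum] at h
    obtain ⟨j, -, hj⟩ := Finset.exists_ne_zero_of_sum_ne_zero h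
    obtain ⟨l, h5, h6⟩ := ih (G * b j ⬝ᵥ x) fun h0 => hj (by
      rw [smul_dotProduct, smul_eq_mul, mul_assoc, mul_left_comm, D.leibniz, h4, ← mul_assoc, h0]
      simp)
    refine ⟨update l t (b j), fun u => ?_, ?_⟩
    · rcases eq_or_ne u t with rfl | hu
      · rw [update_self]
        exact ⟨h3.le (Submodule.subset_span ⟨j, rfl⟩), h1 j⟩
      · rw [update_of_ne hu]
        exact h5 u
    · rw [Finset.prod_insert ht, update_self, ← mul_assoc,
        Finset.prod_congr rfl fun u hu => by rw [update_of_ne (ne_of_mem_of_not_mem hu ht)]]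
      exact h6

end Pool.Agent.P.MP_f17f76_ag.E
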