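import Pool.Agent.P.MP_f17f76_ag.E.TUn
import Pool.Agent.P.MP_f17f76_ag.E.AxG

/-!
The terminal analysis: every object is positive.
-/

namespace Pool.Agent.P.MP_f17f76_ag.Hgc

open Set Module Matrix E

variable {g N : ℕ} {ι κ : Type} {A : AbVar g N} [Fintype ι] [DecidableEq ι] [Fintype κ]
  {o : Ob ι κ g} {τ : ℂ}

theorem IsOb.thin_ext (h : IsOb A o) (hτ : τ ∉ acl (o.k' ∪ o.E ∪ pt A o.z o.a)) {D : Der ℂ}
    (hD : D ∈ A.thin o.k' o.a o.θ) :
    ∃ D' ∈ A.thin (o.ext τ).k' o.a o.θ, dv o.z D' = dv o.z D := by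
  obtain ⟨D', h1, h2, h3⟩ := h.exists_flip hτ (neg_mem hD) 0
  refine ⟨D', ⟨(kil_acl _).ge ((kil_union _ _).ge ⟨kil_anti subset_union_left h1.1, ?_⟩), h1.2⟩, ?_⟩
  · rintro _ rfl
    exact h2
  · rw [h3, map_neg, neg_neg]

theorem IsOb.ratSy (h : IsOb A o) : RatSy o.k' (A.thin o.k' o.a o.θ) o.z := by
  intro D hD l c hl hc hz l' he
  have e1 : ∀ i, D (o.z i) = l i * o.z i + c i := congrFun hz
  have e2 : ∀ X ∈ kil (o.k' : Set ℂ), ∀ i, X ((o.z + c / l) i) = X (o.z i) := fun X hX i => by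
    rw [Pi.add_apply, map_add, Pi.div_apply, hX _ (o.k'.div_mem (hc i) (hl i)), add_zero]
  obtain ⟨D', h1, h2, h3, h4⟩ := h.ovr.gmx_pv (a := o.a) (D := D) (l := l) (l' := l') h.cac.cnt
    (sub_acl h.le) (fun j i => mem_acl_of_mem (h.th j i))
    (x := cut (fun i => l i ≠ 0) (o.z + c / l)) (ζ := cut (fun i => l i = 0) o.z) hD.1
    (fun i => by
      by_cases hi : l i = 0
      · simp [cut_apply, hi]
      · rw [cut_pos (p := fun i => l i ≠ 0) hi, e2 D hD.1, e1, Pi.add_apply, Pi.div_apply, mul_add,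
          mul_div_cancel₀ _ hi])
    (fun i => mem_acl_of_mem (hl i))
    (fun i => by
      by_cases hi : l i = 0
      · simpa [cut_apply, hi, e1] using mem_acl_of_mem (hc i)
      · simp [cut_apply, hi])
    (fun j => (congrFun hD.2 j).symm ▸ zero_mem _)
    (fun q hq => by
      obtain ⟨b, hb⟩ := IsLocalization.exist_integer_multiples_of_finite (nonZeroDivisors ℤ) q
      choose n hn using hb
      have e3 : ∀ y : ι → ℂ, ∑ i, (n i : ℂ) * y i = (b : ℤ) * ∑ i, q i * y i := fun y => by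
        rw [Finset.mul_sum]
        refine Finset.sum_congr rfl fun i _ => ?_
        have := congrArg ((↑) : ℚ → ℂ) (hn i)
        simp only [eq_intCast, zsmul_eq_mul, Rat.cast_mul, Rat.cast_intCast] at this
        rw [this, mul_assoc]
      have := he n (by rw [e3, hq, mul_zero])
      rw [e3] at this
      exact (mul_eq_zero.1 this).resolve_left (Int.cast_ne_zero.2 (nonZeroDivisors.coe_ne_zero b)))
  refine ⟨D', ⟨h1, h4⟩, funext fun i => ?_⟩
  by_cases hi : l i = 0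
  · have e3 := he (Pi.single i 1)
    simp only [Pi.single_apply, Int.cast_ite, Int.cast_one, Int.cast_zero, ite_mul, one_mul,
      zero_mul, Finset.sum_ite_eq', Finset.mem_univ, if_true] at e3
    have := h3 i
    rw [cut_pos (p := fun i => l i = 0) hi] at this
    rw [dv_apply, this, Pi.mul_apply, e3 hi, zero_mul]
  · have := h2 i
    rwa [cut_pos (p := fun i => l i ≠ 0) hi, e2 D' h1] at this

theorem IsOb.thin_lie (h : IsOb A o) : ∀ D ∈ A.thin o.k' o.a o.θ, ∀ D' ∈ A.thin o.k' o.a o.θ,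
    ⁅D, D'⁆ ∈ A.thin o.k' o.a o.θ := fun D hD D' hD' => ⟨lie_kil hD.1 hD'.1, by
  change A.pv _ _ _ = 0
  rw [h.ovr.pv_lie (kil_anti h.le hD.1) (kil_anti h.le hD'.1) (fun j i => hD.1 _ (h.th j i))
    fun j i => hD'.1 _ (h.th j i), show A.pv o.θ o.a D = 0 from hD.2,
    show A.pv o.θ o.a D' = 0 from hD'.2]
  funext j
  simp⟩

variable [DecidableEq κ]

/-- Constant rows can be split off. -/
theorem pos_of_core (hG : S_GROW A) (h : IsOb A o) {p : ι → Prop} (hp0 : ∃ j, p j)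
    (hp : supp ℂ p ≤ o.N) (ih : Less A (Fintype.card κ) (Fintype.card ι)) : POS A o := by
  classical
  obtain ⟨τ, hτ⟩ := h.fresh
  have h0 := ne_zero_of_notMem hτ
  have hp' : ∀ u ∈ o.N, cut p u ∈ o.N := fun u _ => hp (cut_mem_supp p u)
  have h1 := h.ext hτ
  have e1 : ∀ D : Der ℂ, dv (cut p o.z) D ∈ supp ℂ p := fun D i hi => by simp [cut_neg hi]
  have h2 := h1.sub (p := p) hp' (trd_le_of_dv fun D _ => ⟨hp (e1 D), e1 D⟩)
  have e2 : (o.k' : Set ℂ) ⊆ acl (o.k' ∪ range (τ • cut p o.z)) := sub_acl subset_union_left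
  have e3 : ((o.ext τ).k' : Set ℂ) ⊆ ((o.ext τ).sub p).k' := sub_acl subset_union_left
  have e4 : ∀ i, τ * cut p o.z i ∈ acl (o.k' ∪ range (τ • cut p o.z)) := fun i =>
    mem_acl_of_mem (Or.inr ⟨i, rfl⟩)
  have hx : IsCx A ⟨(o.ext τ).sub p, acl (o.k' ∪ range (τ • cut p o.z)), τ, 1⟩ := by
    refine ⟨h2, fun _ hx => e2 (h.le hx), .acl (h.cac.cnt.union (finite_range _).countable),
      fun j i => e2 (h.th j i), fun h3 => ?_, acl_congr (union_subset (acl_mono
        (union_subset_union_left _ e2)) (range_subset_iff.2 fun i => ?_)) (union_subset (acl_le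
        (union_subset ((sub_acl subset_union_left).trans e3) (range_subset_iff.2 fun i => ?_)))
        (singleton_subset_iff.2 (e3 (mem_acl_single _ τ)))), cf_one⟩
    · obtain ⟨D, h4, h5, h6⟩ := h.ndg.vec o.z 0
      obtain ⟨D', h7, h8, h9⟩ := h.exists_flip hτ ⟨h4, h6⟩ τ
      refine h0 (h8.symm.trans (acl_le_cst ((kil_union _ _).ge
        ⟨kil_anti subset_union_left h7.1, ?_⟩) h3))
      rintro _ ⟨i, rfl⟩
      by_cases hi : p i
      · have a1 := h5 (Pi.single i 1) (hp fun j hj => Pi.single_eq_of_ne (fun e : j = i => hj (e ▸ hi)) _)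
        rw [single_one_dotProduct, single_one_dotProduct] at a1
        have a2 : D' (o.z i) = -o.z i := (congrFun h9 i).trans (congrArg Neg.neg a1)
        simp [cut_pos hi, h8, a2, mul_comm]
      · simp [cut_neg hi]
    · have a1 : τ * cut p o.z i ∈ acl ((acl (o.k' ∪ range (τ • cut p o.z)) : Set ℂ) ∪ {τ}) :=
        mem_acl_of_mem (Or.inl (e4 i))
      have := mul_mem (inv_mem (mem_acl_single _ τ)) a1
      rwa [inv_mul_cancel_left₀ h0] at this
    · exact mul_mem (e3 (mem_acl_single _ τ)) (mem_acl_of_mem (Or.inr ⟨i, rfl⟩))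
  obtain ⟨k₁, σ, e, m, P, H, b, c1, c2, c3, he, hσ, hm, hP⟩ := hG _ _ _ hx (Or.inl rfl)
    fun _ d _ _ hr => ih _ _ _ ((Fintype.card_subtype_le _).lt_or_eq.imp_right fun e =>
      ⟨e, Fintype.card_subtype_lt (not_not.2 hp0.choose_spec)⟩) hr.ob
  have e5 : ((o.ext τ).k' : Set ℂ) ∪ o.E ∪ pt A o.z o.a ⊆
      acl (((o.ext τ).sub p).k' ∪ o.E ∪ pt A ((o.ext τ).sub p).z o.a) :=
    union_subset (sub_acl ((union_subset_union_left _ e3).trans subset_union_left))
      ((pt_sub (o.ext τ) p).trans (acl_mono (union_subset_union_left _ subset_union_left)))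
  have e6 : (o.k' : Set ℂ) ⊆ (o.ext τ).k' := sub_acl subset_union_left
  refine ⟨Function.extend Subtype.val m fun _ => e, fun j => ?_, pos_of_fin hτ h.le c1 c2 c3
    (subset_trans (union_subset (union_subset_union_left _ (union_subset_union_left _ e6))
      (singleton_subset_iff.2 (Or.inl (Or.inl (mem_acl_single _ τ))))) e5) hσ
    (PosAt.ext (μ := e) (F := ((o.ext τ).sub p).k') hp' (fun i hi => ?_)
      (by rwa [Function.extend_comp Subtype.val_injective])
      (union_subset_union_left _ (union_subset_union_right _ e2))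
      (union_subset_union_left _ (union_subset_union_right _ e6))
      (hσ ▸ mem_acl_of_mem (Or.inl (Or.inr (mem_acl_single _ τ)))) (fun i hi => Or.inl (Or.inr ?_))
      (h1.ndgF (c3.mono subset_rfl (e5.trans (acl_mono subset_union_right)))))⟩
  · by_cases hj : p j
    · rwa [Function.extend_apply' _ _ _ (by simpa using hj)]
    · exact (Subtype.val_injective.extend_apply m _ ⟨j, hj⟩).symm ▸ hm _
  · exact Function.extend_apply' _ _ _ (by simpa using hi)
  · rw [show σ ^ e = τ from hσ, ← cut_pos (u := o.z) hi]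
    exact e4 i

/-- An invariant polynomial that is not constant gives positivity. -/
theorem pos_of_inv (hG : S_GROW A) (hA : S_GAIN A) (h : IsOb A o) {n : ℕ} (hs : HasSym A o n)
    {f : MvPolynomial ι ℂ} (hf : Cf o.k' f)
    (h1 : ∀ φ c, IsSym A o φ c → ∀ y, tg y (φ *ᵥ y + c) f = 0) {D : Der ℂ}
    (hD : D ∈ A.thin o.k' o.a o.θ) (hD' : D (MvPolynomial.eval o.z f) ≠ 0)
    (ih : Less A (Fintype.card κ) (Fintype.card ι))
    (ih' : ∀ (κ' : Type) [Fintype κ'] [DecidableEq κ'] (o' : Ob ι κ' g),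
      Fintype.card κ' = Fintype.card κ → IsOb A o' → HasSym A o' (n + 1) → POS A o') :
    POS A o := by
  obtain ⟨τ, hτ⟩ := h.fresh
  obtain ⟨ξ, h2, h3⟩ := hs
  have e1 : o.k' ≤ (o.ext τ).k' := sub_acl subset_union_left
  have hx := h.cx hτ ((cf_C (mem_acl_single _ τ)).mul (hf.mono e1))
  refine (hG _ _ _ hx (Or.inr ?_) fun B₀ d σ hc hr => ?_).pos hτ h.le
  · obtain ⟨D', h4, h5⟩ := h.thin_ext hτ hD
    refine ⟨D', h4, ?_⟩
    change D' (MvPolynomial.eval o.z (MvPolynomial.C τ * f)) ≠ 0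
    rw [map_mul, MvPolynomial.eval_C, D'.leibniz, h4.1 _ (mem_acl_single _ τ), smul_zero, add_zero,
      hf.der (kil_anti e1 h4.1), h5, ← hf.der hD.1]
    exact mul_ne_zero (ne_zero_of_notMem hτ) hD'
  · by_cases h4 : d.s = ∅
    · refine hA _ _ _ f n ξ B₀ d σ hx rfl hf h.ndg.le h2 (fun l => ?_)
        (fun l => ⟨(h3 l).lin, (h3 l).vec⟩) (fun l y => ?_) hc h4 hr fun o' =>
          ih' _ o' (by simp [h4])
      · obtain ⟨X, h5, h6⟩ := (h3 l).ex
        obtain ⟨X', h7, h8⟩ := h.thin_ext hτ h5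
        exact ⟨fun i j => e1 ((h3 l).lin i j), fun i => e1 ((h3 l).vec i), (h3 l).st, X', h7,
          h8.trans h6⟩
      · simpa only [tg_eq_sum, mul_comm] using h1 _ _ (h3 l) y
    · obtain ⟨i, hi⟩ := Finset.nonempty_iff_ne_empty.2 h4
      exact ih _ _ _ (Or.inl (Fintype.card_subtype_lt (not_not.2 hi))) hr.ob

/-- The endomorphisms of a family with trivial hull and core are diagonal. -/
def S_END : Prop := ∀ (ι : Type) [Fintype ι] [DecidableEq ι] (k E : Subfield ℂ) (r : Setoid ι)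
  (R : Submodule ℂ (ι → ℂ)), Fam k E r R → hull k R = ⊤ → core k R = ⊥ →
    ∃ G : Matrix ι ι ℂ, GrM k r G ∧ ∀ k' : Subfield ℂ, k ≤ k' → Free (k : Set ℂ) k' E →
      ∀ φ : Matrix ι ι ℂ, (∀ i j, φ i j ∈ k') → act φ (act G R) ≤ act G R →
        ∃ l : ι → ℂ, φ = diagonal l

omit [Fintype κ] [DecidableEq κ] in
theorem POS.bc {G : Matrix ι ι ℂ} (hG : GrM o.k o.r G) (h : POS A (o.bc G)) : POS A o :=
  h.imp fun _ h => ⟨h.1, h.2.bc hG⟩

theorem pos_step (hS : A.S_SIM) (hE : S_END) (hR : S_RES A) (hX : S_EXP A) (hF : S_FIN A)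
    (hG : S_GROW A) (hA : S_GAIN A) (h : IsOb A o) {n : ℕ} (hs : HasSym A o n)
    (ih : Less A (Fintype.card κ) (Fintype.card ι))
    (ih' : ∀ (κ' : Type) [Fintype κ'] [DecidableEq κ'] (o' : Ob ι κ' g),
      Fintype.card κ' = Fintype.card κ → IsOb A o' → HasSym A o' (n + 1) → POS A o') :
    POS A o := by
  by_cases hh : hull o.k o.N = ⊤
  swap
  · obtain ⟨G, I, h1, h2⟩ := exists_supp (ov_hull (k := o.k) (R := o.N)) h.fam.gr.hull
    have h3 : act G o.N ≤ supp ℂ (· ∈ I) := h2 ▸ act_mono G le_hull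
    refine POS.bc h1 (pos_of_trans hS hR hX hF (h.bc h1) (p := (· ∉ I)) (S := ⊥) ?_
      (fun u hu => ?_) ov_bot bot_le bot_le (eq_bot_iff.2 fun u hu => funext fun i => ?_) ih)
    · by_contra h4
      push Not at h4
      refine hh (top_le_iff.1 ((act_le_act h1.det).1 ?_))
      exact h2 ▸ fun u _ i hi => (hi (h4 i)).elim
    · rw [cut_eq_zero.2 (h3 hu)]
      exact zero_mem _
    · by_cases hi : i ∈ I
      exacts [hu.1.2 i (not_not.2 hi), h3 hu.1.1 i hi]
  by_cases hc : core o.k o.N = ⊥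
  swap
  · obtain ⟨G, I, h1, h2⟩ := exists_supp (ov_core (k := o.k) (R := o.N)) h.fam.gr.core
    refine POS.bc h1 (pos_of_core hG (h.bc h1) (p := (· ∈ I)) ?_ (h2 ▸ act_mono G core_le) ih)
    by_contra h4
    push Not at h4
    refine hc (le_bot_iff.1 ((act_le_act h1.det).1 ?_))
    exact h2 ▸ fun u hu => (funext fun i => hu i (h4 i) : u = 0) ▸ zero_mem _
  obtain ⟨G, h1, h2⟩ := hE _ _ _ _ _ h.fam hh hc
  have h3 := h.bc h1
  refine POS.bc h1 ?_
  rcases sy_cases (N := (o.bc G).N) inf_le_left h3.thin_lie h3.ratSy (E := acl (o.k' ∪ o.E))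
    (sub_acl subset_union_left) h3.ovB (fun v => (h3.ndgE.vec v 0).imp fun D hD =>
      ⟨⟨kil_anti subset_union_left hD.1, hD.2.2⟩, (kil_acl _).ge hD.1, hD.2.1⟩) with
    ⟨p, S, a1, a2, a3, a4, a5, a6⟩ | ⟨m, c, a1, a2, a3, D, a4, a5⟩ | ⟨f, a1, a2, D, a3, -, a4⟩
  · exact pos_of_trans hS hR hX hF h3 a1
      (fun u hu => a2.cut (fun i j (e : p i = p j) hi => e ▸ hi) hu) a3 a4 a5 a6 ih
  · exact pos_of_scale hS h3 a1 a2 a3 a4 a5
  · refine pos_of_inv hG hA h3 (hs.bc h.le h1) a1 (fun φ c hφ y => ?_) a3 a4 ih ih'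
    obtain ⟨l, rfl⟩ := h2 o.k' h.le (h.free.mono subset_union_left (sub_acl subset_union_right))
      φ hφ.lin hφ.st
    have e1 : ∀ y : ι → ℂ, diagonal l *ᵥ y = l * y := fun y => funext (mulVec_diagonal l y)
    rw [e1]
    refine a2 l c ⟨fun i => by simpa using hφ.lin i i, hφ.vec, fun u hu => ?_, e1 _ ▸ hφ.ex⟩ y
    convert hφ.st (vecMul_mem_act _ hu) using 1
    exact funext fun i => by rw [vecMul_diagonal, mul_comm, Pi.mul_apply]

omit [Fintype ι] [DecidableEq ι] [Fintype κ] [DecidableEq κ] in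
/-- Every object is positive. -/
theorem hgc_of (hS : A.S_SIM) (hE : S_END) (hR : S_RES A) (hX : S_EXP A) (hF : S_FIN A)
    (hG : S_GROW A) (hA : S_GAIN A) : S_HGC A := by
  have h1 : ∀ r w, Less A r w → Less A r (w + 1) := fun r w ih ι κ _ _ _ _ o hc ho => by
    by_cases h : Fintype.card κ < r ∨ Fintype.card κ = r ∧ Fintype.card ι < w
    · exact ih _ _ o h ho
    obtain ⟨rfl, rfl⟩ : Fintype.card κ = r ∧ Fintype.card ι = w := by omega
    have h2 : ∀ t n, finrank ℂ (Matrix ι ι ℂ × (ι → ℂ)) < n + t →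
        ∀ (κ' : Type) [Fintype κ'] [DecidableEq κ'] (o' : Ob ι κ' g),
          Fintype.card κ' = Fintype.card κ → IsOb A o' → HasSym A o' n → POS A o' := fun t => by
      induction t with
      | zero => exact fun n hn _ _ _ _ _ _ hs => absurd hs.le (not_le.2 hn)
      | succ t iht =>
        exact fun n hn κ' _ _ o' e ho' hs => pos_step hS hE hR hX hF hG hA ho' hs (e ▸ ih)
          fun κ'' _ _ o'' e' => iht (n + 1) (by omega) κ'' o'' (e'.trans e)
    exact h2 _ 0 (by rw [zero_add]; exact Nat.lt_succ_self _) κ o rfl ho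
      ⟨Fin.elim0, linearIndependent_empty_type, fun i => i.elim0⟩
  have h2 : ∀ r, Less A r 0 → ∀ w, Less A r w := fun r h w => Nat.rec h (h1 r) w
  have h3 : ∀ r, Less A r 0 := fun r => by
    induction r with
    | zero => exact fun _ _ _ _ _ _ _ h => absurd h (by omega)
    | succ r ih => exact fun ι κ _ _ _ _ o h => h2 r ih (Fintype.card ι + 1) _ _ o (by omega)
  exact fun ι κ _ _ _ _ o => h3 (Fintype.card κ + 1) _ _ o (by omega)

end Pool.Agent.P.MP_f17f76_ag.Hgc
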