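import Pool.Agent.P.MP_f17f76_ag.E.TLin
import Pool.Agent.P.MP_f17f76_ag.E.Fam2
import Pool.Agent.P.MP_f17f76_ag.E.NdA
import Pool.Agent.P.MP_f17f76_ag.E.Cf

/-!
The structure of a space of diagonal affine symmetries.
-/

namespace Pool.Agent.P.MP_f17f76_ag.E

open Set Module MvPolynomial

variable {K : Type} [Field K] {ι : Type} {F : Subfield K} {Δ : Submodule K (Der K)}
  {N : Submodule K (ι → K)} {z l c l' c' : ι → K}

/-- The diagonal affine field `l x + c` over `F` preserves `N` and is realised in `Δ`. -/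
structure Sy (F : Subfield K) (Δ : Submodule K (Der K)) (N : Submodule K (ι → K))
    (z l c : ι → K) : Prop where
  hl : ∀ i, l i ∈ F
  hc : ∀ i, c i ∈ F
  st : ∀ u ∈ N, l * u ∈ N
  ex : ∃ D ∈ Δ, dv z D = l * z + c

/-- Eigenvalues can be replaced by numbers with the same integer relations. -/
def RatSy [Fintype ι] (F : Subfield K) (Δ : Submodule K (Der K)) (z : ι → K) : Prop :=
  ∀ D ∈ Δ, ∀ l c : ι → K, (∀ i, l i ∈ F) → (∀ i, c i ∈ F) → dv z D = l * z + c →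
    ∀ l' : ι → K, (∀ e : ι → ℤ, ∑ i, e i * l i = 0 → ∑ i, e i * l' i = 0) →
      ∃ D' ∈ Δ, dv z D' = l' * (z + c / l)

theorem Sy.zero : Sy F Δ N z 0 0 :=
  ⟨fun _ => F.zero_mem, fun _ => F.zero_mem, fun u _ => by simp, 0, Δ.zero_mem, by simp⟩

theorem Sy.add (h : Sy F Δ N z l c) (h' : Sy F Δ N z l' c') : Sy F Δ N z (l + l') (c + c') := by
  obtain ⟨D, h1, h2⟩ := h.ex
  obtain ⟨D', h3, h4⟩ := h'.ex
  refine ⟨fun i => F.add_mem (h.hl i) (h'.hl i), fun i => F.add_mem (h.hc i) (h'.hc i),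
    fun u hu => add_mul l l' u ▸ N.add_mem (h.st u hu) (h'.st u hu), D + D', Δ.add_mem h1 h3, ?_⟩
  rw [map_add, h2, h4]
  ring

theorem Sy.smul (h : Sy F Δ N z l c) {q : K} (hq : q ∈ F) : Sy F Δ N z (q • l) (q • c) := by
  obtain ⟨D, h1, h2⟩ := h.ex
  refine ⟨fun i => F.mul_mem hq (h.hl i), fun i => F.mul_mem hq (h.hc i),
    fun u hu => smul_mul_assoc q l u ▸ N.smul_mem q (h.st u hu), q • D, Δ.smul_mem q h1, ?_⟩
  rw [map_smul, h2, smul_add, smul_mul_assoc]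

theorem Sy.sub (h : Sy F Δ N z l c) (h' : Sy F Δ N z l' c') : Sy F Δ N z (l - l') (c - c') := by
  simpa only [neg_smul, one_smul, ← sub_eq_add_neg] using h.add (h'.smul (F.neg_mem F.one_mem))

theorem Sy.lie (hΔ : Δ ≤ kil (F : Set K)) (hb : ∀ D ∈ Δ, ∀ D' ∈ Δ, ⁅D, D'⁆ ∈ Δ)
    (h : Sy F Δ N z l c) (h' : Sy F Δ N z l' c') : Sy F Δ N z 0 (l' * c - l * c') := by
  obtain ⟨D, h1, h2⟩ := h.ex
  obtain ⟨D', h3, h4⟩ := h'.ex
  refine ⟨fun _ => F.zero_mem, fun i => F.sub_mem (F.mul_mem (h'.hl i) (h.hc i))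
    (F.mul_mem (h.hl i) (h'.hc i)), fun u _ => by simp, ⁅D, D'⁆, hb D h1 D' h3, ?_⟩
  rw [dv_lie, h2, h4]
  funext i
  have e1 : D (z i) = l i * z i + c i := congrFun h2 i
  have e2 : D' (z i) = l' i * z i + c' i := congrFun h4 i
  simp only [Pi.sub_apply, dv_apply, Pi.add_apply, Pi.mul_apply, map_add, Derivation.leibniz,
    hΔ h1 _ (h'.hl i), hΔ h1 _ (h'.hc i), hΔ h3 _ (h.hl i), hΔ h3 _ (h.hc i), e1, e2, smul_eq_mul,
    Pi.zero_apply]
  ring

variable [Fintype ι]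

theorem Sy.rat (hr : RatSy F Δ z) (h : Sy F Δ N z l c) (hl' : ∀ i, l' i ∈ F)
    (he : ∀ e : ι → ℤ, ∑ i, e i * l i = 0 → ∑ i, e i * l' i = 0) :
    Sy F Δ N z l' (l' * (c / l)) := by
  classical
  obtain ⟨D, h1, h2⟩ := h.ex
  obtain ⟨D', h3, h4⟩ := hr D h1 l c h.hl h.hc h2 l' he
  refine ⟨hl', fun i => F.mul_mem (hl' i) (F.div_mem (h.hc i) (h.hl i)),
    fun u hu => stable_of_stable h.st (fun i j hij => ?_) hu, D', h3, h4.trans (mul_add _ _ _)⟩
  have := he (Pi.single i 1 - Pi.single j 1)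
  simp only [Pi.sub_apply, Int.cast_sub, sub_mul, Finset.sum_sub_distrib, Pi.single_apply,
    Int.cast_ite, Int.cast_one, Int.cast_zero, ite_mul, one_mul, zero_mul, Finset.sum_ite_eq',
    Finset.mem_univ, if_true, sub_eq_zero] at this
  exact this hij

theorem graded_of_stable {Γ : Type} {W : Submodule K (ι → K)} {φ : ι → K} {m : ι → Γ}
    (h : ∀ x ∈ W, φ * x ∈ W) (hm : ∀ i j, φ i = φ j → m i = m j) : Graded (Setoid.ker m) W := by
  classical
  intro j u hu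
  convert stable_of_stable (ψ := fun i => if m i = m j then 1 else 0) h
    (fun i i' e => by rw [hm i i' e]) hu using 1
  funext i
  simp [cut_apply, Setoid.ker_def]

theorem Graded.stable {Γ : Type} {W : Submodule K (ι → K)} {φ : ι → K} {m : ι → Γ}
    (h : Graded (Setoid.ker m) W) (hm : ∀ i j, m i = m j → φ i = φ j) {x : ι → K} (hx : x ∈ W) :
    φ * x ∈ W := by
  refine mem_of_cut (m := m) fun j => ?_
  convert W.smul_mem (φ j) (h j x hx) using 1
  funext i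
  by_cases e : m i = m j
  · simp [cut_apply, Setoid.ker_def, e, hm i j e]
  · simp [cut_apply, Setoid.ker_def, e]

variable [CharZero K]

/-- The symmetries are translations and rational dilations with a common centre. -/
theorem exists_split (hΔ : Δ ≤ kil (F : Set K)) (hb : ∀ D ∈ Δ, ∀ D' ∈ Δ, ⁅D, D'⁆ ∈ Δ)
    (hr : RatSy F Δ z) : ∃ (T : Submodule ℚ (ι → ℚ)) (φ : ι → ℚ) (o : ι → K)
      (S : Submodule K (ι → K)), (∀ i, o i ∈ F) ∧ Ov F S ∧ S ≤ Δ.map (dv z) ∧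
      (∀ x ∈ T, (∀ u ∈ N, (fun i => (x i : K)) * u ∈ N) ∧
        ∃ D ∈ Δ, dv z D = (fun i => (x i : K)) * (z - o)) ∧
      Graded (Setoid.ker φ) N ∧ Graded (Setoid.ker φ) S ∧ ∀ l c, Sy F Δ N z l c →
        (∀ π : K →ₗ[ℚ] ℚ, π ∘ l ∈ T) ∧ (∀ i j, φ i = φ j → l i = l j) ∧ c + l * o ∈ S := by
  classical
  let T : Submodule ℚ (ι → ℚ) :=
    { carrier := {x | ∃ c, Sy F Δ N z (fun i => (x i : K)) c}
      add_mem' := fun ⟨c, h⟩ ⟨c', h'⟩ => ⟨c + c', by
        convert h.add h' using 1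
        funext i; simp⟩
      zero_mem' := ⟨0, by simpa using! Sy.zero⟩
      smul_mem' := fun q _ ⟨c, h⟩ => ⟨(q : K) • c, by
        convert h.smul (SubfieldClass.ratCast_mem F q) using 1
        funext i; simp⟩ }
  obtain ⟨φ, ⟨c₀, h0⟩, h1, h2⟩ := exists_sep_vec T
  let S := Submodule.span K {c | Sy F Δ N z 0 c}
  have hS : S ≤ Δ.map (dv z) := Submodule.span_le.2 fun c hc => by simpa using! hc.ex
  have hφ := h0.rat hr h0.hl fun _ h => h
  have h3 : ∀ x ∈ S, (fun i => (φ i : K)) * x ∈ S := fun x hx =>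
    (Submodule.span_le (p := S.comap (LinearMap.mulLeft K fun i => (φ i : K)))).2
      (fun c hc => Submodule.subset_span (by simpa using! Sy.lie hΔ hb hc h0)) hx
  have h4 : Graded (Setoid.ker φ) S := graded_of_stable h3 fun i j => Rat.cast_inj.1
  have h5 : ∀ l c, Sy F Δ N z l c → ∀ π : K →ₗ[ℚ] ℚ, π ∘ l ∈ T := fun l c h π =>
    ⟨_, h.rat hr (fun i => SubfieldClass.ratCast_mem F _) fun e he => by
      have := congrArg π he
      simp only [map_sum, ← zsmul_eq_mul, map_zsmul, map_zero] at this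
      simpa using congrArg ((↑) : ℚ → K) this⟩
  have h6 : ∀ l c, Sy F Δ N z l c → c + l * -(c₀ / fun i => (φ i : K)) ∈ S := fun l c h => by
    have e0 : ∀ i, φ i = 0 → l i = 0 := fun i hi =>
      eq_zero_of_rat fun π => h1 i hi _ (h5 l c h π)
    have e1 := stable_of_stable (ψ := fun i => (φ i : K)⁻¹) h3 (fun i j e => by rw [e])
      (Submodule.subset_span (Sy.lie hΔ hb h hφ))
    have e2 := h.sub (h.rat hr h.hl fun _ h => h)
    rw [sub_self] at e2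
    have e3 := h4.cut (p := fun i => φ i = 0) (fun i j e hi => e.symm.trans hi)
      (Submodule.subset_span e2)
    convert S.add_mem e1 e3 using 1
    funext i
    by_cases hi : φ i = 0
    · simp [cut_apply, hi, e0 i hi]
    · have : (φ i : K) ≠ 0 := Rat.cast_ne_zero.2 hi
      simp only [Pi.add_apply, Pi.mul_apply, Pi.neg_apply, Pi.div_apply, Pi.sub_apply, cut_apply,
        if_neg hi]
      field_simp
      ring
  refine ⟨T, φ, -(c₀ / fun i => (φ i : K)), S, fun i => F.neg_mem (F.div_mem (h0.hc i) (h0.hl i)),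
    ov_span fun c hc => hc.hc, hS, fun x ⟨c, hx⟩ => ⟨hx.st, ?_⟩,
    graded_of_stable h0.st fun i j => Rat.cast_inj.1, h4, fun l c h => ⟨h5 l c h,
      fun i j e => sub_eq_zero.1 (eq_zero_of_rat fun π => ?_), h6 l c h⟩⟩
  · obtain ⟨D, h7, h8⟩ := hx.ex
    obtain ⟨D', h9, h10⟩ := hS (h6 _ c hx)
    refine ⟨D - D', Δ.sub_mem h7 h9, ?_⟩
    rw [map_sub, h8, h10]
    ring
  · rw [map_sub, sub_eq_zero]
    exact h2 i j e _ (h5 l c h π)

/-- The linear form `n (X - o)`. -/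
noncomputable def lform (n o : ι → K) : MvPolynomial ι K := ∑ i, C (n i) * (X i - C (o i))

omit [CharZero K] in
theorem eval_lform (n o x : ι → K) : eval x (lform n o) = n ⬝ᵥ (x - o) := by
  simp [lform, dotProduct]

omit [CharZero K] in
theorem tg_lform (n o x ξ : ι → K) : tg x ξ (lform n o) = n ⬝ᵥ ξ := by
  simp [lform, tg_sum, tg_mul, tg_sub, dotProduct]

omit [CharZero K] [Fintype ι] in
theorem tg_prod {T : Type} {x ξ : ι → K} {f : T → MvPolynomial ι K} {a : T → K}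
    (h : ∀ t, tg x ξ (f t) = a t * eval x (f t)) (s : Finset T) :
    tg x ξ (∏ t ∈ s, f t) = (∑ t ∈ s, a t) * eval x (∏ t ∈ s, f t) := by
  classical
  induction s using Finset.induction_on with
  | empty => simpa using tg_C (x := x) (ξ := ξ) 1
  | insert t s ht ih =>
    rw [Finset.prod_insert ht, Finset.sum_insert ht, tg_mul, ih, h, map_mul]
    ring

omit [CharZero K] [Fintype ι] in
theorem der_prod {T : Type} (D : Der K) {y : T → K} (hy : ∀ t, y t ≠ 0) (s : Finset T) :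
    D (∏ t ∈ s, y t) = (∏ t ∈ s, y t) * ∑ t ∈ s, (y t)⁻¹ * D (y t) := by
  classical
  induction s using Finset.induction_on with
  | empty => simp
  | insert t s ht ih =>
    have := hy t
    rw [Finset.prod_insert ht, Finset.sum_insert ht, D.leibniz, ih, smul_eq_mul, smul_eq_mul]
    field_simp
    ring

/-- The three cases of the terminal analysis. -/
theorem sy_cases (hΔ : Δ ≤ kil (F : Set K)) (hb : ∀ D ∈ Δ, ∀ D' ∈ Δ, ⁅D, D'⁆ ∈ Δ)
    (hr : RatSy F Δ z) {E : Subfield K} (hE : F ≤ E) (hN : Ov E N)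
    (hex : ∀ v : ι → K, ∃ D ∈ Δ, D ∈ kil (E : Set K) ∧ ∀ n ∈ N, n ⬝ᵥ dv z D = n ⬝ᵥ v) :
    (∃ (p : ι → Prop) (S : Submodule K (ι → K)), (∃ j, p j) ∧ Graded (Setoid.ker p) N ∧ Ov F S ∧
      S ≤ supp K p ∧ S ≤ Δ.map (dv z) ∧ N ⊓ supp K p ⊓ ann S = ⊥) ∨
    (∃ (m : ι → ℕ) (o : ι → K), (∀ i, 0 < m i) ∧ (∀ i, o i ∈ F) ∧ Graded (Setoid.ker m) N ∧
      ∃ D ∈ Δ, dv z D = (fun i => (m i : K)) * (z - o)) ∨
    ∃ f : MvPolynomial ι K, Cf F f ∧ (∀ l c, Sy F Δ N z l c → ∀ x, tg x (l * x + c) f = 0) ∧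
      ∃ D ∈ Δ, D ∈ kil (E : Set K) ∧ D (eval z f) ≠ 0 := by
  classical
  obtain ⟨T, φ, o, S, ho, hS, hS', hT, hN', hS'', hy⟩ := exists_split (N := N) hΔ hb hr
  by_cases hA : ∃ j, N ⊓ supp K (fun i => φ i = φ j) ⊓ ann S = ⊥
  · obtain ⟨j, hj⟩ := hA
    refine Or.inl ⟨fun i => φ i = φ j, S ⊓ supp K _, ⟨j, rfl⟩,
      hN'.mono fun i i' (e : φ i = φ i') => show (φ i = φ j) = (φ i' = φ j) by rw [e],
      hS.inf (ov_supp _), inf_le_right, inf_le_left.trans hS', eq_bot_iff.2 (hj.le.trans' ?_)⟩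
    refine fun n hn => ⟨hn.1, fun w hw => ?_⟩
    rw [← cut_eq_self.2 hn.1.2, cut_dot]
    exact hn.2 _ ⟨hS'' j w hw, cut_mem_supp _ _⟩
  refine Or.inr ?_
  rcases gordan T with ⟨m, hm, hm'⟩ | ⟨e, ⟨i₀, hi₀⟩, he⟩
  · obtain ⟨h1, D, h2, h3⟩ := hT _ hm'
    exact Or.inl ⟨m, o, hm, ho, graded_of_stable h1 fun i j e => by exact_mod_cast e, D, h2,
      by simpa using! h3⟩
  refine Or.inr ?_
  have h1 : ∀ j, ∃ n ∈ N ⊓ supp K (fun i => φ i = φ j) ⊓ ann S, n ≠ 0 ∧ ∀ i, n i ∈ E := fun j => by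
    by_contra h
    push Not at h
    refine hA ⟨j, eq_bot_iff.2 (((hN.inf (ov_supp _)).inf (hS.ann.mono hE)).le_of fun n h1 h2 => ?_)⟩
    by_contra h3
    obtain ⟨i, hi⟩ := h n h1 h3
    exact hi (h2 i)
  choose n hn hn0 hnE using h1
  have h2 : ∀ D ∈ Δ, D ∈ kil (E : Set K) → ∀ j, D (n j ⬝ᵥ (z - o)) = n j ⬝ᵥ dv z D :=
    fun D h h' j => by
      rw [der_dot_of fun i => h' _ (hnE j i)]
      congr 1
      funext i
      simp [hΔ h _ (ho i)]
  have h3 : ∀ u ∈ N, u ≠ 0 → ∃ D ∈ Δ, D ∈ kil (E : Set K) ∧ u ⬝ᵥ dv z D ≠ 0 := fun u hu h => by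
    obtain ⟨i, hi⟩ := Function.ne_iff.1 h
    obtain ⟨D, h4, h5, h6⟩ := hex (Pi.single i 1)
    exact ⟨D, h4, h5, by simpa [h6 u hu] using hi⟩
  have h4 : ∀ j, n j ⬝ᵥ (z - o) ≠ 0 := fun j h => by
    obtain ⟨D, h5, h6, h7⟩ := h3 _ (hn j).1.1 (hn0 j)
    exact h7 (by rw [← h2 D h5 h6, h, map_zero])
  obtain ⟨D, h5, h6, h7⟩ := h3 (∑ t : Σ i, Fin (e i), (n t.1 ⬝ᵥ (z - o))⁻¹ • n t.1)
    (N.sum_mem fun t _ => N.smul_mem _ (hn _).1.1) fun h => by
      have := congrArg (· ⬝ᵥ (z - o)) h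
      simp only [sum_dotProduct, smul_dotProduct, smul_eq_mul, inv_mul_cancel₀ (h4 _),
        zero_dotProduct, Finset.sum_const, nsmul_one, Nat.cast_eq_zero, Finset.card_eq_zero] at this
      exact Finset.ne_empty_of_mem (Finset.mem_univ ⟨i₀, ⟨0, hi₀⟩⟩) this
  obtain ⟨q, h8, h9⟩ := exists_forms (hΔ h5) (z - o)
    (fun t : Σ i, Fin (e i) => supp K (fun i => φ i = φ t.1) ⊓ ann S)
    (fun _ => (ov_supp _).inf hS.ann) (fun t => n t.1) (fun t => ⟨(hn _).1.2, (hn _).2⟩)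
    (fun t i => h6 _ (hnE _ i)) Finset.univ 1 (by
      rw [one_mul, der_prod D fun t => h4 _]
      refine mul_ne_zero (Finset.prod_ne_zero_iff.2 fun t _ => h4 _) fun h => h7 ?_
      rw [← h, sum_dotProduct]
      exact Finset.sum_congr rfl fun t _ => by rw [smul_dotProduct, h2 D h5 h6, smul_eq_mul])
  refine ⟨∏ t, lform (q t) o, cf_prod fun t _ => cf_sum fun i _ =>
    (cf_C ((h8 t).2 i)).mul ((cf_X i).sub (cf_C (ho i))), fun l c h x => ?_, D, h5, h6, ?_⟩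
  · obtain ⟨h10, h11, h12⟩ := hy l c h
    rw [tg_prod (a := fun t => l t.1)]
    · have : ∑ i, l i * (e i : K) = 0 := sum_eq_zero_of_rat fun π => by
        simpa [Rat.smul_def, mul_comm] using congrArg ((↑) : ℚ → K) (he _ (h10 π))
      simp [Fintype.sum_sigma, mul_comm, this]
    · intro t
      rw [tg_lform, eval_lform, show l * x + c = l * (x - o) + (c + l * o) by ring, dotProduct_add,
        (h8 t).1.2 _ h12, add_zero, dotProduct, dotProduct, Finset.mul_sum]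
      refine Finset.sum_congr rfl fun i _ => ?_
      by_cases hi : φ i = φ t.1
      · rw [Pi.mul_apply, h11 _ _ hi, mul_left_comm]
      · simp [(h8 t).1.1 i hi]
  · simpa only [map_prod, eval_lform, one_mul] using h9

end Pool.Agent.P.MP_f17f76_ag.E
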