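import Pool.Agent.P.MP_f17f76_ag.E.TOb
import Pool.Agent.P.MP_f17f76_ag.E.Tch
import Pool.Agent.P.MP_f17f76_ag.E.TSym

/-!
Positivity from symmetries: dilations with positive weights and translations.
-/

namespace Pool.Agent.P.MP_f17f76_ag.Hgc

open Set Module Matrix E

variable {g N : ℕ} {ι κ : Type} {A : AbVar g N} [Fintype ι] [Fintype κ]

section

variable {R : Submodule ℂ (ι → ℂ)} {B F : Set ℂ} {u z : ι → ℂ} {a : Fin g → ℂ}
  {θ : κ → Fin g → ℂ} {τ : ℂ} {D : Der ℂ}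

theorem mem_acl_single (B : Set ℂ) (τ : ℂ) : τ ∈ acl (B ∪ {τ}) := mem_acl_of_mem (Or.inr rfl)

omit [Fintype κ] in
theorem sur_base (h : Sur A R B u a θ) (hF : F ⊆ acl B) : Sur A R F u a θ := fun v c =>
  (h v c).imp fun _ h => ⟨kil_le hF h.1, h.2⟩

theorem ndg_of_sur' (h : Sur A R F u a θ)
    (hle : trd F (pt A u a) ≤ finrank ℂ R + Fintype.card κ) : A.Ndg R F u a θ :=
  AbVar.ndg_of_vec hle fun v c => (h v c).imp fun _ h => ⟨h.1, fun n hn => by
    have := h.2.1 n hn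
    rwa [dotProduct_comm, dotProduct_sub, sub_eq_zero] at this, h.2.2⟩

theorem ndg_diag (h : A.Ndg R F z a θ) {d c : ι → ℂ} (hd : ∀ i, d i ∈ acl F) (hd' : ∀ i, d i ≠ 0)
    (hc : ∀ i, c i ∈ acl F) (hR : ∀ n ∈ R, d * n ∈ R) : A.Ndg R F (d * (z - c)) a θ := by
  refine AbVar.ndg_of_vec ((trd_le (finite_pt z a) (pt_subset fun i => ?_)).trans h.le) fun v c => ?_
  · exact mul_mem (acl_mono subset_union_left (hd i)) (sub_mem
      (mem_acl_of_mem (Or.inr (Or.inl ⟨i, rfl⟩))) (acl_mono subset_union_left (hc i)))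
  · obtain ⟨D, h1, h2, h3⟩ := h.vec (d⁻¹ * v) c
    refine ⟨D, h1, fun n hn => ?_, h3⟩
    convert h2 _ (hR n hn) using 1 <;> refine Finset.sum_congr rfl fun i _ => ?_
    · simp [mem_cst.1 (acl_le_cst h1 (hd i)), mem_cst.1 (acl_le_cst h1 (hc i))]
      ring
    · have := hd' i
      simp only [Pi.mul_apply, Pi.inv_apply]
      field_simp

theorem der_pow_self (h : D τ = τ) (n : ℕ) : D (τ ^ n) = n * τ ^ n := by
  induction n with
  | zero => simp
  | succ n ih =>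
    rw [pow_succ, D.leibniz, ih, h, smul_eq_mul, smul_eq_mul, Nat.cast_succ]
    ring

/-- The place attached to a thin derivation that kills the values of the rows. -/
theorem exists_unit (hS : A.S_SIM) {k : Subfield ℂ} (hA : A.Over k) (hB : B.Countable)
    (hk : (k : Set ℂ) ⊆ acl B) (hθ : ∀ j i, θ j i ∈ acl B) (hR : Ov (acl B) R) (h0 : τ ≠ 0)
    (hN : A.Ndg R (B ∪ {τ}) u a θ) (hD : D ∈ A.thin B a θ) (hτ : D τ = τ) (hu : dv u D ∈ ann R) :
    ∃ (P : Plc ℂ ℂ) (b : Fin g → ℂ), P.IdOn (acl B) ∧ P.v τ < 1 ∧ A.Red P a b ∧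
      (∀ f ∈ acl (B ∪ {τ} ∪ pt A u a),
        (D f = 0 → P.v f ≤ 1) ∧ (P.v f < 1 → ∃ q : ℕ, P.v (f ^ q) ≤ P.v τ)) ∧
      ((∀ j, P.v (u j) ≤ 1) → Sur A R B (P.r ∘ u) b θ) := by
  obtain ⟨n, h1, h2, h3⟩ := hR.exists_basis
  have hn : ∀ l, n l ∈ R := fun l => h3.le (Submodule.subset_span ⟨l, rfl⟩)
  have e0 : ∀ X ∈ kil B, ∀ l (y : ι → ℂ), X (n l ⬝ᵥ y) = n l ⬝ᵥ dv y X := fun X hX l y =>
    der_dot_of (fun i => acl_le_cst hX (h1 l i)) y
  have e1 : ∀ X ∈ kil (B ∪ range (fun l => n l ⬝ᵥ u) ∪ {τ}), A.pv θ a X = 0 →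
      X ∈ kil (pt A u a) := fun X hX hX' => by
    refine hN.kil (kil_anti (union_subset_union_left _ subset_union_left) hX) (fun x hx => ?_) hX'
    rw [AbVar.dot_span (w := 0) (fun l => ?_) (h3.ge hx), dotProduct_zero]
    rw [← e0 X (kil_anti (subset_union_left.trans subset_union_left) hX), dotProduct_zero]
    exact hX _ (Or.inl (Or.inr ⟨l, rfl⟩))
  have e2 : B ⊆ B ∪ range fun l => n l ⬝ᵥ u := subset_union_left
  obtain ⟨P, b, h4, h5, h6, h7, h8⟩ := hA.unit (θ := θ) (a := a) (D := D) hS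
    (hB.union (finite_range fun l => n l ⬝ᵥ u).countable) (hk.trans (acl_mono e2))
    (fun j i => acl_mono e2 (hθ j i)) h0
    ⟨(kil_union _ _).ge ⟨hD.1, by
      rintro _ ⟨l, rfl⟩
      rw [e0 D hD.1, dotProduct_comm]
      exact hu _ (hn l)⟩, hD.2⟩ hτ
    (by
      rw [← finrank_map_kil (A.pv θ a) (finite_range _) fun X hX =>
        ⟨fun h => kil_anti subset_union_right (e1 X hX h), AbVar.pv_eq_zero⟩,
        ← finrank_fintype_fun_eq_card ℂ]
      exact Submodule.finrank_le _)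
    (union_right_comm _ _ _ ▸ hN.pair hn fun l i => acl_mono subset_union_left (h1 l i))
  refine ⟨P, b, h4.mono (acl_mono e2), h5, h6, fun f hf => h8 f (acl_le (union_subset
    (sub_acl ((union_subset_union_left _ e2).trans subset_union_left))
    (subset_acl_iff_kil.2 fun X hX => e1 X (kil_anti subset_union_left hX)
      (AbVar.pv_eq_zero (kil_anti subset_union_right hX)))) hf), fun hi v c => ?_⟩
  obtain ⟨D₁, h9, h10, -⟩ := hN.vec v 0
  obtain ⟨X, h11, h12⟩ := h7 (c - A.pv θ b D₁)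
  have e3 := kil_anti subset_union_left h9
  refine ⟨D₁ + X, add_mem e3 (kil_anti e2 h11), ?_, by rw [map_add, h12, add_sub_cancel]⟩
  rw [← h3, mem_ann_span]
  rintro _ ⟨l, rfl⟩
  have e4 : n l ⬝ᵥ (P.r ∘ u) = n l ⬝ᵥ u := by
    have := (AbVar.v_dot (fun i => (h4 _ (acl_mono e2 (h1 l i))).1) hi).2
    rw [show P.r ∘ n l = n l from funext fun i => (h4 _ (acl_mono e2 (h1 l i))).2] at this
    exact this.symm.trans (h4 _ (mem_acl_of_mem (Or.inr ⟨l, rfl⟩))).2
  rw [dotProduct_comm, dotProduct_sub, ← e0 _ (add_mem e3 (kil_anti e2 h11)), e4,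
    Derivation.add_apply, h11 _ (Or.inr ⟨l, rfl⟩), e0 _ e3, h10 _ (hn l), add_zero, sub_self]

end

variable [DecidableEq ι] {o : Ob ι κ g} {τ : ℂ}

theorem IsOb.fresh (h : IsOb A o) : ∃ τ, τ ∉ acl (o.k' ∪ o.E ∪ pt A o.z o.a) :=
  haveI : Uncountable ℂ := Complex.ofReal_injective.uncountable
  exists_notMem_acl h.cnt

theorem IsOb.kB (h : IsOb A o) : (o.k : Set ℂ) ⊆ acl (o.k' ∪ o.E : Set ℂ) :=
  sub_acl (subset_trans h.le subset_union_left)

theorem IsOb.ovB (h : IsOb A o) : Ov (acl (o.k' ∪ o.E)) o.N :=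
  h.fam.ov.mono (sub_acl subset_union_right)

theorem IsOb.ndgT (h : IsOb A o) (hτ : τ ∉ acl (o.k' ∪ o.E ∪ pt A o.z o.a)) :
    A.Ndg o.N (o.k' ∪ o.E ∪ {τ}) o.z o.a o.θ := h.ndgE.free (free_single hτ).symm

theorem IsOb.exists_flip (h : IsOb A o) (hτ : τ ∉ acl (o.k' ∪ o.E ∪ pt A o.z o.a)) {D : Der ℂ}
    (hD : D ∈ A.thin o.k' o.a o.θ) (c : ℂ) :
    ∃ D' ∈ A.thin (o.k' ∪ o.E) o.a o.θ, D' τ = c ∧ dv o.z D' = -dv o.z D := by
  obtain ⟨D₁, h1, h2⟩ := h.free'.exists_der_ext hD.1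
  obtain ⟨D₂, h3, h4⟩ := exists_der_fresh hτ (-D₁) c
  have h5 : ∀ x ∈ pt A o.z o.a, D₂ x = (-D) x := fun x hx => by
    rw [h3 x (mem_acl_of_mem (Or.inr hx)), Derivation.neg_apply, h2 x (mem_acl_of_mem (Or.inr hx)),
      Derivation.neg_apply]
  refine ⟨D₂, ⟨fun x hx => ?_, ?_⟩, h4, funext fun i => h5 _ (Or.inl ⟨i, rfl⟩)⟩
  · rw [h3 x (mem_acl_of_mem (Or.inl hx)), Derivation.neg_apply, h1 x hx, neg_zero]
  · exact (AbVar.pv_congr_der fun j => h5 _ (Or.inr ⟨j, rfl⟩)).trans (neg_mem hD).2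

/-- A dilation with positive weights gives positivity. -/
theorem pos_of_scale (hS : A.S_SIM) (h : IsOb A o) {m : ι → ℕ} (hm : ∀ i, 0 < m i) {c : ι → ℂ}
    (hc : ∀ i, c i ∈ o.k') (hg : Graded (Setoid.ker m) o.N) {D : Der ℂ}
    (hD : D ∈ A.thin o.k' o.a o.θ) (hz : dv o.z D = (fun i => (m i : ℂ)) * (o.z - c)) :
    POS A o := by
  obtain ⟨σ, hσ⟩ := h.fresh
  have h0 := ne_zero_of_notMem hσ
  obtain ⟨D', h1, h2, h3⟩ := h.exists_flip hσ hD σ
  have h4 : ∀ i, D' (σ ^ m i * (o.z i - c i)) = 0 := fun i => by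
    have : D' (o.z i) = -(m i * (o.z i - c i)) := congrFun (h3.trans (congrArg _ hz)) i
    rw [D'.leibniz, der_pow_self h2, map_sub, this, h1.1 _ (Or.inl (hc i)), smul_eq_mul, smul_eq_mul]
    ring
  obtain ⟨P, b, h5, h6, h7, h8, h9⟩ := exists_unit hS h.ovr (h.cac.cnt.union h.cE) h.kB
    (fun j i => mem_acl_of_mem (Or.inl (h.th j i))) h.ovB h0
    (ndg_diag (h.ndgT hσ) (d := fun i => σ ^ m i) (fun i => pow_mem (mem_acl_single _ σ) _)
      (fun i => pow_ne_zero _ h0) (fun i => mem_acl_of_mem (Or.inl (Or.inl (hc i))))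
      fun n hn => hg.stable (fun i j e => by rw [e]) hn) h1 h2
    ((funext h4 : dv ((fun i => σ ^ m i) * (o.z - c)) D' = 0) ▸ zero_mem _)
  have h10 : ∀ j, P.v (σ ^ m j * (o.z j - c j)) ≤ 1 := fun j =>
    (h8 _ (mem_acl_of_mem (Or.inr (Or.inl ⟨j, rfl⟩)))).1 (h4 j)
  have h11 : ∀ j, P.v (c j * σ ^ m j) < 1 := fun j =>
    Plc.v_mul_lt (h5 _ (mem_acl_of_mem (Or.inl (hc j)))).1 (by
      rw [map_pow]
      exact pow_lt_one₀ zero_le h6 (hm j).ne')
  have h12 : ∀ j, σ ^ m j * ((1 : Matrix ι ι ℂ)⁻¹ *ᵥ o.z) j =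
      σ ^ m j * (o.z j - c j) + c j * σ ^ m j := fun j => by
    rw [inv_one, one_mulVec]
    ring
  have h13 : (o.k : Set ℂ) ∪ o.k' ∪ o.E ⊆ acl (o.k' ∪ o.E : Set ℂ) :=
    union_subset (union_subset h.kB (sub_acl subset_union_left)) (sub_acl subset_union_right)
  refine ⟨m, hm, o.k, σ, P, 1, b, h.cac_k, le_rfl, free_of_sub (subset_acl _) _, fun h14 => hσ
    (acl_le (union_subset (h13.trans (acl_mono subset_union_left)) (sub_acl subset_union_right))
      h14), h5.mono h13, h0, h6, GrM.one _ _, fun j => ?_, h7, ?_⟩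
  · rw [h12]
    exact P.v.map_add_le (h10 j) (h11 j).le
  · rw [act_one, ini_eq_self hg]
    convert sur_base (h9 h10) h13 using 1
    funext j
    rw [h12, Plc.r_add (h10 j) (h11 j).le, Plc.r_of_lt (h11 j), add_zero]
    rfl

/-- Weak positivity from positivity of a subobject. -/
theorem Pos.of_sub {p : ι → Prop} [DecidablePred p] (h : IsOb A o) (hp : ∀ u ∈ o.N, cut p u ∈ o.N)
    {m : {i // ¬ p i} → ℕ} (hm : Pos A (o.sub p) m) :
    Pos A o (Function.extend Subtype.val m 0) := by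
  obtain ⟨k₁, σ, P, H, b, h1, h2, h3, h4, h5⟩ := hm
  have e1 : (o.k' : Set ℂ) ⊆ (o.sub p).k' := sub_acl subset_union_left
  have e2 : (o.k' : Set ℂ) ∪ o.E ∪ pt A o.z o.a ⊆
      acl ((o.sub p).k' ∪ o.E ∪ pt A (o.sub p).z o.a) :=
    union_subset (sub_acl ((union_subset_union_left _ e1).trans subset_union_left))
      ((pt_sub o p).trans (acl_mono (union_subset_union_left _ subset_union_left)))
  have e3 := h3.mono subset_rfl (e2.trans (acl_mono subset_union_right))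
  refine ⟨k₁, σ, P, extM Subtype.val H, b, h1, h2, e3, fun h6 => h4 (acl_le ?_ h6),
    PosAt.ext (μ := 0) (F := (o.sub p).k') hp (fun i hi => ?_)
      (by rwa [Function.extend_comp Subtype.val_injective])
      (union_subset_union_left _ (union_subset_union_right _ e1)) subset_rfl
      (by rw [pow_zero]; exact one_mem _) (fun i hi => Or.inl (Or.inr ?_)) (h.ndgF e3)⟩
  · rw [union_assoc (k₁ : Set ℂ), union_assoc (k₁ : Set ℂ), union_assoc (k₁ : Set ℂ),
      union_assoc (k₁ : Set ℂ)]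
    exact union_subset (sub_acl subset_union_left) (e2.trans (acl_mono subset_union_right))
  · exact Function.extend_apply' _ _ _ (by simpa using hi)
  · rw [pow_zero, one_mul]
    exact mem_acl_of_mem (Or.inr ⟨i, cut_pos hi⟩)

variable [DecidableEq κ]

/-- The configuration with centre zero and diagonal weights. -/
noncomputable def cdU (o : Ob ι κ g) (τ : ℂ) (P : Plc ℂ ℂ) (q : ι → ℂ) (b : Fin g → ℂ) :
    Cd ι κ g :=
  { k₁ := o.k, K₁ := acl (o.k' ∪ {τ}), Kp := acl (o.k' ∪ {τ}), P := P, G := 1, p := q, c := 0,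
    z := o.z, a := o.a, b := b, T := 1, s := ∅, W := 0, X := 0, π := τ }

variable {P : Plc ℂ ℂ} {q : ι → ℂ} {b : Fin g → ℂ}

omit [Fintype κ] in
theorem cdU_u (hq : ∀ i, q i ≠ 0) : (cdU o τ P q b).u = q⁻¹ * o.z := by
  have : (diagonal q)⁻¹ = diagonal q⁻¹ := inv_eq_right_inv (by simp [hq])
  funext i
  simp [Cd.u, cdU, Fr.M, this, mulVec_diagonal]

omit [Fintype κ] in
theorem cdU_bar {R : Submodule ℂ (ι → ℂ)} (h : Graded (Setoid.ker fun j => P.v (q j)) R) :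
    (cdU o τ P q b).bar R = R := by
  rw [Fr.bar, show (cdU o τ P q b).G = 1 from rfl, act_one]
  exact ini_eq_self h

omit [Fintype κ] [Fintype ι] in
theorem cdU_kap (h : P.IdOn o.k') : o.k' ≤ (cdU o τ P q b).kap :=
  sub_acl ((h.le_res (sub_acl subset_union_left)).trans subset_union_left)

theorem cc_cdU (h : IsOb A o) (hτ : τ ∉ acl (o.k' ∪ o.E ∪ pt A o.z o.a)) (hq : ∀ i, q i ≠ 0)
    (hq' : ∀ i, q i ∈ acl (o.k' ∪ {τ})) (hn : ∀ i j, P.v (q i) = P.v (q j) → q i = q j)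
    (hid : P.IdOn o.k') (hlt : P.v τ < 1)
    (har : ∀ y ∈ acl (o.k' ∪ {τ}), P.v y < 1 → ∃ n : ℕ, P.v (y ^ n) ≤ P.v τ)
    (hi : ∀ j, P.v ((q⁻¹ * o.z) j) ≤ 1) (hr : A.Red P o.a b)
    (hg : Graded (Setoid.ker fun j => P.v (q j)) o.N)
    (hs : Sur A o.N o.k' (P.r ∘ (q⁻¹ * o.z)) b o.θ) : CC A (o.cx τ 1) 0 (cdU o τ P q b) := by
  have h1 := h.ext hτ
  have h0 := ne_zero_of_notMem hτ
  refine ⟨⟨h.cac_k, h1.cac, h1.cac, le_rfl, h1.le, le_rfl, le_rfl,
    hid.mono (union_subset h.le subset_rfl), hlt, fun y hy hy' => (har y hy hy').imp fun n hn =>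
      (map_pow P.v y n).ge.trans hn, GrM.one _ _, hq, hq', fun _ => zero_mem _,
      fun j => Or.inr (by
        simp only [cdU, mulVec_zero, Pi.zero_apply, mul_zero]
        exact P.v.map_zero.trans_le zero_le_one), 0, fun _ => ⟨zero_mem _, by simp⟩, by simp [Ob.cx]⟩,
    hn, ⟨RingEquiv.refl ℂ, fun _ _ => rfl, rfl, rfl⟩, free_of_sub (subset_acl _) _,
    free_of_sub (subset_acl _) _, by simp [cdU], fun i j => ?_, by simp [cdU],
    Plc.gauss_empty (ι := (∅ : Finset κ)), by simp [cdU], h0, mem_acl_of_mem (Or.inr rfl), hlt,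
    (cdU_u (o := o) hq).symm ▸ hi, hr, ?_, by simp [cdU], by simp [cdU]⟩
  · exact (GrM.one (ι := κ) o.k' ⊤).mem i j
  have e1 : P.res (acl (o.k' ∪ {τ})) ≤ acl o.k' := by
    have := (Plc.tr_of_triv hid.triv h0 hlt.ne).res_acl_le
    rwa [hid.res] at this
  have e2 := ndg_of_sur' hs ((trd_anti (finite_pt _ _) e1).trans ((hr.trd_le).trans
    ((trd_le (finite_pt o.z o.a) (pt_subset fun i => mul_mem (inv_mem (mem_acl_of_mem
      (Or.inl (hq' i)))) (mem_acl_of_mem (Or.inr (Or.inl ⟨i, rfl⟩))))).trans h1.ndg.le)))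
  have e3 : ∀ i, (cdU o τ P q b).θ (o.cx τ 1) i = o.θ i := fun i => by
    simp [Cd.θ, cdU, one_apply, Ob.cx, Ob.ext]
  rw [cdU_u hq, show (o.cx τ 1).N = o.N from rfl, cdU_bar hg]
  simp only [e3]
  exact (e2.of_span (e2.pair₀.li.comp _ Subtype.val_injective)
    (fun j => Submodule.subset_span ⟨_, rfl⟩) (by simp [cdU])).congr_base
    ((acl_le (union_subset e1 (range_subset_iff.2 fun i => (Finset.notMem_empty _ i.2).elim))))
    (sub_acl (cdU_kap hid))

variable (A) in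
/-- All smaller objects are positive. -/
def Less (r w : ℕ) : Prop := ∀ (ι κ : Type) [Fintype ι] [DecidableEq ι] [Fintype κ] [DecidableEq κ]
  (o : Ob ι κ g), Fintype.card κ < r ∨ Fintype.card κ = r ∧ Fintype.card ι < w → IsOb A o → POS A o

/-- Enough translations give positivity. -/
theorem pos_of_trans (hS : A.S_SIM) (hR : S_RES A) (hX : S_EXP A) (hF : S_FIN A) (h : IsOb A o)
    {p : ι → Prop} {S : Submodule ℂ (ι → ℂ)} (hp0 : ∃ j, p j) (hp : ∀ u ∈ o.N, cut p u ∈ o.N)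
    (h1 : Ov o.k' S) (h2 : S ≤ supp ℂ p) (h3 : S ≤ A.tsp o.k' o.z o.a o.θ)
    (h4 : o.N ⊓ supp ℂ p ⊓ ann S = ⊥) (ih : Less A (Fintype.card κ) (Fintype.card ι)) :
    POS A o := by
  classical
  have e1 : ∀ x ∈ S, x ∈ ann o.N → x = 0 := fun x hx hx' => h.ndg.tsp_inf_ann.le ⟨h3 hx, hx'⟩
  obtain ⟨w, hw, hw'⟩ : ∃ w ∈ S, cut p o.z - w ∈ ann o.N := by
    have := congrArg ann h4
    rw [ann_inf, ann_ann, ann_bot] at this
    obtain ⟨x, hx, w, hw, e⟩ := Submodule.mem_sup.1 (this.ge (Submodule.mem_top (x := o.z)))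
    refine ⟨w, hw, fun n hn => ?_⟩
    rw [← cut_eq_self.2 (h2 hw), ← map_sub, cut_dot, ← e, add_sub_cancel_right]
    exact hx _ ⟨hp n hn, cut_mem_supp _ _⟩
  have e2 : ∀ X ∈ kil (o.k' ∪ o.E : Set ℂ), cut p (dv o.z X) ∈ S → dv w X = cut p (dv o.z X) :=
    fun X hX hX' => by
      refine (sub_eq_zero.1 (e1 _ (S.sub_mem hX' (h1.der (kil_anti subset_union_left hX) hw)) ?_)).symm
      convert h.fam.ov.ann.der (kil_anti subset_union_right hX) hw' using 1
      rw [← show dv (cut p o.z) X = cut p (dv o.z X) from cut_map X (map_zero X) p _]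
      funext i
      simp
  obtain ⟨D, hD, hD'⟩ := h3 hw
  obtain ⟨τ, hτ⟩ := h.fresh
  have h0 := ne_zero_of_notMem hτ
  obtain ⟨D', h5, h6, h7⟩ := h.exists_flip hτ hD τ
  rw [hD'] at h7
  have e3 : dv w D' = -w := by
    have : cut p (dv o.z D') = -w := by rw [h7, map_neg, cut_eq_self.2 (h2 hw)]
    exact (e2 D' h5.1 (this ▸ S.neg_mem hw)).trans this
  have e4 : ∀ i, D' (o.z i) = -w i := congrFun h7
  have e5 : ∀ i, D' (w i) = -w i := congrFun e3
  let q : ι → ℂ := fun i => if p i then τ⁻¹ else 1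
  have hq : ∀ i, q i ≠ 0 := fun i => by
    by_cases hi : p i <;> simp [q, hi, h0]
  have hq' : ∀ T : Set ℂ, ∀ i, q i ∈ acl (T ∪ {τ}) := fun T i => by
    by_cases hi : p i <;> simp only [q, hi, if_true, if_false]
    exacts [inv_mem (mem_acl_of_mem (Or.inr rfl)), one_mem _]
  have hg : Graded (Setoid.ker p) o.N := fun j u hu => by
    by_cases hj : p j
    · convert hp u hu using 3
      simp [Setoid.ker_def, hj]
    · convert o.N.sub_mem hu (hp u hu) using 1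
      rw [eq_sub_iff_add_eq']
      convert cut_add_cut p u using 4
      simp [Setoid.ker_def, hj]
  have e6 := ndg_diag (h.ndgT hτ) (d := q⁻¹) (c := 0) (fun i => inv_mem (hq' _ i))
    (fun i => inv_ne_zero (hq i)) (fun _ => zero_mem _) fun n hn =>
      hg.stable (fun i j e => by simp only [q, Pi.inv_apply, e]) hn
  rw [sub_zero] at e6
  obtain ⟨P, b, h8, h9, h10, h11, h12⟩ := exists_unit hS h.ovr (h.cac.cnt.union h.cE) h.kB
    (fun j i => mem_acl_of_mem (Or.inl (h.th j i))) h.ovB h0 e6 h5 h6 (by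
      convert (ann o.N).smul_mem τ hw' using 1
      funext i
      by_cases hi : p i
      · simp [q, hi, cut_pos hi, h6, e4]
        ring
      · simp [q, hi, cut_neg hi, e4, h2 hw i hi])
  have e7 : ∀ i, o.z i ∈ acl (o.k' ∪ o.E ∪ {τ} ∪ pt A (q⁻¹ * o.z) o.a) := fun i => by
    have : (q⁻¹ * o.z) i ∈ acl (o.k' ∪ o.E ∪ {τ} ∪ pt A (q⁻¹ * o.z) o.a) :=
      mem_acl_of_mem (Or.inr (Or.inl ⟨i, rfl⟩))
    simpa [hq i] using mul_mem (acl_mono subset_union_left (hq' _ i)) this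
  have e8 : ∀ i, w i ∈ acl (o.k' ∪ o.E ∪ {τ} ∪ pt A (q⁻¹ * o.z) o.a) := fun i =>
    mem_acl_iff_der.2 fun X hX => by
      have : cut p (dv o.z X) = 0 := by
        rw [show dv o.z X = 0 from funext fun i => acl_le_cst hX (e7 i), map_zero]
      exact congrFun ((e2 X (kil_anti (subset_union_left.trans subset_union_left) hX)
        (this ▸ S.zero_mem)).trans this) i
  have e9 : ∀ i, P.v (τ * w i) ≤ 1 := fun i => (h11 _ (mul_mem
    (mem_acl_of_mem (Or.inl (Or.inr rfl))) (e8 i))).1 (by simp [h6, e5, mul_comm])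
  have e10 : ∀ i, P.v (o.z i - w i) ≤ 1 := fun i =>
    (h11 _ (sub_mem (e7 i) (e8 i))).1 (by rw [map_sub, e4, e5, sub_self])
  have e11 : ∀ i, p i → (q⁻¹ * o.z) i = τ * w i + (o.z i - w i) * τ := fun i hi => by
    simp only [q, Pi.mul_apply, Pi.inv_apply, hi, if_true, inv_inv]
    ring
  have e12 : ∀ i, P.v ((q⁻¹ * o.z) i) ≤ 1 := fun i => by
    by_cases hi : p i
    · exact e11 i hi ▸ P.v.map_add_le (e9 i) (Plc.v_mul_lt (e10 i) h9).le
    · simpa [q, hi, h2 hw i hi] using e10 i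
  have hid : P.IdOn o.k' := h8.mono (sub_acl subset_union_left)
  have e13 : cut p (P.r ∘ (q⁻¹ * o.z)) ∈ S := by
    refine h1.mem_of_forms fun α hα hα' => ?_
    have := (AbVar.v_dot (fun i => (hid _ (hα i)).1) e9).2
    rw [show (fun i => τ * w i) = τ • w from rfl, hα' _ (S.smul_mem τ hw), Plc.r_zero] at this
    rw [this]
    congr 1
    · exact funext fun i => (hid _ (hα i)).2.symm
    · funext i
      by_cases hi : p i
      · rw [cut_pos hi, Function.comp_apply, e11 i hi, Plc.r_add (e9 i)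
          (Plc.v_mul_lt (e10 i) h9).le, Plc.r_of_lt (Plc.v_mul_lt (e10 i) h9), add_zero]
        rfl
      · simp [cut_neg hi, h2 hw i hi]
  have e14 : 1 < P.v τ⁻¹ := (P.v_inv_lt_one (inv_ne_zero h0)).1 (by rwa [inv_inv])
  have hg' : Graded (Setoid.ker fun j => P.v (q j)) o.N :=
    hg.mono fun i j (e : p i = p j) => show P.v (q i) = P.v (q j) by simp only [q, e]
  have hx := h.cx hτ cf_one
  have hc := cc_cdU h hτ hq (hq' _) (fun i j => by
      by_cases hi : p i <;> by_cases hj : p j <;> simp [q, hi, hj, -map_inv₀, e14.ne, e14.ne'])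
    hid h9 (fun y hy => (h11 y (acl_mono ((union_subset_union_left _ subset_union_left).trans
      subset_union_left) hy)).2) e12 h10 hg' (sur_base (h12 e12) (sub_acl subset_union_left))
  obtain ⟨σ, hσ⟩ := hR _ _ _ _ _ hx hc
  have e15 : ((cdU o τ P q b).res (o.cx τ 1) σ).N = cj σ o.N := cdU_bar (hg'.cj σ)
  have e16 : ∀ u ∈ cj σ o.N, cut p u ∈ cj σ o.N := fun u hu =>
    (hg.cj σ).cut (fun i j (e : p i = p j) hi => e ▸ hi) hu
  have e17 : finrank ℂ S ≤ finrank ℂ (cj σ o.N ⊓ supp ℂ p : Submodule ℂ _) := by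
    have a1 := finrank_ann (o.N ⊓ supp ℂ p)
    have a2 := Submodule.finrank_add_finrank_le_of_disjoint (s := S) (t := ann (o.N ⊓ supp ℂ p))
      (Submodule.disjoint_def.2 fun x hx hx' => e1 x hx fun n hn => by
        rw [← cut_eq_self.2 (h2 hx), cut_dot]
        exact hx' _ ⟨hp n hn, cut_mem_supp _ _⟩)
    rw [finrank_fintype_fun_eq_card] at a2
    rw [← cj_supp (σ := σ), ← cj_inf, finrank_cj]
    omega
  have e18 : cut p (P.r ∘ (cdU o τ P q b).u) ∈ S := by rwa [cdU_u hq]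
  obtain ⟨m, hm, hm'⟩ := ih _ _ _ (Or.inr ⟨by simp [cdU], Fintype.card_subtype_lt
    (not_not.2 hp0.choose_spec)⟩) (hσ.ob.sub (p := p) (e15 ▸ e16) (e15 ▸ le_trans
      (trd_le_of_dv fun X hX => (h1.mono (cdU_kap hid)).der hX e18) e17))
  have e19 : (cdU o τ P q b).Rad τ fun j => if p j then 1 else 0 := fun j c n hn hc => by
    have a1 : ∀ t : ℤ, t < 0 → 1 ≤ P.v (τ ^ t) := fun t ht => by
      rw [map_zpow₀]
      exact one_le_zpow_of_nonpos₀ (P.v_pos h0) h9.le ht.le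
    change 1 ≤ P.v (τ ^ c * q j ^ n)
    by_cases hj : p j
    · simp only [hj, if_true, one_mul] at hc
      simp only [q, hj, if_true]
      rw [inv_pow, ← zpow_natCast, ← div_eq_mul_inv, ← zpow_sub₀ h0]
      exact a1 _ (sub_neg.2 (by exact_mod_cast hc))
    · simp only [hj, if_false, zero_mul] at hc
      simp only [q, hj, if_false, one_pow, mul_one]
      exact a1 _ (by exact_mod_cast hc)
  obtain ⟨n, hn, w', h13, h14⟩ := hX _ _ _ _ _ _ σ _ hx hc e19 hσ (hm'.of_sub hσ.ob (e15 ▸ e16))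
  refine (hF _ _ _ _ _ _ hx h13 h14 fun j => ?_).pos hτ h.le
  by_cases hj : p j
  · rw [if_pos hj, Nat.cast_zero]
    positivity
  · have := hm ⟨j, hj⟩
    rw [if_neg hj, Subtype.val_injective.extend_apply m 0 ⟨j, hj⟩, Nat.cast_zero, zero_add]
    positivity

end Pool.Agent.P.MP_f17f76_ag.Hgc
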