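import Pool.Agent.P.MP_f17f76_ag.E.Der
import Pool.Agent.P.MP_f17f76_ag.BrSub
import Pool.Agent.P.MP_f17f76_ag.BrFib

/-!
Differentials of polynomials, Zariski tangent spaces, and smoothness of the cone over an abelian
subvariety at every point.
-/

namespace Pool.Agent.P.MP_f17f76_ag.E

open MvPolynomial Filter Topology Module

section tg

variable {R σ τ : Type} [CommRing R] {x ξ : σ → R} {p q : MvPolynomial σ R}

/-- Evaluation at the point `x + ε ξ` with values in the dual numbers. -/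
noncomputable def dev (x ξ : σ → R) : MvPolynomial σ R →ₐ[R] DualNumber R :=
  aeval fun i => TrivSqZeroExt.inl (x i) + TrivSqZeroExt.inr (ξ i)

/-- The differential of `p` at `x` applied to `ξ`. -/
noncomputable def tg (x ξ : σ → R) (p : MvPolynomial σ R) : R := (dev x ξ p).snd

theorem dev_fst (x ξ : σ → R) (p : MvPolynomial σ R) : (dev x ξ p).fst = eval x p := by
  induction p using MvPolynomial.induction_on with
  | C a => simp [dev, TrivSqZeroExt.algebraMap_eq_inl]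
  | add p q hp hq => simp [hp, hq]
  | mul_X p i hp =>
    rw [map_mul, TrivSqZeroExt.fst_mul, hp]
    simp [dev]

@[simp] theorem tg_C (a : R) : tg x ξ (C a) = 0 := by
  simp [tg, dev, TrivSqZeroExt.algebraMap_eq_inl]

@[simp] theorem tg_X (i : σ) : tg x ξ (X i) = ξ i := by simp [tg, dev]

@[simp] theorem tg_zero : tg x ξ 0 = 0 := by simp [tg]

theorem tg_add : tg x ξ (p + q) = tg x ξ p + tg x ξ q := by simp [tg]

theorem tg_sub : tg x ξ (p - q) = tg x ξ p - tg x ξ q := by simp [tg]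

theorem tg_mul : tg x ξ (p * q) = eval x p * tg x ξ q + eval x q * tg x ξ p := by
  simp [tg, dev_fst, mul_comm]

theorem tg_sum {ι : Type} (s : Finset ι) (f : ι → MvPolynomial σ R) :
    tg x ξ (∑ i ∈ s, f i) = ∑ i ∈ s, tg x ξ (f i) := by
  simp [tg, TrivSqZeroExt.snd_sum]

theorem tg_pow (n : ℕ) : tg x ξ (p ^ (n + 1)) = (n + 1) * eval x p ^ n * tg x ξ p := by
  induction n with
  | zero => simp
  | succ n ih =>
    rw [pow_succ, tg_mul, ih]
    simp only [map_pow, Nat.cast_add, Nat.cast_one]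
    ring

theorem tg_aeval (G : τ → MvPolynomial σ R) (p : MvPolynomial τ R) :
    tg x ξ (aeval G p) = tg (fun j => eval x (G j)) (fun j => tg x ξ (G j)) p := by
  have : (dev x ξ).comp (aeval G) = dev (fun j => eval x (G j)) fun j => tg x ξ (G j) :=
    algHom_ext fun j => by
      rw [AlgHom.comp_apply, aeval_X, dev.eq_1 (fun j => eval x (G j)), aeval_X]
      ext
      · simp [dev_fst]
      · simp [tg]
  exact congrArg TrivSqZeroExt.snd (DFunLike.congr_fun this p)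

theorem tg_rename (f : τ → σ) (p : MvPolynomial τ R) :
    tg x ξ (rename f p) = tg (x ∘ f) (ξ ∘ f) p := by
  rw [show rename f = aeval fun j => X (f j) from algHom_ext fun j => by simp, tg_aeval]
  simp [Function.comp_def]

theorem tg_eq_sum [Fintype σ] (x ξ : σ → R) (p : MvPolynomial σ R) :
    tg x ξ p = ∑ i, eval x (pderiv i p) * ξ i := by
  classical
  induction p using MvPolynomial.induction_on with
  | C a => simp
  | add p q hp hq => simp only [tg_add, map_add, hp, hq, add_mul, Finset.sum_add_distrib]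
  | mul_X p i hp =>
    simp only [tg_mul, map_mul, eval_X, Derivation.leibniz, smul_eq_mul, hp, map_add,
      pderiv_X, add_mul, Finset.sum_add_distrib, Finset.mul_sum, tg_X]
    congr 1
    · rw [Finset.sum_eq_single i] <;> simp +contextual [eq_comm]
    · exact Finset.sum_congr rfl fun j _ => by ring

theorem tg_zero_vec (x : σ → R) (p : MvPolynomial σ R) : tg x 0 p = 0 := by
  induction p using MvPolynomial.induction_on with
  | C a => simp
  | add p q hp hq => simp [tg_add, hp, hq]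
  | mul_X p i hp => simp [tg_mul, hp]

theorem tg_lin (x ξ ξ' : σ → R) (a : R) (p : MvPolynomial σ R) :
    tg x (a • ξ + ξ') p = a * tg x ξ p + tg x ξ' p := by
  induction p using MvPolynomial.induction_on with
  | C a => simp
  | add p q hp hq => simp only [tg_add, hp, hq]; ring
  | mul_X p i hp => simp only [tg_mul, hp, tg_X, Pi.add_apply, Pi.smul_apply, smul_eq_mul]; ring

/-- The Zariski tangent space at `x` of the zero set of `P`. -/
def zar (P : Set (MvPolynomial σ R)) (x : σ → R) : Submodule R (σ → R) where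
  carrier := {ξ | ∀ p ∈ P, tg x ξ p = 0}
  add_mem' {a b} ha hb p hp := by simpa [ha p hp, hb p hp] using tg_lin x a b 1 p
  zero_mem' p _ := tg_zero_vec x p
  smul_mem' c a ha p hp := by simpa [ha p hp, tg_zero_vec] using tg_lin x a 0 c p

theorem mem_zar {P : Set (MvPolynomial σ R)} : ξ ∈ zar P x ↔ ∀ p ∈ P, tg x ξ p = 0 := Iff.rfl

theorem mem_zar_span {P : Set (MvPolynomial σ R)} (h0 : ∀ p ∈ P, eval x p = 0)
    (h : ξ ∈ zar P x) : ξ ∈ zar (Ideal.span P) x := by
  intro p hp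
  refine (Submodule.span_induction (p := fun p _ => eval x p = 0 ∧ tg x ξ p = 0)
    (fun p hp => ⟨h0 p hp, h p hp⟩) ⟨map_zero _, tg_zero⟩ (fun p q _ _ hp hq => ?_)
    (fun a p _ hp => ?_) hp).2
  · simp [tg_add, hp.1, hp.2, hq.1, hq.2]
  · simp [tg_mul, hp.1, hp.2]

end tg

theorem der_eval' {K σ : Type} [Field K] [Finite σ] (D : Der K) (p : MvPolynomial σ K)
    (hp : ∀ m, D (p.coeff m) = 0) (v : σ → K) : D (eval v p) = tg v (dv v D) p := by
  have := Fintype.ofFinite σ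
  rw [der_eval D p hp, tg_eq_sum]
  rfl

theorem hasDerivAt_eval {σ : Type} (p : MvPolynomial σ ℂ) {c : ℂ → σ → ℂ} {ξ : σ → ℂ} {s : ℂ}
    (h : ∀ i, HasDerivAt (fun τ => c τ i) (ξ i) s) :
    HasDerivAt (fun τ => eval (c τ) p) (tg (c s) ξ p) s := by
  induction p using MvPolynomial.induction_on with
  | C a => simpa using hasDerivAt_const s a
  | add p q hp hq => simpa only [tg_add, map_add] using hp.fun_add hq
  | mul_X p i hp =>
    simp only [tg_mul, map_mul, eval_X, tg_X]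
    exact (hp.fun_mul (h i)).congr_deriv (by ring)

/-- Off a proper closed subset a Zariski tangent vector is determined by its basis coordinates. -/
theorem zar_ker {σ : Type} [Fintype σ] (P : Ideal (MvPolynomial σ ℂ)) [hP : P.IsPrime]
    {T : Finset σ} (hT : Indep P T) (halg : AlgOver P T) : ∃ D ∉ P, ∀ x : σ → ℂ, eval x D ≠ 0 →
      ∀ ξ ∈ zar P x, (∀ i ∈ T, ξ i = 0) → ξ = 0 := by
  choose f _ h1 h2 using chart_min hT halg
  refine ⟨∏ k, chartEv T k (f k).derivative, fun h => ?_, fun x hx ξ hξ h0 => funext fun k => ?_⟩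
  · obtain ⟨k, -, hk⟩ := Ideal.IsPrime.prod_mem_iff.1 h
    exact h2 k hk
  have key : ∀ F : Polynomial (MvPolynomial T ℂ),
      tg x ξ (chartEv T k F) = eval x (chartEv T k F.derivative) * ξ k := by
    intro F
    have h3 : ∀ a : MvPolynomial T ℂ, tg x ξ (rename Subtype.val a) = 0 := fun a => by
      rw [tg_rename, show ξ ∘ Subtype.val = 0 from funext fun i : T => h0 i i.2, tg_zero_vec]
    induction F using Polynomial.induction_on' with
    | add p q hp hq =>
      simp only [chartEv, Polynomial.eval₂_add, map_add, tg_add, add_mul] at hp hq ⊢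
      rw [hp, hq]
    | monomial n a =>
      rcases n with _ | n
      · simp [chartEv, h3]
      · simp [chartEv, Polynomial.derivative_monomial, tg_mul, tg_pow, h3]
        ring
  rw [map_prod, Finset.prod_ne_zero_iff] at hx
  exact (mul_eq_zero.1 ((key _).symm.trans (hξ _ (h1 k)))).resolve_left (hx k (Finset.mem_univ _))

theorem finrank_zar_le {σ : Type} [Fintype σ] (P : Ideal (MvPolynomial σ ℂ)) [P.IsPrime]
    {T : Finset σ} (hT : Indep P T) (halg : AlgOver P T) : ∃ D ∉ P, ∀ x : σ → ℂ, eval x D ≠ 0 →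
      finrank ℂ (zar P x) ≤ T.card := by
  obtain ⟨D, hD, h⟩ := zar_ker P hT halg
  refine ⟨D, hD, fun x hx => ?_⟩
  have := LinearMap.finrank_le_finrank_of_injective
    (f := (LinearMap.funLeft ℂ ℂ (Subtype.val : T → σ)).domRestrict (zar P x))
    ((injective_iff_map_eq_zero _).2 fun ξ hξ =>
      Subtype.ext (h x hx ξ ξ.2 fun i hi => congrFun hξ ⟨i, hi⟩))
  simpa using this

end Pool.Agent.P.MP_f17f76_ag.E

namespace Pool.Agent.P.MP_f17f76_ag.AbVar

open MvPolynomial Filter Topology Module E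

variable {g N : ℕ} (A : AbVar g N)

/-- The ideal of the cone over `exp U`. -/
def lieI (U : Submodule ℂ (Fin g → ℂ)) : Ideal (MvPolynomial (Fin N) ℂ) :=
  vanI Set.univ fun y : U × ℂ => y.2 • A.θ y.1

theorem mem_lieI {U : Submodule ℂ (Fin g → ℂ)} {p : MvPolynomial (Fin N) ℂ} :
    p ∈ A.lieI U ↔ ∀ u ∈ U, ∀ t : ℂ, eval (t • A.θ u) p = 0 :=
  ⟨fun h u hu t => h (⟨u, hu⟩, t) trivial, fun h y _ => h _ y.1.2 _⟩

theorem zero_lieI {U : Submodule ℂ (Fin g → ℂ)} (hU : A.IsLie U) {y : Fin N → ℂ} :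
    (∀ p ∈ A.lieI U, eval y p = 0) ↔ ∃ u ∈ U, ∃ t : ℂ, y = t • A.θ u := by
  refine ⟨fun h => ?_, fun ⟨u, hu, t, e⟩ p hp => e ▸ A.mem_lieI.1 hp u hu t⟩
  obtain ⟨J, hJ⟩ := A.closed
  obtain ⟨t, w, rfl⟩ := (hJ y).1 fun p hp => h p (A.mem_lieI.2 fun u _ t => (hJ _).2 ⟨t, u, rfl⟩ p hp)
  rcases eq_or_ne t 0 with rfl | ht
  · exact ⟨0, U.zero_mem, 0, by simp⟩
  obtain ⟨m, hm, h1⟩ := zcl_sub (w := w) hU fun p hp s => by
    have := h (aeval (fun k => C (s / t) * X k) p) (A.mem_lieI.2 fun u hu r => by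
      rw [eval_smul_poly, smul_smul]
      exact hp u hu _)
    rwa [eval_smul_poly, smul_smul, div_mul_cancel₀ _ ht] at this
  obtain ⟨s, hs⟩ := (A.per (w - m) w).2 (by simpa using hm)
  exact ⟨_, h1, t * s, by rw [mul_smul, ← hs]⟩

/-- The tangent map of the cone parametrisation. -/
noncomputable def tm (w : Fin g → ℂ) (s : ℂ) : ((Fin g → ℂ) × ℂ) →ₗ[ℂ] (Fin N → ℂ) :=
  (s • (fderiv ℂ A.θ w).toLinearMap).coprod (LinearMap.toSpanSingleton ℂ _ (s • A.θ w))

theorem tm_apply (w : Fin g → ℂ) (s : ℂ) (v : Fin g → ℂ) (t : ℂ) :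
    A.tm w s (v, t) = s • fderiv ℂ A.θ w v + t • s • A.θ w := rfl

theorem tm_injective (w : Fin g → ℂ) {s : ℂ} (hs : s ≠ 0) : Function.Injective (A.tm w s) := by
  rw [injective_iff_map_eq_zero]
  rintro ⟨v, t⟩ h
  rw [tm_apply, smul_comm t, ← smul_add, smul_eq_zero_iff_right hs] at h
  obtain rfl : v = 0 := A.imm w v (-t) (by rw [neg_smul]; exact eq_neg_of_add_eq_zero_left h)
  rw [map_zero, zero_add] at h
  rw [(smul_eq_zero.1 h).resolve_right (A.ne_zero w)]
  rfl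

theorem hasDerivAt_cone {W : ℂ → Fin g → ℂ} {r : ℂ → ℂ} {v : Fin g → ℂ} {t : ℂ}
    (hW : HasDerivAt W v 0) (hr : HasDerivAt r (t * r 0) 0) :
    HasDerivAt (fun τ => r τ • A.θ (W τ)) (A.tm (W 0) (r 0) (v, t)) 0 := by
  refine (hr.smul ((A.analytic _ trivial).differentiableAt.hasFDerivAt.comp_hasDerivAt 0
    hW)).congr_deriv ?_
  rw [tm_apply, mul_smul]
  rfl

theorem hasDerivAt_line (w v : Fin g → ℂ) (s t : ℂ) :
    HasDerivAt (fun τ : ℂ => (s + τ * (t * s)) • A.θ (w + τ • v)) (A.tm w s (v, t)) 0 := by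
  have h1 : HasDerivAt (fun τ : ℂ => w + τ • v) v 0 := by
    simpa using ((hasDerivAt_id (0 : ℂ)).smul_const v).const_add w
  have h2 : HasDerivAt (fun τ : ℂ => s + τ * (t * s)) (t * (s + 0 * (t * s))) 0 := by
    simpa using ((hasDerivAt_id (0 : ℂ)).mul_const (t * s)).const_add s
  simpa using A.hasDerivAt_cone h1 h2

/-- The derivative of a curve in the cone lying over a differentiable curve of logarithms. -/
theorem deriv_cone {W : ℂ → Fin g → ℂ} {y : ℂ → Fin N → ℂ} {v : Fin g → ℂ} {ξ : Fin N → ℂ}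
    (hW : HasDerivAt W v 0) (hy : HasDerivAt y ξ 0) (h : ∀ τ, ∃ r : ℂ, y τ = r • A.θ (W τ))
    {s : ℂ} (hs : s ≠ 0) (h0 : y 0 = s • A.θ (W 0)) : ∃ t, ξ = A.tm (W 0) s (v, t) := by
  obtain ⟨j, hj⟩ := Function.ne_iff.1 (A.ne_zero (W 0))
  have h1 := hasDerivAt_pi.1
    ((A.analytic _ trivial).differentiableAt.hasFDerivAt.comp_hasDerivAt 0 hW) j
  have h2 := (hasDerivAt_pi.1 hy j).fun_div h1 hj
  have h3 : y 0 j / A.θ (W 0) j = s := by
    rw [h0]
    exact mul_div_cancel_right₀ _ hj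
  have h4 := A.hasDerivAt_cone (r := fun τ => y τ j / A.θ (W τ) j) hW
    (h2.congr_deriv (div_mul_cancel₀ _ (h3.trans_ne hs)).symm)
  rw [h3] at h4
  refine ⟨_, hy.unique (h4.congr_of_eventuallyEq ?_)⟩
  filter_upwards [h1.continuousAt.eventually_ne hj] with τ hτ
  obtain ⟨r, hr⟩ := h τ
  rw [hr]
  congr 1
  exact (mul_div_cancel_right₀ _ hτ).symm

theorem tm_mem_zar {U : Submodule ℂ (Fin g → ℂ)} {w v : Fin g → ℂ} (hw : w ∈ U) (hv : v ∈ U)
    (s t : ℂ) : A.tm w s (v, t) ∈ zar (A.lieI U) (s • A.θ w) := by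
  intro p hp
  have h1 := hasDerivAt_eval p (hasDerivAt_pi.1 (A.hasDerivAt_line w v s t))
  simp only [zero_mul, add_zero, zero_smul] at h1
  exact h1.unique ((hasDerivAt_const (0 : ℂ) (0 : ℂ)).congr_of_eventuallyEq
    (Eventually.of_forall fun τ => A.mem_lieI.1 hp _ (U.add_mem hw (U.smul_mem _ hv)) _))

/-- The cone over `A` is smooth at every nonzero point. -/
theorem zar_top (w : Fin g → ℂ) {ξ : Fin N → ℂ} (hξ : ξ ∈ zar (A.lieI ⊤) (A.θ w)) :
    ξ ∈ LinearMap.range (A.tm w 1) := by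
  have hI : A.lieI ⊤ = vanI Set.univ fun p : (Fin g → ℂ) × ℂ =>
      p.2 • A.θ (0 + ContinuousLinearMap.id ℂ _ p.1) :=
    Ideal.ext fun p => A.mem_lieI.trans (zcl_iff (L := ⊤) (by simp) p).symm
  have hP : (A.lieI ⊤).IsPrime := hI ▸ vanI_prime isOpen_univ isPreconnected_univ
    Set.univ_nonempty fun y _ => lie_analytic _ 0 y
  obtain ⟨T, hT, hTa⟩ := exists_basis (A.lieI ⊤)
  have hc := A.siegel_lie isLie_top (ContinuousLinearMap.id ℂ _) Function.injective_id (by simp) 0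
    (hI ▸ hT)
  obtain ⟨D, hD, h1⟩ := finrank_zar_le _ hT hTa
  obtain ⟨w₁, s, hs, h2⟩ : ∃ w₁, ∃ s : ℂ, s ≠ 0 ∧ eval (s • A.θ w₁) D ≠ 0 := by
    by_contra hcon
    push Not at hcon
    refine hD (A.mem_lieI.2 fun u _ t => ?_)
    by_contra h
    obtain ⟨s, hs, h⟩ := exists_ne_zero_scale (g := 0) (z := 0) (D := rename Sum.inr D)
      (by rwa [eval_rename])
    rw [eval_rename] at h
    exact h (hcon u s hs)
  have h3 : LinearMap.range (A.tm w₁ s) = zar (A.lieI ⊤) (s • A.θ w₁) :=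
    Submodule.eq_of_le_of_finrank_le (by
      rintro _ ⟨⟨v, t⟩, rfl⟩
      exact A.tm_mem_zar (U := ⊤) trivial trivial s t) ((h1 _ h2).trans (by
        rw [LinearMap.finrank_range_of_inj (A.tm_injective w₁ hs)]
        simpa using hc))
  obtain ⟨Q, hQ, hQ1⟩ := A.transl (w₁ - w) w s
  obtain ⟨Q', hQ', hQ1'⟩ := A.transl (w - w₁) w₁ 1
  rw [add_sub_cancel] at hQ1
  rw [add_sub_cancel, one_smul] at hQ1'
  let Q₂ : Fin N → MvPolynomial (Fin N) ℂ := fun k => aeval (fun k => C s⁻¹ * X k) (Q' k)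
  have h4 : (fun k => eval (s • A.θ w₁) (Q₂ k)) = A.θ w := by
    simp only [Q₂, eval_smul_poly, inv_smul_smul₀ hs, hQ1']
  have h5 : ∀ u (r : ℂ), ∃ r' : ℂ, (fun k => eval (r • A.θ u) (Q₂ k)) = r' • A.θ (u + (w - w₁)) := by
    intro u r
    simp only [Q₂, eval_smul_poly, smul_smul]
    exact hQ' u _
  obtain ⟨⟨v, t⟩, h6⟩ : (fun k => tg (A.θ w) ξ (Q k)) ∈ LinearMap.range (A.tm w₁ s) := by
    rw [h3]
    intro p hp
    rw [← hQ1, ← tg_aeval]
    refine hξ _ (A.mem_lieI.2 fun u _ r => ?_)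
    obtain ⟨r', hr'⟩ := hQ u r
    rw [eval_aeval', hr']
    exact A.mem_lieI.1 hp _ trivial _
  have h7 : HasDerivAt (fun τ : ℂ => w₁ + τ • v + (w - w₁)) v 0 := by
    simpa using (((hasDerivAt_id (0 : ℂ)).smul_const v).const_add w₁).add_const (w - w₁)
  obtain ⟨t', h8⟩ := A.deriv_cone h7 (hasDerivAt_pi.2 fun k =>
    hasDerivAt_eval (Q₂ k) (hasDerivAt_pi.1 (A.hasDerivAt_line w₁ v s t))) (fun τ => h5 _ _)
    one_ne_zero (by simpa using h4)
  simp only [zero_mul, add_zero, zero_smul, add_sub_cancel] at h8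
  obtain ⟨j, hj⟩ := Function.ne_iff.1 (A.ne_zero w)
  have h9 : ∀ k, tg (A.θ w) ξ (aeval Q (Q₂ k)) = A.tm w 1 (v, t') k := fun k => by
    rw [tg_aeval, hQ1, ← h6, ← h8]
  have h10 : ∀ k, eval (A.θ w) (aeval Q (Q₂ k)) = A.θ w k := fun k => by
    rw [eval_aeval', hQ1, ← h4]
  refine ⟨(v, t') + (0, (ξ j - A.tm w 1 (v, t') j) / A.θ w j), funext fun i => ?_⟩
  have h11 := hξ (aeval Q (Q₂ i) * X j - aeval Q (Q₂ j) * X i) (A.mem_lieI.2 fun u _ r => by
    obtain ⟨r₁, h₁⟩ := hQ u r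
    obtain ⟨r₂, h₂⟩ := h5 (u + (w₁ - w)) r₁
    rw [add_assoc, sub_add_sub_cancel, sub_self, add_zero] at h₂
    simp only [map_sub, map_mul, eval_aeval', h₁, congrFun h₂ i, congrFun h₂ j, eval_X,
      Pi.smul_apply, smul_eq_mul]
    ring)
  simp only [tg_sub, tg_mul, h9, h10, tg_X, eval_X] at h11
  rw [map_add, Pi.add_apply, A.tm_apply w 1 0]
  simp only [map_zero, smul_zero, zero_add, one_smul, Pi.smul_apply, smul_eq_mul]
  have hj' : A.θ w j ≠ 0 := hj
  field_simp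
  linear_combination h11

/-- The cone over an abelian subvariety is smooth at every nonzero point. -/
theorem zar_lie {U : Submodule ℂ (Fin g → ℂ)} (hU : A.IsLie U) {w : Fin g → ℂ} (hw : w ∈ U)
    {s : ℂ} (hs : s ≠ 0) {ξ : Fin N → ℂ} (hξ : ξ ∈ zar (A.lieI U) (s • A.θ w)) :
    ∃ v ∈ U, ∃ t, ξ = A.tm w s (v, t) := by
  obtain ⟨l, β, -, hβ, hr⟩ := exists_lin_param U
  obtain ⟨u, rfl⟩ := (hr w).1 hw
  obtain ⟨⟨v, t⟩, h⟩ := (A.sub hU β hβ hr 0).zar_top u (ξ := s⁻¹ • ξ) fun p hp => by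
    have h1 := hξ (aeval (fun k => C s⁻¹ * X k) p) (A.mem_lieI.2 fun x hx r => by
      obtain ⟨y, rfl⟩ := (hr x).1 hx
      rw [eval_smul_poly, smul_smul]
      simpa using (mem_lieI _).1 hp y trivial _)
    rw [tg_aeval] at h1
    convert h1 using 2
    · funext k
      simp [inv_mul_cancel_left₀ hs]
    · funext k
      simp [tg_mul]
  have h1 : HasFDerivAt (A.sub hU β hβ hr 0).θ ((fderiv ℂ A.θ (0 + β u)).comp β) u :=
    (A.analytic (0 + β u) trivial).differentiableAt.hasFDerivAt.comp u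
      (β.hasFDerivAt.const_add 0)
  rw [tm_apply, h1.fderiv, sub_θ, zero_add] at h
  refine ⟨β v, (hr _).2 ⟨v, rfl⟩, t, ?_⟩
  rw [← smul_inv_smul₀ hs ξ, ← h, tm_apply]
  simp [smul_comm s t]

end Pool.Agent.P.MP_f17f76_ag.AbVar
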