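import Pool.Agent.P.MP_f17f76_ag.E.Aut

/-!
Embedding of a differential ring, modulo the largest differential ideal inside a prime, in `ℂ`.
-/

namespace Pool.Agent.P.MP_f17f76_ag.E

open Set Cardinal

variable {R I : Type} [CommRing R] {d : I → Derivation ℤ R R} {P : Ideal R} {a b : R}

/-- Iterated derivations along a word. -/
def dwd (d : I → Derivation ℤ R R) : List I → R → R
  | [], g => g
  | i :: l, g => dwd d l (d i g)

theorem dwd_add (l : List I) (a b : R) : dwd d l (a + b) = dwd d l a + dwd d l b := by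
  induction l generalizing a b with
  | nil => rfl
  | cons i l ih => simp only [dwd, map_add, ih]

theorem dwd_zero (l : List I) : dwd d l 0 = 0 := by
  induction l with
  | nil => rfl
  | cons i l ih => simp only [dwd, map_zero, ih]

theorem dwd_nsmul (l : List I) (n : ℕ) (a : R) : dwd d l (n • a) = n • dwd d l a := by
  induction l generalizing a with
  | nil => rfl
  | cons i l ih => simp only [dwd, map_nsmul, ih]

theorem dwd_sub (l : List I) (a b : R) : dwd d l (a - b) = dwd d l a - dwd d l b := by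
  rw [eq_sub_iff_add_eq, ← dwd_add, sub_add_cancel]

/-- Leibniz rule in the form of a membership statement. -/
theorem dwd_mul_mem {S T U : Set R} (h0 : ∀ x ∈ U, ∀ y ∈ U, x + y ∈ U)
    (h1 : ∀ x ∈ S, ∀ y ∈ T, x * y ∈ U) (l : List I) (ha : ∀ l, dwd d l a ∈ S)
    (hb : ∀ l, dwd d l b ∈ T) : dwd d l (a * b) ∈ U := by
  induction l generalizing a b with
  | nil => exact h1 _ (ha []) _ (hb [])
  | cons i l ih =>
    rw [dwd, Derivation.leibniz, dwd_add, smul_eq_mul, smul_eq_mul, mul_comm b]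
    exact h0 _ (ih ha fun l => hb (i :: l)) _ (ih (fun l => ha (i :: l)) hb)

/-- The largest differential ideal inside `P`. -/
def dcore (d : I → Derivation ℤ R R) (P : Ideal R) : Ideal R where
  carrier := {g | ∀ l, dwd d l g ∈ P}
  add_mem' ha hb l := by
    rw [dwd_add]
    exact add_mem (ha l) (hb l)
  zero_mem' l := by
    rw [dwd_zero]
    exact zero_mem _
  smul_mem' c a ha l := dwd_mul_mem (a := c) (b := a) (S := univ) (T := P) (U := P)
    (fun _ h _ => add_mem h) (fun x _ _ => P.mul_mem_left x) l (fun _ => trivial) ha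

theorem mem_dcore : a ∈ dcore d P ↔ ∀ l, dwd d l a ∈ P := Iff.rfl

theorem dcore_der (h : a ∈ dcore d P) (i : I) : d i a ∈ dcore d P := fun l => h (i :: l)

theorem le_dcore {S : Set R} (h : S ⊆ P) (hd : ∀ x ∈ S, ∀ i, d i x ∈ S) (ha : a ∈ S) :
    a ∈ dcore d P := fun l => by
  induction l generalizing a with
  | nil => exact h ha
  | cons i l ih => exact ih (hd a ha i)

/-- A derivation along a homomorphism to a field extends to the field. -/
theorem exists_der_of_hom {K : Type} [Field K] [CharZero K] (j : R →+* K) (δ : R →+ K)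
    (h : ∀ a b, δ (a * b) = j a * δ b + j b * δ a) (h0 : ∀ g, j g = 0 → δ g = 0) :
    ∃ D : Der K, ∀ g, D (j g) = δ g := by
  have := RingHom.ker_isPrime j
  have h1 : δ 1 = 0 := by simpa using h 1 1
  let φ : R →+* DualNumber K :=
    { toFun := fun a => TrivSqZeroExt.inl (j a) + TrivSqZeroExt.inr (δ a)
      map_one' := by ext <;> simp [h1]
      map_mul' := fun a b => by ext <;> simp [h, mul_comm]
      map_zero' := by ext <;> simp
      map_add' := fun a b => by ext <;> simp }
  let φ' : R ⧸ RingHom.ker j →+* DualNumber K := Ideal.Quotient.lift _ φ fun a ha => by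
    ext <;> simp [φ, RingHom.mem_ker.1 ha, h0 a ha]
  let Φ : FractionRing (R ⧸ RingHom.ker j) →+* DualNumber K :=
    IsLocalization.lift (M := nonZeroDivisors (R ⧸ RingHom.ker j)) (g := φ') fun ⟨y, hy⟩ => by
      obtain ⟨a, rfl⟩ := Ideal.Quotient.mk_surjective y
      refine TrivSqZeroExt.isUnit_iff_isUnit_fst.2 (IsUnit.mk0 _ fun e => ?_)
      exact nonZeroDivisors.ne_zero hy (Ideal.Quotient.eq_zero_iff_mem.2 (by simpa [φ', φ] using e))
  have hΦ : ∀ g, Φ (algebraMap _ _ (Ideal.Quotient.mk (RingHom.ker j) g)) = φ g := fun g =>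
    IsLocalization.lift_eq _ _
  clear_value Φ
  obtain ⟨ψ, hψ⟩ : ∃ ψ : FractionRing (R ⧸ RingHom.ker j) →+* K, ∀ x, ψ x = (Φ x).fst :=
    ⟨(TrivSqZeroExt.fstHom K K K).toRingHom.comp Φ, fun _ => rfl⟩
  obtain ⟨e, he⟩ : ∃ e : _ ≃+* ψ.fieldRange, ∀ x, (e x : K) = ψ x :=
    ⟨ψ.rangeRestrictFieldEquiv, fun _ => rfl⟩
  have h2 : ∀ a : ψ.fieldRange, (Φ (e.symm a)).fst = a := fun a => by
    rw [← hψ, ← he, e.apply_symm_apply]
  obtain ⟨D, hD, -⟩ := exists_der_ext ψ.fieldRange
    { toFun := fun a => (Φ (e.symm a)).snd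
      map_zero' := by rw [map_zero, map_zero, TrivSqZeroExt.snd_zero]
      map_add' := fun a b => by rw [map_add, map_add, TrivSqZeroExt.snd_add] }
    (fun a b => by
      change (Φ (e.symm (a * b))).snd = a * (Φ (e.symm b)).snd + b * (Φ (e.symm a)).snd
      rw [map_mul, map_mul, DualNumber.snd_mul, h2, h2, mul_comm (b : K)])
    (algebraicIndependent_empty_type (x := Empty.elim)) Empty.elim
  refine ⟨D, fun g => ?_⟩
  have h3 := hD (e (algebraMap _ _ (Ideal.Quotient.mk (RingHom.ker j) g)))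
  change _ = (Φ (e.symm _)).snd at h3
  rw [he, hψ, e.symm_apply_apply, hΦ] at h3
  simpa [φ] using h3

variable [hP : P.IsPrime] (hn : ∀ n : ℕ, n ≠ 0 → (n : R) ∉ P)

include hn

theorem dcore_nat {n : ℕ} (h0 : n ≠ 0) (h : n * a ∈ dcore d P) : a ∈ dcore d P := fun l => by
  have := h l
  rw [← nsmul_eq_mul, dwd_nsmul, nsmul_eq_mul] at this
  exact (hP.mem_or_mem this).resolve_left (hn n h0)

theorem dcore_pow_der (i : I) (n k : ℕ) (h : a ^ n * d i a ^ k ∈ dcore d P) :
    ∃ m, d i a ^ m ∈ dcore d P := by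
  induction n generalizing k with
  | zero => exact ⟨k, by simpa using h⟩
  | succ n ih =>
    refine ih (k + 2) (dcore_nat hn n.succ_ne_zero ?_)
    have h1 := sub_mem ((dcore d P).mul_mem_left (d i a) (dcore_der h i))
      ((dcore d P).mul_mem_left (k * d i (d i a)) h)
    convert h1 using 1
    rcases k with _ | k <;> simp [Derivation.leibniz_pow] <;> ring

theorem dcore_radical {n : ℕ} (h : a ^ n ∈ dcore d P) : a ∈ dcore d P :=
  le_dcore (S := {x | ∃ m, x ^ m ∈ dcore d P}) (fun _ ⟨m, hm⟩ => hP.mem_of_pow_mem m (hm []))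
    (fun _ ⟨m, hm⟩ i => dcore_pow_der hn i m 0 (by simpa using hm)) ⟨n, h⟩

theorem dcore_colon (h : a * b ∈ dcore d P) (i : I) : d i a * b ∈ dcore d P := by
  refine dcore_radical hn (n := 2) ?_
  have h1 := sub_mem ((dcore d P).mul_mem_left (d i a * b) (dcore_der h i))
    ((dcore d P).mul_mem_left (d i a * d i b) h)
  convert h1 using 1
  simp only [Derivation.leibniz, smul_eq_mul]
  ring

theorem dcore_isPrime : (dcore d P).IsPrime := by
  refine ⟨fun h => hP.ne_top ((Ideal.eq_top_iff_one _).2 ((Ideal.eq_top_iff_one _).1 h [])),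
    fun {a b} h => ?_⟩
  by_cases h1 : ∀ s, s * a ∈ dcore d P → s ∈ P
  · exact Or.inr (le_dcore (S := {s | s * a ∈ dcore d P}) h1 (fun _ hx => dcore_colon hn hx)
      (by rwa [mul_comm] at h))
  · push Not at h1
    obtain ⟨s, h2, h3⟩ := h1
    exact Or.inl (le_dcore (S := {x | x * s ∈ dcore d P})
      (fun x hx => (hP.mem_or_mem (hx [])).resolve_right h3) (fun _ hx => dcore_colon hn hx)
      (by rwa [mul_comm] at h2))

/-- A differential ring embeds in `ℂ` modulo the differential core of a prime ideal. -/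
theorem exists_diff_hom [Countable I] (hc : #(R ⧸ P) ≤ #ℂ) {K : Subfield ℂ}
    (hK : (K : Set ℂ).Countable) (e : K →+* R) : ∃ (j : R →+* ℂ) (D : I → Der ℂ),
      (∀ a, j (e a) = a) ∧ (∀ g, j g = 0 ↔ g ∈ dcore d P) ∧ ∀ i g, D i (j g) = j (d i g) := by
  have := dcore_isPrime (d := d) hn
  have : Uncountable ℂ := Complex.ofReal_injective.uncountable
  have : Countable K := hK
  let L := FractionRing (R ⧸ dcore d P)
  let π : R →+* L := (algebraMap (R ⧸ dcore d P) L).comp (Ideal.Quotient.mk _)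
  have hπ : ∀ g, π g = 0 ↔ g ∈ dcore d P := fun g =>
    (FaithfulSMul.algebraMap_eq_zero_iff (R ⧸ dcore d P) L).trans Ideal.Quotient.eq_zero_iff_mem
  have h1 : #(R ⧸ dcore d P) ≤ #ℂ := by
    refine (mk_le_of_injective (f := fun (q : R ⧸ dcore d P) (l : List I) => Ideal.Quotient.mk P
      (dwd d l (Ideal.Quotient.mk_surjective q).choose)) fun q q' h => ?_).trans ?_
    · rw [← (Ideal.Quotient.mk_surjective q).choose_spec,
        ← (Ideal.Quotient.mk_surjective q').choose_spec, Ideal.Quotient.eq]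
      intro l
      rw [dwd_sub]
      exact Ideal.Quotient.eq.1 (congrFun h l)
    · rw [← power_def]
      exact (power_le_power_right hc).trans
        ((power_le_power_left (mk_ne_zero _) mk_le_aleph0).trans (by simp))
  obtain ⟨ψ, hψ⟩ := exists_hom_of_ker (K := L) (K' := ℂ) ((Localization.cardinalMk_le _).trans h1)
    (π.comp e) K.subtype fun r => by rw [map_eq_zero, map_eq_zero]
  have h2 : ∀ g, ψ (π g) = 0 ↔ g ∈ dcore d P := fun g => by rw [map_eq_zero, hπ]
  have h3 : ∀ i, ∃ D : Der ℂ, ∀ g, D (ψ (π g)) = ψ (π (d i g)) := fun i =>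
    exists_der_of_hom (ψ.comp π) ((ψ.comp π : R →+ ℂ).comp (d i : R →ₗ[ℤ] R).toAddMonoidHom)
      (fun a b => by simp) fun g hg => (h2 _).2 (dcore_der ((h2 g).1 hg) i)
  choose D hD using h3
  exact ⟨ψ.comp π, D, hψ, h2, hD⟩

end Pool.Agent.P.MP_f17f76_ag.E
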