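import Pool.Agent.P.MP_f17f76_ag.E.Hs3
import Pool.Agent.P.MP_f17f76_ag.E.Hol2
import Pool.Agent.P.MP_f17f76_ag.E.Tau1

/-!
Polynomially bounded functions, frozen functions and the differential field of germs.
-/

namespace Pool.Agent.P.MP_f17f76_ag.N

open Set E Cardinal

set_option linter.unusedSectionVars false

noncomputable section

variable {I : Type} [Fintype I] {T a b : ℝ*} {g g' : H I} {x : I → Cs} {e : Cs}

/-- Standardly inside the polydisc. -/
def Ins (x : I → Cs) : Prop := ∃ r : ℝ, r < 1 ∧ ∀ i, nm (x i) ≤ r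

theorem Ins.pt (h : Ins x) : Pt x :=
  let ⟨_, h1, h2⟩ := h; pt_of_le h2 (by exact_mod_cast h1)

theorem ins_of_ll (h : ∀ i, Ll (nm (x i)) 1) : Ins x :=
  ⟨1 / 2, by norm_num, fun i => (h i).le_coe one_half_pos⟩

theorem ins_zero : Ins (0 : I → Cs) := ins_of_ll fun _ => by simpa using Ll.zero zero_le_one

/-- Polynomially bounded functions. -/
def PB (I : Type) [Fintype I] (hT : Ll 1 T) : Subring (H I) where
  carrier := {g | ∀ x, Ins x → Poly T (nm (ev x g))}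
  mul_mem' ha hb x hx := by simpa using (ha x hx).mul hT (hb x hx) (nm.nonneg _)
  one_mem' x _ := by simpa using poly_one
  add_mem' ha hb x hx := .of_le (map_add (ev x) _ _ ▸ nm.add_le _ _) (.add hT (ha x hx) (hb x hx))
  zero_mem' x _ := by simpa using poly_zero
  neg_mem' ha x hx := by simpa using ha x hx

/-- Frozen: superpolynomially small on all small polydiscs. -/
def Frz (T : ℝ*) (g : H I) : Prop := ∀ x : I → Cs, (∀ i, Sm T (nm (x i))) → Tiny T (nm (ev x g))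

/-- Scaling. -/
def sc (e : Cs) : I → H I := aff 0 (fun _ => e) id

theorem maps_sc (h : nm e ≤ 1) : Maps (sc e : I → H I) := maps_aff id .zero fun _ => by simpa

theorem ev_sc (h : nm e ≤ 1) (hx : Pt x) (g : H I) : ev x (pull (sc e) g) = ev (e • x) g := by
  rw [ev_pull (maps_sc h) hx, sc, evv_aff _ _ _ hx]
  congr 2
  exact funext fun i => by simp

theorem frz_cn {c : Cs} : Frz T (cn c : H I) ↔ Tiny T (nm c) :=
  ⟨fun h => by simpa using h 0 fun _ => by simpa using sm_zero, fun h x _ => by simpa⟩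

theorem frz_zero : Frz T (0 : H I) := fun x _ => by simpa using tiny_zero

theorem Frz.zero (h : Frz T g) : Tiny T (nm (ev 0 g)) := h 0 fun _ => by simpa using sm_zero

theorem Frz.neg (h : Frz T g) : Frz T (-g) := fun x hx => by simpa using h x hx

theorem Stab.lc_zero (h : Stab g) (hx : Pt x) :
    Lc (nm (ev x g)) (nm (ev 0 g)) ∧ Lc (nm (ev 0 g)) (nm (ev x g)) := lc_of_rel (h.2 x hx)

theorem lc_of_near' {y z : Cs} (h : Lc (nm (y - z)) a) (h' : Lc (nm z) a) : Lc (nm y) a :=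
  .le_trans (by simpa using nm.add_le (y - z) z) (h.add h')

variable (hT : Ll 1 T)
include hT

theorem mem_PB : g ∈ PB I hT ↔ ∀ x, Ins x → Poly T (nm (ev x g)) := Iff.rfl

theorem cn_mem_PB_iff {c : Cs} : cn c ∈ PB I hT ↔ Poly T (nm c) :=
  ⟨fun h => by simpa using h 0 ins_zero, fun h x _ => by simpa⟩

theorem cn_mem_PB {c : Cs} (h : Poly T (nm c)) : cn c ∈ PB I hT := (cn_mem_PB_iff hT).2 h

theorem co_mem_PB (c : ℂ) : cn (co c) ∈ PB I hT := cn_mem_PB hT (poly_of_lc hT (lc_co c))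

theorem Le.mem_PB (h : Le g a) (h' : Poly T a) : g ∈ PB I hT := fun x hx => .of_le (h x hx.pt) h'

theorem xc_mem_PB (i : I) : xc i ∈ PB I hT := (le_xc i).mem_PB hT poly_one

theorem Stab.mem_PB (h : Stab g) (h' : Poly T (nm (ev 0 g))) : g ∈ PB I hT := fun _ hx =>
  .of_lc hT (h.lc_zero hx.pt).1 h'

theorem StabH.mem_PB {K : Type} [Field K] {ι : K →+* H I} (h : StabH ι)
    (h' : PG T ((ev 0).comp ι)) (c : K) : ι c ∈ PB I hT := by
  rcases eq_or_ne c 0 with rfl | h0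
  exacts [map_zero ι ▸ zero_mem _, (h c h0).mem_PB hT (h' c)]

theorem aeval_mem_PB {σ : Type} {w : σ → H I} (hw : ∀ s, w s ∈ PB I hT) {p : MvPolynomial σ Cs}
    (hp : ∀ m, Poly T (nm (p.coeff m))) : MvPolynomial.aeval w p ∈ PB I hT := by
  rw [MvPolynomial.aeval_def, MvPolynomial.eval₂_eq]
  exact sum_mem fun m _ => mul_mem (cn_mem_PB hT (hp m)) (prod_mem fun s _ => pow_mem (hw s) _)

theorem Sm.ins (hx : ∀ i, Sm T (nm (x i))) : Ins x := ins_of_ll fun i => (hx i).ll hT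

theorem Frz.add (h : Frz T g) (h' : Frz T g') : Frz T (g + g') := fun x hx =>
  .of_le hT (map_add (ev x) _ _ ▸ nm.add_le _ _) (.add hT (h x hx) (h' x hx))

theorem Frz.sub (h : Frz T g) (h' : Frz T g') : Frz T (g - g') :=
  sub_eq_add_neg g g' ▸ h.add hT h'.neg

theorem Frz.mul (h : Frz T g) (h' : g' ∈ PB I hT) : Frz T (g * g') := fun x hx => by
  simpa using (h x hx).mul_poly hT (h' x (Sm.ins hT hx)) (nm.nonneg _)

theorem Frz.sum {ι : Type} {s : Finset ι} {f : ι → H I} (h : ∀ i ∈ s, Frz T (f i)) :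
    Frz T (∑ i ∈ s, f i) := Finset.sum_induction f (Frz T) (fun _ _ => Frz.add hT) frz_zero h

theorem tiny_iff_lc : Tiny T a ↔ ∀ m : ℕ, Lc a (T ^ m)⁻¹ := by
  refine ⟨fun h m => .of_le ((le_mul_inv_iff₀ (pow_pos hT.pos m)).2 (h m) |>.trans_eq (one_mul _)),
    fun h m => ?_⟩
  have h1 := (h (m + 1)).mul_right (pow_pos hT.pos m).le
  rw [pow_succ', mul_inv, mul_assoc, inv_mul_cancel₀ (pow_pos hT.pos m).ne', mul_one] at h1
  exact (h1.trans_ll ((sm_inv_self hT).ll hT)).le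

/-- A frozen function is superpolynomially small on a whole small polydisc. -/
theorem Frz.le_sc (h : Frz T g) (he : Sm T (nm e)) (m : ℕ) : Le (pull (sc e) g) (T ^ m)⁻¹ :=
  fun x hx => by
    rw [ev_sc (he.ll hT).le hx, ← one_div, le_div_iff₀ (pow_pos hT.pos m)]
    exact h _ (fun i => by
      simpa using he.mul_lc hT (.of_le (hx i).le) (nm.nonneg _) (nm.nonneg _)) m

theorem exists_sm (hx : ∀ i, Sm T (nm (x i))) : ∃ a, Sm T a ∧ T⁻¹ ≤ a ∧ ∀ i, nm (x i) < a := by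
  have h0 := inv_pos.2 hT.pos
  have h1 := Finset.sum_nonneg fun i (_ : i ∈ Finset.univ) => nm.nonneg (x i)
  exact ⟨∑ i, nm (x i) + T⁻¹, (Sm.sum hT (fun i _ => hx i) fun i _ => nm.nonneg _).add hT
    (sm_inv_self hT) h1 h0.le, le_add_of_nonneg_left h1, fun i => lt_add_of_le_of_pos
      (Finset.single_le_sum (fun i _ => nm.nonneg (x i)) (Finset.mem_univ i)) h0⟩

theorem Stab.not_frz (h : Stab g) (h' : Poly T (nm (ev 0 g))⁻¹) : ¬ Frz T g := fun k =>
  k.zero.not_poly hT (nm.pos h.1) h'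

variable [DecidableEq I]
omit hT

theorem dd_sc (h : nm e ≤ 1) (i : I) (g : H I) :
    dd i (pull (sc e) g) = cn e * pull (sc e) (dd i g) := by
  rw [dd_pull (maps_sc h)]
  simp [sc, dd_aff, mul_comm]

theorem dw_sc (h : nm e ≤ 1) (l : List I) (g : H I) :
    dw l (pull (sc e) g) = cn (e ^ l.length) * pull (sc e) (dw l g) := by
  induction l with
  | nil => simp [dw]
  | cons i l ih => simp [dw, ih, dd_sc h, pow_succ, mul_assoc, -map_pow]

theorem dw_append (l l' : List I) (g : H I) : dw (l ++ l') g = dw l (dw l' g) := by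
  induction l with
  | nil => rfl
  | cons i l ih => exact congrArg (dd i) ih

theorem cauchy_sc {ρ : ℝ*} (h0 : e ≠ 0) (he : nm e ≤ 1) (h : Le (pull (sc e) g) a) (hρ : 0 ≤ ρ)
    (h1 : ρ < 1) (hx : ∀ i, nm (x i) ≤ ρ * nm e) (i : I) :
    nm (ev x (dd i g)) ≤ 2 / (1 - ρ) * (nm e)⁻¹ * a := by
  have h2 : ∀ i, nm ((e⁻¹ • x) i) ≤ ρ := fun i => by
    simpa [mul_inv_le_iff₀ (nm.pos h0), mul_comm] using hx i
  have := h.cauchy h2 hρ h1 i
  rw [dd_sc he, map_mul, ev_cn, ev_sc he (pt_of_le h2 h1), smul_inv_smul₀ h0, map_mul,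
    ← le_inv_mul_iff₀ (nm.pos h0)] at this
  exact this.trans_eq (by ring)

theorem Ins.dd_lc {c : ℕ → ℝ*} (hc : Monotone c) (h : ∀ x, Ins x → ∃ k, nm (ev x g) ≤ c k)
    (hx : Ins x) (i : I) : ∃ k, 0 ≤ c k ∧ Lc (nm (ev x (dd i g))) (c k) := by
  obtain ⟨r, h1, h2⟩ := hx
  obtain ⟨s, h3, h4⟩ := exists_between (max_lt h1 one_pos)
  obtain ⟨h5, h6⟩ := max_lt_iff.1 h3
  have h7 : nm (co s) = s := by simp [h6.le]
  have h8 : nm (co s) ≤ 1 := h7 ▸ by exact_mod_cast h4.le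
  obtain ⟨k, hk⟩ := exists_le (g := pull (sc (co s)) g) hc fun y hy => by
    rw [ev_sc h8 hy]
    refine h _ ⟨s, h4, fun j => ?_⟩
    rw [Pi.smul_apply, smul_eq_mul, map_mul, h7]
    exact mul_le_of_le_one_right (by exact_mod_cast h6.le) (hy j).le
  refine ⟨k, hk.nonneg, Lc.le_trans (cauchy_sc (ρ := (max r 0 / s : ℝ)) (by simpa using h6.ne') h8 hk
    (by exact_mod_cast div_nonneg (le_max_right _ _) h6.le)
    (by exact_mod_cast (div_lt_one h6).2 h3) (fun j => (h2 j).trans ?_) i) ?_⟩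
  · rw [h7]
    exact_mod_cast (le_max_left r 0).trans_eq (div_mul_cancel₀ _ h6.ne').symm
  · rw [h7]
    exact_mod_cast lc_coe_mul (2 / (1 - max r 0 / s) * s⁻¹) hk.nonneg

theorem mv_sc (ha : 0 < a) (ha' : a ≤ 1) (hb : 0 ≤ b)
    (h : ∀ i y, (∀ j, nm (y j) < a) → Lc (nm (ev y (dd i g))) b) (hx : ∀ j, nm (x j) < a) :
    Lc (nm (ev x g - ev 0 g)) (a * b) := by
  have h1 : nm (ofR a) = a := by simp [ha.le]
  have h0 : ofR a ≠ 0 := by simpa using ha.ne'
  have h2 : nm (ofR a) ≤ 1 := h1.trans_le ha'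
  choose k hk using fun i => exists_le_lc (g := pull (sc (ofR a)) (dd i g)) hb fun y hy => by
    rw [ev_sc h2 hy]
    refine h i _ fun j => ?_
    rw [Pi.smul_apply, smul_eq_mul, map_mul, h1]
    exact mul_lt_of_lt_one_right ha (hy j)
  have h3 : Pt ((ofR a)⁻¹ • x) := fun j => by
    simpa [h1, inv_mul_lt_iff₀ ha, abs_of_pos ha] using hx j
  have := mean_value (g := pull (sc (ofR a)) g)
    (fun i => .inr (dd_sc h2 i g ▸ (le_cn _).mul (hk i))) .zero h3
  rw [ev_sc h2 h3, ev_sc h2 .zero, smul_inv_smul₀ h0, smul_zero, h1] at this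
  refine Lc.le_trans this (.sum fun i _ => ⟨k i, ?_⟩)
  rw [mul_left_comm]
  exact mul_le_of_le_one_right (by positivity) (by simpa using (h3 i).le)

include hT

theorem dd_mem_PB (h : g ∈ PB I hT) (i : I) : dd i g ∈ PB I hT := fun _ hx =>
  let ⟨k, _, hk⟩ := hx.dd_lc (fun _ _ => hT.pow_le) h i
  .of_lc hT hk (poly_pow k)

theorem dw_mem_PB (h : g ∈ PB I hT) (l : List I) : dw l g ∈ PB I hT := by
  induction l with
  | nil => exact h
  | cons i l ih => exact dd_mem_PB hT ih i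

theorem Frz.dd (h : Frz T g) (i : I) : Frz T (dd i g) := fun x hx => by
  obtain ⟨a, h1, h2, h3⟩ := exists_sm hT hx
  have h0 := (inv_pos.2 hT.pos).trans_le h2
  have h4 : nm (ofR (a + a)) = a + a := by rw [nm_ofR, abs_of_pos (add_pos h0 h0)]
  have h5 : Sm T (nm (ofR (a + a))) := h4.symm ▸ h1.add hT h1 h0.le h0.le
  refine (tiny_iff_lc hT).2 fun m => .of_le ((cauchy_sc (ρ := 1 / 2) (by simpa using h0.ne')
    (h5.ll hT).le (h.le_sc hT h5 (m + 2)) (by norm_num) (by norm_num)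
    (fun j => by linarith [h3 j]) i).trans ?_)
  have h6 : (a + a)⁻¹ ≤ (T⁻¹ + T⁻¹)⁻¹ := inv_anti₀ (by linarith [inv_pos.2 hT.pos]) (by linarith)
  have h7 := hT.pos
  rw [h4]
  refine (mul_le_mul_of_nonneg_right (mul_le_mul_of_nonneg_left h6 (by norm_num))
    (by positivity)).trans ?_
  field_simp
  rw [pow_add]
  nlinarith [mul_le_mul_of_nonneg_left hT.two_le (mul_pos h7 (pow_pos h7 m)).le]

theorem Frz.dw (h : Frz T g) (l : List I) : Frz T (dw l g) := by
  induction l with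
  | nil => exact h
  | cons i l ih => exact ih.dd hT i

theorem frz_of_dd (h : ∀ i, Frz T (dd i g)) : Frz T (g - cn (ev 0 g)) := fun x hx => by
  obtain ⟨a, h1, h2, h3⟩ := exists_sm hT hx
  have h0 := (inv_pos.2 hT.pos).trans_le h2
  rw [map_sub, ev_cn]
  refine (tiny_iff_lc hT).2 fun m => ?_
  have h4 := (inv_pos.2 (pow_pos hT.pos m)).le
  exact (mv_sc h0 (h1.ll hT).le h4 (fun i y hy => (tiny_iff_lc hT).1 (h i y fun j =>
    .of_le hT (nm.nonneg _) (hy j).le h1) m) h3).trans_le (mul_le_of_le_one_left h4 (h1.ll hT).le)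

theorem lc_of_dw (ha : 0 < a) (ha' : Ll a 1) (hb : 0 ≤ b) (m d : ℕ)
    (h : ∀ x, Ins x → Lc (nm (ev x g)) b) (h' : ∀ l, Tiny T (nm (ev 0 (dw l g))))
    (hx : ∀ j, nm (x j) < a) : Lc (nm (ev x g)) (a ^ d * b + (T ^ m)⁻¹) := by
  have h1 := (inv_pos.2 (pow_pos hT.pos m)).le
  induction d generalizing g x with
  | zero => exact (h x (ins_of_ll fun j => .le_trans (hx j).le ha')).trans_le (by linarith)
  | succ d ih =>
    have h2 : 0 ≤ a ^ (d + 1) * b := by positivity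
    have := mv_sc (g := g) ha ha'.le (by positivity) (fun i y hy => ih (fun z hz => by
      obtain ⟨k, -, hk⟩ := hz.dd_lc (c := fun k => k * b)
        (fun _ _ e => mul_le_mul_of_nonneg_right (Nat.cast_le.2 e) hb) h i
      exact hk.trans ⟨k, le_rfl⟩) (fun l => dw_append l [i] g ▸ h' (l ++ [i])) hy) hx
    refine lc_of_near' (this.trans_le ?_) (((tiny_iff_lc hT).1 (h' []) m).trans_le (by linarith))
    rw [mul_add, pow_succ', mul_assoc]
    exact add_le_add_right (mul_le_of_le_one_left h1 ha'.le) _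

theorem frz_iff_dw (h : g ∈ PB I hT) : Frz T g ↔ ∀ l, Tiny T (nm (ev 0 (dw l g))) := by
  refine ⟨fun h l => (h.dw hT l).zero, fun h' x hx => (tiny_iff_lc hT).2 fun m => ?_⟩
  have h1 : nm (2⁻¹ : Cs) = 2⁻¹ := by simpa using nm_nat 2
  have h2 : nm (2⁻¹ : Cs) ≤ 1 := h1 ▸ by norm_num
  obtain ⟨k, hk⟩ := exists_le_poly (g := pull (sc 2⁻¹) g) hT.one_lt.le fun y hy => by
    rw [ev_sc h2 hy]
    refine h _ ⟨2⁻¹, by norm_num, fun j => ?_⟩
    rw [Pi.smul_apply, smul_eq_mul, map_mul, h1]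
    simpa using (hy j).le
  obtain ⟨a, h3, h4, h5⟩ := exists_sm hT (x := x + x) fun i => .of_le hT (nm.nonneg _)
    (nm.add_le _ _) ((hx i).add hT (hx i) (nm.nonneg _) (nm.nonneg _))
  have h0 := (inv_pos.2 hT.pos).trans_le h4
  obtain ⟨d, hd⟩ := h3.pow_le hT h0.le (k + m)
  have := lc_of_dw hT h0 (h3.ll hT) hk.nonneg m d (fun y hy => .of_le (hk y hy.pt)) (fun l => by
    rw [dw_sc h2, map_mul, ev_cn, ev_sc h2 .zero, smul_zero, map_mul, map_pow]
    exact (poly_of_lc hT (.of_le (pow_le_one₀ (nm.nonneg _) h2))).mul_tiny hT (h' l) (nm.nonneg _)) h5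
  rw [ev_sc h2 fun j => (h5 j).trans_le (h3.ll hT).le, ← two_smul Cs, inv_smul_smul₀ two_ne_zero]
    at this
  refine this.trans (.add (.of_le ?_) (.refl _))
  rw [← one_div, le_div_iff₀ (pow_pos hT.pos m), mul_assoc, ← pow_add]
  exact hd d le_rfl

/-- The prime ideal of functions with a superpolynomially small value at the origin. -/
def PZ (I : Type) [Fintype I] (hT : Ll 1 T) : Ideal (PB I hT) where
  carrier := {g | Tiny T (nm (ev 0 g.1))}
  add_mem' {a b} ha hb := .of_le hT (map_add (ev 0) a.1 b.1 ▸ nm.add_le _ _) (.add hT ha hb)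
  zero_mem' := by simpa using tiny_zero
  smul_mem' c _ ha := by simpa using (c.2 0 ins_zero).mul_tiny hT ha (nm.nonneg _)

instance : (PZ I hT).IsPrime where
  ne_top' h := (show Tiny T (nm (ev 0 (1 : H I))) from (Ideal.eq_top_iff_one _).1 h).not_poly hT
    (by simp) (by simpa using poly_one)
  mem_or_mem' {a b} h := or_iff_not_imp_left.2 fun k => by
    obtain ⟨h1, h2⟩ := (not_tiny hT (nm.nonneg _)).1 k
    have := h2.mul_tiny hT h (nm.nonneg _)
    rwa [Subring.coe_mul, map_mul, map_mul, inv_mul_cancel_left₀ h1.ne'] at this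

/-- The partial derivatives on polynomially bounded functions. -/
def ddP (i : I) : Derivation ℤ (PB I hT) (PB I hT) :=
  .mk' (AddMonoidHom.toIntLinearMap
    { toFun := fun g => ⟨dd i g.1, dd_mem_PB hT g.2 i⟩
      map_zero' := Subtype.ext (map_zero _)
      map_add' := fun _ _ => Subtype.ext (map_add _ _ _) })
    fun _ _ => Subtype.ext ((dd i).leibniz _ _)

theorem dwd_ddP (l : List I) (g : PB I hT) : (dwd (ddP hT) l g).1 = dw l.reverse g.1 := by
  induction l generalizing g with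
  | nil => rfl
  | cons i l ih => rw [dwd, ih, List.reverse_cons, dw_append]; rfl

omit hT in
/-- A differential homomorphism to the complex numbers whose kernel consists of the frozen functions. -/
structure Tau (I : Type) [Fintype I] [DecidableEq I] (hT : Ll 1 T) where
  j : PB I hT →+* ℂ
  D : I → Der ℂ
  ker : ∀ g, j g = 0 ↔ Frz T g.1
  der : ∀ i g, D i (j g) = j ⟨_, dd_mem_PB hT g.2 i⟩

theorem exists_tau' {K : Subfield ℂ} (hK : (K : Set ℂ).Countable) {ι : K →+* H I}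
    (h : ∀ c, ι c ∈ PB I hT) : ∃ τ : Tau I hT, ∀ c, τ.j ⟨ι c, h c⟩ = c := by
  obtain ⟨j, D, h1, h2, h3⟩ := exists_diff_hom (d := ddP hT) (P := PZ I hT) (fun n hn k =>
    (show Tiny T (nm (ev 0 (n : H I))) from k).not_poly hT (by simpa using Nat.pos_of_ne_zero hn)
      (by simpa using poly_of_lc hT (.of_le (inv_le_one_of_one_le₀
        (Nat.one_le_cast.2 (Nat.pos_of_ne_zero hn))))))
    ((mk_le_of_surjective (f := fun c : Opoly hT =>
      Ideal.Quotient.mk (PZ I hT) ⟨_, cn_mem_PB hT c.2⟩) fun q => by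
        obtain ⟨g, rfl⟩ := Ideal.Quotient.mk_surjective q
        exact ⟨⟨_, g.2 0 ins_zero⟩, Ideal.Quotient.eq.2 (by simpa [PZ] using tiny_zero)⟩).trans
      ((mk_subtype_le _).trans_eq mk_Cs)) hK (ι.codRestrict _ h)
  refine ⟨⟨j, D, fun g => (h2 g).trans ?_, h3⟩, h1⟩
  rw [frz_iff_dw hT g.2, mem_dcore]
  exact ⟨fun k l => by simpa [PZ, dwd_ddP] using k l.reverse,
    fun k l => by simpa [PZ, dwd_ddP] using k l.reverse⟩

theorem exists_tau {k : Set ℂ} (hk : k.Countable) :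
    ∃ (j : PB I hT →+* ℂ) (D : I → Der ℂ), (∀ g, j g = 0 ↔ Frz T g.1) ∧
      (∀ c ∈ acl k, j ⟨_, co_mem_PB hT c⟩ = c) ∧
      ∀ i g, D i (j g) = j ⟨_, dd_mem_PB hT g.2 i⟩ :=
  let ⟨τ, h⟩ := exists_tau' hT (countable_acl hk) (ι := (cn.comp co).comp (acl k).subtype)
    fun c => co_mem_PB hT c
  ⟨τ.j, τ.D, τ.ker, fun c hc => h ⟨c, hc⟩, τ.der⟩

/-- The coefficients of a polynomially bounded polynomial are polynomially bounded. -/
theorem poly_coeff {σ : Type} [DecidableEq σ] {w : σ → H I} (h0 : ∀ s, ev 0 (w s) = 0)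
    (hw : ∀ s, ∃ i c, Poly T (nm c) ∧ ∀ t, cn c * dd i (w t) = if t = s then 1 else 0)
    {p : MvPolynomial σ Cs} (hp : MvPolynomial.aeval w p ∈ PB I hT) (m : σ →₀ ℕ) :
    Poly T (nm (p.coeff m)) := by
  induction hd : m.degree generalizing m p with
  | zero =>
    have := hp 0 ins_zero
    rw [(Finsupp.degree_eq_zero_iff m).1 hd]
    rwa [MvPolynomial.aeval_def, MvPolynomial.eval₂_comp_left, show ev 0 ∘ w = 0 from
      funext h0, MvPolynomial.eval₂_zero_apply, RingHom.comp_apply, algebraMap_eq_cn, ev_cn] at this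
  | succ d ih =>
    obtain ⟨s, hs⟩ : ∃ s, m s ≠ 0 := Finsupp.ne_iff.1 (show m ≠ 0 from fun e => by simp [e] at hd)
    obtain ⟨i, c, h1, h2⟩ := hw s
    obtain ⟨m, rfl⟩ : ∃ m', m = m' + Finsupp.single s 1 :=
      ⟨_, (tsub_add_cancel_of_le (Finsupp.single_le_iff.2 (Nat.one_le_iff_ne_zero.2 hs))).symm⟩
    have h3 : ∀ p : MvPolynomial σ Cs, cn c * dd i (MvPolynomial.aeval w p) =
        MvPolynomial.aeval w (MvPolynomial.pderiv s p) := fun p => by
      induction p using MvPolynomial.induction_on with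
      | C a => simp [algebraMap_eq_cn]
      | add p q hp hq => simp [mul_add, hp, hq]
      | mul_X p t hp => simp [mul_add, mul_left_comm (cn c), hp, h2, Pi.single_apply, apply_ite]
    have := ih (h3 p ▸ mul_mem (cn_mem_PB hT h1) (dd_mem_PB hT hp i)) m (by simpa using hd)
    rw [MvPolynomial.coeff_pderiv, map_mul, ← Nat.cast_succ, nm_nat] at this
    exact .of_le (le_mul_of_one_le_right (nm.nonneg _) (by simp)) this

omit hT
variable {hT : Ll 1 T} (τ : Tau I hT) {c c' : ℂ}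

namespace Tau

/-- The graph of `j`. -/
def R (c : ℂ) (g : H I) : Prop := ∃ h : g ∈ PB I hT, τ.j ⟨g, h⟩ = c

open Classical in
/-- The map `j` extended by zero. -/
def f (g : H I) : ℂ := if h : g ∈ PB I hT then τ.j ⟨g, h⟩ else 0

theorem r_j (h : g ∈ PB I hT) : τ.R (τ.j ⟨g, h⟩) g := ⟨h, rfl⟩

theorem r_f (h : g ∈ PB I hT) : τ.R (τ.f g) g := ⟨h, by rw [f, dif_pos h]⟩

theorem r_zero : τ.R 0 0 := ⟨zero_mem _, map_zero _⟩

theorem r_one : τ.R 1 1 := ⟨one_mem _, map_one _⟩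

variable {τ}

theorem R.mem (h : τ.R c g) : g ∈ PB I hT := h.1

theorem R.eq (h : τ.R c g) (h' : τ.R c' g) : c = c' := h.2.symm.trans h'.2

theorem R.f_eq (h : τ.R c g) : τ.f g = c := (τ.r_f h.1).eq h

theorem R.add (h : τ.R c g) (h' : τ.R c' g') : τ.R (c + c') (g + g') :=
  ⟨add_mem h.1 h'.1, h.2 ▸ h'.2 ▸ τ.j.map_add ⟨g, h.1⟩ ⟨g', h'.1⟩⟩

theorem R.mul (h : τ.R c g) (h' : τ.R c' g') : τ.R (c * c') (g * g') :=
  ⟨mul_mem h.1 h'.1, h.2 ▸ h'.2 ▸ τ.j.map_mul ⟨g, h.1⟩ ⟨g', h'.1⟩⟩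

theorem R.neg (h : τ.R c g) : τ.R (-c) (-g) := ⟨neg_mem h.1, h.2 ▸ τ.j.map_neg ⟨g, h.1⟩⟩

theorem R.sub (h : τ.R c g) (h' : τ.R c' g') : τ.R (c - c') (g - g') := by
  simpa only [sub_eq_add_neg] using h.add h'.neg

theorem R.sum {ι : Type} {s : Finset ι} {u : ι → ℂ} {v : ι → H I} (h : ∀ i ∈ s, τ.R (u i) (v i)) :
    τ.R (∑ i ∈ s, u i) (∑ i ∈ s, v i) := by
  simpa only [Prod.fst_sum, Prod.snd_sum] using Finset.sum_induction (fun i => (u i, v i))
    (fun p => τ.R p.1 p.2) (fun _ _ => R.add) τ.r_zero h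

theorem R.dd (h : τ.R c g) (i : I) : τ.R (τ.D i c) (dd i g) :=
  ⟨dd_mem_PB hT h.1 i, h.2 ▸ (τ.der i ⟨g, h.1⟩).symm⟩

theorem R.zero_iff (h : τ.R c g) : c = 0 ↔ Frz T g := h.2 ▸ τ.ker ⟨g, h.1⟩

theorem R.der_cn {a : Cs} (h : τ.R c (cn a)) (i : I) : τ.D i c = 0 :=
  (h.dd i).eq (dd_cn i a ▸ τ.r_zero)

theorem R.der_xc {l : I} (h : τ.R c (xc l)) (i : I) : τ.D i c = if l = i then 1 else 0 :=
  (h.dd i).eq (by rw [dd_xc]; split_ifs; exacts [τ.r_one, τ.r_zero])

/-- Cancellation of a factor that is not frozen. -/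
theorem R.cancel {ρ : ℂ} (h0 : ρ ≠ 0) (h1 : τ.R ρ g') (h2 : τ.R (ρ * c) (g' * g))
    (h3 : g ∈ PB I hT) : τ.R c g :=
  mul_left_cancel₀ h0 ((h1.mul (τ.r_f h3)).eq h2) ▸ τ.r_f h3

/-- A function with constant image is frozen up to a constant. -/
theorem R.frz_sub (h : τ.R c g) (h' : ∀ i, τ.D i c = 0) : Frz T (g - cn (ev 0 g)) :=
  frz_of_dd hT fun i => (h.dd i).zero_iff.1 (h' i)

/-- The image of a polynomial with bounded coefficients lies in every ring containing the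
constants and the images of the variables. -/
theorem aeval_mem {σ : Type} {w : σ → H I} (hw : ∀ s, w s ∈ PB I hT) {p : MvPolynomial σ Cs}
    (hp : ∀ m, Poly T (nm (p.coeff m))) {O : Subring ℂ} (h1 : ∀ m, τ.f (cn (p.coeff m)) ∈ O)
    (h2 : ∀ s, τ.f (w s) ∈ O) : τ.f (MvPolynomial.aeval w p) ∈ O := by
  let S : Subring (H I) := ((O.comap τ.j).map (PB I hT).subtype)
  have h3 : ∀ g, g ∈ PB I hT → (τ.f g ∈ O ↔ g ∈ S) := fun g hg => (τ.r_j hg).f_eq ▸
    ⟨fun h => ⟨⟨g, hg⟩, h, rfl⟩, fun ⟨_, h, e⟩ => by subst e; exact h⟩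
  rw [h3 _ (aeval_mem_PB hT hw hp), MvPolynomial.aeval_def, MvPolynomial.eval₂_eq]
  exact sum_mem fun m _ => mul_mem ((h3 _ (cn_mem_PB hT (hp m))).1 (h1 m))
    (prod_mem fun s _ => pow_mem ((h3 _ (hw s)).1 (h2 s)) _)

end Tau

end

end Pool.Agent.P.MP_f17f76_ag.N
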