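import Pool.Agent.P.MP_f17f76_ag.E.Trd

/-!
Conjugacy of valuation rings in algebraic extensions.
-/

namespace Pool.Agent.P.MP_f17f76_ag.E

open Set Polynomial

section gal

variable {L : Type} [Field L]

theorem mem_of_isIntegral {A : Subring L} {W : ValuationSubring L} (h : ∀ a ∈ A, a ∈ W) {x : L}
    (hx : IsIntegral A x) : x ∈ W := by
  have : IsIntegrallyClosedIn W.toSubring L := inferInstanceAs (IsIntegrallyClosedIn W L)
  exact (Subring.integralClosure_subring_le_iff.2 (show A ≤ W.toSubring from h)) hx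

theorem isIntegral_of_forall {A : Subring L} {x : L}
    (h : ∀ W : ValuationSubring L, (∀ a ∈ A, a ∈ W) → x ∈ W) : IsIntegral A x := by
  have h1 : x ∈ (integralClosure (Subring.closure (A : Set L)) L).toSubring := by
    rw [← iInf_valuationSubring_superset, Subring.mem_iInf]
    exact fun V => h V.1 V.2
  rwa [Subring.closure_eq] at h1

/-- The centre of a valuation ring. -/
def cen {B : Type} [CommRing B] (W : ValuationSubring L) (f : B →+* L) (hf : ∀ b, f b ∈ W) :
    Ideal B := (IsLocalRing.maximalIdeal W).comap (f.codRestrict W hf)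

theorem mem_cen {B : Type} [CommRing B] {W : ValuationSubring L} {f : B →+* L}
    {hf : ∀ b, f b ∈ W} {b : B} : b ∈ cen W f hf ↔ f b ∈ W.nonunits :=
  (ValuationSubring.coe_mem_nonunits_iff (a := ⟨f b, hf b⟩)).symm

instance {B : Type} [CommRing B] (W : ValuationSubring L) (f : B →+* L) (hf : ∀ b, f b ∈ W) :
    (cen W f hf).IsPrime := Ideal.comap_isPrime _ _

/-- Two valuation rings with the same centre on a normal ring have conjugate centres on the
integral closure. -/
theorem conj_centre {F : Type} [Field F] [Algebra F L] [IsGalois F L] (A : Subring L)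
    (hF : ∀ a ∈ A, a ∈ range (algebraMap F L))
    (hA : ∀ x ∈ range (algebraMap F L), IsIntegral A x → x ∈ A) {W W' : ValuationSubring L}
    (h : ∀ a ∈ A, a ∈ W) (h' : ∀ a ∈ A, a ∈ W')
    (hc : ∀ a ∈ A, a ∈ W.nonunits ↔ a ∈ W'.nonunits) :
    ∃ σ : L ≃ₐ[F] L, ∀ b, IsIntegral A b → (b ∈ W.nonunits ↔ σ b ∈ W'.nonunits) := by
  have : SMulCommClass (L ≃ₐ[F] L) A L := ⟨fun g a x => by
    obtain ⟨c, hc⟩ := hF a a.2
    change g (a * x) = a * g x
    rw [map_mul, ← hc, g.commutes]⟩
  let _ : TopologicalSpace (integralClosure A L) := ⊥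
  have : DiscreteTopology (integralClosure A L) := ⟨rfl⟩
  have : ContinuousSMul (L ≃ₐ[F] L) (integralClosure A L) :=
    continuousSMul_iff_stabilizer_isOpen.2 fun x => by
      convert stabilizer_isOpen_of_isIntegral (K := F) (x : L) using 2
      ext g
      exact Subtype.ext_iff
  have : Algebra.IsInvariant A (integralClosure A L) (L ≃ₐ[F] L) := ⟨fun b hb =>
    ⟨⟨b, hA _ ((InfiniteGalois.mem_range_algebraMap_iff_fixed _).2 fun g =>
      congrArg Subtype.val (hb g)) b.2⟩, rfl⟩⟩
  obtain ⟨g, hg⟩ := Algebra.IsInvariant.exists_smul_of_under_eq_of_profinite (A := A)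
    (G := L ≃ₐ[F] L)
    (cen W (integralClosure A L).val.toRingHom fun b => mem_of_isIntegral h b.2)
    (cen W' (integralClosure A L).val.toRingHom fun b => mem_of_isIntegral h' b.2)
    (Ideal.ext fun a => by
      rw [Ideal.mem_comap, Ideal.mem_comap, mem_cen, mem_cen]
      exact hc a a.2)
  refine ⟨g, fun b hb => ?_⟩
  have h1 := Ideal.smul_mem_pointwise_smul_iff (a := g) (x := (⟨b, hb⟩ : integralClosure A L))
    (S := cen W (integralClosure A L).val.toRingHom fun b => mem_of_isIntegral h b.2)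
  rw [← hg, mem_cen, mem_cen] at h1
  exact h1.symm

/-- A nonzero finite family has a member of maximal size. -/
theorem exists_max_val (W : ValuationSubring L) {ι : Type} (s : Finset ι) (a : ι → L)
    (h : ∃ i ∈ s, a i ≠ 0) : ∃ j ∈ s, a j ≠ 0 ∧ ∀ i ∈ s, a i / a j ∈ W := by
  obtain ⟨i0, hi0, h0⟩ := h
  obtain ⟨j, hj, h1⟩ := s.exists_max_image (fun i => W.valuation (a i)) ⟨i0, hi0⟩
  have h2 : a j ≠ 0 := fun e => h0 (by simpa [e] using h1 i0 hi0)
  refine ⟨j, hj, h2, fun i hi => ?_⟩
  rw [← W.valuation_le_one_iff, map_div₀]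
  exact div_le_one_of_le₀ (h1 i hi) zero_le

/-- An element of a valuation ring over `A` is a quotient of integral elements with unit
denominator. -/
theorem exists_den {A : Subring L} {W : ValuationSubring L} (h : ∀ a ∈ A, a ∈ W) {x : L}
    (hx : x ∈ W) {p : L[X]} (hp : ∀ n, p.coeff n ∈ A) (h1 : ∃ n, p.coeff n ∉ W.nonunits)
    (h0 : p.eval x = 0) : ∃ y, IsIntegral A y ∧ IsIntegral A (y * x) ∧ y ∉ W.nonunits := by
  -- `q` is the upper part, `r` the negative of the lower part
  have key : ∀ (n : ℕ) (q : L[X]), q.natDegree = n → (∀ n, q.coeff n ∈ A) →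
      (∃ n, q.coeff n ∉ W.nonunits) →
      (∀ U : ValuationSubring L, (∀ a ∈ A, a ∈ U) → x⁻¹ ∈ U → q.eval x * x ∈ U) →
      ∃ y, IsIntegral A y ∧ IsIntegral A (y * x) ∧ y ∉ W.nonunits := by
    intro n
    induction n using Nat.strong_induction_on with
    | _ n ih =>
    intro q hn hq hu hU
    have hev : ∀ (U : ValuationSubring L) (r : L[X]), (∀ n, r.coeff n ∈ U) → x ∈ U →
        r.eval x ∈ U := fun U r hr hx => by
      rw [eval_eq_sum_range]
      exact sum_mem fun i _ => mul_mem (hr i) (pow_mem hx i)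
    have e : q.eval x = q.divX.eval x * x + q.coeff 0 := by
      conv_lhs => rw [← divX_mul_X_add q]
      simp
    obtain rfl | hx0 := eq_or_ne x 0
    · exact ⟨1, isIntegral_one, by simpa using isIntegral_zero, by simp [W.mem_nonunits_iff]⟩
    have hq1 : ∀ U : ValuationSubring L, (∀ a ∈ A, a ∈ U) → x⁻¹ ∈ U → q.eval x ∈ U :=
      fun U h1 h2 => by simpa [hx0] using mul_mem (hU U h1 h2) h2
    by_cases h2 : ∃ n, q.divX.coeff n ∉ W.nonunits
    · have h3 : q.divX ≠ 0 := by
        rintro h3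
        simp [h3] at h2
      refine ih _ ?_ q.divX rfl (fun n => by simpa only [coeff_divX] using hq _) h2
        fun U h1 h2 => ?_
      · rw [← hn, natDegree_divX_eq_natDegree_tsub_one]
        have : q.natDegree ≠ 0 := fun h4 => h3 (by rw [eq_C_of_natDegree_eq_zero h4, divX_C])
        omega
      · rw [eq_sub_of_add_eq e.symm]
        exact sub_mem (hq1 U h1 h2) (h1 _ (hq 0))
    · push Not at h2
      refine ⟨q.eval x, isIntegral_of_forall fun U h1 => ?_, isIntegral_of_forall fun U h1 => ?_,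
        fun h3 => ?_⟩
      · exact (U.mem_or_inv_mem x).elim (hev U q fun n => h1 _ (hq n)) (hq1 U h1)
      · exact (U.mem_or_inv_mem x).elim (fun h4 => mul_mem (hev U q (fun n => h1 _ (hq n)) h4) h4)
          (hU U h1)
      · obtain ⟨m, hm⟩ := hu
        refine hm ?_
        cases m with
        | succ m => simpa only [coeff_divX] using h2 m
        | zero =>
          rw [eq_sub_of_add_eq' e.symm]
          refine sub_mem h3 ?_
          rw [eval_eq_sum_range, Finset.sum_mul]
          refine sum_mem fun i _ => ?_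
          rw [W.mem_nonunits_iff, mul_assoc, map_mul]
          exact mul_lt_one_of_lt_of_le ((W.mem_nonunits_iff).1 (h2 i))
            ((W.valuation_le_one_iff _).2 (mul_mem (pow_mem hx i) hx))
  exact key _ p rfl hp h1 fun U _ _ => by simp [h0]

/-- Valuation rings that agree on the base of a Galois extension are conjugate. -/
theorem conj_val_gal {F : Type} [Field F] [Algebra F L] [IsGalois F L]
    {W W' : ValuationSubring L} (h : ∀ a, algebraMap F L a ∈ W ↔ algebraMap F L a ∈ W') :
    ∃ σ : L ≃ₐ[F] L, ∀ x, x ∈ W ↔ σ x ∈ W' := by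
  let A : Subring L := (algebraMap F L).range ⊓ W.toSubring
  have hW : ∀ a ∈ A, a ∈ W := fun a ha => ha.2
  have hW' : ∀ a ∈ A, a ∈ W' := by
    rintro _ ⟨⟨a, rfl⟩, ha⟩
    exact (h a).1 ha
  obtain ⟨σ, hσ⟩ := conj_centre (F := F) A (fun a ha => ha.1)
    (fun x hx h1 => ⟨hx, mem_of_isIntegral hW h1⟩) hW hW' (by
      rintro _ ⟨⟨a, rfl⟩, -⟩
      rw [W.mem_nonunits_iff_or, W'.mem_nonunits_iff_or, ← map_inv₀, h])
  have hn : ∀ x, x ∈ (W'.comap (σ : L →+* L)).nonunits ↔ σ x ∈ W'.nonunits := fun x => by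
    simp [ValuationSubring.mem_nonunits_iff_or]
  have le : ∀ U U' : ValuationSubring L, (∀ a ∈ A, a ∈ U) → (∀ a ∈ A, a ∈ U') →
      (∀ b, IsIntegral A b → b ∈ U'.nonunits → b ∈ U.nonunits) → ∀ x ∈ U, x ∈ U' := by
    intro U U' hU hU' hc x hx
    obtain ⟨p, hp0, hp⟩ := Algebra.IsAlgebraic.isAlgebraic (R := F) x
    obtain ⟨j, -, hj, h1⟩ := exists_max_val W p.support (fun i => algebraMap F L (p.coeff i))
      ⟨_, natDegree_mem_support_of_nonzero hp0, by simpa using hp0⟩
    obtain ⟨y, h2, h3, h4⟩ := exists_den hU hx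
      (p := p.map (algebraMap F L) * C (algebraMap F L (p.coeff j))⁻¹)
      (fun n => by
        rw [coeff_mul_C, coeff_map, ← div_eq_mul_inv]
        refine ⟨⟨p.coeff n / p.coeff j, map_div₀ _ _ _⟩, ?_⟩
        by_cases hn : n ∈ p.support
        · exact h1 n hn
        · simp [notMem_support_iff.1 hn])
      ⟨j, by simp [hj, U.mem_nonunits_iff]⟩ (by simp [eval_map_algebraMap, hp])
    have h5 : y ∉ U'.nonunits := fun h5 => h4 (hc y h2 h5)
    rw [U'.mem_nonunits_iff_or, not_or, not_not] at h5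
    simpa [h5.1] using mul_mem h5.2 (mem_of_isIntegral hU' h3)
  have hW'' : ∀ a ∈ A, a ∈ W'.comap (σ : L →+* L) := by
    rintro _ ⟨⟨a, rfl⟩, ha⟩
    simpa using (h a).1 ha
  exact ⟨σ, fun x => ⟨le _ _ hW hW'' (fun b hb h1 => (hσ b hb).2 ((hn b).1 h1)) x,
    le _ _ hW'' hW (fun b hb h1 => (hn b).2 ((hσ b hb).1 h1)) x⟩⟩

end gal

variable {K : Type} [Field K]

/-- An automorphism of a subfield extends to an algebraically closed field. -/
theorem exists_aut_ext [IsAlgClosed K] (L : Subfield K) (σ : L ≃+* L) :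
    ∃ τ : K ≃+* K, ∀ x : L, τ x = σ x := by
  obtain ⟨s, hs⟩ := exists_isTranscendenceBasis L K
  have := IsAlgClosed.isAlgClosure_of_transcendence_basis _ hs
  let e : Algebra.adjoin L (range ((↑) : s → K)) ≃+* Algebra.adjoin L (range ((↑) : s → K)) :=
    (hs.1.aevalEquiv.symm.toRingEquiv.trans (MvPolynomial.mapEquiv s σ)).trans
      hs.1.aevalEquiv.toRingEquiv
  refine ⟨IsAlgClosure.equivOfEquiv K K e, fun x => ?_⟩
  have h1 := IsAlgClosure.equivOfEquiv_algebraMap K K e (algebraMap L _ x)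
  have h2 : e (algebraMap L _ x) = algebraMap L _ (σ x) := by
    simp only [e, RingEquiv.trans_apply, AlgEquiv.coe_ringEquiv, AlgEquiv.commutes]
    rw [MvPolynomial.algebraMap_eq, MvPolynomial.mapEquiv_apply, MvPolynomial.map_C,
      ← MvPolynomial.algebraMap_eq, AlgEquiv.commutes]
    rfl
  rw [h2] at h1
  exact h1

variable [IsAlgClosed K] [CharZero K]

theorem isGalois_acl (F : Subfield K) : IsGalois F (algebraicClosure F K) :=
  have := algebraicClosure.isAlgClosure F K
  IsAlgClosure.isGalois F _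

omit [CharZero K] in
theorem exists_aut_gal (F : Subfield K) (σ : algebraicClosure F K ≃ₐ[F] algebraicClosure F K) :
    ∃ τ : K ≃+* K, (∀ x ∈ F, τ x = x) ∧ ∀ x : algebraicClosure F K, τ x = σ x := by
  obtain ⟨τ, h⟩ := exists_aut_ext (algebraicClosure F K).toSubfield σ.toRingEquiv
  exact ⟨τ, fun x hx => (h (algebraMap F (algebraicClosure F K) ⟨x, hx⟩)).trans
    (congrArg Subtype.val (σ.commutes ⟨x, hx⟩)), h⟩

/-- Valuation rings that agree on a subfield are conjugate on its algebraic closure. -/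
theorem conj_val (S : Set K) {W W' : ValuationSubring K}
    (h : ∀ x ∈ Subfield.closure S, x ∈ W ↔ x ∈ W') :
    ∃ τ : K ≃+* K, (∀ x ∈ Subfield.closure S, τ x = x) ∧ ∀ x ∈ acl S, x ∈ W ↔ τ x ∈ W' := by
  have := isGalois_acl (Subfield.closure S)
  obtain ⟨σ, hσ⟩ := conj_val_gal (F := Subfield.closure S)
    (W := W.comap (algebraicClosure (Subfield.closure S) K).val.toRingHom)
    (W' := W'.comap (algebraicClosure (Subfield.closure S) K).val.toRingHom) fun a => h a a.2
  obtain ⟨τ, h1, h2⟩ := exists_aut_gal _ σ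
  exact ⟨τ, h1, fun x hx => (hσ ⟨x, hx⟩).trans (by rw [h2 ⟨x, hx⟩]; rfl)⟩

end Pool.Agent.P.MP_f17f76_ag.E
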