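import Mathlib

/-!
Algebraic closure and relative transcendence degree for subsets of a field.
-/

namespace Pool.Agent.P.MP_f17f76_ag.E

open Set

variable {K : Type} [Field K] {F F' S S' : Set K} {x : K}

/-- The algebraic closure in `K` of the subfield generated by `S`. -/
noncomputable def acl (S : Set K) : Subfield K :=
  (algebraicClosure (Subfield.closure S) K).toSubfield

/-- The algebraic matroid over the subfield generated by `F`. -/
noncomputable abbrev mt (F : Set K) : Matroid K :=
  AlgebraicIndependent.matroid (Subfield.closure F) K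

/-- The transcendence degree of `S` over the field generated by `F`. -/
noncomputable def trd (F S : Set K) : ℕ := ((mt F).eRk S).toNat

theorem mem_acl : x ∈ acl S ↔ IsAlgebraic (Subfield.closure S) x := mem_algebraicClosure_iff

theorem isAlg_mono {A B : Subfield K} (h : A ≤ B) (hx : IsAlgebraic A x) : IsAlgebraic B x :=
  hx.ringHom_of_comp_eq (Subfield.inclusion h) (RingHom.id K) (Subfield.inclusion h).injective rfl

theorem closure_le_acl (S : Set K) : Subfield.closure S ≤ acl S := fun x hx =>
  mem_acl.2 (isAlgebraic_algebraMap (⟨x, hx⟩ : Subfield.closure S))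

theorem subset_acl (S : Set K) : S ⊆ acl S := Subfield.subset_closure.trans (closure_le_acl S)

theorem mem_acl_of_mem (h : x ∈ S) : x ∈ acl S := subset_acl S h

theorem mem_acl_of_isAlgebraic (h : IsAlgebraic (acl S) x) : x ∈ acl S :=
  mem_acl.2 (of_not_not fun h' => Transcendental.algebraicClosure h' h)

theorem acl_le (h : S ⊆ acl S') : acl S ≤ acl S' := fun _ hx =>
  mem_acl_of_isAlgebraic (isAlg_mono (Subfield.closure_le.2 h) (mem_acl.1 hx))

theorem acl_le_iff : acl S ≤ acl S' ↔ S ⊆ acl S' := ⟨fun h => (subset_acl S).trans h, acl_le⟩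

theorem acl_mono (h : S ⊆ S') : acl S ≤ acl S' := acl_le (h.trans (subset_acl _))

@[simp] theorem acl_acl (S : Set K) : acl (acl S : Set K) = acl S :=
  le_antisymm (acl_le subset_rfl) (acl_mono (subset_acl S))

theorem acl_congr (h : S ⊆ acl S') (h' : S' ⊆ acl S) : acl S = acl S' :=
  le_antisymm (acl_le h) (acl_le h')

@[simp] theorem acl_union_acl (S S' : Set K) : acl (S ∪ acl S') = acl (S ∪ S') :=
  acl_congr (union_subset (subset_union_left.trans (subset_acl _)) (acl_mono subset_union_right))
    ((union_subset_union_right _ (subset_acl _)).trans (subset_acl _))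

@[simp] theorem acl_acl_union (S S' : Set K) : acl (acl S ∪ S') = acl (S ∪ S') := by
  rw [union_comm, acl_union_acl, union_comm]

theorem mem_acl_subfield {A : Subfield K} : x ∈ acl (A : Set K) ↔ IsAlgebraic A x := by
  rw [mem_acl, Subfield.closure_eq]

theorem mem_acl_of_poly {p : Polynomial K} (hp : p ≠ 0) (hc : ∀ n, p.coeff n ∈ acl S)
    (h : p.eval x = 0) : x ∈ acl S := by
  obtain ⟨q, rfl⟩ := (Polynomial.mem_lifts (f := (acl S).subtype) p).1
    ((Polynomial.lifts_iff_coeff_lifts p).2 fun n => ⟨⟨_, hc n⟩, rfl⟩)
  refine mem_acl_of_isAlgebraic ⟨q, fun e => hp (by simp [e]), ?_⟩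
  rwa [Polynomial.eval_map] at h

theorem countable_closure (h : S.Countable) : (Subfield.closure S : Set K).Countable := by
  rw [← Cardinal.le_aleph0_iff_set_countable] at h ⊢
  exact (Subfield.cardinalMk_closure_le_max S).trans (max_le h le_rfl)

theorem countable_acl (h : S.Countable) : (acl S : Set K).Countable := by
  have : Countable (Subfield.closure S) := countable_closure h
  exact (Algebraic.countable (Subfield.closure S) K).mono fun _ hx => mem_acl.1 hx

instance [IsAlgClosed K] (S : Set K) : IsAlgClosed (acl S) :=
  (algebraicClosure.isAlgClosure (Subfield.closure S) K).isAlgClosed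

open scoped IntermediateField.algebraAdjoinAdjoin in
theorem mt_closure (F S : Set K) : (mt F).closure S = acl (F ∪ S) := by
  ext x
  rw [AlgebraicIndependent.matroid_closure_eq, SetLike.mem_coe, SetLike.mem_coe,
    Subalgebra.mem_algebraicClosure, mem_acl, IsFractionRing.isAlgebraic_iff _
      (IntermediateField.adjoin (Subfield.closure F) S)]
  have : (IntermediateField.adjoin (Subfield.closure F) S).toSubfield =
      Subfield.closure (F ∪ S) := by
    rw [IntermediateField.adjoin_toSubfield, Subfield.closure_union, Subfield.closure_union]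
    congr 1
    rw [show range (algebraMap (Subfield.closure F) K) = Subfield.closure F from
      Subtype.range_coe, Subfield.closure_eq]
  rw [← this]
  rfl

theorem eRk_ne_top (hS : S.Finite) : (mt F).eRk S ≠ ⊤ :=
  (((mt F).eRk_le_encard S).trans_lt hS.encard_lt_top).ne

theorem coe_trd (hS : S.Finite) : (trd F S : ℕ∞) = (mt F).eRk S := ENat.natCast_toNat (eRk_ne_top hS)

theorem trd_congr (h : S ⊆ acl (F ∪ S')) (h' : S' ⊆ acl (F ∪ S)) : trd F S = trd F S' := by
  rw [trd, trd, ← Matroid.eRk_closure_eq, ← Matroid.eRk_closure_eq _ S', mt_closure, mt_closure,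
    acl_congr (union_subset (subset_union_left.trans (subset_acl _)) h)
      (union_subset (subset_union_left.trans (subset_acl _)) h')]

theorem trd_acl (F S : Set K) : trd F (acl (F ∪ S)) = trd F S :=
  trd_congr subset_rfl ((subset_union_right.trans (subset_acl _)).trans
    (subset_union_right.trans (subset_acl _)))

theorem trd_le (hS' : S'.Finite) (h : S ⊆ acl (F ∪ S')) : trd F S ≤ trd F S' := by
  refine ENat.toNat_le_toNat ?_ (eRk_ne_top hS')
  rw [← Matroid.eRk_closure_eq _ S', mt_closure]
  exact Matroid.eRk_mono _ h

theorem trd_mono (hS' : S'.Finite) (h : S ⊆ S') : trd F S ≤ trd F S' :=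
  trd_le hS' (h.trans (subset_union_right.trans (subset_acl _)))

@[simp] theorem trd_empty (F : Set K) : trd F ∅ = 0 := by simp [trd]

theorem trd_insert_of_mem (h : x ∈ acl (F ∪ S)) : trd F (insert x S) = trd F S :=
  trd_congr (insert_subset h (subset_union_right.trans (subset_acl _)))
    ((subset_insert _ _).trans (subset_union_right.trans (subset_acl _)))

theorem trd_insert_of_notMem (hS : S.Finite) (h : x ∉ acl (F ∪ S)) :
    trd F (insert x S) = trd F S + 1 := by
  have := (mt F).eRk_insert_eq_add_one (e := x) (X := S) ⟨trivial, by rwa [mt_closure]⟩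
  rw [← coe_trd hS, ← coe_trd (hS.insert x)] at this
  exact_mod_cast this

theorem trd_union (hS : S.Finite) (hS' : S'.Finite) :
    trd F (S ∪ S') = trd F S + trd (F ∪ S) S' := by
  induction S', hS' using Set.Finite.induction_on with
  | empty => simp
  | @insert x T _ hT ih =>
    rw [union_insert]
    by_cases h : x ∈ acl (F ∪ S ∪ T)
    · rw [trd_insert_of_mem h, trd_insert_of_mem (by rwa [← union_assoc]), ih]
    · rw [trd_insert_of_notMem hT h, trd_insert_of_notMem (hS.union hT) (by rwa [← union_assoc]),
        ih, add_assoc]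

/-- Enlarging the base lowers the transcendence degree. -/
theorem trd_anti (hS : S.Finite) (h : F ⊆ acl F') : trd F' S ≤ trd F S := by
  induction S, hS using Set.Finite.induction_on with
  | empty => simp
  | @insert x T _ hT ih =>
    by_cases h1 : x ∈ acl (F ∪ T)
    · rw [trd_insert_of_mem h1, trd_insert_of_mem (acl_le (union_subset
        (h.trans (acl_mono subset_union_left)) (subset_union_right.trans (subset_acl _))) h1)]
      exact ih
    · rw [trd_insert_of_notMem hT h1]
      by_cases h2 : x ∈ acl (F' ∪ T)
      · rw [trd_insert_of_mem h2]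
        omega
      · rw [trd_insert_of_notMem hT h2]
        omega

theorem trd_congr_base (hS : S.Finite) (h : F ⊆ acl F') (h' : F' ⊆ acl F) : trd F S = trd F' S :=
  le_antisymm (trd_anti hS h') (trd_anti hS h)

theorem trd_acl_base (hS : S.Finite) : trd (acl F) S = trd F S :=
  trd_congr_base hS subset_rfl ((subset_acl _).trans (subset_acl _))

theorem trd_eq_zero_iff (hS : S.Finite) : trd F S = 0 ↔ S ⊆ acl F := by
  refine ⟨fun h x hx => by_contra fun hx' => ?_, fun h => ?_⟩
  · have h1 := trd_insert_of_notMem (F := F) (x := x) finite_empty (by rwa [union_empty])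
    have h2 := trd_mono (F := F) hS (insert_subset hx (empty_subset _))
    omega
  · rw [trd_congr (S' := ∅) (by rwa [union_empty]) (empty_subset _), trd_empty]

theorem trd_union_le (hS : S.Finite) (hS' : S'.Finite) : trd F (S ∪ S') ≤ trd F S + trd F S' := by
  rw [trd_union hS hS']
  exact Nat.add_le_add_left (trd_anti hS' (subset_union_left.trans (subset_acl _))) _

/-- Submodularity: `T` is algebraic over both `S` and `S'`, and `T'` over their union. -/
theorem trd_submod {T T' : Set K} (hS : S.Finite) (hS' : S'.Finite) (hT : T.Finite)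
    (h1 : T ⊆ acl (F ∪ S)) (h2 : T ⊆ acl (F ∪ S')) (h3 : T' ⊆ acl (F ∪ (S ∪ S'))) :
    trd F T + trd F T' ≤ trd F S + trd F S' := by
  have h4 := trd_le (hS.union hS') h3
  have h5 := trd_union (F := F) hS hS'
  have h6 := trd_union (F := F) hT hS'
  have h7 := trd_anti (F := F ∪ T) (F' := F ∪ S) hS'
    (union_subset (subset_union_left.trans (subset_acl _)) h1)
  have h8 := trd_le (F := F) hS' (union_subset h2 (subset_union_right.trans (subset_acl _)))
  omega

theorem trd_le_ncard (hS : S.Finite) : trd F S ≤ S.ncard := by
  have := (mt F).eRk_le_encard S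
  rw [← coe_trd hS, ← hS.cast_ncard_eq] at this
  exact_mod_cast this

theorem trd_range_le {ι : Type} [Fintype ι] (v : ι → K) : trd F (range v) ≤ Fintype.card ι := by
  refine (trd_le_ncard (finite_range v)).trans ?_
  rw [← image_univ, ← Nat.card_eq_fintype_card, ← ncard_univ]
  exact ncard_image_le finite_univ

theorem trd_range_eq_iff {ι : Type} [Fintype ι] {v : ι → K} :
    trd F (range v) = Fintype.card ι ↔ AlgebraicIndependent (Subfield.closure F) v := by
  have h0 := (mt F).indep_iff_eRk_eq_encard_of_finite (finite_range v)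
  rw [← coe_trd (finite_range v), ← (finite_range v).cast_ncard_eq, Nat.cast_inj] at h0
  rw [← Nat.card_eq_fintype_card, ← ncard_univ]
  refine ⟨fun h => ?_, fun h => ?_⟩
  · have h1 := trd_le_ncard (F := F) (finite_range v)
    have h2 : (v '' univ).ncard ≤ (univ : Set ι).ncard := ncard_image_le finite_univ
    have h3 : (v '' univ).ncard = (univ : Set ι).ncard := by
      rw [image_univ] at h2 ⊢
      omega
    exact (algebraicIndependent_subtype_range
      (injOn_univ.1 (injOn_of_ncard_image_eq h3 finite_univ))).1 (h0.2 (by
        rw [image_univ] at h3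
        omega))
  · rw [h0.1 h.to_subtype_range, ← image_univ, ncard_image_of_injective _ h.injective]

/-- A transcendence basis inside `S`. -/
theorem exists_trd_basis (F : Set K) (hS : S.Finite) : ∃ v : Fin (trd F S) → K,
    (∀ i, v i ∈ S) ∧ AlgebraicIndependent (Subfield.closure F) v ∧ S ⊆ acl (F ∪ range v) := by
  obtain ⟨B, hB⟩ := (mt F).exists_isBasis S
  have hBf := hS.subset hB.subset
  have h1 : B.ncard = trd F S := by
    have := hB.encard_eq_eRk
    rw [← coe_trd hS, ← hBf.cast_ncard_eq] at this
    exact_mod_cast this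
  have := hBf.to_subtype
  let e : Fin (trd F S) ≃ B := (Finite.equivFinOfCardEq h1).symm
  refine ⟨fun i => e i, fun i => hB.subset (e i).2,
    AlgebraicIndependent.comp (AlgebraicIndependent.matroid_indep_iff.1 hB.indep) _ e.injective, ?_⟩
  rw [show range (fun i => (e i : K)) = B from
    (e.surjective.range_comp _).trans Subtype.range_coe, ← mt_closure]
  exact hB.subset_closure

section map

variable {K' : Type} [Field K'] (φ : K →+* K')

theorem mem_acl_map : φ x ∈ acl (φ '' S) ↔ x ∈ acl S := by
  rw [mem_acl, mem_acl, ← RingHom.map_field_closure]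
  exact isAlgebraic_ringHom_iff_of_comp_eq ((Subfield.closure S).toSubring.equivMapOfInjective φ
    φ.injective) φ φ.injective rfl

theorem map_acl_le (S : Set K) : φ '' acl S ⊆ acl (φ '' S) := by
  rintro _ ⟨x, hx, rfl⟩
  exact (mem_acl_map φ).2 hx

theorem trd_map (hS : S.Finite) : trd (φ '' F) (φ '' S) = trd F S := by
  induction S, hS using Set.Finite.induction_on with
  | empty => simp
  | @insert x T _ hT ih =>
    rw [image_insert_eq]
    by_cases h : x ∈ acl (F ∪ T)
    · rw [trd_insert_of_mem h, trd_insert_of_mem (by rwa [← image_union, mem_acl_map]), ih]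
    · rw [trd_insert_of_notMem hT h, trd_insert_of_notMem (hT.image _)
        (by rwa [← image_union, mem_acl_map]), ih]

end map

/-- `S` is free from `F'` over `F`. -/
def Free (F S F' : Set K) : Prop := ∀ s ⊆ S, s.Finite → trd (F ∪ F') s = trd F s

theorem Free.symm (h : Free F S S') : Free F S' S := by
  intro s' hs' hf'
  refine le_antisymm (trd_anti hf' (subset_union_left.trans (subset_acl _))) ?_
  -- a finite part of `S` already gives the transcendence degree over `F ∪ S`
  obtain ⟨s, hs, hf, h1⟩ : ∃ s ⊆ S, s.Finite ∧ trd (F ∪ s) s' ≤ trd (F ∪ S) s' := by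
    clear hs'
    induction s', hf' using Set.Finite.induction_on with
    | empty => exact ⟨∅, empty_subset _, finite_empty, by simp⟩
    | @insert x T _ hT ih =>
      obtain ⟨s, hs, hf, h1⟩ := ih
      by_cases h2 : x ∈ acl (F ∪ S ∪ T)
      · have h3 : x ∈ (mt (F ∪ T)).closure S := by rwa [mt_closure, union_right_comm]
        obtain ⟨I, hI, hIf, -, h4⟩ := Matroid.exists_mem_finite_closure_of_mem_closure h3
        rw [mt_closure, union_right_comm] at h4
        refine ⟨s ∪ I, union_subset hs hI, hf.union hIf, ?_⟩
        rw [trd_insert_of_mem h2, trd_insert_of_mem (acl_mono (union_subset_union_left _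
          (union_subset_union_right _ subset_union_right)) h4)]
        exact (trd_anti hT ((union_subset_union_right _ subset_union_left).trans
          (subset_acl _))).trans h1
      · refine ⟨s, hs, hf, ?_⟩
        rw [trd_insert_of_notMem hT h2, trd_insert_of_notMem hT fun h3 => h2
          (acl_mono (union_subset_union_left _ (union_subset_union_right _ hs)) h3)]
        omega
  have h2 := h s hs hf
  have h3 := trd_anti (F := F ∪ s') (F' := F ∪ S') hf
    ((union_subset_union_right _ hs').trans (subset_acl _))
  have h4 := trd_union (F := F) hf hf'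
  have h5 := trd_union (F := F) hf' hf
  rw [union_comm s' s] at h5
  omega

theorem Free.mono {T T' : Set K} (h : Free F S S') (hT : T ⊆ S) (hT' : T' ⊆ acl (F ∪ S')) :
    Free F T T' := fun s hs hf =>
  le_antisymm (trd_anti hf (subset_union_left.trans (subset_acl _))) ((h s (hs.trans hT) hf).ge.trans
    (trd_anti hf (union_subset (subset_union_left.trans (subset_acl _)) hT')))

theorem Free.acl_right (h : Free F S S') : Free F S (acl (F ∪ S')) := h.mono subset_rfl subset_rfl

theorem Free.acl_left (h : Free F S S') : Free F (acl (F ∪ S)) S' := h.symm.acl_right.symm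

theorem free_of_trd (hS : S.Finite) (h : trd F S ≤ trd (F ∪ F') S) : Free F S F' := by
  intro s hs hf
  refine le_antisymm (trd_anti hf (subset_union_left.trans (subset_acl _))) ?_
  have h1 := trd_union (F := F) hf hS
  have h2 := trd_union (F := F ∪ F') hf hS
  have h3 := trd_anti (F := F ∪ s) (F' := F ∪ F' ∪ s) hS
    ((union_subset_union_left _ subset_union_left).trans (subset_acl _))
  rw [union_eq_right.2 hs] at h1 h2
  omega

theorem Free.trans {T : Set K} (h : Free F S S') (h' : Free (F ∪ S') S T) : Free F S (S' ∪ T) :=
  fun s hs hf => by rw [← union_assoc, h' s hs hf, h s hs hf]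

end Pool.Agent.P.MP_f17f76_ag.E
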