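import Pool.Agent.P.MP_f17f76_ag.E.TwDef

/-!
The calculus of the function `HH`.
-/

namespace Pool.Agent.P.MP_f17f76_ag.E

open Set

variable {K : Type} [Field K] {F S T : Set K}

theorem acl_ul (F S : Set K) : F ⊆ acl (F ∪ S) := subset_union_left.trans (subset_acl _)

theorem acl_ur (F S : Set K) : S ⊆ acl (F ∪ S) := subset_union_right.trans (subset_acl _)

theorem acl_tl (h : T ⊆ acl F) (S : Set K) : T ⊆ acl (F ∪ S) :=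
  h.trans (acl_mono subset_union_left)

theorem Free.add_base (h : Free F S T) {T' : Set K} (hT : T' ⊆ acl (F ∪ T)) : Free (F ∪ T') S T :=
  fun s hs hf => le_antisymm (trd_anti hf (acl_ul _ _)) ((trd_anti hf (acl_ul F T')).trans
    ((h s hs hf).ge.trans (trd_anti hf (union_subset (union_subset (acl_ul _ _) hT) (acl_ur _ _)))))

theorem acl_tr (h : T ⊆ acl S) (F : Set K) : T ⊆ acl (F ∪ S) :=
  h.trans (acl_mono subset_union_right)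

end Pool.Agent.P.MP_f17f76_ag.E

namespace Pool.Agent.P.MP_f17f76_ag.AbVar

open Set Module E

variable {g N : ℕ} {A : AbVar g N} {k : Subfield ℂ} {F S : Set ℂ} {z w : Fin g → ℂ}
  {P₁ P₂ Q₁ Q₂ U U' C : Submodule ℂ (Fin g → ℂ)}

theorem finite_qq (A : AbVar g N) (z w : Fin g → ℂ) (Q₁ Q₂ : Submodule ℂ (Fin g → ℂ)) :
    (A.qq z w Q₁ Q₂).Finite := (finite_range _).union (finite_range _)

theorem qq_z (A : AbVar g N) (z w : Fin g → ℂ) (Q₁ Q₂ : Submodule ℂ (Fin g → ℂ)) :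
    range (A.pr Q₁ z) ⊆ A.qq z w Q₁ Q₂ := subset_union_left

theorem qq_a (A : AbVar g N) (z w : Fin g → ℂ) (Q₁ Q₂ : Submodule ℂ (Fin g → ℂ)) :
    range (A.crd (A.pr Q₂ w)) ⊆ A.qq z w Q₁ Q₂ := subset_union_right

theorem Over.qq_le (h : A.Over k) (hk : (k : Set ℂ) ⊆ acl S) (l₁ : A.IsLie P₁) (l₂ : A.IsLie P₂)
    (h₁ : P₁ ≤ Q₁) (h₂ : P₂ ≤ Q₂) (hq : A.qq z w Q₁ Q₂ ⊆ acl S) : A.qq z w P₁ P₂ ⊆ acl S :=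
  union_subset (h.pr_le l₁ h₁ hk (subset_union_left.trans hq))
    (h.crd_pr_le l₂ h₂ hk (subset_union_right.trans hq))

theorem Over.qq_sup (h : A.Over k) (hk : (k : Set ℂ) ⊆ acl S) (l₁ : A.IsLie P₁)
    (l₂ : A.IsLie P₂) (m₁ : A.IsLie Q₁) (m₂ : A.IsLie Q₂) (hp : A.qq z w P₁ P₂ ⊆ acl S)
    (hq : A.qq z w Q₁ Q₂ ⊆ acl S) : A.qq z w (P₁ ⊔ Q₁) (P₂ ⊔ Q₂) ⊆ acl S :=
  union_subset (h.pr_sup l₁ m₁ hk (subset_union_left.trans hp) (subset_union_left.trans hq))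
    (h.crd_pr_sup l₂ m₂ hk (subset_union_right.trans hp) (subset_union_right.trans hq))

theorem Over.qq_le' (h : A.Over k) (hk : (k : Set ℂ) ⊆ acl F) (l₁ : A.IsLie P₁)
    (l₂ : A.IsLie P₂) (h₁ : P₁ ≤ Q₁) (h₂ : P₂ ≤ Q₂) :
    A.qq z w P₁ P₂ ⊆ acl (F ∪ A.qq z w Q₁ Q₂) :=
  h.qq_le (acl_tl hk _) l₁ l₂ h₁ h₂ (acl_ur _ _)

theorem Over.qq_bot (h : A.Over k) (hk : (k : Set ℂ) ⊆ acl S) : A.qq z w ⊥ ⊥ ⊆ acl S := by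
  rw [qq, pr_bot, pr_bot]
  exact union_subset (range_subset_iff.2 fun _ => zero_mem _)
    (range_subset_iff.2 fun j => hk (h.crd_zero j))

theorem Over.HH_mono (h : A.Over k) (hk : (k : Set ℂ) ⊆ acl F) (l₁ : A.IsLie P₁)
    (l₂ : A.IsLie P₂) (h₁ : P₁ ≤ Q₁) (h₂ : P₂ ≤ Q₂) : A.HH F z w P₁ P₂ ≤ A.HH F z w Q₁ Q₂ :=
  trd_le (A.finite_qq _ _ _ _) (h.qq_le' hk l₁ l₂ h₁ h₂)

theorem Over.HH_submod (h : A.Over k) (hk : (k : Set ℂ) ⊆ acl F) (l₁ : A.IsLie P₁)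
    (l₂ : A.IsLie P₂) (m₁ : A.IsLie Q₁) (m₂ : A.IsLie Q₂) :
    A.HH F z w (P₁ ⊓ Q₁) (P₂ ⊓ Q₂) + A.HH F z w (P₁ ⊔ Q₁) (P₂ ⊔ Q₂) ≤
      A.HH F z w P₁ P₂ + A.HH F z w Q₁ Q₂ :=
  trd_submod (A.finite_qq _ _ _ _) (A.finite_qq _ _ _ _) (A.finite_qq _ _ _ _)
    (h.qq_le' hk (l₁.inf m₁) (l₂.inf m₂) inf_le_left inf_le_left)
    (h.qq_le' hk (l₁.inf m₁) (l₂.inf m₂) inf_le_right inf_le_right)
    (h.qq_sup (acl_tl hk _) l₁ l₂ m₁ m₂ (acl_tr (acl_ul _ _) _) (acl_tr (acl_ur _ _) _))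

/-- Additivity in towers. -/
theorem Over.HH_add (h : A.Over k) (hk : (k : Set ℂ) ⊆ acl F) (l₁ : A.IsLie P₁)
    (l₂ : A.IsLie P₂) (h₁ : P₁ ≤ Q₁) (h₂ : P₂ ≤ Q₂) :
    A.HH F z w Q₁ Q₂ = A.HH F z w P₁ P₂ + A.HH (F ∪ A.qq z w P₁ P₂) z w Q₁ Q₂ := by
  rw [HH, HH, HH, ← trd_union (A.finite_qq _ _ _ _) (A.finite_qq _ _ _ _)]
  exact trd_congr (acl_tr (acl_ur _ _) _) (union_subset (h.qq_le' hk l₁ l₂ h₁ h₂) (acl_ur _ _))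

theorem Over.HH_rel (h : A.Over k) (hk : (k : Set ℂ) ⊆ acl F) (l₁ : A.IsLie P₁)
    (l₂ : A.IsLie P₂) (m₁ : A.IsLie Q₁) (m₂ : A.IsLie Q₂) (h₁ : P₁ ≤ Q₁) (h₂ : P₂ ≤ Q₂)
    (hp : A.qq z w P₁ P₂ ⊆ acl F) :
    A.HH F z w Q₁ Q₂ = A.HH F z w (A.rel Q₁ P₁) (A.rel Q₂ P₂) := by
  refine trd_congr ?_ (h.qq_le' hk (m₁.rel l₁) (m₂.rel l₂) (A.rel_le _ _) (A.rel_le _ _))
  have := h.qq_sup (acl_tl hk _) l₁ l₂ (m₁.rel l₁) (m₂.rel l₂) (acl_tl hp _) (acl_ur F _)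
  rwa [A.sup_rel h₁, A.sup_rel h₂] at this

theorem Over.HH_bot_left (h : A.Over k) (hk : (k : Set ℂ) ⊆ acl F) :
    A.HH F z w ⊥ U = trd F (range (A.crd (A.pr U w))) :=
  trd_congr (union_subset (acl_tl (subset_union_left.trans (h.qq_bot (w := w) hk)) _) (acl_ur _ _))
    (acl_tr (acl_ur _ _) _)

theorem Over.HH_bot_right (h : A.Over k) (hk : (k : Set ℂ) ⊆ acl F) :
    A.HH F z w U ⊥ = trd F (range (A.pr U z)) :=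
  trd_congr (union_subset (acl_ur _ _) (acl_tl (subset_union_right.trans (h.qq_bot (z := z) hk)) _))
    (acl_tr (acl_ul _ _) _)

theorem Over.HH_rel_right (h : A.Over k) (hk : (k : Set ℂ) ⊆ acl F) (m₁ : A.IsLie Q₁)
    (l₂ : A.IsLie P₂) (m₂ : A.IsLie Q₂) (h₂ : P₂ ≤ Q₂) (hp : A.qq z w Q₁ P₂ ⊆ acl F) :
    A.HH F z w Q₁ Q₂ = trd F (range (A.crd (A.pr (A.rel Q₂ P₂) w))) := by
  rw [h.HH_rel hk m₁ l₂ m₁ m₂ le_rfl h₂ hp, rel_self, h.HH_bot_left hk]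

theorem Over.HH_rel_left (h : A.Over k) (hk : (k : Set ℂ) ⊆ acl F) (l₁ : A.IsLie P₁)
    (m₁ : A.IsLie Q₁) (m₂ : A.IsLie Q₂) (h₁ : P₁ ≤ Q₁) (hp : A.qq z w P₁ Q₂ ⊆ acl F) :
    A.HH F z w Q₁ Q₂ = trd F (range (A.pr (A.rel Q₁ P₁) z)) := by
  rw [h.HH_rel hk l₁ m₂ m₁ m₂ h₁ le_rfl hp, rel_self, h.HH_bot_right hk]

theorem Over.HH_le_right (h : A.Over k) (hk : (k : Set ℂ) ⊆ acl F) (m₁ : A.IsLie Q₁)
    (l₂ : A.IsLie P₂) (m₂ : A.IsLie Q₂) (h₂ : P₂ ≤ Q₂) :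
    A.HH F z w Q₁ Q₂ + finrank ℂ P₂ ≤ A.HH F z w Q₁ P₂ + finrank ℂ Q₂ := by
  have h1 := h.trd_crd_le (acl_tl hk (A.qq z w Q₁ P₂)) (m₂.rel l₂) (A.pr_mem _ w)
  have h2 := A.finrank_rel h₂
  rw [h.HH_add hk m₁ l₂ le_rfl h₂, h.HH_rel_right (acl_tl hk _) m₁ l₂ m₂ h₂ (acl_ur _ _)]
  omega

theorem Over.HH_le_left (h : A.Over k) (hk : (k : Set ℂ) ⊆ acl F) (l₁ : A.IsLie P₁)
    (m₁ : A.IsLie Q₁) (m₂ : A.IsLie Q₂) (h₁ : P₁ ≤ Q₁) :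
    A.HH F z w Q₁ Q₂ + finrank ℂ P₁ ≤ A.HH F z w P₁ Q₂ + finrank ℂ Q₁ := by
  have h1 := h.trd_pr_le (acl_tl hk (A.qq z w P₁ Q₂)) (m₁.rel l₁) z
  have h2 := A.finrank_rel h₁
  rw [h.HH_add hk l₁ m₂ h₁ le_rfl, h.HH_rel_left (acl_tl hk _) l₁ m₁ m₂ h₁ (acl_ur _ _)]
  omega

/-- Change of the base to a field that is free from the point. -/
theorem Over.HH_free (h : A.Over k) (hk : (k : Set ℂ) ⊆ acl F) (l₁ : A.IsLie P₁)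
    (l₂ : A.IsLie P₂) (h₁ : P₁ ≤ Q₁) (h₂ : P₂ ≤ Q₂) {c : Set ℂ}
    (hc : F ∪ A.qq z w P₁ P₂ ⊆ acl c) (hf : E.Free (F ∪ A.qq z w P₁ P₂) (A.qq z w Q₁ Q₂) c) :
    A.HH F z w Q₁ Q₂ = A.HH F z w P₁ P₂ + A.HH c z w Q₁ Q₂ := by
  rw [h.HH_add hk l₁ l₂ h₁ h₂, HH, HH, HH, ← hf _ subset_rfl (A.finite_qq _ _ _ _),
    trd_congr_base (A.finite_qq _ _ _ _) (union_subset hc (subset_acl c)) (acl_ur _ c)]

theorem HH_eq_zero_iff : A.HH F z w Q₁ Q₂ = 0 ↔ A.qq z w Q₁ Q₂ ⊆ acl F :=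
  trd_eq_zero_iff (A.finite_qq _ _ _ _)

theorem exists_min_sub {p : Submodule ℂ (Fin g → ℂ) → Prop} (h : ∃ U, p U) :
    ∃ U, p U ∧ ∀ V, p V → ¬ V < U := (wellFounded_lt (α := Submodule ℂ (Fin g → ℂ))).has_min _ h

theorem exists_max_sub {p : Submodule ℂ (Fin g → ℂ) → Prop} (h : ∃ U, p U) :
    ∃ U, p U ∧ ∀ V, p V → ¬ U < V := (wellFounded_gt (α := Submodule ℂ (Fin g → ℂ))).has_min _ h

end Pool.Agent.P.MP_f17f76_ag.AbVar
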