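import Pool.Agent.P.MP_f17f76_ag.E.Nd
import Pool.Agent.P.MP_f17f76_ag.E.AxS

/-!
The transcendence degree of a pair of projections: definitions.
-/

namespace Pool.Agent.P.MP_f17f76_ag.AbVar

open Set Module E

variable {g N : ℕ} (A : AbVar g N)

/-- The coordinates of `z_{Q₁}` and of `a_{Q₂}`. -/
def qq (z w : Fin g → ℂ) (Q₁ Q₂ : Submodule ℂ (Fin g → ℂ)) : Set ℂ :=
  range (A.pr Q₁ z) ∪ range (A.crd (A.pr Q₂ w))

/-- The transcendence degree of `(z_{Q₁}, a_{Q₂})` over `F`. -/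
noncomputable def HH (F : Set ℂ) (z w : Fin g → ℂ) (Q₁ Q₂ : Submodule ℂ (Fin g → ℂ)) : ℕ :=
  trd F (A.qq z w Q₁ Q₂)

end Pool.Agent.P.MP_f17f76_ag.AbVar
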